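import Pool.Agent.Lib.MP_9393b1_co.Defs

set_option autoImplicit false

namespace Pool.Agent.Lib.Durfee

namespace Comb

/-- multisets with all entries in `[1,k]` and sum `m` -/
def PFin : ℕ → ℕ → Finset (Multiset ℕ)
  | 0, m => if m = 0 then {0} else ∅
  | k + 1, m => PFin k m ∪
      if _h : k + 1 ≤ m then (PFin (k + 1) (m - (k + 1))).image (fun s => (k + 1) ::ₘ s) else ∅
termination_by k m => (k, m)

lemma PFin_zero (m : ℕ) : PFin 0 m = if m = 0 then {0} else ∅ := by
  rw [PFin]

lemma PFin_succ (k m : ℕ) : PFin (k + 1) m = PFin k m ∪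
      if k + 1 ≤ m then (PFin (k + 1) (m - (k + 1))).image (fun s => (k + 1) ::ₘ s) else ∅ := by
  rw [PFin]
  rfl

lemma mem_PFin (k m : ℕ) (s : Multiset ℕ) :
    s ∈ PFin k m ↔ (∀ a ∈ s, 1 ≤ a ∧ a ≤ k) ∧ s.sum = m := by
  induction k generalizing m s with
  | zero =>
    rw [PFin_zero]
    split_ifs with h
    · subst h
      rw [Finset.mem_singleton]
      constructor
      · rintro rfl; simp
      · rintro ⟨h1, _⟩
        refine Multiset.eq_zero_of_forall_notMem fun a ha => ?_
        have := h1 a ha
        omega
    · simp only [Finset.notMem_empty, false_iff, not_and]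
      intro h1
      have : s = 0 := Multiset.eq_zero_of_forall_notMem fun a ha => by
        have := h1 a ha
        omega
      rw [this]
      simpa using fun h' => h h'.symm
  | succ k ihk =>
    induction m using Nat.strong_induction_on generalizing s with
    | _ m ihm =>
      rw [PFin_succ, Finset.mem_union, ihk]
      constructor
      · rintro (⟨h1, h2⟩ | h1)
        · exact ⟨fun a ha => ⟨(h1 a ha).1, by have := (h1 a ha).2; omega⟩, h2⟩
        · split_ifs at h1 with h
          · rw [Finset.mem_image] at h1
            obtain ⟨t, ht, rfl⟩ := h1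
            rw [ihm _ (by omega)] at ht
            refine ⟨fun a ha => ?_, ?_⟩
            · rcases Multiset.mem_cons.mp ha with rfl | ha
              · omega
              · exact ht.1 a ha
            · rw [Multiset.sum_cons, ht.2]; omega
          · simp at h1
      · rintro ⟨h1, h2⟩
        by_cases hk : (k + 1) ∈ s
        · right
          obtain ⟨t, rfl⟩ := Multiset.exists_cons_of_mem hk
          rw [Multiset.sum_cons] at h2
          rw [if_pos (by omega), Finset.mem_image]
          refine ⟨t, ?_, rfl⟩
          rw [ihm _ (by omega)]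
          exact ⟨fun a ha => h1 a (Multiset.mem_cons_of_mem ha), by omega⟩
        · left
          refine ⟨fun a ha => ?_, h2⟩
          have := h1 a ha
          have : a ≠ k + 1 := fun h => hk (h ▸ ha)
          omega

lemma card_PFin (k m : ℕ) : (PFin k m).card = pk k m := by
  induction k generalizing m with
  | zero =>
    rw [PFin_zero, pk]
    split_ifs <;> simp
  | succ k ihk =>
    induction m using Nat.strong_induction_on with
    | _ m ihm =>
      rw [PFin_succ, pk, Finset.card_union_of_disjoint, ihk]
      · congr 1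
        split_ifs with h
        · rw [Finset.card_image_of_injective _ (fun s t h => (Multiset.cons_inj_right (k + 1)).mp h),
            ihm _ (by omega)]
        · simp
      · rw [Finset.disjoint_left]
        intro s hs hs'
        rw [mem_PFin] at hs
        split_ifs at hs' with h
        · rw [Finset.mem_image] at hs'
          obtain ⟨t, _, rfl⟩ := hs'
          have := hs.1 (k + 1) (Multiset.mem_cons_self _ _)
          omega
        · simp at hs'

/-- multisets of cardinality `k` (zeros allowed) and sum `m` -/
def QFin : ℕ → ℕ → Finset (Multiset ℕ)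
  | 0, m => if m = 0 then {0} else ∅
  | k + 1, m => (QFin k m).image (fun s => 0 ::ₘ s) ∪
      if _h : k + 1 ≤ m then (QFin (k + 1) (m - (k + 1))).image (Multiset.map (· + 1)) else ∅
termination_by k m => (k, m)

lemma QFin_zero (m : ℕ) : QFin 0 m = if m = 0 then {0} else ∅ := by
  rw [QFin]

lemma QFin_succ (k m : ℕ) : QFin (k + 1) m = (QFin k m).image (fun s => 0 ::ₘ s) ∪
      if k + 1 ≤ m then (QFin (k + 1) (m - (k + 1))).image (Multiset.map (· + 1)) else ∅ := by
  rw [QFin]
  rfl

lemma sum_map_add_one (s : Multiset ℕ) : (s.map (· + 1)).sum = s.sum + s.card := by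
  induction s using Multiset.induction_on with
  | empty => simp
  | cons a s ih =>
    rw [Multiset.map_cons, Multiset.sum_cons, ih, Multiset.sum_cons, Multiset.card_cons]
    omega

lemma mem_QFin (k m : ℕ) (s : Multiset ℕ) :
    s ∈ QFin k m ↔ s.card = k ∧ s.sum = m := by
  induction k generalizing m s with
  | zero =>
    rw [QFin_zero]
    split_ifs with h
    · subst h
      rw [Finset.mem_singleton]
      constructor
      · rintro rfl; simp
      · rintro ⟨h1, _⟩
        exact Multiset.card_eq_zero.mp h1
    · simp only [Finset.notMem_empty, false_iff, not_and]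
      intro h1
      rw [Multiset.card_eq_zero.mp h1]
      simpa using fun h' => h h'.symm
  | succ k ihk =>
    induction m using Nat.strong_induction_on generalizing s with
    | _ m ihm =>
      rw [QFin_succ, Finset.mem_union, Finset.mem_image]
      constructor
      · rintro (⟨t, ht, rfl⟩ | h1)
        · rw [ihk] at ht
          rw [Multiset.card_cons, Multiset.sum_cons, ht.1, ht.2]
          omega
        · split_ifs at h1 with h
          · rw [Finset.mem_image] at h1
            obtain ⟨t, ht, rfl⟩ := h1
            rw [ihm _ (by omega)] at ht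
            rw [Multiset.card_map, sum_map_add_one, ht.1, ht.2]
            omega
          · simp at h1
      · rintro ⟨h1, h2⟩
        by_cases hk : 0 ∈ s
        · left
          obtain ⟨t, rfl⟩ := Multiset.exists_cons_of_mem hk
          rw [Multiset.sum_cons] at h2
          rw [Multiset.card_cons] at h1
          exact ⟨t, by rw [ihk]; omega, rfl⟩
        · right
          have h3 : (s.map (· - 1)).map (· + 1) = s := by
            rw [Multiset.map_map]
            conv_rhs => rw [← Multiset.map_id s]
            refine Multiset.map_congr rfl fun a ha => ?_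
            have : a ≠ 0 := fun h => hk (h ▸ ha)
            simp only [Function.comp, id]
            omega
          have h4 := sum_map_add_one (s.map (· - 1))
          rw [h3, Multiset.card_map, h1, h2] at h4
          rw [if_pos (by omega), Finset.mem_image]
          refine ⟨s.map (· - 1), ?_, h3⟩
          rw [ihm _ (by omega), Multiset.card_map]
          omega

lemma card_QFin (k m : ℕ) : (QFin k m).card = pk k m := by
  induction k generalizing m with
  | zero =>
    rw [QFin_zero, pk]
    split_ifs <;> simp
  | succ k ihk =>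
    induction m using Nat.strong_induction_on with
    | _ m ihm =>
      rw [QFin_succ, pk, Finset.card_union_of_disjoint,
        Finset.card_image_of_injective _ (fun s t h => (Multiset.cons_inj_right 0).mp h), ihk]
      · congr 1
        split_ifs with h
        · rw [Finset.card_image_of_injective _
            (Multiset.map_injective (add_left_injective 1)), ihm _ (by omega)]
        · simp
      · rw [Finset.disjoint_left]
        intro s hs hs'
        rw [Finset.mem_image] at hs
        obtain ⟨t, _, rfl⟩ := hs
        split_ifs at hs' with h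
        · rw [Finset.mem_image] at hs'
          obtain ⟨u, _, hu⟩ := hs'
          have h0 : (0 : ℕ) ∈ u.map (· + 1) := by
            rw [hu]; exact Multiset.mem_cons_self _ _
          rw [Multiset.mem_map] at h0
          obtain ⟨a, _, ha⟩ := h0
          omega
        · simp at hs'

/-- number of entries at least `k` -/
def cc (s : Multiset ℕ) (k : ℕ) : ℕ := Multiset.card (s.filter (fun p => k ≤ p))

/-- Durfee number -/
def durf (n : ℕ) (s : Multiset ℕ) : ℕ :=
  ((Finset.Icc 1 n).filter (fun k => k ≤ Multiset.card (s.filter (fun p => k ≤ p)))).card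

lemma cc_antitone (s : Multiset ℕ) {j k : ℕ} (h : j ≤ k) : cc s k ≤ cc s j := by
  unfold cc
  exact Multiset.card_le_card (Multiset.monotone_filter_right s (fun p hp => le_trans h hp))

lemma mul_cc_le (s : Multiset ℕ) (k : ℕ) : k * cc s k ≤ s.sum := by
  induction s using Multiset.induction_on with
  | empty => simp [cc]
  | cons a s ih =>
    rw [Multiset.sum_cons]
    unfold cc at ih ⊢
    rw [Multiset.filter_cons]
    split_ifs with h
    · rw [Multiset.card_add, Multiset.card_singleton]
      nlinarith
    · rw [zero_add]; omega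

lemma durf_eq_of (n : ℕ) (s : Multiset ℕ) (hs : s.sum = n) (k : ℕ) (h1 : k ≤ cc s k)
    (h2 : cc s (k + 1) < k + 1) : durf n s = k := by
  have hset : (Finset.Icc 1 n).filter (fun k => k ≤ Multiset.card (s.filter (fun p => k ≤ p)))
      = Finset.Icc 1 k := by
    ext j
    rw [Finset.mem_filter, Finset.mem_Icc, Finset.mem_Icc]
    constructor
    · rintro ⟨⟨h3, h4⟩, h5⟩
      refine ⟨h3, ?_⟩
      by_contra h6
      have h7 : cc s j ≤ cc s (k + 1) := cc_antitone s (by omega)
      have h8 : j ≤ cc s j := h5
      omega
    · rintro ⟨h3, h4⟩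
      have h5 : k * cc s k ≤ s.sum := mul_cc_le s k
      have h6 : k * k ≤ k * cc s k := Nat.mul_le_mul_left k h1
      have h7 : k ≤ k * k := Nat.le_mul_self k
      have h8 : cc s k ≤ cc s j := cc_antitone s h4
      exact ⟨⟨h3, by omega⟩, show j ≤ cc s j by omega⟩
  unfold durf
  rw [hset, Nat.card_Icc]
  omega

lemma durf_spec (n : ℕ) (s : Multiset ℕ) (hs : s.sum = n) :
    durf n s ≤ cc s (durf n s) ∧ cc s (durf n s + 1) < durf n s + 1 := by
  set k0 := Nat.findGreatest (fun k => k ≤ cc s k) n with hk0
  have h1 : k0 ≤ cc s k0 := by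
    have := Nat.findGreatest_spec (P := fun k => k ≤ cc s k) (Nat.zero_le n) (Nat.zero_le _)
    exact this
  have h2 : cc s (k0 + 1) < k0 + 1 := by
    by_contra h3
    push Not at h3
    have h5 : (k0 + 1) * cc s (k0 + 1) ≤ s.sum := mul_cc_le s (k0 + 1)
    have h6 : (k0 + 1) * (k0 + 1) ≤ (k0 + 1) * cc s (k0 + 1) := Nat.mul_le_mul_left _ h3
    have h7 : k0 + 1 ≤ (k0 + 1) * (k0 + 1) := Nat.le_mul_self _
    exact Nat.findGreatest_is_greatest (P := fun k => k ≤ cc s k) (n := n) (k := k0 + 1)
      (by omega) (by omega) h3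
  rw [durf_eq_of n s hs k0 h1 h2]
  exact ⟨h1, h2⟩

lemma durf_sq_le (n : ℕ) (s : Multiset ℕ) (hs : s.sum = n) : durf n s ^ 2 ≤ n := by
  have h1 := (durf_spec n s hs).1
  have h5 := mul_cc_le s (durf n s)
  have h6 := Nat.mul_le_mul_left (durf n s) h1
  rw [pow_two]
  omega

/-- the gluing map -/
def glue (k : ℕ) (A B : Multiset ℕ) : Multiset ℕ := A.map (· + k) + B

lemma sum_map_add (k : ℕ) (s : Multiset ℕ) : (s.map (· + k)).sum = s.sum + k * s.card := by
  induction s using Multiset.induction_on with
  | empty => simp
  | cons a s ih =>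
    rw [Multiset.map_cons, Multiset.sum_cons, ih, Multiset.sum_cons, Multiset.card_cons]
    ring

lemma filter_glue (k : ℕ) (A B : Multiset ℕ) (hB : ∀ a ∈ B, 1 ≤ a ∧ a ≤ k) :
    (glue k A B).filter (fun p => k + 1 ≤ p) = (A.filter (fun p => 1 ≤ p)).map (· + k) := by
  unfold glue
  rw [Multiset.filter_add, Multiset.filter_map]
  have h1 : B.filter (fun p => k + 1 ≤ p) = 0 := by
    rw [Multiset.filter_eq_nil]
    intro a ha
    have := hB a ha
    omega
  rw [h1, add_zero]
  congr 1
  refine Multiset.filter_congr fun a _ => ?_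
  simp only [Function.comp]
  omega

lemma durf_glue (n k : ℕ) (A B : Multiset ℕ) (hA : A.card = k)
    (hB : ∀ a ∈ B, 1 ≤ a ∧ a ≤ k) (hn : (glue k A B).sum = n) : durf n (glue k A B) = k := by
  refine durf_eq_of n _ hn k ?_ ?_
  · unfold cc glue
    rw [Multiset.filter_add, Multiset.card_add]
    have h1 : (A.map (· + k)).filter (fun p => k ≤ p) = A.map (· + k) := by
      rw [Multiset.filter_eq_self]
      intro a ha
      rw [Multiset.mem_map] at ha
      obtain ⟨b, _, rfl⟩ := ha
      omega
    rw [h1, Multiset.card_map, hA]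
    omega
  · unfold cc
    rw [filter_glue k A B hB, Multiset.card_map]
    have := Multiset.card_le_card (Multiset.filter_le (fun p => 1 ≤ p) A)
    omega

lemma eq_of_filter (A A' : Multiset ℕ) (h : A.card = A'.card)
    (h2 : A.filter (fun p => 1 ≤ p) = A'.filter (fun p => 1 ≤ p)) : A = A' := by
  have key : ∀ A : Multiset ℕ, A = A.filter (fun p => 1 ≤ p) +
      Multiset.replicate (A.card - (A.filter (fun p => 1 ≤ p)).card) 0 := by
    intro A
    have h3 : A.filter (fun p => ¬ 1 ≤ p) = Multiset.replicate
        ((A.filter (fun p => ¬ 1 ≤ p)).card) 0 := by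
      rw [Multiset.eq_replicate]
      refine ⟨rfl, fun b hb => ?_⟩
      have := (Multiset.mem_filter.mp hb).2
      omega
    have h4 : A.filter (fun p => 1 ≤ p) + A.filter (fun p => ¬ 1 ≤ p) = A :=
      Multiset.filter_add_not _ _
    have h5 : (A.filter (fun p => 1 ≤ p)).card + (A.filter (fun p => ¬ 1 ≤ p)).card = A.card := by
      rw [← Multiset.card_add, h4]
    have h6 : A.card - (A.filter (fun p => 1 ≤ p)).card = (A.filter (fun p => ¬ 1 ≤ p)).card := by
      omega
    rw [h6, ← h3, h4]
  rw [key A, key A', h2, h]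

lemma glue_inj (k : ℕ) (A B A' B' : Multiset ℕ) (hA : A.card = k) (hA' : A'.card = k)
    (hB : ∀ a ∈ B, 1 ≤ a ∧ a ≤ k) (hB' : ∀ a ∈ B', 1 ≤ a ∧ a ≤ k)
    (h : glue k A B = glue k A' B') : A = A' ∧ B = B' := by
  have h1 : A = A' := by
    refine eq_of_filter A A' (by rw [hA, hA']) ?_
    have h2 := congrArg (Multiset.filter (fun p => k + 1 ≤ p)) h
    rw [filter_glue k A B hB, filter_glue k A' B' hB'] at h2
    exact Multiset.map_injective (add_left_injective k) h2
  refine ⟨h1, ?_⟩
  subst h1
  unfold glue at h
  exact add_left_cancel h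

lemma glue_surj (n k : ℕ) (s : Multiset ℕ) (hs : s.sum = n) (hpos : ∀ a ∈ s, 0 < a)
    (hk : durf n s = k) :
    ∃ A B : Multiset ℕ, A.card = k ∧ (∀ a ∈ B, 1 ≤ a ∧ a ≤ k) ∧ glue k A B = s := by
  obtain ⟨h1, h2⟩ := durf_spec n s hs
  rw [hk] at h1 h2
  unfold cc at h1 h2
  set G := s.filter (fun p => k + 1 ≤ p) with hG
  have hsplit1 : s = G + s.filter (fun p => ¬ k + 1 ≤ p) := (Multiset.filter_add_not _ _).symm
  set R := s.filter (fun p => ¬ k + 1 ≤ p) with hR
  have hsplit2 : R = R.filter (fun p => k ≤ p) + R.filter (fun p => ¬ k ≤ p) :=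
    (Multiset.filter_add_not _ _).symm
  set E := R.filter (fun p => k ≤ p) with hE
  set S := R.filter (fun p => ¬ k ≤ p) with hS
  have hE' : E = Multiset.replicate E.card k := by
    rw [Multiset.eq_replicate]
    refine ⟨rfl, fun b hb => ?_⟩
    have h3 := Multiset.mem_filter.mp hb
    have h4 := (Multiset.mem_filter.mp h3.1).2
    have := h3.2
    omega
  have hc : s.filter (fun p => k ≤ p) = G + E := by
    conv_lhs => rw [hsplit1]
    rw [Multiset.filter_add]
    congr 1
    rw [Multiset.filter_eq_self]
    intro a ha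
    have := (Multiset.mem_filter.mp ha).2
    omega
  rw [hc, Multiset.card_add] at h1
  have hGk : G.card ≤ k := by omega
  refine ⟨G.map (· - k) + Multiset.replicate (k - G.card) 0,
    S + Multiset.replicate (E.card - (k - G.card)) k, ?_, ?_, ?_⟩
  · rw [Multiset.card_add, Multiset.card_map, Multiset.card_replicate]
    omega
  · intro a ha
    rcases Multiset.mem_add.mp ha with ha | ha
    · have h3 := Multiset.mem_filter.mp ha
      have h4 := Multiset.mem_filter.mp h3.1
      have h5 := hpos a h4.1
      have := h3.2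
      omega
    · have h3 := Multiset.eq_of_mem_replicate ha
      subst h3
      by_contra h4
      have h5 : a = 0 := by omega
      subst h5
      have h6 : (0 : ℕ) ∈ E := by
        rw [hE']
        rw [Multiset.mem_replicate] at ha ⊢
        refine ⟨?_, rfl⟩
        have := ha.1
        omega
      have h7 := hpos 0 (Multiset.mem_filter.mp (Multiset.mem_filter.mp h6).1).1
      omega
  · unfold glue
    rw [Multiset.map_add, Multiset.map_replicate, Multiset.map_map]
    have h3 : G.map ((· + k) ∘ (· - k)) = G := by
      conv_rhs => rw [← Multiset.map_id G]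
      refine Multiset.map_congr rfl fun a ha => ?_
      have := (Multiset.mem_filter.mp ha).2
      simp only [Function.comp, id]
      omega
    rw [h3, zero_add]
    conv_rhs => rw [hsplit1, hsplit2, hE']
    have h4 : E.card = (k - G.card) + (E.card - (k - G.card)) := by omega
    conv_rhs => rw [h4, Multiset.replicate_add]
    abel

lemma card_durf (n k : ℕ) (hk : k ^ 2 ≤ n) :
    ((Finset.univ : Finset (Nat.Partition n)).filter (fun μ => durf n μ.parts = k)).card =
      dco n k := by
  have h1 : dco n k = ((Finset.HasAntidiagonal.antidiagonal (n - k ^ 2)).sigma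
      (fun ij => QFin k ij.1 ×ˢ PFin k ij.2)).card := by
    rw [dco, if_pos hk, Finset.card_sigma]
    refine Finset.sum_congr rfl fun ij _ => ?_
    rw [Finset.card_product, card_QFin, card_PFin]
  rw [h1]
  symm
  have hinj : Function.Injective (fun μ : Nat.Partition n => μ.parts) := by
    intro μ ν h
    exact Nat.Partition.ext h
  rw [← Finset.card_image_of_injective _ hinj]
  refine Finset.card_bij (fun x _ => glue k x.2.1 x.2.2) ?_ ?_ ?_
  · rintro ⟨⟨i, j⟩, ⟨A, B⟩⟩ hx
    rw [Finset.mem_sigma, Finset.mem_product, Finset.HasAntidiagonal.mem_antidiagonal] at hx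
    simp only [mem_QFin, mem_PFin] at hx
    obtain ⟨hij, ⟨hA, hAs⟩, ⟨hB, hBs⟩⟩ := hx
    have hsum : (glue k A B).sum = n := by
      unfold glue
      rw [Multiset.sum_add, sum_map_add, hAs, hBs, hA, ← pow_two]
      omega
    rw [Finset.mem_image]
    refine ⟨⟨glue k A B, ?_, hsum⟩, ?_, rfl⟩
    · intro a ha
      unfold glue at ha
      rcases Multiset.mem_add.mp ha with ha | ha
      · rw [Multiset.mem_map] at ha
        obtain ⟨b, hb, rfl⟩ := ha
        have : 0 < A.card := Multiset.card_pos_iff_exists_mem.mpr ⟨b, hb⟩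
        omega
      · have := hB a ha
        omega
    · rw [Finset.mem_filter]
      exact ⟨Finset.mem_univ _, durf_glue n k A B hA hB hsum⟩
  · rintro ⟨⟨i, j⟩, ⟨A, B⟩⟩ hx ⟨⟨i', j'⟩, ⟨A', B'⟩⟩ hx' heq
    rw [Finset.mem_sigma, Finset.mem_product, Finset.HasAntidiagonal.mem_antidiagonal] at hx hx'
    simp only [mem_QFin, mem_PFin] at hx hx' heq
    obtain ⟨hij, ⟨hA, hAs⟩, ⟨hB, hBs⟩⟩ := hx
    obtain ⟨hij', ⟨hA', hAs'⟩, ⟨hB', hBs'⟩⟩ := hx'
    obtain ⟨e1, e2⟩ := glue_inj k A B A' B' hA hA' hB hB' heq
    subst e1 e2
    rw [← hAs, ← hBs, ← hAs', ← hBs']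
  · intro s hs
    rw [Finset.mem_image] at hs
    obtain ⟨μ, hμ, rfl⟩ := hs
    rw [Finset.mem_filter] at hμ
    obtain ⟨A, B, hA, hB, hg⟩ := glue_surj n k μ.parts μ.parts_sum (fun a ha => μ.parts_pos ha) hμ.2
    refine ⟨⟨(A.sum, B.sum), (A, B)⟩, ?_, hg⟩
    rw [Finset.mem_sigma, Finset.mem_product, Finset.HasAntidiagonal.mem_antidiagonal]
    simp only [mem_QFin, mem_PFin]
    refine ⟨?_, ⟨hA, trivial⟩, hB, trivial⟩
    have hsum : (glue k A B).sum = n := by rw [hg]; exact μ.parts_sum
    unfold glue at hsum
    rw [Multiset.sum_add, sum_map_add, hA, ← pow_two] at hsum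
    omega

end Comb

/-- The Durfee polynomial, as written in the frozen statement S10183, is `Dpoly n`. -/
theorem partition_sum_eq (n : ℕ) :
    (∑ μ ∈ (Finset.univ : Finset (Nat.Partition n)),
        (Polynomial.X : Polynomial ℝ) ^
          ((Finset.Icc 1 n).filter
            (fun k => k ≤ Multiset.card (μ.parts.filter (fun p => k ≤ p)))).card) = Dpoly n := by
  have h1 : (∑ μ ∈ (Finset.univ : Finset (Nat.Partition n)),
        (Polynomial.X : Polynomial ℝ) ^ Comb.durf n μ.parts) = Dpoly n := by
    rw [← Finset.sum_fiberwise_of_maps_to (s := (Finset.univ : Finset (Nat.Partition n)))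
      (t := Finset.range (Nat.sqrt n + 1)) (g := fun μ => Comb.durf n μ.parts)]
    · unfold Dpoly
      refine Finset.sum_congr rfl fun k hk => ?_
      rw [Finset.mem_range] at hk
      have hk2 : k ^ 2 ≤ n := by
        have : k ≤ Nat.sqrt n := by omega
        exact Nat.le_sqrt'.mp this
      rw [← Comb.card_durf n k hk2]
      have h2 : ∀ μ ∈ (Finset.univ : Finset (Nat.Partition n)).filter
          (fun μ => Comb.durf n μ.parts = k),
          (Polynomial.X : Polynomial ℝ) ^ Comb.durf n μ.parts = Polynomial.X ^ k := by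
        intro μ hμ
        rw [(Finset.mem_filter.mp hμ).2]
      rw [Finset.sum_congr rfl h2, Finset.sum_const, nsmul_eq_mul]
      simp
    · intro μ _
      rw [Finset.mem_range]
      have := Nat.le_sqrt'.mpr (Comb.durf_sq_le n μ.parts μ.parts_sum)
      omega
  exact h1

end Pool.Agent.Lib.Durfee
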