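import Pool.Agent.Lib.MP_9393b1_co.SpecA

/-! # The function `W(θ) = Phi(i w e^{iθ}) + Phi(i w e^{-iθ})` for `|θ| < π/2` -/

set_option autoImplicit false

namespace Pool.Agent.Lib.Durfee

open Complex MeasureTheory Filter Topology

noncomputable def WW (w θ : ℝ) : ℂ :=
  Phi (I * w * exp (I * θ)) + Phi (I * w * exp (-(I * θ)))

/-- real and imaginary part of `gam w` -/
noncomputable def gR (w : ℝ) : ℝ := 2 * w ^ 2 / (1 + w ^ 2)

noncomputable def gI (w : ℝ) : ℝ := 2 * w / (1 + w ^ 2)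

theorem gam_eq (w : ℝ) : gam w = (gR w : ℂ) + (gI w : ℂ) * I := by
  unfold gam gR gI
  have h1 : (1 + I * (w : ℂ)) ≠ 0 := by
    intro h
    have := congrArg Complex.re h
    simp at this
  have h2 : (1 + (w : ℂ) ^ 2) ≠ 0 := by
    have : (0 : ℝ) < 1 + w ^ 2 := by positivity
    intro h
    apply this.ne'
    exact_mod_cast h
  push_cast
  field_simp
  linear_combination (-(w : ℂ) ^ 2) * I_sq

theorem WW_zero (w : ℝ) : WW w 0 = VV w := by
  unfold WW VV
  simp
  ring

theorem WW_neg (w θ : ℝ) : WW w (-θ) = WW w θ := by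
  unfold WW
  rw [add_comm]
  congr 3
  · push_cast
    ring_nf
  · push_cast
    ring_nf

theorem dec_re (r θ : ℝ) : (1 + I * r * exp (I * θ)).re = 1 - r * Real.sin θ := by
  have : exp (I * θ) = (Real.cos θ : ℂ) + (Real.sin θ : ℂ) * I := by
    rw [mul_comm, Complex.exp_mul_I]
    push_cast
    ring
  rw [this]
  simp [mul_add, Complex.sin_ofReal_re, Complex.cos_ofReal_re, Complex.sin_ofReal_im,
    Complex.cos_ofReal_im]
  ring

theorem dec_im (r θ : ℝ) : (1 + I * r * exp (I * θ)).im = r * Real.cos θ := by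
  have : exp (I * θ) = (Real.cos θ : ℂ) + (Real.sin θ : ℂ) * I := by
    rw [mul_comm, Complex.exp_mul_I]
    push_cast
    ring
  rw [this]
  simp [mul_add, Complex.sin_ofReal_re, Complex.cos_ofReal_re, Complex.sin_ofReal_im,
    Complex.cos_ofReal_im]

theorem dec_norm_sq (r θ : ℝ) : ‖1 + I * r * exp (I * θ)‖ ^ 2 = 1 + r ^ 2 - 2 * r * Real.sin θ := by
  rw [Complex.sq_norm, Complex.normSq_apply, dec_re, dec_im]
  have := Real.sin_sq_add_cos_sq θ
  linear_combination r ^ 2 * this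

theorem dec_norm_ge (r θ : ℝ) : Real.cos θ ≤ ‖1 + I * r * exp (I * θ)‖ := by
  apply le_of_sq_le_sq _ (norm_nonneg _)
  rw [dec_norm_sq]
  have := Real.sin_sq_add_cos_sq θ
  nlinarith [sq_nonneg (r - Real.sin θ)]

theorem dec_slit {r θ : ℝ} (hr : 0 < r) (hc : 0 < Real.cos θ) :
    1 + I * r * exp (I * θ) ∈ slitPlane := by
  right
  rw [dec_im]
  positivity

theorem dec_slit_seg {r θ s : ℝ} (hr : 0 < r) (hc : 0 < Real.cos θ) (hs : 0 ≤ s) :
    1 + (s : ℂ) * (I * r * exp (I * θ)) ∈ slitPlane := by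
  rcases hs.eq_or_lt with h | h
  · rw [← h]
    simp
  · have := dec_slit (r := s * r) (θ := θ) (by positivity) hc
    convert this using 2
    push_cast
    ring

/-- bound of the logarithm -/
theorem dec_norm_log {r θ : ℝ} (hr : 0 < r) (hc : 0 < Real.cos θ) :
    ‖log (1 + I * r * exp (I * θ))‖ ≤ r / Real.cos θ := by
  set z : ℂ := I * r * exp (I * θ) with hz
  have hzn : ‖z‖ = r := by
    rw [hz, norm_mul, norm_mul, norm_I, one_mul, Complex.norm_real, mul_comm I, norm_exp_ofReal_mul_I,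
      mul_one, Real.norm_of_nonneg hr.le]
  have hd : ∀ s ∈ Set.Icc (0 : ℝ) 1,
      HasDerivWithinAt (fun s : ℝ => log (1 + (s : ℂ) * z)) (z / (1 + (s : ℂ) * z)) (Set.Icc 0 1) s := by
    intro s hs
    have h1 : HasDerivAt (fun s : ℝ => 1 + (s : ℂ) * z) z s := by
      have := ((hasDerivAt_id s).ofReal_comp.mul_const z).const_add (1 : ℂ)
      simpa using this
    exact (h1.clog_real (dec_slit_seg hr hc hs.1)).hasDerivWithinAt
  have hb : ∀ s ∈ Set.Ico (0 : ℝ) 1, ‖z / (1 + (s : ℂ) * z)‖ ≤ r / Real.cos θ := by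
    intro s hs
    rw [norm_div, hzn]
    apply div_le_div_of_nonneg_left hr.le hc
    have h2 : 1 + I * ((s * r : ℝ) : ℂ) * exp (I * θ) = 1 + (s : ℂ) * z := by
      rw [hz]
      push_cast
      ring
    rw [← h2]
    exact dec_norm_ge (s * r) θ
  have := norm_image_sub_le_of_norm_deriv_le_segment_01' hd hb
  simpa using this

/-- one branch: derivative along the arc -/
theorem dec_hasDerivAt {w θ : ℝ} (hw : 0 < w) (hc : 0 < Real.cos θ) :
    HasDerivAt (fun x : ℝ => Phi (I * w * exp (I * x))) (I * log (1 + I * w * exp (I * θ))) θ := by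
  -- a neighbourhood where the cosine is bounded below
  set δ : ℝ := Real.cos θ / 2 with hδ
  have hδ0 : 0 < δ := by positivity
  have hnb : {x : ℝ | δ < Real.cos x} ∈ 𝓝 θ :=
    (isOpen_lt continuous_const Real.continuous_cos).mem_nhds (by
      show δ < Real.cos θ
      rw [hδ]
      linarith)
  have hr : ∀ u : ℝ, 0 < w * Real.exp (-u) := fun u => by positivity
  have hz : ∀ x u : ℝ, 1 + I * w * exp (I * x) * (Real.exp (-u) : ℂ) =
      1 + I * ((w * Real.exp (-u) : ℝ) : ℂ) * exp (I * x) := by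
    intro x u
    push_cast
    ring
  have hcont : ∀ x : ℝ, 0 < Real.cos x → Continuous fun u : ℝ =>
      log (1 + I * w * exp (I * x) * (Real.exp (-u) : ℂ)) := by
    intro x hx
    refine Continuous.clog (by fun_prop) fun u => ?_
    rw [hz]
    exact dec_slit (hr u) hx
  have hint : ∀ x : ℝ, 0 < Real.cos x → IntegrableOn (fun u : ℝ =>
      log (1 + I * w * exp (I * x) * (Real.exp (-u) : ℂ))) (Set.Ioi 0) := by
    intro x hx
    have h1 : IntegrableOn (fun u : ℝ => w / Real.cos x * Real.exp (-u)) (Set.Ioi 0) :=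
      (integrableOn_exp_neg_Ioi 0).const_mul _
    refine Integrable.mono' h1 (hcont x hx).aestronglyMeasurable (Eventually.of_forall fun u => ?_)
    rw [hz]
    refine (dec_norm_log (hr u) hx).trans (le_of_eq ?_)
    ring
  have hderiv : ∀ x u : ℝ, 0 < Real.cos x → HasDerivAt (fun x : ℝ =>
      log (1 + I * w * exp (I * x) * (Real.exp (-u) : ℂ)))
      (I * (I * w * exp (I * x) * (Real.exp (-u) : ℂ)) /
        (1 + I * w * exp (I * x) * (Real.exp (-u) : ℂ))) x := by
    intro x u hx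
    have h1 : HasDerivAt (fun x : ℝ => 1 + I * w * exp (I * x) * (Real.exp (-u) : ℂ))
        (I * (I * w * exp (I * x) * (Real.exp (-u) : ℂ))) x := by
      have h2 : HasDerivAt (fun x : ℝ => I * (x : ℂ)) I x := by
        simpa using (hasDerivAt_id x).ofReal_comp.const_mul I
      have h3 := ((h2.cexp.const_mul (I * (w : ℂ))).mul_const (Real.exp (-u) : ℂ)).const_add (1 : ℂ)
      refine h3.congr_deriv ?_
      ring
    refine h1.clog_real ?_
    rw [hz]
    exact dec_slit (hr u) hx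
  have hbound : ∀ x u : ℝ, δ < Real.cos x → ‖I * (I * w * exp (I * x) * (Real.exp (-u) : ℂ)) /
        (1 + I * w * exp (I * x) * (Real.exp (-u) : ℂ))‖ ≤ w / δ * Real.exp (-u) := by
    intro x u hx
    rw [norm_div, norm_mul, norm_I, one_mul, norm_mul, norm_mul, norm_mul, norm_I, one_mul,
      Complex.norm_real, Complex.norm_real, mul_comm I (x : ℂ), norm_exp_ofReal_mul_I, mul_one,
      Real.norm_of_nonneg hw.le, Real.norm_of_nonneg (Real.exp_pos _).le, mul_comm (x : ℂ) I, hz]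
    have h1 : δ ≤ ‖1 + I * ((w * Real.exp (-u) : ℝ) : ℂ) * exp (I * x)‖ :=
      hx.le.trans (dec_norm_ge _ _)
    calc w * Real.exp (-u) / ‖1 + I * ((w * Real.exp (-u) : ℝ) : ℂ) * exp (I * x)‖
        ≤ w * Real.exp (-u) / δ := div_le_div_of_nonneg_left (hr u).le hδ0 h1
      _ = w / δ * Real.exp (-u) := by ring
  have hb_int : IntegrableOn (fun u : ℝ => w / δ * Real.exp (-u)) (Set.Ioi 0) :=
    (integrableOn_exp_neg_Ioi 0).const_mul _
  have hcosθ : δ < Real.cos θ := by rw [hδ]; linarith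
  have key := hasDerivAt_integral_of_dominated_loc_of_deriv_le (μ := volume.restrict (Set.Ioi 0))
    (F := fun x u : ℝ => log (1 + I * w * exp (I * x) * (Real.exp (-u) : ℂ)))
    (F' := fun x u : ℝ => I * (I * w * exp (I * x) * (Real.exp (-u) : ℂ)) /
        (1 + I * w * exp (I * x) * (Real.exp (-u) : ℂ)))
    (x₀ := θ) (s := {x : ℝ | δ < Real.cos x}) (bound := fun u => w / δ * Real.exp (-u)) hnb
    (by
      filter_upwards [hnb] with x hx
      exact (hcont x (hδ0.trans hx)).aestronglyMeasurable)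
    (hint θ hc)
    (by
      have : Continuous fun u : ℝ => I * (I * w * exp (I * θ) * (Real.exp (-u) : ℂ)) /
        (1 + I * w * exp (I * θ) * (Real.exp (-u) : ℂ)) := by
        refine Continuous.div (by fun_prop) (by fun_prop) fun u => ?_
        rw [hz]
        exact slitPlane_ne_zero (dec_slit (hr u) hc)
      exact this.aestronglyMeasurable)
    (Eventually.of_forall fun u x hx => hbound x u hx)
    hb_int
    (Eventually.of_forall fun u x hx => hderiv x u (hδ0.trans hx))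
  have hval : ∫ u in Set.Ioi (0 : ℝ), I * (I * w * exp (I * θ) * (Real.exp (-u) : ℂ)) /
        (1 + I * w * exp (I * θ) * (Real.exp (-u) : ℂ)) = I * log (1 + I * w * exp (I * θ)) := by
    have h1 : ∀ u ∈ Set.Ici (0 : ℝ), HasDerivAt (fun u : ℝ =>
        -I * log (1 + I * w * exp (I * θ) * (Real.exp (-u) : ℂ)))
        (I * (I * w * exp (I * θ) * (Real.exp (-u) : ℂ)) /
        (1 + I * w * exp (I * θ) * (Real.exp (-u) : ℂ))) u := by
      intro u _
      have h2 : HasDerivAt (fun u : ℝ => ((Real.exp (-u) : ℝ) : ℂ)) (-(Real.exp (-u) : ℝ) : ℂ) u := by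
        have := (hasDerivAt_neg u).exp.ofReal_comp
        convert this using 1
        push_cast
        ring
      have h3 := (h2.const_mul (I * w * exp (I * θ))).const_add (1 : ℂ)
      have h4 := (h3.clog_real (by rw [hz]; exact dec_slit (hr u) hc)).const_mul (-I)
      refine h4.congr_deriv ?_
      ring
    have h5 : Tendsto (fun u : ℝ => -I * log (1 + I * w * exp (I * θ) * (Real.exp (-u) : ℂ)))
        atTop (𝓝 (-I * log (1 + I * w * exp (I * θ) * ((0 : ℝ) : ℂ)))) := by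
      have h6 : Tendsto (fun u : ℝ => ((Real.exp (-u) : ℝ) : ℂ)) atTop (𝓝 ((0 : ℝ) : ℂ)) :=
        (continuous_ofReal.tendsto 0).comp Real.tendsto_exp_neg_atTop_nhds_zero
      refine Tendsto.const_mul _ (Tendsto.clog ((h6.const_mul _).const_add 1) ?_)
      simp
    have h7 := integral_Ioi_of_hasDerivAt_of_tendsto' h1
      (Integrable.mono' hb_int (by
        have : Continuous fun u : ℝ => I * (I * w * exp (I * θ) * (Real.exp (-u) : ℂ)) /
          (1 + I * w * exp (I * θ) * (Real.exp (-u) : ℂ)) := by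
          refine Continuous.div (by fun_prop) (by fun_prop) fun u => ?_
          rw [hz]
          exact slitPlane_ne_zero (dec_slit (hr u) hc)
        exact this.aestronglyMeasurable) (Eventually.of_forall fun u => hbound θ u hcosθ)) h5
    rw [h7]
    simp
  have := key.2
  rw [hval] at this
  exact this

theorem hasDerivAt_WW {w θ : ℝ} (hw : 0 < w) (h1 : -(Real.pi / 2) < θ) (h2 : θ < Real.pi / 2) :
    HasDerivAt (fun x : ℝ => WW w x)
      (I * (log (1 + I * w * exp (I * θ)) - log (1 + I * w * exp (-(I * θ))))) θ := by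
  have hc : 0 < Real.cos θ := Real.cos_pos_of_mem_Ioo ⟨h1, h2⟩
  have hc' : 0 < Real.cos (-θ) := by rwa [Real.cos_neg]
  have h3 := dec_hasDerivAt hw hc
  have h4 := dec_hasDerivAt hw hc'
  have h5 : HasDerivAt (fun x : ℝ => Phi (I * w * exp (-(I * x))))
      (-(I * log (1 + I * w * exp (-(I * θ))))) θ := by
    have h6 := h4.scomp θ (hasDerivAt_neg θ)
    have h7 : (fun x : ℝ => Phi (I * w * exp (-(I * x)))) =
        (fun x : ℝ => Phi (I * w * exp (I * x))) ∘ Neg.neg := by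
      ext x
      simp
    rw [h7]
    refine h6.congr_deriv ?_
    simp
  have h8 := h3.add h5
  refine h8.congr_deriv ?_
  ring

/-- monotonicity on `[0, θ]` -/
theorem dec_mono {f f' : ℝ → ℝ} {θ : ℝ} (h0 : 0 ≤ θ)
    (hf : ∀ x ∈ Set.Icc 0 θ, HasDerivAt f (f' x) x) (hp : ∀ x ∈ Set.Icc 0 θ, 0 ≤ f' x) :
    f 0 ≤ f θ := by
  have h1 : MonotoneOn f (Set.Icc 0 θ) := by
    refine monotoneOn_of_deriv_nonneg (convex_Icc 0 θ)
      (fun x hx => (hf x hx).continuousAt.continuousWithinAt)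
      (fun x hx => (hf x (interior_subset hx)).differentiableAt.differentiableWithinAt)
      (fun x hx => ?_)
    rw [(hf x (interior_subset hx)).deriv]
    exact hp x (interior_subset hx)
  exact h1 (Set.left_mem_Icc.2 h0) (Set.right_mem_Icc.2 h0) h0

/-- derivative of the real part of `V - W` -/
noncomputable def decA (w θ : ℝ) : ℝ :=
  (log (1 + I * w * exp (I * θ))).im - (log (1 + I * w * exp (-(I * θ)))).im

/-- derivative of the imaginary part of `V - W` -/
noncomputable def decB (w θ : ℝ) : ℝ :=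
  (log (1 + I * w * exp (-(I * θ)))).re - (log (1 + I * w * exp (I * θ))).re

theorem dec_re_deriv {w θ : ℝ} (hw : 0 < w) (h1 : -(Real.pi / 2) < θ) (h2 : θ < Real.pi / 2) :
    HasDerivAt (fun x : ℝ => (VV w - WW w x).re) (decA w θ) θ := by
  have h3 := (hasDerivAt_WW hw h1 h2).const_sub (VV w)
  have h4 := Complex.reCLM.hasFDerivAt.comp_hasDerivAt θ h3
  refine h4.congr_deriv ?_
  simp [decA]

theorem dec_im_deriv {w θ : ℝ} (hw : 0 < w) (h1 : -(Real.pi / 2) < θ) (h2 : θ < Real.pi / 2) :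
    HasDerivAt (fun x : ℝ => (VV w - WW w x).im) (decB w θ) θ := by
  have h3 := (hasDerivAt_WW hw h1 h2).const_sub (VV w)
  have h4 := Complex.imCLM.hasFDerivAt.comp_hasDerivAt θ h3
  refine h4.congr_deriv ?_
  simp [decB]

theorem dec_neg_eq (w θ : ℝ) :
    1 + I * w * exp (-(I * θ)) = 1 + I * w * exp (I * ((-θ : ℝ) : ℂ)) := by
  push_cast
  ring_nf

/-- sine and cosine of `decA` -/
theorem dec_sin_cos {w θ : ℝ} (hw : 0 < w) (hc : 0 < Real.cos θ) :
    ∃ M : ℝ, 0 < M ∧ M ^ 2 = (1 + w ^ 2) ^ 2 - 4 * w ^ 2 * Real.sin θ ^ 2 ∧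
      Real.sin (decA w θ) = 2 * w ^ 2 * Real.sin θ * Real.cos θ / M ∧
      Real.cos (decA w θ) = (1 + w ^ 2 * (2 * Real.cos θ ^ 2 - 1)) / M := by
  have hc' : 0 < Real.cos (-θ) := by rwa [Real.cos_neg]
  set z1 : ℂ := 1 + I * w * exp (I * θ) with hz1
  set z2 : ℂ := 1 + I * w * exp (-(I * θ)) with hz2
  have h1 : z1 ≠ 0 := slitPlane_ne_zero (dec_slit hw hc)
  have h2 : z2 ≠ 0 := by rw [hz2, dec_neg_eq]; exact slitPlane_ne_zero (dec_slit hw hc')
  have hr1 : z1.re = 1 - w * Real.sin θ := dec_re w θ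
  have hi1 : z1.im = w * Real.cos θ := dec_im w θ
  have hr2 : z2.re = 1 + w * Real.sin θ := by rw [hz2, dec_neg_eq, dec_re, Real.sin_neg]; ring
  have hi2 : z2.im = w * Real.cos θ := by rw [hz2, dec_neg_eq, dec_im, Real.cos_neg]
  have hn1 : ‖z1‖ ^ 2 = 1 + w ^ 2 - 2 * w * Real.sin θ := dec_norm_sq w θ
  have hn2 : ‖z2‖ ^ 2 = 1 + w ^ 2 + 2 * w * Real.sin θ := by
    rw [hz2, dec_neg_eq, dec_norm_sq, Real.sin_neg]; ring
  have hp1 : 0 < ‖z1‖ := norm_pos_iff.2 h1
  have hp2 : 0 < ‖z2‖ := norm_pos_iff.2 h2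
  have hsc := Real.sin_sq_add_cos_sq θ
  refine ⟨‖z1‖ * ‖z2‖, by positivity, ?_, ?_, ?_⟩
  · rw [mul_pow, hn1, hn2]
    ring
  · show Real.sin ((log z1).im - (log z2).im) = _
    rw [Complex.log_im, Complex.log_im, Real.sin_sub, Complex.sin_arg, Complex.sin_arg,
      Complex.cos_arg h1, Complex.cos_arg h2, hr1, hi1, hr2, hi2]
    field_simp
    ring
  · show Real.cos ((log z1).im - (log z2).im) = _
    rw [Complex.log_im, Complex.log_im, Real.cos_sub, Complex.sin_arg, Complex.sin_arg,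
      Complex.cos_arg h1, Complex.cos_arg h2, hr1, hi1, hr2, hi2]
    have : (1 - w * Real.sin θ) / ‖z1‖ * ((1 + w * Real.sin θ) / ‖z2‖) +
        w * Real.cos θ / ‖z1‖ * (w * Real.cos θ / ‖z2‖) =
        ((1 - w * Real.sin θ) * (1 + w * Real.sin θ) + w * Real.cos θ * (w * Real.cos θ)) /
          (‖z1‖ * ‖z2‖) := by
      field_simp
    rw [this]
    congr 1
    linear_combination (-w ^ 2) * hsc

theorem decA_bounds {w θ : ℝ} (hw : 0 < w) (h0 : 0 ≤ θ) (h2 : θ < Real.pi / 2) :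
    0 ≤ decA w θ ∧ decA w θ < Real.pi := by
  have hc : 0 < Real.cos θ := Real.cos_pos_of_mem_Ioo ⟨by linarith [Real.pi_pos], h2⟩
  have hs : 0 ≤ Real.sin θ := Real.sin_nonneg_of_nonneg_of_le_pi h0 (by linarith [Real.pi_pos])
  have hc' : 0 < Real.cos (-θ) := by rwa [Real.cos_neg]
  have ha1 : (log (1 + I * w * exp (I * θ))).im ∈ Set.Ioo 0 Real.pi := by
    rw [Complex.log_im]
    have hi : 0 < (1 + I * w * exp (I * θ)).im := by rw [dec_im]; positivity
    refine ⟨?_, ?_⟩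
    · rcases (Complex.arg_nonneg_iff.2 hi.le).eq_or_lt with h | h
      · exact absurd (Complex.arg_eq_zero_iff.1 h.symm).2 hi.ne'
      · exact h
    · rcases (Complex.arg_le_pi (1 + I * w * exp (I * θ))).eq_or_lt with h | h
      · exact absurd (Complex.arg_eq_pi_iff.1 h).2 hi.ne'
      · exact h
  have ha2 : (log (1 + I * w * exp (-(I * θ)))).im ∈ Set.Ioo 0 Real.pi := by
    rw [Complex.log_im, dec_neg_eq]
    have hi : 0 < (1 + I * w * exp (I * ((-θ : ℝ) : ℂ))).im := by rw [dec_im]; positivity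
    refine ⟨?_, ?_⟩
    · rcases (Complex.arg_nonneg_iff.2 hi.le).eq_or_lt with h | h
      · exact absurd (Complex.arg_eq_zero_iff.1 h.symm).2 hi.ne'
      · exact h
    · rcases (Complex.arg_le_pi (1 + I * w * exp (I * ((-θ : ℝ) : ℂ)))).eq_or_lt with h | h
      · exact absurd (Complex.arg_eq_pi_iff.1 h).2 hi.ne'
      · exact h
  obtain ⟨M, hM, -, hsin, -⟩ := dec_sin_cos hw hc
  have hsin0 : 0 ≤ Real.sin (decA w θ) := by rw [hsin]; positivity
  have hlt : decA w θ < Real.pi := by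
    unfold decA
    linarith [ha1.2, ha2.1]
  have hgt : -Real.pi < decA w θ := by
    unfold decA
    linarith [ha1.1, ha2.2]
  refine ⟨?_, hlt⟩
  by_contra hneg
  push Not at hneg
  exact absurd (Real.sin_neg_of_neg_of_neg_pi_lt hneg hgt) (not_lt.2 hsin0)

theorem le_decA {w θ : ℝ} (hw : 0 < w) (h0 : 0 ≤ θ) (h2 : θ < Real.pi / 2) :
    gR w * Real.sin θ * Real.cos θ ≤ decA w θ := by
  have hc : 0 < Real.cos θ := Real.cos_pos_of_mem_Ioo ⟨by linarith [Real.pi_pos], h2⟩
  have hs : 0 ≤ Real.sin θ := Real.sin_nonneg_of_nonneg_of_le_pi h0 (by linarith [Real.pi_pos])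
  obtain ⟨M, hM, hM2, hsin, -⟩ := dec_sin_cos hw hc
  have hM3 : M ≤ 1 + w ^ 2 := by
    apply le_of_sq_le_sq _ (by positivity)
    rw [hM2]
    nlinarith [sq_nonneg (w * Real.sin θ)]
  refine le_trans ?_ (Real.sin_le (decA_bounds hw h0 h2).1)
  rw [hsin]
  unfold gR
  calc 2 * w ^ 2 / (1 + w ^ 2) * Real.sin θ * Real.cos θ
      = 2 * w ^ 2 * Real.sin θ * Real.cos θ / (1 + w ^ 2) := by ring
    _ ≤ 2 * w ^ 2 * Real.sin θ * Real.cos θ / M :=
        div_le_div_of_nonneg_left (by positivity) hM hM3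

theorem decA_le {w θ : ℝ} (hw : 0 < w) (h0 : 0 ≤ θ) (h2 : θ < Real.pi / 2) :
    decA w θ ≤ gR w * Real.sin θ / Real.cos θ := by
  have hc : 0 < Real.cos θ := Real.cos_pos_of_mem_Ioo ⟨by linarith [Real.pi_pos], h2⟩
  have hs : 0 ≤ Real.sin θ := Real.sin_nonneg_of_nonneg_of_le_pi h0 (by linarith [Real.pi_pos])
  have hsc := Real.sin_sq_add_cos_sq θ
  obtain ⟨M, hM, hM2, hsin, hcos⟩ := dec_sin_cos hw hc
  obtain ⟨hA0, hApi⟩ := decA_bounds hw h0 h2
  set x := decA w θ / 2 with hx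
  have hx2 : decA w θ = 2 * x := by rw [hx]; ring
  have hx0 : 0 ≤ x := by rw [hx]; linarith
  have hxpi : x < Real.pi / 2 := by rw [hx]; linarith
  have hcx : 0 < Real.cos x := Real.cos_pos_of_mem_Ioo ⟨by linarith [Real.pi_pos], hxpi⟩
  have h3 : x ≤ Real.tan x := Real.le_tan hx0 hxpi
  have hX : 1 + w ^ 2 * (2 * Real.cos θ ^ 2 - 1) = M * (2 * Real.cos x ^ 2 - 1) := by
    have : Real.cos (decA w θ) = 2 * Real.cos x ^ 2 - 1 := by rw [hx2, Real.cos_two_mul]
    rw [this] at hcos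
    rw [hcos]
    field_simp
  have hY : 2 * w ^ 2 * Real.sin θ * Real.cos θ = M * (2 * Real.sin x * Real.cos x) := by
    have : Real.sin (decA w θ) = 2 * Real.sin x * Real.cos x := by rw [hx2, Real.sin_two_mul]
    rw [this] at hsin
    rw [hsin]
    field_simp
  -- `M ≥ 2 cos² θ - 1 + w²`
  have hM4 : 2 * Real.cos θ ^ 2 - 1 + w ^ 2 ≤ M := by
    apply le_of_sq_le_sq _ hM.le
    rw [hM2]
    have h4 : Real.sin θ ^ 2 = 1 - Real.cos θ ^ 2 := by linarith
    have h5 : Real.cos θ ^ 2 ≤ 1 := by nlinarith [sq_nonneg (Real.sin θ)]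
    rw [h4]
    nlinarith [mul_nonneg (sq_nonneg (Real.cos θ)) (sub_nonneg.2 h5)]
  have h6 : Real.tan x = 2 * w ^ 2 * Real.sin θ * Real.cos θ /
      (M + (1 + w ^ 2 * (2 * Real.cos θ ^ 2 - 1))) := by
    rw [hX, hY, Real.tan_eq_sin_div_cos]
    field_simp
    ring
  have h7 : 0 < M + (1 + w ^ 2 * (2 * Real.cos θ ^ 2 - 1)) := by
    rw [hX]
    have : 0 < M * (2 * Real.cos x ^ 2) := by positivity
    linarith
  have h8 : 2 * Real.cos θ ^ 2 * (1 + w ^ 2) ≤ M + (1 + w ^ 2 * (2 * Real.cos θ ^ 2 - 1)) := by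
    linarith
  calc decA w θ = 2 * x := hx2
    _ ≤ 2 * Real.tan x := by linarith
    _ = 2 * (2 * w ^ 2 * Real.sin θ * Real.cos θ) /
      (M + (1 + w ^ 2 * (2 * Real.cos θ ^ 2 - 1))) := by rw [h6]; ring
    _ ≤ 2 * (2 * w ^ 2 * Real.sin θ * Real.cos θ) / (2 * Real.cos θ ^ 2 * (1 + w ^ 2)) :=
        div_le_div_of_nonneg_left (by positivity) (by positivity) h8
    _ = gR w * Real.sin θ / Real.cos θ := by
        unfold gR
        field_simp

theorem decB_eq {w θ : ℝ} (hw : 0 < w) (hc : 0 < Real.cos θ) : decB w θ =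
    1 / 2 * (Real.log (1 + w ^ 2 + 2 * w * Real.sin θ) -
      Real.log (1 + w ^ 2 - 2 * w * Real.sin θ)) := by
  have hn1 : ‖1 + I * w * exp (I * θ)‖ ^ 2 = 1 + w ^ 2 - 2 * w * Real.sin θ := dec_norm_sq w θ
  have hn2 : ‖1 + I * w * exp (-(I * θ))‖ ^ 2 = 1 + w ^ 2 + 2 * w * Real.sin θ := by
    rw [dec_neg_eq, dec_norm_sq, Real.sin_neg]; ring
  unfold decB
  rw [Complex.log_re, Complex.log_re, ← hn1, ← hn2, Real.log_pow, Real.log_pow]
  push_cast
  ring

theorem dec_pos {w θ : ℝ} (hw : 0 < w) (hc : 0 < Real.cos θ) :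
    0 < 1 + w ^ 2 + 2 * w * Real.sin θ ∧ 0 < 1 + w ^ 2 - 2 * w * Real.sin θ := by
  have hsc := Real.sin_sq_add_cos_sq θ
  have h1 : 0 < Real.cos θ ^ 2 := by positivity
  constructor
  · nlinarith [sq_nonneg (w + Real.sin θ)]
  · nlinarith [sq_nonneg (w - Real.sin θ)]

theorem decB_deriv {w θ : ℝ} (hw : 0 < w) (hc : 0 < Real.cos θ) :
    HasDerivAt (fun x : ℝ => 1 / 2 * (Real.log (1 + w ^ 2 + 2 * w * Real.sin x) -
      Real.log (1 + w ^ 2 - 2 * w * Real.sin x)))
      (w * Real.cos θ * (1 / (1 + w ^ 2 + 2 * w * Real.sin θ) +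
        1 / (1 + w ^ 2 - 2 * w * Real.sin θ))) θ := by
  obtain ⟨h1, h2⟩ := dec_pos hw hc
  have h3 := ((Real.hasDerivAt_sin θ).const_mul (2 * w)).const_add (1 + w ^ 2)
  have h4 := ((Real.hasDerivAt_sin θ).const_mul (2 * w)).const_sub (1 + w ^ 2)
  have h5 := ((h3.log h1.ne').sub (h4.log h2.ne')).const_mul (1 / 2)
  refine h5.congr_deriv ?_
  field_simp
  ring

theorem gI_pos {w : ℝ} (hw : 0 < w) : 0 < gI w := by
  unfold gI
  positivity

theorem gI_le_one {w : ℝ} (hw : 0 < w) : gI w ≤ 1 := by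
  unfold gI
  rw [div_le_one (by positivity)]
  nlinarith [sq_nonneg (w - 1)]

theorem gR_pos {w : ℝ} (hw : 0 < w) : 0 < gR w := by
  unfold gR
  positivity

theorem gR_lt_two (w : ℝ) : gR w < 2 := by
  unfold gR
  rw [div_lt_iff₀ (by positivity)]
  linarith

theorem gI_sq (w : ℝ) : gI w ^ 2 = gR w * (2 - gR w) := by
  unfold gI gR
  have : 1 + w ^ 2 ≠ 0 := by positivity
  field_simp
  ring

/-- closed form of the derivative of `decB` -/
theorem decB_closed {w θ : ℝ} (hw : 0 < w) (hc : 0 < Real.cos θ) :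
    w * Real.cos θ * (1 / (1 + w ^ 2 + 2 * w * Real.sin θ) +
        1 / (1 + w ^ 2 - 2 * w * Real.sin θ)) =
      gI w * Real.cos θ / (1 - (gI w * Real.sin θ) ^ 2) := by
  obtain ⟨h1, h2⟩ := dec_pos hw hc
  have hK : (1 + w ^ 2) ≠ 0 := by positivity
  have h3 : (1 + w ^ 2) ^ 2 - (2 * w * Real.sin θ) ^ 2 ≠ 0 := by
    have : (1 + w ^ 2) ^ 2 - (2 * w * Real.sin θ) ^ 2 =
      (1 + w ^ 2 + 2 * w * Real.sin θ) * (1 + w ^ 2 - 2 * w * Real.sin θ) := by ring
    rw [this]
    positivity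
  have h4 : 1 - (gI w * Real.sin θ) ^ 2 =
      ((1 + w ^ 2) ^ 2 - (2 * w * Real.sin θ) ^ 2) / (1 + w ^ 2) ^ 2 := by
    unfold gI
    field_simp
  rw [h4]
  unfold gI
  have h5 : (1 + w ^ 2 + 2 * w * Real.sin θ) ≠ 0 := h1.ne'
  have h6 : (1 + w ^ 2 - 2 * w * Real.sin θ) ≠ 0 := h2.ne'
  rw [div_div_eq_mul_div, div_add_div _ _ h5 h6, mul_div_assoc', div_eq_div_iff (by positivity) h3]
  field_simp
  ring

theorem dec_one_sub {w θ : ℝ} (hw : 0 < w) :
    Real.cos θ ^ 2 ≤ 1 - (gI w * Real.sin θ) ^ 2 := by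
  have hsc := Real.sin_sq_add_cos_sq θ
  have h1 := gI_le_one hw
  have h2 := gI_pos hw
  have h3 : gI w ^ 2 ≤ 1 := by nlinarith
  rw [mul_pow]
  nlinarith [sq_nonneg (Real.sin θ)]

theorem le_decB {w θ : ℝ} (hw : 0 < w) (h0 : 0 ≤ θ) (h2 : θ < Real.pi / 2) :
    gI w * Real.sin θ ≤ decB w θ := by
  have hcos : ∀ x ∈ Set.Icc 0 θ, 0 < Real.cos x := fun x hx =>
    Real.cos_pos_of_mem_Ioo ⟨by linarith [Real.pi_pos, hx.1], by linarith [hx.2]⟩
  have h3 := dec_mono (f := fun x => 1 / 2 * (Real.log (1 + w ^ 2 + 2 * w * Real.sin x) -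
      Real.log (1 + w ^ 2 - 2 * w * Real.sin x)) - gI w * Real.sin x)
    (f' := fun x => w * Real.cos x * (1 / (1 + w ^ 2 + 2 * w * Real.sin x) +
        1 / (1 + w ^ 2 - 2 * w * Real.sin x)) - gI w * Real.cos x) h0
    (fun x hx => (decB_deriv hw (hcos x hx)).sub ((Real.hasDerivAt_sin x).const_mul _))
    (fun x hx => by
      have hc := hcos x hx
      show 0 ≤ w * Real.cos x * (1 / (1 + w ^ 2 + 2 * w * Real.sin x) +
        1 / (1 + w ^ 2 - 2 * w * Real.sin x)) - gI w * Real.cos x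
      rw [decB_closed hw hc, sub_nonneg]
      have h4 : 0 < 1 - (gI w * Real.sin x) ^ 2 :=
        lt_of_lt_of_le (by positivity) (dec_one_sub (θ := x) hw)
      rw [le_div_iff₀ h4]
      have h5 := gI_pos hw
      have h6 : 0 < gI w * Real.cos x := by positivity
      nlinarith [sq_nonneg (gI w * Real.sin x)])
  simp only [Real.sin_zero, mul_zero, add_zero, sub_zero, sub_self] at h3
  rw [decB_eq hw (hcos θ ⟨h0, le_rfl⟩)]
  linarith

theorem decB_le {w θ : ℝ} (hw : 0 < w) (h0 : 0 ≤ θ) (h2 : θ ≤ Real.pi / 3) :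
    decB w θ ≤ gI w * Real.sin θ + 4 / 3 * gI w ^ 3 * Real.sin θ ^ 3 := by
  have hcos : ∀ x ∈ Set.Icc 0 θ, 1 / 2 ≤ Real.cos x := fun x hx => by
    rw [← Real.cos_pi_div_three]
    exact Real.cos_le_cos_of_nonneg_of_le_pi hx.1 (by linarith [Real.pi_pos]) (hx.2.trans h2)
  have h3 := dec_mono (f := fun x => gI w * Real.sin x + 4 / 3 * gI w ^ 3 * Real.sin x ^ 3 -
      1 / 2 * (Real.log (1 + w ^ 2 + 2 * w * Real.sin x) -
      Real.log (1 + w ^ 2 - 2 * w * Real.sin x)))
    (f' := fun x => gI w * Real.cos x + 4 / 3 * gI w ^ 3 * (3 * Real.sin x ^ 2 * Real.cos x) -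
      w * Real.cos x * (1 / (1 + w ^ 2 + 2 * w * Real.sin x) +
        1 / (1 + w ^ 2 - 2 * w * Real.sin x))) h0
    (fun x hx => by
      have h4 := (Real.hasDerivAt_sin x).pow 3
      have h5 := (((Real.hasDerivAt_sin x).const_mul (gI w)).add
        (h4.const_mul (4 / 3 * gI w ^ 3))).sub (decB_deriv hw (by linarith [hcos x hx]))
      refine h5.congr_deriv ?_
      norm_num)
    (fun x hx => by
      have hc := hcos x hx
      show 0 ≤ gI w * Real.cos x + 4 / 3 * gI w ^ 3 * (3 * Real.sin x ^ 2 * Real.cos x) -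
        w * Real.cos x * (1 / (1 + w ^ 2 + 2 * w * Real.sin x) +
        1 / (1 + w ^ 2 - 2 * w * Real.sin x))
      rw [decB_closed hw (by linarith), sub_nonneg]
      have h4 := dec_one_sub (θ := x) hw
      have h5 : 1 / 4 ≤ 1 - (gI w * Real.sin x) ^ 2 := by nlinarith
      rw [div_le_iff₀ (by linarith)]
      have h6 := gI_pos hw
      have h7 : 0 < gI w * Real.cos x := by positivity
      set y := (gI w * Real.sin x) ^ 2 with hy
      have hy0 : 0 ≤ y := by positivity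
      have h8 : gI w * Real.cos x + 4 / 3 * gI w ^ 3 * (3 * Real.sin x ^ 2 * Real.cos x) =
        gI w * Real.cos x * (1 + 4 * y) := by rw [hy]; ring
      rw [h8]
      have h9 : 1 ≤ (1 + 4 * y) * (1 - y) := by nlinarith
      nlinarith)
  simp only [Real.sin_zero, mul_zero, add_zero, sub_zero, sub_self] at h3
  rw [decB_eq hw (by linarith [hcos θ ⟨h0, le_rfl⟩])]
  norm_num at h3 ⊢
  linarith

theorem re_decay_aux {w θ : ℝ} (hw : 0 < w) (h0 : 0 ≤ θ) (h2 : θ < Real.pi / 2) :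
    w ^ 2 / (1 + w ^ 2) * Real.sin θ ^ 2 ≤ (VV w - WW w θ).re := by
  have h3 := dec_mono (f := fun x => (VV w - WW w x).re - w ^ 2 / (1 + w ^ 2) * Real.sin x ^ 2)
    (f' := fun x => decA w x - w ^ 2 / (1 + w ^ 2) * (2 * Real.sin x * Real.cos x)) h0
    (fun x hx => by
      have h4 := (dec_re_deriv hw (by linarith [Real.pi_pos, hx.1] : -(Real.pi / 2) < x)
        (lt_of_le_of_lt hx.2 h2)).sub
        (((Real.hasDerivAt_sin x).pow 2).const_mul (w ^ 2 / (1 + w ^ 2)))
      refine h4.congr_deriv ?_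
      norm_num)
    (fun x hx => by
      have h4 := le_decA hw hx.1 (lt_of_le_of_lt hx.2 h2)
      have h5 : gR w * Real.sin x * Real.cos x =
        w ^ 2 / (1 + w ^ 2) * (2 * Real.sin x * Real.cos x) := by
        unfold gR
        ring
      linarith)
  simp only [Real.sin_zero, WW_zero, sub_self] at h3
  norm_num at h3
  simpa using h3

/-- decay of the real part -/
theorem re_decay {w θ : ℝ} (hw : 0 < w) (h : |θ| < Real.pi / 2) :
    w ^ 2 / (1 + w ^ 2) * Real.sin θ ^ 2 ≤ (VV w - WW w θ).re := by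
  rcases le_total 0 θ with h0 | h0
  · rw [abs_of_nonneg h0] at h
    exact re_decay_aux hw h0 h
  · rw [abs_of_nonpos h0] at h
    have := re_decay_aux hw (by linarith : 0 ≤ -θ) h
    rwa [WW_neg, Real.sin_neg, neg_sq] at this

theorem im_decay_aux {w θ : ℝ} (hw : 0 < w) (h0 : 0 ≤ θ) (h2 : θ < Real.pi / 2) :
    gI w * (1 - Real.cos θ) ≤ (VV w - WW w θ).im := by
  have h3 := dec_mono (f := fun x => (VV w - WW w x).im - gI w * (1 - Real.cos x))
    (f' := fun x => decB w x - gI w * Real.sin x) h0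
    (fun x hx => by
      have h4 := (dec_im_deriv hw (by linarith [Real.pi_pos, hx.1] : -(Real.pi / 2) < x)
        (lt_of_le_of_lt hx.2 h2)).sub
        (((Real.hasDerivAt_cos x).const_sub 1).const_mul (gI w))
      refine h4.congr_deriv ?_
      norm_num)
    (fun x hx => sub_nonneg.2 (le_decB hw hx.1 (lt_of_le_of_lt hx.2 h2)))
  simp only [Real.cos_zero, WW_zero, sub_self] at h3
  norm_num at h3
  simpa using h3

/-- decay of the imaginary part -/
theorem im_decay {w θ : ℝ} (hw : 0 < w) (h : |θ| < Real.pi / 2) :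
    2 * w / (1 + w ^ 2) * (1 - Real.cos θ) ≤ (VV w - WW w θ).im := by
  rcases le_total 0 θ with h0 | h0
  · rw [abs_of_nonneg h0] at h
    exact im_decay_aux hw h0 h
  · rw [abs_of_nonpos h0] at h
    have := im_decay_aux hw (by linarith : 0 ≤ -θ) h
    rwa [WW_neg, Real.cos_neg] at this

theorem dec_cos_upper {x : ℝ} (h0 : 0 ≤ x) : Real.cos x ≤ 1 - x ^ 2 / 2 + x ^ 4 / 24 := by
  have h1 : ∀ y : ℝ, 0 ≤ y → y - y ^ 3 / 6 ≤ Real.sin y := by
    intro y hy
    have h3 := dec_mono (f := fun t => Real.sin t - (t - t ^ 3 / 6))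
      (f' := fun t => Real.cos t - (1 - t ^ 2 / 2)) hy
      (fun t _ => by
        have := (Real.hasDerivAt_sin t).sub ((hasDerivAt_id t).sub
          (((hasDerivAt_id t).pow 3).div_const 6))
        refine this.congr_deriv ?_
        simp
        ring)
      (fun t _ => sub_nonneg.2 (Real.one_sub_sq_div_two_le_cos))
    norm_num at h3
    linarith
  have h3 := dec_mono (f := fun t => 1 - t ^ 2 / 2 + t ^ 4 / 24 - Real.cos t)
    (f' := fun t => Real.sin t - (t - t ^ 3 / 6)) h0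
    (fun t _ => by
      have := ((((hasDerivAt_id t).pow 2).div_const 2).const_sub 1 |>.add
        (((hasDerivAt_id t).pow 4).div_const 24)).sub (Real.hasDerivAt_cos t)
      refine this.congr_deriv ?_
      simp
      ring)
    (fun t ht => sub_nonneg.2 (h1 t ht.1))
  norm_num at h3
  linarith

theorem dec_re_quart {w θ : ℝ} (hw : 0 < w) (h0 : 0 ≤ θ) (h2 : θ ≤ Real.pi / 3) :
    |(VV w - WW w θ).re - gR w * (1 - Real.cos θ)| ≤ gR w * (1 - Real.cos θ) ^ 2 := by
  have hcos : ∀ x ∈ Set.Icc 0 θ, 1 / 2 ≤ Real.cos x := fun x hx => by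
    rw [← Real.cos_pi_div_three]
    exact Real.cos_le_cos_of_nonneg_of_le_pi hx.1 (by linarith [Real.pi_pos]) (hx.2.trans h2)
  have hpi := Real.pi_pos
  have hg := gR_pos hw
  have hsin : ∀ x ∈ Set.Icc 0 θ, 0 ≤ Real.sin x := fun x hx =>
    Real.sin_nonneg_of_nonneg_of_le_pi hx.1 (by linarith [hx.2])
  rw [abs_le]
  constructor
  · have h3 := dec_mono (f := fun x => (VV w - WW w x).re - gR w * (1 - Real.cos x) +
      gR w * (1 - Real.cos x) ^ 2)
      (f' := fun x => decA w x - gR w * Real.sin x +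
        gR w * (2 * (1 - Real.cos x) * Real.sin x)) h0
      (fun x hx => by
        have h4 := (((dec_re_deriv hw (by linarith [hx.1] : -(Real.pi / 2) < x)
          (by linarith [hx.2])).sub
          (((Real.hasDerivAt_cos x).const_sub 1).const_mul (gR w))).add
          ((((Real.hasDerivAt_cos x).const_sub 1).pow 2).const_mul (gR w)))
        refine h4.congr_deriv ?_
        norm_num)
      (fun x hx => by
        have h4 := le_decA hw hx.1 (by linarith [hx.2])
        have h5 := Real.cos_le_one x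
        have h6 : 0 ≤ gR w * (1 - Real.cos x) * Real.sin x :=
          mul_nonneg (mul_nonneg hg.le (by linarith)) (hsin x hx)
        have h7 : decA w x - gR w * Real.sin x + gR w * (2 * (1 - Real.cos x) * Real.sin x) =
          (decA w x - gR w * Real.sin x * Real.cos x) + gR w * (1 - Real.cos x) * Real.sin x := by
          ring
        rw [h7]
        linarith)
    simp only [Real.cos_zero, WW_zero, sub_self] at h3
    norm_num at h3 ⊢
    linarith
  · have h3 := dec_mono (f := fun x => gR w * (1 - Real.cos x) ^ 2 -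
      ((VV w - WW w x).re - gR w * (1 - Real.cos x)))
      (f' := fun x => gR w * (2 * (1 - Real.cos x) * Real.sin x) -
        (decA w x - gR w * Real.sin x)) h0
      (fun x hx => by
        have h4 := ((((Real.hasDerivAt_cos x).const_sub 1).pow 2).const_mul (gR w)).sub
          ((dec_re_deriv hw (by linarith [hx.1] : -(Real.pi / 2) < x)
          (by linarith [hx.2])).sub
          (((Real.hasDerivAt_cos x).const_sub 1).const_mul (gR w)))
        refine h4.congr_deriv ?_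
        norm_num)
      (fun x hx => by
        have h4 := decA_le hw hx.1 (by linarith [hx.2])
        have h5 := Real.cos_le_one x
        have h8 := hcos x hx
        have h6 : 0 ≤ gR w * (1 - Real.cos x) * Real.sin x :=
          mul_nonneg (mul_nonneg hg.le (by linarith)) (hsin x hx)
        have h9 : gR w * Real.sin x / Real.cos x ≤
            gR w * Real.sin x + gR w * (2 * (1 - Real.cos x) * Real.sin x) := by
          rw [div_le_iff₀ (by linarith)]
          have h10 : 0 ≤ gR w * (1 - Real.cos x) * Real.sin x * (2 * Real.cos x - 1) :=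
            mul_nonneg h6 (by linarith)
          nlinarith
        linarith)
    simp only [Real.cos_zero, WW_zero, sub_self] at h3
    norm_num at h3 ⊢
    linarith

theorem dec_im_quart {w θ : ℝ} (hw : 0 < w) (h0 : 0 ≤ θ) (h2 : θ ≤ Real.pi / 3) :
    |(VV w - WW w θ).im - gI w * (1 - Real.cos θ)| ≤
      4 / 3 * gI w ^ 3 * (1 - Real.cos θ) ^ 2 := by
  have hpi := Real.pi_pos
  have hg := gI_pos hw
  have h1 := im_decay_aux hw h0 (by linarith)
  rw [abs_of_nonneg (by linarith)]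
  have h3 := dec_mono (f := fun x => 4 / 3 * gI w ^ 3 * (1 - Real.cos x) ^ 2 -
      ((VV w - WW w x).im - gI w * (1 - Real.cos x)))
      (f' := fun x => 4 / 3 * gI w ^ 3 * (2 * (1 - Real.cos x) * Real.sin x) -
        (decB w x - gI w * Real.sin x)) h0
      (fun x hx => by
        have h4 := ((((Real.hasDerivAt_cos x).const_sub 1).pow 2).const_mul
          (4 / 3 * gI w ^ 3)).sub
          ((dec_im_deriv hw (by linarith [hx.1] : -(Real.pi / 2) < x)
          (by linarith [hx.2])).sub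
          (((Real.hasDerivAt_cos x).const_sub 1).const_mul (gI w)))
        refine h4.congr_deriv ?_
        norm_num)
      (fun x hx => by
        have h4 := decB_le hw hx.1 (hx.2.trans h2)
        have h5 := Real.cos_le_one x
        have h6 : 0 ≤ Real.sin x := Real.sin_nonneg_of_nonneg_of_le_pi hx.1 (by linarith [hx.2])
        have h7 := Real.sin_sq_add_cos_sq x
        have h8 : Real.sin x ^ 2 ≤ 2 * (1 - Real.cos x) := by
          nlinarith [sq_nonneg (1 - Real.cos x)]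
        have h9 : Real.sin x ^ 3 ≤ 2 * (1 - Real.cos x) * Real.sin x := by
          have : Real.sin x ^ 3 = Real.sin x ^ 2 * Real.sin x := by ring
          rw [this]
          exact mul_le_mul_of_nonneg_right h8 h6
        have h10 : 4 / 3 * gI w ^ 3 * Real.sin x ^ 3 ≤
            4 / 3 * gI w ^ 3 * (2 * (1 - Real.cos x) * Real.sin x) :=
          mul_le_mul_of_nonneg_left h9 (by positivity)
        linarith)
  simp only [Real.cos_zero, WW_zero, sub_self] at h3
  norm_num at h3 ⊢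
  linarith

theorem dec_num {u : ℝ} (h0 : 0 ≤ u) (h2 : u ≤ 2) :
    u ^ 2 + 16 / 9 * (u * (2 - u)) ^ 3 ≤ 4 := by
  have h1 : u ^ 3 * (2 - u) ^ 2 ≤ 9 / 8 := by
    nlinarith [sq_nonneg (u - 6 / 5), mul_nonneg h0 (sub_nonneg.2 h2), sq_nonneg (u * (u - 6 / 5)),
      mul_nonneg h0 (sq_nonneg (u * (u - 6 / 5))), mul_nonneg h0 (sq_nonneg (u - 6 / 5))]
  have h3 : 0 ≤ (2 - u) * (9 / 8 - u ^ 3 * (2 - u) ^ 2) :=
    mul_nonneg (by linarith) (by linarith)
  nlinarith

theorem quartic_aux {w θ : ℝ} (hw : 0 < w) (h0 : 0 ≤ θ) (h2 : θ ≤ Real.pi / 3) :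
    ‖VV w - WW w θ - gam w * (θ : ℂ) ^ 2 / 2‖ ≤ 7 / 12 * θ ^ 4 := by
  set κ : ℝ := 1 - Real.cos θ with hκ
  have hκ0 : 0 ≤ κ := by rw [hκ]; linarith [Real.cos_le_one θ]
  have hκ1 : κ ≤ θ ^ 2 / 2 := by
    have := Real.one_sub_sq_div_two_le_cos (x := θ)
    rw [hκ]
    linarith
  have hκ2 : θ ^ 2 / 2 - θ ^ 4 / 24 ≤ κ := by
    have := dec_cos_upper h0
    rw [hκ]
    linarith
  have hR := dec_re_quart hw h0 h2
  have hI := dec_im_quart hw h0 h2
  rw [← hκ] at hR hI
  have hgR := gR_pos hw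
  have hgR2 := gR_lt_two w
  have hgI := gI_pos hw
  have hgI1 := gI_le_one hw
  have hsq := gI_sq w
  -- first part
  have h3 : ‖VV w - WW w θ - gam w * (κ : ℂ)‖ ≤ 2 * κ ^ 2 := by
    apply le_of_sq_le_sq _ (by positivity)
    rw [Complex.sq_norm, Complex.normSq_apply, gam_eq]
    have h4 : (VV w - WW w θ - ((gR w : ℂ) + (gI w : ℂ) * I) * (κ : ℂ)).re =
        (VV w - WW w θ).re - gR w * κ := by simp
    have h5 : (VV w - WW w θ - ((gR w : ℂ) + (gI w : ℂ) * I) * (κ : ℂ)).im =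
        (VV w - WW w θ).im - gI w * κ := by simp
    rw [h4, h5, ← sq, ← sq]
    have h6 := sq_le_sq' (neg_le_of_abs_le hR) (le_of_abs_le hR)
    have h7 := sq_le_sq' (neg_le_of_abs_le hI) (le_of_abs_le hI)
    have h8 : (gR w * κ ^ 2) ^ 2 + (4 / 3 * gI w ^ 3 * κ ^ 2) ^ 2 =
        (gR w ^ 2 + 16 / 9 * (gI w ^ 2) ^ 3) * κ ^ 4 := by ring
    have h9 : gR w ^ 2 + 16 / 9 * (gI w ^ 2) ^ 3 ≤ 4 := by
      rw [hsq]
      exact dec_num hgR.le hgR2.le
    have h10 : (gR w ^ 2 + 16 / 9 * (gI w ^ 2) ^ 3) * κ ^ 4 ≤ 4 * κ ^ 4 :=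
      mul_le_mul_of_nonneg_right h9 (by positivity)
    calc _ ≤ (gR w * κ ^ 2) ^ 2 + (4 / 3 * gI w ^ 3 * κ ^ 2) ^ 2 := add_le_add h6 h7
      _ ≤ 4 * κ ^ 4 := by rw [h8]; exact h10
      _ = (2 * κ ^ 2) ^ 2 := by ring
  have h11 : ‖gam w‖ ≤ 2 := by
    apply le_of_sq_le_sq _ (by norm_num)
    rw [Complex.sq_norm, Complex.normSq_apply, gam_eq]
    have h4 : ((gR w : ℂ) + (gI w : ℂ) * I).re = gR w := by simp
    have h5 : ((gR w : ℂ) + (gI w : ℂ) * I).im = gI w := by simp
    rw [h4, h5, ← sq, ← sq, hsq]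
    nlinarith
  have h12 : ‖gam w * (κ : ℂ) - gam w * (θ : ℂ) ^ 2 / 2‖ ≤ 2 * (θ ^ 4 / 24) := by
    have h13 : gam w * (κ : ℂ) - gam w * (θ : ℂ) ^ 2 / 2 =
        gam w * ((κ - θ ^ 2 / 2 : ℝ) : ℂ) := by
      push_cast
      ring
    rw [h13, norm_mul, Complex.norm_real]
    refine mul_le_mul h11 ?_ (norm_nonneg _) (by norm_num)
    rw [Real.norm_eq_abs, abs_le]
    constructor
    · linarith
    · have : 0 ≤ θ ^ 4 := by positivity
      linarith
  calc ‖VV w - WW w θ - gam w * (θ : ℂ) ^ 2 / 2‖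
      = ‖(VV w - WW w θ - gam w * (κ : ℂ)) + (gam w * (κ : ℂ) - gam w * (θ : ℂ) ^ 2 / 2)‖ := by
        congr 1
        ring
    _ ≤ 2 * κ ^ 2 + 2 * (θ ^ 4 / 24) := (norm_add_le _ _).trans (add_le_add h3 h12)
    _ ≤ 2 * (θ ^ 2 / 2) ^ 2 + 2 * (θ ^ 4 / 24) := by
        have := pow_le_pow_left₀ hκ0 hκ1 2
        linarith
    _ = 7 / 12 * θ ^ 4 := by ring

/-- comparison with the parabola -/
theorem quartic_bound {w θ : ℝ} (hw : 0 < w) (h : |θ| ≤ Real.pi / 3) :
    ‖VV w - WW w θ - gam w * (θ : ℂ) ^ 2 / 2‖ ≤ 7 / 12 * θ ^ 4 := by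
  rcases le_total 0 θ with h0 | h0
  · rw [abs_of_nonneg h0] at h
    exact quartic_aux hw h0 h
  · rw [abs_of_nonpos h0] at h
    have := quartic_aux hw (by linarith : 0 ≤ -θ) h
    rw [WW_neg] at this
    have h1 : (((-θ : ℝ) : ℂ)) ^ 2 = (θ : ℂ) ^ 2 := by
      push_cast
      ring
    have h2 : (-θ) ^ 4 = θ ^ 4 := by ring
    rwa [h1, h2] at this

end Pool.Agent.Lib.Durfee
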