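import Pool.Agent.Lib.MP_9393b1_co.Decay

/-! # Regime S (`w ≤ 1`): quartic comparison with the constant proportional to `w` -/

set_option autoImplicit false

namespace Pool.Agent.Lib.Durfee

open Complex MeasureTheory Filter Topology

noncomputable def qq (w : ℝ) : ℝ := min (1 / 12 + 17 / 20 * w) (7 / 12)

private theorem qbS_aux {w θ K : ℝ} (hw : 0 < w) (hK : 0 ≤ K)
    (hg : gR w ^ 2 + 16 / 9 * (gI w ^ 2) ^ 3 ≤ (K * w) ^ 2) (h0 : 0 ≤ θ)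
    (h2 : θ ≤ Real.pi / 3) :
    ‖VV w - WW w θ - gam w * (θ : ℂ) ^ 2 / 2‖ ≤ (1 / 12 + K / 4) * w * θ ^ 4 := by
  set κ : ℝ := 1 - Real.cos θ with hκ
  have hκ0 : 0 ≤ κ := by rw [hκ]; linarith [Real.cos_le_one θ]
  have hκ1 : κ ≤ θ ^ 2 / 2 := by
    have := Real.one_sub_sq_div_two_le_cos (x := θ)
    rw [hκ]
    linarith
  have hκ2 : θ ^ 2 / 2 - θ ^ 4 / 24 ≤ κ := by
    have := dec_cos_upper h0
    rw [hκ]
    linarith
  have hR := dec_re_quart hw h0 h2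
  have hI := dec_im_quart hw h0 h2
  rw [← hκ] at hR hI
  have hsq := gI_sq w
  have hKw : 0 ≤ K * w := by positivity
  -- first part
  have h3 : ‖VV w - WW w θ - gam w * (κ : ℂ)‖ ≤ K * w * κ ^ 2 := by
    apply le_of_sq_le_sq _ (by positivity)
    rw [Complex.sq_norm, Complex.normSq_apply, gam_eq]
    have h4 : (VV w - WW w θ - ((gR w : ℂ) + (gI w : ℂ) * I) * (κ : ℂ)).re =
        (VV w - WW w θ).re - gR w * κ := by simp
    have h5 : (VV w - WW w θ - ((gR w : ℂ) + (gI w : ℂ) * I) * (κ : ℂ)).im =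
        (VV w - WW w θ).im - gI w * κ := by simp
    rw [h4, h5, ← sq, ← sq]
    have h6 := sq_le_sq' (neg_le_of_abs_le hR) (le_of_abs_le hR)
    have h7 := sq_le_sq' (neg_le_of_abs_le hI) (le_of_abs_le hI)
    have h8 : (gR w * κ ^ 2) ^ 2 + (4 / 3 * gI w ^ 3 * κ ^ 2) ^ 2 =
        (gR w ^ 2 + 16 / 9 * (gI w ^ 2) ^ 3) * κ ^ 4 := by ring
    have h10 : (gR w ^ 2 + 16 / 9 * (gI w ^ 2) ^ 3) * κ ^ 4 ≤ (K * w) ^ 2 * κ ^ 4 :=
      mul_le_mul_of_nonneg_right hg (by positivity)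
    calc _ ≤ (gR w * κ ^ 2) ^ 2 + (4 / 3 * gI w ^ 3 * κ ^ 2) ^ 2 := add_le_add h6 h7
      _ ≤ (K * w) ^ 2 * κ ^ 4 := by rw [h8]; exact h10
      _ = (K * w * κ ^ 2) ^ 2 := by ring
  have h11 : ‖gam w‖ ≤ 2 * w := by
    apply le_of_sq_le_sq _ (by positivity)
    rw [Complex.sq_norm, Complex.normSq_apply, gam_eq]
    have h4 : ((gR w : ℂ) + (gI w : ℂ) * I).re = gR w := by simp
    have h5 : ((gR w : ℂ) + (gI w : ℂ) * I).im = gI w := by simp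
    rw [h4, h5, ← sq, ← sq]
    have h6 : gR w ^ 2 + gI w ^ 2 = 4 * w ^ 2 / (1 + w ^ 2) := by
      unfold gR gI
      field_simp
      ring
    rw [h6, div_le_iff₀ (by positivity)]
    nlinarith [sq_nonneg (w ^ 2)]
  have h12 : ‖gam w * (κ : ℂ) - gam w * (θ : ℂ) ^ 2 / 2‖ ≤ 2 * w * (θ ^ 4 / 24) := by
    have h13 : gam w * (κ : ℂ) - gam w * (θ : ℂ) ^ 2 / 2 =
        gam w * ((κ - θ ^ 2 / 2 : ℝ) : ℂ) := by
      push_cast
      ring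
    rw [h13, norm_mul, Complex.norm_real]
    refine mul_le_mul h11 ?_ (norm_nonneg _) (by positivity)
    rw [Real.norm_eq_abs, abs_le]
    constructor
    · linarith
    · have : 0 ≤ θ ^ 4 := by positivity
      linarith
  calc ‖VV w - WW w θ - gam w * (θ : ℂ) ^ 2 / 2‖
      = ‖(VV w - WW w θ - gam w * (κ : ℂ)) + (gam w * (κ : ℂ) - gam w * (θ : ℂ) ^ 2 / 2)‖ := by
        congr 1
        ring
    _ ≤ K * w * κ ^ 2 + 2 * w * (θ ^ 4 / 24) := (norm_add_le _ _).trans (add_le_add h3 h12)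
    _ ≤ K * w * (θ ^ 2 / 2) ^ 2 + 2 * w * (θ ^ 4 / 24) := by
        have := mul_le_mul_of_nonneg_left (pow_le_pow_left₀ hκ0 hκ1 2) hKw
        linarith
    _ = (1 / 12 + K / 4) * w * θ ^ 4 := by ring

private theorem qbS_g (w : ℝ) :
    gR w ^ 2 + 16 / 9 * (gI w ^ 2) ^ 3 =
      (4 * (w ^ 2) ^ 2 * (1 + w ^ 2) ^ 4 + 1024 / 9 * (w ^ 2) ^ 3) / (1 + w ^ 2) ^ 6 := by
  unfold gR gI
  field_simp
  ring

private theorem qbS_a {w : ℝ} (hw1 : w ^ 2 ≤ 1) :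
    gR w ^ 2 + 16 / 9 * (gI w ^ 2) ^ 3 ≤ (17 / 5 * w * w) ^ 2 := by
  rw [qbS_g, div_le_iff₀ (by positivity)]
  have hy0 : 0 ≤ w ^ 2 := sq_nonneg w
  have h1 : (17 / 5 * w * w) ^ 2 = 289 / 25 * (w ^ 2) ^ 2 := by ring
  rw [h1]
  generalize w ^ 2 = y at *
  have h2 : 4 * (1 + y) ^ 4 + 1024 / 9 * y ≤ 289 / 25 * (1 + y) ^ 6 := by
    have h3 : 289 / 25 * (1 + y) ^ 6 - (4 * (1 + y) ^ 4 + 1024 / 9 * y) =
        (189 / 25 - (1024 / 9 + 16 - 1734 / 25) * y + (867 / 5 - 24) * y ^ 2) +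
        (1156 / 5 - 16) * y ^ 3 + (867 / 5 - 4) * y ^ 4 + 1734 / 25 * y ^ 5 +
        289 / 25 * y ^ 6 := by ring
    have h4 : 0 ≤ 189 / 25 - (1024 / 9 + 16 - 1734 / 25) * y + (867 / 5 - 24) * y ^ 2 := by
      nlinarith [sq_nonneg (y - 1 / 5)]
    have h5 : 0 ≤ (1156 / 5 - 16) * y ^ 3 + (867 / 5 - 4) * y ^ 4 + 1734 / 25 * y ^ 5 +
        289 / 25 * y ^ 6 := by
      norm_num
      positivity
    linarith
  have h6 := mul_le_mul_of_nonneg_left h2 (sq_nonneg y)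
  linarith

private theorem qbS_b (w : ℝ) :
    gR w ^ 2 + 16 / 9 * (gI w ^ 2) ^ 3 ≤ (2 * w) ^ 2 := by
  rw [qbS_g, div_le_iff₀ (by positivity)]
  have hy0 : 0 ≤ w ^ 2 := sq_nonneg w
  have h1 : (2 * w) ^ 2 = 4 * w ^ 2 := by ring
  rw [h1]
  generalize w ^ 2 = y at *
  have h2 : 4 * y ≤ (1 + y) ^ 2 := by nlinarith [sq_nonneg (1 - y)]
  have h3 : 27 / 4 * y ≤ (1 + y) ^ 3 := by
    nlinarith [mul_nonneg (by linarith : 0 ≤ y + 4) (sq_nonneg (y - 1 / 2))]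
  have h4 : 4 * y * (1 + y) ^ 4 ≤ (1 + y) ^ 6 := by
    calc 4 * y * (1 + y) ^ 4 ≤ (1 + y) ^ 2 * (1 + y) ^ 4 :=
          mul_le_mul_of_nonneg_right h2 (by positivity)
      _ = (1 + y) ^ 6 := by ring
  have h5 : (27 / 4 * y) ^ 2 ≤ ((1 + y) ^ 3) ^ 2 :=
    pow_le_pow_left₀ (by positivity) h3 2
  have h6 : 1024 / 9 * y ^ 2 ≤ 3 * (1 + y) ^ 6 := by
    have : ((1 + y) ^ 3) ^ 2 = (1 + y) ^ 6 := by ring
    nlinarith [sq_nonneg y]
  have h7 := mul_le_mul_of_nonneg_left h4 hy0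
  have h8 := mul_le_mul_of_nonneg_left h6 hy0
  linarith

private theorem qbS_pos {w θ : ℝ} (hw : 0 < w) (hw1 : w ≤ 1) (h0 : 0 ≤ θ)
    (h : θ ≤ Real.pi / 3) :
    ‖VV w - WW w θ - gam w * (θ : ℂ) ^ 2 / 2‖ ≤ qq w * w * θ ^ 4 := by
  have ha := qbS_aux (K := 17 / 5 * w) hw (by positivity) (qbS_a (by nlinarith)) h0 h
  have hb := qbS_aux (K := 2) hw (by positivity) (qbS_b w) h0 h
  unfold qq
  rcases min_choice (1 / 12 + 17 / 20 * w) (7 / 12 : ℝ) with hm | hm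
  · rw [hm]
    refine ha.trans (le_of_eq ?_)
    ring
  · rw [hm]
    refine hb.trans (le_of_eq ?_)
    ring

theorem quartic_bound_S {w θ : ℝ} (hw : 0 < w) (hw1 : w ≤ 1) (h : |θ| ≤ Real.pi / 3) :
    ‖VV w - WW w θ - gam w * (θ : ℂ) ^ 2 / 2‖ ≤ qq w * w * θ ^ 4 := by
  rcases le_total 0 θ with h0 | h0
  · rw [abs_of_nonneg h0] at h
    exact qbS_pos hw hw1 h0 h
  · rw [abs_of_nonpos h0] at h
    have := qbS_pos hw hw1 (by linarith : 0 ≤ -θ) h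
    rw [WW_neg] at this
    have h1 : (((-θ : ℝ) : ℂ)) ^ 2 = (θ : ℂ) ^ 2 := by
      push_cast
      ring
    have h2 : (-θ) ^ 4 = θ ^ 4 := by ring
    rwa [h1, h2] at this

end Pool.Agent.Lib.Durfee
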