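import Mathlib

/-!
# Durfee polynomials (MP_9393b1_co): common definitions

`Dpoly n` is the Durfee polynomial, written through `dco n k = [q^{n-k^2}] ∏_{i ≤ k} (1-q^i)^{-2}`.
Analytic objects: `Lam t s = ∏_{j ≥ 0} (1 + t e^{-s(j+1/2)})` (defined by Euler's series), `PP`, `Phi`, `VV`.
-/

set_option autoImplicit false

namespace Pool.Agent.Lib.Durfee

open Complex MeasureTheory

/-- Number of partitions of `m` into parts of size at most `k`. -/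
def pk : ℕ → ℕ → ℕ
  | 0, m => if m = 0 then 1 else 0
  | k + 1, m => pk k m + if _h : k + 1 ≤ m then pk (k + 1) (m - (k + 1)) else 0
termination_by k m => (k, m)

/-- `dco n k = [q^{n-k^2}] ∏_{i ≤ k} (1-q^i)^{-2}` (and `0` if `k^2 > n`). -/
def dco (n k : ℕ) : ℕ :=
  if k ^ 2 ≤ n then ∑ ij ∈ Finset.HasAntidiagonal.antidiagonal (n - k ^ 2), pk k ij.1 * pk k ij.2 else 0

/-- The Durfee polynomial `D_n(X) = ∑_{k ≤ √n} dco n k X^k`. -/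
noncomputable def Dpoly (n : ℕ) : Polynomial ℝ :=
  ∑ k ∈ Finset.range (Nat.sqrt n + 1), Polynomial.C (dco n k : ℝ) * Polynomial.X ^ k

/-- `Dval n y = D_n(-y)`. -/
noncomputable def Dval (n : ℕ) (y : ℝ) : ℝ := (Dpoly n).eval (-y)

/-- `qfac s k = ∏_{i=1}^{k} (1 - e^{-i s})`. -/
noncomputable def qfac (s : ℂ) (k : ℕ) : ℂ :=
  ∏ i ∈ Finset.range k, (1 - exp (-(((i : ℂ) + 1) * s)))

/-- `Lam t s = ∑_k t^k e^{-s k^2/2} / qfac s k`, equal to `∏_{j ≥ 0} (1 + t e^{-s (j+1/2)})`. -/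
noncomputable def Lam (t s : ℂ) : ℂ :=
  ∑' k : ℕ, t ^ k * exp (-(s * (k : ℂ) ^ 2 / 2)) / qfac s k

/-- `PP w θ s = ∏_{j ≥ 0} (1 + i w e^{iθ} e^{-s(j+1/2)}) (1 + i w e^{-iθ} e^{-s(j+1/2)})`. -/
noncomputable def PP (w θ : ℝ) (s : ℂ) : ℂ :=
  Lam (I * w * exp (I * θ)) s * Lam (I * w * exp (-(I * θ))) s

/-- `Phi t = ∫_0^∞ log(1 + t e^{-u}) du` (`= -Li_2(-t)`). -/
noncomputable def Phi (t : ℂ) : ℂ :=
  ∫ u in Set.Ioi (0 : ℝ), log (1 + t * (Real.exp (-u) : ℂ))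

/-- `VV w = 2 ∫_0^∞ log(1 + i w e^{-u}) du`. -/
noncomputable def VV (w : ℝ) : ℂ := 2 * Phi (I * w)

/-- `V_R(w) = ∫_0^∞ log(1 + w² e^{-2u}) du`. -/
noncomputable def VR (w : ℝ) : ℝ := ∫ u in Set.Ioi (0 : ℝ), Real.log (1 + w ^ 2 * Real.exp (-2 * u))

/-- `V_I(w) = 2 ∫_0^∞ arctan(w e^{-u}) du`. -/
noncomputable def VI (w : ℝ) : ℝ := 2 * ∫ u in Set.Ioi (0 : ℝ), Real.arctan (w * Real.exp (-u))

/-- `√(VV w) = aa w + i bb w`, both `≥ 0`. -/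
noncomputable def aa (w : ℝ) : ℝ := Real.sqrt ((Real.sqrt (VR w ^ 2 + VI w ^ 2) + VR w) / 2)

noncomputable def bb (w : ℝ) : ℝ := Real.sqrt ((Real.sqrt (VR w ^ 2 + VI w ^ 2) - VR w) / 2)

/-- `gam w = 2 i w / (1 + i w)`. -/
noncomputable def gam (w : ℝ) : ℂ := 2 * I * w / (1 + I * w)

end Pool.Agent.Lib.Durfee
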