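import Pool.Agent.Lib.MP_9393b1_co.Defs

set_option autoImplicit false

namespace Pool.Agent.Lib.Durfee

open Complex Filter Topology

private lemma norm_qexp (s : ℂ) (i : ℕ) :
    ‖exp (-(((i : ℂ) + 1) * s))‖ = Real.exp (-(((i : ℝ) + 1) * s.re)) := by
  rw [Complex.norm_exp]
  congr 1
  have : (((i : ℂ) + 1)) = (((i : ℝ) + 1 : ℝ) : ℂ) := by push_cast; ring
  rw [this, Complex.neg_re, Complex.re_ofReal_mul]

private lemma one_sub_exp_pos {σ : ℝ} (hσ : 0 < σ) : 0 < 1 - Real.exp (-σ) := by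
  have : Real.exp (-σ) < 1 := by
    rw [Real.exp_lt_one_iff]; linarith
  linarith

private lemma factor_norm_ge {s : ℂ} {σ : ℝ} (hσ : 0 < σ) (hs : s.re = σ) (i : ℕ) :
    1 - Real.exp (-σ) ≤ ‖1 - exp (-(((i : ℂ) + 1) * s))‖ := by
  have h1 : ‖(1 : ℂ)‖ - ‖exp (-(((i : ℂ) + 1) * s))‖ ≤ ‖1 - exp (-(((i : ℂ) + 1) * s))‖ :=
    norm_sub_norm_le _ _
  rw [norm_one, norm_qexp, hs] at h1
  have h2 : Real.exp (-(((i : ℝ) + 1) * σ)) ≤ Real.exp (-σ) := by
    apply Real.exp_le_exp.mpr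
    have : 0 ≤ (i : ℝ) * σ := by positivity
    nlinarith
  linarith

private lemma norm_qfac_ge {s : ℂ} {σ : ℝ} (hσ : 0 < σ) (hs : s.re = σ) (k : ℕ) :
    (1 - Real.exp (-σ)) ^ k ≤ ‖qfac s k‖ := by
  unfold qfac
  rw [norm_prod]
  calc (1 - Real.exp (-σ)) ^ k = ∏ _i ∈ Finset.range k, (1 - Real.exp (-σ)) := by simp
    _ ≤ ∏ i ∈ Finset.range k, ‖1 - exp (-(((i : ℂ) + 1) * s))‖ := by
        apply Finset.prod_le_prod
        · intro i _; exact (one_sub_exp_pos hσ).le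
        · intro i _; exact factor_norm_ge hσ hs i

theorem qfac_ne_zero {s : ℂ} (hs : 0 < s.re) (k : ℕ) : qfac s k ≠ 0 := by
  have h := norm_qfac_ge hs rfl k (s := s)
  have hp : 0 < (1 - Real.exp (-s.re)) ^ k := pow_pos (one_sub_exp_pos hs) k
  intro h0
  rw [h0, norm_zero] at h
  linarith

private lemma norm_gauss (s : ℂ) (k : ℕ) :
    ‖exp (-(s * (k : ℂ) ^ 2 / 2))‖ = Real.exp (-(s.re * (k : ℝ) ^ 2 / 2)) := by
  rw [Complex.norm_exp]
  congr 1
  have : s * (k : ℂ) ^ 2 / 2 = s * (((k : ℝ) ^ 2 / 2 : ℝ) : ℂ) := by push_cast; ring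
  rw [this, Complex.neg_re, Complex.re_mul_ofReal]
  ring

/-- Uniform bound for the terms of `Lam`, good for dominated convergence in `t` and `s`. -/
theorem Lam_term_norm_le {s : ℂ} {σ : ℝ} (hσ : 0 < σ) (hs : s.re = σ) (t : ℂ) (k : ℕ) :
    ‖t ^ k * exp (-(s * (k : ℂ) ^ 2 / 2)) / qfac s k‖ ≤
      (‖t‖ / (1 - Real.exp (-σ))) ^ k * Real.exp (-(σ * (k : ℝ) ^ 2 / 2)) := by
  have hp := one_sub_exp_pos hσ
  have hq := norm_qfac_ge hσ hs k
  rw [norm_div, norm_mul, norm_pow, norm_gauss, hs, div_pow]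
  have hpk : 0 < (1 - Real.exp (-σ)) ^ k := pow_pos hp k
  calc ‖t‖ ^ k * Real.exp (-(σ * (k : ℝ) ^ 2 / 2)) / ‖qfac s k‖
      ≤ ‖t‖ ^ k * Real.exp (-(σ * (k : ℝ) ^ 2 / 2)) / (1 - Real.exp (-σ)) ^ k := by
        apply div_le_div_of_nonneg_left _ hpk hq
        positivity
    _ = ‖t‖ ^ k / (1 - Real.exp (-σ)) ^ k * Real.exp (-(σ * (k : ℝ) ^ 2 / 2)) := by ring

theorem summable_Lam_bound {σ : ℝ} (hσ : 0 < σ) (x : ℝ) :
    Summable (fun k : ℕ => x ^ k * Real.exp (-(σ * (k : ℝ) ^ 2 / 2))) := by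
  have hev : ∀ᶠ k : ℕ in atTop, |x| * Real.exp (-(σ * (k : ℝ) / 2)) ≤ 1 / 2 := by
    have h1 : Tendsto (fun k : ℕ => |x| * Real.exp (-(σ * (k : ℝ) / 2))) atTop (𝓝 (|x| * 0)) := by
      apply Tendsto.const_mul
      apply Real.tendsto_exp_neg_atTop_nhds_zero.comp
      have : (fun k : ℕ => σ * (k : ℝ) / 2) = fun k : ℕ => (σ / 2) * (k : ℝ) := by
        funext k; ring
      rw [this]
      exact Tendsto.const_mul_atTop (by positivity) tendsto_natCast_atTop_atTop
    rw [mul_zero] at h1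
    exact (h1.eventually (gt_mem_nhds (by norm_num : (0 : ℝ) < 1 / 2))).mono fun k hk => hk.le
  refine Summable.of_norm_bounded_eventually_nat (g := fun k : ℕ => (1 / 2 : ℝ) ^ k)
    (summable_geometric_of_lt_one (by norm_num) (by norm_num)) ?_
  filter_upwards [hev] with k hk
  have h2 : Real.exp (-(σ * (k : ℝ) ^ 2 / 2)) = Real.exp (-(σ * (k : ℝ) / 2)) ^ k := by
    rw [← Real.exp_nat_mul]; congr 1; ring
  rw [h2, ← mul_pow, norm_pow]
  apply pow_le_pow_left₀ (norm_nonneg _)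
  rw [norm_mul, Real.norm_eq_abs, Real.norm_eq_abs, abs_of_pos (Real.exp_pos _)]
  exact hk

theorem Lam_summable {s : ℂ} (hs : 0 < s.re) (t : ℂ) :
    Summable (fun k : ℕ => ‖t ^ k * exp (-(s * (k : ℂ) ^ 2 / 2)) / qfac s k‖) :=
  Summable.of_nonneg_of_le (fun _ => norm_nonneg _) (fun k => Lam_term_norm_le hs rfl t k)
    (summable_Lam_bound hs _)

private lemma qfac_succ (s : ℂ) (k : ℕ) :
    qfac s (k + 1) = qfac s k * (1 - exp (-(((k : ℂ) + 1) * s))) := by
  unfold qfac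
  rw [Finset.prod_range_succ]

/-- Euler's functional equation. -/
theorem Lam_functional {s : ℂ} (hs : 0 < s.re) (t : ℂ) :
    Lam t s = (1 + t * exp (-(s / 2))) * Lam (t * exp (-s)) s := by
  set f : ℕ → ℂ := fun k => t ^ k * exp (-(s * (k : ℂ) ^ 2 / 2)) / qfac s k with hf
  set g : ℕ → ℂ := fun k => (t * exp (-s)) ^ k * exp (-(s * (k : ℂ) ^ 2 / 2)) / qfac s k with hg
  have hfs : Summable f := (Lam_summable hs t).of_norm
  have hgs : Summable g := (Lam_summable hs (t * exp (-s))).of_norm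
  have hL : Lam t s = ∑' k, f k := rfl
  have hR : Lam (t * exp (-s)) s = ∑' k, g k := rfl
  have h0 : f 0 - g 0 = 0 := by simp [hf, hg]
  have hstep : ∀ k : ℕ, f (k + 1) - g (k + 1) = t * exp (-(s / 2)) * g k := by
    intro k
    have hne := qfac_ne_zero hs k
    have hne1 : (1 - exp (-(((k : ℂ) + 1) * s))) ≠ 0 := by
      have := qfac_ne_zero hs (k + 1)
      rw [qfac_succ] at this
      exact right_ne_zero_of_mul this
    simp only [hf, hg]
    rw [qfac_succ]
    have e1 : exp (-s) ^ (k + 1) = exp (-(((k : ℂ) + 1) * s)) := by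
      rw [← Complex.exp_nat_mul]; congr 1; push_cast; ring
    have e2 : exp (-(s * ((k + 1 : ℕ) : ℂ) ^ 2 / 2)) =
        exp (-(s * (k : ℂ) ^ 2 / 2)) * exp (-s) ^ k * exp (-(s / 2)) := by
      rw [← Complex.exp_nat_mul, ← Complex.exp_add, ← Complex.exp_add]
      congr 1; push_cast; ring
    rw [mul_pow t (exp (-s)) (k + 1), e1, e2, mul_pow]
    generalize exp (-(((k : ℂ) + 1) * s)) = Q at hne1
    generalize exp (-(s * (k : ℂ) ^ 2 / 2)) = G
    generalize exp (-s) ^ k = E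
    generalize exp (-(s / 2)) = H
    generalize qfac s k = F at hne
    field_simp
    ring
  have hsub : ∑' k, f k - ∑' k, g k = t * exp (-(s / 2)) * ∑' k, g k := by
    rw [← hfs.tsum_sub hgs, (hfs.sub hgs).tsum_eq_zero_add, h0, zero_add]
    rw [← tsum_mul_left]
    exact tsum_congr hstep
  rw [hL, hR]
  linear_combination hsub

private lemma Lam_iter {s : ℂ} (hs : 0 < s.re) (t : ℂ) (N : ℕ) :
    Lam t s = (∏ j ∈ Finset.range N, (1 + t * exp (-(s * ((j : ℂ) + 1 / 2))))) *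
      Lam (t * exp (-(s * (N : ℂ)))) s := by
  induction N with
  | zero => simp
  | succ N ih =>
    rw [ih, Finset.prod_range_succ, Lam_functional hs (t * exp (-(s * (N : ℂ))))]
    have e1 : t * exp (-(s * (N : ℂ))) * exp (-(s / 2)) = t * exp (-(s * ((N : ℂ) + 1 / 2))) := by
      rw [mul_assoc, ← Complex.exp_add]; congr 2; ring
    have e2 : t * exp (-(s * (N : ℂ))) * exp (-s) = t * exp (-(s * ((N + 1 : ℕ) : ℂ))) := by
      rw [mul_assoc, ← Complex.exp_add]; congr 2; push_cast; ring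
    rw [e1, e2]
    ring

private lemma Lam_tail {s : ℂ} (hs : 0 < s.re) (t : ℂ) :
    Tendsto (fun N : ℕ => Lam (t * exp (-(s * (N : ℂ)))) s) atTop (𝓝 1) := by
  have hnorm : ∀ N : ℕ, ‖exp (-(s * (N : ℂ)))‖ = Real.exp (-(s.re * (N : ℝ))) := by
    intro N
    rw [Complex.norm_exp]
    congr 1
    have : s * (N : ℂ) = s * (((N : ℝ)) : ℂ) := by push_cast; ring
    rw [this, Complex.neg_re, Complex.re_mul_ofReal]
  have hlim : Tendsto (fun N : ℕ => t * exp (-(s * (N : ℂ)))) atTop (𝓝 0) := by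
    rw [tendsto_zero_iff_norm_tendsto_zero]
    have h1 : Tendsto (fun N : ℕ => ‖t‖ * Real.exp (-(s.re * (N : ℝ)))) atTop (𝓝 (‖t‖ * 0)) := by
      apply Tendsto.const_mul
      apply Real.tendsto_exp_neg_atTop_nhds_zero.comp
      exact Tendsto.const_mul_atTop hs tendsto_natCast_atTop_atTop
    rw [mul_zero] at h1
    refine h1.congr fun N => ?_
    rw [norm_mul, hnorm]
  have hone : (∑' k : ℕ, (if k = 0 then (1 : ℂ) else 0)) = 1 := by
    rw [tsum_eq_single 0]
    · simp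
    · intro k hk; simp [hk]
  rw [← hone]
  unfold Lam
  apply tendsto_tsum_of_dominated_convergence
    (bound := fun k : ℕ => (‖t‖ / (1 - Real.exp (-s.re))) ^ k *
      Real.exp (-(s.re * (k : ℝ) ^ 2 / 2))) (summable_Lam_bound hs _)
  · intro k
    by_cases hk : k = 0
    · subst hk
      simp [qfac]
    · simp only [hk, if_false]
      have h1 : Tendsto (fun N : ℕ => (t * exp (-(s * (N : ℂ)))) ^ k *
          exp (-(s * (k : ℂ) ^ 2 / 2)) / qfac s k) atTop
          (𝓝 ((0 : ℂ) ^ k * exp (-(s * (k : ℂ) ^ 2 / 2)) / qfac s k)) :=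
        ((hlim.pow k).mul_const _).div_const _
      rwa [zero_pow hk, zero_mul, zero_div] at h1
  · refine Eventually.of_forall fun N k => ?_
    refine (Lam_term_norm_le hs rfl _ k).trans ?_
    apply mul_le_mul_of_nonneg_right _ (Real.exp_pos _).le
    apply pow_le_pow_left₀
    · exact div_nonneg (norm_nonneg _) (one_sub_exp_pos hs).le
    · apply div_le_div_of_nonneg_right _ (one_sub_exp_pos hs).le
      rw [norm_mul, hnorm]
      have : Real.exp (-(s.re * (N : ℝ))) ≤ 1 := by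
        apply Real.exp_le_one_iff.mpr
        have : 0 ≤ s.re * (N : ℝ) := by positivity
        linarith
      nlinarith [norm_nonneg t]

/-- `Lam t s` is the infinite product. -/
theorem Lam_tendsto {s : ℂ} (hs : 0 < s.re) (t : ℂ) :
    Tendsto (fun N : ℕ => ∏ j ∈ Finset.range N, (1 + t * exp (-(s * ((j : ℂ) + 1 / 2)))))
      atTop (𝓝 (Lam t s)) := by
  have hL := Lam_tail hs t
  have hne : ∀ᶠ N : ℕ in atTop, Lam (t * exp (-(s * (N : ℂ)))) s ≠ 0 :=
    hL.eventually_ne one_ne_zero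
  have h1 : Tendsto (fun N : ℕ => Lam t s / Lam (t * exp (-(s * (N : ℂ)))) s) atTop
      (𝓝 (Lam t s / 1)) := tendsto_const_nhds.div hL one_ne_zero
  rw [div_one] at h1
  refine h1.congr' ?_
  filter_upwards [hne] with N hN
  rw [div_eq_iff hN]
  exact Lam_iter hs t N

private lemma continuous_qfac {σ : ℝ} (k : ℕ) :
    Continuous (fun p : ℝ × ℝ => qfac ((σ : ℂ) + p.2 * I) k) := by
  unfold qfac
  fun_prop

private lemma re_line (σ β : ℝ) : ((σ : ℂ) + β * I).re = σ := by simp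

private lemma continuous_Lam_line {σ : ℝ} (hσ : 0 < σ) (t : ℝ × ℝ → ℂ) (ht : Continuous t) (W : ℝ)
    (hW : ∀ p, ‖t p‖ ≤ W) :
    Continuous (fun p : ℝ × ℝ => Lam (t p) ((σ : ℂ) + p.2 * I)) := by
  unfold Lam
  apply continuous_tsum (u := fun k : ℕ => (W / (1 - Real.exp (-σ))) ^ k *
      Real.exp (-(σ * (k : ℝ) ^ 2 / 2)))
  · intro k
    have h1 : Continuous (fun p : ℝ × ℝ => t p ^ k *
        exp (-(((σ : ℂ) + p.2 * I) * (k : ℂ) ^ 2 / 2))) := by fun_prop
    exact h1.div (continuous_qfac k) fun p => qfac_ne_zero (by rw [re_line]; exact hσ) k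
  · exact summable_Lam_bound hσ _
  · intro k p
    refine (Lam_term_norm_le hσ (re_line σ p.2) (t p) k).trans ?_
    apply mul_le_mul_of_nonneg_right _ (Real.exp_pos _).le
    apply pow_le_pow_left₀
    · exact div_nonneg (norm_nonneg _) (one_sub_exp_pos hσ).le
    · exact div_le_div_of_nonneg_right (hW p) (one_sub_exp_pos hσ).le

theorem continuous_PP (w : ℝ) {σ : ℝ} (hσ : 0 < σ) :
    Continuous (fun p : ℝ × ℝ => PP w p.1 ((σ : ℂ) + p.2 * I)) := by
  unfold PP
  have hn : ∀ x : ℂ, x.re = 0 → ‖I * w * exp x‖ ≤ |w| := by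
    intro x hx
    rw [norm_mul, norm_mul, Complex.norm_exp, hx, Real.exp_zero, Complex.norm_I,
      Complex.norm_real]
    simp
  apply Continuous.mul
  · apply continuous_Lam_line hσ (fun p : ℝ × ℝ => I * w * exp (I * p.1)) (by fun_prop) |w|
    intro p
    exact hn _ (by simp)
  · apply continuous_Lam_line hσ (fun p : ℝ × ℝ => I * w * exp (-(I * p.1))) (by fun_prop) |w|
    intro p
    exact hn _ (by simp)

end Pool.Agent.Lib.Durfee
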