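import Pool.Agent.Lib.MP_9393b1_co.FCData10

/-! # Finite check for the Durfee polynomials: all `1 ≤ n < 10^4` -/

set_option autoImplicit false

namespace Pool.Agent.Lib.Durfee

open Polynomial FC

/-- All Durfee polynomials `D_n`, `1 ≤ n < 10^4`, are real-rooted. -/
theorem Dpoly_realrooted_small {n : ℕ} (hn : 1 ≤ n) (hn' : n < 10 ^ 4) :
    ∀ z : ℂ, aeval z (Dpoly n) = 0 → z.im = 0 := by
  have h1 : Nat.sqrt n ^ 2 ≤ n := Nat.sqrt_le' n
  have h2 : n < (Nat.sqrt n + 1) ^ 2 := Nat.lt_succ_sqrt' n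
  have h3 : 1 ≤ Nat.sqrt n := Nat.le_sqrt.mpr (by omega)
  have h4 : Nat.sqrt n < 100 := by
    rw [Nat.sqrt_lt']
    omega
  generalize Nat.sqrt n = K at h1 h2 h3 h4
  interval_cases K
  · exact real_1 h1 h2
  · exact real_2 h1 h2
  · exact real_3 h1 h2
  · exact real_4 h1 h2
  · exact real_5 h1 h2
  · exact real_6 h1 h2
  · exact real_7 h1 h2
  · exact real_8 h1 h2
  · exact real_9 h1 h2
  · exact real_10 h1 h2
  · exact real_11 h1 h2
  · exact real_12 h1 h2
  · exact real_13 h1 h2
  · exact real_14 h1 h2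
  · exact real_15 h1 h2
  · exact real_16 h1 h2
  · exact real_17 h1 h2
  · exact real_18 h1 h2
  · exact real_19 h1 h2
  · exact real_20 h1 h2
  · exact real_21 h1 h2
  · exact real_22 h1 h2
  · exact real_23 h1 h2
  · exact real_24 h1 h2
  · exact real_25 h1 h2
  · exact real_26 h1 h2
  · exact real_27 h1 h2
  · exact real_28 h1 h2
  · exact real_29 h1 h2
  · exact real_30 h1 h2
  · exact real_31 h1 h2
  · exact real_32 h1 h2
  · exact real_33 h1 h2
  · exact real_34 h1 h2
  · exact real_35 h1 h2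
  · exact real_36 h1 h2
  · exact real_37 h1 h2
  · exact real_38 h1 h2
  · exact real_39 h1 h2
  · exact real_40 h1 h2
  · exact real_41 h1 h2
  · exact real_42 h1 h2
  · exact real_43 h1 h2
  · exact real_44 h1 h2
  · exact real_45 h1 h2
  · exact real_46 h1 h2
  · exact real_47 h1 h2
  · exact real_48 h1 h2
  · exact real_49 h1 h2
  · exact real_50 h1 h2
  · exact real_51 h1 h2
  · exact real_52 h1 h2
  · exact real_53 h1 h2
  · exact real_54 h1 h2
  · exact real_55 h1 h2
  · exact real_56 h1 h2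
  · exact real_57 h1 h2
  · exact real_58 h1 h2
  · exact real_59 h1 h2
  · exact real_60 h1 h2
  · exact real_61 h1 h2
  · exact real_62 h1 h2
  · exact real_63 h1 h2
  · exact real_64 h1 h2
  · exact real_65 h1 h2
  · exact real_66 h1 h2
  · exact real_67 h1 h2
  · exact real_68 h1 h2
  · exact real_69 h1 h2
  · exact real_70 h1 h2
  · exact real_71 h1 h2
  · exact real_72 h1 h2
  · exact real_73 h1 h2
  · exact real_74 h1 h2
  · exact real_75 h1 h2
  · exact real_76 h1 h2
  · exact real_77 h1 h2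
  · exact real_78 h1 h2
  · exact real_79 h1 h2
  · exact real_80 h1 h2
  · exact real_81 h1 h2
  · exact real_82 h1 h2
  · exact real_83 h1 h2
  · exact real_84 h1 h2
  · exact real_85 h1 h2
  · exact real_86 h1 h2
  · exact real_87 h1 h2
  · exact real_88 h1 h2
  · exact real_89 h1 h2
  · exact real_90 h1 h2
  · exact real_91 h1 h2
  · exact real_92 h1 h2
  · exact real_93 h1 h2
  · exact real_94 h1 h2
  · exact real_95 h1 h2
  · exact real_96 h1 h2
  · exact real_97 h1 h2
  · exact real_98 h1 h2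
  · exact real_99 h1 h2

end Pool.Agent.Lib.Durfee
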