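import Pool.Agent.Lib.MP_9393b1_co.Roots

/-!
# Finite check for the Durfee polynomials, part 1: packed arithmetic

`packR b f M = ∑_{m<M} f m · 2^{b(M-1-m)}` stores a finite sequence in one natural number.
-/

set_option autoImplicit false

namespace Pool.Agent.Lib.Durfee.FC

/-- `packR b f M = ∑_{m<M} f m * 2^(b*(M-1-m))` -/
def packR (b : ℕ) (f : ℕ → ℕ) : ℕ → ℕ
  | 0 => 0
  | M + 1 => 2 ^ b * packR b f M + f M

theorem packR_succ (b : ℕ) (f : ℕ → ℕ) (M : ℕ) :
    packR b f (M + 1) = 2 ^ b * packR b f M + f M := rfl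

theorem packR_congr {b : ℕ} {f g : ℕ → ℕ} {M : ℕ} (h : ∀ m < M, f m = g m) :
    packR b f M = packR b g M := by
  induction M with
  | zero => rfl
  | succ M ih =>
    rw [packR_succ, packR_succ, ih (fun m hm => h m (by omega)), h M (by omega)]

theorem packR_add (b : ℕ) (f g : ℕ → ℕ) (M : ℕ) :
    packR b f M + packR b g M = packR b (fun m => f m + g m) M := by
  induction M with
  | zero => rfl
  | succ M ih => rw [packR_succ, packR_succ, packR_succ, ← ih]; ring

theorem packR_mul (b : ℕ) (f : ℕ → ℕ) (c : ℕ) (M : ℕ) :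
    packR b f M * c = packR b (fun m => f m * c) M := by
  induction M with
  | zero => simp [packR]
  | succ M ih => rw [packR_succ, packR_succ, ← ih]; ring

theorem packR_mul_left (b : ℕ) (f : ℕ → ℕ) (c : ℕ) (M : ℕ) :
    c * packR b f M = packR b (fun m => c * f m) M := by
  induction M with
  | zero => simp [packR]
  | succ M ih => rw [packR_succ, packR_succ, ← ih]; ring

theorem packR_div_one {b : ℕ} {f : ℕ → ℕ} {M : ℕ} (h : f M < 2 ^ b) :
    packR b f (M + 1) / 2 ^ b = packR b f M := by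
  rw [packR_succ, Nat.mul_add_div (by positivity), Nat.div_eq_of_lt h, add_zero]

theorem packR_mod_one {b : ℕ} {f : ℕ → ℕ} {M : ℕ} (h : f M < 2 ^ b) :
    packR b f (M + 1) % 2 ^ b = f M := by
  rw [packR_succ, Nat.mul_add_mod, Nat.mod_eq_of_lt h]

theorem packR_lt {b : ℕ} {f : ℕ → ℕ} {M : ℕ} (h : ∀ m < M, f m < 2 ^ b) :
    packR b f M < (2 ^ b) ^ M := by
  induction M with
  | zero => simp [packR]
  | succ M ih =>
    have h1 := ih (fun m hm => h m (by omega))
    have h2 := h M (by omega)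
    rw [packR_succ, pow_succ]
    have h3 : packR b f M + 1 ≤ (2 ^ b) ^ M := h1
    calc 2 ^ b * packR b f M + f M < 2 ^ b * packR b f M + 2 ^ b := by omega
      _ = (packR b f M + 1) * 2 ^ b := by ring
      _ ≤ (2 ^ b) ^ M * 2 ^ b := Nat.mul_le_mul_right _ h3

theorem packR_div {b : ℕ} {f : ℕ → ℕ} {M : ℕ} (h : ∀ m < M, f m < 2 ^ b) (j : ℕ) :
    packR b f M / (2 ^ b) ^ j = packR b f (M - j) := by
  induction j with
  | zero => simp
  | succ j ih =>
    rw [pow_succ, ← Nat.div_div_eq_div_mul, ih]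
    rcases Nat.eq_zero_or_pos (M - j) with h0 | h0
    · have : M - (j + 1) = 0 := by omega
      rw [h0, this]
      simp [packR]
    · obtain ⟨i, hi⟩ : ∃ i, M - j = i + 1 := ⟨M - j - 1, by omega⟩
      rw [hi, packR_div_one (h i (by omega))]
      congr 1
      omega

theorem packR_slot {b : ℕ} {f : ℕ → ℕ} {M : ℕ} (h : ∀ m < M, f m < 2 ^ b) (i : ℕ) :
    (packR b f M / (2 ^ b) ^ i) % 2 ^ b = if i < M then f (M - 1 - i) else 0 := by
  rw [packR_div h]
  split_ifs with hi
  · obtain ⟨j, hj⟩ : ∃ j, M - i = j + 1 := ⟨M - i - 1, by omega⟩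
    rw [hj, packR_mod_one (h j (by omega))]
    congr 1
    omega
  · have : M - i = 0 := by omega
    rw [this]
    simp [packR]

theorem packR_mod {b : ℕ} {f : ℕ → ℕ} {L M : ℕ} (h : ∀ m < M, f m < 2 ^ b) (hL : L ≤ M) :
    packR b f M % (2 ^ b) ^ L = packR b (fun j => f (M - L + j)) L := by
  induction L generalizing M with
  | zero => simp [packR, Nat.mod_one]
  | succ L ih =>
    obtain ⟨M, rfl⟩ : ∃ M', M = M' + 1 := ⟨M - 1, by omega⟩
    have h1 := ih (M := M) (fun m hm => h m (by omega)) (by omega)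
    have h2 : packR b f (M + 1) % (2 ^ b) ^ (L + 1) =
        2 ^ b * (packR b f M % (2 ^ b) ^ L) + f M := by
      rw [pow_succ, mul_comm ((2 ^ b) ^ L), Nat.mod_mul, packR_div_one (h M (by omega)),
        packR_mod_one (h M (by omega))]
      ring
    rw [h2, h1, packR_succ]
    have e1 : M + 1 - (L + 1) + L = M := by omega
    rw [e1]
    congr 2
    apply packR_congr
    intro m _
    congr 1
    omega

theorem packR_inj {b : ℕ} {f g : ℕ → ℕ} {M : ℕ} (hf : ∀ m < M, f m < 2 ^ b)
    (hg : ∀ m < M, g m < 2 ^ b) (h : packR b f M = packR b g M) : ∀ m < M, f m = g m := by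
  induction M with
  | zero => intro m hm; omega
  | succ M ih =>
    have h1 : packR b f M = packR b g M := by
      have := congrArg (· / 2 ^ b) h
      simpa only [packR_div_one (hf M (by omega)), packR_div_one (hg M (by omega))] using this
    have h2 : f M = g M := by
      have := congrArg (· % 2 ^ b) h
      simpa only [packR_mod_one (hf M (by omega)), packR_mod_one (hg M (by omega))] using this
    intro m hm
    rcases Nat.lt_succ_iff_lt_or_eq.mp hm with h3 | h3
    · exact ih (fun m hm => hf m (by omega)) (fun m hm => hg m (by omega)) h1 m h3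
    · rw [h3, h2]

/-! ## bitwise operations -/

theorem land_split (b x y : ℕ) :
    x &&& y = 2 ^ b * ((x / 2 ^ b) &&& (y / 2 ^ b)) + ((x % 2 ^ b) &&& (y % 2 ^ b)) := by
  rw [← Nat.and_div_two_pow, ← Nat.and_mod_two_pow, Nat.div_add_mod]

theorem packR_land {b : ℕ} {f g : ℕ → ℕ} {M : ℕ} (hf : ∀ m < M, f m < 2 ^ b)
    (hg : ∀ m < M, g m < 2 ^ b) :
    packR b f M &&& packR b g M = packR b (fun m => f m &&& g m) M := by
  induction M with
  | zero => simp [packR]
  | succ M ih =>
    rw [land_split b, packR_div_one (hf M (by omega)), packR_div_one (hg M (by omega)),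
      packR_mod_one (hf M (by omega)), packR_mod_one (hg M (by omega)),
      ih (fun m hm => hf m (by omega)) (fun m hm => hg m (by omega)), packR_succ]

theorem packR_trunc {b t : ℕ} {f : ℕ → ℕ} {M : ℕ} (ht : t ≤ b) (hf : ∀ m < M, f m < 2 ^ b) :
    (packR b f M >>> t) &&& packR b (fun _ => 2 ^ (b - t) - 1) M =
      packR b (fun m => f m >>> t) M := by
  induction M with
  | zero => simp [packR]
  | succ M ih =>
    have hc : 2 ^ (b - t) - 1 < 2 ^ b := by
      have h1 : 2 ^ (b - t) ≤ 2 ^ b := Nat.pow_le_pow_right (by norm_num) (by omega)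
      have h2 : 0 < 2 ^ (b - t) := by positivity
      omega
    have hb : 2 ^ b = 2 ^ (b - t) * 2 ^ t := by rw [← pow_add]; congr 1; omega
    rw [land_split b, packR_div_one (f := fun _ => 2 ^ (b - t) - 1) hc,
      packR_mod_one (f := fun _ => 2 ^ (b - t) - 1) hc]
    have h1 : (packR b f (M + 1) >>> t) / 2 ^ b = packR b f M >>> t := by
      rw [Nat.shiftRight_eq_div_pow, Nat.div_div_eq_div_mul, mul_comm, ← Nat.div_div_eq_div_mul,
        packR_div_one (hf M (by omega)), Nat.shiftRight_eq_div_pow]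
    have h2 : ((packR b f (M + 1) >>> t) % 2 ^ b) &&& (2 ^ (b - t) - 1) = f M >>> t := by
      rw [Nat.and_two_pow_sub_one_eq_mod]
      have h3 : 2 ^ b = 2 ^ (b - t) * 2 ^ t := hb
      rw [Nat.mod_mod_of_dvd _ (by rw [hb]; exact Dvd.intro _ rfl), Nat.shiftRight_eq_div_pow,
        Nat.shiftRight_eq_div_pow, packR_succ]
      have h4 : (2 ^ b * packR b f M + f M) / 2 ^ t =
          2 ^ (b - t) * packR b f M + f M / 2 ^ t := by
        have : 2 ^ b * packR b f M + f M = 2 ^ t * (2 ^ (b - t) * packR b f M) + f M := by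
          rw [hb]; ring
        rw [this, Nat.mul_add_div (by positivity)]
      rw [h4, Nat.mul_add_mod, Nat.mod_eq_of_lt]
      rw [Nat.div_lt_iff_lt_mul (by positivity), ← hb]
      exact hf M (by omega)
    rw [h1, h2, ih (fun m hm => hf m (by omega)), packR_succ]

/-- the packed comparison -/
theorem packR_gt {b s : ℕ} (hb : 1 ≤ b) {a c : ℕ → ℕ} {M : ℕ} (ha : ∀ m < M, a m < 2 ^ (b - 1))
    (hc : ∀ m < M, c m + s ≤ 2 ^ (b - 1))
    (h : ((packR b a M + packR b (fun _ => 2 ^ (b - 1)) M) -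
        (packR b c M + packR b (fun _ => s) M)) &&& packR b (fun _ => 2 ^ (b - 1)) M =
        packR b (fun _ => 2 ^ (b - 1)) M) : ∀ m < M, c m + s ≤ a m := by
  have hbb : 2 ^ b = 2 * 2 ^ (b - 1) := by
    rw [← pow_succ']; congr 1; omega
  have hp : 0 < 2 ^ (b - 1) := by positivity
  set d : ℕ → ℕ := fun m => a m + 2 ^ (b - 1) - (c m + s) with hd
  have h1 : packR b a M + packR b (fun _ => 2 ^ (b - 1)) M =
      packR b d M + (packR b c M + packR b (fun _ => s) M) := by
    rw [packR_add, packR_add, packR_add]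
    apply packR_congr
    intro m hm
    have := hc m hm
    simp only [hd]
    omega
  rw [h1, Nat.add_sub_cancel] at h
  have hd2 : ∀ m < M, d m < 2 ^ b := by
    intro m hm
    have := ha m hm
    simp only [hd]
    omega
  rw [packR_land hd2 (fun m _ => by omega)] at h
  have h3 := packR_inj (fun m hm => lt_of_le_of_lt Nat.and_le_left (hd2 m hm))
    (fun m _ => by omega) h
  intro m hm
  have h4 : d m &&& 2 ^ (b - 1) = 2 ^ (b - 1) := h3 m hm
  have h5 : d m &&& 2 ^ (b - 1) ≤ d m := Nat.and_le_left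
  have h6 := hc m hm
  rw [h4] at h5
  simp only [hd] at h5
  omega

/-! ## certificates for division by `1 - q^k` -/

theorem cert {b k B : ℕ} (hk : 1 ≤ k) (hB : 2 * B ≤ 2 ^ b) {g h : ℕ → ℕ}
    (hrec : ∀ m, h m = g m + if k ≤ m then h (m - k) else 0) (M : ℕ) :
    ∀ H : ℕ, (∀ m < M, g m < B) → (∀ i, (H / (2 ^ b) ^ i) % 2 ^ b < B) →
      H = packR b g M + H / (2 ^ b) ^ k → H = packR b h M ∧ ∀ m < M, h m < B := by
  have hX : 1 < 2 ^ b ∨ 2 ^ b = 1 := by
    rcases Nat.eq_zero_or_pos b with h0 | h0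
    · right; rw [h0, pow_zero]
    · left; exact Nat.one_lt_two_pow (by omega)
  induction M with
  | zero =>
    intro H _ hsm hH
    refine ⟨?_, fun m hm => by omega⟩
    rw [packR, Nat.zero_add] at hH
    by_contra h0
    have h0' : 0 < H := Nat.pos_of_ne_zero h0
    rcases hX with hX | hX
    · have : H / (2 ^ b) ^ k < H := Nat.div_lt_self h0' (Nat.one_lt_pow (by omega) hX)
      omega
    · have := hsm 0
      omega
  | succ M ih =>
    intro H hg hsm hH
    set X := 2 ^ b with hXdef
    have hXpos : 0 < X := by positivity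
    have hgM := hg M (by omega)
    have hr := hsm k
    set r := (H / X ^ k) % X with hrdef
    set q := (H / X ^ k) / X with hqdef
    have hqr : H / X ^ k = X * q + r := (Nat.div_add_mod _ _).symm
    have hH2 : H = X * (packR b g M + q) + (g M + r) := by
      rw [packR_succ, hqr] at hH
      rw [hH]; ring
    have hlt : g M + r < X := by omega
    have hdiv : H / X = packR b g M + q := by
      conv_lhs => rw [hH2]
      rw [Nat.mul_add_div hXpos, Nat.div_eq_of_lt hlt, add_zero]
    have hmod : H % X = g M + r := by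
      conv_lhs => rw [hH2]
      rw [Nat.mul_add_mod, Nat.mod_eq_of_lt hlt]
    have hq2 : q = H / X / X ^ k := by
      rw [hqdef, Nat.div_div_eq_div_mul, Nat.div_div_eq_div_mul, mul_comm]
    obtain ⟨ih1, ih2⟩ := ih (H / X) (fun m hm => hg m (by omega))
      (by
        intro i
        have := hsm (i + 1)
        rwa [pow_succ', ← Nat.div_div_eq_div_mul] at this)
      (by rw [← hq2]; exact hdiv)
    have hBX : B ≤ X := by omega
    have hr2 : r = if k ≤ M then h (M - k) else 0 := by
      obtain ⟨j, rfl⟩ : ∃ j, k = j + 1 := ⟨k - 1, by omega⟩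
      have h1 : r = (H / X / X ^ j) % X := by
        rw [hrdef, pow_succ', ← Nat.div_div_eq_div_mul]
      rw [h1, ih1, packR_slot (fun m hm => lt_of_lt_of_le (ih2 m hm) hBX)]
      by_cases hj : j < M
      · rw [if_pos hj, if_pos (by omega)]
        congr 1
        omega
      · rw [if_neg hj, if_neg (by omega)]
    have hhM : H % X = h M := by rw [hmod, hrec M, hr2]
    have h0 := hsm 0
    rw [pow_zero, Nat.div_one, hhM] at h0
    refine ⟨?_, ?_⟩
    · rw [packR_succ, ← ih1, ← hhM]
      exact (Nat.div_add_mod _ _).symm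
    · intro m hm
      rcases Nat.lt_succ_iff_lt_or_eq.mp hm with h3 | h3
      · exact ih2 m h3
      · rw [h3]; exact h0

/-- smallness of all slots from one `land` -/
theorem small_of_land {b B N H : ℕ} (hB0 : 0 < B) (hB : B ≤ 2 ^ b)
    (h : H &&& packR b (fun _ => B - 1) N = H) (i : ℕ) : (H / (2 ^ b) ^ i) % 2 ^ b < B := by
  have hlt : ∀ m < N, (fun _ : ℕ => B - 1) m < 2 ^ b := by
    intro m _
    show B - 1 < 2 ^ b
    omega
  have h1 : (H / (2 ^ b) ^ i) % 2 ^ b = ((H / (2 ^ b) ^ i) % 2 ^ b) &&&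
      ((packR b (fun _ => B - 1) N / (2 ^ b) ^ i) % 2 ^ b) := by
    rw [← Nat.and_mod_two_pow, ← pow_mul, ← Nat.and_div_two_pow, h]
  rw [packR_slot hlt] at h1
  rw [h1]
  split_ifs
  · exact lt_of_le_of_lt Nat.and_le_right (by omega)
  · rw [Nat.and_zero]; exact hB0

theorem ones_eq {b : ℕ} (hb : 1 ≤ b) (L : ℕ) :
    (2 ^ (b * L) - 1) / (2 ^ b - 1) = packR b (fun _ => 1) L := by
  have h1 : 1 < 2 ^ b := Nat.one_lt_two_pow (by omega)
  have h2 : 2 ^ (b * L) = (2 ^ b - 1) * packR b (fun _ => 1) L + 1 := by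
    induction L with
    | zero => simp [packR]
    | succ L ih =>
      rw [Nat.mul_succ, pow_add, ih, packR_succ]
      obtain ⟨x, hx⟩ : ∃ x, 2 ^ b = x + 1 := ⟨2 ^ b - 1, by omega⟩
      rw [hx, Nat.add_sub_cancel]
      ring
  rw [h2, Nat.add_sub_cancel, Nat.mul_div_cancel_left _ (by omega)]

end Pool.Agent.Lib.Durfee.FC
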