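import Pool.Agent.Lib.MP_9393b1_co.FCProg

/-!
# Finite check for the Durfee polynomials, part 4: one block `K² ≤ n < (K+1)²`
-/

set_option autoImplicit false

namespace Pool.Agent.Lib.Durfee.FC

open Polynomial

/-- `f a b` for consecutive elements -/
def mono (lt : ℕ → ℕ → Bool) : List ℕ → Bool
  | [] => true
  | [_] => true
  | a :: b :: l => lt a b && mono lt (b :: l)

theorem mono_get {lt : ℕ → ℕ → Bool} (l : List ℕ) (h : mono lt l = true) :
    ∀ i, i + 1 < l.length → lt (l.getD i 0) (l.getD (i + 1) 0) = true := by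
  induction l with
  | nil => intro i hi; simp at hi
  | cons a l ih =>
    cases l with
    | nil => intro i hi; simp at hi
    | cons b l =>
      rw [mono, Bool.and_eq_true] at h
      intro i hi
      rcases i with _ | i
      · exact h.1
      · rw [List.getD_cons_succ, List.getD_cons_succ]
        exact ih h.2 i (by simpa using hi)

theorem all_get {p : ℕ → Bool} {l : List ℕ} (h : l.all p = true) {i : ℕ} (hi : i < l.length) :
    p (l.getD i 0) = true := by
  rw [List.all_eq_true] at h
  rw [List.getD_eq_getElem _ _ hi]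
  exact h _ (List.getElem_mem hi)

/-- `val a < val b` -/
def ltC (a b : ℕ) : Bool := Nat.blt (a % 64 * 2 ^ (b / 64)) (b % 64 * 2 ^ (a / 64))

/-- `val c < 1` -/
def lt1 (c : ℕ) : Bool := Nat.blt (c % 64) (2 ^ (c / 64))

theorem ltC_sound {a b : ℕ} (h : ltC a b = true) : val a < val b := by
  unfold ltC at h
  rw [Nat.blt_eq] at h
  unfold val
  rw [div_lt_div_iff₀ (by positivity) (by positivity)]
  exact_mod_cast h

theorem lt1_sound {c : ℕ} (h : lt1 c = true) : val c < 1 := by
  unfold lt1 at h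
  rw [Nat.blt_eq] at h
  unfold val
  rw [div_lt_one (by positivity)]
  exact_mod_cast h

theorem goodC_sound {c : ℕ} (h : goodC c = true) : 0 < val c ∧ val c ≤ 1 := by
  unfold goodC at h
  rw [Bool.and_eq_true, Bool.and_eq_true, Nat.blt_eq, Nat.ble_eq] at h
  unfold val
  obtain ⟨h1, h2, _⟩ := h
  have h1' : (0 : ℝ) < ((c % 64 : ℕ) : ℝ) := by exact_mod_cast h1
  refine ⟨by positivity, ?_⟩
  rw [div_le_one (by positivity)]
  exact_mod_cast h2

/-- side conditions -/
def side (K : ℕ) (A B : List ℕ) (posB : Bool) : Bool :=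
  A.all goodC && (B.all goodC && (A.all lt1 && (mono ltC A && (mono (fun a b => ltC b a) B &&
    (Nat.beq (A.length + B.length + 1) K && (Nat.ble K 119 &&
      (posB == Nat.beq ((A.length + 1 + K) % 2) 0)))))))

noncomputable def onesK (L : ℕ) : ℕ :=
  Nat.div (Nat.sub (Nat.pow 2 (Nat.mul 448 L)) 1) (Nat.sub (Nat.pow 2 448) 1)

/-- final tests on the list of slices (largest `k` first) -/
noncomputable def fin (ones : ℕ) (A B : List ℕ) (posB : Bool) (r : List ℕ) : Bool :=
  run ones (pick r.reverse true) (pick r.reverse false) A false &&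
    run ones (pick r true) (pick r false) B posB

/-- the check for the block `K² ≤ n < (K+1)²` -/
noncomputable def check (K : ℕ) (A B : List ℕ) (posB : Bool) : Bool :=
  loop (Nat.mul 448 (Nat.add (Nat.mul 2 K) 1))
    (Nat.mul (Nat.sub (Nat.pow 2 428) 1) (onesK (Nat.pow (Nat.succ K) 2)))
    (fin (onesK (Nat.add (Nat.mul 2 K) 1)) A B posB) K 0
    (Nat.pow 2 (Nat.add (Nat.mul 448 (Nat.sub (Nat.pow (Nat.succ K) 2) 1)) 32)) []

theorem onesK_eq (L : ℕ) : onesK L = packR 448 (fun _ => 1) L := ones_eq (by norm_num) L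

theorem init_eq {N : ℕ} (hN : 1 ≤ N) : 2 ^ (448 * (N - 1) + 32) = packR 448 (q2 0) (N - 0 ^ 2) := by
  obtain ⟨M, rfl⟩ : ∃ M, N = M + 1 := ⟨N - 1, by omega⟩
  have h : ∀ M : ℕ, packR 448 (q2 0) (M + 1) = 2 ^ (448 * M + 32) := by
    intro M
    induction M with
    | zero => rw [packR_succ, packR, q2_zero, if_pos rfl]; simp
    | succ M ih =>
      rw [packR_succ, ih, q2_zero, if_neg (by omega), add_zero, ← pow_add]
      congr 1
      ring
  have e : M + 1 - 0 ^ 2 = M + 1 := by norm_num
  rw [e, h M, Nat.add_sub_cancel]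

theorem pe_row {n0 m K : ℕ} (hs : Nat.sqrt (n0 + m) = K) (y : ℝ) :
    pe (-y) ((List.range (K + 1)).map (fun i => row n0 i m)) = 2 ^ 32 * Dval (n0 + m) y := by
  rw [pe_range (-y) (fun i => row n0 i m)]
  unfold Dval Dpoly row
  rw [hs, eval_finsetSum, Finset.mul_sum]
  apply Finset.sum_congr rfl
  intro i _
  rw [eval_mul, eval_C, eval_pow, eval_X]
  push_cast
  ring

theorem block {K : ℕ} {A B : List ℕ} {posB : Bool} (hK : 1 ≤ K) (hside : side K A B posB = true)
    (hchk : check K A B posB = true) {n : ℕ} (h1 : K ^ 2 ≤ n) (h2 : n < (K + 1) ^ 2) :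
    ∀ z : ℂ, aeval z (Dpoly n) = 0 → z.im = 0 := by
  -- side conditions
  unfold side at hside
  simp only [Bool.and_eq_true, beq_iff_eq] at hside
  obtain ⟨sA, sB, s1, mA, mB, hlen, hK119, hpar⟩ := hside
  replace hlen := Nat.eq_of_beq_eq_true hlen
  rw [Nat.ble_eq] at hK119
  have hN1 : 1 ≤ (K + 1) ^ 2 := Nat.one_le_pow _ _ (by omega)
  have hN : (K + 1) ^ 2 = K ^ 2 + (2 * K + 1) := by ring
  have hgm : (2 ^ 428 - 1) * onesK ((K + 1) ^ 2) = packR 448 (fun _ => BB - 1) ((K + 1) ^ 2) := by
    rw [onesK_eq, packR_mul_left]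
    simp only [mul_one]
    rfl
  have hl : loop (448 * (2 * K + 1)) ((2 ^ 428 - 1) * onesK ((K + 1) ^ 2))
    (fin (onesK (2 * K + 1)) A B posB) K 0 (2 ^ (448 * ((K + 1) ^ 2 - 1) + 32)) [] = true := hchk
  have hBB32 : 2 ^ 32 < BB := by
    unfold BB
    exact Nat.pow_lt_pow_right (by norm_num) (by norm_num)
  obtain ⟨hfin, hrow⟩ := loop_sound (le_refl (K ^ 2)) hN hgm K 0 _ [] (by omega) (init_eq hN1)
    (by
      intro m _
      rw [q2_zero]
      split_ifs
      · exact hBB32
      · exact BB_pos)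
    (by simp) (by intro i hi; omega) hl
  set L := 2 * K + 1 with hLdef
  obtain ⟨m, rfl⟩ : ∃ m, n = K ^ 2 + m := ⟨n - K ^ 2, by omega⟩
  have hm : m < L := by omega
  have hs : Nat.sqrt (K ^ 2 + m) = K := by
    rw [Nat.eq_sqrt'.mpr ⟨h1, h2⟩ |>.symm]
  set fs : List (ℕ → ℕ) := (List.range (K + 1)).map (fun i => row (K ^ 2) i) with hfs
  have hfslen : fs.length = K + 1 := by rw [hfs, List.length_map, List.length_range]
  have hfsB : ∀ f ∈ fs, ∀ m < L, f m ≤ BB := by
    intro f hf m hm
    rw [hfs, List.mem_map] at hf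
    obtain ⟨i, hi, rfl⟩ := hf
    exact (hrow i (List.mem_range.mp hi) m hm).le
  have hfsB' : ∀ f ∈ fs.reverse, ∀ m < L, f m ≤ BB := by
    intro f hf
    exact hfsB f (List.mem_reverse.mp hf)
  have e1 : (List.range (K + 1)).map (fun i => packR 448 (row (K ^ 2) i) L) =
      fs.map (fun f => packR 448 f L) := by
    rw [hfs, List.map_map]; rfl
  have e2 : fs.map (fun f => f m) = (List.range (K + 1)).map (fun i => row (K ^ 2) i m) := by
    rw [hfs, List.map_map]; rfl
  unfold fin at hfin
  rw [List.reverse_reverse, Bool.and_eq_true, e1, ← List.map_reverse, onesK_eq] at hfin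
  obtain ⟨hA, hB⟩ := hfin
  have rA := run_sound (L := L) (by omega) hfsB A sA false hA
  have rB := run_sound (L := L) (by rw [List.length_reverse]; omega) hfsB' B sB posB hB
  -- test points
  have tA : ∀ i, i < A.length → 0 < (-1 : ℝ) ^ (i + 1) * Dval (K ^ 2 + m) (val (A.getD i 0)) := by
    intro i hi
    have h := rA i hi m hm
    rw [e2, pe_row hs] at h
    simp only [sg, Bool.false_eq_true, if_false] at h
    rw [pow_succ]
    nlinarith
  have tB : ∀ i, i < B.length →
      0 < (-1 : ℝ) ^ (A.length + 1 + i) * Dval (K ^ 2 + m) (val (B.getD i 0))⁻¹ := by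
    intro i hi
    have h := rB i hi m hm
    obtain ⟨z0, z1⟩ := goodC_sound (all_get sB hi)
    set z := val (B.getD i 0) with hz
    rw [List.map_reverse, e2] at h
    have hz' : (-z) ≠ 0 := by intro h0; linarith
    have h3 := pe_reverse hz' ((List.range (K + 1)).map (fun i => row (K ^ 2) i m))
    have e3 : 1 / (-z) = -z⁻¹ := by rw [one_div, inv_neg]
    rw [e3, pe_row hs, List.length_map, List.length_range] at h3
    have h4 : pe (-z) ((List.range (K + 1)).map (fun i => row (K ^ 2) i m)).reverse =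
        (-z) ^ K * (2 ^ 32 * Dval (K ^ 2 + m) z⁻¹) := by
      apply mul_left_cancel₀ hz'
      rw [h3, pow_succ]
      ring
    rw [h4] at h
    have h5 : sg posB = (-1 : ℝ) ^ (A.length + 1 + K) := by
      rw [hpar]
      rcases Nat.even_or_odd (A.length + 1 + K) with he | ho
      · rw [he.neg_one_pow]
        have : (A.length + 1 + K) % 2 = 0 := Nat.even_iff.mp he
        rw [this]
        simp [sg]
      · rw [ho.neg_one_pow]
        have : (A.length + 1 + K) % 2 = 1 := Nat.odd_iff.mp ho
        rw [this]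
        simp [sg]
    rw [h5] at h
    have h6 : (-1 : ℝ) ^ i * (-1) ^ (A.length + 1 + K) * ((-z) ^ K * (2 ^ 32 * Dval (K ^ 2 + m) z⁻¹)) =
        (z ^ K * 2 ^ 32) * ((-1 : ℝ) ^ (A.length + 1 + i) * Dval (K ^ 2 + m) z⁻¹) := by
      have h7 : ((-1 : ℝ) ^ K) * ((-1 : ℝ) ^ K) = 1 := by rw [← mul_pow]; norm_num
      rw [neg_pow z K, pow_add (-1 : ℝ) (A.length + 1) K, pow_add (-1 : ℝ) (A.length + 1) i]
      linear_combination ((-1 : ℝ) ^ i * (-1) ^ (A.length + 1) * z ^ K *
        (2 ^ 32 * Dval (K ^ 2 + m) z⁻¹)) * h7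
    rw [h6] at h
    exact (mul_pos_iff_of_pos_left (by positivity)).mp h
  set y : ℕ → ℝ := fun k => if k ≤ A.length then val (A.getD (k - 1) 0)
    else (val (B.getD (k - 1 - A.length) 0))⁻¹ with hy
  refine Dpoly_realrooted_of_signs (by
    have : 1 ≤ K ^ 2 := Nat.one_le_pow _ _ hK
    omega) y ?_ ?_ ?_
  · intro k hk hk2
    rw [hs] at hk2
    simp only [hy]
    split_ifs with h
    · exact (goodC_sound (all_get sA (by omega))).1
    · have := (goodC_sound (all_get sB (i := k - 1 - A.length) (by omega))).1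
      positivity
  · intro k hk hk2
    rw [hs] at hk2
    simp only [hy]
    split_ifs with h
    · have := tA (k - 1) (by omega)
      rwa [Nat.sub_add_cancel hk] at this
    · have := tB (k - 1 - A.length) (by omega)
      rwa [show A.length + 1 + (k - 1 - A.length) = k by omega] at this
  · intro k hk hk2
    rw [hs] at hk2
    simp only [hy]
    by_cases h3 : k + 1 ≤ A.length
    · rw [if_pos h3, if_pos (by omega : k ≤ A.length)]
      have := ltC_sound (mono_get A mA (k - 1) (by omega))
      rwa [show k - 1 + 1 = k + 1 - 1 by omega] at this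
    · rw [if_neg h3]
      have g2 := goodC_sound (all_get sB (i := k + 1 - 1 - A.length) (by omega))
      by_cases h4 : k ≤ A.length
      · rw [if_pos h4]
        have g1 := lt1_sound (all_get s1 (i := k - 1) (by omega))
        have : 1 ≤ (val (B.getD (k + 1 - 1 - A.length) 0))⁻¹ := (one_le_inv₀ g2.1).mpr g2.2
        linarith
      · rw [if_neg h4]
        have := ltC_sound (mono_get B mB (k - 1 - A.length) (by omega))
        rw [show k - 1 - A.length + 1 = k + 1 - 1 - A.length by omega] at this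
        exact inv_strictAnti₀ g2.1 this

end Pool.Agent.Lib.Durfee.FC
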