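import Pool.Agent.Lib.MP_9393b1_co.FCBlock

/-! # Finite check for the Durfee polynomials: blocks 1 to 45 (the data files are chained to save memory) -/

set_option autoImplicit false
set_option maxRecDepth 100000

namespace Pool.Agent.Lib.Durfee.FC

open Polynomial

theorem real_1 {n : ℕ} (h1 : 1 ^ 2 ≤ n) (h2 : n < 2 ^ 2) :
    ∀ z : ℂ, aeval z (Dpoly n) = 0 → z.im = 0 :=
  block (K := 1)
    (A := [])
    (B := [])
    (posB := true) (by norm_num) (by decide +kernel) (by decide +kernel) h1 h2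

theorem real_2 {n : ℕ} (h1 : 2 ^ 2 ≤ n) (h2 : n < 3 ^ 2) :
    ∀ z : ℂ, aeval z (Dpoly n) = 0 → z.im = 0 :=
  block (K := 2)
    (A := [329])
    (B := [])
    (posB := true) (by norm_num) (by decide +kernel) (by decide +kernel) h1 h2

theorem real_3 {n : ℕ} (h1 : 3 ^ 2 ≤ n) (h2 : n < 4 ^ 2) :
    ∀ z : ℂ, aeval z (Dpoly n) = 0 → z.im = 0 :=
  block (K := 3)
    (A := [457])
    (B := [1])
    (posB := false) (by norm_num) (by decide +kernel) (by decide +kernel) h1 h2

theorem real_4 {n : ℕ} (h1 : 4 ^ 2 ≤ n) (h2 : n < 5 ^ 2) :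
    ∀ z : ℂ, aeval z (Dpoly n) = 0 → z.im = 0 :=
  block (K := 4)
    (A := [757, 401])
    (B := [489])
    (posB := false) (by norm_num) (by decide +kernel) (by decide +kernel) h1 h2

theorem real_5 {n : ℕ} (h1 : 5 ^ 2 ≤ n) (h2 : n < 6 ^ 2) :
    ∀ z : ℂ, aeval z (Dpoly n) = 0 → z.im = 0 :=
  block (K := 5)
    (A := [817, 539, 347])
    (B := [393])
    (posB := false) (by norm_num) (by decide +kernel) (by decide +kernel) h1 h2

theorem real_6 {n : ℕ} (h1 : 6 ^ 2 ≤ n) (h2 : n < 7 ^ 2) :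
    ∀ z : ℂ, aeval z (Dpoly n) = 0 → z.im = 0 :=
  block (K := 6)
    (A := [883, 525, 493])
    (B := [419, 457])
    (posB := true) (by norm_num) (by decide +kernel) (by decide +kernel) h1 h2

theorem real_7 {n : ℕ} (h1 : 7 ^ 2 ≤ n) (h2 : n < 8 ^ 2) :
    ∀ z : ℂ, aeval z (Dpoly n) = 0 → z.im = 0 :=
  block (K := 7)
    (A := [955, 761, 471, 345])
    (B := [485, 679])
    (posB := true) (by norm_num) (by decide +kernel) (by decide +kernel) h1 h2

theorem real_8 {n : ℕ} (h1 : 8 ^ 2 ≤ n) (h2 : n < 9 ^ 2) :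
    ∀ z : ℂ, aeval z (Dpoly n) = 0 → z.im = 0 :=
  block (K := 8)
    (A := [933, 657, 629, 333])
    (B := [429, 395, 663])
    (posB := false) (by norm_num) (by decide +kernel) (by decide +kernel) h1 h2

theorem real_9 {n : ℕ} (h1 : 9 ^ 2 ≤ n) (h2 : n < 10 ^ 2) :
    ∀ z : ℂ, aeval z (Dpoly n) = 0 → z.im = 0 :=
  block (K := 9)
    (A := [707, 811, 257, 573, 431])
    (B := [503, 391, 825])
    (posB := false) (by norm_num) (by decide +kernel) (by decide +kernel) h1 h2

theorem real_10 {n : ℕ} (h1 : 10 ^ 2 ≤ n) (h2 : n < 11 ^ 2) :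
    ∀ z : ℂ, aeval z (Dpoly n) = 0 → z.im = 0 :=
  block (K := 10)
    (A := [641, 889, 597, 467, 263])
    (B := [437, 329, 613, 805])
    (posB := true) (by norm_num) (by decide +kernel) (by decide +kernel) h1 h2

theorem real_11 {n : ℕ} (h1 : 11 ^ 2 ≤ n) (h2 : n < 12 ^ 2) :
    ∀ z : ℂ, aeval z (Dpoly n) = 0 → z.im = 0 :=
  block (K := 11)
    (A := [1069, 871, 669, 627, 329, 343])
    (B := [419, 561, 691, 579])
    (posB := true) (by norm_num) (by decide +kernel) (by decide +kernel) h1 h2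

theorem real_12 {n : ℕ} (h1 : 12 ^ 2 ≤ n) (h2 : n < 13 ^ 2) :
    ∀ z : ℂ, aeval z (Dpoly n) = 0 → z.im = 0 :=
  block (K := 12)
    (A := [1057, 711, 745, 457, 561, 507])
    (B := [443, 195, 465, 521, 865])
    (posB := false) (by norm_num) (by decide +kernel) (by decide +kernel) h1 h2

theorem real_13 {n : ℕ} (h1 : 13 ^ 2 ≤ n) (h2 : n < 14 ^ 2) :
    ∀ z : ℂ, aeval z (Dpoly n) = 0 → z.im = 0 :=
  block (K := 13)
    (A := [1137, 937, 655, 691, 465, 489, 429])
    (B := [425, 483, 537, 755, 941])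
    (posB := false) (by norm_num) (by decide +kernel) (by decide +kernel) h1 h2

theorem real_14 {n : ℕ} (h1 : 14 ^ 2 ≤ n) (h2 : n < 15 ^ 2) :
    ∀ z : ℂ, aeval z (Dpoly n) = 0 → z.im = 0 :=
  block (K := 14)
    (A := [1125, 1021, 651, 595, 537, 477, 415])
    (B := [1, 335, 563, 613, 659, 577])
    (posB := true) (by norm_num) (by decide +kernel) (by decide +kernel) h1 h2

theorem real_15 {n : ℕ} (h1 : 15 ^ 2 ≤ n) (h2 : n < 16 ^ 2) :
    ∀ z : ℂ, aeval z (Dpoly n) = 0 → z.im = 0 :=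
  block (K := 15)
    (A := [1209, 1007, 721, 761, 531, 555, 331, 267])
    (B := [343, 493, 551, 455, 583, 919])
    (posB := true) (by norm_num) (by decide +kernel) (by decide +kernel) h1 h2

theorem real_16 {n : ℕ} (h1 : 16 ^ 2 ≤ n) (h2 : n < 17 ^ 2) :
    ∀ z : ℂ, aeval z (Dpoly n) = 0 → z.im = 0 :=
  block (K := 16)
    (A := [1197, 841, 717, 587, 697, 193, 481, 65, 445])
    (B := [419, 401, 463, 683, 811, 913])
    (posB := true) (by norm_num) (by decide +kernel) (by decide +kernel) h1 h2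

theorem real_17 {n : ℕ} (h1 : 17 ^ 2 ≤ n) (h2 : n < 18 ^ 2) :
    ∀ z : ℂ, aeval z (Dpoly n) = 0 → z.im = 0 :=
  block (K := 17)
    (A := [1187, 1081, 873, 739, 685, 537, 473, 495, 267])
    (B := [435, 411, 565, 623, 593, 801, 985])
    (posB := false) (by norm_num) (by decide +kernel) (by decide +kernel) h1 h2

theorem real_18 {n : ℕ} (h1 : 18 ^ 2 ≤ n) (h2 : n < 19 ^ 2) :
    ∀ z : ℂ, aeval z (Dpoly n) = 0 → z.im = 0 :=
  block (K := 18)
    (A := [1273, 983, 865, 823, 675, 615, 551, 329, 417, 349])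
    (B := [423, 405, 469, 613, 667, 883, 1061])
    (posB := false) (by norm_num) (by decide +kernel) (by decide +kernel) h1 h2

theorem real_19 {n : ℕ} (h1 : 19 ^ 2 ≤ n) (h2 : n < 20 ^ 2) :
    ∀ z : ℂ, aeval z (Dpoly n) = 0 → z.im = 0 :=
  block (K := 19)
    (A := [1175, 1061, 949, 651, 761, 607, 637, 327, 409, 427])
    (B := [439, 415, 401, 465, 527, 747, 645, 903])
    (posB := true) (by norm_num) (by decide +kernel) (by decide +kernel) h1 h2

theorem real_20 {n : ℕ} (h1 : 20 ^ 2 ≤ n) (h2 : n < 21 ^ 2) :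
    ∀ z : ℂ, aeval z (Dpoly n) = 0 → z.im = 0 :=
  block (K := 20)
    (A := [1171, 1149, 939, 649, 663, 601, 625, 557, 487, 417, 199])
    (B := [427, 409, 567, 631, 689, 657, 513, 1131])
    (posB := true) (by norm_num) (by decide +kernel) (by decide +kernel) h1 h2

theorem real_21 {n : ℕ} (h1 : 21 ^ 2 ≤ n) (h2 : n < 22 ^ 2) :
    ∀ z : ℂ, aeval z (Dpoly n) = 0 → z.im = 0 :=
  block (K := 21)
    (A := [1343, 1049, 777, 719, 659, 681, 389, 393, 479, 333, 427])
    (B := [349, 419, 489, 557, 621, 453, 583, 947, 1121])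
    (posB := false) (by norm_num) (by decide +kernel) (by decide +kernel) h1 h2

theorem real_22 {n : ℕ} (h1 : 22 ^ 2 ≤ n) (h2 : n < 23 ^ 2) :
    ∀ z : ℂ, aeval z (Dpoly n) = 0 → z.im = 0 :=
  block (K := 22)
    (A := [1333, 1045, 847, 881, 831, 593, 609, 635, 473, 405, 337, 347])
    (B := [431, 505, 481, 549, 613, 673, 727, 937, 1203])
    (posB := false) (by norm_num) (by decide +kernel) (by decide +kernel) h1 h2

theorem real_23 {n : ℕ} (h1 : 23 ^ 2 ≤ n) (h2 : n < 24 ^ 2) :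
    ∀ z : ℂ, aeval z (Dpoly n) = 0 → z.im = 0 :=
  block (K := 23)
    (A := [1325, 1123, 921, 873, 653, 519, 603, 625, 553, 401, 411, 427])
    (B := [445, 339, 495, 327, 543, 607, 759, 723, 929, 965])
    (posB := true) (by norm_num) (by decide +kernel) (by decide +kernel) h1 h2

theorem real_24 {n : ℕ} (h1 : 24 ^ 2 ≤ n) (h2 : n < 25 ^ 2) :
    ∀ z : ℂ, aeval z (Dpoly n) = 0 → z.im = 0 :=
  block (K := 24)
    (A := [1235, 1211, 917, 867, 651, 751, 685, 389, 465, 567, 331, 337, 437])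
    (B := [345, 65, 487, 559, 461, 693, 663, 799, 923, 1279])
    (posB := true) (by norm_num) (by decide +kernel) (by decide +kernel) h1 h2

theorem real_25 {n : ℕ} (h1 : 25 ^ 2 ≤ n) (h2 : n < 26 ^ 2) :
    ∀ z : ℂ, aeval z (Dpoly n) = 0 → z.im = 0 :=
  block (K := 25)
    (A := [961, 1113, 841, 955, 723, 517, 595, 529, 633, 471, 329, 503, 341])
    (B := [1, 341, 501, 481, 551, 459, 523, 743, 717, 843, 1177])
    (posB := false) (by norm_num) (by decide +kernel) (by decide +kernel) h1 h2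

theorem real_26 {n : ℕ} (h1 : 26 ^ 2 ≤ n) (h2 : n < 27 ^ 2) :
    ∀ z : ℂ, aeval z (Dpoly n) = 0 → z.im = 0 :=
  block (K := 26)
    (A := [1159, 1195, 991, 947, 449, 657, 673, 605, 323, 551, 399, 407, 337, 269])
    (B := [437, 419, 493, 327, 465, 613, 595, 737, 715, 997, 1029])
    (posB := false) (by norm_num) (by decide +kernel) (by decide +kernel) h1 h2

theorem real_27 {n : ℕ} (h1 : 27 ^ 2 ≤ n) (h2 : n < 28 ^ 2) :
    ∀ z : ℂ, aeval z (Dpoly n) = 0 → z.im = 0 :=
  block (K := 27)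
    (A := [1091, 1189, 1077, 779, 887, 827, 519, 689, 617, 545, 563, 403, 505, 341, 351])
    (B := [267, 507, 403, 259, 541, 257, 321, 823, 869, 1085, 1343])
    (posB := false) (by norm_num) (by decide +kernel) (by decide +kernel) h1 h2

theorem real_28 {n : ℕ} (h1 : 28 ^ 2 ≤ n) (h2 : n < 29 ^ 2) :
    ∀ z : ℂ, aeval z (Dpoly n) = 0 → z.im = 0 :=
  block (K := 28)
    (A := [1301, 833, 983, 851, 579, 819, 451, 597, 611, 391, 555, 129, 195, 419, 435])
    (B := [199, 339, 499, 481, 469, 537, 695, 759, 815, 863, 985, 1331])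
    (posB := true) (by norm_num) (by decide +kernel) (by decide +kernel) h1 h2

theorem real_29 {n : ℕ} (h1 : 29 ^ 2 ≤ n) (h2 : n < 30 ^ 2) :
    ∀ z : ℂ, aeval z (Dpoly n) = 0 → z.im = 0 :=
  block (K := 29)
    (A := [1225, 1031, 837, 929, 873, 651, 661, 677, 701, 323, 549, 567, 261, 413, 341, 271])
    (B := [431, 65, 491, 569, 393, 619, 387, 451, 809, 949, 981, 1321])
    (posB := true) (by norm_num) (by decide +kernel) (by decide +kernel) h1 h2

theorem real_30 {n : ℕ} (h1 : 30 ^ 2 ≤ n) (h2 : n < 31 ^ 2) :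
    ∀ z : ℂ, aeval z (Dpoly n) = 0 → z.im = 0 :=
  block (K := 30)
    (A := [1025, 1265, 1059, 925, 713, 723, 585, 321, 693, 617, 639, 559, 401, 497, 419, 345])
    (B := [349, 197, 263, 403, 473, 639, 531, 597, 745, 803, 941, 1059, 1313])
    (posB := false) (by norm_num) (by decide +kernel) (by decide +kernel) h1 h2

theorem real_31 {n : ℕ} (h1 : 31 ^ 2 ≤ n) (h2 : n < 32 ^ 2) :
    ∀ z : ℂ, aeval z (Dpoly n) = 0 → z.im = 0 :=
  block (K := 31)
    (A := [1223, 1259, 1149, 1011, 959, 721, 385, 519, 599, 457, 631, 553, 571, 405, 507, 341, 443])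
    (B := [345, 419, 195, 481, 555, 631, 609, 521, 585, 893, 935, 975, 1307])
    (posB := false) (by norm_num) (by decide +kernel) (by decide +kernel) h1 h2

theorem real_32 {n : ℕ} (h1 : 32 ^ 2 ≤ n) (h2 : n < 33 ^ 2) :
    ∀ z : ℂ, aeval z (Dpoly n) = 0 → z.im = 0 :=
  block (K := 32)
    (A := [1369, 1171, 1051, 1005, 711, 891, 583, 753, 453, 703, 323, 547, 563, 329, 499, 419, 433])
    (B := [271, 427, 509, 405, 477, 467, 323, 605, 321, 831, 885, 929, 1049, 1227])
    (posB := true) (by norm_num) (by decide +kernel) (by decide +kernel) h1 h2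

theorem real_33 {n : ℕ} (h1 : 33 ^ 2 ≤ n) (h2 : n < 34 ^ 2) :
    ∀ z : ℂ, aeval z (Dpoly n) = 0 → z.im = 0 :=
  block (K := 33)
    (A := [1291, 1169, 835, 999, 945, 717, 817, 747, 675, 695, 533, 637, 395, 479, 331, 335, 341, 441])
    (B := [269, 421, 501, 485, 563, 545, 533, 691, 519, 823, 791, 925, 1131, 1225])
    (posB := true) (by norm_num) (by decide +kernel) (by decide +kernel) h1 h2

theorem real_34 {n : ℕ} (h1 : 34 ^ 2 ≤ n) (h2 : n < 35 ^ 2) :
    ∀ z : ℂ, aeval z (Dpoly n) = 0 → z.im = 0 :=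
  block (K := 34)
    (A := [1447, 1167, 1131, 995, 779, 791, 651, 659, 671, 689, 613, 539, 551, 475, 403, 333, 265, 131])
    (B := [351, 429, 417, 495, 481, 557, 635, 531, 685, 753, 817, 645, 921, 969, 1295])
    (posB := false) (by norm_num) (by decide +kernel) (by decide +kernel) h1 h2

theorem real_35 {n : ℕ} (h1 : 35 ^ 2 ≤ n) (h2 : n < 36 ^ 2) :
    ∀ z : ℂ, aeval z (Dpoly n) = 0 → z.im = 0 :=
  block (K := 35)
    (A := [1443, 1243, 1043, 991, 935, 873, 807, 657, 759, 683, 609, 323, 465, 259, 481, 493, 509, 425, 199])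
    (B := [347, 197, 413, 489, 477, 325, 629, 609, 453, 587, 811, 867, 1003, 1119, 1369])
    (posB := false) (by norm_num) (by decide +kernel) (by decide +kernel) h1 h2

theorem real_36 {n : ℕ} (h1 : 36 ^ 2 ≤ n) (h2 : n < 37 ^ 2) :
    ∀ z : ℂ, aeval z (Dpoly n) = 0 → z.im = 0 :=
  block (K := 36)
    (A := [1535, 1027, 1041, 839, 931, 869, 803, 655, 753, 595, 605, 533, 463, 469, 477, 487, 501, 265, 131])
    (B := [1, 431, 419, 499, 485, 397, 547, 623, 699, 675, 743, 723, 863, 915, 1205, 1449])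
    (posB := true) (by norm_num) (by decide +kernel) (by decide +kernel) h1 h2

theorem real_37 {n : ℕ} (h1 : 37 ^ 2 ≤ n) (h2 : n < 38 ^ 2) :
    ∀ z : ℂ, aeval z (Dpoly n) = 0 → z.im = 0 :=
  block (K := 37)
    (A := [1529, 1323, 1213, 985, 1023, 865, 799, 731, 587, 593, 691, 613, 629, 549, 563, 483, 407, 415, 425, 439])
    (B := [199, 341, 415, 493, 481, 471, 639, 533, 693, 767, 657, 801, 859, 993, 1111, 1361])
    (posB := true) (by norm_num) (by decide +kernel) (by decide +kernel) h1 h2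

theorem real_38 {n : ℕ} (h1 : 38 ^ 2 ≤ n) (h2 : n < 39 ^ 2) :
    ∀ z : ℂ, aeval z (Dpoly n) = 0 → z.im = 0 :=
  block (K := 38)
    (A := [1523, 1319, 1207, 1069, 775, 955, 647, 515, 517, 765, 599, 609, 623, 545, 557, 573, 489, 411, 265, 431, 447])
    (B := [433, 421, 503, 261, 477, 553, 633, 531, 687, 519, 735, 891, 643, 1081, 1191, 1529])
    (posB := true) (by norm_num) (by decide +kernel) (by decide +kernel) h1 h2

theorem real_39 {n : ℕ} (h1 : 39 ^ 2 ≤ n) (h2 : n < 40 ^ 2) :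
    ∀ z : ℂ, aeval z (Dpoly n) = 0 → z.im = 0 :=
  block (K := 39)
    (A := [1431, 1315, 1201, 1065, 1011, 859, 793, 651, 585, 759, 681, 527, 533, 635, 325, 475, 329, 195, 511, 425, 347])
    (B := [349, 267, 417, 497, 329, 397, 549, 627, 529, 683, 755, 823, 885, 853, 985, 1105, 1219])
    (posB := false) (by norm_num) (by decide +kernel) (by decide +kernel) h1 h2

theorem real_40 {n : ℕ} (h1 : 40 ^ 2 ≤ n) (h2 : n < 41 ^ 2) :
    ∀ z : ℂ, aeval z (Dpoly n) = 0 → z.im = 0 :=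
  block (K := 40)
    (A := [1429, 1407, 1197, 1061, 919, 643, 877, 807, 385, 665, 677, 603, 531, 629, 393, 259, 129, 405, 503, 265, 431, 445])
    (B := [435, 423, 507, 331, 481, 559, 545, 535, 701, 595, 749, 817, 879, 851, 907, 1275, 1285])
    (posB := false) (by norm_num) (by decide +kernel) (by decide +kernel) h1 h2

theorem real_41 {n : ℕ} (h1 : 41 ^ 2 ≤ n) (h2 : n < 42 ^ 2) :
    ∀ z : ℂ, aeval z (Dpoly n) = 0 → z.im = 0 :=
  block (K := 41)
    (A := [1427, 1401, 1193, 1057, 917, 779, 873, 649, 733, 749, 593, 387, 529, 623, 193, 555, 569, 485, 497, 511, 425, 437])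
    (B := [443, 343, 419, 501, 261, 571, 555, 463, 617, 695, 675, 745, 651, 789, 929, 1063, 1267, 1425])
    (posB := true) (by norm_num) (by decide +kernel) (by decide +kernel) h1 h2

theorem real_42 {n : ℕ} (h1 : 42 ^ 2 ≤ n) (h2 : n < 43 ^ 2) :
    ∀ z : ℂ, aeval z (Dpoly n) = 0 → z.im = 0 :=
  block (K := 42)
    (A := [1425, 1229, 1189, 1149, 915, 709, 869, 449, 821, 745, 765, 523, 607, 619, 541, 551, 563, 481, 491, 263, 265, 431, 271])
    (B := [437, 425, 511, 195, 329, 565, 467, 631, 531, 601, 767, 741, 581, 787, 847, 977, 1099, 1593])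
    (posB := true) (by norm_num) (by decide +kernel) (by decide +kernel) h1 h2

theorem real_43 {n : ℕ} (h1 : 43 ^ 2 ≤ n) (h2 : n < 44 ^ 2) :
    ∀ z : ℂ, aeval z (Dpoly n) = 0 → z.im = 0 :=
  block (K := 43)
    (A := [1599, 1391, 1105, 1143, 913, 777, 785, 891, 515, 741, 759, 453, 455, 531, 461, 547, 471, 399, 487, 409, 65, 425, 269])
    (B := [445, 431, 421, 505, 491, 129, 259, 547, 537, 529, 685, 761, 737, 649, 785, 1013, 1149, 1255, 1283])
    (posB := false) (by norm_num) (by decide +kernel) (by decide +kernel) h1 h2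

theorem real_44 {n : ℕ} (h1 : 44 ^ 2 ≤ n) (h2 : n < 45 ^ 2) :
    ∀ z : ℂ, aeval z (Dpoly n) = 0 → z.im = 0 :=
  block (K := 44)
    (A := [1593, 1387, 1277, 1049, 1087, 929, 863, 795, 811, 657, 665, 521, 691, 611, 623, 639, 553, 475, 483, 493, 505, 265, 343, 443])
    (B := [439, 427, 417, 499, 487, 571, 395, 193, 621, 607, 681, 755, 655, 449, 957, 707, 1051, 1169, 1349])
    (posB := false) (by norm_num) (by decide +kernel) (by decide +kernel) h1 h2

theorem real_45 {n : ℕ} (h1 : 45 ^ 2 ≤ n) (h2 : n < 46 ^ 2) :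
    ∀ z : ℂ, aeval z (Dpoly n) = 0 → z.im = 0 :=
  block (K := 45)
    (A := [1589, 1157, 1031, 1047, 1081, 847, 953, 881, 581, 829, 663, 673, 599, 703, 619, 633, 549, 561, 575, 261, 499, 65, 425, 269])
    (B := [351, 433, 423, 335, 407, 483, 475, 325, 541, 617, 455, 677, 751, 823, 891, 951, 1003, 835, 1339, 1489])
    (posB := true) (by norm_num) (by decide +kernel) (by decide +kernel) h1 h2

end Pool.Agent.Lib.Durfee.FC
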