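import Pool.Agent.Lib.MP_9393b1_co.FCData9

/-! # Finite check for the Durfee polynomials: blocks 97 to 99 (the data files are chained to save memory) -/

set_option autoImplicit false
set_option maxRecDepth 100000

namespace Pool.Agent.Lib.Durfee.FC

open Polynomial

theorem real_97 {n : ℕ} (h1 : 97 ^ 2 ≤ n) (h2 : n < 98 ^ 2) :
    ∀ z : ℂ, aeval z (Dpoly n) = 0 → z.im = 0 :=
  block (K := 97)
    (A := [1833, 1551, 1429, 1379, 1323, 1261, 1109, 969, 1053, 907, 993, 919, 577, 939, 953, 869, 579, 719, 723, 727, 825, 657, 745, 665, 763, 675, 681, 687, 695, 257, 613, 533, 323, 631, 639, 393, 325, 471, 563, 477, 481, 485, 489, 407, 499, 413, 65, 265, 197, 429, 345, 199, 351])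
    (B := [443, 437, 431, 341, 421, 417, 507, 501, 495, 489, 329, 129, 327, 561, 469, 549, 639, 539, 535, 615, 609, 695, 599, 677, 591, 451, 659, 827, 813, 721, 881, 785, 943, 1021, 997, 1067, 1133, 1193, 1343, 1225, 1499, 1761, 2215])
    (posB := false) (by norm_num) (by decide +kernel) (by decide +kernel) h1 h2

theorem real_98 {n : ℕ} (h1 : 98 ^ 2 ≤ n) (h2 : n < 99 ^ 2) :
    ∀ z : ℂ, aeval z (Dpoly n) = 0 → z.im = 0 :=
  block (K := 98)
    (A := [1831, 1629, 1513, 1377, 1321, 1259, 965, 1123, 903, 1067, 1087, 1005, 927, 853, 951, 713, 791, 797, 649, 813, 823, 737, 517, 751, 519, 673, 679, 685, 693, 701, 611, 389, 535, 629, 463, 465, 551, 395, 561, 567, 479, 483, 487, 331, 497, 503, 509, 337, 339, 341, 431, 437, 443])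
    (B := [351, 199, 345, 429, 197, 265, 65, 505, 409, 331, 487, 483, 573, 565, 559, 553, 547, 637, 461, 459, 531, 703, 693, 523, 521, 669, 663, 741, 825, 811, 449, 879, 865, 941, 925, 995, 1065, 1045, 1191, 1339, 1297, 1497, 1853, 2211])
    (posB := true) (by norm_num) (by decide +kernel) (by decide +kernel) h1 h2

theorem real_99 {n : ℕ} (h1 : 99 ^ 2 ≤ n) (h2 : n < 100 ^ 2) :
    ∀ z : ℂ, aeval z (Dpoly n) = 0 → z.im = 0 :=
  block (K := 99)
    (A := [1747, 1719, 1511, 1025, 1093, 1173, 1191, 1121, 1141, 1065, 911, 1003, 1019, 709, 949, 785, 715, 647, 803, 811, 653, 831, 659, 663, 667, 321, 677, 523, 691, 605, 529, 615, 459, 537, 633, 545, 549, 469, 559, 565, 571, 481, 485, 405, 407, 333, 413, 65, 265, 197, 429, 345, 439, 351])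
    (B := [443, 437, 131, 427, 339, 337, 509, 411, 195, 491, 403, 481, 477, 563, 557, 551, 465, 541, 537, 533, 457, 701, 691, 597, 593, 759, 587, 739, 731, 809, 893, 877, 959, 853, 1015, 913, 979, 901, 1033, 1335, 1025, 1583, 1607, 2303])
    (posB := true) (by norm_num) (by decide +kernel) (by decide +kernel) h1 h2

end Pool.Agent.Lib.Durfee.FC
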