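import Pool.Agent.Lib.MP_9393b1_co.FCData1

/-! # Finite check for the Durfee polynomials: blocks 46 to 58 (the data files are chained to save memory) -/

set_option autoImplicit false
set_option maxRecDepth 100000

namespace Pool.Agent.Lib.Durfee.FC

open Polynomial

theorem real_46 {n : ℕ} (h1 : 46 ^ 2 ≤ n) (h2 : n < 47 ^ 2) :
    ∀ z : ℂ, aeval z (Dpoly n) = 0 → z.im = 0 :=
  block (K := 46)
    (A := [1283, 1225, 1267, 1045, 1077, 1015, 781, 877, 649, 583, 661, 591, 597, 605, 615, 461, 465, 395, 327, 329, 407, 413, 265, 343, 349])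
    (B := [199, 267, 419, 503, 405, 129, 561, 393, 629, 531, 525, 593, 747, 729, 885, 857, 915, 1131, 1165, 1565])
    (posB := true) (by norm_num) (by decide +kernel) (by decide +kernel) h1 h2

theorem real_47 {n : ℕ} (h1 : 47 ^ 2 ≤ n) (h2 : n < 48 ^ 2) :
    ∀ z : ℂ, aeval z (Dpoly n) = 0 → z.im = 0 :=
  block (K := 47)
    (A := [1419, 1377, 1263, 1127, 771, 1011, 643, 873, 801, 819, 659, 759, 595, 693, 611, 623, 543, 325, 563, 481, 489, 333, 417, 425, 435])
    (B := [1, 435, 197, 511, 409, 487, 571, 557, 545, 323, 529, 687, 671, 743, 813, 579, 941, 913, 1043, 1325, 1561])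
    (posB := false) (by norm_num) (by decide +kernel) (by decide +kernel) h1 h2

theorem real_48 {n : ℕ} (h1 : 48 ^ 2 ≤ n) (h2 : n < 49 ^ 2) :
    ∀ z : ℂ, aeval z (Dpoly n) = 0 → z.im = 0 :=
  block (K := 48)
    (A := [1577, 1469, 1259, 969, 907, 1007, 779, 787, 893, 815, 739, 665, 675, 387, 257, 619, 391, 393, 471, 571, 485, 495, 507, 421, 343, 441])
    (B := [349, 343, 421, 413, 493, 483, 475, 553, 637, 459, 703, 683, 761, 585, 809, 715, 937, 991, 1041, 1093, 1557])
    (posB := false) (by norm_num) (by decide +kernel) (by decide +kernel) h1 h2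

theorem real_49 {n : ℕ} (h1 : 49 ^ 2 ≤ n) (h2 : n < 50 ^ 2) :
    ∀ z : ℂ, aeval z (Dpoly n) = 0 → z.im = 0 :=
  block (K := 49)
    (A := [1491, 1465, 1029, 1121, 1065, 1003, 709, 867, 647, 811, 385, 663, 321, 523, 699, 615, 627, 545, 469, 475, 401, 405, 501, 417, 425, 435, 447])
    (B := [269, 341, 417, 501, 489, 129, 473, 467, 391, 617, 605, 453, 589, 737, 723, 645, 933, 839, 1039, 1315, 1481])
    (posB := false) (by norm_num) (by decide +kernel) (by decide +kernel) h1 h2

theorem real_50 {n : ℕ} (h1 : 50 ^ 2 ≤ n) (h2 : n < 51 ^ 2) :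
    ∀ z : ℂ, aeval z (Dpoly n) = 0 → z.im = 0 :=
  block (K := 50)
    (A := [1571, 1293, 1253, 1213, 979, 773, 933, 513, 717, 581, 827, 747, 763, 681, 695, 457, 623, 637, 551, 561, 573, 403, 195, 507, 421, 429, 199])
    (B := [443, 131, 339, 509, 195, 403, 571, 471, 547, 461, 531, 693, 521, 451, 655, 803, 713, 849, 985, 1115, 1311, 1631])
    (posB := true) (by norm_num) (by decide +kernel) (by decide +kernel) h1 h2

theorem real_51 {n : ℕ} (h1 : 51 ^ 2 ≤ n) (h2 : n < 52 ^ 2) :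
    ∀ z : ℂ, aeval z (Dpoly n) = 0 → z.im = 0 :=
  block (K := 51)
    (A := [1217, 1155, 1169, 967, 1059, 997, 849, 955, 579, 805, 823, 743, 759, 677, 601, 609, 619, 631, 547, 557, 327, 483, 491, 411, 417, 425, 345, 351])
    (B := [347, 427, 419, 263, 331, 483, 567, 469, 193, 323, 611, 689, 593, 587, 823, 895, 865, 1021, 983, 1201, 1399, 1717])
    (posB := true) (by norm_num) (by decide +kernel) (by decide +kernel) h1 h2

theorem real_52 {n : ℕ} (h1 : 52 ^ 2 ≤ n) (h2 : n < 53 ^ 2) :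
    ∀ z : ℂ, aeval z (Dpoly n) = 0 → z.im = 0 :=
  block (K := 52)
    (A := [1487, 1453, 1343, 1037, 705, 913, 1023, 951, 715, 721, 729, 585, 755, 593, 599, 701, 389, 627, 193, 553, 563, 129, 487, 497, 335, 421, 429, 439])
    (B := [271, 433, 197, 65, 499, 489, 129, 473, 551, 635, 459, 257, 685, 671, 745, 729, 797, 957, 775, 1065, 1035, 1091, 1623])
    (posB := false) (by norm_num) (by decide +kernel) (by decide +kernel) h1 h2

theorem real_53 {n : ℕ} (h1 : 53 ^ 2 ≤ n) (h2 : n < 54 ^ 2) :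
    ∀ z : ℂ, aeval z (Dpoly n) = 0 → z.im = 0 :=
  block (K := 53)
    (A := [1655, 1449, 1339, 899, 975, 1087, 1019, 947, 873, 895, 815, 737, 751, 321, 683, 455, 613, 623, 463, 467, 559, 477, 329, 331, 411, 417, 425, 345, 445])
    (B := [439, 429, 265, 507, 495, 403, 399, 559, 393, 539, 617, 699, 597, 761, 741, 727, 885, 711, 1011, 1061, 1191, 1387, 1703])
    (posB := false) (by norm_num) (by decide +kernel) (by decide +kernel) h1 h2

theorem real_54 {n : ℕ} (h1 : 54 ^ 2 ≤ n) (h2 : n < 55 ^ 2) :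
    ∀ z : ℂ, aeval z (Dpoly n) = 0 → z.im = 0 :=
  block (K := 54)
    (A := [1651, 1363, 1243, 1197, 903, 989, 1015, 943, 787, 797, 811, 735, 747, 763, 679, 525, 529, 619, 631, 547, 555, 565, 481, 261, 409, 509, 421, 429, 439])
    (B := [445, 345, 425, 417, 411, 331, 483, 567, 555, 545, 537, 531, 695, 679, 757, 657, 811, 881, 947, 919, 977, 1187, 1299, 1617])
    (posB := true) (by norm_num) (by decide +kernel) (by decide +kernel) h1 h2

theorem real_55 {n : ℕ} (h1 : 55 ^ 2 ≤ n) (h2 : n < 56 ^ 2) :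
    ∀ z : ℂ, aeval z (Dpoly n) = 0 → z.im = 0 :=
  block (K := 55)
    (A := [1347, 1289, 1331, 1109, 973, 987, 1011, 779, 867, 795, 581, 733, 517, 759, 677, 387, 607, 389, 627, 193, 325, 561, 399, 485, 493, 503, 337, 425, 433, 271])
    (B := [199, 343, 339, 415, 409, 261, 129, 563, 325, 543, 623, 611, 691, 521, 753, 385, 807, 877, 943, 917, 1055, 1279, 1297, 1693])
    (posB := true) (by norm_num) (by decide +kernel) (by decide +kernel) h1 h2

theorem real_56 {n : ℕ} (h1 : 56 ^ 2 ≤ n) (h2 : n < 57 ^ 2) :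
    ∀ z : ℂ, aeval z (Dpoly n) = 0 → z.im = 0 :=
  block (K := 56)
    (A := [1645, 1441, 1327, 1191, 835, 985, 1007, 937, 865, 793, 805, 821, 741, 755, 593, 685, 605, 613, 623, 635, 549, 557, 327, 401, 489, 409, 509, 421, 429, 347])
    (B := [447, 269, 427, 419, 505, 407, 485, 399, 559, 549, 633, 619, 257, 687, 673, 749, 827, 649, 789, 939, 999, 903, 1273, 1295, 1689])
    (posB := false) (by norm_num) (by decide +kernel) (by decide +kernel) h1 h2

theorem real_57 {n : ℕ} (h1 : 57 ^ 2 ≤ n) (h2 : n < 58 ^ 2) :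
    ∀ z : ℂ, aeval z (Dpoly n) = 0 → z.im = 0 :=
  block (K := 57)
    (A := [1557, 1439, 1163, 1033, 1133, 1071, 843, 851, 957, 879, 803, 729, 739, 751, 767, 681, 603, 529, 619, 539, 465, 469, 563, 575, 403, 407, 263, 337, 425, 433, 443])
    (B := [349, 131, 423, 65, 501, 491, 483, 567, 395, 465, 629, 389, 527, 523, 671, 661, 823, 721, 787, 709, 995, 1139, 1101, 1461, 1771])
    (posB := false) (by norm_num) (by decide +kernel) (by decide +kernel) h1 h2

theorem real_58 {n : ℕ} (h1 : 58 ^ 2 ≤ n) (h2 : n < 59 ^ 2) :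
    ∀ z : ℂ, aeval z (Dpoly n) = 0 → z.im = 0 :=
  block (K := 58)
    (A := [1639, 1437, 1321, 1105, 1045, 907, 1001, 931, 953, 715, 449, 727, 385, 587, 763, 595, 601, 257, 389, 537, 639, 551, 559, 477, 483, 405, 499, 415, 421, 267, 437])
    (B := [1, 437, 267, 265, 335, 497, 261, 129, 397, 553, 193, 625, 531, 455, 681, 761, 743, 819, 799, 867, 777, 641, 1047, 1263, 1155, 1683])
    (posB := true) (by norm_num) (by decide +kernel) (by decide +kernel) h1 h2

end Pool.Agent.Lib.Durfee.FC
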