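import Pool.Agent.Lib.MP_9393b1_co.FCData2

/-! # Finite check for the Durfee polynomials: blocks 59 to 67 (the data files are chained to save memory) -/

set_option autoImplicit false
set_option maxRecDepth 100000

namespace Pool.Agent.Lib.Durfee.FC

open Polynomial

theorem real_59 {n : ℕ} (h1 : 59 ^ 2 ≤ n) (h2 : n < 60 ^ 2) :
    ∀ z : ℂ, aeval z (Dpoly n) = 0 → z.im = 0 :=
  block (K := 59)
    (A := [1481, 1435, 1235, 1279, 1127, 1065, 915, 929, 949, 873, 719, 811, 655, 745, 759, 521, 599, 699, 613, 623, 541, 393, 395, 565, 129, 487, 495, 263, 337, 425, 433, 349])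
    (B := [443, 433, 425, 337, 503, 493, 485, 399, 259, 467, 463, 535, 611, 525, 595, 757, 585, 815, 797, 865, 849, 911, 1045, 1173, 1451, 1761])
    (posB := true) (by norm_num) (by decide +kernel) (by decide +kernel) h1 h2

theorem real_60 {n : ℕ} (h1 : 60 ^ 2 ≤ n) (h2 : n < 61 ^ 2) :
    ∀ z : ℂ, aeval z (Dpoly n) = 0 → z.im = 0 :=
  block (K := 60)
    (A := [1553, 1523, 1161, 1275, 1125, 979, 841, 927, 857, 787, 647, 581, 583, 659, 755, 673, 683, 695, 611, 619, 539, 545, 553, 561, 399, 329, 491, 333, 415, 421, 267, 437, 447])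
    (B := [347, 429, 339, 415, 499, 405, 401, 327, 557, 547, 391, 619, 609, 689, 675, 665, 657, 651, 885, 957, 927, 1079, 1127, 1171, 1363, 1849])
    (posB := true) (by norm_num) (by decide +kernel) (by decide +kernel) h1 h2

theorem real_61 {n : ℕ} (h1 : 61 ^ 2 ≤ n) (h2 : n < 62 ^ 2) :
    ∀ z : ℂ, aeval z (Dpoly n) = 0 → z.im = 0 :=
  block (K := 61)
    (A := [1281, 1519, 1233, 1271, 1041, 905, 913, 925, 943, 713, 885, 723, 653, 585, 451, 671, 453, 691, 257, 389, 537, 543, 467, 471, 567, 481, 261, 195, 505, 337, 425, 131, 441])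
    (B := [271, 345, 341, 419, 413, 195, 487, 129, 397, 469, 545, 461, 389, 701, 685, 673, 663, 831, 809, 793, 711, 1017, 985, 1123, 1251, 1361, 1841])
    (posB := false) (by norm_num) (by decide +kernel) (by decide +kernel) h1 h2

theorem real_62 {n : ℕ} (h1 : 62 ^ 2 ≤ n) (h2 : n < 63 ^ 2) :
    ∀ z : ℂ, aeval z (Dpoly n) = 0 → z.im = 0 :=
  block (K := 62)
    (A := [1551, 1355, 1407, 1101, 769, 977, 1087, 923, 779, 865, 881, 803, 817, 737, 587, 669, 595, 387, 527, 531, 623, 633, 547, 469, 563, 479, 485, 331, 501, 511, 421, 267, 269, 351])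
    (B := [439, 343, 423, 65, 411, 493, 485, 399, 561, 551, 543, 625, 531, 697, 597, 765, 747, 733, 723, 791, 781, 1013, 983, 769, 1343, 1533, 1835])
    (posB := false) (by norm_num) (by decide +kernel) (by decide +kernel) h1 h2

theorem real_63 {n : ℕ} (h1 : 63 ^ 2 ≤ n) (h2 : n < 64 ^ 2) :
    ∀ z : ℂ, aeval z (Dpoly n) = 0 → z.im = 0 :=
  block (K := 63)
    (A := [1479, 1429, 1403, 963, 1039, 1151, 1083, 1011, 937, 959, 791, 801, 727, 735, 661, 667, 675, 685, 455, 611, 459, 629, 545, 325, 259, 569, 401, 489, 497, 413, 337, 197, 131, 441])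
    (B := [445, 435, 427, 265, 335, 409, 405, 401, 327, 557, 549, 541, 621, 611, 693, 453, 761, 517, 823, 803, 875, 643, 1009, 1067, 1211, 1337, 1527, 1829])
    (posB := true) (by norm_num) (by decide +kernel) (by decide +kernel) h1 h2

theorem real_64 {n : ℕ} (h1 : 64 ^ 2 ≤ n) (h2 : n < 65 ^ 2) :
    ∀ z : ℂ, aeval z (Dpoly n) = 0 → z.im = 0 :=
  block (K := 64)
    (A := [1717, 1511, 1399, 1261, 967, 1147, 1079, 707, 851, 955, 875, 799, 811, 827, 743, 755, 673, 597, 693, 609, 617, 537, 637, 549, 395, 565, 129, 403, 493, 501, 511, 421, 267, 269, 445])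
    (B := [199, 131, 197, 337, 263, 495, 487, 129, 397, 555, 465, 539, 619, 609, 601, 677, 667, 659, 819, 801, 645, 941, 1005, 1063, 1115, 1165, 1521, 1825])
    (posB := true) (by norm_num) (by decide +kernel) (by decide +kernel) h1 h2

theorem real_65 {n : ℕ} (h1 : 65 ^ 2 ≤ n) (h2 : n < 66 ^ 2) :
    ∀ z : ℂ, aeval z (Dpoly n) = 0 → z.im = 0 :=
  block (K := 65)
    (A := [1625, 1509, 1229, 1259, 1205, 903, 909, 1005, 777, 951, 873, 797, 581, 823, 741, 451, 671, 679, 689, 607, 531, 623, 633, 465, 553, 473, 571, 483, 405, 497, 413, 337, 197, 131, 199])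
    (B := [351, 269, 267, 421, 511, 501, 331, 329, 399, 561, 325, 193, 627, 389, 607, 687, 675, 665, 739, 515, 893, 869, 853, 917, 905, 1113, 1327, 1355, 1913])
    (posB := false) (by norm_num) (by decide +kernel) (by decide +kernel) h1 h2

theorem real_66 {n : ℕ} (h1 : 66 ^ 2 ≤ n) (h2 : n < 67 ^ 2) :
    ∀ z : ℂ, aeval z (Dpoly n) = 0 → z.im = 0 :=
  block (K := 66)
    (A := [1711, 1507, 1393, 1029, 1113, 973, 1073, 917, 849, 781, 787, 887, 723, 653, 657, 749, 669, 677, 599, 605, 457, 459, 629, 193, 551, 471, 567, 481, 487, 407, 411, 511, 421, 267, 269, 445])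
    (B := [441, 433, 425, 419, 507, 497, 489, 401, 327, 471, 549, 463, 323, 531, 605, 523, 673, 751, 737, 813, 889, 867, 935, 999, 977, 1111, 1323, 1511, 1817])
    (posB := false) (by norm_num) (by decide +kernel) (by decide +kernel) h1 h2

theorem real_67 {n : ℕ} (h1 : 67 ^ 2 ≤ n) (h2 : n < 68 ^ 2) :
    ∀ z : ℂ, aeval z (Dpoly n) = 0 → z.im = 0 :=
  block (K := 67)
    (A := [1547, 1505, 1303, 1171, 1199, 1137, 983, 773, 577, 945, 713, 717, 649, 817, 385, 661, 667, 675, 683, 603, 609, 617, 537, 463, 393, 555, 563, 573, 329, 405, 409, 507, 337, 197, 431, 199])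
    (B := [447, 437, 429, 423, 417, 503, 407, 487, 129, 565, 555, 547, 633, 621, 611, 603, 681, 765, 587, 735, 725, 885, 513, 777, 841, 1055, 1109, 1319, 1353, 1739])
    (posB := true) (by norm_num) (by decide +kernel) (by decide +kernel) h1 h2

end Pool.Agent.Lib.Durfee.FC
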