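import Pool.Agent.Lib.MP_9393b1_co.FCData3

/-! # Finite check for the Durfee polynomials: blocks 68 to 74 (the data files are chained to save memory) -/

set_option autoImplicit false
set_option maxRecDepth 100000

namespace Pool.Agent.Lib.Durfee.FC

open Polynomial

theorem real_68 {n : ℕ} (h1 : 68 ^ 2 ≤ n) (h2 : n < 69 ^ 2) :
    ∀ z : ℂ, aeval z (Dpoly n) = 0 → z.im = 0 :=
  block (K := 68)
    (A := [1621, 1503, 1227, 1097, 1035, 1135, 1067, 997, 847, 855, 785, 881, 721, 727, 829, 517, 755, 673, 681, 691, 703, 531, 623, 391, 465, 325, 259, 569, 401, 261, 407, 411, 65, 421, 267, 435, 271])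
    (B := [349, 345, 341, 265, 509, 333, 491, 329, 399, 473, 553, 545, 629, 533, 609, 691, 679, 761, 745, 733, 807, 793, 783, 849, 913, 1145, 1191, 1161, 1153, 1811])
    (posB := true) (by norm_num) (by decide +kernel) (by decide +kernel) h1 h2

theorem real_69 {n : ℕ} (h1 : 69 ^ 2 ≤ n) (h2 : n < 70 ^ 2) :
    ∀ z : ℂ, aeval z (Dpoly n) = 0 → z.im = 0 :=
  block (K := 69)
    (A := [1703, 1501, 1385, 1169, 1109, 971, 1065, 995, 1017, 779, 513, 791, 895, 811, 825, 741, 451, 765, 595, 387, 699, 457, 459, 629, 639, 467, 557, 565, 575, 485, 491, 499, 507, 419, 197, 431, 439])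
    (B := [1, 439, 431, 197, 337, 505, 195, 489, 401, 569, 559, 467, 543, 537, 389, 607, 387, 521, 667, 743, 731, 805, 879, 711, 1023, 991, 1141, 1033, 1313, 1501, 1809])
    (posB := false) (by norm_num) (by decide +kernel) (by decide +kernel) h1 h2

theorem real_70 {n : ℕ} (h1 : 70 ^ 2 ≤ n) (h2 : n < 71 ^ 2) :
    ∀ z : ℂ, aeval z (Dpoly n) = 0 → z.im = 0 :=
  block (K := 70)
    (A := [1701, 1591, 1383, 897, 965, 1129, 1063, 993, 923, 937, 957, 875, 719, 809, 731, 739, 749, 669, 521, 685, 695, 529, 617, 625, 635, 547, 469, 473, 571, 401, 261, 495, 503, 65, 421, 267, 435, 443])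
    (B := [443, 435, 267, 421, 511, 411, 493, 403, 129, 565, 395, 393, 635, 623, 531, 699, 685, 593, 755, 741, 819, 721, 715, 949, 925, 989, 1137, 1185, 1231, 1421, 1979])
    (posB := false) (by norm_num) (by decide +kernel) (by decide +kernel) h1 h2

theorem real_71 {n : ℕ} (h1 : 71 ^ 2 ≤ n) (h2 : n < 72 ^ 2) :
    ∀ z : ℂ, aeval z (Dpoly n) = 0 → z.im = 0 :=
  block (K := 71)
    (A := [1699, 1421, 1381, 1167, 1189, 1127, 1061, 1087, 1011, 935, 953, 873, 889, 723, 819, 737, 747, 667, 593, 597, 525, 257, 615, 623, 391, 545, 551, 559, 567, 129, 403, 331, 499, 335, 419, 197, 431, 439, 447])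
    (B := [199, 131, 425, 419, 507, 409, 491, 329, 399, 473, 469, 465, 631, 621, 611, 695, 683, 321, 451, 657, 515, 449, 873, 945, 1015, 987, 1047, 1277, 1399, 1583, 1805])
    (posB := false) (by norm_num) (by decide +kernel) (by decide +kernel) h1 h2

theorem real_72 {n : ℕ} (h1 : 72 ^ 2 ≤ n) (h2 : n < 73 ^ 2) :
    ∀ z : ℂ, aeval z (Dpoly n) = 0 → z.im = 0 :=
  block (K := 72)
    (A := [1697, 1585, 1379, 1337, 1187, 1125, 1059, 1083, 707, 933, 859, 871, 885, 649, 515, 831, 517, 755, 321, 453, 689, 527, 457, 459, 461, 543, 549, 395, 563, 399, 483, 489, 195, 263, 65, 421, 427, 345, 349])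
    (B := [271, 269, 429, 339, 417, 263, 195, 261, 401, 569, 559, 551, 193, 461, 533, 609, 525, 453, 765, 749, 385, 813, 893, 871, 855, 1011, 985, 1045, 1031, 1305, 1493, 1879])
    (posB := true) (by norm_num) (by decide +kernel) (by decide +kernel) h1 h2

theorem real_73 {n : ℕ} (h1 : 73 ^ 2 ≤ n) (h2 : n < 74 ^ 2) :
    ∀ z : ℂ, aeval z (Dpoly n) = 0 → z.im = 0 :=
  block (K := 73)
    (A := [1791, 1583, 1377, 1243, 1185, 1123, 1057, 839, 1005, 931, 947, 713, 883, 721, 813, 827, 659, 451, 765, 595, 599, 697, 529, 617, 625, 635, 547, 553, 259, 327, 481, 403, 493, 333, 335, 419, 197, 431, 347, 447])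
    (B := [199, 433, 341, 265, 415, 501, 493, 403, 129, 475, 557, 549, 637, 625, 389, 703, 689, 595, 669, 747, 829, 811, 889, 713, 939, 707, 1071, 1127, 1101, 1303, 1491, 1733])
    (posB := true) (by norm_num) (by decide +kernel) (by decide +kernel) h1 h2

theorem real_74 {n : ℕ} (h1 : 74 ^ 2 ≤ n) (h2 : n < 75 ^ 2) :
    ∀ z : ℂ, aeval z (Dpoly n) = 0 → z.im = 0 :=
  block (K := 74)
    (A := [1615, 1419, 1375, 1331, 1279, 1121, 1055, 1077, 1003, 929, 643, 785, 579, 449, 811, 583, 585, 663, 761, 521, 523, 693, 257, 615, 535, 631, 545, 551, 557, 565, 479, 329, 405, 195, 263, 65, 339, 427, 345, 349])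
    (B := [445, 437, 343, 423, 337, 413, 409, 405, 329, 399, 563, 469, 547, 633, 623, 531, 527, 687, 521, 667, 517, 733, 581, 795, 785, 937, 1005, 907, 969, 963, 1301, 1571, 1801])
    (posB := false) (by norm_num) (by decide +kernel) (by decide +kernel) h1 h2

end Pool.Agent.Lib.Durfee.FC
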