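import Pool.Agent.Lib.MP_9393b1_co.FCData4

/-! # Finite check for the Durfee polynomials: blocks 75 to 80 (the data files are chained to save memory) -/

set_option autoImplicit false
set_option maxRecDepth 100000

namespace Pool.Agent.Lib.Durfee.FC

open Polynomial

theorem real_75 {n : ℕ} (h1 : 75 ^ 2 ≤ n) (h2 : n < 76 ^ 2) :
    ∀ z : ℂ, aeval z (Dpoly n) = 0 → z.im = 0 :=
  block (K := 75)
    (A := [1543, 1493, 1467, 1027, 1103, 1215, 1147, 985, 1001, 927, 855, 865, 877, 893, 809, 821, 657, 747, 667, 593, 681, 601, 701, 613, 459, 461, 543, 393, 555, 473, 477, 401, 487, 493, 333, 509, 419, 197, 343, 347, 351])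
    (B := [441, 345, 427, 421, 65, 503, 495, 261, 401, 569, 259, 325, 545, 539, 459, 457, 455, 523, 593, 755, 659, 731, 723, 793, 513, 851, 917, 1065, 1041, 1099, 1383, 1663, 2047])
    (posB := false) (by norm_num) (by decide +kernel) (by decide +kernel) h1 h2

theorem real_76 {n : ℕ} (h1 : 76 ^ 2 ≤ n) (h2 : n < 77 ^ 2) :
    ∀ z : ℂ, aeval z (Dpoly n) = 0 → z.im = 0 :=
  block (K := 76)
    (A := [1691, 1349, 1223, 1239, 1273, 1039, 903, 771, 999, 1019, 939, 863, 875, 797, 807, 729, 385, 745, 755, 321, 679, 387, 605, 611, 617, 625, 541, 465, 325, 559, 567, 575, 485, 491, 497, 505, 417, 339, 427, 345, 441])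
    (B := [351, 347, 431, 197, 419, 335, 333, 331, 403, 129, 475, 557, 467, 639, 627, 533, 529, 693, 597, 321, 753, 585, 819, 649, 879, 783, 777, 999, 979, 1215, 1257, 1379, 1657, 1799])
    (posB := true) (by norm_num) (by decide +kernel) (by decide +kernel) h1 h2

theorem real_77 {n : ℕ} (h1 : 77 ^ 2 ≤ n) (h2 : n < 78 ^ 2) :
    ∀ z : ℂ, aeval z (Dpoly n) = 0 → z.im = 0 :=
  block (K := 77)
    (A := [1779, 1491, 1461, 1163, 1179, 1209, 1141, 1069, 997, 775, 937, 955, 873, 887, 805, 515, 829, 743, 753, 591, 677, 685, 695, 609, 615, 535, 631, 193, 467, 395, 563, 399, 483, 261, 407, 501, 509, 419, 197, 343, 437, 445])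
    (B := [349, 435, 267, 339, 417, 505, 497, 405, 329, 399, 563, 555, 393, 635, 625, 389, 257, 691, 453, 765, 663, 657, 515, 721, 877, 953, 849, 997, 905, 1211, 1171, 1377, 1485, 2033])
    (posB := true) (by norm_num) (by decide +kernel) (by decide +kernel) h1 h2

theorem real_78 {n : ℕ} (h1 : 78 ^ 2 ≤ n) (h2 : n < 79 ^ 2) :
    ∀ z : ℂ, aeval z (Dpoly n) = 0 → z.im = 0 :=
  block (K := 78)
    (A := [1475, 1417, 1459, 1321, 1267, 1115, 1049, 1067, 995, 1013, 935, 711, 871, 717, 803, 813, 733, 741, 663, 761, 675, 683, 525, 607, 613, 459, 461, 637, 393, 469, 259, 327, 129, 403, 491, 409, 505, 417, 339, 427, 433, 441])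
    (B := [447, 439, 131, 425, 265, 415, 411, 407, 487, 401, 569, 259, 553, 465, 391, 535, 531, 527, 387, 677, 669, 747, 385, 727, 895, 789, 949, 1023, 913, 1057, 1207, 1251, 1295, 1647, 2027])
    (posB := false) (by norm_num) (by decide +kernel) (by decide +kernel) h1 h2

theorem real_79 {n : ℕ} (h1 : 79 ^ 2 ≤ n) (h2 : n < 80 ^ 2) :
    ∀ z : ℂ, aeval z (Dpoly n) = 0 → z.im = 0 :=
  block (K := 79)
    (A := [1687, 1489, 1155, 1319, 1265, 1203, 835, 1065, 993, 1011, 933, 949, 869, 793, 801, 811, 823, 739, 587, 667, 673, 453, 689, 699, 611, 533, 625, 541, 465, 551, 471, 565, 573, 483, 489, 495, 411, 509, 419, 197, 343, 437, 271])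
    (B := [443, 269, 429, 423, 337, 507, 499, 331, 485, 129, 475, 471, 551, 193, 629, 459, 457, 697, 685, 521, 759, 745, 829, 811, 719, 645, 857, 1019, 641, 1055, 1203, 1249, 1463, 1643, 1939])
    (posB := false) (by norm_num) (by decide +kernel) (by decide +kernel) h1 h2

theorem real_80 {n : ℕ} (h1 : 80 ^ 2 ≤ n) (h2 : n < 81 ^ 2) :
    ∀ z : ℂ, aeval z (Dpoly n) = 0 → z.im = 0 :=
  block (K := 80)
    (A := [1611, 1217, 1367, 1317, 1175, 1201, 1133, 1063, 1087, 707, 931, 857, 867, 879, 895, 809, 653, 737, 661, 755, 767, 595, 599, 455, 609, 615, 535, 539, 193, 549, 555, 473, 477, 481, 403, 331, 409, 413, 417, 339, 427, 433, 199])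
    (B := [1, 199, 433, 341, 421, 65, 263, 195, 489, 483, 573, 563, 395, 549, 637, 627, 533, 529, 603, 683, 593, 589, 743, 825, 809, 889, 787, 943, 775, 911, 1053, 899, 1167, 1459, 1639, 1937])
    (posB := true) (by norm_num) (by decide +kernel) (by decide +kernel) h1 h2

end Pool.Agent.Lib.Durfee.FC
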