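import Pool.Agent.Lib.MP_9393b1_co.FCData5

/-! # Finite check for the Durfee polynomials: blocks 81 to 85 (the data files are chained to save memory) -/

set_option autoImplicit false
set_option maxRecDepth 100000

namespace Pool.Agent.Lib.Durfee.FC

open Polynomial

theorem real_81 {n : ℕ} (h1 : 81 ^ 2 ≤ n) (h2 : n < 82 ^ 2) :
    ∀ z : ℂ, aeval z (Dpoly n) = 0 → z.im = 0 :=
  block (K := 81)
    (A := [1685, 1567, 1451, 1161, 1099, 1111, 1131, 1061, 911, 919, 849, 643, 865, 877, 891, 807, 729, 831, 743, 753, 591, 521, 523, 693, 703, 613, 459, 461, 463, 547, 553, 559, 475, 575, 329, 489, 495, 411, 415, 419, 197, 343, 269, 271])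
    (B := [271, 437, 343, 197, 419, 509, 501, 493, 487, 401, 569, 561, 553, 547, 541, 323, 615, 257, 525, 681, 321, 753, 741, 731, 807, 795, 713, 941, 1013, 1081, 1143, 1035, 1095, 1455, 1635, 1935])
    (posB := true) (by norm_num) (by decide +kernel) (by decide +kernel) h1 h2

theorem real_82 {n : ℕ} (h1 : 82 ^ 2 ≤ n) (h2 : n < 83 ^ 2) :
    ∀ z : ℂ, aeval z (Dpoly n) = 0 → z.im = 0 :=
  block (K := 82)
    (A := [1541, 1659, 1449, 1233, 1173, 1035, 1129, 1059, 1081, 843, 577, 855, 959, 875, 889, 805, 815, 655, 741, 663, 761, 675, 597, 601, 527, 611, 533, 625, 633, 545, 551, 557, 563, 571, 401, 487, 493, 499, 413, 417, 339, 427, 433, 199, 447])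
    (B := [441, 345, 427, 339, 417, 505, 409, 491, 485, 129, 567, 471, 551, 545, 631, 535, 531, 701, 689, 679, 765, 751, 739, 653, 805, 883, 785, 853, 921, 1077, 1139, 1193, 1165, 1451, 1281, 2011])
    (posB := true) (by norm_num) (by decide +kernel) (by decide +kernel) h1 h2

theorem real_83 {n : ℕ} (h1 : 83 ^ 2 ≤ n) (h2 : n < 84 ^ 2) :
    ∀ z : ℂ, aeval z (Dpoly n) = 0 → z.im = 0 :=
  block (K := 83)
    (A := [1683, 1415, 1447, 961, 1029, 1109, 1127, 977, 987, 1001, 1021, 939, 783, 873, 795, 803, 813, 825, 585, 587, 667, 673, 453, 387, 697, 529, 389, 535, 539, 639, 549, 469, 561, 327, 129, 485, 405, 195, 503, 415, 419, 197, 343, 269, 443])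
    (B := [445, 437, 431, 425, 265, 511, 411, 495, 489, 483, 573, 397, 395, 549, 639, 461, 619, 457, 605, 687, 677, 669, 587, 737, 817, 803, 579, 959, 709, 1007, 985, 835, 1191, 1027, 1221, 1629, 1795])
    (posB := false) (by norm_num) (by decide +kernel) (by decide +kernel) h1 h2

theorem real_84 {n : ℕ} (h1 : 84 ^ 2 ≤ n) (h2 : n < 85 ^ 2) :
    ∀ z : ℂ, aeval z (Dpoly n) = 0 → z.im = 0 :=
  block (K := 84)
    (A := [1609, 1653, 1363, 1311, 1171, 965, 1125, 705, 909, 773, 925, 937, 953, 871, 883, 801, 811, 731, 657, 661, 589, 767, 595, 685, 603, 257, 531, 459, 627, 463, 547, 325, 471, 565, 573, 483, 261, 493, 499, 413, 417, 339, 427, 433, 439, 447])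
    (B := [441, 345, 267, 423, 337, 507, 333, 493, 487, 401, 477, 561, 469, 393, 463, 537, 617, 529, 695, 523, 675, 759, 661, 831, 727, 801, 877, 783, 851, 843, 1071, 1133, 1033, 1325, 1445, 1717, 2005])
    (posB := false) (by norm_num) (by decide +kernel) (by decide +kernel) h1 h2

theorem real_85 {n : ℕ} (h1 : 85 ^ 2 ≤ n) (h2 : n < 86 ^ 2) :
    ∀ z : ℂ, aeval z (Dpoly n) = 0 → z.im = 0 :=
  block (K := 85)
    (A := [1681, 1651, 1289, 1403, 1097, 1107, 969, 1149, 1073, 915, 1015, 935, 951, 869, 881, 449, 809, 653, 385, 517, 753, 591, 521, 683, 691, 701, 457, 533, 625, 633, 545, 467, 395, 473, 569, 481, 485, 491, 195, 503, 415, 419, 197, 343, 269, 443])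
    (B := [351, 347, 131, 341, 421, 65, 263, 497, 491, 485, 129, 567, 559, 325, 465, 633, 323, 615, 257, 693, 597, 673, 589, 517, 655, 651, 895, 875, 953, 777, 917, 907, 1045, 1105, 1237, 1361, 1713, 2003])
    (posB := true) (by norm_num) (by decide +kernel) (by decide +kernel) h1 h2

end Pool.Agent.Lib.Durfee.FC
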