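import Pool.Agent.Lib.MP_9393b1_co.FCData6

/-! # Finite check for the Durfee polynomials: blocks 86 to 89 (the data files are chained to save memory) -/

set_option autoImplicit false
set_option maxRecDepth 100000

namespace Pool.Agent.Lib.Durfee.FC

open Polynomial

theorem real_86 {n : ℕ} (h1 : 86 ^ 2 ≤ n) (h2 : n < 87 ^ 2) :
    ∀ z : ℂ, aeval z (Dpoly n) = 0 → z.im = 0 :=
  block (K := 86)
    (A := [1761, 1347, 1361, 1159, 1251, 1033, 1041, 1053, 1071, 841, 1013, 851, 781, 867, 879, 893, 807, 817, 735, 659, 751, 761, 593, 681, 689, 605, 529, 389, 535, 539, 543, 393, 553, 559, 475, 479, 483, 261, 407, 333, 507, 417, 339, 427, 131, 439, 351])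
    (B := [349, 435, 429, 197, 419, 509, 501, 495, 489, 483, 573, 397, 557, 467, 193, 539, 621, 531, 607, 601, 453, 321, 665, 659, 825, 725, 891, 873, 859, 849, 999, 981, 901, 1279, 1319, 1439, 1547, 2001])
    (posB := true) (by norm_num) (by decide +kernel) (by decide +kernel) h1 h2

theorem real_87 {n : ℕ} (h1 : 87 ^ 2 ≤ n) (h2 : n < 88 ^ 2) :
    ∀ z : ℂ, aeval z (Dpoly n) = 0 → z.im = 0 :=
  block (K := 87)
    (A := [1855, 1559, 1441, 1307, 1249, 1187, 769, 903, 1069, 913, 921, 777, 857, 785, 877, 797, 805, 815, 827, 585, 749, 667, 673, 679, 599, 695, 257, 531, 459, 627, 635, 465, 551, 557, 563, 571, 481, 403, 491, 497, 503, 511, 265, 197, 429, 435, 349])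
    (B := [351, 439, 433, 427, 339, 417, 413, 499, 331, 487, 481, 477, 473, 555, 393, 637, 461, 619, 457, 699, 387, 595, 765, 751, 585, 731, 581, 647, 871, 947, 577, 997, 1063, 1125, 1275, 1161, 1437, 1477, 1999])
    (posB := false) (by norm_num) (by decide +kernel) (by decide +kernel) h1 h2

theorem real_88 {n : ℕ} (h1 : 88 ^ 2 ≤ n) (h2 : n < 89 ^ 2) :
    ∀ z : ℂ, aeval z (Dpoly n) = 0 → z.im = 0 :=
  block (K := 88)
    (A := [1679, 1483, 1535, 1395, 897, 1185, 1119, 1141, 1067, 993, 707, 849, 943, 513, 875, 887, 803, 813, 583, 739, 661, 589, 671, 677, 523, 525, 701, 457, 533, 625, 391, 193, 549, 555, 561, 327, 575, 329, 489, 407, 333, 507, 417, 339, 427, 131, 347, 445])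
    (B := [443, 269, 343, 425, 265, 511, 503, 195, 405, 485, 129, 567, 559, 553, 547, 635, 625, 617, 529, 455, 685, 521, 669, 749, 657, 653, 723, 795, 869, 643, 847, 995, 1061, 1123, 1271, 1233, 1525, 1701, 2165])
    (posB := false) (by norm_num) (by decide +kernel) (by decide +kernel) h1 h2

theorem real_89 {n : ℕ} (h1 : 89 ^ 2 ≤ n) (h2 : n < 90 ^ 2) :
    ∀ z : ℂ, aeval z (Dpoly n) = 0 → z.im = 0 :=
  block (K := 89)
    (A := [1849, 1557, 1359, 1393, 1341, 833, 1211, 1139, 1065, 1087, 919, 929, 941, 957, 873, 885, 721, 811, 731, 737, 745, 753, 763, 675, 597, 601, 699, 529, 389, 535, 539, 543, 547, 553, 471, 565, 399, 401, 487, 331, 497, 263, 511, 265, 197, 429, 435, 349])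
    (B := [447, 199, 433, 267, 423, 337, 335, 501, 407, 261, 483, 573, 565, 557, 551, 545, 391, 623, 615, 609, 693, 683, 675, 759, 747, 737, 817, 649, 883, 867, 855, 1017, 993, 1059, 1121, 1101, 1407, 1521, 1617, 1859])
    (posB := true) (by norm_num) (by decide +kernel) (by decide +kernel) h1 h2

end Pool.Agent.Lib.Durfee.FC
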