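import Pool.Agent.Lib.MP_9393b1_co.FCData7

/-! # Finite check for the Durfee polynomials: blocks 90 to 93 (the data files are chained to save memory) -/

set_option autoImplicit false
set_option maxRecDepth 100000

namespace Pool.Agent.Lib.Durfee.FC

open Polynomial

theorem real_90 {n : ℕ} (h1 : 90 ^ 2 ≤ n) (h2 : n < 91 ^ 2) :
    ∀ z : ℂ, aeval z (Dpoly n) = 0 → z.im = 0 :=
  block (K := 90)
    (A := [1847, 1413, 1529, 1391, 1245, 1277, 1209, 1137, 1063, 911, 843, 1023, 939, 955, 871, 883, 449, 809, 819, 831, 743, 751, 761, 593, 453, 387, 455, 609, 531, 459, 627, 635, 465, 551, 395, 473, 569, 129, 485, 489, 495, 501, 335, 337, 339, 427, 131, 347, 445])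
    (B := [271, 437, 431, 425, 421, 65, 505, 409, 331, 403, 481, 477, 473, 555, 549, 639, 629, 621, 531, 607, 691, 681, 673, 757, 745, 831, 815, 721, 579, 865, 939, 923, 991, 1057, 1119, 1265, 1403, 1431, 1695, 2069])
    (posB := true) (by norm_num) (by decide +kernel) (by decide +kernel) h1 h2

theorem real_91 {n : ℕ} (h1 : 91 ^ 2 ≤ n) (h2 : n < 92 ^ 2) :
    ∀ z : ℂ, aeval z (Dpoly n) = 0 → z.im = 0 :=
  block (K := 91)
    (A := [1845, 1639, 1527, 1389, 1095, 1181, 1115, 1135, 1061, 1081, 917, 847, 937, 711, 869, 579, 799, 807, 817, 655, 741, 749, 667, 321, 595, 685, 693, 607, 457, 533, 625, 391, 193, 549, 469, 259, 475, 573, 483, 487, 331, 409, 263, 511, 265, 197, 429, 435, 441])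
    (B := [1, 441, 345, 429, 423, 419, 415, 411, 195, 405, 485, 129, 567, 259, 553, 547, 463, 627, 619, 457, 699, 689, 453, 767, 665, 743, 655, 813, 801, 791, 959, 937, 1011, 1083, 1055, 1117, 1175, 1399, 1429, 1543, 2067])
    (posB := false) (by norm_num) (by decide +kernel) (by decide +kernel) h1 h2

theorem real_92 {n : ℕ} (h1 : 92 ^ 2 ≤ n) (h2 : n < 93 ^ 2) :
    ∀ z : ℂ, aeval z (Dpoly n) = 0 → z.im = 0 :=
  block (K := 92)
    (A := [1753, 1637, 1357, 1387, 1333, 1031, 1037, 1133, 905, 1079, 773, 1017, 709, 859, 713, 791, 891, 805, 815, 733, 739, 747, 589, 671, 677, 683, 691, 699, 611, 389, 535, 629, 637, 547, 325, 557, 563, 477, 481, 485, 405, 495, 501, 335, 337, 339, 427, 131, 347, 271])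
    (B := [271, 347, 131, 341, 339, 417, 507, 333, 493, 261, 483, 573, 565, 471, 551, 465, 541, 625, 617, 529, 697, 687, 595, 765, 451, 741, 825, 811, 799, 715, 783, 935, 707, 839, 1147, 1207, 1259, 1395, 1511, 1613, 2065])
    (posB := false) (by norm_num) (by decide +kernel) (by decide +kernel) h1 h2

theorem real_93 {n : ℕ} (h1 : 93 ^ 2 ≤ n) (h2 : n < 94 ^ 2) :
    ∀ z : ℂ, aeval z (Dpoly n) = 0 → z.im = 0 :=
  block (K := 93)
    (A := [1539, 1481, 1433, 1385, 1331, 1269, 1113, 1131, 977, 1077, 999, 1015, 851, 947, 785, 715, 889, 649, 813, 823, 657, 745, 753, 763, 675, 681, 689, 697, 609, 531, 459, 627, 541, 545, 467, 555, 561, 567, 575, 483, 261, 493, 409, 505, 65, 265, 197, 429, 345, 441])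
    (B := [1, 441, 435, 429, 197, 265, 511, 263, 497, 491, 403, 481, 477, 473, 395, 467, 193, 631, 623, 615, 609, 603, 523, 521, 669, 663, 585, 731, 809, 891, 789, 953, 933, 919, 1077, 903, 1037, 1029, 1091, 1353, 1775, 2237])
    (posB := true) (by norm_num) (by decide +kernel) (by decide +kernel) h1 h2

end Pool.Agent.Lib.Durfee.FC
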