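import Pool.Agent.Lib.MP_9393b1_co.FCData8

/-! # Finite check for the Durfee polynomials: blocks 94 to 96 (the data files are chained to save memory) -/

set_option autoImplicit false
set_option maxRecDepth 100000

namespace Pool.Agent.Lib.Durfee.FC

open Polynomial

theorem real_94 {n : ℕ} (h1 : 94 ^ 2 ≤ n) (h2 : n < 95 ^ 2) :
    ∀ z : ℂ, aeval z (Dpoly n) = 0 → z.im = 0 :=
  block (K := 94)
    (A := [1751, 1553, 1219, 1383, 1329, 1267, 899, 1129, 1057, 985, 997, 1013, 777, 945, 865, 789, 795, 721, 811, 821, 385, 743, 751, 519, 593, 453, 599, 603, 703, 613, 533, 323, 391, 639, 393, 553, 559, 565, 399, 401, 403, 491, 195, 411, 335, 337, 339, 341, 131, 437, 271])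
    (B := [445, 347, 433, 427, 339, 337, 335, 501, 495, 489, 329, 129, 327, 259, 469, 393, 543, 629, 621, 531, 703, 525, 683, 675, 759, 587, 657, 653, 807, 647, 645, 859, 931, 843, 985, 1141, 1201, 1171, 1389, 1425, 1771, 2139])
    (posB := true) (by norm_num) (by decide +kernel) (by decide +kernel) h1 h2

theorem real_95 {n : ℕ} (h1 : 95 ^ 2 ≤ n) (h2 : n < 96 ^ 2) :
    ∀ z : ℂ, aeval z (Dpoly n) = 0 → z.im = 0 :=
  block (K := 95)
    (A := [1675, 1633, 1431, 1299, 1327, 1265, 1111, 1127, 1151, 771, 995, 921, 931, 943, 863, 873, 717, 801, 809, 819, 735, 659, 749, 667, 321, 595, 523, 525, 527, 611, 389, 535, 629, 637, 465, 551, 395, 473, 569, 129, 329, 261, 493, 499, 505, 65, 265, 197, 429, 345, 199, 447])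
    (B := [349, 269, 343, 425, 421, 65, 413, 499, 493, 261, 483, 573, 565, 471, 325, 465, 635, 537, 619, 457, 527, 601, 681, 673, 757, 661, 385, 817, 805, 795, 787, 781, 849, 1001, 771, 1049, 1111, 1251, 1301, 1599, 1541, 2225])
    (posB := true) (by norm_num) (by decide +kernel) (by decide +kernel) h1 h2

theorem real_96 {n : ℕ} (h1 : 96 ^ 2 ≤ n) (h2 : n < 97 ^ 2) :
    ∀ z : ℂ, aeval z (Dpoly n) = 0 → z.im = 0 :=
  block (K := 96)
    (A := [1835, 1727, 1355, 1225, 1325, 1263, 1035, 1043, 975, 983, 913, 707, 929, 941, 783, 871, 793, 895, 807, 817, 827, 585, 747, 589, 765, 521, 597, 601, 605, 609, 531, 459, 627, 541, 545, 549, 469, 259, 475, 573, 401, 403, 491, 195, 411, 509, 337, 339, 341, 431, 437, 443])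
    (B := [351, 439, 433, 267, 423, 419, 415, 503, 497, 491, 403, 481, 477, 563, 395, 467, 545, 633, 323, 617, 529, 697, 387, 679, 767, 755, 517, 735, 815, 803, 883, 713, 945, 577, 999, 1069, 1135, 1195, 1249, 1383, 1501, 1609, 2219])
    (posB := false) (by norm_num) (by decide +kernel) (by decide +kernel) h1 h2

end Pool.Agent.Lib.Durfee.FC
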