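import Pool.Agent.Lib.MP_9393b1_co.FCBase

/-!
# Finite check for the Durfee polynomials, part 2: truncated Horner schemes
-/

set_option autoImplicit false

namespace Pool.Agent.Lib.Durfee.FC

/-- packed truncated Horner scheme -/
noncomputable def hz (uu tt mask : ℕ) (l : List ℕ) : ℕ :=
  List.rec (motive := fun _ => ℕ) 0
    (fun c _ ih => Nat.add c (Nat.land (Nat.shiftRight (Nat.mul ih uu) tt) mask)) l

theorem hz_nil (uu tt mask : ℕ) : hz uu tt mask [] = 0 := rfl

theorem hz_cons (uu tt mask c : ℕ) (l : List ℕ) :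
    hz uu tt mask (c :: l) = c + (((hz uu tt mask l * uu) >>> tt) &&& mask) := rfl

/-- slotwise truncated Horner scheme -/
def hzv (uu tt : ℕ) : List ℕ → ℕ
  | [] => 0
  | c :: l => c + ((hzv uu tt l * uu) >>> tt)

/-- elements with even (`true`) or odd (`false`) index -/
noncomputable def pick {α : Type} (l : List α) : Bool → List α :=
  List.rec (motive := fun _ => Bool → List α) (fun _ => [])
    (fun c _ ih b => bif b then c :: ih false else ih true) l

theorem pick_nil {α : Type} (b : Bool) : pick ([] : List α) b = [] := rfl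

theorem pick_cons_true {α : Type} (c : α) (l : List α) :
    pick (c :: l) true = c :: pick l false := rfl

theorem pick_cons_false {α : Type} (c : α) (l : List α) :
    pick (c :: l) false = pick l true := rfl

theorem pick_map {α β : Type} (F : α → β) (l : List α) :
    ∀ b : Bool, pick (l.map F) b = (pick l b).map F := by
  induction l with
  | nil => intro b; rfl
  | cons c l ih =>
    intro b
    cases b
    · rw [List.map_cons, pick_cons_false, pick_cons_false, ih]
    · rw [List.map_cons, pick_cons_true, pick_cons_true, ih, List.map_cons]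

theorem pick_subset {α : Type} (l : List α) : ∀ b : Bool, ∀ x ∈ pick l b, x ∈ l := by
  induction l with
  | nil => intro b x hx; exact hx
  | cons c l ih =>
    intro b x hx
    cases b
    · rw [pick_cons_false] at hx
      exact List.mem_cons_of_mem _ (ih _ x hx)
    · rw [pick_cons_true] at hx
      rcases List.mem_cons.mp hx with h | h
      · rw [h]; exact List.mem_cons_self
      · exact List.mem_cons_of_mem _ (ih _ x h)

theorem pick_length {α : Type} (l : List α) :
    (pick l true).length ≤ (l.length + 1) / 2 ∧ (pick l false).length ≤ l.length / 2 := by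
  induction l with
  | nil => simp [pick_nil]
  | cons c l ih =>
    rw [pick_cons_false, pick_cons_true]
    simp only [List.length_cons]
    omega

theorem shift_le {x uu tt : ℕ} (h : uu ≤ 2 ^ tt) : (x * uu) >>> tt ≤ x := by
  rw [Nat.shiftRight_eq_div_pow]
  apply Nat.div_le_of_le_mul
  rw [mul_comm]
  exact Nat.mul_le_mul_right _ h

theorem hzv_le {uu tt B : ℕ} (h : uu ≤ 2 ^ tt) (l : List ℕ) (hl : ∀ c ∈ l, c ≤ B) :
    hzv uu tt l ≤ l.length * B := by
  induction l with
  | nil => simp [hzv]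
  | cons c l ih =>
    have h1 := ih (fun c hc => hl c (List.mem_cons_of_mem _ hc))
    have h2 := hl c List.mem_cons_self
    have h3 := shift_le (x := hzv uu tt l) h
    rw [hzv, List.length_cons]
    nlinarith

/-- the packed Horner scheme is the slotwise one -/
theorem hz_pack {b uu tt B M : ℕ} (huu : uu ≤ 2 ^ tt) (htt : tt ≤ b)
    (hB : 64 * B * uu < 2 ^ b) (fs : List (ℕ → ℕ)) (hlen : fs.length ≤ 64)
    (hfs : ∀ f ∈ fs, ∀ m < M, f m ≤ B) :
    hz uu tt (packR b (fun _ => 2 ^ (b - tt) - 1) M) (fs.map (fun f => packR b f M)) =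
      packR b (fun m => hzv uu tt (fs.map (fun f => f m))) M := by
  induction fs with
  | nil =>
    rw [List.map_nil, hz_nil]
    have : packR b (fun _ => 0) M = 0 := by
      clear hfs
      induction M with
      | zero => rfl
      | succ M ih => rw [packR_succ, ih]; simp
    exact this.symm
  | cons f fs ih =>
    rw [List.length_cons] at hlen
    have ih' := ih (by omega) (fun f hf => hfs f (List.mem_cons_of_mem _ hf))
    rw [List.map_cons, hz_cons, ih', packR_mul, packR_trunc htt, packR_add]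
    · rfl
    · intro m hm
      have h1 : hzv uu tt (fs.map (fun f => f m)) ≤ fs.length * B := by
        have := hzv_le (B := B) huu (fs.map (fun f => f m)) (by
          intro c hc
          obtain ⟨f', hf', rfl⟩ := List.mem_map.mp hc
          exact hfs f' (List.mem_cons_of_mem _ hf') m hm)
        rwa [List.length_map] at this
      calc hzv uu tt (fs.map (fun f => f m)) * uu ≤ (64 * B) * uu := by
            apply Nat.mul_le_mul_right
            exact h1.trans (Nat.mul_le_mul_right _ (by omega))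
        _ < 2 ^ b := hB

/-! ## real evaluation -/

/-- polynomial evaluation of a list -/
noncomputable def pe (x : ℝ) : List ℕ → ℝ
  | [] => 0
  | c :: l => (c : ℝ) + x * pe x l

theorem pe_nil (x : ℝ) : pe x [] = 0 := rfl

theorem pe_cons (x : ℝ) (c : ℕ) (l : List ℕ) : pe x (c :: l) = (c : ℝ) + x * pe x l := rfl

theorem pe_append (x : ℝ) (l : List ℕ) (c : ℕ) : pe x (l ++ [c]) = pe x l + x ^ l.length * c := by
  induction l with
  | nil => simp [pe]
  | cons a l ih => rw [List.cons_append, pe_cons, pe_cons, ih, List.length_cons, pow_succ]; ring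

theorem pe_range (x : ℝ) (f : ℕ → ℕ) (M : ℕ) :
    pe x ((List.range M).map f) = ∑ i ∈ Finset.range M, (f i : ℝ) * x ^ i := by
  induction M with
  | zero => simp [pe]
  | succ M ih =>
    rw [List.range_succ, List.map_append, List.map_cons, List.map_nil, pe_append, ih,
      Finset.sum_range_succ, List.length_map, List.length_range]
    ring

theorem pe_reverse {x : ℝ} (hx : x ≠ 0) (l : List ℕ) :
    x * pe x l.reverse = x ^ l.length * pe (1 / x) l := by
  induction l with
  | nil => simp [pe]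
  | cons c l ih =>
    rw [List.reverse_cons, pe_append, mul_add, ih, List.length_cons, List.length_reverse, pe_cons,
      pow_succ]
    field_simp
    ring

theorem pe_split (z : ℝ) (l : List ℕ) :
    pe (-z) l = pe (z ^ 2) (pick l true) - z * pe (z ^ 2) (pick l false) := by
  induction l with
  | nil => simp [pick_nil, pe]
  | cons c l ih =>
    rw [pe_cons, pick_cons_true, pick_cons_false, pe_cons, ih]
    ring

theorem pe_nonneg {x : ℝ} (hx : 0 ≤ x) (l : List ℕ) : 0 ≤ pe x l := by
  induction l with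
  | nil => simp [pe]
  | cons c l ih => rw [pe_cons]; positivity

theorem hzv_error {uu tt : ℕ} (huu : uu ≤ 2 ^ tt) (l : List ℕ) :
    (hzv uu tt l : ℝ) ≤ pe ((uu : ℝ) / 2 ^ tt) l ∧
      pe ((uu : ℝ) / 2 ^ tt) l ≤ hzv uu tt l + l.length := by
  induction l with
  | nil => simp [pe, hzv]
  | cons c l ih =>
    obtain ⟨ih1, ih2⟩ := ih
    have hp : (0 : ℝ) < 2 ^ tt := by positivity
    have hz0 : (0 : ℝ) ≤ (uu : ℝ) / 2 ^ tt := by positivity
    have hz1 : (uu : ℝ) / 2 ^ tt ≤ 1 := by
      rw [div_le_one hp]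
      exact_mod_cast huu
    have h1 : (((hzv uu tt l * uu) >>> tt : ℕ) : ℝ) ≤ (hzv uu tt l : ℝ) * ((uu : ℝ) / 2 ^ tt) := by
      rw [Nat.shiftRight_eq_div_pow, ← mul_div_assoc]
      have := @Nat.cast_div_le ℝ _ _ _ (hzv uu tt l * uu) (2 ^ tt)
      push_cast at this
      exact this
    have h2 : (hzv uu tt l : ℝ) * ((uu : ℝ) / 2 ^ tt) ≤ (((hzv uu tt l * uu) >>> tt : ℕ) : ℝ) + 1 := by
      rw [Nat.shiftRight_eq_div_pow, ← mul_div_assoc, div_le_iff₀ hp]
      have h3 : hzv uu tt l * uu < (hzv uu tt l * uu / 2 ^ tt + 1) * 2 ^ tt :=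
        Nat.lt_mul_of_div_lt (Nat.lt_succ_self _) (by positivity)
      have h4 : ((hzv uu tt l * uu : ℕ) : ℝ) ≤ (((hzv uu tt l * uu / 2 ^ tt + 1) * 2 ^ tt : ℕ) : ℝ) := by
        exact_mod_cast h3.le
      push_cast at h4
      push_cast
      exact h4
    rw [hzv, pe_cons, List.length_cons]
    push_cast
    constructor
    · nlinarith
    · have : (uu : ℝ) / 2 ^ tt * pe ((uu : ℝ) / 2 ^ tt) l ≤
          (hzv uu tt l : ℝ) * ((uu : ℝ) / 2 ^ tt) + l.length := by
        have h5 : (uu : ℝ) / 2 ^ tt * pe ((uu : ℝ) / 2 ^ tt) l ≤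
          (uu : ℝ) / 2 ^ tt * (hzv uu tt l + l.length) := mul_le_mul_of_nonneg_left ih2 hz0
        have h6 : (uu : ℝ) / 2 ^ tt * (l.length : ℝ) ≤ l.length := by
          have : (0 : ℝ) ≤ l.length := by positivity
          nlinarith
        nlinarith
      linarith

/-- sign of the alternating evaluation from the truncated values -/
theorem pos_of_trunc {u t : ℕ} (hu : u ≤ 2 ^ t) (l : List ℕ) (hl : l.length ≤ 120)
    (h : ((hzv (u * u) (2 * t) (pick l false) * u) >>> t) + 64 ≤ hzv (u * u) (2 * t) (pick l true)) :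
    0 < pe (-((u : ℝ) / 2 ^ t)) l := by
  have huu : u * u ≤ 2 ^ (2 * t) := by
    rw [two_mul, pow_add]; exact Nat.mul_le_mul hu hu
  have hp : (0 : ℝ) < 2 ^ t := by positivity
  have hz0 : (0 : ℝ) ≤ (u : ℝ) / 2 ^ t := by positivity
  have hz1 : (u : ℝ) / 2 ^ t ≤ 1 := by rw [div_le_one hp]; exact_mod_cast hu
  have hzz : ((u : ℝ) / 2 ^ t) ^ 2 = ((u * u : ℕ) : ℝ) / 2 ^ (2 * t) := by
    push_cast; rw [div_pow, ← pow_mul]; ring
  rw [pe_split, hzz]
  obtain ⟨e1, e2⟩ := hzv_error huu (pick l true)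
  obtain ⟨o1, o2⟩ := hzv_error huu (pick l false)
  have hlen := (pick_length l).2
  have hlen' : ((pick l false).length : ℝ) ≤ 60 := by
    have : (pick l false).length ≤ 60 := by omega
    exact_mod_cast this
  set O := hzv (u * u) (2 * t) (pick l false)
  set E := hzv (u * u) (2 * t) (pick l true)
  have h2 : (O : ℝ) * ((u : ℝ) / 2 ^ t) ≤ (((O * u) >>> t : ℕ) : ℝ) + 1 := by
    rw [Nat.shiftRight_eq_div_pow, ← mul_div_assoc, div_le_iff₀ hp]
    have h3 : O * u < (O * u / 2 ^ t + 1) * 2 ^ t :=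
      Nat.lt_mul_of_div_lt (Nat.lt_succ_self _) (by positivity)
    exact_mod_cast h3.le
  have h4 : ((((O * u) >>> t : ℕ) : ℝ)) + 64 ≤ (E : ℝ) := by exact_mod_cast h
  have h5 : (u : ℝ) / 2 ^ t * pe (((u * u : ℕ) : ℝ) / 2 ^ (2 * t)) (pick l false) ≤
      (u : ℝ) / 2 ^ t * (O + 60) := by
    apply mul_le_mul_of_nonneg_left _ hz0
    linarith
  nlinarith

theorem neg_of_trunc {u t : ℕ} (hu : u ≤ 2 ^ t) (l : List ℕ) (hl : l.length ≤ 120)
    (h : hzv (u * u) (2 * t) (pick l true) + 64 ≤ ((hzv (u * u) (2 * t) (pick l false) * u) >>> t)) :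
    pe (-((u : ℝ) / 2 ^ t)) l < 0 := by
  have huu : u * u ≤ 2 ^ (2 * t) := by
    rw [two_mul, pow_add]; exact Nat.mul_le_mul hu hu
  have hp : (0 : ℝ) < 2 ^ t := by positivity
  have hz0 : (0 : ℝ) ≤ (u : ℝ) / 2 ^ t := by positivity
  have hz1 : (u : ℝ) / 2 ^ t ≤ 1 := by rw [div_le_one hp]; exact_mod_cast hu
  have hzz : ((u : ℝ) / 2 ^ t) ^ 2 = ((u * u : ℕ) : ℝ) / 2 ^ (2 * t) := by
    push_cast; rw [div_pow, ← pow_mul]; ring
  rw [pe_split, hzz]
  obtain ⟨e1, e2⟩ := hzv_error huu (pick l true)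
  obtain ⟨o1, o2⟩ := hzv_error huu (pick l false)
  have hlen := (pick_length l).1
  have hlen' : ((pick l true).length : ℝ) ≤ 60 := by
    have : (pick l true).length ≤ 60 := by omega
    exact_mod_cast this
  set O := hzv (u * u) (2 * t) (pick l false)
  set E := hzv (u * u) (2 * t) (pick l true)
  have h2 : (((O * u) >>> t : ℕ) : ℝ) ≤ (O : ℝ) * ((u : ℝ) / 2 ^ t) := by
    rw [Nat.shiftRight_eq_div_pow, ← mul_div_assoc]
    have := @Nat.cast_div_le ℝ _ _ _ (O * u) (2 ^ t)
    push_cast at this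
    exact_mod_cast this
  have h4 : (E : ℝ) + 64 ≤ ((((O * u) >>> t : ℕ) : ℝ)) := by exact_mod_cast h
  have h5 : (O : ℝ) * ((u : ℝ) / 2 ^ t) ≤
      (u : ℝ) / 2 ^ t * pe (((u * u : ℕ) : ℝ) / 2 ^ (2 * t)) (pick l false) := by
    rw [mul_comm]
    exact mul_le_mul_of_nonneg_left o1 hz0
  linarith

end Pool.Agent.Lib.Durfee.FC
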