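import Pool.Agent.Lib.MP_9393b1_co.FCHorner

/-!
# Finite check for the Durfee polynomials, part 3: the program and its soundness
-/

set_option autoImplicit false

namespace Pool.Agent.Lib.Durfee.FC

/-! ## the table -/

noncomputable def Pk (k : ℕ) : PowerSeries ℕ := PowerSeries.mk (pk k)

theorem Pk_succ (k : ℕ) : Pk (k + 1) = Pk k + PowerSeries.X ^ (k + 1) * Pk (k + 1) := by
  ext m
  rw [map_add, PowerSeries.coeff_X_pow_mul']
  simp only [Pk, PowerSeries.coeff_mk]
  rw [pk]
  split_ifs <;> rfl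

/-- scaled coefficients of `∏_{i ≤ k} (1-q^i)^{-2}` -/
noncomputable def q2 (k m : ℕ) : ℕ := 2 ^ 32 * PowerSeries.coeff m (Pk k * Pk k)

/-- scaled coefficients of `(1-q^{k+1})^{-1} ∏_{i ≤ k} (1-q^i)^{-2}` -/
noncomputable def q1 (k m : ℕ) : ℕ := 2 ^ 32 * PowerSeries.coeff m (Pk (k + 1) * Pk k)

theorem q1_rec (k m : ℕ) : q1 k m = q2 k m + if k + 1 ≤ m then q1 k (m - (k + 1)) else 0 := by
  have h : Pk (k + 1) * Pk k = Pk k * Pk k + PowerSeries.X ^ (k + 1) * (Pk (k + 1) * Pk k) := by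
    conv_lhs => rw [Pk_succ]
    ring
  unfold q1 q2
  conv_lhs => rw [h]
  rw [map_add, PowerSeries.coeff_X_pow_mul']
  split_ifs <;> ring

theorem q2_rec (k m : ℕ) :
    q2 (k + 1) m = q1 k m + if k + 1 ≤ m then q2 (k + 1) (m - (k + 1)) else 0 := by
  have h : Pk (k + 1) * Pk (k + 1) =
      Pk (k + 1) * Pk k + PowerSeries.X ^ (k + 1) * (Pk (k + 1) * Pk (k + 1)) := by
    conv_lhs => rw [Pk_succ, add_mul, ← Pk_succ]
    ring
  unfold q1 q2
  conv_lhs => rw [h]
  rw [map_add, PowerSeries.coeff_X_pow_mul']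
  split_ifs <;> ring

theorem dco_eq {n k : ℕ} (h : k ^ 2 ≤ n) : 2 ^ 32 * dco n k = q2 k (n - k ^ 2) := by
  unfold dco q2 Pk
  rw [if_pos h, PowerSeries.coeff_mul]
  simp only [PowerSeries.coeff_mk]

theorem q2_zero (m : ℕ) : q2 0 m = if m = 0 then 2 ^ 32 else 0 := by
  have h : Pk 0 = 1 := by
    ext m
    rw [Pk, PowerSeries.coeff_mk, PowerSeries.coeff_one, pk]
  unfold q2
  rw [h, one_mul, PowerSeries.coeff_one]
  split_ifs <;> rfl

/-- oracle for division by `1 - q^k` -/
noncomputable def divS (k g : ℕ) : ℕ :=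
  Nat.div (Nat.shiftLeft g (Nat.mul 448 k)) (Nat.sub (Nat.pow 2 (Nat.mul 448 k)) 1)

/-- verification of one division by `1 - q^k` -/
noncomputable def okS (gm k g h : ℕ) : Bool :=
  Nat.beq h (Nat.add g (Nat.shiftRight h (Nat.mul 448 k))) && Nat.beq (Nat.land h gm) h

/-- the slot bound -/
def BB : ℕ := 2 ^ 428

theorem BB_pos : 0 < BB := by unfold BB; positivity
theorem BB_mul : BB * 1048576 = 2 ^ 448 := by
  unfold BB
  rw [show (1048576 : ℕ) = 2 ^ 20 by norm_num, ← pow_add]
theorem BB_mul' : BB * 524288 = 2 ^ 447 := by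
  unfold BB
  rw [show (524288 : ℕ) = 2 ^ 19 by norm_num, ← pow_add]
theorem BB_aux1 : 64 * BB * (63 * 63) < 2 ^ 448 := by
  rw [← BB_mul]
  have := BB_pos
  generalize BB = P at *
  omega
theorem BB_aux2 : 64 * BB * 63 < 2 ^ 448 := by
  rw [← BB_mul]
  have := BB_pos
  generalize BB = P at *
  omega
theorem two_BB : 2 * BB ≤ 2 ^ 448 := by rw [← BB_mul]; omega
theorem BB_le : BB ≤ 2 ^ 448 := by rw [← BB_mul]; omega

theorem okS_sound {gm k N' : ℕ} (hk : 1 ≤ k) (hgm : gm = packR 448 (fun _ => BB - 1) N')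
    {g h : ℕ → ℕ} (hrec : ∀ m, h m = g m + if k ≤ m then h (m - k) else 0) {M G H : ℕ}
    (hG : G = packR 448 g M) (hg : ∀ m < M, g m < BB) (hok : okS gm k G H = true) :
    H = packR 448 h M ∧ ∀ m < M, h m < BB := by
  unfold okS at hok
  rw [Bool.and_eq_true] at hok
  have h1 := Nat.eq_of_beq_eq_true hok.1
  have h2 := Nat.eq_of_beq_eq_true hok.2
  apply cert hk two_BB hrec M H hg
  · intro i
    rw [hgm] at h2
    exact small_of_land BB_pos BB_le h2 i
  · rw [← hG, ← pow_mul, ← Nat.shiftRight_eq_div_pow]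
    exact h1

/-- the main loop: builds the table and verifies it, then calls `fin` on the list of slices
(largest `k` first) -/
noncomputable def loop (len gm : ℕ) (fin : List ℕ → Bool) (fuel : ℕ) : ℕ → ℕ → List ℕ → Bool :=
  Nat.rec (motive := fun _ => ℕ → ℕ → List ℕ → Bool)
    (fun _ g acc => fin (Nat.mod g (Nat.pow 2 len) :: acc))
    (fun _ ih k g acc =>
      okS gm (Nat.succ k) (Nat.shiftRight g (Nat.mul 448 (Nat.add (Nat.mul 2 k) 1)))
          (divS (Nat.succ k) (Nat.shiftRight g (Nat.mul 448 (Nat.add (Nat.mul 2 k) 1)))) &&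
        (okS gm (Nat.succ k)
            (divS (Nat.succ k) (Nat.shiftRight g (Nat.mul 448 (Nat.add (Nat.mul 2 k) 1))))
            (divS (Nat.succ k)
              (divS (Nat.succ k) (Nat.shiftRight g (Nat.mul 448 (Nat.add (Nat.mul 2 k) 1))))) &&
          ih (Nat.succ k)
            (divS (Nat.succ k)
              (divS (Nat.succ k) (Nat.shiftRight g (Nat.mul 448 (Nat.add (Nat.mul 2 k) 1)))))
            (Nat.mod g (Nat.pow 2 len) :: acc)))
    fuel

theorem loop_succ (len gm : ℕ) (fin : List ℕ → Bool) (fuel k g : ℕ) (acc : List ℕ) :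
    loop len gm fin (fuel + 1) k g acc =
      (okS gm (k + 1) (g >>> (448 * (2 * k + 1))) (divS (k + 1) (g >>> (448 * (2 * k + 1)))) &&
        (okS gm (k + 1) (divS (k + 1) (g >>> (448 * (2 * k + 1))))
            (divS (k + 1) (divS (k + 1) (g >>> (448 * (2 * k + 1))))) &&
          loop len gm fin fuel (k + 1) (divS (k + 1) (divS (k + 1) (g >>> (448 * (2 * k + 1)))))
            (g % 2 ^ len :: acc))) := rfl

theorem loop_zero (len gm : ℕ) (fin : List ℕ → Bool) (k g : ℕ) (acc : List ℕ) :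
    loop len gm fin 0 k g acc = fin (g % 2 ^ len :: acc) := rfl

/-- the row of scaled coefficients `2^32 dco (n0 + j) k` -/
def row (n0 k j : ℕ) : ℕ := 2 ^ 32 * dco (n0 + j) k

theorem slice_eq {n0 L N k : ℕ} (hk : k ^ 2 ≤ n0) (hN : N = n0 + L)
    (hsm : ∀ m < N - k ^ 2, q2 k m < BB) :
    packR 448 (q2 k) (N - k ^ 2) % 2 ^ (448 * L) = packR 448 (row n0 k) L ∧
      ∀ j < L, row n0 k j < BB := by
  have h1 : ∀ j, row n0 k j = q2 k (N - k ^ 2 - L + j) := by
    intro j
    unfold row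
    rw [dco_eq (by omega)]
    congr 1
    omega
  constructor
  · rw [pow_mul, packR_mod (fun m hm => lt_of_lt_of_le (hsm m hm) BB_le) (by omega)]
    apply packR_congr
    intro m _
    rw [h1]
  · intro j hj
    rw [h1]
    exact hsm _ (by omega)

theorem loop_sound {n0 L N K gm N' : ℕ} {fin : List ℕ → Bool} (hK : K ^ 2 ≤ n0) (hN : N = n0 + L)
    (hgm : gm = packR 448 (fun _ => BB - 1) N') (fuel : ℕ) :
    ∀ (k g : ℕ) (acc : List ℕ), k + fuel = K → g = packR 448 (q2 k) (N - k ^ 2) →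
      (∀ m < N - k ^ 2, q2 k m < BB) →
      acc = ((List.range k).map (fun i => packR 448 (row n0 i) L)).reverse →
      (∀ i < k, ∀ j < L, row n0 i j < BB) →
      loop (448 * L) gm fin fuel k g acc = true →
      fin ((List.range (K + 1)).map (fun i => packR 448 (row n0 i) L)).reverse = true ∧
        ∀ i < K + 1, ∀ j < L, row n0 i j < BB := by
  have hacc : ∀ (k : ℕ) (acc : List ℕ) (g : ℕ), k ^ 2 ≤ n0 → g = packR 448 (q2 k) (N - k ^ 2) →
      (∀ m < N - k ^ 2, q2 k m < BB) →
      acc = ((List.range k).map (fun i => packR 448 (row n0 i) L)).reverse →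
      (g % 2 ^ (448 * L) :: acc) =
        ((List.range (k + 1)).map (fun i => packR 448 (row n0 i) L)).reverse := by
    intro k acc g hk hg hsm hacc
    rw [hg, (slice_eq hk hN hsm).1, hacc, List.range_succ, List.map_append, List.reverse_append]
    rfl
  induction fuel with
  | zero =>
    intro k g acc hk hg hsm hac hrow hl
    rw [loop_zero] at hl
    have hkK : k = K := by omega
    subst hkK
    rw [hacc k acc g hK hg hsm hac] at hl
    refine ⟨hl, ?_⟩
    intro i hi
    rcases Nat.lt_succ_iff_lt_or_eq.mp hi with h | h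
    · exact hrow i h
    · rw [h]; exact (slice_eq hK hN hsm).2
  | succ fuel ih =>
    intro k g acc hk hg hsm hac hrow hl
    have hkn : k ^ 2 ≤ n0 := le_trans (Nat.pow_le_pow_left (by omega) 2) hK
    have hk1n : (k + 1) ^ 2 ≤ n0 := le_trans (Nat.pow_le_pow_left (by omega) 2) hK
    rw [loop_succ, Bool.and_eq_true, Bool.and_eq_true] at hl
    obtain ⟨h1, h2, h3⟩ := hl
    have hsh : g >>> (448 * (2 * k + 1)) = packR 448 (q2 k) (N - (k + 1) ^ 2) := by
      rw [hg, Nat.shiftRight_eq_div_pow, pow_mul,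
        packR_div (fun m hm => lt_of_lt_of_le (hsm m hm) BB_le)]
      congr 1
      have : (k + 1) ^ 2 = k ^ 2 + (2 * k + 1) := by ring
      omega
    have hsm' : ∀ m < N - (k + 1) ^ 2, q2 k m < BB := by
      intro m hm
      apply hsm m
      have : (k + 1) ^ 2 = k ^ 2 + (2 * k + 1) := by ring
      omega
    obtain ⟨e1, b1⟩ := okS_sound (by omega) hgm (q1_rec k) hsh hsm' h1
    obtain ⟨e2, b2⟩ := okS_sound (by omega) hgm (q2_rec k) e1 b1 h2
    refine ih (k + 1) _ _ (by omega) e2 b2 (hacc k acc g hkn hg hsm hac) ?_ h3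
    intro i hi
    rcases Nat.lt_succ_iff_lt_or_eq.mp hi with h | h
    · exact hrow i h
    · rw [h]; exact (slice_eq hkn hN hsm).2

/-! ## the tests -/

/-- packed comparison `a ≥ c + 64` -/
noncomputable def gtS (ones A C : ℕ) : Bool :=
  Nat.beq (Nat.land (Nat.sub (Nat.add A (Nat.mul (Nat.pow 2 447) ones))
    (Nat.add C (Nat.mul 64 ones))) (Nat.mul (Nat.pow 2 447) ones)) (Nat.mul (Nat.pow 2 447) ones)

noncomputable def evE (ones u t : ℕ) (ev : List ℕ) : ℕ :=
  hz (Nat.mul u u) (Nat.mul 2 t)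
    (Nat.mul (Nat.sub (Nat.pow 2 (Nat.sub 448 (Nat.mul 2 t))) 1) ones) ev

noncomputable def evO (ones u t : ℕ) (od : List ℕ) : ℕ :=
  Nat.land (Nat.shiftRight (Nat.mul (evE ones u t od) u) t)
    (Nat.mul (Nat.sub (Nat.pow 2 (Nat.sub 448 t)) 1) ones)

noncomputable def chk (ones : ℕ) (ev od : List ℕ) (c : ℕ) (pos : Bool) : Bool :=
  bif pos then gtS ones (evE ones (Nat.mod c 64) (Nat.div c 64) ev)
      (evO ones (Nat.mod c 64) (Nat.div c 64) od)
  else gtS ones (evO ones (Nat.mod c 64) (Nat.div c 64) od)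
      (evE ones (Nat.mod c 64) (Nat.div c 64) ev)

/-- the test point of a code -/
noncomputable def val (c : ℕ) : ℝ := ((c % 64 : ℕ) : ℝ) / 2 ^ (c / 64)

/-- admissible codes -/
def goodC (c : ℕ) : Bool :=
  Nat.blt 0 (c % 64) && (Nat.ble (c % 64) (2 ^ (c / 64)) && Nat.ble (2 * (c / 64)) 448)

/-- sign -/
noncomputable def sg (b : Bool) : ℝ := if b then 1 else -1

theorem sg_not (b : Bool) : sg (!b) = -sg b := by cases b <;> simp [sg]

theorem evE_eq {L u t : ℕ} (hu : u ≤ 2 ^ t) (hu64 : u < 64) (ht : 2 * t ≤ 448)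
    (fs : List (ℕ → ℕ)) (hlen : fs.length ≤ 64) (hfs : ∀ f ∈ fs, ∀ m < L, f m ≤ BB) :
    evE (packR 448 (fun _ => 1) L) u t (fs.map (fun f => packR 448 f L)) =
      packR 448 (fun m => hzv (u * u) (2 * t) (fs.map (fun f => f m))) L := by
  have huu : u * u ≤ 2 ^ (2 * t) := by
    rw [two_mul, pow_add]; exact Nat.mul_le_mul hu hu
  have h1 : (2 ^ (448 - 2 * t) - 1) * packR 448 (fun _ => 1) L =
      packR 448 (fun _ => 2 ^ (448 - 2 * t) - 1) L := by
    rw [packR_mul_left]
    simp only [mul_one]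
  have h2 : evE (packR 448 (fun _ => 1) L) u t (fs.map (fun f => packR 448 f L)) =
      hz (u * u) (2 * t) ((2 ^ (448 - 2 * t) - 1) * packR 448 (fun _ => 1) L)
        (fs.map (fun f => packR 448 f L)) := rfl
  rw [h2, h1]
  apply hz_pack huu ht _ fs hlen hfs
  have h3 : u * u ≤ 63 * 63 := Nat.mul_le_mul (by omega) (by omega)
  exact lt_of_le_of_lt (Nat.mul_le_mul_left _ h3) BB_aux1

theorem hzv_lt {L u t : ℕ} (hu : u ≤ 2 ^ t) (fs : List (ℕ → ℕ)) (hlen : fs.length ≤ 64)
    (hfs : ∀ f ∈ fs, ∀ m < L, f m ≤ BB) (m : ℕ) (hm : m < L) :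
    hzv (u * u) (2 * t) (fs.map (fun f => f m)) ≤ 64 * BB := by
  have huu : u * u ≤ 2 ^ (2 * t) := by
    rw [two_mul, pow_add]; exact Nat.mul_le_mul hu hu
  have := hzv_le (B := BB) huu (fs.map (fun f => f m)) (by
    intro c hc
    obtain ⟨f', hf', rfl⟩ := List.mem_map.mp hc
    exact hfs f' hf' m hm)
  rw [List.length_map] at this
  exact this.trans (Nat.mul_le_mul_right _ hlen)

theorem evO_eq {L u t : ℕ} (hu : u ≤ 2 ^ t) (hu64 : u < 64) (ht : 2 * t ≤ 448)
    (fs : List (ℕ → ℕ)) (hlen : fs.length ≤ 64) (hfs : ∀ f ∈ fs, ∀ m < L, f m ≤ BB) :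
    evO (packR 448 (fun _ => 1) L) u t (fs.map (fun f => packR 448 f L)) =
      packR 448 (fun m => (hzv (u * u) (2 * t) (fs.map (fun f => f m)) * u) >>> t) L := by
  have h1 : (2 ^ (448 - t) - 1) * packR 448 (fun _ => 1) L =
      packR 448 (fun _ => 2 ^ (448 - t) - 1) L := by
    rw [packR_mul_left]
    simp only [mul_one]
  have h2 : evO (packR 448 (fun _ => 1) L) u t (fs.map (fun f => packR 448 f L)) =
      ((evE (packR 448 (fun _ => 1) L) u t (fs.map (fun f => packR 448 f L)) * u) >>> t) &&&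
        ((2 ^ (448 - t) - 1) * packR 448 (fun _ => 1) L) := rfl
  rw [h2, h1, evE_eq hu hu64 ht fs hlen hfs, packR_mul, packR_trunc (by omega)]
  intro m hm
  have h3 := hzv_lt (L := L) hu fs hlen hfs m hm
  exact lt_of_le_of_lt (Nat.mul_le_mul h3 (by omega)) BB_aux2

theorem gtS_sound {L : ℕ} {a c : ℕ → ℕ} (ha : ∀ m < L, a m ≤ 64 * BB) (hc : ∀ m < L, c m ≤ 64 * BB)
    (h : gtS (packR 448 (fun _ => 1) L) (packR 448 a L) (packR 448 c L) = true) :
    ∀ m < L, c m + 64 ≤ a m := by
  unfold gtS at h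
  replace h := Nat.eq_of_beq_eq_true h
  have h1 : 2 ^ 447 * packR 448 (fun _ => 1) L = packR 448 (fun _ => 2 ^ (448 - 1)) L := by
    rw [packR_mul_left]
    apply packR_congr
    intro m _
    rw [mul_one]
  have h2 : 64 * packR 448 (fun _ => 1) L = packR 448 (fun _ => 64) L := by
    rw [packR_mul_left]
  have h3 : ((packR 448 a L + 2 ^ 447 * packR 448 (fun _ => 1) L) -
      (packR 448 c L + 64 * packR 448 (fun _ => 1) L)) &&& (2 ^ 447 * packR 448 (fun _ => 1) L) =
      2 ^ 447 * packR 448 (fun _ => 1) L := h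
  rw [h1, h2] at h3
  have hb1 : 64 * BB + 64 ≤ 2 ^ (448 - 1) := by
    rw [show 448 - 1 = 447 by norm_num, ← BB_mul']
    have := BB_pos
    omega
  exact packR_gt (by norm_num) (fun m hm => lt_of_le_of_lt (ha m hm) (by omega))
    (fun m hm => by have := hc m hm; omega) h3

/-- soundness of one test -/
theorem chk_sound {L : ℕ} {fs : List (ℕ → ℕ)} (hlen : fs.length ≤ 120)
    (hfs : ∀ f ∈ fs, ∀ m < L, f m ≤ BB) {c : ℕ} {pos : Bool} (hc : goodC c = true)
    (h : chk (packR 448 (fun _ => 1) L) (pick (fs.map (fun f => packR 448 f L)) true)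
      (pick (fs.map (fun f => packR 448 f L)) false) c pos = true) :
    ∀ m < L, 0 < sg pos * pe (-(val c)) (fs.map (fun f => f m)) := by
  unfold goodC at hc
  rw [Bool.and_eq_true, Bool.and_eq_true, Nat.ble_eq, Nat.ble_eq] at hc
  obtain ⟨_, hc2, hc3⟩ := hc
  have hu64 : c % 64 < 64 := Nat.mod_lt _ (by norm_num)
  obtain ⟨l1, l2⟩ := pick_length fs
  have hT := hfs
  have hfe : ∀ f ∈ pick fs true, ∀ m < L, f m ≤ BB := fun f hf => hfs f (pick_subset _ _ _ hf)
  have hfo : ∀ f ∈ pick fs false, ∀ m < L, f m ≤ BB := fun f hf => hfs f (pick_subset _ _ _ hf)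
  rw [pick_map, pick_map] at h
  have hE := evE_eq (L := L) hc2 hu64 hc3 (pick fs true) (by omega) hfe
  have hO := evO_eq (L := L) hc2 hu64 hc3 (pick fs false) (by omega) hfo
  have bE := hzv_lt (L := L) hc2 (pick fs true) (by omega) hfe
  have bO : ∀ m < L, (hzv (c % 64 * (c % 64)) (2 * (c / 64)) ((pick fs false).map (fun f => f m)) *
      (c % 64)) >>> (c / 64) ≤ 64 * BB := by
    intro m hm
    exact (shift_le hc2).trans (hzv_lt (L := L) hc2 (pick fs false) (by omega) hfo m hm)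
  intro m hm
  cases pos
  · have h' : gtS (packR 448 (fun _ => 1) L)
        (evO (packR 448 (fun _ => 1) L) (c % 64) (c / 64)
          ((pick fs false).map (fun f => packR 448 f L)))
        (evE (packR 448 (fun _ => 1) L) (c % 64) (c / 64)
          ((pick fs true).map (fun f => packR 448 f L))) = true := h
    rw [hE, hO] at h'
    have h1 := gtS_sound bO bE h' m hm
    rw [← pick_map, ← pick_map] at h1
    have h2 := neg_of_trunc hc2 (fs.map (fun f => f m)) (by rw [List.length_map]; exact hlen) h1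
    have h3 : pe (-(val c)) (fs.map (fun f => f m)) < 0 := h2
    simp only [sg, Bool.false_eq_true, if_false]
    linarith
  · have h' : gtS (packR 448 (fun _ => 1) L)
        (evE (packR 448 (fun _ => 1) L) (c % 64) (c / 64)
          ((pick fs true).map (fun f => packR 448 f L)))
        (evO (packR 448 (fun _ => 1) L) (c % 64) (c / 64)
          ((pick fs false).map (fun f => packR 448 f L))) = true := h
    rw [hE, hO] at h'
    have h1 := gtS_sound bE bO h' m hm
    rw [← pick_map, ← pick_map] at h1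
    have h2 := pos_of_trunc hc2 (fs.map (fun f => f m)) (by rw [List.length_map]; exact hlen) h1
    have h3 : 0 < pe (-(val c)) (fs.map (fun f => f m)) := h2
    simp only [sg, if_true]
    linarith

/-- tests with alternating signs -/
noncomputable def run (ones : ℕ) (ev od : List ℕ) (l : List ℕ) : Bool → Bool :=
  List.rec (motive := fun _ => Bool → Bool) (fun _ => true)
    (fun c _ ih pos => chk ones ev od c pos && ih (!pos)) l

theorem run_cons (ones : ℕ) (ev od : List ℕ) (c : ℕ) (l : List ℕ) (pos : Bool) :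
    run ones ev od (c :: l) pos = (chk ones ev od c pos && run ones ev od l (!pos)) := rfl

theorem run_sound {L : ℕ} {fs : List (ℕ → ℕ)} (hlen : fs.length ≤ 120)
    (hfs : ∀ f ∈ fs, ∀ m < L, f m ≤ BB) (l : List ℕ) (hl : l.all goodC = true) :
    ∀ pos : Bool, run (packR 448 (fun _ => 1) L) (pick (fs.map (fun f => packR 448 f L)) true)
      (pick (fs.map (fun f => packR 448 f L)) false) l pos = true →
    ∀ i, i < l.length → ∀ m < L,
      0 < (-1 : ℝ) ^ i * sg pos * pe (-(val (l.getD i 0))) (fs.map (fun f => f m)) := by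
  induction l with
  | nil => intro pos _ i hi; simp at hi
  | cons c l ih =>
    intro pos hr i hi m hm
    rw [run_cons, Bool.and_eq_true] at hr
    rw [List.all_cons, Bool.and_eq_true] at hl
    rcases i with _ | i
    · rw [List.getD_cons_zero, pow_zero, one_mul]
      exact chk_sound hlen hfs hl.1 hr.1 m hm
    · rw [List.getD_cons_succ]
      have h1 := ih hl.2 (!pos) hr.2 i (by simpa using hi) m hm
      rw [sg_not] at h1
      rw [pow_succ]
      linarith

end Pool.Agent.Lib.Durfee.FC
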