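import Pool.Agent.Lib.MP_9393b1_co.Euler

set_option autoImplicit false

namespace Pool.Agent.Lib.Durfee

open Complex

/-- The `(j+1)`-st term of the logarithmic series of `PP w θ s`:
`(-1)^j (i w)^{j+1} cos((j+1)θ) / ((j+1) sinh((j+1)s/2))`. -/
noncomputable def logTerm (w θ : ℝ) (s : ℂ) (j : ℕ) : ℂ :=
  (-1) ^ j * (I * w) ^ (j + 1) * (Real.cos (((j : ℝ) + 1) * θ) : ℂ) /
    (((j : ℂ) + 1) * sinh (((j : ℂ) + 1) * s / 2))

private lemma exp_half_norm (s : ℂ) (k : ℕ) :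
    ‖exp (-(s * ((k : ℂ) + 1 / 2)))‖ = Real.exp (-(s.re * ((k : ℝ) + 1 / 2))) := by
  rw [Complex.norm_exp]
  congr 1
  have : s * ((k : ℂ) + 1 / 2) = s * (((k : ℝ) + 1 / 2 : ℝ) : ℂ) := by push_cast; ring
  rw [this, Complex.neg_re, Complex.re_mul_ofReal]

private lemma one_sub_ne {s : ℂ} (hs : 0 < s.re) (j : ℕ) :
    ‖exp (-(((j : ℂ) + 1) * s))‖ < 1 := by
  rw [Complex.norm_exp, Real.exp_lt_one_iff]
  have : ((j : ℂ) + 1) * s = (((j : ℝ) + 1 : ℝ) : ℂ) * s := by push_cast; ring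
  rw [this, Complex.neg_re, Complex.re_ofReal_mul]
  have : 0 < ((j : ℝ) + 1) * s.re := by positivity
  linarith

private lemma Lam_eq_exp {t s : ℂ} (ht : ‖t‖ < 1) (hs : 0 < s.re) :
    Summable (fun j : ℕ => (-1) ^ j * t ^ (j + 1) /
        (((j : ℂ) + 1) * (2 * sinh (((j : ℂ) + 1) * s / 2)))) ∧
      Lam t s = exp (∑' j : ℕ, (-1) ^ j * t ^ (j + 1) /
        (((j : ℂ) + 1) * (2 * sinh (((j : ℂ) + 1) * s / 2)))) := by
  set f : ℕ → ℕ → ℂ := fun j k =>
    (-1) ^ j * (t * exp (-(s * ((k : ℂ) + 1 / 2)))) ^ (j + 1) / ((j : ℂ) + 1) with hf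
  have hexp1 : ∀ k : ℕ, Real.exp (-(s.re * ((k : ℝ) + 1 / 2))) ≤ 1 := by
    intro k
    rw [Real.exp_le_one_iff]
    have : 0 ≤ s.re * ((k : ℝ) + 1 / 2) := by positivity
    linarith
  have hz : ∀ k : ℕ, ‖t * exp (-(s * ((k : ℂ) + 1 / 2)))‖ < 1 := by
    intro k
    rw [norm_mul, exp_half_norm]
    calc ‖t‖ * Real.exp (-(s.re * ((k : ℝ) + 1 / 2))) ≤ ‖t‖ * 1 :=
          mul_le_mul_of_nonneg_left (hexp1 k) (norm_nonneg _)
      _ < 1 := by rw [mul_one]; exact ht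
  have hb : Summable (fun k : ℕ => Real.exp (-(s.re * ((k : ℝ) + 1 / 2)))) := by
    have h : (fun k : ℕ => Real.exp (-(s.re * ((k : ℝ) + 1 / 2)))) =
        fun k : ℕ => Real.exp (-(s.re / 2)) * Real.exp (-s.re) ^ k := by
      funext k
      rw [← Real.exp_nat_mul, ← Real.exp_add]
      congr 1; ring
    rw [h]
    exact (summable_geometric_of_lt_one (Real.exp_pos _).le
      (Real.exp_lt_one_iff.mpr (by linarith))).mul_left _
  have ha : Summable (fun j : ℕ => ‖t‖ ^ (j + 1)) := by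
    simp only [pow_succ]
    exact (summable_geometric_of_lt_one (norm_nonneg _) ht).mul_right _
  have hfs : Summable (Function.uncurry f) := by
    refine Summable.of_norm_bounded (g := fun x : ℕ × ℕ => ‖t‖ ^ (x.1 + 1) *
      Real.exp (-(s.re * ((x.2 : ℝ) + 1 / 2))))
      (ha.mul_of_nonneg hb (fun _ => by positivity) (fun _ => (Real.exp_pos _).le)) ?_
    rintro ⟨j, k⟩
    simp only [Function.uncurry, hf]
    have hj : ‖((j : ℂ) + 1)‖ = (j : ℝ) + 1 := by
      have : ((j : ℂ) + 1) = (((j : ℝ) + 1 : ℝ) : ℂ) := by push_cast; ring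
      rw [this, Complex.norm_real, Real.norm_eq_abs, abs_of_pos (by positivity)]
    rw [norm_div, norm_mul, norm_pow, norm_pow, norm_neg, norm_one, one_pow, one_mul, hj,
      norm_mul, exp_half_norm, mul_pow]
    have h1 : Real.exp (-(s.re * ((k : ℝ) + 1 / 2))) ^ (j + 1) ≤
        Real.exp (-(s.re * ((k : ℝ) + 1 / 2))) := by
      rw [pow_succ]
      exact mul_le_of_le_one_left (Real.exp_pos _).le (pow_le_one₀ (Real.exp_pos _).le (hexp1 k))
    calc ‖t‖ ^ (j + 1) * Real.exp (-(s.re * ((k : ℝ) + 1 / 2))) ^ (j + 1) / ((j : ℝ) + 1)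
        ≤ ‖t‖ ^ (j + 1) * Real.exp (-(s.re * ((k : ℝ) + 1 / 2))) ^ (j + 1) :=
          div_le_self (by positivity) (by linarith [(Nat.cast_nonneg j : (0 : ℝ) ≤ (j : ℝ))])
      _ ≤ ‖t‖ ^ (j + 1) * Real.exp (-(s.re * ((k : ℝ) + 1 / 2))) :=
          mul_le_mul_of_nonneg_left h1 (by positivity)
  have hrow : ∀ j : ℕ, ∑' k, f j k = (-1) ^ j * t ^ (j + 1) /
        (((j : ℂ) + 1) * (2 * sinh (((j : ℂ) + 1) * s / 2))) := by
    intro j
    have hg := hasSum_geometric_of_norm_lt_one (one_sub_ne hs j)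
    have hfk : ∀ k, f j k = ((-1) ^ j * t ^ (j + 1) / ((j : ℂ) + 1) *
        exp (-(((j : ℂ) + 1) * s / 2))) * exp (-(((j : ℂ) + 1) * s)) ^ k := by
      intro k
      simp only [hf]
      rw [mul_pow, ← Complex.exp_nat_mul, ← Complex.exp_nat_mul]
      have : exp (((j + 1 : ℕ) : ℂ) * -(s * ((k : ℂ) + 1 / 2))) =
          exp (-(((j : ℂ) + 1) * s / 2)) * exp ((k : ℂ) * -(((j : ℂ) + 1) * s)) := by
        rw [← Complex.exp_add]; congr 1; push_cast; ring
      rw [this]; ring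
    rw [tsum_congr hfk, tsum_mul_left, hg.tsum_eq]
    have hj : ((j : ℂ) + 1) ≠ 0 := Nat.cast_add_one_ne_zero j
    have hne : 1 - exp (-(((j : ℂ) + 1) * s)) ≠ 0 := by
      intro h
      have h1 : exp (-(((j : ℂ) + 1) * s)) = 1 := (sub_eq_zero.mp h).symm
      have h2 := one_sub_ne hs j
      rw [h1, norm_one] at h2
      exact lt_irrefl _ h2
    have hE := Complex.exp_ne_zero (((j : ℂ) + 1) * s / 2)
    have e1 : exp (-(((j : ℂ) + 1) * s)) =
        (exp (((j : ℂ) + 1) * s / 2))⁻¹ * (exp (((j : ℂ) + 1) * s / 2))⁻¹ := by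
      rw [← Complex.exp_neg, ← Complex.exp_add]; congr 1; ring
    have e2 : 2 * sinh (((j : ℂ) + 1) * s / 2) =
        exp (((j : ℂ) + 1) * s / 2) - (exp (((j : ℂ) + 1) * s / 2))⁻¹ := by
      rw [Complex.two_sinh, Complex.exp_neg]
    rw [e1] at hne
    rw [e2, e1, Complex.exp_neg]
    generalize exp (((j : ℂ) + 1) * s / 2) = E at hE hne
    have hne2 : E - E⁻¹ ≠ 0 := by
      intro h
      apply hne
      have : E⁻¹ = E := (sub_eq_zero.mp h).symm
      rw [this]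
      have h3 : E * E⁻¹ = 1 := mul_inv_cancel₀ hE
      rw [this] at h3
      rw [h3, sub_self]
    have hkey : E⁻¹ * (1 - E⁻¹ * E⁻¹)⁻¹ = (E - E⁻¹)⁻¹ := by
      rw [eq_comm, inv_eq_iff_eq_inv, mul_inv, inv_inv, inv_inv]
      field_simp
    calc (-1) ^ j * t ^ (j + 1) / ((j : ℂ) + 1) * E⁻¹ * (1 - E⁻¹ * E⁻¹)⁻¹
        = (-1) ^ j * t ^ (j + 1) / ((j : ℂ) + 1) * (E⁻¹ * (1 - E⁻¹ * E⁻¹)⁻¹) := by ring
      _ = _ := by rw [hkey, ← div_eq_mul_inv, div_div]
  have hcol : ∀ k : ℕ, ∑' j, f j k = log (1 + t * exp (-(s * ((k : ℂ) + 1 / 2)))) := by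
    intro k
    have h := (hasSum_nat_add_iff' 1).mpr (Complex.hasSum_taylorSeries_log (hz k))
    rw [Finset.sum_range_one, Nat.cast_zero, div_zero, sub_zero] at h
    rw [← h.tsum_eq]
    apply tsum_congr
    intro j
    simp only [hf]
    rw [pow_succ (-1 : ℂ) (j + 1), pow_succ (-1 : ℂ) j]
    push_cast
    ring
  have hsum1 : Summable (fun j => ∑' k, f j k) := hfs.prod
  constructor
  · exact hsum1.congr hrow
  · have hcs : Summable (fun k => ∑' j, f j k) := hfs.prod_symm.prod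
    have hLim : Filter.Tendsto (fun N : ℕ => ∏ k ∈ Finset.range N,
        (1 + t * exp (-(s * ((k : ℂ) + 1 / 2))))) Filter.atTop
        (nhds (exp (∑' k, ∑' j, f j k))) := by
      have h1 := (Complex.continuous_exp.tendsto _).comp hcs.hasSum.tendsto_sum_nat
      refine h1.congr fun N => ?_
      simp only [Function.comp]
      rw [Complex.exp_sum]
      apply Finset.prod_congr rfl
      intro k _
      rw [hcol, Complex.exp_log]
      intro h0
      have h1 : t * exp (-(s * ((k : ℂ) + 1 / 2))) = -1 := by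
        linear_combination h0
      have h2 := hz k
      rw [h1, norm_neg, norm_one] at h2
      exact lt_irrefl _ h2
    rw [tendsto_nhds_unique (Lam_tendsto hs t) hLim, Summable.tsum_comm hfs]
    exact congrArg exp (tsum_congr hrow)

/-- DFB-1 (B2): the logarithmic series. -/
theorem PP_eq_exp_logSeries {w : ℝ} (hw0 : 0 < w) (hw1 : w < 1) (θ : ℝ) {s : ℂ} (hs : 0 < s.re) :
    Summable (fun j : ℕ => logTerm w θ s j) ∧
      PP w θ s = exp (∑' j : ℕ, logTerm w θ s j) := by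
  have hn : ∀ x : ℂ, x.re = 0 → ‖I * w * exp x‖ < 1 := by
    intro x hx
    rw [norm_mul, norm_mul, Complex.norm_exp, hx, Real.exp_zero, Complex.norm_I,
      Complex.norm_real, Real.norm_eq_abs, abs_of_pos hw0]
    linarith
  obtain ⟨hs1, h1⟩ := Lam_eq_exp (hn (I * θ) (by simp)) hs
  obtain ⟨hs2, h2⟩ := Lam_eq_exp (hn (-(I * θ)) (by simp)) hs
  have hterm : ∀ j : ℕ, (-1) ^ j * (I * w * exp (I * θ)) ^ (j + 1) /
        (((j : ℂ) + 1) * (2 * sinh (((j : ℂ) + 1) * s / 2))) +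
      (-1) ^ j * (I * w * exp (-(I * θ))) ^ (j + 1) /
        (((j : ℂ) + 1) * (2 * sinh (((j : ℂ) + 1) * s / 2))) = logTerm w θ s j := by
    intro j
    unfold logTerm
    have hc : (Real.cos (((j : ℝ) + 1) * θ) : ℂ) =
        (exp (I * θ) ^ (j + 1) + exp (-(I * θ)) ^ (j + 1)) / 2 := by
      rw [Complex.ofReal_cos, Complex.cos, ← Complex.exp_nat_mul, ← Complex.exp_nat_mul]
      congr 2
      · congr 1; push_cast; ring
      · congr 1; push_cast; ring
    rw [hc, mul_pow (I * (w : ℂ)), mul_pow (I * (w : ℂ)) (exp (-(I * θ)))]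
    by_cases hS : sinh (((j : ℂ) + 1) * s / 2) = 0
    · rw [hS]; simp
    · have hj : ((j : ℂ) + 1) ≠ 0 := Nat.cast_add_one_ne_zero j
      field_simp
  constructor
  · exact (hs1.add hs2).congr hterm
  · unfold PP
    rw [h1, h2, ← Complex.exp_add, ← hs1.tsum_add hs2]
    exact congrArg exp (tsum_congr hterm)

end Pool.Agent.Lib.Durfee
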