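import Pool.Agent.Lib.MP_9393b1_co.Defs

set_option autoImplicit false

namespace Pool.Agent.Lib.Durfee

open Complex

private theorem six_mul_pow_le_factorial (n : ℕ) :
    (6 : ℝ) * 20 ^ n ≤ ((2 * (n + 1) + 1).factorial : ℝ) := by
  induction n with
  | zero => norm_num [Nat.factorial]
  | succ n ih =>
    have h1 : (2 * (n + 1 + 1) + 1).factorial =
        (2 * n + 5) * ((2 * n + 4) * (2 * (n + 1) + 1).factorial) := by
      have : 2 * (n + 1 + 1) + 1 = (2 * (n + 1) + 1) + 1 + 1 := by ring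
      rw [this, Nat.factorial_succ, Nat.factorial_succ]
      ring_nf
    rw [h1]
    push_cast
    have h2 : (0 : ℝ) ≤ n := Nat.cast_nonneg n
    have h3 : (0 : ℝ) < ((2 * (n + 1) + 1).factorial : ℝ) := by
      exact_mod_cast Nat.factorial_pos _
    have h4 : (20 : ℝ) ≤ (2 * n + 5) * (2 * n + 4) := by nlinarith
    calc (6 : ℝ) * 20 ^ (n + 1) = 20 * (6 * 20 ^ n) := by ring
      _ ≤ 20 * ((2 * (n + 1) + 1).factorial : ℝ) := by linarith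
      _ ≤ (2 * n + 5) * (2 * n + 4) * ((2 * (n + 1) + 1).factorial : ℝ) :=
          mul_le_mul_of_nonneg_right h4 h3.le
      _ = (2 * n + 5) * ((2 * n + 4) * ((2 * (n + 1) + 1).factorial : ℝ)) := by ring

/-- DFB-2 (B3): elementary bounds for `sinh`. -/
theorem norm_sinh_sub_le {z : ℂ} (h : ‖z‖ ≤ 2) :
    ‖sinh z - z‖ ≤ ‖z‖ ^ 3 / 6 / (1 - ‖z‖ ^ 2 / 20) := by
  have h0 : 0 ≤ ‖z‖ := norm_nonneg z
  have h1 : HasSum (fun n : ℕ => z ^ (2 * (n + 1) + 1) / ((2 * (n + 1) + 1).factorial : ℂ))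
      (sinh z - z) := by
    have := (hasSum_nat_add_iff' (f := fun n : ℕ => z ^ (2 * n + 1) / ((2 * n + 1).factorial : ℂ))
      (g := sinh z) 1).2 (hasSum_sinh z)
    simpa using this
  have h2 : HasSum (fun n : ℕ => ‖z‖ ^ 3 / 6 * (‖z‖ ^ 2 / 20) ^ n)
      (‖z‖ ^ 3 / 6 * (1 - ‖z‖ ^ 2 / 20)⁻¹) :=
    (hasSum_geometric_of_lt_one (by positivity) (by nlinarith)).mul_left _
  rw [← h1.tsum_eq, div_eq_mul_inv _ (1 - ‖z‖ ^ 2 / 20)]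
  refine tsum_of_norm_bounded h2 fun n => ?_
  rw [norm_div, norm_pow, norm_natCast]
  have h3 := six_mul_pow_le_factorial n
  have h4 : (0 : ℝ) < 6 * 20 ^ n := by positivity
  calc ‖z‖ ^ (2 * (n + 1) + 1) / ((2 * (n + 1) + 1).factorial : ℝ)
      ≤ ‖z‖ ^ (2 * (n + 1) + 1) / (6 * 20 ^ n) :=
        div_le_div_of_nonneg_left (by positivity) h4 h3
    _ = ‖z‖ ^ 3 / 6 * (‖z‖ ^ 2 / 20) ^ n := by
        rw [div_pow, ← pow_mul]
        field_simp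
        ring

private theorem norm_sinh_sub_le' {z : ℂ} {R c : ℝ} (h : ‖z‖ ≤ R) (hR : R ≤ 2)
    (hc : R ^ 2 / 6 ≤ c * (1 - R ^ 2 / 20)) (hc0 : 0 ≤ c) : ‖sinh z - z‖ ≤ c * ‖z‖ := by
  have h0 : 0 ≤ ‖z‖ := norm_nonneg z
  have h1 := norm_sinh_sub_le (h.trans hR)
  refine h1.trans ?_
  have h2 : ‖z‖ ^ 2 ≤ R ^ 2 := pow_le_pow_left₀ h0 h 2
  have h3 : R ^ 2 ≤ 4 := by nlinarith
  rw [div_le_iff₀ (by nlinarith)]
  have h4 : ‖z‖ ^ 2 / 6 ≤ c * (1 - ‖z‖ ^ 2 / 20) := by nlinarith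
  nlinarith [mul_le_mul_of_nonneg_left h4 h0]

private theorem norm_sinh_ge' {z : ℂ} {R c : ℝ} (h : ‖z‖ ≤ R) (hR : R ≤ 2)
    (hc : R ^ 2 / 6 ≤ c * (1 - R ^ 2 / 20)) (hc0 : 0 ≤ c) : (1 - c) * ‖z‖ ≤ ‖sinh z‖ := by
  have h1 := norm_sinh_sub_le' h hR hc hc0
  have h2 : ‖z‖ ≤ ‖sinh z‖ + ‖sinh z - z‖ := by
    have := norm_sub_le (sinh z) (sinh z - z)
    simpa using this
  linarith

theorem inv_sinh_sub_inv_le {z : ℂ} (h0 : z ≠ 0) (h : ‖z‖ ≤ 51 / 100) :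
    ‖1 / sinh z - 1 / z‖ ≤ ‖z‖ / 5 := by
  have hz : 0 < ‖z‖ := norm_pos_iff.2 h0
  have h1 : (1 - 5 / 100) * ‖z‖ ≤ ‖sinh z‖ :=
    norm_sinh_ge' h (by norm_num) (by norm_num) (by norm_num)
  have h2 : 0 < ‖sinh z‖ := by nlinarith
  have h3 : sinh z ≠ 0 := norm_pos_iff.1 h2
  have h4 : ‖sinh z - z‖ ≤ 17 / 100 * ‖z‖ ^ 3 := by
    refine (norm_sinh_sub_le (h.trans (by norm_num))).trans ?_
    have h5 : ‖z‖ ^ 2 ≤ 2601 / 10000 := by nlinarith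
    rw [div_le_iff₀ (by nlinarith)]
    have h6 : 0 < ‖z‖ ^ 3 := by positivity
    nlinarith
  have h5 : 1 / sinh z - 1 / z = -(sinh z - z) / (sinh z * z) := by
    field_simp
    ring
  rw [h5, norm_div, norm_neg, norm_mul, div_le_iff₀ (by positivity)]
  have h6 : 0 < ‖z‖ ^ 2 := by positivity
  calc ‖sinh z - z‖ ≤ 17 / 100 * ‖z‖ ^ 3 := h4
    _ ≤ ‖z‖ ^ 2 / 5 * ((1 - 5 / 100) * ‖z‖) := by nlinarith [pow_pos hz 3]
    _ ≤ ‖z‖ ^ 2 / 5 * ‖sinh z‖ := mul_le_mul_of_nonneg_left h1 (by positivity)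
    _ = ‖z‖ / 5 * (‖sinh z‖ * ‖z‖) := by ring

theorem norm_sinh_ge_near {z : ℂ} (h : ‖z‖ ≤ 101 / 100) : 8 / 10 * ‖z‖ ≤ ‖sinh z‖ := by
  have := norm_sinh_ge' (c := 2 / 10) h (by norm_num) (by norm_num) (by norm_num)
  linarith

theorem norm_sinh_ge_mid {z : ℂ} (h : ‖z‖ ≤ 152 / 100) : 1 / 2 * ‖z‖ ≤ ‖sinh z‖ := by
  have := norm_sinh_ge' (c := 1 / 2) h (by norm_num) (by norm_num) (by norm_num)
  linarith

theorem norm_sinh_sq (x y : ℝ) :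
    ‖sinh ((x : ℂ) + y * I)‖ ^ 2 = Real.sinh x ^ 2 + Real.sin y ^ 2 := by
  have h1 : sinh ((x : ℂ) + y * I) =
      ((Real.sinh x * Real.cos y : ℝ) : ℂ) + ((Real.cosh x * Real.sin y : ℝ) : ℂ) * I := by
    rw [sinh_add, cosh_mul_I, sinh_mul_I]
    push_cast
    ring
  rw [h1, Complex.sq_norm, normSq_add_mul_I]
  have h2 := Real.cosh_sq x
  have h3 := Real.sin_sq_add_cos_sq y
  have h4 : Real.cos y ^ 2 = 1 - Real.sin y ^ 2 := by linarith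
  rw [mul_pow, mul_pow, h2, h4]
  ring

theorem norm_sinh_ge_re {z : ℂ} (h : 0 < z.re) : z.re ≤ ‖sinh z‖ := by
  have h1 := norm_sinh_sq z.re z.im
  rw [re_add_im] at h1
  have h2 : z.re ≤ Real.sinh z.re := Real.self_le_sinh_iff.2 h.le
  have h3 : Real.sinh z.re ^ 2 ≤ ‖sinh z‖ ^ 2 := by
    rw [h1]
    nlinarith [sq_nonneg (Real.sin z.im)]
  exact h2.trans (le_of_sq_le_sq h3 (norm_nonneg _))

end Pool.Agent.Lib.Durfee
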