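import Pool.Agent.Lib.MP_9393b1_co.OffS
import Pool.Agent.Lib.MP_9393b1_co.SmallLog
import Pool.Agent.Lib.MP_9393b1_co.SmallSinh

/-! # Regime S: far arcs -/

set_option autoImplicit false

namespace Pool.Agent.Lib.Durfee

open Complex MeasureTheory Filter Topology

variable {n k : ℕ} {w : ℝ}

private lemma farS_one_sub_sq_le {x : ℝ} (hx : 0 ≤ x) :
    Real.exp x - 1 - x ≤ x ^ 2 / 2 * Real.exp x := by
  have hmono : MonotoneOn (fun y : ℝ => (1 + y) * Real.exp (-y) - 1 + y ^ 2 / 2) (Set.Ici 0) := by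
    refine monotoneOn_of_deriv_nonneg (convex_Ici 0) (by fun_prop) (by fun_prop) ?_
    intro y hy
    rw [interior_Ici] at hy
    have hy0 : (0 : ℝ) < y := hy
    have hd : HasDerivAt (fun y : ℝ => (1 + y) * Real.exp (-y) - 1 + y ^ 2 / 2)
        (y * (1 - Real.exp (-y))) y := by
      have h1 : HasDerivAt (fun y : ℝ => Real.exp (-y)) (-Real.exp (-y)) y := by
        have := (hasDerivAt_id y).neg.exp
        simpa using this
      have h2 : HasDerivAt (fun y : ℝ => 1 + y) 1 y := by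
        simpa using (hasDerivAt_id y).const_add 1
      have h3 : HasDerivAt (fun y : ℝ => y ^ 2 / 2) y y := by
        have := (hasDerivAt_pow 2 y).div_const 2
        refine this.congr_deriv ?_
        norm_num
      have h4 := ((h2.mul h1).sub_const 1).add h3
      refine h4.congr_deriv ?_
      ring
    rw [hd.deriv]
    have : Real.exp (-y) ≤ 1 := Real.exp_le_one_iff.mpr (by linarith)
    nlinarith
  have h := hmono (Set.mem_Ici.mpr le_rfl) (Set.mem_Ici.mpr hx) hx
  simp only [add_zero, neg_zero, Real.exp_zero, mul_one, sub_self, ne_eq, OfNat.ofNat_ne_zero,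
    not_false_eq_true, zero_pow, zero_div] at h
  have hE : 0 < Real.exp x := Real.exp_pos x
  have h2 : 0 ≤ ((1 + x) * Real.exp (-x) - 1 + x ^ 2 / 2) * Real.exp x :=
    mul_nonneg h hE.le
  have h3 : Real.exp (-x) * Real.exp x = 1 := by rw [← Real.exp_add]; simp
  have h4 : ((1 + x) * Real.exp (-x) - 1 + x ^ 2 / 2) * Real.exp x =
      (1 + x) * (Real.exp (-x) * Real.exp x) - Real.exp x + x ^ 2 / 2 * Real.exp x := by ring
  rw [h4, h3] at h2
  linarith

private lemma farS_norm_exp_sub (z : ℂ) {Y : ℝ} (hz : ‖z‖ ≤ Y) :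
    ‖exp z - 1 - z‖ ≤ Y ^ 2 / 2 * Real.exp Y := by
  have h1 := Complex.norm_exp_sub_sum_le_exp_norm_sub_sum z 2
  simp [Finset.sum_range_succ] at h1
  have e : exp z - 1 - z = exp z - (1 + z) := by ring
  rw [e]
  refine h1.trans ?_
  have h0 := norm_nonneg z
  have h2 := farS_one_sub_sq_le h0
  have h3 : ‖z‖ ^ 2 ≤ Y ^ 2 := pow_le_pow_left₀ h0 hz 2
  have h4 : Real.exp ‖z‖ ≤ Real.exp Y := Real.exp_le_exp.mpr hz
  have h5 : ‖z‖ ^ 2 / 2 * Real.exp ‖z‖ ≤ Y ^ 2 / 2 * Real.exp Y :=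
    mul_le_mul (by linarith) h4 (Real.exp_pos _).le (by positivity)
  linarith

private lemma farS_norm_logTerm_le {w : ℝ} (hw : 0 < w) (θ : ℝ) (s : ℂ) (j : ℕ) :
    ‖logTerm w θ s j‖ ≤ w ^ (j + 1) / (((j : ℝ) + 1) * ‖sinh (((j : ℂ) + 1) * s / 2)‖) := by
  unfold logTerm
  rw [norm_div, norm_mul, norm_mul, norm_mul, norm_pow, norm_pow, norm_mul, norm_neg, norm_one,
    one_pow, one_mul, Complex.norm_I, one_mul, Complex.norm_real, Complex.norm_real,
    Real.norm_eq_abs, Real.norm_eq_abs, abs_of_pos hw]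
  have hj : ‖(j : ℂ) + 1‖ = (j : ℝ) + 1 := by
    have : (j : ℂ) + 1 = (((j : ℝ) + 1 : ℝ) : ℂ) := by push_cast; ring
    rw [this, Complex.norm_real, Real.norm_eq_abs, abs_of_pos (by positivity)]
  rw [hj]
  refine div_le_div_of_nonneg_right ?_ (by positivity)
  have := Real.abs_cos_le_one (((j : ℝ) + 1) * θ)
  have h2 : 0 ≤ w ^ (j + 1) := by positivity
  nlinarith

private lemma farS_continuous_logTerm (w : ℝ) (s : ℂ) (j : ℕ) :
    Continuous (fun θ : ℝ => logTerm w θ s j) := by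
  unfold logTerm
  refine Continuous.div_const ?_ _
  refine Continuous.mul continuous_const ?_
  exact Complex.continuous_ofReal.comp (Real.continuous_cos.comp (by fun_prop))

private lemma farS_integral_logTerm (w : ℝ) (s : ℂ) (j : ℕ) :
    ∫ θ in (-Real.pi)..Real.pi, logTerm w θ s j = 0 := by
  have e : ∀ θ : ℝ, logTerm w θ s j =
      ((-1) ^ j * (I * w) ^ (j + 1) / (((j : ℂ) + 1) * sinh (((j : ℂ) + 1) * s / 2))) *
        ((Real.cos (((j : ℝ) + 1) * θ) : ℝ) : ℂ) := by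
    intro θ
    unfold logTerm
    ring
  simp_rw [e]
  rw [intervalIntegral.integral_const_mul, intervalIntegral.integral_ofReal]
  have hj : ((j : ℝ) + 1) ≠ 0 := by positivity
  have h := intervalIntegral.integral_comp_mul_left (a := -Real.pi) (b := Real.pi)
    (fun x => Real.cos x) hj
  rw [h, integral_cos]
  have h1 : Real.sin (((j : ℝ) + 1) * Real.pi) = 0 := by
    have := Real.sin_nat_mul_pi (j + 1)
    push_cast at this
    exact this
  have h2 : Real.sin (((j : ℝ) + 1) * -Real.pi) = 0 := by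
    rw [mul_neg, Real.sin_neg, h1, neg_zero]
  rw [h1, h2]
  simp

/-- `|F - 1| ≤ ½ Ȳ² e^{Ȳ}` -/
theorem norm_FF_sub_one_le {w Y : ℝ} {s : ℂ} (hw0 : 0 < w) (hw1 : w < 1) (hs : 0 < s.re)
    (hY : ∀ J : ℕ, ∑ j ∈ Finset.range J, w ^ (j + 1) / (((j : ℝ) + 1) * ‖sinh (((j : ℂ) + 1) * s / 2)‖) ≤ Y) :
    ‖FF w s - 1‖ ≤ Y ^ 2 / 2 * Real.exp Y := by
  set a : ℕ → ℝ := fun j => w ^ (j + 1) / (((j : ℝ) + 1) * ‖sinh (((j : ℂ) + 1) * s / 2)‖) with ha
  have ha0 : ∀ j, 0 ≤ a j := fun j => by rw [ha]; positivity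
  have hsum : Summable a := summable_of_sum_range_le ha0 hY
  have htsum : ∑' j, a j ≤ Y := Real.tsum_le_of_sum_range_le ha0 hY
  have hle : ∀ (θ : ℝ) (j : ℕ), ‖logTerm w θ s j‖ ≤ a j := fun θ j => farS_norm_logTerm_le hw0 θ s j
  set L : ℝ → ℂ := fun θ => ∑' j : ℕ, logTerm w θ s j with hL
  have hLle : ∀ θ, ‖L θ‖ ≤ Y := by
    intro θ
    refine (tsum_of_norm_bounded hsum.hasSum (hle θ)).trans htsum
  have hLc : Continuous L :=
    continuous_tsum (fun j => farS_continuous_logTerm w s j) hsum (fun j θ => hle θ j)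
  have hLint : ∫ θ in (-Real.pi)..Real.pi, L θ = 0 := by
    have h := intervalIntegral.hasSum_integral_of_dominated_convergence (μ := volume)
      (a := -Real.pi) (b := Real.pi) (F := fun j θ => logTerm w θ s j) (f := L)
      (fun j _ => a j)
      (fun j => (farS_continuous_logTerm w s j).aestronglyMeasurable)
      (fun j => Filter.Eventually.of_forall fun θ _ => hle θ j)
      (Filter.Eventually.of_forall fun θ _ => hsum)
      (continuous_const.intervalIntegrable _ _)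
      (Filter.Eventually.of_forall fun θ _ => (PP_eq_exp_logSeries hw0 hw1 θ hs).1.hasSum)
    simp_rw [farS_integral_logTerm] at h
    exact h.unique hasSum_zero
  have hcont : Continuous (fun θ : ℝ => PP w θ s) := by
    have h := (continuous_PP w hs).comp
      (Continuous.prodMk continuous_id (continuous_const (y := s.im)))
    refine h.congr ?_
    intro θ
    simp only [Function.comp]
    congr 1
    exact Complex.re_add_im s
  have hint := integral_PP_eq w hs
  have hpi := Real.pi_pos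
  have hfun : ∫ θ in (-Real.pi)..Real.pi, (PP w θ s - 1 - L θ) = 2 * Real.pi * (FF w s - 1) := by
    rw [intervalIntegral.integral_sub, intervalIntegral.integral_sub, hint, hLint,
      intervalIntegral.integral_const]
    · rw [sub_zero, show Real.pi - -Real.pi = 2 * Real.pi by ring, Complex.real_smul]
      push_cast; ring
    · exact hcont.intervalIntegrable _ _
    · exact continuous_const.intervalIntegrable _ _
    · exact (hcont.sub continuous_const).intervalIntegrable _ _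
    · exact hLc.intervalIntegrable _ _
  have hfin := intervalIntegral.norm_integral_le_of_norm_le_const
    (a := -Real.pi) (b := Real.pi) (C := Y ^ 2 / 2 * Real.exp Y)
    (f := fun θ : ℝ => PP w θ s - 1 - L θ) (fun θ _ => by
      rw [(PP_eq_exp_logSeries hw0 hw1 θ hs).2]
      exact farS_norm_exp_sub (L θ) (hLle θ))
  rw [hfun, norm_mul, show Real.pi - -Real.pi = 2 * Real.pi by ring,
    abs_of_pos (by positivity : (0 : ℝ) < 2 * Real.pi)] at hfin
  have e2 : ‖(2 : ℂ) * (Real.pi : ℂ)‖ = 2 * Real.pi := by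
    rw [show (2 : ℂ) * (Real.pi : ℂ) = ((2 * Real.pi : ℝ) : ℂ) by push_cast; ring,
      Complex.norm_real, Real.norm_eq_abs, abs_of_pos (by positivity)]
  rw [e2, mul_comm (2 * Real.pi)] at hfin
  exact le_of_mul_le_mul_right hfin (by positivity)

/-- `w ≤ 1/10`: pointwise bound on the far arcs -/
theorem FF_far_S (H : HypS n k w) (hw : w ≤ 1 / 10) {β : ℝ} (h1 : 20 * sg n w ≤ β) (h2 : β ≤ Real.pi) :
    ‖FF w ((sg n w : ℂ) + β * I) - 1‖ ≤
      (w ^ 2 / Real.sin (β / 2) ^ 2 + (5 / 9 * (w ^ 2 / sg n w)) ^ 2) *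
        Real.exp (w / (10 * sg n w) + 5 / 9 * (w ^ 2 / sg n w)) := by
  have hw0 := H.hw0
  have hσ := H.sg_pos
  have hσ2 : sg n w ^ 2 ≤ 103 / 10 ^ 7 := by
    have hR := H.R_ge
    have ha := aa_sq_le_small H.hw0 H.hw1
    have hn : (0 : ℝ) < Real.sqrt n := by linarith
    have e : sg n w ^ 2 = aa w ^ 2 / Real.sqrt n ^ 2 := by
      unfold sg; rw [div_pow]
    rw [e, div_le_iff₀ (by positivity)]
    have h3 : (10 : ℝ) ^ 4 ≤ Real.sqrt n ^ 2 := by nlinarith
    nlinarith
  set σ : ℝ := sg n w with hσd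
  clear_value σ
  set s : ℂ := (σ : ℂ) + β * I with hsd
  have hsre : s.re = σ := by simp [hsd]
  have hpi := Real.pi_pos
  have hβ0 : 0 < β := by linarith
  have hS0 : 0 < Real.sin (β / 2) := Real.sin_pos_of_pos_of_lt_pi (by linarith) (by linarith)
  have hsq : ‖sinh (s / 2)‖ ^ 2 = Real.sinh (σ / 2) ^ 2 + Real.sin (β / 2) ^ 2 := by
    have e : s / 2 = ((σ / 2 : ℝ) : ℂ) + ((β / 2 : ℝ) : ℂ) * I := by
      rw [hsd]; push_cast; ring
    rw [e]; exact norm_sinh_sq (σ / 2) (β / 2)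
  have hA : Real.sin (β / 2) ≤ ‖sinh (s / 2)‖ := by
    have : Real.sin (β / 2) ^ 2 ≤ ‖sinh (s / 2)‖ ^ 2 := by
      rw [hsq]; nlinarith [sq_nonneg (Real.sinh (σ / 2))]
    exact le_of_sq_le_sq this (norm_nonneg _)
  have hσ3 : σ ≤ 1 / 100 := by
    by_contra hc
    push Not at hc
    nlinarith
  have hB : 10 * σ ≤ ‖sinh (s / 2)‖ := by
    have h3 : Real.sin (10 * σ) ≤ Real.sin (β / 2) :=
      Real.sin_le_sin_of_le_of_le_pi_div_two (by linarith) (by linarith) (by linarith)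
    have h4 := Real.sin_gt_sub_cube (x := 10 * σ) (by linarith)
    have h5 : σ / 2 ≤ Real.sinh (σ / 2) := Real.self_le_sinh_iff.mpr (by linarith)
    have h6 : 10 * σ * (1 - 25 * σ ^ 2) ≤ Real.sin (β / 2) := by
      have : 10 * σ - (10 * σ) ^ 3 / 6 = 10 * σ * (1 - 25 * σ ^ 2) + 250 / 3 * (σ ^ 2 * σ) := by ring
      have h0 : 0 ≤ 250 / 3 * (σ ^ 2 * σ) := by positivity
      linarith
    have h7 : 0 ≤ 10 * σ * (1 - 25 * σ ^ 2) := by
      have : 0 ≤ 1 - 25 * σ ^ 2 := by nlinarith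
      positivity
    have h8 : (10 * σ * (1 - 25 * σ ^ 2)) ^ 2 ≤ Real.sin (β / 2) ^ 2 := pow_le_pow_left₀ h7 h6 2
    have h9 : (σ / 2) ^ 2 ≤ Real.sinh (σ / 2) ^ 2 := pow_le_pow_left₀ (by linarith) h5 2
    have h10 : (10 * σ) ^ 2 ≤ ‖sinh (s / 2)‖ ^ 2 := by
      rw [hsq]
      have e1 : (10 * σ * (1 - 25 * σ ^ 2)) ^ 2 =
          100 * σ ^ 2 - 5000 * σ ^ 2 * σ ^ 2 + 62500 * (σ ^ 2) ^ 3 := by ring
      have e2 : 0 ≤ (σ ^ 2) ^ 3 := by positivity
      have e3 : 0 ≤ σ ^ 2 := sq_nonneg σ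
      have e4 : σ ^ 2 * σ ^ 2 ≤ 103 / 10 ^ 7 * σ ^ 2 := mul_le_mul_of_nonneg_right hσ2 e3
      nlinarith
    exact le_of_sq_le_sq h10 (norm_nonneg _)
  have hN0 : 0 < ‖sinh (s / 2)‖ := lt_of_lt_of_le hS0 hA
  set Y1 : ℝ := w / ‖sinh (s / 2)‖ with hY1
  set Y2 : ℝ := 5 / 9 * (w ^ 2 / σ) with hY2
  have hY10 : 0 ≤ Y1 := by positivity
  have hY20 : 0 ≤ Y2 := by positivity
  have hY1a : Y1 ≤ w / Real.sin (β / 2) := div_le_div_of_nonneg_left hw0.le hS0 hA
  have hY1b : Y1 ≤ w / (10 * σ) := div_le_div_of_nonneg_left hw0.le (by positivity) hB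
  have hmain := norm_FF_sub_one_le (w := w) (Y := Y1 + Y2) (s := s) hw0 (by linarith)
    (by rw [hsre]; exact hσ) (by
      intro J
      cases J with
      | zero => simp; positivity
      | succ J =>
        rw [Finset.sum_range_succ']
        have e0 : w ^ (0 + 1) / ((((0 : ℕ) : ℝ) + 1) * ‖sinh ((((0 : ℕ) : ℂ) + 1) * s / 2)‖) = Y1 := by
          simp [hY1]
        rw [e0, add_comm Y1 Y2]
        refine add_le_add ?_ le_rfl
        have hterm : ∀ j ∈ Finset.range J, w ^ (j + 1 + 1) /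
            ((((j + 1 : ℕ) : ℝ) + 1) * ‖sinh ((((j + 1 : ℕ) : ℂ) + 1) * s / 2)‖) ≤
            w ^ 2 / (2 * σ) * w ^ j := by
          intro j _
          have hz : ((((j + 1 : ℕ) : ℂ) + 1) * s / 2).re = ((j : ℝ) + 2) * σ / 2 := by
            have : (((j + 1 : ℕ) : ℂ) + 1) * s / 2 = ((((j : ℝ) + 2) / 2 : ℝ) : ℂ) * s := by
              push_cast; ring
            rw [this, Complex.re_ofReal_mul, hsre]; ring
          have hge := norm_sinh_ge_re (z := (((j + 1 : ℕ) : ℂ) + 1) * s / 2)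
            (by rw [hz]; positivity)
          rw [hz] at hge
          have hj : ((j + 1 : ℕ) : ℝ) + 1 = (j : ℝ) + 2 := by push_cast; ring
          rw [hj]
          have h3 : 2 * σ ≤ ((j : ℝ) + 2) * ‖sinh ((((j + 1 : ℕ) : ℂ) + 1) * s / 2)‖ := by
            have h4 : ((j : ℝ) + 2) * (((j : ℝ) + 2) * σ / 2) ≤
                ((j : ℝ) + 2) * ‖sinh ((((j + 1 : ℕ) : ℂ) + 1) * s / 2)‖ :=
              mul_le_mul_of_nonneg_left hge (by positivity)
            have h5 : 0 ≤ (j : ℝ) ^ 2 * σ := by positivity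
            have h6 : 0 ≤ (j : ℝ) * σ := by positivity
            nlinarith
          calc w ^ (j + 1 + 1) / (((j : ℝ) + 2) * ‖sinh ((((j + 1 : ℕ) : ℂ) + 1) * s / 2)‖)
              ≤ w ^ (j + 1 + 1) / (2 * σ) :=
                div_le_div_of_nonneg_left (by positivity) (by positivity) h3
            _ = w ^ 2 / (2 * σ) * w ^ j := by
                rw [show j + 1 + 1 = 2 + j by ring, pow_add]; ring
        refine (Finset.sum_le_sum hterm).trans ?_
        rw [← Finset.mul_sum]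
        have hgeo : ∑ j ∈ Finset.range J, w ^ j ≤ (1 - w)⁻¹ := by
          have hs' := summable_geometric_of_lt_one hw0.le (by linarith : w < 1)
          rw [← tsum_geometric_of_lt_one hw0.le (by linarith : w < 1)]
          exact hs'.sum_le_tsum _ (fun j _ => by positivity)
        have hinv : (1 - w)⁻¹ ≤ 10 / 9 := by
          rw [inv_le_comm₀ (by linarith) (by norm_num)]
          norm_num; linarith
        have h3 : 0 ≤ w ^ 2 / (2 * σ) := by positivity
        have h4 : w ^ 2 / (2 * σ) * (10 / 9) = Y2 := by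
          rw [hY2]; field_simp; ring
        rw [← h4]
        exact mul_le_mul_of_nonneg_left (hgeo.trans hinv) h3)
  refine hmain.trans ?_
  have h3 : (Y1 + Y2) ^ 2 / 2 ≤ w ^ 2 / Real.sin (β / 2) ^ 2 + Y2 ^ 2 := by
    have h4 : Y1 ^ 2 ≤ w ^ 2 / Real.sin (β / 2) ^ 2 := by
      rw [← div_pow]; exact pow_le_pow_left₀ hY10 hY1a 2
    nlinarith [sq_nonneg (Y1 - Y2)]
  have h5 : Real.exp (Y1 + Y2) ≤ Real.exp (w / (10 * σ) + Y2) :=
    Real.exp_le_exp.mpr (by linarith)
  exact mul_le_mul h3 h5 (Real.exp_pos _).le (by positivity)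

end Pool.Agent.Lib.Durfee
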