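import Pool.Agent.Lib.MP_9393b1_co.FarS

/-! # Regime S: far arcs, integrated -/

set_option autoImplicit false

namespace Pool.Agent.Lib.Durfee

open Complex MeasureTheory Filter Topology

variable {n k : ℕ} {w : ℝ}

/-- `x^m e^{-k x}` decreases for `k x ≥ m`. -/
private lemma farSB_decr (m : ℕ) {k x₀ x : ℝ} (hx₀ : 0 < x₀) (hx : x₀ ≤ x) (hk : (m : ℝ) ≤ k * x₀) :
    x ^ m * Real.exp (-(k * x)) ≤ x₀ ^ m * Real.exp (-(k * x₀)) := by
  have h1 : x / x₀ ≤ Real.exp (x / x₀ - 1) := by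
    have := Real.add_one_le_exp (x / x₀ - 1)
    linarith
  have h2 : x ^ m ≤ x₀ ^ m * Real.exp (m * (x / x₀ - 1)) := by
    rw [Real.exp_nat_mul, ← mul_pow]
    refine pow_le_pow_left₀ (by linarith) ?_ m
    calc x = x₀ * (x / x₀) := by field_simp
      _ ≤ _ := mul_le_mul_of_nonneg_left h1 hx₀.le
  calc x ^ m * Real.exp (-(k * x))
      ≤ (x₀ ^ m * Real.exp (m * (x / x₀ - 1))) * Real.exp (-(k * x)) :=
        mul_le_mul_of_nonneg_right h2 (Real.exp_pos _).le
    _ = x₀ ^ m * Real.exp (m * (x / x₀ - 1) + -(k * x)) := by rw [mul_assoc, ← Real.exp_add]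
    _ ≤ _ := by
        refine mul_le_mul_of_nonneg_left (Real.exp_le_exp.mpr ?_) (by positivity)
        have h3 : x / x₀ - 1 = (x - x₀) / x₀ := by field_simp
        rw [h3, ← mul_div_assoc]
        have h4 : (m : ℝ) * (x - x₀) / x₀ ≤ k * (x - x₀) := by
          rw [div_le_iff₀ hx₀]
          nlinarith
        linarith

private lemma farSB_n_pos (H : HypS n k w) : (0 : ℝ) < n := by
  have h := H.hn
  have h2 : 0 < n := lt_of_lt_of_le (by norm_num) h
  exact_mod_cast h2

private lemma farSB_exp_le_Mamp (H : HypS n k w) :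
    Real.exp (2 * PPn n w) ≤ Mamp n w * (Real.sqrt 2 * (Real.pi * n)) := by
  have hn := farSB_n_pos H
  have hpi := Real.pi_pos
  have h1 := norm_gam_le_VV H.hw0 H.hw1
  have hg : 0 < ‖gam w‖ := by
    rw [norm_gam w H.hw0]
    have := H.hw0
    positivity
  have h2 : 1 / 2 ≤ ‖VV w‖ / (2 * ‖gam w‖) := by
    rw [div_le_div_iff₀ (by norm_num) (by positivity)]
    linarith
  have h3 : Real.sqrt (1 / 2) ≤ Real.sqrt (‖VV w‖ / (2 * ‖gam w‖)) := Real.sqrt_le_sqrt h2
  have h4 : Real.sqrt (1 / 2) * Real.sqrt 2 = 1 := by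
    rw [← Real.sqrt_mul (by norm_num)]
    norm_num
  have h5 : 1 ≤ Real.sqrt (‖VV w‖ / (2 * ‖gam w‖)) * Real.sqrt 2 := by
    rw [← h4]
    exact mul_le_mul_of_nonneg_right h3 (Real.sqrt_nonneg _)
  unfold Mamp
  calc Real.exp (2 * PPn n w) = Real.exp (2 * PPn n w) * 1 := by ring
    _ ≤ Real.exp (2 * PPn n w) * (Real.sqrt (‖VV w‖ / (2 * ‖gam w‖)) * Real.sqrt 2) :=
        mul_le_mul_of_nonneg_left h5 (Real.exp_pos _).le
    _ = _ := by
        field_simp

private lemma farSB_Mamp_nonneg (n : ℕ) (w : ℝ) : 0 ≤ Mamp n w := by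
  unfold Mamp
  have := Real.pi_pos
  positivity

private lemma farSB_n_sg (H : HypS n k w) : (n : ℝ) * sg n w = PPn n w := by
  have hn := farSB_n_pos H
  have hR : 0 < Real.sqrt n := Real.sqrt_pos.2 hn
  unfold sg PPn
  rw [mul_div_assoc']
  rw [div_eq_iff hR.ne']
  have := Real.mul_self_sqrt hn.le
  calc (n : ℝ) * aa w = (Real.sqrt n * Real.sqrt n) * aa w := by rw [this]
    _ = _ := by ring

private lemma farSB_norm_exp (H : HypS n k w) (β : ℝ) :
    ‖exp (n * ((sg n w : ℂ) + β * I))‖ = Real.exp (PPn n w) := by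
  rw [Complex.norm_exp, ← farSB_n_sg H]
  congr 1
  simp

private lemma farSB_norm_FF_le (H : HypS n k w) {β y : ℝ} (hβ : 0 < β) (hβπ : β ≤ Real.pi)
    (hy : -(gapinf w / sg n w) + Z1 w (sg n w) β ≤ -y) :
    ‖FF w ((sg n w : ℂ) + β * I)‖ ≤ Real.exp (PPn n w) * Real.exp (-y) := by
  have hσ := H.sg_pos
  have hpi := Real.pi_pos
  have hn1 : 1 ≤ n := le_trans (by norm_num) H.hn
  have hs : ss (sg n w) (β / sg n w) = (sg n w : ℂ) + β * I := by
    unfold ss
    have : sg n w * (β / sg n w) = β := by field_simp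
    rw [this]
  have hZ := Z1_nonneg_of_le_one (β := β) H.hw0 H.hw1 hσ hβ hβπ
  have hpt : ∀ θ : ℝ, ‖PP w θ ((sg n w : ℂ) + β * I)‖ ≤ Real.exp (PPn n w) * Real.exp (-y) := by
    intro θ
    have h1 := NP_le_gen (n := n) (w := w) hn1 H.hw0 θ (β / sg n w)
    unfold NP at h1
    rw [hs] at h1
    have hmul : sg n w * (β / sg n w) = β := by field_simp
    rw [hmul] at h1
    have h2 : Real.exp (-(gapinf w / sg n w) + Real.cos θ * Z1 w (sg n w) β) ≤
        Real.exp (-y) := by
      refine Real.exp_le_exp.2 ?_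
      have : Real.cos θ * Z1 w (sg n w) β ≤ 1 * Z1 w (sg n w) β :=
        mul_le_mul_of_nonneg_right (Real.cos_le_one θ) hZ
      linarith
    have h3 := h1.trans h2
    have h4 : Real.exp (PPn n w) * (Real.exp (-PPn n w) * ‖PP w θ ((sg n w : ℂ) + β * I)‖) =
        ‖PP w θ ((sg n w : ℂ) + β * I)‖ := by
      rw [← mul_assoc, ← Real.exp_add]
      simp
    rw [← h4]
    exact mul_le_mul_of_nonneg_left h3 (Real.exp_pos _).le
  have hre : 0 < ((sg n w : ℂ) + β * I).re := by simpa using hσ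
  have h5 := integral_PP_eq w hre
  have h6 : ‖∫ θ in (-Real.pi)..Real.pi, PP w θ ((sg n w : ℂ) + β * I)‖ ≤
      (Real.exp (PPn n w) * Real.exp (-y)) * |Real.pi - -Real.pi| :=
    intervalIntegral.norm_integral_le_of_norm_le_const fun θ _ => hpt θ
  rw [h5, norm_mul, norm_mul, Complex.norm_real, Real.norm_eq_abs, abs_of_pos hpi] at h6
  have h7 : |Real.pi - -Real.pi| = 2 * Real.pi := by
    rw [abs_of_pos (by linarith)]; ring
  rw [h7] at h6
  have h8 : ‖(2 : ℂ)‖ = 2 := by norm_num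
  rw [h8] at h6
  have h9 : 0 < 2 * Real.pi := by positivity
  nlinarith [h6]

private lemma farSB_exp17 : Real.exp (-17) ≤ 4142 / 10 ^ 11 := by
  rw [Real.exp_neg, inv_le_comm₀ (Real.exp_pos _) (by norm_num)]
  have h : (2.71828 : ℝ) ^ 17 ≤ Real.exp 17 := by
    have := Real.exp_one_pow 17
    push_cast at this
    rw [← this]
    exact pow_le_pow_left₀ (by norm_num) (by linarith [Real.exp_one_gt_d9]) 17
  refine le_trans ?_ h
  norm_num

/-- common estimate: the integral over the far arc is at most `e^{2P - y}` -/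
private lemma farSB_large (H : HypS n k w) {y : ℝ}
    (hy : ∀ β : ℝ, 8 * sg n w ≤ β → β ≤ Real.pi →
      -(gapinf w / sg n w) + Z1 w (sg n w) β ≤ -y) :
    |1 / Real.pi * ∫ β in (sg n w * 8)..Real.pi,
      (exp (n * ((sg n w : ℂ) + β * I)) * FF w ((sg n w : ℂ) + β * I)).re| ≤
      Mamp n w * (Real.sqrt 2 * (Real.pi * n) * Real.exp (-y)) := by
  have hσ := H.sg_pos
  have hσ2 := H.sg_le
  have hpi := Real.pi_pos
  have hpi3 := Real.pi_gt_three
  have hle : sg n w * 8 ≤ Real.pi := by linarith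
  have h1 : ‖∫ β in (sg n w * 8)..Real.pi,
      (exp (n * ((sg n w : ℂ) + β * I)) * FF w ((sg n w : ℂ) + β * I)).re‖ ≤
      (Real.exp (PPn n w) * (Real.exp (PPn n w) * Real.exp (-y))) * |Real.pi - sg n w * 8| := by
    refine intervalIntegral.norm_integral_le_of_norm_le_const fun β hβ => ?_
    rw [Set.uIoc_of_le hle] at hβ
    have hβ0 : 0 < β := by linarith [hβ.1]
    rw [Real.norm_eq_abs]
    refine (Complex.abs_re_le_norm _).trans ?_
    rw [norm_mul, farSB_norm_exp H]
    exact mul_le_mul_of_nonneg_left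
      (farSB_norm_FF_le H hβ0 hβ.2 (hy β (by linarith [hβ.1]) hβ.2)) (Real.exp_pos _).le
  have h2 : |Real.pi - sg n w * 8| ≤ Real.pi := by
    rw [abs_of_nonneg (by linarith)]; linarith
  rw [abs_mul, abs_of_pos (by positivity : (0 : ℝ) < 1 / Real.pi)]
  rw [Real.norm_eq_abs] at h1
  have h3 := farSB_exp_le_Mamp H
  have h4 : Real.exp (2 * PPn n w) = Real.exp (PPn n w) * Real.exp (PPn n w) := by
    rw [← Real.exp_add]; congr 1; ring
  calc 1 / Real.pi * _ ≤ 1 / Real.pi *
        ((Real.exp (PPn n w) * (Real.exp (PPn n w) * Real.exp (-y))) * Real.pi) := by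
        refine mul_le_mul_of_nonneg_left (h1.trans ?_) (by positivity)
        exact mul_le_mul_of_nonneg_left h2 (by positivity)
    _ = Real.exp (2 * PPn n w) * Real.exp (-y) := by
        rw [h4]; field_simp
    _ ≤ (Mamp n w * (Real.sqrt 2 * (Real.pi * n))) * Real.exp (-y) :=
        mul_le_mul_of_nonneg_right h3 (Real.exp_pos _).le
    _ = _ := by ring

private lemma farSB_num {y A : ℝ} (hy : 17 ≤ y) (hA0 : 0 ≤ A) (hA : A ≤ 9183 / 100 * y ^ 2) :
    Real.sqrt 2 * (Real.pi * A) * Real.exp (-y) ≤ 5 / 1000 := by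
  have h1 := farSB_decr 2 (k := 1) (x₀ := 17) (x := y) (by norm_num) hy (by norm_num)
  rw [one_mul, one_mul] at h1
  have h2 := farSB_exp17
  have hs : Real.sqrt 2 ≤ 141422 / 100000 := by
    rw [Real.sqrt_le_left (by norm_num)]; norm_num
  have hs0 := Real.sqrt_nonneg (2 : ℝ)
  have hpi := Real.pi_pos
  have hpi4 := Real.pi_lt_d4
  have h3 : Real.sqrt 2 * Real.pi ≤ 44430 / 10000 := by
    calc Real.sqrt 2 * Real.pi ≤ 141422 / 100000 * 3.1416 := by
          refine mul_le_mul hs hpi4.le hpi.le (by norm_num)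
      _ ≤ _ := by norm_num
  calc Real.sqrt 2 * (Real.pi * A) * Real.exp (-y) = (Real.sqrt 2 * Real.pi) * (A * Real.exp (-y)) := by
        ring
    _ ≤ 44430 / 10000 * ((9183 / 100 * y ^ 2) * Real.exp (-y)) := by
        refine mul_le_mul h3 (mul_le_mul_of_nonneg_right hA (Real.exp_pos _).le)
          (by positivity) (by norm_num)
    _ = 44430 / 10000 * (9183 / 100) * (y ^ 2 * Real.exp (-y)) := by ring
    _ ≤ 44430 / 10000 * (9183 / 100) * (17 ^ 2 * (4142 / 10 ^ 11)) := by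
        refine mul_le_mul_of_nonneg_left (h1.trans ?_) (by norm_num)
        exact mul_le_mul_of_nonneg_left h2 (by norm_num)
    _ ≤ 5 / 1000 := by norm_num

theorem far_large_S (H : HypS n k w) (hw : 1 / 10 ≤ w) :
    |1 / Real.pi * ∫ β in (sg n w * 8)..Real.pi,
      (exp (n * ((sg n w : ℂ) + β * I)) * FF w ((sg n w : ℂ) + β * I)).re| ≤
      Mamp n w * (5 / 1000) := by
  have hσ := H.sg_pos
  have hσ2 : sg n w ≤ 1 / 50 := by linarith [H.sg_le]
  have hn := farSB_n_pos H
  have hP := H.P_ge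
  have hnw := H.n_mul_w_le
  have hM := farSB_Mamp_nonneg n w
  rcases le_total w (1 / 2) with h | h
  · obtain ⟨hy17, hyP⟩ := y8_ge H hw h
    refine (farSB_large H (y := (gapinf w - 1 / 4 * w) / sg n w) fun β h1 h2 => ?_).trans ?_
    · have := Z1_le_eight H.hw0 hσ hσ2 h1 h2
      have e : -((gapinf w - 1 / 4 * w) / sg n w) = -(gapinf w / sg n w) + 1 / 4 * (w / sg n w) := by
        ring
      linarith
    · set y := (gapinf w - 1 / 4 * w) / sg n w with hy
      refine mul_le_mul_of_nonneg_left ?_ hM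
      refine farSB_num hy17 hn.le ?_
      have h1 : (n : ℝ) * (1 / 10) ≤ PPn n w ^ 2 :=
        (mul_le_mul_of_nonneg_left hw hn.le).trans hnw
      have h2 : (33 / 100 * PPn n w) ^ 2 ≤ y ^ 2 :=
        pow_le_pow_left₀ (by linarith) hyP 2
      nlinarith
  · obtain ⟨hy17, hyP⟩ := y8_ge' H h
    refine (farSB_large H (y := (gapinf w - 501 / 1000 * (w / (1 + w) ^ 2)) / sg n w)
      fun β h1 h2 => ?_).trans ?_
    · have := Z1_le_eight' H.hw0 H.hw1 hσ hσ2 h1 h2
      have e : -((gapinf w - 501 / 1000 * (w / (1 + w) ^ 2)) / sg n w) =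
          -(gapinf w / sg n w) + 501 / 1000 * (w / ((1 + w) ^ 2 * sg n w)) := by
        have : 0 < 1 + w := by linarith
        field_simp
        ring
      linarith
    · set y := (gapinf w - 501 / 1000 * (w / (1 + w) ^ 2)) / sg n w with hy
      refine mul_le_mul_of_nonneg_left ?_ hM
      refine farSB_num hy17 hn.le ?_
      have h1 : (n : ℝ) * (1 / 2) ≤ PPn n w ^ 2 :=
        (mul_le_mul_of_nonneg_left h hn.le).trans hnw
      have h2 : (19 / 100 * PPn n w) ^ 2 ≤ y ^ 2 :=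
        pow_le_pow_left₀ (by linarith) hyP 2
      nlinarith

private lemma farSB_exp145 : Real.exp (-(29 / 2)) ≤ 50506 / 10 ^ 11 := by
  have h : (2.7182 : ℝ) ^ 29 ≤ Real.exp 29 := by
    have := Real.exp_one_pow 29
    push_cast at this
    rw [← this]
    exact pow_le_pow_left₀ (by norm_num) (by linarith [Real.exp_one_gt_d9]) 29
  have h2 : Real.exp 29 = Real.exp (29 / 2) ^ 2 := by
    rw [← Real.exp_nat_mul]; congr 1; norm_num
  have h3 : (1980000 : ℝ) ≤ Real.exp (29 / 2) := by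
    refine le_of_sq_le_sq ?_ (Real.exp_pos _).le
    rw [← h2]
    refine le_trans ?_ h
    norm_num
  rw [Real.exp_neg, inv_le_comm₀ (Real.exp_pos _) (by norm_num)]
  refine le_trans ?_ h3
  norm_num

private lemma farSB_num2 {P : ℝ} (hP : 1727 / 100 ≤ P) :
    Real.sqrt 2 * (Real.exp (-P) + (P ^ 3 / 5 + 97 / 1000 * P ^ 4) * Real.exp (-(38 / 45 * P))) ≤
      7 / 1000 := by
  have hs : Real.sqrt 2 ≤ 141422 / 100000 := by
    rw [Real.sqrt_le_left (by norm_num)]; norm_num
  have h3 := farSB_decr 3 (k := 38 / 45) (x₀ := 1727 / 100) (x := P) (by norm_num) hP (by norm_num)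
  have h4 := farSB_decr 4 (k := 38 / 45) (x₀ := 1727 / 100) (x := P) (by norm_num) hP (by norm_num)
  have h5 : Real.exp (-(38 / 45 * (1727 / 100))) ≤ 50506 / 10 ^ 11 :=
    (Real.exp_le_exp.2 (by norm_num)).trans farSB_exp145
  have h6 : Real.exp (-P) ≤ 4142 / 10 ^ 11 :=
    (Real.exp_le_exp.2 (by linarith)).trans farSB_exp17
  have h7 : P ^ 3 * Real.exp (-(38 / 45 * P)) ≤ (1727 / 100) ^ 3 * (50506 / 10 ^ 11) :=
    h3.trans (mul_le_mul_of_nonneg_left h5 (by norm_num))
  have h8 : P ^ 4 * Real.exp (-(38 / 45 * P)) ≤ (1727 / 100) ^ 4 * (50506 / 10 ^ 11) :=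
    h4.trans (mul_le_mul_of_nonneg_left h5 (by norm_num))
  have h9 : Real.exp (-P) + (P ^ 3 / 5 + 97 / 1000 * P ^ 4) * Real.exp (-(38 / 45 * P)) ≤
      4142 / 10 ^ 11 + (1 / 5 * ((1727 / 100) ^ 3 * (50506 / 10 ^ 11)) +
        97 / 1000 * ((1727 / 100) ^ 4 * (50506 / 10 ^ 11))) := by
    have e : (P ^ 3 / 5 + 97 / 1000 * P ^ 4) * Real.exp (-(38 / 45 * P)) =
        1 / 5 * (P ^ 3 * Real.exp (-(38 / 45 * P))) +
          97 / 1000 * (P ^ 4 * Real.exp (-(38 / 45 * P))) := by ring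
    rw [e]
    linarith
  have hP0 : 0 ≤ P := by linarith
  calc Real.sqrt 2 * (Real.exp (-P) + (P ^ 3 / 5 + 97 / 1000 * P ^ 4) *
        Real.exp (-(38 / 45 * P))) ≤ 141422 / 100000 * (4142 / 10 ^ 11 + (1 / 5 * ((1727 / 100) ^ 3 * (50506 / 10 ^ 11)) +
        97 / 1000 * ((1727 / 100) ^ 4 * (50506 / 10 ^ 11)))) := by
        refine mul_le_mul hs h9 (by positivity) (by norm_num)
    _ ≤ 7 / 1000 := by norm_num

/-- `∫ cos (n β)` -/
private lemma farSB_cos (H : HypS n k w) (a : ℝ) :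
    |∫ β in a..Real.pi, Real.cos (n * β)| ≤ 1 / n := by
  have hn := farSB_n_pos H
  have h1 : ∫ β in a..Real.pi, Real.cos (n * β) =
      Real.sin (n * Real.pi) / n - Real.sin (n * a) / n := by
    refine intervalIntegral.integral_eq_sub_of_hasDerivAt
      (f := fun β : ℝ => Real.sin (n * β) / n) (fun β _ => ?_) ?_
    · have h2 : HasDerivAt (fun β : ℝ => (n : ℝ) * β) ((n : ℝ) * 1) β :=
        (hasDerivAt_id β).const_mul _
      have h3 := (h2.sin).div_const (n : ℝ)
      refine h3.congr_deriv ?_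
      field_simp
    · exact (by fun_prop : Continuous fun β : ℝ => Real.cos (n * β)).intervalIntegrable _ _
  rw [h1, Real.sin_nat_mul_pi, zero_div, zero_sub, abs_neg, abs_div, abs_of_pos hn]
  exact div_le_div_of_nonneg_right (Real.abs_sin_le_one _) hn.le

/-- the integral of `w²/sin² + D` -/
private lemma farSB_int (H : HypS n k w) {D : ℝ} (hD : 0 ≤ D) :
    IntervalIntegrable (fun β : ℝ => w ^ 2 / Real.sin (β / 2) ^ 2 + D) volume
      (sg n w * 20) Real.pi ∧
    ∫ β in (sg n w * 20)..Real.pi, (w ^ 2 / Real.sin (β / 2) ^ 2 + D) ≤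
      w ^ 2 / (5 * sg n w) + Real.pi * D := by
  have hσ := H.sg_pos
  have hσ2 := H.sg_le
  have hpi := Real.pi_pos
  have hpi3 := Real.pi_gt_three
  have hle : sg n w * 20 ≤ Real.pi := by linarith
  have hsin : ∀ β ∈ Set.Icc (sg n w * 20) Real.pi, 0 < Real.sin (β / 2) := by
    intro β hβ
    exact Real.sin_pos_of_pos_of_lt_pi (by linarith [hβ.1]) (by linarith [hβ.2])
  have hcont : ContinuousOn (fun β : ℝ => w ^ 2 / Real.sin (β / 2) ^ 2 + D)
      (Set.Icc (sg n w * 20) Real.pi) := by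
    refine ContinuousOn.add (ContinuousOn.div (by fun_prop) (by fun_prop) fun β hβ => ?_)
      continuousOn_const
    exact pow_ne_zero 2 (hsin β hβ).ne'
  have hii : IntervalIntegrable (fun β : ℝ => w ^ 2 / Real.sin (β / 2) ^ 2 + D) volume
      (sg n w * 20) Real.pi := by
    refine ContinuousOn.intervalIntegrable ?_
    rwa [Set.uIcc_of_le hle]
  refine ⟨hii, ?_⟩
  have h1 : ∫ β in (sg n w * 20)..Real.pi, (w ^ 2 / Real.sin (β / 2) ^ 2 + D) =
      (-(2 * w ^ 2) * (Real.cos (Real.pi / 2) / Real.sin (Real.pi / 2)) + D * Real.pi) -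
      (-(2 * w ^ 2) * (Real.cos (sg n w * 20 / 2) / Real.sin (sg n w * 20 / 2)) +
        D * (sg n w * 20)) := by
    refine intervalIntegral.integral_eq_sub_of_hasDerivAt
      (f := fun β : ℝ => -(2 * w ^ 2) * (Real.cos (β / 2) / Real.sin (β / 2)) + D * β)
      (fun β hβ => ?_) hii
    rw [Set.uIcc_of_le hle] at hβ
    have hs := hsin β hβ
    have h2 : HasDerivAt (fun β : ℝ => β / 2) (1 / 2) β := (hasDerivAt_id β).div_const 2
    have h3 := (h2.cos).div (h2.sin) hs.ne'
    have h4 := (h3.const_mul (-(2 * w ^ 2))).add ((hasDerivAt_id β).const_mul D)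
    refine h4.congr_deriv ?_
    have h5 := Real.sin_sq_add_cos_sq (β / 2)
    field_simp
    nlinarith [h5]
  rw [h1, Real.cos_pi_div_two, Real.sin_pi_div_two]
  have hx0 : 0 < sg n w * 20 / 2 := by linarith
  have hx1 : sg n w * 20 / 2 < Real.pi / 2 := by linarith
  have h6 := Real.lt_tan hx0 hx1
  have hs : 0 < Real.sin (sg n w * 20 / 2) :=
    Real.sin_pos_of_pos_of_lt_pi hx0 (by linarith)
  have hc : 0 < Real.cos (sg n w * 20 / 2) :=
    Real.cos_pos_of_mem_Ioo ⟨by linarith, hx1⟩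
  have h7 : Real.cos (sg n w * 20 / 2) / Real.sin (sg n w * 20 / 2) ≤ 1 / (sg n w * 20 / 2) := by
    rw [div_le_div_iff₀ hs hx0]
    rw [Real.tan_eq_sin_div_cos, lt_div_iff₀ hc] at h6
    linarith
  have h8 : 2 * w ^ 2 * (Real.cos (sg n w * 20 / 2) / Real.sin (sg n w * 20 / 2)) ≤
      2 * w ^ 2 * (1 / (sg n w * 20 / 2)) := mul_le_mul_of_nonneg_left h7 (by positivity)
  have h9 : 2 * w ^ 2 * (1 / (sg n w * 20 / 2)) = w ^ 2 / (5 * sg n w) := by
    field_simp
    ring
  rw [h9] at h8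
  have h10 : 0 ≤ D * (sg n w * 20) := by positivity
  rw [zero_div, mul_zero, zero_add]
  linarith

theorem far_small_S (H : HypS n k w) (hw : w ≤ 1 / 10) :
    |1 / Real.pi * ∫ β in (sg n w * 20)..Real.pi,
      (exp (n * ((sg n w : ℂ) + β * I)) * FF w ((sg n w : ℂ) + β * I)).re| ≤
      Mamp n w * (7 / 1000) := by
  have hσ := H.sg_pos
  have hσ2 := H.sg_le
  have hn := farSB_n_pos H
  have hP := H.P_ge
  have hnw := H.n_mul_w_le
  have hM := farSB_Mamp_nonneg n w
  have hpi := Real.pi_pos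
  have hpi3 := Real.pi_gt_three
  have hpi4 := Real.pi_lt_d4
  have hw0 := H.hw0
  have hle : sg n w * 20 ≤ Real.pi := by linarith
  set σ := sg n w with hσdef
  set P := PPn n w with hPdef
  have hP0 : 0 < P := by linarith
  -- splitting
  set E : ℝ → ℂ := fun β => exp (n * ((σ : ℂ) + β * I)) with hE
  have hEc : Continuous E := by rw [hE]; fun_prop
  have hFc := continuous_FF w hσ
  have hsplit : ∫ β in (σ * 20)..Real.pi, (E β * FF w ((σ : ℂ) + β * I)).re =
      (∫ β in (σ * 20)..Real.pi, (E β * (FF w ((σ : ℂ) + β * I) - 1)).re) +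
      ∫ β in (σ * 20)..Real.pi, (E β).re := by
    rw [← intervalIntegral.integral_add]
    · refine intervalIntegral.integral_congr fun β _ => ?_
      rw [← Complex.add_re]
      congr 1
      ring
    · exact (Complex.continuous_re.comp (hEc.mul (hFc.sub continuous_const))).intervalIntegrable _ _
    · exact (Complex.continuous_re.comp hEc).intervalIntegrable _ _
  -- second part
  have hEre : ∀ β : ℝ, (E β).re = Real.exp P * Real.cos (n * β) := by
    intro β
    rw [hE]
    simp only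
    rw [Complex.exp_re]
    have h1 : ((n : ℂ) * ((σ : ℂ) + β * I)).re = P := by
      rw [hPdef, ← farSB_n_sg H]
      simp [hσdef]
    have h2 : ((n : ℂ) * ((σ : ℂ) + β * I)).im = n * β := by
      simp
    rw [h1, h2]
  have hpart2 : |∫ β in (σ * 20)..Real.pi, (E β).re| ≤ Real.exp P * (1 / n) := by
    simp_rw [hEre]
    rw [intervalIntegral.integral_const_mul, abs_mul, abs_of_pos (Real.exp_pos _)]
    exact mul_le_mul_of_nonneg_left (farSB_cos H _) (Real.exp_pos _).le
  -- first part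
  set C : ℝ := Real.exp (w / (10 * σ) + 5 / 9 * (w ^ 2 / σ)) with hC
  set D : ℝ := (5 / 9 * (w ^ 2 / σ)) ^ 2 with hD
  obtain ⟨hi1, hi2⟩ := farSB_int H (D := D) (by positivity)
  have hpart1 : |∫ β in (σ * 20)..Real.pi, (E β * (FF w ((σ : ℂ) + β * I) - 1)).re| ≤
      Real.exp P * C * (w ^ 2 / (5 * σ) + Real.pi * D) := by
    have h1 : ‖∫ β in (σ * 20)..Real.pi, (E β * (FF w ((σ : ℂ) + β * I) - 1)).re‖ ≤
        ∫ β in (σ * 20)..Real.pi, Real.exp P * C * (w ^ 2 / Real.sin (β / 2) ^ 2 + D) := by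
      refine intervalIntegral.norm_integral_le_of_norm_le hle
        (Eventually.of_forall fun β hβ => ?_) (hi1.const_mul _)
      rw [Real.norm_eq_abs]
      refine (Complex.abs_re_le_norm _).trans ?_
      rw [norm_mul]
      have h2 : ‖E β‖ = Real.exp P := farSB_norm_exp H β
      rw [h2, mul_assoc]
      refine mul_le_mul_of_nonneg_left ?_ (Real.exp_pos _).le
      rw [mul_comm C]
      exact FF_far_S H hw (by rw [← hσdef]; linarith [hβ.1]) hβ.2
    rw [Real.norm_eq_abs, intervalIntegral.integral_const_mul] at h1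
    exact h1.trans (mul_le_mul_of_nonneg_left hi2 (by positivity))
  -- total
  have hle1 := H.le_sg_div_w
  rw [← hσdef, ← hPdef] at hle1
  have hwσ : w / σ ≤ P := by
    rw [div_le_iff₀ hσ]
    have : 1 * w ≤ σ / w * P * w := mul_le_mul_of_nonneg_right hle1 hw0.le
    have e : σ / w * P * w = P * σ := by field_simp
    linarith
  have hwσ0 : 0 ≤ w / σ := by positivity
  have hCle : C ≤ Real.exp (7 / 45 * P) := by
    refine Real.exp_le_exp.2 ?_
    have e1 : w / (10 * σ) = 1 / 10 * (w / σ) := by field_simp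
    have e2 : 5 / 9 * (w ^ 2 / σ) = 5 / 9 * w * (w / σ) := by field_simp
    rw [e1, e2]
    have : 5 / 9 * w * (w / σ) ≤ 5 / 9 * (1 / 10) * P := by
      refine mul_le_mul (by linarith) hwσ hwσ0 (by norm_num)
    linarith
  have hbr : (n : ℝ) * (w ^ 2 / (5 * σ) + Real.pi * D) ≤ P ^ 3 / 5 + 97 / 1000 * P ^ 4 := by
    have e1 : (n : ℝ) * (w ^ 2 / (5 * σ)) = 1 / 5 * ((n * w) * (w / σ)) := by field_simp
    have e2 : (n : ℝ) * (Real.pi * D) = Real.pi * (25 / 81) * (((n * w) * w) * (w / σ) ^ 2) := by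
      rw [hD]
      field_simp
      ring
    have h1 : (n * w) * (w / σ) ≤ P ^ 2 * P :=
      mul_le_mul hnw hwσ hwσ0 (by positivity)
    have h2 : ((n * w) * w) * (w / σ) ^ 2 ≤ (P ^ 2 * (1 / 10)) * P ^ 2 := by
      refine mul_le_mul (mul_le_mul hnw hw hw0.le (by positivity))
        (pow_le_pow_left₀ hwσ0 hwσ 2) (by positivity) (by positivity)
    have h3 : Real.pi * (25 / 81) * (((n * w) * w) * (w / σ) ^ 2) ≤
        (3.1416 * (25 / 81)) * ((P ^ 2 * (1 / 10)) * P ^ 2) := by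
      refine mul_le_mul ?_ h2 (by positivity) (by norm_num)
      exact mul_le_mul_of_nonneg_right hpi4.le (by norm_num)
    rw [mul_add, e1, e2]
    have h4 : (3.1416 * (25 / 81)) * ((P ^ 2 * (1 / 10)) * P ^ 2) ≤ 97 / 1000 * P ^ 4 := by
      have : 0 ≤ P ^ 4 := by positivity
      nlinarith
    nlinarith
  have h2P := farSB_exp_le_Mamp H
  rw [← hPdef] at h2P
  have hexp : Real.exp P = Real.exp (2 * P) * Real.exp (-P) := by
    rw [← Real.exp_add]; congr 1; ring
  have hMs : 0 ≤ Mamp n w * Real.sqrt 2 := mul_nonneg hM (Real.sqrt_nonneg _)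
  -- first piece
  have hp1 : 1 / Real.pi * |∫ β in (σ * 20)..Real.pi, (E β * (FF w ((σ : ℂ) + β * I) - 1)).re| ≤
      Mamp n w * Real.sqrt 2 * ((P ^ 3 / 5 + 97 / 1000 * P ^ 4) * Real.exp (-(38 / 45 * P))) := by
    calc _ ≤ 1 / Real.pi * (Real.exp P * C * (w ^ 2 / (5 * σ) + Real.pi * D)) :=
          mul_le_mul_of_nonneg_left hpart1 (by positivity)
      _ = Real.exp (2 * P) * (1 / Real.pi * Real.exp (-P) * C *
            (w ^ 2 / (5 * σ) + Real.pi * D)) := by rw [hexp]; ring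
      _ ≤ (Mamp n w * (Real.sqrt 2 * (Real.pi * n))) * (1 / Real.pi * Real.exp (-P) * C *
            (w ^ 2 / (5 * σ) + Real.pi * D)) := by
          refine mul_le_mul_of_nonneg_right h2P ?_
          have : 0 < C := Real.exp_pos _
          positivity
      _ = Mamp n w * Real.sqrt 2 * ((n * (w ^ 2 / (5 * σ) + Real.pi * D)) *
            (C * Real.exp (-P))) := by
          field_simp
      _ ≤ Mamp n w * Real.sqrt 2 * ((P ^ 3 / 5 + 97 / 1000 * P ^ 4) *
            (Real.exp (7 / 45 * P) * Real.exp (-P))) := by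
          refine mul_le_mul_of_nonneg_left ?_ hMs
          refine mul_le_mul hbr (mul_le_mul_of_nonneg_right hCle (Real.exp_pos _).le) ?_ ?_
          · have : 0 < C := Real.exp_pos _
            positivity
          · positivity
      _ = _ := by
          rw [← Real.exp_add]
          congr 3
          ring
  have hp2 : 1 / Real.pi * |∫ β in (σ * 20)..Real.pi, (E β).re| ≤
      Mamp n w * Real.sqrt 2 * Real.exp (-P) := by
    calc _ ≤ 1 / Real.pi * (Real.exp P * (1 / n)) :=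
          mul_le_mul_of_nonneg_left hpart2 (by positivity)
      _ = Real.exp (2 * P) * (1 / Real.pi * Real.exp (-P) * (1 / n)) := by rw [hexp]; ring
      _ ≤ (Mamp n w * (Real.sqrt 2 * (Real.pi * n))) *
            (1 / Real.pi * Real.exp (-P) * (1 / n)) :=
          mul_le_mul_of_nonneg_right h2P (by positivity)
      _ = _ := by
          field_simp
  change |1 / Real.pi * ∫ β in (σ * 20)..Real.pi, (E β * FF w ((σ : ℂ) + β * I)).re| ≤ _
  rw [hsplit, abs_mul, abs_of_pos (by positivity : (0 : ℝ) < 1 / Real.pi)]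
  calc _ ≤ 1 / Real.pi * (|∫ β in (σ * 20)..Real.pi, (E β * (FF w ((σ : ℂ) + β * I) - 1)).re| +
        |∫ β in (σ * 20)..Real.pi, (E β).re|) :=
        mul_le_mul_of_nonneg_left (abs_add_le _ _) (by positivity)
    _ ≤ Mamp n w * Real.sqrt 2 * ((P ^ 3 / 5 + 97 / 1000 * P ^ 4) * Real.exp (-(38 / 45 * P))) +
        Mamp n w * Real.sqrt 2 * Real.exp (-P) := by
        rw [mul_add]; exact add_le_add hp1 hp2
    _ = Mamp n w * (Real.sqrt 2 * (Real.exp (-P) + (P ^ 3 / 5 + 97 / 1000 * P ^ 4) *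
        Real.exp (-(38 / 45 * P)))) := by ring
    _ ≤ Mamp n w * (7 / 1000) := mul_le_mul_of_nonneg_left (farSB_num2 hP) hM

end Pool.Agent.Lib.Durfee
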