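import Pool.Agent.Lib.MP_9393b1_co.ModB

/-! # Regime M: numerical bound of the model error -/

set_option autoImplicit false

namespace Pool.Agent.Lib.Durfee

open Complex MeasureTheory Filter Topology

variable {n : ℕ} {w : ℝ}

/-! ### the kernel `(1+τ²)^{-3/4}` -/

private lemma mc_two_rpow : (2 : ℝ) ^ ((3 : ℝ) / 4) ≤ 17 / 10 := by
  have h : ((2 : ℝ) ^ ((3 : ℝ) / 4)) ^ 4 ≤ (17 / 10 : ℝ) ^ 4 := by
    rw [← Real.rpow_natCast, ← Real.rpow_mul (by norm_num)]
    norm_num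
  exact le_of_pow_le_pow_left₀ (by norm_num) (by norm_num) h

private lemma mc_kernel {x : ℝ} (hx : 0 ≤ x) :
    (1 + x ^ 2) ^ (-(3 / 4) : ℝ) ≤ 17 / 10 * (1 + x) ^ (-(3 / 2) : ℝ) := by
  have h1 : (0 : ℝ) < 1 + x ^ 2 := by positivity
  have h2 : (0 : ℝ) < 1 + x := by positivity
  have h3 : (1 + x) ^ ((3 : ℝ) / 2) ≤ 17 / 10 * (1 + x ^ 2) ^ ((3 : ℝ) / 4) := by
    have e1 : (1 + x) ^ ((3 : ℝ) / 2) = ((1 + x) ^ 2) ^ ((3 : ℝ) / 4) := by
      rw [← Real.rpow_natCast, ← Real.rpow_mul h2.le]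
      norm_num
    rw [e1]
    calc ((1 + x) ^ 2) ^ ((3 : ℝ) / 4) ≤ (2 * (1 + x ^ 2)) ^ ((3 : ℝ) / 4) := by
          apply Real.rpow_le_rpow (by positivity) _ (by norm_num)
          nlinarith [sq_nonneg (x - 1)]
      _ = (2 : ℝ) ^ ((3 : ℝ) / 4) * (1 + x ^ 2) ^ ((3 : ℝ) / 4) := by
          rw [Real.mul_rpow (by norm_num) h1.le]
      _ ≤ _ := by
          apply mul_le_mul_of_nonneg_right mc_two_rpow (by positivity)
  rw [Real.rpow_neg h1.le, Real.rpow_neg h2.le]
  have h4 : 0 < (1 + x ^ 2) ^ ((3 : ℝ) / 4) := by positivity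
  have h5 : 0 < (1 + x) ^ ((3 : ℝ) / 2) := by positivity
  rw [← div_eq_mul_inv, le_div_iff₀ h5, inv_mul_le_iff₀ h4]
  linarith

private lemma mc_deriv (x : ℝ) (hx : 0 ≤ x) :
    HasDerivAt (fun x : ℝ => -(2 * (1 + x) ^ (-(1 / 2) : ℝ))) ((1 + x) ^ (-(3 / 2) : ℝ)) x := by
  have h2 : (0 : ℝ) < 1 + x := by positivity
  have h : HasDerivAt (fun x : ℝ => -(2 * (1 + x) ^ (-(1 / 2) : ℝ)))
      (-(2 * (1 * (-(1 / 2) : ℝ) * (1 + x) ^ (-(1 / 2) - 1 : ℝ)))) x :=
    ((((hasDerivAt_id x).const_add 1).rpow_const (p := (-(1 / 2) : ℝ))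
      (Or.inl h2.ne')).const_mul 2).neg
  refine h.congr_deriv ?_
  rw [show (-(1 / 2) - 1 : ℝ) = -(3 / 2) by norm_num]
  ring

private lemma mc_tendsto :
    Tendsto (fun x : ℝ => -(2 * (1 + x) ^ (-(1 / 2) : ℝ))) atTop (𝓝 0) := by
  have h : Tendsto (fun x : ℝ => (1 + x) ^ (-(1 / 2) : ℝ)) atTop (𝓝 0) :=
    (tendsto_rpow_neg_atTop (y := 1 / 2) (by norm_num)).comp
      (tendsto_atTop_add_const_left _ 1 tendsto_id)
  simpa using (h.const_mul 2).neg

private lemma mc_int {c : ℝ} (hc : 0 ≤ c) :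
    IntegrableOn (fun x : ℝ => (1 + x) ^ (-(3 / 2) : ℝ)) (Set.Ioi c) :=
  integrableOn_Ioi_deriv_of_nonneg' (fun x hx => mc_deriv x (hc.trans hx))
    (fun x hx => by
      have : (0 : ℝ) ≤ x := hc.trans (le_of_lt hx)
      positivity) mc_tendsto

private lemma mc_integral {c : ℝ} (hc : 0 ≤ c) :
    ∫ x in Set.Ioi c, (1 + x) ^ (-(3 / 2) : ℝ) ≤ 2 := by
  rw [integral_Ioi_of_hasDerivAt_of_nonneg' (fun x hx => mc_deriv x (hc.trans hx))
    (fun x hx => by
      have : (0 : ℝ) ≤ x := hc.trans (le_of_lt hx)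
      positivity) mc_tendsto]
  have h : (1 + c) ^ (-(1 / 2) : ℝ) ≤ 1 :=
    Real.rpow_le_one_of_one_le_of_nonpos (by linarith) (by norm_num)
  linarith

private lemma mc_tail {c C : ℝ} {g : ℝ → ℝ} (hc : 0 ≤ c) (hC : 0 ≤ C)
    (h0 : ∀ x, c < x → 0 ≤ g x) (h1 : ∀ x, c < x → g x ≤ C) :
    ∫ x in Set.Ioi c, (1 + x ^ 2) ^ (-(3 / 4) : ℝ) * g x ≤ 17 / 5 * C := by
  have h2 : ∫ x in Set.Ioi c, (1 + x ^ 2) ^ (-(3 / 4) : ℝ) * g x ≤
      ∫ x in Set.Ioi c, 17 / 10 * C * (1 + x) ^ (-(3 / 2) : ℝ) := by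
    apply integral_mono_of_nonneg
    · refine (ae_restrict_iff' measurableSet_Ioi).2 (Eventually.of_forall fun x hx => ?_)
      have := h0 x hx
      simp only [Pi.zero_apply]
      positivity
    · exact (mc_int hc).const_mul _
    · refine (ae_restrict_iff' measurableSet_Ioi).2 (Eventually.of_forall fun x hx => ?_)
      have hx' : c < x := hx
      have hx0 : 0 ≤ x := hc.trans hx'.le
      have := h0 x hx'
      have h3 := h1 x hx'
      have h4 := mc_kernel hx0
      calc (1 + x ^ 2) ^ (-(3 / 4) : ℝ) * g x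
          ≤ (17 / 10 * (1 + x) ^ (-(3 / 2) : ℝ)) * C :=
            mul_le_mul h4 h3 this (by positivity)
        _ = _ := by ring
  rw [integral_const_mul] at h2
  have h5 := mc_integral hc
  have h6 : 17 / 10 * C * ∫ x in Set.Ioi c, (1 + x) ^ (-(3 / 2) : ℝ) ≤ 17 / 10 * C * 2 :=
    mul_le_mul_of_nonneg_left h5 (by positivity)
  linarith

/-! ### numerics -/

private lemma mc_exp_ten : Real.exp (-10) ≤ 1 / 20000 := by
  rw [Real.exp_neg, ← one_div]
  apply one_div_le_one_div_of_le (by norm_num)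
  have h := Real.exp_one_gt_d9
  have h1 : Real.exp 10 = Real.exp 1 ^ 10 := by
    rw [← Real.exp_nat_mul]
    norm_num
  rw [h1]
  calc (20000 : ℝ) ≤ (2.7 : ℝ) ^ 10 := by norm_num
    _ ≤ Real.exp 1 ^ 10 := pow_le_pow_left₀ (by norm_num) (by linarith) _

private lemma mc_exp_58 : Real.exp (-(58 / 10)) ≤ 1 / 300 := by
  rw [Real.exp_neg, ← one_div]
  apply one_div_le_one_div_of_le (by norm_num)
  have h := Real.exp_one_gt_d9
  have h1 : Real.exp (58 / 10) = Real.exp 1 ^ 5 * Real.exp (8 / 10) := by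
    rw [← Real.exp_nat_mul, ← Real.exp_add]
    norm_num
  have h2 : (2.12 : ℝ) ≤ Real.exp (8 / 10) := by
    have := Real.quadratic_le_exp_of_nonneg (x := 8 / 10) (by norm_num)
    norm_num at this ⊢
    linarith
  rw [h1]
  calc (300 : ℝ) ≤ (2.718 : ℝ) ^ 5 * 2.12 := by norm_num
    _ ≤ Real.exp 1 ^ 5 * Real.exp (8 / 10) :=
      mul_le_mul (pow_le_pow_left₀ (by norm_num) (by linarith) _) h2 (by norm_num) (by positivity)

/-- `z e^{-z} ≤ e^{-10}` for `z ≥ 14` -/
private lemma mc_z_exp {z : ℝ} (hz : 14 ≤ z) : z * Real.exp (-z) ≤ Real.exp (-10) := by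
  have h1 : z ≤ Real.exp (z / 4) := by
    have h2 : Real.exp (z / 4) = Real.exp (z / 4 - 2) * Real.exp 2 := by
      rw [← Real.exp_add]
      congr 1
      ring
    have h3 := Real.add_one_le_exp (z / 4 - 2)
    have h4 : (7 : ℝ) ≤ Real.exp 2 := by
      have h := Real.exp_one_gt_d9
      have h1 : Real.exp 2 = Real.exp 1 ^ 2 := by
        rw [← Real.exp_nat_mul]
        norm_num
      rw [h1]
      nlinarith
    rw [h2]
    nlinarith
  calc z * Real.exp (-z) ≤ Real.exp (z / 4) * Real.exp (-z) :=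
        mul_le_mul_of_nonneg_right h1 (Real.exp_pos _).le
    _ = Real.exp (-(3 * z / 4)) := by
        rw [← Real.exp_add]
        congr 1
        ring
    _ ≤ Real.exp (-10) := by
        apply Real.exp_le_exp.2
        linarith

private lemma mc_G {z X J : ℝ} (hz : 14 ≤ z) (hX : X ≤ 25 * z ^ 2)
    (hJ : J ≤ 17 / 5 * Real.exp (-z)) : Real.sqrt X * J ≤ 1 / 1000 := by
  have h1 : Real.sqrt X ≤ 5 * z := by
    rw [show (5 * z) = Real.sqrt ((5 * z) ^ 2) by rw [Real.sqrt_sq (by linarith)]]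
    apply Real.sqrt_le_sqrt
    linarith [hX, show (5 * z) ^ 2 = 25 * z ^ 2 by ring]
  have h2 := mc_z_exp hz
  have h3 := mc_exp_ten
  calc Real.sqrt X * J ≤ Real.sqrt X * (17 / 5 * Real.exp (-z)) :=
        mul_le_mul_of_nonneg_left hJ (Real.sqrt_nonneg _)
    _ ≤ (5 * z) * (17 / 5 * Real.exp (-z)) :=
        mul_le_mul_of_nonneg_right h1 (by positivity)
    _ = 17 * (z * Real.exp (-z)) := by ring
    _ ≤ _ := by linarith

private lemma mc_pi_lo : (3.1415 : ℝ) < Real.pi := by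
  have := Real.pi_gt_d4
  linarith

private lemma mc_pi_hi : Real.pi < (3.1416 : ℝ) := Real.pi_lt_d4

private lemma mc_pisq_hi : Real.pi ^ 2 < (9.8697 : ℝ) := by
  nlinarith [mc_pi_lo, mc_pi_hi]

/-! ### basic quantities -/

private lemma mc_VI_ge (hw : 1 ≤ w) : 16 / 9 ≤ VI w := by
  have hw0 : 0 < w := by linarith
  have h1 := VI_inv hw0
  set x : ℝ := 1 / w with hx
  have hx0 : 0 < x := by positivity
  have hx1 : x ≤ 1 := by
    rw [hx, div_le_one hw0]
    exact hw
  have h2 := le_VI hx0.le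
  have h3 := Real.one_sub_inv_le_log_of_pos hw0
  have h4 : w⁻¹ = x := by rw [hx, one_div]
  rw [h4] at h3
  have h5 : x ^ 3 ≤ x := by
    nlinarith [mul_nonneg hx0.le (sub_nonneg.2 hx1), mul_nonneg (mul_nonneg hx0.le hx0.le) (sub_nonneg.2 hx1)]
  have h6 : 3.1415 * (1 - x) ≤ Real.pi * Real.log w := by
    have := mc_pi_lo
    have h7 : 0 ≤ Real.log w := Real.log_nonneg hw
    have h8 : 0 ≤ 1 - x := by linarith
    nlinarith
  linarith

private lemma mc_VI_ge_pi (hw : 1 ≤ w) : Real.pi * Real.log w ≤ VI w := by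
  have hw0 : 0 < w := by linarith
  have h1 := VI_inv hw0
  have h2 := VI_pos (w := 1 / w) (by positivity)
  linarith

private lemma mc_ts_eq (hw : 0 < w) : ts w * (2 * aa w ^ 2) = VI w := by
  have ha := aa_pos hw
  have h := two_aa_bb hw
  unfold ts
  rw [← h]
  field_simp

private lemma mc_asq (hw : 1 ≤ w) : aa w ^ 2 ≤ Real.log w ^ 2 + 3.29 := by
  have h1 := U_le_large hw
  have h2 := mc_pisq_hi
  linarith

private lemma mc_pref (H : HypM n w) :
    ‖VV w‖ / (Real.pi * sg n w) = (1 + ts w ^ 2) * PPn n w / Real.pi := by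
  have hw : 0 < w := by linarith [H.hw]
  have ha := aa_pos hw
  have hR : 0 < Real.sqrt n := by linarith [H.R_ge]
  have hp := Real.pi_pos
  unfold ts sg PPn
  rw [norm_VV hw]
  field_simp

private lemma mc_PP (H : HypM n w) : 106 ≤ PPn n w := by
  have h1 := H.R_ge
  have h2 := aa_ge_one H.hw
  unfold PPn
  nlinarith

private lemma mc_Ew_nonneg (n : ℕ) (w τ : ℝ) : 0 ≤ Ew n w τ := (Real.exp_pos _).le

/-- `1 + a²/b² ≤ 75 z`. -/
private lemma mc_ts_lower (H : HypM n w) :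
    1 + ts w ^ 2 ≤ 75 * (PPn n w * ts w ^ 2) * ts w ^ 2 := by
  have hw1 := H.hw
  have hw : 0 < w := by linarith
  have hL := H.log_nonneg
  have hz := P_ts_sq_ge H
  have ht := ts_pos H
  have ht1 := ts_le H
  have ha := aa_ge_one hw1
  have hts := mc_ts_eq hw
  have hU := mc_asq hw1
  have hV1 := mc_VI_ge hw1
  have hV2 := mc_VI_ge_pi hw1
  have hpi := mc_pi_lo
  set t := ts w with ht_def
  set L := Real.log w with hL_def
  set z := PPn n w * t ^ 2 with hz_def
  rcases le_total L 7 with h7 | h7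
  · -- need `t² ≥ 1/1049·(1+t²)`, it suffices `t ≥ 0.04`
    have h3 : 4 / 100 ≤ t := by
      rcases le_total L 1 with h1 | h1
      · by_contra hcon
        push Not at hcon
        have : t * (2 * aa w ^ 2) ≤ 4 / 100 * (2 * (1 + 3.29)) := by
          apply mul_le_mul hcon.le _ (by positivity) (by norm_num)
          nlinarith
        linarith
      · by_contra hcon
        push Not at hcon
        have h5 : t * (2 * aa w ^ 2) ≤ 4 / 100 * (2 * (L ^ 2 + 3.29)) := by
          apply mul_le_mul hcon.le _ (by positivity) (by norm_num)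
          linarith
        nlinarith
    have h4 : 75 * 14 * t ^ 2 ≤ 75 * z * t ^ 2 := by
      have := sq_nonneg t
      nlinarith
    nlinarith
  · -- `z ≥ 0.122 L² b²`, `b ≥ 1.5`
    have hy := H.inv_sg_ge_sq h7
    have hapos : 0 < aa w := aa_pos hw
    have hR : 0 < Real.sqrt n := by linarith [H.R_ge]
    have hz' : z = 1 / sg n w * bb w ^ 2 := by
      rw [hz_def, ht_def]
      unfold ts sg PPn
      field_simp
    have hb0 := bb_pos hw
    have hb : 3 / 2 ≤ bb w := by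
      have h2 := two_aa_bb hw
      by_contra hcon
      push Not at hcon
      have h5 : 3.1415 * L < 3 * aa w := by nlinarith
      have h6 : (3.1415 * L) ^ 2 < (3 * aa w) ^ 2 := by
        apply pow_lt_pow_left₀ h5 (by positivity) (by norm_num)
      nlinarith
    have hz2 : 0.27 * L ^ 2 ≤ z := by
      rw [hz']
      have h8 : (9 : ℝ) / 4 ≤ bb w ^ 2 := by nlinarith
      have h9 : 122 / 1000 * L ^ 2 * (9 / 4) ≤ 1 / sg n w * bb w ^ 2 :=
        mul_le_mul hy h8 (by norm_num) (by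
          have := H.sg_pos
          positivity)
      nlinarith [sq_nonneg L]
    -- `t = VI/(2a²) ≥ πL/(2(L²+3.29)) ≥ 1.4/L`
    have h10 : 7 / 5 ≤ t * L := by
      by_contra hcon
      push Not at hcon
      have hL0 : 0 < L := by linarith
      have h11 : t * (2 * aa w ^ 2) * L ≤ 7 / 5 * (2 * (L ^ 2 + 3.29)) := by
        calc t * (2 * aa w ^ 2) * L = (t * L) * (2 * aa w ^ 2) := by ring
          _ ≤ 7 / 5 * (2 * (L ^ 2 + 3.29)) := by
            apply mul_le_mul hcon.le _ (by positivity) (by norm_num)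
            linarith
      have h12 : 3.1415 * L * L ≤ VI w * L := by
        apply mul_le_mul_of_nonneg_right _ hL0.le
        nlinarith
      rw [hts] at h11
      nlinarith
    have h13 : (7 / 5) ^ 2 ≤ L ^ 2 * t ^ 2 := by
      have : (7 / 5 : ℝ) ^ 2 ≤ (t * L) ^ 2 := pow_le_pow_left₀ (by norm_num) h10 _
      nlinarith
    have h14 : 75 * (0.27 * L ^ 2) * t ^ 2 ≤ 75 * z * t ^ 2 := by
      have := sq_nonneg t
      nlinarith
    nlinarith

theorem left_tail (H : HypM n w) :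
    Real.sqrt (‖VV w‖ / (Real.pi * sg n w)) *
      (∫ τ in Set.Iic (0 : ℝ), (1 + τ ^ 2) ^ (-(3 / 4) : ℝ) * Ew n w τ) ≤ 1 / 1000 := by
  have hz := P_ts_sq_ge H
  have ht := ts_pos H
  have ht1 := ts_le H
  have hP := mc_PP H
  have hlow := mc_ts_lower H
  rw [mc_pref H]
  have hI : ∫ τ in Set.Iic (0 : ℝ), (1 + τ ^ 2) ^ (-(3 / 4) : ℝ) * Ew n w τ =
      ∫ τ in Set.Ioi (0 : ℝ), (1 + τ ^ 2) ^ (-(3 / 4) : ℝ) * Ew n w (-τ) := by
    have h := integral_comp_neg_Iic (0 : ℝ)
      (fun τ : ℝ => (1 + τ ^ 2) ^ (-(3 / 4) : ℝ) * Ew n w (-τ))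
    simp only [neg_neg, neg_sq, neg_zero] at h
    exact h
  rw [hI]
  refine mc_G hz ?_ (mc_tail le_rfl (Real.exp_pos _).le (fun x _ => mc_Ew_nonneg _ _ _) ?_)
  · -- X ≤ 25 z²
    have h1 : (1 + ts w ^ 2) * PPn n w ≤ 75 * (PPn n w * ts w ^ 2) ^ 2 := by
      have := mul_le_mul_of_nonneg_right hlow (show 0 ≤ PPn n w by linarith)
      nlinarith
    rw [div_le_iff₀ Real.pi_pos]
    have h3 := Real.pi_gt_three
    nlinarith [sq_nonneg (PPn n w * ts w ^ 2)]
  · intro x hx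
    have hx0 : 0 < x := hx
    unfold Ew
    apply Real.exp_le_exp.2
    apply neg_le_neg
    rw [mul_div_assoc]
    apply mul_le_mul_of_nonneg_left _ (by linarith)
    rw [le_div_iff₀ (by positivity)]
    have h5 : ts w ^ 2 ≤ 1 := by nlinarith
    nlinarith [mul_nonneg (sq_nonneg x) (sub_nonneg.2 h5), mul_pos hx0 ht]

/-- `(τ-t)²/(1+τ²)` is increasing for `τ ≥ t ≥ 0` -/
private lemma mc_phi_mono {t T τ : ℝ} (ht : 0 ≤ t) (h1 : t ≤ T) (h2 : T ≤ τ) :
    (T - t) ^ 2 / (1 + T ^ 2) ≤ (τ - t) ^ 2 / (1 + τ ^ 2) := by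
  rw [div_le_div_iff₀ (by positivity) (by positivity)]
  obtain ⟨u, hu⟩ : ∃ u, T = t + u := ⟨T - t, by ring⟩
  obtain ⟨v, hv⟩ : ∃ v, τ = t + u + v := ⟨τ - (t + u), by ring⟩
  have hu0 : 0 ≤ u := by linarith
  have hv0 : 0 ≤ v := by linarith
  subst hu hv
  have h3 : (t + u - t) ^ 2 * (1 + (t + u + v) ^ 2) =
      u ^ 2 + (u * (t + u + v)) ^ 2 := by ring
  have h4 : (t + u + v - t) ^ 2 * (1 + (t + u) ^ 2) = (u + v) ^ 2 + ((u + v) * (t + u)) ^ 2 := by
    ring
  rw [h3, h4]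
  have h5 : u * (t + u + v) ≤ (u + v) * (t + u) := by nlinarith [mul_nonneg hv0 ht]
  have h6 : 0 ≤ u * (t + u + v) := by positivity
  nlinarith [pow_le_pow_left₀ h6 h5 2]

private lemma mc_Ew_le (H : HypM n w) (hd : ts w ≤ TT w) {τ : ℝ} (hτ : TT w < τ) :
    Ew n w τ ≤ Real.exp (-(PPn n w * (TT w - ts w) ^ 2 / (1 + TT w ^ 2))) := by
  have hP := mc_PP H
  have ht := ts_pos H
  unfold Ew
  apply Real.exp_le_exp.2
  apply neg_le_neg
  rw [mul_div_assoc, mul_div_assoc]
  exact mul_le_mul_of_nonneg_left (mc_phi_mono ht.le hd hτ.le) (by linarith)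

theorem right_tail_small (H : HypM n w) (hL : Real.log w ≤ 3) :
    Real.sqrt (‖VV w‖ / (Real.pi * sg n w)) *
      (∫ τ in Set.Ioi (TT w), (1 + τ ^ 2) ^ (-(3 / 4) : ℝ) * Ew n w τ) ≤ 1 / 1000 := by
  have hz := P_T_sub_ts_ge_small H hL
  have ht := ts_pos H
  have ht1 := ts_le H
  have hP := mc_PP H
  have hT := H.TT_pos
  have hT2 := H.TT_le
  have hL0 := H.log_nonneg
  -- `T - t ≥ 0.2`
  have hd : 2 / 10 ≤ TT w - ts w := by
    rcases le_or_gt (Real.log w) (3 * Real.pi / 10) with h | h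
    · have : TT w = 5 / 2 := by
        unfold TT
        rw [if_pos h]
      rw [this]
      linarith
    · have h1 := P_mul_T_sub_ts_ge H h
      have hR : 0 < Real.sqrt n := by linarith [H.R_ge]
      have h2 : Real.pi / 4 ≤ aa w * (TT w - ts w) := by
        unfold PPn at h1
        have h3 : Real.sqrt n * (Real.pi / 4) ≤ Real.sqrt n * (aa w * (TT w - ts w)) := by
          linarith
        exact le_of_mul_le_mul_left h3 hR
      have hU := mc_asq H.hw
      have ha := aa_ge_one H.hw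
      have h4 : aa w ≤ 3.6 := by
        by_contra hcon
        push Not at hcon
        nlinarith
      by_contra hcon
      push Not at hcon
      have := mc_pi_lo
      nlinarith
  rw [mc_pref H]
  refine mc_G hz ?_ (mc_tail hT.le (Real.exp_pos _).le (fun x _ => mc_Ew_nonneg _ _ _)
    (fun x hx => mc_Ew_le H (by linarith) hx))
  set z := PPn n w * (TT w - ts w) ^ 2 / (1 + TT w ^ 2) with hz_def
  have h1 : PPn n w * (TT w - ts w) ^ 2 = z * (1 + TT w ^ 2) := by
    rw [hz_def]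
    field_simp
  have h2 : 1 + TT w ^ 2 ≤ 7.25 := by nlinarith
  have h3 : (4 : ℝ) / 100 ≤ (TT w - ts w) ^ 2 := by nlinarith
  have h4 : PPn n w ≤ 182 * z := by
    have h5 : PPn n w * (4 / 100) ≤ z * 7.25 := by
      calc PPn n w * (4 / 100) ≤ PPn n w * (TT w - ts w) ^ 2 :=
            mul_le_mul_of_nonneg_left h3 (by linarith)
        _ = z * (1 + TT w ^ 2) := h1
        _ ≤ z * 7.25 := mul_le_mul_of_nonneg_left h2 (by linarith)
    linarith
  rw [div_le_iff₀ Real.pi_pos]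
  have h6 := Real.pi_gt_three
  have h7 : 1 + ts w ^ 2 ≤ 1.66 := by nlinarith
  have h8 : (1 + ts w ^ 2) * PPn n w ≤ 1.66 * (182 * z) :=
    mul_le_mul h7 h4 (by linarith) (by norm_num)
  have h9 : 25 * z ^ 2 * 3 ≤ 25 * z ^ 2 * Real.pi :=
    mul_le_mul_of_nonneg_left h6.le (by positivity)
  nlinarith

/-- `((u+x)/(1+x))² ≥ u² + u(1-u)x` on `[0,1]` -/
private lemma mc_square {u x : ℝ} (hu0 : 0 ≤ u) (hu1 : u ≤ 1) (hx0 : 0 ≤ x) (hx1 : x ≤ 1) :
    (1 + x) ^ 2 * (u ^ 2 + u * (1 - u) * x) ≤ (u + x) ^ 2 := by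
  have h : (u + x) ^ 2 - (1 + x) ^ 2 * (u ^ 2 + u * (1 - u) * x) =
      u * (1 - u) * x * (1 - x ^ 2) + x ^ 2 * (1 - u) ^ 2 := by ring
  have h1 : 0 ≤ u * (1 - u) * x * (1 - x ^ 2) := by
    have h2 : 0 ≤ 1 - u := by linarith
    have h3 : 0 ≤ 1 - x ^ 2 := by nlinarith
    positivity
  have h4 : 0 ≤ x ^ 2 * (1 - u) ^ 2 := by positivity
  linarith

private lemma mc_base {T x : ℝ} (hx : 0 ≤ x) :
    1 + (T + x) ^ 2 ≤ (1 + T ^ 2) * (1 + x) ^ 2 := by
  have h : (1 + T ^ 2) * (1 + x) ^ 2 - (1 + (T + x) ^ 2) =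
      2 * x * (1 + T ^ 2 - T) + T ^ 2 * x ^ 2 := by ring
  have h1 : 0 ≤ 1 + T ^ 2 - T := by nlinarith [sq_nonneg (T - 1)]
  have h2 : 0 ≤ 2 * x * (1 + T ^ 2 - T) := by positivity
  have h3 : 0 ≤ T ^ 2 * x ^ 2 := by positivity
  linarith

theorem right_tail_large (H : HypM n w) (hL : 3 ≤ Real.log w) :
    Real.sqrt (‖VV w‖ / (Real.pi * sg n w)) *
      (∫ τ in Set.Ioi (TT w), (1 + τ ^ 2) ^ (-(3 / 4) : ℝ) * Ew n w τ) ≤ 4 / 1000 := by
  have hw1 := H.hw
  have hw : 0 < w := by linarith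
  have hz := P_T_sub_ts_ge H
  have ht := ts_pos H
  have hT := H.TT_pos
  have hpi1 := mc_pi_lo
  have hpi2 := mc_pi_hi
  have hPL : 300 ≤ PPn n w := by
    have h1 := H.R_ge
    have h2 := log_le_aa hw1
    unfold PPn
    nlinarith
  -- `T = 3π/(4L)`
  have hTeq : TT w * Real.log w = 3 * Real.pi / 4 := by
    have h : ¬ (Real.log w ≤ 3 * Real.pi / 10) := by
      push Not
      linarith
    unfold TT
    rw [if_neg h]
    have : Real.log w ≠ 0 := by linarith
    field_simp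
  have hT1 : TT w ≤ 0.7854 := by nlinarith
  -- `t ≤ √2 - 1`
  have ht1 : ts w ≤ 0.4143 := by
    have h := bb_div_aa_le hw (ρ := 1) (by norm_num) (by
      rw [one_mul]
      exact ratio_three hw hL)
    have h2 : Real.sqrt (1 + 1 ^ 2) ≤ 1.4143 := by
      rw [Real.sqrt_le_left (by norm_num)]
      norm_num
    unfold ts
    linarith
  have hdpos : 0 < TT w - ts w := by
    have h1 := P_mul_T_sub_ts_ge H (by linarith)
    have hR := H.R_ge
    by_contra hcon
    push Not at hcon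
    have h2 : PPn n w * (TT w - ts w) ≤ 0 :=
      mul_nonpos_of_nonneg_of_nonpos (by linarith) hcon
    have h3 : 0 < Real.pi / 4 * Real.sqrt n := by
      have : 0 < Real.sqrt n := by linarith
      positivity
    linarith
  -- `d ≤ 0.6`
  have hd6 : TT w - ts w ≤ 6 / 10 := by
    rcases le_total (Real.log w) 4 with h4 | h4
    · have hts := mc_ts_eq hw
      have hU := mc_asq hw1
      have hV := mc_VI_ge_pi hw1
      have h5 : 2 / 10 ≤ ts w := by
        by_contra hcon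
        push Not at hcon
        have h6 : ts w * (2 * aa w ^ 2) ≤ 2 / 10 * (2 * (4 ^ 2 + 3.29)) := by
          apply mul_le_mul hcon.le _ (by positivity) (by norm_num)
          nlinarith
        nlinarith
      linarith
    · have : TT w ≤ 0.6 := by nlinarith
      linarith
  rw [mc_pref H]
  set t := ts w with ht_def
  set T := TT w with hT_def
  set P := PPn n w with hP_def
  set d := T - t with hd_def
  set z := P * d ^ 2 / (1 + T ^ 2) with hz_def
  set κ := P * (d * (1 - d)) / (1 + T ^ 2) with hκ_def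
  have hd1 : 0 < 1 - d := by linarith
  have hP0 : 0 < P := by linarith
  have hκ : 0 < κ := by positivity
  have hT2 : 1 + T ^ 2 ≤ 1.617 := by nlinarith
  have hTpos : 0 < 1 + T ^ 2 := by positivity
  -- domination
  have hdom : ∀ τ, T < τ → (1 + τ ^ 2) ^ (-(3 / 4) : ℝ) * Ew n w τ ≤
      Real.exp (-z) * (Real.exp (κ * T) * Real.exp (-κ * τ)) +
        17 / 10 * Real.exp (-(P / 6.5)) * (1 + τ) ^ (-(3 / 2) : ℝ) := by
    intro τ hτ
    have hτ0 : 0 < τ := by linarith
    obtain ⟨x, hx⟩ : ∃ x, τ = T + x := ⟨τ - T, by ring⟩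
    have hx0 : 0 < x := by linarith
    have hk0 : 0 ≤ (1 + τ ^ 2) ^ (-(3 / 4) : ℝ) := by positivity
    have hk1 : (1 + τ ^ 2) ^ (-(3 / 4) : ℝ) ≤ 1 :=
      Real.rpow_le_one_of_one_le_of_nonpos (by nlinarith [sq_nonneg τ]) (by norm_num)
    have hbase : 1 + τ ^ 2 ≤ (1 + T ^ 2) * (1 + x) ^ 2 := by
      rw [hx]
      exact mc_base hx0.le
    have hτt : τ - t = d + x := by
      rw [hx, hd_def]
      ring
    rcases le_total x 1 with h1 | h1
    · have hE : Ew n w τ ≤ Real.exp (-z) * (Real.exp (κ * T) * Real.exp (-κ * τ)) := by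
        unfold Ew
        rw [← Real.exp_add, ← Real.exp_add]
        apply Real.exp_le_exp.2
        have h2 : z + κ * x ≤ P * (τ - t) ^ 2 / (1 + τ ^ 2) := by
          have h3 : z + κ * x = P * (d ^ 2 + d * (1 - d) * x) / (1 + T ^ 2) := by
            rw [hz_def, hκ_def]
            ring
          rw [h3, div_le_div_iff₀ hTpos (by positivity), hτt]
          have h4 := mc_square hdpos.le (by linarith) hx0.le h1
          have h5 : 0 ≤ d ^ 2 + d * (1 - d) * x := by positivity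
          calc P * (d ^ 2 + d * (1 - d) * x) * (1 + τ ^ 2)
              ≤ P * (d ^ 2 + d * (1 - d) * x) * ((1 + T ^ 2) * (1 + x) ^ 2) :=
                mul_le_mul_of_nonneg_left hbase (by positivity)
            _ = P * ((1 + x) ^ 2 * (d ^ 2 + d * (1 - d) * x)) * (1 + T ^ 2) := by ring
            _ ≤ P * (d + x) ^ 2 * (1 + T ^ 2) := by
                apply mul_le_mul_of_nonneg_right _ hTpos.le
                exact mul_le_mul_of_nonneg_left h4 hP0.le
        have h6 : κ * T + -κ * τ = -(κ * x) := by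
          rw [hx]
          ring
        linarith
      have h7 : (1 + τ ^ 2) ^ (-(3 / 4) : ℝ) * Ew n w τ ≤
          1 * (Real.exp (-z) * (Real.exp (κ * T) * Real.exp (-κ * τ))) :=
        mul_le_mul hk1 hE (mc_Ew_nonneg _ _ _) (by norm_num)
      have h8 : 0 ≤ 17 / 10 * Real.exp (-(P / 6.5)) * (1 + τ) ^ (-(3 / 2) : ℝ) := by positivity
      linarith
    · have hE : Ew n w τ ≤ Real.exp (-(P / 6.5)) := by
        unfold Ew
        apply Real.exp_le_exp.2
        apply neg_le_neg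
        rw [mul_div_assoc, div_eq_mul_inv]
        apply mul_le_mul_of_nonneg_left _ hP0.le
        rw [inv_eq_one_div, div_le_div_iff₀ (by norm_num) (by positivity), hτt, one_mul]
        have h2 : (1 + x) ^ 2 ≤ 4 * (d + x) ^ 2 := by nlinarith
        calc 1 + τ ^ 2 ≤ (1 + T ^ 2) * (1 + x) ^ 2 := hbase
          _ ≤ 1.617 * (4 * (d + x) ^ 2) := mul_le_mul hT2 h2 (by positivity) (by norm_num)
          _ ≤ _ := by nlinarith [sq_nonneg (d + x)]
      have h7 : (1 + τ ^ 2) ^ (-(3 / 4) : ℝ) * Ew n w τ ≤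
          (17 / 10 * (1 + τ) ^ (-(3 / 2) : ℝ)) * Real.exp (-(P / 6.5)) :=
        mul_le_mul (mc_kernel hτ0.le) hE (mc_Ew_nonneg _ _ _) (by positivity)
      have h8 : 0 ≤ Real.exp (-z) * (Real.exp (κ * T) * Real.exp (-κ * τ)) := by positivity
      linarith
  have hneg : -κ < 0 := by linarith
  have hint : ∫ τ in Set.Ioi T, (1 + τ ^ 2) ^ (-(3 / 4) : ℝ) * Ew n w τ ≤
      Real.exp (-z) / κ + 17 / 5 * Real.exp (-(P / 6.5)) := by
    have i1 : IntegrableOn (fun τ : ℝ => Real.exp (-z) * (Real.exp (κ * T) * Real.exp (-κ * τ)))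
        (Set.Ioi T) := ((integrableOn_exp_mul_Ioi hneg T).const_mul _).const_mul _
    have i2 : IntegrableOn (fun τ : ℝ => 17 / 10 * Real.exp (-(P / 6.5)) *
        (1 + τ) ^ (-(3 / 2) : ℝ)) (Set.Ioi T) := (mc_int hT.le).const_mul _
    have h2 : ∫ τ in Set.Ioi T, (1 + τ ^ 2) ^ (-(3 / 4) : ℝ) * Ew n w τ ≤
        ∫ τ in Set.Ioi T, (Real.exp (-z) * (Real.exp (κ * T) * Real.exp (-κ * τ)) +
        17 / 10 * Real.exp (-(P / 6.5)) * (1 + τ) ^ (-(3 / 2) : ℝ)) := by
      apply integral_mono_of_nonneg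
      · refine (ae_restrict_iff' measurableSet_Ioi).2 (Eventually.of_forall fun x hx => ?_)
        have := mc_Ew_nonneg n w x
        simp only [Pi.zero_apply]
        positivity
      · exact i1.add i2
      · exact (ae_restrict_iff' measurableSet_Ioi).2 (Eventually.of_forall fun x hx => hdom x hx)
    rw [integral_add i1 i2, integral_const_mul, integral_const_mul, integral_const_mul,
      integral_exp_mul_Ioi hneg] at h2
    have h3 := mc_integral hT.le
    have h4 : Real.exp (κ * T) * (-Real.exp (-κ * T) / -κ) = 1 / κ := by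
      rw [neg_div_neg_eq, ← mul_div_assoc, ← Real.exp_add]
      congr 1
      rw [show κ * T + -κ * T = 0 by ring, Real.exp_zero]
    rw [h4] at h2
    have h5 : 17 / 10 * Real.exp (-(P / 6.5)) * ∫ x in Set.Ioi T, (1 + x) ^ (-(3 / 2) : ℝ) ≤
        17 / 10 * Real.exp (-(P / 6.5)) * 2 := mul_le_mul_of_nonneg_left h3 (by positivity)
    have h6 : Real.exp (-z) * (1 / κ) = Real.exp (-z) / κ := by ring
    linarith
  have hX : (1 + t ^ 2) * P / Real.pi ≤ 25 * (P / 6.5) ^ 2 := by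
    rw [div_le_iff₀ Real.pi_pos]
    have h1 : 1 + t ^ 2 ≤ 1.2 := by nlinarith
    have h2 : (1 + t ^ 2) * P ≤ 1.2 * P := mul_le_mul_of_nonneg_right h1 hP0.le
    have h3 : 25 * (P / 6.5) ^ 2 * 3 ≤ 25 * (P / 6.5) ^ 2 * Real.pi :=
      mul_le_mul_of_nonneg_left (by linarith) (by positivity)
    have h4 : 300 * P ≤ P ^ 2 := by
      rw [pow_two]
      exact mul_le_mul_of_nonneg_right hPL hP0.le
    have h5 : 25 * (P / 6.5) ^ 2 * 3 = 75 / 42.25 * P ^ 2 := by ring
    rw [h5] at h3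
    norm_num at h1 h2 h3 ⊢
    linarith
  have hsecond : Real.sqrt ((1 + t ^ 2) * P / Real.pi) * (17 / 5 * Real.exp (-(P / 6.5))) ≤
      1 / 1000 := mc_G (z := P / 6.5) (by
        rw [le_div_iff₀ (by norm_num)]
        linarith) hX le_rfl
  -- first part
  have hsq : Real.sqrt ((1 + t ^ 2) * P / Real.pi) ≤ 0.9 * κ := by
    rw [Real.sqrt_le_left (by positivity)]
    have h1 : κ ^ 2 = P * z * (1 - d) ^ 2 / (1 + T ^ 2) := by
      rw [hκ_def, hz_def]
      field_simp
    rw [mul_pow, h1, ← mul_div_assoc, div_le_div_iff₀ Real.pi_pos hTpos]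
    have h2 : 1 + t ^ 2 ≤ 1.1717 := by nlinarith
    have h3 : (0.4 : ℝ) ^ 2 ≤ (1 - d) ^ 2 := pow_le_pow_left₀ (by norm_num) (by linarith) _
    have h4 : (5.8 : ℝ) * 0.4 ^ 2 ≤ z * (1 - d) ^ 2 :=
      mul_le_mul (by norm_num at hz ⊢; linarith) h3 (by norm_num) (by linarith)
    calc (1 + t ^ 2) * P * (1 + T ^ 2) = P * ((1 + t ^ 2) * (1 + T ^ 2)) := by ring
      _ ≤ P * (1.1717 * 1.617) := by
          apply mul_le_mul_of_nonneg_left _ hP0.le
          exact mul_le_mul h2 hT2 hTpos.le (by norm_num)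
      _ ≤ P * (0.9 ^ 2 * (5.8 * 0.4 ^ 2) * 3.1415) := by
          apply mul_le_mul_of_nonneg_left _ hP0.le
          norm_num
      _ ≤ P * (0.9 ^ 2 * (z * (1 - d) ^ 2) * Real.pi) := by
          apply mul_le_mul_of_nonneg_left _ hP0.le
          apply mul_le_mul _ hpi1.le (by norm_num) (by positivity)
          exact mul_le_mul_of_nonneg_left h4 (by norm_num)
      _ = _ := by ring
  have hfirst : Real.sqrt ((1 + t ^ 2) * P / Real.pi) * (Real.exp (-z) / κ) ≤ 3 / 1000 := by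
    have h1 : Real.exp (-z) ≤ 1 / 300 := by
      refine le_trans (Real.exp_le_exp.2 ?_) mc_exp_58
      linarith
    calc Real.sqrt ((1 + t ^ 2) * P / Real.pi) * (Real.exp (-z) / κ)
        ≤ 0.9 * κ * (Real.exp (-z) / κ) :=
          mul_le_mul_of_nonneg_right hsq (by positivity)
      _ = 0.9 * Real.exp (-z) := by field_simp
      _ ≤ _ := by linarith
  calc Real.sqrt ((1 + t ^ 2) * P / Real.pi) *
        (∫ τ in Set.Ioi T, (1 + τ ^ 2) ^ (-(3 / 4) : ℝ) * Ew n w τ)
      ≤ Real.sqrt ((1 + t ^ 2) * P / Real.pi) *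
        (Real.exp (-z) / κ + 17 / 5 * Real.exp (-(P / 6.5))) :=
        mul_le_mul_of_nonneg_left hint (Real.sqrt_nonneg _)
    _ ≤ _ := by
        rw [mul_add]
        linarith

theorem eMod_le (H : HypM n w) : eMod n w (TT w) ≤ 2 / 100 := by
  have hw1 := H.hw
  have hw : 0 < w := by linarith
  have hl := left_tail H
  have hr : Real.sqrt (‖VV w‖ / (Real.pi * sg n w)) *
      (∫ τ in Set.Ioi (TT w), (1 + τ ^ 2) ^ (-(3 / 4) : ℝ) * Ew n w τ) ≤ 4 / 1000 := by
    rcases le_total (Real.log w) 3 with h | h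
    · exact (right_tail_small H h).trans (by norm_num)
    · exact right_tail_large H h
  have hz0 := P_ts_sq_ge H
  have hzT := P_T_sub_ts_ge H
  have hT := H.TT_pos
  have hT2 := H.TT_le
  have hP := mc_PP H
  have hsg := H.sg_pos
  have hsg2 := H.inv_sg_ge
  have hpi1 := mc_pi_lo
  have hV : 16 / 9 ≤ ‖VV w‖ := by
    rw [norm_VV hw]
    have h1 := mc_VI_ge hw1
    have h2 := two_aa_bb hw
    nlinarith [sq_nonneg (aa w - bb w)]
  have hVpos : 0 < ‖VV w‖ := by linarith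
  have hsg3 : sg n w ≤ 0.095 := by
    have h1 : sg n w * (1 / sg n w) = 1 := by
      field_simp
    nlinarith
  have e10 := mc_exp_ten
  have hE0 : Ew n w 0 ≤ 1 / 20000 := by
    refine le_trans (Real.exp_le_exp.2 ?_) e10
    rw [zero_sub, neg_sq]
    norm_num
    linarith
  have hET : Ew n w (TT w) ≤ 1 / 300 := by
    refine le_trans (Real.exp_le_exp.2 ?_) mc_exp_58
    linarith
  have h1 : 1 / Real.sqrt (Real.pi * ‖VV w‖) ≤ 0.43 := by
    have h2 : (2.33 : ℝ) ≤ Real.sqrt (Real.pi * ‖VV w‖) := by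
      apply Real.le_sqrt_of_sq_le
      nlinarith
    rw [div_le_iff₀ (by linarith)]
    linarith
  have h2 : Real.sqrt (sg n w) ≤ 1 := by
    rw [Real.sqrt_le_left (by norm_num)]
    linarith
  have h3 : Real.sqrt (sg n w * Real.sqrt (1 + TT w ^ 2)) ≤ 0.51 := by
    rw [Real.sqrt_le_left (by norm_num)]
    have h4 : Real.sqrt (1 + TT w ^ 2) ≤ 2.7 := by
      rw [Real.sqrt_le_left (by norm_num)]
      nlinarith
    calc sg n w * Real.sqrt (1 + TT w ^ 2) ≤ 0.095 * 2.7 :=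
          mul_le_mul hsg3 h4 (Real.sqrt_nonneg _) (by norm_num)
      _ ≤ _ := by norm_num
  have t1 : 1 / Real.sqrt (Real.pi * ‖VV w‖) *
      (Real.sqrt (sg n w) * Ew n w 0 + Real.sqrt (sg n w * Real.sqrt (1 + TT w ^ 2)) *
        Ew n w (TT w)) ≤ 1 / 1000 := by
    have h5 : Real.sqrt (sg n w) * Ew n w 0 ≤ 1 * (1 / 20000) :=
      mul_le_mul h2 hE0 (mc_Ew_nonneg _ _ _) (by norm_num)
    have h6 : Real.sqrt (sg n w * Real.sqrt (1 + TT w ^ 2)) * Ew n w (TT w) ≤
        0.51 * (1 / 300) :=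
      mul_le_mul h3 hET (mc_Ew_nonneg _ _ _) (by norm_num)
    calc _ ≤ 0.43 * (1 * (1 / 20000) + 0.51 * (1 / 300)) :=
          mul_le_mul h1 (add_le_add h5 h6) (by
            have := mc_Ew_nonneg n w 0
            have := mc_Ew_nonneg n w (TT w)
            positivity) (by norm_num)
      _ ≤ _ := by norm_num
  have t3 : 1 / (2 * Real.sqrt (Real.pi * ‖VV w‖)) * Real.sqrt (sg n w) *
      (∫ τ in (0 : ℝ)..TT w, Ew n w τ) ≤ 11 / 1000 := by
    have h5 := H.integral_Ew_le hT.le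
    have h6 : 1 / (2 * Real.sqrt (Real.pi * ‖VV w‖)) * Real.sqrt (sg n w) *
        Real.sqrt (Real.pi * (1 + TT w ^ 2) / PPn n w) =
        1 / 2 * Real.sqrt ((1 + TT w ^ 2) / (n * ‖VV w‖)) := by
      have hn : (0 : ℝ) < n := by
        have := H.hn
        have : (10 ^ 4 : ℝ) ≤ n := by exact_mod_cast this
        linarith
      have h7 : (1 + TT w ^ 2) / (n * ‖VV w‖) =
          sg n w * (Real.pi * (1 + TT w ^ 2) / PPn n w) / (Real.pi * ‖VV w‖) := by
        have ha := aa_pos hw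
        have hR : 0 < Real.sqrt n := Real.sqrt_pos.2 hn
        have hRn : Real.sqrt n ^ 2 = n := Real.sq_sqrt hn.le
        unfold sg PPn
        have h8 : (n : ℝ) = Real.sqrt n * Real.sqrt n := by
          rw [← pow_two]
          exact hRn.symm
        rw [div_eq_div_iff (by positivity) (by positivity)]
        field_simp
        rw [hRn]
      have hPp : 0 < PPn n w := by linarith
      rw [h7, Real.sqrt_div (show 0 ≤ sg n w * (Real.pi * (1 + TT w ^ 2) / PPn n w) by positivity),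
        Real.sqrt_mul hsg.le]
      have h9 : Real.sqrt (Real.pi * ‖VV w‖) ≠ 0 := by positivity
      field_simp
    have h10 : Real.sqrt ((1 + TT w ^ 2) / (n * ‖VV w‖)) ≤ 0.022 := by
      rw [Real.sqrt_le_left (by norm_num), div_le_iff₀ (by
        have := H.hn
        have : (10 ^ 4 : ℝ) ≤ n := by exact_mod_cast this
        have : (0 : ℝ) < n := by linarith
        positivity)]
      have h11 : (10 ^ 4 : ℝ) ≤ n := by exact_mod_cast H.hn
      have h12 : (10 ^ 4 : ℝ) * (16 / 9) ≤ n * ‖VV w‖ :=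
        mul_le_mul h11 hV (by norm_num) (by linarith)
      nlinarith
    calc _ ≤ 1 / (2 * Real.sqrt (Real.pi * ‖VV w‖)) * Real.sqrt (sg n w) *
        Real.sqrt (Real.pi * (1 + TT w ^ 2) / PPn n w) :=
          mul_le_mul_of_nonneg_left h5 (by positivity)
      _ ≤ _ := by
        rw [h6]
        linarith
  have t4 : Real.exp (-(4 * PPn n w)) ≤ 1 / 20000 := by
    refine le_trans (Real.exp_le_exp.2 ?_) e10
    linarith
  unfold eMod
  rw [mul_add (Real.sqrt (‖VV w‖ / (Real.pi * sg n w)))]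
  linarith

end Pool.Agent.Lib.Durfee
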