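import Pool.Agent.Lib.MP_9393b1_co.OffBase

/-! # Regime M: off the window, `|θ| ≥ 5π/12` and `τ ≥ 4` -/

set_option autoImplicit false

namespace Pool.Agent.Lib.Durfee

open Complex MeasureTheory Filter Topology

variable {n : ℕ} {w : ℝ}

/-! ### numerics -/

/-- `x^m e^{-k x}` decreases for `k x ≥ m`. -/
private lemma decr (m : ℕ) {k x₀ x : ℝ} (hx₀ : 0 < x₀) (hx : x₀ ≤ x) (hk : (m : ℝ) ≤ k * x₀) :
    x ^ m * Real.exp (-(k * x)) ≤ x₀ ^ m * Real.exp (-(k * x₀)) := by
  have h1 : x / x₀ ≤ Real.exp (x / x₀ - 1) := by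
    have := Real.add_one_le_exp (x / x₀ - 1)
    linarith
  have h2 : x ^ m ≤ x₀ ^ m * Real.exp (m * (x / x₀ - 1)) := by
    rw [Real.exp_nat_mul, ← mul_pow]
    refine pow_le_pow_left₀ (by linarith) ?_ m
    calc x = x₀ * (x / x₀) := by field_simp
      _ ≤ _ := mul_le_mul_of_nonneg_left h1 hx₀.le
  calc x ^ m * Real.exp (-(k * x))
      ≤ (x₀ ^ m * Real.exp (m * (x / x₀ - 1))) * Real.exp (-(k * x)) :=
        mul_le_mul_of_nonneg_right h2 (Real.exp_pos _).le
    _ = x₀ ^ m * Real.exp (m * (x / x₀ - 1) + -(k * x)) := by rw [mul_assoc, ← Real.exp_add]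
    _ ≤ _ := by
        refine mul_le_mul_of_nonneg_left (Real.exp_le_exp.mpr ?_) (by positivity)
        have h3 : x / x₀ - 1 = (x - x₀) / x₀ := by field_simp
        rw [h3, ← mul_div_assoc]
        have h4 : (m : ℝ) * (x - x₀) / x₀ ≤ k * (x - x₀) := by
          rw [div_le_iff₀ hx₀]
          nlinarith
        linarith

private lemma exp_neg_le (m : ℕ) : Real.exp (-(m : ℝ)) ≤ (1 / 2.718) ^ m := by
  rw [Real.exp_neg, one_div, inv_pow]
  have h : (2.718 : ℝ) ^ m ≤ Real.exp m := by
    rw [← Real.exp_one_pow]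
    exact pow_le_pow_left₀ (by norm_num) (by linarith [Real.exp_one_gt_d9]) m
  exact inv_anti₀ (by positivity) h

private lemma mass_le (hw : 1 ≤ w) : 2 * w / (1 + w) ≤ 1 + Real.log w / 2 := by
  have hw0 : 0 < w := by linarith
  have hmono : MonotoneOn (fun x : ℝ => Real.log x - 2 * (x - 1) / (x + 1)) (Set.Ici 1) := by
    have hd : ∀ x : ℝ, 1 ≤ x → HasDerivAt (fun x : ℝ => Real.log x - 2 * (x - 1) / (x + 1))
        (x⁻¹ - (2 * 1 * (x + 1) - 2 * (x - 1) * 1) / (x + 1) ^ 2) x := by
      intro x hx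
      have h1 : HasDerivAt (fun x : ℝ => 2 * (x - 1)) (2 * 1) x :=
        ((hasDerivAt_id x).sub_const 1).const_mul 2
      have h2 : HasDerivAt (fun x : ℝ => x + 1) 1 x := (hasDerivAt_id x).add_const 1
      exact (Real.hasDerivAt_log (by linarith)).sub (h1.div h2 (by linarith))
    refine monotoneOn_of_deriv_nonneg (convex_Ici 1)
      (fun x hx => (hd x hx).continuousAt.continuousWithinAt)
      (fun x hx => (hd x (by rw [interior_Ici] at hx; exact le_of_lt hx)).differentiableAt.differentiableWithinAt)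
      fun x hx => ?_
    rw [interior_Ici] at hx
    have hx1 : (1 : ℝ) < x := hx
    rw [(hd x hx1.le).deriv]
    have e : x⁻¹ - (2 * 1 * (x + 1) - 2 * (x - 1) * 1) / (x + 1) ^ 2 =
        (x - 1) ^ 2 / (x * (x + 1) ^ 2) := by
      have : x ≠ 0 := by linarith
      have : x + 1 ≠ 0 := by linarith
      field_simp
      ring
    rw [e]; positivity
  have h := hmono (Set.mem_Ici.2 le_rfl) (Set.mem_Ici.2 hw) hw
  simp only [Real.log_one, sub_self, mul_zero, zero_div] at h
  have e : 2 * w / (1 + w) = 1 + 2 * (w - 1) / (w + 1) / 2 := by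
    field_simp; ring
  rw [e]; linarith

private lemma mass_le_two (hw : 1 ≤ w) : 2 * w / (1 + w) ≤ 2 := by
  rw [div_le_iff₀ (by linarith)]; linarith

private lemma aa_sq_le (H : HypM n w) : aa w ^ 2 ≤ Real.log w ^ 2 + 329 / 100 := by
  have h := U_le_large H.hw
  have := Real.pi_lt_d4
  have := Real.pi_pos
  nlinarith

private lemma gap_large (H : HypM n w) (hL : 17 / 10 ≤ Real.log w) :
    2 - 8118 / 1000 / (Real.log w ^ 2 + 4) ≤ gapinf w := by
  have hw := H.hw
  refine le_trans ?_ (gapinf_ge_large (by linarith) (by linarith))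
  have hpi := Real.pi_lt_d4
  have hpi0 := Real.pi_pos
  have h2 : Real.pi ^ 2 ≤ 98697 / 10000 := by nlinarith
  have h4 : Real.pi ^ 4 ≤ 974112 / 10000 := by
    have : Real.pi ^ 4 = Real.pi ^ 2 * Real.pi ^ 2 := by ring
    nlinarith [sq_nonneg Real.pi]
  have hu : 0 < Real.log w ^ 2 + 4 := by positivity
  have : Real.pi ^ 4 / (12 * (Real.log w ^ 2 + 4)) ≤ 8118 / 1000 / (Real.log w ^ 2 + 4) := by
    rw [div_le_div_iff₀ (by positivity) hu]
    nlinarith
  linarith

/-- gap for `off_b`, `L ≤ 10` -/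
private lemma gap_b (H : HypM n w) (hL : Real.log w ≤ 10) :
    11 / 100 * aa w ≤ gapinf w - 25883 / 100000 * (2 * w / (1 + w)) := by
  have hL0 := H.log_nonneg
  have ha := aa_sq_le H
  rcases le_total (Real.log w) (17 / 10) with h1 | h1
  · have hg := gapinf_ge_small H.hw h1
    have hm := mass_le H.hw
    have hc : 2211 / 10000 + 12 / 100 * Real.log w ≤
        gapinf w - 25883 / 100000 * (2 * w / (1 + w)) := by linarith
    refine le_trans ?_ hc
    refine le_of_sq_le_sq ?_ (by positivity)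
    nlinarith
  · have hg := gap_large H h1
    have hm := mass_le_two H.hw
    set u : ℝ := Real.log w ^ 2 + 4 with hu
    have hu1 : 689 / 100 ≤ u := by rw [hu]; nlinarith
    have hu2 : u ≤ 104 := by rw [hu]; nlinarith
    have hu0 : 0 < u := by linarith
    have hc : 148234 / 100000 - 8118 / 1000 / u ≤
        gapinf w - 25883 / 100000 * (2 * w / (1 + w)) := by linarith
    refine le_trans ?_ hc
    have e : 148234 / 100000 - 8118 / 1000 / u = (148234 / 100000 * u - 8118 / 1000) / u := by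
      field_simp
    rw [e]
    refine le_of_sq_le_sq ?_ (div_nonneg (by linarith) hu0.le)
    rw [div_pow, le_div_iff₀ (by positivity)]
    have h3 : (11 / 100 * aa w) ^ 2 ≤ 121 / 10000 * (u - 71 / 100) := by
      rw [mul_pow]; rw [hu]; linarith
    refine (mul_le_mul_of_nonneg_right h3 (by positivity)).trans ?_
    nlinarith [mul_nonneg (mul_nonneg (sub_nonneg.2 hu1) (sub_nonneg.2 hu1)) (sub_nonneg.2 hu2),
      mul_nonneg (sub_nonneg.2 hu1) (sub_nonneg.2 hu1)]

/-- gap for `off_far`, `L ≤ 10` -/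
private lemma gap_far (H : HypM n w) (hL : Real.log w ≤ 10) :
    16 / 100 * aa w ≤ gapinf w - 252 / 1000 := by
  have hL0 := H.log_nonneg
  have ha := aa_sq_le H
  rcases le_total (Real.log w) (17 / 10) with h1 | h1
  · have hg := gapinf_ge_small H.hw h1
    rcases le_total (Real.log w) (3 / 10) with h2 | h2
    · have := aa_le_of_small H.hw h2
      linarith
    · have hc : 228 / 1000 + 25 / 100 * Real.log w ≤ gapinf w - 252 / 1000 := by linarith
      refine le_trans ?_ hc
      refine le_of_sq_le_sq ?_ (by positivity)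
      nlinarith
  · have hg := gap_large H h1
    set u : ℝ := Real.log w ^ 2 + 4 with hu
    have hu1 : 689 / 100 ≤ u := by rw [hu]; nlinarith
    have hu2 : u ≤ 104 := by rw [hu]; nlinarith
    have hu0 : 0 < u := by linarith
    have hc : 1748 / 1000 - 8118 / 1000 / u ≤ gapinf w - 252 / 1000 := by linarith
    refine le_trans ?_ hc
    have e : 1748 / 1000 - 8118 / 1000 / u = (1748 / 1000 * u - 8118 / 1000) / u := by
      field_simp
    rw [e]
    refine le_of_sq_le_sq ?_ (div_nonneg (by linarith) hu0.le)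
    rw [div_pow, le_div_iff₀ (by positivity)]
    have h3 : (16 / 100 * aa w) ^ 2 ≤ 256 / 10000 * (u - 71 / 100) := by
      rw [mul_pow]; rw [hu]; linarith
    refine (mul_le_mul_of_nonneg_right h3 (by positivity)).trans ?_
    nlinarith [mul_nonneg (mul_nonneg (sub_nonneg.2 hu1) (sub_nonneg.2 hu1)) (sub_nonneg.2 hu2),
      mul_nonneg (sub_nonneg.2 hu1) (sub_nonneg.2 hu1)]

/-- `L ≥ 10` -/
private lemma large (H : HypM n w) (hL : 10 ≤ Real.log w) :
    aa w ≤ 102 / 100 * Real.log w ∧ 19218 / 10000 ≤ gapinf w ∧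
      122 / 1000 * Real.log w ^ 2 ≤ 1 / sg n w ∧ 122 / 10 ≤ 1 / sg n w := by
  have ha := aa_sq_le H
  have hg := gap_large H (by linarith)
  have hy := H.inv_sg_ge_sq (by linarith)
  refine ⟨?_, ?_, hy, by nlinarith⟩
  · refine le_of_sq_le_sq ?_ (by linarith)
    nlinarith
  · have : 8118 / 1000 / (Real.log w ^ 2 + 4) ≤ 782 / 10000 := by
      rw [div_le_iff₀ (by positivity)]; nlinarith
    linarith

private lemma Kn_nonneg (H : HypM n w) : 0 ≤ Kn n w := by
  have := aa_pos (w := w) (by linarith [H.hw])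
  unfold Kn PPn
  positivity

private lemma R_eq (H : HypM n w) : Real.sqrt n = aa w * (1 / sg n w) := by
  have ha := aa_pos (w := w) (by linarith [H.hw])
  have hR : 0 < Real.sqrt n := by linarith [H.R_ge]
  unfold sg
  field_simp

theorem off_b (H : HypM n w) :
    Kn n w * ∫ τ in (0 : ℝ)..(TT w),
      ((∫ θ in (5 * Real.pi / 12)..Real.pi, NP n w θ τ) +
        ∫ θ in (-Real.pi)..(-(5 * Real.pi / 12)), NP n w θ τ) ≤ 1 / 100 := by
  have hσ := H.sg_pos
  have hT0 := H.TT_pos
  have hT := H.TT_le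
  have hpi := Real.pi_pos
  have hinv := H.inv_sg_ge
  have hRge := H.R_ge
  have hReq := R_eq H
  have hL0 := H.log_nonneg
  have ha0 := aa_pos (w := w) (by linarith [H.hw])
  set σ := sg n w with hσdef
  set R := Real.sqrt n with hRdef
  set y := 1 / σ with hy
  have hy0 : 0 < y := by positivity
  set c : ℝ := gapinf w - 25883 / 100000 * (2 * w / (1 + w)) with hc
  set M : ℝ := Real.exp (-(c * y) + 22 / 100) with hM
  have hpt : ∀ θ τ : ℝ, 5 * Real.pi / 12 ≤ |θ| → |θ| ≤ Real.pi → 0 ≤ τ → τ ≤ TT w →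
      NP n w θ τ ≤ M := by
    intro θ τ h1 h2 h3 h4
    refine (NP_le_b H h1 h2 h3 h4).trans (Real.exp_le_exp.2 ?_)
    rw [← hσdef]
    have e : c / σ = c * y := by rw [hy]; ring
    rw [← hc, e]
    have hσ1 : σ ≤ 1 / 10.55 := by
      rw [hy, le_div_iff₀ hσ] at hinv
      rw [le_div_iff₀ (by norm_num)]
      linarith
    have h5 : 2 * τ ^ 2 + 2 * τ + 77 / 100 ≤ 1827 / 100 := by nlinarith
    have h6 : σ / 8 * (2 * τ ^ 2 + 2 * τ + 77 / 100) ≤ 1 / 10.55 / 8 * (1827 / 100) := by
      gcongr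
    norm_num at h6 ⊢
    linarith
  have hinner : ∀ τ ∈ Set.uIoc (0 : ℝ) (TT w),
      ‖(∫ θ in (5 * Real.pi / 12)..Real.pi, NP n w θ τ) +
        ∫ θ in (-Real.pi)..(-(5 * Real.pi / 12)), NP n w θ τ‖ ≤ M * (7 * Real.pi / 6) := by
    intro τ hτ
    rw [Set.uIoc_of_le hT0.le] at hτ
    have g1 : ‖∫ θ in (5 * Real.pi / 12)..Real.pi, NP n w θ τ‖ ≤
        M * |Real.pi - 5 * Real.pi / 12| := by
      refine intervalIntegral.norm_integral_le_of_norm_le_const fun θ hθ => ?_
      rw [Set.uIoc_of_le (by linarith)] at hθ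
      rw [Real.norm_eq_abs, abs_of_nonneg (NP_nonneg n w θ τ)]
      have hθ0 : 0 ≤ θ := by linarith [hθ.1]
      exact hpt θ τ (by rw [abs_of_nonneg hθ0]; exact hθ.1.le)
        (by rw [abs_of_nonneg hθ0]; exact hθ.2) hτ.1.le hτ.2
    have g2 : ‖∫ θ in (-Real.pi)..(-(5 * Real.pi / 12)), NP n w θ τ‖ ≤
        M * |-(5 * Real.pi / 12) - -Real.pi| := by
      refine intervalIntegral.norm_integral_le_of_norm_le_const fun θ hθ => ?_
      rw [Set.uIoc_of_le (by linarith)] at hθ
      rw [Real.norm_eq_abs, abs_of_nonneg (NP_nonneg n w θ τ)]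
      have hθ0 : θ ≤ 0 := by linarith [hθ.2]
      exact hpt θ τ (by rw [abs_of_nonpos hθ0]; linarith [hθ.2])
        (by rw [abs_of_nonpos hθ0]; linarith [hθ.1]) hτ.1.le hτ.2
    rw [abs_of_pos (by linarith)] at g1 g2
    refine (norm_add_le _ _).trans ((add_le_add g1 g2).trans (le_of_eq (by ring)))
  have houter := intervalIntegral.norm_integral_le_of_norm_le_const hinner
  rw [sub_zero, abs_of_pos hT0] at houter
  have hI := (le_abs_self _).trans houter
  have hM0 : 0 < M := Real.exp_pos _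
  have hstep : Kn n w * ∫ τ in (0 : ℝ)..(TT w),
      ((∫ θ in (5 * Real.pi / 12)..Real.pi, NP n w θ τ) +
        ∫ θ in (-Real.pi)..(-(5 * Real.pi / 12)), NP n w θ τ) ≤
      7 / 6 * (R * TT w) * M := by
    refine (mul_le_mul_of_nonneg_left hI (Kn_nonneg H)).trans ?_
    refine (mul_le_mul_of_nonneg_right H.Kn_le (by positivity)).trans (le_of_eq ?_)
    rw [← hRdef]
    field_simp
  refine hstep.trans ?_
  have he : Real.exp (22 / 100) ≤ 13 / 10 := by
    have h1 : 1 - 22 / 100 ≤ Real.exp (-(22 / 100)) := Real.one_sub_le_exp_neg _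
    have h2 : Real.exp (22 / 100) * Real.exp (-(22 / 100)) = 1 := by
      rw [← Real.exp_add]; simp
    have h3 := Real.exp_pos (22 / 100)
    nlinarith
  have hMe : M = Real.exp (-(c * y)) * Real.exp (22 / 100) := by rw [hM, Real.exp_add]
  rcases le_total (Real.log w) 10 with hL | hL
  · have hg := gap_b H hL
    rw [← hc] at hg
    have h1 : 11 / 100 * R ≤ c * y := by
      rw [hReq]
      have := mul_le_mul_of_nonneg_right hg hy0.le
      linarith
    have h2 := decr 1 (k := 11 / 100) (x₀ := 100) (x := R) (by norm_num) hRge (by norm_num)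
    have h3 := exp_neg_le 11
    have h4 : Real.exp (-(c * y)) ≤ Real.exp (-(11 / 100 * R)) := Real.exp_le_exp.2 (by linarith)
    have h5 : R * Real.exp (-(c * y)) ≤ 100 * (1 / 2.718) ^ 11 := by
      calc R * Real.exp (-(c * y)) ≤ R * Real.exp (-(11 / 100 * R)) :=
            mul_le_mul_of_nonneg_left h4 (by linarith)
        _ ≤ 100 * Real.exp (-(11 / 100 * 100)) := by simpa using h2
        _ ≤ _ := by
            have e : (-(11 / 100 * 100) : ℝ) = -((11 : ℕ) : ℝ) := by norm_num
            rw [e]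
            exact mul_le_mul_of_nonneg_left h3 (by norm_num)
    rw [hMe]
    have h6 : 0 ≤ R * Real.exp (-(c * y)) := by positivity
    calc 7 / 6 * (R * TT w) * (Real.exp (-(c * y)) * Real.exp (22 / 100))
        = 7 / 6 * TT w * (R * Real.exp (-(c * y))) * Real.exp (22 / 100) := by ring
      _ ≤ 7 / 6 * (5 / 2) * (100 * (1 / 2.718) ^ 11) * (13 / 10) := by gcongr
      _ ≤ 1 / 100 := by norm_num
  · obtain ⟨l1, l2, l3, l4⟩ := large H hL
    rw [← hσdef, ← hy] at l3 l4
    have hm := mass_le_two H.hw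
    have hTL := H.TT_mul_log
    have hpi4 := Real.pi_lt_d4
    have hRT : R * TT w ≤ 2404 / 1000 * y := by
      rw [hReq]
      have h1 : aa w * TT w ≤ 2404 / 1000 := by
        have : aa w * TT w ≤ 102 / 100 * Real.log w * TT w :=
          mul_le_mul_of_nonneg_right l1 hT0.le
        nlinarith
      nlinarith
    have hcy : 14 / 10 * y ≤ c * y := by
      refine mul_le_mul_of_nonneg_right ?_ hy0.le
      rw [hc]; linarith
    have h2 := decr 1 (k := 14 / 10) (x₀ := 12) (x := y) (by norm_num) (by linarith) (by norm_num)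
    have h3 := exp_neg_le 16
    have h4 : Real.exp (-(c * y)) ≤ Real.exp (-(14 / 10 * y)) := Real.exp_le_exp.2 (by linarith)
    have h5 : y * Real.exp (-(c * y)) ≤ 12 * (1 / 2.718) ^ 16 := by
      calc y * Real.exp (-(c * y)) ≤ y * Real.exp (-(14 / 10 * y)) :=
            mul_le_mul_of_nonneg_left h4 hy0.le
        _ ≤ 12 * Real.exp (-(14 / 10 * 12)) := by simpa using h2
        _ ≤ 12 * Real.exp (-((16 : ℕ) : ℝ)) := by
            refine mul_le_mul_of_nonneg_left (Real.exp_le_exp.2 ?_) (by norm_num)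
            norm_num
        _ ≤ _ := mul_le_mul_of_nonneg_left h3 (by norm_num)
    rw [hMe]
    calc 7 / 6 * (R * TT w) * (Real.exp (-(c * y)) * Real.exp (22 / 100))
        ≤ 7 / 6 * (2404 / 1000 * y) * (Real.exp (-(c * y)) * Real.exp (22 / 100)) := by gcongr
      _ = 7 / 6 * (2404 / 1000) * (y * Real.exp (-(c * y))) * Real.exp (22 / 100) := by ring
      _ ≤ 7 / 6 * (2404 / 1000) * (12 * (1 / 2.718) ^ 16) * (13 / 10) := by gcongr
      _ ≤ 1 / 100 := by norm_num

theorem off_far (H : HypM n w) :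
    Kn n w * ∫ τ in (4 : ℝ)..(Real.pi / sg n w), ∫ θ in (-Real.pi)..Real.pi, NP n w θ τ ≤
      1 / 100 := by
  have hσ := H.sg_pos
  have hpi := Real.pi_pos
  have hpi4 := Real.pi_lt_d4
  have hinv := H.inv_sg_ge
  have hRge := H.R_ge
  have hReq := R_eq H
  have hL0 := H.log_nonneg
  have ha0 := aa_pos (w := w) (by linarith [H.hw])
  have hsT := H.sg_mul_TT_le_pi
  set σ := sg n w with hσdef
  set R := Real.sqrt n with hRdef
  set y := 1 / σ with hy
  have hy0 : 0 < y := by positivity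
  have h4 : 4 ≤ Real.pi / σ := by
    rw [le_div_iff₀ hσ]; linarith
  set c : ℝ := gapinf w - 252 / 1000 with hc
  set M : ℝ := Real.exp (-(c * y)) with hM
  have hM0 : 0 < M := Real.exp_pos _
  have hinner : ∀ τ ∈ Set.uIoc (4 : ℝ) (Real.pi / σ),
      ‖∫ θ in (-Real.pi)..Real.pi, NP n w θ τ‖ ≤ M * (2 * Real.pi) := by
    intro τ hτ
    rw [Set.uIoc_of_le h4] at hτ
    have g1 : ‖∫ θ in (-Real.pi)..Real.pi, NP n w θ τ‖ ≤ M * |Real.pi - -Real.pi| := by
      refine intervalIntegral.norm_integral_le_of_norm_le_const fun θ _ => ?_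
      rw [Real.norm_eq_abs, abs_of_nonneg (NP_nonneg n w θ τ)]
      refine (NP_le_far H hτ.1.le hτ.2).trans (Real.exp_le_exp.2 (le_of_eq ?_))
      rw [← hσdef, ← hc, hy]; ring
    rw [abs_of_pos (by linarith)] at g1
    refine g1.trans (le_of_eq (by ring))
  have houter := intervalIntegral.norm_integral_le_of_norm_le_const hinner
  rw [abs_of_nonneg (by linarith)] at houter
  have hI := (le_abs_self _).trans houter
  have hstep : Kn n w * ∫ τ in (4 : ℝ)..(Real.pi / σ), ∫ θ in (-Real.pi)..Real.pi, NP n w θ τ ≤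
      2 * Real.pi * (R * y) * M := by
    refine (mul_le_mul_of_nonneg_left hI (Kn_nonneg H)).trans ?_
    have h5 : M * (2 * Real.pi) * (Real.pi / σ - 4) ≤ M * (2 * Real.pi) * (Real.pi * y) := by
      refine mul_le_mul_of_nonneg_left ?_ (by positivity)
      rw [hy]
      have : Real.pi / σ = Real.pi * (1 / σ) := by ring
      linarith
    refine (mul_le_mul_of_nonneg_left h5 (Kn_nonneg H)).trans ?_
    refine (mul_le_mul_of_nonneg_right H.Kn_le (by positivity)).trans (le_of_eq ?_)
    rw [← hRdef]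
    field_simp
  refine hstep.trans ?_
  rcases le_total (Real.log w) 10 with hL | hL
  · have hg := gap_far H hL
    rw [← hc] at hg
    have h1 : 16 / 100 * R ≤ c * y := by
      rw [hReq]
      have := mul_le_mul_of_nonneg_right hg hy0.le
      linarith
    have ha1 := aa_ge_one H.hw
    have hyR : 106 / 100 * y ≤ R := by
      rw [hReq]; exact mul_le_mul_of_nonneg_right ha1 hy0.le
    have h2 := decr 2 (k := 16 / 100) (x₀ := 100) (x := R) (by norm_num) hRge (by norm_num)
    have h3 := exp_neg_le 16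
    have h4 : M ≤ Real.exp (-(16 / 100 * R)) := Real.exp_le_exp.2 (by linarith)
    have h5 : R ^ 2 * M ≤ 100 ^ 2 * (1 / 2.718) ^ 16 := by
      calc R ^ 2 * M ≤ R ^ 2 * Real.exp (-(16 / 100 * R)) :=
            mul_le_mul_of_nonneg_left h4 (by positivity)
        _ ≤ 100 ^ 2 * Real.exp (-(16 / 100 * 100)) := h2
        _ ≤ _ := by
            have e : (-(16 / 100 * 100) : ℝ) = -((16 : ℕ) : ℝ) := by norm_num
            rw [e]
            exact mul_le_mul_of_nonneg_left h3 (by norm_num)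
    have h6 : R * y ≤ R * (R / (106 / 100)) := by
      refine mul_le_mul_of_nonneg_left ?_ (by linarith)
      rw [le_div_iff₀ (by norm_num)]; linarith
    calc 2 * Real.pi * (R * y) * M ≤ 2 * 3.1416 * (R * (R / (106 / 100))) * M := by gcongr
      _ = 2 * 3.1416 / (106 / 100) * (R ^ 2 * M) := by ring
      _ ≤ 2 * 3.1416 / (106 / 100) * (100 ^ 2 * (1 / 2.718) ^ 16) := by gcongr
      _ ≤ 1 / 100 := by norm_num
  · obtain ⟨l1, l2, l3, l4⟩ := large H hL
    rw [← hσdef, ← hy] at l3 l4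
    have ha : aa w ≤ 84 / 100 * y := by
      have : 122 / 100 * Real.log w ≤ y := by nlinarith
      linarith
    have hcy : 16 / 10 * y ≤ c * y := by
      refine mul_le_mul_of_nonneg_right ?_ hy0.le
      rw [hc]; linarith
    have h2 := decr 3 (k := 16 / 10) (x₀ := 12) (x := y) (by norm_num) (by linarith) (by norm_num)
    have h3 := exp_neg_le 19
    have h4 : M ≤ Real.exp (-(16 / 10 * y)) := Real.exp_le_exp.2 (by linarith)
    have h5 : y ^ 3 * M ≤ 12 ^ 3 * (1 / 2.718) ^ 19 := by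
      calc y ^ 3 * M ≤ y ^ 3 * Real.exp (-(16 / 10 * y)) :=
            mul_le_mul_of_nonneg_left h4 (by positivity)
        _ ≤ 12 ^ 3 * Real.exp (-(16 / 10 * 12)) := h2
        _ ≤ 12 ^ 3 * Real.exp (-((19 : ℕ) : ℝ)) := by
            refine mul_le_mul_of_nonneg_left (Real.exp_le_exp.2 ?_) (by norm_num)
            norm_num
        _ ≤ _ := mul_le_mul_of_nonneg_left h3 (by norm_num)
    have hRy : R * y ≤ 84 / 100 * y ^ 3 := by
      rw [hReq]
      have : aa w * y * y ≤ 84 / 100 * y * y * y := by gcongr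
      nlinarith
    calc 2 * Real.pi * (R * y) * M ≤ 2 * 3.1416 * (84 / 100 * y ^ 3) * M := by gcongr
      _ = 2 * 3.1416 * (84 / 100) * (y ^ 3 * M) := by ring
      _ ≤ 2 * 3.1416 * (84 / 100) * (12 ^ 3 * (1 / 2.718) ^ 19) := by gcongr
      _ ≤ 1 / 100 := by norm_num

end Pool.Agent.Lib.Durfee
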