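import Pool.Agent.Lib.MP_9393b1_co.OffBase

/-! # Regime M: off the window, `T ≤ τ ≤ 4`, `3 ≤ L ≤ 7` -/

set_option autoImplicit false

namespace Pool.Agent.Lib.Durfee

open Complex MeasureTheory Filter Topology

variable {n : ℕ} {w : ℝ}

private theorem offMid_rect {a b C : ℝ} (hab : a ≤ b)
    (h : ∀ τ, a < τ → τ ≤ b → ∫ θ in (-Real.pi)..Real.pi, NP n w θ τ ≤ C) :
    ∫ τ in a..b, ∫ θ in (-Real.pi)..Real.pi, NP n w θ τ ≤ C * (b - a) := by
  have hpi := Real.pi_pos
  have h1 := intervalIntegral.norm_integral_le_of_norm_le_const (a := a) (b := b) (C := C)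
    (f := fun τ => ∫ θ in (-Real.pi)..Real.pi, NP n w θ τ) (by
      intro τ hτ
      rw [Set.uIoc_of_le hab] at hτ
      rw [Real.norm_of_nonneg (intervalIntegral.integral_nonneg (by linarith)
        (fun θ _ => NP_nonneg n w θ τ))]
      exact h τ hτ.1 hτ.2)
  rw [abs_of_nonneg (sub_nonneg.2 hab)] at h1
  exact (Real.le_norm_self _).trans h1

private theorem offMid_two_div {l0 e0 : ℝ} (hw : 1 ≤ w) (hl : l0 ≤ Real.log w) (he0 : 0 < e0)
    (he : e0 ≤ Real.exp l0) : 2 / w ≤ 2 / e0 := by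
  have h1 : e0 ≤ w := by
    calc e0 ≤ Real.exp l0 := he
      _ ≤ Real.exp (Real.log w) := Real.exp_le_exp.2 hl
      _ = w := Real.exp_log (by linarith)
  exact div_le_div_of_nonneg_left (by norm_num) he0 h1

private theorem offMid_pisq : (9.8695 : ℝ) ≤ Real.pi ^ 2 ∧ Real.pi ^ 2 ≤ 9.8697 := by
  have h1 := Real.pi_gt_d6
  have h2 := Real.pi_lt_d6
  constructor <;> nlinarith

private theorem offMid_gap {l0 g : ℝ} (H : HypM n w) (h9 : 9 / 10 ≤ l0) (hl : l0 ≤ Real.log w)
    (hg : 97.42 ≤ g * (12 * (l0 ^ 2 + 4))) : 2 - g ≤ gapinf w := by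
  have hw0 : 0 < w := by linarith [H.hw]
  have h1 := gapinf_ge_large hw0 (h9.trans hl)
  have h2 : Real.pi ^ 4 ≤ 97.42 := by
    have h3 := offMid_pisq
    have h4 : Real.pi ^ 4 = Real.pi ^ 2 * Real.pi ^ 2 := by ring
    rw [h4]
    nlinarith [h3.1, h3.2]
  have h5 : l0 ^ 2 ≤ Real.log w ^ 2 := pow_le_pow_left₀ (by linarith) hl 2
  have hg0 : 0 ≤ g := by
    by_contra hneg
    push Not at hneg
    nlinarith [sq_nonneg l0]
  have h6 : Real.pi ^ 4 / (12 * (Real.log w ^ 2 + 4)) ≤ g := by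
    rw [div_le_iff₀ (by positivity)]
    nlinarith
  linarith

private theorem offMid_a {l1 A : ℝ} (H : HypM n w) (hl : Real.log w ≤ l1) (hA0 : 0 ≤ A)
    (hA : l1 ^ 2 + 3.29 ≤ A ^ 2) : aa w ≤ A := by
  apply le_of_sq_le_sq _ hA0
  have h1 := U_le_large H.hw
  have h2 := offMid_pisq.2
  have h3 : Real.log w ^ 2 ≤ l1 ^ 2 := pow_le_pow_left₀ H.log_nonneg hl 2
  linarith

private theorem offMid_e (k : ℕ) : (2.718 : ℝ) ^ k ≤ Real.exp k := by
  have h1 := Real.exp_one_gt_d9
  have h2 : Real.exp (k : ℝ) = Real.exp 1 ^ k := by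
    rw [← Real.exp_nat_mul]
    norm_num
  rw [h2]
  exact pow_le_pow_left₀ (by norm_num) (by linarith) k

/-- the rectangle bound for `1 ≤ τ ≤ 4` -/
private theorem offMid_14 (H : HypM n w) {ζ : ℝ}
    (hz : ∀ τ, 1 ≤ τ → τ ≤ 4 → |z1 w τ| ≤ ζ) :
    Kn n w * ∫ τ in (1 : ℝ)..(4 : ℝ), ∫ θ in (-Real.pi)..Real.pi, NP n w θ τ ≤
      6 * Real.sqrt n * Real.exp (-((gapinf w - ζ) / sg n w) + 51 / 10 * sg n w) := by
  have hpi := Real.pi_pos
  have hR := H.R_ge
  have hR0 : 0 < Real.sqrt n := by linarith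
  have hKn := H.Kn_le
  set E := Real.exp (-((gapinf w - ζ) / sg n w) + 51 / 10 * sg n w) with hE
  have hE0 : 0 < E := Real.exp_pos _
  have h1 : ∫ τ in (1 : ℝ)..(4 : ℝ), ∫ θ in (-Real.pi)..Real.pi, NP n w θ τ ≤
      (E * (2 * Real.pi)) * (4 - 1) := by
    apply offMid_rect (by norm_num)
    intro τ h1 h4
    have h2 := intervalIntegral.norm_integral_le_of_norm_le_const (a := -Real.pi) (b := Real.pi)
      (C := E) (f := fun θ => NP n w θ τ) (by
        intro θ _
        rw [Real.norm_of_nonneg (NP_nonneg n w θ τ)]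
        exact NP_le_of_z1 H (by linarith) h4 (hz τ h1.le h4))
    rw [abs_of_nonneg (by linarith)] at h2
    refine ((Real.le_norm_self _).trans h2).trans (le_of_eq ?_)
    ring
  have h0 : 0 ≤ ∫ τ in (1 : ℝ)..(4 : ℝ), ∫ θ in (-Real.pi)..Real.pi, NP n w θ τ := by
    apply intervalIntegral.integral_nonneg (by norm_num)
    intro τ _
    apply intervalIntegral.integral_nonneg (by linarith)
    intro θ _
    exact NP_nonneg n w θ τ
  calc Kn n w * ∫ τ in (1 : ℝ)..(4 : ℝ), ∫ θ in (-Real.pi)..Real.pi, NP n w θ τ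
      ≤ (Real.sqrt n / Real.pi) * ∫ τ in (1 : ℝ)..(4 : ℝ), ∫ θ in (-Real.pi)..Real.pi, NP n w θ τ :=
        mul_le_mul_of_nonneg_right hKn h0
    _ ≤ (Real.sqrt n / Real.pi) * ((E * (2 * Real.pi)) * (4 - 1)) :=
        mul_le_mul_of_nonneg_left h1 (by positivity)
    _ = _ := by
        field_simp
        ring

private theorem offMid_SS_one : SS 1 ≤ 549 / 1000 := by
  have h1 := SS_le_six (κ := 1) one_pos
  refine h1.trans ?_
  have h2 := offMid_pisq.1
  rw [mul_one]
  have h3 : (9.8695 : ℝ) ^ 2 ≤ (Real.pi ^ 2) ^ 2 := pow_le_pow_left₀ (by norm_num) h2 2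
  have h4 : (9.8695 : ℝ) ^ 3 ≤ (Real.pi ^ 2) ^ 3 := pow_le_pow_left₀ (by norm_num) h2 3
  rw [← pow_mul] at h3 h4
  rw [div_le_div_iff₀ (by positivity) (by norm_num)]
  norm_num at h2 h3 h4 ⊢
  linarith

private theorem offMid_z (H : HypM n w) {τ : ℝ} (h1 : 1 ≤ τ) : |z1 w τ| ≤ 549 / 1000 + 2 / w := by
  have hw0 : 0 < w := by linarith [H.hw]
  have hτ : 0 < τ := by linarith
  rw [z1_eq hw0 hτ]
  refine (abs_add_le _ _).trans (add_le_add ?_ (tail_le_exp H.hw))
  rw [abs_mul, abs_of_pos (SS_pos hτ)]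
  have h2 := SS_anti one_pos h1
  have h3 := Real.abs_sin_le_one (τ * Real.log w)
  have h4 := SS_pos hτ
  calc SS τ * |Real.sin (τ * Real.log w)| ≤ SS τ * 1 := mul_le_mul_of_nonneg_left h3 h4.le
    _ ≤ 549 / 1000 := by linarith [offMid_SS_one]

/-- bounded `L` -/
private theorem offMid_14_fin (H : HypM n w) {c A : ℝ} (hA : aa w ≤ A) (hA0 : 0 < A) (hA9 : A ≤ 9)
    (hc : c ≤ gapinf w - (549 / 1000 + 2 / w)) (hc0 : (14 + 51 / 1000 * A) * A ≤ 100 * c) :
    Kn n w * ∫ τ in (1 : ℝ)..(4 : ℝ), ∫ θ in (-Real.pi)..Real.pi, NP n w θ τ ≤ 1 / 1000 := by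
  have hw0 : 0 < w := by linarith [H.hw]
  have hR := H.R_ge
  have ha := aa_pos (w := w) hw0
  have hs := H.sg_pos
  refine (offMid_14 H (fun τ h1 _ => offMid_z H h1)).trans ?_
  set R := Real.sqrt n with hRdef
  have hR0 : 0 < R := by linarith
  have hc1 : 0 < c := by
    have : 0 < (14 + 51 / 1000 * A) * A := by positivity
    linarith
  have h1 : c * (R / A) ≤ (gapinf w - (549 / 1000 + 2 / w)) / sg n w := by
    have h2 : (gapinf w - (549 / 1000 + 2 / w)) / sg n w =
        (gapinf w - (549 / 1000 + 2 / w)) * (R / aa w) := by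
      unfold sg
      rw [← hRdef]
      field_simp
    rw [h2]
    have h3 : R / A ≤ R / aa w := div_le_div_of_nonneg_left hR0.le ha hA
    apply mul_le_mul hc h3 (by positivity)
    linarith
  have h2 : sg n w ≤ A / 100 := by
    unfold sg
    rw [← hRdef, div_le_div_iff₀ hR0 (by norm_num)]
    nlinarith
  have h3 : 14 + 14 / 100 * (R - 100) ≤ c * (R / A) - 51 / 10 * sg n w := by
    have h4 : (14 + 51 / 1000 * A) * R / 100 ≤ c * (R / A) := by
      rw [← mul_div_assoc, div_le_div_iff₀ (by norm_num) hA0]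
      nlinarith
    nlinarith
  have h5 : Real.exp (-((gapinf w - (549 / 1000 + 2 / w)) / sg n w) + 51 / 10 * sg n w) ≤
      Real.exp (-(14 + 14 / 100 * (R - 100))) := by
    apply Real.exp_le_exp.2
    linarith
  have h6 : 6000 * R ≤ Real.exp (14 + 14 / 100 * (R - 100)) := by
    rw [Real.exp_add]
    have h7 := offMid_e 14
    norm_num at h7
    have h8 := Real.add_one_le_exp (14 / 100 * (R - 100))
    have h9 : (600000 : ℝ) ≤ Real.exp 14 := by linarith
    calc 6000 * R ≤ 600000 * (14 / 100 * (R - 100) + 1) := by nlinarith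
      _ ≤ Real.exp 14 * Real.exp (14 / 100 * (R - 100)) := by
          apply mul_le_mul h9 h8 _ (Real.exp_pos _).le
          nlinarith
  calc 6 * R * Real.exp (-((gapinf w - (549 / 1000 + 2 / w)) / sg n w) + 51 / 10 * sg n w)
      ≤ 6 * R * Real.exp (-(14 + 14 / 100 * (R - 100))) :=
        mul_le_mul_of_nonneg_left h5 (by positivity)
    _ ≤ 1 / 1000 := by
        rw [Real.exp_neg, ← div_eq_mul_inv, div_le_iff₀ (Real.exp_pos _)]
        linarith

/-- large `L` -/
private theorem offMid_14_inf (H : HypM n w) (hL : 82 / 10 ≤ Real.log w) :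
    Kn n w * ∫ τ in (1 : ℝ)..(4 : ℝ), ∫ θ in (-Real.pi)..Real.pi, NP n w θ τ ≤ 1 / 1000 := by
  have hw0 : 0 < w := by linarith [H.hw]
  have hR := H.R_ge
  have ha := aa_pos (w := w) hw0
  have hs := H.sg_pos
  refine (offMid_14 H (fun τ h1 _ => offMid_z H h1)).trans ?_
  have hgap := offMid_gap (g := 1141 / 10000) H (by norm_num) hL (by norm_num)
  have h2w : 2 / w ≤ 2 / 2900 := by
    apply offMid_two_div H.hw hL (by norm_num)
    have h1 := offMid_e 8
    have h2 : Real.exp (82 / 10) = Real.exp 8 * Real.exp (2 / 10) := by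
      rw [← Real.exp_add]; norm_num
    have h3 := Real.add_one_le_exp (2 / 10)
    norm_num at h1
    rw [h2]
    nlinarith [Real.exp_pos 8]
  set y : ℝ := 1 / sg n w with hy
  have hy1 : 1055 / 100 ≤ y := H.inv_sg_ge
  have hy2 := H.inv_sg_ge_sq (by linarith)
  rw [← hy] at hy2
  have hy0 : 0 < y := by linarith
  have hsy : sg n w = 1 / y := by rw [hy, one_div_one_div]
  have hc : 1336 / 1000 ≤ gapinf w - (549 / 1000 + 2 / w) := by
    norm_num at h2w
    linarith
  have haL : aa w ≤ 1034 / 1000 * Real.log w := by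
    apply le_of_sq_le_sq _ (by positivity)
    have h1 := U_le_large H.hw
    have h2 := offMid_pisq.2
    have h3 : 49 ≤ Real.log w ^ 2 := by nlinarith
    nlinarith
  have hLy : Real.log w ≤ 441 / 1000 * (y + 1055 / 100) := by
    apply le_of_sq_le_sq _ (by positivity)
    have h1 : 4 * (1055 / 100) * y ≤ (y + 1055 / 100) ^ 2 := by nlinarith [sq_nonneg (y - 1055 / 100)]
    nlinarith
  have hRy : Real.sqrt n ≤ 457 / 1000 * (y + 1055 / 100) * y := by
    have h1 : Real.sqrt n = aa w * y := by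
      rw [hy]
      unfold sg
      have : Real.sqrt n ≠ 0 := by
        have : (0 : ℝ) < Real.sqrt n := by linarith
        exact this.ne'
      field_simp
    rw [h1]
    apply mul_le_mul_of_nonneg_right _ hy0.le
    linarith
  have h3 : Real.exp (-((gapinf w - (549 / 1000 + 2 / w)) / sg n w) + 51 / 10 * sg n w) ≤
      Real.exp (-(1336 / 1000 * y) + 484 / 1000) := by
    apply Real.exp_le_exp.2
    have h4 : (gapinf w - (549 / 1000 + 2 / w)) / sg n w = (gapinf w - (549 / 1000 + 2 / w)) * y := by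
      rw [hy]; ring
    have h5 : sg n w ≤ 100 / 1055 := by
      rw [hsy, one_div_le hy0 (by norm_num)]
      linarith
    rw [h4]
    nlinarith
  have h4 : 6000 * (457 / 1000 * (y + 1055 / 100) * y) * Real.exp (484 / 1000) ≤
      Real.exp (1336 / 1000 * y) := by
    have h5 : 1336 / 1000 * y = 14 + (1336 / 1000 * y - 14) := by ring
    rw [h5, Real.exp_add]
    have h6 : (1200000 : ℝ) ≤ Real.exp 14 := by
      have h7 : Real.exp 14 = Real.exp 1 ^ 14 := by
        rw [← Real.exp_nat_mul]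
        norm_num
      rw [h7]
      have h8 : (2.7182 : ℝ) ≤ Real.exp 1 := by linarith [Real.exp_one_gt_d9]
      calc (1200000 : ℝ) ≤ 2.7182 ^ 14 := by norm_num
        _ ≤ _ := pow_le_pow_left₀ (by norm_num) h8 14
    have h9 := Real.quadratic_le_exp_of_nonneg (x := 1336 / 1000 * y - 14) (by linarith)
    have h10 : Real.exp (484 / 1000) ≤ 163 / 100 := by
      have h4 := Real.exp_bound' (x := 484 / 1000) (by norm_num) (by norm_num) (n := 4) (by norm_num)
      refine h4.trans ?_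
      norm_num [Finset.sum_range_succ, Nat.factorial]
    calc 6000 * (457 / 1000 * (y + 1055 / 100) * y) * Real.exp (484 / 1000)
        ≤ 6000 * (457 / 1000 * (y + 1055 / 100) * y) * (163 / 100) :=
          mul_le_mul_of_nonneg_left h10 (by positivity)
      _ ≤ 1200000 * (1 + (1336 / 1000 * y - 14) + (1336 / 1000 * y - 14) ^ 2 / 2) := by
          have ht : 0 ≤ y - 1055 / 100 := by linarith
          nlinarith [sq_nonneg (y - 1055 / 100)]
      _ ≤ Real.exp 14 * Real.exp (1336 / 1000 * y - 14) := by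
          apply mul_le_mul h6 h9 _ (Real.exp_pos _).le
          have : 0 ≤ 1336 / 1000 * y - 14 := by linarith
          positivity
  calc 6 * Real.sqrt n * Real.exp (-((gapinf w - (549 / 1000 + 2 / w)) / sg n w) + 51 / 10 * sg n w)
      ≤ 6 * (457 / 1000 * (y + 1055 / 100) * y) * Real.exp (-(1336 / 1000 * y) + 484 / 1000) :=
        mul_le_mul (mul_le_mul_of_nonneg_left hRy (by norm_num)) h3 (Real.exp_pos _).le
          (by positivity)
    _ ≤ 1 / 1000 := by
        rw [Real.exp_add, Real.exp_neg, mul_comm ((Real.exp (1336 / 1000 * y))⁻¹), ← mul_assoc,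
          ← div_eq_mul_inv, div_le_iff₀ (Real.exp_pos _)]
        linarith

/-- `1 ≤ τ ≤ 4`, `L ≥ 3` -/
theorem off_1_4 (H : HypM n w) (hL0 : 3 ≤ Real.log w) :
    Kn n w * ∫ τ in (1 : ℝ)..(4 : ℝ), ∫ θ in (-Real.pi)..Real.pi, NP n w θ τ ≤ 1 / 1000 := by
  rcases le_or_gt (82 / 10) (Real.log w) with h8 | h8
  · exact offMid_14_inf H h8
  have e3 := offMid_e 3
  have e4 := offMid_e 4
  have e5 := offMid_e 5
  have e7 := offMid_e 7
  norm_num at e3 e4 e5 e7
  rcases le_or_gt 7 (Real.log w) with h7 | h7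
  · have hg := offMid_gap (g := 1532 / 10000) H (by norm_num) h7 (by norm_num)
    have hz := offMid_two_div (e0 := 1000) H.hw h7 (by norm_num) (by linarith)
    norm_num at hz
    exact offMid_14_fin (c := 129 / 100) (A := 8.4) H (offMid_a H h8.le (by norm_num) (by norm_num))
      (by norm_num) (by norm_num) (by linarith) (by norm_num)
  rcases le_or_gt 5 (Real.log w) with h5 | h5
  · have hg := offMid_gap (g := 28 / 100) H (by norm_num) h5 (by norm_num)
    have hz := offMid_two_div (e0 := 100) H.hw h5 (by norm_num) (by linarith)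
    norm_num at hz
    exact offMid_14_fin (c := 115 / 100) (A := 7.24) H (offMid_a H h7.le (by norm_num) (by norm_num))
      (by norm_num) (by norm_num) (by linarith) (by norm_num)
  rcases le_or_gt 4 (Real.log w) with h4 | h4
  · have hg := offMid_gap (g := 41 / 100) H (by norm_num) h4 (by norm_num)
    have hz := offMid_two_div (e0 := 50) H.hw h4 (by norm_num) (by linarith)
    norm_num at hz
    exact offMid_14_fin (c := 1) (A := 5.33) H (offMid_a H h5.le (by norm_num) (by norm_num))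
      (by norm_num) (by norm_num) (by linarith) (by norm_num)
  · have hg := offMid_gap (g := 625 / 1000) H (by norm_num) hL0 (by norm_num)
    have hz := offMid_two_div (e0 := 20) H.hw hL0 (by norm_num) (by linarith)
    norm_num at hz
    exact offMid_14_fin (c := 726 / 1000) (A := 4.4) H (offMid_a H h4.le (by norm_num) (by norm_num))
      (by norm_num) (by norm_num) (by linarith) (by norm_num)

private theorem offMid_TT (hL0 : 3 ≤ Real.log w) : TT w = 3 * Real.pi / (4 * Real.log w) := by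
  unfold TT
  rw [if_neg]
  have := Real.pi_lt_d4
  intro h
  linarith

private theorem offMid_SS {κ x0 s : ℝ} (hκ : 0 < κ) (hx0 : 0 ≤ x0) (hx : x0 ≤ Real.pi * κ)
    (hs : 2 ≤ s * (1 + x0 ^ 2 / 6 + x0 ^ 4 / 120 + x0 ^ 6 / 5040)) : SS κ ≤ s := by
  refine (SS_le_six hκ).trans ?_
  have h2 : x0 ^ 2 ≤ (Real.pi * κ) ^ 2 := pow_le_pow_left₀ hx0 hx 2
  have h4 : x0 ^ 4 ≤ (Real.pi * κ) ^ 4 := pow_le_pow_left₀ hx0 hx 4
  have h6 : x0 ^ 6 ≤ (Real.pi * κ) ^ 6 := pow_le_pow_left₀ hx0 hx 6
  have hs0 : 0 ≤ s := by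
    by_contra hneg
    push Not at hneg
    have : 0 < 1 + x0 ^ 2 / 6 + x0 ^ 4 / 120 + x0 ^ 6 / 5040 := by positivity
    nlinarith
  rw [div_le_iff₀ (by positivity)]
  refine hs.trans (mul_le_mul_of_nonneg_left ?_ hs0)
  linarith

private theorem offMid_sin {x : ℝ} (h1 : 3 * Real.pi / 4 ≤ x) (h2 : x ≤ 5 * Real.pi / 4) :
    |Real.sin x| ≤ 7072 / 10000 := by
  have hpi := Real.pi_pos
  have h3 : |x - Real.pi| ≤ Real.pi / 4 := by
    rw [abs_le]
    constructor <;> linarith
  have h4 : |Real.sin x| = |Real.sin (x - Real.pi)| := by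
    rw [Real.sin_sub_pi, abs_neg]
  rw [h4, Real.abs_sin_eq_sin_abs_of_abs_le_pi (by linarith)]
  have h5 : Real.sin |x - Real.pi| ≤ Real.sin (Real.pi / 4) := by
    apply Real.sin_le_sin_of_le_of_le_pi_div_two
    · linarith [abs_nonneg (x - Real.pi)]
    · linarith
    · exact h3
  rw [Real.sin_pi_div_four] at h5
  have h6 : Real.sqrt 2 ≤ 14144 / 10000 := by
    rw [Real.sqrt_le_left (by norm_num)]
    norm_num
  linarith

private theorem offMid_zT (H : HypM n w) (hL0 : 3 ≤ Real.log w) {l1 s : ℝ} (hl1 : Real.log w ≤ l1)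
    (hs1 : 7072 / 10000 * SS (3 * Real.pi / (4 * l1)) ≤ s) (hs2 : SS (5 * Real.pi / (4 * l1)) ≤ s)
    {τ : ℝ} (hτ : TT w ≤ τ) : |z1 w τ| ≤ s + 2 / w := by
  have hw0 : 0 < w := by linarith [H.hw]
  have hpi := Real.pi_pos
  have hT := offMid_TT hL0
  have hL : 0 < Real.log w := by linarith
  have hl : 0 < l1 := by linarith
  have hT1 : 3 * Real.pi / (4 * l1) ≤ TT w := by
    rw [hT]
    apply div_le_div_of_nonneg_left (by positivity) (by positivity)
    linarith
  have hT0 : 0 < TT w := H.TT_pos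
  have hτ0 : 0 < τ := by linarith
  have hSS := SS_pos hτ0
  rw [z1_eq hw0 hτ0]
  refine (abs_add_le _ _).trans (add_le_add ?_ (tail_le_exp H.hw))
  rw [abs_mul, abs_of_pos hSS]
  rcases le_or_gt (τ * Real.log w) (5 * Real.pi / 4) with h | h
  · have h1 : 3 * Real.pi / 4 ≤ τ * Real.log w := by
      have h2 : TT w * Real.log w = 3 * Real.pi / 4 := by
        rw [hT]
        field_simp
      rw [← h2]
      exact mul_le_mul_of_nonneg_right hτ hL.le
    have h3 := offMid_sin h1 h
    have h4 := SS_anti (κ := 3 * Real.pi / (4 * l1)) (by positivity) (hT1.trans hτ)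
    calc SS τ * |Real.sin (τ * Real.log w)| ≤ SS τ * (7072 / 10000) :=
          mul_le_mul_of_nonneg_left h3 hSS.le
      _ ≤ s := by linarith
  · have h1 : 5 * Real.pi / (4 * l1) ≤ τ := by
      rw [div_le_iff₀ (by positivity)]
      have : τ * Real.log w ≤ τ * l1 := mul_le_mul_of_nonneg_left hl1 hτ0.le
      linarith
    have h4 := SS_anti (κ := 5 * Real.pi / (4 * l1)) (by positivity) h1
    have h3 := Real.abs_sin_le_one (τ * Real.log w)
    calc SS τ * |Real.sin (τ * Real.log w)| ≤ SS τ * 1 :=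
          mul_le_mul_of_nonneg_left h3 hSS.le
      _ ≤ s := by linarith

private theorem offMid_T1_fin (H : HypM n w) (hL0 : 3 ≤ Real.log w) {s c A : ℝ} (hA : aa w ≤ A)
    (hA0 : 0 < A) (hA9 : A ≤ 7.24) (hz : ∀ τ, TT w ≤ τ → |z1 w τ| ≤ s + 2 / w) (hs : 1 / 2 ≤ s)
    (hc : c ≤ gapinf w - (s + 2 / w)) (hc0 : (7 + 6 / 1000 * A) * A ≤ 100 * c) :
    Kn n w * ∫ τ in (TT w)..(1 : ℝ), ∫ θ in (-Real.pi)..Real.pi, NP n w θ τ ≤ 5 / 100 := by
  have hw0 : 0 < w := by linarith [H.hw]
  have hpi := Real.pi_pos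
  have hR := H.R_ge
  have ha := aa_pos (w := w) hw0
  have hsg := H.sg_pos
  have hT0 : 0 < TT w := H.TT_pos
  have hT := offMid_TT hL0
  have hT1 : TT w ≤ 1 := by
    rw [hT, div_le_one (by positivity)]
    have := Real.pi_lt_d4
    linarith
  have hKn := H.Kn_le
  set R := Real.sqrt n with hRdef
  have hR0 : 0 < R := by linarith
  set E := Real.exp (-((gapinf w - (s + 2 / w)) / sg n w) + 6 / 10 * sg n w) with hE
  have hE0 : 0 < E := Real.exp_pos _
  have hw2 : 0 < 2 / w := by positivity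
  have h1 : ∫ τ in (TT w)..(1 : ℝ), ∫ θ in (-Real.pi)..Real.pi, NP n w θ τ ≤
      (Real.pi * Real.sqrt Real.pi * Real.sqrt (sg n w) * E) * (1 - TT w) := by
    apply offMid_rect hT1
    intro τ h1 h4
    exact integral_NP_le_of_z1 H (by linarith) h4 (hz τ h1.le) (by linarith)
  have h1' : ∫ τ in (TT w)..(1 : ℝ), ∫ θ in (-Real.pi)..Real.pi, NP n w θ τ ≤
      Real.pi * Real.sqrt Real.pi * Real.sqrt (sg n w) * E := by
    refine h1.trans ?_
    apply mul_le_of_le_one_right (by positivity)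
    linarith
  have h0 : 0 ≤ ∫ τ in (TT w)..(1 : ℝ), ∫ θ in (-Real.pi)..Real.pi, NP n w θ τ := by
    apply intervalIntegral.integral_nonneg hT1
    intro τ _
    apply intervalIntegral.integral_nonneg (by linarith)
    intro θ _
    exact NP_nonneg n w θ τ
  have h2 : Kn n w * ∫ τ in (TT w)..(1 : ℝ), ∫ θ in (-Real.pi)..Real.pi, NP n w θ τ ≤
      R * Real.sqrt Real.pi * Real.sqrt (sg n w) * E := by
    calc Kn n w * ∫ τ in (TT w)..(1 : ℝ), ∫ θ in (-Real.pi)..Real.pi, NP n w θ τ
        ≤ (R / Real.pi) * ∫ τ in (TT w)..(1 : ℝ), ∫ θ in (-Real.pi)..Real.pi, NP n w θ τ :=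
          mul_le_mul_of_nonneg_right hKn h0
      _ ≤ (R / Real.pi) * (Real.pi * Real.sqrt Real.pi * Real.sqrt (sg n w) * E) :=
          mul_le_mul_of_nonneg_left h1' (by positivity)
      _ = _ := by
          field_simp
  refine h2.trans ?_
  have hc1 : 0 < c := by
    have : 0 < (7 + 6 / 1000 * A) * A := by positivity
    linarith
  have h3 : c * (R / A) ≤ (gapinf w - (s + 2 / w)) / sg n w := by
    have h2 : (gapinf w - (s + 2 / w)) / sg n w = (gapinf w - (s + 2 / w)) * (R / aa w) := by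
      unfold sg
      rw [← hRdef]
      field_simp
    rw [h2]
    have h3 : R / A ≤ R / aa w := div_le_div_of_nonneg_left hR0.le ha hA
    apply mul_le_mul hc h3 (by positivity)
    linarith
  have h4 : sg n w ≤ A / 100 := by
    unfold sg
    rw [← hRdef, div_le_div_iff₀ hR0 (by norm_num)]
    nlinarith
  have h5 : 7 + 7 / 100 * (R - 100) ≤ c * (R / A) - 6 / 10 * sg n w := by
    have h4 : (7 + 6 / 1000 * A) * R / 100 ≤ c * (R / A) := by
      rw [← mul_div_assoc, div_le_div_iff₀ (by norm_num) hA0]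
      nlinarith
    nlinarith
  have h6 : E ≤ Real.exp (-(7 + 7 / 100 * (R - 100))) := by
    apply Real.exp_le_exp.2
    linarith
  have h7 : R * Real.sqrt Real.pi * Real.sqrt (sg n w) ≤ 478 / 1000 * R := by
    have h8 : Real.sqrt Real.pi * Real.sqrt (sg n w) ≤ 478 / 1000 := by
      rw [← Real.sqrt_mul hpi.le]
      rw [Real.sqrt_le_left (by norm_num)]
      have h9 := Real.pi_lt_d4
      calc Real.pi * sg n w ≤ 3.1416 * (7.24 / 100) :=
            mul_le_mul h9.le (by linarith) hsg.le (by norm_num)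
        _ ≤ (478 / 1000) ^ 2 := by norm_num
    nlinarith
  have h8 : 20 * (478 / 1000 * R) ≤ Real.exp (7 + 7 / 100 * (R - 100)) := by
    rw [Real.exp_add]
    have h7 := offMid_e 7
    norm_num at h7
    have h8 := Real.add_one_le_exp (7 / 100 * (R - 100))
    have h9 : (1090 : ℝ) ≤ Real.exp 7 := by linarith
    calc 20 * (478 / 1000 * R) ≤ 1090 * (7 / 100 * (R - 100) + 1) := by nlinarith
      _ ≤ Real.exp 7 * Real.exp (7 / 100 * (R - 100)) := by
          apply mul_le_mul h9 h8 _ (Real.exp_pos _).le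
          nlinarith
  calc R * Real.sqrt Real.pi * Real.sqrt (sg n w) * E
      ≤ 478 / 1000 * R * Real.exp (-(7 + 7 / 100 * (R - 100))) :=
        mul_le_mul h7 h6 hE0.le (by positivity)
    _ ≤ 5 / 100 := by
        rw [Real.exp_neg, ← div_eq_mul_inv, div_le_iff₀ (Real.exp_pos _)]
        linarith

private theorem offMid_SS_frac {m l1 x0 s : ℝ} (hl1 : 0 < l1) (hm : 0 < m) (hx0 : 0 ≤ x0)
    (hx : x0 * (4 * l1) ≤ m * 9.8695)
    (hs : 2 ≤ s * (1 + x0 ^ 2 / 6 + x0 ^ 4 / 120 + x0 ^ 6 / 5040)) :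
    SS (m * Real.pi / (4 * l1)) ≤ s := by
  have hpi := Real.pi_pos
  apply offMid_SS (by positivity) hx0 _ hs
  have h1 : Real.pi * (m * Real.pi / (4 * l1)) = m * Real.pi ^ 2 / (4 * l1) := by ring
  rw [h1, le_div_iff₀ (by positivity)]
  have := offMid_pisq.1
  nlinarith

theorem off_T_1 (H : HypM n w) (hL0 : 3 ≤ Real.log w) (hL : Real.log w ≤ 7) :
    Kn n w * ∫ τ in (TT w)..(1 : ℝ), ∫ θ in (-Real.pi)..Real.pi, NP n w θ τ ≤ 5 / 100 := by
  have e3 := offMid_e 3
  have e4 := offMid_e 4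
  have e5 := offMid_e 5
  have e6 := offMid_e 6
  norm_num at e3 e4 e5 e6
  rcases le_or_gt 6 (Real.log w) with h6 | h6
  · have hg := offMid_gap (g := 203 / 1000) H (by norm_num) h6 (by norm_num)
    have hz := offMid_two_div (e0 := 400) H.hw h6 (by norm_num) (by linarith)
    norm_num at hz
    have k1 : SS (3 * Real.pi / (4 * 7)) ≤ 1672 / 1000 :=
      offMid_SS_frac (x0 := 1057 / 1000) (by norm_num) (by norm_num) (by norm_num) (by norm_num)
        (by norm_num)
    have k2 : SS (5 * Real.pi / (4 * 7)) ≤ 1248 / 1000 :=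
      offMid_SS_frac (x0 := 1762 / 1000) (by norm_num) (by norm_num) (by norm_num) (by norm_num)
        (by norm_num)
    exact offMid_T1_fin (c := 54 / 100) (A := 7.235) (s := 1248 / 1000) H hL0
      (offMid_a H hL (by norm_num) (by norm_num)) (by norm_num) (by norm_num)
      (fun τ hτ => offMid_zT H hL0 hL (by linarith) k2 hτ) (by norm_num) (by linarith)
      (by norm_num)
  rcases le_or_gt 5 (Real.log w) with h5 | h5
  · have hg := offMid_gap (g := 28 / 100) H (by norm_num) h5 (by norm_num)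
    have hz := offMid_two_div (e0 := 100) H.hw h5 (by norm_num) (by linarith)
    norm_num at hz
    have k1 : SS (3 * Real.pi / (4 * 6)) ≤ 1572 / 1000 :=
      offMid_SS_frac (x0 := 1233 / 1000) (by norm_num) (by norm_num) (by norm_num) (by norm_num)
        (by norm_num)
    have k2 : SS (5 * Real.pi / (4 * 6)) ≤ 1080 / 1000 :=
      offMid_SS_frac (x0 := 2056 / 1000) (by norm_num) (by norm_num) (by norm_num) (by norm_num)
        (by norm_num)
    exact offMid_T1_fin (c := 58 / 100) (A := 6.27) (s := 1112 / 1000) H hL0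
      (offMid_a H h6.le (by norm_num) (by norm_num)) (by norm_num) (by norm_num)
      (fun τ hτ => offMid_zT H hL0 h6.le (by linarith) (by linarith) hτ) (by norm_num) (by linarith)
      (by norm_num)
  rcases le_or_gt 4 (Real.log w) with h4 | h4
  · have hg := offMid_gap (g := 41 / 100) H (by norm_num) h4 (by norm_num)
    have hz := offMid_two_div (e0 := 50) H.hw h4 (by norm_num) (by linarith)
    norm_num at hz
    have k1 : SS (3 * Real.pi / (4 * 5)) ≤ 1423 / 1000 :=
      offMid_SS_frac (x0 := 148 / 100) (by norm_num) (by norm_num) (by norm_num) (by norm_num)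
        (by norm_num)
    have k2 : SS (5 * Real.pi / (4 * 5)) ≤ 86 / 100 :=
      offMid_SS_frac (x0 := 246 / 100) (by norm_num) (by norm_num) (by norm_num) (by norm_num)
        (by norm_num)
    exact offMid_T1_fin (c := 54 / 100) (A := 5.33) (s := 1007 / 1000) H hL0
      (offMid_a H h5.le (by norm_num) (by norm_num)) (by norm_num) (by norm_num)
      (fun τ hτ => offMid_zT H hL0 h5.le (by linarith) (by linarith) hτ) (by norm_num) (by linarith)
      (by norm_num)
  · have hg := offMid_gap (g := 625 / 1000) H (by norm_num) hL0 (by norm_num)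
    have hz := offMid_two_div (e0 := 20) H.hw hL0 (by norm_num) (by linarith)
    norm_num at hz
    have k1 : SS (3 * Real.pi / (4 * 4)) ≤ 12 / 10 :=
      offMid_SS_frac (x0 := 185 / 100) (by norm_num) (by norm_num) (by norm_num) (by norm_num)
        (by norm_num)
    have k2 : SS (5 * Real.pi / (4 * 4)) ≤ 6 / 10 :=
      offMid_SS_frac (x0 := 308 / 100) (by norm_num) (by norm_num) (by norm_num) (by norm_num)
        (by norm_num)
    exact offMid_T1_fin (c := 42 / 100) (A := 4.4) (s := 85 / 100) H hL0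
      (offMid_a H h4.le (by norm_num) (by norm_num)) (by norm_num) (by norm_num)
      (fun τ hτ => offMid_zT H hL0 h4.le (by linarith) (by linarith) hτ) (by norm_num) (by linarith)
      (by norm_num)

end Pool.Agent.Lib.Durfee
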