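import Pool.Agent.Lib.MP_9393b1_co.OffSmall

/-! # Regime M: `T ≤ τ ≤ 4`, `3π/10 < L ≤ 1.7` -/

set_option autoImplicit false

namespace Pool.Agent.Lib.Durfee

open Complex MeasureTheory Filter Topology

variable {n : ℕ} {w : ℝ}

private theorem osb_exp_neg {k : ℕ} {r x : ℝ} (hr : 0 ≤ r) (hx : k + r ≤ x) :
    Real.exp (-x) ≤ 1 / ((27182818 / 10000000) ^ k * (1 + r + r ^ 2 / 2 + r ^ 3 / 6 + r ^ 4 / 24)) := by
  have h1 : Real.exp (-x) ≤ Real.exp (-(k + r)) := Real.exp_le_exp.2 (by linarith)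
  refine h1.trans ?_
  rw [Real.exp_neg, ← one_div]
  refine one_div_le_one_div_of_le (by positivity) ?_
  rw [Real.exp_add]
  refine mul_le_mul ?_ ?_ (by positivity) (Real.exp_pos _).le
  · have h2 : Real.exp (k : ℝ) = Real.exp 1 ^ k := by rw [← Real.exp_nat_mul, mul_one]
    rw [h2]
    refine pow_le_pow_left₀ (by norm_num) ?_ k
    have := Real.exp_one_gt_d9
    linarith
  · have h3 := Real.sum_le_exp_of_nonneg hr 5
    refine le_trans (le_of_eq ?_) h3
    simp [Finset.sum_range_succ, Nat.factorial]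

private theorem osb_SS {κ y0 s : ℝ} (hy0 : 0 < y0) (hκ : y0 ≤ Real.pi * κ)
    (hs : 2 ≤ s * (1 + y0 ^ 2 / 6 + y0 ^ 4 / 120 + y0 ^ 6 / 5040)) : SS κ ≤ s := by
  have hκ0 : 0 < κ := (pos_iff_pos_of_mul_pos (lt_of_lt_of_le hy0 hκ)).1 Real.pi_pos
  refine (SS_le_six hκ0).trans ?_
  have h2 : y0 ^ 2 ≤ (Real.pi * κ) ^ 2 := pow_le_pow_left₀ hy0.le hκ 2
  have h4 : y0 ^ 4 ≤ (Real.pi * κ) ^ 4 := pow_le_pow_left₀ hy0.le hκ 4
  have h6 : y0 ^ 6 ≤ (Real.pi * κ) ^ 6 := pow_le_pow_left₀ hy0.le hκ 6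
  have hs0 : 0 < s := by
    by_contra hcon
    push Not at hcon
    have : s * (1 + y0 ^ 2 / 6 + y0 ^ 4 / 120 + y0 ^ 6 / 5040) ≤ 0 :=
      mul_nonpos_of_nonpos_of_nonneg hcon (by positivity)
    linarith
  have hp : 0 < 1 + (Real.pi * κ) ^ 2 / 6 + (Real.pi * κ) ^ 4 / 120 + (Real.pi * κ) ^ 6 / 5040 := by
    have : 0 < Real.pi * κ := lt_of_lt_of_le hy0 hκ
    positivity
  rw [div_le_iff₀ hp]
  refine hs.trans (mul_le_mul_of_nonneg_left ?_ hs0.le)
  linarith

private theorem osb_sin {x : ℝ} (h1 : 3 * Real.pi / 4 ≤ x) (h2 : x ≤ 5 * Real.pi / 4) :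
    |Real.sin x| ≤ 7072 / 10000 := by
  have e : Real.sin x = Real.sin (Real.pi - x) := (Real.sin_pi_sub x).symm
  have hs : Real.sin (Real.pi / 4) ≤ 7072 / 10000 := by
    rw [Real.sin_pi_div_four]
    have : Real.sqrt 2 ≤ 14144 / 10000 := by
      rw [Real.sqrt_le_left (by norm_num)]
      norm_num
    linarith
  have hpi := Real.pi_pos
  rw [e, abs_le]
  constructor
  · have : Real.sin (-(Real.pi / 4)) ≤ Real.sin (Real.pi - x) :=
      Real.sin_le_sin_of_le_of_le_pi_div_two (by linarith) (by linarith) (by linarith)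
    rw [Real.sin_neg] at this
    linarith
  · have : Real.sin (Real.pi - x) ≤ Real.sin (Real.pi / 4) :=
      Real.sin_le_sin_of_le_of_le_pi_div_two (by linarith) (by linarith) (by linarith)
    linarith

/-- bound for `SS τ |sin (τ L)|` -/
private theorem osb_SSsin {L l1 y0 ζ τ : ℝ} (hL0 : 0 < L) (hL : L ≤ l1) (hy0 : 0 < y0)
    (hy : 4 * l1 * y0 ≤ 3 * (9869 / 1000)) (hτ : 3 * Real.pi / (4 * L) ≤ τ)
    (h1 : 2 * (7072 / 10000) ≤ ζ * (1 + y0 ^ 2 / 6 + y0 ^ 4 / 120 + y0 ^ 6 / 5040))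
    (h2 : 2 ≤ ζ * (1 + (5 / 3 * y0) ^ 2 / 6 + (5 / 3 * y0) ^ 4 / 120 + (5 / 3 * y0) ^ 6 / 5040)) :
    0 < τ ∧ SS τ * |Real.sin (τ * L)| ≤ ζ := by
  have hpi := Real.pi_pos
  have hpi2 : 9869 / 1000 ≤ Real.pi ^ 2 := by
    have := Real.pi_gt_d4
    nlinarith
  have hτ0 : 0 < τ := lt_of_lt_of_le (by positivity) hτ
  have hτL : 3 * Real.pi / 4 ≤ τ * L := by
    have := mul_le_mul_of_nonneg_right hτ hL0.le
    have e : 3 * Real.pi / (4 * L) * L = 3 * Real.pi / 4 := by field_simp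
    rwa [e] at this
  have hl1 : 0 < l1 := hL0.trans_le hL
  have hyπ : y0 ≤ Real.pi * τ := by
    have e1 : y0 * (4 * l1) ≤ 3 * Real.pi ^ 2 := by linarith
    have e2 : 3 * Real.pi ^ 2 ≤ Real.pi * τ * (4 * L) := by nlinarith
    have e3 : Real.pi * τ * (4 * L) ≤ Real.pi * τ * (4 * l1) :=
      mul_le_mul_of_nonneg_left (by linarith) (by positivity)
    exact le_of_mul_le_mul_right (e1.trans (e2.trans e3)) (by positivity)
  have hζ : 0 < ζ := by
    by_contra hcon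
    push Not at hcon
    have : ζ * (1 + y0 ^ 2 / 6 + y0 ^ 4 / 120 + y0 ^ 6 / 5040) ≤ 0 :=
      mul_nonpos_of_nonpos_of_nonneg hcon (by positivity)
    linarith
  refine ⟨hτ0, ?_⟩
  have hSS := SS_pos hτ0
  rcases le_total (τ * L) (5 * Real.pi / 4) with h | h
  · have e1 := osb_sin hτL h
    have e2 : SS τ ≤ ζ / (7072 / 10000) := by
      refine osb_SS hy0 hyπ ?_
      rw [div_mul_eq_mul_div, le_div_iff₀ (by norm_num)]
      exact h1
    calc SS τ * |Real.sin (τ * L)| ≤ ζ / (7072 / 10000) * (7072 / 10000) :=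
          mul_le_mul e2 e1 (abs_nonneg _) (by positivity)
      _ = ζ := by field_simp
  · have e2 : SS τ ≤ ζ := by
      refine osb_SS (y0 := 5 / 3 * y0) (by positivity) ?_ h2
      have e3 : 5 / 3 * y0 * (4 * l1) ≤ 5 * Real.pi ^ 2 := by linarith
      have e4 : 5 * Real.pi ^ 2 ≤ Real.pi * τ * (4 * L) := by nlinarith
      have e5 : Real.pi * τ * (4 * L) ≤ Real.pi * τ * (4 * l1) :=
        mul_le_mul_of_nonneg_left (by linarith) (by positivity)
      exact le_of_mul_le_mul_right (e3.trans (e4.trans e5)) (by positivity)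
    calc SS τ * |Real.sin (τ * L)| ≤ ζ * 1 :=
          mul_le_mul e2 (Real.abs_sin_le_one _) (abs_nonneg _) hζ.le
      _ = ζ := mul_one _

/-- the general step -/
private theorem osb_step (H : HypM n w) {l1 y0 ζ t g c A t1 : ℝ} {k : ℕ} {r : ℝ}
    (hL3 : 3 * Real.pi / 10 < Real.log w) (hL : Real.log w ≤ l1) (hy0 : 0 < y0)
    (hy : 4 * l1 * y0 ≤ 3 * (9869 / 1000))
    (h1 : 2 * (7072 / 10000) ≤ ζ * (1 + y0 ^ 2 / 6 + y0 ^ 4 / 120 + y0 ^ 6 / 5040))
    (h2 : 2 ≤ ζ * (1 + (5 / 3 * y0) ^ 2 / 6 + (5 / 3 * y0) ^ 4 / 120 + (5 / 3 * y0) ^ 6 / 5040))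
    (ht : ∀ τ, 3 * Real.pi / (4 * Real.log w) ≤ τ →
      |∫ x in Set.Ioi (0 : ℝ), om (x + Real.log w) * Real.sin (τ * x)| ≤ t)
    (hg : g ≤ gapinf w) (hc : 0 < c) (hcg : c ≤ g - (ζ + t)) (hA0 : 0 < A)
    (hA : l1 ^ 2 + 329 / 100 ≤ A ^ 2) (hcA : A ≤ 100 * c) (ht1 : 4 * l1 * t1 ≤ 3 * (31415 / 10000))
    (ht4 : t1 ≤ 4) (hr : 0 ≤ r) (hk : k + r ≤ 100 * c / A - 51 / 1000 * A)
    (hfin : 200 * (4 - t1) * (1 / ((27182818 / 10000000) ^ k *
      (1 + r + r ^ 2 / 2 + r ^ 3 / 6 + r ^ 4 / 24))) ≤ 6 / 100) :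
    Kn n w * ∫ τ in (TT w)..(4 : ℝ), ∫ θ in (-Real.pi)..Real.pi, NP n w θ τ ≤ 6 / 100 := by
  have hw0 : 0 < w := by have := H.hw; linarith
  have hpi := Real.pi_pos
  have hL0 : 0 < Real.log w := lt_trans (by positivity) hL3
  have hl1 : 0 < l1 := hL0.trans_le hL
  have hTT : TT w = 3 * Real.pi / (4 * Real.log w) := by
    rw [TT, if_neg (not_le.2 hL3)]
  have hAa : aa w ≤ A := by
    have e1 := U_le_large H.hw
    have e2 : Real.pi ^ 2 / 3 ≤ 329 / 100 := by
      have := Real.pi_lt_d4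
      nlinarith
    have e3 : Real.log w ^ 2 ≤ l1 ^ 2 := pow_le_pow_left₀ hL0.le hL 2
    exact le_of_sq_le_sq (by linarith) hA0.le
  have hz : ∀ τ, TT w ≤ τ → τ ≤ 4 → |z1 w τ| ≤ ζ + t := by
    intro τ hτ _
    rw [hTT] at hτ
    obtain ⟨hτ0, hs⟩ := osb_SSsin hL0 hL hy0 hy hτ h1 h2
    rw [z1_eq hw0 hτ0]
    refine (abs_add_le _ _).trans (add_le_add ?_ (ht τ hτ))
    rw [abs_mul, abs_of_pos (SS_pos hτ0)]
    exact hs
  have h := off_near_of H hz hc (by linarith) hAa hcA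
  refine h.trans ?_
  have ht1' : t1 ≤ TT w := by
    rw [hTT, le_div_iff₀ (by positivity)]
    have e1 := Real.pi_gt_d4
    have e2 : t1 * (4 * Real.log w) ≤ 3 * (31415 / 10000) := by
      rcases le_total 0 t1 with h0 | h0
      · have : t1 * (4 * Real.log w) ≤ t1 * (4 * l1) :=
          mul_le_mul_of_nonneg_left (by linarith) h0
        linarith
      · have : t1 * (4 * Real.log w) ≤ 0 := mul_nonpos_of_nonpos_of_nonneg h0 (by positivity)
        linarith
    linarith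
  have he : Real.exp (-(100 * c / A) + 51 / 1000 * A) ≤ 1 / ((27182818 / 10000000) ^ k *
      (1 + r + r ^ 2 / 2 + r ^ 3 / 6 + r ^ 4 / 24)) := by
    have e := osb_exp_neg hr hk
    have e2 : -(100 * c / A - 51 / 1000 * A) = -(100 * c / A) + 51 / 1000 * A := by ring
    rwa [e2] at e
  refine le_trans ?_ hfin
  refine mul_le_mul ?_ he (Real.exp_pos _).le (by linarith)
  linarith

private theorem osb_om {L l0 o : ℝ} (h0 : 0 ≤ l0) (h : l0 ≤ L) (ho : 0 < o)
    (hl : 1 ≤ o * (2 + l0 ^ 2 / 2 + l0 ^ 4 / 24)) : om L ≤ o := by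
  have h1 : 1 + L ^ 2 / 2 + L ^ 4 / 24 ≤ Real.cosh L := by
    have h2 := sum_le_hasSum (Finset.range 3) (fun n _ => by
      have : 0 ≤ L := h0.trans h
      positivity) (Real.hasSum_cosh L)
    refine le_trans (le_of_eq ?_) h2
    simp [Finset.sum_range_succ, Nat.factorial]
  have h3 : l0 ^ 2 ≤ L ^ 2 := pow_le_pow_left₀ h0 h 2
  have h4 : l0 ^ 4 ≤ L ^ 4 := pow_le_pow_left₀ h0 h 4
  have h5 : 0 < 1 + Real.cosh L := by
    have := Real.cosh_pos L
    positivity
  rw [om, div_le_iff₀ h5]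
  refine hl.trans (mul_le_mul_of_nonneg_left ?_ ho.le)
  linarith

private theorem osb_tail {l0 l1 o T1 t : ℝ} (hw : 1 ≤ w) (hL3 : 3 * Real.pi / 10 < Real.log w)
    (h0 : 0 ≤ l0) (hl0 : l0 ≤ Real.log w) (hL : Real.log w ≤ l1) (ho : 0 < o)
    (hl : 1 ≤ o * (2 + l0 ^ 2 / 2 + l0 ^ 4 / 24)) (hT1 : 0 < T1)
    (hT : 4 * l1 * T1 ≤ 3 * (31415 / 10000)) (ht : (o + 385 / 1000 / T1) / T1 ≤ t) :
    ∀ τ, 3 * Real.pi / (4 * Real.log w) ≤ τ →
      |∫ x in Set.Ioi (0 : ℝ), om (x + Real.log w) * Real.sin (τ * x)| ≤ t := by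
  intro τ hτ
  have hpi := Real.pi_gt_d4
  have hL0 : 0 < Real.log w := lt_trans (by positivity) hL3
  have hTτ : T1 ≤ τ := by
    refine le_trans ?_ hτ
    rw [le_div_iff₀ (by positivity)]
    have : T1 * (4 * Real.log w) ≤ T1 * (4 * l1) := mul_le_mul_of_nonneg_left (by linarith) hT1.le
    linarith
  have hτ0 : 0 < τ := hT1.trans_le hTτ
  refine (tail_le_parts hw hτ0).trans (le_trans ?_ ht)
  have e1 := osb_om h0 hl0 ho hl
  have e2 : 385 / 1000 / τ ≤ 385 / 1000 / T1 := div_le_div_of_nonneg_left (by norm_num) hT1 hTτ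
  have e3 : 1 / τ ≤ 1 / T1 := one_div_le_one_div_of_le hT1 hTτ
  have e4 : 0 ≤ om (Real.log w) := by
    have := Real.cosh_pos (Real.log w)
    rw [om]
    positivity
  calc 1 / τ * (om (Real.log w) + 385 / 1000 / τ) ≤ 1 / T1 * (o + 385 / 1000 / T1) :=
        mul_le_mul e3 (add_le_add e1 e2) (by positivity) (by positivity)
    _ = (o + 385 / 1000 / T1) / T1 := by ring

theorem off_near_b (H : HypM n w) (hL0 : 3 * Real.pi / 10 < Real.log w)
    (hL : Real.log w ≤ 17 / 10) :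
    Kn n w * ∫ τ in (TT w)..(4 : ℝ), ∫ θ in (-Real.pi)..Real.pi, NP n w θ τ ≤ 6 / 100 := by
  have hgap := gapinf_ge_small H.hw hL
  have hl9 : 9424 / 10000 ≤ Real.log w := by
    have := Real.pi_gt_d4
    linarith
  rcases le_total (Real.log w) (13000 / 10000) with h1 | h1
  · exact osb_step H (l1 := 13000 / 10000) (y0 := 56936 / 10000) (ζ := 647 / 10000) (t := 3401 / 10000) (g := 7156 / 10000)
      (c := 3108 / 10000) (A := 22317 / 10000) (t1 := 18124 / 10000) (k := 13) (r := 81 / 100) hL0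
      (by linarith) (by norm_num) (by norm_num) (by norm_num) (by norm_num)
      (osb_tail (l0 := 9424 / 10000) (l1 := 13000 / 10000) (o := 40374 / 100000) (T1 := 18124 / 10000) H.hw hL0 (by norm_num)
        (by linarith) (by linarith) (by norm_num) (by norm_num) (by norm_num) (by norm_num) (by norm_num))
      (by linarith) (by norm_num) (by norm_num) (by norm_num) (by norm_num) (by norm_num) (by norm_num)
      (by norm_num) (by norm_num) (by norm_num) (by norm_num)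
  · rcases le_total (Real.log w) (15000 / 10000) with h2 | h2
    · exact osb_step H (l1 := 15000 / 10000) (y0 := 49345 / 10000) (ζ := 1101 / 10000) (t := 3710 / 10000) (g := 8049 / 10000)
        (c := 3237 / 10000) (A := 23539 / 10000) (t1 := 15707 / 10000) (k := 13) (r := 63 / 100) hL0
        (by linarith) (by norm_num) (by norm_num) (by norm_num) (by norm_num)
        (osb_tail (l0 := 13000 / 10000) (l1 := 15000 / 10000) (o := 33740 / 100000) (T1 := 15707 / 10000) H.hw hL0 (by norm_num)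
          (by linarith) (by linarith) (by norm_num) (by norm_num) (by norm_num) (by norm_num) (by norm_num))
        (by linarith) (by norm_num) (by norm_num) (by norm_num) (by norm_num) (by norm_num) (by norm_num)
        (by norm_num) (by norm_num) (by norm_num) (by norm_num)
    · exact osb_step H (l1 := 17000 / 10000) (y0 := 43539 / 10000) (ζ := 1664 / 10000) (t := 4169 / 10000) (g := 8550 / 10000)
        (c := 2717 / 10000) (A := 24861 / 10000) (t1 := 13859 / 10000) (k := 10) (r := 80 / 100) hL0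
        (by linarith) (by norm_num) (by norm_num) (by norm_num) (by norm_num)
        (osb_tail (l0 := 15000 / 10000) (l1 := 17000 / 10000) (o := 29978 / 100000) (T1 := 13859 / 10000) H.hw hL0 (by norm_num)
          (by linarith) (by linarith) (by norm_num) (by norm_num) (by norm_num) (by norm_num) (by norm_num))
        (by linarith) (by norm_num) (by norm_num) (by norm_num) (by norm_num) (by norm_num) (by norm_num)
        (by norm_num) (by norm_num) (by norm_num) (by norm_num)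

end Pool.Agent.Lib.Durfee
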