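import Pool.Agent.Lib.MP_9393b1_co.OffTop

/-! # Regime M: the other lobes -/

set_option autoImplicit false

namespace Pool.Agent.Lib.Durfee

open Complex MeasureTheory Filter Topology

variable {n : ℕ} {w : ℝ}

private lemma offC_cos_le_aux {δ : ℝ} (h0 : 0 ≤ δ) (h : δ ≤ Real.pi / 2) :
    Real.cos δ ≤ 1 - 4 / Real.pi ^ 2 * δ ^ 2 := by
  have hpi := Real.pi_pos
  have hc := (strictConcaveOn_sin_Icc.concaveOn).2
    (show (Real.pi / 4) ∈ Set.Icc (0 : ℝ) Real.pi from ⟨by positivity, by linarith⟩)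
    (show (0 : ℝ) ∈ Set.Icc (0 : ℝ) Real.pi from ⟨le_rfl, hpi.le⟩)
    (show (0 : ℝ) ≤ 2 * δ / Real.pi by positivity)
    (show (0 : ℝ) ≤ 1 - 2 * δ / Real.pi by
      rw [sub_nonneg, div_le_one hpi]; linarith)
    (by ring)
  simp only [smul_eq_mul, mul_zero, Real.sin_zero, add_zero] at hc
  have e1 : 2 * δ / Real.pi * (Real.pi / 4) = δ / 2 := by
    field_simp
    ring
  rw [e1, Real.sin_pi_div_four] at hc
  have e2 : Real.cos δ = 1 - 2 * Real.sin (δ / 2) ^ 2 := by
    have := Real.cos_two_mul' (δ / 2)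
    have h3 := Real.sin_sq_add_cos_sq (δ / 2)
    rw [show 2 * (δ / 2) = δ by ring] at this
    rw [this]
    linarith
  have e3 : (2 * δ / Real.pi * (Real.sqrt 2 / 2)) ^ 2 = 2 * δ ^ 2 / Real.pi ^ 2 := by
    have h4 : Real.sqrt 2 ^ 2 = 2 := Real.sq_sqrt (by norm_num)
    field_simp
    rw [h4]
    ring
  have h5 : (0 : ℝ) ≤ 2 * δ / Real.pi * (Real.sqrt 2 / 2) := by positivity
  have h6 : (2 * δ / Real.pi * (Real.sqrt 2 / 2)) ^ 2 ≤ Real.sin (δ / 2) ^ 2 :=
    pow_le_pow_left₀ h5 hc 2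
  rw [e3] at h6
  rw [e2]
  have e4 : 4 / Real.pi ^ 2 * δ ^ 2 = 2 * (2 * δ ^ 2 / Real.pi ^ 2) := by ring
  rw [e4]
  linarith

private lemma offC_cos_le {δ : ℝ} (h : |δ| ≤ Real.pi / 2) :
    Real.cos δ ≤ 1 - 4 / Real.pi ^ 2 * δ ^ 2 := by
  have := offC_cos_le_aux (abs_nonneg δ) h
  rwa [Real.cos_abs, sq_abs] at this

private lemma offC_SS_one : 544 / 1000 ≤ SS 1 := by
  unfold SS
  have hpi1 := Real.pi_gt_d6
  have hpi2 := Real.pi_lt_d6
  have he : Real.exp Real.pi ≤ 231408 / 10000 := by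
    have h1 : Real.exp Real.pi ≤ Real.exp (3 + 141593 / 1000000) :=
      Real.exp_le_exp.2 (by linarith)
    have h2 : Real.exp (3 + 141593 / 1000000) = Real.exp 1 ^ 3 * Real.exp (141593 / 1000000) := by
      rw [Real.exp_add, ← Real.exp_nat_mul]
      norm_num
    have h3 := Real.exp_one_lt_d9
    have h4 : Real.exp (141593 / 1000000) ≤ 11521077 / 10000000 := by
      have := Real.exp_bound' (x := 141593 / 1000000) (by norm_num) (by norm_num) (n := 6)
        (by norm_num)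
      refine this.trans ?_
      simp only [Finset.sum_range_succ, Finset.sum_range_zero, Nat.factorial]
      norm_num
    rw [h2] at h1
    have h5 : Real.exp 1 ^ 3 ≤ 2.7182818286 ^ 3 :=
      pow_le_pow_left₀ (Real.exp_pos 1).le h3.le 3
    calc Real.exp Real.pi ≤ Real.exp 1 ^ 3 * Real.exp (141593 / 1000000) := h1
      _ ≤ 2.7182818286 ^ 3 * (11521077 / 10000000) :=
        mul_le_mul h5 h4 (Real.exp_pos _).le (by norm_num)
      _ ≤ 231408 / 10000 := by norm_num
  have he2 : 4321 / 100000 ≤ Real.exp (-Real.pi) := by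
    rw [Real.exp_neg]
    rw [le_inv_comm₀ (by norm_num) (Real.exp_pos _)]
    refine he.trans ?_
    norm_num
  have hs : Real.sinh (Real.pi * 1) ≤ 1154880 / 100000 := by
    rw [mul_one, Real.sinh_eq]
    linarith
  have hs0 : 0 < Real.sinh (Real.pi * 1) := by
    rw [mul_one]
    exact Real.sinh_pos_iff.2 Real.pi_pos
  rw [le_div_iff₀ hs0]
  nlinarith

private lemma offC_lobeG_continuousOn (n : ℕ) (w : ℝ) :
    ContinuousOn (lobeG n w) (Set.Ioi 0) := by
  have hSS : ContinuousOn SS (Set.Ioi 0) := by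
    unfold SS
    refine ContinuousOn.div (by fun_prop) (by fun_prop) ?_
    intro κ hκ
    have hκ0 : (0 : ℝ) < κ := hκ
    exact (Real.sinh_pos_iff.2 (mul_pos Real.pi_pos hκ0)).ne'
  unfold lobeG
  refine Real.continuous_exp.comp_continuousOn ?_
  refine (ContinuousOn.div_const ?_ _).neg
  refine (ContinuousOn.sub (ContinuousOn.sub continuousOn_const (hSS.mul ?_)) continuousOn_const)
  exact (Real.continuous_sin.comp (continuous_id.mul continuous_const)).abs.continuousOn

private lemma offC_lobeG_intervalIntegrable (n : ℕ) (w : ℝ) {a b : ℝ} (ha : 0 < a) (hab : a ≤ b) :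
    IntervalIntegrable (lobeG n w) volume a b := by
  refine ContinuousOn.intervalIntegrable ?_
  rw [Set.uIcc_of_le hab]
  exact (offC_lobeG_continuousOn n w).mono fun x hx => lt_of_lt_of_le ha hx.1

private lemma offC_exp_neg {L : ℝ} (hL : 7 ≤ L) : 2 * Real.exp (-L) ≤ 895 / 10000 / L ^ 2 := by
  have hL0 : 0 < L := by linarith
  -- `L² e^{-L} ≤ 49 e^{-7}` from `e^{L-7} ≥ 1 + (L-7) + (L-7)²/2`
  have h1 : Real.exp L = Real.exp 7 * Real.exp (L - 7) := by
    rw [← Real.exp_add]; ring_nf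
  have h2 : 1 + (L - 7) + (L - 7) ^ 2 / 2 ≤ Real.exp (L - 7) :=
    Real.quadratic_le_exp_of_nonneg (by linarith)
  have h3 : (1096 : ℝ) ≤ Real.exp 7 := by
    have e : Real.exp 7 = Real.exp 1 ^ 7 := by
      rw [← Real.exp_nat_mul]; norm_num
    rw [e]
    have := Real.exp_one_gt_d9
    have h5 : (2.7182818283 : ℝ) ^ 7 ≤ Real.exp 1 ^ 7 :=
      pow_le_pow_left₀ (by norm_num) this.le 7
    refine le_trans ?_ h5
    norm_num
  have h4 : L ^ 2 ≤ 49 * (1 + (L - 7) + (L - 7) ^ 2 / 2) := by nlinarith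
  rw [Real.exp_neg, ← div_eq_mul_inv, div_le_div_iff₀ (Real.exp_pos _) (by positivity)]
  rw [h1]
  have h6 : 0 ≤ (1 + (L - 7) + (L - 7) ^ 2 / 2) := by nlinarith
  have h7 : 1096 * (1 + (L - 7) + (L - 7) ^ 2 / 2) ≤ Real.exp 7 * Real.exp (L - 7) :=
    mul_le_mul h3 h2 h6 (Real.exp_pos _).le
  nlinarith

private lemma offC_pi_sq_ge : (98696 / 10000 : ℝ) ≤ Real.pi ^ 2 := by
  have h := Real.pi_gt_d6
  have h2 : (3.141592 : ℝ) ^ 2 ≤ Real.pi ^ 2 := pow_le_pow_left₀ (by norm_num) h.le 2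
  refine le_trans ?_ h2
  norm_num

private lemma offC_pi_sq_le : Real.pi ^ 2 ≤ 9869607 / 1000000 := by
  have h := Real.pi_lt_d6
  have h2 : Real.pi ^ 2 ≤ (3.141593 : ℝ) ^ 2 := pow_le_pow_left₀ Real.pi_pos.le h.le 2
  refine h2.trans ?_
  norm_num

private lemma offC_num1 : 12276 / 1000 * (1 + Real.pi ^ 2 / 6) ≤ 2 * (Real.pi ^ 4 / 6) := by
  have h := offC_pi_sq_ge
  have e : Real.pi ^ 4 = (Real.pi ^ 2) ^ 2 := by ring
  rw [e]
  generalize Real.pi ^ 2 = p at *
  nlinarith

private lemma offC_num2 : Real.pi ^ 4 ≤ 8118 / 1000 * 12 := by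
  have h := offC_pi_sq_le
  have h0 : 0 ≤ Real.pi ^ 2 := sq_nonneg _
  have e : Real.pi ^ 4 = (Real.pi ^ 2) ^ 2 := by ring
  rw [e]
  generalize Real.pi ^ 2 = p at *
  nlinarith

private lemma offC_num3 {L : ℝ} (hL : 0 < L) :
    Real.pi ^ 4 / (12 * (L ^ 2 + 4)) ≤ 8118 / 1000 / L ^ 2 := by
  have h := offC_num2
  have h0 : 0 ≤ Real.pi ^ 4 := by positivity
  rw [div_le_div_iff₀ (by positivity) (by positivity)]
  generalize Real.pi ^ 4 = p at *
  nlinarith [sq_nonneg L]

private lemma offC_num4 {S : ℝ} (hS : 544 / 1000 ≤ S) : 2204 / 10000 ≤ S * (4 / Real.pi ^ 2) := by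
  have h4 := offC_pi_sq_le
  have h5 : 544 / 1000 * (4 / Real.pi ^ 2) ≤ S * (4 / Real.pi ^ 2) :=
    mul_le_mul_of_nonneg_right hS (by positivity)
  refine le_trans ?_ h5
  rw [← mul_div_assoc, le_div_iff₀ (by positivity)]
  linarith

private lemma offC_num5 {q K : ℝ} (hK : 0 ≤ K) (hq0 : 0 ≤ q) (hq1 : q ≤ Real.pi ^ 2 / 6)
    (hq2 : q = Real.pi ^ 4 / 6 * K) : 12276 / 1000 * K ≤ 2 - 2 / (1 + q) := by
  have h1 : 2 - 2 / (1 + q) = 2 * q / (1 + q) := by
    field_simp
    ring
  rw [h1]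
  have h2 : 2 * q / (1 + Real.pi ^ 2 / 6) ≤ 2 * q / (1 + q) := by
    apply div_le_div_of_nonneg_left (by positivity) (by positivity)
    linarith
  refine le_trans ?_ h2
  rw [hq2, le_div_iff₀ (by positivity)]
  calc 12276 / 1000 * K * (1 + Real.pi ^ 2 / 6)
      = 12276 / 1000 * (1 + Real.pi ^ 2 / 6) * K := by ring
    _ ≤ 2 * (Real.pi ^ 4 / 6) * K := mul_le_mul_of_nonneg_right offC_num1 hK
    _ = 2 * (Real.pi ^ 4 / 6 * K) := by ring

private lemma offC_num6 {s y : ℝ} (h : s * y = 1) (hs : 0 < s) (hy : 1055 / 100 ≤ y) :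
    6 / 10 * s ≤ 57 / 1000 := by
  nlinarith

private lemma offC_num7 {m : ℝ} (hm : 2 ≤ m) : 0 ≤ 12276 / 1000 * m ^ 2 - 82075 / 10000 := by
  nlinarith

private lemma offC_num8 {m : ℝ} (hm : 2 ≤ m) :
    57 / 1000 - 122 / 1000 * (12276 / 1000 * m ^ 2 - 82075 / 10000) ≤
      -(149 / 100 * m ^ 2 - 105 / 100) := by
  nlinarith

/-- one lobe `mπ/L ≤ τ ≤ (m+1)π/L`, `m ≥ 2`, cut at `1` -/
theorem lobe_m (H : HypM n w) (hL0 : 7 ≤ Real.log w) {m : ℕ} (hm : 2 ≤ m)
    (hm1 : m * Real.pi / Real.log w ≤ 1) :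
    preK n w * ∫ τ in (m * Real.pi / Real.log w)..(min 1 ((m + 1) * Real.pi / Real.log w)),
      lobeG n w τ ≤ 692 / 100 * Real.exp (-(149 / 100 * (m : ℝ) ^ 2 - 105 / 100)) := by
  have hpi := Real.pi_pos
  have hpi1 := Real.pi_gt_d6
  have hpi2 := Real.pi_lt_d6
  have hw1 : 1 ≤ w := H.hw
  have hw0 : 0 < w := by linarith
  have hm2 : (2 : ℝ) ≤ (m : ℝ) := by exact_mod_cast hm
  have hsg := H.sg_pos
  have hy1 := H.inv_sg_ge
  have hy2 := H.inv_sg_ge_sq hL0
  have hgap := gapinf_ge_large hw0 (show (9 : ℝ) / 10 ≤ Real.log w by linarith)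
  have hK := preK_le H hL0
  have hwL : (w : ℝ) = Real.exp (Real.log w) := (Real.exp_log hw0).symm
  have hwinv : 2 / w = 2 * Real.exp (-Real.log w) := by
    rw [Real.exp_neg, Real.exp_log hw0]; rfl
  have hexp := offC_exp_neg hL0
  rw [← hwinv] at hexp
  set L := Real.log w with hLdef
  have hL : 0 < L := by linarith
  set y := 1 / sg n w with hy
  have hy0 : 0 < y := by rw [hy]; positivity
  set a : ℝ := m * Real.pi / L with ha
  set b : ℝ := min 1 ((m + 1) * Real.pi / L) with hb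
  have ha0 : 0 < a := by rw [ha]; positivity
  have hab : a ≤ b := by
    rw [hb, le_min_iff]
    refine ⟨hm1, ?_⟩
    rw [ha]
    gcongr
    linarith
  set c : ℝ := (m + 1 / 2) * Real.pi / L with hc
  set G : ℝ := (12276 / 1000 * (m : ℝ) ^ 2 - 82075 / 10000) / L ^ 2 with hG
  -- pointwise
  have hpt : ∀ τ ∈ Set.Icc a b, lobeG n w τ ≤
      Real.exp (-(G * y)) * Real.exp (-(2204 / 10000 * y * L ^ 2) * (τ - c) ^ 2) := by
    intro τ hτ
    have hτ0 : 0 < τ := lt_of_lt_of_le ha0 hτ.1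
    have hτ1 : τ ≤ 1 := hτ.2.trans (min_le_left _ _)
    have hτ2 : τ ≤ (m + 1) * Real.pi / L := hτ.2.trans (min_le_right _ _)
    rw [← Real.exp_add]
    unfold lobeG
    refine Real.exp_le_exp.2 ?_
    rw [← hLdef]
    set δ : ℝ := τ * L - (m + 1 / 2) * Real.pi with hδ
    have e1 : L * (τ - c) = δ := by
      rw [hδ, hc]; field_simp
    have hδ1 : |δ| ≤ Real.pi / 2 := by
      have h1 : m * Real.pi ≤ τ * L := by
        have := hτ.1
        rw [ha, div_le_iff₀ hL] at this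
        exact this
      have h2 : τ * L ≤ (m + 1) * Real.pi := by
        rwa [le_div_iff₀ hL] at hτ2
      rw [abs_le]
      constructor
      · rw [hδ]; linarith
      · rw [hδ]; linarith
    have hsin : |Real.sin (τ * L)| = Real.cos δ := by
      have e2 : τ * L = δ + Real.pi / 2 + m * Real.pi := by rw [hδ]; ring
      rw [e2, Real.sin_add_nat_mul_pi, abs_mul, abs_pow, abs_neg, abs_one, one_pow, one_mul,
        Real.sin_add_pi_div_two]
      rw [abs_of_nonneg]
      refine Real.cos_nonneg_of_neg_pi_div_two_le_of_le ?_ ?_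
      · rw [abs_le] at hδ1; linarith [hδ1.1]
      · rw [abs_le] at hδ1; linarith [hδ1.2]
    have hcos := offC_cos_le hδ1
    have hSS0 := SS_pos hτ0
    have hSS1 : 544 / 1000 ≤ SS τ := offC_SS_one.trans (SS_anti hτ0 hτ1)
    have hSS2 : SS τ ≤ SS a := SS_anti ha0 hτ.1
    have hSS3 := SS_le ha0
    set q : ℝ := Real.pi ^ 2 * a ^ 2 / 6 with hq
    have hq0 : 0 ≤ q := by rw [hq]; positivity
    have hq1 : q ≤ Real.pi ^ 2 / 6 := by
      rw [hq]
      have h3 : a ^ 2 ≤ 1 := pow_le_one₀ ha0.le hm1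
      have h4 : Real.pi ^ 2 * a ^ 2 ≤ Real.pi ^ 2 * 1 :=
        mul_le_mul_of_nonneg_left h3 (sq_nonneg _)
      linarith
    have hq2 : q = Real.pi ^ 4 / 6 * ((m : ℝ) ^ 2 / L ^ 2) := by
      rw [hq, ha]; field_simp
    have hm2L : 0 ≤ (m : ℝ) ^ 2 / L ^ 2 := by positivity
    have hmain : 12276 / 1000 * ((m : ℝ) ^ 2 / L ^ 2) ≤ 2 - 2 / (1 + q) :=
      offC_num5 hm2L hq0 hq1 hq2
    have heta : Real.pi ^ 4 / (12 * (L ^ 2 + 4)) ≤ 8118 / 1000 / L ^ 2 := offC_num3 hL
    -- S|sin| bound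
    have hS : SS τ * |Real.sin (τ * L)| ≤ 2 / (1 + q) - 2204 / 10000 * δ ^ 2 := by
      rw [hsin]
      have h1 : SS τ * Real.cos δ ≤ SS τ * (1 - 4 / Real.pi ^ 2 * δ ^ 2) :=
        mul_le_mul_of_nonneg_left hcos hSS0.le
      refine h1.trans ?_
      have h2 : 2204 / 10000 * δ ^ 2 ≤ SS τ * (4 / Real.pi ^ 2 * δ ^ 2) := by
        have h3 : 2204 / 10000 ≤ SS τ * (4 / Real.pi ^ 2) := offC_num4 hSS1
        calc 2204 / 10000 * δ ^ 2 ≤ SS τ * (4 / Real.pi ^ 2) * δ ^ 2 :=
              mul_le_mul_of_nonneg_right h3 (sq_nonneg _)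
          _ = _ := by ring
      linarith
    have hX : G + 2204 / 10000 * δ ^ 2 ≤ gapinf w - SS τ * |Real.sin (τ * L)| - 2 / w := by
      have e3 : G = 12276 / 1000 * ((m : ℝ) ^ 2 / L ^ 2) - 8118 / 1000 / L ^ 2 -
          895 / 10000 / L ^ 2 := by
        rw [hG]; ring
      rw [e3]
      linarith
    have e4 : -((gapinf w - SS τ * |Real.sin (τ * L)| - 2 / w) / sg n w) =
        -((gapinf w - SS τ * |Real.sin (τ * L)| - 2 / w) * y) := by
      rw [hy]; ring
    have e5 : -(G * y) + -(2204 / 10000 * y * L ^ 2) * (τ - c) ^ 2 =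
        -((G + 2204 / 10000 * δ ^ 2) * y) := by
      rw [← e1]; ring
    rw [e4, e5]
    exact neg_le_neg (mul_le_mul_of_nonneg_right hX hy0.le)
  -- Gaussian integral
  have hbpos : 0 < 2204 / 10000 * y * L ^ 2 := by positivity
  have hgint : Integrable (fun τ : ℝ => Real.exp (-(G * y)) *
      Real.exp (-(2204 / 10000 * y * L ^ 2) * (τ - c) ^ 2)) :=
    ((integrable_exp_neg_mul_sq hbpos).comp_sub_right c).const_mul _
  have hI : ∫ τ in a..b, lobeG n w τ ≤
      Real.exp (-(G * y)) * Real.sqrt (Real.pi / (2204 / 10000 * y * L ^ 2)) := by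
    calc ∫ τ in a..b, lobeG n w τ ≤ ∫ τ in a..b, Real.exp (-(G * y)) *
          Real.exp (-(2204 / 10000 * y * L ^ 2) * (τ - c) ^ 2) :=
          intervalIntegral.integral_mono_on hab
            (offC_lobeG_intervalIntegrable n w ha0 hab) hgint.intervalIntegrable hpt
      _ ≤ ∫ τ : ℝ, Real.exp (-(G * y)) *
          Real.exp (-(2204 / 10000 * y * L ^ 2) * (τ - c) ^ 2) := by
          rw [intervalIntegral.integral_of_le hab]
          refine setIntegral_le_integral hgint (Filter.Eventually.of_forall fun τ => ?_)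
          positivity
      _ = _ := by
          rw [integral_const_mul]
          congr 1
          rw [integral_sub_right_eq_self (fun τ : ℝ =>
            Real.exp (-(2204 / 10000 * y * L ^ 2) * τ ^ 2)) c, integral_gaussian]
  have hI0 : 0 ≤ ∫ τ in a..b, lobeG n w τ :=
    intervalIntegral.integral_nonneg hab fun τ _ => (Real.exp_pos _).le
  have hB0 : 0 ≤ Real.sqrt Real.pi * (1034 / 1000 * L) * Real.sqrt y *
      Real.exp (6 / 10 * sg n w) := by positivity
  have hstep : preK n w * ∫ τ in a..b, lobeG n w τ ≤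
      (Real.sqrt Real.pi * (1034 / 1000 * L) * Real.sqrt y * Real.exp (6 / 10 * sg n w)) *
        (Real.exp (-(G * y)) * Real.sqrt (Real.pi / (2204 / 10000 * y * L ^ 2))) :=
    (mul_le_mul_of_nonneg_right hK hI0).trans (mul_le_mul_of_nonneg_left hI hB0)
  refine hstep.trans ?_
  -- simplify
  have hs1 : Real.sqrt (Real.pi / (2204 / 10000 * y * L ^ 2)) =
      Real.sqrt Real.pi / (Real.sqrt (2204 / 10000) * Real.sqrt y * L) := by
    rw [Real.sqrt_div hpi.le, Real.sqrt_mul (by positivity), Real.sqrt_mul (by norm_num),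
      Real.sqrt_sq hL.le]
  have hs2 : 46946 / 100000 ≤ Real.sqrt (2204 / 10000) := by
    apply Real.le_sqrt_of_sq_le
    norm_num
  have hs3 : 0 < Real.sqrt (2204 / 10000) := by linarith
  have hsy : 0 < Real.sqrt y := Real.sqrt_pos.2 hy0
  have hspi : Real.sqrt Real.pi * Real.sqrt Real.pi = Real.pi := Real.mul_self_sqrt hpi.le
  have e6 : (Real.sqrt Real.pi * (1034 / 1000 * L) * Real.sqrt y * Real.exp (6 / 10 * sg n w)) *
        (Real.exp (-(G * y)) * Real.sqrt (Real.pi / (2204 / 10000 * y * L ^ 2))) =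
      1034 / 1000 * (Real.pi / Real.sqrt (2204 / 10000)) *
        (Real.exp (6 / 10 * sg n w) * Real.exp (-(G * y))) := by
    rw [hs1]
    have : Real.sqrt Real.pi ^ 2 = Real.pi := by rw [sq]; exact hspi
    field_simp
    rw [this]
  rw [e6, ← Real.exp_add]
  have h7 : 1034 / 1000 * (Real.pi / Real.sqrt (2204 / 10000)) ≤ 692 / 100 := by
    have : Real.pi / Real.sqrt (2204 / 10000) ≤ Real.pi / (46946 / 100000) := by
      apply div_le_div_of_nonneg_left hpi.le (by norm_num) hs2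
    have h8 : Real.pi / (46946 / 100000) ≤ 6692 / 1000 := by
      rw [div_le_iff₀ (by norm_num)]
      linarith
    linarith
  refine mul_le_mul h7 (Real.exp_le_exp.2 ?_) (Real.exp_pos _).le (by norm_num)
  -- exponents
  have h10 : sg n w * y = 1 := by rw [hy]; field_simp
  have h9 : 6 / 10 * sg n w ≤ 57 / 1000 := offC_num6 h10 hsg hy1
  have h12 := offC_num7 hm2
  have h11 : 122 / 1000 * (12276 / 1000 * (m : ℝ) ^ 2 - 82075 / 10000) ≤ G * y := by
    have h13 : G * (122 / 1000 * L ^ 2) ≤ G * y := by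
      refine mul_le_mul_of_nonneg_left hy2 ?_
      rw [hG]
      exact div_nonneg h12 (sq_nonneg _)
    have h14 : G * (122 / 1000 * L ^ 2) =
        122 / 1000 * (12276 / 1000 * (m : ℝ) ^ 2 - 82075 / 10000) := by
      rw [hG]; field_simp
    rwa [h14] at h13
  have h15 := offC_num8 hm2
  linarith

/-- `2π/L ≤ τ ≤ 1` -/
theorem lobes_rest (H : HypM n w) (hL0 : 7 ≤ Real.log w) :
    preK n w * ∫ τ in (2 * Real.pi / Real.log w)..(1 : ℝ), lobeG n w τ ≤ 52 / 1000 := by
  have hpi := Real.pi_pos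
  have hpi2 := Real.pi_lt_d6
  set L := Real.log w with hLdef
  have hL : 0 < L := by linarith
  set c : ℕ → ℝ := fun m => min 1 ((m : ℝ) * Real.pi / L) with hc
  have hc0 : ∀ m, 2 ≤ m → 0 < c m := by
    intro m hm
    have : (2 : ℝ) ≤ (m : ℝ) := by exact_mod_cast hm
    rw [hc]
    simp only
    refine lt_min one_pos ?_
    positivity
  have hcmono : ∀ m, c m ≤ c (m + 1) := by
    intro m
    rw [hc]
    simp only
    refine min_le_min le_rfl ?_
    gcongr
    linarith
  have hc2 : c 2 = 2 * Real.pi / L := by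
    rw [hc]
    simp only
    rw [min_eq_right]
    · push_cast; rfl
    · push_cast
      rw [div_le_one hL]
      linarith
  obtain ⟨N, hN⟩ := exists_nat_ge (L / Real.pi)
  have hcN : c (N + 2) = 1 := by
    rw [hc]
    simp only
    rw [min_eq_left]
    rw [le_div_iff₀ hL, one_mul]
    rw [div_le_iff₀ hpi] at hN
    push_cast
    nlinarith
  have hsum : ∑ m ∈ Finset.Ico 2 (N + 2), ∫ τ in (c m)..(c (m + 1)), lobeG n w τ =
      ∫ τ in (c 2)..(c (N + 2)), lobeG n w τ := by
    refine intervalIntegral.sum_integral_adjacent_intervals_Ico (by omega) ?_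
    intro k hk
    exact offC_lobeG_intervalIntegrable n w (hc0 k hk.1) (hcmono k)
  rw [← hc2, ← hcN, ← hsum, Finset.mul_sum]
  -- each term
  have hterm : ∀ m ∈ Finset.Ico 2 (N + 2),
      preK n w * ∫ τ in (c m)..(c (m + 1)), lobeG n w τ ≤
        (511 / 10000 : ℝ) * (1 / 1000) ^ (m - 2) := by
    intro m hm
    rw [Finset.mem_Ico] at hm
    have hm2 : (2 : ℝ) ≤ (m : ℝ) := by exact_mod_cast hm.1
    by_cases h1 : (m : ℝ) * Real.pi / L ≤ 1
    · have e1 : c m = m * Real.pi / L := by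
        rw [hc]; simp only; exact min_eq_right h1
      have e2 : c (m + 1) = min 1 ((m + 1) * Real.pi / L) := by
        rw [hc]; simp only; push_cast; rfl
      rw [e1, e2]
      refine (lobe_m H hL0 hm.1 h1).trans ?_
      obtain ⟨j, rfl⟩ := Nat.exists_eq_add_of_le hm.1
      simp only [Nat.add_sub_cancel_left]
      have hj : (0 : ℝ) ≤ (j : ℝ) := Nat.cast_nonneg j
      have h2 : -(149 / 100 * ((2 + j : ℕ) : ℝ) ^ 2 - 105 / 100) ≤
          -(491 / 100) + (j : ℝ) * (-7) := by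
        push_cast
        have : 5 * (j : ℝ) ≤ 4 * j + (j : ℝ) ^ 2 := by
          rcases Nat.eq_zero_or_pos j with h0 | h0
          · rw [h0]; simp
          · have : (1 : ℝ) ≤ (j : ℝ) := by exact_mod_cast h0
            nlinarith
        nlinarith
      have h3 := Real.exp_le_exp.2 h2
      rw [Real.exp_add, Real.exp_nat_mul] at h3
      have h4 : Real.exp (-(491 / 100)) ≤ 7380 / 1000000 := by
        rw [Real.exp_neg, inv_le_comm₀ (Real.exp_pos _) (by norm_num)]
        have e : Real.exp (491 / 100) = Real.exp 1 ^ 5 * Real.exp (-(9 / 100)) := by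
          rw [← Real.exp_nat_mul, ← Real.exp_add]; norm_num
        rw [e]
        have h5 : (2.7182818283 : ℝ) ^ 5 ≤ Real.exp 1 ^ 5 :=
          pow_le_pow_left₀ (by norm_num) Real.exp_one_gt_d9.le 5
        have h6 : (9139 / 10000 : ℝ) ≤ Real.exp (-(9 / 100)) := by
          have h7 : Real.exp (9 / 100) ≤ 1094175 / 1000000 := by
            have := Real.exp_bound' (x := 9 / 100) (by norm_num) (by norm_num) (n := 5)
              (by norm_num)
            refine this.trans ?_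
            simp only [Finset.sum_range_succ, Finset.sum_range_zero, Nat.factorial]
            norm_num
          rw [Real.exp_neg, le_inv_comm₀ (by norm_num) (Real.exp_pos _)]
          refine h7.trans ?_
          norm_num
        calc ((7380 / 1000000 : ℝ))⁻¹ ≤ 2.7182818283 ^ 5 * (9139 / 10000) := by norm_num
          _ ≤ _ := mul_le_mul h5 h6 (by norm_num) (by positivity)
      have h5 : Real.exp (-7) ≤ 1 / 1000 := by
        rw [Real.exp_neg, inv_le_comm₀ (Real.exp_pos _) (by norm_num)]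
        have e : Real.exp 7 = Real.exp 1 ^ 7 := by
          rw [← Real.exp_nat_mul]; norm_num
        rw [e]
        have h5 : (2.7182818283 : ℝ) ^ 7 ≤ Real.exp 1 ^ 7 :=
          pow_le_pow_left₀ (by norm_num) Real.exp_one_gt_d9.le 7
        refine le_trans ?_ h5
        norm_num
      have h6 : Real.exp (-7) ^ j ≤ (1 / 1000) ^ j :=
        pow_le_pow_left₀ (Real.exp_pos _).le h5 j
      calc 692 / 100 * Real.exp (-(149 / 100 * ((2 + j : ℕ) : ℝ) ^ 2 - 105 / 100))
          ≤ 692 / 100 * (Real.exp (-(491 / 100)) * Real.exp (-7) ^ j) := by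
            refine mul_le_mul_of_nonneg_left h3 (by norm_num)
        _ ≤ 692 / 100 * (7380 / 1000000 * (1 / 1000) ^ j) := by
            refine mul_le_mul_of_nonneg_left ?_ (by norm_num)
            exact mul_le_mul h4 h6 (by positivity) (by norm_num)
        _ ≤ _ := by
            have : (0 : ℝ) ≤ (1 / 1000) ^ j := by positivity
            nlinarith
    · have h2 : 1 < (m : ℝ) * Real.pi / L := not_le.1 h1
      have e1 : c m = 1 := by
        rw [hc]; simp only; exact min_eq_left h2.le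
      have e2 : c (m + 1) = 1 := by
        refine le_antisymm ?_ ?_
        · rw [hc]; simp only; exact min_le_left _ _
        · rw [← e1]; exact hcmono m
      rw [e1, e2, intervalIntegral.integral_same, mul_zero]
      positivity
  refine (Finset.sum_le_sum hterm).trans ?_
  rw [← Finset.mul_sum]
  have hgeo : ∑ m ∈ Finset.Ico 2 (N + 2), ((1 : ℝ) / 1000) ^ (m - 2) ≤ 1000 / 999 := by
    rw [Finset.sum_Ico_eq_sum_range]
    simp only [Nat.add_sub_cancel_left, Nat.add_sub_cancel]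
    have h := (summable_geometric_of_lt_one (show (0 : ℝ) ≤ 1 / 1000 by norm_num)
      (by norm_num)).sum_le_tsum (Finset.range N) (fun _ _ => by positivity)
    rw [tsum_geometric_of_lt_one (by norm_num) (by norm_num)] at h
    refine h.trans ?_
    norm_num
  calc (511 / 10000 : ℝ) * ∑ m ∈ Finset.Ico 2 (N + 2), ((1 : ℝ) / 1000) ^ (m - 2)
      ≤ 511 / 10000 * (1000 / 999) := mul_le_mul_of_nonneg_left hgeo (by norm_num)
    _ ≤ 52 / 1000 := by norm_num

end Pool.Agent.Lib.Durfee
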