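import Pool.Agent.Lib.MP_9393b1_co.OffTopB
import Pool.Agent.Lib.MP_9393b1_co.OffTopC

/-! # Regime M: all lobes -/

set_option autoImplicit false

namespace Pool.Agent.Lib.Durfee

open Complex MeasureTheory Filter Topology

variable {n : ℕ} {w : ℝ}

private lemma offD_lobeG_continuousOn (n : ℕ) (w : ℝ) :
    ContinuousOn (lobeG n w) (Set.Ioi 0) := by
  have hSS : ContinuousOn SS (Set.Ioi 0) := by
    unfold SS
    refine ContinuousOn.div (by fun_prop) (by fun_prop) ?_
    intro κ hκ
    have hκ0 : (0 : ℝ) < κ := hκ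
    exact (Real.sinh_pos_iff.2 (mul_pos Real.pi_pos hκ0)).ne'
  unfold lobeG
  refine Real.continuous_exp.comp_continuousOn ?_
  refine (ContinuousOn.div_const ?_ _).neg
  refine (ContinuousOn.sub (ContinuousOn.sub continuousOn_const (hSS.mul ?_)) continuousOn_const)
  exact (Real.continuous_sin.comp (continuous_id.mul continuous_const)).abs.continuousOn

private lemma offD_lobeG_intervalIntegrable (n : ℕ) (w : ℝ) {a b : ℝ} (ha : 0 < a) (hb : 0 < b) :
    IntervalIntegrable (lobeG n w) volume a b := by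
  refine ContinuousOn.intervalIntegrable ?_
  refine (offD_lobeG_continuousOn n w).mono fun x hx => ?_
  have : min a b ≤ x := hx.1
  exact lt_of_lt_of_le (lt_min ha hb) this

private lemma offD_continuous {F : ℝ → ℝ → ℝ} (hF : Continuous (fun p : ℝ × ℝ => F p.1 p.2))
    (a b : ℝ) : Continuous (fun τ => ∫ θ in a..b, F θ τ) := by
  have h : Continuous (Function.uncurry (fun τ θ : ℝ => F θ τ)) :=
    hF.comp (continuous_snd.prodMk continuous_fst)
  exact intervalIntegral.continuous_parametric_intervalIntegral_of_continuous' h a b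

theorem off_T_1_top (H : HypM n w) (hL0 : 7 ≤ Real.log w) :
    Kn n w * ∫ τ in (TT w)..(1 : ℝ), ∫ θ in (-Real.pi)..Real.pi, NP n w θ τ ≤ 219 / 1000 := by
  have hpi := Real.pi_pos
  have hpi2 := Real.pi_lt_d6
  have hT0 := H.TT_pos
  have h1 := lobe_one H hL0
  have h2 := lobe_two H hL0
  have h3 := lobes_rest H hL0
  have h4 := floor_part H hL0
  have hL : 0 < Real.log w := by linarith
  have hT1 : TT w ≤ 1 := by
    unfold TT
    rw [if_neg (by linarith), div_le_one (by positivity)]
    linarith
  have hc1 : 0 < 5 * Real.pi / (4 * Real.log w) := by positivity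
  have hc2 : 0 < 2 * Real.pi / Real.log w := by positivity
  have hKn : 0 ≤ Kn n w := by
    unfold Kn PPn
    have : 0 ≤ aa w := Real.sqrt_nonneg _
    positivity
  set A : ℝ := Real.pi * Real.sqrt Real.pi * Real.sqrt (sg n w) * Real.exp (6 / 10 * sg n w)
    with hA
  set f : ℝ := Real.exp (-((gapinf w - 1 / 2) / sg n w)) with hf
  have hA0 : 0 ≤ A := by rw [hA]; positivity
  have hf0 : 0 ≤ f := (Real.exp_pos _).le
  have hpre : preK n w = Kn n w * A := by rw [hA]; rfl
  have hint : IntervalIntegrable (fun τ => ∫ θ in (-Real.pi)..Real.pi, NP n w θ τ) volume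
      (TT w) 1 := by
    exact (offD_continuous (continuous_NP H) _ _).intervalIntegrable _ _
  have hlob := offD_lobeG_intervalIntegrable n w hT0 one_pos
  have hint2 : IntervalIntegrable (fun τ => A * (lobeG n w τ + f)) volume (TT w) 1 :=
    (hlob.add intervalIntegrable_const).const_mul A
  have hI : ∫ τ in (TT w)..(1 : ℝ), ∫ θ in (-Real.pi)..Real.pi, NP n w θ τ ≤
      ∫ τ in (TT w)..(1 : ℝ), A * (lobeG n w τ + f) := by
    refine intervalIntegral.integral_mono_on hT1 hint hint2 ?_
    intro τ hτ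
    exact integral_NP_le_lobe H (lt_of_lt_of_le hT0 hτ.1) hτ.2
  have hI2 : ∫ τ in (TT w)..(1 : ℝ), A * (lobeG n w τ + f) =
      A * ((∫ τ in (TT w)..(1 : ℝ), lobeG n w τ) + (1 - TT w) * f) := by
    rw [intervalIntegral.integral_const_mul, intervalIntegral.integral_add hlob
      intervalIntegrable_const, intervalIntegral.integral_const, smul_eq_mul]
  have hsplit : ∫ τ in (TT w)..(1 : ℝ), lobeG n w τ =
      (∫ τ in (TT w)..(5 * Real.pi / (4 * Real.log w)), lobeG n w τ) +
      (∫ τ in (5 * Real.pi / (4 * Real.log w))..(2 * Real.pi / Real.log w), lobeG n w τ) +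
      ∫ τ in (2 * Real.pi / Real.log w)..(1 : ℝ), lobeG n w τ := by
    rw [intervalIntegral.integral_add_adjacent_intervals
        (offD_lobeG_intervalIntegrable n w hT0 hc1) (offD_lobeG_intervalIntegrable n w hc1 hc2),
      intervalIntegral.integral_add_adjacent_intervals
        (offD_lobeG_intervalIntegrable n w hT0 hc2) (offD_lobeG_intervalIntegrable n w hc2 one_pos)]
  have hfin : Kn n w * ∫ τ in (TT w)..(1 : ℝ), ∫ θ in (-Real.pi)..Real.pi, NP n w θ τ ≤
      preK n w * (∫ τ in (TT w)..(1 : ℝ), lobeG n w τ) + (1 - TT w) * (preK n w * f) := by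
    rw [hI2] at hI
    refine (mul_le_mul_of_nonneg_left hI hKn).trans (le_of_eq ?_)
    rw [hpre]
    ring
  have hpf0 : 0 ≤ preK n w * f := by
    rw [hpre]; positivity
  have h5 : (1 - TT w) * (preK n w * f) ≤ 1 * (preK n w * f) :=
    mul_le_mul_of_nonneg_right (by linarith) hpf0
  rw [hsplit, mul_add, mul_add] at hfin
  linarith

end Pool.Agent.Lib.Durfee
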