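import Pool.Agent.Lib.MP_9393b1_co.WinN0

/-! # Regime M: window error, general far step (used for `L ≤ 3`) -/

set_option autoImplicit false

namespace Pool.Agent.Lib.Durfee

open Complex MeasureTheory Filter Topology

variable {n : ℕ} {w : ℝ}

theorem continuous_Ew (n : ℕ) (w : ℝ) : Continuous (fun τ => Ew n w τ) := by
  unfold Ew
  refine Real.continuous_exp.comp (Continuous.neg ?_)
  refine Continuous.div (by fun_prop) (by fun_prop) (fun τ => by positivity)

theorem continuousOn_Rin {w σ : ℝ} (hw : 0 < w) (_hσ : 0 < σ) :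
    ContinuousOn (fun τ => Rin w σ τ) (Set.Ici 0) := by
  have h1 : Continuous (fun τ => hh w τ) := by
    unfold hh
    refine Continuous.div (by fun_prop) (by fun_prop) (fun τ => by positivity)
  have h2 : ∀ τ ∈ Set.Ici (0:ℝ), 6839 / 10000 * hh w τ ≠ 0 := fun τ hτ => by
    have := wb_hh_pos hw hτ
    positivity
  have h3 : ∀ τ ∈ Set.Ici (0:ℝ), hh w τ ≠ 0 := fun τ hτ => (wb_hh_pos hw hτ).ne'
  have h4 : ∀ τ ∈ Set.Ici (0:ℝ), (6839 / 10000 * hh w τ) ^ 2 ≠ 0 := fun τ hτ => by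
    have := wb_hh_pos hw hτ
    positivity
  have h5 : Continuous (fun τ => epsI σ τ) := by
    unfold epsI
    fun_prop
  unfold Rin
  refine ContinuousOn.add (ContinuousOn.mul ?_ ?_) (ContinuousOn.mul ?_ ?_)
  · exact (ContinuousOn.div continuousOn_const (by fun_prop) h2).sqrt
  · exact ContinuousOn.add (by fun_prop) (ContinuousOn.div continuousOn_const (by fun_prop) h4)
  · exact (ContinuousOn.div continuousOn_const (by fun_prop) h3).sqrt
  · fun_prop

theorem continuousOn_Ew_Rin (H : HypM n w) :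
    ContinuousOn (fun τ => Ew n w τ * Rin w (sg n w) τ) (Set.Ici 0) :=
  (continuous_Ew n w).continuousOn.mul
    (continuousOn_Rin (lt_of_lt_of_le one_pos H.hw) H.sg_pos)

/-- splitting of the window integral -/
theorem win_split (H : HypM n w) {A B : ℝ} (hA : 0 ≤ A) (hAB : A ≤ B) :
    Kn n w * ∫ τ in (0 : ℝ)..B, Ew n w τ * Rin w (sg n w) τ =
      Kn n w * (∫ τ in (0 : ℝ)..A, Ew n w τ * Rin w (sg n w) τ) +
        Kn n w * ∫ τ in A..B, Ew n w τ * Rin w (sg n w) τ := by
  rw [← mul_add]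
  congr 1
  symm
  apply intervalIntegral.integral_add_adjacent_intervals
  · apply ContinuousOn.intervalIntegrable
    apply (continuousOn_Ew_Rin H).mono
    rw [Set.uIcc_of_le hA]
    exact fun x hx => hx.1
  · apply ContinuousOn.intervalIntegrable
    apply (continuousOn_Ew_Rin H).mono
    rw [Set.uIcc_of_le hAB]
    exact fun x hx => hA.trans hx.1

/-- `(τ-t)²/(1+τ²)` is increasing for `τ ≥ t ≥ 0` -/
theorem sq_div_mono {t A τ : ℝ} (ht : 0 ≤ t) (hA : t ≤ A) (hτ : A ≤ τ) :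
    (A - t) ^ 2 / (1 + A ^ 2) ≤ (τ - t) ^ 2 / (1 + τ ^ 2) := by
  rw [div_le_div_iff₀ (by positivity) (by positivity)]
  have h : (τ - t) ^ 2 * (1 + A ^ 2) - (A - t) ^ 2 * (1 + τ ^ 2) =
      (τ - A) * ((τ - t) + (A - t)) + t * (τ - A) * ((τ - t) * A + (A - t) * τ) := by ring
  have h1 : 0 ≤ τ - A := by linarith
  have h2 : 0 ≤ A - t := by linarith
  have h3 : 0 ≤ τ - t := by linarith
  have h4 : 0 ≤ A := by linarith
  have h5 : 0 ≤ τ := by linarith
  have : 0 ≤ (τ - A) * ((τ - t) + (A - t)) + t * (τ - A) * ((τ - t) * A + (A - t) * τ) := by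
    positivity
  linarith

/-- far part of the window: on `[A,B]`, `A ≥ τ*`, the factor `E` is at most `e^{-cP}` -/
theorem far_le (H : HypM n w) {A B h e c : ℝ} (hA1 : ts w ≤ A) (hAB : A ≤ B)
    (hc : c ≤ (A - ts w) ^ 2 / (1 + A ^ 2)) (hh0 : 0 < h)
    (hh1 : ∀ τ ∈ Set.Icc A B, h ≤ hh w τ) (he : ∀ τ ∈ Set.Icc A B, epsI (sg n w) τ ≤ e) :
    Kn n w * ∫ τ in A..B, Ew n w τ * Rin w (sg n w) τ ≤
      Real.sqrt n / Real.pi * ((B - A) * (Real.exp (-(c * PPn n w)) *
        (Real.sqrt (2 * Real.pi * sg n w / (6839 / 10000 * h)) *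
        (e * Real.exp e + 7 / 4 * sg n w / (6839 / 10000 * h) ^ 2) +
      Real.sqrt (2 * Real.pi * sg n w / h) *
        Real.exp (-(h * (Real.pi / 3) ^ 2 / (2 * sg n w)))))) := by
  have hpi := Real.pi_pos
  have hσ := H.sg_pos
  have hw0 : 0 < w := lt_of_lt_of_le one_pos H.hw
  have hts : 0 ≤ ts w := (div_pos (bb_pos hw0) (aa_pos hw0)).le
  have hA : 0 ≤ A := hts.trans hA1
  have hP : 0 ≤ PPn n w := by unfold PPn aa; positivity
  have he0 : ∀ τ ∈ Set.Icc A B, 0 ≤ epsI (sg n w) τ := by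
    intro τ hτ
    have := hA.trans hτ.1
    unfold epsI
    positivity
  have he1 : 0 ≤ e := (he0 A ⟨le_rfl, hAB⟩).trans (he A ⟨le_rfl, hAB⟩)
  have hK0 : 0 ≤ Kn n w := by
    unfold Kn PPn aa
    positivity
  set M : ℝ := Real.sqrt (2 * Real.pi * sg n w / (6839 / 10000 * h)) *
        (e * Real.exp e + 7 / 4 * sg n w / (6839 / 10000 * h) ^ 2) +
      Real.sqrt (2 * Real.pi * sg n w / h) *
        Real.exp (-(h * (Real.pi / 3) ^ 2 / (2 * sg n w))) with hM
  have hM0 : 0 ≤ M := by positivity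
  have h1 : ∫ τ in A..B, Ew n w τ * Rin w (sg n w) τ ≤
      (B - A) * (Real.exp (-(c * PPn n w)) * M) := by
    refine (le_abs_self _).trans ?_
    rw [← Real.norm_eq_abs]
    have h2 : ∀ τ ∈ Set.uIoc A B, ‖Ew n w τ * Rin w (sg n w) τ‖ ≤
        Real.exp (-(c * PPn n w)) * M := by
      intro τ hτ
      rw [Set.uIoc_of_le hAB] at hτ
      have hτ' : τ ∈ Set.Icc A B := ⟨hτ.1.le, hτ.2⟩
      have hE0 : 0 ≤ Ew n w τ := (Real.exp_pos _).le
      have hhp : 0 < hh w τ := hh0.trans_le (hh1 τ hτ')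
      have he0' := he0 τ hτ'
      have hR0 : 0 ≤ Rin w (sg n w) τ := by
        unfold Rin
        positivity
      rw [Real.norm_of_nonneg (mul_nonneg hE0 hR0)]
      have h3 : Ew n w τ ≤ Real.exp (-(c * PPn n w)) := by
        unfold Ew
        apply Real.exp_le_exp.2
        apply neg_le_neg
        have h4 := hc.trans (sq_div_mono hts hA1 hτ'.1)
        have h5 := mul_le_mul_of_nonneg_left h4 hP
        rw [mul_comm] at h5
        rw [mul_div_assoc]
        exact h5
      exact mul_le_mul h3 (Rin_le hσ hh0 (hh1 τ hτ') he0' (he τ hτ')) hR0 (Real.exp_pos _).le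
    have h6 := intervalIntegral.norm_integral_le_of_norm_le_const h2
    rw [abs_of_nonneg (by linarith : 0 ≤ B - A)] at h6
    linarith
  calc Kn n w * ∫ τ in A..B, Ew n w τ * Rin w (sg n w) τ
      ≤ Kn n w * ((B - A) * (Real.exp (-(c * PPn n w)) * M)) :=
        mul_le_mul_of_nonneg_left h1 hK0
    _ ≤ Real.sqrt n / Real.pi * ((B - A) * (Real.exp (-(c * PPn n w)) * M)) := by
        apply mul_le_mul_of_nonneg_right H.Kn_le
        have : 0 ≤ B - A := by linarith
        positivity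

/-- `R e^{-cR} ≤ 100 e^{-100 c}` for `R ≥ 100`, `c ≥ 1/100` -/
theorem mul_exp_neg_le {R c : ℝ} (hR : 100 ≤ R) (hc : 1 / 100 ≤ c) :
    R * Real.exp (-(c * R)) ≤ 100 * Real.exp (-(c * 100)) := by
  have h1 : Real.exp (-(c * R)) = Real.exp (-(c * 100)) * Real.exp (-(c * (R - 100))) := by
    rw [← Real.exp_add]
    congr 1
    ring
  have h2 : Real.exp (-(c * (R - 100))) ≤ 1 / (1 + c * (R - 100)) := by
    rw [Real.exp_neg, ← one_div]
    have h0 : 0 ≤ c * (R - 100) := mul_nonneg (by linarith) (by linarith)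
    apply one_div_le_one_div_of_le (by linarith)
    have := Real.add_one_le_exp (c * (R - 100))
    linarith
  have h0 : 0 ≤ c * (R - 100) := mul_nonneg (by linarith) (by linarith)
  have h3 : R * (1 / (1 + c * (R - 100))) ≤ 100 := by
    rw [mul_one_div, div_le_iff₀ (by linarith)]
    nlinarith
  rw [h1]
  calc R * (Real.exp (-(c * 100)) * Real.exp (-(c * (R - 100))))
      = Real.exp (-(c * 100)) * (R * Real.exp (-(c * (R - 100)))) := by ring
    _ ≤ Real.exp (-(c * 100)) * (R * (1 / (1 + c * (R - 100)))) := by gcongr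
    _ ≤ Real.exp (-(c * 100)) * 100 := by gcongr
    _ = _ := by ring

end Pool.Agent.Lib.Durfee
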