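import Pool.Agent.Lib.MP_9393b1_co.WinN0
import Pool.Agent.Lib.MP_9393b1_co.WinF

/-! # Regime M: window error, `0 ≤ L ≤ 1` -/

set_option autoImplicit false

namespace Pool.Agent.Lib.Durfee

open Complex MeasureTheory Filter Topology

variable {n : ℕ} {w : ℝ}

private theorem n1_exp_neg_nat (k : ℕ) {x : ℝ} (hx : (k : ℝ) ≤ x) :
    Real.exp (-x) ≤ (1 / (27182818283 / 10000000000)) ^ k := by
  have h1 := Real.exp_one_gt_d9
  have h2 : Real.exp (-x) ≤ Real.exp (-(k : ℝ)) := by
    apply Real.exp_le_exp.2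
    linarith
  refine h2.trans ?_
  rw [Real.exp_neg, ← one_div, one_div_pow, ← Real.exp_one_pow]
  apply one_div_le_one_div_of_le (by positivity)
  gcongr
  norm_num at h1 ⊢
  linarith

private theorem n1_exp_le {x : ℝ} (h0 : 0 ≤ x) (h1 : x < 1) : Real.exp x ≤ 1 / (1 - x) :=
  Real.exp_bound_div_one_sub_of_interval h0 h1

private theorem n1_pisq : (9869 / 1000 : ℝ) ≤ Real.pi ^ 2 ∧ Real.pi ^ 2 ≤ 98697 / 10000 := by
  have := Real.pi_gt_d6
  have := Real.pi_lt_d6
  constructor <;> nlinarith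

private theorem n1_w_le (hw : 1 ≤ w) (hL : Real.log w ≤ 1) : w ≤ 271829 / 100000 := by
  have h1 : w ≤ Real.exp 1 := by
    rw [← Real.log_le_iff_le_exp (by linarith)]
    exact hL
  have := Real.exp_one_lt_d9
  linarith

private theorem n1_sg (H : HypM n w) (hL : Real.log w ≤ 1) : sg n w ≤ 2072 / 100000 := by
  have h1 := H.sg_le_of hL
  have h2 : Real.sqrt ((1:ℝ) ^ 2 + Real.pi ^ 2 / 3) ≤ 2072 / 1000 := by
    rw [Real.sqrt_le_left (by norm_num)]
    have := n1_pisq
    linarith
  linarith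

private theorem n1_TT (_H : HypM n w) (hL : Real.log w ≤ 1) : 23 / 10 ≤ TT w := by
  unfold TT
  have hpi := Real.pi_gt_d6
  split_ifs with h1
  · norm_num
  · push Not at h1
    have h2 : 0 < Real.log w := lt_trans (by positivity) h1
    rw [le_div_iff₀ (by positivity)]
    linarith

private theorem n1_gam (hw : 1 ≤ w) (hL : Real.log w ≤ 1) : ‖gam w‖ ≤ 1878 / 1000 := by
  have h1 := n1_w_le hw hL
  have hw0 : 0 < w := by linarith
  rw [norm_gam w hw0, div_le_iff₀ (by positivity)]
  have h2 : 2 / (1878 / 1000) * w ≤ Real.sqrt (1 + w ^ 2) := by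
    apply Real.le_sqrt_of_sq_le
    nlinarith
  have : 2 * w = 1878 / 1000 * (2 / (1878 / 1000) * w) := by ring
  rw [this]
  gcongr

private theorem n1_ts (hw : 1 ≤ w) : ts w ≤ 804 / 1000 := by
  have h1 := bb_div_aa_le (w := w) (ρ := 22 / 100) (by linarith) (by norm_num) (ratio_zero hw)
  have h2 : Real.sqrt (1 + (22 / 100 : ℝ) ^ 2) ≤ 1024 / 1000 := by
    rw [Real.sqrt_le_left (by norm_num)]
    norm_num
  unfold ts
  linarith

private theorem n1_near (H : HypM n w) (hL : Real.log w ≤ 1) :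
    Kn n w * ∫ τ in (0 : ℝ)..(121 / 100), Ew n w τ * Rin w (sg n w) τ ≤ 5607 / 10000 := by
  have hσ := H.sg_pos
  have hs := n1_sg H hL
  have hT := n1_TT H hL
  have hw := H.hw
  have hwe := n1_w_le hw hL
  have hp := n1_pisq
  have h0 := near_le H (T' := 121 / 100) (h := 8968 / 10000) (e := 972 / 10000)
    (G := 1878 / 1000) (by norm_num) (by linarith) (by norm_num) ?_ ?_ (n1_gam hw hL)
  · refine h0.trans ?_
    have a1 : Real.sqrt (1878 / 1000 * (1 + (121 / 100 : ℝ) ^ 2) / (6839 / 10000 * (8968 / 10000)))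
        ≤ 2747 / 1000 := by
      rw [Real.sqrt_le_left (by norm_num)]
      norm_num
    have a2 : (972 / 10000 : ℝ) * Real.exp (972 / 10000) ≤ 10767 / 100000 := by
      have := n1_exp_le (x := 972 / 10000) (by norm_num) (by norm_num)
      norm_num at this ⊢
      linarith
    have a3 : 7 / 4 * sg n w / (6839 / 10000 * (8968 / 10000)) ^ 2 ≤ 9640 / 100000 := by
      rw [div_le_iff₀ (by norm_num)]
      norm_num
      linarith
    have a4 : Real.sqrt (1878 / 1000 * (1 + (121 / 100 : ℝ) ^ 2) / (8968 / 10000)) ≤ 23 / 10 := by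
      rw [Real.sqrt_le_left (by norm_num)]
      norm_num
    have a5 : Real.exp (-(8968 / 10000 * (Real.pi / 3) ^ 2 / (2 * sg n w))) ≤ 1 / 100000 := by
      refine (n1_exp_neg_nat 12 ?_).trans (by norm_num)
      rw [le_div_iff₀ (by positivity)]
      push_cast
      nlinarith
    have a6 : 0 ≤ 7 / 4 * sg n w / (6839 / 10000 * (8968 / 10000)) ^ 2 := by positivity
    refine le_trans (add_le_add (mul_le_mul a1 (add_le_add a2 a3) (by positivity) (by norm_num))
      (mul_le_mul a4 a5 (by positivity) (by norm_num))) ?_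
    norm_num
  · intro τ hτ
    obtain ⟨h1, h2⟩ := hτ
    unfold hh gR gI
    rw [le_div_iff₀ (by positivity), ← mul_div_assoc, ← add_div, le_div_iff₀ (by positivity)]
    have h3 : (1 + τ) * (1 + w ^ 2) ≤ 2 * w ^ 2 + τ * (2 * w) := by
      nlinarith [mul_nonneg (sub_nonneg.2 hw) (sub_nonneg.2 hw),
        mul_nonneg (mul_nonneg (sub_nonneg.2 hw) (sub_nonneg.2 hw)) (sub_nonneg.2 h2)]
    refine le_trans ?_ h3
    gcongr
    nlinarith
  · intro τ hτ
    obtain ⟨h1, h2⟩ := hτ
    unfold epsI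
    calc sg n w * (1 + τ ^ 2) * (15173 / 10000 + 3184 / 10000 * τ)
        ≤ 2072 / 100000 * (1 + (121 / 100) ^ 2) *
          (15173 / 10000 + 3184 / 10000 * (121 / 100)) := by gcongr
      _ ≤ _ := by norm_num

private theorem n1_far (H : HypM n w) (hL : Real.log w ≤ 1) :
    Kn n w * ∫ τ in (121 / 100 : ℝ)..(TT w), Ew n w τ * Rin w (sg n w) τ ≤ 31 / 1000 := by
  have hσ := H.sg_pos
  have hs := n1_sg H hL
  have hT := n1_TT H hL
  have hT2 := H.TT_le
  have hw := H.hw
  have hwe := n1_w_le hw hL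
  have hp := n1_pisq
  have hpi := Real.pi_gt_d6
  have hpi2 := Real.pi_lt_d6
  have hts := n1_ts hw
  have hR := H.R_ge
  have ha := aa_ge_one hw
  have h0 := far_le H (A := 121 / 100) (B := TT w) (h := 35 / 100) (e := 3476 / 10000)
    (c := 668 / 10000) (by linarith) (by linarith) ?_ (by norm_num) ?_ ?_
  · refine h0.trans ?_
    have a1 : Real.sqrt (2 * Real.pi * sg n w / (6839 / 10000 * (35 / 100))) ≤ 738 / 1000 := by
      rw [Real.sqrt_le_left (by norm_num), div_le_iff₀ (by norm_num)]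
      nlinarith
    have a2 : (3476 / 10000 : ℝ) * Real.exp (3476 / 10000) ≤ 5329 / 10000 := by
      have := n1_exp_le (x := 3476 / 10000) (by norm_num) (by norm_num)
      norm_num at this ⊢
      linarith
    have a3 : 7 / 4 * sg n w / (6839 / 10000 * (35 / 100)) ^ 2 ≤ 6329 / 10000 := by
      rw [div_le_iff₀ (by norm_num)]
      norm_num
      linarith
    have a4 : Real.sqrt (2 * Real.pi * sg n w / (35 / 100)) ≤ 61 / 100 := by
      rw [Real.sqrt_le_left (by norm_num), div_le_iff₀ (by norm_num)]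
      nlinarith
    have a5 : Real.exp (-(35 / 100 * (Real.pi / 3) ^ 2 / (2 * sg n w))) ≤ 2 / 10000 := by
      refine (n1_exp_neg_nat 9 ?_).trans (by norm_num)
      rw [le_div_iff₀ (by positivity)]
      push_cast
      nlinarith
    have a6 : 0 ≤ 7 / 4 * sg n w / (6839 / 10000 * (35 / 100)) ^ 2 := by positivity
    have b1 : Real.sqrt (2 * Real.pi * sg n w / (6839 / 10000 * (35 / 100))) *
        (3476 / 10000 * Real.exp (3476 / 10000) + 7 / 4 * sg n w /
          (6839 / 10000 * (35 / 100)) ^ 2) + Real.sqrt (2 * Real.pi * sg n w / (35 / 100)) *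
        Real.exp (-(35 / 100 * (Real.pi / 3) ^ 2 / (2 * sg n w))) ≤ 87 / 100 := by
      refine le_trans (add_le_add (mul_le_mul a1 (add_le_add a2 a3) (by positivity)
        (by norm_num)) (mul_le_mul a4 a5 (by positivity) (by norm_num))) ?_
      norm_num
    have b2 : Real.exp (-(668 / 10000 * PPn n w)) ≤ Real.exp (-(708 / 10000 * Real.sqrt n)) := by
      apply Real.exp_le_exp.2
      unfold PPn
      nlinarith
    have b3 := mul_exp_neg_le (R := Real.sqrt n) (c := 708 / 10000) hR (by norm_num)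
    have b4 : Real.exp (-(708 / 10000 * 100)) ≤ 8444 / 10000000 := by
      rw [show (-(708 / 10000 * 100) : ℝ) = -7 + -(8 / 100) by norm_num, Real.exp_add]
      have c1 := n1_exp_neg_nat 7 (x := 7) (by norm_num)
      have c2 : Real.exp (-(8 / 100)) ≤ 1 / (1 + 8 / 100) := by
        rw [Real.exp_neg, ← one_div]
        apply one_div_le_one_div_of_le (by norm_num)
        have := Real.add_one_le_exp (8 / 100 : ℝ)
        linarith
      calc Real.exp (-7) * Real.exp (-(8 / 100))
          ≤ (1 / (27182818283 / 10000000000)) ^ 7 * (1 / (1 + 8 / 100)) := by gcongr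
        _ ≤ _ := by norm_num
    have b5 : Real.sqrt n * Real.exp (-(708 / 10000 * Real.sqrt n)) ≤ 100 * (8444 / 10000000) := by
      linarith
    have b6 : 0 ≤ TT w - 121 / 100 := by linarith
    have b7 : TT w - 121 / 100 ≤ 5 / 2 - 121 / 100 := by linarith
    refine le_trans (mul_le_mul_of_nonneg_left (mul_le_mul b7 (mul_le_mul b2 b1 (by positivity)
      (by positivity)) (by positivity) (by norm_num)) (by positivity)) ?_
    calc Real.sqrt n / Real.pi * ((5 / 2 - 121 / 100) *
          (Real.exp (-(708 / 10000 * Real.sqrt n)) * (87 / 100)))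
        = (Real.sqrt n * Real.exp (-(708 / 10000 * Real.sqrt n))) *
          ((5 / 2 - 121 / 100) * (87 / 100)) / Real.pi := by ring
      _ ≤ (100 * (8444 / 10000000)) * ((5 / 2 - 121 / 100) * (87 / 100)) / (3141592 / 1000000) := by
          apply div_le_div₀ (by norm_num) _ (by norm_num) (by linarith)
          exact mul_le_mul_of_nonneg_right b5 (by norm_num)
      _ ≤ 31 / 1000 := by norm_num
  · rw [le_div_iff₀ (by norm_num)]
    have h1 : (406 / 1000 : ℝ) ≤ 121 / 100 - ts w := by linarith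
    have h2 : (406 / 1000 : ℝ) ^ 2 ≤ (121 / 100 - ts w) ^ 2 := by gcongr
    refine le_trans ?_ h2
    norm_num
  · intro τ hτ
    obtain ⟨h1, h2⟩ := hτ
    have h2' : τ ≤ 5 / 2 := h2.trans hT2
    have hg := (gR_mem hw).1
    have hg2 : 64 / 100 ≤ gI w := by
      unfold gI
      rw [le_div_iff₀ (by positivity)]
      nlinarith
    unfold hh
    rw [le_div_iff₀ (by positivity)]
    nlinarith [mul_nonneg (sub_nonneg.2 hg2) (by linarith : (0:ℝ) ≤ τ)]
  · intro τ hτ
    obtain ⟨h1, h2⟩ := hτ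
    have h2' : τ ≤ 5 / 2 := h2.trans hT2
    have h0' : 0 ≤ τ := by linarith
    unfold epsI
    calc sg n w * (1 + τ ^ 2) * (15173 / 10000 + 3184 / 10000 * τ)
        ≤ 2072 / 100000 * (1 + (5 / 2) ^ 2) *
          (15173 / 10000 + 3184 / 10000 * (5 / 2)) := by gcongr
      _ ≤ _ := by norm_num

/-- window error, `0 ≤ L ≤ 1` -/
theorem win_err_01 (H : HypM n w) (hL : Real.log w ≤ 1) :
    Kn n w * ∫ τ in (0 : ℝ)..(TT w), Ew n w τ * Rin w (sg n w) τ ≤ 60 / 100 := by
  have hT := n1_TT H hL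
  rw [win_split H (A := 121 / 100) (by norm_num) (by linarith)]
  have h1 := n1_near H hL
  have h2 := n1_far H hL
  linarith

end Pool.Agent.Lib.Durfee
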