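import Pool.Agent.Lib.MP_9393b1_co.WinN0

/-! # Regime M: window error, `1 ≤ L ≤ 3` -/

set_option autoImplicit false

namespace Pool.Agent.Lib.Durfee

open Complex MeasureTheory Filter Topology

variable {n : ℕ} {w : ℝ}

section aux

private theorem w2_Ew_cont : Continuous (fun τ : ℝ => Ew n w τ) := by
  unfold Ew
  refine Real.continuous_exp.comp (Continuous.neg (Continuous.div₀ (by fun_prop) (by fun_prop) ?_))
  intro τ
  positivity

private theorem w2_Rin_cont (H : HypM n w) :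
    ContinuousOn (fun τ : ℝ => Rin w (sg n w) τ) (Set.Ici 0) := by
  have hw0 : 0 < w := by linarith [H.hw]
  have hpos : ∀ τ ∈ Set.Ici (0 : ℝ), 0 < hh w τ := fun τ hτ => wb_hh_pos hw0 hτ
  have hhc : ContinuousOn (fun τ : ℝ => hh w τ) (Set.Ici 0) := by
    unfold hh
    refine Continuous.continuousOn (Continuous.div₀ (by fun_prop) (by fun_prop) ?_)
    intro τ
    positivity
  have hec : ContinuousOn (fun τ : ℝ => epsI (sg n w) τ) (Set.Ici 0) := by
    unfold epsI
    fun_prop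
  unfold Rin
  refine ContinuousOn.add (ContinuousOn.mul ?_ (ContinuousOn.add ?_ ?_)) (ContinuousOn.mul ?_ ?_)
  · refine ContinuousOn.sqrt (ContinuousOn.div continuousOn_const (continuousOn_const.mul hhc) ?_)
    intro τ hτ
    have := hpos τ hτ
    positivity
  · exact hec.mul (Real.continuous_exp.comp_continuousOn hec)
  · refine ContinuousOn.div continuousOn_const ((continuousOn_const.mul hhc).pow 2) ?_
    intro τ hτ
    have := hpos τ hτ
    positivity
  · refine ContinuousOn.sqrt (ContinuousOn.div continuousOn_const hhc ?_)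
    intro τ hτ
    have := hpos τ hτ
    positivity
  · refine Real.continuous_exp.comp_continuousOn (ContinuousOn.neg ?_)
    exact (hhc.mul continuousOn_const).div_const _

private theorem w2_Rin_nonneg (H : HypM n w) {τ : ℝ} (hτ : 0 ≤ τ) : 0 ≤ Rin w (sg n w) τ := by
  have hw0 : 0 < w := by linarith [H.hw]
  have h1 := wb_hh_pos (τ := τ) hw0 hτ
  have h2 := wb_epsI_nonneg (τ := τ) H.sg_pos hτ
  have h3 := H.sg_pos
  unfold Rin
  positivity

private theorem w2_Ew_nonneg (τ : ℝ) : 0 ≤ Ew n w τ := (Real.exp_pos _).le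

private theorem w2_intble (H : HypM n w) {a b : ℝ} (ha : 0 ≤ a) (hb : 0 ≤ b) :
    IntervalIntegrable (fun τ : ℝ => Ew n w τ * Rin w (sg n w) τ) volume a b := by
  apply ContinuousOn.intervalIntegrable
  refine (w2_Ew_cont.continuousOn.mul (w2_Rin_cont H)).mono ?_
  intro τ hτ
  rcases Set.mem_uIcc.1 hτ with h | h
  · exact ha.trans h.1
  · exact hb.trans h.1

private theorem w2_Kn_nonneg (H : HypM n w) : 0 ≤ Kn n w := by
  have hw0 : 0 < w := by linarith [H.hw]
  have h1 := aa_pos hw0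
  have h2 : 0 ≤ PPn n w := by unfold PPn; positivity
  have := Real.pi_pos
  unfold Kn
  positivity

/-- splitting off the far part -/
private theorem w2_split (H : HypM n w) {T' A ρ c D B : ℝ} (hT' : 0 ≤ T') (hT'T : T' ≤ TT w)
    (hA : Kn n w * ∫ τ in (0 : ℝ)..T', Ew n w τ * Rin w (sg n w) τ ≤ A) (hρ0 : 0 ≤ ρ)
    (hρ : ∀ τ ∈ Set.Icc T' (TT w), Rin w (sg n w) τ ≤ ρ) (hc : 1 / 100 ≤ c)
    (hE : ∀ τ ∈ Set.Icc T' (TT w), Ew n w τ ≤ Real.exp (-(c * Real.sqrt n)))
    (hD : TT w - T' ≤ D) (hB : 100 * Real.exp (-(100 * c)) ≤ B) :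
    Kn n w * ∫ τ in (0 : ℝ)..(TT w), Ew n w τ * Rin w (sg n w) τ ≤ A + D * ρ * B / 3 := by
  have hT : 0 ≤ TT w := hT'.trans hT'T
  have hpi := Real.pi_gt_three
  have h1 := intervalIntegral.integral_add_adjacent_intervals (w2_intble H (le_refl 0) hT')
    (w2_intble H hT' hT)
  have h2 : ∫ τ in T'..(TT w), Ew n w τ * Rin w (sg n w) τ ≤
      (TT w - T') * (Real.exp (-(c * Real.sqrt n)) * ρ) := by
    have h3 : ∫ τ in T'..(TT w), Ew n w τ * Rin w (sg n w) τ ≤
        ∫ τ in T'..(TT w), (Real.exp (-(c * Real.sqrt n)) * ρ) := by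
      apply intervalIntegral.integral_mono_on hT'T (w2_intble H hT' hT) (by simp)
      intro τ hτ
      exact mul_le_mul (hE τ hτ) (hρ τ hτ) (w2_Rin_nonneg H (hT'.trans hτ.1)) (Real.exp_pos _).le
    rwa [intervalIntegral.integral_const, smul_eq_mul] at h3
  have hR : 100 ≤ Real.sqrt n := H.R_ge
  have h4 : Real.sqrt n * Real.exp (-(c * Real.sqrt n)) ≤ B := by
    refine le_trans ?_ hB
    have h5 : Real.sqrt n ≤ 100 * Real.exp (c * (Real.sqrt n - 100)) := by
      have h6 := Real.add_one_le_exp (c * (Real.sqrt n - 100))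
      have h7 : 0 ≤ (c - 1 / 100) * (Real.sqrt n - 100) :=
        mul_nonneg (by linarith) (by linarith)
      nlinarith
    calc Real.sqrt n * Real.exp (-(c * Real.sqrt n))
        ≤ 100 * Real.exp (c * (Real.sqrt n - 100)) * Real.exp (-(c * Real.sqrt n)) :=
          mul_le_mul_of_nonneg_right h5 (Real.exp_pos _).le
      _ = 100 * Real.exp (-(100 * c)) := by
          rw [mul_assoc, ← Real.exp_add]
          congr 2
          ring
  have hB0 : 0 ≤ B := le_trans (by positivity) hB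
  have hD0 : 0 ≤ D := le_trans (by linarith) hD
  have hKn := H.Kn_le
  have hKn0 := w2_Kn_nonneg H
  have h8 : Kn n w * ∫ τ in T'..(TT w), Ew n w τ * Rin w (sg n w) τ ≤ D * ρ * B / 3 := by
    calc Kn n w * ∫ τ in T'..(TT w), Ew n w τ * Rin w (sg n w) τ
        ≤ Kn n w * ((TT w - T') * (Real.exp (-(c * Real.sqrt n)) * ρ)) :=
          mul_le_mul_of_nonneg_left h2 hKn0
      _ ≤ (Real.sqrt n / Real.pi) * (D * (Real.exp (-(c * Real.sqrt n)) * ρ)) := by
          apply mul_le_mul hKn _ _ (by positivity)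
          · exact mul_le_mul_of_nonneg_right hD (by positivity)
          · exact mul_nonneg (by linarith) (by positivity)
      _ = D * ρ * (Real.sqrt n * Real.exp (-(c * Real.sqrt n))) / Real.pi := by ring
      _ ≤ D * ρ * B / Real.pi := by gcongr
      _ ≤ D * ρ * B / 3 := by
          apply div_le_div_of_nonneg_left (by positivity) (by norm_num) hpi.le
  rw [← h1, mul_add]
  linarith

private theorem w2_exp_le {x : ℝ} (hx : x < 1) : Real.exp x ≤ 1 / (1 - x) := by
  have h1 := Real.add_one_le_exp (-x)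
  rw [le_div_iff₀ (by linarith)]
  have h2 : Real.exp x * Real.exp (-x) = 1 := by rw [← Real.exp_add]; simp
  have h3 := Real.exp_pos x
  nlinarith

private theorem w2_exp_neg_le {x y : ℝ} (hy : 0 ≤ y) (hxy : y ≤ x) :
    Real.exp (-x) ≤ 1 / (1 + y + y ^ 2 / 2) := by
  have h1 := Real.quadratic_le_exp_of_nonneg hy
  have h2 : Real.exp (-x) ≤ Real.exp (-y) := Real.exp_le_exp.2 (by linarith)
  refine h2.trans ?_
  rw [Real.exp_neg, ← one_div]
  exact one_div_le_one_div_of_le (by positivity) h1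

private theorem w2_pi_sq : 10966 / 10000 ≤ (Real.pi / 3) ^ 2 := by
  have := Real.pi_gt_d6
  nlinarith

/-- upper bound for `σ` -/
private theorem w2_sg_le (H : HypM n w) {l s : ℝ} (hl : Real.log w ≤ l)
    (hs : 0 ≤ s) (h : l ^ 2 + 32899 / 10000 ≤ (100 * s) ^ 2) : sg n w ≤ s := by
  have h1 := H.sg_le_of hl
  have hpi := Real.pi_lt_d6
  have hp0 := Real.pi_pos
  have h2 : Real.sqrt (l ^ 2 + Real.pi ^ 2 / 3) ≤ 100 * s := by
    rw [Real.sqrt_le_left (by positivity)]
    nlinarith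
  refine h1.trans ?_
  rw [div_le_iff₀ (by norm_num)]
  linarith

private theorem w2_ts_le (H : HypM n w) {r t : ℝ} (hr : r * VI w ≤ VR w) (ht0 : 0 ≤ t) (hr0 : 0 ≤ r)
    (ht : 1 < t ^ 2 + 2 * r * t) : ts w ≤ t := by
  have hw0 : 0 < w := by linarith [H.hw]
  have ha := aa_pos hw0
  have hb := bb_pos hw0
  have h1 := aa_sq_sub_bb_sq hw0
  have h2 := two_aa_bb hw0
  unfold ts
  rw [div_le_iff₀ ha]
  by_contra hcon
  push Not at hcon
  rw [← h1, ← h2] at hr
  have h3 : (t * aa w) ^ 2 ≤ bb w ^ 2 := pow_le_pow_left₀ (by positivity) hcon.le 2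
  have h4 : 2 * r * (aa w * (t * aa w)) ≤ 2 * r * (aa w * bb w) := by gcongr
  have h5 : 0 < aa w ^ 2 := by positivity
  nlinarith

private theorem w2_Ew_le (H : HypM n w) {τ t q c k : ℝ} (hts : ts w ≤ t) (htτ : t ≤ τ)
    (hq : q * (1 + τ ^ 2) ≤ (τ - t) ^ 2) (hk : k ≤ Real.log w) (hk0 : 0 ≤ k)
    (hc : c ≤ q * k) : Ew n w τ ≤ Real.exp (-(c * Real.sqrt n)) := by
  unfold Ew
  apply Real.exp_le_exp.2
  apply neg_le_neg
  have ha : k ≤ aa w := hk.trans (log_le_aa H.hw)
  have hR : 0 ≤ Real.sqrt n := Real.sqrt_nonneg _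
  have h1 : Real.sqrt n * k ≤ PPn n w := by
    unfold PPn
    gcongr
  have h2 : (τ - t) ^ 2 ≤ (τ - ts w) ^ 2 := by
    apply pow_le_pow_left₀ (by linarith)
    linarith
  have h3 : (0 : ℝ) < 1 + τ ^ 2 := by positivity
  rw [le_div_iff₀ h3]
  calc c * Real.sqrt n * (1 + τ ^ 2) ≤ q * k * Real.sqrt n * (1 + τ ^ 2) := by gcongr
    _ = (Real.sqrt n * k) * (q * (1 + τ ^ 2)) := by ring
    _ ≤ (Real.sqrt n * k) * (τ - ts w) ^ 2 :=
        mul_le_mul_of_nonneg_left (hq.trans h2) (by positivity)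
    _ ≤ PPn n w * (τ - ts w) ^ 2 := mul_le_mul_of_nonneg_right h1 (by positivity)

private theorem w2_epsI_le {σ τ s T e : ℝ} (hσ0 : 0 ≤ σ) (hσ : σ ≤ s) (hτ : 0 ≤ τ) (hτT : τ ≤ T)
    (he : s * (1 + T ^ 2) * (15173 / 10000 + 3184 / 10000 * T) ≤ e) : epsI σ τ ≤ e := by
  refine le_trans ?_ he
  unfold epsI
  have : 0 ≤ s := hσ0.trans hσ
  gcongr

private theorem w2_TT (hL : 1 ≤ Real.log w) : TT w = 3 * Real.pi / (4 * Real.log w) := by
  unfold TT
  rw [if_neg]
  have := Real.pi_lt_d2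
  push Not
  linarith

end aux

/-- window error, `1 ≤ L ≤ 2` -/
theorem win_err_12 (H : HypM n w) (hL0 : 1 ≤ Real.log w) (hL : Real.log w ≤ 2) :
    Kn n w * ∫ τ in (0 : ℝ)..(TT w), Ew n w τ * Rin w (sg n w) τ ≤ 60 / 100 := by
  have hw0 : 0 < w := by linarith [H.hw]
  have hlog : 0 < Real.log w := by linarith
  have hp1 := Real.pi_gt_d6
  have hp2 := Real.pi_lt_d6
  have he1 := Real.exp_one_gt_d9
  have he2 := Real.exp_one_lt_d9
  have hw1 : 2.71828 ≤ w := by
    have : Real.exp 1 ≤ w := by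
      rw [← Real.exp_log hw0]
      exact Real.exp_le_exp.2 hL0
    linarith
  have hw2 : w ≤ 7.3891 := by
    have h1 : w ≤ Real.exp 2 := by
      rw [← Real.exp_log hw0]
      exact Real.exp_le_exp.2 hL
    have h2 : Real.exp 2 = Real.exp 1 * Real.exp 1 := by rw [← Real.exp_add]; norm_num
    rw [h2] at h1
    nlinarith
  have hTT := w2_TT (w := w) hL0
  have hT1 : 1.0526 ≤ TT w := by
    rw [hTT, le_div_iff₀ (by positivity)]
    nlinarith
  have hT2 : TT w ≤ 2.3562 := by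
    rw [hTT, div_le_iff₀ (by positivity)]
    nlinarith
  have hσ0 := H.sg_pos
  have hσ : sg n w ≤ 0.027 := w2_sg_le H hL (by norm_num) (by norm_num)
  have hts : ts w ≤ 0.6526 :=
    w2_ts_le H (r := 44 / 100) (ratio_one hw0 hL0) (by norm_num) (by norm_num) (by norm_num)
  -- near part
  have hnear : Kn n w * ∫ τ in (0 : ℝ)..1.0526, Ew n w τ * Rin w (sg n w) τ ≤ 0.52 := by
    have hh1 : ∀ τ ∈ Set.Icc (0 : ℝ) 1.0526, (106 / 100 : ℝ) ≤ hh w τ := by
      rintro τ ⟨hτ0, hτ1⟩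
      unfold hh gR gI
      have h3 : (0 : ℝ) < 1 + w ^ 2 := by positivity
      have h4 : 2 * w ^ 2 / (1 + w ^ 2) + τ * (2 * w / (1 + w ^ 2)) =
          (2 * w ^ 2 + 2 * w * τ) / (1 + w ^ 2) := by
        field_simp
      rw [h4, le_div_iff₀ (by positivity), le_div_iff₀ h3]
      have hQ0 : 0 ≤ 2 * w ^ 2 - 1.06 * (1 + w ^ 2) := by nlinarith
      have hQ1 : 0 ≤ 2 * w ^ 2 + 2 * w * 1.0526 - 1.06 * (1 + 1.0526 ^ 2) * (1 + w ^ 2) := by
        nlinarith [mul_nonneg (sub_nonneg.2 hw1) (sub_nonneg.2 hw2)]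
      have e1 := mul_nonneg (sub_nonneg.2 hτ1) hQ0
      have e2 := mul_nonneg hτ0 hQ1
      have e3 := mul_nonneg (mul_nonneg hτ0 (sub_nonneg.2 hτ1)) h3.le
      nlinarith
    have h1 := near_le H (T' := 1.0526) (h := 106 / 100) (e := 0.1055) (G := 2) (by norm_num) hT1
      (by norm_num) hh1 (fun τ hτ => w2_epsI_le hσ0.le hσ hτ.1 hτ.2 (by norm_num))
      (norm_gam_le_two w hw0)
    refine h1.trans ?_
    have s1 : Real.sqrt (2 * (1 + 1.0526 ^ 2) / (6839 / 10000 * (106 / 100))) ≤ 2.4117 := by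
      rw [Real.sqrt_le_left (by norm_num)]
      norm_num
    have s2 : Real.sqrt (2 * (1 + 1.0526 ^ 2) / (106 / 100)) ≤ 2 := by
      rw [Real.sqrt_le_left (by norm_num)]
      norm_num
    have s3 : Real.exp 0.1055 ≤ 1.118 := (w2_exp_le (by norm_num)).trans (by norm_num)
    have s4 : Real.exp (-(106 / 100 * (Real.pi / 3) ^ 2 / (2 * sg n w))) ≤ 0.005 := by
      refine (w2_exp_neg_le (y := 21) (by norm_num) ?_).trans (by norm_num)
      rw [le_div_iff₀ (by positivity)]
      have := w2_pi_sq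
      nlinarith
    have s5 : 7 / 4 * sg n w / (6839 / 10000 * (106 / 100)) ^ 2 ≤ 0.08992 := by
      rw [div_le_iff₀ (by norm_num)]
      nlinarith
    have s6 : 0.1055 * Real.exp 0.1055 + 7 / 4 * sg n w / (6839 / 10000 * (106 / 100)) ^ 2 ≤
        0.2079 := by linarith
    have s7 : 0 ≤ 0.1055 * Real.exp 0.1055 + 7 / 4 * sg n w /
        (6839 / 10000 * (106 / 100)) ^ 2 := by positivity
    exact (add_le_add (mul_le_mul s1 s6 s7 (by norm_num)) (mul_le_mul s2 s4
      (Real.exp_pos _).le (by norm_num))).trans (by norm_num)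
  -- far part
  have hfar : ∀ τ ∈ Set.Icc (1.0526 : ℝ) (TT w), Rin w (sg n w) τ ≤ 2.1 := by
    rintro τ ⟨hτ0, hτ1⟩
    have hτ2 : τ ≤ 2.3562 := hτ1.trans hT2
    have hτ00 : 0 ≤ τ := by linarith
    have hh1 : (0.2688 : ℝ) ≤ hh w τ := by
      unfold hh
      have h5 : 1.7615 ≤ gR w := by
        unfold gR
        rw [le_div_iff₀ (by positivity)]
        nlinarith
      have h6 : 0 ≤ gI w := (gI_pos hw0).le
      rw [le_div_iff₀ (by positivity)]
      have h7 : 0 ≤ τ * gI w := by positivity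
      nlinarith
    refine (Rin_le hσ0 (by norm_num) hh1 (wb_epsI_nonneg hσ0 hτ00)
      (w2_epsI_le (e := 0.4012) hσ0.le hσ hτ00 hτ2 (by norm_num))).trans ?_
    have s1 : Real.sqrt (2 * Real.pi * sg n w / (6839 / 10000 * 0.2688)) ≤ 0.961 := by
      rw [Real.sqrt_le_left (by norm_num), div_le_iff₀ (by norm_num)]
      nlinarith
    have s2 : Real.sqrt (2 * Real.pi * sg n w / 0.2688) ≤ 0.8 := by
      rw [Real.sqrt_le_left (by norm_num), div_le_iff₀ (by norm_num)]
      nlinarith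
    have s3 : Real.exp 0.4012 ≤ 1.6701 := (w2_exp_le (by norm_num)).trans (by norm_num)
    have s4 : Real.exp (-(0.2688 * (Real.pi / 3) ^ 2 / (2 * sg n w))) ≤ 0.05 := by
      refine (w2_exp_neg_le (y := 5.4) (by norm_num) ?_).trans (by norm_num)
      rw [le_div_iff₀ (by positivity)]
      have := w2_pi_sq
      nlinarith
    have s5 : 7 / 4 * sg n w / (6839 / 10000 * 0.2688) ^ 2 ≤ 1.3983 := by
      rw [div_le_iff₀ (by norm_num)]
      nlinarith
    have s6 : 0.4012 * Real.exp 0.4012 + 7 / 4 * sg n w / (6839 / 10000 * 0.2688) ^ 2 ≤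
        2.0684 := by linarith
    have s7 : 0 ≤ 0.4012 * Real.exp 0.4012 + 7 / 4 * sg n w /
        (6839 / 10000 * 0.2688) ^ 2 := by positivity
    exact (add_le_add (mul_le_mul s1 s6 s7 (by norm_num)) (mul_le_mul s2 s4
      (Real.exp_pos _).le (by norm_num))).trans (by norm_num)
  have hEw : ∀ τ ∈ Set.Icc (1.0526 : ℝ) (TT w),
      Ew n w τ ≤ Real.exp (-(0.075 * Real.sqrt n)) := by
    rintro τ ⟨hτ0, hτ1⟩
    refine w2_Ew_le H (t := 0.6526) (q := 0.075) (k := 1) hts (by linarith) ?_ hL0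
      (by norm_num) (by norm_num)
    nlinarith
  have hB : 100 * Real.exp (-(100 * 0.075)) ≤ 0.062 := by
    have h1 : Real.exp (100 * 0.075) = Real.exp 1 ^ 7 * Real.exp 0.5 := by
      rw [← Real.exp_nat_mul, ← Real.exp_add]
      norm_num
    have h2 : 1.5 ≤ Real.exp 0.5 := by
      have := Real.add_one_le_exp 0.5
      linarith
    have h3 : (2.718 : ℝ) ^ 7 ≤ Real.exp 1 ^ 7 := pow_le_pow_left₀ (by norm_num) (by linarith) 7
    have h4 : 1640 ≤ Real.exp (100 * 0.075) := by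
      rw [h1]
      calc (1640 : ℝ) ≤ 2.718 ^ 7 * 1.5 := by norm_num
        _ ≤ Real.exp 1 ^ 7 * Real.exp 0.5 := by gcongr
    rw [Real.exp_neg, ← one_div]
    have h5 : 1 / Real.exp (100 * 0.075) ≤ 1 / 1640 := one_div_le_one_div_of_le (by norm_num) h4
    linarith
  have := w2_split H (T' := 1.0526) (A := 0.52) (ρ := 2.1) (c := 0.075) (D := 1.3036) (B := 0.062)
    (by norm_num) hT1 hnear (by norm_num) hfar (by norm_num) hEw (by linarith) hB
  refine this.trans (by norm_num)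

/-- window error, `2 ≤ L ≤ 3` -/
theorem win_err_23 (H : HypM n w) (hL0 : 2 ≤ Real.log w) (hL : Real.log w ≤ 3) :
    Kn n w * ∫ τ in (0 : ℝ)..(TT w), Ew n w τ * Rin w (sg n w) τ ≤ 60 / 100 := by
  have hw0 : 0 < w := by linarith [H.hw]
  have hlog : 0 < Real.log w := by linarith
  have hp1 := Real.pi_gt_d6
  have hp2 := Real.pi_lt_d6
  have he1 := Real.exp_one_gt_d9
  have he2 := Real.exp_one_lt_d9
  have hw1 : 7.389 ≤ w := by
    have h1 : Real.exp 2 ≤ w := by
      rw [← Real.exp_log hw0]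
      exact Real.exp_le_exp.2 hL0
    have h2 : Real.exp 2 = Real.exp 1 * Real.exp 1 := by rw [← Real.exp_add]; norm_num
    rw [h2] at h1
    nlinarith
  have hTT := w2_TT (w := w) (by linarith)
  have hT0 := H.TT_pos
  have hT2 : TT w ≤ 1.1782 := by
    rw [hTT, div_le_iff₀ (by positivity)]
    nlinarith
  have hσ0 := H.sg_pos
  have hσ : sg n w ≤ 0.03506 := w2_sg_le H hL (by norm_num) (by norm_num)
  have hts : ts w ≤ 0.5082 :=
    w2_ts_le H (r := 73 / 100) (ratio_two hw0 hL0) (by norm_num) (by norm_num) (by norm_num)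
  have hgR : 1.964 ≤ gR w := by
    unfold gR
    rw [le_div_iff₀ (by positivity)]
    nlinarith
  have hgI : 0 ≤ gI w := (gI_pos hw0).le
  -- near part
  have hnear : ∀ T' : ℝ, 0 ≤ T' → T' ≤ 0.9082 → T' ≤ TT w →
      Kn n w * ∫ τ in (0 : ℝ)..T', Ew n w τ * Rin w (sg n w) τ ≤ 0.57 := by
    intro T' hT'0 hT'1 hT'T
    have hTsq : T' ^ 2 ≤ 0.9082 ^ 2 := pow_le_pow_left₀ hT'0 hT'1 2
    have hh1 : ∀ τ ∈ Set.Icc (0 : ℝ) T', (1.0762 : ℝ) ≤ hh w τ := by
      rintro τ ⟨hτ0, hτ1⟩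
      unfold hh
      rw [le_div_iff₀ (by positivity)]
      have h7 : 0 ≤ τ * gI w := by positivity
      have h8 : τ ^ 2 ≤ 0.9082 ^ 2 := pow_le_pow_left₀ hτ0 (hτ1.trans hT'1) 2
      nlinarith
    have h1 := near_le H (T' := T') (h := 1.0762) (e := 0.1156) (G := 2) hT'0 hT'T
      (by norm_num) hh1 (fun τ hτ => w2_epsI_le hσ0.le hσ hτ.1 (hτ.2.trans hT'1) (by norm_num))
      (norm_gam_le_two w hw0)
    refine h1.trans ?_
    have s1 : Real.sqrt (2 * (1 + T' ^ 2) / (6839 / 10000 * 1.0762)) ≤ 2.227 := by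
      rw [Real.sqrt_le_left (by norm_num), div_le_iff₀ (by norm_num)]
      nlinarith
    have s2 : Real.sqrt (2 * (1 + T' ^ 2) / 1.0762) ≤ 2 := by
      rw [Real.sqrt_le_left (by norm_num), div_le_iff₀ (by norm_num)]
      nlinarith
    have s3 : Real.exp 0.1156 ≤ 1.1308 := (w2_exp_le (by norm_num)).trans (by norm_num)
    have s4 : Real.exp (-(1.0762 * (Real.pi / 3) ^ 2 / (2 * sg n w))) ≤ 0.0075 := by
      refine (w2_exp_neg_le (y := 16.5) (by norm_num) ?_).trans (by norm_num)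
      rw [le_div_iff₀ (by positivity)]
      have := w2_pi_sq
      nlinarith
    have s5 : 7 / 4 * sg n w / (6839 / 10000 * 1.0762) ^ 2 ≤ 0.11327 := by
      rw [div_le_iff₀ (by norm_num)]
      nlinarith
    have s6 : 0.1156 * Real.exp 0.1156 + 7 / 4 * sg n w / (6839 / 10000 * 1.0762) ^ 2 ≤
        0.24402 := by linarith
    have s7 : 0 ≤ 0.1156 * Real.exp 0.1156 + 7 / 4 * sg n w /
        (6839 / 10000 * 1.0762) ^ 2 := by positivity
    exact (add_le_add (mul_le_mul s1 s6 s7 (by norm_num)) (mul_le_mul s2 s4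
      (Real.exp_pos _).le (by norm_num))).trans (by norm_num)
  rcases le_total (TT w) 0.9082 with hcase | hcase
  · exact (hnear (TT w) hT0.le hcase le_rfl).trans (by norm_num)
  · have hfar : ∀ τ ∈ Set.Icc (0.9082 : ℝ) (TT w), Rin w (sg n w) τ ≤ 1 := by
      rintro τ ⟨hτ0, hτ1⟩
      have hτ2 : τ ≤ 1.1782 := hτ1.trans hT2
      have hτ00 : 0 ≤ τ := by linarith
      have hh1 : (0.82 : ℝ) ≤ hh w τ := by
        unfold hh
        rw [le_div_iff₀ (by positivity)]
        have h7 : 0 ≤ τ * gI w := by positivity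
        nlinarith
      refine (Rin_le hσ0 (by norm_num) hh1 (wb_epsI_nonneg hσ0 hτ00)
        (w2_epsI_le (e := 0.1585) hσ0.le hσ hτ00 hτ2 (by norm_num))).trans ?_
      have s1 : Real.sqrt (2 * Real.pi * sg n w / (6839 / 10000 * 0.82)) ≤ 0.63 := by
        rw [Real.sqrt_le_left (by norm_num), div_le_iff₀ (by norm_num)]
        nlinarith
      have s2 : Real.sqrt (2 * Real.pi * sg n w / 0.82) ≤ 0.52 := by
        rw [Real.sqrt_le_left (by norm_num), div_le_iff₀ (by norm_num)]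
        nlinarith
      have s3 : Real.exp 0.1585 ≤ 1.1884 := (w2_exp_le (by norm_num)).trans (by norm_num)
      have s4 : Real.exp (-(0.82 * (Real.pi / 3) ^ 2 / (2 * sg n w))) ≤ 1 := by
        rw [Real.exp_le_one_iff, neg_nonpos]
        positivity
      have s5 : 7 / 4 * sg n w / (6839 / 10000 * 0.82) ^ 2 ≤ 0.1951 := by
        rw [div_le_iff₀ (by norm_num)]
        nlinarith
      have s6 : 0.1585 * Real.exp 0.1585 + 7 / 4 * sg n w / (6839 / 10000 * 0.82) ^ 2 ≤
          0.3835 := by linarith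
      have s7 : 0 ≤ 0.1585 * Real.exp 0.1585 + 7 / 4 * sg n w /
          (6839 / 10000 * 0.82) ^ 2 := by positivity
      exact (add_le_add (mul_le_mul s1 s6 s7 (by norm_num)) (mul_le_mul s2 s4
        (Real.exp_pos _).le (by norm_num))).trans (by norm_num)
    have hEw : ∀ τ ∈ Set.Icc (0.9082 : ℝ) (TT w),
        Ew n w τ ≤ Real.exp (-(0.17 * Real.sqrt n)) := by
      rintro τ ⟨hτ0, hτ1⟩
      refine w2_Ew_le H (t := 0.5082) (q := 0.085) (k := 2) hts (by linarith) ?_ hL0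
        (by norm_num) (by norm_num)
      nlinarith
    have hB : 100 * Real.exp (-(100 * 0.17)) ≤ 0.01 := by
      have h1 : Real.exp (100 * 0.17) = Real.exp 1 ^ 17 := by
        rw [← Real.exp_nat_mul]
        norm_num
      have h3 : (2.7 : ℝ) ^ 17 ≤ Real.exp 1 ^ 17 :=
        pow_le_pow_left₀ (by norm_num) (by linarith) 17
      have h4 : 10000 ≤ Real.exp (100 * 0.17) := by
        rw [h1]
        refine le_trans ?_ h3
        norm_num
      rw [Real.exp_neg, ← one_div]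
      have h5 : 1 / Real.exp (100 * 0.17) ≤ 1 / 10000 := one_div_le_one_div_of_le (by norm_num) h4
      linarith
    have := w2_split H (T' := 0.9082) (A := 0.57) (ρ := 1) (c := 0.17) (D := 0.27) (B := 0.01)
      (by norm_num) hcase (hnear _ (by norm_num) le_rfl hcase) (by norm_num) hfar (by norm_num)
      hEw (by linarith) hB
    refine this.trans (by norm_num)

end Pool.Agent.Lib.Durfee
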