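import Pool.Agent.Lib.MP_9393b1_co.WinN0

/-! # Regime M: window error, `L ≥ 3` -/

set_option autoImplicit false

namespace Pool.Agent.Lib.Durfee

open Complex MeasureTheory Filter Topology

variable {n : ℕ} {w : ℝ}

/-- `γ_R ≥ 1.995` for `L ≥ 3` -/
private theorem wn3_gR (hw : 1 ≤ w) (hL : 3 ≤ Real.log w) : 1995 / 1000 ≤ gR w := by
  have h1 : Real.exp 3 ≤ w := by
    have := Real.exp_le_exp.2 hL
    rwa [Real.exp_log (by linarith)] at this
  have h2 : (20 : ℝ) ≤ Real.exp 3 := by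
    have h3 : Real.exp 3 = Real.exp 1 ^ 3 := by
      rw [← Real.exp_nat_mul]; norm_num
    rw [h3]
    have h4 := Real.exp_one_gt_d9
    have h5 : (2.7182818283 : ℝ) ^ 3 ≤ Real.exp 1 ^ 3 := by
      gcongr
    refine le_trans ?_ h5
    norm_num
  have h3 : 20 ≤ w := by linarith
  have h4 : (400 : ℝ) ≤ w ^ 2 := by nlinarith
  unfold gR
  rw [le_div_iff₀ (by positivity)]
  nlinarith

private theorem wn3_TT (hL : 3 ≤ Real.log w) : TT w = 3 * Real.pi / (4 * Real.log w) := by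
  unfold TT
  rw [if_neg]
  have := Real.pi_lt_d2
  intro h
  linarith

private theorem wn3_TT_le {l t : ℝ} (hl : 3 ≤ l) (hL : l ≤ Real.log w)
    (h : 3 * 3.141593 ≤ t * (4 * l)) : TT w ≤ t := by
  rw [wn3_TT (hl.trans hL)]
  have h1 : 0 < 4 * Real.log w := by linarith
  have hp := Real.pi_lt_d6
  rw [div_le_iff₀ h1]
  have h2 : 0 ≤ t := by
    by_contra hc
    push Not at hc
    nlinarith
  nlinarith

private theorem wn3_exp7 {x : ℝ} (hx : 7 ≤ x) : Real.exp (-x) ≤ 1 / 1000 := by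
  have h1 : Real.exp (-x) ≤ Real.exp (-7) := Real.exp_le_exp.2 (by linarith)
  refine h1.trans ?_
  rw [Real.exp_neg, ← one_div]
  have h3 : Real.exp 7 = Real.exp 1 ^ 7 := by
    rw [← Real.exp_nat_mul]; norm_num
  have h4 := Real.exp_one_gt_d9
  have h5 : (2.7182818283 : ℝ) ^ 7 ≤ Real.exp 1 ^ 7 := by
    gcongr
  rw [h3]
  refine one_div_le_one_div_of_le (by norm_num) (le_trans ?_ h5)
  norm_num

private theorem wn3_aux (H : HypM n w) (hL : 3 ≤ Real.log w) {t0 s0 h e A B : ℝ}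
    (ht : TT w ≤ t0) (hs : sg n w ≤ s0) (hh0 : 0 < h) (hh1 : h * (1 + t0 ^ 2) ≤ 1995 / 1000)
    (he : s0 * (1 + t0 ^ 2) * (15173 / 10000 + 3184 / 10000 * t0) ≤ e) (he1 : e < 1)
    (hA : 0 ≤ A) (hA2 : 2 * (1 + t0 ^ 2) / (6839 / 10000 * h) ≤ A ^ 2)
    (hB : 0 ≤ B) (hB2 : 2 * (1 + t0 ^ 2) / h ≤ B ^ 2) (hD : 7 * (2 * s0) ≤ h * (109 / 100)) :
    Kn n w * ∫ τ in (0 : ℝ)..(TT w), Ew n w τ * Rin w (sg n w) τ ≤
      A * (e * (1 / (1 - e)) + 7 / 4 * s0 / (6839 / 10000 * h) ^ 2) + B * (1 / 1000) := by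
  have hw := H.hw
  have hT0 := H.TT_pos
  have hs0 := H.sg_pos
  have hs1 : 0 < s0 := lt_of_lt_of_le hs0 hs
  have ht0 : 0 < t0 := lt_of_lt_of_le hT0 ht
  have hgR := wn3_gR hw hL
  have hgI : 0 < gI w := (gI_mem hw).1
  have hG := norm_gam_le_two w (by linarith)
  have key := near_le (T' := TT w) (h := h) (e := e) (G := 2) H hT0.le le_rfl hh0
    (fun τ hτ => by
      have hτ0 : 0 ≤ τ := hτ.1
      have hτ1 : τ ≤ t0 := hτ.2.trans ht
      unfold hh
      rw [le_div_iff₀ (by positivity)]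
      have h1 : h * (1 + τ ^ 2) ≤ h * (1 + t0 ^ 2) := by gcongr
      have h2 : 0 ≤ τ * gI w := by positivity
      linarith)
    (fun τ hτ => by
      have hτ0 : 0 ≤ τ := hτ.1
      have hτ1 : τ ≤ t0 := hτ.2.trans ht
      refine le_trans ?_ he
      unfold epsI
      gcongr)
    hG
  refine key.trans ?_
  have he0 : 0 ≤ e := by
    refine le_trans ?_ he
    positivity
  have hexp : Real.exp e ≤ 1 / (1 - e) := by
    have h1 := Real.one_sub_le_exp_neg e
    rw [le_div_iff₀ (by linarith)]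
    have h2 : Real.exp e * Real.exp (-e) = 1 := by rw [← Real.exp_add]; simp
    have h3 := Real.exp_pos e
    nlinarith
  have hTT : TT w ^ 2 ≤ t0 ^ 2 := by gcongr
  have hsqA : Real.sqrt (2 * (1 + TT w ^ 2) / (6839 / 10000 * h)) ≤ A := by
    rw [Real.sqrt_le_left hA]
    refine le_trans ?_ hA2
    gcongr
  have hsqB : Real.sqrt (2 * (1 + TT w ^ 2) / h) ≤ B := by
    rw [Real.sqrt_le_left hB]
    refine le_trans ?_ hB2
    gcongr
  have hpi : (109 : ℝ) / 100 ≤ (Real.pi / 3) ^ 2 := by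
    have := Real.pi_gt_d2
    nlinarith
  have hD2 : Real.exp (-(h * (Real.pi / 3) ^ 2 / (2 * sg n w))) ≤ 1 / 1000 := by
    apply wn3_exp7
    rw [le_div_iff₀ (by positivity)]
    have h1 : 7 * (2 * sg n w) ≤ 7 * (2 * s0) := by gcongr
    have h2 : h * (109 / 100) ≤ h * (Real.pi / 3) ^ 2 := by gcongr
    linarith
  have h1e : 0 < 1 - e := by linarith
  gcongr

/-- window error, `3 ≤ L ≤ 7` -/
theorem win_err_37 (H : HypM n w) (hL0 : 3 ≤ Real.log w) (hL : Real.log w ≤ 7) :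
    Kn n w * ∫ τ in (0 : ℝ)..(TT w), Ew n w τ * Rin w (sg n w) τ ≤ 60 / 100 := by
  have hp := Real.pi_lt_d4
  have hp0 := Real.pi_pos
  have hpi2 : Real.pi ^ 2 ≤ 9.9 := by nlinarith
  rcases le_total (Real.log w) 4 with h4 | h4
  · have hs : sg n w ≤ 4394 / 100000 := by
      refine (H.sg_le_of h4).trans ?_
      have : Real.sqrt (4 ^ 2 + Real.pi ^ 2 / 3) ≤ 4.394 := by
        rw [Real.sqrt_le_left (by norm_num)]
        nlinarith
      linarith
    have ht : TT w ≤ 0.7854 := wn3_TT_le le_rfl hL0 (by norm_num)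
    refine (wn3_aux H hL0 (t0 := 0.7854) (s0 := 0.04394) (h := 1.2338) (e := 0.1256) (A := 1.958)
      (B := 1.62) ht (by linarith) (by norm_num) (by norm_num) (by norm_num) (by norm_num)
      (by norm_num) (by norm_num) (by norm_num) (by norm_num) (by norm_num)).trans ?_
    norm_num
  · have hs : sg n w ≤ 7232 / 100000 := by
      refine (H.sg_le_of hL).trans ?_
      have : Real.sqrt (7 ^ 2 + Real.pi ^ 2 / 3) ≤ 7.232 := by
        rw [Real.sqrt_le_left (by norm_num)]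
        nlinarith
      linarith
    have ht : TT w ≤ 0.58905 := wn3_TT_le (by norm_num) h4 (by norm_num)
    refine (wn3_aux H hL0 (t0 := 0.58905) (s0 := 0.07232) (h := 1.481) (e := 0.1661) (A := 1.631)
      (B := 1.35) ht (by linarith) (by norm_num) (by norm_num) (by norm_num) (by norm_num)
      (by norm_num) (by norm_num) (by norm_num) (by norm_num) (by norm_num)).trans ?_
    norm_num

/-- window error, `L ≥ 7` -/
theorem win_err_7 (H : HypM n w) (hL0 : 7 ≤ Real.log w) :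
    Kn n w * ∫ τ in (0 : ℝ)..(TT w), Ew n w τ * Rin w (sg n w) τ ≤ 48 / 100 := by
  have hs : sg n w ≤ 0.09479 := by
    have h1 := H.inv_sg_ge
    rw [le_div_iff₀ H.sg_pos] at h1
    linarith
  have ht : TT w ≤ 0.3366 := wn3_TT_le (by norm_num) hL0 (by norm_num)
  refine (wn3_aux H (by linarith) (t0 := 0.3366) (s0 := 0.09479) (h := 1.7919) (e := 0.1715)
    (A := 1.348) (B := 1.12) ht (by linarith) (by norm_num) (by norm_num) (by norm_num)
    (by norm_num) (by norm_num) (by norm_num) (by norm_num) (by norm_num)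
    (by norm_num)).trans ?_
  norm_num

end Pool.Agent.Lib.Durfee
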