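import Pool.Agent.Lib.MP_9393b1_co.WinN0

/-! # Regime M: outer window -/

set_option autoImplicit false

namespace Pool.Agent.Lib.Durfee

open Complex MeasureTheory Filter Topology

variable {n : ℕ} {w : ℝ}

theorem wo_exp_le {x : ℝ} (k : ℕ) {r b : ℝ} (hx : x ≤ -((k : ℝ) + r)) (hr : 0 ≤ r) (hb0 : 0 ≤ b)
    (hb : 1 ≤ b * ((2718281828 / 1000000000 : ℝ) ^ k * (1 + r + r ^ 2 / 2))) :
    Real.exp x ≤ b := by
  have h1 : Real.exp x ≤ Real.exp (-((k : ℝ) + r)) := Real.exp_le_exp.2 hx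
  refine h1.trans ?_
  rw [Real.exp_neg, Real.exp_add]
  have h2 : (2718281828 / 1000000000 : ℝ) ^ k ≤ Real.exp (k : ℝ) := by
    have h3 : Real.exp (k : ℝ) = Real.exp 1 ^ k := by
      rw [← Real.exp_nat_mul, mul_one]
    rw [h3]
    have := Real.exp_one_gt_d9
    exact pow_le_pow_left₀ (by norm_num) (by linarith) k
  have h4 := Real.quadratic_le_exp_of_nonneg hr
  have h5 : (2718281828 / 1000000000 : ℝ) ^ k * (1 + r + r ^ 2 / 2) ≤
      Real.exp (k : ℝ) * Real.exp r := by gcongr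
  rw [inv_le_iff_one_le_mul₀ (by positivity)]
  exact hb.trans (mul_le_mul_of_nonneg_left h5 hb0)

theorem wo_mono {A e c y0 y : ℝ} (hA : 0 ≤ A) (he : 0 ≤ e) (hy0 : 0 < y0) (hy : y0 ≤ y)
    (hc : 1 / 2 ≤ c * y0) :
    Real.sqrt (A * y) * Real.exp (e / y - c * y) ≤
      Real.sqrt (A * y0) * Real.exp (e / y0 - c * y0) := by
  have hy1 : 0 < y := hy0.trans_le hy
  have h1 : y ≤ y0 * Real.exp (y / y0 - 1) := by
    have := Real.add_one_le_exp (y / y0 - 1)
    have h2 : y = y0 * (y / y0 - 1 + 1) := by field_simp; ring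
    calc y = y0 * (y / y0 - 1 + 1) := h2
      _ ≤ _ := by gcongr
  have h2 : Real.sqrt (A * y) ≤ Real.sqrt (A * y0) * Real.exp ((y / y0 - 1) / 2) := by
    rw [Real.exp_half, ← Real.sqrt_mul (by positivity)]
    apply Real.sqrt_le_sqrt
    calc A * y ≤ A * (y0 * Real.exp (y / y0 - 1)) := by gcongr
      _ = _ := by ring
  calc Real.sqrt (A * y) * Real.exp (e / y - c * y) ≤
      Real.sqrt (A * y0) * Real.exp ((y / y0 - 1) / 2) * Real.exp (e / y - c * y) := by gcongr
    _ = Real.sqrt (A * y0) * Real.exp ((y / y0 - 1) / 2 + (e / y - c * y)) := by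
        rw [mul_assoc, ← Real.exp_add]
    _ ≤ _ := by
        have h3 : e / y ≤ e / y0 := by gcongr
        have h4 : 1 / 2 * (y - y0) ≤ c * y0 * (y - y0) :=
          mul_le_mul_of_nonneg_right hc (by linarith)
        have h5 : (y / y0 - 1) / 2 + (e / y - c * y) ≤ e / y0 - c * y0 := by
          have h6 : (y / y0 - 1) / 2 = 1 / 2 * (y - y0) / y0 := by field_simp
          have h7 : 1 / 2 * (y - y0) / y0 ≤ c * (y - y0) := by
            rw [div_le_iff₀ hy0]
            linarith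
          rw [h6]
          linarith
        gcongr

theorem wo_Rout_nonneg (w σ τ : ℝ) : 0 ≤ Rout w σ τ := by
  have := Real.pi_pos
  unfold Rout
  positivity

theorem wo_Rout_le {w σ τ t g : ℝ} (hσ : 0 < σ) (hτ : 0 ≤ τ) (hτt : τ ≤ t) (hg0 : 0 ≤ g)
    (hg : g ≤ gR w) (hgI : 0 ≤ gI w) :
    Rout w σ τ ≤ Real.pi / 6 * Real.exp ((1 + t ^ 2) * (30086 / 10000 + 3184 / 10000 * t) * σ -
      3 / 8 * g / (1 + t ^ 2) / σ) := by
  have hpi := Real.pi_pos
  unfold Rout epsO
  rw [mul_assoc, ← Real.exp_add]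
  have h1 : σ * (1 + τ ^ 2) * (30086 / 10000 + 3184 / 10000 * τ) ≤
      (1 + t ^ 2) * (30086 / 10000 + 3184 / 10000 * t) * σ := by
    calc σ * (1 + τ ^ 2) * (30086 / 10000 + 3184 / 10000 * τ) ≤
        σ * (1 + t ^ 2) * (30086 / 10000 + 3184 / 10000 * t) := by gcongr
      _ = _ := by ring
  have h2 : 3 / 8 * g / (1 + t ^ 2) / σ ≤ (3 / 8 * gR w + τ * gI w / 2) / (σ * (1 + τ ^ 2)) := by
    have h3 : 3 / 8 * g / (1 + t ^ 2) / σ = 3 / 8 * g / (σ * (1 + t ^ 2)) := by
      rw [div_div, mul_comm σ]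
    rw [h3]
    have h4 : 0 ≤ τ * gI w / 2 := by positivity
    apply div_le_div₀
    · have : 0 ≤ gR w := hg0.trans hg
      positivity
    · linarith
    · positivity
    · gcongr
  gcongr
  linarith

theorem wo_cont_E (n : ℕ) (w : ℝ) : Continuous (fun τ => Ew n w τ) := by
  unfold Ew
  refine Real.continuous_exp.comp (Continuous.neg ?_)
  refine Continuous.div (by fun_prop) (by fun_prop) (fun τ => by positivity)

theorem wo_cont_R (w : ℝ) {σ : ℝ} (hσ : 0 < σ) : Continuous (fun τ => Rout w σ τ) := by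
  unfold Rout epsO
  refine Continuous.mul (by fun_prop) (Real.continuous_exp.comp (Continuous.neg ?_))
  refine Continuous.div (by fun_prop) (by fun_prop) (fun τ => by positivity)

theorem wo_Kn_nonneg (n : ℕ) (w : ℝ) : 0 ≤ Kn n w := by
  have hpi := Real.pi_pos
  unfold Kn PPn aa
  positivity

/-- near part -/
theorem wo_near (H : HypM n w) {T' t g y0 : ℝ} (hT : 0 ≤ T') (hTt : T' ≤ t) (hg0 : 0 ≤ g)
    (hg : g ≤ gR w) (hy0 : 0 < y0) (hy : y0 ≤ 1 / sg n w)
    (hc : 1 / 2 ≤ 3 / 8 * g / (1 + t ^ 2) * y0) :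
    Kn n w * ∫ τ in (0 : ℝ)..T', Ew n w τ * Rout w (sg n w) τ ≤
      Real.sqrt ((1 + t ^ 2) / Real.pi * y0) * Real.exp
        ((1 + t ^ 2) * (30086 / 10000 + 3184 / 10000 * t) / y0 - 3 / 8 * g / (1 + t ^ 2) * y0) *
        (Real.pi / 6) := by
  have hpi := Real.pi_pos
  have hσ := H.sg_pos
  have hgI : 0 ≤ gI w := (gI_mem H.hw).1.le
  have hK0 := wo_Kn_nonneg n w
  have ht : 0 ≤ t := hT.trans hTt
  set B : ℝ := Real.pi / 6 * Real.exp ((1 + t ^ 2) * (30086 / 10000 + 3184 / 10000 * t) * sg n w -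
      3 / 8 * g / (1 + t ^ 2) / sg n w) with hB
  have hB0 : 0 ≤ B := by positivity
  have h1 : ∫ τ in (0 : ℝ)..T', Ew n w τ * Rout w (sg n w) τ ≤
      ∫ τ in (0 : ℝ)..T', Ew n w τ * B := by
    refine (le_abs_self _).trans ?_
    rw [← Real.norm_eq_abs]
    refine intervalIntegral.norm_integral_le_of_norm_le hT ?_
      (((wo_cont_E n w).mul continuous_const).intervalIntegrable _ _)
    refine Filter.Eventually.of_forall fun τ hτ => ?_
    have hE0 : 0 ≤ Ew n w τ := (Real.exp_pos _).le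
    have hR0 := wo_Rout_nonneg w (sg n w) τ
    rw [Real.norm_of_nonneg (mul_nonneg hE0 hR0)]
    exact mul_le_mul_of_nonneg_left
      (wo_Rout_le hσ hτ.1.le (hτ.2.trans hTt) hg0 hg hgI) hE0
  rw [intervalIntegral.integral_mul_const] at h1
  have h2 := H.Kn_mul_integral_Ew_le hT
  have hgam := norm_gam_le_two w (by linarith [H.hw])
  have h3 : Real.sqrt (‖gam w‖ * (1 + T' ^ 2) / (2 * Real.pi * sg n w)) ≤
      Real.sqrt ((1 + t ^ 2) / Real.pi * (1 / sg n w)) := by
    apply Real.sqrt_le_sqrt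
    calc ‖gam w‖ * (1 + T' ^ 2) / (2 * Real.pi * sg n w) ≤
        2 * (1 + t ^ 2) / (2 * Real.pi * sg n w) := by gcongr
      _ = _ := by field_simp
  have h4 : Kn n w * ∫ τ in (0 : ℝ)..T', Ew n w τ * Rout w (sg n w) τ ≤
      Real.sqrt ((1 + t ^ 2) / Real.pi * (1 / sg n w)) * B := by
    calc Kn n w * ∫ τ in (0 : ℝ)..T', Ew n w τ * Rout w (sg n w) τ
        ≤ Kn n w * ((∫ τ in (0 : ℝ)..T', Ew n w τ) * B) := mul_le_mul_of_nonneg_left h1 hK0
      _ = (Kn n w * ∫ τ in (0 : ℝ)..T', Ew n w τ) * B := by ring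
      _ ≤ _ := mul_le_mul_of_nonneg_right (h2.trans h3) hB0
  refine h4.trans ?_
  have h5 := wo_mono (A := (1 + t ^ 2) / Real.pi)
    (e := (1 + t ^ 2) * (30086 / 10000 + 3184 / 10000 * t)) (c := 3 / 8 * g / (1 + t ^ 2))
    (y0 := y0) (y := 1 / sg n w) (by positivity) (by positivity) hy0 hy hc
  have h6 : (1 + t ^ 2) * (30086 / 10000 + 3184 / 10000 * t) / (1 / sg n w) -
      3 / 8 * g / (1 + t ^ 2) * (1 / sg n w) =
      (1 + t ^ 2) * (30086 / 10000 + 3184 / 10000 * t) * sg n w -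
      3 / 8 * g / (1 + t ^ 2) / sg n w := by
    field_simp
  rw [h6] at h5
  calc Real.sqrt ((1 + t ^ 2) / Real.pi * (1 / sg n w)) * B =
      (Real.sqrt ((1 + t ^ 2) / Real.pi * (1 / sg n w)) *
        Real.exp ((1 + t ^ 2) * (30086 / 10000 + 3184 / 10000 * t) * sg n w -
      3 / 8 * g / (1 + t ^ 2) / sg n w)) * (Real.pi / 6) := by rw [hB]; ring
    _ ≤ _ := by gcongr

theorem wo_ts_le (hw : 1 ≤ w) : ts w ≤ 804 / 1000 := by
  have hw0 : 0 < w := by linarith
  have h1 := bb_div_aa_le hw0 (ρ := 22 / 100) (by norm_num) (ratio_zero hw)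
  have h2 : Real.sqrt (1 + (22 / 100 : ℝ) ^ 2) ≤ 1024 / 1000 := by
    rw [Real.sqrt_le_left (by norm_num)]
    norm_num
  unfold ts
  linarith

theorem wo_ts_nonneg (hw : 1 ≤ w) : 0 ≤ ts w := by
  have hw0 : 0 < w := by linarith
  have h1 := aa_pos hw0
  have h2 := bb_pos hw0
  unfold ts
  positivity

theorem wo_E_alg {s t u τ : ℝ} (hs : 0 ≤ s) (hst : s ≤ t) (htτ : t ≤ τ) (hu : u = t - s) :
    u ^ 2 / (1 + t ^ 2) ≤ (τ - s) ^ 2 / (1 + τ ^ 2) := by
  rw [div_le_div_iff₀ (by positivity) (by positivity)]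
  obtain ⟨d, rfl⟩ : ∃ d, τ = t + d := ⟨τ - t, by ring⟩
  have hd : 0 ≤ d := by linarith
  subst hu
  have h0 : 0 ≤ t := hs.trans hst
  have h1 : 0 ≤ 2 * (t - s) * d * (1 + t * s) := by
    have : 0 ≤ t - s := by linarith
    positivity
  have h2 : 0 ≤ d ^ 2 * (1 + s * (2 * t - s)) := by
    have : 0 ≤ 2 * t - s := by linarith
    positivity
  nlinarith

/-- far part -/
theorem wo_far (H : HypM n w) (hL : Real.log w ≤ 2) (hT : 121 / 100 ≤ TT w) :
    Kn n w * ∫ τ in (121 / 100 : ℝ)..(TT w), Ew n w τ * Rout w (sg n w) τ ≤ 57 / 10000 := by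
  have hpi := Real.pi_pos
  have hσ := H.sg_pos
  have hgI : 0 ≤ gI w := (gI_mem H.hw).1.le
  have hgR : 1 ≤ gR w := (gR_mem H.hw).1
  have hK0 := wo_Kn_nonneg n w
  have hR := H.R_ge
  have hTle := H.TT_le
  have hts := wo_ts_le H.hw
  have hts0 := wo_ts_nonneg H.hw
  have ha := aa_ge_one H.hw
  set R : ℝ := Real.sqrt n with hRdef
  have hσ2 : sg n w ≤ 27 / 1000 := by
    have h1 := H.sg_le_of hL
    have h2 : Real.sqrt (2 ^ 2 + Real.pi ^ 2 / 3) ≤ 27 / 10 := by
      rw [Real.sqrt_le_left (by norm_num)]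
      nlinarith [Real.pi_lt_d6]
    linarith
  have hE : ∀ τ, 121 / 100 ≤ τ → Ew n w τ ≤ Real.exp (-(709 / 10000 * R)) := by
    intro τ hτ
    unfold Ew
    apply Real.exp_le_exp.2
    have h1 := wo_E_alg hts0 (t := 121 / 100) (by linarith) hτ rfl
    have h2 : (66893 / 1000000 : ℝ) ≤ (121 / 100 - ts w) ^ 2 / (1 + (121 / 100) ^ 2) := by
      rw [le_div_iff₀ (by norm_num)]
      nlinarith
    have h3 : 106 / 100 * R ≤ PPn n w := by
      unfold PPn
      rw [← hRdef, mul_comm]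
      gcongr
    have h4 : 709 / 10000 * R ≤ PPn n w * (τ - ts w) ^ 2 / (1 + τ ^ 2) := by
      calc 709 / 10000 * R ≤ 106 / 100 * R * (66893 / 1000000) := by nlinarith
        _ ≤ PPn n w * ((τ - ts w) ^ 2 / (1 + τ ^ 2)) := by
            refine mul_le_mul h3 (h2.trans h1) (by norm_num) ?_
            nlinarith
        _ = _ := by ring
    linarith
  set M : ℝ := Real.exp (-(709 / 10000 * R)) * (Real.pi / 6 * Real.exp (-(1170 / 1000))) with hM
  have hM0 : 0 ≤ M := by positivity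
  have h1 : ∫ τ in (121 / 100 : ℝ)..(TT w), Ew n w τ * Rout w (sg n w) τ ≤ M * (129 / 100) := by
    refine (le_abs_self _).trans ?_
    rw [← Real.norm_eq_abs]
    refine (intervalIntegral.norm_integral_le_of_norm_le_const (C := M) ?_).trans ?_
    · intro τ hτ
      rw [Set.uIoc_of_le hT] at hτ
      have hE0 : 0 ≤ Ew n w τ := (Real.exp_pos _).le
      have hR0 := wo_Rout_nonneg w (sg n w) τ
      rw [Real.norm_of_nonneg (mul_nonneg hE0 hR0), hM]
      have h2 := wo_Rout_le (w := w) (g := 1) (t := 5 / 2) hσ (by linarith [hτ.1] : 0 ≤ τ)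
        (hτ.2.trans hTle) (by norm_num) hgR hgI
      have h3 : (1 + (5 / 2 : ℝ) ^ 2) * (30086 / 10000 + 3184 / 10000 * (5 / 2)) * sg n w -
          3 / 8 * 1 / (1 + (5 / 2) ^ 2) / sg n w ≤ -(1170 / 1000) := by
        have h4 : (1915 / 1000 : ℝ) ≤ 3 / 8 * 1 / (1 + (5 / 2) ^ 2) / sg n w := by
          rw [le_div_iff₀ hσ]
          norm_num
          linarith
        have h5 : (1 + (5 / 2 : ℝ) ^ 2) * (30086 / 10000 + 3184 / 10000 * (5 / 2)) * sg n w ≤
            745 / 1000 := by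
          norm_num
          linarith
        linarith
      have h4 := hE τ hτ.1.le
      have h5 := Real.exp_le_exp.2 h3
      calc Ew n w τ * Rout w (sg n w) τ ≤ Real.exp (-(709 / 10000 * R)) *
          (Real.pi / 6 * Real.exp ((1 + (5 / 2 : ℝ) ^ 2) *
            (30086 / 10000 + 3184 / 10000 * (5 / 2)) * sg n w -
          3 / 8 * 1 / (1 + (5 / 2) ^ 2) / sg n w)) := by gcongr
        _ ≤ _ := by gcongr
    · rw [abs_of_nonneg (by linarith)]
      gcongr
      linarith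
  have h2 := H.Kn_le
  rw [← hRdef] at h2
  have h3 : R * Real.exp (-(709 / 10000 * R)) ≤ 100 * Real.exp (-(709 / 100)) := by
    have h4 := Real.add_one_le_exp (R / 100 - 1)
    calc R * Real.exp (-(709 / 10000 * R)) ≤
        100 * Real.exp (R / 100 - 1) * Real.exp (-(709 / 10000 * R)) := by
          gcongr
          linarith
      _ = 100 * Real.exp ((R / 100 - 1) + -(709 / 10000 * R)) := by
          rw [mul_assoc, ← Real.exp_add]
      _ ≤ _ := by
          gcongr
          linarith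
  have h4 : Real.exp (-(709 / 100 : ℝ)) * Real.exp (-(1170 / 1000)) ≤ 26 / 100000 := by
    rw [← Real.exp_add]
    refine wo_exp_le 8 (r := 26 / 100) (by norm_num) (by norm_num) (by norm_num) (by norm_num)
  calc Kn n w * ∫ τ in (121 / 100 : ℝ)..(TT w), Ew n w τ * Rout w (sg n w) τ
      ≤ Kn n w * (M * (129 / 100)) := mul_le_mul_of_nonneg_left h1 hK0
    _ ≤ R / Real.pi * (M * (129 / 100)) := mul_le_mul_of_nonneg_right h2 (by positivity)
    _ = R * Real.exp (-(709 / 10000 * R)) * Real.exp (-(1170 / 1000)) * (129 / 600) := by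
        rw [hM]
        field_simp
        ring
    _ ≤ 100 * Real.exp (-(709 / 100)) * Real.exp (-(1170 / 1000)) * (129 / 600) := by
        gcongr
    _ ≤ _ := by linarith

/-- outer window, all `L` -/
theorem win_out (H : HypM n w) :
    Kn n w * ∫ τ in (0 : ℝ)..(TT w), Ew n w τ * Rout w (sg n w) τ ≤ 1 / 100 := by
  have hpi := Real.pi_pos
  have hpi1 := Real.pi_gt_d6
  have hpi2 := Real.pi_lt_d6
  have hσ := H.sg_pos
  have hw := H.hw
  have hw0 : 0 < w := by linarith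
  have hgR : 1 ≤ gR w := (gR_mem H.hw).1
  have hT0 := H.TT_pos.le
  have hTL := H.TT_mul_log
  have hgRL : ∀ l b : ℝ, 0 ≤ b → l ≤ Real.log w → (2 / (2 - b) - 1) ≤ Real.exp l ^ 2 → b < 2 →
      b ≤ gR w := by
    intro l b hb0 hl hb hb2
    have h1 : Real.exp l ≤ w := by
      rw [← Real.log_le_log_iff (Real.exp_pos l) hw0, Real.log_exp]
      exact hl
    have h2 : Real.exp l ^ 2 ≤ w ^ 2 := by gcongr
    have h3 : 2 / (2 - b) ≤ 1 + w ^ 2 := by linarith
    rw [div_le_iff₀ (by linarith)] at h3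
    unfold gR
    rw [le_div_iff₀ (by positivity)]
    linarith
  have hyL : ∀ l b : ℝ, Real.log w ≤ l → 0 < b → l ^ 2 + Real.pi ^ 2 / 3 ≤ (100 / b) ^ 2 →
      b ≤ 1 / sg n w := by
    intro l b hl hb hlb
    have h1 := H.sg_le_of hl
    have h2 : Real.sqrt (l ^ 2 + Real.pi ^ 2 / 3) ≤ 100 / b := by
      rw [Real.sqrt_le_left (by positivity)]
      exact hlb
    have h3 : sg n w ≤ 1 / b := by
      refine h1.trans ?_
      rw [div_le_iff₀ (by norm_num)]
      calc _ ≤ 100 / b := h2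
        _ = _ := by ring
    rw [le_div_iff₀ hσ]
    rw [le_div_iff₀ hb] at h3
    linarith
  have hsplit : (121 / 100 : ℝ) ≤ TT w → Kn n w * ∫ τ in (0 : ℝ)..(TT w),
      Ew n w τ * Rout w (sg n w) τ = (Kn n w * ∫ τ in (0 : ℝ)..(121 / 100 : ℝ),
      Ew n w τ * Rout w (sg n w) τ) + Kn n w * ∫ τ in (121 / 100 : ℝ)..(TT w),
      Ew n w τ * Rout w (sg n w) τ := by
    intro _
    have hc : Continuous fun τ => Ew n w τ * Rout w (sg n w) τ :=
      (wo_cont_E n w).mul (wo_cont_R w hσ)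
    rw [← intervalIntegral.integral_add_adjacent_intervals (b := (121 / 100 : ℝ))
      (hc.intervalIntegrable _ _) (hc.intervalIntegrable _ _), mul_add]
  have hcomb : Real.log w ≤ 3 → (∀ T' : ℝ, 0 ≤ T' → T' ≤ 121 / 100 →
      Kn n w * ∫ τ in (0 : ℝ)..T', Ew n w τ * Rout w (sg n w) τ ≤ 43 / 10000) →
      Kn n w * ∫ τ in (0 : ℝ)..(TT w), Ew n w τ * Rout w (sg n w) τ ≤ 1 / 100 := by
    intro hL3 h
    rcases le_total (TT w) (121 / 100) with h1 | h1
    · have := h (TT w) hT0 h1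
      linarith
    · have hL2 : Real.log w ≤ 2 := by
        by_contra hcon
        push Not at hcon
        nlinarith
      rw [hsplit h1]
      have h2 := h (121 / 100) (by norm_num) le_rfl
      have h3 := wo_far H hL2 h1
      linarith
  rcases le_total (Real.log w) 1 with h1 | h1
  · apply hcomb (by linarith)
    intro T' hT' hT''
    have hy := hyL 1 (482 / 10) h1 (by norm_num) (by nlinarith)
    have h2 := wo_near H (t := 121 / 100) hT' hT'' (g := 1) (by norm_num) hgR (y0 := 482 / 10)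
      (by norm_num) hy (by norm_num)
    refine h2.trans ?_
    have h3 : Real.sqrt ((1 + (121 / 100 : ℝ) ^ 2) / Real.pi * (482 / 10)) ≤ 615 / 100 := by
      rw [Real.sqrt_le_left (by norm_num), div_mul_eq_mul_div, div_le_iff₀ hpi]
      nlinarith
    have h4 : Real.exp ((1 + (121 / 100 : ℝ) ^ 2) * (30086 / 10000 + 3184 / 10000 * (121 / 100)) /
        (482 / 10) - 3 / 8 * 1 / (1 + (121 / 100) ^ 2) * (482 / 10)) ≤ 8 / 10000 :=
      wo_exp_le 7 (r := 15 / 100) (by norm_num) (by norm_num) (by norm_num) (by norm_num)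
    calc _ ≤ (615 / 100 : ℝ) * (8 / 10000) * (3.2 / 6) := by
          gcongr
          linarith
      _ ≤ _ := by norm_num
  rcases le_total (Real.log w) 3 with h3 | h3
  · apply hcomb h3
    intro T' hT' hT''
    have hy := hyL 3 (285 / 10) h3 (by norm_num) (by nlinarith)
    have hg := hgRL 1 (176 / 100) (by norm_num) h1 (by
      have h4 : (2.718 : ℝ) ≤ Real.exp 1 := by linarith [Real.exp_one_gt_d9]
      have h5 : (2.718 : ℝ) ^ 2 ≤ Real.exp 1 ^ 2 := by gcongr
      exact le_trans (by norm_num) h5) (by norm_num)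
    have h2 := wo_near H (t := 121 / 100) hT' hT'' (g := 176 / 100) (by norm_num) hg
      (y0 := 285 / 10) (by norm_num) hy (by norm_num)
    refine h2.trans ?_
    have h3 : Real.sqrt ((1 + (121 / 100 : ℝ) ^ 2) / Real.pi * (285 / 10)) ≤ 475 / 100 := by
      rw [Real.sqrt_le_left (by norm_num), div_mul_eq_mul_div, div_le_iff₀ hpi]
      nlinarith
    have h4 : Real.exp ((1 + (121 / 100 : ℝ) ^ 2) * (30086 / 10000 + 3184 / 10000 * (121 / 100)) /
        (285 / 10) - 3 / 8 * (176 / 100) / (1 + (121 / 100) ^ 2) * (285 / 10)) ≤ 8 / 10000 :=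
      wo_exp_le 7 (r := 30 / 100) (by norm_num) (by norm_num) (by norm_num) (by norm_num)
    calc _ ≤ (475 / 100 : ℝ) * (8 / 10000) * (3.2 / 6) := by
          gcongr
          linarith
      _ ≤ _ := by norm_num
  have hg := hgRL 3 (199 / 100) (by norm_num) h3 (by
      have h5 : (2 : ℝ) ≤ Real.exp 1 := by linarith [Real.exp_one_gt_d9]
      have h6 : Real.exp (3 : ℝ) = Real.exp 1 ^ 3 := by
        rw [← Real.exp_nat_mul]
        norm_num
      have h7 : (2.7 : ℝ) ≤ Real.exp 1 := by linarith [Real.exp_one_gt_d9]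
      have h8 : (2.7 : ℝ) ^ 3 ≤ Real.exp 1 ^ 3 := by gcongr
      rw [h6]
      norm_num at h8 ⊢
      nlinarith) (by norm_num)
  rcases le_total (Real.log w) 7 with h7 | h7
  · have hy := hyL 7 (138 / 10) h7 (by norm_num) (by nlinarith)
    have hTt : TT w ≤ 7854 / 10000 := by nlinarith
    have h2 := wo_near H (t := 7854 / 10000) hT0 hTt (g := 199 / 100) (by norm_num) hg
      (y0 := 138 / 10) (by norm_num) hy (by norm_num)
    refine h2.trans ?_
    have h3 : Real.sqrt ((1 + (7854 / 10000 : ℝ) ^ 2) / Real.pi * (138 / 10)) ≤ 27 / 10 := by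
      rw [Real.sqrt_le_left (by norm_num), div_mul_eq_mul_div, div_le_iff₀ hpi]
      nlinarith
    have h4 : Real.exp ((1 + (7854 / 10000 : ℝ) ^ 2) *
        (30086 / 10000 + 3184 / 10000 * (7854 / 10000)) /
        (138 / 10) - 3 / 8 * (199 / 100) / (1 + (7854 / 10000) ^ 2) * (138 / 10)) ≤ 3 / 1000 :=
      wo_exp_le 5 (r := 95 / 100) (by norm_num) (by norm_num) (by norm_num) (by norm_num)
    calc _ ≤ (27 / 10 : ℝ) * (3 / 1000) * (3.2 / 6) := by
          gcongr
          linarith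
      _ ≤ _ := by norm_num
  · have hy := H.inv_sg_ge
    have hTt : TT w ≤ 337 / 1000 := by nlinarith
    have h2 := wo_near H (t := 337 / 1000) hT0 hTt (g := 199 / 100) (by norm_num) hg
      (y0 := 1055 / 100) (by norm_num) hy (by norm_num)
    refine h2.trans ?_
    have h3 : Real.sqrt ((1 + (337 / 1000 : ℝ) ^ 2) / Real.pi * (1055 / 100)) ≤ 2 := by
      rw [Real.sqrt_le_left (by norm_num), div_mul_eq_mul_div, div_le_iff₀ hpi]
      nlinarith
    have h4 : Real.exp ((1 + (337 / 1000 : ℝ) ^ 2) *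
        (30086 / 10000 + 3184 / 10000 * (337 / 1000)) /
        (1055 / 100) - 3 / 8 * (199 / 100) / (1 + (337 / 1000) ^ 2) * (1055 / 100)) ≤ 4 / 1000 :=
      wo_exp_le 6 (r := 0) (by norm_num) (by norm_num) (by norm_num) (by norm_num)
    calc _ ≤ (2 : ℝ) * (4 / 1000) * (3.2 / 6) := by
          gcongr
          linarith
      _ ≤ _ := by norm_num

end Pool.Agent.Lib.Durfee
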