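import Pool.Agent.Lib.MP_9393b1_co.MainMSplit
import Pool.Agent.Lib.MP_9393b1_co.WinN1
import Pool.Agent.Lib.MP_9393b1_co.WinN2
import Pool.Agent.Lib.MP_9393b1_co.WinN3
import Pool.Agent.Lib.MP_9393b1_co.WinN4
import Pool.Agent.Lib.MP_9393b1_co.ModC
import Pool.Agent.Lib.MP_9393b1_co.OffFar
import Pool.Agent.Lib.MP_9393b1_co.OffSmallB
import Pool.Agent.Lib.MP_9393b1_co.OffSmallC
import Pool.Agent.Lib.MP_9393b1_co.OffMid
import Pool.Agent.Lib.MP_9393b1_co.OffTopD

/-! # Regime M: assembly -/

set_option autoImplicit false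

namespace Pool.Agent.Lib.Durfee

open Complex MeasureTheory Filter Topology

variable {n : ℕ} {w : ℝ}

private theorem mainM_cont (H : HypM n w) :
    Continuous (fun τ : ℝ => ∫ θ in (-Real.pi)..Real.pi, NP n w θ τ) := by
  have h := (continuous_NP H).comp continuous_swap
  exact intervalIntegral.continuous_parametric_intervalIntegral_of_continuous'
    (f := fun τ θ => NP n w θ τ) h _ _

private theorem mainM_split (H : HypM n w) (a b c : ℝ) :
    Kn n w * (∫ τ in a..c, ∫ θ in (-Real.pi)..Real.pi, NP n w θ τ) =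
      Kn n w * (∫ τ in a..b, ∫ θ in (-Real.pi)..Real.pi, NP n w θ τ) +
        Kn n w * ∫ τ in b..c, ∫ θ in (-Real.pi)..Real.pi, NP n w θ τ := by
  rw [← mul_add, intervalIntegral.integral_add_adjacent_intervals
    ((mainM_cont H).intervalIntegrable _ _) ((mainM_cont H).intervalIntegrable _ _)]

private theorem mainM_Mamp_pos (H : HypM n w) : 0 < Mamp n w := by
  have hw0 : 0 < w := by linarith [H.hw]
  have hn : (0 : ℝ) < n := by
    have h := H.hn
    have : 0 < n := by omega
    exact_mod_cast this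
  have h1 : 0 < ‖VV w‖ := by
    rw [norm_VV hw0]
    have := aa_pos hw0
    positivity
  have h2 : 0 < ‖gam w‖ := norm_pos_iff.2 (wb_gam_ne hw0)
  have hpi := Real.pi_pos
  unfold Mamp
  positivity

/-- the errors add up to less than `0.777` -/
private theorem mainM_err (H : HypM n w) :
    Kn n w * (∫ τ in (0 : ℝ)..(TT w), Ew n w τ * Rin w (sg n w) τ) +
        Kn n w * (∫ τ in (0 : ℝ)..(TT w), Ew n w τ * Rout w (sg n w) τ) +
        eMod n w (TT w) +
        Kn n w * (∫ τ in (0 : ℝ)..(TT w),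
          ((∫ θ in (5 * Real.pi / 12)..Real.pi, NP n w θ τ) +
            ∫ θ in (-Real.pi)..(-(5 * Real.pi / 12)), NP n w θ τ)) +
        Kn n w * (∫ τ in (TT w)..(4 : ℝ), ∫ θ in (-Real.pi)..Real.pi, NP n w θ τ) +
        Kn n w * (∫ τ in (4 : ℝ)..(Real.pi / sg n w), ∫ θ in (-Real.pi)..Real.pi, NP n w θ τ) ≤
      76 / 100 := by
  have hout := win_out H
  have hmod := eMod_le H
  have hb := off_b H
  have hfar := off_far H
  rcases le_or_gt (Real.log w) 3 with hL3 | hL3
  · -- `L ≤ 3`
    have hin : Kn n w * ∫ τ in (0 : ℝ)..(TT w), Ew n w τ * Rin w (sg n w) τ ≤ 60 / 100 := by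
      rcases le_or_gt (Real.log w) 1 with h1 | h1
      · exact win_err_01 H h1
      · rcases le_or_gt (Real.log w) 2 with h2 | h2
        · exact win_err_12 H h1.le h2
        · exact win_err_23 H h2.le hL3
    have hnear : Kn n w * ∫ τ in (TT w)..(4 : ℝ), ∫ θ in (-Real.pi)..Real.pi, NP n w θ τ ≤
        6 / 100 := by
      rcases le_or_gt (Real.log w) (3 * Real.pi / 10) with h1 | h1
      · exact off_near_a H h1
      · rcases le_or_gt (Real.log w) (17 / 10) with h2 | h2
        · exact off_near_b H h1 h2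
        · exact off_near_c H h2.le hL3
    linarith
  · have h14 := off_1_4 H hL3.le
    rw [mainM_split H (TT w) 1 4]
    rcases le_or_gt (Real.log w) 7 with hL7 | hL7
    · have hin := win_err_37 H hL3.le hL7
      have hT1 := off_T_1 H hL3.le hL7
      linarith
    · have hin := win_err_7 H hL7.le
      have hT1 := off_T_1_top H hL7.le
      linarith

/-- Regime M. -/
theorem regime_M {k : ℕ} (H : HypM n w) (hk : bb w = k * Real.pi / (2 * Real.sqrt n)) :
    0 < (-1 : ℝ) ^ k * Dval n (w ^ 2) := by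
  have hM := re_Mcx H hk
  have hpos := mainM_Mamp_pos H
  have herr := (Dval_split H).trans (mul_le_mul_of_nonneg_left (mainM_err H) hpos.le)
  have hs : |(-1 : ℝ) ^ k| = 1 := by
    rw [abs_pow, abs_neg, abs_one, one_pow]
  have h1 : |(-1 : ℝ) ^ k * Dval n (w ^ 2) - (-1 : ℝ) ^ k * (Mcx n w).re| ≤
      Mamp n w * (76 / 100) := by
    rw [← mul_sub, abs_mul, hs, one_mul]
    exact herr
  have h2 := (abs_le.1 h1).1
  nlinarith

end Pool.Agent.Lib.Durfee
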