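import Pool.Agent.Lib.MP_9393b1_co.Defs

set_option autoImplicit false

namespace Pool.Agent.Lib.Durfee

open Complex MeasureTheory

section aux

/-- The Gaussian with a linear term. -/
noncomputable def gE (v s : ℂ) (x : ℝ) : ℂ := exp (-s * (x : ℂ) ^ 2 + 2 * v * x + 0)

theorem gE_integrable (v : ℂ) {s : ℂ} (hs : 0 < s.re) : Integrable (gE v s) :=
  integrable_cexp_quadratic hs (2 * v) 0

theorem gE_continuous (v s : ℂ) : Continuous (gE v s) := by
  unfold gE
  fun_prop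

theorem gE_mul_integrable (v : ℂ) {s : ℂ} (hs : 0 < s.re) :
    Integrable (fun x : ℝ => (x : ℂ) * gE v s x) := by
  have h1 := (gE_integrable (v + 1 / 2) hs).norm
  have h2 := (gE_integrable (v - 1 / 2) hs).norm
  refine (h1.add h2).mono' ?_ ?_
  · exact ((Complex.continuous_ofReal).mul (gE_continuous v s)).aestronglyMeasurable
  · refine Filter.Eventually.of_forall fun x => ?_
    have e1 : ‖gE (v + 1 / 2) s x‖ = Real.exp x * ‖gE v s x‖ := by
      unfold gE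
      rw [show -s * (x : ℂ) ^ 2 + 2 * (v + 1 / 2) * x + 0 = (x : ℂ) + (-s * (x : ℂ) ^ 2 + 2 * v * x + 0)
        by ring, Complex.exp_add, norm_mul, Complex.norm_exp, Complex.ofReal_re]
    have e2 : ‖gE (v - 1 / 2) s x‖ = Real.exp (-x) * ‖gE v s x‖ := by
      unfold gE
      rw [show -s * (x : ℂ) ^ 2 + 2 * (v - 1 / 2) * x + 0 = -(x : ℂ) + (-s * (x : ℂ) ^ 2 + 2 * v * x + 0)
        by ring, Complex.exp_add, norm_mul, Complex.norm_exp, Complex.neg_re, Complex.ofReal_re]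
    simp only [Pi.add_apply]
    rw [e1, e2, norm_mul, ← add_mul]
    refine mul_le_mul_of_nonneg_right ?_ (norm_nonneg _)
    rw [Complex.norm_real, Real.norm_eq_abs, abs_le]
    have a1 := Real.add_one_le_exp x
    have a2 := Real.add_one_le_exp (-x)
    have a3 := Real.exp_pos x
    have a4 := Real.exp_pos (-x)
    constructor <;> linarith

theorem gE_integral (v : ℂ) {s : ℂ} (hs : 0 < s.re) :
    ∫ x : ℝ, gE v s x = (Real.pi / s) ^ (1 / 2 : ℂ) * exp (v ^ 2 / s) := by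
  have hs0 : s ≠ 0 := by
    rintro rfl
    simp at hs
  have h := integral_cexp_quadratic (b := -s) (by simpa using hs) (2 * v) 0
  unfold gE
  rw [h, neg_neg]
  congr 2
  field_simp
  ring

theorem gE_mul_integral (v : ℂ) {s : ℂ} (hs : 0 < s.re) :
    ∫ x : ℝ, (x : ℂ) * gE v s x = v / s * ((Real.pi / s) ^ (1 / 2 : ℂ) * exp (v ^ 2 / s)) := by
  have hs0 : s ≠ 0 := by
    rintro rfl
    simp at hs
  have hd : ∀ x : ℝ, HasDerivAt (gE v s) (2 * v * gE v s x - 2 * s * ((x : ℂ) * gE v s x)) x := by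
    intro x
    have h1 : HasDerivAt (fun z : ℂ => -s * z ^ 2 + 2 * v * z + 0)
        (-s * (2 * (x : ℂ)) + 2 * v) (x : ℂ) := by
      have := (((hasDerivAt_pow 2 (x : ℂ)).const_mul (-s)).add
        ((hasDerivAt_id (x : ℂ)).const_mul (2 * v))).add_const 0
      refine this.congr_deriv ?_
      push_cast
      ring
    have h2 := h1.cexp.comp_ofReal
    unfold gE
    convert h2 using 1
    ring
  have h0 := integral_eq_zero_of_hasDerivAt_of_integrable hd
    (((gE_integrable v hs).const_mul _).sub ((gE_mul_integrable v hs).const_mul _))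
    (gE_integrable v hs)
  rw [integral_sub ((gE_integrable v hs).const_mul _) ((gE_mul_integrable v hs).const_mul _),
    integral_const_mul, integral_const_mul, gE_integral v hs] at h0
  have h3 : s * ∫ x : ℝ, (x : ℂ) * gE v s x =
      v * ((Real.pi / s) ^ (1 / 2 : ℂ) * exp (v ^ 2 / s)) := by
    linear_combination (-1 / 2 : ℂ) * h0
  rw [div_mul_eq_mul_div, eq_div_iff hs0, mul_comm, h3]

theorem cpow_half {s : ℂ} (hs : 0 < s.re) :
    (Real.pi / s : ℂ) ^ (1 / 2 : ℂ) = (Real.sqrt Real.pi : ℂ) * s ^ (-(1 / 2) : ℂ) := by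
  have hs0 : s ≠ 0 := by
    rintro rfl
    simp at hs
  have harg : s.arg ≠ Real.pi := by
    intro h
    have := (Complex.arg_eq_pi_iff.1 h).1
    linarith
  have hpi : (Real.pi : ℂ) ≠ 0 := by exact_mod_cast Real.pi_ne_zero
  rw [div_eq_mul_inv, Complex.cpow_def_of_ne_zero (mul_ne_zero hpi (inv_ne_zero hs0)),
    Complex.log_ofReal_mul Real.pi_pos (inv_ne_zero hs0), Complex.log_inv _ harg,
    Complex.cpow_def_of_ne_zero hs0, Real.sqrt_eq_rpow, Complex.ofReal_cpow Real.pi_pos.le,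
    Complex.cpow_def_of_ne_zero hpi, ← Complex.exp_add, Complex.ofReal_log Real.pi_pos.le]
  congr 1
  push_cast
  ring

end aux

/-- Laplace transform of `sinh(2 v √t)`. -/
theorem laplace_sinh (v s : ℂ) (hs : 0 < s.re) :
    ∫ t in Set.Ioi (0 : ℝ), sinh (2 * v * (Real.sqrt t : ℂ)) * exp (-(s * t)) =
      (Real.sqrt Real.pi : ℂ) * v * s ^ (-(3 / 2) : ℂ) * exp (v ^ 2 / s) := by
  have hs0 : s ≠ 0 := by
    rintro rfl
    simp at hs
  rw [← integral_comp_rpow_Ioi_of_pos (p := 2) (by norm_num)]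
  have h1 : ∫ x in Set.Ioi (0 : ℝ), ((2 : ℝ) * x ^ ((2 : ℝ) - 1)) •
        (sinh (2 * v * (Real.sqrt (x ^ (2 : ℝ)) : ℂ)) * exp (-(s * ((x ^ (2 : ℝ) : ℝ) : ℂ)))) =
      ∫ x in Set.Ioi (0 : ℝ), ((x : ℂ) * gE v s x + ((-x : ℝ) : ℂ) * gE v s (-x)) := by
    refine setIntegral_congr_fun measurableSet_Ioi fun x hx => ?_
    have hx0 : (0 : ℝ) < x := hx
    have e1 : x ^ ((2 : ℝ) - 1) = x := by
      rw [show (2 : ℝ) - 1 = 1 by norm_num, Real.rpow_one]
    have e2 : x ^ (2 : ℝ) = x ^ 2 := Real.rpow_two x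
    simp only [e1, e2, Real.sqrt_sq hx0.le, gE, Complex.real_smul]
    rw [Complex.sinh]
    have e3 : exp (-s * (x : ℂ) ^ 2 + 2 * v * x + 0) = exp (2 * v * x) * exp (-(s * (x : ℂ) ^ 2)) := by
      rw [← Complex.exp_add]
      ring_nf
    have e4 : exp (-s * ((-x : ℝ) : ℂ) ^ 2 + 2 * v * ((-x : ℝ) : ℂ) + 0) =
        exp (-(2 * v * x)) * exp (-(s * (x : ℂ) ^ 2)) := by
      rw [← Complex.exp_add]
      push_cast
      ring_nf
    rw [e3, e4]
    push_cast
    ring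
  rw [h1, integral_add (gE_mul_integrable v hs).integrableOn
    (gE_mul_integrable v hs).comp_neg.integrableOn,
    integral_comp_neg_Ioi 0 (fun x : ℝ => (x : ℂ) * gE v s x), neg_zero, add_comm,
    ← setIntegral_union (Set.Iic_disjoint_Ioi le_rfl) measurableSet_Ioi
      (gE_mul_integrable v hs).integrableOn (gE_mul_integrable v hs).integrableOn,
    Set.Iic_union_Ioi, setIntegral_univ, gE_mul_integral v hs, cpow_half hs]
  have h2 : s ^ (-(3 / 2) : ℂ) = s ^ (-(1 / 2) : ℂ) / s := by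
    rw [show (-(3 / 2) : ℂ) = -(1 / 2) - 1 by norm_num, Complex.cpow_sub _ _ hs0, Complex.cpow_one]
  rw [h2]
  ring

theorem line_re (σ β : ℝ) : ((σ : ℂ) + β * I).re = σ := by simp

theorem line_normSq (σ β : ℝ) : ‖(σ : ℂ) + β * I‖ ^ 2 = σ ^ 2 + β ^ 2 := by
  rw [← Complex.normSq_eq_norm_sq, Complex.normSq_apply]
  simp
  ring

theorem line_ne {σ : ℝ} (hσ : 0 < σ) (β : ℝ) : (σ : ℂ) + β * I ≠ 0 := by
  intro h
  have := congrArg Complex.re h
  rw [line_re] at this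
  simp at this
  linarith

theorem line_le_norm {σ : ℝ} (β : ℝ) : σ ≤ ‖(σ : ℂ) + β * I‖ := by
  have := Complex.re_le_norm ((σ : ℂ) + β * I)
  rwa [line_re] at this

theorem integrable_model (v : ℂ) {σ x : ℝ} (hσ : 0 < σ) :
    Integrable (fun β : ℝ => ((σ : ℂ) + β * I) ^ (-(3 / 2) : ℂ) *
      exp (x * ((σ : ℂ) + β * I) + v ^ 2 / ((σ : ℂ) + β * I))) := by
  have hcont : Continuous (fun β : ℝ => ((σ : ℂ) + β * I) ^ (-(3 / 2) : ℂ) *
      exp (x * ((σ : ℂ) + β * I) + v ^ 2 / ((σ : ℂ) + β * I))) := by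
    have hl : Continuous (fun β : ℝ => (σ : ℂ) + β * I) := by fun_prop
    refine Continuous.mul ?_ ?_
    · refine hl.cpow continuous_const fun β => ?_
      left
      rw [line_re]
      exact hσ
    · refine Complex.continuous_exp.comp ((continuous_const.mul hl).add ?_)
      exact continuous_const.div hl fun β => line_ne hσ β
  set c : ℝ := min 1 (σ ^ 2) with hc
  have hc0 : 0 < c := lt_min one_pos (by positivity)
  set C : ℝ := c ^ (-(3 / 4) : ℝ) * Real.exp (x * σ + ‖v‖ ^ 2 / σ) with hC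
  have hint : Integrable (fun β : ℝ => C * (1 + ‖β‖ ^ 2) ^ (-(3 / 2 : ℝ) / 2)) :=
    (integrable_rpow_neg_one_add_norm_sq (E := ℝ) (μ := volume) (r := 3 / 2)
      (by simp; norm_num)).const_mul C
  refine hint.mono' hcont.aestronglyMeasurable (Filter.Eventually.of_forall fun β => ?_)
  rw [norm_mul]
  have h1 : ‖((σ : ℂ) + β * I) ^ (-(3 / 2) : ℂ)‖ ≤
      c ^ (-(3 / 4) : ℝ) * (1 + ‖β‖ ^ 2) ^ (-(3 / 2 : ℝ) / 2) := by
    have e1 : (-(3 / 2) : ℂ) = ((-(3 / 2) : ℝ) : ℂ) := by push_cast; ring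
    rw [e1, Complex.norm_cpow_real]
    have e2 : ‖(σ : ℂ) + β * I‖ = (σ ^ 2 + β ^ 2) ^ (1 / 2 : ℝ) := by
      rw [← line_normSq, ← Real.rpow_natCast, ← Real.rpow_mul (norm_nonneg _)]
      norm_num
    rw [e2, ← Real.rpow_mul (by positivity), show (-(3 / 2 : ℝ) / 2) = -(3 / 4) by norm_num,
      ← Real.mul_rpow hc0.le (by positivity), show (1 / 2 : ℝ) * -(3 / 2) = -(3 / 4) by norm_num]
    refine Real.rpow_le_rpow_of_nonpos (by positivity) ?_ (by norm_num)
    rw [Real.norm_eq_abs, sq_abs]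
    have a1 : c ≤ 1 := min_le_left _ _
    have a2 : c ≤ σ ^ 2 := min_le_right _ _
    nlinarith [sq_nonneg β]
  have h2 : ‖exp (x * ((σ : ℂ) + β * I) + v ^ 2 / ((σ : ℂ) + β * I))‖ ≤
      Real.exp (x * σ + ‖v‖ ^ 2 / σ) := by
    rw [Complex.norm_exp]
    refine Real.exp_le_exp.2 ?_
    rw [Complex.add_re]
    have h3 : (x * ((σ : ℂ) + β * I)).re = x * σ := by
      rw [Complex.re_ofReal_mul, line_re]
    have h4 : (v ^ 2 / ((σ : ℂ) + β * I)).re ≤ ‖v‖ ^ 2 / σ := by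
      refine (Complex.re_le_norm _).trans ?_
      rw [norm_div, norm_pow]
      exact div_le_div_of_nonneg_left (by positivity) hσ (line_le_norm β)
    linarith
  calc _ ≤ (c ^ (-(3 / 4) : ℝ) * (1 + ‖β‖ ^ 2) ^ (-(3 / 2 : ℝ) / 2)) *
        Real.exp (x * σ + ‖v‖ ^ 2 / σ) :=
        mul_le_mul h1 h2 (norm_nonneg _) (by positivity)
    _ = _ := by rw [hC]; ring

/-- The function whose Laplace transform is the model. -/
noncomputable def fM (v : ℂ) (σ t : ℝ) : ℂ :=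
  sinh (2 * v * (Real.sqrt t : ℂ)) * exp (-((σ : ℂ) * t)) / ((Real.sqrt Real.pi : ℂ) * v)

theorem fM_continuous (v : ℂ) (σ : ℝ) : Continuous (fM v σ) := by
  unfold fM
  refine Continuous.div_const ?_ _
  refine Continuous.mul ?_ (by fun_prop)
  exact Complex.continuous_sinh.comp (continuous_const.mul
    (Complex.continuous_ofReal.comp Real.continuous_sqrt))

theorem fM_nonpos (v : ℂ) (σ : ℝ) {t : ℝ} (ht : t ≤ 0) : fM v σ t = 0 := by
  unfold fM
  rw [Real.sqrt_eq_zero'.2 ht]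
  simp

theorem norm_sinh_le (z : ℂ) : ‖sinh z‖ ≤ Real.exp ‖z‖ := by
  rw [Complex.sinh, norm_div]
  have h1 : ‖exp z‖ ≤ Real.exp ‖z‖ := by
    rw [Complex.norm_exp]
    exact Real.exp_le_exp.2 (Complex.re_le_norm z)
  have h2 : ‖exp (-z)‖ ≤ Real.exp ‖z‖ := by
    rw [Complex.norm_exp]
    refine Real.exp_le_exp.2 ?_
    have := Complex.re_le_norm (-z)
    rwa [norm_neg] at this
  have h3 := norm_sub_le (exp z) (exp (-z))
  have h4 : ‖(2 : ℂ)‖ = 2 := by simp
  rw [h4, div_le_iff₀ (by norm_num)]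
  linarith

theorem fM_integrable (v : ℂ) {σ : ℝ} (hσ : 0 < σ) : Integrable (fM v σ) := by
  have h0 : fM v σ = Set.indicator (Set.Ioi 0) (fM v σ) := by
    funext t
    by_cases ht : t ∈ Set.Ioi (0 : ℝ)
    · rw [Set.indicator_of_mem ht]
    · rw [Set.indicator_of_notMem ht, fM_nonpos v σ (not_lt.1 ht)]
  rw [h0, integrable_indicator_iff measurableSet_Ioi]
  set C : ℝ := Real.exp (2 * ‖v‖ ^ 2 / σ) / ‖((Real.sqrt Real.pi : ℂ) * v)‖ with hC
  have hint : IntegrableOn (fun t : ℝ => C * Real.exp (-(σ / 2) * t)) (Set.Ioi 0) :=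
    (exp_neg_integrableOn_Ioi 0 (by positivity : 0 < σ / 2)).const_mul C
  refine hint.mono' (fM_continuous v σ).aestronglyMeasurable.restrict ?_
  refine (ae_restrict_mem measurableSet_Ioi).mono fun t ht => ?_
  have ht0 : (0 : ℝ) < t := ht
  unfold fM
  rw [norm_div, norm_mul, hC, div_mul_eq_mul_div]
  refine div_le_div_of_nonneg_right ?_ (norm_nonneg _)
  have h1 := norm_sinh_le (2 * v * (Real.sqrt t : ℂ))
  have h2 : ‖exp (-((σ : ℂ) * t))‖ = Real.exp (-(σ * t)) := by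
    rw [Complex.norm_exp]
    congr 1
    rw [Complex.neg_re, ← Complex.ofReal_mul, Complex.ofReal_re]
  rw [h2]
  have h3 : ‖2 * v * (Real.sqrt t : ℂ)‖ = 2 * ‖v‖ * Real.sqrt t := by
    rw [norm_mul, norm_mul, Complex.norm_real, Real.norm_of_nonneg (Real.sqrt_nonneg _)]
    simp
  rw [h3] at h1
  calc _ ≤ Real.exp (2 * ‖v‖ * Real.sqrt t) * Real.exp (-(σ * t)) :=
        mul_le_mul_of_nonneg_right h1 (Real.exp_pos _).le
    _ = Real.exp (2 * ‖v‖ * Real.sqrt t + -(σ * t)) := (Real.exp_add _ _).symm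
    _ ≤ Real.exp (2 * ‖v‖ ^ 2 / σ + -(σ / 2) * t) := by
        refine Real.exp_le_exp.2 ?_
        have h4 : 2 * ‖v‖ * Real.sqrt t ≤ 2 * ‖v‖ ^ 2 / σ + σ / 2 * t := by
          have h5 : t = Real.sqrt t ^ 2 := (Real.sq_sqrt ht0.le).symm
          have h6 : 0 ≤ (2 * ‖v‖ / σ - Real.sqrt t) ^ 2 * (σ / 2) := by positivity
          have h7 : (2 * ‖v‖ / σ - Real.sqrt t) ^ 2 * (σ / 2) =
              2 * ‖v‖ ^ 2 / σ + σ / 2 * Real.sqrt t ^ 2 - 2 * ‖v‖ * Real.sqrt t := by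
            field_simp
            ring
          rw [← h5] at h7
          linarith
        linarith
    _ = _ := Real.exp_add _ _

theorem fourier_fM (v : ℂ) (hv : v ≠ 0) {σ : ℝ} (hσ : 0 < σ) (ξ : ℝ) :
    FourierTransform.fourier (fM v σ) ξ =
      ((σ : ℂ) + (2 * Real.pi * ξ : ℝ) * I) ^ (-(3 / 2) : ℂ) *
        exp (v ^ 2 / ((σ : ℂ) + (2 * Real.pi * ξ : ℝ) * I)) := by
  set s : ℂ := (σ : ℂ) + (2 * Real.pi * ξ : ℝ) * I with hs
  have hsre : 0 < s.re := by rw [hs, line_re]; exact hσ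
  rw [Real.fourier_real_eq_integral_exp_smul]
  have h1 : ∀ t : ℝ, exp (↑(-2 * Real.pi * t * ξ) * I) • fM v σ t =
      Set.indicator (Set.Ioi 0) (fun t : ℝ => (sinh (2 * v * (Real.sqrt t : ℂ)) * exp (-(s * t))) /
        ((Real.sqrt Real.pi : ℂ) * v)) t := by
    intro t
    by_cases ht : t ∈ Set.Ioi (0 : ℝ)
    · rw [Set.indicator_of_mem ht]
      unfold fM
      have e1 : exp (-(s * t)) = exp (↑(-2 * Real.pi * t * ξ) * I) * exp (-((σ : ℂ) * t)) := by
        rw [← Complex.exp_add, hs]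
        congr 1
        push_cast
        ring
      rw [e1, smul_eq_mul]
      ring
    · rw [Set.indicator_of_notMem ht, fM_nonpos v σ (not_lt.1 ht), smul_zero]
  simp_rw [h1]
  rw [integral_indicator measurableSet_Ioi, integral_div, laplace_sinh v s hsre]
  have hpi : (Real.sqrt Real.pi : ℂ) ≠ 0 := by
    exact_mod_cast (Real.sqrt_pos.2 Real.pi_pos).ne'
  field_simp

/-- The exact model integral (inverse Laplace transform of `s^{-3/2} e^{v²/s}` at `x > 0`). -/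
theorem model_integral (v : ℂ) (hv : v ≠ 0) {σ x : ℝ} (hσ : 0 < σ) (hx : 0 < x) :
    ∫ β : ℝ, ((σ : ℂ) + β * I) ^ (-(3 / 2) : ℂ) *
      exp (x * ((σ : ℂ) + β * I) + v ^ 2 / ((σ : ℂ) + β * I)) =
      2 * Real.pi * sinh (2 * v * (Real.sqrt x : ℂ)) / ((Real.sqrt Real.pi : ℂ) * v) := by
  have hpi2 : (2 * Real.pi : ℝ) ≠ 0 := by positivity
  -- integrability of the Fourier transform
  have hF : Integrable (FourierTransform.fourier (fM v σ)) := by
    have h1 := (integrable_model v (x := 0) hσ).comp_mul_left' hpi2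
    refine h1.congr (Filter.Eventually.of_forall fun ξ => ?_)
    rw [fourier_fM v hv hσ ξ]
    simp
  have hinv := Integrable.fourierInv_fourier_eq (fM_integrable v hσ) hF
    (v := x) (fM_continuous v σ).continuousAt
  rw [Real.fourierInv_eq'] at hinv
  have h2 : ∀ ξ : ℝ, exp (↑(2 * Real.pi * inner ℝ ξ x) * I) • FourierTransform.fourier (fM v σ) ξ =
      exp (-((x : ℂ) * σ)) * (fun β : ℝ => ((σ : ℂ) + β * I) ^ (-(3 / 2) : ℂ) *
        exp (x * ((σ : ℂ) + β * I) + v ^ 2 / ((σ : ℂ) + β * I))) (2 * Real.pi * ξ) := by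
    intro ξ
    rw [fourier_fM v hv hσ ξ, smul_eq_mul]
    have e1 : exp ((x : ℂ) * ((σ : ℂ) + ((2 * Real.pi * ξ : ℝ) : ℂ) * I) +
        v ^ 2 / ((σ : ℂ) + ((2 * Real.pi * ξ : ℝ) : ℂ) * I)) =
        exp ((x : ℂ) * σ) * exp (↑(2 * Real.pi * inner ℝ ξ x) * I) *
          exp (v ^ 2 / ((σ : ℂ) + ((2 * Real.pi * ξ : ℝ) : ℂ) * I)) := by
      rw [← Complex.exp_add, ← Complex.exp_add]
      congr 1
      simp only [RCLike.inner_apply]
      push_cast
      simp
      ring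
    have e2 : exp (-((x : ℂ) * σ)) * exp ((x : ℂ) * σ) = 1 := by
      rw [← Complex.exp_add]; simp
    simp only []
    rw [e1]
    linear_combination (-(((σ : ℂ) + ((2 * Real.pi * ξ : ℝ) : ℂ) * I) ^ (-(3 / 2) : ℂ) *
      exp (↑(2 * Real.pi * inner ℝ ξ x) * I) *
      exp (v ^ 2 / ((σ : ℂ) + ((2 * Real.pi * ξ : ℝ) : ℂ) * I)))) * e2
  rw [integral_congr_ae (Filter.Eventually.of_forall h2), integral_const_mul,
    Measure.integral_comp_mul_left (fun β : ℝ => ((σ : ℂ) + β * I) ^ (-(3 / 2) : ℂ) *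
        exp (x * ((σ : ℂ) + β * I) + v ^ 2 / ((σ : ℂ) + β * I))) (2 * Real.pi)] at hinv
  have h3 : fM v σ x = exp (-((x : ℂ) * σ)) * (sinh (2 * v * (Real.sqrt x : ℂ)) /
      ((Real.sqrt Real.pi : ℂ) * v)) := by
    unfold fM
    rw [mul_comm (σ : ℂ)]
    ring
  rw [h3] at hinv
  have h4 := mul_left_cancel₀ (Complex.exp_ne_zero _) hinv
  rw [abs_of_pos (by positivity), Complex.real_smul] at h4
  have h5 : (2 * Real.pi : ℂ) * (((2 * Real.pi)⁻¹ : ℝ) : ℂ) = 1 := by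
    rw [Complex.ofReal_inv]
    push_cast
    refine mul_inv_cancel₀ ?_
    exact_mod_cast hpi2
  rw [mul_div_assoc, ← h4, ← mul_assoc, h5, one_mul]

end Pool.Agent.Lib.Durfee
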