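import Pool.Agent.Lib.MP_9393b1_co.HypM
import Pool.Agent.Lib.MP_9393b1_co.Model

/-! # The model integral over the window -/

set_option autoImplicit false

namespace Pool.Agent.Lib.Durfee

open Complex MeasureTheory Filter Topology

/-- complex main term -/
noncomputable def Mcx (n : ℕ) (w : ℝ) : ℂ :=
  1 / (Real.pi * n) * (((aa w : ℂ) + (bb w : ℂ) * I) / (2 * gam w) ^ (1 / 2 : ℂ)) *
    exp (2 * Real.sqrt n * ((aa w : ℂ) + (bb w : ℂ) * I))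

private theorem moda_norm_half (z : ℂ) : ‖z ^ (1 / 2 : ℂ)‖ = Real.sqrt ‖z‖ := by
  have h : (1 / 2 : ℂ) = ((1 / 2 : ℝ) : ℂ) := by push_cast; ring
  rw [h, Complex.norm_cpow_real, Real.sqrt_eq_rpow]

private theorem moda_norm_v {w : ℝ} (hw : 0 < w) :
    ‖(aa w : ℂ) + (bb w : ℂ) * I‖ = Real.sqrt ‖VV w‖ := by
  rw [norm_VV hw, Complex.norm_add_mul_I]

private theorem moda_norm_VV_pos {w : ℝ} (hw : 0 < w) : 0 < ‖VV w‖ := by
  rw [norm_VV hw]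
  have := aa_pos hw
  positivity

private theorem moda_norm_gam_pos {w : ℝ} (hw : 0 < w) : 0 < ‖gam w‖ := by
  rw [norm_gam w hw]
  positivity

theorem norm_Mcx {n : ℕ} {w : ℝ} (hn : 1 ≤ n) (hw : 0 < w) : ‖Mcx n w‖ = Mamp n w := by
  unfold Mcx Mamp PPn
  have hn0 : (0 : ℝ) < n := by exact_mod_cast hn
  have hpi := Real.pi_pos
  rw [norm_mul, norm_mul, norm_div (_ + _), moda_norm_half, moda_norm_v hw, Complex.norm_exp]
  have h1 : ‖(1 / (Real.pi * n) : ℂ)‖ = 1 / (Real.pi * n) := by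
    have h : (1 / (Real.pi * n) : ℂ) = ((1 / (Real.pi * n) : ℝ) : ℂ) := by push_cast; ring
    rw [h, Complex.norm_real, Real.norm_of_nonneg (by positivity)]
  have h2 : ‖2 * gam w‖ = 2 * ‖gam w‖ := by
    rw [norm_mul]; simp
  have h3 : (2 * (Real.sqrt n : ℂ) * ((aa w : ℂ) + (bb w : ℂ) * I)).re =
      2 * (Real.sqrt n * aa w) := by
    simp
    ring
  rw [h1, h2, h3, Real.sqrt_div (norm_nonneg _)]

private theorem moda_line_deriv (σ β : ℝ) :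
    HasDerivAt (fun β : ℝ => (σ : ℂ) + β * I) I β := by
  have h := ((hasDerivAt_id β).ofReal_comp.mul_const I).const_add (σ : ℂ)
  simpa using h

private theorem moda_line_slit {σ : ℝ} (hσ : 0 < σ) (β : ℝ) : (σ : ℂ) + β * I ∈ slitPlane := by
  left
  rw [line_re]
  exact hσ

private theorem moda_cont_cpow {σ : ℝ} (hσ : 0 < σ) (c : ℂ) :
    Continuous (fun β : ℝ => ((σ : ℂ) + β * I) ^ c) := by
  have hl : Continuous (fun β : ℝ => (σ : ℂ) + β * I) := by fun_prop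
  exact hl.cpow continuous_const fun β => moda_line_slit hσ β

private theorem moda_cont_exp {σ : ℝ} (hσ : 0 < σ) (x : ℝ) (v : ℂ) :
    Continuous (fun β : ℝ => exp (x * ((σ : ℂ) + β * I) + v ^ 2 / ((σ : ℂ) + β * I))) := by
  have hl : Continuous (fun β : ℝ => (σ : ℂ) + β * I) := by fun_prop
  refine Complex.continuous_exp.comp ((continuous_const.mul hl).add ?_)
  exact continuous_const.div hl fun β => line_ne hσ β

private theorem moda_deriv {x σ : ℝ} (hσ : 0 < σ) (v : ℂ) (β : ℝ) :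
    HasDerivAt (fun β : ℝ => ((σ : ℂ) + β * I) ^ (1 / 2 : ℂ) *
        exp (x * ((σ : ℂ) + β * I) + v ^ 2 / ((σ : ℂ) + β * I)))
      (I * (1 / 2 * ((σ : ℂ) + β * I) ^ (-(1 / 2) : ℂ) *
          exp (x * ((σ : ℂ) + β * I) + v ^ 2 / ((σ : ℂ) + β * I)) +
        (x * (((σ : ℂ) + β * I) ^ (1 / 2 : ℂ) *
          exp (x * ((σ : ℂ) + β * I) + v ^ 2 / ((σ : ℂ) + β * I))) -
        v ^ 2 * ((σ : ℂ) + β * I) ^ (-(3 / 2) : ℂ) *
          exp (x * ((σ : ℂ) + β * I) + v ^ 2 / ((σ : ℂ) + β * I))))) β := by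
  set s : ℂ := (σ : ℂ) + β * I with hs
  have hs0 : s ≠ 0 := line_ne hσ β
  have hg : HasDerivAt (fun z : ℂ => z ^ (1 / 2 : ℂ) * exp (x * z + v ^ 2 / z))
      ((1 / 2 : ℂ) * s ^ (1 / 2 - 1 : ℂ) * 1 * exp (x * s + v ^ 2 / s) +
        s ^ (1 / 2 : ℂ) * (exp (x * s + v ^ 2 / s) * (x * 1 + v ^ 2 * (-(s ^ 2)⁻¹)))) s := by
    have h1 := (hasDerivAt_id s).cpow_const (c := (1 / 2 : ℂ)) (moda_line_slit hσ β)
    have h2 : HasDerivAt (fun z : ℂ => x * z + v ^ 2 / z) (x * 1 + v ^ 2 * (-(s ^ 2)⁻¹)) s := by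
      have h3 := ((hasDerivAt_id s).const_mul (x : ℂ)).add ((hasDerivAt_inv hs0).const_mul (v ^ 2))
      refine h3.congr_of_eventuallyEq (Filter.Eventually.of_forall fun z => ?_)
      simp [div_eq_mul_inv]
    exact h1.mul h2.cexp
  have h4 := hg.comp β (moda_line_deriv σ β)
  refine h4.congr_deriv ?_
  have e1 : s ^ (1 / 2 - 1 : ℂ) = s ^ (-(1 / 2) : ℂ) := by norm_num
  have e2 : s ^ (-(3 / 2) : ℂ) = s ^ (1 / 2 : ℂ) * (s ^ 2)⁻¹ := by
    rw [show (-(3 / 2) : ℂ) = 1 / 2 - (2 : ℕ) by norm_num, Complex.cpow_sub _ _ hs0,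
      Complex.cpow_natCast, div_eq_mul_inv]
  rw [e1, e2]
  ring

/-- integration by parts in the window, `s = σ + iβ` -/
theorem model_by_parts {x σ B : ℝ} (hσ : 0 < σ) (hB : 0 ≤ B) (hx : 0 < x) (v : ℂ) :
    (x : ℂ) * ∫ β in (0 : ℝ)..B, ((σ : ℂ) + β * I) ^ (1 / 2 : ℂ) *
        exp (x * ((σ : ℂ) + β * I) + v ^ 2 / ((σ : ℂ) + β * I)) =
      (((σ : ℂ) + B * I) ^ (1 / 2 : ℂ) * exp (x * ((σ : ℂ) + B * I) + v ^ 2 / ((σ : ℂ) + B * I)) -
          (σ : ℂ) ^ (1 / 2 : ℂ) * exp (x * (σ : ℂ) + v ^ 2 / (σ : ℂ))) / I +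
        (∫ β in (0 : ℝ)..B, v ^ 2 * ((σ : ℂ) + β * I) ^ (-(3 / 2) : ℂ) *
          exp (x * ((σ : ℂ) + β * I) + v ^ 2 / ((σ : ℂ) + β * I))) -
        ∫ β in (0 : ℝ)..B, 1 / 2 * ((σ : ℂ) + β * I) ^ (-(1 / 2) : ℂ) *
          exp (x * ((σ : ℂ) + β * I) + v ^ 2 / ((σ : ℂ) + β * I)) := by
  have c1 : Continuous fun β : ℝ => 1 / 2 * ((σ : ℂ) + β * I) ^ (-(1 / 2) : ℂ) *
      exp (x * ((σ : ℂ) + β * I) + v ^ 2 / ((σ : ℂ) + β * I)) :=
    (continuous_const.mul (moda_cont_cpow hσ _)).mul (moda_cont_exp hσ x v)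
  have c2 : Continuous fun β : ℝ => (x : ℂ) * (((σ : ℂ) + β * I) ^ (1 / 2 : ℂ) *
      exp (x * ((σ : ℂ) + β * I) + v ^ 2 / ((σ : ℂ) + β * I))) :=
    continuous_const.mul ((moda_cont_cpow hσ _).mul (moda_cont_exp hσ x v))
  have c3 : Continuous fun β : ℝ => v ^ 2 * ((σ : ℂ) + β * I) ^ (-(3 / 2) : ℂ) *
      exp (x * ((σ : ℂ) + β * I) + v ^ 2 / ((σ : ℂ) + β * I)) :=
    (continuous_const.mul (moda_cont_cpow hσ _)).mul (moda_cont_exp hσ x v)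
  have h := intervalIntegral.integral_eq_sub_of_hasDerivAt (a := 0) (b := B)
    (fun β _ => moda_deriv (x := x) hσ v β)
    ((continuous_const.mul (c1.add (c2.sub c3))).intervalIntegrable 0 B)
  have c4 : Continuous fun β : ℝ => (x : ℂ) * (((σ : ℂ) + β * I) ^ (1 / 2 : ℂ) *
      exp (x * ((σ : ℂ) + β * I) + v ^ 2 / ((σ : ℂ) + β * I))) -
      v ^ 2 * ((σ : ℂ) + β * I) ^ (-(3 / 2) : ℂ) *
      exp (x * ((σ : ℂ) + β * I) + v ^ 2 / ((σ : ℂ) + β * I)) := c2.sub c3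
  rw [intervalIntegral.integral_const_mul, intervalIntegral.integral_add
    (c1.intervalIntegrable _ _) (c4.intervalIntegrable _ _),
    intervalIntegral.integral_sub (c2.intervalIntegrable _ _) (c3.intervalIntegrable _ _),
    intervalIntegral.integral_const_mul (x : ℂ)] at h
  simp only [Complex.ofReal_zero, zero_mul, add_zero] at h
  rw [← h, mul_div_cancel_left₀ _ Complex.I_ne_zero]
  ring

/-- error of the model integral over the window (in units of `Mamp`) -/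
noncomputable def eMod (n : ℕ) (w T : ℝ) : ℝ :=
  1 / Real.sqrt (Real.pi * ‖VV w‖) *
      (Real.sqrt (sg n w) * Ew n w 0 + Real.sqrt (sg n w * Real.sqrt (1 + T ^ 2)) * Ew n w T) +
    Real.sqrt (‖VV w‖ / (Real.pi * sg n w)) *
      ((∫ τ in Set.Iic (0 : ℝ), (1 + τ ^ 2) ^ (-(3 / 4) : ℝ) * Ew n w τ) +
        ∫ τ in Set.Ioi T, (1 + τ ^ 2) ^ (-(3 / 4) : ℝ) * Ew n w τ) +
    1 / (2 * Real.sqrt (Real.pi * ‖VV w‖)) * Real.sqrt (sg n w) * (∫ τ in (0 : ℝ)..T, Ew n w τ) +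
    Real.exp (-(4 * PPn n w))

private theorem moda_sg_pos {n : ℕ} {w : ℝ} (hn : 1 ≤ n) (hw : 0 < w) : 0 < sg n w := by
  have hn0 : (0 : ℝ) < n := by exact_mod_cast hn
  exact div_pos (aa_pos hw) (Real.sqrt_pos.2 hn0)

/-- norm of the exponential on the line -/
private theorem moda_norm_exp {n : ℕ} {w : ℝ} (hn : 1 ≤ n) (hw : 0 < w) (τ : ℝ) :
    ‖exp (((n : ℝ) : ℂ) * ((sg n w : ℂ) + ((sg n w * τ : ℝ) : ℂ) * I) +
        ((aa w : ℂ) + (bb w : ℂ) * I) ^ 2 / ((sg n w : ℂ) + ((sg n w * τ : ℝ) : ℂ) * I))‖ =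
      Real.exp (2 * PPn n w) * Ew n w τ := by
  have h := norm_exp_saddle hw hn τ
  unfold ss at h
  rw [aabb_sq hw]
  unfold sg
  rw [Complex.ofReal_natCast, h]
  unfold Ew PPn ts
  rw [← Real.exp_add]
  congr 1

private theorem moda_norm_line {σ : ℝ} (hσ : 0 < σ) (τ : ℝ) :
    ‖(σ : ℂ) + ((σ * τ : ℝ) : ℂ) * I‖ = σ * Real.sqrt (1 + τ ^ 2) := by
  rw [Complex.norm_add_mul_I]
  have h : σ ^ 2 + (σ * τ) ^ 2 = σ ^ 2 * (1 + τ ^ 2) := by ring
  rw [h, Real.sqrt_mul (by positivity), Real.sqrt_sq hσ.le]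

private theorem moda_gR_pos {w : ℝ} (hw : 0 < w) : 0 < gR w := by
  unfold gR; positivity

private theorem moda_gI_pos {w : ℝ} (hw : 0 < w) : 0 < gI w := by
  unfold gI; positivity

private theorem moda_gam_re {w : ℝ} : (gam w).re = gR w := by
  rw [gam_eq]; simp

private theorem moda_gam_im {w : ℝ} : (gam w).im = gI w := by
  rw [gam_eq]; simp

private theorem moda_cpow_quot {w σ β : ℝ} (hw : 0 < w) (hσ : 0 < σ) (hβ : 0 ≤ β) :
    (2 * Real.pi * ((σ : ℂ) + β * I) / gam w) ^ (1 / 2 : ℂ) =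
      (Real.sqrt (2 * Real.pi) : ℂ) * ((σ : ℂ) + β * I) ^ (1 / 2 : ℂ) /
        gam w ^ (1 / 2 : ℂ) := by
  set s : ℂ := (σ : ℂ) + β * I with hs
  have hs0 : s ≠ 0 := line_ne hσ β
  have hg0 : gam w ≠ 0 := norm_pos_iff.1 (moda_norm_gam_pos hw)
  have hpi : (0 : ℝ) < 2 * Real.pi := by positivity
  have hpi0 : ((2 * Real.pi : ℝ) : ℂ) ≠ 0 := by exact_mod_cast hpi.ne'
  have hsre : 0 < s.re := by rw [hs, line_re]; exact hσ
  have has : |s.arg| < Real.pi / 2 := Complex.abs_arg_lt_pi_div_two_iff.2 (Or.inl hsre)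
  have hag : |(gam w).arg| < Real.pi / 2 :=
    Complex.abs_arg_lt_pi_div_two_iff.2 (Or.inl (by rw [moda_gam_re]; exact moda_gR_pos hw))
  have hgpi : (gam w).arg ≠ Real.pi := by
    intro h
    rw [h, abs_of_pos Real.pi_pos] at hag
    linarith [Real.pi_pos]
  have hlog : log (s * (gam w)⁻¹) = log s - log (gam w) := by
    rw [Complex.log_mul hs0 (inv_ne_zero hg0), Complex.log_inv _ hgpi, sub_eq_add_neg]
    rw [Complex.arg_inv, if_neg hgpi]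
    rw [abs_lt] at has hag
    constructor <;> linarith [has.1, has.2, hag.1, hag.2]
  have h1 : 2 * Real.pi * s / gam w = ((2 * Real.pi : ℝ) : ℂ) * (s * (gam w)⁻¹) := by
    push_cast; ring
  have hne : s * (gam w)⁻¹ ≠ 0 := mul_ne_zero hs0 (inv_ne_zero hg0)
  rw [h1, Complex.cpow_def_of_ne_zero (mul_ne_zero hpi0 hne),
    Complex.log_ofReal_mul hpi hne, hlog, Complex.cpow_def_of_ne_zero hs0,
    Complex.cpow_def_of_ne_zero hg0, Real.sqrt_eq_rpow, Complex.ofReal_cpow hpi.le,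
    Complex.cpow_def_of_ne_zero hpi0, ← Complex.exp_add, ← Complex.exp_sub,
    Complex.ofReal_log hpi.le]
  congr 1
  push_cast
  ring

private theorem moda_two_gam {w : ℝ} (hw : 0 < w) :
    (2 * gam w) ^ (1 / 2 : ℂ) = (Real.sqrt 2 : ℂ) * gam w ^ (1 / 2 : ℂ) := by
  have hg0 : gam w ≠ 0 := norm_pos_iff.1 (moda_norm_gam_pos hw)
  have h20 : ((2 : ℝ) : ℂ) ≠ 0 := by norm_num
  have h1 : 2 * gam w = ((2 : ℝ) : ℂ) * gam w := by push_cast; ring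
  rw [h1, Complex.cpow_def_of_ne_zero (mul_ne_zero h20 hg0),
    Complex.log_ofReal_mul two_pos hg0, Complex.cpow_def_of_ne_zero hg0,
    Real.sqrt_eq_rpow, Complex.ofReal_cpow two_pos.le, Complex.cpow_def_of_ne_zero h20,
    ← Complex.exp_add, Complex.ofReal_log two_pos.le]
  congr 1
  push_cast
  ring

/-- `‖s ^ c‖` on the line -/
private theorem moda_norm_cpow {σ : ℝ} (hσ : 0 < σ) (τ c : ℝ) :
    ‖((σ : ℂ) + ((σ * τ : ℝ) : ℂ) * I) ^ (c : ℂ)‖ = σ ^ c * (1 + τ ^ 2) ^ (c / 2) := by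
  rw [Complex.norm_cpow_real, moda_norm_line hσ, Real.mul_rpow hσ.le (Real.sqrt_nonneg _),
    Real.sqrt_eq_rpow, ← Real.rpow_mul (by positivity)]
  congr 2
  ring

theorem model_window {n : ℕ} {w T : ℝ} (hn : 1 ≤ n) (hw : 0 < w) (hT : 0 ≤ T) :
    ‖1 / (2 * Real.pi ^ 2) * (∫ τ in (0 : ℝ)..T, (sg n w : ℂ) *
          (exp (n * ss (sg n w) τ + VV w / ss (sg n w) τ) *
            (2 * Real.pi * ss (sg n w) τ / gam w) ^ (1 / 2 : ℂ))) - Mcx n w‖ ≤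
      Mamp n w * eMod n w T := by
  have hn0 : (0 : ℝ) < n := by exact_mod_cast hn
  have hq : 0 < Real.sqrt n := Real.sqrt_pos.2 hn0
  have hpi := Real.pi_pos
  have hσ := moda_sg_pos hn hw
  have hVpos := moda_norm_VV_pos hw
  have hγpos := moda_norm_gam_pos hw
  have hg0 : gam w ≠ 0 := norm_pos_iff.1 hγpos
  set σ := sg n w with hσdef
  set v : ℂ := (aa w : ℂ) + (bb w : ℂ) * I with hv
  have hv2 : v ^ 2 = VV w := aabb_sq hw
  have hvn : ‖v‖ = Real.sqrt ‖VV w‖ := moda_norm_v hw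
  have hv0 : v ≠ 0 := by
    rw [← norm_pos_iff, hvn]
    exact Real.sqrt_pos.2 hVpos
  set g : ℂ := gam w ^ (1 / 2 : ℂ) with hg
  have hgn : ‖g‖ = Real.sqrt ‖gam w‖ := moda_norm_half _
  have hgne : g ≠ 0 := by
    rw [← norm_pos_iff, hgn]
    exact Real.sqrt_pos.2 hγpos
  set B : ℝ := σ * T with hB
  have hB0 : 0 ≤ B := by positivity
  -- the functions on the line
  set e : ℝ → ℂ := fun β => exp (((n : ℝ) : ℂ) * ((σ : ℂ) + β * I) + v ^ 2 / ((σ : ℂ) + β * I))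
    with he
  have hen : ∀ τ : ℝ, ‖e (σ * τ)‖ = Real.exp (2 * PPn n w) * Ew n w τ := by
    intro τ
    rw [he]
    exact moda_norm_exp hn hw τ
  have hec : Continuous e := moda_cont_exp hσ _ _
  set k : ℝ → ℂ := fun β => ((σ : ℂ) + β * I) ^ (-(3 / 2) : ℂ) * e β with hk
  have hkint : Integrable k := integrable_model v hσ
  -- step 1: substitution
  have h1 : (∫ τ in (0 : ℝ)..T, (σ : ℂ) * (exp (n * ss σ τ + VV w / ss σ τ) *
      (2 * Real.pi * ss σ τ / gam w) ^ (1 / 2 : ℂ))) =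
      (Real.sqrt (2 * Real.pi) : ℂ) / g *
        ∫ β in (0 : ℝ)..B, ((σ : ℂ) + β * I) ^ (1 / 2 : ℂ) * e β := by
    have h2 := intervalIntegral.smul_integral_comp_mul_left (a := 0) (b := T)
      (fun β : ℝ => e β * (2 * Real.pi * ((σ : ℂ) + β * I) / gam w) ^ (1 / 2 : ℂ)) σ
    rw [mul_zero] at h2
    rw [intervalIntegral.integral_const_mul]
    have h3 : (∫ τ in (0 : ℝ)..T, exp (n * ss σ τ + VV w / ss σ τ) *
        (2 * Real.pi * ss σ τ / gam w) ^ (1 / 2 : ℂ)) =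
        ∫ τ in (0 : ℝ)..T, e (σ * τ) *
          (2 * Real.pi * ((σ : ℂ) + ((σ * τ : ℝ) : ℂ) * I) / gam w) ^ (1 / 2 : ℂ) := by
      refine intervalIntegral.integral_congr fun τ _ => ?_
      simp only [he, ss, hv2, Complex.ofReal_natCast]
    rw [h3, ← Complex.real_smul, h2, ← intervalIntegral.integral_const_mul]
    refine intervalIntegral.integral_congr fun β hβ => ?_
    rw [Set.uIcc_of_le hB0] at hβ
    rw [moda_cpow_quot hw hσ hβ.1]
    ring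
  -- step 2: integration by parts
  have h2 := model_by_parts (x := (n : ℝ)) hσ hB0 hn0 v
  set J : ℂ := ∫ β in (0 : ℝ)..B, ((σ : ℂ) + β * I) ^ (1 / 2 : ℂ) * e β with hJ
  set FB : ℂ := ((σ : ℂ) + B * I) ^ (1 / 2 : ℂ) * e B with hFB
  set F0 : ℂ := (σ : ℂ) ^ (1 / 2 : ℂ) * exp (((n : ℝ) : ℂ) * (σ : ℂ) + v ^ 2 / (σ : ℂ)) with hF0
  set H : ℂ := ∫ β in (0 : ℝ)..B, 1 / 2 * ((σ : ℂ) + β * I) ^ (-(1 / 2) : ℂ) * e β with hH
  have h3 : (∫ β in (0 : ℝ)..B, v ^ 2 * ((σ : ℂ) + β * I) ^ (-(3 / 2) : ℂ) * e β) =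
      v ^ 2 * ∫ β in (0 : ℝ)..B, k β := by
    rw [← intervalIntegral.integral_const_mul]
    refine intervalIntegral.integral_congr fun β _ => ?_
    simp only [hk]
    ring
  have h2' : ((n : ℝ) : ℂ) * J = (FB - F0) / I + v ^ 2 * (∫ β in (0 : ℝ)..B, k β) - H := by
    rw [← h3]
    exact h2
  -- step 3: the full line
  set Km : ℂ := ∫ β in Set.Iic (0 : ℝ), k β with hKm
  set Kp : ℂ := ∫ β in Set.Ioi B, k β with hKp
  have h4 : (∫ β in (0 : ℝ)..B, k β) = (∫ β : ℝ, k β) - Km - Kp := by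
    have e1 := intervalIntegral.integral_Iic_sub_Iic (a := 0) (b := B) hkint.integrableOn
      hkint.integrableOn
    have e2 := intervalIntegral.integral_Iic_add_Ioi (b := B) hkint.integrableOn
      hkint.integrableOn
    rw [← e1, ← e2]
    ring
  have h5 : (∫ β : ℝ, k β) = 2 * Real.pi * sinh (2 * v * (Real.sqrt n : ℂ)) /
      ((Real.sqrt Real.pi : ℂ) * v) := model_integral v hv0 hσ hn0
  set z : ℂ := 2 * Real.sqrt n * v with hz
  have hnC : ((n : ℝ) : ℂ) ≠ 0 := by exact_mod_cast hn0.ne'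
  have hspi : (Real.sqrt Real.pi : ℂ) ≠ 0 := by exact_mod_cast (Real.sqrt_pos.2 hpi).ne'
  have hspi2 : (Real.sqrt Real.pi : ℂ) ^ 2 = Real.pi := by
    rw [← Complex.ofReal_pow, Real.sq_sqrt hpi.le]
  have hs2 : (Real.sqrt 2 : ℂ) ^ 2 = 2 := by
    rw [← Complex.ofReal_pow, Real.sq_sqrt (by norm_num)]
    norm_num
  have hs20 : (Real.sqrt 2 : ℂ) ≠ 0 := by
    exact_mod_cast (Real.sqrt_pos.2 two_pos).ne'
  have hs2pi : (Real.sqrt (2 * Real.pi) : ℂ) = (Real.sqrt 2 : ℂ) * (Real.sqrt Real.pi : ℂ) := by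
    rw [Real.sqrt_mul (by norm_num), Complex.ofReal_mul]
  have hpiC : (Real.pi : ℂ) ≠ 0 := by exact_mod_cast hpi.ne'
  have hMcx : Mcx n w = 1 / (Real.pi * n) * (v / ((Real.sqrt 2 : ℂ) * g)) * exp z := by
    unfold Mcx
    rw [moda_two_gam hw]
  set C0 : ℂ := 1 / (2 * Real.pi ^ 2) * ((Real.sqrt (2 * Real.pi) : ℂ) / g) / ((n : ℝ) : ℂ)
    with hC0
  have h6 : C0 * (v ^ 2 * ∫ β : ℝ, k β) = Mcx n w - Mcx n w * exp (-(2 * z)) := by
    rw [h5, hMcx, show 2 * v * (Real.sqrt n : ℂ) = z by rw [hz]; ring, Complex.sinh, hC0, hs2pi]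
    have e1 : exp (-(2 * z)) = exp (-z) / exp z := by
      rw [← Complex.exp_sub]
      congr 1
      ring
    rw [e1]
    have hez : exp z ≠ 0 := Complex.exp_ne_zero z
    rw [Complex.ofReal_natCast] at hnC ⊢
    field_simp
    rw [hs2]
  have h7 : 1 / (2 * Real.pi ^ 2) * ((Real.sqrt (2 * Real.pi) : ℂ) / g * J) - Mcx n w =
      -(Mcx n w * exp (-(2 * z))) + C0 * ((FB - F0) / I) - C0 * (v ^ 2 * Km) -
        C0 * (v ^ 2 * Kp) - C0 * H := by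
    have e1 : 1 / (2 * Real.pi ^ 2) * ((Real.sqrt (2 * Real.pi) : ℂ) / g * J) =
        C0 * (((n : ℝ) : ℂ) * J) := by
      rw [hC0]
      field_simp
    rw [e1, h2', h4]
    linear_combination h6
  rw [h1, h7]
  -- norms
  set X : ℝ := Real.exp (2 * PPn n w) with hX
  have hX0 : 0 < X := Real.exp_pos _
  have hC0n : ‖C0‖ * X = Mamp n w / Real.sqrt (Real.pi * ‖VV w‖) := by
    have e1 : ‖C0‖ = 1 / (2 * Real.pi ^ 2) * (Real.sqrt (2 * Real.pi) / Real.sqrt ‖gam w‖) / n := by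
      rw [hC0, norm_div, norm_mul, norm_div _ g, hgn, Complex.norm_real, Complex.norm_real,
        Real.norm_of_nonneg (Real.sqrt_nonneg _), Real.norm_of_nonneg hn0.le]
      congr 2
      have : (1 / (2 * Real.pi ^ 2) : ℂ) = ((1 / (2 * Real.pi ^ 2) : ℝ) : ℂ) := by
        push_cast; ring
      rw [this, Complex.norm_real, Real.norm_of_nonneg (by positivity)]
    rw [e1]
    unfold Mamp
    rw [Real.sqrt_div (norm_nonneg _), Real.sqrt_mul (by norm_num : (0 : ℝ) ≤ 2) ‖gam w‖,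
      Real.sqrt_mul hpi.le ‖VV w‖, Real.sqrt_mul (by norm_num : (0 : ℝ) ≤ 2) Real.pi]
    have p1 : Real.sqrt ‖gam w‖ ≠ 0 := (Real.sqrt_pos.2 hγpos).ne'
    have p2 : Real.sqrt ‖VV w‖ ≠ 0 := (Real.sqrt_pos.2 hVpos).ne'
    have p3 : Real.sqrt Real.pi ≠ 0 := (Real.sqrt_pos.2 hpi).ne'
    have p4 : Real.sqrt 2 ≠ 0 := (Real.sqrt_pos.2 two_pos).ne'
    have p5 : Real.sqrt 2 ^ 2 = 2 := Real.sq_sqrt (by norm_num)
    have p6 : Real.sqrt Real.pi ^ 2 = Real.pi := Real.sq_sqrt hpi.le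
    field_simp
    rw [p5, p6]
  have hMpos : 0 ≤ Mamp n w := by rw [← norm_Mcx hn hw]; exact norm_nonneg _
  have n1 : ‖Mcx n w * exp (-(2 * z))‖ = Mamp n w * Real.exp (-(4 * PPn n w)) := by
    rw [norm_mul, norm_Mcx hn hw, Complex.norm_exp]
    congr 2
    rw [hz, hv]
    unfold PPn
    simp
    ring
  have n2 : ‖(FB - F0) / I‖ ≤ X * (Real.sqrt σ * Ew n w 0 +
      Real.sqrt (σ * Real.sqrt (1 + T ^ 2)) * Ew n w T) := by
    rw [norm_div, Complex.norm_I, div_one]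
    refine (norm_sub_le _ _).trans ?_
    have f1 : ‖FB‖ = X * (Real.sqrt (σ * Real.sqrt (1 + T ^ 2)) * Ew n w T) := by
      rw [hFB, norm_mul, hB, hen, moda_norm_half, moda_norm_line hσ]
      ring
    have f2 : ‖F0‖ = X * (Real.sqrt σ * Ew n w 0) := by
      have g1 := hen 0
      rw [he] at g1
      simp only [mul_zero, Complex.ofReal_zero, zero_mul, add_zero] at g1
      rw [hF0, norm_mul, g1, moda_norm_half, Complex.norm_real, Real.norm_of_nonneg hσ.le]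
      ring
    rw [f1, f2]
    linarith
  have hkn : ∀ τ : ℝ, ‖k (σ * τ)‖ = σ ^ (-(3 / 2) : ℝ) * X * ((1 + τ ^ 2) ^ (-(3 / 4) : ℝ) *
      Ew n w τ) := by
    intro τ
    have e1 : (-(3 / 2) : ℂ) = ((-(3 / 2) : ℝ) : ℂ) := by push_cast; ring
    simp only [hk]
    rw [norm_mul, hen, e1, moda_norm_cpow hσ]
    rw [show (-(3 / 2) / 2 : ℝ) = -(3 / 4) by norm_num]
    ring
  have hσσ : σ * σ ^ (-(3 / 2) : ℝ) = 1 / Real.sqrt σ := by
    rw [Real.sqrt_eq_rpow, one_div, ← Real.rpow_neg hσ.le]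
    nth_rewrite 1 [← Real.rpow_one σ]
    rw [← Real.rpow_add hσ]
    norm_num
  have n3 : ‖Kp‖ ≤ 1 / Real.sqrt σ * X *
      ∫ τ in Set.Ioi T, (1 + τ ^ 2) ^ (-(3 / 4) : ℝ) * Ew n w τ := by
    refine (norm_integral_le_integral_norm _).trans (le_of_eq ?_)
    have e1 := integral_comp_mul_left_Ioi (fun β => ‖k β‖) T hσ
    simp only [hkn] at e1
    rw [integral_const_mul, smul_eq_mul, ← hB] at e1
    have e2 : (∫ β in Set.Ioi B, ‖k β‖) = σ * (σ⁻¹ * ∫ β in Set.Ioi B, ‖k β‖) := by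
      rw [← mul_assoc, mul_inv_cancel₀ hσ.ne', one_mul]
    rw [e2, ← e1, ← hσσ]
    ring
  have n4 : ‖Km‖ ≤ 1 / Real.sqrt σ * X *
      ∫ τ in Set.Iic (0 : ℝ), (1 + τ ^ 2) ^ (-(3 / 4) : ℝ) * Ew n w τ := by
    refine (norm_integral_le_integral_norm _).trans (le_of_eq ?_)
    have e0 : (∫ β in Set.Iic (0 : ℝ), ‖k β‖) = ∫ β in Set.Ioi (0 : ℝ), ‖k (-β)‖ := by
      rw [integral_comp_neg_Ioi 0 (fun β => ‖k β‖), neg_zero]
    have e0' : (∫ τ in Set.Iic (0 : ℝ), (1 + τ ^ 2) ^ (-(3 / 4) : ℝ) * Ew n w τ) =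
        ∫ τ in Set.Ioi (0 : ℝ), (1 + (-τ) ^ 2) ^ (-(3 / 4) : ℝ) * Ew n w (-τ) := by
      rw [integral_comp_neg_Ioi 0 (fun τ => (1 + τ ^ 2) ^ (-(3 / 4) : ℝ) * Ew n w τ), neg_zero]
    rw [e0, e0']
    have e1 := integral_comp_mul_left_Ioi (fun β => ‖k (-β)‖) 0 hσ
    have e3 : ∀ x : ℝ, ‖k (-(σ * x))‖ = σ ^ (-(3 / 2) : ℝ) * X *
        ((1 + (-x) ^ 2) ^ (-(3 / 4) : ℝ) * Ew n w (-x)) := by
      intro x
      rw [← mul_neg, hkn]
    simp only [e3] at e1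
    rw [integral_const_mul, smul_eq_mul, mul_zero] at e1
    have e2 : (∫ β in Set.Ioi (0 : ℝ), ‖k (-β)‖) =
        σ * (σ⁻¹ * ∫ β in Set.Ioi (0 : ℝ), ‖k (-β)‖) := by
      rw [← mul_assoc, mul_inv_cancel₀ hσ.ne', one_mul]
    rw [e2, ← e1, ← hσσ]
    ring
  have n5 : ‖H‖ ≤ 1 / 2 * Real.sqrt σ * X * ∫ τ in (0 : ℝ)..T, Ew n w τ := by
    refine (intervalIntegral.norm_integral_le_integral_norm hB0).trans ?_
    have e1 := intervalIntegral.smul_integral_comp_mul_left (a := 0) (b := T)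
      (fun β : ℝ => ‖1 / 2 * ((σ : ℂ) + β * I) ^ (-(1 / 2) : ℂ) * e β‖) σ
    rw [mul_zero, ← hB, smul_eq_mul] at e1
    rw [← e1]
    have e2 : ∀ τ : ℝ, ‖1 / 2 * ((σ : ℂ) + ((σ * τ : ℝ) : ℂ) * I) ^ (-(1 / 2) : ℂ) * e (σ * τ)‖ =
        1 / 2 * (σ ^ (-(1 / 2) : ℝ) * (1 + τ ^ 2) ^ (-(1 / 4) : ℝ)) * (X * Ew n w τ) := by
      intro τ
      have e3 : (-(1 / 2) : ℂ) = ((-(1 / 2) : ℝ) : ℂ) := by push_cast; ring
      rw [norm_mul, norm_mul, hen, e3, moda_norm_cpow hσ,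
        show (-(1 / 2) / 2 : ℝ) = -(1 / 4) by norm_num]
      congr 2
      simp
    have hEc : Continuous fun τ : ℝ => Ew n w τ := by
      unfold Ew
      refine Real.continuous_exp.comp (Continuous.neg ?_)
      refine Continuous.div (by fun_prop) (by fun_prop) fun τ => ?_
      positivity
    have e4 : (∫ τ in (0 : ℝ)..T, ‖1 / 2 * ((σ : ℂ) + ((σ * τ : ℝ) : ℂ) * I) ^ (-(1 / 2) : ℂ) *
        e (σ * τ)‖) ≤ ∫ τ in (0 : ℝ)..T, 1 / 2 * σ ^ (-(1 / 2) : ℝ) * X * Ew n w τ := by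
      refine intervalIntegral.integral_mono_on hT ?_ ?_ fun τ _ => ?_
      · refine Continuous.intervalIntegrable ?_ _ _
        refine Continuous.norm (Continuous.mul (continuous_const.mul ?_) (hec.comp (by fun_prop)))
        exact (moda_cont_cpow hσ _).comp (by fun_prop : Continuous fun τ : ℝ => σ * τ)
      · exact (continuous_const.mul hEc).intervalIntegrable _ _
      · rw [e2]
        have f1 : (1 + τ ^ 2) ^ (-(1 / 4) : ℝ) ≤ 1 :=
          Real.rpow_le_one_of_one_le_of_nonpos (by nlinarith [sq_nonneg τ]) (by norm_num)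
        have f2 : 0 ≤ σ ^ (-(1 / 2) : ℝ) := Real.rpow_nonneg hσ.le _
        have f3 : 0 < Ew n w τ := Real.exp_pos _
        calc 1 / 2 * (σ ^ (-(1 / 2) : ℝ) * (1 + τ ^ 2) ^ (-(1 / 4) : ℝ)) * (X * Ew n w τ)
            ≤ 1 / 2 * (σ ^ (-(1 / 2) : ℝ) * 1) * (X * Ew n w τ) := by gcongr
          _ = _ := by ring
    refine (mul_le_mul_of_nonneg_left e4 hσ.le).trans (le_of_eq ?_)
    rw [intervalIntegral.integral_const_mul]
    have f4 : σ * σ ^ (-(1 / 2) : ℝ) = Real.sqrt σ := by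
      rw [Real.sqrt_eq_rpow]
      nth_rewrite 1 [← Real.rpow_one σ]
      rw [← Real.rpow_add hσ]
      norm_num
    rw [← f4]
    ring
  -- put everything together
  have hv2n : ‖v ^ 2‖ = ‖VV w‖ := by rw [hv2]
  set P1 : ℝ := ∫ τ in Set.Iic (0 : ℝ), (1 + τ ^ 2) ^ (-(3 / 4) : ℝ) * Ew n w τ with hP1
  set P2 : ℝ := ∫ τ in Set.Ioi T, (1 + τ ^ 2) ^ (-(3 / 4) : ℝ) * Ew n w τ with hP2
  set P3 : ℝ := ∫ τ in (0 : ℝ)..T, Ew n w τ with hP3
  set Sπ : ℝ := Real.sqrt (Real.pi * ‖VV w‖) with hSπ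
  have hSπ0 : 0 < Sπ := Real.sqrt_pos.2 (by positivity)
  have m2 : ‖C0 * ((FB - F0) / I)‖ ≤ Mamp n w * (1 / Sπ * (Real.sqrt σ * Ew n w 0 +
      Real.sqrt (σ * Real.sqrt (1 + T ^ 2)) * Ew n w T)) := by
    rw [norm_mul]
    refine (mul_le_mul_of_nonneg_left n2 (norm_nonneg _)).trans (le_of_eq ?_)
    rw [← mul_assoc, hC0n]
    ring
  have hsq : Real.sqrt (‖VV w‖ / (Real.pi * σ)) = ‖VV w‖ / Sπ / Real.sqrt σ := by
    rw [hSπ, Real.sqrt_div (norm_nonneg _), Real.sqrt_mul hpi.le, Real.sqrt_mul hpi.le]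
    have p1 : Real.sqrt ‖VV w‖ ≠ 0 := (Real.sqrt_pos.2 hVpos).ne'
    have p2 : ‖VV w‖ = Real.sqrt ‖VV w‖ ^ 2 := (Real.sq_sqrt hVpos.le).symm
    have p3 : Real.sqrt Real.pi ≠ 0 := (Real.sqrt_pos.2 hpi).ne'
    have p4 : Real.sqrt σ ≠ 0 := (Real.sqrt_pos.2 hσ).ne'
    nth_rewrite 2 [p2]
    field_simp
  have m3 : ‖C0 * (v ^ 2 * Km)‖ ≤ Mamp n w * (Real.sqrt (‖VV w‖ / (Real.pi * σ)) * P1) := by
    rw [norm_mul, norm_mul, hv2n]
    refine (mul_le_mul_of_nonneg_left (mul_le_mul_of_nonneg_left n4 (norm_nonneg _))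
      (norm_nonneg _)).trans (le_of_eq ?_)
    rw [hsq]
    have : ‖C0‖ * (‖VV w‖ * (1 / Real.sqrt σ * X * P1)) =
        (‖C0‖ * X) * (‖VV w‖ * (1 / Real.sqrt σ) * P1) := by ring
    rw [this, hC0n]
    ring
  have m4 : ‖C0 * (v ^ 2 * Kp)‖ ≤ Mamp n w * (Real.sqrt (‖VV w‖ / (Real.pi * σ)) * P2) := by
    rw [norm_mul, norm_mul, hv2n]
    refine (mul_le_mul_of_nonneg_left (mul_le_mul_of_nonneg_left n3 (norm_nonneg _))
      (norm_nonneg _)).trans (le_of_eq ?_)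
    rw [hsq]
    have : ‖C0‖ * (‖VV w‖ * (1 / Real.sqrt σ * X * P2)) =
        (‖C0‖ * X) * (‖VV w‖ * (1 / Real.sqrt σ) * P2) := by ring
    rw [this, hC0n]
    ring
  have m5 : ‖C0 * H‖ ≤ Mamp n w * (1 / (2 * Sπ) * Real.sqrt σ * P3) := by
    rw [norm_mul]
    refine (mul_le_mul_of_nonneg_left n5 (norm_nonneg _)).trans (le_of_eq ?_)
    have : ‖C0‖ * (1 / 2 * Real.sqrt σ * X * P3) = (‖C0‖ * X) * (1 / 2 * Real.sqrt σ * P3) := by
      ring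
    rw [this, hC0n]
    ring
  have tri : ‖-(Mcx n w * exp (-(2 * z))) + C0 * ((FB - F0) / I) - C0 * (v ^ 2 * Km) -
      C0 * (v ^ 2 * Kp) - C0 * H‖ ≤ ‖Mcx n w * exp (-(2 * z))‖ + ‖C0 * ((FB - F0) / I)‖ +
        ‖C0 * (v ^ 2 * Km)‖ + ‖C0 * (v ^ 2 * Kp)‖ + ‖C0 * H‖ := by
    refine (norm_sub_le _ _).trans (add_le_add_left ?_ _)
    refine (norm_sub_le _ _).trans (add_le_add_left ?_ _)
    refine (norm_sub_le _ _).trans (add_le_add_left ?_ _)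
    refine (norm_add_le _ _).trans ?_
    rw [norm_neg]
  refine tri.trans ?_
  rw [n1]
  refine (add_le_add (add_le_add (add_le_add (add_le_add le_rfl m2) m3) m4) m5).trans
    (le_of_eq ?_)
  unfold eMod
  rw [← hσdef, ← hP1, ← hP2, ← hP3, ← hSπ]
  ring

end Pool.Agent.Lib.Durfee
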