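import Pool.Agent.Lib.MP_9393b1_co.HypS
import Pool.Agent.Lib.MP_9393b1_co.ModA

/-! # Regime S: the model integral -/

set_option autoImplicit false

namespace Pool.Agent.Lib.Durfee

open Complex MeasureTheory Filter Topology

variable {n k : ℕ} {w : ℝ}

/-! ### the kernel `(1+τ²)^{-3/4}` -/

private lemma ms_two_rpow : (2 : ℝ) ^ ((3 : ℝ) / 4) ≤ 17 / 10 := by
  have h : ((2 : ℝ) ^ ((3 : ℝ) / 4)) ^ 4 ≤ (17 / 10 : ℝ) ^ 4 := by
    rw [← Real.rpow_natCast, ← Real.rpow_mul (by norm_num)]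
    norm_num
  exact le_of_pow_le_pow_left₀ (by norm_num) (by norm_num) h

private lemma ms_kernel {x : ℝ} (hx : 0 ≤ x) :
    (1 + x ^ 2) ^ (-(3 / 4) : ℝ) ≤ 17 / 10 * (1 + x) ^ (-(3 / 2) : ℝ) := by
  have h1 : (0 : ℝ) < 1 + x ^ 2 := by positivity
  have h2 : (0 : ℝ) < 1 + x := by positivity
  have h3 : (1 + x) ^ ((3 : ℝ) / 2) ≤ 17 / 10 * (1 + x ^ 2) ^ ((3 : ℝ) / 4) := by
    have e1 : (1 + x) ^ ((3 : ℝ) / 2) = ((1 + x) ^ 2) ^ ((3 : ℝ) / 4) := by
      rw [← Real.rpow_natCast, ← Real.rpow_mul h2.le]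
      norm_num
    rw [e1]
    calc ((1 + x) ^ 2) ^ ((3 : ℝ) / 4) ≤ (2 * (1 + x ^ 2)) ^ ((3 : ℝ) / 4) := by
          apply Real.rpow_le_rpow (by positivity) _ (by norm_num)
          nlinarith [sq_nonneg (x - 1)]
      _ = (2 : ℝ) ^ ((3 : ℝ) / 4) * (1 + x ^ 2) ^ ((3 : ℝ) / 4) := by
          rw [Real.mul_rpow (by norm_num) h1.le]
      _ ≤ _ := by
          apply mul_le_mul_of_nonneg_right ms_two_rpow (by positivity)
  rw [Real.rpow_neg h1.le, Real.rpow_neg h2.le]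
  have h4 : 0 < (1 + x ^ 2) ^ ((3 : ℝ) / 4) := by positivity
  have h5 : 0 < (1 + x) ^ ((3 : ℝ) / 2) := by positivity
  rw [← div_eq_mul_inv, le_div_iff₀ h5, inv_mul_le_iff₀ h4]
  linarith

private lemma ms_deriv (x : ℝ) (hx : 0 ≤ x) :
    HasDerivAt (fun x : ℝ => -(2 * (1 + x) ^ (-(1 / 2) : ℝ))) ((1 + x) ^ (-(3 / 2) : ℝ)) x := by
  have h2 : (0 : ℝ) < 1 + x := by positivity
  have h : HasDerivAt (fun x : ℝ => -(2 * (1 + x) ^ (-(1 / 2) : ℝ)))
      (-(2 * (1 * (-(1 / 2) : ℝ) * (1 + x) ^ (-(1 / 2) - 1 : ℝ)))) x :=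
    ((((hasDerivAt_id x).const_add 1).rpow_const (p := (-(1 / 2) : ℝ))
      (Or.inl h2.ne')).const_mul 2).neg
  refine h.congr_deriv ?_
  rw [show (-(1 / 2) - 1 : ℝ) = -(3 / 2) by norm_num]
  ring

private lemma ms_tendsto :
    Tendsto (fun x : ℝ => -(2 * (1 + x) ^ (-(1 / 2) : ℝ))) atTop (𝓝 0) := by
  have h : Tendsto (fun x : ℝ => (1 + x) ^ (-(1 / 2) : ℝ)) atTop (𝓝 0) :=
    (tendsto_rpow_neg_atTop (y := 1 / 2) (by norm_num)).comp
      (tendsto_atTop_add_const_left _ 1 tendsto_id)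
  simpa using (h.const_mul 2).neg

private lemma ms_int {c : ℝ} (hc : 0 ≤ c) :
    IntegrableOn (fun x : ℝ => (1 + x) ^ (-(3 / 2) : ℝ)) (Set.Ioi c) :=
  integrableOn_Ioi_deriv_of_nonneg' (fun x hx => ms_deriv x (hc.trans hx))
    (fun x hx => by
      have : (0 : ℝ) ≤ x := hc.trans (le_of_lt hx)
      positivity) ms_tendsto

private lemma ms_integral {c : ℝ} (hc : 0 ≤ c) :
    ∫ x in Set.Ioi c, (1 + x) ^ (-(3 / 2) : ℝ) ≤ 2 := by
  rw [integral_Ioi_of_hasDerivAt_of_nonneg' (fun x hx => ms_deriv x (hc.trans hx))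
    (fun x hx => by
      have : (0 : ℝ) ≤ x := hc.trans (le_of_lt hx)
      positivity) ms_tendsto]
  have h : (1 + c) ^ (-(1 / 2) : ℝ) ≤ 1 :=
    Real.rpow_le_one_of_one_le_of_nonpos (by linarith) (by norm_num)
  linarith

private lemma ms_tail {c C : ℝ} {g : ℝ → ℝ} (hc : 0 ≤ c) (hC : 0 ≤ C)
    (h0 : ∀ x, c < x → 0 ≤ g x) (h1 : ∀ x, c < x → g x ≤ C) :
    ∫ x in Set.Ioi c, (1 + x ^ 2) ^ (-(3 / 4) : ℝ) * g x ≤ 17 / 5 * C := by
  have h2 : ∫ x in Set.Ioi c, (1 + x ^ 2) ^ (-(3 / 4) : ℝ) * g x ≤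
      ∫ x in Set.Ioi c, 17 / 10 * C * (1 + x) ^ (-(3 / 2) : ℝ) := by
    apply integral_mono_of_nonneg
    · refine (ae_restrict_iff' measurableSet_Ioi).2 (Eventually.of_forall fun x hx => ?_)
      have := h0 x hx
      simp only [Pi.zero_apply]
      positivity
    · exact (ms_int hc).const_mul _
    · refine (ae_restrict_iff' measurableSet_Ioi).2 (Eventually.of_forall fun x hx => ?_)
      have hx' : c < x := hx
      have hx0 : 0 ≤ x := hc.trans hx'.le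
      have := h0 x hx'
      have h3 := h1 x hx'
      have h4 := ms_kernel hx0
      calc (1 + x ^ 2) ^ (-(3 / 4) : ℝ) * g x
          ≤ (17 / 10 * (1 + x) ^ (-(3 / 2) : ℝ)) * C :=
            mul_le_mul h4 h3 this (by positivity)
        _ = _ := by ring
  rw [integral_const_mul] at h2
  have h5 := ms_integral hc
  have h6 : 17 / 10 * C * ∫ x in Set.Ioi c, (1 + x) ^ (-(3 / 2) : ℝ) ≤ 17 / 10 * C * 2 :=
    mul_le_mul_of_nonneg_left h5 (by positivity)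
  linarith

/-! ### numerics -/

/-- `z e^{-cz}` decreases for `cz ≥ 1` -/
private lemma ms_mul_exp {c z0 z : ℝ} (hc : 0 < c) (h0 : 1 ≤ c * z0) (hz : z0 ≤ z) :
    z * Real.exp (-(c * z)) ≤ z0 * Real.exp (-(c * z0)) := by
  have e1 : Real.exp (-(c * z)) = Real.exp (-(c * z0)) * Real.exp (-(c * (z - z0))) := by
    rw [← Real.exp_add]; ring_nf
  have h1 := Real.add_one_le_exp (c * (z - z0))
  have hz0 : 0 < z0 := by
    by_contra hcon
    have : c * z0 ≤ 0 := mul_nonpos_of_nonneg_of_nonpos hc.le (not_lt.1 hcon)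
    linarith
  have h2 : z ≤ z0 * Real.exp (c * (z - z0)) := by
    have h3 : z0 * (c * (z - z0) + 1) ≤ z0 * Real.exp (c * (z - z0)) :=
      mul_le_mul_of_nonneg_left h1 hz0.le
    have h4 : 0 ≤ (c * z0 - 1) * (z - z0) := mul_nonneg (by linarith) (by linarith)
    nlinarith
  rw [e1]
  have h5 : z * Real.exp (-(c * (z - z0))) ≤ z0 := by
    rw [Real.exp_neg, ← div_eq_mul_inv, div_le_iff₀ (Real.exp_pos _)]
    exact h2
  calc z * (Real.exp (-(c * z0)) * Real.exp (-(c * (z - z0))))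
      = (z * Real.exp (-(c * (z - z0)))) * Real.exp (-(c * z0)) := by ring
    _ ≤ z0 * Real.exp (-(c * z0)) := mul_le_mul_of_nonneg_right h5 (Real.exp_pos _).le

private lemma ms_exp_lb (k : ℕ) {x y : ℝ} (hx : 0 ≤ x) (hy : y = k + x) :
    (2.718 : ℝ) ^ k * (1 + x + x ^ 2 / 2) ≤ Real.exp y := by
  have e : Real.exp y = Real.exp 1 ^ k * Real.exp x := by
    rw [← Real.exp_nat_mul, ← Real.exp_add, hy, mul_one]
  rw [e]
  have h1 : (2.718 : ℝ) ^ k ≤ Real.exp 1 ^ k :=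
    pow_le_pow_left₀ (by norm_num) (by have := Real.exp_one_gt_d9; linarith) k
  have h2 := Real.quadratic_le_exp_of_nonneg hx
  exact mul_le_mul h1 h2 (by positivity) (by positivity)

private lemma ms_exp_124 : Real.exp (-(124 / 10)) ≤ 5 / 10 ^ 6 := by
  rw [Real.exp_neg, inv_le_comm₀ (Real.exp_pos _) (by norm_num)]
  refine le_trans ?_ (ms_exp_lb 12 (x := 4 / 10) (by norm_num) (by norm_num))
  norm_num

private lemma ms_exp_914 : Real.exp (-(9 / 17 * (1727 / 100))) ≤ 108 / 10 ^ 6 := by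
  rw [Real.exp_neg, inv_le_comm₀ (Real.exp_pos _) (by norm_num)]
  refine le_trans ?_ (ms_exp_lb 9 (x := 9 / 17 * (1727 / 100) - 9) (by norm_num) (by norm_num))
  norm_num

private lemma ms_exp_a : Real.exp (-(1727 / 100 * (1 / 13))) ≤ 27 / 100 := by
  rw [Real.exp_neg, inv_le_comm₀ (Real.exp_pos _) (by norm_num)]
  refine le_trans ?_ (ms_exp_lb 1 (x := 1727 / 1300 - 1) (by norm_num) (by norm_num))
  norm_num

private lemma ms_exp_b : Real.exp (-(1727 / 100 * (1 / 5))) ≤ 4 / 100 := by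
  rw [Real.exp_neg, inv_le_comm₀ (Real.exp_pos _) (by norm_num)]
  refine le_trans ?_ (ms_exp_lb 3 (x := 1727 / 500 - 3) (by norm_num) (by norm_num))
  norm_num

private lemma ms_exp_c : Real.exp (-(1727 / 100 * (2 / 5))) ≤ 2 / 1000 := by
  rw [Real.exp_neg, inv_le_comm₀ (Real.exp_pos _) (by norm_num)]
  refine le_trans ?_ (ms_exp_lb 6 (x := 1727 / 250 - 6) (by norm_num) (by norm_num))
  norm_num

/-- `(τ-1)²/(1+τ²)` increases for `τ ≥ 1`; the saddle is at `t ≤ 1` -/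
private lemma ms_phi {t c τ : ℝ} (ht : t ≤ 1) (hc : 1 ≤ c) (hτ : c ≤ τ) :
    (c - 1) ^ 2 / (1 + c ^ 2) ≤ (τ - t) ^ 2 / (1 + τ ^ 2) := by
  have h1 : (τ - 1) ^ 2 ≤ (τ - t) ^ 2 := pow_le_pow_left₀ (by linarith) (by linarith) 2
  have h2 : (c - 1) ^ 2 / (1 + c ^ 2) ≤ (τ - 1) ^ 2 / (1 + τ ^ 2) := by
    rw [div_le_div_iff₀ (by positivity) (by positivity)]
    have h3 : 0 ≤ (c * τ - 1) * (τ - c) := by
      apply mul_nonneg _ (by linarith)
      nlinarith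
    nlinarith
  refine h2.trans ?_
  exact div_le_div_of_nonneg_right h1 (by positivity)

private lemma ms_Ew_nonneg (n : ℕ) (w τ : ℝ) : 0 ≤ Ew n w τ := (Real.exp_pos _).le

private lemma ms_Ew_le (H : HypS n k w) {c τ : ℝ} (hc : 1 ≤ c) (hτ : c ≤ τ) :
    Ew n w τ ≤ Real.exp (-(PPn n w * ((c - 1) ^ 2 / (1 + c ^ 2)))) := by
  have hP := H.P_ge
  have ht := ts_lt_one H.hw0
  unfold Ew
  apply Real.exp_le_exp.2
  apply neg_le_neg
  rw [mul_div_assoc]
  exact mul_le_mul_of_nonneg_left (ms_phi ht.le hc hτ) (by linarith)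

private lemma ms_Ew_le' (H : HypS n k w) {c τ q : ℝ} (hc : 1 ≤ c) (hτ : c ≤ τ)
    (hq : (c - 1) ^ 2 / (1 + c ^ 2) = q) (hq0 : 0 ≤ q) :
    Ew n w τ ≤ Real.exp (-(1727 / 100 * q)) := by
  refine (ms_Ew_le H hc hτ).trans ?_
  rw [hq]
  apply Real.exp_le_exp.2
  apply neg_le_neg
  exact mul_le_mul_of_nonneg_right H.P_ge hq0

private lemma ms_Ew_neg (H : HypS n k w) {τ : ℝ} (hτ : 0 ≤ τ) :
    Ew n w (-τ) ≤ Real.exp (-(PPn n w * ts w ^ 2)) := by
  have hP := H.P_ge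
  have ht := ts_lt_one H.hw0
  have ht0 : 0 ≤ ts w := by
    unfold ts
    exact div_nonneg (Real.sqrt_nonneg _) (Real.sqrt_nonneg _)
  unfold Ew
  apply Real.exp_le_exp.2
  apply neg_le_neg
  rw [mul_div_assoc]
  apply mul_le_mul_of_nonneg_left _ (by linarith)
  rw [le_div_iff₀ (by positivity)]
  have h5 : ts w ^ 2 ≤ 1 := by nlinarith
  nlinarith [mul_nonneg (sq_nonneg τ) (sub_nonneg.2 h5), mul_nonneg hτ ht0]

private lemma ms_Ew_cont : Continuous fun τ : ℝ => Ew n w τ := by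
  unfold Ew
  refine Real.continuous_exp.comp (Continuous.neg ?_)
  exact Continuous.div (by fun_prop) (by fun_prop) fun τ => by positivity

private lemma ms_piece (H : HypS n k w) {c d q B : ℝ} (hc : 1 ≤ c) (hcd : c ≤ d)
    (hq : (c - 1) ^ 2 / (1 + c ^ 2) = q) (hq0 : 0 ≤ q)
    (hB : Real.exp (-(1727 / 100 * q)) ≤ B) :
    ∫ τ in c..d, Ew n w τ ≤ (d - c) * B := by
  have h1 : ∫ τ in c..d, Ew n w τ ≤ ∫ _τ in c..d, B := by
    refine intervalIntegral.integral_mono_on hcd (ms_Ew_cont.intervalIntegrable _ _)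
      intervalIntegrable_const ?_
    intro τ hτ
    exact (ms_Ew_le' H hc hτ.1 hq hq0).trans hB
  rwa [intervalIntegral.integral_const, smul_eq_mul] at h1

/-- `∫_0^4 E ≤ 0.947` -/
private lemma ms_int4 (H : HypS n k w) : ∫ τ in (0 : ℝ)..4, Ew n w τ ≤ 947 / 1000 := by
  have hP := H.P_ge
  have hi : ∀ a b : ℝ, IntervalIntegrable (Ew n w) volume a b :=
    fun a b => ms_Ew_cont.intervalIntegrable a b
  have h1 : ∫ τ in (0 : ℝ)..(3 / 2), Ew n w τ ≤ 7695 / 10000 := by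
    refine (H.integral_Ew_le le_rfl (by norm_num)).trans ?_
    apply Real.sqrt_le_iff.2
    refine ⟨by norm_num, ?_⟩
    rw [div_le_iff₀ (by linarith)]
    have := Real.pi_lt_d4
    nlinarith
  have h2 := ms_piece H (c := 3 / 2) (d := 2) (q := 1 / 13) (by norm_num) (by norm_num)
    (by norm_num) (by norm_num) ms_exp_a
  have h3 := ms_piece H (c := 2) (d := 3) (q := 1 / 5) (by norm_num) (by norm_num)
    (by norm_num) (by norm_num) ms_exp_b
  have h4 := ms_piece H (c := 3) (d := 4) (q := 2 / 5) (by norm_num) (by norm_num)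
    (by norm_num) (by norm_num) ms_exp_c
  have s1 := intervalIntegral.integral_add_adjacent_intervals (hi 0 (3 / 2)) (hi (3 / 2) 2)
  have s2 := intervalIntegral.integral_add_adjacent_intervals (hi 0 2) (hi 2 3)
  have s3 := intervalIntegral.integral_add_adjacent_intervals (hi 0 3) (hi 3 4)
  linarith

/-- `√(σ/(π|V|)) ≤ 0.1153` -/
private lemma ms_kappa (H : HypS n k w) (hV : 0 < ‖VV w‖) :
    Real.sqrt (sg n w) / Real.sqrt (Real.pi * ‖VV w‖) ≤ 1153 / 10000 := by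
  have hP := H.P_ge
  have hw0 := H.hw0
  have hw1 := H.hw1
  have h1 := H.sg_div_w_le
  have h2 := norm_VV_ge hw0 hw1
  have hσ := H.sg_pos
  have hpi := Real.pi_gt_d4
  rw [← Real.sqrt_div hσ.le]
  apply Real.sqrt_le_iff.2
  refine ⟨by norm_num, ?_⟩
  rw [div_le_iff₀ (by positivity)]
  -- `σ ≤ (41/32) w / P`
  have h3 : sg n w * PPn n w ≤ 41 / 32 * w := by
    have e : sg n w / w * PPn n w = sg n w * PPn n w / w := by ring
    rw [e, div_le_iff₀ hw0] at h1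
    nlinarith
  have h4 : sg n w * (1727 / 100) ≤ 41 / 32 * w := by
    have : sg n w * (1727 / 100) ≤ sg n w * PPn n w := mul_le_mul_of_nonneg_left hP hσ.le
    linarith
  have h5 : (31415 / 10000 : ℝ) * (16 / 9 * w) ≤ Real.pi * ‖VV w‖ :=
    mul_le_mul (by linarith) h2 (by positivity) (by positivity)
  nlinarith

private lemma ms_sqrt_X (H : HypS n k w) :
    Real.sqrt (‖VV w‖ / (Real.pi * sg n w)) ≤ 82 / 100 * Real.sqrt (PPn n w) := by
  have hP := H.P_ge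
  have hw0 := H.hw0
  have hw1 := H.hw1
  have h1 := H.le_sg_div_w
  have h2 := norm_VV_le hw0 hw1
  have hσ := H.sg_pos
  have hpi := Real.pi_gt_d4
  have e : (82 / 100 : ℝ) * Real.sqrt (PPn n w) = Real.sqrt ((82 / 100) ^ 2 * PPn n w) := by
    rw [Real.sqrt_mul (by norm_num), Real.sqrt_sq (by norm_num)]
  rw [e]
  apply Real.sqrt_le_sqrt
  rw [div_le_iff₀ (by positivity)]
  have h3 : w ≤ sg n w * PPn n w := by
    have e : sg n w / w * PPn n w = sg n w * PPn n w / w := by ring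
    rw [e, le_div_iff₀ hw0] at h1
    linarith
  have h4 : 0 ≤ sg n w * PPn n w := by
    have : 0 < PPn n w := by linarith
    positivity
  have h5 : (31415 / 10000 : ℝ) * (sg n w * PPn n w) ≤ Real.pi * (sg n w * PPn n w) :=
    mul_le_mul_of_nonneg_right (by linarith) h4
  nlinarith

private lemma ms_sqrtP {P : ℝ} (hP : 1727 / 100 ≤ P) : Real.sqrt P ≤ P / (415 / 100) := by
  apply Real.sqrt_le_iff.2
  constructor
  · positivity
  · rw [div_pow, le_div_iff₀ (by norm_num)]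
    nlinarith

private lemma ms_right (H : HypS n k w) :
    Real.sqrt (PPn n w) * Real.exp (-(PPn n w * (9 / 17))) ≤ 45 / 10 ^ 5 := by
  have hP := H.P_ge
  have h1 := ms_sqrtP hP
  have h2 := ms_mul_exp (c := 9 / 17) (z0 := 1727 / 100) (z := PPn n w) (by norm_num)
    (by norm_num) hP
  have h3 := ms_exp_914
  have e : Real.exp (-(PPn n w * (9 / 17))) = Real.exp (-(9 / 17 * PPn n w)) := by ring_nf
  rw [e]
  have h4 : Real.sqrt (PPn n w) * Real.exp (-(9 / 17 * PPn n w)) ≤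
      PPn n w / (415 / 100) * Real.exp (-(9 / 17 * PPn n w)) :=
    mul_le_mul_of_nonneg_right h1 (Real.exp_pos _).le
  have h5 : PPn n w / (415 / 100) * Real.exp (-(9 / 17 * PPn n w)) =
      (PPn n w * Real.exp (-(9 / 17 * PPn n w))) / (415 / 100) := by ring
  rw [h5] at h4
  have h6 : (PPn n w * Real.exp (-(9 / 17 * PPn n w))) / (415 / 100) ≤
      (1727 / 100 * (108 / 10 ^ 6)) / (415 / 100) := by
    apply div_le_div_of_nonneg_right _ (by norm_num)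
    refine h2.trans ?_
    exact mul_le_mul_of_nonneg_left h3 (by norm_num)
  refine h4.trans (h6.trans ?_)
  norm_num

private lemma ms_left (H : HypS n k w) :
    Real.sqrt (PPn n w) * Real.exp (-(PPn n w * ts w ^ 2)) ≤ 32 / 10 ^ 6 := by
  have hP := H.P_ge
  have hz := H.P_mul_ts_sq
  have ht := ts_ge_small H.hw0 H.hw1
  have ht2 : 23 / 32 ≤ ts w := by linarith [H.hw1]
  have h1 := ms_sqrtP hP
  set z := PPn n w * ts w ^ 2 with hzdef
  have h2 : PPn n w * (51 / 100) ≤ z := by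
    rw [hzdef]
    have : (51 / 100 : ℝ) ≤ ts w ^ 2 := by nlinarith
    exact mul_le_mul_of_nonneg_left this (by linarith)
  have h3 := ms_mul_exp (c := 1) (z0 := 124 / 10) (z := z) (by norm_num) (by norm_num) hz
  rw [one_mul, one_mul] at h3
  have h4 := ms_exp_124
  have h5 : Real.sqrt (PPn n w) ≤ z / 2 := by
    have : PPn n w / (415 / 100) ≤ z / 2 := by
      rw [div_le_div_iff₀ (by norm_num) (by norm_num)]
      linarith
    linarith
  have h6 : Real.sqrt (PPn n w) * Real.exp (-z) ≤ z / 2 * Real.exp (-z) :=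
    mul_le_mul_of_nonneg_right h5 (Real.exp_pos _).le
  have h7 : z / 2 * Real.exp (-z) ≤ (124 / 10 * (5 / 10 ^ 6)) / 2 := by
    have : z / 2 * Real.exp (-z) = (z * Real.exp (-z)) / 2 := by ring
    rw [this]
    apply div_le_div_of_nonneg_right _ (by norm_num)
    refine h3.trans ?_
    exact mul_le_mul_of_nonneg_left h4 (by norm_num)
  refine h6.trans (h7.trans ?_)
  norm_num

private lemma ms_part1 (H : HypS n k w) (hV : 0 < ‖VV w‖) :
    1 / Real.sqrt (Real.pi * ‖VV w‖) *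
      (Real.sqrt (sg n w) * Ew n w 0 + Real.sqrt (sg n w * Real.sqrt (1 + 4 ^ 2)) * Ew n w 4) ≤
      1 / 10000 := by
  have hk := ms_kappa H hV
  have hσ := H.sg_pos
  have hz := H.P_mul_ts_sq
  have hE0 : Ew n w 0 ≤ 5 / 10 ^ 6 := by
    have := ms_Ew_neg H (τ := 0) le_rfl
    rw [neg_zero] at this
    refine this.trans ?_
    refine le_trans (Real.exp_le_exp.2 ?_) ms_exp_124
    linarith
  have hE4 : Ew n w 4 ≤ 108 / 10 ^ 6 := by
    have := ms_Ew_le' H (c := 4) (τ := 4) (q := 9 / 17) (by norm_num) le_rfl (by norm_num)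
      (by norm_num)
    refine this.trans ?_
    rw [mul_comm]
    exact ms_exp_914
  have h17 : Real.sqrt (Real.sqrt (1 + 4 ^ 2)) ≤ 204 / 100 := by
    apply Real.sqrt_le_iff.2
    refine ⟨by norm_num, ?_⟩
    apply Real.sqrt_le_iff.2
    refine ⟨by norm_num, by norm_num⟩
  rw [Real.sqrt_mul hσ.le]
  set κ := Real.sqrt (sg n w) / Real.sqrt (Real.pi * ‖VV w‖) with hκ
  have hκ0 : 0 ≤ κ := by rw [hκ]; positivity
  have e : 1 / Real.sqrt (Real.pi * ‖VV w‖) *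
      (Real.sqrt (sg n w) * Ew n w 0 +
        Real.sqrt (sg n w) * Real.sqrt (Real.sqrt (1 + 4 ^ 2)) * Ew n w 4) =
      κ * (Ew n w 0 + Real.sqrt (Real.sqrt (1 + 4 ^ 2)) * Ew n w 4) := by
    rw [hκ]; ring
  rw [e]
  have h1 : Real.sqrt (Real.sqrt (1 + 4 ^ 2)) * Ew n w 4 ≤ 204 / 100 * (108 / 10 ^ 6) :=
    mul_le_mul h17 hE4 (ms_Ew_nonneg _ _ _) (by norm_num)
  have h2 : 0 ≤ Ew n w 0 + Real.sqrt (Real.sqrt (1 + 4 ^ 2)) * Ew n w 4 := by
    have := ms_Ew_nonneg n w 0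
    have := ms_Ew_nonneg n w 4
    positivity
  calc κ * (Ew n w 0 + Real.sqrt (Real.sqrt (1 + 4 ^ 2)) * Ew n w 4)
      ≤ 1153 / 10000 * (5 / 10 ^ 6 + 204 / 100 * (108 / 10 ^ 6)) :=
        mul_le_mul hk (add_le_add hE0 h1) h2 (by norm_num)
    _ ≤ _ := by norm_num

private lemma ms_part2 (H : HypS n k w) :
    Real.sqrt (‖VV w‖ / (Real.pi * sg n w)) *
      ((∫ τ in Set.Iic (0 : ℝ), (1 + τ ^ 2) ^ (-(3 / 4) : ℝ) * Ew n w τ) +
        ∫ τ in Set.Ioi (4 : ℝ), (1 + τ ^ 2) ^ (-(3 / 4) : ℝ) * Ew n w τ) ≤ 14 / 10000 := by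
  have hX := ms_sqrt_X H
  have hl := ms_left H
  have hr := ms_right H
  have hI : ∫ τ in Set.Iic (0 : ℝ), (1 + τ ^ 2) ^ (-(3 / 4) : ℝ) * Ew n w τ =
      ∫ τ in Set.Ioi (0 : ℝ), (1 + τ ^ 2) ^ (-(3 / 4) : ℝ) * Ew n w (-τ) := by
    have h := integral_comp_neg_Iic (0 : ℝ)
      (fun τ : ℝ => (1 + τ ^ 2) ^ (-(3 / 4) : ℝ) * Ew n w (-τ))
    simp only [neg_neg, neg_sq, neg_zero] at h
    exact h
  have h1 : ∫ τ in Set.Iic (0 : ℝ), (1 + τ ^ 2) ^ (-(3 / 4) : ℝ) * Ew n w τ ≤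
      17 / 5 * Real.exp (-(PPn n w * ts w ^ 2)) := by
    rw [hI]
    refine ms_tail le_rfl (Real.exp_pos _).le (fun x _ => ms_Ew_nonneg _ _ _) ?_
    intro x hx
    exact ms_Ew_neg H hx.le
  have h2 : ∫ τ in Set.Ioi (4 : ℝ), (1 + τ ^ 2) ^ (-(3 / 4) : ℝ) * Ew n w τ ≤
      17 / 5 * Real.exp (-(PPn n w * (9 / 17))) := by
    refine ms_tail (by norm_num) (Real.exp_pos _).le (fun x _ => ms_Ew_nonneg _ _ _) ?_
    intro x hx
    have := ms_Ew_le H (c := 4) (τ := x) (by norm_num) hx.le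
    rwa [show ((4 : ℝ) - 1) ^ 2 / (1 + 4 ^ 2) = 9 / 17 by norm_num] at this
  have hs := Real.sqrt_nonneg (‖VV w‖ / (Real.pi * sg n w))
  set el := Real.exp (-(PPn n w * ts w ^ 2)) with hel
  set er := Real.exp (-(PPn n w * (9 / 17))) with her
  have hel0 : 0 < el := Real.exp_pos _
  have her0 : 0 < er := Real.exp_pos _
  calc Real.sqrt (‖VV w‖ / (Real.pi * sg n w)) *
      ((∫ τ in Set.Iic (0 : ℝ), (1 + τ ^ 2) ^ (-(3 / 4) : ℝ) * Ew n w τ) +
        ∫ τ in Set.Ioi (4 : ℝ), (1 + τ ^ 2) ^ (-(3 / 4) : ℝ) * Ew n w τ)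
      ≤ Real.sqrt (‖VV w‖ / (Real.pi * sg n w)) * (17 / 5 * el + 17 / 5 * er) :=
        mul_le_mul_of_nonneg_left (add_le_add h1 h2) hs
    _ ≤ 82 / 100 * Real.sqrt (PPn n w) * (17 / 5 * el + 17 / 5 * er) :=
        mul_le_mul_of_nonneg_right hX (by positivity)
    _ = 82 / 100 * (17 / 5) * (Real.sqrt (PPn n w) * el + Real.sqrt (PPn n w) * er) := by ring
    _ ≤ 82 / 100 * (17 / 5) * (32 / 10 ^ 6 + 45 / 10 ^ 5) :=
        mul_le_mul_of_nonneg_left (add_le_add hl hr) (by norm_num)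
    _ ≤ _ := by norm_num

private lemma ms_part3 (H : HypS n k w) (hV : 0 < ‖VV w‖) :
    1 / (2 * Real.sqrt (Real.pi * ‖VV w‖)) * Real.sqrt (sg n w) *
      (∫ τ in (0 : ℝ)..4, Ew n w τ) ≤ 547 / 10000 := by
  have hk := ms_kappa H hV
  have hi := ms_int4 H
  have hi0 : 0 ≤ ∫ τ in (0 : ℝ)..4, Ew n w τ :=
    intervalIntegral.integral_nonneg (by norm_num) fun τ _ => ms_Ew_nonneg _ _ _
  set κ := Real.sqrt (sg n w) / Real.sqrt (Real.pi * ‖VV w‖) with hκ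
  have e : 1 / (2 * Real.sqrt (Real.pi * ‖VV w‖)) * Real.sqrt (sg n w) *
      (∫ τ in (0 : ℝ)..4, Ew n w τ) = 1 / 2 * (κ * ∫ τ in (0 : ℝ)..4, Ew n w τ) := by
    rw [hκ]
    ring
  rw [e]
  have h1 : κ * (∫ τ in (0 : ℝ)..4, Ew n w τ) ≤ 1153 / 10000 * (947 / 1000) :=
    mul_le_mul hk hi hi0 (by norm_num)
  linarith

theorem eMod_le_S (H : HypS n k w) : eMod n w 4 ≤ 6 / 100 := by
  have hw0 := H.hw0
  have hw1 := H.hw1
  have hV : 0 < ‖VV w‖ := lt_of_lt_of_le (by positivity) (norm_VV_ge hw0 hw1)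
  have h1 := ms_part1 H hV
  have h2 := ms_part2 H
  have h3 := ms_part3 H hV
  have h4 : Real.exp (-(4 * PPn n w)) ≤ 1 / 10000 := by
    have hP := H.P_ge
    refine le_trans (Real.exp_le_exp.2 (by linarith : -(4 * PPn n w) ≤ -(124 / 10))) ?_
    refine ms_exp_124.trans ?_
    norm_num
  unfold eMod
  linarith

end Pool.Agent.Lib.Durfee
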