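import Pool.Agent.Lib.MP_9393b1_co.HypS
import Pool.Agent.Lib.MP_9393b1_co.ModA

/-! # Regime S: the phase -/

set_option autoImplicit false

namespace Pool.Agent.Lib.Durfee

open Complex MeasureTheory Filter Topology

variable {n k : ℕ} {w : ℝ}

/-- cosine of the difference of two angles with tangents `t ∈ [23/32, 1]`, `s ∈ [√2-1, 1]` -/
private lemma msb_phase {t s : ℝ} (ht : 23 / 32 ≤ t) (ht1 : t ≤ 1) (hs : 0 ≤ s) (hs1 : s ≤ 1)
    (hs2 : 1 ≤ s ^ 2 + 2 * s) :
    (92 / 100) ^ 2 * ((1 + t ^ 2) * (1 + s ^ 2)) ≤ (1 + t * s) ^ 2 := by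
  have hs3 : 0.4142 ≤ s := by nlinarith
  have h0 : 0 ≤ t * s := mul_nonneg (by linarith) hs
  have hid : (1 + t ^ 2) * (1 + s ^ 2) = (1 + t * s) ^ 2 + (t - s) ^ 2 := by ring
  rw [hid]
  have h1 : t - s ≤ 426 / 1000 * (1 + t * s) := by
    -- `426/1000 (1 + t s) - t + s` is decreasing in `t`, increasing in `s`
    have e1 : 0 ≤ (1 - t) * (1 - 426 / 1000 * s) := mul_nonneg (by linarith) (by linarith)
    nlinarith
  have h2 : s - t ≤ 426 / 1000 * (1 + t * s) := by
    have e1 : 0 ≤ (1 - s) * (1 - 426 / 1000 * t) := mul_nonneg (by linarith) (by linarith)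
    nlinarith
  have h3 : (t - s) ^ 2 ≤ (426 / 1000 * (1 + t * s)) ^ 2 := by
    apply sq_le_sq'
    · linarith
    · exact h1
  nlinarith [sq_nonneg (1 + t * s)]

theorem re_Mcx_S (H : HypS n k w) : 92 / 100 * Mamp n w ≤ (-1 : ℝ) ^ k * (Mcx n w).re := by
  have hw0 := H.hw0
  have hw1 := H.hw1
  have hk := H.hb
  have hpi := Real.pi_pos
  have ha := aa_pos hw0
  have hb := bb_pos hw0
  have hR := H.R_ge
  have hR0 : 0 < Real.sqrt n := by linarith
  have hn : (0 : ℝ) < n := Real.sqrt_pos.1 hR0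
  -- the exponential
  have hexp : exp (2 * Real.sqrt n * ((aa w : ℂ) + (bb w : ℂ) * I)) =
      ((Real.exp (2 * PPn n w) * (-1) ^ k : ℝ) : ℂ) := by
    have h1 : (2 * Real.sqrt n * ((aa w : ℂ) + (bb w : ℂ) * I) : ℂ) =
        ((2 * PPn n w : ℝ) : ℂ) + (k : ℂ) * (Real.pi * I) := by
      rw [hk]
      unfold PPn
      push_cast
      have : ((Real.sqrt n : ℝ) : ℂ) ≠ 0 := by exact_mod_cast hR0.ne'
      field_simp
    rw [h1, Complex.exp_add, Complex.exp_nat_mul, Complex.exp_pi_mul_I]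
    push_cast
    rfl
  -- the root of `2γ`
  set c : ℂ := (2 * gam w) ^ (1 / 2 : ℂ) with hc
  have hg := gam_eq w
  have hgR := gR_pos hw0
  have hgI := gI_pos hw0
  have hgIR : gR w ≤ gI w := by
    unfold gI gR
    apply div_le_div_of_nonneg_right _ (by positivity)
    nlinarith
  have hre : (2 * gam w).re = 2 * gR w := by
    rw [hg]; simp
  have him : (2 * gam w).im = 2 * gI w := by
    rw [hg]; simp
  have hne : (2 * gam w) ≠ 0 := by
    intro h
    rw [h] at hre
    simp at hre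
    linarith
  have hcsq : c ^ 2 = 2 * gam w := by
    rw [hc, ← Complex.cpow_nat_mul]
    norm_num
  have hcre : 0 < c.re := by
    rw [hc, Complex.cpow_def_of_ne_zero hne, Complex.exp_re]
    apply mul_pos (Real.exp_pos _)
    have h1 : (Complex.log (2 * gam w) * (1 / 2 : ℂ)).im = (2 * gam w).arg / 2 := by
      rw [show (Complex.log (2 * gam w) * (1 / 2 : ℂ)) =
        ((1 / 2 : ℝ) : ℂ) * Complex.log (2 * gam w) by push_cast; ring, Complex.im_ofReal_mul,
        Complex.log_im]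
      ring
    rw [h1]
    have h2 := Complex.abs_arg_lt_pi_div_two_iff.2 (Or.inl (by rw [hre]; positivity) :
      0 < (2 * gam w).re ∨ 2 * gam w = 0)
    obtain ⟨h3, h4⟩ := abs_lt.1 h2
    apply Real.cos_pos_of_mem_Ioo
    constructor <;> linarith
  have hpq1 : c.re ^ 2 - c.im ^ 2 = 2 * gR w := by
    rw [← hre, ← hcsq, sq c, Complex.mul_re]
    ring
  have hpq2 : 2 * c.re * c.im = 2 * gI w := by
    rw [← him, ← hcsq, sq c, Complex.mul_im]
    ring
  have hcim : 0 < c.im := by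
    by_contra h
    push Not at h
    have : 2 * c.re * c.im ≤ 0 := mul_nonpos_of_nonneg_of_nonpos (by positivity) h
    linarith
  have hN : Complex.normSq c = 2 * ‖gam w‖ := by
    rw [Complex.normSq_eq_norm_sq, ← norm_pow, hcsq, norm_mul]
    simp
  have hN2 : Complex.normSq c = c.re ^ 2 + c.im ^ 2 := by
    rw [Complex.normSq_apply]; ring
  have hN0 : 0 < Complex.normSq c := by rw [hN2]; positivity
  set z : ℂ := ((aa w : ℂ) + (bb w : ℂ) * I) / c with hz
  have hzre : z.re = (aa w * c.re + bb w * c.im) / Complex.normSq c := by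
    rw [hz, Complex.div_re]
    simp only [Complex.add_re, Complex.ofReal_re, Complex.mul_re, Complex.I_re, mul_zero,
      Complex.ofReal_im, Complex.I_im, mul_one, sub_self, add_zero, Complex.add_im, Complex.mul_im,
      zero_add]
    ring
  have hM : (-1 : ℝ) ^ k * (Mcx n w).re = 1 / (Real.pi * n) * z.re * Real.exp (2 * PPn n w) := by
    unfold Mcx
    rw [hexp, ← hc, ← hz]
    have h1 : (1 / (Real.pi * n) * z * ((Real.exp (2 * PPn n w) * (-1) ^ k : ℝ) : ℂ) : ℂ) =
        ((1 / (Real.pi * n) * (Real.exp (2 * PPn n w) * (-1) ^ k) : ℝ) : ℂ) * z := by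
      push_cast
      ring
    rw [h1, Complex.re_ofReal_mul]
    have h2 : ((-1 : ℝ) ^ k) * (-1) ^ k = 1 := by
      rw [← mul_pow]; norm_num
    calc (-1 : ℝ) ^ k * (1 / (Real.pi * n) * (Real.exp (2 * PPn n w) * (-1) ^ k) * z.re)
        = (((-1 : ℝ) ^ k) * (-1) ^ k) * (1 / (Real.pi * n) * z.re * Real.exp (2 * PPn n w)) := by
          ring
      _ = _ := by rw [h2, one_mul]
  have hzz : 92 / 100 * Real.sqrt (‖VV w‖ / (2 * ‖gam w‖)) ≤ z.re := by
    rw [norm_VV hw0, ← hN, hzre]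
    have hq0 : 0 ≤ (aa w * c.re + bb w * c.im) / Complex.normSq c := by positivity
    have h1 : 92 / 100 * Real.sqrt ((aa w ^ 2 + bb w ^ 2) / Complex.normSq c) =
        Real.sqrt ((92 / 100) ^ 2 * ((aa w ^ 2 + bb w ^ 2) / Complex.normSq c)) := by
      rw [Real.sqrt_mul (by positivity), Real.sqrt_sq (by norm_num)]
    rw [h1]
    apply Real.sqrt_le_iff.2 ⟨hq0, ?_⟩
    have ht := ts_ge_small hw0 hw1
    have ht1 := ts_lt_one hw0
    have hs0 : 0 < c.im / c.re := by positivity
    have hs1 : c.im / c.re ≤ 1 := by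
      rw [div_le_one hcre]
      by_contra h
      push Not at h
      have : c.re ^ 2 < c.im ^ 2 := by nlinarith
      linarith
    have hs2 : 1 ≤ (c.im / c.re) ^ 2 + 2 * (c.im / c.re) := by
      have : (c.im / c.re) ^ 2 + 2 * (c.im / c.re) =
          (c.im ^ 2 + 2 * c.re * c.im) / c.re ^ 2 := by
        field_simp
      rw [this, one_le_div (by positivity)]
      linarith
    have hph := msb_phase (t := ts w) (by linarith) ht1.le hs0.le hs1 hs2
    have e1 : aa w ^ 2 + bb w ^ 2 = aa w ^ 2 * (1 + ts w ^ 2) := by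
      unfold ts
      field_simp
    have e2 : Complex.normSq c = c.re ^ 2 * (1 + (c.im / c.re) ^ 2) := by
      rw [hN2]
      field_simp
    have e3 : aa w * c.re + bb w * c.im = aa w * c.re * (1 + ts w * (c.im / c.re)) := by
      unfold ts
      field_simp
    rw [div_pow (aa w * c.re + bb w * c.im), ← mul_div_assoc, div_le_div_iff₀ hN0 (by positivity)]
    have h5 : (92 / 100) ^ 2 * (aa w ^ 2 + bb w ^ 2) * Complex.normSq c ≤
        (aa w * c.re + bb w * c.im) ^ 2 := by
      rw [e1, e3]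
      nth_rewrite 1 [e2]
      calc (92 / 100) ^ 2 * (aa w ^ 2 * (1 + ts w ^ 2)) * (c.re ^ 2 * (1 + (c.im / c.re) ^ 2))
          = (aa w * c.re) ^ 2 *
            ((92 / 100) ^ 2 * ((1 + ts w ^ 2) * (1 + (c.im / c.re) ^ 2))) := by ring
        _ ≤ (aa w * c.re) ^ 2 * (1 + ts w * (c.im / c.re)) ^ 2 :=
            mul_le_mul_of_nonneg_left hph (by positivity)
        _ = _ := by ring
    calc (92 / 100) ^ 2 * (aa w ^ 2 + bb w ^ 2) * Complex.normSq c ^ 2
        = ((92 / 100) ^ 2 * (aa w ^ 2 + bb w ^ 2) * Complex.normSq c) * Complex.normSq c := by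
          ring
      _ ≤ _ := mul_le_mul_of_nonneg_right h5 hN0.le
  rw [hM]
  unfold Mamp
  calc 92 / 100 * (1 / (Real.pi * n) * Real.sqrt (‖VV w‖ / (2 * ‖gam w‖)) *
        Real.exp (2 * PPn n w))
      = 1 / (Real.pi * n) * (92 / 100 * Real.sqrt (‖VV w‖ / (2 * ‖gam w‖))) *
        Real.exp (2 * PPn n w) := by ring
    _ ≤ _ := by
        apply mul_le_mul_of_nonneg_right _ (Real.exp_pos _).le
        exact mul_le_mul_of_nonneg_left hzz (by positivity)

end Pool.Agent.Lib.Durfee
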