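import Pool.Agent.Lib.MP_9393b1_co.OffS

/-! # Regime S: off the window, `0 ≤ τ ≤ 20` -/

set_option autoImplicit false

namespace Pool.Agent.Lib.Durfee

open Complex MeasureTheory Filter Topology

variable {n k : ℕ} {w : ℝ}

private theorem offSN_cos {θ : ℝ} (hθ : 5 * Real.pi / 12 ≤ |θ|) (hθ2 : |θ| ≤ Real.pi) :
    Real.cos θ ≤ 25882 / 100000 := by
  have hpi := Real.pi_pos
  have h1 : Real.cos θ ≤ Real.cos (5 * Real.pi / 12) := by
    rw [← Real.cos_abs θ]
    exact Real.cos_le_cos_of_nonneg_of_le_pi (by positivity) hθ2 hθ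
  have h2 : Real.cos (5 * Real.pi / 12) ^ 2 = 1 / 2 + Real.cos (2 * (5 * Real.pi / 12)) / 2 :=
    Real.cos_sq _
  have h3 : Real.cos (2 * (5 * Real.pi / 12)) = -(Real.sqrt 3 / 2) := by
    rw [show 2 * (5 * Real.pi / 12) = Real.pi - Real.pi / 6 by ring, Real.cos_pi_sub,
      Real.cos_pi_div_six]
  have h4 : (1.73205 : ℝ) ≤ Real.sqrt 3 := by
    apply Real.le_sqrt_of_sq_le
    norm_num
  have h5 : Real.cos (5 * Real.pi / 12) ≤ 25882 / 100000 := by
    apply le_of_sq_le_sq _ (by norm_num)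
    rw [h2, h3]
    norm_num
    linarith
  linarith

private theorem offSN_e (k : ℕ) : (2.718 : ℝ) ^ k ≤ Real.exp k := by
  have h1 := Real.exp_one_gt_d9
  have h2 : Real.exp (k : ℝ) = Real.exp 1 ^ k := by
    rw [← Real.exp_nat_mul]
    norm_num
  rw [h2]
  exact pow_le_pow_left₀ (by norm_num) (by linarith) k

private theorem offSN_n (H : HypS n k w) : 1 ≤ n := by
  have := H.hn
  omega

private theorem offSN_rect {a b C : ℝ} {f : ℝ → ℝ} (hab : a ≤ b)
    (h0 : ∀ τ, a < τ → τ ≤ b → 0 ≤ f τ) (h : ∀ τ, a < τ → τ ≤ b → f τ ≤ C) :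
    ∫ τ in a..b, f τ ≤ C * (b - a) := by
  have h1 := intervalIntegral.norm_integral_le_of_norm_le_const (a := a) (b := b) (C := C)
    (f := f) (by
      intro τ hτ
      rw [Set.uIoc_of_le hab] at hτ
      rw [Real.norm_of_nonneg (h0 τ hτ.1 hτ.2)]
      exact h τ hτ.1 hτ.2)
  rw [abs_of_nonneg (sub_nonneg.2 hab)] at h1
  exact (Real.le_norm_self _).trans h1

private theorem offSN_Z1 (H : HypS n k w) {τ : ℝ} (h0 : 0 < τ) (h1 : τ ≤ 20) :
    0 ≤ Z1 w (sg n w) (sg n w * τ) ∧ sg n w * τ ≤ Real.pi ∧ sg n w ≤ 1 / 50 := by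
  have hσ := H.sg_pos
  have hσ1 := H.sg_le
  have hpi := Real.pi_gt_three
  have h2 : sg n w * τ ≤ Real.pi := by nlinarith
  exact ⟨Z1_nonneg_of_le_one H.hw0 H.hw1 hσ (by positivity) h2, h2, by linarith⟩

theorem off_b_S (H : HypS n k w) :
    Kn n w * (∫ τ in (0 : ℝ)..4,
      ((∫ θ in (5 * Real.pi / 12)..Real.pi, NP n w θ τ) +
        ∫ θ in (-Real.pi)..(-(5 * Real.pi / 12)), NP n w θ τ)) ≤ 12 / 1000 := by
  have hpi := Real.pi_pos
  have hw0 := H.hw0
  have hσ := H.sg_pos
  obtain ⟨hy1, hy2⟩ := yb_ge H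
  set y := (gapinf w - 2591 / 10000 * w) / sg n w with hy
  have hpt : ∀ θ τ, 0 < τ → τ ≤ 4 → 5 * Real.pi / 12 ≤ |θ| → |θ| ≤ Real.pi →
      NP n w θ τ ≤ Real.exp (-y) := by
    intro θ τ h0 h4 hθ hθ2
    refine (NP_le_gen (offSN_n H) hw0 θ τ).trans (Real.exp_le_exp.2 ?_)
    obtain ⟨hz0, hβ, hσ1⟩ := offSN_Z1 H h0 (by linarith)
    have hz1 := Z1_le_all (w := w) hw0 hσ hσ1 (by positivity) hβ
    have hc := offSN_cos hθ hθ2
    have h1 : Real.cos θ * Z1 w (sg n w) (sg n w * τ) ≤
        25882 / 100000 * (1001 / 1000 * (w / sg n w)) :=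
      (mul_le_mul_of_nonneg_right hc hz0).trans (mul_le_mul_of_nonneg_left hz1 (by norm_num))
    have h2 : y = gapinf w / sg n w - 2591 / 10000 * (w / sg n w) := by
      rw [hy]; ring
    have h3 : 0 ≤ w / sg n w := by positivity
    rw [h2]
    linarith
  have hin : ∀ τ, 0 < τ → τ ≤ 4 → ((∫ θ in (5 * Real.pi / 12)..Real.pi, NP n w θ τ) +
      ∫ θ in (-Real.pi)..(-(5 * Real.pi / 12)), NP n w θ τ) ≤
      Real.exp (-y) * (7 * Real.pi / 6) := by
    intro τ h0 h4
    have h1 : (∫ θ in (5 * Real.pi / 12)..Real.pi, NP n w θ τ) ≤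
        Real.exp (-y) * (Real.pi - 5 * Real.pi / 12) := by
      apply offSN_rect (by linarith)
      · intro θ _ _; exact NP_nonneg n w θ τ
      · intro θ h1 h2
        have h3 : |θ| = θ := abs_of_pos (by linarith)
        exact hpt θ τ h0 h4 (by rw [h3]; exact h1.le) (by rw [h3]; exact h2)
    have h2 : (∫ θ in (-Real.pi)..(-(5 * Real.pi / 12)), NP n w θ τ) ≤
        Real.exp (-y) * (-(5 * Real.pi / 12) - -Real.pi) := by
      apply offSN_rect (by linarith)
      · intro θ _ _; exact NP_nonneg n w θ τ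
      · intro θ h1 h2
        have h3 : |θ| = -θ := abs_of_neg (by linarith)
        exact hpt θ τ h0 h4 (by rw [h3]; linarith) (by rw [h3]; linarith)
    linarith
  have hout : (∫ τ in (0 : ℝ)..4, ((∫ θ in (5 * Real.pi / 12)..Real.pi, NP n w θ τ) +
      ∫ θ in (-Real.pi)..(-(5 * Real.pi / 12)), NP n w θ τ)) ≤
      Real.exp (-y) * (7 * Real.pi / 6) * (4 - 0) := by
    apply offSN_rect (by norm_num)
    · intro τ _ _
      apply add_nonneg
      · exact intervalIntegral.integral_nonneg (by linarith) (fun θ _ => NP_nonneg n w θ τ)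
      · exact intervalIntegral.integral_nonneg (by linarith) (fun θ _ => NP_nonneg n w θ τ)
    · exact hin
  have hP := H.P_ge
  have hK := H.Kn_le
  have hK0 := H.Kn_nonneg
  have hpi2 := Real.pi_lt_d4
  have hE := Real.exp_pos (-y)
  have hexp : 28700 * (y / (104 / 10)) ≤ Real.exp y := by
    have h1 : y = 104 / 10 + (y - 104 / 10) := by ring
    have h2 := offSN_e 10
    norm_num at h2
    have h3 : (1.48 : ℝ) ≤ Real.exp (4 / 10) := by
      have := Real.quadratic_le_exp_of_nonneg (x := 4 / 10) (by norm_num)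
      linarith
    have h4 : (28700 : ℝ) ≤ Real.exp (104 / 10) := by
      have h5 : (104 : ℝ) / 10 = 10 + 4 / 10 := by norm_num
      rw [h5, Real.exp_add]
      nlinarith [Real.exp_pos 10]
    have h5 := Real.add_one_le_exp (y - 104 / 10)
    calc 28700 * (y / (104 / 10)) ≤ 28700 * (y - 104 / 10 + 1) := by
          apply mul_le_mul_of_nonneg_left _ (by norm_num)
          rw [div_le_iff₀ (by norm_num)]
          nlinarith
      _ ≤ Real.exp (104 / 10) * Real.exp (y - 104 / 10) := by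
          apply mul_le_mul h4 h5 _ (Real.exp_pos _).le
          linarith
      _ = Real.exp y := by rw [← Real.exp_add]; congr 1; ring
  have hEy : Real.exp (-y) * Real.exp y = 1 := by rw [← Real.exp_add]; simp
  calc Kn n w * (∫ τ in (0 : ℝ)..4, ((∫ θ in (5 * Real.pi / 12)..Real.pi, NP n w θ τ) +
        ∫ θ in (-Real.pi)..(-(5 * Real.pi / 12)), NP n w θ τ))
      ≤ Kn n w * (Real.exp (-y) * (7 * Real.pi / 6) * (4 - 0)) :=
        mul_le_mul_of_nonneg_left hout hK0
    _ ≤ (2251 / 10000 * (10 * y)) * (Real.exp (-y) * (7 * Real.pi / 6) * (4 - 0)) := by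
        apply mul_le_mul_of_nonneg_right _ (by positivity)
        linarith
    _ ≤ (2251 / 10000 * (10 * y)) * (Real.exp (-y) * (36653 / 10000) * 4) := by
        apply mul_le_mul_of_nonneg_left _ (by linarith)
        nlinarith
    _ = 33.0023612 * (y * Real.exp (-y)) := by ring
    _ ≤ 12 / 1000 := by
        have h1 : y * Real.exp (-y) ≤ 104 / 10 / 28700 := by
          have h2 := mul_le_mul_of_nonneg_left hexp hE.le
          rw [hEy] at h2
          rw [le_div_iff₀ (by norm_num)]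
          nlinarith
        nlinarith

/-- the `θ`-integral with a bound for `Z1` -/
private theorem offSN_int (H : HypS n k w) {τ A : ℝ} (h0 : 0 < τ) (h1 : τ ≤ 20) (hA : 7 ≤ A)
    (hz : Z1 w (sg n w) (sg n w * τ) ≤ A) :
    ∫ θ in (-Real.pi)..Real.pi, NP n w θ τ ≤
      149 / 100 * Real.exp (-(gapinf w / sg n w - A)) := by
  have hpi := Real.pi_pos
  have hw0 := H.hw0
  have hσ := H.sg_pos
  obtain ⟨hz0, hβ, hσ1⟩ := offSN_Z1 H h0 h1
  have h6 := integral_norm_PP_le (w := w) (σ := sg n w) (β := sg n w * τ) (A := A)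
    hw0 hσ (by linarith) (by rw [abs_of_nonneg hz0]; exact hz)
  unfold NP
  rw [intervalIntegral.integral_const_mul]
  have hB := B0_le (w := w) (σ := sg n w) hw0 hσ
  have h2 : (∫ u in Set.Ioi (0 : ℝ), Real.log (1 + w * Real.exp (-u))) = Phir w := rfl
  rw [h2] at hB
  have hP : PPn n w = aa w ^ 2 / sg n w := by
    rw [eq_div_iff hσ.ne', mul_comm]
    exact H.sg_mul_P
  have h3 : -PPn n w + (B0 w (sg n w) + A) ≤ -(gapinf w / sg n w - A) := by
    rw [hP]
    unfold gapinf
    have h4 : -(aa w ^ 2 / sg n w) + (2 * Phir w - 2 * w / (1 + w)) / sg n w =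
        -((aa w ^ 2 - 2 * Phir w + 2 * w / (1 + w)) / sg n w) := by
      field_simp
      ring
    linarith
  have h5 : Real.pi * Real.sqrt Real.pi / Real.sqrt (2 * A) ≤ 149 / 100 := by
    have hs1 : Real.sqrt Real.pi ≤ 17725 / 10000 := by
      rw [Real.sqrt_le_left (by norm_num)]
      have := Real.pi_lt_d4
      norm_num
      linarith
    have hs2 : (374 / 100 : ℝ) ≤ Real.sqrt (2 * A) := by
      apply Real.le_sqrt_of_sq_le
      norm_num
      linarith
    have hpi2 := Real.pi_lt_d4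
    rw [div_le_iff₀ (by linarith)]
    calc Real.pi * Real.sqrt Real.pi ≤ 3.1416 * (17725 / 10000) :=
          mul_le_mul hpi2.le hs1 (Real.sqrt_nonneg _) (by norm_num)
      _ ≤ 149 / 100 * (374 / 100) := by norm_num
      _ ≤ _ := mul_le_mul_of_nonneg_left hs2 (by norm_num)
  calc Real.exp (-PPn n w) * ∫ θ in (-Real.pi)..Real.pi, ‖PP w θ (ss (sg n w) τ)‖
      ≤ Real.exp (-PPn n w) * (Real.exp (B0 w (sg n w) + A) *
        (Real.pi * Real.sqrt Real.pi / Real.sqrt (2 * A))) :=
        mul_le_mul_of_nonneg_left h6 (Real.exp_pos _).le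
    _ = Real.exp (-PPn n w + (B0 w (sg n w) + A)) *
        (Real.pi * Real.sqrt Real.pi / Real.sqrt (2 * A)) := by
        rw [Real.exp_add (-PPn n w)]; ring
    _ ≤ Real.exp (-(gapinf w / sg n w - A)) * (149 / 100) := by
        apply mul_le_mul (Real.exp_le_exp.2 h3) h5 (by positivity) (Real.exp_pos _).le
    _ = _ := by ring

private theorem offSN_near (H : HypS n k w) {A : ℝ} (hA : 7 ≤ A)
    (hz : ∀ τ, 4 ≤ τ → τ ≤ 8 → Z1 w (sg n w) (sg n w * τ) ≤ A)
    (hy1 : 8 ≤ gapinf w / sg n w - A) (hy2 : 1 / 10 * PPn n w ≤ gapinf w / sg n w - A) :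
    Kn n w * (∫ τ in (4 : ℝ)..8, ∫ θ in (-Real.pi)..Real.pi, NP n w θ τ) ≤ 37 / 1000 := by
  have hpi := Real.pi_pos
  set y := gapinf w / sg n w - A with hy
  have hout : (∫ τ in (4 : ℝ)..8, ∫ θ in (-Real.pi)..Real.pi, NP n w θ τ) ≤
      (149 / 100 * Real.exp (-y)) * (8 - 4) := by
    apply offSN_rect (by norm_num)
    · intro τ _ _
      exact intervalIntegral.integral_nonneg (by linarith) (fun θ _ => NP_nonneg n w θ τ)
    · intro τ h4 h8
      exact offSN_int H (by linarith) (by linarith) hA (hz τ h4.le h8)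
  have hP := H.P_ge
  have hK := H.Kn_le
  have hK0 := H.Kn_nonneg
  have hE := Real.exp_pos (-y)
  have hexp : 2970 * (y / 8) ≤ Real.exp y := by
    have h2 := offSN_e 8
    norm_num at h2
    have h4 : (2970 : ℝ) ≤ Real.exp 8 := by linarith
    have h5 := Real.add_one_le_exp (y - 8)
    calc 2970 * (y / 8) ≤ 2970 * (y - 8 + 1) := by
          apply mul_le_mul_of_nonneg_left _ (by norm_num)
          linarith
      _ ≤ Real.exp 8 * Real.exp (y - 8) := by
          apply mul_le_mul h4 h5 _ (Real.exp_pos _).le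
          linarith
      _ = Real.exp y := by rw [← Real.exp_add]; congr 1; ring
  have hEy : Real.exp (-y) * Real.exp y = 1 := by rw [← Real.exp_add]; simp
  calc Kn n w * (∫ τ in (4 : ℝ)..8, ∫ θ in (-Real.pi)..Real.pi, NP n w θ τ)
      ≤ Kn n w * ((149 / 100 * Real.exp (-y)) * (8 - 4)) :=
        mul_le_mul_of_nonneg_left hout hK0
    _ ≤ (2251 / 10000 * (10 * y)) * ((149 / 100 * Real.exp (-y)) * (8 - 4)) := by
        apply mul_le_mul_of_nonneg_right _ (by positivity)
        linarith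
    _ = 13.41596 * (y * Real.exp (-y)) := by ring
    _ ≤ 37 / 1000 := by
        have h1 : y * Real.exp (-y) ≤ 8 / 2970 := by
          have h2 := mul_le_mul_of_nonneg_left hexp hE.le
          rw [hEy] at h2
          rw [le_div_iff₀ (by norm_num)]
          nlinarith
        nlinarith

theorem off_near_S (H : HypS n k w) :
    Kn n w * (∫ τ in (4 : ℝ)..8, ∫ θ in (-Real.pi)..Real.pi, NP n w θ τ) ≤ 37 / 1000 := by
  have hw0 := H.hw0
  have hw1 := H.hw1
  have hσ := H.sg_pos
  have hP := H.P_ge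
  have hs := H.sg_div_w_le
  have hws : PPn n w ≤ (1 + 9 / 32 * w) * (w / sg n w) := by
    have h1 : sg n w / w * PPn n w * (w / sg n w) = PPn n w := by
      field_simp
    have h2 := mul_le_mul_of_nonneg_right hs (show 0 ≤ w / sg n w by positivity)
    rwa [h1] at h2
  rcases le_total w (1 / 2) with hw | hw
  · obtain ⟨hy1, hy2⟩ := yn_ge H hw
    have he : (gapinf w - 472 / 1000 * w) / sg n w = gapinf w / sg n w - 472 / 1000 * (w / sg n w) := by
      ring
    rw [he] at hy1 hy2
    refine offSN_near H ?_ ?_ hy1 hy2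
    · have h1 : 0 ≤ w / sg n w := by positivity
      nlinarith
    · intro τ h4 h8
      obtain ⟨_, hβ, hσ1⟩ := offSN_Z1 H (by linarith : 0 < τ) (by linarith)
      exact Z1_le_four hw0 hσ hσ1 (by nlinarith) hβ
  · obtain ⟨hy1, hy2⟩ := yn_ge' H hw
    have he : (gapinf w - 1001 / 1000 * (w / (1 + w) ^ 2)) / sg n w =
        gapinf w / sg n w - 1001 / 1000 * (w / ((1 + w) ^ 2 * sg n w)) := by
      field_simp
    rw [he] at hy1 hy2
    refine offSN_near H ?_ ?_ hy1 hy2
    · have h1 : 0 ≤ w / sg n w := by positivity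
      have h2 : 70 ≤ PPn n w := by
        have h3 := H.w_le
        nlinarith
      have h3 : 70 ≤ 1.28125 * (w / sg n w) := by nlinarith
      have h4 : w / sg n w / 4 ≤ w / ((1 + w) ^ 2 * sg n w) := by
        rw [div_div]
        apply div_le_div_of_nonneg_left hw0.le (by positivity)
        rw [mul_comm ((1 + w) ^ 2)]
        apply mul_le_mul_of_nonneg_left _ hσ.le
        nlinarith
      linarith
    · intro τ h4 h8
      obtain ⟨_, hβ, hσ1⟩ := offSN_Z1 H (by linarith : 0 < τ) (by linarith)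
      exact Z1_le_four' hw0 hw1 hσ hσ1 (by nlinarith) hβ

theorem off_mid_S (H : HypS n k w) (hw : w ≤ 1 / 10) :
    Kn n w * (∫ τ in (8 : ℝ)..20, ∫ θ in (-Real.pi)..Real.pi, NP n w θ τ) ≤ 7 / 1000 := by
  have hpi := Real.pi_pos
  have hw0 := H.hw0
  have hσ := H.sg_pos
  have hP := H.P_ge
  have hy := y8_ge_small H hw
  set P := PPn n w with hPdef
  have hpt : ∀ θ τ, 8 ≤ τ → τ ≤ 20 → NP n w θ τ ≤ Real.exp (-(62 / 100 * P)) := by
    intro θ τ h8 h20
    refine (NP_le_gen (offSN_n H) hw0 θ τ).trans (Real.exp_le_exp.2 ?_)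
    obtain ⟨hz0, hβ, hσ1⟩ := offSN_Z1 H (by linarith : 0 < τ) h20
    have hz1 := Z1_le_eight (w := w) hw0 hσ hσ1 (by nlinarith : 8 * sg n w ≤ sg n w * τ) hβ
    have h1 : Real.cos θ * Z1 w (sg n w) (sg n w * τ) ≤ 1 / 4 * (w / sg n w) := by
      have h2 := mul_le_mul_of_nonneg_right (Real.cos_le_one θ) hz0
      linarith
    have h2 : (gapinf w - 1 / 4 * w) / sg n w = gapinf w / sg n w - 1 / 4 * (w / sg n w) := by
      ring
    rw [h2] at hy
    linarith
  have hout : (∫ τ in (8 : ℝ)..20, ∫ θ in (-Real.pi)..Real.pi, NP n w θ τ) ≤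
      (Real.exp (-(62 / 100 * P)) * (Real.pi - -Real.pi)) * (20 - 8) := by
    apply offSN_rect (by norm_num)
    · intro τ _ _
      exact intervalIntegral.integral_nonneg (by linarith) (fun θ _ => NP_nonneg n w θ τ)
    · intro τ h8 h20
      apply offSN_rect (by linarith)
      · intro θ _ _; exact NP_nonneg n w θ τ
      · intro θ _ _; exact hpt θ τ h8.le h20
  have hK := H.Kn_le
  have hK0 := H.Kn_nonneg
  have hpi2 := Real.pi_lt_d4
  set E := Real.exp (-(62 / 100 * P)) with hE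
  have hE0 : 0 < E := Real.exp_pos _
  have hexp : 42000 * (P / (1727 / 100)) ≤ Real.exp (62 / 100 * P) := by
    have h2 := offSN_e 10
    norm_num at h2
    have h3 : (2.002 : ℝ) ≤ Real.exp (7 / 10) := by
      have h4 := Real.sum_le_exp_of_nonneg (x := 7 / 10) (by norm_num) 4
      norm_num [Finset.sum_range_succ, Nat.factorial] at h4
      linarith
    have h4 : (42000 : ℝ) ≤ Real.exp (107 / 10) := by
      have h5 : (107 : ℝ) / 10 = 10 + 7 / 10 := by norm_num
      rw [h5, Real.exp_add]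
      nlinarith [Real.exp_pos 10]
    have h5 := Real.add_one_le_exp (62 / 100 * P - 107 / 10)
    calc 42000 * (P / (1727 / 100)) ≤ 42000 * (62 / 100 * P - 107 / 10 + 1) := by
          apply mul_le_mul_of_nonneg_left _ (by norm_num)
          rw [div_le_iff₀ (by norm_num)]
          nlinarith
      _ ≤ Real.exp (107 / 10) * Real.exp (62 / 100 * P - 107 / 10) := by
          apply mul_le_mul h4 h5 _ (Real.exp_pos _).le
          linarith
      _ = Real.exp (62 / 100 * P) := by rw [← Real.exp_add]; congr 1; ring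
  have hEy : E * Real.exp (62 / 100 * P) = 1 := by rw [hE, ← Real.exp_add]; simp
  calc Kn n w * (∫ τ in (8 : ℝ)..20, ∫ θ in (-Real.pi)..Real.pi, NP n w θ τ)
      ≤ Kn n w * ((E * (Real.pi - -Real.pi)) * (20 - 8)) :=
        mul_le_mul_of_nonneg_left hout hK0
    _ ≤ (2251 / 10000 * P) * ((E * (Real.pi - -Real.pi)) * (20 - 8)) := by
        apply mul_le_mul_of_nonneg_right hK
        have : 0 ≤ Real.pi - -Real.pi := by linarith
        positivity
    _ ≤ (2251 / 10000 * P) * ((E * 6.2832) * 12) := by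
        apply mul_le_mul_of_nonneg_left _ (by linarith)
        nlinarith
    _ = 16.97217984 * (P * E) := by ring
    _ ≤ 7 / 1000 := by
        have h1 : P * E ≤ (1727 / 100) / 42000 := by
          have h2 := mul_le_mul_of_nonneg_left hexp hE0.le
          rw [hEy] at h2
          rw [le_div_iff₀ (by norm_num)]
          nlinarith
        nlinarith

end Pool.Agent.Lib.Durfee
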