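import Pool.Agent.Lib.MP_9393b1_co.ZedA

/-! # `Z1` versus `z1`, sign, mass, integration by parts -/

set_option autoImplicit false

namespace Pool.Agent.Lib.Durfee

open Complex MeasureTheory Filter Topology

private theorem zb_shift (f : ℝ → ℝ) (a b : ℝ) :
    ∫ x in Set.Ioi b, f (x + a) = ∫ v in Set.Ioi (b + a), f v := by
  rw [← integral_indicator measurableSet_Ioi, ← integral_indicator measurableSet_Ioi,
    ← integral_add_right_eq_self (fun x => (Set.Ioi (b + a)).indicator f x) a]
  congr 1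
  ext x
  by_cases h : b < x
  · rw [Set.indicator_of_mem (show x ∈ Set.Ioi b from h),
      Set.indicator_of_mem (show x + a ∈ Set.Ioi (b + a) from add_lt_add_left h a)]
  · rw [Set.indicator_of_notMem (show x ∉ Set.Ioi b from h),
      Set.indicator_of_notMem (show x + a ∉ Set.Ioi (b + a) from fun h' => h (lt_of_add_lt_add_right h'))]

private theorem zb_om_pos (v : ℝ) : 0 < om v := by
  unfold om
  have := Real.cosh_pos v
  positivity

private theorem zb_om_neg (v : ℝ) : om (-v) = om v := by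
  unfold om
  rw [Real.cosh_neg]

private theorem zb_om_continuous : Continuous om :=
  continuous_iff_continuousAt.2 fun v => (hasDerivAt_om v).continuousAt

private theorem zb_om_tendsto : Tendsto om atTop (𝓝 0) := by
  have h1 : Tendsto (fun v : ℝ => 1 + Real.cosh v) atTop atTop := by
    refine tendsto_atTop_mono (fun v => ?_) tendsto_id
    have h2 : Real.cosh v = (Real.exp v + Real.exp (-v)) / 2 := Real.cosh_eq v
    have h3 := Real.quadratic_le_exp_of_nonneg (abs_nonneg v)
    have h4 : Real.exp |v| ≤ Real.exp v + Real.exp (-v) := by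
      rcases abs_cases v with h | h
      · rw [h.1]; linarith [Real.exp_pos (-v)]
      · rw [h.1]; linarith [Real.exp_pos v]
    have h5 := le_abs_self v
    simp only [id]
    nlinarith [sq_nonneg (|v| - 1), sq_abs v]
  have h2 := h1.inv_tendsto_atTop
  refine h2.congr fun v => ?_
  simp [om]

private theorem zb_om'_le (v : ℝ) : |(-Real.sinh v / (1 + Real.cosh v) ^ 2)| ≤ om v := by
  have h1 := Real.cosh_pos v
  have h2 : |Real.sinh v| ≤ 1 + Real.cosh v := by
    have h3 : Real.cosh v ^ 2 = Real.sinh v ^ 2 + 1 := Real.cosh_sq v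
    have h4 : |Real.sinh v| ≤ Real.cosh v := by
      refine abs_le_of_sq_le_sq ?_ h1.le
      nlinarith
    linarith
  rw [abs_div, abs_neg, abs_of_pos (by positivity : 0 < (1 + Real.cosh v) ^ 2), om, div_le_div_iff₀
    (by positivity) (by positivity)]
  nlinarith

private theorem zb_om'_tendsto :
    Tendsto (fun v : ℝ => -Real.sinh v / (1 + Real.cosh v) ^ 2) atTop (𝓝 0) :=
  squeeze_zero_norm zb_om'_le zb_om_tendsto

/-- Double integration by parts. -/
private theorem zb_parts {κ : ℝ} (hκ : 0 < κ) (a : ℝ) :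
    ∫ x in Set.Ioi (0 : ℝ), om (x + a) * Real.sin (κ * x) = om a / κ -
      1 / κ ^ 2 * ∫ x in Set.Ioi (0 : ℝ),
        (Real.cosh (x + a) - 2) / (1 + Real.cosh (x + a)) ^ 2 * Real.sin (κ * x) := by
  have hi1 : Integrable (fun x => om (x + a) * Real.sin (κ * x)) := by
    refine (integrable_om.comp_add_right a).mul_bdd (c := 1) ?_ ?_
    · exact (by fun_prop : Continuous fun x : ℝ => Real.sin (κ * x)).aestronglyMeasurable
    · exact Eventually.of_forall fun x => Real.abs_sin_le_one _
  have hi2 : Integrable (fun x => (Real.cosh (x + a) - 2) / (1 + Real.cosh (x + a)) ^ 2 *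
      Real.sin (κ * x)) := by
    refine (integral_abs_om''.1.comp_add_right a).mul_bdd (c := 1) ?_ ?_
    · exact (by fun_prop : Continuous fun x : ℝ => Real.sin (κ * x)).aestronglyMeasurable
    · exact Eventually.of_forall fun x => Real.abs_sin_le_one _
  have hd : ∀ x ∈ Set.Ici (0:ℝ), HasDerivAt (fun x : ℝ => -(om (x + a) * Real.cos (κ * x)) / κ +
      (-Real.sinh (x + a) / (1 + Real.cosh (x + a)) ^ 2) * Real.sin (κ * x) / κ ^ 2)
      (om (x + a) * Real.sin (κ * x) + 1 / κ ^ 2 *
        ((Real.cosh (x + a) - 2) / (1 + Real.cosh (x + a)) ^ 2 * Real.sin (κ * x))) x := by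
    intro x _
    have h1 : HasDerivAt (fun x : ℝ => om (x + a)) (-Real.sinh (x + a) / (1 + Real.cosh (x + a)) ^ 2) x :=
      (hasDerivAt_om (x + a)).comp_add_const x a
    have h2 : HasDerivAt (fun x : ℝ => -Real.sinh (x + a) / (1 + Real.cosh (x + a)) ^ 2)
        ((Real.cosh (x + a) - 2) / (1 + Real.cosh (x + a)) ^ 2) x :=
      (hasDerivAt_om' (x + a)).comp_add_const x a
    have h3 : HasDerivAt (fun x : ℝ => Real.cos (κ * x)) (-Real.sin (κ * x) * κ) x := by
      have := ((hasDerivAt_id x).const_mul κ).cos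
      simpa using this
    have h4 : HasDerivAt (fun x : ℝ => Real.sin (κ * x)) (Real.cos (κ * x) * κ) x := by
      have := ((hasDerivAt_id x).const_mul κ).sin
      simpa using this
    refine ((((h1.mul h3).neg).div_const κ).add ((h2.mul h4).div_const (κ ^ 2))).congr_deriv ?_
    field_simp
    ring
  have ht : Tendsto (fun x : ℝ => -(om (x + a) * Real.cos (κ * x)) / κ +
      (-Real.sinh (x + a) / (1 + Real.cosh (x + a)) ^ 2) * Real.sin (κ * x) / κ ^ 2) atTop (𝓝 0) := by
    have h0 : Tendsto (fun x : ℝ => x + a) atTop atTop := tendsto_atTop_add_const_right _ _ tendsto_id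
    have h1 : Tendsto (fun x : ℝ => om (x + a) * Real.cos (κ * x)) atTop (𝓝 0) := by
      refine squeeze_zero_norm (fun x => ?_) (zb_om_tendsto.comp h0)
      rw [norm_mul, Real.norm_eq_abs, Real.norm_eq_abs, abs_of_pos (zb_om_pos _)]
      exact mul_le_of_le_one_right (zb_om_pos _).le (Real.abs_cos_le_one _)
    have h2 : Tendsto (fun x : ℝ => (-Real.sinh (x + a) / (1 + Real.cosh (x + a)) ^ 2) *
        Real.sin (κ * x)) atTop (𝓝 0) := by
      refine squeeze_zero_norm (fun x => ?_) (zb_om_tendsto.comp h0)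
      rw [norm_mul, Real.norm_eq_abs, Real.norm_eq_abs]
      exact (mul_le_of_le_one_right (abs_nonneg _) (Real.abs_sin_le_one _)).trans (zb_om'_le _)
    have h3 := (h1.neg.div_const κ).add (h2.div_const (κ ^ 2))
    simpa using h3
  have h := integral_Ioi_of_hasDerivAt_of_tendsto' hd
    ((hi1.add (hi2.const_mul (1 / κ ^ 2))).integrableOn) ht
  rw [integral_add hi1.integrableOn (hi2.const_mul _).integrableOn, integral_const_mul] at h
  simp only [zero_add, mul_zero, Real.cos_zero, mul_one, Real.sin_zero, zero_div, add_zero,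
    zero_sub] at h
  have h6 : -(-om a / κ) = om a / κ := by ring
  rw [h6] at h
  linarith

private theorem zb_om'_int :
    Integrable (fun v : ℝ => -Real.sinh v / (1 + Real.cosh v) ^ 2) := by
  refine Integrable.mono' integrable_om ?_ (Eventually.of_forall zb_om'_le)
  exact (continuous_iff_continuousAt.2 fun v => (hasDerivAt_om' v).continuousAt).aestronglyMeasurable

private theorem zb_z1_eq (w κ : ℝ) :
    z1 w κ = ∫ x in Set.Ioi (0 : ℝ), om (x + -Real.log w) * Real.sin (κ * x) := by
  rw [z1]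
  simp only [sub_eq_add_neg]

private theorem zb_mass {w : ℝ} (hw : 0 < w) :
    ∫ x in Set.Ioi (0 : ℝ), om (x + -Real.log w) = 2 * w / (1 + w) := by
  rw [zb_shift om, zero_add, integral_om_Ioi, neg_div, Real.tanh_neg]
  have h2 : Real.tanh (Real.log w / 2) = (w - 1) / (w + 1) := by
    rw [Real.tanh_eq_sinh_div_cosh, Real.sinh_eq, Real.cosh_eq]
    set e := Real.exp (Real.log w / 2) with he
    have he0 : 0 < e := Real.exp_pos _
    have h3 : Real.exp (-(Real.log w / 2)) = e⁻¹ := Real.exp_neg _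
    have h4 : e * e = w := by
      rw [he, ← Real.exp_add, add_halves, Real.exp_log hw]
    rw [h3, ← h4]
    field_simp
  rw [h2]
  field_simp
  ring

private theorem zb_wt {w σ : ℝ} (hw : 0 < w) (j : ℕ) :
    wt (xj w σ j) = om (σ * ((j : ℝ) + 1 / 2) + -Real.log w) := by
  have hx : 0 < xj w σ j := mul_pos hw (Real.exp_pos _)
  rw [wt_eq_om hx, xj, Real.log_mul hw.ne' (Real.exp_pos _).ne', Real.log_exp, ← zb_om_neg]
  congr 1
  ring

/-- The function `u ↦ om (u + a) sin (κ u)` and its derivatives. -/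
private noncomputable def zbF (a κ u : ℝ) : ℝ := om (u + a) * Real.sin (κ * u)
private noncomputable def zbF' (a κ u : ℝ) : ℝ :=
  (-Real.sinh (u + a) / (1 + Real.cosh (u + a)) ^ 2) * Real.sin (κ * u) +
    κ * (om (u + a) * Real.cos (κ * u))
private noncomputable def zbF'' (a κ u : ℝ) : ℝ :=
  ((Real.cosh (u + a) - 2) / (1 + Real.cosh (u + a)) ^ 2) * Real.sin (κ * u) +
    2 * κ * ((-Real.sinh (u + a) / (1 + Real.cosh (u + a)) ^ 2) * Real.cos (κ * u)) -
    κ ^ 2 * (om (u + a) * Real.sin (κ * u))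

private theorem zb_d1 (a x : ℝ) : HasDerivAt (fun x : ℝ => om (x + a))
    (-Real.sinh (x + a) / (1 + Real.cosh (x + a)) ^ 2) x :=
  (hasDerivAt_om (x + a)).comp_add_const x a

private theorem zb_d2 (a x : ℝ) :
    HasDerivAt (fun x : ℝ => -Real.sinh (x + a) / (1 + Real.cosh (x + a)) ^ 2)
      ((Real.cosh (x + a) - 2) / (1 + Real.cosh (x + a)) ^ 2) x :=
  (hasDerivAt_om' (x + a)).comp_add_const x a

private theorem zb_d3 (κ x : ℝ) :
    HasDerivAt (fun x : ℝ => Real.cos (κ * x)) (-Real.sin (κ * x) * κ) x := by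
  have := ((hasDerivAt_id x).const_mul κ).cos
  simpa using this

private theorem zb_d4 (κ x : ℝ) :
    HasDerivAt (fun x : ℝ => Real.sin (κ * x)) (Real.cos (κ * x) * κ) x := by
  have := ((hasDerivAt_id x).const_mul κ).sin
  simpa using this

private theorem zbF_d (a κ x : ℝ) : HasDerivAt (zbF a κ) (zbF' a κ x) x := by
  refine ((zb_d1 a x).mul (zb_d4 κ x)).congr_deriv ?_
  rw [zbF']
  ring

private theorem zbF_d' (a κ x : ℝ) : HasDerivAt (zbF' a κ) (zbF'' a κ x) x := by
  refine (((zb_d2 a x).mul (zb_d4 κ x)).add (((zb_d1 a x).mul (zb_d3 κ x)).const_mul κ)).congr_deriv ?_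
  rw [zbF'']
  ring

private theorem zbF''_cont (a κ : ℝ) : Continuous (zbF'' a κ) := by
  have h1 := zb_om_continuous
  unfold zbF''
  have h2 : ∀ u : ℝ, (1 + Real.cosh (u + a)) ^ 2 ≠ 0 := fun u => by
    have := Real.cosh_pos (u + a)
    positivity
  have h3 : Continuous fun u : ℝ => om (u + a) := h1.comp (by fun_prop)
  have h4 := Real.continuous_cosh
  have h5 := Real.continuous_sinh
  have h6 : Continuous fun u : ℝ => (Real.cosh (u + a) - 2) / (1 + Real.cosh (u + a)) ^ 2 :=
    Continuous.div (by fun_prop) (by fun_prop) h2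
  have h7 : Continuous fun u : ℝ => -Real.sinh (u + a) / (1 + Real.cosh (u + a)) ^ 2 :=
    Continuous.div (by fun_prop) (by fun_prop) h2
  fun_prop

private theorem zb_mul_sin {f : ℝ → ℝ} (hf : Integrable f) (κ : ℝ) :
    Integrable fun x => f x * Real.sin (κ * x) := by
  refine hf.mul_bdd (c := 1) ?_ ?_
  · exact (by fun_prop : Continuous fun x : ℝ => Real.sin (κ * x)).aestronglyMeasurable
  · exact Eventually.of_forall fun x => Real.abs_sin_le_one _

private theorem zb_mul_cos {f : ℝ → ℝ} (hf : Integrable f) (κ : ℝ) :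
    Integrable fun x => f x * Real.cos (κ * x) := by
  refine hf.mul_bdd (c := 1) ?_ ?_
  · exact (by fun_prop : Continuous fun x : ℝ => Real.cos (κ * x)).aestronglyMeasurable
  · exact Eventually.of_forall fun x => Real.abs_cos_le_one _

private theorem zbF''_int (a κ : ℝ) : Integrable (zbF'' a κ) :=
  ((zb_mul_sin (integral_abs_om''.1.comp_add_right a) κ).add
    ((zb_mul_cos (zb_om'_int.comp_add_right a) κ).const_mul (2 * κ))).sub
    ((zb_mul_sin (integrable_om.comp_add_right a) κ).const_mul (κ ^ 2))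

private theorem zb_set_le {f : ℝ → ℝ} (hf : Integrable f) (a : ℝ) :
    ∫ x in Set.Ioi (0:ℝ), |f (x + a)| ≤ ∫ x, |f x| := by
  refine (setIntegral_le_integral (hf.comp_add_right a).abs
    (Eventually.of_forall fun x => abs_nonneg _)).trans ?_
  rw [integral_add_right_eq_self (fun x => |f x|) a]

private theorem zbF''_bound {w κ : ℝ} (hw : 0 < w) (hκ : 0 ≤ κ) :
    ∫ u in Set.Ioi (0:ℝ), |zbF'' (-Real.log w) κ u| ≤ 2 * κ ^ 2 + 2 * κ + 77 / 100 := by
  set a := -Real.log w with ha
  have i1 : Integrable fun u : ℝ => |(Real.cosh (u + a) - 2) / (1 + Real.cosh (u + a)) ^ 2| :=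
    (integral_abs_om''.1.comp_add_right a).abs
  have i2 : Integrable fun u : ℝ => |(-Real.sinh (u + a) / (1 + Real.cosh (u + a)) ^ 2)| :=
    (zb_om'_int.comp_add_right a).abs
  have i3 : Integrable fun u : ℝ => om (u + a) := integrable_om.comp_add_right a
  have h1 : ∀ u, |zbF'' a κ u| ≤ |(Real.cosh (u + a) - 2) / (1 + Real.cosh (u + a)) ^ 2| +
      2 * κ * |(-Real.sinh (u + a) / (1 + Real.cosh (u + a)) ^ 2)| + κ ^ 2 * om (u + a) := by
    intro u
    have s1 := Real.abs_sin_le_one (κ * u)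
    have s2 := Real.abs_cos_le_one (κ * u)
    rw [zbF'']
    refine (abs_sub _ _).trans (add_le_add ((abs_add_le _ _).trans (add_le_add ?_ ?_)) ?_)
    · rw [abs_mul]
      exact mul_le_of_le_one_right (abs_nonneg _) s1
    · rw [abs_mul, abs_of_nonneg (by positivity : 0 ≤ 2 * κ), abs_mul]
      exact mul_le_mul_of_nonneg_left (mul_le_of_le_one_right (abs_nonneg _) s2) (by positivity)
    · rw [abs_mul, abs_of_nonneg (sq_nonneg κ), abs_mul, abs_of_pos (zb_om_pos _)]
      exact mul_le_mul_of_nonneg_left (mul_le_of_le_one_right (zb_om_pos _).le s1) (sq_nonneg κ)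
  have h2 : ∫ u in Set.Ioi (0:ℝ), |zbF'' a κ u| ≤ ∫ u in Set.Ioi (0:ℝ),
      (|(Real.cosh (u + a) - 2) / (1 + Real.cosh (u + a)) ^ 2| +
      2 * κ * |(-Real.sinh (u + a) / (1 + Real.cosh (u + a)) ^ 2)| + κ ^ 2 * om (u + a)) :=
    integral_mono (zbF''_int a κ).abs.integrableOn
      (((i1.add (i2.const_mul _)).add (i3.const_mul _)).integrableOn) h1
  refine h2.trans ?_
  have e1 := integral_add (μ := volume.restrict (Set.Ioi (0:ℝ)))
    (i1.add (i2.const_mul (2 * κ))).integrableOn (i3.const_mul (κ ^ 2)).integrableOn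
  have e2 := integral_add (μ := volume.restrict (Set.Ioi (0:ℝ))) i1.integrableOn
    (i2.const_mul (2 * κ)).integrableOn
  have e3 : ∫ u in Set.Ioi (0:ℝ), (|(Real.cosh (u + a) - 2) / (1 + Real.cosh (u + a)) ^ 2| +
      2 * κ * |(-Real.sinh (u + a) / (1 + Real.cosh (u + a)) ^ 2)| + κ ^ 2 * om (u + a)) =
      (∫ u in Set.Ioi (0:ℝ), |(Real.cosh (u + a) - 2) / (1 + Real.cosh (u + a)) ^ 2|) +
      2 * κ * (∫ u in Set.Ioi (0:ℝ), |(-Real.sinh (u + a) / (1 + Real.cosh (u + a)) ^ 2)|) +
      κ ^ 2 * ∫ u in Set.Ioi (0:ℝ), om (u + a) := by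
    refine e1.trans ?_
    rw [integral_const_mul]
    congr 1
    refine e2.trans ?_
    rw [integral_const_mul]
  rw [e3]
  have b1 := (zb_set_le integral_abs_om''.1 a).trans integral_abs_om''.2.1
  have b2 := (zb_set_le zb_om'_int a).trans integral_abs_om'
  have b3 : ∫ u in Set.Ioi (0:ℝ), om (u + a) ≤ 2 := by
    rw [zb_mass hw, div_le_iff₀ (by positivity)]
    linarith
  have b4 := mul_le_mul_of_nonneg_left b2 (by positivity : 0 ≤ 2 * κ)
  have b5 := mul_le_mul_of_nonneg_left b3 (sq_nonneg κ)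
  linarith

/-- sum versus integral -/
theorem Z1_sub_z1_le {w σ κ : ℝ} (hw : 0 < w) (hσ : 0 < σ) (hκ : 0 ≤ κ) :
    |Z1 w σ (σ * κ) - z1 w κ / σ| ≤ σ / 8 * (2 * κ ^ 2 + 2 * κ + 77 / 100) := by
  set a := -Real.log w with ha
  have hlin : ∀ x : ℝ, HasDerivAt (fun x : ℝ => σ * x) σ x := fun x => by
    simpa using (hasDerivAt_id x).const_mul σ
  have d1 : ∀ x : ℝ, HasDerivAt (fun y : ℝ => ((zbF a κ (σ * y) : ℝ) : ℂ))
      ((zbF' a κ (σ * x) * σ : ℝ) : ℂ) x := fun x =>
    ((zbF_d a κ (σ * x)).comp x (hlin x)).ofReal_comp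
  have d2 : ∀ x : ℝ, HasDerivAt (fun y : ℝ => ((zbF' a κ (σ * y) * σ : ℝ) : ℂ))
      ((zbF'' a κ (σ * x) * σ * σ : ℝ) : ℂ) x := fun x =>
    (((zbF_d' a κ (σ * x)).comp x (hlin x)).mul_const σ).ofReal_comp
  have hsum : Tendsto (fun N : ℕ => ∑ j ∈ Finset.range N,
      ((zbF a κ (σ * ((j : ℝ) + 1 / 2)) : ℝ) : ℂ)) atTop (𝓝 ((Z1 w σ (σ * κ) : ℝ) : ℂ)) := by
    have h1 := (Z1_summable hw hσ (σ * κ)).hasSum.tendsto_sum_nat
    have h2 := (Complex.continuous_ofReal.tendsto _).comp h1
    refine h2.congr fun N => ?_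
    simp only [Function.comp_apply]
    rw [Complex.ofReal_sum]
    refine Finset.sum_congr rfl fun j _ => ?_
    rw [zb_wt hw, zbF]
    congr 2
    rw [show σ * κ * ((j : ℝ) + 1 / 2) = κ * (σ * ((j : ℝ) + 1 / 2)) by ring]
  have hFint : Integrable (zbF a κ) := zb_mul_sin (integrable_om.comp_add_right a) κ
  have hint : IntegrableOn (fun y : ℝ => ((zbF a κ (σ * y) : ℝ) : ℂ)) (Set.Ioi 0) :=
    ((hFint.comp_mul_left' hσ.ne').ofReal).integrableOn
  have hint'' : IntegrableOn (fun y : ℝ => ((zbF'' a κ (σ * y) * σ * σ : ℝ) : ℂ)) (Set.Ioi 0) :=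
    (((((zbF''_int a κ).comp_mul_left' hσ.ne').mul_const σ).mul_const σ).ofReal).integrableOn
  have hc : ContinuousOn (fun y : ℝ => ((zbF'' a κ (σ * y) * σ * σ : ℝ) : ℂ)) (Set.Ici 0) := by
    have := zbF''_cont a κ
    exact (Complex.continuous_ofReal.comp (((this.comp (by fun_prop)).mul continuous_const).mul
      continuous_const)).continuousOn
  have h := midpoint_halfline (fun x _ => d1 x) (fun x _ => d2 x) hc hint hint'' hsum
  have e1 : ∫ x in Set.Ioi (0 : ℝ), ((zbF a κ (σ * x) : ℝ) : ℂ) = ((z1 w κ / σ : ℝ) : ℂ) := by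
    rw [integral_complex_ofReal, integral_comp_mul_left_Ioi (fun x => zbF a κ x) 0 hσ, mul_zero,
      zb_z1_eq]
    congr 1
    simp only [zbF, smul_eq_mul]
    rw [div_eq_inv_mul]
  have e2 : ∫ x in Set.Ioi (0 : ℝ), ‖((zbF'' a κ (σ * x) * σ * σ : ℝ) : ℂ)‖ =
      σ * ∫ u in Set.Ioi (0:ℝ), |zbF'' a κ u| := by
    have e3 : ∀ x : ℝ, ‖((zbF'' a κ (σ * x) * σ * σ : ℝ) : ℂ)‖ = σ ^ 2 * |zbF'' a κ (σ * x)| := by
      intro x
      rw [Complex.norm_real, norm_mul, norm_mul, Real.norm_eq_abs, Real.norm_eq_abs, abs_of_pos hσ]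
      ring
    simp only [e3]
    rw [integral_const_mul, integral_comp_mul_left_Ioi (fun x => |zbF'' a κ x|) 0 hσ, mul_zero,
      smul_eq_mul]
    field_simp
  rw [e1, e2, ← Complex.ofReal_sub, Complex.norm_real, Real.norm_eq_abs] at h
  refine h.trans ?_
  have h3 := zbF''_bound hw hκ
  have h4 := mul_le_mul_of_nonneg_left h3 (by positivity : 0 ≤ σ / 8)
  calc 1 / 8 * (σ * ∫ u in Set.Ioi (0:ℝ), |zbF'' a κ u|)
      = σ / 8 * ∫ u in Set.Ioi (0:ℝ), |zbF'' a κ u| := by ring
    _ ≤ _ := h4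

theorem z1_nonneg {w κ : ℝ} (hw : 1 ≤ w) (hκ : 0 ≤ κ) (h : κ * Real.log w ≤ Real.pi) :
    0 ≤ z1 w κ := by
  rcases hκ.eq_or_lt with h0 | hκ0
  · rw [← h0, z1]
    simp
  set L := Real.log w with hL
  have hL0 : 0 ≤ L := Real.log_nonneg hw
  -- the function `g = - om'`
  set g : ℝ → ℝ := fun v => Real.sinh v / (1 + Real.cosh v) ^ 2 with hg
  have hgc : Continuous g := by
    have h4 := Real.continuous_cosh
    have h5 := Real.continuous_sinh
    exact Continuous.div (by fun_prop) (by fun_prop) fun u => by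
      have := Real.cosh_pos u
      positivity
  have hgi : Integrable g := by
    refine zb_om'_int.neg.congr (Eventually.of_forall fun v => ?_)
    simp only [hg, Pi.neg_apply]
    ring
  have hgodd : ∀ v, g (-v) = -g v := by
    intro v
    simp only [hg]
    rw [Real.sinh_neg, Real.cosh_neg]
    ring
  have hgpos : ∀ v, 0 ≤ v → 0 ≤ g v := by
    intro v hv
    have := Real.sinh_nonneg_iff.2 hv
    simp only [hg]
    positivity
  have hki : Integrable fun v => g v * (1 - Real.cos (κ * (v + L))) := by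
    refine hgi.mul_bdd (c := 2) ?_ ?_
    · exact (by fun_prop : Continuous fun v : ℝ => 1 - Real.cos (κ * (v + L))).aestronglyMeasurable
    · refine Eventually.of_forall fun v => ?_
      rw [Real.norm_eq_abs, abs_le]
      constructor <;> linarith [Real.neg_one_le_cos (κ * (v + L)), Real.cos_le_one (κ * (v + L))]
  -- integration by parts
  have hibp : κ * z1 w κ = ∫ v in Set.Ioi (-L), g v * (1 - Real.cos (κ * (v + L))) := by
    have hd : ∀ x ∈ Set.Ici (0:ℝ), HasDerivAt (fun x : ℝ => om (x + -L) * (1 - Real.cos (κ * x)))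
        (κ * (om (x + -L) * Real.sin (κ * x)) - g (x + -L) * (1 - Real.cos (κ * x))) x := by
      intro x _
      refine ((zb_d1 (-L) x).mul ((zb_d3 κ x).const_sub 1)).congr_deriv ?_
      simp only [hg]
      ring
    have i1 : Integrable fun x : ℝ => κ * (om (x + -L) * Real.sin (κ * x)) :=
      (zb_mul_sin (integrable_om.comp_add_right (-L)) κ).const_mul κ
    have i2 : Integrable fun x : ℝ => g (x + -L) * (1 - Real.cos (κ * x)) := by
      refine (hki.comp_add_right (-L)).congr (Eventually.of_forall fun x => ?_)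
      simp only
      rw [neg_add_cancel_right]
    have ht : Tendsto (fun x : ℝ => om (x + -L) * (1 - Real.cos (κ * x))) atTop (𝓝 0) := by
      have h1 : Tendsto (fun x : ℝ => 2 * om (x + -L)) atTop (𝓝 (2 * 0)) :=
        (zb_om_tendsto.comp (tendsto_atTop_add_const_right _ _ tendsto_id)).const_mul 2
      rw [mul_zero] at h1
      refine squeeze_zero_norm (fun x => ?_) h1
      rw [norm_mul, Real.norm_eq_abs, Real.norm_eq_abs, abs_of_pos (zb_om_pos _), mul_comm]
      refine mul_le_mul_of_nonneg_right ?_ (zb_om_pos _).le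
      rw [abs_le]
      constructor <;> linarith [Real.neg_one_le_cos (κ * x), Real.cos_le_one (κ * x)]
    have e := integral_Ioi_of_hasDerivAt_of_tendsto' hd (i1.sub i2).integrableOn ht
    rw [integral_sub i1.integrableOn i2.integrableOn, integral_const_mul] at e
    simp only [mul_zero, Real.cos_zero, sub_self] at e
    have e2 := zb_shift (fun v => g v * (1 - Real.cos (κ * (v + L)))) (-L) 0
    rw [zero_add] at e2
    simp only [neg_add_cancel_right] at e2
    rw [← e2, zb_z1_eq]
    linarith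
  -- splitting
  have hsplit : ∫ v in Set.Ioi (-L), g v * (1 - Real.cos (κ * (v + L))) =
      (∫ v in (-L)..L, g v * (1 - Real.cos (κ * (v + L)))) +
        ∫ v in Set.Ioi L, g v * (1 - Real.cos (κ * (v + L))) := by
    exact (intervalIntegral.integral_interval_add_Ioi hki.integrableOn hki.integrableOn).symm
  have htail : 0 ≤ ∫ v in Set.Ioi L, g v * (1 - Real.cos (κ * (v + L))) := by
    refine setIntegral_nonneg measurableSet_Ioi fun v hv => ?_
    have hv' : L < v := hv
    exact mul_nonneg (hgpos v (by linarith)) (by linarith [Real.cos_le_one (κ * (v + L))])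
  have hmid : 0 ≤ ∫ v in (-L)..L, g v * (1 - Real.cos (κ * (v + L))) := by
    have hc : Continuous fun v : ℝ => g v * (1 - Real.cos (κ * (v + L))) :=
      hgc.mul (by fun_prop)
    have hc' : Continuous fun v : ℝ => g (-v) * (1 - Real.cos (κ * (-v + L))) :=
      (hgc.comp continuous_neg).mul (by fun_prop)
    have e1 : ∫ v in (-L)..L, g (-v) * (1 - Real.cos (κ * (-v + L))) =
        ∫ v in (-L)..L, g v * (1 - Real.cos (κ * (v + L))) := by
      have := intervalIntegral.integral_comp_neg (a := -L) (b := L)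
        (fun v => g v * (1 - Real.cos (κ * (v + L))))
      rw [neg_neg] at this
      exact this
    have e2 : 0 ≤ ∫ v in (-L)..L, (g v * (1 - Real.cos (κ * (v + L))) +
        g (-v) * (1 - Real.cos (κ * (-v + L)))) := by
      refine intervalIntegral.integral_nonneg (by linarith) fun v hv => ?_
      have e3 : g v * (1 - Real.cos (κ * (v + L))) + g (-v) * (1 - Real.cos (κ * (-v + L))) =
          2 * Real.sin (κ * L) * (g v * Real.sin (κ * v)) := by
        rw [hgodd, show κ * (v + L) = κ * L + κ * v by ring, show κ * (-v + L) = κ * L - κ * v by ring,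
          Real.cos_add, Real.cos_sub]
        ring
      rw [e3]
      have s1 : 0 ≤ Real.sin (κ * L) :=
        Real.sin_nonneg_of_nonneg_of_le_pi (by positivity) h
      have s2 : 0 ≤ g v * Real.sin (κ * v) := by
        have hm : ∀ u, 0 ≤ u → u ≤ L → 0 ≤ g u * Real.sin (κ * u) := fun u hu huL =>
          mul_nonneg (hgpos u hu) (Real.sin_nonneg_of_nonneg_of_le_pi (by positivity)
            ((mul_le_mul_of_nonneg_left huL hκ).trans h))
        rcases le_total 0 v with hv0 | hv0
        · exact hm v hv0 hv.2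
        · have := hm (-v) (by linarith) (by linarith [hv.1])
          rw [hgodd, mul_neg, Real.sin_neg] at this
          linarith
      positivity
    rw [intervalIntegral.integral_add (hc.intervalIntegrable _ _) (hc'.intervalIntegrable _ _), e1]
      at e2
    linarith
  have hfin : 0 ≤ κ * z1 w κ := by
    rw [hibp, hsplit]
    linarith
  exact nonneg_of_mul_nonneg_right hfin hκ0

theorem abs_z1_le_mass {w κ : ℝ} (hw : 0 < w) : |z1 w κ| ≤ 2 * w / (1 + w) := by
  rw [← zb_mass hw, zb_z1_eq, ← Real.norm_eq_abs]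
  refine norm_integral_le_of_norm_le (integrable_om.comp_add_right _).integrableOn ?_
  refine Eventually.of_forall fun x => ?_
  rw [norm_mul, Real.norm_eq_abs, Real.norm_eq_abs, abs_of_pos (zb_om_pos _)]
  exact mul_le_of_le_one_right (zb_om_pos _).le (Real.abs_sin_le_one _)

/-- integration by parts twice -/
theorem abs_z1_le_parts {w κ : ℝ} (hw : 0 < w) (hκ : 0 < κ) :
    |z1 w κ| ≤ 1 / κ * (om (Real.log w) + 77 / 100 / κ) := by
  rw [zb_z1_eq, zb_parts hκ, zb_om_neg]
  set a := -Real.log w with ha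
  have h1 : |∫ x in Set.Ioi (0 : ℝ), (Real.cosh (x + a) - 2) /
      (1 + Real.cosh (x + a)) ^ 2 * Real.sin (κ * x)| ≤
      ∫ x in Set.Ioi (0 : ℝ), |(Real.cosh (x + a) - 2) / (1 + Real.cosh (x + a)) ^ 2| := by
    rw [← Real.norm_eq_abs]
    refine norm_integral_le_of_norm_le (integral_abs_om''.1.comp_add_right _).abs.integrableOn ?_
    refine Eventually.of_forall fun x => ?_
    rw [norm_mul, Real.norm_eq_abs, Real.norm_eq_abs]
    exact mul_le_of_le_one_right (abs_nonneg _) (Real.abs_sin_le_one _)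
  have h3 := h1.trans ((zb_set_le integral_abs_om''.1 a).trans integral_abs_om''.2.1)
  have h4 := zb_om_pos (Real.log w)
  calc |om (Real.log w) / κ - 1 / κ ^ 2 * ∫ x in Set.Ioi (0 : ℝ),
        (Real.cosh (x + a) - 2) / (1 + Real.cosh (x + a)) ^ 2 *
          Real.sin (κ * x)| ≤ |om (Real.log w) / κ| + |1 / κ ^ 2 * ∫ x in Set.Ioi (0 : ℝ),
        (Real.cosh (x + a) - 2) / (1 + Real.cosh (x + a)) ^ 2 *
          Real.sin (κ * x)| := abs_sub _ _
    _ ≤ om (Real.log w) / κ + 1 / κ ^ 2 * (77 / 100) := by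
        rw [abs_mul, abs_of_pos (by positivity : 0 < om (Real.log w) / κ),
          abs_of_pos (by positivity : 0 < 1 / κ ^ 2)]
        exact add_le_add le_rfl (mul_le_mul_of_nonneg_left h3 (by positivity))
    _ = 1 / κ * (om (Real.log w) + 77 / 100 / κ) := by
        field_simp

end Pool.Agent.Lib.Durfee
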