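import Pool.Agent.Lib.MP_9393b1_co.ZedA

/-! # closed form of `z1` -/

set_option autoImplicit false

namespace Pool.Agent.Lib.Durfee

open Complex MeasureTheory Filter Topology

private theorem zc_shift (f : ℝ → ℝ) (a b : ℝ) :
    ∫ x in Set.Ioi b, f (x + a) = ∫ v in Set.Ioi (b + a), f v := by
  rw [← integral_indicator measurableSet_Ioi, ← integral_indicator measurableSet_Ioi,
    ← integral_add_right_eq_self (fun x => (Set.Ioi (b + a)).indicator f x) a]
  congr 1
  ext x
  by_cases h : b < x
  · rw [Set.indicator_of_mem (show x ∈ Set.Ioi b from h),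
      Set.indicator_of_mem (show x + a ∈ Set.Ioi (b + a) from add_lt_add_left h a)]
  · rw [Set.indicator_of_notMem (show x ∉ Set.Ioi b from h),
      Set.indicator_of_notMem (show x + a ∉ Set.Ioi (b + a) from fun h' => h (lt_of_add_lt_add_right h'))]

private theorem zc_om_pos (v : ℝ) : 0 < om v := by
  unfold om
  have := Real.cosh_pos v
  positivity

private theorem zc_om_neg (v : ℝ) : om (-v) = om v := by
  unfold om
  rw [Real.cosh_neg]

private theorem zc_om_continuous : Continuous om :=
  continuous_iff_continuousAt.2 fun v => (hasDerivAt_om v).continuousAt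

private theorem zc_om_tendsto : Tendsto om atTop (𝓝 0) := by
  have h1 : Tendsto (fun v : ℝ => 1 + Real.cosh v) atTop atTop := by
    refine tendsto_atTop_mono (fun v => ?_) tendsto_id
    have h2 : Real.cosh v = (Real.exp v + Real.exp (-v)) / 2 := Real.cosh_eq v
    have h3 := Real.quadratic_le_exp_of_nonneg (abs_nonneg v)
    have h4 : Real.exp |v| ≤ Real.exp v + Real.exp (-v) := by
      rcases abs_cases v with h | h
      · rw [h.1]; linarith [Real.exp_pos (-v)]
      · rw [h.1]; linarith [Real.exp_pos v]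
    have h5 := le_abs_self v
    simp only [id]
    nlinarith [sq_nonneg (|v| - 1), sq_abs v]
  have h2 := h1.inv_tendsto_atTop
  refine h2.congr fun v => ?_
  simp [om]

private theorem zc_om'_le (v : ℝ) : |(-Real.sinh v / (1 + Real.cosh v) ^ 2)| ≤ om v := by
  have h1 := Real.cosh_pos v
  have h2 : |Real.sinh v| ≤ 1 + Real.cosh v := by
    have h3 : Real.cosh v ^ 2 = Real.sinh v ^ 2 + 1 := Real.cosh_sq v
    have h4 : |Real.sinh v| ≤ Real.cosh v := by
      refine abs_le_of_sq_le_sq ?_ h1.le
      nlinarith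
    linarith
  rw [abs_div, abs_neg, abs_of_pos (by positivity : 0 < (1 + Real.cosh v) ^ 2), om, div_le_div_iff₀
    (by positivity) (by positivity)]
  nlinarith

private theorem zc_om'_tendsto :
    Tendsto (fun v : ℝ => -Real.sinh v / (1 + Real.cosh v) ^ 2) atTop (𝓝 0) :=
  squeeze_zero_norm zc_om'_le zc_om_tendsto

/-- Double integration by parts. -/
private theorem zc_parts {κ : ℝ} (hκ : 0 < κ) (a : ℝ) :
    ∫ x in Set.Ioi (0 : ℝ), om (x + a) * Real.sin (κ * x) = om a / κ -
      1 / κ ^ 2 * ∫ x in Set.Ioi (0 : ℝ),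
        (Real.cosh (x + a) - 2) / (1 + Real.cosh (x + a)) ^ 2 * Real.sin (κ * x) := by
  have hi1 : Integrable (fun x => om (x + a) * Real.sin (κ * x)) := by
    refine (integrable_om.comp_add_right a).mul_bdd (c := 1) ?_ ?_
    · exact (by fun_prop : Continuous fun x : ℝ => Real.sin (κ * x)).aestronglyMeasurable
    · exact Eventually.of_forall fun x => Real.abs_sin_le_one _
  have hi2 : Integrable (fun x => (Real.cosh (x + a) - 2) / (1 + Real.cosh (x + a)) ^ 2 *
      Real.sin (κ * x)) := by
    refine (integral_abs_om''.1.comp_add_right a).mul_bdd (c := 1) ?_ ?_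
    · exact (by fun_prop : Continuous fun x : ℝ => Real.sin (κ * x)).aestronglyMeasurable
    · exact Eventually.of_forall fun x => Real.abs_sin_le_one _
  have hd : ∀ x ∈ Set.Ici (0:ℝ), HasDerivAt (fun x : ℝ => -(om (x + a) * Real.cos (κ * x)) / κ +
      (-Real.sinh (x + a) / (1 + Real.cosh (x + a)) ^ 2) * Real.sin (κ * x) / κ ^ 2)
      (om (x + a) * Real.sin (κ * x) + 1 / κ ^ 2 *
        ((Real.cosh (x + a) - 2) / (1 + Real.cosh (x + a)) ^ 2 * Real.sin (κ * x))) x := by
    intro x _
    have h1 : HasDerivAt (fun x : ℝ => om (x + a)) (-Real.sinh (x + a) / (1 + Real.cosh (x + a)) ^ 2) x :=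
      (hasDerivAt_om (x + a)).comp_add_const x a
    have h2 : HasDerivAt (fun x : ℝ => -Real.sinh (x + a) / (1 + Real.cosh (x + a)) ^ 2)
        ((Real.cosh (x + a) - 2) / (1 + Real.cosh (x + a)) ^ 2) x :=
      (hasDerivAt_om' (x + a)).comp_add_const x a
    have h3 : HasDerivAt (fun x : ℝ => Real.cos (κ * x)) (-Real.sin (κ * x) * κ) x := by
      have := ((hasDerivAt_id x).const_mul κ).cos
      simpa using this
    have h4 : HasDerivAt (fun x : ℝ => Real.sin (κ * x)) (Real.cos (κ * x) * κ) x := by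
      have := ((hasDerivAt_id x).const_mul κ).sin
      simpa using this
    refine ((((h1.mul h3).neg).div_const κ).add ((h2.mul h4).div_const (κ ^ 2))).congr_deriv ?_
    field_simp
    ring
  have ht : Tendsto (fun x : ℝ => -(om (x + a) * Real.cos (κ * x)) / κ +
      (-Real.sinh (x + a) / (1 + Real.cosh (x + a)) ^ 2) * Real.sin (κ * x) / κ ^ 2) atTop (𝓝 0) := by
    have h0 : Tendsto (fun x : ℝ => x + a) atTop atTop := tendsto_atTop_add_const_right _ _ tendsto_id
    have h1 : Tendsto (fun x : ℝ => om (x + a) * Real.cos (κ * x)) atTop (𝓝 0) := by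
      refine squeeze_zero_norm (fun x => ?_) (zc_om_tendsto.comp h0)
      rw [norm_mul, Real.norm_eq_abs, Real.norm_eq_abs, abs_of_pos (zc_om_pos _)]
      exact mul_le_of_le_one_right (zc_om_pos _).le (Real.abs_cos_le_one _)
    have h2 : Tendsto (fun x : ℝ => (-Real.sinh (x + a) / (1 + Real.cosh (x + a)) ^ 2) *
        Real.sin (κ * x)) atTop (𝓝 0) := by
      refine squeeze_zero_norm (fun x => ?_) (zc_om_tendsto.comp h0)
      rw [norm_mul, Real.norm_eq_abs, Real.norm_eq_abs]
      exact (mul_le_of_le_one_right (abs_nonneg _) (Real.abs_sin_le_one _)).trans (zc_om'_le _)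
    have h3 := (h1.neg.div_const κ).add (h2.div_const (κ ^ 2))
    simpa using h3
  have h := integral_Ioi_of_hasDerivAt_of_tendsto' hd
    ((hi1.add (hi2.const_mul (1 / κ ^ 2))).integrableOn) ht
  rw [integral_add hi1.integrableOn (hi2.const_mul _).integrableOn, integral_const_mul] at h
  simp only [zero_add, mul_zero, Real.cos_zero, mul_one, Real.sin_zero, zero_div, add_zero,
    zero_sub] at h
  have h6 : -(-om a / κ) = om a / κ := by ring
  rw [h6] at h
  linarith

private theorem zc_betaval {κ : ℝ} (hκ : 0 < κ) :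
    betaIntegral (1 - I * κ) (1 + I * κ) = ((Real.pi * κ / Real.sinh (Real.pi * κ) : ℝ) : ℂ) := by
  have hκ' : (κ : ℂ) ≠ 0 := by exact_mod_cast hκ.ne'
  have hs : 0 < Real.sinh (Real.pi * κ) := Real.sinh_pos_iff.2 (by positivity)
  have h1 := Complex.Gamma_mul_Gamma_eq_betaIntegral (s := 1 - I * κ) (t := 1 + I * κ)
    (by simp) (by simp)
  have h2 : (1 - I * κ : ℂ) + (1 + I * κ) = ((1 : ℕ) : ℂ) + 1 := by push_cast; ring
  rw [h2, Complex.Gamma_nat_eq_factorial, Nat.factorial_one, Nat.cast_one, one_mul] at h1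
  have h3 : Gamma (1 + I * κ) = I * κ * Gamma (I * κ) := by
    rw [add_comm, Complex.Gamma_add_one _ (mul_ne_zero I_ne_zero hκ')]
  have h4 := Complex.Gamma_mul_Gamma_one_sub (I * κ)
  have h5 : sin (Real.pi * (I * κ)) = ((Real.sinh (Real.pi * κ) : ℝ) : ℂ) * I := by
    rw [show (Real.pi : ℂ) * (I * κ) = ((Real.pi * κ : ℝ) : ℂ) * I by push_cast; ring,
      Complex.sin_mul_I, Complex.ofReal_sinh]
  rw [h5] at h4
  have hs' : ((Real.sinh (Real.pi * κ) : ℝ) : ℂ) ≠ 0 := by exact_mod_cast hs.ne'
  rw [← h1, h3]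
  have h6 : Gamma (1 - I * κ) * (I * κ * Gamma (I * κ)) =
      I * κ * (Gamma (I * κ) * Gamma (1 - I * κ)) := by ring
  rw [h6, h4]
  rw [Complex.ofReal_div]
  push_cast
  field_simp

private theorem zc_image : (fun v : ℝ => 1 / (1 + Real.exp v)) '' Set.univ = Set.Ioo 0 1 := by
  ext y
  constructor
  · rintro ⟨v, -, rfl⟩
    have := Real.exp_pos v
    refine ⟨by positivity, ?_⟩
    rw [div_lt_one (by positivity)]
    linarith
  · rintro ⟨h0, h1⟩
    refine ⟨Real.log ((1 - y) / y), trivial, ?_⟩
    have h2 : 0 < (1 - y) / y := div_pos (by linarith) h0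
    simp only
    rw [Real.exp_log h2]
    field_simp
    ring

private theorem zc_fourier {κ : ℝ} (hκ : 0 < κ) :
    ∫ v : ℝ, (om v : ℂ) * exp (((κ * v : ℝ) : ℂ) * I) = (SS κ : ℂ) := by
  have hd : ∀ v : ℝ, HasDerivAt (fun v : ℝ => 1 / (1 + Real.exp v))
      (-(Real.exp v) / (1 + Real.exp v) ^ 2) v := by
    intro v
    have h1 : HasDerivAt (fun v : ℝ => 1 + Real.exp v) (Real.exp v) v :=
      (Real.hasDerivAt_exp v).const_add 1
    have h2 := h1.inv (by have := Real.exp_pos v; positivity)
    refine (h2.congr_of_eventuallyEq ?_).congr_deriv rfl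
    exact Eventually.of_forall fun x => by simp
  have hinj : Set.InjOn (fun v : ℝ => 1 / (1 + Real.exp v)) Set.univ := by
    intro a _ b _ hab
    simp only [one_div, inv_inj] at hab
    exact Real.exp_injective (by linarith)
  have h := integral_image_eq_integral_abs_deriv_smul MeasurableSet.univ
    (fun v _ => (hd v).hasDerivWithinAt) hinj
    (fun x => (x : ℂ) ^ ((1 - I * κ) - 1) * (1 - (x : ℂ)) ^ ((1 + I * κ) - 1))
  rw [zc_image, ← integral_Ioc_eq_integral_Ioo, ← intervalIntegral.integral_of_le zero_le_one] at h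
  have h1 : ∫ x in (0:ℝ)..1, (x : ℂ) ^ ((1 - I * κ) - 1) * (1 - (x : ℂ)) ^ ((1 + I * κ) - 1) =
      betaIntegral (1 - I * κ) (1 + I * κ) := rfl
  rw [h1, zc_betaval hκ, setIntegral_univ] at h
  have h2 : ∀ v : ℝ, |(-(Real.exp v) / (1 + Real.exp v) ^ 2)| •
      (((1 / (1 + Real.exp v) : ℝ) : ℂ) ^ ((1 - I * κ) - 1) *
        (1 - ((1 / (1 + Real.exp v) : ℝ) : ℂ)) ^ ((1 + I * κ) - 1)) =
      (1 / 2 : ℂ) * ((om v : ℂ) * exp (((κ * v : ℝ) : ℂ) * I)) := by
    intro v
    have he := Real.exp_pos v
    have e1 : |(-(Real.exp v) / (1 + Real.exp v) ^ 2)| = om v / 2 := by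
      rw [neg_div, abs_neg, abs_of_pos (by positivity), om, Real.cosh_eq, Real.exp_neg]
      field_simp
      ring
    have e2 : (1 - ((1 / (1 + Real.exp v) : ℝ) : ℂ)) =
        ((Real.exp v / (1 + Real.exp v) : ℝ) : ℂ) := by
      rw [← Complex.ofReal_one, ← Complex.ofReal_sub]
      congr 1
      field_simp
      ring
    have p1 : 0 < 1 / (1 + Real.exp v) := by positivity
    have p2 : 0 < Real.exp v / (1 + Real.exp v) := by positivity
    have l1 : Real.log (1 / (1 + Real.exp v)) = -Real.log (1 + Real.exp v) := by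
      rw [one_div, Real.log_inv]
    have l2 : Real.log (Real.exp v / (1 + Real.exp v)) = v - Real.log (1 + Real.exp v) := by
      rw [Real.log_div he.ne' (by positivity), Real.log_exp]
    rw [e1, e2, cpow_def_of_ne_zero (by exact_mod_cast p1.ne'),
      cpow_def_of_ne_zero (by exact_mod_cast p2.ne'), ← Complex.ofReal_log p1.le,
      ← Complex.ofReal_log p2.le, l1, l2, ← exp_add, Complex.real_smul]
    have e3 : ((-Real.log (1 + Real.exp v) : ℝ) : ℂ) * (1 - I * κ - 1) +
        ((v - Real.log (1 + Real.exp v) : ℝ) : ℂ) * (1 + I * κ - 1) = ((κ * v : ℝ) : ℂ) * I := by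
      push_cast
      ring
    rw [e3]
    push_cast
    ring
  simp only [h2] at h
  rw [integral_const_mul] at h
  have h3 : ∫ v : ℝ, (om v : ℂ) * exp (((κ * v : ℝ) : ℂ) * I) =
      2 * ((Real.pi * κ / Real.sinh (Real.pi * κ) : ℝ) : ℂ) := by
    rw [h]
    ring
  rw [h3, SS]
  push_cast
  ring

private theorem zc_int_cos (κ : ℝ) : Integrable fun v => om v * Real.cos (κ * v) := by
  refine integrable_om.mul_bdd (c := 1) ?_ ?_
  · exact (by fun_prop : Continuous fun x : ℝ => Real.cos (κ * x)).aestronglyMeasurable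
  · exact Eventually.of_forall fun x => Real.abs_cos_le_one _

private theorem zc_int_sin (κ : ℝ) : Integrable fun v => om v * Real.sin (κ * v) := by
  refine integrable_om.mul_bdd (c := 1) ?_ ?_
  · exact (by fun_prop : Continuous fun x : ℝ => Real.sin (κ * x)).aestronglyMeasurable
  · exact Eventually.of_forall fun x => Real.abs_sin_le_one _

/-- Fourier transform of `om` (Beta function and reflection formula) -/
theorem fourier_om {κ : ℝ} (hκ : 0 < κ) :
    ∫ v : ℝ, om v * Real.cos (κ * v) = SS κ := by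
  have hi : Integrable fun v : ℝ => (om v : ℂ) * exp (((κ * v : ℝ) : ℂ) * I) := by
    refine integrable_om.ofReal.mul_bdd (c := 1) ?_ ?_
    · exact (by fun_prop : Continuous fun v : ℝ => exp (((κ * v : ℝ) : ℂ) * I)).aestronglyMeasurable
    · exact Eventually.of_forall fun x => (Complex.norm_exp_ofReal_mul_I _).le
  have h := congrArg Complex.reCLM (zc_fourier hκ)
  rw [← Complex.reCLM.integral_comp_comm hi] at h
  simp only [Complex.reCLM_apply, Complex.ofReal_re] at h
  rw [← h]
  congr 1
  ext v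
  rw [Complex.re_ofReal_mul, Complex.exp_ofReal_mul_I_re]

theorem z1_eq {w κ : ℝ} (hw : 0 < w) (hκ : 0 < κ) :
    z1 w κ = SS κ * Real.sin (κ * Real.log w) +
      ∫ x in Set.Ioi (0 : ℝ), om (x + Real.log w) * Real.sin (κ * x) := by
  set L := Real.log w with hL
  set g : ℝ → ℝ := fun v => om v * Real.sin (κ * (v + L)) with hg
  have hgi : Integrable g := by
    refine integrable_om.mul_bdd (c := 1) ?_ ?_
    · exact (by fun_prop : Continuous fun x : ℝ => Real.sin (κ * (x + L))).aestronglyMeasurable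
    · exact Eventually.of_forall fun x => Real.abs_sin_le_one _
  have h1 : z1 w κ = ∫ v in Set.Ioi (-L), g v := by
    have := zc_shift g (-L) 0
    rw [zero_add] at this
    rw [← this, z1]
    refine setIntegral_congr_fun measurableSet_Ioi fun u _ => ?_
    simp only [hg, ← hL]
    congr 2
    ring
  have h2 : ∫ v, g v = SS κ * Real.sin (κ * L) := by
    have e1 : ∀ v, g v = Real.cos (κ * L) * (om v * Real.sin (κ * v)) +
        Real.sin (κ * L) * (om v * Real.cos (κ * v)) := by
      intro v
      simp only [hg]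
      rw [mul_add, Real.sin_add]
      ring
    have e2 : ∫ v, om v * Real.sin (κ * v) = 0 := by
      have h3 := integral_neg_eq_self (fun v => om v * Real.sin (κ * v)) (volume : Measure ℝ)
      have h4 : ∀ v, om (-v) * Real.sin (κ * -v) = -(om v * Real.sin (κ * v)) := by
        intro v
        rw [zc_om_neg, mul_neg, Real.sin_neg, mul_neg]
      simp only [h4] at h3
      rw [integral_neg] at h3
      linarith
    simp only [e1]
    rw [integral_add ((zc_int_sin κ).const_mul _) ((zc_int_cos κ).const_mul _),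
      integral_const_mul, integral_const_mul, e2, fourier_om hκ]
    ring
  have h3 : ∫ v in Set.Iic (-L), g v = -∫ x in Set.Ioi (0 : ℝ), om (x + L) * Real.sin (κ * x) := by
    have e1 := integral_comp_neg_Iic (-L) (fun x => g (-x))
    simp only [neg_neg] at e1
    rw [e1]
    have e2 := zc_shift (fun x => g (-x)) L 0
    rw [zero_add] at e2
    rw [← e2, ← integral_neg]
    refine setIntegral_congr_fun measurableSet_Ioi fun x _ => ?_
    simp only [hg]
    rw [zc_om_neg, show κ * (-(x + L) + L) = -(κ * x) by ring, Real.sin_neg, mul_neg]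
  have h4 := integral_add_compl measurableSet_Iic hgi (s := Set.Iic (-L))
  rw [Set.compl_Iic, h2, h3] at h4
  rw [h1]
  linarith

theorem tail_le_exp {w κ : ℝ} (hw : 1 ≤ w) :
    |∫ x in Set.Ioi (0 : ℝ), om (x + Real.log w) * Real.sin (κ * x)| ≤ 2 / w := by
  have hw0 : 0 < w := by linarith
  have h1 : |∫ x in Set.Ioi (0 : ℝ), om (x + Real.log w) * Real.sin (κ * x)| ≤
      ∫ x in Set.Ioi (0 : ℝ), om (x + Real.log w) := by
    rw [← Real.norm_eq_abs]
    refine norm_integral_le_of_norm_le (integrable_om.comp_add_right _).integrableOn ?_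
    refine Eventually.of_forall fun x => ?_
    rw [norm_mul, Real.norm_eq_abs, Real.norm_eq_abs, abs_of_pos (zc_om_pos _)]
    exact mul_le_of_le_one_right (zc_om_pos _).le (Real.abs_sin_le_one _)
  rw [zc_shift om, zero_add, integral_om_Ioi] at h1
  refine h1.trans ?_
  have h2 : Real.tanh (Real.log w / 2) = (w - 1) / (w + 1) := by
    rw [Real.tanh_eq_sinh_div_cosh, Real.sinh_eq, Real.cosh_eq]
    set e := Real.exp (Real.log w / 2) with he
    have he0 : 0 < e := Real.exp_pos _
    have h3 : Real.exp (-(Real.log w / 2)) = e⁻¹ := Real.exp_neg _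
    have h4 : e * e = w := by
      rw [he, ← Real.exp_add, add_halves, Real.exp_log hw0]
    rw [h3, ← h4]
    field_simp
  rw [h2]
  rw [sub_div' (by positivity), div_le_div_iff₀ (by positivity) (by positivity)]
  nlinarith

theorem tail_le_parts {w κ : ℝ} (hw : 1 ≤ w) (hκ : 0 < κ) :
    |∫ x in Set.Ioi (0 : ℝ), om (x + Real.log w) * Real.sin (κ * x)| ≤
      1 / κ * (om (Real.log w) + 385 / 1000 / κ) := by
  have hL : 0 ≤ Real.log w := Real.log_nonneg hw
  rw [zc_parts hκ]
  have h1 : |∫ x in Set.Ioi (0 : ℝ), (Real.cosh (x + Real.log w) - 2) /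
      (1 + Real.cosh (x + Real.log w)) ^ 2 * Real.sin (κ * x)| ≤
      ∫ x in Set.Ioi (0 : ℝ), |(Real.cosh (x + Real.log w) - 2) /
        (1 + Real.cosh (x + Real.log w)) ^ 2| := by
    rw [← Real.norm_eq_abs]
    refine norm_integral_le_of_norm_le (integral_abs_om''.1.comp_add_right _).abs.integrableOn ?_
    refine Eventually.of_forall fun x => ?_
    rw [norm_mul, Real.norm_eq_abs, Real.norm_eq_abs]
    exact mul_le_of_le_one_right (abs_nonneg _) (Real.abs_sin_le_one _)
  rw [zc_shift (fun v => |(Real.cosh v - 2) / (1 + Real.cosh v) ^ 2|), zero_add] at h1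
  have h2 : ∫ v in Set.Ioi (Real.log w), |(Real.cosh v - 2) / (1 + Real.cosh v) ^ 2| ≤
      ∫ v in Set.Ioi (0:ℝ), |(Real.cosh v - 2) / (1 + Real.cosh v) ^ 2| := by
    refine setIntegral_mono_set integral_abs_om''.1.abs.integrableOn
      (Eventually.of_forall fun x => abs_nonneg _) ?_
    exact (Set.Ioi_subset_Ioi hL).eventuallyLE
  have h3 := h1.trans (h2.trans integral_abs_om''.2.2)
  have h4 := zc_om_pos (Real.log w)
  calc |om (Real.log w) / κ - 1 / κ ^ 2 * ∫ x in Set.Ioi (0 : ℝ),
        (Real.cosh (x + Real.log w) - 2) / (1 + Real.cosh (x + Real.log w)) ^ 2 *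
          Real.sin (κ * x)| ≤ |om (Real.log w) / κ| + |1 / κ ^ 2 * ∫ x in Set.Ioi (0 : ℝ),
        (Real.cosh (x + Real.log w) - 2) / (1 + Real.cosh (x + Real.log w)) ^ 2 *
          Real.sin (κ * x)| := abs_sub _ _
    _ ≤ om (Real.log w) / κ + 1 / κ ^ 2 * (385 / 1000) := by
        rw [abs_mul, abs_of_pos (by positivity : 0 < om (Real.log w) / κ),
          abs_of_pos (by positivity : 0 < 1 / κ ^ 2)]
        exact add_le_add le_rfl (mul_le_mul_of_nonneg_left h3 (by positivity))
    _ = 1 / κ * (om (Real.log w) + 385 / 1000 / κ) := by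
        field_simp

end Pool.Agent.Lib.Durfee
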