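import Pool.Agent.Lib.MP_9393b1_co.ZedA

/-! # `SS` and the `θ`-integral off the window -/

set_option autoImplicit false

namespace Pool.Agent.Lib.Durfee

open Complex MeasureTheory Filter Topology

private lemma zedD_sinh_pos {κ : ℝ} (hκ : 0 < κ) : 0 < Real.sinh (Real.pi * κ) :=
  Real.sinh_pos_iff.2 (mul_pos Real.pi_pos hκ)

theorem SS_pos {κ : ℝ} (hκ : 0 < κ) : 0 < SS κ := by
  unfold SS
  have := zedD_sinh_pos hκ
  have := Real.pi_pos
  positivity

private lemma zedD_sinh_mul {t x : ℝ} (ht0 : 0 ≤ t) (ht1 : t ≤ 1) (hx : 0 ≤ x) :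
    Real.sinh (t * x) ≤ t * Real.sinh x := by
  have hd : ∀ y : ℝ, HasDerivAt (fun y : ℝ => t * Real.sinh y - Real.sinh (t * y))
      (t * Real.cosh y - Real.cosh (t * y) * t) y := by
    intro y
    have h1 := (Real.hasDerivAt_sinh y).const_mul t
    have h2 : HasDerivAt (fun y : ℝ => t * y) t y := by
      simpa using (hasDerivAt_id y).const_mul t
    exact h1.sub h2.sinh
  have hm : MonotoneOn (fun y : ℝ => t * Real.sinh y - Real.sinh (t * y)) (Set.Ici 0) := by
    apply monotoneOn_of_deriv_nonneg (convex_Ici 0)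
    · exact fun y _ => (hd y).continuousAt.continuousWithinAt
    · exact fun y _ => (hd y).differentiableAt.differentiableWithinAt
    · intro y hy
      rw [interior_Ici] at hy
      have hy' : (0 : ℝ) < y := hy
      rw [(hd y).deriv]
      have h3 : Real.cosh (t * y) ≤ Real.cosh y := by
        apply Real.cosh_le_cosh.2
        rw [abs_of_nonneg (mul_nonneg ht0 hy'.le), abs_of_pos hy']
        nlinarith
      nlinarith
  have h := hm (Set.mem_Ici.2 le_rfl) (Set.mem_Ici.2 hx) hx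
  simp only [Real.sinh_zero, mul_zero, sub_zero] at h
  linarith

theorem SS_anti {κ κ' : ℝ} (hκ : 0 < κ) (h : κ ≤ κ') : SS κ' ≤ SS κ := by
  have hκ' : 0 < κ' := lt_of_lt_of_le hκ h
  have h1 := zedD_sinh_pos hκ
  have h2 := zedD_sinh_pos hκ'
  have h3 := zedD_sinh_mul (t := κ / κ') (x := Real.pi * κ') (div_pos hκ hκ').le
    ((div_le_one hκ').2 h) (mul_pos Real.pi_pos hκ').le
  have h4 : κ / κ' * (Real.pi * κ') = Real.pi * κ := by
    field_simp
  rw [h4] at h3
  unfold SS
  rw [div_le_div_iff₀ h2 h1]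
  have h5 : κ' * Real.sinh (Real.pi * κ) ≤ κ * Real.sinh (Real.pi * κ') := by
    have h6 := mul_le_mul_of_nonneg_left h3 hκ'.le
    have h7 : κ' * (κ / κ' * Real.sinh (Real.pi * κ')) = κ * Real.sinh (Real.pi * κ') := by
      field_simp
    rwa [h7] at h6
  have h8 := mul_le_mul_of_nonneg_left h5 (show (0 : ℝ) ≤ 2 * Real.pi by positivity)
  calc 2 * Real.pi * κ' * Real.sinh (Real.pi * κ)
      = 2 * Real.pi * (κ' * Real.sinh (Real.pi * κ)) := by ring
    _ ≤ 2 * Real.pi * (κ * Real.sinh (Real.pi * κ')) := h8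
    _ = 2 * Real.pi * κ * Real.sinh (Real.pi * κ') := by ring

private lemma zedD_le_sinh {y : ℝ} (hy : 0 ≤ y) :
    y + y ^ 3 / 6 + y ^ 5 / 120 + y ^ 7 / 5040 ≤ Real.sinh y := by
  have h := sum_le_hasSum (Finset.range 4) (fun n _ => by positivity) (Real.hasSum_sinh y)
  refine le_trans (le_of_eq ?_) h
  simp [Finset.sum_range_succ, Nat.factorial]
  norm_num

theorem SS_le_six {κ : ℝ} (hκ : 0 < κ) :
    SS κ ≤ 2 / (1 + (Real.pi * κ) ^ 2 / 6 + (Real.pi * κ) ^ 4 / 120 + (Real.pi * κ) ^ 6 / 5040) := by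
  have hy : 0 < Real.pi * κ := mul_pos Real.pi_pos hκ
  have h1 := zedD_le_sinh hy.le
  have h2 := zedD_sinh_pos hκ
  unfold SS
  rw [mul_assoc]
  generalize Real.pi * κ = y at *
  rw [div_le_div_iff₀ h2 (by positivity)]
  nlinarith

theorem SS_le {κ : ℝ} (hκ : 0 < κ) : SS κ ≤ 2 / (1 + Real.pi ^ 2 * κ ^ 2 / 6) := by
  refine (SS_le_six hκ).trans ?_
  have hy : 0 < Real.pi * κ := mul_pos Real.pi_pos hκ
  have h1 : Real.pi ^ 2 * κ ^ 2 = (Real.pi * κ) ^ 2 := by ring
  rw [h1]
  generalize Real.pi * κ = y at *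
  apply div_le_div_of_nonneg_left (by norm_num) (by positivity)
  have : 0 ≤ y ^ 4 / 120 + y ^ 6 / 5040 := by positivity
  linarith

/-- `∫_{-π}^{π} e^{A cos θ} dθ ≤ π^{3/2} e^A/√(2A)` -/
theorem integral_exp_cos_le {A : ℝ} (hA : 0 < A) :
    ∫ θ in (-Real.pi)..Real.pi, Real.exp (A * Real.cos θ) ≤
      Real.pi * Real.sqrt Real.pi * Real.exp A / Real.sqrt (2 * A) := by
  have hpi := Real.pi_pos
  have hb : 0 < 2 * A / Real.pi ^ 2 := by positivity
  have hint : Integrable (fun θ : ℝ => Real.exp A * Real.exp (-(2 * A / Real.pi ^ 2) * θ ^ 2)) :=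
    (integrable_exp_neg_mul_sq hb).const_mul _
  have h1 : ∫ θ in (-Real.pi)..Real.pi, Real.exp (A * Real.cos θ) ≤
      ∫ θ in (-Real.pi)..Real.pi,
        Real.exp A * Real.exp (-(2 * A / Real.pi ^ 2) * θ ^ 2) := by
    apply intervalIntegral.integral_mono_on (by linarith)
    · exact Continuous.intervalIntegrable (by fun_prop) _ _
    · exact hint.intervalIntegrable
    · intro θ hθ
      rw [← Real.exp_add]
      apply Real.exp_le_exp.2
      have h2 := Real.cos_le_one_sub_mul_cos_sq (abs_le.2 ⟨hθ.1, hθ.2⟩)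
      have h3 := mul_le_mul_of_nonneg_left h2 hA.le
      refine h3.trans (le_of_eq ?_)
      ring
  refine h1.trans ?_
  rw [intervalIntegral.integral_of_le (by linarith)]
  have h4 : ∫ θ in Set.Ioc (-Real.pi) Real.pi,
        Real.exp A * Real.exp (-(2 * A / Real.pi ^ 2) * θ ^ 2) ≤
      ∫ θ : ℝ, Real.exp A * Real.exp (-(2 * A / Real.pi ^ 2) * θ ^ 2) := by
    apply setIntegral_le_integral hint
    exact Eventually.of_forall fun θ => by positivity
  refine h4.trans (le_of_eq ?_)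
  rw [integral_const_mul, integral_gaussian]
  have h5 : Real.pi / (2 * A / Real.pi ^ 2) = Real.pi ^ 2 * Real.pi / (2 * A) := by
    field_simp
  rw [h5, Real.sqrt_div (by positivity), Real.sqrt_mul (by positivity), Real.sqrt_sq hpi.le]
  ring

private lemma zedD_sym (Z : ℝ) :
    ∫ θ in (-Real.pi)..Real.pi, Real.exp (-Z * Real.cos θ) =
      ∫ θ in (-Real.pi)..Real.pi, Real.exp (Z * Real.cos θ) := by
  have h1 : ∀ θ : ℝ, Real.exp (-Z * Real.cos θ) = Real.exp (Z * Real.cos (θ + Real.pi)) := by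
    intro θ
    rw [Real.cos_add_pi]
    ring_nf
  simp_rw [h1]
  rw [intervalIntegral.integral_comp_add_right (fun θ => Real.exp (Z * Real.cos θ)) Real.pi]
  have hper : Function.Periodic (fun θ : ℝ => Real.exp (Z * Real.cos θ)) (2 * Real.pi) := by
    intro θ
    simp only [Real.cos_add_two_pi]
  have h2 := hper.intervalIntegral_add_eq 0 (-Real.pi)
  have e1 : -Real.pi + Real.pi = 0 := by ring
  have e2 : Real.pi + Real.pi = 0 + 2 * Real.pi := by ring
  have e3 : -Real.pi + 2 * Real.pi = Real.pi := by ring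
  rw [e1, e2, h2, e3]

private lemma zedD_cosh (Z : ℝ) :
    ∫ θ in (-Real.pi)..Real.pi, Real.exp (Z * Real.cos θ) =
      ∫ θ in (-Real.pi)..Real.pi, Real.cosh (Z * Real.cos θ) := by
  have h1 : ∀ θ : ℝ, Real.cosh (Z * Real.cos θ) =
      (1 / 2) * (Real.exp (Z * Real.cos θ) + Real.exp (-Z * Real.cos θ)) := by
    intro θ
    rw [Real.cosh_eq, neg_mul]
    ring
  simp_rw [h1]
  rw [intervalIntegral.integral_const_mul, intervalIntegral.integral_add
    (Continuous.intervalIntegrable (by fun_prop) _ _)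
    (Continuous.intervalIntegrable (by fun_prop) _ _), zedD_sym]
  ring

private lemma zedD_mono {Z A : ℝ} (h : |Z| ≤ A) :
    ∫ θ in (-Real.pi)..Real.pi, Real.exp (Z * Real.cos θ) ≤
      ∫ θ in (-Real.pi)..Real.pi, Real.exp (A * Real.cos θ) := by
  have hpi := Real.pi_pos
  rw [zedD_cosh, zedD_cosh A]
  apply intervalIntegral.integral_mono_on (by linarith)
  · exact Continuous.intervalIntegrable (by fun_prop) _ _
  · exact Continuous.intervalIntegrable (by fun_prop) _ _
  · intro θ _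
    apply Real.cosh_le_cosh.2
    rw [abs_mul, abs_mul]
    exact mul_le_mul_of_nonneg_right (h.trans (le_abs_self A)) (abs_nonneg _)

/-- `θ`-integral of the product -/
theorem integral_norm_PP_le {w σ β A : ℝ} (hw : 0 < w) (hσ : 0 < σ) (hA : 0 < A)
    (h : |Z1 w σ β| ≤ A) :
    ∫ θ in (-Real.pi)..Real.pi, ‖PP w θ ((σ : ℂ) + β * I)‖ ≤
      Real.exp (B0 w σ + A) * (Real.pi * Real.sqrt Real.pi / Real.sqrt (2 * A)) := by
  have hpi := Real.pi_pos
  have hcont : Continuous (fun θ : ℝ => PP w θ ((σ : ℂ) + β * I)) := by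
    have h := (continuous_PP w hσ).comp (Continuous.prodMk continuous_id (continuous_const (y := β)))
    exact h
  have h1 : ∫ θ in (-Real.pi)..Real.pi, ‖PP w θ ((σ : ℂ) + β * I)‖ ≤
      ∫ θ in (-Real.pi)..Real.pi,
        Real.exp (B0 w σ) * Real.exp (Z1 w σ β * Real.cos θ) := by
    apply intervalIntegral.integral_mono_on (by linarith)
    · exact hcont.norm.intervalIntegrable _ _
    · exact Continuous.intervalIntegrable (by fun_prop) _ _
    · intro θ _
      rw [← Real.exp_add, mul_comm (Z1 w σ β)]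
      exact norm_PP_le hw hσ θ β
  refine h1.trans ?_
  rw [intervalIntegral.integral_const_mul, Real.exp_add, mul_assoc]
  apply mul_le_mul_of_nonneg_left _ (Real.exp_pos _).le
  refine ((zedD_mono h).trans (integral_exp_cos_le hA)).trans (le_of_eq ?_)
  ring

end Pool.Agent.Lib.Durfee
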