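import Pool.Agent.Lib.MP_9393b1_co.HypM
import Pool.Agent.Lib.MP_9393b1_co.ZedB
import Pool.Agent.Lib.MP_9393b1_co.ZedC
import Pool.Agent.Lib.MP_9393b1_co.ZedD

/-! # Regime M: off the window, pointwise bounds -/

set_option autoImplicit false

namespace Pool.Agent.Lib.Durfee

open Complex MeasureTheory Filter Topology

variable {n : ℕ} {w : ℝ}

/-- normalised product `e^{-P} |PP|` -/
noncomputable def NP (n : ℕ) (w θ τ : ℝ) : ℝ :=
  Real.exp (-PPn n w) * ‖PP w θ (ss (sg n w) τ)‖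

private theorem offBase_P (H : HypM n w) : PPn n w = aa w ^ 2 / sg n w := by
  have hR := H.R_ge
  have hR0 : (Real.sqrt n) ≠ 0 := by
    have : (0 : ℝ) < Real.sqrt n := by linarith
    exact this.ne'
  have ha := aa_pos (w := w) (by linarith [H.hw])
  unfold PPn sg
  field_simp

private theorem offBase_B0 (H : HypM n w) :
    -PPn n w + B0 w (sg n w) ≤ -(gapinf w / sg n w) := by
  have hσ := H.sg_pos
  have h1 := B0_le (w := w) (σ := sg n w) (by linarith [H.hw]) hσ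
  rw [offBase_P H]
  have h2 : (∫ u in Set.Ioi (0 : ℝ), Real.log (1 + w * Real.exp (-u))) = Phir w := rfl
  rw [h2] at h1
  unfold gapinf
  have h3 : -(aa w ^ 2 / sg n w) + (2 * Phir w - 2 * w / (1 + w)) / sg n w =
      -((aa w ^ 2 - 2 * Phir w + 2 * w / (1 + w)) / sg n w) := by
    field_simp
    ring
  linarith

private theorem offBase_norm (H : HypM n w) (θ τ : ℝ) :
    ‖PP w θ (ss (sg n w) τ)‖ ≤
      Real.exp (B0 w (sg n w) + Real.cos θ * Z1 w (sg n w) (sg n w * τ)) :=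
  norm_PP_le (by linarith [H.hw]) H.sg_pos θ (sg n w * τ)

theorem NP_le (H : HypM n w) (θ τ : ℝ) :
    NP n w θ τ ≤ Real.exp (-(gapinf w / sg n w) + Real.cos θ * Z1 w (sg n w) (sg n w * τ)) := by
  unfold NP
  calc Real.exp (-PPn n w) * ‖PP w θ (ss (sg n w) τ)‖
      ≤ Real.exp (-PPn n w) *
        Real.exp (B0 w (sg n w) + Real.cos θ * Z1 w (sg n w) (sg n w * τ)) :=
        mul_le_mul_of_nonneg_left (offBase_norm H θ τ) (Real.exp_pos _).le
    _ = Real.exp (-PPn n w + B0 w (sg n w) + Real.cos θ * Z1 w (sg n w) (sg n w * τ)) := by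
        rw [← Real.exp_add]; congr 1; ring
    _ ≤ _ := by
        apply Real.exp_le_exp.2
        have := offBase_B0 H
        linarith

theorem NP_nonneg (n : ℕ) (w θ τ : ℝ) : 0 ≤ NP n w θ τ := by
  unfold NP
  positivity

theorem continuous_NP (H : HypM n w) : Continuous (fun p : ℝ × ℝ => NP n w p.1 p.2) := by
  unfold NP
  have h1 := continuous_PP w H.sg_pos
  have h2 : Continuous (fun p : ℝ × ℝ => (p.1, sg n w * p.2)) := by fun_prop
  exact continuous_const.mul ((h1.comp h2).norm)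

private theorem offBase_Z1 (H : HypM n w) {τ : ℝ} (hτ : 0 ≤ τ) :
    |Z1 w (sg n w) (sg n w * τ) - z1 w τ / sg n w| ≤
      sg n w / 8 * (2 * τ ^ 2 + 2 * τ + 77 / 100) :=
  Z1_sub_z1_le (by linarith [H.hw]) H.sg_pos hτ

private theorem offBase_cos {θ : ℝ} (hθ : 5 * Real.pi / 12 ≤ |θ|) (hθ2 : |θ| ≤ Real.pi) :
    Real.cos θ ≤ 25882 / 100000 := by
  have hpi := Real.pi_pos
  have h1 : Real.cos θ ≤ Real.cos (5 * Real.pi / 12) := by
    rw [← Real.cos_abs θ]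
    exact Real.cos_le_cos_of_nonneg_of_le_pi (by positivity) hθ2 hθ
  have h2 : Real.cos (5 * Real.pi / 12) ^ 2 = 1 / 2 + Real.cos (2 * (5 * Real.pi / 12)) / 2 :=
    Real.cos_sq _
  have h3 : Real.cos (2 * (5 * Real.pi / 12)) = -(Real.sqrt 3 / 2) := by
    rw [show 2 * (5 * Real.pi / 12) = Real.pi - Real.pi / 6 by ring, Real.cos_pi_sub,
      Real.cos_pi_div_six]
  have h4 : (1.73205 : ℝ) ≤ Real.sqrt 3 := by
    apply Real.le_sqrt_of_sq_le
    norm_num
  have h5 : Real.cos (5 * Real.pi / 12) ≤ 25882 / 100000 := by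
    apply le_of_sq_le_sq _ (by norm_num)
    rw [h2, h3]
    norm_num
    linarith
  linarith

/-- `|θ| ≥ 5π/12`, `0 ≤ τ ≤ T` -/
theorem NP_le_b (H : HypM n w) {θ τ : ℝ} (hθ : 5 * Real.pi / 12 ≤ |θ|) (hθ2 : |θ| ≤ Real.pi)
    (hτ : 0 ≤ τ) (hτT : τ ≤ TT w) :
    NP n w θ τ ≤ Real.exp (-((gapinf w - 25883 / 100000 * (2 * w / (1 + w))) / sg n w) +
      sg n w / 8 * (2 * τ ^ 2 + 2 * τ + 77 / 100)) := by
  refine (NP_le H θ τ).trans (Real.exp_le_exp.2 ?_)
  have hw := H.hw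
  have hw0 : 0 < w := by linarith
  have hσ := H.sg_pos
  have hL := H.log_nonneg
  have hpi := Real.pi_pos
  have hc := offBase_cos hθ hθ2
  have hc1 : -1 ≤ Real.cos θ := Real.neg_one_le_cos θ
  have hz0 : 0 ≤ z1 w τ := by
    apply z1_nonneg hw hτ
    have h1 := H.TT_mul_log
    have h2 : τ * Real.log w ≤ TT w * Real.log w := mul_le_mul_of_nonneg_right hτT hL
    linarith
  have hz1 : z1 w τ ≤ 2 * w / (1 + w) := (le_abs_self _).trans (abs_z1_le_mass hw0)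
  have hZ := abs_le.1 (offBase_Z1 H hτ)
  set σ := sg n w with hσdef
  set Z := Z1 w σ (σ * τ)
  set e := σ / 8 * (2 * τ ^ 2 + 2 * τ + 77 / 100) with he
  have he0 : 0 ≤ e := by positivity
  have hm : 0 ≤ 2 * w / (1 + w) := by positivity
  have hzs : 0 ≤ z1 w τ / σ := by positivity
  have hzs1 : z1 w τ / σ ≤ (2 * w / (1 + w)) / σ := by gcongr
  have hsplit : -((gapinf w - 25883 / 100000 * (2 * w / (1 + w))) / σ) + e =
      -(gapinf w / σ) + (25883 / 100000 * ((2 * w / (1 + w)) / σ) + e) := by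
    field_simp
    ring
  rw [hsplit]
  have key : Real.cos θ * Z ≤ 25883 / 100000 * ((2 * w / (1 + w)) / σ) + e := by
    rcases le_or_gt 0 Z with hZ0 | hZ0
    · have h1 : Real.cos θ * Z ≤ 25882 / 100000 * Z := mul_le_mul_of_nonneg_right hc hZ0
      nlinarith
    · have h1 : Real.cos θ * Z ≤ -1 * Z := by
        apply mul_le_mul_of_nonpos_right hc1 hZ0.le
      have h2 : 0 ≤ 25883 / 100000 * ((2 * w / (1 + w)) / σ) := by positivity
      linarith
  linarith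

private theorem offBase_cos_mul (θ Z : ℝ) : Real.cos θ * Z ≤ |Z| := by
  have h1 : |Real.cos θ * Z| ≤ 1 * |Z| := by
    rw [abs_mul]
    exact mul_le_mul_of_nonneg_right (Real.abs_cos_le_one θ) (abs_nonneg _)
  linarith [le_abs_self (Real.cos θ * Z)]

/-- `τ ≥ 4` -/
theorem NP_le_far (H : HypM n w) {θ τ : ℝ} (hτ : 4 ≤ τ) (hτ2 : τ ≤ Real.pi / sg n w) :
    NP n w θ τ ≤ Real.exp (-((gapinf w - 252 / 1000) / sg n w)) := by
  refine (NP_le H θ τ).trans (Real.exp_le_exp.2 ?_)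
  have hw := H.hw
  have hw0 : 0 < w := by linarith
  have hσ := H.sg_pos
  have hpi := Real.pi_pos
  have hinv := H.inv_sg_ge
  have hβπ : sg n w * τ ≤ Real.pi := by
    rw [le_div_iff₀ hσ] at hτ2
    linarith
  have h1 := abs_Z1_le (w := w) (σ := sg n w) (β := sg n w * τ) hw0 hσ (by positivity) hβπ
  have h2 := offBase_cos_mul θ (Z1 w (sg n w) (sg n w * τ))
  set σ := sg n w with hσdef
  have hσ1 : σ ≤ 1 / 10.55 := by
    rw [le_div_iff₀ hσ] at hinv
    rw [le_div_iff₀ (by norm_num)]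
    linarith
  have hs1 : Real.sin (2 * σ) ≤ Real.sin (σ * τ / 2) := by
    apply Real.sin_le_sin_of_le_of_le_pi_div_two
    · linarith
    · linarith
    · nlinarith
  have hs2 : 2 * σ * (99 / 100 + 36 / 10000) ≤ Real.sin (2 * σ) := by
    have h3 := Real.sin_bound (x := 2 * σ) (by rw [abs_of_pos (by positivity)]; norm_num at hσ1; linarith)
    have h4 := (abs_le.1 h3).1
    rw [abs_of_pos (by positivity : 0 < 2 * σ)] at h4
    have h5 : σ ^ 2 ≤ (1 / 10.55) ^ 2 := pow_le_pow_left₀ hσ.le hσ1 2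
    have h6 : σ ^ 3 ≤ σ * (1 / 10.55) ^ 2 := by
      calc σ ^ 3 = σ * σ ^ 2 := by ring
        _ ≤ _ := mul_le_mul_of_nonneg_left h5 hσ.le
    have h7 : σ ^ 4 ≤ σ * (1 / 10.55) ^ 3 := by
      calc σ ^ 4 = σ * σ ^ 3 := by ring
        _ ≤ _ := mul_le_mul_of_nonneg_left (pow_le_pow_left₀ hσ.le hσ1 3) hσ.le
    norm_num at h6 h7 ⊢
    nlinarith
  have hs3 : 0 < Real.sin (σ * τ / 2) := by
    have : 0 < 2 * σ * (99 / 100 + 36 / 10000) := by positivity
    linarith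
  have h8 : 1 / (2 * Real.sin (σ * τ / 2)) ≤ 252 / 1000 / σ := by
    rw [div_le_div_iff₀ (by positivity) hσ]
    nlinarith
  have h9 : -((gapinf w - 252 / 1000) / σ) = -(gapinf w / σ) + 252 / 1000 / σ := by
    field_simp
    ring
  rw [h9]
  linarith

/-- `0 < τ ≤ 4`, all `θ`, with a bound `ζ` for `|z1|` -/
theorem NP_le_of_z1 (H : HypM n w) {θ τ ζ : ℝ} (hτ : 0 < τ) (hτ2 : τ ≤ 4) (hζ : |z1 w τ| ≤ ζ) :
    NP n w θ τ ≤ Real.exp (-((gapinf w - ζ) / sg n w) + 51 / 10 * sg n w) := by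
  refine (NP_le H θ τ).trans (Real.exp_le_exp.2 ?_)
  have hσ := H.sg_pos
  have h2 := offBase_cos_mul θ (Z1 w (sg n w) (sg n w * τ))
  have hZ := offBase_Z1 H hτ.le
  set σ := sg n w with hσdef
  have h3 : |Z1 w σ (σ * τ)| ≤ |z1 w τ / σ| + |Z1 w σ (σ * τ) - z1 w τ / σ| := by
    have := abs_add_le (z1 w τ / σ) (Z1 w σ (σ * τ) - z1 w τ / σ)
    rwa [add_sub_cancel] at this
  have h4 : |z1 w τ / σ| ≤ ζ / σ := by
    rw [abs_div, abs_of_pos hσ]
    gcongr
  have h5 : σ / 8 * (2 * τ ^ 2 + 2 * τ + 77 / 100) ≤ 51 / 10 * σ := by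
    have : 2 * τ ^ 2 + 2 * τ + 77 / 100 ≤ 4077 / 100 := by nlinarith
    nlinarith
  have h9 : -((gapinf w - ζ) / σ) = -(gapinf w / σ) + ζ / σ := by
    field_simp
    ring
  rw [h9]
  linarith

/-- `0 < τ ≤ 1`, `θ`-integral, with a bound `ζ ≥ 1/2` for `|z1|` -/
theorem integral_NP_le_of_z1 (H : HypM n w) {τ ζ : ℝ} (hτ : 0 < τ) (hτ2 : τ ≤ 1)
    (hζ : |z1 w τ| ≤ ζ) (hζ2 : 1 / 2 ≤ ζ) :
    ∫ θ in (-Real.pi)..Real.pi, NP n w θ τ ≤
      Real.pi * Real.sqrt Real.pi * Real.sqrt (sg n w) *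
        Real.exp (-((gapinf w - ζ) / sg n w) + 6 / 10 * sg n w) := by
  have hw := H.hw
  have hw0 : 0 < w := by linarith
  have hσ := H.sg_pos
  have hZ := offBase_Z1 H hτ.le
  have hB := offBase_B0 H
  unfold NP
  rw [intervalIntegral.integral_const_mul]
  set σ := sg n w with hσdef
  have h3 : |Z1 w σ (σ * τ)| ≤ |z1 w τ / σ| + |Z1 w σ (σ * τ) - z1 w τ / σ| := by
    have := abs_add_le (z1 w τ / σ) (Z1 w σ (σ * τ) - z1 w τ / σ)
    rwa [add_sub_cancel] at this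
  have h4 : |z1 w τ / σ| ≤ ζ / σ := by
    rw [abs_div, abs_of_pos hσ]
    gcongr
  have h5 : σ / 8 * (2 * τ ^ 2 + 2 * τ + 77 / 100) ≤ 6 / 10 * σ := by
    have : 2 * τ ^ 2 + 2 * τ + 77 / 100 ≤ 477 / 100 := by nlinarith
    nlinarith
  have hA : 0 < ζ / σ + 6 / 10 * σ := by positivity
  have h6 := integral_norm_PP_le (w := w) (σ := σ) (β := σ * τ) (A := ζ / σ + 6 / 10 * σ)
    hw0 hσ hA (by linarith)
  have h7 : 1 / Real.sqrt (2 * (ζ / σ + 6 / 10 * σ)) ≤ Real.sqrt σ := by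
    have h8 : 1 / σ ≤ 2 * (ζ / σ + 6 / 10 * σ) := by
      have : 1 / 2 / σ ≤ ζ / σ := by gcongr
      have h9 : 1 / σ = 2 * (1 / 2 / σ) := by ring
      have h10 : 0 ≤ 6 / 10 * σ := by positivity
      linarith
    have h9 : 1 / Real.sqrt σ ≤ Real.sqrt (2 * (ζ / σ + 6 / 10 * σ)) := by
      rw [← Real.sqrt_one, ← Real.sqrt_div zero_le_one]
      exact Real.sqrt_le_sqrt h8
    have hs : 0 < Real.sqrt σ := Real.sqrt_pos.2 hσ
    rw [div_le_iff₀ (Real.sqrt_pos.2 (by positivity))]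
    rw [div_le_iff₀ hs] at h9
    linarith
  have h10 : Real.exp (-PPn n w) * Real.exp (B0 w σ + (ζ / σ + 6 / 10 * σ)) ≤
      Real.exp (-((gapinf w - ζ) / σ) + 6 / 10 * σ) := by
    rw [← Real.exp_add]
    apply Real.exp_le_exp.2
    have h9 : -((gapinf w - ζ) / σ) = -(gapinf w / σ) + ζ / σ := by
      field_simp
      ring
    rw [h9]
    linarith
  have hpp : 0 ≤ Real.pi * Real.sqrt Real.pi := by positivity
  calc Real.exp (-PPn n w) * ∫ θ in (-Real.pi)..Real.pi, ‖PP w θ (ss σ τ)‖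
      ≤ Real.exp (-PPn n w) * (Real.exp (B0 w σ + (ζ / σ + 6 / 10 * σ)) *
        (Real.pi * Real.sqrt Real.pi / Real.sqrt (2 * (ζ / σ + 6 / 10 * σ)))) :=
        mul_le_mul_of_nonneg_left h6 (Real.exp_pos _).le
    _ = (Real.exp (-PPn n w) * Real.exp (B0 w σ + (ζ / σ + 6 / 10 * σ))) *
        (Real.pi * Real.sqrt Real.pi * (1 / Real.sqrt (2 * (ζ / σ + 6 / 10 * σ)))) := by ring
    _ ≤ Real.exp (-((gapinf w - ζ) / σ) + 6 / 10 * σ) *
        (Real.pi * Real.sqrt Real.pi * Real.sqrt σ) := by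
        apply mul_le_mul h10 _ (by positivity) (Real.exp_pos _).le
        exact mul_le_mul_of_nonneg_left h7 hpp
    _ = _ := by ring

end Pool.Agent.Lib.Durfee
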