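import Pool.Agent.Lib.MP_9393b1_co.WinA

/-! # Regime M: the `θ`-integral over the window compared with the Gaussian integral -/

set_option autoImplicit false

namespace Pool.Agent.Lib.Durfee

open Complex MeasureTheory Filter Topology

section aux

theorem wb_pow_integrable {b : ℝ} (hb : 0 < b) (n : ℕ) :
    Integrable fun x : ℝ => x ^ n * Real.exp (-b * x ^ 2) := by
  have h := integrable_rpow_mul_exp_neg_mul_sq hb (s := (n : ℝ))
    (by have : (0 : ℝ) ≤ n := Nat.cast_nonneg n; linarith)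
  simpa only [Real.rpow_natCast] using h

theorem wb_step {b : ℝ} (hb : 0 < b) (n : ℕ) :
    ∫ x : ℝ, x ^ (n + 2) * Real.exp (-b * x ^ 2) =
      ((n : ℝ) + 1) / (2 * b) * ∫ x : ℝ, x ^ n * Real.exp (-b * x ^ 2) := by
  have hd : ∀ x : ℝ, HasDerivAt (fun x : ℝ => x ^ (n + 1) * Real.exp (-b * x ^ 2))
      (((n : ℝ) + 1) * (x ^ n * Real.exp (-b * x ^ 2)) -
        2 * b * (x ^ (n + 2) * Real.exp (-b * x ^ 2))) x := by
    intro x
    have h1 : HasDerivAt (fun x : ℝ => -b * x ^ 2) (-b * (2 * x)) x := by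
      simpa using (hasDerivAt_pow 2 x).const_mul (-b)
    have h2 := (hasDerivAt_pow (n + 1) x).mul h1.exp
    refine h2.congr_deriv ?_
    rw [Nat.add_sub_cancel]
    push_cast
    ring
  have h0 := integral_eq_zero_of_hasDerivAt_of_integrable hd
    (((wb_pow_integrable hb n).const_mul _).sub ((wb_pow_integrable hb (n + 2)).const_mul _))
    (wb_pow_integrable hb (n + 1))
  rw [integral_sub ((wb_pow_integrable hb n).const_mul _)
    ((wb_pow_integrable hb (n + 2)).const_mul _), integral_const_mul, integral_const_mul] at h0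
  have h3 : 2 * b * ∫ x : ℝ, x ^ (n + 2) * Real.exp (-b * x ^ 2) =
      ((n : ℝ) + 1) * ∫ x : ℝ, x ^ n * Real.exp (-b * x ^ 2) := by linarith
  have hb2 : (2 * b) ≠ 0 := by positivity
  rw [div_mul_eq_mul_div, eq_div_iff hb2, mul_comm, h3]

theorem wb_four {b : ℝ} (hb : 0 < b) :
    ∫ x : ℝ, x ^ 4 * Real.exp (-b * x ^ 2) = 3 / (4 * b ^ 2) * Real.sqrt (Real.pi / b) := by
  have h1 := wb_step hb 2
  have h2 := wb_step hb 0
  have h3 := integral_gaussian b
  have e : (fun x : ℝ => x ^ 0 * Real.exp (-b * x ^ 2)) = fun x : ℝ => Real.exp (-b * x ^ 2) := by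
    funext x
    rw [pow_zero, one_mul]
  rw [e, h3] at h2
  rw [h1, h2]
  push_cast
  field_simp
  ring

theorem wb_tail {b a : ℝ} (hb : 0 < b) (ha : 0 ≤ a) :
    ∫ x in Set.Ioi a, Real.exp (-b * x ^ 2) ≤
      Real.exp (-b * a ^ 2) * (Real.sqrt (Real.pi / b) / 2) := by
  have h1 : ∫ x in Set.Ioi a, Real.exp (-b * x ^ 2) =
      ∫ x in Set.Ioi (0 : ℝ), Real.exp (-b * (x + a) ^ 2) := by
    have := (measurePreserving_add_right volume a).setIntegral_preimage_emb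
      (MeasurableEquiv.addRight a).measurableEmbedding (fun x : ℝ => Real.exp (-b * x ^ 2))
      (Set.Ioi a)
    rw [Set.preimage_add_const_Ioi, sub_self] at this
    exact this.symm
  rw [h1, ← integral_gaussian_Ioi b, ← integral_const_mul]
  have hi : Integrable fun x : ℝ => Real.exp (-b * x ^ 2) := integrable_exp_neg_mul_sq hb
  refine setIntegral_mono_on ?_ (hi.const_mul _).integrableOn measurableSet_Ioi fun x hx => ?_
  · exact (hi.comp_add_right a).integrableOn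
  · have hx0 : (0 : ℝ) < x := hx
    rw [← Real.exp_add]
    refine Real.exp_le_exp.2 ?_
    have : 0 ≤ b * (x * a) := by positivity
    nlinarith

/-- difference of exponentials -/
theorem wb_exp_sub {A B : ℂ} {M : ℝ} (hA : A.re ≤ M) (hB : B.re ≤ M) :
    ‖exp A - exp B‖ ≤ Real.exp M * ‖A - B‖ := by
  refine Convex.norm_image_sub_le_of_norm_deriv_le (𝕜 := ℂ) (s := {z : ℂ | z.re ≤ M})
    (fun z _ => Complex.differentiable_exp z) (fun z hz => ?_) (convex_halfSpace_re_le M) hB hA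
  rw [Complex.deriv_exp, Complex.norm_exp]
  exact Real.exp_le_exp.2 hz

theorem wb_exp_sub_one (E : ℂ) : ‖exp E - 1‖ ≤ ‖E‖ * Real.exp ‖E‖ := by
  simpa using Complex.norm_exp_sub_sum_le_norm_mul_exp E 1

theorem wb_re_ss (σ τ : ℝ) : (ss σ τ).re = σ := by
  simp [ss]

theorem wb_ss_ne {σ τ : ℝ} (hσ : 0 < σ) : ss σ τ ≠ 0 := by
  intro h
  have := congrArg Complex.re h
  rw [wb_re_ss] at this
  simp at this
  linarith

theorem wb_le_norm_ss (σ τ : ℝ) : σ ≤ ‖ss σ τ‖ := by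
  have := Complex.re_le_norm (ss σ τ)
  rwa [wb_re_ss] at this

theorem wb_hh_pos {w τ : ℝ} (hw : 0 < w) (hτ : 0 ≤ τ) : 0 < hh w τ := by
  have h1 : 0 < gR w := by unfold gR; positivity
  have h2 : 0 < gI w := by unfold gI; positivity
  unfold hh
  positivity

theorem wb_re_gam {w σ τ : ℝ} (hσ : 0 < σ) : (gam w / ss σ τ).re = hh w τ / σ := by
  rw [re_div_ss hσ, gam_eq]
  have h1 : ((gR w : ℂ) + (gI w : ℂ) * I).re = gR w := by simp
  have h2 : ((gR w : ℂ) + (gI w : ℂ) * I).im = gI w := by simp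
  rw [h1, h2, hh, div_div, mul_comm σ]

theorem wb_gam_ne {w : ℝ} (hw : 0 < w) : gam w ≠ 0 := by
  intro h
  have h1 : 0 < gR w := by unfold gR; positivity
  have h2 := congrArg Complex.re h
  rw [gam_eq] at h2
  simp at h2
  linarith

theorem wb_re_gauss {w σ τ : ℝ} (hσ : 0 < σ) (θ : ℝ) :
    (-(gam w / ss σ τ / 2 * (θ : ℂ) ^ 2)).re = -(hh w τ * θ ^ 2 / (2 * σ)) := by
  have e : gam w / ss σ τ / 2 * (θ : ℂ) ^ 2 = gam w / ss σ τ * ((θ ^ 2 / 2 : ℝ) : ℂ) := by
    push_cast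
    ring
  rw [e, Complex.neg_re, Complex.re_mul_ofReal, wb_re_gam hσ]
  field_simp

theorem wb_epsI_nonneg {σ τ : ℝ} (hσ : 0 < σ) (hτ : 0 ≤ τ) : 0 ≤ epsI σ τ := by
  unfold epsI
  positivity

theorem wb_continuous_PP (w : ℝ) {σ : ℝ} (hσ : 0 < σ) (τ : ℝ) :
    Continuous fun θ : ℝ => PP w θ (ss σ τ) :=
  (continuous_PP w hσ).comp (f := fun θ : ℝ => (θ, σ * τ)) (by fun_prop)

end aux

/-- pointwise comparison with the Gaussian -/
theorem window_pointwise {w σ τ θ x : ℝ} (hw : 1 ≤ w) (hσ : 0 < σ) (hτ : 0 ≤ τ)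
    (hτL : τ * Real.log w ≤ 3 * Real.pi / 4) (hθ : |θ| ≤ Real.pi / 3) :
    ‖exp (x * ss σ τ) * PP w θ (ss σ τ) -
        exp (x * ss σ τ + VV w / ss σ τ) * exp (-(gam w / ss σ τ / 2 * (θ : ℂ) ^ 2))‖ ≤
      ‖exp (x * ss σ τ + VV w / ss σ τ)‖ *
        ((epsI σ τ * Real.exp (epsI σ τ) + 7 / 12 * θ ^ 4 / σ) *
          Real.exp (-(6839 / 10000 * hh w τ * θ ^ 2 / (2 * σ)))) := by
  have hw0 : 0 < w := by linarith
  obtain ⟨E, hE1, hE2⟩ := PP_window_inner hw hσ hτ hτL hθ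
  have hs := wb_ss_ne (τ := τ) hσ
  have hsn := wb_le_norm_ss σ τ
  set s := ss σ τ with hsdef
  set A : ℂ := (WW w θ - VV w) / s with hA
  set B : ℂ := -(gam w / s / 2 * (θ : ℂ) ^ 2) with hB
  set M : ℝ := -(6839 / 10000 * hh w τ * θ ^ 2 / (2 * σ)) with hM
  have hh0 := wb_hh_pos (τ := τ) hw0 hτ
  have e1 : exp (x * s) * PP w θ s - exp (x * s + VV w / s) * exp B =
      exp (x * s + VV w / s) * (exp A * (exp E - 1) + (exp A - exp B)) := by
    have e2 : exp (x * s) * exp (WW w θ / s + E) = exp (x * s + VV w / s) * (exp A * exp E) := by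
      rw [← Complex.exp_add, ← Complex.exp_add, ← Complex.exp_add]
      congr 1
      rw [hA, sub_div]
      ring
    rw [hE1, e2]
    ring
  rw [e1, norm_mul]
  refine mul_le_mul_of_nonneg_left ?_ (norm_nonneg _)
  have hAn : ‖exp A‖ ≤ Real.exp M := norm_exp_WW_inner hw0 hσ hτ hθ
  have hAre : A.re ≤ M := by
    rw [Complex.norm_exp] at hAn
    exact Real.exp_le_exp.1 hAn
  have hBre : B.re ≤ M := by
    rw [hB, hsdef, wb_re_gauss hσ, hM]
    have h1 : 6839 / 10000 * hh w τ * θ ^ 2 / (2 * σ) ≤ hh w τ * θ ^ 2 / (2 * σ) := by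
      apply div_le_div_of_nonneg_right _ (by positivity)
      have : 0 ≤ hh w τ * θ ^ 2 := by positivity
      nlinarith
    linarith
  have hAB : ‖A - B‖ ≤ 7 / 12 * θ ^ 4 / σ := by
    have e3 : A - B = -((VV w - WW w θ - gam w * (θ : ℂ) ^ 2 / 2) / s) := by
      rw [hA, hB]
      field_simp
      ring
    rw [e3, norm_neg, norm_div]
    have h1 := quartic_bound hw0 hθ
    have h2 : 0 ≤ 7 / 12 * θ ^ 4 := by positivity
    calc ‖VV w - WW w θ - gam w * (θ : ℂ) ^ 2 / 2‖ / ‖s‖ ≤ 7 / 12 * θ ^ 4 / ‖s‖ := by gcongr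
      _ ≤ 7 / 12 * θ ^ 4 / σ := by gcongr
  have hE3 : ‖exp E - 1‖ ≤ epsI σ τ * Real.exp (epsI σ τ) := by
    refine (wb_exp_sub_one E).trans ?_
    have h0 := norm_nonneg E
    exact mul_le_mul hE2 (Real.exp_le_exp.2 hE2) (Real.exp_pos _).le (h0.trans hE2)
  refine (norm_add_le _ _).trans ?_
  rw [norm_mul]
  have h5 := wb_exp_sub hAre hBre
  have h6 : Real.exp M * ‖A - B‖ ≤ Real.exp M * (7 / 12 * θ ^ 4 / σ) := by gcongr
  have h7 : ‖exp A‖ * ‖exp E - 1‖ ≤ Real.exp M * (epsI σ τ * Real.exp (epsI σ τ)) := by gcongr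
  calc ‖exp A‖ * ‖exp E - 1‖ + ‖exp A - exp B‖
      ≤ Real.exp M * (epsI σ τ * Real.exp (epsI σ τ)) + Real.exp M * (7 / 12 * θ ^ 4 / σ) :=
        add_le_add h7 (h5.trans h6)
    _ = _ := by ring

/-- the relative error of the inner `θ`-integral -/
noncomputable def Rin (w σ τ : ℝ) : ℝ :=
  Real.sqrt (2 * Real.pi * σ / (6839 / 10000 * hh w τ)) *
      (epsI σ τ * Real.exp (epsI σ τ) + 7 / 4 * σ / (6839 / 10000 * hh w τ) ^ 2) +
    Real.sqrt (2 * Real.pi * σ / hh w τ) * Real.exp (-(hh w τ * (Real.pi / 3) ^ 2 / (2 * σ)))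

noncomputable def Rout (w σ τ : ℝ) : ℝ :=
  Real.pi / 6 * Real.exp (epsO σ τ) *
    Real.exp (-((3 / 8 * gR w + τ * gI w / 2) / (σ * (1 + τ ^ 2))))

/-- the integral of the pointwise bound -/
theorem wb_bound_integral {w σ τ : ℝ} (hw : 0 < w) (hσ : 0 < σ) (hτ : 0 ≤ τ) :
    (∫ θ in (-(Real.pi / 3))..(Real.pi / 3),
        (epsI σ τ * Real.exp (epsI σ τ) + 7 / 12 * θ ^ 4 / σ) *
          Real.exp (-(6839 / 10000 * hh w τ * θ ^ 2 / (2 * σ)))) ≤
      Real.sqrt (2 * Real.pi * σ / (6839 / 10000 * hh w τ)) *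
      (epsI σ τ * Real.exp (epsI σ τ) + 7 / 4 * σ / (6839 / 10000 * hh w τ) ^ 2) := by
  have hh0 := wb_hh_pos (τ := τ) hw hτ
  have he0 := wb_epsI_nonneg hσ hτ
  set H : ℝ := 6839 / 10000 * hh w τ with hH
  have hH0 : 0 < H := by positivity
  set b : ℝ := H / (2 * σ) with hb
  have hb0 : 0 < b := by positivity
  set K : ℝ := epsI σ τ * Real.exp (epsI σ τ) with hK
  have hK0 : 0 ≤ K := by positivity
  have e1 : (fun θ : ℝ => (K + 7 / 12 * θ ^ 4 / σ) * Real.exp (-(H * θ ^ 2 / (2 * σ)))) =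
      fun θ : ℝ => K * Real.exp (-b * θ ^ 2) + 7 / 12 / σ * (θ ^ 4 * Real.exp (-b * θ ^ 2)) := by
    funext θ
    have : -(H * θ ^ 2 / (2 * σ)) = -b * θ ^ 2 := by
      rw [hb]
      ring
    rw [this]
    ring
  have i1 : Integrable fun θ : ℝ => K * Real.exp (-b * θ ^ 2) :=
    (integrable_exp_neg_mul_sq hb0).const_mul _
  have i2 : Integrable fun θ : ℝ => 7 / 12 / σ * (θ ^ 4 * Real.exp (-b * θ ^ 2)) :=
    (wb_pow_integrable hb0 4).const_mul _
  rw [e1, intervalIntegral.integral_of_le (by linarith [Real.pi_pos])]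
  refine (setIntegral_le_integral (i1.add i2) (ae_of_all _ fun θ => ?_)).trans (le_of_eq ?_)
  · show 0 ≤ K * Real.exp (-b * θ ^ 2) + 7 / 12 / σ * (θ ^ 4 * Real.exp (-b * θ ^ 2))
    positivity
  · have e2 : Real.pi / b = 2 * Real.pi * σ / H := by
      rw [hb]
      field_simp
    have e3 := integral_add i1 i2
    rw [integral_const_mul, integral_const_mul, integral_gaussian, wb_four hb0, e2, hb] at e3
    refine e3.trans ?_
    field_simp
    ring

theorem wb_norm_gauss {w σ τ : ℝ} (hσ : 0 < σ) (θ : ℝ) :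
    ‖exp (-(gam w / ss σ τ / 2 * (θ : ℂ) ^ 2))‖ = Real.exp (-(hh w τ / (2 * σ)) * θ ^ 2) := by
  rw [Complex.norm_exp, wb_re_gauss hσ]
  congr 1
  ring

theorem window_inner {w σ τ x : ℝ} (hw : 1 ≤ w) (hσ : 0 < σ) (hτ : 0 ≤ τ)
    (hτL : τ * Real.log w ≤ 3 * Real.pi / 4) :
    ‖(∫ θ in (-(Real.pi / 3))..(Real.pi / 3), exp (x * ss σ τ) * PP w θ (ss σ τ)) -
        exp (x * ss σ τ + VV w / ss σ τ) * (2 * Real.pi * ss σ τ / gam w) ^ (1 / 2 : ℂ)‖ ≤
      ‖exp (x * ss σ τ + VV w / ss σ τ)‖ * Rin w σ τ := by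
  have hw0 : 0 < w := by linarith
  have hh0 := wb_hh_pos (τ := τ) hw0 hτ
  have hpi := Real.pi_pos
  set a : ℝ := Real.pi / 3 with ha
  have ha0 : 0 < a := by positivity
  set C : ℂ := exp (x * ss σ τ + VV w / ss σ τ) with hC
  set b : ℝ := hh w τ / (2 * σ) with hb
  have hb0 : 0 < b := by positivity
  set G : ℝ → ℂ := fun θ => exp (-(gam w / ss σ τ / 2 * (θ : ℂ) ^ 2)) with hG
  have hGn : ∀ θ, ‖G θ‖ = Real.exp (-b * θ ^ 2) := fun θ => wb_norm_gauss hσ θ
  have hGc : Continuous G := by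
    simp only [hG]
    fun_prop
  have hGi : Integrable G := by
    refine (integrable_exp_neg_mul_sq hb0).mono' hGc.aestronglyMeasurable (ae_of_all _ fun θ => ?_)
    rw [hGn]
  have hGint : ∫ θ : ℝ, G θ = (2 * Real.pi * ss σ τ / gam w) ^ (1 / 2 : ℂ) := by
    have hre : 0 < (gam w / ss σ τ / 2).re := by
      have e : gam w / ss σ τ / 2 = gam w / ss σ τ * ((1 / 2 : ℝ) : ℂ) := by
        push_cast
        ring
      rw [e, Complex.re_mul_ofReal, wb_re_gam hσ]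
      positivity
    have h1 := integral_gaussian_complex hre
    have e2 : (fun θ : ℝ => exp (-(gam w / ss σ τ / 2) * (θ : ℂ) ^ 2)) = G := by
      funext θ
      simp only [hG]
      congr 1
      ring
    rw [e2] at h1
    rw [h1]
    congr 1
    have h2 := wb_gam_ne hw0
    have h3 := wb_ss_ne (τ := τ) hσ
    field_simp
  have hPc := wb_continuous_PP w hσ τ
  have hfc : Continuous fun θ : ℝ => exp (x * ss σ τ) * PP w θ (ss σ τ) :=
    continuous_const.mul hPc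
  have hgc : Continuous fun θ : ℝ => C * G θ := continuous_const.mul hGc
  -- first part
  have p1 : ‖(∫ θ in (-a)..a, exp (x * ss σ τ) * PP w θ (ss σ τ)) - ∫ θ in (-a)..a, C * G θ‖ ≤
      ‖C‖ * (Real.sqrt (2 * Real.pi * σ / (6839 / 10000 * hh w τ)) *
      (epsI σ τ * Real.exp (epsI σ τ) + 7 / 4 * σ / (6839 / 10000 * hh w τ) ^ 2)) := by
    rw [← intervalIntegral.integral_sub (hfc.intervalIntegrable _ _) (hgc.intervalIntegrable _ _)]
    have hle : -a ≤ a := by linarith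
    have q1 := intervalIntegral.norm_integral_le_integral_norm (μ := volume)
      (f := fun θ : ℝ => exp (x * ss σ τ) * PP w θ (ss σ τ) - C * G θ) hle
    have hbc : Continuous fun θ : ℝ => ‖C‖ *
        ((epsI σ τ * Real.exp (epsI σ τ) + 7 / 12 * θ ^ 4 / σ) *
          Real.exp (-(6839 / 10000 * hh w τ * θ ^ 2 / (2 * σ)))) := by
      fun_prop
    have q2 := intervalIntegral.integral_mono_on (μ := volume) hle
      ((hfc.sub hgc).norm.intervalIntegrable _ _) (hbc.intervalIntegrable _ _)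
      (fun θ hθ => window_pointwise (x := x) hw hσ hτ hτL (θ := θ) (abs_le.2 ⟨hθ.1, hθ.2⟩))
    rw [intervalIntegral.integral_const_mul] at q2
    exact q1.trans (q2.trans (mul_le_mul_of_nonneg_left (wb_bound_integral hw0 hσ hτ)
      (norm_nonneg _)))
  -- second part
  have p2 : ‖(∫ θ in (-a)..a, C * G θ) - C * ∫ θ : ℝ, G θ‖ ≤
      ‖C‖ * (Real.sqrt (2 * Real.pi * σ / hh w τ) *
        Real.exp (-(hh w τ * a ^ 2 / (2 * σ)))) := by
    rw [intervalIntegral.integral_const_mul, ← mul_sub, norm_mul]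
    refine mul_le_mul_of_nonneg_left ?_ (norm_nonneg _)
    have s1 : ∫ θ : ℝ, G θ = (∫ θ in Set.Iic (-a), G θ) + ((∫ θ in (-a)..a, G θ) +
        ∫ θ in Set.Ioi a, G θ) := by
      rw [← intervalIntegral.integral_Iic_add_Ioi hGi.integrableOn hGi.integrableOn (b := -a),
        intervalIntegral.integral_interval_add_Ioi hGi.integrableOn hGi.integrableOn]
    rw [s1]
    have s2 : (∫ θ in (-a)..a, G θ) - ((∫ θ in Set.Iic (-a), G θ) + ((∫ θ in (-a)..a, G θ) +
        ∫ θ in Set.Ioi a, G θ)) = -((∫ θ in Set.Iic (-a), G θ) + ∫ θ in Set.Ioi a, G θ) := by ring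
    rw [s2, norm_neg]
    have s3 : ‖∫ θ in Set.Ioi a, G θ‖ ≤ Real.exp (-b * a ^ 2) * (Real.sqrt (Real.pi / b) / 2) := by
      refine (norm_integral_le_integral_norm _).trans ?_
      simp only [hGn]
      exact wb_tail hb0 ha0.le
    have s4 : ∫ θ in Set.Iic (-a), G θ = ∫ θ in Set.Ioi a, G θ := by
      rw [← integral_comp_neg_Ioi]
      refine setIntegral_congr_fun measurableSet_Ioi fun θ _ => ?_
      simp only [hG]
      congr 1
      push_cast
      ring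
    rw [s4]
    have s5 : Real.pi / b = 2 * Real.pi * σ / hh w τ := by
      rw [hb]
      field_simp
    have s6 : -(hh w τ * a ^ 2 / (2 * σ)) = -b * a ^ 2 := by
      rw [hb]
      ring
    rw [s6, ← s5]
    refine (norm_add_le _ _).trans ((add_le_add s3 s3).trans (le_of_eq ?_))
    ring
  rw [← hGint]
  have e9 : (∫ θ in (-a)..a, exp (x * ss σ τ) * PP w θ (ss σ τ)) - C * ∫ θ : ℝ, G θ =
      ((∫ θ in (-a)..a, exp (x * ss σ τ) * PP w θ (ss σ τ)) - ∫ θ in (-a)..a, C * G θ) +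
      ((∫ θ in (-a)..a, C * G θ) - C * ∫ θ : ℝ, G θ) := by ring
  rw [e9, Rin, mul_add]
  exact (norm_add_le _ _).trans (add_le_add p1 p2)

theorem wb_outer_pt {w σ τ x θ : ℝ} (hw : 1 ≤ w) (hσ : 0 < σ) (hτ : 0 ≤ τ)
    (hτL : τ * Real.log w ≤ 3 * Real.pi / 4) (h1 : Real.pi / 3 ≤ |θ|)
    (h2 : |θ| ≤ 5 * Real.pi / 12) :
    ‖exp (x * ss σ τ) * PP w θ (ss σ τ)‖ ≤ ‖exp (x * ss σ τ + VV w / ss σ τ)‖ *
      (Real.exp (epsO σ τ) *
        Real.exp (-((3 / 8 * gR w + τ * gI w / 2) / (σ * (1 + τ ^ 2))))) := by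
  have hw0 : 0 < w := by linarith
  obtain ⟨E, hE1, hE2⟩ := PP_window_outer hw hσ hτ hτL h2
  have e2 : exp (x * ss σ τ) * exp (WW w θ / ss σ τ + E) =
      exp (x * ss σ τ + VV w / ss σ τ) * (exp E * exp ((WW w θ - VV w) / ss σ τ)) := by
    rw [← Complex.exp_add, ← Complex.exp_add, ← Complex.exp_add]
    congr 1
    rw [sub_div]
    ring
  rw [hE1, e2, norm_mul]
  refine mul_le_mul_of_nonneg_left ?_ (norm_nonneg _)
  rw [norm_mul]
  refine mul_le_mul ?_ (norm_exp_WW_outer hw0 hσ hτ h1 h2) (norm_nonneg _) (Real.exp_pos _).le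
  rw [Complex.norm_exp]
  exact Real.exp_le_exp.2 ((Complex.re_le_norm E).trans hE2)

theorem window_outer {w σ τ x : ℝ} (hw : 1 ≤ w) (hσ : 0 < σ) (hτ : 0 ≤ τ)
    (hτL : τ * Real.log w ≤ 3 * Real.pi / 4) :
    (∫ θ in (Real.pi / 3)..(5 * Real.pi / 12), ‖exp (x * ss σ τ) * PP w θ (ss σ τ)‖) +
        (∫ θ in (-(5 * Real.pi / 12))..(-(Real.pi / 3)), ‖exp (x * ss σ τ) * PP w θ (ss σ τ)‖) ≤
      ‖exp (x * ss σ τ + VV w / ss σ τ)‖ * Rout w σ τ := by
  have hpi := Real.pi_pos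
  have hPc := wb_continuous_PP w hσ τ
  have hfc : Continuous fun θ : ℝ => ‖exp (x * ss σ τ) * PP w θ (ss σ τ)‖ :=
    (continuous_const.mul hPc).norm
  set D : ℝ := ‖exp (x * ss σ τ + VV w / ss σ τ)‖ *
      (Real.exp (epsO σ τ) *
        Real.exp (-((3 / 8 * gR w + τ * gI w / 2) / (σ * (1 + τ ^ 2))))) with hD
  have h1 : ∫ θ in (Real.pi / 3)..(5 * Real.pi / 12), ‖exp (x * ss σ τ) * PP w θ (ss σ τ)‖ ≤
      ∫ _θ in (Real.pi / 3)..(5 * Real.pi / 12), D := by
    refine intervalIntegral.integral_mono_on (by linarith) (hfc.intervalIntegrable _ _)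
      (by simp) fun θ hθ => ?_
    have h0 : 0 ≤ θ := by linarith [hθ.1]
    exact wb_outer_pt hw hσ hτ hτL (by rw [abs_of_nonneg h0]; exact hθ.1)
      (by rw [abs_of_nonneg h0]; exact hθ.2)
  have h2 : ∫ θ in (-(5 * Real.pi / 12))..(-(Real.pi / 3)),
      ‖exp (x * ss σ τ) * PP w θ (ss σ τ)‖ ≤ ∫ _θ in (-(5 * Real.pi / 12))..(-(Real.pi / 3)), D := by
    refine intervalIntegral.integral_mono_on (by linarith) (hfc.intervalIntegrable _ _)
      (by simp) fun θ hθ => ?_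
    have h0 : θ ≤ 0 := by linarith [hθ.2]
    exact wb_outer_pt hw hσ hτ hτL (by rw [abs_of_nonpos h0]; linarith [hθ.2])
      (by rw [abs_of_nonpos h0]; linarith [hθ.1])
  rw [intervalIntegral.integral_const, smul_eq_mul] at h1 h2
  refine (add_le_add h1 h2).trans (le_of_eq ?_)
  rw [hD, Rout]
  ring

end Pool.Agent.Lib.Durfee
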