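import Pool.Agent.Lib.MP_9393b1_co.WinSQ
import Pool.Agent.Lib.MP_9393b1_co.ModS
import Pool.Agent.Lib.MP_9393b1_co.ModSB
import Pool.Agent.Lib.MP_9393b1_co.SplitG
import Pool.Agent.Lib.MP_9393b1_co.OffSN
import Pool.Agent.Lib.MP_9393b1_co.FarSB

/-! # Regime S (`w ≤ 1`, `k ≥ 11`) -/

set_option autoImplicit false

namespace Pool.Agent.Lib.Durfee

open Complex MeasureTheory Filter Topology

/-- Regime S. -/
theorem regime_S {n k : ℕ} {w : ℝ} (hn : 10 ^ 4 ≤ n) (hw0 : 0 < w) (hw1 : w ≤ 1) (hk : 11 ≤ k)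
    (hb : bb w = k * Real.pi / (2 * Real.sqrt n)) :
    0 < (-1 : ℝ) ^ k * Dval n (w ^ 2) := by
  have H : HypS n k w := ⟨hn, hw0, hw1, hk, hb⟩
  have hn1 : 1 ≤ n := le_trans (by norm_num) hn
  have hσ := H.sg_pos
  have hσ1 := H.sg_le
  have hpi := Real.pi_gt_three
  obtain ⟨Q, hQ, hin, hQt⟩ := exists_QS H
  have hphase := re_Mcx_S H
  have he := eMod_le_S H
  have hb1 := off_b_S H
  have hb2 := off_near_S H
  have hM : 0 < Mamp n w := by
    have h1 : 0 < ‖gam w‖ := norm_pos_iff.2 (wb_gam_ne hw0)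
    have h2 : 0 < ‖VV w‖ := lt_of_lt_of_le h1 (norm_gam_le_VV hw0 hw1)
    have h3 : (0 : ℝ) < n := by exact_mod_cast hn1
    unfold Mamp
    positivity
  -- the total error is at most `0.9`
  have key : |Dval n (w ^ 2) - (Mcx n w).re| ≤ Mamp n w * (90 / 100) := by
    rcases le_total w (1 / 10) with hw | hw
    · have hb3 := off_mid_S H hw
      have hf := far_small_S H hw
      have hs := split_gen (n := n) (w := w) (T := 4) (T2 := 20) (φ := 7 / 1000) (Q := Q) hn1 hw0
        (by norm_num) (by norm_num) (by linarith) hQ hin hf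
      refine hs.trans (mul_le_mul_of_nonneg_left ?_ hM.le)
      have hadd : (∫ τ in (4 : ℝ)..20, ∫ θ in (-Real.pi)..Real.pi, NP n w θ τ) =
          (∫ τ in (4 : ℝ)..8, ∫ θ in (-Real.pi)..Real.pi, NP n w θ τ) +
            ∫ τ in (8 : ℝ)..20, ∫ θ in (-Real.pi)..Real.pi, NP n w θ τ := by
        have hc : Continuous fun τ : ℝ => ∫ θ in (-Real.pi)..Real.pi, NP n w θ τ := by
          have h1 : Continuous fun p : ℝ × ℝ => ((p.2, p.1) : ℝ × ℝ) := by fun_prop
          have h2 := (continuous_NP_gen (n := n) (w := w) hσ).comp h1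
          exact intervalIntegral.continuous_parametric_intervalIntegral_of_continuous'
            (f := fun τ θ => NP n w θ τ) h2 _ _
        rw [intervalIntegral.integral_add_adjacent_intervals (hc.intervalIntegrable _ _)
          (hc.intervalIntegrable _ _)]
      rw [hadd, mul_add (Kn n w)]
      linarith
    · have hf := far_large_S H hw
      have hs := split_gen (n := n) (w := w) (T := 4) (T2 := 8) (φ := 5 / 1000) (Q := Q) hn1 hw0
        (by norm_num) (by norm_num) (by linarith) hQ hin hf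
      refine hs.trans (mul_le_mul_of_nonneg_left ?_ hM.le)
      linarith
  have h1 : (-1 : ℝ) ^ k * Dval n (w ^ 2) = (-1 : ℝ) ^ k * (Mcx n w).re +
      (-1 : ℝ) ^ k * (Dval n (w ^ 2) - (Mcx n w).re) := by ring
  have h2 : |(-1 : ℝ) ^ k * (Dval n (w ^ 2) - (Mcx n w).re)| =
      |Dval n (w ^ 2) - (Mcx n w).re| := by
    rw [abs_mul, abs_pow, abs_neg, abs_one, one_pow, one_mul]
  have h3 := neg_abs_le ((-1 : ℝ) ^ k * (Dval n (w ^ 2) - (Mcx n w).re))
  rw [h2] at h3
  rw [h1]
  nlinarith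
 
end Pool.Agent.Lib.Durfee
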