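import Pool.Agent.Lib.MP_9393b1_co.USum

/-! # Regime U (top end): statement -/

set_option autoImplicit false

namespace Pool.Agent.Lib.Durfee

/-- Regime U: test points near the top. -/
theorem regime_U {n : ℕ} (hn : 10 ^ 4 ≤ n) :
    ∃ y : ℕ → ℝ,
      (∀ k : ℕ, 1 ≤ k → k + 1 ≤ Nat.sqrt n →
        (n : ℝ) - (k : ℝ) ^ 2 ≤ 8225 / 10000 * (n : ℝ) ^ ((2 : ℝ) / 3) →
          0 < y k ∧ 0 < (-1 : ℝ) ^ k * Dval n (y k) ∧
            2 * Real.sqrt (Real.pi ^ 2 / 3) *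
              Real.sqrt ((n : ℝ) / ((n : ℝ) - ((k : ℝ) - 1) ^ 2)) < Real.log (y k)) ∧
      (∀ k : ℕ, 1 ≤ k → k + 2 ≤ Nat.sqrt n →
        (n : ℝ) - (k : ℝ) ^ 2 ≤ 8225 / 10000 * (n : ℝ) ^ ((2 : ℝ) / 3) → y k < y (k + 1)) := by
  refine ⟨fun k => Real.exp (2 * ua ((n : ℝ) - (k : ℝ) ^ 2) * k), ?_, ?_⟩
  · intro k h1 h2 h3
    have H : RegU n k := ⟨hn, h1, h2, h3⟩
    refine ⟨Real.exp_pos _, U_sign H, ?_⟩
    rw [Real.log_exp]
    exact H.log_y_gt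
  · intro k h1 h2 h3
    apply Real.exp_lt_exp.2
    have h4 : (k + 2) * (k + 2) ≤ n := Nat.le_sqrt.mp h2
    have h5 : ((k : ℝ) + 2) * ((k : ℝ) + 2) ≤ n := by exact_mod_cast h4
    have hk : (1 : ℝ) ≤ k := by exact_mod_cast h1
    have h6 : ua ((n : ℝ) - (k : ℝ) ^ 2) ≤ ua ((n : ℝ) - ((k + 1 : ℕ) : ℝ) ^ 2) := by
      unfold ua
      apply Real.sqrt_le_sqrt
      push_cast
      apply div_le_div_of_nonneg_left (by positivity)
      · nlinarith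
      · nlinarith
    have h7 : 0 < ua ((n : ℝ) - (k : ℝ) ^ 2) := ua_pos (by nlinarith)
    push_cast at h6 ⊢
    nlinarith

end Pool.Agent.Lib.Durfee
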