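import Pool.Agent.Lib.MP_9393b1_co.SmallDefs
import Pool.Agent.Lib.MP_9393b1_co.SmallLog
import Pool.Agent.Lib.MP_9393b1_co.SmallSinh

set_option autoImplicit false

namespace Pool.Agent.Lib.Durfee

open Complex MeasureTheory

/-! ### elementary numerics -/

private lemma sin_half_ge : (478 / 1000 : ℝ) ≤ Real.sin (1 / 2) ∧
    Real.cos (1 / 2) ≤ 878 / 1000 ∧ 877 / 1000 ≤ Real.cos (1 / 2) := by
  have hb := Real.sin_bound (x := 1 / 4) (by norm_num [abs_le])
  have hc := Real.cos_bound (x := 1 / 4) (by norm_num [abs_le])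
  rw [abs_le] at hb hc
  rw [abs_of_pos (by norm_num : (0 : ℝ) < 1 / 4)] at hb hc
  obtain ⟨hb1, hb2⟩ := hb
  obtain ⟨hc1, hc2⟩ := hc
  have hs1 : (247192 / 1000000 : ℝ) ≤ Real.sin (1 / 4) := by norm_num at hb1; linarith
  have hs2 : Real.sin (1 / 4) ≤ 247600 / 1000000 := by norm_num at hb2; linarith
  have hc1' : (968546 / 1000000 : ℝ) ≤ Real.cos (1 / 4) := by norm_num at hc1; linarith
  have e1 : Real.sin (1 / 2) = 2 * Real.sin (1 / 4) * Real.cos (1 / 4) := by
    rw [← Real.sin_two_mul]; norm_num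
  have e2 : Real.cos (1 / 2) = 1 - 2 * Real.sin (1 / 4) ^ 2 := by
    have h := Real.cos_two_mul (1 / 4)
    have h2 := Real.sin_sq_add_cos_sq (1 / 4)
    rw [show (2 : ℝ) * (1 / 4) = 1 / 2 by norm_num] at h
    rw [h]; linarith
  refine ⟨?_, ?_, ?_⟩
  · rw [e1]; nlinarith
  · rw [e2]; nlinarith
  · rw [e2]; nlinarith

private lemma exp_sub_one_le {x : ℝ} (h0 : 0 ≤ x) (h1 : x ≤ 196 / 1000) :
    Real.exp x - 1 ≤ 1107 / 1000 * x := by
  have h := Real.exp_bound' h0 (by linarith) (n := 3) (by norm_num)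
  simp [Finset.sum_range_succ, Nat.factorial] at h
  have h2 : x ^ 2 ≤ 196 / 1000 * x := by nlinarith
  have h3 : x ^ 3 ≤ (196 / 1000) ^ 2 * x := by
    have : x ^ 3 = x ^ 2 * x := by ring
    nlinarith [sq_nonneg x]
  nlinarith

private lemma exp_small {x : ℝ} (h0 : 0 ≤ x) (h1 : x ≤ 53 / 1000) :
    Real.exp x ≤ 10546 / 10000 := by
  have h := Real.exp_bound' h0 (by linarith) (n := 3) (by norm_num)
  simp [Finset.sum_range_succ, Nat.factorial] at h
  have h2 : x ^ 2 ≤ (53 / 1000) ^ 2 := by nlinarith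
  have h3 : x ^ 3 ≤ (53 / 1000) ^ 3 := pow_le_pow_left₀ h0 h1 3
  nlinarith

/-- `|exp z - 1| ≤ exp |z| - 1`. -/
private lemma norm_exp_sub_one_le' (z : ℂ) : ‖exp z - 1‖ ≤ Real.exp ‖z‖ - 1 := by
  have h := Complex.norm_exp_sub_sum_le_exp_norm_sub_sum z 1
  simpa using h

/-- `|exp z - 1 - z| ≤ 0.53 |z|^2` for small `z`. -/
private lemma norm_exp_sub_one_sub_le {z : ℂ} (hz : ‖z‖ ≤ 53 / 1000) :
    ‖exp z - 1 - z‖ ≤ 53 / 100 * ‖z‖ ^ 2 := by
  have h1 := Complex.norm_exp_sub_sum_le_exp_norm_sub_sum z 2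
  simp [Finset.sum_range_succ] at h1
  have e : exp z - 1 - z = exp z - (1 + z) := by ring
  rw [e]
  refine h1.trans ?_
  have h0 := norm_nonneg z
  have h := Real.exp_bound' h0 (by linarith) (n := 3) (by norm_num)
  simp [Finset.sum_range_succ, Nat.factorial] at h
  have h3 : ‖z‖ ^ 3 ≤ 53 / 1000 * ‖z‖ ^ 2 := by nlinarith [sq_nonneg ‖z‖]
  nlinarith [sq_nonneg ‖z‖]

private lemma params {n : ℕ} (hn : 10 ^ 4 ≤ n) {A : ℝ} (hA1 : 157 / 100 ≤ A)
    (hA2 : A ≤ 157 / 10) :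
    0 < (n : ℝ) ∧ 0 < A ^ 2 / n ∧ A ^ 2 / n ≤ 2465 / 100000 ∧ 0 < A / n ∧
      (A ^ 2 / n) ^ 3 / (A / n) = A ^ 5 / (n : ℝ) ^ 2 ∧
      (A ^ 2 / n) ^ 2 / (2 * (A / n)) + 228 / 1000 * (A ^ 5 / (n : ℝ) ^ 2) ≤ 196 / 1000 := by
  have hn' : (10 ^ 4 : ℝ) ≤ n := by exact_mod_cast hn
  have hn0 : (0 : ℝ) < n := by linarith
  have hA0 : 0 < A := by linarith
  have h2 : A ^ 2 ≤ (157 / 10) ^ 2 := pow_le_pow_left₀ hA0.le hA2 2
  have h3 : A ^ 3 ≤ (157 / 10) ^ 3 := pow_le_pow_left₀ hA0.le hA2 3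
  have h5 : A ^ 5 ≤ (157 / 10) ^ 5 := pow_le_pow_left₀ hA0.le hA2 5
  refine ⟨hn0, by positivity, ?_, by positivity, by field_simp, ?_⟩
  · rw [div_le_iff₀ hn0]; nlinarith
  · have e : (A ^ 2 / n) ^ 2 / (2 * (A / n)) = A ^ 3 / (2 * n) := by field_simp
    rw [e]
    have h6 : A ^ 3 / (2 * n) ≤ (157 / 10) ^ 3 / (2 * 10 ^ 4) :=
      div_le_div₀ (by positivity) h3 (by positivity) (by linarith)
    have h7 : A ^ 5 / (n : ℝ) ^ 2 ≤ (157 / 10) ^ 5 / (10 ^ 4) ^ 2 :=
      div_le_div₀ (by positivity) h5 (by positivity) (pow_le_pow_left₀ (by positivity) hn' 2)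
    norm_num at h6 h7 ⊢
    linarith

private lemma norm_logTerm_le {w : ℝ} (hw : 0 < w) (θ : ℝ) (s : ℂ) (j : ℕ) :
    ‖logTerm w θ s j‖ ≤ w ^ (j + 1) / (((j : ℝ) + 1) * ‖sinh (((j : ℂ) + 1) * s / 2)‖) := by
  unfold logTerm
  rw [norm_div, norm_mul, norm_mul, norm_mul, norm_pow, norm_pow, norm_mul, norm_neg, norm_one,
    one_pow, one_mul, Complex.norm_I, one_mul, Complex.norm_real, Complex.norm_real,
    Real.norm_eq_abs, Real.norm_eq_abs, abs_of_pos hw]
  have hj : ‖(j : ℂ) + 1‖ = (j : ℝ) + 1 := by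
    have : (j : ℂ) + 1 = (((j : ℝ) + 1 : ℝ) : ℂ) := by push_cast; ring
    rw [this, Complex.norm_real, Real.norm_eq_abs, abs_of_pos (by positivity)]
  rw [hj]
  refine div_le_div_of_nonneg_right ?_ (by positivity)
  have := Real.abs_cos_le_one (((j : ℝ) + 1) * θ)
  have h2 : 0 ≤ w ^ (j + 1) := by positivity
  nlinarith

private lemma norm_tail_le {w σ : ℝ} (hw : 0 < w) (hw1 : w ≤ 2465 / 100000) (hσ : 0 < σ) (θ : ℝ)
    {s : ℂ} (hs : s.re = σ) :
    ‖∑' j : ℕ, logTerm w θ s (j + 2)‖ ≤ 228 / 1000 * (w ^ 3 / σ) := by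
  have hterm : ∀ j : ℕ, ‖logTerm w θ s (j + 2)‖ ≤ 2 / 9 * (w ^ 3 / σ) * w ^ j := by
    intro j
    refine (norm_logTerm_le hw θ s (j + 2)).trans ?_
    have hz : ((((j + 2 : ℕ) : ℂ) + 1) * s / 2).re = ((j : ℝ) + 3) * σ / 2 := by
      have : (((j + 2 : ℕ) : ℂ) + 1) * s / 2 = ((((j : ℝ) + 3) / 2 : ℝ) : ℂ) * s := by
        push_cast; ring
      rw [this, Complex.re_ofReal_mul, hs]; ring
    have hge := norm_sinh_ge_re (z := (((j + 2 : ℕ) : ℂ) + 1) * s / 2) (by rw [hz]; positivity)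
    rw [hz] at hge
    have hj : ((j + 2 : ℕ) : ℝ) + 1 = (j : ℝ) + 3 := by push_cast; ring
    rw [hj]
    have h1 : 9 / 2 * σ ≤ ((j : ℝ) + 3) * ‖sinh ((((j + 2 : ℕ) : ℂ) + 1) * s / 2)‖ := by
      have hj0 : (0 : ℝ) ≤ j := by positivity
      have h2 : ((j : ℝ) + 3) * (((j : ℝ) + 3) * σ / 2) ≤
          ((j : ℝ) + 3) * ‖sinh ((((j + 2 : ℕ) : ℂ) + 1) * s / 2)‖ :=
        mul_le_mul_of_nonneg_left hge (by positivity)
      have h3 : 9 / 2 * σ ≤ ((j : ℝ) + 3) * (((j : ℝ) + 3) * σ / 2) := by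
        have : 0 ≤ (j : ℝ) ^ 2 * σ := by positivity
        have : 0 ≤ (j : ℝ) * σ := by positivity
        nlinarith
      linarith
    calc w ^ (j + 2 + 1) / (((j : ℝ) + 3) * ‖sinh ((((j + 2 : ℕ) : ℂ) + 1) * s / 2)‖)
        ≤ w ^ (j + 2 + 1) / (9 / 2 * σ) :=
          div_le_div_of_nonneg_left (by positivity) (by positivity) h1
      _ = 2 / 9 * (w ^ 3 / σ) * w ^ j := by
          rw [show j + 2 + 1 = j + 3 by ring, pow_add]; field_simp
  have hgeo : HasSum (fun j : ℕ => 2 / 9 * (w ^ 3 / σ) * w ^ j)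
      (2 / 9 * (w ^ 3 / σ) * (1 - w)⁻¹) :=
    (hasSum_geometric_of_lt_one hw.le (by linarith)).mul_left _
  refine (tsum_of_norm_bounded hgeo hterm).trans ?_
  have h1 : (1 - w)⁻¹ ≤ 102528 / 100000 := by
    rw [inv_le_comm₀ (by linarith) (by norm_num)]
    norm_num; linarith
  have h2 : 0 ≤ w ^ 3 / σ := by positivity
  nlinarith

private lemma sin_pos_half {β : ℝ} (h1 : 1 ≤ β) (h2 : β ≤ Real.pi) :
    478 / 1000 ≤ Real.sin (β / 2) := by
  refine sin_half_ge.1.trans ?_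
  have hpi := Real.pi_pos
  exact Real.sin_le_sin_of_le_of_le_pi_div_two (by linarith) (by linarith) (by linarith)

/-- DFB-8 (B8, pointwise). -/
theorem far_FF {n : ℕ} (hn : 10 ^ 4 ≤ n) {A : ℝ} (hA1 : 157 / 100 ≤ A) (hA2 : A ≤ 157 / 10)
    {β : ℝ} (h1 : 1 ≤ β) (h2 : β ≤ Real.pi) :
    ‖FF (A ^ 2 / n) (((A / n : ℝ) : ℂ) + β * I) - 1‖ ≤
      117 / 100 * ((A ^ 2 / n) ^ 2 / (2 * Real.sqrt ((A / n) ^ 2 + Real.sin β ^ 2)) +
        228 / 1000 * (A ^ 5 / (n : ℝ) ^ 2)) +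
      53 / 100 * ((A ^ 2 / n) ^ 2 / Real.sin (β / 2) ^ 2) := by
  obtain ⟨hn0, hw0, hw1, hσ, hA5, hB⟩ := params hn hA1 hA2
  rw [← hA5]
  rw [← hA5] at hB
  set w : ℝ := A ^ 2 / n with hw
  set σ : ℝ := A / n with hσd
  clear_value w σ
  set s : ℂ := (σ : ℂ) + β * I with hsd
  have hsre : s.re = σ := by simp [hsd]
  have hs : 0 < s.re := by rw [hsre]; exact hσ
  have hsb := sin_pos_half h1 h2
  set S : ℝ := Real.sin (β / 2) with hS
  have hS0 : 0 < S := by linarith
  set Q : ℝ := Real.sqrt (σ ^ 2 + Real.sin β ^ 2) with hQ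
  have hQσ : σ ≤ Q := by
    rw [hQ]; exact Real.le_sqrt_of_sq_le (by nlinarith [sq_nonneg (Real.sin β)])
  have hQ0 : 0 < Q := by linarith
  set B : ℝ := w ^ 2 / (2 * Q) + 228 / 1000 * (w ^ 3 / σ) with hBd
  have hB1 : B ≤ 196 / 1000 := by
    refine le_trans ?_ hB
    have : w ^ 2 / (2 * Q) ≤ w ^ 2 / (2 * σ) :=
      div_le_div_of_nonneg_left (by positivity) (by positivity) (by linarith)
    linarith
  have hB0 : 0 ≤ B := by positivity
  -- the bound for every θ
  have hpt : ∀ θ : ℝ, ‖PP w θ s - 1 - I * w * Real.cos θ / sinh (s / 2)‖ ≤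
      117 / 100 * B + 53 / 100 * (w ^ 2 / S ^ 2) := by
    intro θ
    obtain ⟨hsum, hPP⟩ := PP_eq_exp_logSeries hw0 (by linarith) θ hs
    set Z1 : ℂ := I * w * Real.cos θ / sinh (s / 2) with hZ1
    have hf0 : logTerm w θ s 0 = Z1 := by
      unfold logTerm; rw [hZ1]; simp
    set R2 : ℂ := logTerm w θ s 1 + ∑' j : ℕ, logTerm w θ s (j + 2) with hR2
    have hsplit : ∑' j : ℕ, logTerm w θ s j = Z1 + R2 := by
      rw [← hsum.sum_add_tsum_nat_add 2, Finset.sum_range_succ, Finset.sum_range_one, hf0, hR2]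
      ring
    -- |Z1|
    have hsin1 : S ≤ ‖sinh (s / 2)‖ := by
      have e : s / 2 = ((σ / 2 : ℝ) : ℂ) + ((β / 2 : ℝ) : ℂ) * I := by
        rw [hsd]; push_cast; ring
      have h := norm_sinh_sq (σ / 2) (β / 2)
      rw [← e] at h
      have : S ^ 2 ≤ ‖sinh (s / 2)‖ ^ 2 := by
        rw [h]; nlinarith [sq_nonneg (Real.sinh (σ / 2))]
      exact le_of_sq_le_sq this (norm_nonneg _)
    have hZ1le : ‖Z1‖ ≤ w / S := by
      rw [hZ1, norm_div, norm_mul, norm_mul, Complex.norm_I, one_mul, Complex.norm_real,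
        Complex.norm_real, Real.norm_eq_abs, Real.norm_eq_abs, abs_of_pos hw0]
      have := Real.abs_cos_le_one θ
      calc w * |Real.cos θ| / ‖sinh (s / 2)‖ ≤ w / ‖sinh (s / 2)‖ :=
            div_le_div_of_nonneg_right (by nlinarith) (by positivity)
        _ ≤ w / S := div_le_div_of_nonneg_left hw0.le hS0 hsin1
    have hwS : w / S ≤ 53 / 1000 := by
      rw [div_le_iff₀ hS0]; linarith
    have hZ1sq : ‖Z1‖ ^ 2 ≤ w ^ 2 / S ^ 2 := by
      rw [← div_pow]; exact pow_le_pow_left₀ (norm_nonneg _) hZ1le 2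
    -- |R2|
    have hsinh : Q ≤ ‖sinh s‖ := by
      have h := norm_sinh_sq σ β
      rw [← hsd] at h
      rw [hQ]
      refine Real.sqrt_le_iff.mpr ⟨norm_nonneg _, ?_⟩
      rw [h]
      have : σ ≤ Real.sinh σ := Real.self_le_sinh_iff.mpr hσ.le
      nlinarith
    have hR2le : ‖R2‖ ≤ B := by
      rw [hR2]
      refine (norm_add_le _ _).trans ?_
      rw [hBd]
      refine add_le_add ?_ (norm_tail_le hw0 hw1 hσ θ hsre)
      refine (norm_logTerm_le hw0 θ s 1).trans ?_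
      have e : (((1 : ℕ) : ℂ) + 1) * s / 2 = s := by push_cast; ring
      rw [e]
      norm_num
      exact div_le_div_of_nonneg_left (by positivity) (by positivity) (by linarith)
    rw [hPP, hsplit]
    have e : exp (Z1 + R2) - 1 - Z1 = exp Z1 * (exp R2 - 1) + (exp Z1 - 1 - Z1) := by
      rw [Complex.exp_add]; ring
    rw [e]
    refine (norm_add_le _ _).trans ?_
    have t1 : ‖exp Z1 * (exp R2 - 1)‖ ≤ 10546 / 10000 * (1107 / 1000 * B) := by
      rw [norm_mul]
      refine mul_le_mul ?_ ?_ (norm_nonneg _) (by norm_num)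
      · refine (Complex.norm_exp_le_exp_norm Z1).trans ?_
        exact exp_small (norm_nonneg _) (by linarith)
      · refine (norm_exp_sub_one_le' R2).trans ?_
        refine le_trans ?_ (exp_sub_one_le hB0 hB1)
        linarith [Real.exp_le_exp.mpr hR2le]
    have t2 := norm_exp_sub_one_sub_le (z := Z1) (by linarith)
    nlinarith
  -- integrate over θ
  have hint := integral_PP_eq w hs
  have hpi := Real.pi_pos
  have hcont : Continuous (fun θ : ℝ => PP w θ s) := by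
    have h := (continuous_PP w hσ).comp (Continuous.prodMk continuous_id (continuous_const (y := β)))
    exact h
  have hcos : ∫ θ in (-Real.pi)..Real.pi, I * w * Real.cos θ / sinh (s / 2) = 0 := by
    have e : ∀ θ : ℝ, I * w * (Real.cos θ : ℂ) / sinh (s / 2) =
        (I * w / sinh (s / 2)) * ((Real.cos θ : ℝ) : ℂ) := fun θ => by ring
    simp_rw [e]
    rw [intervalIntegral.integral_const_mul, intervalIntegral.integral_ofReal, integral_cos]
    simp
  have hsum : ∫ θ in (-Real.pi)..Real.pi, (PP w θ s - 1 - I * w * Real.cos θ / sinh (s / 2)) =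
      2 * Real.pi * (FF w s - 1) := by
    rw [intervalIntegral.integral_sub, intervalIntegral.integral_sub, hint, hcos,
      intervalIntegral.integral_const]
    · rw [sub_zero, show Real.pi - -Real.pi = 2 * Real.pi by ring, Complex.real_smul]
      push_cast; ring
    · exact hcont.intervalIntegrable _ _
    · exact continuous_const.intervalIntegrable _ _
    · exact (hcont.sub continuous_const).intervalIntegrable _ _
    · refine Continuous.intervalIntegrable ?_ _ _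
      fun_prop
  have hfin := intervalIntegral.norm_integral_le_of_norm_le_const
    (a := -Real.pi) (b := Real.pi) (C := 117 / 100 * B + 53 / 100 * (w ^ 2 / S ^ 2))
    (f := fun θ : ℝ => PP w θ s - 1 - I * w * Real.cos θ / sinh (s / 2)) (fun θ _ => hpt θ)
  rw [hsum, norm_mul, show Real.pi - -Real.pi = 2 * Real.pi by ring,
    abs_of_pos (by positivity : (0 : ℝ) < 2 * Real.pi)] at hfin
  have e2 : ‖(2 : ℂ) * (Real.pi : ℂ)‖ = 2 * Real.pi := by
    rw [show (2 : ℂ) * (Real.pi : ℂ) = ((2 * Real.pi : ℝ) : ℂ) by push_cast; ring,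
      Complex.norm_real, Real.norm_eq_abs, abs_of_pos (by positivity)]
  rw [e2, mul_comm (2 * Real.pi)] at hfin
  exact le_of_mul_le_mul_right hfin (by positivity)

private lemma int_inv_sin_sq :
    ∫ β in (1 : ℝ)..Real.pi, 1 / Real.sin (β / 2) ^ 2 ≤ 36737 / 10000 := by
  have hpi := Real.pi_gt_three
  have hpos : ∀ β ∈ Set.uIcc (1 : ℝ) Real.pi, 0 < Real.sin (β / 2) := by
    intro β hβ
    rw [Set.uIcc_of_le (by linarith)] at hβ
    have := sin_pos_half hβ.1 hβ.2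
    linarith
  have hder : ∀ β ∈ Set.uIcc (1 : ℝ) Real.pi,
      HasDerivAt (fun β : ℝ => -2 * (Real.cos (β / 2) / Real.sin (β / 2)))
        (1 / Real.sin (β / 2) ^ 2) β := by
    intro β hβ
    have hs := (hpos β hβ).ne'
    have hd : HasDerivAt (fun β : ℝ => β / 2) (1 / 2) β := (hasDerivAt_id β).div_const 2
    have h := (hd.cos.div hd.sin hs).const_mul (-2)
    refine h.congr_deriv ?_
    have h2 := Real.sin_sq_add_cos_sq (β / 2)
    field_simp
    linarith
  have hcont : ContinuousOn (fun β : ℝ => 1 / Real.sin (β / 2) ^ 2) (Set.uIcc 1 Real.pi) := by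
    refine ContinuousOn.div (by fun_prop) (by fun_prop) fun β hβ => ?_
    have := hpos β hβ
    positivity
  rw [intervalIntegral.integral_eq_sub_of_hasDerivAt hder hcont.intervalIntegrable]
  obtain ⟨ha, hb, hc⟩ := sin_half_ge
  rw [Real.cos_pi_div_two, zero_div, mul_zero]
  have h3 : Real.cos (1 / 2) / Real.sin (1 / 2) ≤ (878 / 1000) / (478 / 1000) :=
    div_le_div₀ (by norm_num) hb (by norm_num) ha
  norm_num at h3 ⊢
  linarith

private lemma int_inv_sqrt {σ : ℝ} (hσ : 0 < σ) :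
    ∫ β in (1 : ℝ)..Real.pi, 1 / Real.sqrt (σ ^ 2 + Real.sin β ^ 2) ≤
      681 / 1000 + 15708 / 10000 * Real.arsinh (1 / σ) := by
  have hpi3 := Real.pi_gt_three
  have hpi4 := Real.pi_lt_d4
  have hpos : ∀ β : ℝ, 0 < Real.sqrt (σ ^ 2 + Real.sin β ^ 2) := fun β => by positivity
  have hcont : Continuous (fun β : ℝ => 1 / Real.sqrt (σ ^ 2 + Real.sin β ^ 2)) :=
    Continuous.div (by fun_prop) (by fun_prop) fun β => (hpos β).ne'
  rw [← intervalIntegral.integral_add_adjacent_intervals (b := Real.pi / 2)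
    (hcont.intervalIntegrable _ _) (hcont.intervalIntegrable _ _)]
  refine add_le_add ?_ ?_
  · obtain ⟨ha, hb, hc⟩ := sin_half_ge
    have hs1 : 8384 / 10000 ≤ Real.sin 1 := by
      have : Real.sin 1 = 2 * Real.sin (1 / 2) * Real.cos (1 / 2) := by
        rw [← Real.sin_two_mul]; norm_num
      rw [this]; nlinarith
    have h1 : ∫ β in (1 : ℝ)..(Real.pi / 2), 1 / Real.sqrt (σ ^ 2 + Real.sin β ^ 2) ≤
        ∫ β in (1 : ℝ)..(Real.pi / 2), 10000 / 8384 := by
      refine intervalIntegral.integral_mono_on (by linarith) (hcont.intervalIntegrable _ _)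
        (continuous_const.intervalIntegrable _ _) fun β hβ => ?_
      have h2 : Real.sin 1 ≤ Real.sin β :=
        Real.sin_le_sin_of_le_of_le_pi_div_two (by linarith) hβ.2 hβ.1
      have h3 : 8384 / 10000 ≤ Real.sqrt (σ ^ 2 + Real.sin β ^ 2) := by
        refine Real.le_sqrt_of_sq_le ?_
        nlinarith
      rw [div_le_div_iff₀ (hpos β) (by norm_num)]
      linarith
    refine h1.trans ?_
    rw [intervalIntegral.integral_const, smul_eq_mul]
    nlinarith
  · have hder : ∀ β ∈ Set.uIcc (Real.pi / 2) Real.pi,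
        HasDerivAt (fun β : ℝ => -(Real.pi / 2) * Real.arsinh (2 / (Real.pi * σ) * (Real.pi - β)))
          (1 / Real.sqrt (σ ^ 2 + (2 / Real.pi * (Real.pi - β)) ^ 2)) β := by
      intro β _
      have hd : HasDerivAt (fun β : ℝ => 2 / (Real.pi * σ) * (Real.pi - β))
          (2 / (Real.pi * σ) * (-1)) β := ((hasDerivAt_id β).const_sub Real.pi).const_mul _
      have h := (hd.arsinh).const_mul (-(Real.pi / 2))
      refine h.congr_deriv ?_
      have e : Real.sqrt (σ ^ 2 + (2 / Real.pi * (Real.pi - β)) ^ 2) =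
          σ * Real.sqrt (1 + (2 / (Real.pi * σ) * (Real.pi - β)) ^ 2) := by
        rw [show σ ^ 2 + (2 / Real.pi * (Real.pi - β)) ^ 2 =
          σ ^ 2 * (1 + (2 / (Real.pi * σ) * (Real.pi - β)) ^ 2) by field_simp,
          Real.sqrt_mul (by positivity), Real.sqrt_sq hσ.le]
      have hp : 0 < Real.sqrt (1 + (2 / (Real.pi * σ) * (Real.pi - β)) ^ 2) := by positivity
      rw [e, smul_eq_mul]
      have hpi0 : Real.pi ≠ 0 := by positivity
      generalize Real.sqrt (1 + (2 / (Real.pi * σ) * (Real.pi - β)) ^ 2) = T at hp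
      field_simp
    have hpos2 : ∀ β : ℝ, 0 < Real.sqrt (σ ^ 2 + (2 / Real.pi * (Real.pi - β)) ^ 2) :=
      fun β => by positivity
    have hcont2 : Continuous
        (fun β : ℝ => 1 / Real.sqrt (σ ^ 2 + (2 / Real.pi * (Real.pi - β)) ^ 2)) :=
      Continuous.div (by fun_prop) (by fun_prop) fun β => (hpos2 β).ne'
    have h1 : ∫ β in (Real.pi / 2)..Real.pi, 1 / Real.sqrt (σ ^ 2 + Real.sin β ^ 2) ≤
        ∫ β in (Real.pi / 2)..Real.pi,
          1 / Real.sqrt (σ ^ 2 + (2 / Real.pi * (Real.pi - β)) ^ 2) := by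
      refine intervalIntegral.integral_mono_on (by linarith) (hcont.intervalIntegrable _ _)
        (hcont2.intervalIntegrable _ _) fun β hβ => ?_
      have h2 : 2 / Real.pi * (Real.pi - β) ≤ Real.sin β := by
        have := Real.mul_le_sin (x := Real.pi - β) (by linarith [hβ.2]) (by linarith [hβ.1])
        rwa [Real.sin_pi_sub] at this
      have h3 : 0 ≤ 2 / Real.pi * (Real.pi - β) :=
        mul_nonneg (by positivity) (by linarith [hβ.2])
      refine div_le_div_of_nonneg_left zero_le_one (hpos2 β) (Real.sqrt_le_sqrt ?_)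
      have := pow_le_pow_left₀ h3 h2 2
      linarith
    refine h1.trans ?_
    rw [intervalIntegral.integral_eq_sub_of_hasDerivAt hder (hcont2.intervalIntegrable _ _)]
    have e1 : 2 / (Real.pi * σ) * (Real.pi - Real.pi / 2) = 1 / σ := by
      have hpi0 : Real.pi ≠ 0 := by positivity
      field_simp; norm_num
    rw [e1, sub_self, mul_zero, Real.arsinh_zero]
    have h4 : 0 ≤ Real.arsinh (1 / σ) := Real.arsinh_nonneg_iff.mpr (by positivity)
    nlinarith

private lemma arsinh_le {n : ℕ} (hn : 10 ^ 4 ≤ n) {A : ℝ} (hA1 : 157 / 100 ≤ A) :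
    Real.arsinh (1 / (A / n)) ≤ Real.log (2 * n) := by
  have hn' : (10 ^ 4 : ℝ) ≤ n := by exact_mod_cast hn
  have hA0 : 0 < A := by linarith
  have hn0 : (0 : ℝ) < n := by linarith
  unfold Real.arsinh
  have hx : 1 / (A / n) = n / A := by rw [one_div, inv_div]
  rw [hx]
  have hx0 : 0 < (n : ℝ) / A := by positivity
  refine Real.log_le_log (by positivity) ?_
  have h1 : Real.sqrt (1 + ((n : ℝ) / A) ^ 2) ≤ 1 + n / A := by
    refine Real.sqrt_le_iff.mpr ⟨by positivity, by nlinarith⟩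
  have h2 : (n : ℝ) / A ≤ n / (157 / 100) := div_le_div_of_nonneg_left hn0.le (by norm_num) hA1
  have h3 : (n : ℝ) / (157 / 100) = 100 / 157 * n := by ring
  rw [h3] at h2
  linarith

/-- DFB-9 (B8, integrated). -/
theorem far_int {n : ℕ} (hn : 10 ^ 4 ≤ n) {A : ℝ} (hA1 : 157 / 100 ≤ A) (hA2 : A ≤ 157 / 10) :
    n * ∫ β in (1 : ℝ)..Real.pi, ‖FF (A ^ 2 / n) (((A / n : ℝ) : ℂ) + β * I) - 1‖ ≤
      (A ^ 4 / n) * (235 / 100 + 92 / 100 * Real.log (2 * n)) + 574 / 1000 * (A ^ 5 / n) := by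
  obtain ⟨hn0, hw0, hw1, hσ, hA5, hB⟩ := params hn hA1 hA2
  have hA0 : 0 < A := by linarith
  have hpi3 := Real.pi_gt_three
  have hpi4 := Real.pi_lt_d4
  have hlog := arsinh_le hn hA1
  have hsq := int_inv_sqrt hσ
  have hsin := int_inv_sin_sq
  set w : ℝ := A ^ 2 / n with hw
  set σ : ℝ := A / n with hσd
  have hpos : ∀ β ∈ Set.uIcc (1 : ℝ) Real.pi, 0 < Real.sin (β / 2) := by
    intro β hβ
    rw [Set.uIcc_of_le (by linarith)] at hβ
    have := sin_pos_half hβ.1 hβ.2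
    linarith
  have hposQ : ∀ β : ℝ, 0 < Real.sqrt (σ ^ 2 + Real.sin β ^ 2) := fun β => by positivity
  have hc1 : ContinuousOn (fun β : ℝ => 1 / Real.sin (β / 2) ^ 2) (Set.uIcc 1 Real.pi) := by
    refine ContinuousOn.div (by fun_prop) (by fun_prop) fun β hβ => ?_
    have := hpos β hβ
    positivity
  have hc2 : Continuous (fun β : ℝ => 1 / Real.sqrt (σ ^ 2 + Real.sin β ^ 2)) :=
    Continuous.div (by fun_prop) (by fun_prop) fun β => (hposQ β).ne'
  have hi1 := hc1.intervalIntegrable (μ := (volume : Measure ℝ))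
  have hi2 := hc2.intervalIntegrable (μ := (volume : Measure ℝ)) 1 Real.pi
  have hmono : ∫ β in (1 : ℝ)..Real.pi, ‖FF w ((σ : ℂ) + β * I) - 1‖ ≤
      ∫ β in (1 : ℝ)..Real.pi, (117 / 200 * w ^ 2 * (1 / Real.sqrt (σ ^ 2 + Real.sin β ^ 2)) +
        (117 / 100 * (228 / 1000) * (A ^ 5 / (n : ℝ) ^ 2) +
        53 / 100 * w ^ 2 * (1 / Real.sin (β / 2) ^ 2))) := by
    refine intervalIntegral.integral_mono_on (by linarith) ?_ ?_ fun β hβ => ?_
    · exact (((continuous_FF w hσ).sub continuous_const).norm).intervalIntegrable _ _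
    · exact (hi2.const_mul _).add
        ((continuous_const.intervalIntegrable _ _).add (hi1.const_mul _))
    · refine (far_FF hn hA1 hA2 hβ.1 hβ.2).trans (le_of_eq ?_)
      rw [← hw, ← hσd]
      have h1 := (hposQ β).ne'
      have h2 := (hpos β (by rw [Set.uIcc_of_le (by linarith)]; exact hβ)).ne'
      field_simp
      ring
  rw [intervalIntegral.integral_add (hi2.const_mul _)
      ((continuous_const.intervalIntegrable _ _).add (hi1.const_mul _)),
    intervalIntegral.integral_add (continuous_const.intervalIntegrable _ _) (hi1.const_mul _),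
    intervalIntegral.integral_const_mul (117 / 200 * w ^ 2),
    intervalIntegral.integral_const_mul (53 / 100 * w ^ 2),
    intervalIntegral.integral_const, smul_eq_mul] at hmono
  set I1 : ℝ := ∫ β in (1 : ℝ)..Real.pi, 1 / Real.sqrt (σ ^ 2 + Real.sin β ^ 2)
  set I2 : ℝ := ∫ β in (1 : ℝ)..Real.pi, 1 / Real.sin (β / 2) ^ 2
  have hnw : n * w ^ 2 = A ^ 4 / n := by rw [hw]; field_simp
  have hnA : n * (A ^ 5 / (n : ℝ) ^ 2) = A ^ 5 / n := by field_simp
  have hP : 0 < A ^ 4 / n := by positivity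
  have hP5 : 0 < A ^ 5 / n := by positivity
  refine (mul_le_mul_of_nonneg_left hmono hn0.le).trans ?_
  have e : n * (117 / 200 * w ^ 2 * I1 + ((Real.pi - 1) * (117 / 100 * (228 / 1000) *
      (A ^ 5 / (n : ℝ) ^ 2)) + 53 / 100 * w ^ 2 * I2)) =
      (n * w ^ 2) * (117 / 200 * I1 + 53 / 100 * I2) +
      (n * (A ^ 5 / (n : ℝ) ^ 2)) * ((Real.pi - 1) * (117 / 100 * (228 / 1000))) := by ring
  rw [e, hnw, hnA]
  have hL : 0 ≤ Real.log (2 * n) := Real.log_nonneg (by
    have hn' : (10 ^ 4 : ℝ) ≤ n := by exact_mod_cast hn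
    linarith)
  refine add_le_add ?_ ?_
  · refine mul_le_mul_of_nonneg_left ?_ hP.le
    linarith
  · rw [mul_comm]
    refine mul_le_mul_of_nonneg_right ?_ hP5.le
    linarith

end Pool.Agent.Lib.Durfee
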