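import Pool.Agent.Lib.MP_9393b1_co.SmallBes

set_option autoImplicit false

namespace Pool.Agent.Lib.Durfee

open MeasureTheory

/-- the substitution `p = √t - 1/√t` -/
private noncomputable def pm (t : ℝ) : ℝ := Real.sqrt t - (Real.sqrt t)⁻¹

private noncomputable def pm' (t : ℝ) : ℝ := 1 / (2 * Real.sqrt t) + 1 / (2 * Real.sqrt t) / t

private noncomputable def gm (A p : ℝ) : ℝ := Real.exp (-(A * (p ^ 2 / (p ^ 2 + 2))))

private theorem pm_deriv {t : ℝ} (ht : 0 < t) : HasDerivAt pm (pm' t) t := by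
  have h1 := Real.hasDerivAt_sqrt ht.ne'
  have hs : Real.sqrt t ≠ 0 := (Real.sqrt_pos.2 ht).ne'
  have h2 := h1.sub (h1.inv hs)
  refine h2.congr_deriv ?_
  rw [pm', Real.sq_sqrt ht.le]
  ring

private theorem pm_sq {t : ℝ} (ht : 0 < t) : pm t ^ 2 + 2 = (1 + t ^ 2) / t := by
  have hs : 0 < Real.sqrt t := Real.sqrt_pos.2 ht
  have h2 : Real.sqrt t ^ 2 = t := Real.sq_sqrt ht.le
  unfold pm
  have : (Real.sqrt t - (Real.sqrt t)⁻¹) ^ 2 + 2 = Real.sqrt t ^ 2 + (Real.sqrt t ^ 2)⁻¹ := by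
    field_simp
    ring
  rw [this, h2]
  field_simp
  ring

private theorem gm_eq {A t : ℝ} (ht : 0 < t) :
    Real.exp (2 * A * t / (1 + t ^ 2)) = Real.exp A * gm A (pm t) := by
  unfold gm
  rw [← Real.exp_add]
  congr 1
  have h1 := pm_sq ht
  have h2 : pm t ^ 2 = (1 + t ^ 2) / t - 2 := by linarith
  rw [h1, h2]
  have : 0 < 1 + t ^ 2 := by positivity
  field_simp
  ring

private theorem pointwise_mid {A t : ℝ} (hA : 0 < A) (ht : 0 < t) :
    bes (2 * A * t⁻¹ / (1 + t⁻¹ ^ 2)) / Real.sqrt (1 + t⁻¹ ^ 2) * (t ^ 2)⁻¹ +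
      bes (2 * A * t / (1 + t ^ 2)) / Real.sqrt (1 + t ^ 2) ≤
    Real.sqrt (Real.pi / 8) * Real.sqrt 2 * (Real.exp A / Real.sqrt A) *
      (gm A (pm t) * pm' t) := by
  have hq : 0 < 1 + t ^ 2 := by positivity
  have e1 : 2 * A * t⁻¹ / (1 + t⁻¹ ^ 2) = 2 * A * t / (1 + t ^ 2) := by
    field_simp
    ring
  have e2 : Real.sqrt (1 + t⁻¹ ^ 2) = Real.sqrt (1 + t ^ 2) / t := by
    have : 1 + t⁻¹ ^ 2 = (1 + t ^ 2) / t ^ 2 := by
      field_simp
      ring
    rw [this, Real.sqrt_div hq.le, Real.sqrt_sq ht.le]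
  rw [e1, e2]
  have hX : 0 < 2 * A * t / (1 + t ^ 2) := by positivity
  have hb := bes_le hX
  have hs : 0 < Real.sqrt (1 + t ^ 2) := Real.sqrt_pos.2 hq
  have hst : 0 < Real.sqrt t := Real.sqrt_pos.2 ht
  have hsA : 0 < Real.sqrt A := Real.sqrt_pos.2 hA
  have h22 : Real.sqrt 2 ^ 2 = 2 := Real.sq_sqrt (by norm_num)
  have h20 : 0 < Real.sqrt 2 := Real.sqrt_pos.2 (by norm_num)
  have e3 : Real.sqrt (Real.pi / (8 * (2 * A * t / (1 + t ^ 2)))) =
      Real.sqrt (Real.pi / 8) * Real.sqrt (1 + t ^ 2) /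
        (Real.sqrt 2 * Real.sqrt A * Real.sqrt t) := by
    have a1 : Real.pi / (8 * (2 * A * t / (1 + t ^ 2))) =
        (Real.pi / 8) * (1 + t ^ 2) / (2 * A * t) := by
      field_simp
    rw [a1, Real.sqrt_div (by positivity), Real.sqrt_mul (by positivity),
      Real.sqrt_mul (by positivity), Real.sqrt_mul (by positivity)]
  rw [e3, gm_eq ht] at hb
  have e4 : bes (2 * A * t / (1 + t ^ 2)) / (Real.sqrt (1 + t ^ 2) / t) * (t ^ 2)⁻¹ +
      bes (2 * A * t / (1 + t ^ 2)) / Real.sqrt (1 + t ^ 2) =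
      bes (2 * A * t / (1 + t ^ 2)) * ((1 + t) / (t * Real.sqrt (1 + t ^ 2))) := by
    field_simp
  rw [e4]
  have hf : 0 ≤ (1 + t) / (t * Real.sqrt (1 + t ^ 2)) := by positivity
  refine (mul_le_mul_of_nonneg_right hb hf).trans (le_of_eq ?_)
  unfold pm'
  have h2' : Real.sqrt 2 * Real.sqrt 2 = 2 := by rw [← sq]; exact h22
  have e5 : (1 : ℝ) / Real.sqrt 2 = Real.sqrt 2 / 2 := by
    rw [div_eq_div_iff h20.ne' (by norm_num)]
    linarith
  have e6 : Real.sqrt (Real.pi / 8) * Real.sqrt (1 + t ^ 2) /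
        (Real.sqrt 2 * Real.sqrt A * Real.sqrt t) * (Real.exp A * gm A (pm t)) *
      ((1 + t) / (t * Real.sqrt (1 + t ^ 2))) =
      (1 / Real.sqrt 2) * (Real.sqrt (Real.pi / 8) *
        (Real.exp A / Real.sqrt A) * gm A (pm t) * ((1 + t) / (t * Real.sqrt t))) := by
    field_simp
  rw [e6, e5]
  field_simp
  ring

private theorem int_gm {A P : ℝ} (hA : 0 < A) (hP1 : 1 ≤ P) (hP2 : P ≤ 227 / 100) :
    ∫ p in (0 : ℝ)..P, gm A p ≤
      1 / 2 * Real.sqrt (3 * Real.pi / A) + 127 / 100 * Real.exp (-A / 3) := by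
  have hc : Continuous (gm A) := by
    unfold gm
    have : ∀ p : ℝ, p ^ 2 + 2 ≠ 0 := fun p => by positivity
    fun_prop (disch := assumption)
  rw [← intervalIntegral.integral_add_adjacent_intervals (hc.intervalIntegrable 0 1)
    (hc.intervalIntegrable 1 P)]
  have h1 : ∫ p in (0 : ℝ)..1, gm A p ≤ 1 / 2 * Real.sqrt (3 * Real.pi / A) := by
    have hA3 : 0 < A / 3 := by positivity
    have hg : Integrable (fun p : ℝ => Real.exp (-(A / 3) * p ^ 2)) := integrable_exp_neg_mul_sq hA3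
    have a1 : ∫ p in (0 : ℝ)..1, gm A p ≤ ∫ p in (0 : ℝ)..1, Real.exp (-(A / 3) * p ^ 2) := by
      refine intervalIntegral.integral_mono_on (by norm_num) (hc.intervalIntegrable _ _)
        hg.intervalIntegrable ?_
      intro p hp
      unfold gm
      apply Real.exp_le_exp.2
      have b1 : p ^ 2 / 3 ≤ p ^ 2 / (p ^ 2 + 2) := by
        apply div_le_div_of_nonneg_left (by positivity) (by positivity)
        nlinarith [hp.1, hp.2]
      nlinarith
    have a2 : ∫ p in (0 : ℝ)..1, Real.exp (-(A / 3) * p ^ 2) ≤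
        ∫ p in Set.Ioi (0 : ℝ), Real.exp (-(A / 3) * p ^ 2) := by
      rw [intervalIntegral.integral_of_le (by norm_num)]
      refine setIntegral_mono_set hg.integrableOn (ae_of_all _ fun p => (Real.exp_pos _).le) ?_
      exact Set.Ioc_subset_Ioi_self.eventuallyLE
    rw [integral_gaussian_Ioi] at a2
    have a3 : Real.sqrt (Real.pi / (A / 3)) / 2 = 1 / 2 * Real.sqrt (3 * Real.pi / A) := by
      have : Real.pi / (A / 3) = 3 * Real.pi / A := by field_simp
      rw [this]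
      ring
    rw [a3] at a2
    exact a1.trans a2
  have h2 : ∫ p in (1 : ℝ)..P, gm A p ≤ 127 / 100 * Real.exp (-A / 3) := by
    have a1 : ∫ p in (1 : ℝ)..P, gm A p ≤ ∫ p in (1 : ℝ)..P, Real.exp (-A / 3) := by
      refine intervalIntegral.integral_mono_on hP1 (hc.intervalIntegrable _ _)
        (continuous_const.intervalIntegrable _ _) ?_
      intro p hp
      unfold gm
      apply Real.exp_le_exp.2
      have b1 : 1 / 3 ≤ p ^ 2 / (p ^ 2 + 2) := by
        rw [div_le_div_iff₀ (by norm_num) (by positivity)]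
        nlinarith [hp.1]
      nlinarith
    rw [intervalIntegral.integral_const, smul_eq_mul] at a1
    refine a1.trans ?_
    exact mul_le_mul_of_nonneg_right (by linarith) (Real.exp_pos _).le
  linarith

/-- DFB-6 (B7, middle part). -/
theorem int_mid {A : ℝ} (hA1 : 157 / 100 ≤ A) :
    ∫ t in (1 / 7 : ℝ)..7, bes (2 * A * t / (1 + t ^ 2)) / Real.sqrt (1 + t ^ 2) ≤ K1b A := by
  have hA : 0 < A := by linarith
  set f : ℝ → ℝ := fun t => bes (2 * A * t / (1 + t ^ 2)) / Real.sqrt (1 + t ^ 2) with hf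
  have hden : ∀ t : ℝ, 1 + t ^ 2 ≠ 0 := fun t => by positivity
  have hsq : ∀ t : ℝ, Real.sqrt (1 + t ^ 2) ≠ 0 := fun t => by positivity
  have hfc : Continuous f := by
    refine Continuous.div (bes_continuous.comp ?_) (by fun_prop) hsq
    exact Continuous.div (by fun_prop) (by fun_prop) hden
  have hpos : ∀ x ∈ Set.uIcc (1 : ℝ) 7, 0 < x := by
    intro x hx
    rw [Set.uIcc_of_le (by norm_num)] at hx
    linarith [hx.1]
  have hpos' : ∀ x ∈ Set.uIcc (7 : ℝ) 1, 0 < x := by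
    rw [Set.uIcc_comm]
    exact hpos
  -- inversion
  have h1 : ∫ t in (1 / 7 : ℝ)..1, f t = ∫ t in (1 : ℝ)..7, f t⁻¹ * (t ^ 2)⁻¹ := by
    have a1 := intervalIntegral.integral_comp_mul_deriv (a := 7) (b := 1)
      (f := fun x : ℝ => x⁻¹) (f' := fun x => -(x ^ 2)⁻¹) (g := f)
      (fun x hx => hasDerivAt_inv (hpos' x hx).ne') ?_ hfc
    · rw [inv_one, ← one_div] at a1
      rw [← a1, intervalIntegral.integral_symm, ← intervalIntegral.integral_neg]
      congr 1
      funext x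
      simp only [Function.comp_apply]
      ring
    · apply ContinuousOn.neg
      apply ContinuousOn.inv₀ (by fun_prop)
      intro x hx
      exact pow_ne_zero 2 (hpos' x hx).ne'
  have hc1 : ContinuousOn (fun t : ℝ => f t⁻¹ * (t ^ 2)⁻¹) (Set.uIcc 1 7) := by
    refine ContinuousOn.mul ?_ ?_
    · refine hfc.comp_continuousOn ?_
      exact continuousOn_inv₀.mono fun x hx => (hpos x hx).ne'
    · apply ContinuousOn.inv₀ (by fun_prop)
      intro x hx
      exact pow_ne_zero 2 (hpos x hx).ne'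
  have h2 : ∫ t in (1 / 7 : ℝ)..7, f t = ∫ t in (1 : ℝ)..7, (f t⁻¹ * (t ^ 2)⁻¹ + f t) := by
    rw [← intervalIntegral.integral_add_adjacent_intervals
      (hfc.intervalIntegrable (1 / 7) 1) (hfc.intervalIntegrable 1 7), h1,
      intervalIntegral.integral_add hc1.intervalIntegrable (hfc.intervalIntegrable 1 7)]
  set C : ℝ := Real.sqrt (Real.pi / 8) * Real.sqrt 2 * (Real.exp A / Real.sqrt A) with hC
  have hC0 : 0 ≤ C := by positivity
  have hgc : Continuous (gm A) := by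
    unfold gm
    have : ∀ p : ℝ, p ^ 2 + 2 ≠ 0 := fun p => by positivity
    fun_prop (disch := assumption)
  have hpc : ContinuousOn pm (Set.uIcc 1 7) := fun x hx =>
    (pm_deriv (hpos x hx)).continuousAt.continuousWithinAt
  have hpc' : ContinuousOn pm' (Set.uIcc 1 7) := by
    unfold pm'
    have b1 : ContinuousOn (fun t : ℝ => 1 / (2 * Real.sqrt t)) (Set.uIcc 1 7) := by
      refine ContinuousOn.div (by fun_prop) (by fun_prop) ?_
      intro x hx
      have := Real.sqrt_pos.2 (hpos x hx)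
      positivity
    refine b1.add (b1.div continuousOn_id ?_)
    intro x hx
    exact (hpos x hx).ne'
  have h3 := intervalIntegral.integral_comp_mul_deriv (a := 1) (b := 7) (f := pm) (f' := pm')
    (g := gm A) (fun x hx => pm_deriv (hpos x hx)) hpc' hgc
  have hp1 : pm 1 = 0 := by simp [pm]
  have h7a : Real.sqrt 7 ≤ 26458 / 10000 := by
    rw [Real.sqrt_le_left (by norm_num)]
    norm_num
  have h7b : 2645 / 1000 ≤ Real.sqrt 7 := by
    apply Real.le_sqrt_of_sq_le
    norm_num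
  have hp7 : pm 7 ≤ 227 / 100 := by
    unfold pm
    have : (26458 / 10000 : ℝ)⁻¹ ≤ (Real.sqrt 7)⁻¹ := inv_anti₀ (by linarith) h7a
    have h8 : (37 / 100 : ℝ) ≤ (26458 / 10000 : ℝ)⁻¹ := by norm_num
    have h9 : (3779 / 10000 : ℝ) ≤ (26458 / 10000 : ℝ)⁻¹ := by norm_num
    linarith
  have hp7' : 1 ≤ pm 7 := by
    unfold pm
    have : (Real.sqrt 7)⁻¹ ≤ (2645 / 1000 : ℝ)⁻¹ := inv_anti₀ (by norm_num) h7b
    have h8 : (2645 / 1000 : ℝ)⁻¹ ≤ 1 / 2 := by norm_num
    linarith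
  have hint2 : IntervalIntegrable (fun t => C * (gm A (pm t) * pm' t)) volume 1 7 :=
    (continuousOn_const.mul ((hgc.comp_continuousOn hpc).mul hpc')).intervalIntegrable
  calc ∫ t in (1 / 7 : ℝ)..7, f t = ∫ t in (1 : ℝ)..7, (f t⁻¹ * (t ^ 2)⁻¹ + f t) := h2
    _ ≤ ∫ t in (1 : ℝ)..7, C * (gm A (pm t) * pm' t) := by
        refine intervalIntegral.integral_mono_on (by norm_num)
          (hc1.intervalIntegrable.add (hfc.intervalIntegrable 1 7)) hint2 ?_
        intro x hx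
        exact pointwise_mid hA (by linarith [hx.1])
    _ = C * ∫ p in (0 : ℝ)..pm 7, gm A p := by
        rw [intervalIntegral.integral_const_mul]
        congr 1
        rw [hp1] at h3
        exact h3
    _ ≤ C * (1 / 2 * Real.sqrt (3 * Real.pi / A) + 127 / 100 * Real.exp (-A / 3)) :=
        mul_le_mul_of_nonneg_left (int_gm hA hp7' hp7) hC0
    _ = K1b A := rfl

private theorem siPoint {A : ℝ} (hA : 0 < A) : bes (2 * A / 7) ≤ i0b A := by
  have h := bes_le (x := 2 * A / 7) (by positivity)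
  have e : Real.pi / (8 * (2 * A / 7)) = 7 * Real.pi / (16 * A) := by
    field_simp
    ring
  rw [e] at h
  exact h

private theorem siX_nonneg {A t : ℝ} (hA : 0 < A) (ht : 0 ≤ t) : 0 ≤ 2 * A * t / (1 + t ^ 2) := by
  positivity

private theorem siLow {A t : ℝ} (hA : 0 < A) (ht : 0 ≤ t) (ht' : t ≤ 1 / 7) :
    bes (2 * A * t / (1 + t ^ 2)) ≤ i0b A := by
  refine (bes_mono (siX_nonneg hA ht) ?_).trans (siPoint hA)
  rw [div_le_iff₀ (by positivity)]
  nlinarith [mul_nonneg hA.le (sq_nonneg t)]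

private theorem siHigh {A t : ℝ} (hA : 0 < A) (ht : 7 ≤ t) :
    bes (2 * A * t / (1 + t ^ 2)) ≤ i0b A := by
  refine (bes_mono (siX_nonneg hA (by linarith)) ?_).trans (siPoint hA)
  rw [div_le_div_iff₀ (by positivity) (by norm_num)]
  have : 0 ≤ A * (t * (t - 7)) := by
    apply mul_nonneg hA.le; apply mul_nonneg <;> linarith
  nlinarith

private theorem siI0_pos {A : ℝ} (hA : 0 < A) : 0 < i0b A :=
  lt_of_lt_of_le (bes_pos _) (siPoint hA)

private theorem siG_cont (A : ℝ) : Continuous fun t : ℝ => bes (2 * A * t / (1 + t ^ 2)) := by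
  refine bes_continuous.comp ?_
  refine Continuous.div (by fun_prop) (by fun_prop) fun t => ?_
  positivity

private theorem siS_pos (t : ℝ) : 0 < Real.sqrt (1 + t ^ 2) := Real.sqrt_pos.2 (by positivity)

private theorem siF_cont (A : ℝ) :
    Continuous fun t : ℝ => bes (2 * A * t / (1 + t ^ 2)) / Real.sqrt (1 + t ^ 2) :=
  (siG_cont A).div (by fun_prop) fun t => (siS_pos t).ne'

private theorem siJb {A : ℝ} (hA : 0 < A) (t : ℝ) : Jb A (A * t) = bes (2 * A * t / (1 + t ^ 2)) := by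
  rw [Jb]
  congr 1
  have h1 : A ^ 2 + (A * t) ^ 2 ≠ 0 := by positivity
  field_simp

private theorem siSqrt {A : ℝ} (hA : 0 < A) (t : ℝ) :
    Real.sqrt (A ^ 2 + (A * t) ^ 2) = A * Real.sqrt (1 + t ^ 2) := by
  have h1 : A ^ 2 + (A * t) ^ 2 = A ^ 2 * (1 + t ^ 2) := by ring
  rw [h1, Real.sqrt_mul (by positivity), Real.sqrt_sq hA.le]

private theorem siSub_div {A T : ℝ} (hA : 0 < A) {N : ℝ} (hT : A * T = N) :
    ∫ v in (0 : ℝ)..N, Jb A v / Real.sqrt (A ^ 2 + v ^ 2) =
      ∫ t in (0 : ℝ)..T, bes (2 * A * t / (1 + t ^ 2)) / Real.sqrt (1 + t ^ 2) := by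
  have h := intervalIntegral.mul_integral_comp_mul_left
    (f := fun v => Jb A v / Real.sqrt (A ^ 2 + v ^ 2)) (a := 0) (b := T) A
  rw [mul_zero, hT] at h
  rw [← h, ← intervalIntegral.integral_const_mul]
  refine intervalIntegral.integral_congr fun t _ => ?_
  show A * (Jb A (A * t) / Real.sqrt (A ^ 2 + (A * t) ^ 2)) = _
  rw [siJb hA, siSqrt hA]
  have := (siS_pos t).ne'
  field_simp

private theorem siSub {A T : ℝ} (hA : 0 < A) {N : ℝ} (hT : A * T = N) :
    ∫ v in (0 : ℝ)..N, Jb A v = A * ∫ t in (0 : ℝ)..T, bes (2 * A * t / (1 + t ^ 2)) := by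
  have h := intervalIntegral.mul_integral_comp_mul_left (f := fun v => Jb A v) (a := 0) (b := T) A
  rw [mul_zero, hT] at h
  rw [← h]
  congr 1
  refine intervalIntegral.integral_congr fun t _ => ?_
  exact siJb hA t

private theorem siSplit {f : ℝ → ℝ} (hf : Continuous f) (T : ℝ) :
    ∫ t in (0 : ℝ)..T, f t = (∫ t in (0 : ℝ)..(1 / 7), f t) + (∫ t in (1 / 7 : ℝ)..7, f t) +
      ∫ t in (7 : ℝ)..T, f t := by
  rw [intervalIntegral.integral_add_adjacent_intervals (hf.intervalIntegrable _ _)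
    (hf.intervalIntegrable _ _), intervalIntegral.integral_add_adjacent_intervals
    (hf.intervalIntegrable _ _) (hf.intervalIntegrable _ _)]

private theorem siConst {f : ℝ → ℝ} (hf : Continuous f) {a b c : ℝ} (hab : a ≤ b)
    (h : ∀ t ∈ Set.Icc a b, f t ≤ c) : ∫ t in a..b, f t ≤ c * (b - a) := by
  have h2 : IntervalIntegrable (fun _ : ℝ => c) volume a b := continuous_const.intervalIntegrable _ _
  have h1 := intervalIntegral.integral_mono_on hab (hf.intervalIntegrable a b) h2 h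
  rw [intervalIntegral.integral_const, smul_eq_mul] at h1
  linarith

private theorem siT {n : ℕ} (hn : 10 ^ 4 ≤ n) {A : ℝ} (hA : 0 < A) (hA2 : A ≤ 157 / 10) :
    7 ≤ (n : ℝ) / A := by
  rw [le_div_iff₀ hA]
  have : (10 ^ 4 : ℝ) ≤ n := by exact_mod_cast hn
  nlinarith

/-- DFB-7 (B7, the two integrals in the variable `v`). -/
theorem int_Jb_div {n : ℕ} (hn : 10 ^ 4 ≤ n) {A : ℝ} (hA1 : 157 / 100 ≤ A) (hA2 : A ≤ 157 / 10) :
    ∫ v in (0 : ℝ)..n, Jb A v / Real.sqrt (A ^ 2 + v ^ 2) ≤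
      K1b A + i0b A / 7 + i0b A * Real.log (n / (7 * A)) := by
  have hA : 0 < A := by linarith
  have hT := siT hn hA hA2
  have hI := siI0_pos hA
  rw [siSub_div hA (T := n / A) (mul_div_cancel₀ _ hA.ne'), siSplit (siF_cont A)]
  have h1 : ∫ t in (0 : ℝ)..(1 / 7), bes (2 * A * t / (1 + t ^ 2)) / Real.sqrt (1 + t ^ 2) ≤
      i0b A * (1 / 7 - 0) := by
    refine siConst (siF_cont A) (by norm_num) fun t ht => ?_
    have h2 : 1 ≤ Real.sqrt (1 + t ^ 2) := by
      rw [Real.one_le_sqrt]; nlinarith [sq_nonneg t]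
    exact (div_le_self (bes_pos _).le h2).trans (siLow hA ht.1 ht.2)
  have h3 : ∫ t in (7 : ℝ)..(n / A), bes (2 * A * t / (1 + t ^ 2)) / Real.sqrt (1 + t ^ 2) ≤
      i0b A * Real.log (n / (7 * A)) := by
    have h4 : ∫ t in (7 : ℝ)..(n / A), i0b A * t⁻¹ = i0b A * Real.log (n / (7 * A)) := by
      rw [intervalIntegral.integral_const_mul, integral_inv_of_pos (by norm_num) (by linarith)]
      congr 2
      rw [div_div, mul_comm A 7]
    rw [← h4]
    refine intervalIntegral.integral_mono_on hT ((siF_cont A).intervalIntegrable _ _) ?_ ?_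
    · refine ContinuousOn.intervalIntegrable ?_
      refine ContinuousOn.mul continuousOn_const (ContinuousOn.inv₀ continuousOn_id fun t ht => ?_)
      rw [Set.uIcc_of_le hT] at ht
      have := ht.1
      show t ≠ 0
      linarith
    · intro t ht
      have ht0 : 0 < t := by linarith [ht.1]
      have h5 : t ≤ Real.sqrt (1 + t ^ 2) := Real.le_sqrt_of_sq_le (by linarith)
      rw [← div_eq_mul_inv]
      exact div_le_div₀ hI.le (siHigh hA ht.1) ht0 h5
  have h6 := int_mid (A := A) hA1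
  linarith

theorem int_Jb {n : ℕ} (hn : 10 ^ 4 ≤ n) {A : ℝ} (hA1 : 157 / 100 ≤ A) (hA2 : A ≤ 157 / 10) :
    ∫ v in (0 : ℝ)..n, Jb A v ≤ A * (7072 / 1000 * K1b A + i0b A / 7 + i0b A * (n / A)) := by
  have hA : 0 < A := by linarith
  have hT := siT hn hA hA2
  have hI := siI0_pos hA
  rw [siSub hA (T := n / A) (mul_div_cancel₀ _ hA.ne'), siSplit (siG_cont A)]
  refine mul_le_mul_of_nonneg_left ?_ hA.le
  have h1 : ∫ t in (0 : ℝ)..(1 / 7), bes (2 * A * t / (1 + t ^ 2)) ≤ i0b A * (1 / 7 - 0) :=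
    siConst (siG_cont A) (by norm_num) fun t ht => siLow hA ht.1 ht.2
  have h3 : ∫ t in (7 : ℝ)..(n / A), bes (2 * A * t / (1 + t ^ 2)) ≤ i0b A * (n / A - 7) :=
    siConst (siG_cont A) hT fun t ht => siHigh hA ht.1
  have h5 : ∫ t in (1 / 7 : ℝ)..7, bes (2 * A * t / (1 + t ^ 2)) ≤ 7072 / 1000 *
      ∫ t in (1 / 7 : ℝ)..7, bes (2 * A * t / (1 + t ^ 2)) / Real.sqrt (1 + t ^ 2) := by
    rw [← intervalIntegral.integral_const_mul]
    refine intervalIntegral.integral_mono_on (by norm_num) ((siG_cont A).intervalIntegrable _ _)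
      ((continuous_const.mul (siF_cont A)).intervalIntegrable _ _) fun t ht => ?_
    have h6 : Real.sqrt (1 + t ^ 2) ≤ 7072 / 1000 := by
      rw [Real.sqrt_le_left (by norm_num)]
      have h7 : 0 ≤ t := by linarith [ht.1]
      have h8 := ht.2
      nlinarith
    have h9 := siS_pos t
    have h10 := (bes_pos (2 * A * t / (1 + t ^ 2))).le
    rw [mul_div_assoc', le_div_iff₀ h9, mul_comm]
    exact mul_le_mul_of_nonneg_right h6 h10
  have h6 := int_mid (A := A) hA1
  nlinarith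

end Pool.Agent.Lib.Durfee
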