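import Pool.Agent.Lib.MP_9393b1_co.SmallDefs

set_option autoImplicit false

namespace Pool.Agent.Lib.Durfee

open Complex MeasureTheory

private theorem cosInt_odd (k : ℕ) :
    ∫ θ in (-Real.pi)..Real.pi, Real.cos θ ^ (2 * k + 1) = 0 := by
  induction k with
  | zero => simp [integral_cos]
  | succ k ih =>
    have e : 2 * (k + 1) + 1 = (2 * k + 1) + 2 := by ring
    rw [e, integral_cos_pow, ih]
    simp

private theorem cosInt_even (k : ℕ) :
    ∫ θ in (-Real.pi)..Real.pi, Real.cos θ ^ (2 * k) =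
      2 * Real.pi * (((2 * k).factorial : ℝ) / ((k.factorial : ℝ) ^ 2 * 4 ^ k)) := by
  induction k with
  | zero => simp; ring
  | succ k ih =>
    have e : 2 * (k + 1) = 2 * k + 2 := by ring
    rw [e, integral_cos_pow, ih, Nat.factorial_succ (2 * k + 1), Nat.factorial_succ (2 * k),
      Nat.factorial_succ k]
    have h1 : (k.factorial : ℝ) ≠ 0 := by positivity
    have h2 : (k : ℝ) + 1 ≠ 0 := by positivity
    push_cast
    simp only [Real.sin_pi, Real.sin_neg]
    field_simp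
    ring

private theorem u_ne {A : ℝ} (hA : 0 < A) (v : ℝ) : ((A : ℂ) + v * I) ≠ 0 := by
  intro h
  have := congrArg Complex.re h
  simp at this
  linarith

private theorem u_normSq {A : ℝ} (v : ℝ) : ‖((A : ℂ) + v * I)‖ ^ 2 = A ^ 2 + v ^ 2 := by
  rw [← Complex.normSq_eq_norm_sq, Complex.normSq_add_mul_I]

/-- DFB-10 (B9): series of `F_∞`, bound at infinity. -/
theorem Finf_hasSum {A : ℝ} (hA : 0 < A) (v : ℝ) :
    HasSum (fun k : ℕ => (-1 : ℂ) ^ k * (A : ℂ) ^ (4 * k) /
      (((k.factorial : ℂ)) ^ 2 * ((A : ℂ) + v * I) ^ (2 * k))) (Finf A v) := by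
  have hu := u_ne hA v
  set u : ℂ := (A : ℂ) + v * I with hudef
  set c : ℂ := 2 * I * (A : ℂ) ^ 2 / u with hc
  set M : ℝ := ‖c‖ with hM
  have hM0 : 0 ≤ M := norm_nonneg _
  -- termwise integration
  have key : HasSum (fun j : ℕ => ∫ θ in (-Real.pi)..Real.pi,
      (c * (Real.cos θ : ℂ)) ^ j / (j.factorial : ℂ))
      (∫ θ in (-Real.pi)..Real.pi, exp (c * (Real.cos θ : ℂ))) := by
    refine intervalIntegral.hasSum_integral_of_dominated_convergence
      (fun j _ => M ^ j / (j.factorial : ℝ)) ?_ ?_ ?_ ?_ ?_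
    · intro j
      exact (Continuous.aestronglyMeasurable (by fun_prop))
    · intro j
      refine Filter.Eventually.of_forall fun θ _ => ?_
      rw [norm_div, norm_pow, norm_mul, Complex.norm_natCast]
      have hcos : ‖((Real.cos θ : ℝ) : ℂ)‖ ≤ 1 := by
        rw [Complex.norm_real]
        exact Real.abs_cos_le_one θ
      gcongr
      calc ‖c‖ * ‖((Real.cos θ : ℝ) : ℂ)‖ ≤ ‖c‖ * 1 := by gcongr
        _ = M := by rw [mul_one]
    · exact Filter.Eventually.of_forall fun θ _ => Real.summable_pow_div_factorial M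
    · exact intervalIntegrable_const
    · refine Filter.Eventually.of_forall fun θ _ => ?_
      have := NormedSpace.expSeries_div_hasSum_exp (𝔸 := ℂ) (c * (Real.cos θ : ℂ))
      rw [← Complex.exp_eq_exp_ℂ] at this
      exact this
  have hterm : ∀ j : ℕ, ∫ θ in (-Real.pi)..Real.pi,
      (c * (Real.cos θ : ℂ)) ^ j / (j.factorial : ℂ) =
      c ^ j / (j.factorial : ℂ) * ((∫ θ in (-Real.pi)..Real.pi, Real.cos θ ^ j : ℝ) : ℂ) := by
    intro j
    have h1 : ((∫ θ in (-Real.pi)..Real.pi, Real.cos θ ^ j : ℝ) : ℂ) =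
        ∫ θ in (-Real.pi)..Real.pi, ((Real.cos θ ^ j : ℝ) : ℂ) :=
      (intervalIntegral.integral_ofReal).symm
    rw [h1, ← intervalIntegral.integral_const_mul]
    refine intervalIntegral.integral_congr fun θ _ => ?_
    push_cast
    ring
  have key2 : HasSum (fun j : ℕ => 1 / (2 * (Real.pi : ℂ)) * (c ^ j / (j.factorial : ℂ) *
      ((∫ θ in (-Real.pi)..Real.pi, Real.cos θ ^ j : ℝ) : ℂ))) (Finf A v) := by
    have h := key.mul_left (1 / (2 * (Real.pi : ℂ)))
    simp only [hterm] at h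
    have hF : Finf A v = 1 / (2 * (Real.pi : ℂ)) *
        ∫ θ in (-Real.pi)..Real.pi, exp (c * (Real.cos θ : ℂ)) := by
      unfold Finf
      congr 1
      refine intervalIntegral.integral_congr fun θ _ => ?_
      simp only [hc]
      rw [div_mul_eq_mul_div]
    rw [hF]
    exact h
  have hinj : Function.Injective (fun k : ℕ => 2 * k) := fun a b h => by
    simpa using h
  have key3 := (hinj.hasSum_iff (f := fun j : ℕ => 1 / (2 * (Real.pi : ℂ)) *
      (c ^ j / (j.factorial : ℂ) *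
      ((∫ θ in (-Real.pi)..Real.pi, Real.cos θ ^ j : ℝ) : ℂ))) (a := Finf A v) ?_).2 key2
  · convert key3 using 1
    funext k
    simp only [Function.comp]
    rw [cosInt_even]
    have h1 : (k.factorial : ℂ) ≠ 0 := by exact_mod_cast Nat.factorial_ne_zero k
    have h2 : ((2 * k).factorial : ℂ) ≠ 0 := by exact_mod_cast Nat.factorial_ne_zero (2 * k)
    have h3 : (Real.pi : ℂ) ≠ 0 := by exact_mod_cast Real.pi_ne_zero
    have hI : (2 * I : ℂ) ^ (2 * k) = (-1) ^ k * 4 ^ k := by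
      rw [pow_mul, mul_pow, Complex.I_sq]
      rw [show ((2 : ℂ) ^ 2 * -1) = (-1) * 4 by norm_num, mul_pow]
    have hc2 : c ^ (2 * k) = (-1) ^ k * 4 ^ k * (A : ℂ) ^ (4 * k) / u ^ (2 * k) := by
      rw [hc, div_pow, mul_pow, hI, ← pow_mul]
      congr 3
      ring
    rw [hc2]
    push_cast
    field_simp
  · intro j hj
    have hodd : Odd j := by
      rw [← Nat.not_even_iff_odd]
      rintro ⟨k, hk⟩
      exact hj ⟨k, by simp only; omega⟩
    obtain ⟨k, rfl⟩ := hodd
    rw [cosInt_odd]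
    simp

theorem Finf_continuous {A : ℝ} (hA : 0 < A) : Continuous (fun v : ℝ => Finf A v) := by
  unfold Finf
  refine continuous_const.mul ?_
  refine intervalIntegral.continuous_parametric_intervalIntegral_of_continuous' ?_ _ _
  refine Complex.continuous_exp.comp ?_
  refine Continuous.div (by fun_prop) (by fun_prop) ?_
  rintro ⟨v, θ⟩
  exact u_ne hA v

theorem Finf_sub_one_le {A : ℝ} (hA : 0 < A) (v : ℝ) :
    ‖Finf A v - 1‖ ≤ A ^ 4 / (A ^ 2 + v ^ 2) * Real.exp (A ^ 4 / (A ^ 2 + v ^ 2)) := by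
  have hu := u_ne hA v
  have hn := u_normSq (A := A) v
  have hpos : 0 < A ^ 2 + v ^ 2 := by positivity
  set x : ℝ := A ^ 4 / (A ^ 2 + v ^ 2) with hx
  have hx0 : 0 ≤ x := by positivity
  have h := Finf_hasSum hA v
  have h1 := (hasSum_nat_add_iff' 1).2 h
  simp only [Finset.range_one, Finset.sum_singleton] at h1
  have h0 : (-1 : ℂ) ^ 0 * (A : ℂ) ^ (4 * 0) /
      (((Nat.factorial 0 : ℕ) : ℂ) ^ 2 * ((A : ℂ) + v * I) ^ (2 * 0)) = 1 := by simp
  rw [h0] at h1
  have hb : HasSum (fun k : ℕ => x * (x ^ k / (k.factorial : ℝ))) (x * Real.exp x) := by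
    have := NormedSpace.expSeries_div_hasSum_exp (𝔸 := ℝ) x
    rw [← Real.exp_eq_exp_ℝ] at this
    exact this.mul_left x
  refine (h1.norm_le_of_bounded hb ?_)
  intro k
  have hnorm : ‖(-1 : ℂ) ^ (k + 1) * (A : ℂ) ^ (4 * (k + 1)) /
      ((((k + 1).factorial : ℕ) : ℂ) ^ 2 * ((A : ℂ) + v * I) ^ (2 * (k + 1)))‖ =
      x ^ (k + 1) / (((k + 1).factorial : ℝ)) ^ 2 := by
    rw [norm_div, norm_mul, norm_mul, norm_pow, norm_pow, norm_pow, norm_pow, norm_neg, norm_one,
      one_pow, one_mul, Complex.norm_natCast, Complex.norm_real, Real.norm_eq_abs, abs_of_pos hA,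
      pow_mul ‖((A : ℂ) + v * I)‖ 2 (k + 1), hn, hx, div_pow, pow_mul A 4 (k + 1)]
    field_simp
  rw [hnorm, pow_succ, mul_comm (x ^ k) x, mul_div_assoc]
  gcongr
  have h3 : (k.factorial : ℝ) ≤ ((k + 1).factorial : ℝ) := by
    exact_mod_cast Nat.factorial_le (Nat.le_succ k)
  have h4 : (1 : ℝ) ≤ ((k + 1).factorial : ℝ) := by
    exact_mod_cast Nat.one_le_iff_ne_zero.2 (Nat.factorial_ne_zero _)
  nlinarith

theorem tail_Finf {n : ℕ} (hn : 10 ^ 4 ≤ n) {A : ℝ} (hA1 : 157 / 100 ≤ A) (hA2 : A ≤ 157 / 10) :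
    ∫ v in Set.Ioi (n : ℝ), ‖Finf A v - 1‖ ≤ 101 / 100 * (A ^ 4 / n) := by
  have hA : 0 < A := by linarith
  have hn' : (10 : ℝ) ^ 4 ≤ n := by exact_mod_cast hn
  have hn0 : (0 : ℝ) < n := by linarith [show (0 : ℝ) < 10 ^ 4 by norm_num]
  have hint : IntegrableOn (fun v : ℝ => 101 / 100 * A ^ 4 * v ^ (-2 : ℝ)) (Set.Ioi (n : ℝ)) :=
    (integrableOn_Ioi_rpow_of_lt (by norm_num) hn0).const_mul _
  have hval : ∫ v in Set.Ioi (n : ℝ), 101 / 100 * A ^ 4 * v ^ (-2 : ℝ) =
      101 / 100 * (A ^ 4 / n) := by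
    rw [MeasureTheory.integral_const_mul, integral_Ioi_rpow_of_lt (by norm_num) hn0]
    have : ((-2 : ℝ) + 1) = -1 := by norm_num
    rw [this, Real.rpow_neg_one]
    field_simp
  rw [← hval]
  refine MeasureTheory.integral_mono_of_nonneg (Filter.Eventually.of_forall fun v => norm_nonneg _)
    hint ?_
  refine (ae_restrict_iff' measurableSet_Ioi).2 (Filter.Eventually.of_forall fun v hv => ?_)
  have hv' : (n : ℝ) < v := hv
  have hv0 : 0 < v := hn0.trans hv'
  refine (Finf_sub_one_le hA v).trans ?_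
  have hA4 : A ^ 4 ≤ (157 / 10) ^ 4 := by gcongr
  have hx : A ^ 4 / (A ^ 2 + v ^ 2) ≤ A ^ 4 * v ^ (-2 : ℝ) := by
    rw [Real.rpow_neg hv0.le, div_eq_mul_inv]
    gcongr
    rw [Real.rpow_two]
    nlinarith [sq_nonneg A]
  have hv2 : v ^ (-2 : ℝ) ≤ 1 / 10 ^ 8 := by
    rw [Real.rpow_neg hv0.le, Real.rpow_two, ← one_div]
    apply one_div_le_one_div_of_le (by norm_num)
    nlinarith
  have hx2 : A ^ 4 / (A ^ 2 + v ^ 2) ≤ 1 / 1000 := by
    refine hx.trans ?_
    calc A ^ 4 * v ^ (-2 : ℝ) ≤ (157 / 10) ^ 4 * (1 / 10 ^ 8) := by gcongr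
      _ ≤ 1 / 1000 := by norm_num
  have hexp : Real.exp (A ^ 4 / (A ^ 2 + v ^ 2)) ≤ 101 / 100 := by
    have h1 : Real.exp (A ^ 4 / (A ^ 2 + v ^ 2)) ≤ Real.exp (1 / 1000) := Real.exp_le_exp.2 hx2
    have h2 := Real.exp_bound' (x := 1 / 1000) (by norm_num) (by norm_num) (n := 2) (by norm_num)
    refine h1.trans (h2.trans ?_)
    norm_num [Finset.sum_range_succ, Nat.factorial]
  have hx0 : 0 ≤ A ^ 4 / (A ^ 2 + v ^ 2) := by positivity
  calc A ^ 4 / (A ^ 2 + v ^ 2) * Real.exp (A ^ 4 / (A ^ 2 + v ^ 2))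
      ≤ (A ^ 4 * v ^ (-2 : ℝ)) * (101 / 100) := by gcongr
    _ = 101 / 100 * A ^ 4 * v ^ (-2 : ℝ) := by ring

private theorem powexp_real {A : ℝ} (hA : 0 < A) (m : ℕ) :
    IntegrableOn (fun t : ℝ => t ^ m * Real.exp (-A * t)) (Set.Ioi 0) :=
  integrableOn_rpow_mul_exp_neg_mul_rpow (s := (m : ℝ)) (p := 1) (b := A)
      (by have : (0 : ℝ) ≤ m := Nat.cast_nonneg _
          linarith) one_pos hA |>.congr_fun (fun t _ => by simp) measurableSet_Ioi

private theorem powexp_norm {s : ℂ} (m : ℕ) {t : ℝ} (ht : 0 < t) :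
    ‖(t : ℂ) ^ m * exp (-(s * t))‖ = t ^ m * Real.exp (-s.re * t) := by
  rw [norm_mul, norm_pow, Complex.norm_real, Real.norm_of_nonneg ht.le, Complex.norm_exp]
  congr 2
  rw [Complex.neg_re, Complex.re_mul_ofReal]
  ring

private theorem powexp_integrable {s : ℂ} (hs : 0 < s.re) (m : ℕ) :
    IntegrableOn (fun t : ℝ => (t : ℂ) ^ m * exp (-(s * t))) (Set.Ioi 0) := by
  refine (powexp_real hs m).mono' ?_ ?_
  · exact (Continuous.aestronglyMeasurable (by fun_prop)).restrict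
  · refine (ae_restrict_mem measurableSet_Ioi).mono fun t ht => ?_
    exact (powexp_norm m ht).le

private theorem powexp_tendsto {s : ℂ} (hs : 0 < s.re) (m : ℕ) :
    Filter.Tendsto (fun t : ℝ => (t : ℂ) ^ m * exp (-(s * t))) Filter.atTop (nhds 0) := by
  rw [tendsto_zero_iff_norm_tendsto_zero]
  have h := tendsto_rpow_mul_exp_neg_mul_atTop_nhds_zero (m : ℝ) s.re hs
  refine h.congr' ?_
  filter_upwards [Filter.eventually_gt_atTop (0 : ℝ)] with t ht
  rw [powexp_norm m ht, Real.rpow_natCast]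

private theorem powexp_integral {s : ℂ} (hs : 0 < s.re) (m : ℕ) :
    ∫ t in Set.Ioi (0 : ℝ), (t : ℂ) ^ m * exp (-(s * t)) = (m.factorial : ℂ) * (s ^ (m + 1))⁻¹ := by
  have hs0 : s ≠ 0 := by
    rintro rfl
    simp at hs
  have hexp : ∀ t : ℝ, HasDerivAt (fun t : ℝ => exp (-(s * t))) (-s * exp (-(s * t))) t := by
    intro t
    have h1 : HasDerivAt (fun z : ℂ => -(s * z)) (-s) (t : ℂ) :=
      (((hasDerivAt_id (t : ℂ)).const_mul s).neg).congr_deriv (by simp)
    have h2 := h1.cexp.comp_ofReal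
    refine h2.congr_deriv ?_
    ring
  induction m with
  | zero =>
    have hd : ∀ t ∈ Set.Ioi (0 : ℝ), HasDerivAt (fun t : ℝ => -(s⁻¹) * exp (-(s * t)))
        ((t : ℂ) ^ 0 * exp (-(s * t))) t := by
      intro t _
      refine ((hexp t).const_mul (-(s⁻¹))).congr_deriv ?_
      field_simp
    have ht : Filter.Tendsto (fun t : ℝ => -(s⁻¹) * exp (-(s * t))) Filter.atTop (nhds 0) := by
      have := (powexp_tendsto hs 0).const_mul (-(s⁻¹))
      simpa using this
    have h := integral_Ioi_of_hasDerivAt_of_tendsto (a := (0 : ℝ))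
      (Continuous.continuousWithinAt (by fun_prop)) hd (powexp_integrable hs 0) ht
    rw [h]
    simp
  | succ m ih =>
    have hd : ∀ t ∈ Set.Ioi (0 : ℝ), HasDerivAt (fun t : ℝ => (t : ℂ) ^ (m + 1) * exp (-(s * t)))
        (((m : ℂ) + 1) * ((t : ℂ) ^ m * exp (-(s * t))) -
          s * ((t : ℂ) ^ (m + 1) * exp (-(s * t)))) t := by
      intro t _
      have h1 : HasDerivAt (fun t : ℝ => (t : ℂ) ^ (m + 1)) (((m : ℂ) + 1) * (t : ℂ) ^ m) t := by
        have := (hasDerivAt_pow (m + 1) (t : ℂ)).comp_ofReal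
        simpa using this
      refine (h1.mul (hexp t)).congr_deriv ?_
      ring
    have h := integral_Ioi_of_hasDerivAt_of_tendsto (a := (0 : ℝ))
      (Continuous.continuousWithinAt (by fun_prop)) hd
      (((powexp_integrable hs m).const_mul _).sub ((powexp_integrable hs (m + 1)).const_mul _))
      (powexp_tendsto hs (m + 1))
    rw [integral_sub ((powexp_integrable hs m).const_mul _)
      ((powexp_integrable hs (m + 1)).const_mul _), integral_const_mul, integral_const_mul, ih] at h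
    simp only [Complex.ofReal_zero, ne_eq, Nat.succ_ne_zero, not_false_eq_true, zero_pow,
      zero_mul, sub_zero] at h
    have h2 : s * ∫ t in Set.Ioi (0 : ℝ), (t : ℂ) ^ (m + 1) * exp (-(s * t)) =
        ((m : ℂ) + 1) * ((m.factorial : ℂ) * (s ^ (m + 1))⁻¹) := by
      linear_combination -h
    rw [Nat.factorial_succ]
    push_cast
    field_simp at h2 ⊢
    linear_combination h2

/-- Powers with exponential decay on the half line, extended by zero. -/
private noncomputable def gP (A : ℝ) (m : ℕ) (t : ℝ) : ℂ :=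
  ((max t 0 : ℝ) : ℂ) ^ m * exp (-((A : ℂ) * t)) / (m.factorial : ℂ)

private theorem gP_continuous (A : ℝ) (m : ℕ) : Continuous (gP A m) := by
  unfold gP
  fun_prop

private theorem gP_nonpos (A : ℝ) {m : ℕ} (hm : 1 ≤ m) {t : ℝ} (ht : t ≤ 0) : gP A m t = 0 := by
  unfold gP
  rw [max_eq_right ht]
  simp [show m ≠ 0 by omega]

private theorem gP_indicator (A : ℝ) {m : ℕ} (hm : 1 ≤ m) (c : ℝ → ℂ) :
    (fun t => c t * gP A m t) = Set.indicator (Set.Ioi 0)
      (fun t : ℝ => c t * ((t : ℂ) ^ m * exp (-((A : ℂ) * t)) / (m.factorial : ℂ))) := by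
  funext t
  by_cases ht : t ∈ Set.Ioi (0 : ℝ)
  · rw [Set.indicator_of_mem ht]
    unfold gP
    rw [max_eq_left (le_of_lt ht)]
  · rw [Set.indicator_of_notMem ht, gP_nonpos A hm (not_lt.1 ht), mul_zero]

private theorem gP_integrable {A : ℝ} (hA : 0 < A) {m : ℕ} (hm : 1 ≤ m) : Integrable (gP A m) := by
  have h := gP_indicator A hm (fun _ => 1)
  simp only [one_mul] at h
  rw [show gP A m = fun t => gP A m t from rfl, h, integrable_indicator_iff measurableSet_Ioi]
  have h1 := powexp_real hA m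
  refine (h1.const_mul ((m.factorial : ℝ)⁻¹)).mono' ?_ ?_
  · exact (Continuous.aestronglyMeasurable (by fun_prop)).restrict
  · refine (ae_restrict_mem measurableSet_Ioi).mono fun t ht => ?_
    have ht0 : (0 : ℝ) < t := ht
    rw [norm_div, norm_mul, norm_pow, Complex.norm_real, Real.norm_of_nonneg ht0.le,
      Complex.norm_exp]
    have e1 : (-((A : ℂ) * t)).re = -A * t := by
      rw [Complex.neg_re, ← Complex.ofReal_mul, Complex.ofReal_re]
      ring
    rw [e1]
    have e2 : ‖(m.factorial : ℂ)‖ = m.factorial := by simp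
    rw [e2]
    exact le_of_eq (by ring)

private theorem gP_fourier {A : ℝ} (hA : 0 < A) {m : ℕ} (hm : 1 ≤ m) (ξ : ℝ) :
    FourierTransform.fourier (gP A m) ξ =
      (((A : ℂ) + (2 * Real.pi * ξ : ℝ) * I) ^ (m + 1))⁻¹ := by
  set s : ℂ := (A : ℂ) + (2 * Real.pi * ξ : ℝ) * I with hs
  have hsre : 0 < s.re := by rw [hs]; simpa using hA
  have hs0 : s ≠ 0 := by
    intro h
    rw [h] at hsre
    simp at hsre
  rw [Real.fourier_real_eq_integral_exp_smul]
  have h1 : (fun t : ℝ => exp (↑(-2 * Real.pi * t * ξ) * I) • gP A m t) =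
      fun t : ℝ => exp (↑(-2 * Real.pi * t * ξ) * I) * gP A m t := rfl
  rw [h1, gP_indicator A hm, integral_indicator measurableSet_Ioi]
  have h2 : ∫ t in Set.Ioi (0 : ℝ), exp (↑(-2 * Real.pi * t * ξ) * I) *
      ((t : ℂ) ^ m * exp (-((A : ℂ) * t)) / (m.factorial : ℂ)) =
      ∫ t in Set.Ioi (0 : ℝ), ((t : ℂ) ^ m * exp (-(s * t))) / (m.factorial : ℂ) := by
    refine setIntegral_congr_fun measurableSet_Ioi fun t ht => ?_
    have e1 : exp (-(s * t)) = exp (↑(-2 * Real.pi * t * ξ) * I) * exp (-((A : ℂ) * t)) := by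
      rw [← Complex.exp_add, hs]
      congr 1
      push_cast
      ring
    rw [e1]
    ring
  have h4 : (m.factorial : ℂ) ≠ 0 := by exact_mod_cast m.factorial_ne_zero
  rw [h2, integral_div, powexp_integral hsre, mul_comm, mul_div_assoc, div_self h4, mul_one]

private theorem inv_laplace_pow_aux {A : ℝ} (hA : 0 < A) {m : ℕ} (hm : 1 ≤ m) :
    ∫ v : ℝ, exp ((A : ℂ) + v * I) * (((A : ℂ) + v * I) ^ (m + 1))⁻¹ =
      2 * Real.pi / (m.factorial : ℂ) := by
  have hpi2 : (2 * Real.pi : ℝ) ≠ 0 := by positivity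
  have hline : ∀ β : ℝ, A ^ 2 + β ^ 2 = ‖(A : ℂ) + β * I‖ ^ 2 := by
    intro β
    rw [← Complex.normSq_eq_norm_sq, Complex.normSq_apply]
    simp
    ring
  have hpos : ∀ β : ℝ, 0 < ‖(A : ℂ) + β * I‖ := by
    intro β
    have h1 := Complex.re_le_norm ((A : ℂ) + β * I)
    have h2 : ((A : ℂ) + β * I).re = A := by simp
    linarith
  have hA' : ∀ β : ℝ, A ≤ ‖(A : ℂ) + β * I‖ := by
    intro β
    have h1 := Complex.re_le_norm ((A : ℂ) + β * I)
    have h2 : ((A : ℂ) + β * I).re = A := by simp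
    linarith
  -- integrability on the line
  have hI : Integrable (fun β : ℝ => (((A : ℂ) + β * I) ^ (m + 1))⁻¹) := by
    set c : ℝ := min 1 (A ^ 2) with hc
    have hc0 : 0 < c := lt_min one_pos (by positivity)
    have h1 : Integrable (fun β : ℝ => ((A ^ (m - 1))⁻¹ * c⁻¹) * (1 + β ^ 2)⁻¹) :=
      integrable_inv_one_add_sq.const_mul _
    refine h1.mono' ?_ (Filter.Eventually.of_forall fun β => ?_)
    · refine Continuous.aestronglyMeasurable ?_
      refine Continuous.inv₀ (by fun_prop) fun β => ?_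
      exact pow_ne_zero _ (norm_pos_iff.1 (hpos β))
    · rw [norm_inv, norm_pow, show m + 1 = (m - 1) + 2 by omega, pow_add, mul_inv, ← hline]
      have e1 : (‖(A : ℂ) + β * I‖ ^ (m - 1))⁻¹ ≤ (A ^ (m - 1))⁻¹ :=
        inv_anti₀ (by positivity) (pow_le_pow_left₀ hA.le (hA' β) _)
      have e2 : (A ^ 2 + β ^ 2)⁻¹ ≤ c⁻¹ * (1 + β ^ 2)⁻¹ := by
        rw [← mul_inv]
        refine inv_anti₀ (by positivity) ?_
        have a1 : c ≤ 1 := min_le_left _ _
        have a2 : c ≤ A ^ 2 := min_le_right _ _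
        nlinarith [sq_nonneg β]
      calc _ ≤ (A ^ (m - 1))⁻¹ * (c⁻¹ * (1 + β ^ 2)⁻¹) :=
            mul_le_mul e1 e2 (by positivity) (by positivity)
        _ = _ := by ring
  have hF : Integrable (FourierTransform.fourier (gP A m)) := by
    have h1 := hI.comp_mul_left' hpi2
    refine h1.congr (Filter.Eventually.of_forall fun ξ => ?_)
    rw [gP_fourier hA hm ξ]
  have hinv := Integrable.fourierInv_fourier_eq (gP_integrable hA hm) hF
    (v := 1) (gP_continuous A m).continuousAt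
  rw [Real.fourierInv_eq'] at hinv
  have h2 : ∀ ξ : ℝ, exp (↑(2 * Real.pi * inner ℝ ξ (1 : ℝ)) * I) •
      FourierTransform.fourier (gP A m) ξ =
      exp (-(A : ℂ)) * (fun β : ℝ => exp ((A : ℂ) + β * I) * (((A : ℂ) + β * I) ^ (m + 1))⁻¹)
        (2 * Real.pi * ξ) := by
    intro ξ
    rw [gP_fourier hA hm ξ, smul_eq_mul]
    have e1 : exp (-(A : ℂ)) * exp ((A : ℂ) + ((2 * Real.pi * ξ : ℝ) : ℂ) * I) =
        exp (↑(2 * Real.pi * inner ℝ ξ (1 : ℝ)) * I) := by
      rw [← Complex.exp_add]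
      congr 1
      simp only [RCLike.inner_apply]
      push_cast
      simp
    simp only []
    rw [← mul_assoc, e1]
  rw [integral_congr_ae (Filter.Eventually.of_forall h2), integral_const_mul,
    Measure.integral_comp_mul_left (fun β : ℝ => exp ((A : ℂ) + β * I) *
      (((A : ℂ) + β * I) ^ (m + 1))⁻¹) (2 * Real.pi)] at hinv
  have h3 : gP A m 1 = exp (-(A : ℂ)) * (1 / (m.factorial : ℂ)) := by
    unfold gP
    simp
    ring
  rw [h3] at hinv
  have h4 := mul_left_cancel₀ (Complex.exp_ne_zero _) hinv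
  rw [abs_of_pos (by positivity), Complex.real_smul] at h4
  have h5 : (2 * Real.pi : ℂ) * (((2 * Real.pi)⁻¹ : ℝ) : ℂ) = 1 := by
    rw [Complex.ofReal_inv]
    push_cast
    refine mul_inv_cancel₀ ?_
    exact_mod_cast hpi2
  rw [div_eq_mul_one_div, ← h4, ← mul_assoc, h5, one_mul]

/-- DFB-11 (B10): inverse Laplace transform of `s^{-2k}` at `1`. -/
theorem inv_laplace_pow {A : ℝ} (hA : 0 < A) (k : ℕ) (hk : 1 ≤ k) :
    ∫ v : ℝ, exp ((A : ℂ) + v * I) * (((A : ℂ) + v * I) ^ (2 * k))⁻¹ =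
      2 * Real.pi / ((2 * k - 1).factorial : ℂ) := by
  have h := inv_laplace_pow_aux hA (m := 2 * k - 1) (by omega)
  rwa [show 2 * k - 1 + 1 = 2 * k by omega] at h

private lemma ne12 {A : ℝ} (hA : 0 < A) (v : ℝ) : (A : ℂ) + v * I ≠ 0 := by
  intro h
  have := congrArg Complex.re h
  simp at this
  exact hA.ne' this

private lemma nsq12 (A v : ℝ) : ‖(A : ℂ) + v * I‖ ^ 2 = A ^ 2 + v ^ 2 := by
  rw [← Complex.normSq_eq_norm_sq, Complex.normSq_add_mul_I]

private lemma conjF12 {A : ℝ} (hA : 0 < A) (v : ℝ) :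
    Finf A (-v) = (starRingEnd ℂ) (Finf A v) := by
  have h1 := (Finf_hasSum hA v).star
  have h2 := Finf_hasSum hA (-v)
  refine h2.unique ?_
  have e : (starRingEnd ℂ) (Finf A v) = star (Finf A v) := rfl
  rw [e]
  convert h1 using 1
  funext k
  simp

private lemma intg12 {A : ℝ} (hA : 0 < A) : Integrable (fun v : ℝ => (A ^ 2 + v ^ 2)⁻¹) := by
  have hb : Integrable (fun v : ℝ => (min 1 (A ^ 2))⁻¹ * (1 + v ^ 2)⁻¹) :=
    integrable_inv_one_add_sq.const_mul _
  refine hb.mono' ?_ ?_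
  · apply Continuous.aestronglyMeasurable
    refine Continuous.inv₀ (by fun_prop) ?_
    intro v
    positivity
  · refine Filter.Eventually.of_forall fun v => ?_
    have hm : 0 < min 1 (A ^ 2) := lt_min one_pos (by positivity)
    rw [Real.norm_of_nonneg (by positivity), ← mul_inv]
    apply inv_anti₀ (by positivity)
    have h1 := min_le_left 1 (A ^ 2)
    have h2 := min_le_right 1 (A ^ 2)
    nlinarith [sq_nonneg v]

/-- the terms -/
private noncomputable def F12 (A : ℝ) (k : ℕ) (v : ℝ) : ℂ :=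
  exp ((A : ℂ) + v * I) * ((-1 : ℂ) ^ k * (A : ℂ) ^ (4 * k) /
      (((k.factorial : ℂ)) ^ 2 * ((A : ℂ) + v * I) ^ (2 * k)))

private lemma norm12 {A : ℝ} (hA : 0 < A) (k : ℕ) (v : ℝ) :
    ‖F12 A k v‖ = Real.exp A * (A ^ (4 * k) / ((k.factorial : ℝ) ^ 2 * (A ^ 2 + v ^ 2) ^ k)) := by
  unfold F12
  have h := nsq12 A v
  rw [norm_mul, norm_div, norm_mul, norm_mul, norm_pow, norm_pow, norm_pow, norm_pow,
    pow_mul ‖(A : ℂ) + v * I‖, h, Complex.norm_exp]
  simp [abs_of_pos hA]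

private lemma cont12 {A : ℝ} (hA : 0 < A) (k : ℕ) : Continuous (F12 A k) := by
  unfold F12
  refine Continuous.mul (by fun_prop) (Continuous.div (by fun_prop) (by fun_prop) ?_)
  intro v
  have h1 : ((k.factorial : ℂ)) ≠ 0 := by exact_mod_cast k.factorial_ne_zero
  exact mul_ne_zero (pow_ne_zero _ h1) (pow_ne_zero _ (ne12 hA v))

private lemma le12 {A : ℝ} (hA : 0 < A) (k : ℕ) (v : ℝ) :
    ‖F12 A (k + 1) v‖ ≤ Real.exp A * A ^ 4 * ((A ^ 2) ^ k / (k.factorial : ℝ)) * (A ^ 2 + v ^ 2)⁻¹ := by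
  rw [norm12 hA]
  have hf : (1 : ℝ) ≤ ((k + 1).factorial : ℝ) := by exact_mod_cast (k + 1).factorial_pos
  have hfk : (0 : ℝ) < (k.factorial : ℝ) := by positivity
  have hf2 : (k.factorial : ℝ) ≤ ((k + 1).factorial : ℝ) := by
    exact_mod_cast Nat.factorial_le (Nat.le_succ k)
  have hp : (A ^ 2) ^ k ≤ (A ^ 2 + v ^ 2) ^ k := by
    apply pow_le_pow_left₀ (by positivity)
    nlinarith [sq_nonneg v]
  have hq : 0 < A ^ 2 + v ^ 2 := by positivity
  have e : Real.exp A * A ^ 4 * ((A ^ 2) ^ k / (k.factorial : ℝ)) * (A ^ 2 + v ^ 2)⁻¹ =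
      Real.exp A * (A ^ (4 * (k + 1)) / ((k.factorial : ℝ) * ((A ^ 2) ^ k * (A ^ 2 + v ^ 2)))) := by
    field_simp
    ring
  rw [e]
  apply mul_le_mul_of_nonneg_left _ (Real.exp_pos A).le
  apply div_le_div_of_nonneg_left (by positivity) (by positivity)
  apply mul_le_mul
  · nlinarith
  · rw [pow_succ]
    exact mul_le_mul_of_nonneg_right hp hq.le
  · positivity
  · positivity

private lemma int12 {A : ℝ} (hA : 0 < A) (k : ℕ) : Integrable (F12 A (k + 1)) := by
  refine ((intg12 hA).const_mul (Real.exp A * A ^ 4 * ((A ^ 2) ^ k / (k.factorial : ℝ)))).mono'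
    (cont12 hA _).aestronglyMeasurable (Filter.Eventually.of_forall fun v => le12 hA k v)

private lemma sum12 {A : ℝ} (hA : 0 < A) :
    Summable (fun k : ℕ => ∫ v : ℝ, ‖F12 A (k + 1) v‖) := by
  have hs : Summable (fun k : ℕ => Real.exp A * A ^ 4 * ((A ^ 2) ^ k / (k.factorial : ℝ)) *
      ∫ v : ℝ, (A ^ 2 + v ^ 2)⁻¹) :=
    ((Real.summable_pow_div_factorial (A ^ 2)).mul_left _).mul_right _
  refine Summable.of_nonneg_of_le (fun k => integral_nonneg fun v => norm_nonneg _) (fun k => ?_) hs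
  rw [← integral_const_mul]
  exact integral_mono (int12 hA k).norm ((intg12 hA).const_mul _) (fun v => le12 hA k v)

private lemma hs12 {A : ℝ} (hA : 0 < A) (v : ℝ) :
    HasSum (fun k : ℕ => F12 A (k + 1) v) (exp ((A : ℂ) + v * I) * (Finf A v - 1)) := by
  have h := (Finf_hasSum hA v).mul_left (exp ((A : ℂ) + v * I))
  have h2 := (hasSum_nat_add_iff' 1).mpr h
  have e : exp ((A : ℂ) + v * I) * (Finf A v - 1) = exp ((A : ℂ) + v * I) * Finf A v -
      ∑ i ∈ Finset.range 1, exp ((A : ℂ) + v * I) * ((-1) ^ i * (A : ℂ) ^ (4 * i) /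
        ((i.factorial : ℂ) ^ 2 * ((A : ℂ) + v * I) ^ (2 * i))) := by
    rw [Finset.sum_range_one]
    simp only [pow_zero, mul_zero, Nat.factorial_zero, Nat.cast_one, one_pow, mul_one, div_one]
    ring
  rw [e]
  exact h2

private lemma intval12 {A : ℝ} (hA : 0 < A) (k : ℕ) :
    ∫ v : ℝ, F12 A (k + 1) v = (((-1) ^ (k + 1) * A ^ (4 * (k + 1)) /
      (((k + 1).factorial : ℝ) ^ 2 * ((2 * k + 1).factorial : ℝ)) * (2 * Real.pi) : ℝ) : ℂ) := by
  have h := inv_laplace_pow hA (k + 1) (by omega)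
  have e : (fun v : ℝ => F12 A (k + 1) v) = fun v : ℝ =>
      ((-1 : ℂ) ^ (k + 1) * (A : ℂ) ^ (4 * (k + 1)) / (((k + 1).factorial : ℂ)) ^ 2) *
      (exp ((A : ℂ) + v * I) * (((A : ℂ) + v * I) ^ (2 * (k + 1)))⁻¹) := by
    funext v
    unfold F12
    have := ne12 hA v
    field_simp
  rw [e, integral_const_mul, h]
  have e2 : 2 * (k + 1) - 1 = 2 * k + 1 := by omega
  rw [e2]
  push_cast
  field_simp

/-- DFB-12 (B10): the limit function as an integral. -/
theorem fB_eq_integral {A : ℝ} (hA : 0 < A) :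
    fB A = 1 / Real.pi *
      ∫ v in Set.Ioi (0 : ℝ), (exp ((A : ℂ) + v * I) * (Finf A v - 1)).re := by
  set g : ℝ → ℂ := fun v => exp ((A : ℂ) + v * I) * (Finf A v - 1) with hg
  have hts : ∀ v, ∑' k : ℕ, F12 A (k + 1) v = g v := fun v => (hs12 hA v).tsum_eq
  have hsum := hasSum_integral_of_summable_integral_norm (fun k => int12 hA k) (sum12 hA)
  simp only [hts] at hsum
  have hre := Complex.reCLM.hasSum hsum
  have hval : 2 * Real.pi * fB A = (∫ v, g v).re := by
    unfold fB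
    rw [← tsum_mul_left]
    rw [← Complex.reCLM_apply, ← hre.tsum_eq]
    apply tsum_congr
    intro k
    rw [intval12 hA, Complex.reCLM_apply, Complex.ofReal_re]
    ring
  have hint : Integrable g := by
    have hfin : Finf A = fun v => Finf A v := rfl
    have hcont : Continuous g := by
      have := Finf_continuous hA
      fun_prop
    refine ((intg12 hA).const_mul (Real.exp A * A ^ 4 * Real.exp (A ^ 2))).mono'
      hcont.aestronglyMeasurable (Filter.Eventually.of_forall fun v => ?_)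
    simp only [hg]
    rw [norm_mul, Complex.norm_exp]
    have h1 := Finf_sub_one_le hA v
    have h2 : A ^ 4 / (A ^ 2 + v ^ 2) ≤ A ^ 2 := by
      rw [div_le_iff₀ (by positivity)]
      nlinarith [sq_nonneg v, sq_nonneg (A * v)]
    have h3 : ((A : ℂ) + v * I).re = A := by simp
    rw [h3]
    have h4 : Real.exp (A ^ 4 / (A ^ 2 + v ^ 2)) ≤ Real.exp (A ^ 2) := Real.exp_le_exp.mpr h2
    have h5 : A ^ 4 / (A ^ 2 + v ^ 2) * Real.exp (A ^ 4 / (A ^ 2 + v ^ 2)) ≤
        A ^ 4 / (A ^ 2 + v ^ 2) * Real.exp (A ^ 2) := mul_le_mul_of_nonneg_left h4 (by positivity)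
    calc Real.exp A * ‖Finf A v - 1‖ ≤ Real.exp A * (A ^ 4 / (A ^ 2 + v ^ 2) * Real.exp (A ^ 2)) :=
          mul_le_mul_of_nonneg_left (h1.trans h5) (Real.exp_pos A).le
      _ = _ := by
        rw [div_eq_mul_inv]
        ring
  have hre2 : ∫ v, (g v).re = (∫ v, g v).re := by
    have := integral_re hint
    simpa using this
  have heven : ∀ v, (g |v|).re = (g v).re := by
    intro v
    rcases abs_cases v with ⟨h, _⟩ | ⟨h, _⟩
    · rw [h]
    · rw [h]
      have : g (-v) = (starRingEnd ℂ) (g v) := by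
        simp only [hg]
        rw [map_mul, conjF12 hA, map_sub, map_one, ← Complex.exp_conj]
        simp
      rw [this, Complex.conj_re]
  have habs := integral_comp_abs (f := fun v => (g v).re)
  simp only [heven] at habs
  rw [hre2, ← hval] at habs
  have hpi := Real.pi_pos
  field_simp
  linarith

end Pool.Agent.Lib.Durfee
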