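import Pool.Agent.Lib.MP_9393b1_co.SmallDefs

set_option autoImplicit false

namespace Pool.Agent.Lib.Durfee

/-- integer lower bounds for `(-1)^m f(A_m²)`, `A_m = 157 m/100`. -/
def cB : ℕ → ℕ
  | 1 => 4
  | 2 => 113
  | 3 => 2666
  | 4 => 62231
  | 5 => 1446582
  | 6 => 33557106
  | 7 => 777530539
  | 8 => 18002525897
  | 9 => 416618289914
  | 10 => 9638188878156
  | _ => 0

/-- the terms of the series, as rational numbers -/
private def tq (x : ℚ) : ℕ → ℚ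
  | 0 => x
  | k + 1 => tq x k * (x / ((k + 2) ^ 2 * ((2 * k + 2) * (2 * k + 3))))

/-- partial sums and current term -/
private def pq (x : ℚ) : ℕ → ℚ × ℚ
  | 0 => (0, x)
  | k + 1 => ((pq x k).1 + (if k % 2 = 0 then -1 else 1) * (pq x k).2,
      (pq x k).2 * (x / ((k + 2) ^ 2 * ((2 * k + 2) * (2 * k + 3)))))

private theorem pq_snd (x : ℚ) (k : ℕ) : (pq x k).2 = tq x k := by
  induction k with
  | zero => rfl
  | succ k ih => simp only [pq, tq, ih]

private theorem pq_fst (x : ℚ) (n : ℕ) :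
    (pq x n).1 = ∑ k ∈ Finset.range n, (-1) ^ (k + 1) * tq x k := by
  induction n with
  | zero => rfl
  | succ k ih =>
    rw [Finset.sum_range_succ, ← ih]
    simp only [pq, pq_snd]
    congr 2
    split_ifs with h
    · rw [Odd.neg_one_pow]
      exact Nat.odd_iff.mpr (by omega)
    · rw [Even.neg_one_pow]
      exact Nat.even_iff.mpr (by omega)

private theorem tq_cast (A : ℚ) (k : ℕ) : ((tq (A ^ 4) k : ℚ) : ℝ) =
    (A : ℝ) ^ (4 * (k + 1)) /
    (((k + 1).factorial : ℝ) ^ 2 * ((2 * k + 1).factorial : ℝ)) := by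
  induction k with
  | zero => simp [tq]
  | succ k ih =>
    rw [tq]
    push_cast
    rw [ih]
    have h1 : ((k + 1 + 1).factorial : ℝ) = (k + 2) * ((k + 1).factorial : ℝ) := by
      rw [Nat.factorial_succ]; push_cast; ring
    have h2 : ((2 * (k + 1) + 1).factorial : ℝ) =
        ((2 * k + 3) * (2 * k + 2)) * ((2 * k + 1).factorial : ℝ) := by
      have : 2 * (k + 1) + 1 = 2 * k + 1 + 1 + 1 := by ring
      rw [this, Nat.factorial_succ, Nat.factorial_succ]; push_cast; ring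
    rw [h1, h2]
    have h3 : ((k + 1).factorial : ℝ) ≠ 0 := by positivity
    have h4 : ((2 * k + 1).factorial : ℝ) ≠ 0 := by positivity
    field_simp
    ring

private theorem tq_ratio {x : ℚ} {N : ℕ}
    (hx : x ≤ 1 / 2 * ((N + 2) ^ 2 * ((2 * N + 2) * (2 * N + 3)))) {k : ℕ} (hk : N ≤ k) :
    x / ((k + 2) ^ 2 * ((2 * k + 2) * (2 * k + 3))) ≤ 1 / 2 := by
  rw [div_le_iff₀ (by positivity)]
  refine hx.trans ?_
  have : (N : ℚ) ≤ k := by exact_mod_cast hk
  gcongr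

private theorem tq_nonneg {x : ℚ} (hx0 : 0 ≤ x) (k : ℕ) : 0 ≤ tq x k := by
  induction k with
  | zero => exact hx0
  | succ k ih =>
    rw [tq]
    positivity

/-- lower bound of the series by a partial sum -/
private theorem fB_ge (A : ℚ) (m N : ℕ)
    (hx : A ^ 4 ≤ 1 / 2 * ((N + 2) ^ 2 * ((2 * N + 2) * (2 * N + 3)))) (c : ℕ)
    (hc : (c : ℚ) + 2 * (pq (A ^ 4) N).2 ≤ (-1) ^ m * (pq (A ^ 4) N).1) :
    (c : ℝ) ≤ (-1) ^ m * fB A := by
  have hx0 : (0 : ℚ) ≤ A ^ 4 := by positivity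
  let f : ℕ → ℝ := fun k => (-1) ^ (k + 1) * ((tq (A ^ 4) k : ℚ) : ℝ)
  have hf : fB A = ∑' k, f k := by
    unfold fB
    refine tsum_congr fun k => ?_
    simp only [f]
    rw [tq_cast, mul_div_assoc]
  have hnorm : ∀ k, ‖f k‖ = ((tq (A ^ 4) k : ℚ) : ℝ) := by
    intro k
    simp only [f]
    rw [norm_mul, norm_pow, norm_neg, norm_one, one_pow, one_mul, Real.norm_of_nonneg]
    exact_mod_cast tq_nonneg hx0 k
  have hgeo : ∀ j, ‖f (j + N)‖ ≤ ((tq (A ^ 4) N : ℚ) : ℝ) * (1 / 2) ^ j := by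
    intro j
    rw [hnorm]
    induction j with
    | zero => simp
    | succ j ih =>
      have h1 : j + 1 + N = j + N + 1 := by ring
      have h7 : ((tq (A ^ 4) N : ℚ) : ℝ) * (1 / 2) ^ (j + 1) =
          (((tq (A ^ 4) N : ℚ) : ℝ) * (1 / 2) ^ j) * (1 / 2) := by ring
      rw [h1, h7, tq, Rat.cast_mul]
      have h2 : (((A ^ 4 / (((j + N : ℕ) + 2) ^ 2 * ((2 * (j + N : ℕ) + 2) * (2 * (j + N : ℕ) + 3))) : ℚ)) : ℝ) ≤
          (1 / 2 : ℝ) := by
        have := tq_ratio hx (k := j + N) (by omega)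
        have h3 : (((1 / 2 : ℚ)) : ℝ) = 1 / 2 := by norm_num
        rw [← h3]
        exact_mod_cast this
      refine mul_le_mul ih h2 ?_ ?_
      · have : (0 : ℚ) ≤ A ^ 4 / (((j + N : ℕ) + 2) ^ 2 * ((2 * (j + N : ℕ) + 2) * (2 * (j + N : ℕ) + 3))) := by
          positivity
        exact_mod_cast this
      · have : (0 : ℝ) ≤ ((tq (A ^ 4) N : ℚ) : ℝ) := by exact_mod_cast tq_nonneg hx0 N
        positivity
  have hgs : HasSum (fun j : ℕ => ((tq (A ^ 4) N : ℚ) : ℝ) * (1 / 2) ^ j)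
      (((tq (A ^ 4) N : ℚ) : ℝ) * 2) := hasSum_geometric_two.mul_left _
  have hs1 : Summable fun j => f (j + N) := Summable.of_norm_bounded hgs.summable hgeo
  have hs : Summable f := (summable_nat_add_iff N).mp hs1
  have htail : ‖∑' j, f (j + N)‖ ≤ ((tq (A ^ 4) N : ℚ) : ℝ) * 2 :=
    tsum_of_norm_bounded hgs hgeo
  have hsum := hs.sum_add_tsum_nat_add N
  rw [hf, ← hsum, mul_add]
  have hp : ((∑ k ∈ Finset.range N, f k : ℝ)) = (((pq (A ^ 4) N).1 : ℚ) : ℝ) := by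
    rw [pq_fst]
    push_cast
    rfl
  rw [hp]
  have hc' : (c : ℝ) + 2 * ((tq (A ^ 4) N : ℚ) : ℝ) ≤
      (-1) ^ m * (((pq (A ^ 4) N).1 : ℚ) : ℝ) := by
    rw [pq_snd] at hc
    exact_mod_cast hc
  have h5 : -(((tq (A ^ 4) N : ℚ) : ℝ) * 2) ≤ (-1) ^ m * ∑' j, f (j + N) := by
    have h6 : |(-1 : ℝ) ^ m * ∑' j, f (j + N)| ≤ ((tq (A ^ 4) N : ℚ) : ℝ) * 2 := by
      rw [abs_mul, abs_pow, abs_neg, abs_one, one_pow, one_mul]
      exact htail
    exact (abs_le.mp h6).1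
  linarith

/-- DFB-13 (B12): `f` is an alternating series; exact rational arithmetic. -/
theorem fB_lower {m : ℕ} (h1 : 1 ≤ m) (h2 : m ≤ 10) :
    (cB m : ℝ) ≤ (-1) ^ m * fB (157 * m / 100) := by
  have key : ∀ m ∈ Finset.Icc (1 : ℕ) 10, (((157 * (m : ℚ) / 100 : ℚ)) ^ 4 ≤
      1 / 2 * ((30 + 2) ^ 2 * ((2 * 30 + 2) * (2 * 30 + 3)))) ∧
      ((cB m : ℕ) : ℚ) + 2 * (pq ((157 * (m : ℚ) / 100 : ℚ) ^ 4) 30).2 ≤
        (-1) ^ m * (pq ((157 * (m : ℚ) / 100 : ℚ) ^ 4) 30).1 := by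
    decide +kernel
  obtain ⟨h3, h4⟩ := key m (Finset.mem_Icc.mpr ⟨h1, h2⟩)
  have h5 := fB_ge (157 * (m : ℚ) / 100 : ℚ) m 30 (by push_cast; exact h3) (cB m) h4
  have h6 : (((157 * (m : ℚ) / 100 : ℚ)) : ℝ) = 157 * m / 100 := by push_cast; rfl
  rw [h6] at h5
  exact h5

private lemma Errb_form {A : ℝ} (hA : 0 < A) {n : ℕ} (hn : 0 < n) : Errb n A =
    Real.exp A / Real.pi *
      (114 / 100 * (64 / 100 * (A ^ 4 * (K1b A + i0b A / 7) * (1 / (n : ℝ))) +
          64 / 100 * (A ^ 4 * i0b A * (Real.log ((n : ℝ) * (1 / (7 * A))) * (1 / (n : ℝ)))) +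
          (101 / 1000 * A ^ 2 * (1 / (n : ℝ)) + 13 / 100 * A ^ 7 * (1 / (n : ℝ)) ^ 3) *
            (A * (7072 / 1000 * K1b A + i0b A / 7)) +
          i0b A * (101 / 1000 * A ^ 2 + 13 / 100 * A ^ 7 * (1 / (n : ℝ)) ^ 2)) +
        A ^ 4 * (235 / 100) * (1 / (n : ℝ)) +
        92 / 100 * A ^ 4 * (Real.log ((n : ℝ) * 2) * (1 / (n : ℝ))) +
        574 / 1000 * A ^ 5 * (1 / (n : ℝ)) + 101 / 100 * A ^ 4 * (1 / (n : ℝ))) := by
  have hn0 : (n : ℝ) ≠ 0 := by positivity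
  have h1 : (n : ℝ) * (1 / (7 * A)) = n / (7 * A) := by ring
  have h2 : (n : ℝ) * 2 = 2 * n := by ring
  rw [Errb, h1, h2, cb]
  generalize Real.log ((n : ℝ) / (7 * A)) = L1
  generalize Real.log (2 * (n : ℝ)) = L2
  generalize K1b A = K
  generalize i0b A = J
  congr 1
  field_simp
  ring

private lemma log_mul_antitone {x c : ℝ} (hx : 10000 ≤ x) (hc : 0 < c)
    (h : Real.exp 1 ≤ 10000 * c) :
    Real.log (x * c) * (1 / x) ≤ Real.log (10000 * c) * (1 / 10000) := by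
  have hx0 : 0 < x := by linarith
  have h1 : 10000 * c ≤ x * c := by nlinarith
  have h2 := Real.log_div_self_antitoneOn (show (10000 : ℝ) * c ∈ {x | Real.exp 1 ≤ x} from h) (le_trans h h1) h1
  simp only at h2
  have h3 := mul_le_mul_of_nonneg_right h2 hc.le
  have h4 : Real.log (x * c) / (x * c) * c = Real.log (x * c) * (1 / x) := by
    field_simp
  have h5 : Real.log (10000 * c) / (10000 * c) * c = Real.log (10000 * c) * (1 / 10000) := by
    field_simp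
  rw [h4, h5] at h3
  exact h3

/-- DFB-14 (B11): the error bound decreases in `n`. -/
theorem Errb_antitone {A : ℝ} (hA1 : 157 / 100 ≤ A) (hA2 : A ≤ 157 / 10) {n : ℕ}
    (hn : 10 ^ 4 ≤ n) : Errb n A ≤ Errb (10 ^ 4) A := by
  have hA : 0 < A := by linarith
  have hK : 0 ≤ K1b A := by unfold K1b; positivity
  have hI : 0 ≤ i0b A := by unfold i0b; positivity
  have he : Real.exp 1 < 2.7182818286 := Real.exp_one_lt_d9
  rw [Errb_form hA (show 0 < n by omega), Errb_form hA (show 0 < 10 ^ 4 by norm_num)]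
  have hN : (((10 ^ 4 : ℕ)) : ℝ) = 10000 := by norm_num
  rw [hN]
  have hxN : (10000 : ℝ) ≤ n := by
    have h : 10000 ≤ n := by simpa using hn
    exact_mod_cast h
  have hn0 : (0 : ℝ) < n := by linarith
  have h1 : 1 / (n : ℝ) ≤ 1 / 10000 := one_div_le_one_div_of_le (by norm_num) hxN
  have h2 : Real.log ((n : ℝ) * 2) * (1 / (n : ℝ)) ≤ Real.log (10000 * 2) * (1 / 10000) :=
    log_mul_antitone hxN (by norm_num) (by linarith)
  have h3 : Real.log ((n : ℝ) * (1 / (7 * A))) * (1 / (n : ℝ)) ≤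
      Real.log (10000 * (1 / (7 * A))) * (1 / 10000) := by
    refine log_mul_antitone hxN (by positivity) ?_
    have h4 : (1 : ℝ) / 110 ≤ 1 / (7 * A) := one_div_le_one_div_of_le (by positivity) (by linarith)
    linarith
  gcongr

private theorem exp157 : Real.exp (157 / 100) ≤ 481 / 100 := by
  have h1 : Real.exp (157 / 100) = Real.exp 1 * Real.exp (57 / 100) := by
    rw [← Real.exp_add]; norm_num
  have h2 := Real.exp_one_lt_d9
  have h3 := Real.exp_bound' (x := 57 / 100) (by norm_num) (by norm_num) (n := 6) (by norm_num)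
  simp only [Finset.sum_range_succ, Finset.sum_range_zero, Nat.factorial] at h3
  norm_num at h3
  rw [h1]
  have h4 := Real.exp_pos (57 / 100)
  nlinarith

private theorem exp314 : Real.exp (314 / 700) ≤ 1567 / 1000 := by
  have h3 := Real.exp_bound' (x := 314 / 700) (by norm_num) (by norm_num) (n := 6) (by norm_num)
  simp only [Finset.sum_range_succ, Finset.sum_range_zero, Nat.factorial] at h3
  norm_num at h3
  have h5 : (314 / 700 : ℝ) = 157 / 350 := by norm_num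
  rw [h5]
  linarith

private theorem exp523 : Real.exp (-(157 / 300)) ≤ 6025 / 10000 := by
  have h1 := Real.quadratic_le_exp_of_nonneg (x := 157 / 300) (by norm_num)
  rw [Real.exp_neg]
  rw [inv_le_comm₀ (Real.exp_pos _) (by norm_num)]
  norm_num at h1 ⊢
  linarith

private theorem Errb_le {A E G H s a b c : ℝ} (hA : 157 / 100 ≤ A) (hA16 : A ≤ 16) (hE : Real.exp A ≤ E)
    (hG : Real.exp (2 * A / 7) ≤ G) (hH : Real.exp (-A / 3) ≤ H) (hs0 : 0 < s) (hs : s ^ 2 ≤ A)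
    (ha0 : 0 ≤ a) (ha : 3 * (31416 / 10000) / A ≤ a ^ 2) (hb0 : 0 ≤ b)
    (hb : 7 * (31416 / 10000) / (16 * A) ≤ b ^ 2)
    (h : E / (314 / 100) *
    (114 / 100 * (64 / 100 * (A ^ 4 / 10000) * (6268 / 10000 * (14143 / 10000) * (E / s) *
      (1 / 2 * a + 127 / 100 * H) + b * G / 7 + b * G * 7) +
        (101 / 1000 * (A ^ 2 / 10000) + 13 / 100 * (A ^ 7 / 10000 ^ 3)) * A *
        (7072 / 1000 * (6268 / 10000 * (14143 / 10000) * (E / s) *
      (1 / 2 * a + 127 / 100 * H)) + b * G / 7 + b * G * (10000 / A))) +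
      (A ^ 4 / 10000) * (235 / 100 + 92 / 100 * 10) + 574 / 1000 * (A ^ 5 / 10000) +
      101 / 100 * (A ^ 4 / 10000)) < c) : Errb (10 ^ 4) A < c := by
  have hA0 : 0 < A := by linarith
  have hpi1 : Real.pi ≤ 31416 / 10000 := by
    have := Real.pi_lt_d4
    norm_num at this ⊢
    linarith
  have hpi2 : 314 / 100 ≤ Real.pi := by
    have := Real.pi_gt_d2
    norm_num at this ⊢
    linarith
  have hpi0 := Real.pi_pos
  have hE0 : 0 ≤ E := (Real.exp_pos _).le.trans hE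
  have hG0 : 0 ≤ G := (Real.exp_pos _).le.trans hG
  have hH0 : 0 ≤ H := (Real.exp_pos _).le.trans hH
  have q1 : Real.sqrt (Real.pi / 8) ≤ 6268 / 10000 := by
    rw [Real.sqrt_le_left (by norm_num)]
    linarith
  have q2 : Real.sqrt 2 ≤ 14143 / 10000 := by
    rw [Real.sqrt_le_left (by norm_num)]
    norm_num
  have q3 : s ≤ Real.sqrt A := Real.le_sqrt_of_sq_le hs
  have q4 : Real.sqrt (3 * Real.pi / A) ≤ a := by
    rw [Real.sqrt_le_left ha0]
    refine le_trans ?_ ha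
    gcongr
  have q5 : Real.sqrt (7 * Real.pi / (16 * A)) ≤ b := by
    rw [Real.sqrt_le_left hb0]
    refine le_trans ?_ hb
    gcongr
  have hK : K1b A ≤ 6268 / 10000 * (14143 / 10000) * (E / s) * (1 / 2 * a + 127 / 100 * H) := by
    unfold K1b
    gcongr
  have hi : i0b A ≤ b * G := by
    unfold i0b
    gcongr
  have hK0 : 0 ≤ K1b A := by unfold K1b; positivity
  have hi0 : 0 ≤ i0b A := by unfold i0b; positivity
  have he7 : (1000 : ℝ) ≤ Real.exp 7 := by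
    have h1 := Real.exp_one_gt_d9
    have h2 : Real.exp 7 = Real.exp 1 ^ 7 := by rw [← Real.exp_nat_mul]; norm_num
    rw [h2]
    calc (1000 : ℝ) ≤ 2.7182818283 ^ 7 := by norm_num
      _ ≤ Real.exp 1 ^ 7 := by gcongr
  have he10 : (20000 : ℝ) ≤ Real.exp 10 := by
    have h1 := Real.exp_one_gt_d9
    have h2 : Real.exp 10 = Real.exp 1 ^ 10 := by rw [← Real.exp_nat_mul]; norm_num
    rw [h2]
    calc (20000 : ℝ) ≤ 2.7182818283 ^ 10 := by norm_num
      _ ≤ Real.exp 1 ^ 10 := by gcongr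
  have hl1 : Real.log (10000 / (7 * A)) ≤ 7 := by
    rw [Real.log_le_iff_le_exp (by positivity)]
    refine le_trans ?_ he7
    rw [div_le_iff₀ (by positivity)]
    linarith
  have hl2 : Real.log (2 * 10000) ≤ 10 := by
    rw [Real.log_le_iff_le_exp (by positivity)]
    refine le_trans ?_ he10
    norm_num
  have hl1' : 0 ≤ Real.log (10000 / (7 * A)) := by
    apply Real.log_nonneg
    rw [le_div_iff₀ (by positivity)]
    linarith
  have hl2' : 0 ≤ Real.log (2 * 10000) := Real.log_nonneg (by norm_num)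
  have hcb : cb (10 ^ 4) A = 101 / 1000 * (A ^ 2 / 10000) + 13 / 100 * (A ^ 7 / 10000 ^ 3) := by
    unfold cb
    push_cast
    norm_num
  refine lt_of_le_of_lt ?_ h
  have h9 : (((10 ^ 4 : ℕ)) : ℝ) = 10000 := by norm_num
  unfold Errb
  rw [hcb, h9]
  gcongr

/-- DFB-15 (B12): numerical values at `n = 10^4`. -/
theorem Errb_lt {m : ℕ} (h1 : 1 ≤ m) (h2 : m ≤ 10) :
    Errb (10 ^ 4) (157 * m / 100) < (cB m : ℝ) := by
  have hE : Real.exp (157 * m / 100) ≤ (481 / 100) ^ m := by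
    have : (157 * m / 100 : ℝ) = m * (157 / 100) := by ring
    rw [this, Real.exp_nat_mul]
    exact pow_le_pow_left₀ (Real.exp_pos _).le exp157 m
  have hG : Real.exp (2 * (157 * m / 100) / 7) ≤ (1567 / 1000) ^ m := by
    have : (2 * (157 * m / 100) / 7 : ℝ) = m * (314 / 700) := by ring
    rw [this, Real.exp_nat_mul]
    exact pow_le_pow_left₀ (Real.exp_pos _).le exp314 m
  have hH : Real.exp (-(157 * m / 100) / 3) ≤ (6025 / 10000) ^ m := by
    have : (-(157 * m / 100) / 3 : ℝ) = m * (-(157 / 300)) := by ring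
    rw [this, Real.exp_nat_mul]
    exact pow_le_pow_left₀ (Real.exp_pos _).le exp523 m
  interval_cases m
  · refine Errb_le (s := 1252 / 1000) (a := 2451 / 1000) (b := 936 / 1000) ?_ ?_ hE hG hH
      ?_ ?_ ?_ ?_ ?_ ?_ ?_ <;> norm_num [cB]
  · refine Errb_le (s := 1771 / 1000) (a := 1733 / 1000) (b := 662 / 1000) ?_ ?_ hE hG hH
      ?_ ?_ ?_ ?_ ?_ ?_ ?_ <;> norm_num [cB]
  · refine Errb_le (s := 2170 / 1000) (a := 1415 / 1000) (b := 541 / 1000) ?_ ?_ hE hG hH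
      ?_ ?_ ?_ ?_ ?_ ?_ ?_ <;> norm_num [cB]
  · refine Errb_le (s := 2505 / 1000) (a := 1226 / 1000) (b := 468 / 1000) ?_ ?_ hE hG hH
      ?_ ?_ ?_ ?_ ?_ ?_ ?_ <;> norm_num [cB]
  · refine Errb_le (s := 2801 / 1000) (a := 1096 / 1000) (b := 419 / 1000) ?_ ?_ hE hG hH
      ?_ ?_ ?_ ?_ ?_ ?_ ?_ <;> norm_num [cB]
  · refine Errb_le (s := 3069 / 1000) (a := 1001 / 1000) (b := 382 / 1000) ?_ ?_ hE hG hH
      ?_ ?_ ?_ ?_ ?_ ?_ ?_ <;> norm_num [cB]
  · refine Errb_le (s := 3315 / 1000) (a := 927 / 1000) (b := 354 / 1000) ?_ ?_ hE hG hH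
      ?_ ?_ ?_ ?_ ?_ ?_ ?_ <;> norm_num [cB]
  · refine Errb_le (s := 3543 / 1000) (a := 867 / 1000) (b := 331 / 1000) ?_ ?_ hE hG hH
      ?_ ?_ ?_ ?_ ?_ ?_ ?_ <;> norm_num [cB]
  · refine Errb_le (s := 3758 / 1000) (a := 817 / 1000) (b := 312 / 1000) ?_ ?_ hE hG hH
      ?_ ?_ ?_ ?_ ?_ ?_ ?_ <;> norm_num [cB]
  · refine Errb_le (s := 3962 / 1000) (a := 775 / 1000) (b := 296 / 1000) ?_ ?_ hE hG hH
      ?_ ?_ ?_ ?_ ?_ ?_ ?_ <;> norm_num [cB]

end Pool.Agent.Lib.Durfee
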