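import Pool.Agent.Lib.MP_9393b1_co.SmallNear
import Pool.Agent.Lib.MP_9393b1_co.SmallInt
import Pool.Agent.Lib.MP_9393b1_co.SmallFar
import Pool.Agent.Lib.MP_9393b1_co.SmallLim
import Pool.Agent.Lib.MP_9393b1_co.SmallNum

set_option autoImplicit false

namespace Pool.Agent.Lib.Durfee

open Complex MeasureTheory

/-- The integrand of `Dval`. -/
private noncomputable def scG (n : ℕ) (A β : ℝ) : ℂ :=
  exp (n * (((A / n : ℝ) : ℂ) + β * I)) * (FF (A ^ 2 / n) (((A / n : ℝ) : ℂ) + β * I) - 1)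

/-- The integrand of `fB`. -/
private noncomputable def scH (A v : ℝ) : ℂ := exp ((A : ℂ) + v * I) * (Finf A v - 1)

private lemma scG_continuous {n : ℕ} {A : ℝ} (hσ : 0 < A / n) : Continuous (scG n A) := by
  unfold scG
  exact (by fun_prop : Continuous fun β : ℝ => exp (n * (((A / n : ℝ) : ℂ) + β * I))).mul
    ((continuous_FF _ hσ).sub continuous_const)

private lemma scH_continuous {A : ℝ} (hA : 0 < A) : Continuous (scH A) := by
  unfold scH
  exact (by fun_prop : Continuous fun v : ℝ => exp ((A : ℂ) + v * I)).mul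
    ((Finf_continuous hA).sub continuous_const)

private lemma scJb_continuous {A : ℝ} (hA : 0 < A) : Continuous (Jb A) := by
  unfold Jb
  apply bes_continuous.comp
  apply Continuous.div (by fun_prop) (by fun_prop)
  intro v
  positivity

private lemma norm_exp_aux (A v : ℝ) : ‖exp ((A : ℂ) + v * I)‖ = Real.exp A := by
  rw [Complex.norm_exp]
  simp

private lemma scG_eq {n : ℕ} (hn : 0 < n) (A v : ℝ) :
    scG n A (v / n) = exp ((A : ℂ) + v * I) * (FF (A ^ 2 / n) (((A : ℂ) + v * I) / n) - 1) := by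
  have hn0 : (n : ℂ) ≠ 0 := by exact_mod_cast hn.ne'
  unfold scG
  have h1 : (((A / n : ℝ) : ℂ) + ((v / n : ℝ) : ℂ) * I) = ((A : ℂ) + v * I) / n := by
    push_cast
    field_simp
  rw [h1, mul_div_cancel₀ _ hn0]

private lemma norm_scG {n : ℕ} (hn : 0 < n) (A β : ℝ) :
    ‖scG n A β‖ = Real.exp A * ‖FF (A ^ 2 / n) (((A / n : ℝ) : ℂ) + β * I) - 1‖ := by
  unfold scG
  have hn0 : (n : ℂ) ≠ 0 := by exact_mod_cast hn.ne'
  have h1 : (n : ℂ) * (((A / n : ℝ) : ℂ) + β * I) = (A : ℂ) + ((n * β : ℝ) : ℂ) * I := by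
    push_cast
    field_simp
  rw [norm_mul, h1, norm_exp_aux]

private lemma norm_scH (A v : ℝ) : ‖scH A v‖ = Real.exp A * ‖Finf A v - 1‖ := by
  unfold scH
  rw [norm_mul, norm_exp_aux]

private lemma scH_bound {A : ℝ} (hA : 1 ≤ A) (v : ℝ) :
    ‖Finf A v - 1‖ ≤ A ^ 4 * Real.exp (A ^ 4) * (1 + v ^ 2)⁻¹ := by
  have hA0 : 0 < A := by linarith
  refine (Finf_sub_one_le hA0 v).trans ?_
  have h1 : 1 + v ^ 2 ≤ A ^ 2 + v ^ 2 := by nlinarith
  have h2 : A ^ 4 / (A ^ 2 + v ^ 2) ≤ A ^ 4 * (1 + v ^ 2)⁻¹ := by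
    rw [← div_eq_mul_inv]
    exact div_le_div_of_nonneg_left (by positivity) (by positivity) h1
  have h3 : A ^ 4 / (A ^ 2 + v ^ 2) ≤ A ^ 4 :=
    div_le_self (by positivity) (by nlinarith [sq_nonneg v])
  calc A ^ 4 / (A ^ 2 + v ^ 2) * Real.exp (A ^ 4 / (A ^ 2 + v ^ 2))
      ≤ A ^ 4 * (1 + v ^ 2)⁻¹ * Real.exp (A ^ 4) :=
        mul_le_mul h2 (Real.exp_le_exp.2 h3) (Real.exp_pos _).le (by positivity)
    _ = A ^ 4 * Real.exp (A ^ 4) * (1 + v ^ 2)⁻¹ := by ring

private lemma Finf_sub_one_integrable {A : ℝ} (hA : 1 ≤ A) :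
    Integrable (fun v : ℝ => ‖Finf A v - 1‖) := by
  refine (integrable_inv_one_add_sq.const_mul (A ^ 4 * Real.exp (A ^ 4))).mono' ?_ ?_
  · exact (((Finf_continuous (by linarith)).sub continuous_const).norm).aestronglyMeasurable
  · refine Filter.Eventually.of_forall fun v => ?_
    rw [Real.norm_of_nonneg (norm_nonneg _)]
    exact scH_bound hA v

private lemma scH_integrable {A : ℝ} (hA : 1 ≤ A) : Integrable (fun v : ℝ => (scH A v).re) := by
  refine ((Finf_sub_one_integrable hA).const_mul (Real.exp A)).mono' ?_ ?_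
  · exact (Complex.continuous_re.comp (scH_continuous (by linarith))).aestronglyMeasurable
  · refine Filter.Eventually.of_forall fun v => ?_
    rw [← norm_scH]
    exact Complex.abs_re_le_norm _

/-- DFB-16 (B11): comparison of `n D_n(-(A²/n)²)` with `f(A²)`. -/
theorem small_compare {n : ℕ} (hn : 10 ^ 4 ≤ n) {A : ℝ} (hA1 : 157 / 100 ≤ A)
    (hA2 : A ≤ 157 / 10) : |n * Dval n ((A ^ 2 / n) ^ 2) - fB A| ≤ Errb n A := by
  have hn1 : 1 ≤ n := le_trans (by norm_num) hn
  have hnp : 0 < n := hn1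
  have hn0 : (0 : ℝ) < n := by exact_mod_cast hn1
  have hA0 : 0 < A := by linarith
  have hA1' : 1 ≤ A := by linarith
  have hσ : 0 < A / n := div_pos hA0 hn0
  have hgc : Continuous fun β => (scG n A β).re := Complex.continuous_re.comp (scG_continuous hσ)
  have hhc : Continuous fun v => (scH A v).re := Complex.continuous_re.comp (scH_continuous hA0)
  have hJc := scJb_continuous hA0
  have hsqc : Continuous fun v : ℝ => Real.sqrt (A ^ 2 + v ^ 2) := by fun_prop
  have hsq0 : ∀ v : ℝ, 0 < Real.sqrt (A ^ 2 + v ^ 2) := fun v => Real.sqrt_pos.2 (by positivity)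
  have hD : Dval n ((A ^ 2 / n) ^ 2) = 1 / Real.pi * ∫ β in (0 : ℝ)..Real.pi, (scG n A β).re :=
    Dval_eq_integral_sub_one hn1 (A ^ 2 / n) hσ
  have hF : fB A = 1 / Real.pi * ∫ v in Set.Ioi (0 : ℝ), (scH A v).re := fB_eq_integral hA0
  -- splittings
  have hD1 : (n : ℝ) * ∫ β in (0 : ℝ)..Real.pi, (scG n A β).re =
      (∫ v in (0 : ℝ)..n, (scG n A (v / n)).re) + n * ∫ β in (1 : ℝ)..Real.pi, (scG n A β).re := by
    have h1 := intervalIntegral.integral_comp_div (a := 0) (b := (n : ℝ)) (fun β => (scG n A β).re) hn0.ne'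
    rw [zero_div, div_self hn0.ne', smul_eq_mul] at h1
    rw [h1, ← mul_add, intervalIntegral.integral_add_adjacent_intervals
      (hgc.intervalIntegrable _ _) (hgc.intervalIntegrable _ _)]
  have hF1 : ∫ v in Set.Ioi (0 : ℝ), (scH A v).re =
      (∫ v in (0 : ℝ)..n, (scH A v).re) + ∫ v in Set.Ioi (n : ℝ), (scH A v).re := by
    rw [intervalIntegral.integral_of_le hn0.le, ← setIntegral_union (Set.Ioc_disjoint_Ioi le_rfl)
      measurableSet_Ioi (scH_integrable hA1').integrableOn (scH_integrable hA1').integrableOn,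
      Set.Ioc_union_Ioi_eq_Ioi hn0.le]
  have hmain : n * Dval n ((A ^ 2 / n) ^ 2) - fB A =
      1 / Real.pi * ((∫ v in (0 : ℝ)..n, ((scG n A (v / n)).re - (scH A v).re)) +
        n * (∫ β in (1 : ℝ)..Real.pi, (scG n A β).re) - ∫ v in Set.Ioi (n : ℝ), (scH A v).re) := by
    have i1 : IntervalIntegrable (fun v : ℝ => (scG n A (v / n)).re) volume 0 n :=
      (hgc.comp (continuous_id.div_const (n : ℝ))).intervalIntegrable _ _
    rw [intervalIntegral.integral_sub i1 (hhc.intervalIntegrable _ _), hF, hF1, hD]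
    linear_combination (1 / Real.pi) * hD1
  -- the three bounds
  have hb1 : |∫ v in (0 : ℝ)..n, ((scG n A (v / n)).re - (scH A v).re)| ≤
      Real.exp A * (114 / 100 * (64 / 100 * (A ^ 4 / n) *
        (K1b A + i0b A / 7 + i0b A * Real.log (n / (7 * A))) +
        cb n A * A * (7072 / 1000 * K1b A + i0b A / 7 + i0b A * (n / A)))) := by
    have hc : Continuous fun v : ℝ => Real.exp A * (114 / 100 *
        (64 / 100 * (A ^ 4 / n) * (Jb A v / Real.sqrt (A ^ 2 + v ^ 2)) + cb n A * Jb A v)) := by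
      refine continuous_const.mul (continuous_const.mul ((continuous_const.mul ?_).add
        (continuous_const.mul hJc)))
      exact hJc.div hsqc fun v => (hsq0 v).ne'
    have h1 := intervalIntegral.norm_integral_le_of_norm_le hn0.le
      (f := fun v => (scG n A (v / n)).re - (scH A v).re)
      (g := fun v : ℝ => Real.exp A * (114 / 100 *
        (64 / 100 * (A ^ 4 / n) * (Jb A v / Real.sqrt (A ^ 2 + v ^ 2)) + cb n A * Jb A v)))
      (μ := volume) (Filter.Eventually.of_forall fun v hv => ?_) (hc.intervalIntegrable _ _)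
    · rw [Real.norm_eq_abs] at h1
      refine h1.trans ?_
      have h2 := int_Jb_div hn hA1 hA2
      have h3 := int_Jb hn hA1 hA2
      have i1 : IntervalIntegrable (fun v : ℝ => Jb A v / Real.sqrt (A ^ 2 + v ^ 2)) volume 0 n :=
        (hJc.div hsqc fun v => (hsq0 v).ne').intervalIntegrable _ _
      have i2 : IntervalIntegrable (fun v : ℝ => Jb A v) volume 0 n := hJc.intervalIntegrable _ _
      rw [intervalIntegral.integral_const_mul, intervalIntegral.integral_const_mul,
        intervalIntegral.integral_add (i1.const_mul _) (i2.const_mul _),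
        intervalIntegral.integral_const_mul, intervalIntegral.integral_const_mul]
      refine mul_le_mul_of_nonneg_left (mul_le_mul_of_nonneg_left ?_ (by norm_num))
        (Real.exp_pos _).le
      have hcb : 0 ≤ cb n A := by unfold cb; positivity
      have h4 := mul_le_mul_of_nonneg_left h2 (show 0 ≤ 64 / 100 * (A ^ 4 / (n : ℝ)) by positivity)
      have h5 := mul_le_mul_of_nonneg_left h3 hcb
      rw [← mul_assoc] at h5
      exact add_le_add h4 h5
    · have hv' : |v| ≤ n := by rw [abs_of_pos hv.1]; exact hv.2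
      have h2 := near_FF hn hA1 hA2 hv'
      have h3 : (scG n A (v / n)).re - (scH A v).re = (exp ((A : ℂ) + v * I) *
          (FF (A ^ 2 / n) (((A : ℂ) + v * I) / n) - Finf A v)).re := by
        rw [← Complex.sub_re, scG_eq hnp]
        unfold scH
        congr 1
        ring
      rw [Real.norm_eq_abs, h3]
      refine (Complex.abs_re_le_norm _).trans ?_
      rw [norm_mul, norm_exp_aux]
      refine mul_le_mul_of_nonneg_left (h2.trans (le_of_eq ?_)) (Real.exp_pos _).le
      unfold rb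
      have := (hsq0 v).ne'
      field_simp
  have hb2 : |n * (∫ β in (1 : ℝ)..Real.pi, (scG n A β).re)| ≤
      Real.exp A * ((A ^ 4 / n) * (235 / 100 + 92 / 100 * Real.log (2 * n)) +
        574 / 1000 * (A ^ 5 / n)) := by
    have hpi : (1 : ℝ) ≤ Real.pi := by linarith [Real.pi_gt_three]
    have hc : Continuous fun β : ℝ => ‖FF (A ^ 2 / n) (((A / n : ℝ) : ℂ) + β * I) - 1‖ :=
      ((continuous_FF _ hσ).sub continuous_const).norm
    have h1 := intervalIntegral.norm_integral_le_of_norm_le hpi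
      (f := fun β => (scG n A β).re)
      (g := fun β : ℝ => Real.exp A * ‖FF (A ^ 2 / n) (((A / n : ℝ) : ℂ) + β * I) - 1‖)
      (μ := volume) (Filter.Eventually.of_forall fun β _ => by
        rw [← norm_scG hnp]
        exact Complex.abs_re_le_norm _) ((continuous_const.mul hc).intervalIntegrable _ _)
    rw [intervalIntegral.integral_const_mul, Real.norm_eq_abs] at h1
    rw [abs_mul, abs_of_pos hn0]
    have h2 := far_int hn hA1 hA2
    calc (n : ℝ) * |∫ β in (1 : ℝ)..Real.pi, (scG n A β).re|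
        ≤ n * (Real.exp A * ∫ β in (1 : ℝ)..Real.pi,
            ‖FF (A ^ 2 / n) (((A / n : ℝ) : ℂ) + β * I) - 1‖) :=
          mul_le_mul_of_nonneg_left h1 hn0.le
      _ = Real.exp A * (n * ∫ β in (1 : ℝ)..Real.pi,
            ‖FF (A ^ 2 / n) (((A / n : ℝ) : ℂ) + β * I) - 1‖) := by ring
      _ ≤ _ := mul_le_mul_of_nonneg_left h2 (Real.exp_pos _).le
  have hb3 : |∫ v in Set.Ioi (n : ℝ), (scH A v).re| ≤
      Real.exp A * (101 / 100 * (A ^ 4 / n)) := by
    have h1 := norm_integral_le_of_norm_le (μ := volume.restrict (Set.Ioi (n : ℝ)))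
      (f := fun v => (scH A v).re) (g := fun v => Real.exp A * ‖Finf A v - 1‖)
      (((Finf_sub_one_integrable hA1').const_mul _).integrableOn)
      (Filter.Eventually.of_forall fun v => by
        rw [← norm_scH]
        exact Complex.abs_re_le_norm _)
    rw [integral_const_mul, Real.norm_eq_abs] at h1
    exact h1.trans (mul_le_mul_of_nonneg_left (tail_Finf hn hA1 hA2) (Real.exp_pos _).le)
  rw [hmain, abs_mul, abs_of_pos (by positivity : 0 < 1 / Real.pi)]
  have htri : ∀ a b c : ℝ, |a + b - c| ≤ |a| + |b| + |c| := fun a b c =>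
    (abs_sub _ _).trans (add_le_add (abs_add_le _ _) le_rfl)
  refine (mul_le_mul_of_nonneg_left ((htri _ _ _).trans (add_le_add (add_le_add hb1 hb2) hb3))
    (by positivity)).trans (le_of_eq ?_)
  unfold Errb
  ring

/-- The small end: regime B. -/
theorem small_end {n : ℕ} (hn : 10 ^ 4 ≤ n) {m : ℕ} (h1 : 1 ≤ m) (h2 : m ≤ 10) :
    0 < (-1) ^ m * Dval n (((157 * m / 100) ^ 2 / n) ^ 2) := by
  have hn0 : (0 : ℝ) < n := by
    have : (10 ^ 4 : ℝ) ≤ n := by exact_mod_cast hn
    linarith [show (0 : ℝ) < 10 ^ 4 by norm_num]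
  have hm1 : (1 : ℝ) ≤ m := by exact_mod_cast h1
  have hm2 : (m : ℝ) ≤ 10 := by exact_mod_cast h2
  have hA1 : (157 / 100 : ℝ) ≤ 157 * m / 100 := by linarith
  have hA2 : (157 * m / 100 : ℝ) ≤ 157 / 10 := by linarith
  have hc := small_compare hn hA1 hA2
  have he := (Errb_antitone hA1 hA2 hn).trans_lt (Errb_lt h1 h2)
  have hf := fB_lower h1 h2
  have key : 0 < (-1 : ℝ) ^ m * (n * Dval n (((157 * m / 100) ^ 2 / n) ^ 2)) := by
    have h3 := abs_le.mp hc
    rcases Nat.even_or_odd m with hm | hm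
    · rw [hm.neg_one_pow] at hf ⊢
      linarith [h3.1]
    · rw [hm.neg_one_pow] at hf ⊢
      linarith [h3.2]
  have : (-1 : ℝ) ^ m * (n * Dval n (((157 * m / 100) ^ 2 / n) ^ 2)) =
      n * ((-1) ^ m * Dval n (((157 * m / 100) ^ 2 / n) ^ 2)) := by ring
  rw [this] at key
  exact pos_of_mul_pos_right key hn0.le

end Pool.Agent.Lib.Durfee
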