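import Pool.Agent.Lib.MP_9393b1_co.Roots
import Pool.Agent.Lib.MP_9393b1_co.Comb
import Pool.Agent.Lib.MP_9393b1_co.SmallEnd
import Pool.Agent.Lib.MP_9393b1_co.RegimeS
import Pool.Agent.Lib.MP_9393b1_co.MainM
import Pool.Agent.Lib.MP_9393b1_co.RegimeU

/-! # Assembly: `D_n` is real-rooted for `n ≥ 10^4` -/

set_option autoImplicit false

namespace Pool.Agent.Lib.Durfee

open Polynomial

/-- if the first hitting point `w` of the level `kπ/(2√n)` is beyond `exp(2 n^{1/6})`, then `n - k²` is small -/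
theorem top_of_large {n k : ℕ} (hn : 10 ^ 4 ≤ n) {w : ℝ}
    (hfirst : ∀ v : ℝ, 0 < v → v < w → bb v < k * Real.pi / (2 * Real.sqrt n))
    (hw : Real.exp (2 * (n : ℝ) ^ ((1 : ℝ) / 6)) < w) :
    (n : ℝ) - (k : ℝ) ^ 2 ≤ 8225 / 10000 * (n : ℝ) ^ ((2 : ℝ) / 3) := by
  have hn4 : (10 ^ 4 : ℝ) ≤ n := by exact_mod_cast hn
  have hn0 : (0 : ℝ) < n := by linarith [show (0 : ℝ) < 10 ^ 4 by norm_num]
  set t : ℝ := (n : ℝ) ^ ((1 : ℝ) / 6) with ht
  have ht6 : t ^ 6 = n := by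
    rw [ht, ← Real.rpow_natCast, ← Real.rpow_mul hn0.le]; norm_num
  have ht4 : (n : ℝ) ^ ((2 : ℝ) / 3) = t ^ 4 := by
    rw [ht, ← Real.rpow_natCast, ← Real.rpow_mul hn0.le]; norm_num
  have htpos : 0 < t := Real.rpow_pos_of_pos hn0 _
  have ht1 : 4 ≤ t := by
    by_contra hlt
    push Not at hlt
    have : t ^ 6 < 4 ^ 6 := pow_lt_pow_left₀ hlt htpos.le (by norm_num)
    rw [ht6] at this
    norm_num at this
    linarith
  have hv0 : 0 < Real.exp (2 * t) := Real.exp_pos _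
  have h1 := hfirst _ hv0 hw
  have h2 := bb_sq_ge (w := Real.exp (2 * t)) hv0 (by rw [Real.log_exp]; linarith)
  rw [Real.log_exp] at h2
  have hb0 : 0 < bb (Real.exp (2 * t)) := bb_pos hv0
  have h3 : bb (Real.exp (2 * t)) ^ 2 < (k * Real.pi / (2 * Real.sqrt n)) ^ 2 :=
    pow_lt_pow_left₀ h1 hb0.le (by norm_num)
  have hsq : Real.sqrt n ^ 2 = n := Real.sq_sqrt hn0.le
  have h4 : (k * Real.pi / (2 * Real.sqrt n)) ^ 2 = (k : ℝ) ^ 2 * Real.pi ^ 2 / (4 * n) := by
    rw [div_pow, mul_pow, mul_pow, hsq]; norm_num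
  rw [h4] at h3
  have hπ : 0 < Real.pi := Real.pi_pos
  have hπ2 : Real.pi ^ 2 ≤ 98697 / 10000 := by
    have := Real.pi_lt_d4
    nlinarith [Real.pi_gt_three]
  -- (π²/4)(1 - k²/n) ≤ π⁴/(12(4t²+4))
  have h5 : Real.pi ^ 2 / 4 - (k : ℝ) ^ 2 * Real.pi ^ 2 / (4 * n) ≤
      Real.pi ^ 4 / (12 * ((2 * t) ^ 2 + 4)) := by linarith
  have h6 : Real.pi ^ 4 / (12 * ((2 * t) ^ 2 + 4)) ≤ Real.pi ^ 4 / (48 * t ^ 2) := by
    apply div_le_div_of_nonneg_left (by positivity) (by positivity)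
    nlinarith
  have h7 : Real.pi ^ 2 / 4 - (k : ℝ) ^ 2 * Real.pi ^ 2 / (4 * n) =
      Real.pi ^ 2 / (4 * n) * (n - (k : ℝ) ^ 2) := by
    field_simp
  have h8 : Real.pi ^ 2 / (4 * n) * (n - (k : ℝ) ^ 2) ≤ Real.pi ^ 4 / (48 * t ^ 2) := by
    rw [← h7]; exact h5.trans h6
  have h9 : (n : ℝ) - (k : ℝ) ^ 2 ≤ Real.pi ^ 2 / 12 * (n / t ^ 2) := by
    have : (n : ℝ) - (k : ℝ) ^ 2 = (4 * n / Real.pi ^ 2) *
        (Real.pi ^ 2 / (4 * n) * (n - (k : ℝ) ^ 2)) := by field_simp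
    rw [this]
    calc (4 * n / Real.pi ^ 2) * (Real.pi ^ 2 / (4 * n) * (n - (k : ℝ) ^ 2))
        ≤ (4 * n / Real.pi ^ 2) * (Real.pi ^ 4 / (48 * t ^ 2)) :=
          mul_le_mul_of_nonneg_left h8 (by positivity)
      _ = Real.pi ^ 2 / 12 * (n / t ^ 2) := by
          field_simp
          norm_num
  have h10 : (n : ℝ) / t ^ 2 = t ^ 4 := by
    rw [← ht6]; field_simp
  rw [ht4]
  rw [h10] at h9
  have : 0 < t ^ 4 := by positivity
  nlinarith

/-- comparison of a top test point with the previous hitting point -/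
theorem top_gt_hit {n k : ℕ} (hn : 10 ^ 4 ≤ n) (hk : 2 ≤ k) (hkn : (k : ℝ) < Real.sqrt n) {w y : ℝ}
    (hw0 : 0 < w) (hbw : bb w = ((k - 1 : ℕ) : ℝ) * Real.pi / (2 * Real.sqrt n))
    (hfirst : ∀ v : ℝ, 0 < v → v < w → bb v < ((k - 1 : ℕ) : ℝ) * Real.pi / (2 * Real.sqrt n))
    (hy0 : 0 < y)
    (hy : 2 * Real.sqrt (Real.pi ^ 2 / 3) *
              Real.sqrt ((n : ℝ) / ((n : ℝ) - ((k : ℝ) - 1) ^ 2)) < Real.log y) :
    w ^ 2 < y := by
  have hn4 : (10 ^ 4 : ℝ) ≤ n := by exact_mod_cast hn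
  have hn0 : (0 : ℝ) < n := by linarith [show (0 : ℝ) < 10 ^ 4 by norm_num]
  have hk1 : ((k - 1 : ℕ) : ℝ) = (k : ℝ) - 1 := by
    rw [Nat.cast_sub (by omega)]; norm_num
  rw [hk1] at hbw hfirst
  have hk2 : (2 : ℝ) ≤ k := by exact_mod_cast hk
  have hsq : Real.sqrt n ^ 2 = n := Real.sq_sqrt hn0.le
  have hs0 : 0 < Real.sqrt n := Real.sqrt_pos.mpr hn0
  have hm : 0 < (n : ℝ) - ((k : ℝ) - 1) ^ 2 := by nlinarith
  set m : ℝ := (n : ℝ) - ((k : ℝ) - 1) ^ 2 with hmdef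
  have hπ : 0 < Real.pi := Real.pi_pos
  have hπ3 : 3 < Real.pi := Real.pi_gt_three
  set v : ℝ := Real.exp (Real.log y / 2) with hv
  have hv0 : 0 < v := Real.exp_pos _
  have hlogv : Real.log v = Real.log y / 2 := by rw [hv, Real.log_exp]
  have hv2 : v ^ 2 = y := by
    rw [hv, ← Real.exp_nat_mul]
    have : ((2 : ℕ) : ℝ) * (Real.log y / 2) = Real.log y := by push_cast; ring
    rw [this, Real.exp_log hy0]
  set q : ℝ := Real.sqrt (Real.pi ^ 2 / 3) * Real.sqrt ((n : ℝ) / m) with hq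
  have hqv : q < Real.log v := by rw [hlogv]; rw [hq]; linarith
  have hq0 : 0 < q := by
    rw [hq]
    apply mul_pos (Real.sqrt_pos.mpr (by positivity)) (Real.sqrt_pos.mpr (by positivity))
  have hq2 : q ^ 2 = Real.pi ^ 2 / 3 * (n / m) := by
    rw [hq, mul_pow, Real.sq_sqrt (by positivity), Real.sq_sqrt (by positivity)]
  have hnm : 1 ≤ (n : ℝ) / m := by
    rw [le_div_iff₀ hm]
    nlinarith
  have hq1 : 1 ≤ q := by
    by_contra hlt
    push Not at hlt
    have : q ^ 2 < 1 := by nlinarith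
    rw [hq2] at this
    nlinarith
  have hL : 9 / 10 ≤ Real.log v := by linarith
  have h2 := bb_sq_ge hv0 hL
  -- bb v ^ 2 > c^2
  have h3 : Real.pi ^ 4 / (12 * (Real.log v ^ 2 + 4)) < Real.pi ^ 2 / 4 * (m / n) := by
    have hL2 : q ^ 2 < Real.log v ^ 2 := by nlinarith
    have h31 : Real.pi ^ 4 / (12 * (Real.log v ^ 2 + 4)) < Real.pi ^ 4 / (12 * q ^ 2) := by
      apply div_lt_div_of_pos_left (by positivity) (by positivity)
      linarith
    have h32 : Real.pi ^ 4 / (12 * q ^ 2) = Real.pi ^ 2 / 4 * (m / n) := by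
      rw [hq2]; field_simp; norm_num
    linarith
  have h4 : (((k : ℝ) - 1) * Real.pi / (2 * Real.sqrt n)) ^ 2 < bb v ^ 2 := by
    have h41 : (((k : ℝ) - 1) * Real.pi / (2 * Real.sqrt n)) ^ 2 =
        Real.pi ^ 2 / 4 - Real.pi ^ 2 / 4 * (m / n) := by
      rw [div_pow, mul_pow, mul_pow, hsq, hmdef]
      field_simp
      ring
    rw [h41]; linarith
  have h5 : ((k : ℝ) - 1) * Real.pi / (2 * Real.sqrt n) < bb v :=
    lt_of_pow_lt_pow_left₀ 2 (bb_pos hv0).le h4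
  have h6 : w ≤ v := first_hit_le hfirst hv0 h5.le
  have h7 : w ≠ v := by
    intro h
    rw [h] at hbw
    linarith
  have h8 : w < v := lt_of_le_of_ne h6 h7
  rw [← hv2]
  exact pow_lt_pow_left₀ h8 hw0.le (by norm_num)

/-- All Durfee polynomials `D_n`, `n ≥ 10^4`, are real-rooted. -/
theorem Dpoly_realrooted_large {n : ℕ} (hn : 10 ^ 4 ≤ n) :
    ∀ z : ℂ, aeval z (Dpoly n) = 0 → z.im = 0 := by
  classical
  have hn4 : (10 ^ 4 : ℝ) ≤ n := by exact_mod_cast hn
  have hn0 : (0 : ℝ) < n := by linarith [show (0 : ℝ) < 10 ^ 4 by norm_num]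
  have hs0 : 0 < Real.sqrt n := Real.sqrt_pos.mpr hn0
  have hsq : Real.sqrt n ^ 2 = n := Real.sq_sqrt hn0.le
  have hπ : 0 < Real.pi := Real.pi_pos
  have hks : ∀ k : ℕ, k + 1 ≤ Nat.sqrt n → (k : ℝ) < Real.sqrt n := by
    intro k hk
    have h1 : (k + 1) * (k + 1) ≤ n := Nat.le_sqrt.mp hk
    have h2 : ((k : ℝ) + 1) * ((k : ℝ) + 1) ≤ n := by exact_mod_cast h1
    have h3 : (k : ℝ) + 1 ≤ Real.sqrt n := by
      apply Real.le_sqrt_of_sq_le
      nlinarith
    linarith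
  set c : ℕ → ℝ := fun k => k * Real.pi / (2 * Real.sqrt n) with hc
  have hc0 : ∀ k : ℕ, 1 ≤ k → 0 < c k := by
    intro k hk
    have : (1 : ℝ) ≤ k := by exact_mod_cast hk
    simp only [hc]
    positivity
  have hc1 : ∀ k : ℕ, k + 1 ≤ Nat.sqrt n → c k < Real.pi / 2 := by
    intro k hk
    have := hks k hk
    simp only [hc]
    rw [div_lt_div_iff₀ (by positivity) (by norm_num)]
    nlinarith
  have hex : ∀ k : ℕ, ∃ w : ℝ, 1 ≤ k → k + 1 ≤ Nat.sqrt n →
      0 < w ∧ bb w = c k ∧ ∀ v : ℝ, 0 < v → v < w → bb v < c k := by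
    intro k
    by_cases h : 1 ≤ k ∧ k + 1 ≤ Nat.sqrt n
    · obtain ⟨w, h1, h2, h3⟩ := exists_first_hit (hc0 k h.1) (hc1 k h.2)
      exact ⟨w, fun _ _ => ⟨h1, h2, h3⟩⟩
    · exact ⟨0, fun h1 h2 => absurd ⟨h1, h2⟩ h⟩
  choose w hw using hex
  have hwlt : ∀ j k : ℕ, 1 ≤ j → j < k → k + 1 ≤ Nat.sqrt n → w j < w k := by
    intro j k hj hjk hk
    obtain ⟨a1, a2, a3⟩ := hw j hj (by omega)
    obtain ⟨b1, b2, b3⟩ := hw k (by omega) hk
    have hcc : c j < c k := by
      simp only [hc]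
      have : (j : ℝ) < k := by exact_mod_cast hjk
      exact div_lt_div_of_pos_right (by nlinarith) (by positivity)
    have h1 : w j ≤ w k := first_hit_le a3 b1 (by rw [b2]; exact hcc.le)
    have h2 : w j ≠ w k := by
      intro h
      rw [h, b2] at a2
      linarith
    exact lt_of_le_of_ne h1 h2
  obtain ⟨yU, hU1, hU2⟩ := regime_U hn
  set X : ℝ := Real.exp (2 * (n : ℝ) ^ ((1 : ℝ) / 6)) with hX
  have hX1 : 1 ≤ X := Real.one_le_exp (by positivity)
  have htop : ∀ k : ℕ, 1 ≤ k → k + 1 ≤ Nat.sqrt n → X < w k →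
      (n : ℝ) - (k : ℝ) ^ 2 ≤ 8225 / 10000 * (n : ℝ) ^ ((2 : ℝ) / 3) := by
    intro k hk hk2 hXk
    obtain ⟨a1, a2, a3⟩ := hw k hk hk2
    exact top_of_large hn a3 hXk
  -- the top region has large k
  have hklarge : ∀ k : ℕ, 1 ≤ k → k + 1 ≤ Nat.sqrt n → X < w k → 12 ≤ k := by
    intro k hk hk2 hXk
    by_contra hlt
    push Not at hlt
    have h1 := htop k hk hk2 hXk
    have h2 : (k : ℝ) ≤ 11 := by exact_mod_cast (by omega : k ≤ 11)
    have h3 : (k : ℝ) ^ 2 ≤ 121 := by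
      have : (0 : ℝ) ≤ k := by positivity
      nlinarith
    set t : ℝ := (n : ℝ) ^ ((1 : ℝ) / 3) with ht
    have ht3 : t ^ 3 = n := by
      rw [ht, ← Real.rpow_natCast, ← Real.rpow_mul hn0.le]; norm_num
    have ht2 : (n : ℝ) ^ ((2 : ℝ) / 3) = t ^ 2 := by
      rw [ht, ← Real.rpow_natCast, ← Real.rpow_mul hn0.le]; norm_num
    have htpos : 0 < t := Real.rpow_pos_of_pos hn0 _
    have ht1 : 10 ≤ t := by
      by_contra hlt'
      push Not at hlt'
      have : t ^ 3 < 10 ^ 3 := pow_lt_pow_left₀ hlt' htpos.le (by norm_num)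
      rw [ht3] at this
      norm_num at this
      linarith
    rw [ht2, ← ht3] at h1
    nlinarith [sq_nonneg t, mul_pos htpos htpos]
  -- test points
  set y : ℕ → ℝ := fun k =>
    if k ≤ 10 then (((157 * (k : ℝ) / 100) ^ 2 / n) ^ 2) else
      if w k ≤ X then w k ^ 2 else yU k with hy
  refine Dpoly_realrooted_of_signs (by omega) y ?_ ?_ ?_
  · intro k hk hk2
    simp only [hy]
    have hk' : (1 : ℝ) ≤ k := by exact_mod_cast hk
    split_ifs with h1 h2
    · positivity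
    · have := (hw k hk hk2).1
      positivity
    · push Not at h2
      exact (hU1 k hk hk2 (htop k hk hk2 h2)).1
  · intro k hk hk2
    simp only [hy]
    split_ifs with h1 h2
    · exact small_end hn hk h1
    · obtain ⟨a1, a2, a3⟩ := hw k hk hk2
      by_cases hwk : w k ≤ 1
      · exact regime_S hn a1 hwk (by omega) a2
      · push Not at hwk
        refine regime_M (k := k) ⟨hn, hwk.le, ?_, ?_⟩ a2
        · rw [hX] at h2
          have := Real.log_le_log a1 h2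
          rwa [Real.log_exp] at this
        · rw [a2]; exact hc1 k hk2
    · push Not at h2
      exact (hU1 k hk hk2 (htop k hk hk2 h2)).2.1
  · intro k hk hk2
    have hk' : (1 : ℝ) ≤ k := by exact_mod_cast hk
    simp only [hy]
    by_cases h1 : k + 1 ≤ 10
    · rw [if_pos h1, if_pos (by omega : k ≤ 10)]
      have : (157 * (k : ℝ) / 100) ^ 2 / n < (157 * ((k + 1 : ℕ) : ℝ) / 100) ^ 2 / n := by
        apply div_lt_div_of_pos_right _ hn0
        push_cast
        nlinarith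
      exact pow_lt_pow_left₀ this (by positivity) (by norm_num)
    rw [if_neg h1]
    by_cases h2 : k ≤ 10
    · -- k = 10
      rw [if_pos h2]
      have hk10 : k = 10 := by omega
      subst hk10
      obtain ⟨a1, a2, a3⟩ := hw 11 (by norm_num) (by omega)
      have h3 : w 11 ≤ X := by
        by_contra hcon
        push Not at hcon
        have := hklarge 11 (by norm_num) (by omega) hcon
        omega
      have h3' : w (10 + 1) ≤ X := h3
      rw [if_pos h3']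
      have h4 : bb (w 11) ^ 2 ≤ w 11 := bb_sq_le a1
      rw [a2] at h4
      have h5 : (157 * ((10 : ℕ) : ℝ) / 100) ^ 2 / n < w 11 := by
        refine lt_of_lt_of_le ?_ h4
        have hc11 : (c 11) ^ 2 = 121 * Real.pi ^ 2 / (4 * n) := by
          simp only [hc]
          rw [div_pow, mul_pow, mul_pow (2 : ℝ), hsq]
          push_cast
          ring
        rw [hc11, div_lt_div_iff₀ hn0 (by positivity)]
        have hp : (9.8 : ℝ) < Real.pi ^ 2 := by
          have := Real.pi_gt_d2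
          nlinarith
        push_cast
        nlinarith
      have h6 : (0 : ℝ) ≤ (157 * ((10 : ℕ) : ℝ) / 100) ^ 2 / n := by positivity
      exact pow_lt_pow_left₀ h5 h6 (by norm_num)
    rw [if_neg h2]
    push Not at h2
    by_cases h3 : w (k + 1) ≤ X
    · have h4 : w k < w (k + 1) := hwlt k (k + 1) hk (by omega) (by omega)
      rw [if_pos h3, if_pos (h4.le.trans h3)]
      exact pow_lt_pow_left₀ h4 (hw k hk (by omega)).1.le (by norm_num)
    · rw [if_neg h3]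
      push Not at h3
      have htk1 := htop (k + 1) (by omega) (by omega) h3
      by_cases h4 : w k ≤ X
      · rw [if_pos h4]
        obtain ⟨u1, u2, u3⟩ := hU1 (k + 1) (by omega) (by omega) htk1
        obtain ⟨a1, a2, a3⟩ := hw k hk (by omega)
        refine top_gt_hit (k := k + 1) hn (by omega) (hks (k + 1) (by omega)) a1 ?_ ?_ u1 ?_
        · simpa [hc] using a2
        · simpa [hc] using a3
        · exact_mod_cast u3
      · rw [if_neg h4]
        push Not at h4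
        exact hU2 k hk (by omega) (htop k hk (by omega) h4)

end Pool.Agent.Lib.Durfee
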