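import Pool.Agent.Lib.MP_9393b1_co.Rep

/-! # Bound of the error integral `Eint` for `w ≥ 1` -/

set_option autoImplicit false

namespace Pool.Agent.Lib.Durfee

open Complex MeasureTheory Filter Topology

theorem rb_two_cosh (v : ℝ) : 2 + v ^ 2 ≤ Real.exp v + Real.exp (-v) := by
  have h1 : ∀ x : ℝ, x ^ 2 ≤ Real.sinh x ^ 2 := by
    intro x
    rcases le_total 0 x with hx | hx
    · exact pow_le_pow_left₀ hx (Real.self_le_sinh_iff.2 hx) 2
    · have h2 : -x ≤ Real.sinh (-x) := Real.self_le_sinh_iff.2 (by linarith)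
      have h3 := pow_le_pow_left₀ (by linarith : 0 ≤ -x) h2 2
      rw [Real.sinh_neg] at h3
      nlinarith
  have h4 : Real.exp v + Real.exp (-v) = 2 * Real.cosh v := by
    rw [Real.cosh_eq]; ring
  have h5 : Real.cosh v = 1 + 2 * Real.sinh (v / 2) ^ 2 := by
    have h6 := Real.cosh_two_mul (v / 2)
    have h7 := Real.cosh_sq (v / 2)
    rw [mul_div_cancel₀ v (two_ne_zero)] at h6
    linarith
  have h8 := h1 (v / 2)
  rw [h4, h5]
  nlinarith

theorem rb_norm_zz {w α τ u : ℝ} (hw : 0 < w) : ‖zz w α τ u‖ = w * Real.exp (-u) := by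
  have h1 : ‖exp (I * ((α - τ * u : ℝ) : ℂ))‖ = 1 := by
    rw [mul_comm]
    exact norm_exp_ofReal_mul_I _
  rw [zz, norm_mul, h1, mul_one, norm_real, Real.norm_eq_abs, abs_of_pos (by positivity)]

theorem rb_norm_one_add_zz {w α τ u : ℝ} : ‖1 + zz w α τ u‖ ^ 2 =
    1 + 2 * (w * Real.exp (-u)) * Real.cos (α - τ * u) + (w * Real.exp (-u)) ^ 2 := by
  have h1 : zz w α τ u = (((w * Real.exp (-u)) * Real.cos (α - τ * u) : ℝ) : ℂ) +
      (((w * Real.exp (-u)) * Real.sin (α - τ * u) : ℝ) : ℂ) * I := by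
    rw [zz, mul_comm I, exp_mul_I]
    push_cast
    ring
  rw [← normSq_eq_norm_sq, h1]
  have h2 : (1 : ℂ) + ((((w * Real.exp (-u)) * Real.cos (α - τ * u) : ℝ) : ℂ) +
      (((w * Real.exp (-u)) * Real.sin (α - τ * u) : ℝ) : ℂ) * I) =
      (((1 + (w * Real.exp (-u)) * Real.cos (α - τ * u) : ℝ)) : ℂ) +
      (((w * Real.exp (-u)) * Real.sin (α - τ * u) : ℝ) : ℂ) * I := by
    push_cast
    ring
  rw [h2, normSq_add_mul_I]
  have h3 := Real.sin_sq_add_cos_sq (α - τ * u)
  nlinarith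

/-- the integrand in the variable `v = u - log w` -/
theorem rb_integrand {w α τ u : ℝ} (hw : 0 < w) : ‖zz w α τ u‖ / ‖1 + zz w α τ u‖ ^ 2 =
    1 / (Real.exp (u - Real.log w) + Real.exp (-(u - Real.log w)) +
      2 * Real.cos (α - τ * u)) := by
  rw [rb_norm_zz hw, rb_norm_one_add_zz]
  have h1 : Real.exp (-(u - Real.log w)) = w * Real.exp (-u) := by
    rw [neg_sub, sub_eq_add_neg, Real.exp_add, Real.exp_log hw]
  have h2 : Real.exp (u - Real.log w) = (w * Real.exp (-u))⁻¹ := by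
    rw [← h1, Real.exp_neg, inv_inv]
  rw [h1, h2]
  have h3 : 0 < w * Real.exp (-u) := by positivity
  set X := w * Real.exp (-u) with hX
  have e : X⁻¹ + X + 2 * Real.cos (α - τ * u) =
      (1 + 2 * X * Real.cos (α - τ * u) + X ^ 2) / X := by
    field_simp
    ring
  rw [e, one_div_div]

/-- the Cauchy integral -/
theorem rb_cauchy {m : ℝ} (hm : 0 < m) : Integrable (fun v : ℝ => 1 / (v ^ 2 + m)) ∧
    ∫ v : ℝ, 1 / (v ^ 2 + m) = Real.pi / Real.sqrt m := by
  have hs : 0 < Real.sqrt m := Real.sqrt_pos.2 hm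
  have h1 : (fun v : ℝ => 1 / (v ^ 2 + m)) = fun v => m⁻¹ * (1 + (v * (Real.sqrt m)⁻¹) ^ 2)⁻¹ := by
    funext v
    rw [mul_pow, inv_pow, Real.sq_sqrt hm.le]
    have h2 : 0 < v ^ 2 + m := by positivity
    field_simp
    ring
  rw [h1]
  constructor
  · have := (integrable_comp_mul_right_iff (fun x : ℝ => (1 + x ^ 2)⁻¹) (inv_ne_zero hs.ne')).2
      integrable_inv_one_add_sq
    exact this.const_mul _
  · rw [integral_const_mul, Measure.integral_comp_mul_right (fun x : ℝ => (1 + x ^ 2)⁻¹), inv_inv,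
      abs_of_pos hs, integral_univ_inv_one_add_sq, smul_eq_mul]
    have h3 : Real.sqrt m * Real.sqrt m = m := Real.mul_self_sqrt hm.le
    field_simp
    rw [sq, h3]

theorem rb_general {w α τ m : ℝ} (hm : 0 < m) {h : ℝ → ℝ} (hh : Integrable h)
    (hh0 : ∀ v, 0 ≤ h v)
    (hb : ∀ u, 0 < u → ‖zz w α τ u‖ / ‖1 + zz w α τ u‖ ^ 2 ≤
      1 / ((u - Real.log w) ^ 2 + m) + h (u - Real.log w)) :
    Eint w α τ ≤ Real.pi / Real.sqrt m + ∫ v, h v := by
  obtain ⟨hi, he⟩ := rb_cauchy hm
  set G : ℝ → ℝ := fun v => 1 / (v ^ 2 + m) + h v with hG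
  have hGi : Integrable G := hi.add hh
  have hGi' : Integrable (fun u => G (u - Real.log w)) := hGi.comp_sub_right (Real.log w)
  have hG0 : ∀ v, 0 ≤ G v := fun v => add_nonneg (by positivity) (hh0 v)
  have h1 : Eint w α τ ≤ ∫ u in Set.Ioi (0:ℝ), G (u - Real.log w) := by
    refine integral_mono_of_nonneg (ae_of_all _ fun u => by positivity) hGi'.integrableOn ?_
    filter_upwards [ae_restrict_mem measurableSet_Ioi] with u hu
    exact hb u hu
  have h2 : ∫ u in Set.Ioi (0:ℝ), G (u - Real.log w) ≤ ∫ u, G (u - Real.log w) :=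
    setIntegral_le_integral hGi' (ae_of_all _ fun u => hG0 _)
  have h3 : ∫ u, G (u - Real.log w) = ∫ v, G v := integral_sub_right_eq_self G (Real.log w)
  have h4 : ∫ v, G v = Real.pi / Real.sqrt m + ∫ v, h v := by
    rw [← he]
    exact integral_add hi hh
  linarith

/-- bound of the error integral, `w ≥ 1`, `τ L ≤ 3π/4`, `|α - π/2| ≤ θ₀ ≤ 5π/12` -/
theorem Eint_le {w α τ θ₀ : ℝ} (hw : 1 ≤ w) (hτ : 0 ≤ τ) (hτL : τ * Real.log w ≤ 3 * Real.pi / 4)
    (hθ0 : 0 ≤ θ₀) (hθ1 : θ₀ ≤ 5 * Real.pi / 12) (hα : |α - Real.pi / 2| ≤ θ₀) :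
    Eint w α τ ≤ Real.pi / Real.sqrt (2 * (1 - Real.sin θ₀)) + 4 * τ / Real.pi := by
  have hw0 : 0 < w := by linarith
  have hpi := Real.pi_pos
  have hs : Real.sin θ₀ < 1 := by
    rw [← Real.sin_pi_div_two]
    exact Real.sin_lt_sin_of_lt_of_le_pi_div_two (by linarith) le_rfl (by linarith)
  have hm : 0 < 2 * (1 - Real.sin θ₀) := by linarith
  obtain ⟨hα1, hα2⟩ := abs_le.1 hα
  -- cosine bound
  have hcos : ∀ u, 0 < u → τ * (u - Real.log w) ≤ Real.pi / 4 →
      -Real.sin θ₀ ≤ Real.cos (α - τ * u) := by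
    intro u hu hv
    have h1 : 0 ≤ τ * u := mul_nonneg hτ hu.le
    have h2 : |α - τ * u| ≤ Real.pi / 2 + θ₀ := by
      rw [abs_le]
      constructor
      · have : τ * u = τ * (u - Real.log w) + τ * Real.log w := by ring
        linarith
      · linarith
    have h3 : Real.cos (θ₀ + Real.pi / 2) ≤ Real.cos |α - τ * u| :=
      Real.cos_le_cos_of_nonneg_of_le_pi (abs_nonneg _) (by linarith) (by linarith)
    rwa [Real.cos_add_pi_div_two, Real.cos_abs] at h3
  -- first bound
  have hb1 : ∀ u, 0 < u → τ * (u - Real.log w) ≤ Real.pi / 4 →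
      ‖zz w α τ u‖ / ‖1 + zz w α τ u‖ ^ 2 ≤
        1 / ((u - Real.log w) ^ 2 + 2 * (1 - Real.sin θ₀)) := by
    intro u hu hv
    rw [rb_integrand hw0]
    have h1 := rb_two_cosh (u - Real.log w)
    have h2 := hcos u hu hv
    refine one_div_le_one_div_of_le (by positivity) ?_
    linarith
  rcases hτ.eq_or_lt with h0 | h0
  · subst h0
    have h1 := rb_general (w := w) (α := α) (τ := 0) hm (h := fun _ => 0)
      (integrable_zero _ _ _) (fun _ => le_rfl) (fun u hu => by
        rw [add_zero]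
        exact hb1 u hu (by rw [zero_mul]; positivity))
    rw [integral_zero] at h1
    rw [mul_zero, zero_div]
    exact h1
  · set v0 : ℝ := Real.pi / (4 * τ) with hv0
    have hv0p : 0 < v0 := by positivity
    have hint : IntegrableOn (fun v : ℝ => v ^ (-2 : ℝ)) (Set.Ioi v0) :=
      integrableOn_Ioi_rpow_of_lt (by norm_num) hv0p
    have h1 := rb_general (w := w) (α := α) (τ := τ) hm
      (h := Set.indicator (Set.Ioi v0) fun v : ℝ => v ^ (-2 : ℝ))
      (hint.integrable_indicator measurableSet_Ioi) (fun v => by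
        refine Set.indicator_nonneg (fun v hv => ?_) v
        have : 0 < v := hv0p.trans hv
        positivity) (fun u hu => by
        by_cases hv : u - Real.log w ≤ v0
        · rw [Set.indicator_of_notMem (by simpa using hv), add_zero]
          refine hb1 u hu ?_
          rw [hv0, le_div_iff₀ (by positivity)] at hv
          linarith
        · rw [not_le] at hv
          have hvp : 0 < u - Real.log w := hv0p.trans hv
          rw [Set.indicator_of_mem (Set.mem_Ioi.2 hv)]
          have h2 : ‖zz w α τ u‖ / ‖1 + zz w α τ u‖ ^ 2 ≤ (u - Real.log w) ^ (-2 : ℝ) := by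
            rw [rb_integrand hw0, Real.rpow_neg hvp.le, Real.rpow_two, ← one_div]
            refine one_div_le_one_div_of_le (by positivity) ?_
            have h3 := rb_two_cosh (u - Real.log w)
            have h4 := Real.neg_one_le_cos (α - τ * u)
            linarith
          have h3 : 0 ≤ 1 / ((u - Real.log w) ^ 2 + 2 * (1 - Real.sin θ₀)) := by positivity
          linarith)
    rw [integral_indicator measurableSet_Ioi, integral_Ioi_rpow_of_lt (by norm_num) hv0p] at h1
    refine h1.trans (le_of_eq ?_)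
    congr 1
    have h2 : (-2 : ℝ) + 1 = -1 := by norm_num
    rw [h2, Real.rpow_neg_one, hv0]
    field_simp

end Pool.Agent.Lib.Durfee
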