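import Pool.Agent.Lib.MP_9393b1_co.Decay
import Pool.Agent.Lib.MP_9393b1_co.RepB

/-! # Regime M (`w ≥ 1`): the window `0 ≤ τ ≤ T`, `|θ| ≤ 5π/12` -/

set_option autoImplicit false

namespace Pool.Agent.Lib.Durfee

open Complex MeasureTheory Filter Topology

/-- `s = σ (1 + i τ)` -/
noncomputable def ss (σ τ : ℝ) : ℂ := (σ : ℂ) + (σ * τ : ℝ) * I

noncomputable def hh (w τ : ℝ) : ℝ := (gR w + τ * gI w) / (1 + τ ^ 2)

noncomputable def epsI (σ τ : ℝ) : ℝ := σ * (1 + τ ^ 2) * (15173 / 10000 + 3184 / 10000 * τ)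

noncomputable def epsO (σ τ : ℝ) : ℝ := σ * (1 + τ ^ 2) * (30086 / 10000 + 3184 / 10000 * τ)

private theorem winA_exp (w θ : ℝ) :
    I * (w : ℂ) * exp (I * θ) = (w : ℂ) * exp (I * ((Real.pi / 2 + θ : ℝ) : ℂ)) := by
  have h : exp (I * ((Real.pi / 2 + θ : ℝ) : ℂ)) = I * exp (I * θ) := by
    rw [show I * ((Real.pi / 2 + θ : ℝ) : ℂ) = (Real.pi : ℂ) / 2 * I + I * θ by push_cast; ring,
      Complex.exp_add, Complex.exp_pi_div_two_mul_I]
  rw [h]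
  ring

private theorem winA_exp' (w θ : ℝ) :
    I * (w : ℂ) * exp (-(I * θ)) = (w : ℂ) * exp (I * ((Real.pi / 2 + -θ : ℝ) : ℂ)) := by
  rw [← winA_exp]
  congr 2
  push_cast
  ring

/-- The general window estimate. -/
private theorem winA_gen {w σ τ θ θ₀ : ℝ} (hw : 1 ≤ w) (hσ : 0 < σ) (hτ : 0 ≤ τ)
    (hτL : τ * Real.log w ≤ 3 * Real.pi / 4) (hθ0 : 0 ≤ θ₀) (hθ1 : θ₀ ≤ 5 * Real.pi / 12)
    (hθ : |θ| ≤ θ₀) :
    ∃ E : ℂ, PP w θ (ss σ τ) = exp (WW w θ / ss σ τ + E) ∧ ‖E‖ ≤ σ * (1 + τ ^ 2) / 8 *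
      (2 * (Real.pi / Real.sqrt (2 * (1 - Real.sin θ₀)) + 4 * τ / Real.pi)) := by
  have hpi := Real.pi_pos
  have hw0 : 0 < w := by linarith
  obtain ⟨h1, h2⟩ := abs_le.1 hθ
  have key : ∀ η : ℝ, |η| ≤ θ₀ → ∃ E : ℂ, Lam ((w : ℂ) * exp (I * ((Real.pi / 2 + η : ℝ) : ℂ)))
      (ss σ τ) = exp (Phi ((w : ℂ) * exp (I * ((Real.pi / 2 + η : ℝ) : ℂ))) / ss σ τ + E) ∧
      ‖E‖ ≤ σ * (1 + τ ^ 2) / 8 *
        (Real.pi / Real.sqrt (2 * (1 - Real.sin θ₀)) + 4 * τ / Real.pi) := by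
    intro η hη
    obtain ⟨g1, g2⟩ := abs_le.1 hη
    obtain ⟨E, hE1, hE2⟩ := Lam_rep (w := w) (α := Real.pi / 2 + η) (σ := σ) (τ := τ) hw0
      (by rw [abs_lt]; constructor <;> linarith) hτ hσ (Or.inr (by linarith))
    refine ⟨E, hE1, hE2.trans ?_⟩
    have h3 := Eint_le (w := w) (α := Real.pi / 2 + η) (τ := τ) (θ₀ := θ₀) hw hτ hτL hθ0 hθ1
      (by rwa [add_sub_cancel_left])
    gcongr
  obtain ⟨E1, hE1, hE1'⟩ := key θ hθ
  obtain ⟨E2, hE2, hE2'⟩ := key (-θ) (by rwa [abs_neg])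
  refine ⟨E1 + E2, ?_, ?_⟩
  · unfold PP WW
    rw [winA_exp, winA_exp', hE1, hE2, ← Complex.exp_add]
    congr 1
    ring
  · calc ‖E1 + E2‖ ≤ ‖E1‖ + ‖E2‖ := norm_add_le _ _
      _ ≤ _ := add_le_add hE1' hE2'
      _ = _ := by ring

private theorem winA_sqrt3 : Real.sqrt 3 ≤ 17320532 / 10000000 := by
  rw [Real.sqrt_le_left (by norm_num)]
  norm_num

private theorem winA_num1 :
    Real.pi / Real.sqrt (2 * (1 - Real.sin (Real.pi / 3))) ≤ 60692 / 10000 := by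
  rw [Real.sin_pi_div_three]
  have h3 := winA_sqrt3
  have h1 : (51763 / 100000 : ℝ) ≤ Real.sqrt (2 * (1 - Real.sqrt 3 / 2)) := by
    apply Real.le_sqrt_of_sq_le
    nlinarith
  have h2 := Real.pi_lt_d6
  rw [div_le_iff₀ (by linarith)]
  nlinarith

private theorem winA_num2 :
    Real.pi / Real.sqrt (2 * (1 - Real.sin (5 * Real.pi / 12))) ≤ 120344 / 10000 := by
  have h3 := winA_sqrt3
  have hs : Real.sin (5 * Real.pi / 12) ≤ 96592615 / 100000000 := by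
    have h4 : Real.sin (5 * Real.pi / 12) ^ 2 = (2 + Real.sqrt 3) / 4 := by
      rw [Real.sin_sq_eq_half_sub, show 2 * (5 * Real.pi / 12) = Real.pi - Real.pi / 6 by ring,
        Real.cos_pi_sub, Real.cos_pi_div_six]
      ring
    have h5 : Real.sin (5 * Real.pi / 12) ^ 2 ≤ (96592615 / 100000000) ^ 2 := by
      rw [h4]
      nlinarith
    exact le_of_sq_le_sq h5 (by norm_num)
  have h1 : (2610511 / 10000000 : ℝ) ≤ Real.sqrt (2 * (1 - Real.sin (5 * Real.pi / 12))) := by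
    apply Real.le_sqrt_of_sq_le
    nlinarith
  have h2 := Real.pi_lt_d6
  rw [div_le_iff₀ (by linarith)]
  nlinarith

private theorem winA_num3 {τ : ℝ} (hτ : 0 ≤ τ) : 4 * τ / Real.pi ≤ 4 * (3184 / 10000) * τ := by
  have hpi := Real.pi_pos
  have h2 := Real.pi_gt_d6
  rw [div_le_iff₀ hpi]
  nlinarith

theorem PP_window_inner {w σ τ θ : ℝ} (hw : 1 ≤ w) (hσ : 0 < σ) (hτ : 0 ≤ τ)
    (hτL : τ * Real.log w ≤ 3 * Real.pi / 4) (hθ : |θ| ≤ Real.pi / 3) :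
    ∃ E : ℂ, PP w θ (ss σ τ) = exp (WW w θ / ss σ τ + E) ∧ ‖E‖ ≤ epsI σ τ := by
  have hpi := Real.pi_pos
  obtain ⟨E, hE, hE'⟩ := winA_gen hw hσ hτ hτL (θ₀ := Real.pi / 3) (by linarith) (by linarith) hθ
  refine ⟨E, hE, hE'.trans ?_⟩
  have h1 := winA_num1
  have h2 := winA_num3 hτ
  unfold epsI
  calc σ * (1 + τ ^ 2) / 8 * (2 * (Real.pi / Real.sqrt (2 * (1 - Real.sin (Real.pi / 3))) +
        4 * τ / Real.pi)) ≤ σ * (1 + τ ^ 2) / 8 * (2 * (60692 / 10000 + 4 * (3184 / 10000) * τ)) := by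
        gcongr
    _ = _ := by ring

theorem PP_window_outer {w σ τ θ : ℝ} (hw : 1 ≤ w) (hσ : 0 < σ) (hτ : 0 ≤ τ)
    (hτL : τ * Real.log w ≤ 3 * Real.pi / 4) (hθ : |θ| ≤ 5 * Real.pi / 12) :
    ∃ E : ℂ, PP w θ (ss σ τ) = exp (WW w θ / ss σ τ + E) ∧ ‖E‖ ≤ epsO σ τ := by
  have hpi := Real.pi_pos
  obtain ⟨E, hE, hE'⟩ := winA_gen hw hσ hτ hτL (θ₀ := 5 * Real.pi / 12) (by linarith) le_rfl hθ
  refine ⟨E, hE, hE'.trans ?_⟩
  have h1 := winA_num2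
  have h2 := winA_num3 hτ
  unfold epsO
  calc σ * (1 + τ ^ 2) / 8 * (2 * (Real.pi / Real.sqrt (2 * (1 - Real.sin (5 * Real.pi / 12))) +
        4 * τ / Real.pi)) ≤ σ * (1 + τ ^ 2) / 8 * (2 * (120344 / 10000 + 4 * (3184 / 10000) * τ)) := by
        gcongr
    _ = _ := by ring

theorem re_div_ss {σ τ : ℝ} (hσ : 0 < σ) (c : ℂ) :
    (c / ss σ τ).re = (c.re + τ * c.im) / (σ * (1 + τ ^ 2)) := by
  have h1 : (ss σ τ).re = σ := by simp [ss]
  have h2 : (ss σ τ).im = σ * τ := by simp [ss]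
  rw [Complex.div_re, Complex.normSq_apply, h1, h2]
  have h3 : (0:ℝ) < 1 + τ ^ 2 := by positivity
  field_simp

private theorem gR_nonneg (w : ℝ) : 0 ≤ gR w := by unfold gR; positivity

private theorem gI_nonneg {w : ℝ} (hw : 0 < w) : 0 ≤ gI w := by unfold gI; positivity

private theorem winA_re {w σ τ θ : ℝ} (hw : 0 < w) (hσ : 0 < σ) (hτ : 0 ≤ τ)
    (hθ : |θ| < Real.pi / 2) :
    ‖exp ((WW w θ - VV w) / ss σ τ)‖ ≤ Real.exp (-((gR w / 2 * Real.sin θ ^ 2 +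
      τ * (gI w * (1 - Real.cos θ))) / (σ * (1 + τ ^ 2)))) := by
  rw [Complex.norm_exp, re_div_ss hσ]
  apply Real.exp_le_exp.2
  rw [← neg_div]
  have h1 := re_decay hw hθ
  have h2 := im_decay hw hθ
  rw [Complex.sub_re] at h1
  rw [Complex.sub_im] at h2
  have e1 : gR w / 2 = w ^ 2 / (1 + w ^ 2) := by unfold gR; ring
  have e2 : gI w = 2 * w / (1 + w ^ 2) := rfl
  rw [← e1] at h1
  rw [← e2] at h2
  have h3 := mul_le_mul_of_nonneg_left h2 hτ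
  gcongr
  rw [Complex.sub_re, Complex.sub_im]
  nlinarith

/-- chord of the sine -/
private theorem winA_chord {x b : ℝ} (hb : 0 < b) (hb' : b ≤ Real.pi) (hx : 0 ≤ x) (hxb : x ≤ b) :
    x / b * Real.sin b ≤ Real.sin x := by
  have hc := strictConcaveOn_sin_Icc.concaveOn.2 (show (0:ℝ) ∈ Set.Icc 0 Real.pi from
    ⟨le_rfl, Real.pi_pos.le⟩) (show b ∈ Set.Icc 0 Real.pi from ⟨hb.le, hb'⟩)
    (show 0 ≤ 1 - x / b by rw [sub_nonneg, div_le_one hb]; exact hxb)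
    (show 0 ≤ x / b by positivity) (by ring)
  simp only [smul_eq_mul, Real.sin_zero, mul_zero, zero_add] at hc
  rwa [div_mul_cancel₀ _ hb.ne'] at hc

/-- decay, inner part -/
theorem norm_exp_WW_inner {w σ τ θ : ℝ} (hw : 0 < w) (hσ : 0 < σ) (hτ : 0 ≤ τ)
    (hθ : |θ| ≤ Real.pi / 3) :
    ‖exp ((WW w θ - VV w) / ss σ τ)‖ ≤ Real.exp (-(6839 / 10000 * hh w τ * θ ^ 2 / (2 * σ))) := by
  have hpi := Real.pi_pos
  have hp1 := Real.pi_lt_d6
  refine (winA_re hw hσ hτ (lt_of_le_of_lt hθ (by linarith))).trans ?_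
  apply Real.exp_le_exp.2
  apply neg_le_neg
  have hpi2 : Real.pi ^ 2 ≤ 9869608 / 1000000 := by nlinarith
  -- sin
  have s1 : 6839 / 10000 * θ ^ 2 ≤ Real.sin θ ^ 2 := by
    have h1 := winA_chord (b := Real.pi / 3) (by linarith) (by linarith) (abs_nonneg θ) hθ
    rw [Real.sin_pi_div_three] at h1
    have h2 : |Real.sin θ| = Real.sin |θ| := by
      rw [Real.abs_sin_eq_sin_abs_of_abs_le_pi (hθ.trans (by linarith))]
    have h3 : (|θ| / (Real.pi / 3) * (Real.sqrt 3 / 2)) ^ 2 ≤ Real.sin |θ| ^ 2 := by gcongr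
    rw [← h2, sq_abs] at h3
    refine le_trans ?_ h3
    have h4 : (|θ| / (Real.pi / 3) * (Real.sqrt 3 / 2)) ^ 2 = θ ^ 2 * (27 / (4 * Real.pi ^ 2)) := by
      rw [mul_pow, div_pow, div_pow, div_pow, sq_abs, Real.sq_sqrt (by norm_num)]
      field_simp
      ring
    have h6 : (6839 / 10000 : ℝ) ≤ 27 / (4 * Real.pi ^ 2) := by
      rw [le_div_iff₀ (by positivity)]
      nlinarith
    rw [h4, mul_comm]
    exact mul_le_mul_of_nonneg_left h6 (sq_nonneg θ)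
  -- cos
  have c1 : 6839 / 10000 * θ ^ 2 / 2 ≤ 1 - Real.cos θ := by
    have h0 : |θ / 2| = |θ| / 2 := by rw [abs_div, abs_of_pos (by norm_num : (0:ℝ) < 2)]
    have h1 := winA_chord (b := Real.pi / 6) (by linarith) (by linarith) (abs_nonneg (θ / 2))
      (by rw [h0]; linarith)
    rw [Real.sin_pi_div_six] at h1
    have h2 : |Real.sin (θ / 2)| = Real.sin |θ / 2| := by
      rw [Real.abs_sin_eq_sin_abs_of_abs_le_pi (by rw [h0]; linarith)]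
    have h3 : (|θ / 2| / (Real.pi / 6) * (1 / 2)) ^ 2 ≤ Real.sin |θ / 2| ^ 2 := by gcongr
    rw [← h2, sq_abs] at h3
    have h5 : 1 - Real.cos θ = 2 * Real.sin (θ / 2) ^ 2 := by
      rw [Real.sin_sq_eq_half_sub, show 2 * (θ / 2) = θ by ring]
      ring
    rw [h5]
    have h4 : (|θ / 2| / (Real.pi / 6) * (1 / 2)) ^ 2 = θ ^ 2 * (9 / (4 * Real.pi ^ 2)) := by
      rw [h0, mul_pow, div_pow, div_pow, div_pow, sq_abs]
      field_simp
      ring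
    rw [h4] at h3
    have h6 : (6839 / 40000 : ℝ) ≤ 9 / (4 * Real.pi ^ 2) := by
      rw [le_div_iff₀ (by positivity)]
      nlinarith
    have h7 : θ ^ 2 * (6839 / 40000) ≤ θ ^ 2 * (9 / (4 * Real.pi ^ 2)) := by gcongr
    linarith
  have g1 := gR_nonneg w
  have g2 := gI_nonneg hw
  have e1 : 6839 / 10000 * hh w τ * θ ^ 2 / (2 * σ) =
      (gR w / 2 * (6839 / 10000 * θ ^ 2) + τ * (gI w * (6839 / 10000 * θ ^ 2 / 2))) /
        (σ * (1 + τ ^ 2)) := by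
    unfold hh
    have h3 : (0:ℝ) < 1 + τ ^ 2 := by positivity
    field_simp
  rw [e1]
  gcongr

/-- decay, outer part -/
theorem norm_exp_WW_outer {w σ τ θ : ℝ} (hw : 0 < w) (hσ : 0 < σ) (hτ : 0 ≤ τ)
    (hθ : Real.pi / 3 ≤ |θ|) (hθ2 : |θ| ≤ 5 * Real.pi / 12) :
    ‖exp ((WW w θ - VV w) / ss σ τ)‖ ≤
      Real.exp (-((3 / 8 * gR w + τ * gI w / 2) / (σ * (1 + τ ^ 2)))) := by
  have hpi := Real.pi_pos
  refine (winA_re hw hσ hτ (lt_of_le_of_lt hθ2 (by linarith))).trans ?_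
  apply Real.exp_le_exp.2
  apply neg_le_neg
  have c1 : Real.cos θ ≤ 1 / 2 := by
    rw [← Real.cos_abs, ← Real.cos_pi_div_three]
    exact Real.cos_le_cos_of_nonneg_of_le_pi (by linarith) (by linarith) hθ
  have c0 : 0 ≤ Real.cos θ := by
    rw [← Real.cos_abs]
    exact Real.cos_nonneg_of_mem_Icc ⟨by linarith, by linarith⟩
  have s1 : 3 / 4 ≤ Real.sin θ ^ 2 := by
    have := Real.sin_sq_add_cos_sq θ
    nlinarith
  have g1 := gR_nonneg w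
  have g2 := gI_nonneg hw
  have e1 : 3 / 8 * gR w + τ * gI w / 2 = gR w / 2 * (3 / 4) + τ * (gI w * (1 / 2)) := by ring
  rw [e1]
  have c2 : 1 / 2 ≤ 1 - Real.cos θ := by linarith
  gcongr

/-- the exponent is exact: `Re (n s + V/s) = 2P - P (τ-τ*)²/(1+τ²)`, `σ = a/√n`, `P = √n a`, `τ* = b/a`. -/
theorem norm_exp_saddle {w : ℝ} (hw : 0 < w) {n : ℕ} (hn : 1 ≤ n) (τ : ℝ) :
    ‖exp (n * ss (aa w / Real.sqrt n) τ + VV w / ss (aa w / Real.sqrt n) τ)‖ =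
      Real.exp (2 * (Real.sqrt n * aa w) -
        Real.sqrt n * aa w * (τ - bb w / aa w) ^ 2 / (1 + τ ^ 2)) := by
  have ha := aa_pos hw
  have hn0 : (0:ℝ) < n := by exact_mod_cast hn
  have hq : 0 < Real.sqrt n := Real.sqrt_pos.2 hn0
  have hqq : Real.sqrt n * Real.sqrt n = n := Real.mul_self_sqrt hn0.le
  have h1 := aa_sq_sub_bb_sq hw
  have h2 := two_aa_bb hw
  have h3 : (VV w).re = VR w := by rw [VV_eq hw]; simp
  have h4 : (VV w).im = VI w := by rw [VV_eq hw]; simp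
  rw [Complex.norm_exp, Complex.add_re, re_div_ss (by positivity), h3, h4, ← h1, ← h2]
  congr 1
  have h5 : ((n : ℂ) * ss (aa w / Real.sqrt n) τ).re = n * (aa w / Real.sqrt n) := by
    simp [ss]
  rw [h5]
  have h6 : (0:ℝ) < 1 + τ ^ 2 := by positivity
  have h7 : (n : ℝ) * (aa w / Real.sqrt n) = Real.sqrt n * aa w := by
    have h8 : (n : ℝ) / Real.sqrt n = Real.sqrt n := Real.div_sqrt
    calc (n : ℝ) * (aa w / Real.sqrt n) = (n : ℝ) / Real.sqrt n * aa w := by ring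
      _ = _ := by rw [h8]
  rw [h7]
  field_simp
  ring

end Pool.Agent.Lib.Durfee
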