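import Pool.Agent.Lib.MP_9393b1_co.SpecC
import Pool.Agent.Lib.MP_9393b1_co.WinA

/-! # Regime M: hypotheses, normalisation, first consequences -/

set_option autoImplicit false

namespace Pool.Agent.Lib.Durfee

open Complex MeasureTheory Filter Topology

/-- Hypotheses of regime M. -/
structure HypM (n : ℕ) (w : ℝ) : Prop where
  hn : 10 ^ 4 ≤ n
  hw : 1 ≤ w
  hL : Real.log w ≤ 2 * (n : ℝ) ^ ((1 : ℝ) / 6)
  hb : bb w < Real.pi / 2

/-- `σ = a/√n` -/
noncomputable def sg (n : ℕ) (w : ℝ) : ℝ := aa w / Real.sqrt n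

/-- `P = √n a` -/
noncomputable def PPn (n : ℕ) (w : ℝ) : ℝ := Real.sqrt n * aa w

/-- `τ* = b/a` -/
noncomputable def ts (w : ℝ) : ℝ := bb w / aa w

/-- the window length `T` -/
noncomputable def TT (w : ℝ) : ℝ :=
  if Real.log w ≤ 3 * Real.pi / 10 then 5 / 2 else 3 * Real.pi / (4 * Real.log w)

/-- `E(τ) = exp(-P (τ-τ*)²/(1+τ²))` -/
noncomputable def Ew (n : ℕ) (w τ : ℝ) : ℝ :=
  Real.exp (-(PPn n w * (τ - ts w) ^ 2 / (1 + τ ^ 2)))

/-- size of the main term -/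
noncomputable def Mamp (n : ℕ) (w : ℝ) : ℝ :=
  1 / (Real.pi * n) * Real.sqrt (‖VV w‖ / (2 * ‖gam w‖)) * Real.exp (2 * PPn n w)

/-- normalisation constant `(P/2π) √(2|γ|/|V|)` -/
noncomputable def Kn (n : ℕ) (w : ℝ) : ℝ :=
  PPn n w / (2 * Real.pi) * Real.sqrt (2 * ‖gam w‖ / ‖VV w‖)

private theorem hypM_norm_VV_pos {w : ℝ} (hw : 0 < w) : 0 < ‖VV w‖ := by
  rw [norm_VV hw]
  have := aa_pos hw
  positivity

theorem norm_gam (w : ℝ) (hw : 0 < w) : ‖gam w‖ = 2 * w / Real.sqrt (1 + w ^ 2) := by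
  have h1 : ‖(1 : ℂ) + I * w‖ = Real.sqrt (1 + w ^ 2) := by
    rw [Complex.norm_def, Complex.normSq_apply]
    congr 1
    simp
    ring
  unfold gam
  rw [norm_div, norm_mul, norm_mul, h1]
  simp [abs_of_pos hw]

private theorem hypM_norm_gam_pos {w : ℝ} (hw : 0 < w) : 0 < ‖gam w‖ := by
  rw [norm_gam w hw]
  positivity

theorem Kn_mul_Mamp {n : ℕ} {w : ℝ} (hn : 1 ≤ n) (hw : 0 < w) :
    Kn n w * Mamp n w = sg n w / (2 * Real.pi ^ 2) * Real.exp (2 * PPn n w) := by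
  have h1 := hypM_norm_VV_pos hw
  have h2 := hypM_norm_gam_pos hw
  have hpi := Real.pi_pos
  have hn0 : (0:ℝ) < n := by exact_mod_cast hn
  have hq : 0 < Real.sqrt n := Real.sqrt_pos.2 hn0
  have hqq : Real.sqrt n * Real.sqrt n = n := Real.mul_self_sqrt hn0.le
  have h3 : Real.sqrt (2 * ‖gam w‖ / ‖VV w‖) * Real.sqrt (‖VV w‖ / (2 * ‖gam w‖)) = 1 := by
    rw [← Real.sqrt_mul (by positivity)]
    have : 2 * ‖gam w‖ / ‖VV w‖ * (‖VV w‖ / (2 * ‖gam w‖)) = 1 := by field_simp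
    rw [this, Real.sqrt_one]
  unfold Kn Mamp sg
  calc PPn n w / (2 * Real.pi) * Real.sqrt (2 * ‖gam w‖ / ‖VV w‖) *
        (1 / (Real.pi * n) * Real.sqrt (‖VV w‖ / (2 * ‖gam w‖)) * Real.exp (2 * PPn n w))
      = PPn n w / (2 * Real.pi) * (1 / (Real.pi * n)) *
        (Real.sqrt (2 * ‖gam w‖ / ‖VV w‖) * Real.sqrt (‖VV w‖ / (2 * ‖gam w‖))) *
        Real.exp (2 * PPn n w) := by ring
    _ = PPn n w / (2 * Real.pi) * (1 / (Real.pi * n)) * Real.exp (2 * PPn n w) := by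
        rw [h3, mul_one]
    _ = _ := by
        congr 1
        unfold PPn
        field_simp
        rw [Real.sq_sqrt hn0.le, mul_comm]

theorem norm_gam_le_two (w : ℝ) (hw : 0 < w) : ‖gam w‖ ≤ 2 := by
  rw [norm_gam w hw, div_le_iff₀ (by positivity)]
  have : w ≤ Real.sqrt (1 + w ^ 2) := Real.le_sqrt_of_sq_le (by linarith)
  linarith

theorem gR_mem {w : ℝ} (hw : 1 ≤ w) : 1 ≤ gR w ∧ gR w < 2 := by
  unfold gR
  have h : 0 < 1 + w ^ 2 := by positivity
  constructor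
  · rw [le_div_iff₀ h]
    nlinarith
  · rw [div_lt_iff₀ h]
    nlinarith

theorem gI_mem {w : ℝ} (hw : 1 ≤ w) : 0 < gI w ∧ gI w ≤ 1 := by
  unfold gI
  have h : 0 < 1 + w ^ 2 := by positivity
  constructor
  · positivity
  · rw [div_le_one h]
    nlinarith [sq_nonneg (w - 1)]

private theorem hypM_pisq : Real.pi ^ 2 / 3 ≤ 32899 / 10000 := by
  have := Real.pi_lt_d6
  have := Real.pi_gt_d6
  nlinarith

namespace HypM

variable {n : ℕ} {w : ℝ}

private theorem hw0 (h : HypM n w) : 0 < w := lt_of_lt_of_le one_pos h.hw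

private theorem hn0 (h : HypM n w) : (0:ℝ) < n := by
  have := h.hn
  exact_mod_cast lt_of_lt_of_le (by norm_num) this

private theorem hR0 (h : HypM n w) : 0 < Real.sqrt n := Real.sqrt_pos.2 h.hn0

theorem R_ge (h : HypM n w) : 100 ≤ Real.sqrt n := by
  apply Real.le_sqrt_of_sq_le
  have := h.hn
  have h1 : ((10 ^ 4 : ℕ) : ℝ) ≤ n := by exact_mod_cast this
  push_cast at h1
  linarith

theorem log_nonneg (h : HypM n w) : 0 ≤ Real.log w := Real.log_nonneg h.hw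

theorem R_ge_cube (h : HypM n w) : (Real.log w / 2) ^ 3 ≤ Real.sqrt n := by
  have h0 := h.log_nonneg
  have h1 : Real.log w / 2 ≤ (n : ℝ) ^ ((1 : ℝ) / 6) := by
    have := h.hL
    linarith
  have h2 : ((n : ℝ) ^ ((1 : ℝ) / 6)) ^ 3 = Real.sqrt n := by
    rw [Real.sqrt_eq_rpow, ← Real.rpow_natCast, ← Real.rpow_mul h.hn0.le]
    norm_num
  rw [← h2]
  gcongr

theorem sg_pos (h : HypM n w) : 0 < sg n w := div_pos (aa_pos h.hw0) h.hR0

private theorem aa_sq_le (h : HypM n w) : aa w ^ 2 ≤ Real.log w ^ 2 + 32899 / 10000 := by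
  have h1 := U_le_large h.hw
  have h2 := hypM_pisq
  linarith

private theorem R_sq_ge (h : HypM n w) : Real.log w ^ 6 / 64 ≤ Real.sqrt n ^ 2 := by
  have h1 := h.R_ge_cube
  have h0 := h.log_nonneg
  calc Real.log w ^ 6 / 64 = ((Real.log w / 2) ^ 3) ^ 2 := by ring
    _ ≤ Real.sqrt n ^ 2 := by gcongr

/-- `1/σ = √n/a ≥ 10.55` -/
theorem inv_sg_ge (h : HypM n w) : 1055 / 100 ≤ 1 / sg n w := by
  have ha := aa_pos h.hw0
  have hR := h.hR0
  have h1 := h.aa_sq_le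
  have h2 := h.R_ge
  have h3 := h.R_sq_ge
  have h0 := h.log_nonneg
  unfold sg
  rw [one_div_div, le_div_iff₀ ha]
  apply le_of_sq_le_sq _ hR.le
  rw [mul_pow]
  have h4 : (1055 / 100 : ℝ) ^ 2 * aa w ^ 2 ≤
      (1055 / 100 : ℝ) ^ 2 * (Real.log w ^ 2 + 32899 / 10000) := by gcongr
  refine h4.trans ?_
  rcases le_total (Real.log w) (93 / 10) with h5 | h5
  · have h6 : Real.log w ^ 2 ≤ (93 / 10) ^ 2 := by gcongr
    nlinarith
  · have h6 : (93 / 10 : ℝ) ^ 2 ≤ Real.log w ^ 2 := by gcongr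
    refine le_trans ?_ h3
    have h7 : Real.log w ^ 6 = (Real.log w ^ 2) ^ 3 := by ring
    rw [h7]
    set t := Real.log w ^ 2 with ht
    have h8 : ((93 / 10 : ℝ) ^ 2) ^ 2 ≤ t ^ 2 := by gcongr
    have h9 : t * ((93 / 10 : ℝ) ^ 2) ^ 2 ≤ t * t ^ 2 := by gcongr
    nlinarith

/-- `1/σ ≥ 0.122 L²` for `L ≥ 7` -/
theorem inv_sg_ge_sq (h : HypM n w) (hL7 : 7 ≤ Real.log w) :
    122 / 1000 * Real.log w ^ 2 ≤ 1 / sg n w := by
  have ha := aa_pos h.hw0
  have hR := h.hR0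
  have h1 := h.aa_sq_le
  have h2 := h.R_ge
  have h3 := h.R_sq_ge
  have h0 := h.log_nonneg
  unfold sg
  rw [one_div_div, le_div_iff₀ ha]
  apply le_of_sq_le_sq _ hR.le
  rw [mul_pow]
  have h4 : (122 / 1000 * Real.log w ^ 2) ^ 2 * aa w ^ 2 ≤
      (122 / 1000 * Real.log w ^ 2) ^ 2 * (Real.log w ^ 2 + 32899 / 10000) := by gcongr
  refine h4.trans ?_
  rcases le_total (Real.log w) (93 / 10) with h5 | h5
  · have h6 : (122 / 1000 * Real.log w ^ 2) ^ 2 * (Real.log w ^ 2 + 32899 / 10000) ≤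
        (122 / 1000 * (93 / 10) ^ 2) ^ 2 * ((93 / 10) ^ 2 + 32899 / 10000) := by gcongr
    have h7 : (100 : ℝ) ^ 2 ≤ Real.sqrt n ^ 2 := by gcongr
    refine h6.trans (le_trans ?_ h7)
    norm_num
  · have h6 : (93 / 10 : ℝ) ^ 2 ≤ Real.log w ^ 2 := by gcongr
    refine le_trans ?_ h3
    have h7 : Real.log w ^ 6 / 64 = (Real.log w ^ 2) ^ 2 * (Real.log w ^ 2 / 64) := by ring
    rw [h7, mul_pow, mul_comm ((122 / 1000 : ℝ) ^ 2), mul_assoc]
    gcongr
    nlinarith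

theorem sg_le_of (h : HypM n w) {l : ℝ} (hl : Real.log w ≤ l) :
    sg n w ≤ Real.sqrt (l ^ 2 + Real.pi ^ 2 / 3) / 100 := by
  have h0 := h.log_nonneg
  have h1 := U_le_large h.hw
  unfold sg
  have h2 : aa w ≤ Real.sqrt (l ^ 2 + Real.pi ^ 2 / 3) := by
    apply Real.le_sqrt_of_sq_le
    refine h1.trans ?_
    gcongr
  exact div_le_div₀ (Real.sqrt_nonneg _) h2 (by norm_num) h.R_ge

theorem TT_pos (h : HypM n w) : 0 < TT w := by
  unfold TT
  have hpi := Real.pi_pos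
  split_ifs with h1
  · norm_num
  · push Not at h1
    have : 0 < Real.log w := lt_trans (by positivity) h1
    positivity

theorem TT_le (h : HypM n w) : TT w ≤ 5 / 2 := by
  unfold TT
  have hpi := Real.pi_pos
  split_ifs with h1
  · norm_num
  · push Not at h1
    have h2 : 0 < Real.log w := lt_trans (by positivity) h1
    rw [div_le_iff₀ (by positivity)]
    linarith

theorem TT_mul_log (h : HypM n w) : TT w * Real.log w ≤ 3 * Real.pi / 4 := by
  unfold TT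
  have hpi := Real.pi_pos
  split_ifs with h1
  · linarith
  · push Not at h1
    have h2 : 0 < Real.log w := lt_trans (by positivity) h1
    apply le_of_eq
    field_simp

theorem sg_mul_TT_le_pi (h : HypM n w) : sg n w * 4 ≤ Real.pi := by
  have h1 := h.inv_sg_ge
  have h2 := h.sg_pos
  have hpi := Real.pi_gt_three
  rw [le_div_iff₀ h2] at h1
  nlinarith

/-- `Kn ≤ √n/π` -/
theorem Kn_le (h : HypM n w) : Kn n w ≤ Real.sqrt n / Real.pi := by
  have ha := aa_pos h.hw0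
  have hb := bb_pos h.hw0
  have hpi := Real.pi_pos
  have h1 := norm_gam_le_two w h.hw0
  have hR := h.hR0
  unfold Kn PPn
  have h2 : Real.sqrt (2 * ‖gam w‖ / ‖VV w‖) ≤ 2 / aa w := by
    rw [Real.sqrt_le_left (by positivity), norm_VV h.hw0, div_pow]
    apply div_le_div₀ (by positivity) (by linarith) (by positivity)
    have := sq_nonneg (bb w)
    linarith
  calc Real.sqrt n * aa w / (2 * Real.pi) * Real.sqrt (2 * ‖gam w‖ / ‖VV w‖)
      ≤ Real.sqrt n * aa w / (2 * Real.pi) * (2 / aa w) := by gcongr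
    _ = _ := by field_simp

private theorem P_pos (h : HypM n w) : 0 < PPn n w := mul_pos h.hR0 (aa_pos h.hw0)

/-- `∫_0^{T'} E ≤ √(π(1+T'²)/P)` -/
theorem integral_Ew_le (h : HypM n w) {T' : ℝ} (hT : 0 ≤ T') :
    ∫ τ in (0 : ℝ)..T', Ew n w τ ≤ Real.sqrt (Real.pi * (1 + T' ^ 2) / PPn n w) := by
  have hP := h.P_pos
  set b := PPn n w / (1 + T' ^ 2) with hb
  have hb0 : 0 < b := by positivity
  have h1 : ∫ τ : ℝ, Real.exp (-b * (τ - ts w) ^ 2) = Real.sqrt (Real.pi / b) := by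
    rw [integral_sub_right_eq_self (fun τ : ℝ => Real.exp (-b * τ ^ 2)) (ts w)]
    exact integral_gaussian b
  have h2 : Real.pi * (1 + T' ^ 2) / PPn n w = Real.pi / b := by
    rw [hb]
    field_simp
  rw [h2, ← h1]
  have hint : Integrable (fun τ : ℝ => Real.exp (-b * (τ - ts w) ^ 2)) :=
    (integrable_exp_neg_mul_sq hb0).comp_sub_right (ts w)
  have hcont : Continuous (fun τ : ℝ => Ew n w τ) := by
    unfold Ew
    refine Real.continuous_exp.comp (Continuous.neg ?_)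
    refine Continuous.div (by fun_prop) (by fun_prop) (fun τ => by positivity)
  have hcont2 : Continuous (fun τ : ℝ => Real.exp (-b * (τ - ts w) ^ 2)) := by fun_prop
  calc ∫ τ in (0 : ℝ)..T', Ew n w τ ≤ ∫ τ in (0 : ℝ)..T', Real.exp (-b * (τ - ts w) ^ 2) := by
        apply intervalIntegral.integral_mono_on hT (hcont.intervalIntegrable _ _)
          (hcont2.intervalIntegrable _ _)
        intro τ hτ
        unfold Ew
        apply Real.exp_le_exp.2
        rw [neg_mul, neg_le_neg_iff, hb, div_mul_eq_mul_div]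
        have h3 : τ ^ 2 ≤ T' ^ 2 := pow_le_pow_left₀ hτ.1 hτ.2 2
        gcongr
    _ = ∫ τ in Set.Ioc (0 : ℝ) T', Real.exp (-b * (τ - ts w) ^ 2) := by
        rw [intervalIntegral.integral_of_le hT]
    _ ≤ ∫ τ : ℝ, Real.exp (-b * (τ - ts w) ^ 2) := by
        apply setIntegral_le_integral hint
        filter_upwards with τ
        positivity

/-- `Kn ∫_0^{T'} E ≤ √(|γ|(1+T'²)/(2π σ))` -/
theorem Kn_mul_integral_Ew_le (h : HypM n w) {T' : ℝ} (hT : 0 ≤ T') :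
    Kn n w * ∫ τ in (0 : ℝ)..T', Ew n w τ ≤
      Real.sqrt (‖gam w‖ * (1 + T' ^ 2) / (2 * Real.pi * sg n w)) := by
  have hP := h.P_pos
  have hpi := Real.pi_pos
  have hg := hypM_norm_gam_pos h.hw0
  have hV := hypM_norm_VV_pos h.hw0
  have ha := aa_pos h.hw0
  have hR := h.hR0
  have hs := h.sg_pos
  have h1 := h.integral_Ew_le hT
  have hK : 0 ≤ Kn n w := by unfold Kn; positivity
  refine (mul_le_mul_of_nonneg_left h1 hK).trans ?_
  apply Real.le_sqrt_of_sq_le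
  unfold Kn
  rw [mul_pow, mul_pow, Real.sq_sqrt (by positivity), Real.sq_sqrt (by positivity)]
  have h2 : (PPn n w / (2 * Real.pi)) ^ 2 * (2 * ‖gam w‖ / ‖VV w‖) *
      (Real.pi * (1 + T' ^ 2) / PPn n w) =
      ‖gam w‖ * (1 + T' ^ 2) / (2 * Real.pi) * (PPn n w / ‖VV w‖) := by
    field_simp
  rw [h2]
  have h3 : ‖gam w‖ * (1 + T' ^ 2) / (2 * Real.pi * sg n w) =
      ‖gam w‖ * (1 + T' ^ 2) / (2 * Real.pi) * (1 / sg n w) := by
    field_simp
  rw [h3]
  have h4 : PPn n w / ‖VV w‖ ≤ 1 / sg n w := by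
    rw [norm_VV h.hw0]
    unfold PPn sg
    rw [one_div_div, div_le_div_iff₀ (by positivity) ha]
    have := sq_nonneg (bb w)
    nlinarith [mul_pos hR ha]
  gcongr

end HypM

end Pool.Agent.Lib.Durfee
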