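import Pool.Agent.Lib.MP_9393b1_co.WinSA
import Pool.Agent.Lib.MP_9393b1_co.DecayS
import Pool.Agent.Lib.MP_9393b1_co.WinB

/-! # Regime S (`w ≤ 1`): the integral in `θ` -/

set_option autoImplicit false

namespace Pool.Agent.Lib.Durfee

open Complex MeasureTheory Filter Topology

noncomputable def RinS (w σ τ : ℝ) : ℝ :=
  Real.sqrt (2 * Real.pi * σ / (6839 / 10000 * hh w τ)) *
      (epsI σ τ / 2 * Real.exp (epsI σ τ / 2) + 3 * (qq w * w) * σ / (6839 / 10000 * hh w τ) ^ 2) +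
    Real.sqrt (2 * Real.pi * σ / hh w τ) * Real.exp (-(hh w τ * (Real.pi / 3) ^ 2 / (2 * σ)))

noncomputable def RoutS (w σ τ : ℝ) : ℝ :=
  Real.pi / 6 * Real.exp (epsO σ τ / 2) *
    Real.exp (-((3 / 8 * gR w + τ * gI w / 2) / (σ * (1 + τ ^ 2))))

noncomputable def RtrS (w σ τ : ℝ) : ℝ :=
  5 * Real.pi / 6 * Real.exp (epsO σ τ / 2) + Real.sqrt (2 * Real.pi * ‖ss σ τ‖ / ‖gam w‖)

section aux

theorem sb_qq_nonneg {w : ℝ} (hw : 0 < w) : 0 ≤ qq w * w := by
  unfold qq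
  have : 0 ≤ min (1 / 12 + 17 / 20 * w) (7 / 12) := le_min (by positivity) (by norm_num)
  positivity

/-- pointwise comparison with the Gaussian -/
private theorem sb_pointwise {w σ τ θ x : ℝ} (hw0 : 0 < w) (hw : w ≤ 1) (hσ : 0 < σ) (hτ : 0 ≤ τ)
    (hθ : |θ| ≤ Real.pi / 3) :
    ‖exp (x * ss σ τ) * PP w θ (ss σ τ) -
        exp (x * ss σ τ + VV w / ss σ τ) * exp (-(gam w / ss σ τ / 2 * (θ : ℂ) ^ 2))‖ ≤
      ‖exp (x * ss σ τ + VV w / ss σ τ)‖ *
        ((epsI σ τ / 2 * Real.exp (epsI σ τ / 2) + qq w * w * θ ^ 4 / σ) *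
          Real.exp (-(6839 / 10000 * hh w τ * θ ^ 2 / (2 * σ)))) := by
  obtain ⟨E, hE1, hE2⟩ := PP_window_inner_S hw0 hw hσ hτ hθ
  have hs := wb_ss_ne (τ := τ) hσ
  have hsn := wb_le_norm_ss σ τ
  set s := ss σ τ with hsdef
  set A : ℂ := (WW w θ - VV w) / s with hA
  set B : ℂ := -(gam w / s / 2 * (θ : ℂ) ^ 2) with hB
  set M : ℝ := -(6839 / 10000 * hh w τ * θ ^ 2 / (2 * σ)) with hM
  have hh0 := wb_hh_pos (τ := τ) hw0 hτ
  have e1 : exp (x * s) * PP w θ s - exp (x * s + VV w / s) * exp B =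
      exp (x * s + VV w / s) * (exp A * (exp E - 1) + (exp A - exp B)) := by
    have e2 : exp (x * s) * exp (WW w θ / s + E) = exp (x * s + VV w / s) * (exp A * exp E) := by
      rw [← Complex.exp_add, ← Complex.exp_add, ← Complex.exp_add]
      congr 1
      rw [hA, sub_div]
      ring
    rw [hE1, e2]
    ring
  rw [e1, norm_mul]
  refine mul_le_mul_of_nonneg_left ?_ (norm_nonneg _)
  have hAn : ‖exp A‖ ≤ Real.exp M := norm_exp_WW_inner hw0 hσ hτ hθ
  have hAre : A.re ≤ M := by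
    rw [Complex.norm_exp] at hAn
    exact Real.exp_le_exp.1 hAn
  have hBre : B.re ≤ M := by
    rw [hB, hsdef, wb_re_gauss hσ, hM]
    have h1 : 6839 / 10000 * hh w τ * θ ^ 2 / (2 * σ) ≤ hh w τ * θ ^ 2 / (2 * σ) := by
      apply div_le_div_of_nonneg_right _ (by positivity)
      have : 0 ≤ hh w τ * θ ^ 2 := by positivity
      nlinarith
    linarith
  have hq := sb_qq_nonneg hw0
  have hAB : ‖A - B‖ ≤ qq w * w * θ ^ 4 / σ := by
    have e3 : A - B = -((VV w - WW w θ - gam w * (θ : ℂ) ^ 2 / 2) / s) := by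
      rw [hA, hB]
      field_simp
      ring
    rw [e3, norm_neg, norm_div]
    have h1 := quartic_bound_S hw0 hw hθ
    have h2 : 0 ≤ qq w * w * θ ^ 4 := by positivity
    calc ‖VV w - WW w θ - gam w * (θ : ℂ) ^ 2 / 2‖ / ‖s‖ ≤ qq w * w * θ ^ 4 / ‖s‖ := by gcongr
      _ ≤ qq w * w * θ ^ 4 / σ := by gcongr
  have hE3 : ‖exp E - 1‖ ≤ epsI σ τ / 2 * Real.exp (epsI σ τ / 2) := by
    refine (wb_exp_sub_one E).trans ?_
    have h0 := norm_nonneg E
    exact mul_le_mul hE2 (Real.exp_le_exp.2 hE2) (Real.exp_pos _).le (h0.trans hE2)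
  refine (norm_add_le _ _).trans ?_
  rw [norm_mul]
  have h5 := wb_exp_sub hAre hBre
  have h6 : Real.exp M * ‖A - B‖ ≤ Real.exp M * (qq w * w * θ ^ 4 / σ) := by gcongr
  have h7 : ‖exp A‖ * ‖exp E - 1‖ ≤ Real.exp M * (epsI σ τ / 2 * Real.exp (epsI σ τ / 2)) := by
    gcongr
  calc ‖exp A‖ * ‖exp E - 1‖ + ‖exp A - exp B‖
      ≤ Real.exp M * (epsI σ τ / 2 * Real.exp (epsI σ τ / 2)) +
          Real.exp M * (qq w * w * θ ^ 4 / σ) := add_le_add h7 (h5.trans h6)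
    _ = _ := by ring

/-- the integral of the pointwise bound -/
private theorem sb_bound_integral {w σ τ : ℝ} (hw : 0 < w) (hσ : 0 < σ) (hτ : 0 ≤ τ) :
    (∫ θ in (-(Real.pi / 3))..(Real.pi / 3),
        (epsI σ τ / 2 * Real.exp (epsI σ τ / 2) + qq w * w * θ ^ 4 / σ) *
          Real.exp (-(6839 / 10000 * hh w τ * θ ^ 2 / (2 * σ)))) ≤
      Real.sqrt (2 * Real.pi * σ / (6839 / 10000 * hh w τ)) *
      (epsI σ τ / 2 * Real.exp (epsI σ τ / 2) +
        3 * (qq w * w) * σ / (6839 / 10000 * hh w τ) ^ 2) := by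
  have hh0 := wb_hh_pos (τ := τ) hw hτ
  have he0 := wb_epsI_nonneg hσ hτ
  have hq := sb_qq_nonneg hw
  set q : ℝ := qq w * w with hqdef
  set H : ℝ := 6839 / 10000 * hh w τ with hH
  have hH0 : 0 < H := by positivity
  set b : ℝ := H / (2 * σ) with hb
  have hb0 : 0 < b := by positivity
  set K : ℝ := epsI σ τ / 2 * Real.exp (epsI σ τ / 2) with hK
  have hK0 : 0 ≤ K := by positivity
  have e1 : (fun θ : ℝ => (K + q * θ ^ 4 / σ) * Real.exp (-(H * θ ^ 2 / (2 * σ)))) =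
      fun θ : ℝ => K * Real.exp (-b * θ ^ 2) + q / σ * (θ ^ 4 * Real.exp (-b * θ ^ 2)) := by
    funext θ
    have : -(H * θ ^ 2 / (2 * σ)) = -b * θ ^ 2 := by
      rw [hb]
      ring
    rw [this]
    ring
  have i1 : Integrable fun θ : ℝ => K * Real.exp (-b * θ ^ 2) :=
    (integrable_exp_neg_mul_sq hb0).const_mul _
  have i2 : Integrable fun θ : ℝ => q / σ * (θ ^ 4 * Real.exp (-b * θ ^ 2)) :=
    (wb_pow_integrable hb0 4).const_mul _
  rw [e1, intervalIntegral.integral_of_le (by linarith [Real.pi_pos])]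
  refine (setIntegral_le_integral (i1.add i2) (ae_of_all _ fun θ => ?_)).trans (le_of_eq ?_)
  · show 0 ≤ K * Real.exp (-b * θ ^ 2) + q / σ * (θ ^ 4 * Real.exp (-b * θ ^ 2))
    positivity
  · have e2 : Real.pi / b = 2 * Real.pi * σ / H := by
      rw [hb]
      field_simp
    have e3 := integral_add i1 i2
    rw [integral_const_mul, integral_const_mul, integral_gaussian, wb_four hb0, e2, hb] at e3
    refine e3.trans ?_
    field_simp
    ring

private theorem sb_inner {w σ τ x : ℝ} (hw0 : 0 < w) (hw : w ≤ 1) (hσ : 0 < σ) (hτ : 0 ≤ τ) :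
    ‖(∫ θ in (-(Real.pi / 3))..(Real.pi / 3), exp (x * ss σ τ) * PP w θ (ss σ τ)) -
        exp (x * ss σ τ + VV w / ss σ τ) * (2 * Real.pi * ss σ τ / gam w) ^ (1 / 2 : ℂ)‖ ≤
      ‖exp (x * ss σ τ + VV w / ss σ τ)‖ * RinS w σ τ := by
  have hh0 := wb_hh_pos (τ := τ) hw0 hτ
  have hpi := Real.pi_pos
  set a : ℝ := Real.pi / 3 with ha
  have ha0 : 0 < a := by positivity
  set C : ℂ := exp (x * ss σ τ + VV w / ss σ τ) with hC
  set b : ℝ := hh w τ / (2 * σ) with hb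
  have hb0 : 0 < b := by positivity
  set G : ℝ → ℂ := fun θ => exp (-(gam w / ss σ τ / 2 * (θ : ℂ) ^ 2)) with hG
  have hGn : ∀ θ, ‖G θ‖ = Real.exp (-b * θ ^ 2) := fun θ => wb_norm_gauss hσ θ
  have hGc : Continuous G := by
    simp only [hG]
    fun_prop
  have hGi : Integrable G := by
    refine (integrable_exp_neg_mul_sq hb0).mono' hGc.aestronglyMeasurable (ae_of_all _ fun θ => ?_)
    rw [hGn]
  have hGint : ∫ θ : ℝ, G θ = (2 * Real.pi * ss σ τ / gam w) ^ (1 / 2 : ℂ) := by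
    have hre : 0 < (gam w / ss σ τ / 2).re := by
      have e : gam w / ss σ τ / 2 = gam w / ss σ τ * ((1 / 2 : ℝ) : ℂ) := by
        push_cast
        ring
      rw [e, Complex.re_mul_ofReal, wb_re_gam hσ]
      positivity
    have h1 := integral_gaussian_complex hre
    have e2 : (fun θ : ℝ => exp (-(gam w / ss σ τ / 2) * (θ : ℂ) ^ 2)) = G := by
      funext θ
      simp only [hG]
      congr 1
      ring
    rw [e2] at h1
    rw [h1]
    congr 1
    have h2 := wb_gam_ne hw0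
    have h3 := wb_ss_ne (τ := τ) hσ
    field_simp
  have hPc := wb_continuous_PP w hσ τ
  have hfc : Continuous fun θ : ℝ => exp (x * ss σ τ) * PP w θ (ss σ τ) :=
    continuous_const.mul hPc
  have hgc : Continuous fun θ : ℝ => C * G θ := continuous_const.mul hGc
  -- first part
  have p1 : ‖(∫ θ in (-a)..a, exp (x * ss σ τ) * PP w θ (ss σ τ)) - ∫ θ in (-a)..a, C * G θ‖ ≤
      ‖C‖ * (Real.sqrt (2 * Real.pi * σ / (6839 / 10000 * hh w τ)) *
      (epsI σ τ / 2 * Real.exp (epsI σ τ / 2) + 3 * (qq w * w) * σ / (6839 / 10000 * hh w τ) ^ 2)) := by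
    rw [← intervalIntegral.integral_sub (hfc.intervalIntegrable _ _) (hgc.intervalIntegrable _ _)]
    have hle : -a ≤ a := by linarith
    have q1 := intervalIntegral.norm_integral_le_integral_norm (μ := volume)
      (f := fun θ : ℝ => exp (x * ss σ τ) * PP w θ (ss σ τ) - C * G θ) hle
    have hbc : Continuous fun θ : ℝ => ‖C‖ *
        ((epsI σ τ / 2 * Real.exp (epsI σ τ / 2) + qq w * w * θ ^ 4 / σ) *
          Real.exp (-(6839 / 10000 * hh w τ * θ ^ 2 / (2 * σ)))) := by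
      fun_prop
    have q2 := intervalIntegral.integral_mono_on (μ := volume) hle
      ((hfc.sub hgc).norm.intervalIntegrable _ _) (hbc.intervalIntegrable _ _)
      (fun θ hθ => sb_pointwise (x := x) hw0 hw hσ hτ (θ := θ) (abs_le.2 ⟨hθ.1, hθ.2⟩))
    rw [intervalIntegral.integral_const_mul] at q2
    exact q1.trans (q2.trans (mul_le_mul_of_nonneg_left (sb_bound_integral hw0 hσ hτ)
      (norm_nonneg _)))
  -- second part
  have p2 : ‖(∫ θ in (-a)..a, C * G θ) - C * ∫ θ : ℝ, G θ‖ ≤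
      ‖C‖ * (Real.sqrt (2 * Real.pi * σ / hh w τ) *
        Real.exp (-(hh w τ * a ^ 2 / (2 * σ)))) := by
    rw [intervalIntegral.integral_const_mul, ← mul_sub, norm_mul]
    refine mul_le_mul_of_nonneg_left ?_ (norm_nonneg _)
    have s1 : ∫ θ : ℝ, G θ = (∫ θ in Set.Iic (-a), G θ) + ((∫ θ in (-a)..a, G θ) +
        ∫ θ in Set.Ioi a, G θ) := by
      rw [← intervalIntegral.integral_Iic_add_Ioi hGi.integrableOn hGi.integrableOn (b := -a),
        intervalIntegral.integral_interval_add_Ioi hGi.integrableOn hGi.integrableOn]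
    rw [s1]
    have s2 : (∫ θ in (-a)..a, G θ) - ((∫ θ in Set.Iic (-a), G θ) + ((∫ θ in (-a)..a, G θ) +
        ∫ θ in Set.Ioi a, G θ)) = -((∫ θ in Set.Iic (-a), G θ) + ∫ θ in Set.Ioi a, G θ) := by ring
    rw [s2, norm_neg]
    have s3 : ‖∫ θ in Set.Ioi a, G θ‖ ≤ Real.exp (-b * a ^ 2) * (Real.sqrt (Real.pi / b) / 2) := by
      refine (norm_integral_le_integral_norm _).trans ?_
      simp only [hGn]
      exact wb_tail hb0 ha0.le
    have s4 : ∫ θ in Set.Iic (-a), G θ = ∫ θ in Set.Ioi a, G θ := by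
      rw [← integral_comp_neg_Ioi]
      refine setIntegral_congr_fun measurableSet_Ioi fun θ _ => ?_
      simp only [hG]
      congr 1
      push_cast
      ring
    rw [s4]
    have s5 : Real.pi / b = 2 * Real.pi * σ / hh w τ := by
      rw [hb]
      field_simp
    have s6 : -(hh w τ * a ^ 2 / (2 * σ)) = -b * a ^ 2 := by
      rw [hb]
      ring
    rw [s6, ← s5]
    refine (norm_add_le _ _).trans ((add_le_add s3 s3).trans (le_of_eq ?_))
    ring
  rw [← hGint]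
  have e9 : (∫ θ in (-a)..a, exp (x * ss σ τ) * PP w θ (ss σ τ)) - C * ∫ θ : ℝ, G θ =
      ((∫ θ in (-a)..a, exp (x * ss σ τ) * PP w θ (ss σ τ)) - ∫ θ in (-a)..a, C * G θ) +
      ((∫ θ in (-a)..a, C * G θ) - C * ∫ θ : ℝ, G θ) := by ring
  rw [e9, RinS, mul_add]
  exact (norm_add_le _ _).trans (add_le_add p1 p2)

private theorem sb_outer_pt {w σ τ x θ : ℝ} (hw0 : 0 < w) (hw : w ≤ 1) (hσ : 0 < σ) (hτ : 0 ≤ τ)
    (h1 : Real.pi / 3 ≤ |θ|) (h2 : |θ| ≤ 5 * Real.pi / 12) :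
    ‖exp (x * ss σ τ) * PP w θ (ss σ τ)‖ ≤ ‖exp (x * ss σ τ + VV w / ss σ τ)‖ *
      (Real.exp (epsO σ τ / 2) *
        Real.exp (-((3 / 8 * gR w + τ * gI w / 2) / (σ * (1 + τ ^ 2))))) := by
  obtain ⟨E, hE1, hE2⟩ := PP_window_outer_S hw0 hw hσ hτ h2
  have e2 : exp (x * ss σ τ) * exp (WW w θ / ss σ τ + E) =
      exp (x * ss σ τ + VV w / ss σ τ) * (exp E * exp ((WW w θ - VV w) / ss σ τ)) := by
    rw [← Complex.exp_add, ← Complex.exp_add, ← Complex.exp_add]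
    congr 1
    rw [sub_div]
    ring
  rw [hE1, e2, norm_mul]
  refine mul_le_mul_of_nonneg_left ?_ (norm_nonneg _)
  rw [norm_mul]
  refine mul_le_mul ?_ (norm_exp_WW_outer hw0 hσ hτ h1 h2) (norm_nonneg _) (Real.exp_pos _).le
  rw [Complex.norm_exp]
  exact Real.exp_le_exp.2 ((Complex.re_le_norm E).trans hE2)

private theorem sb_outer {w σ τ x : ℝ} (hw0 : 0 < w) (hw : w ≤ 1) (hσ : 0 < σ) (hτ : 0 ≤ τ) :
    (∫ θ in (Real.pi / 3)..(5 * Real.pi / 12), ‖exp (x * ss σ τ) * PP w θ (ss σ τ)‖) +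
        (∫ θ in (-(5 * Real.pi / 12))..(-(Real.pi / 3)), ‖exp (x * ss σ τ) * PP w θ (ss σ τ)‖) ≤
      ‖exp (x * ss σ τ + VV w / ss σ τ)‖ * RoutS w σ τ := by
  have hpi := Real.pi_pos
  have hPc := wb_continuous_PP w hσ τ
  have hfc : Continuous fun θ : ℝ => ‖exp (x * ss σ τ) * PP w θ (ss σ τ)‖ :=
    (continuous_const.mul hPc).norm
  set D : ℝ := ‖exp (x * ss σ τ + VV w / ss σ τ)‖ *
      (Real.exp (epsO σ τ / 2) *
        Real.exp (-((3 / 8 * gR w + τ * gI w / 2) / (σ * (1 + τ ^ 2))))) with hD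
  have h1 : ∫ θ in (Real.pi / 3)..(5 * Real.pi / 12), ‖exp (x * ss σ τ) * PP w θ (ss σ τ)‖ ≤
      ∫ _θ in (Real.pi / 3)..(5 * Real.pi / 12), D := by
    refine intervalIntegral.integral_mono_on (by linarith) (hfc.intervalIntegrable _ _)
      (by simp) fun θ hθ => ?_
    have h0 : 0 ≤ θ := by linarith [hθ.1]
    exact sb_outer_pt hw0 hw hσ hτ (by rw [abs_of_nonneg h0]; exact hθ.1)
      (by rw [abs_of_nonneg h0]; exact hθ.2)
  have h2 : ∫ θ in (-(5 * Real.pi / 12))..(-(Real.pi / 3)),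
      ‖exp (x * ss σ τ) * PP w θ (ss σ τ)‖ ≤ ∫ _θ in (-(5 * Real.pi / 12))..(-(Real.pi / 3)), D := by
    refine intervalIntegral.integral_mono_on (by linarith) (hfc.intervalIntegrable _ _)
      (by simp) fun θ hθ => ?_
    have h0 : θ ≤ 0 := by linarith [hθ.2]
    exact sb_outer_pt hw0 hw hσ hτ (by rw [abs_of_nonpos h0]; linarith [hθ.2])
      (by rw [abs_of_nonpos h0]; linarith [hθ.1])
  rw [intervalIntegral.integral_const, smul_eq_mul] at h1 h2
  refine (add_le_add h1 h2).trans (le_of_eq ?_)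
  rw [hD, RoutS]
  ring

/-- the trivial pointwise bound -/
private theorem sb_triv_pt {w σ τ x θ : ℝ} (hw0 : 0 < w) (hw : w ≤ 1) (hσ : 0 < σ) (hτ : 0 ≤ τ)
    (h2 : |θ| ≤ 5 * Real.pi / 12) :
    ‖exp (x * ss σ τ) * PP w θ (ss σ τ)‖ ≤ ‖exp (x * ss σ τ + VV w / ss σ τ)‖ *
      Real.exp (epsO σ τ / 2) := by
  obtain ⟨E, hE1, hE2⟩ := PP_window_outer_S hw0 hw hσ hτ h2
  have e2 : exp (x * ss σ τ) * exp (WW w θ / ss σ τ + E) =
      exp (x * ss σ τ + VV w / ss σ τ) * (exp E * exp ((WW w θ - VV w) / ss σ τ)) := by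
    rw [← Complex.exp_add, ← Complex.exp_add, ← Complex.exp_add]
    congr 1
    rw [sub_div]
    ring
  rw [hE1, e2, norm_mul]
  refine mul_le_mul_of_nonneg_left ?_ (norm_nonneg _)
  rw [norm_mul]
  have h3 : ‖exp ((WW w θ - VV w) / ss σ τ)‖ ≤ 1 := by
    have hh0 := wb_hh_pos (τ := τ) hw0 hτ
    have hgR : 0 ≤ gR w := by unfold gR; positivity
    have hgI : 0 ≤ gI w := by unfold gI; positivity
    rcases le_total |θ| (Real.pi / 3) with h | h
    · refine (norm_exp_WW_inner hw0 hσ hτ h).trans ?_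
      rw [Real.exp_le_one_iff, neg_nonpos]
      positivity
    · refine (norm_exp_WW_outer hw0 hσ hτ h h2).trans ?_
      rw [Real.exp_le_one_iff, neg_nonpos]
      positivity
  calc ‖exp E‖ * ‖exp ((WW w θ - VV w) / ss σ τ)‖ ≤ Real.exp (epsO σ τ / 2) * 1 := by
        refine mul_le_mul ?_ h3 (norm_nonneg _) (Real.exp_pos _).le
        rw [Complex.norm_exp]
        exact Real.exp_le_exp.2 ((Complex.re_le_norm E).trans hE2)
    _ = _ := mul_one _

end aux

theorem window_S {w σ τ x : ℝ} (hw0 : 0 < w) (hw : w ≤ 1) (hσ : 0 < σ) (hτ : 0 ≤ τ) :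
    ‖(∫ θ in (-(5 * Real.pi / 12))..(5 * Real.pi / 12), exp (x * ss σ τ) * PP w θ (ss σ τ)) -
        exp (x * ss σ τ + VV w / ss σ τ) * (2 * Real.pi * ss σ τ / gam w) ^ (1 / 2 : ℂ)‖ ≤
      ‖exp (x * ss σ τ + VV w / ss σ τ)‖ * (RinS w σ τ + RoutS w σ τ) := by
  have hpi := Real.pi_pos
  have hPc := wb_continuous_PP w hσ τ
  have hfc : Continuous fun θ : ℝ => exp (x * ss σ τ) * PP w θ (ss σ τ) :=
    continuous_const.mul hPc
  have hi : ∀ a b : ℝ, IntervalIntegrable (fun θ : ℝ => exp (x * ss σ τ) * PP w θ (ss σ τ))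
      volume a b := fun a b => hfc.intervalIntegrable a b
  have s1 := intervalIntegral.integral_add_adjacent_intervals
    (hi (-(5 * Real.pi / 12)) (-(Real.pi / 3))) (hi (-(Real.pi / 3)) (5 * Real.pi / 12))
  have s2 := intervalIntegral.integral_add_adjacent_intervals
    (hi (-(Real.pi / 3)) (Real.pi / 3)) (hi (Real.pi / 3) (5 * Real.pi / 12))
  have t1 := intervalIntegral.norm_integral_le_integral_norm (μ := volume)
    (f := fun θ : ℝ => exp (x * ss σ τ) * PP w θ (ss σ τ))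
    (show -(5 * Real.pi / 12) ≤ -(Real.pi / 3) by linarith)
  have t2 := intervalIntegral.norm_integral_le_integral_norm (μ := volume)
    (f := fun θ : ℝ => exp (x * ss σ τ) * PP w θ (ss σ τ))
    (show Real.pi / 3 ≤ 5 * Real.pi / 12 by linarith)
  have hin := sb_inner (x := x) hw0 hw hσ hτ
  have hout := sb_outer (x := x) hw0 hw hσ hτ
  rw [← s1, ← s2]
  set a : ℂ := ∫ θ in (-(5 * Real.pi / 12))..(-(Real.pi / 3)), exp (x * ss σ τ) * PP w θ (ss σ τ)
    with ha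
  set b : ℂ := ∫ θ in (-(Real.pi / 3))..(Real.pi / 3), exp (x * ss σ τ) * PP w θ (ss σ τ) with hb
  set c : ℂ := ∫ θ in (Real.pi / 3)..(5 * Real.pi / 12), exp (x * ss σ τ) * PP w θ (ss σ τ) with hc
  set g : ℂ := exp (x * ss σ τ + VV w / ss σ τ) * (2 * Real.pi * ss σ τ / gam w) ^ (1 / 2 : ℂ)
    with hg
  have e : a + (b + c) - g = (b - g) + (c + a) := by ring
  rw [e]
  refine (norm_add_le _ _).trans ?_
  have h3 : ‖c + a‖ ≤ ‖c‖ + ‖a‖ := norm_add_le _ _
  rw [mul_add]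
  linarith

theorem window_triv_S {w σ τ x : ℝ} (hw0 : 0 < w) (hw : w ≤ 1) (hσ : 0 < σ) (hτ : 0 ≤ τ) :
    ‖(∫ θ in (-(5 * Real.pi / 12))..(5 * Real.pi / 12), exp (x * ss σ τ) * PP w θ (ss σ τ)) -
        exp (x * ss σ τ + VV w / ss σ τ) * (2 * Real.pi * ss σ τ / gam w) ^ (1 / 2 : ℂ)‖ ≤
      ‖exp (x * ss σ τ + VV w / ss σ τ)‖ * RtrS w σ τ := by
  have hpi := Real.pi_pos
  have hPc := wb_continuous_PP w hσ τ
  have hfc : Continuous fun θ : ℝ => exp (x * ss σ τ) * PP w θ (ss σ τ) :=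
    continuous_const.mul hPc
  have h1 : ‖∫ θ in (-(5 * Real.pi / 12))..(5 * Real.pi / 12), exp (x * ss σ τ) * PP w θ (ss σ τ)‖ ≤
      ‖exp (x * ss σ τ + VV w / ss σ τ)‖ * (5 * Real.pi / 6 * Real.exp (epsO σ τ / 2)) := by
    have hle : -(5 * Real.pi / 12) ≤ 5 * Real.pi / 12 := by linarith
    have q1 := intervalIntegral.norm_integral_le_integral_norm (μ := volume)
      (f := fun θ : ℝ => exp (x * ss σ τ) * PP w θ (ss σ τ)) hle
    have q2 := intervalIntegral.integral_mono_on (μ := volume) hle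
      (hfc.norm.intervalIntegrable _ _)
      (g := fun _ : ℝ => ‖exp (x * ss σ τ + VV w / ss σ τ)‖ * Real.exp (epsO σ τ / 2)) (by simp)
      (fun θ hθ => sb_triv_pt (x := x) hw0 hw hσ hτ (θ := θ) (abs_le.2 ⟨hθ.1, hθ.2⟩))
    rw [intervalIntegral.integral_const, smul_eq_mul] at q2
    refine q1.trans (q2.trans (le_of_eq ?_))
    ring
  have h2 : ‖(2 * Real.pi * ss σ τ / gam w) ^ (1 / 2 : ℂ)‖ =
      Real.sqrt (2 * Real.pi * ‖ss σ τ‖ / ‖gam w‖) := by
    have hne : 2 * Real.pi * ss σ τ / gam w ≠ 0 := by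
      have h2 := wb_gam_ne hw0
      have h3 := wb_ss_ne (τ := τ) hσ
      have h4 : (Real.pi : ℂ) ≠ 0 := by exact_mod_cast hpi.ne'
      exact div_ne_zero (mul_ne_zero (mul_ne_zero two_ne_zero h4) h3) h2
    have e : (1 / 2 : ℂ) = ((1 / 2 : ℝ) : ℂ) := by push_cast; rfl
    rw [e, Complex.norm_cpow_real, norm_div, norm_mul, norm_mul, Complex.norm_real,
      Real.norm_of_nonneg hpi.le, Real.sqrt_eq_rpow]
    norm_num
  refine (norm_sub_le _ _).trans ?_
  rw [norm_mul, h2, RtrS, mul_add]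
  linarith

end Pool.Agent.Lib.Durfee
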