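import Pool.Agent.Lib.MP_9393b1_co.SpecS
import Pool.Agent.Lib.MP_9393b1_co.WinSB

/-! # Regime S (`w ≤ 1`, `k ≥ 11`): hypotheses and first consequences -/

set_option autoImplicit false

namespace Pool.Agent.Lib.Durfee

open Complex MeasureTheory Filter Topology

/-- Hypotheses of regime S. -/
structure HypS (n k : ℕ) (w : ℝ) : Prop where
  hn : 10 ^ 4 ≤ n
  hw0 : 0 < w
  hw1 : w ≤ 1
  hk : 11 ≤ k
  hb : bb w = k * Real.pi / (2 * Real.sqrt n)

namespace HypS

variable {n k : ℕ} {w : ℝ}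

private theorem hn1 (h : HypS n k w) : (10:ℝ) ^ 4 ≤ n := by
  have := h.hn
  have h1 : ((10 ^ 4 : ℕ) : ℝ) ≤ n := by exact_mod_cast this
  push_cast at h1
  linarith

private theorem hn0 (h : HypS n k w) : (0:ℝ) < n :=
  lt_of_lt_of_le (by norm_num) h.hn1

private theorem hR0 (h : HypS n k w) : 0 < Real.sqrt n := Real.sqrt_pos.2 h.hn0

private theorem P_pos (h : HypS n k w) : 0 < PPn n w := mul_pos h.hR0 (aa_pos h.hw0)

theorem R_ge (h : HypS n k w) : 100 ≤ Real.sqrt n := by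
  apply Real.le_sqrt_of_sq_le
  have := h.hn1
  linarith

theorem sg_pos (h : HypS n k w) : 0 < sg n w := div_pos (aa_pos h.hw0) h.hR0

theorem P_mul_ts (h : HypS n k w) : PPn n w * ts w = k * Real.pi / 2 := by
  have ha := aa_pos h.hw0
  have hR := h.hR0
  have hb := h.hb
  unfold PPn ts
  rw [hb]
  field_simp

private theorem P_mul_ts_ge (h : HypS n k w) : 1727 / 100 ≤ PPn n w * ts w := by
  rw [h.P_mul_ts]
  have hk : (11:ℝ) ≤ k := by exact_mod_cast h.hk
  have hpi := Real.pi_gt_d6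
  nlinarith

theorem P_ge (h : HypS n k w) : 1727 / 100 ≤ PPn n w := by
  have h1 := h.P_mul_ts_ge
  have h2 := ts_lt_one h.hw0
  have h3 := h.P_pos
  nlinarith

theorem P_mul_ts_sq (h : HypS n k w) : 124 / 10 ≤ PPn n w * ts w ^ 2 := by
  have h1 := h.P_mul_ts_ge
  have h2 := ts_ge_small h.hw0 h.hw1
  have h3 : 23 / 32 ≤ ts w := by
    have := h.hw1
    linarith
  have h4 : PPn n w * ts w ^ 2 = PPn n w * ts w * ts w := by ring
  rw [h4]
  calc (124 / 10 : ℝ) ≤ 1727 / 100 * (23 / 32) := by norm_num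
    _ ≤ _ := by gcongr

/-- `w ≤ (P/100)²` -/
theorem w_le (h : HypS n k w) : 10 ^ 4 * w ≤ PPn n w ^ 2 := by
  have h1 := le_aa_sq h.hw0 h.hw1
  have h2 := h.hn1
  have h3 := h.hw0
  unfold PPn
  rw [mul_pow, Real.sq_sqrt h.hn0.le]
  gcongr

/-- `n w ≤ P²` -/
theorem n_mul_w_le (h : HypS n k w) : n * w ≤ PPn n w ^ 2 := by
  have h1 := le_aa_sq h.hw0 h.hw1
  have h2 := h.hn0
  unfold PPn
  rw [mul_pow, Real.sq_sqrt h.hn0.le]
  gcongr

theorem sg_mul_P (h : HypS n k w) : sg n w * PPn n w = aa w ^ 2 := by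
  have hR := h.hR0
  unfold sg PPn
  field_simp

/-- `σ/w ≤ (1 + 9w/32)/P` -/
theorem sg_div_w_le (h : HypS n k w) : sg n w / w * PPn n w ≤ 1 + 9 / 32 * w := by
  have h1 := aa_sq_le_small h.hw0 h.hw1
  have h2 := h.sg_mul_P
  have h3 := h.hw0
  rw [div_mul_eq_mul_div, h2, div_le_iff₀ h3]
  linarith

theorem le_sg_div_w (h : HypS n k w) : 1 ≤ sg n w / w * PPn n w := by
  have h1 := le_aa_sq h.hw0 h.hw1
  have h2 := h.sg_mul_P
  have h3 := h.hw0
  rw [div_mul_eq_mul_div, h2, le_div_iff₀ h3]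
  linarith

theorem sg_le (h : HypS n k w) : sg n w ≤ 114 / 10000 := by
  have h1 := aa_sq_le_small h.hw0 h.hw1
  have h2 := h.hw0
  have h3 := h.hw1
  have h4 : aa w ≤ 114 / 100 := by
    apply le_of_sq_le_sq _ (by norm_num)
    nlinarith
  have h5 := h.R_ge
  unfold sg
  rw [div_le_iff₀ h.hR0]
  linarith

theorem sg_le' (h : HypS n k w) : sg n w ≤ 129 / 10 ^ 6 * PPn n w := by
  have h1 := aa_sq_le_small h.hw0 h.hw1
  have h2 := h.hw0
  have h3 := h.hw1
  have h4 := h.sg_mul_P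
  have h5 := h.P_pos
  have h6 := h.w_le
  have h7 : sg n w * PPn n w ≤ 129 / 10 ^ 6 * PPn n w * PPn n w := by
    rw [h4]
    have h8 : w * (1 + 9 / 32 * w) ≤ w * (41 / 32) := by
      gcongr
      linarith
    have h9 : 129 / 10 ^ 6 * PPn n w * PPn n w = 129 / 10 ^ 6 * PPn n w ^ 2 := by ring
    rw [h9]
    nlinarith
  exact le_of_mul_le_mul_right h7 h5

theorem Kn_nonneg (h : HypS n k w) : 0 ≤ Kn n w := by
  have h1 := h.P_pos
  have hpi := Real.pi_pos
  unfold Kn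
  positivity

private theorem hypS_norm_VV_pos {w : ℝ} (hw : 0 < w) : 0 < ‖VV w‖ := by
  rw [norm_VV hw]
  have := aa_pos hw
  positivity

private theorem Kn_le_aux (h : HypS n k w) :
    Kn n w ≤ PPn n w / (2 * Real.pi) * Real.sqrt 2 := by
  have h1 := h.P_pos
  have hpi := Real.pi_pos
  have h2 := norm_gam_le_VV h.hw0 h.hw1
  have h3 := hypS_norm_VV_pos h.hw0
  unfold Kn
  have h4 : 2 * ‖gam w‖ / ‖VV w‖ ≤ 2 := by
    rw [div_le_iff₀ h3]
    linarith
  gcongr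

theorem Kn_le (h : HypS n k w) : Kn n w ≤ 2251 / 10000 * PPn n w := by
  have h1 := h.P_pos
  have hpi := Real.pi_pos
  have hpi2 := Real.pi_gt_d6
  refine h.Kn_le_aux.trans ?_
  have h2 : Real.sqrt 2 ≤ 14143 / 10000 := by
    rw [Real.sqrt_le_left (by norm_num)]
    norm_num
  have h3 : PPn n w / (2 * Real.pi) * Real.sqrt 2 =
      Real.sqrt 2 / (2 * Real.pi) * PPn n w := by ring
  rw [h3]
  have h4 : Real.sqrt 2 / (2 * Real.pi) ≤ 2251 / 10000 := by
    rw [div_le_iff₀ (by positivity)]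
    linarith
  gcongr

/-- `∫_c^d E ≤ √(π(1+d²)/P)` -/
theorem integral_Ew_le (h : HypS n k w) {c d : ℝ} (hc : 0 ≤ c) (hcd : c ≤ d) :
    ∫ τ in c..d, Ew n w τ ≤ Real.sqrt (Real.pi * (1 + d ^ 2) / PPn n w) := by
  have hP := h.P_pos
  set b := PPn n w / (1 + d ^ 2) with hb
  have hb0 : 0 < b := by positivity
  have h1 : ∫ τ : ℝ, Real.exp (-b * (τ - ts w) ^ 2) = Real.sqrt (Real.pi / b) := by
    rw [integral_sub_right_eq_self (fun τ : ℝ => Real.exp (-b * τ ^ 2)) (ts w)]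
    exact integral_gaussian b
  have h2 : Real.pi * (1 + d ^ 2) / PPn n w = Real.pi / b := by
    rw [hb]
    field_simp
  rw [h2, ← h1]
  have hint : Integrable (fun τ : ℝ => Real.exp (-b * (τ - ts w) ^ 2)) :=
    (integrable_exp_neg_mul_sq hb0).comp_sub_right (ts w)
  have hcont : Continuous (fun τ : ℝ => Ew n w τ) := by
    unfold Ew
    refine Real.continuous_exp.comp (Continuous.neg ?_)
    refine Continuous.div (by fun_prop) (by fun_prop) (fun τ => by positivity)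
  have hcont2 : Continuous (fun τ : ℝ => Real.exp (-b * (τ - ts w) ^ 2)) := by fun_prop
  calc ∫ τ in c..d, Ew n w τ ≤ ∫ τ in c..d, Real.exp (-b * (τ - ts w) ^ 2) := by
        apply intervalIntegral.integral_mono_on hcd (hcont.intervalIntegrable _ _)
          (hcont2.intervalIntegrable _ _)
        intro τ hτ
        unfold Ew
        apply Real.exp_le_exp.2
        rw [neg_mul, neg_le_neg_iff, hb, div_mul_eq_mul_div]
        have h3 : τ ^ 2 ≤ d ^ 2 := pow_le_pow_left₀ (hc.trans hτ.1) hτ.2 2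
        gcongr
    _ = ∫ τ in Set.Ioc c d, Real.exp (-b * (τ - ts w) ^ 2) := by
        rw [intervalIntegral.integral_of_le hcd]
    _ ≤ ∫ τ : ℝ, Real.exp (-b * (τ - ts w) ^ 2) := by
        apply setIntegral_le_integral hint
        filter_upwards with τ
        positivity

/-- `Kn ∫_c^d E ≤ √(P(1+d²)/(2π))` -/
theorem Kn_mul_integral_Ew_le (h : HypS n k w) {c d : ℝ} (hc : 0 ≤ c) (hcd : c ≤ d) :
    Kn n w * ∫ τ in c..d, Ew n w τ ≤ Real.sqrt (PPn n w * (1 + d ^ 2) / (2 * Real.pi)) := by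
  have hP := h.P_pos
  have hpi := Real.pi_pos
  have h1 := h.integral_Ew_le hc hcd
  have hK := h.Kn_nonneg
  have hK2 := h.Kn_le_aux
  calc Kn n w * ∫ τ in c..d, Ew n w τ
      ≤ Kn n w * Real.sqrt (Real.pi * (1 + d ^ 2) / PPn n w) := by gcongr
    _ ≤ PPn n w / (2 * Real.pi) * Real.sqrt 2 *
          Real.sqrt (Real.pi * (1 + d ^ 2) / PPn n w) := by gcongr
    _ ≤ _ := by
        apply Real.le_sqrt_of_sq_le
        rw [mul_pow, mul_pow, Real.sq_sqrt (by positivity), Real.sq_sqrt (by positivity)]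
        apply le_of_eq
        field_simp

/-- `q σ/w ≤ 0.0089` -/
theorem qx_le (h : HypS n k w) : qq w * (sg n w / w) ≤ 89 / 10000 := by
  have hP := h.P_pos
  have hP2 := h.P_ge
  have hw := h.hw0
  have hw1 := h.hw1
  have hx := h.sg_div_w_le
  have hs := h.sg_pos
  have hx0 : 0 < sg n w / w := by positivity
  set x := sg n w / w with hxdef
  have hq1 : qq w ≤ 1 / 12 + 17 / 20 * w := min_le_left _ _
  have hq2 : qq w ≤ 7 / 12 := min_le_right _ _
  rcases le_total w (3 / 100) with h3 | h3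
  · have h4 : qq w ≤ 109 / 1000 := by linarith
    have h5 : x * (1727 / 100) ≤ 1 + 9 / 32 * w := le_trans (by gcongr) hx
    have h6 : x ≤ 6 / 100 := by linarith
    calc qq w * x ≤ 109 / 1000 * (6 / 100) := by gcongr
      _ ≤ _ := by norm_num
  · set t := Real.sqrt w with ht
    have ht2 : t ^ 2 = w := Real.sq_sqrt hw.le
    have ht0 : 0 < t := Real.sqrt_pos.2 hw
    have ht1 : t ≤ 1 := by
      rw [ht]
      exact Real.sqrt_le_one.2 hw1
    have ht3 : 17 / 100 ≤ t := by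
      apply Real.le_sqrt_of_sq_le
      norm_num
      linarith
    have h4 : 100 * t ≤ PPn n w := by
      apply le_of_sq_le_sq _ hP.le
      rw [mul_pow, ht2]
      have := h.w_le
      linarith
    have h5 : x * (100 * t) ≤ 1 + 9 / 32 * w := le_trans (by gcongr) hx
    rw [← ht2] at h5
    have hq1' : qq w ≤ 1 / 12 + 17 / 20 * t ^ 2 := by
      rw [ht2]
      exact hq1
    have key : ∀ q : ℝ, 0 ≤ q → q * (1 + 9 / 32 * t ^ 2) ≤ 89 / 100 * t → qq w ≤ q →
        qq w * x ≤ 89 / 10000 := by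
      intro q hq0 hq3 hq4
      have h6 : qq w * x ≤ q * x := by gcongr
      refine h6.trans ?_
      have h7 : q * x * (100 * t) ≤ 89 / 10000 * (100 * t) := by
        calc q * x * (100 * t) = q * (x * (100 * t)) := by ring
          _ ≤ q * (1 + 9 / 32 * t ^ 2) := by gcongr
          _ ≤ 89 / 100 * t := hq3
          _ = _ := by ring
      exact le_of_mul_le_mul_right h7 (by positivity)
    rcases le_total t (7672 / 10000) with h6 | h6
    · refine key (1 / 12 + 17 / 20 * t ^ 2) (by positivity) ?_ hq1'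
      have h7 : 0 ≤ (t - 17 / 100) * (7672 / 10000 - t) :=
        mul_nonneg (by linarith) (by linarith)
      have h8 : 0 ≤ (t ^ 2 - (17 / 100) ^ 2) * ((7672 / 10000) ^ 2 - t ^ 2) := by
        apply mul_nonneg
        · nlinarith
        · nlinarith
      nlinarith
    · refine key (7 / 12) (by norm_num) ?_ hq2
      have h7 : 0 ≤ (t - 7672 / 10000) * (1 - t) := mul_nonneg (by linarith) (by linarith)
      nlinarith

end HypS

/-- lower bounds for `hh` -/
theorem hh_ge_of_le_one {w τ : ℝ} (hw : 0 < w) (hw1 : w ≤ 1) (hτ : 0 ≤ τ) (hτ1 : τ ≤ 1) :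
    2 * τ / (1 + τ ^ 2) * w ≤ hh w τ := by
  unfold hh gR gI
  have h1 : 0 < 1 + w ^ 2 := by positivity
  have h2 : 0 < 1 + τ ^ 2 := by positivity
  have h3 : (2 * w ^ 2 / (1 + w ^ 2) + τ * (2 * w / (1 + w ^ 2))) / (1 + τ ^ 2) =
      2 * w * (w + τ) / (1 + w ^ 2) / (1 + τ ^ 2) := by
    field_simp
  rw [h3, div_mul_eq_mul_div, div_le_div_iff_of_pos_right h2, le_div_iff₀ h1]
  have h4 : 0 ≤ w * (w * (1 - τ * w)) := by
    have : τ * w ≤ 1 := by nlinarith
    have : 0 ≤ 1 - τ * w := by linarith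
    positivity
  nlinarith

theorem hh_ge_of_one_le {w τ : ℝ} (hw : 0 < w) (hw1 : w ≤ 1) (hτ1 : 1 ≤ τ) :
    (1 + τ) / (1 + τ ^ 2) * w ≤ hh w τ := by
  unfold hh gR gI
  have h1 : 0 < 1 + w ^ 2 := by positivity
  have h2 : 0 < 1 + τ ^ 2 := by positivity
  have h3 : (2 * w ^ 2 / (1 + w ^ 2) + τ * (2 * w / (1 + w ^ 2))) / (1 + τ ^ 2) =
      2 * w * (w + τ) / (1 + w ^ 2) / (1 + τ ^ 2) := by
    field_simp
  rw [h3, div_mul_eq_mul_div, div_le_div_iff_of_pos_right h2, le_div_iff₀ h1]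
  have h4 : 0 ≤ w * ((1 - w) * ((τ - 1) + w * (τ + 1))) := by
    have h5 : 0 ≤ 1 - w := by linarith
    have h6 : 0 ≤ τ - 1 := by linarith
    positivity
  nlinarith

/-- lower bounds for the exponent of `RoutS` -/
theorem ho_ge_of_le {w τ : ℝ} (hw : 0 < w) (hw1 : w ≤ 1) (hτ : 0 ≤ τ) (hτ1 : τ ≤ 3 / 4) :
    τ / (1 + τ ^ 2) * w ≤ (3 / 8 * gR w + τ * gI w / 2) / (1 + τ ^ 2) := by
  unfold gR gI
  have h1 : 0 < 1 + w ^ 2 := by positivity
  have h2 : 0 < 1 + τ ^ 2 := by positivity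
  have h3 : (3 / 8 * (2 * w ^ 2 / (1 + w ^ 2)) + τ * (2 * w / (1 + w ^ 2)) / 2) / (1 + τ ^ 2) =
      w * (τ + 3 / 4 * w) / (1 + w ^ 2) / (1 + τ ^ 2) := by
    field_simp
    ring
  rw [h3, div_mul_eq_mul_div, div_le_div_iff_of_pos_right h2, le_div_iff₀ h1]
  have h4 : 0 ≤ w * (w * (3 / 4 - τ * w)) := by
    have : τ * w ≤ 3 / 4 := by nlinarith
    have : 0 ≤ 3 / 4 - τ * w := by linarith
    positivity
  nlinarith

theorem ho_ge_of_ge {w τ : ℝ} (hw : 0 < w) (hw1 : w ≤ 1) (hτ1 : 3 / 4 ≤ τ) :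
    (τ + 3 / 4) / (2 * (1 + τ ^ 2)) * w ≤ (3 / 8 * gR w + τ * gI w / 2) / (1 + τ ^ 2) := by
  unfold gR gI
  have h1 : 0 < 1 + w ^ 2 := by positivity
  have h2 : 0 < 1 + τ ^ 2 := by positivity
  have h3 : (3 / 8 * (2 * w ^ 2 / (1 + w ^ 2)) + τ * (2 * w / (1 + w ^ 2)) / 2) / (1 + τ ^ 2) =
      w * (τ + 3 / 4 * w) / (1 + w ^ 2) / (1 + τ ^ 2) := by
    field_simp
    ring
  have h3' : (τ + 3 / 4) / (2 * (1 + τ ^ 2)) * w = (τ + 3 / 4) * w / 2 / (1 + τ ^ 2) := by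
    field_simp
  rw [h3, h3', div_le_div_iff_of_pos_right h2, le_div_iff₀ h1]
  have h4 : 0 ≤ w * ((1 - w) * ((τ - 3 / 4) + w * (τ + 3 / 4))) := by
    have h5 : 0 ≤ 1 - w := by linarith
    have h6 : 0 ≤ τ - 3 / 4 := by linarith
    positivity
  nlinarith

end Pool.Agent.Lib.Durfee
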