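import Pool.Agent.Lib.MP_9393b1_co.Repr
import Pool.Agent.Lib.MP_9393b1_co.WinB
import Pool.Agent.Lib.MP_9393b1_co.ModA
import Pool.Agent.Lib.MP_9393b1_co.OffBase

/-! # Regime M: splitting of the integral -/

set_option autoImplicit false

namespace Pool.Agent.Lib.Durfee

open Complex MeasureTheory Filter Topology

variable {n : ℕ} {w : ℝ}

section split

/-- the integrand -/
private noncomputable def gC (n : ℕ) (w θ τ : ℝ) : ℂ :=
  exp (n * ss (sg n w) τ) * PP w θ (ss (sg n w) τ)

private theorem gC_cont (H : HypM n w) : Continuous (fun p : ℝ × ℝ => gC n w p.2 p.1) := by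
  have hσ := H.sg_pos
  have h1 : Continuous fun p : ℝ × ℝ => ((p.2, sg n w * p.1) : ℝ × ℝ) := by fun_prop
  have h2 := (continuous_PP w hσ).comp h1
  have h3 : Continuous fun p : ℝ × ℝ => exp (n * ss (sg n w) p.1) := by
    unfold ss
    fun_prop
  exact h3.mul h2

private theorem gC_cont_theta (H : HypM n w) (τ : ℝ) : Continuous (fun θ : ℝ => gC n w θ τ) := by
  have h1 : Continuous fun θ : ℝ => ((τ, θ) : ℝ × ℝ) := by fun_prop
  have h2 := (gC_cont H).comp h1
  exact h2

private theorem n_mul_sg : (n : ℝ) * sg n w = PPn n w := by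
  unfold sg PPn
  have h8 : (n : ℝ) / Real.sqrt n = Real.sqrt n := Real.div_sqrt
  calc (n : ℝ) * (aa w / Real.sqrt n) = (n : ℝ) / Real.sqrt n * aa w := by ring
    _ = _ := by rw [h8]

private theorem gC_norm (θ τ : ℝ) :
    ‖gC n w θ τ‖ = Real.exp (2 * PPn n w) * NP n w θ τ := by
  have h1 : ((n : ℂ) * ss (sg n w) τ).re = PPn n w := by
    rw [← n_mul_sg (n := n) (w := w)]
    simp [ss]
  unfold gC NP
  rw [norm_mul, Complex.norm_exp, h1, ← mul_assoc, ← Real.exp_add]
  congr 2
  ring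

/-- the integral over an interval in `θ` is continuous in `τ` -/
private theorem gC_int_cont (H : HypM n w) (a b : ℝ) :
    Continuous fun τ : ℝ => ∫ θ in a..b, gC n w θ τ :=
  intervalIntegral.continuous_parametric_intervalIntegral_of_continuous'
    (f := fun τ θ => gC n w θ τ) (gC_cont H) a b

private theorem gC_re_int_cont (H : HypM n w) (a b : ℝ) :
    Continuous fun τ : ℝ => ∫ θ in a..b, (gC n w θ τ).re :=
  intervalIntegral.continuous_parametric_intervalIntegral_of_continuous'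
    (f := fun τ θ => (gC n w θ τ).re) (Complex.continuous_re.comp (gC_cont H)) a b

private theorem NP_int_cont (H : HypM n w) (a b : ℝ) :
    Continuous fun τ : ℝ => ∫ θ in a..b, NP n w θ τ := by
  have h1 : Continuous fun p : ℝ × ℝ => ((p.2, p.1) : ℝ × ℝ) := by fun_prop
  have h2 := (continuous_NP H).comp h1
  exact intervalIntegral.continuous_parametric_intervalIntegral_of_continuous'
    (f := fun τ θ => NP n w θ τ) h2 a b

private theorem abs_re_int_le (H : HypM n w) {a b : ℝ} (hab : a ≤ b) (τ : ℝ) :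
    |∫ θ in a..b, (gC n w θ τ).re| ≤ ∫ θ in a..b, ‖gC n w θ τ‖ := by
  have h := intervalIntegral.norm_integral_le_of_norm_le (μ := volume) hab
    (f := fun θ => (gC n w θ τ).re) (g := fun θ => ‖gC n w θ τ‖)
    (Eventually.of_forall fun θ _ => by
      rw [Real.norm_eq_abs]
      exact Complex.abs_re_le_norm _)
    ((gC_cont_theta H τ).norm.intervalIntegrable _ _)
  rwa [Real.norm_eq_abs] at h

private theorem int_norm_eq (a b τ : ℝ) :
    ∫ θ in a..b, ‖gC n w θ τ‖ = Real.exp (2 * PPn n w) * ∫ θ in a..b, NP n w θ τ := by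
  rw [← intervalIntegral.integral_const_mul]
  refine intervalIntegral.integral_congr fun θ _ => ?_
  exact gC_norm θ τ

/-- integral in `τ` of a real function bounded by a continuous one -/
private theorem abs_int_le {a b : ℝ} (hab : a ≤ b) {f g : ℝ → ℝ}
    (hg : ContinuousOn g (Set.Icc a b)) (h : ∀ t ∈ Set.Icc a b, |f t| ≤ g t) :
    |∫ t in a..b, f t| ≤ ∫ t in a..b, g t := by
  have h1 := intervalIntegral.norm_integral_le_of_norm_le (μ := volume) hab (f := f) (g := g)
    (Eventually.of_forall fun t ht => by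
      rw [Real.norm_eq_abs]
      exact h t ⟨ht.1.le, ht.2⟩)
    (hg.intervalIntegrable_of_Icc hab)
  rwa [Real.norm_eq_abs] at h1

private theorem saddle_norm (hw : 0 < w) (hn : 1 ≤ n) (τ : ℝ) :
    ‖exp (n * ss (sg n w) τ + VV w / ss (sg n w) τ)‖ = Real.exp (2 * PPn n w) * Ew n w τ := by
  have h := norm_exp_saddle hw hn τ
  unfold sg Ew PPn ts
  rw [h, ← Real.exp_add]
  congr 1

private theorem Ew_cont : Continuous fun τ : ℝ => Ew n w τ := by
  unfold Ew
  refine Real.continuous_exp.comp (Continuous.neg ?_)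
  exact Continuous.div (by fun_prop) (by fun_prop) fun τ => by positivity

private theorem hh_cont : Continuous fun τ : ℝ => hh w τ := by
  unfold hh
  exact Continuous.div (by fun_prop) (by fun_prop) fun τ => by positivity

private theorem Rin_cont (hw : 0 < w) {σ : ℝ} (_hσ : 0 < σ) (T : ℝ) :
    ContinuousOn (fun τ : ℝ => Rin w σ τ) (Set.Icc 0 T) := by
  have hhc := (hh_cont (w := w)).continuousOn (s := Set.Icc 0 T)
  have hpos : ∀ τ ∈ Set.Icc (0 : ℝ) T, 0 < hh w τ := fun τ hτ => wb_hh_pos hw hτ.1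
  have c1 : ContinuousOn (fun τ : ℝ => 2 * Real.pi * σ / (6839 / 10000 * hh w τ))
      (Set.Icc 0 T) := by
    refine continuousOn_const.div (continuousOn_const.mul hhc) fun τ hτ => ?_
    have := hpos τ hτ
    positivity
  have c2 : ContinuousOn (fun τ : ℝ => 7 / 4 * σ / (6839 / 10000 * hh w τ) ^ 2)
      (Set.Icc 0 T) := by
    refine continuousOn_const.div ((continuousOn_const.mul hhc).pow 2) fun τ hτ => ?_
    have := hpos τ hτ
    positivity
  have c3 : ContinuousOn (fun τ : ℝ => 2 * Real.pi * σ / hh w τ) (Set.Icc 0 T) :=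
    continuousOn_const.div hhc fun τ hτ => (hpos τ hτ).ne'
  have c4 : Continuous fun τ : ℝ => epsI σ τ := by
    unfold epsI
    fun_prop
  have c5 : ContinuousOn (fun τ : ℝ => Real.exp (-(hh w τ * (Real.pi / 3) ^ 2 / (2 * σ))))
      (Set.Icc 0 T) := by
    refine Real.continuous_exp.comp_continuousOn (ContinuousOn.neg ?_)
    exact (hhc.mul continuousOn_const).div_const _
  unfold Rin
  exact (c1.sqrt.mul ((c4.continuousOn.mul
    (Real.continuous_exp.comp c4).continuousOn).add c2)).add (c3.sqrt.mul c5)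

private theorem Rout_cont {σ : ℝ} (hσ : 0 < σ) : Continuous fun τ : ℝ => Rout w σ τ := by
  unfold Rout
  refine Continuous.mul ?_ ?_
  · refine continuous_const.mul (Real.continuous_exp.comp ?_)
    unfold epsO
    fun_prop
  · refine Real.continuous_exp.comp (Continuous.neg ?_)
    exact Continuous.div (by fun_prop) (by fun_prop) fun τ => by positivity

/-- the model integrand -/
private noncomputable def Jm (n : ℕ) (w τ : ℝ) : ℂ :=
  exp (n * ss (sg n w) τ + VV w / ss (sg n w) τ) *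
    (2 * Real.pi * ss (sg n w) τ / gam w) ^ (1 / 2 : ℂ)

private theorem Jm_cont (hw : 0 < w) (hσ : 0 < sg n w) (T : ℝ) :
    ContinuousOn (fun τ : ℝ => Jm n w τ) (Set.Icc 0 T) := by
  have hsc : Continuous fun τ : ℝ => ss (sg n w) τ := by
    unfold ss
    fun_prop
  have hne : ∀ τ, ss (sg n w) τ ≠ 0 := fun τ => wb_ss_ne hσ
  unfold Jm
  refine ContinuousOn.mul ?_ ?_
  · refine Complex.continuous_exp.comp_continuousOn ?_
    exact ((continuous_const.mul hsc).add (continuous_const.div hsc hne)).continuousOn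
  · refine ContinuousOn.cpow_const ?_ ?_
    · exact ((continuous_const.mul hsc).div_const _).continuousOn
    · intro τ hτ
      left
      have h1 := wb_re_gam (w := w) (τ := τ) hσ
      have h2 := wb_hh_pos (τ := τ) hw hτ.1
      have h3 : 0 < (gam w / ss (sg n w) τ).re := by
        rw [h1]
        positivity
      have h4 : 2 * Real.pi * ss (sg n w) τ / gam w =
          ((2 * Real.pi : ℝ) : ℂ) * (gam w / ss (sg n w) τ)⁻¹ := by
        rw [inv_div]
        push_cast
        ring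
      rw [h4, Complex.re_ofReal_mul, Complex.inv_re]
      have h5 : 0 < Complex.normSq (gam w / ss (sg n w) τ) := by
        rw [Complex.normSq_pos]
        exact div_ne_zero (wb_gam_ne hw) (hne τ)
      have hpi := Real.pi_pos
      positivity

end split

/-- the integral in the variable `τ`, normalised -/
theorem Dval_split (H : HypM n w) :
    |Dval n (w ^ 2) - (Mcx n w).re| ≤ Mamp n w *
      (Kn n w * (∫ τ in (0 : ℝ)..(TT w), Ew n w τ * Rin w (sg n w) τ) +
        Kn n w * (∫ τ in (0 : ℝ)..(TT w), Ew n w τ * Rout w (sg n w) τ) +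
        eMod n w (TT w) +
        Kn n w * (∫ τ in (0 : ℝ)..(TT w),
          ((∫ θ in (5 * Real.pi / 12)..Real.pi, NP n w θ τ) +
            ∫ θ in (-Real.pi)..(-(5 * Real.pi / 12)), NP n w θ τ)) +
        Kn n w * (∫ τ in (TT w)..(4 : ℝ), ∫ θ in (-Real.pi)..Real.pi, NP n w θ τ) +
        Kn n w * ∫ τ in (4 : ℝ)..(Real.pi / sg n w), ∫ θ in (-Real.pi)..Real.pi, NP n w θ τ) := by
  have hσ := H.sg_pos
  have hw0 : 0 < w := by linarith [H.hw]
  have hn1 : 1 ≤ n := le_trans (by norm_num) H.hn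
  have hpi := Real.pi_pos
  have hT0 := H.TT_pos
  have hT4 : TT w ≤ 4 := H.TT_le.trans (by norm_num)
  have h4π : 4 ≤ Real.pi / sg n w := by
    rw [le_div_iff₀ hσ, mul_comm]
    exact H.sg_mul_TT_le_pi
  obtain ⟨T, hT⟩ : ∃ T, T = TT w := ⟨_, rfl⟩
  obtain ⟨P, hP⟩ : ∃ P, P = PPn n w := ⟨_, rfl⟩
  obtain ⟨c, hc⟩ : ∃ c : ℝ, c = sg n w / (2 * Real.pi ^ 2) := ⟨_, rfl⟩
  have hc0 : 0 < c := by rw [hc]; positivity
  have hKM : Kn n w * Mamp n w = c * Real.exp (2 * P) := by
    rw [Kn_mul_Mamp hn1 hw0, hc, hP]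
  rw [← hT] at hT0 hT4 ⊢
  have hTL : T * Real.log w ≤ 3 * Real.pi / 4 := by rw [hT]; exact H.TT_mul_log
  have hlog := H.log_nonneg
  -- the double integral
  obtain ⟨G, hG⟩ : ∃ G : ℝ → ℝ, G = fun τ => ∫ θ in (-Real.pi)..Real.pi, (gC n w θ τ).re :=
    ⟨_, rfl⟩
  have hGc : Continuous G := by rw [hG]; exact gC_re_int_cont H _ _
  have hD : Dval n (w ^ 2) = c * ∫ τ in (0 : ℝ)..(Real.pi / sg n w), G τ := by
    have h0 := Dval_eq_double_integral hn1 w hσ
    have h1 := intervalIntegral.integral_comp_mul_left (a := 0) (b := Real.pi / sg n w)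
      (f := fun β : ℝ => ∫ θ in (-Real.pi)..Real.pi,
        (exp (n * ((sg n w : ℂ) + β * I)) * PP w θ ((sg n w : ℂ) + β * I)).re) hσ.ne'
    rw [mul_zero, mul_div_cancel₀ _ hσ.ne', smul_eq_mul] at h1
    have h2 : (∫ τ in (0 : ℝ)..(Real.pi / sg n w), G τ) = (sg n w)⁻¹ *
        ∫ β in (0 : ℝ)..Real.pi, ∫ θ in (-Real.pi)..Real.pi,
        (exp (n * ((sg n w : ℂ) + β * I)) * PP w θ ((sg n w : ℂ) + β * I)).re := by
      rw [← h1, hG]
      rfl
    rw [h0, h2, hc]
    generalize (∫ β in (0 : ℝ)..Real.pi, ∫ θ in (-Real.pi)..Real.pi,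
        (exp (n * ((sg n w : ℂ) + β * I)) * PP w θ ((sg n w : ℂ) + β * I)).re) = X
    have hs0 : sg n w ≠ 0 := hσ.ne'
    field_simp
  have hsplit : (∫ τ in (0 : ℝ)..(Real.pi / sg n w), G τ) =
      (∫ τ in (0 : ℝ)..T, G τ) + (∫ τ in T..4, G τ) + ∫ τ in (4 : ℝ)..(Real.pi / sg n w), G τ := by
    rw [intervalIntegral.integral_add_adjacent_intervals (hGc.intervalIntegrable _ _)
      (hGc.intervalIntegrable _ _), intervalIntegral.integral_add_adjacent_intervals
      (hGc.intervalIntegrable _ _) (hGc.intervalIntegrable _ _)]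
  -- splitting in theta
  obtain ⟨In, hIn⟩ : ∃ In : ℝ → ℂ, In = fun τ => ∫ θ in (-(Real.pi / 3))..(Real.pi / 3),
    gC n w θ τ := ⟨_, rfl⟩
  obtain ⟨O, hO⟩ : ∃ O : ℝ → ℝ, O = fun τ =>
    (∫ θ in (Real.pi / 3)..(5 * Real.pi / 12), (gC n w θ τ).re) +
      ∫ θ in (-(5 * Real.pi / 12))..(-(Real.pi / 3)), (gC n w θ τ).re := ⟨_, rfl⟩
  obtain ⟨B, hB⟩ : ∃ B : ℝ → ℝ, B = fun τ =>
    (∫ θ in (5 * Real.pi / 12)..Real.pi, (gC n w θ τ).re) +
      ∫ θ in (-Real.pi)..(-(5 * Real.pi / 12)), (gC n w θ τ).re := ⟨_, rfl⟩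
  have hInc : Continuous In := by rw [hIn]; exact gC_int_cont H _ _
  have hOc : Continuous O := by
    rw [hO]; exact (gC_re_int_cont H _ _).add (gC_re_int_cont H _ _)
  have hBc : Continuous B := by
    rw [hB]; exact (gC_re_int_cont H _ _).add (gC_re_int_cont H _ _)
  have hGsplit : ∀ τ, G τ = (In τ).re + O τ + B τ := by
    intro τ
    have hre : Continuous fun θ : ℝ => (gC n w θ τ).re :=
      Complex.continuous_re.comp (gC_cont_theta H τ)
    have h1 : (In τ).re = ∫ θ in (-(Real.pi / 3))..(Real.pi / 3), (gC n w θ τ).re := by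
      rw [hIn]
      have := Complex.reCLM.intervalIntegral_comp_comm
        ((gC_cont_theta H τ).intervalIntegrable (μ := volume) (-(Real.pi / 3)) (Real.pi / 3))
      exact this.symm
    rw [h1, hG, hO, hB]
    simp only
    have i : ∀ a b : ℝ, IntervalIntegrable (fun θ : ℝ => (gC n w θ τ).re) volume a b :=
      fun a b => hre.intervalIntegrable a b
    have e1 := intervalIntegral.integral_add_adjacent_intervals
      (i (-Real.pi) (-(5 * Real.pi / 12))) (i (-(5 * Real.pi / 12)) (-(Real.pi / 3)))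
    have e2 := intervalIntegral.integral_add_adjacent_intervals
      (i (-Real.pi) (-(Real.pi / 3))) (i (-(Real.pi / 3)) (Real.pi / 3))
    have e3 := intervalIntegral.integral_add_adjacent_intervals
      (i (-Real.pi) (Real.pi / 3)) (i (Real.pi / 3) (5 * Real.pi / 12))
    have e4 := intervalIntegral.integral_add_adjacent_intervals
      (i (-Real.pi) (5 * Real.pi / 12)) (i (5 * Real.pi / 12) Real.pi)
    linarith
  have hG0 : (∫ τ in (0 : ℝ)..T, G τ) = (∫ τ in (0 : ℝ)..T, In τ).re +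
      (∫ τ in (0 : ℝ)..T, O τ) + ∫ τ in (0 : ℝ)..T, B τ := by
    have hre : Continuous fun τ : ℝ => (In τ).re := Complex.continuous_re.comp hInc
    have h1 : (∫ τ in (0 : ℝ)..T, In τ).re = ∫ τ in (0 : ℝ)..T, (In τ).re := by
      have := Complex.reCLM.intervalIntegral_comp_comm (hInc.intervalIntegrable (μ := volume) 0 T)
      exact this.symm
    have hro : Continuous fun τ : ℝ => (In τ).re + O τ := hre.add hOc
    rw [h1, ← intervalIntegral.integral_add (hre.intervalIntegrable _ _)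
      (hOc.intervalIntegrable _ _), ← intervalIntegral.integral_add
      (hro.intervalIntegrable _ _) (hBc.intervalIntegrable _ _)]
    exact intervalIntegral.integral_congr fun τ _ => hGsplit τ
  -- the bounds
  have bO : |∫ τ in (0 : ℝ)..T, O τ| ≤ Real.exp (2 * P) *
      ∫ τ in (0 : ℝ)..T, Ew n w τ * Rout w (sg n w) τ := by
    rw [← intervalIntegral.integral_const_mul]
    refine abs_int_le hT0.le ?_ fun τ hτ => ?_
    · exact (continuous_const.mul (Ew_cont.mul (Rout_cont hσ))).continuousOn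
    · have h1 := window_outer (w := w) (σ := sg n w) (τ := τ) (x := n) H.hw hσ hτ.1
        ((mul_le_mul_of_nonneg_right hτ.2 hlog).trans hTL)
      rw [Complex.ofReal_natCast, saddle_norm hw0 hn1, ← hP] at h1
      have h2 := abs_re_int_le H (by linarith : Real.pi / 3 ≤ 5 * Real.pi / 12) τ
      have h3 := abs_re_int_le H (by linarith : -(5 * Real.pi / 12) ≤ -(Real.pi / 3)) τ
      rw [hO]
      simp only
      refine (abs_add_le _ _).trans ((add_le_add h2 h3).trans ?_)
      rw [← mul_assoc]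
      exact h1
  have bB : |∫ τ in (0 : ℝ)..T, B τ| ≤ Real.exp (2 * P) *
      ∫ τ in (0 : ℝ)..T, ((∫ θ in (5 * Real.pi / 12)..Real.pi, NP n w θ τ) +
            ∫ θ in (-Real.pi)..(-(5 * Real.pi / 12)), NP n w θ τ) := by
    rw [← intervalIntegral.integral_const_mul]
    refine abs_int_le hT0.le ?_ fun τ hτ => ?_
    · exact (continuous_const.mul ((NP_int_cont H _ _).add (NP_int_cont H _ _))).continuousOn
    · have h2 := abs_re_int_le H (by linarith : 5 * Real.pi / 12 ≤ Real.pi) τ
      have h3 := abs_re_int_le H (by linarith : -Real.pi ≤ -(5 * Real.pi / 12)) τ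
      rw [int_norm_eq, ← hP] at h2 h3
      rw [hB]
      simp only
      refine (abs_add_le _ _).trans ((add_le_add h2 h3).trans (le_of_eq ?_))
      ring
  have bG : ∀ a b : ℝ, a ≤ b → |∫ τ in a..b, G τ| ≤ Real.exp (2 * P) *
      ∫ τ in a..b, ∫ θ in (-Real.pi)..Real.pi, NP n w θ τ := by
    intro a b hab
    rw [← intervalIntegral.integral_const_mul]
    refine abs_int_le hab ?_ fun τ hτ => ?_
    · exact (continuous_const.mul (NP_int_cont H _ _)).continuousOn
    · have h2 := abs_re_int_le H (by linarith : -Real.pi ≤ Real.pi) τ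
      rw [int_norm_eq, ← hP] at h2
      rw [hG]
      exact h2
  have bI : |c * (∫ τ in (0 : ℝ)..T, In τ).re - (Mcx n w).re| ≤ c * (Real.exp (2 * P) *
      ∫ τ in (0 : ℝ)..T, Ew n w τ * Rin w (sg n w) τ) + Mamp n w * eMod n w T := by
    have hJc := Jm_cont (n := n) hw0 hσ T
    have h1 : ‖(∫ τ in (0 : ℝ)..T, In τ) - ∫ τ in (0 : ℝ)..T, Jm n w τ‖ ≤ Real.exp (2 * P) *
        ∫ τ in (0 : ℝ)..T, Ew n w τ * Rin w (sg n w) τ := by
      rw [← intervalIntegral.integral_sub (hInc.intervalIntegrable _ _)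
        (hJc.intervalIntegrable_of_Icc hT0.le), ← intervalIntegral.integral_const_mul]
      refine intervalIntegral.norm_integral_le_of_norm_le (μ := volume) hT0.le
        (Eventually.of_forall fun τ hτ => ?_) ?_
      · have h2 := window_inner (w := w) (σ := sg n w) (τ := τ) (x := n) H.hw hσ hτ.1.le
          ((mul_le_mul_of_nonneg_right hτ.2 hlog).trans hTL)
        rw [Complex.ofReal_natCast, saddle_norm hw0 hn1, ← hP] at h2
        rw [hIn]
        rw [← mul_assoc]
        exact h2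
      · refine ContinuousOn.intervalIntegrable_of_Icc hT0.le ?_
        exact continuousOn_const.mul (Ew_cont.continuousOn.mul (Rin_cont hw0 hσ T))
    have h2 := model_window (n := n) (w := w) (T := T) hn1 hw0 hT0.le
    have h3 : 1 / (2 * Real.pi ^ 2) * (∫ τ in (0 : ℝ)..T, (sg n w : ℂ) *
          (exp (n * ss (sg n w) τ + VV w / ss (sg n w) τ) *
            (2 * Real.pi * ss (sg n w) τ / gam w) ^ (1 / 2 : ℂ))) =
        (c : ℂ) * ∫ τ in (0 : ℝ)..T, Jm n w τ := by
      rw [intervalIntegral.integral_const_mul, hc]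
      unfold Jm
      push_cast
      ring
    rw [h3] at h2
    have h4 : c * (∫ τ in (0 : ℝ)..T, In τ).re - (Mcx n w).re =
        ((c : ℂ) * (∫ τ in (0 : ℝ)..T, In τ) - Mcx n w).re := by
      rw [Complex.sub_re, Complex.re_ofReal_mul]
    rw [h4]
    refine (Complex.abs_re_le_norm _).trans ?_
    have h5 : (c : ℂ) * (∫ τ in (0 : ℝ)..T, In τ) - Mcx n w =
        (c : ℂ) * ((∫ τ in (0 : ℝ)..T, In τ) - ∫ τ in (0 : ℝ)..T, Jm n w τ) +
        ((c : ℂ) * (∫ τ in (0 : ℝ)..T, Jm n w τ) - Mcx n w) := by ring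
    rw [h5]
    refine (norm_add_le _ _).trans (add_le_add ?_ h2)
    rw [norm_mul, Complex.norm_real, Real.norm_eq_abs, abs_of_pos hc0]
    exact mul_le_mul_of_nonneg_left h1 hc0.le
  -- assembly
  have b1 := bG T 4 hT4
  have b2 := bG 4 (Real.pi / sg n w) h4π
  rw [hD, hsplit, hG0]
  have e : c * ((∫ τ in (0 : ℝ)..T, In τ).re + (∫ τ in (0 : ℝ)..T, O τ) +
      (∫ τ in (0 : ℝ)..T, B τ) + (∫ τ in T..4, G τ) +
      ∫ τ in (4 : ℝ)..(Real.pi / sg n w), G τ) - (Mcx n w).re =
      (c * (∫ τ in (0 : ℝ)..T, In τ).re - (Mcx n w).re) + c * (∫ τ in (0 : ℝ)..T, O τ) +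
      c * (∫ τ in (0 : ℝ)..T, B τ) + c * (∫ τ in T..4, G τ) +
      c * ∫ τ in (4 : ℝ)..(Real.pi / sg n w), G τ := by ring
  rw [e]
  have t : ∀ x y z u v : ℝ, |x + y + z + u + v| ≤ |x| + |y| + |z| + |u| + |v| := by
    intro x y z u v
    have s1 := abs_add_le (x + y + z + u) v
    have s2 := abs_add_le (x + y + z) u
    have s3 := abs_add_le (x + y) z
    have s4 := abs_add_le x y
    linarith
  refine (t _ _ _ _ _).trans ?_
  rw [abs_mul c, abs_mul c, abs_mul c, abs_mul c, abs_of_pos hc0]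
  have f1 := mul_le_mul_of_nonneg_left bO hc0.le
  have f2 := mul_le_mul_of_nonneg_left bB hc0.le
  have f3 := mul_le_mul_of_nonneg_left b1 hc0.le
  have f4 := mul_le_mul_of_nonneg_left b2 hc0.le
  have k : ∀ x : ℝ, c * (Real.exp (2 * P) * x) = Mamp n w * (Kn n w * x) := by
    intro x
    rw [← mul_assoc, ← hKM]
    ring
  rw [k] at bI f1 f2 f3 f4
  linarith

end Pool.Agent.Lib.Durfee
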