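import Pool.Agent.Lib.MP_9393b1_co.Defs

set_option autoImplicit false

namespace Pool.Agent.Lib.Durfee

open MeasureTheory Filter Topology

theorem mid_half {f f' f'' : ℝ → ℂ} {c l r : ℝ} (hlr : l ≤ r) (hc0 : ∀ x ∈ Set.Icc l r, |x - c| ≤ 1 / 2)
    (hf : ∀ x ∈ Set.Icc l r, HasDerivAt f (f' x) x)
    (hf' : ∀ x ∈ Set.Icc l r, HasDerivAt f' (f'' x) x)
    (hc : ContinuousOn f'' (Set.Icc l r)) :
    ‖(((r - c : ℝ) : ℂ) * f r - ((r - c : ℝ) : ℂ) ^ 2 / 2 * f' r) -
      (((l - c : ℝ) : ℂ) * f l - ((l - c : ℝ) : ℂ) ^ 2 / 2 * f' l) - ∫ x in l..r, f x‖ ≤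
      1 / 8 * ∫ x in l..r, ‖f'' x‖ := by
  have hu : Set.uIcc l r = Set.Icc l r := Set.uIcc_of_le hlr
  have hcf : ContinuousOn f (Set.Icc l r) := fun x hx => (hf x hx).continuousAt.continuousWithinAt
  have hcq : ContinuousOn (fun x : ℝ => (((x - c : ℝ) : ℂ) ^ 2 / 2) * f'' x) (Set.Icc l r) := by
    refine ContinuousOn.mul ?_ hc
    fun_prop
  have hd : ∀ x ∈ Set.uIcc l r, HasDerivAt
      (fun x : ℝ => ((x - c : ℝ) : ℂ) * f x - ((x - c : ℝ) : ℂ) ^ 2 / 2 * f' x)
      (f x - ((x - c : ℝ) : ℂ) ^ 2 / 2 * f'' x) x := by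
    intro x hx
    rw [hu] at hx
    have h1 : HasDerivAt (fun x : ℝ => ((x - c : ℝ) : ℂ)) 1 x := by
      have := ((hasDerivAt_id x).sub_const c).ofReal_comp
      simpa using this
    have h2 : HasDerivAt (fun x : ℝ => ((x - c : ℝ) : ℂ) ^ 2 / 2) (((x - c : ℝ) : ℂ)) x := by
      have := (h1.pow 2).div_const 2
      refine this.congr_deriv ?_
      simp
    refine ((h1.mul (hf x hx)).sub (h2.mul (hf' x hx))).congr_deriv ?_
    ring
  have hif : IntervalIntegrable f volume l r := (hu ▸ hcf).intervalIntegrable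
  have hiq : IntervalIntegrable (fun x : ℝ => (((x - c : ℝ) : ℂ) ^ 2 / 2) * f'' x) volume l r :=
    (hu ▸ hcq).intervalIntegrable
  have hi2 : IntervalIntegrable (fun x : ℝ => ‖f'' x‖) volume l r :=
    (hu ▸ hc.norm).intervalIntegrable
  have h := intervalIntegral.integral_eq_sub_of_hasDerivAt hd (hif.sub hiq)
  rw [intervalIntegral.integral_sub hif hiq] at h
  rw [← h, sub_sub_cancel_left, norm_neg]
  rw [← intervalIntegral.integral_const_mul]
  refine (intervalIntegral.norm_integral_le_integral_norm hlr).trans ?_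
  refine intervalIntegral.integral_mono_on hlr hiq.norm (hi2.const_mul _) fun x hx => ?_
  rw [norm_mul]
  refine mul_le_mul_of_nonneg_right ?_ (norm_nonneg _)
  rw [norm_div, norm_pow, Complex.norm_real, Real.norm_eq_abs]
  have h3 := hc0 x hx
  have h4 : |x - c| ^ 2 ≤ (1 / 2) ^ 2 := pow_le_pow_left₀ (abs_nonneg _) h3 2
  have h5 : ‖(2 : ℂ)‖ = 2 := by simp
  rw [h5]
  linarith

/-- Midpoint rule on one cell. -/
theorem midpoint_cell {f f' f'' : ℝ → ℂ} {a : ℝ}
    (hf : ∀ x ∈ Set.Icc a (a + 1), HasDerivAt f (f' x) x)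
    (hf' : ∀ x ∈ Set.Icc a (a + 1), HasDerivAt f' (f'' x) x)
    (hc : ContinuousOn f'' (Set.Icc a (a + 1))) :
    ‖f (a + 1 / 2) - ∫ x in a..(a + 1), f x‖ ≤ 1 / 8 * ∫ x in a..(a + 1), ‖f'' x‖ := by
  have hs1 : Set.Icc a (a + 1 / 2) ⊆ Set.Icc a (a + 1) := Set.Icc_subset_Icc_right (by linarith)
  have hs2 : Set.Icc (a + 1 / 2) (a + 1) ⊆ Set.Icc a (a + 1) := Set.Icc_subset_Icc_left (by linarith)
  have hcf : ContinuousOn f (Set.Icc a (a + 1)) :=
    fun x hx => (hf x hx).continuousAt.continuousWithinAt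
  have h1 := mid_half (c := a) (l := a) (r := a + 1 / 2) (by linarith)
    (fun x hx => by rw [abs_le]; constructor <;> linarith [hx.1, hx.2])
    (fun x hx => hf x (hs1 hx)) (fun x hx => hf' x (hs1 hx)) (hc.mono hs1)
  have h2 := mid_half (c := a + 1) (l := a + 1 / 2) (r := a + 1) (by linarith)
    (fun x hx => by rw [abs_le]; constructor <;> linarith [hx.1, hx.2])
    (fun x hx => hf x (hs2 hx)) (fun x hx => hf' x (hs2 hx)) (hc.mono hs2)
  have i1 : IntervalIntegrable f volume a (a + 1 / 2) :=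
    ((hcf.mono hs1).mono (Set.uIcc_of_le (by linarith)).subset).intervalIntegrable
  have i2 : IntervalIntegrable f volume (a + 1 / 2) (a + 1) :=
    ((hcf.mono hs2).mono (Set.uIcc_of_le (by linarith)).subset).intervalIntegrable
  have j1 : IntervalIntegrable (fun x => ‖f'' x‖) volume a (a + 1 / 2) :=
    ((hc.norm.mono hs1).mono (Set.uIcc_of_le (by linarith)).subset).intervalIntegrable
  have j2 : IntervalIntegrable (fun x => ‖f'' x‖) volume (a + 1 / 2) (a + 1) :=
    ((hc.norm.mono hs2).mono (Set.uIcc_of_le (by linarith)).subset).intervalIntegrable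
  rw [← intervalIntegral.integral_add_adjacent_intervals i1 i2,
    ← intervalIntegral.integral_add_adjacent_intervals j1 j2]
  have e1 : a + 1 / 2 - a = 1 / 2 := by ring
  have e2 : a + 1 / 2 - (a + 1) = -(1 / 2) := by ring
  rw [e1, sub_self] at h1
  rw [e2, sub_self] at h2
  refine le_trans (le_of_eq ?_) ((norm_add_le _ _).trans (le_trans (add_le_add h1 h2)
    (le_of_eq (mul_add _ _ _).symm)))
  congr 1
  push_cast
  ring

/-- Midpoint rule with `N` cells. -/
theorem midpoint_sum {f f' f'' : ℝ → ℂ}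
    (hf : ∀ x ∈ Set.Ici (0 : ℝ), HasDerivAt f (f' x) x)
    (hf' : ∀ x ∈ Set.Ici (0 : ℝ), HasDerivAt f' (f'' x) x)
    (hc : ContinuousOn f'' (Set.Ici (0 : ℝ))) (N : ℕ) :
    ‖∑ j ∈ Finset.range N, f ((j : ℝ) + 1 / 2) - ∫ x in (0 : ℝ)..N, f x‖ ≤
      1 / 8 * ∫ x in (0 : ℝ)..N, ‖f'' x‖ := by
  have hcf : ContinuousOn f (Set.Ici (0 : ℝ)) :=
    fun x hx => (hf x hx).continuousAt.continuousWithinAt
  have hi : ∀ {a b : ℝ}, 0 ≤ a → a ≤ b → IntervalIntegrable f volume a b := by
    intro a b ha hab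
    refine (hcf.mono ?_).intervalIntegrable
    rw [Set.uIcc_of_le hab]
    exact fun x hx => le_trans ha hx.1
  have hj : ∀ {a b : ℝ}, 0 ≤ a → a ≤ b → IntervalIntegrable (fun x => ‖f'' x‖) volume a b := by
    intro a b ha hab
    refine (hc.norm.mono ?_).intervalIntegrable
    rw [Set.uIcc_of_le hab]
    exact fun x hx => le_trans ha hx.1
  induction N with
  | zero => simp
  | succ N ih =>
    have hN : (0 : ℝ) ≤ N := Nat.cast_nonneg _
    have hs : Set.Icc (N : ℝ) (N + 1) ⊆ Set.Ici 0 := fun x hx => le_trans hN hx.1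
    have hcell := midpoint_cell (a := (N : ℝ)) (fun x hx => hf x (hs hx))
      (fun x hx => hf' x (hs hx)) (hc.mono hs)
    rw [Finset.sum_range_succ, Nat.cast_succ,
      ← intervalIntegral.integral_add_adjacent_intervals (hi le_rfl hN) (hi hN (by linarith)),
      ← intervalIntegral.integral_add_adjacent_intervals (hj le_rfl hN) (hj hN (by linarith)),
      add_sub_add_comm, mul_add]
    exact (norm_add_le _ _).trans (add_le_add ih hcell)

/-- Midpoint rule on the half line. -/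
theorem midpoint_halfline {f f' f'' : ℝ → ℂ} {S : ℂ}
    (hf : ∀ x ∈ Set.Ici (0 : ℝ), HasDerivAt f (f' x) x)
    (hf' : ∀ x ∈ Set.Ici (0 : ℝ), HasDerivAt f' (f'' x) x)
    (hc : ContinuousOn f'' (Set.Ici (0 : ℝ)))
    (hint : IntegrableOn f (Set.Ioi (0 : ℝ)))
    (hint'' : IntegrableOn f'' (Set.Ioi (0 : ℝ)))
    (hS : Tendsto (fun N : ℕ => ∑ j ∈ Finset.range N, f ((j : ℝ) + 1 / 2)) atTop (𝓝 S)) :
    ‖S - ∫ x in Set.Ioi (0 : ℝ), f x‖ ≤ 1 / 8 * ∫ x in Set.Ioi (0 : ℝ), ‖f'' x‖ := by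
  have h1 := intervalIntegral_tendsto_integral_Ioi 0 hint
    (tendsto_natCast_atTop_atTop (R := ℝ))
  have h2 := intervalIntegral_tendsto_integral_Ioi 0 hint''.norm
    (tendsto_natCast_atTop_atTop (R := ℝ))
  exact le_of_tendsto_of_tendsto' (hS.sub h1).norm (h2.const_mul (1 / 8))
    (fun N => midpoint_sum hf hf' hc N)

/-- Convex functions: the midpoint sum is at most the integral. -/
theorem midpoint_convex {h : ℝ → ℝ} (hconv : ConvexOn ℝ (Set.Ici (0 : ℝ)) h)
    (hcont : ContinuousOn h (Set.Ici (0 : ℝ))) (N : ℕ) :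
    ∑ j ∈ Finset.range N, h ((j : ℝ) + 1 / 2) ≤ ∫ x in (0 : ℝ)..N, h x := by
  have hi : ∀ {a b : ℝ}, 0 ≤ a → a ≤ b → IntervalIntegrable h volume a b := by
    intro a b ha hab
    refine (hcont.mono ?_).intervalIntegrable
    rw [Set.uIcc_of_le hab]
    exact fun x hx => le_trans ha hx.1
  induction N with
  | zero => simp
  | succ N ih =>
    have hN : (0 : ℝ) ≤ N := Nat.cast_nonneg _
    rw [Finset.sum_range_succ, Nat.cast_succ,
      ← intervalIntegral.integral_add_adjacent_intervals (hi le_rfl hN) (hi hN (by linarith))]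
    refine add_le_add ih ?_
    have hint := hi hN (by linarith : (N : ℝ) ≤ N + 1)
    have e1 : ∫ x in (N : ℝ)..(N + 1), h (2 * N + 1 - x) = ∫ x in (N : ℝ)..(N + 1), h x := by
      rw [intervalIntegral.integral_comp_sub_left]
      congr 1 <;> ring
    have hint' : IntervalIntegrable (fun x => h (2 * N + 1 - x)) volume (N : ℝ) (N + 1) := by
      refine ContinuousOn.intervalIntegrable ?_
      refine hcont.comp (by fun_prop) ?_
      rw [Set.uIcc_of_le (by linarith)]
      intro x hx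
      have := hx.2
      simp only [Set.mem_Ici]
      linarith
    have e2 : ∫ _x in (N : ℝ)..(N + 1), 2 * h (N + 1 / 2) ≤
        ∫ x in (N : ℝ)..(N + 1), (h x + h (2 * N + 1 - x)) := by
      refine intervalIntegral.integral_mono_on (by linarith) (by simp) (hint.add hint') fun x hx => ?_
      have hx0 : x ∈ Set.Ici (0 : ℝ) := le_trans hN hx.1
      have hx1 : 2 * (N : ℝ) + 1 - x ∈ Set.Ici (0 : ℝ) := by
        have := hx.2
        simp only [Set.mem_Ici]
        linarith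
      have := hconv.2 hx0 hx1 (by norm_num : (0 : ℝ) ≤ 1 / 2) (by norm_num : (0 : ℝ) ≤ 1 / 2)
        (by norm_num)
      simp only [smul_eq_mul] at this
      have e3 : 1 / 2 * x + 1 / 2 * (2 * (N : ℝ) + 1 - x) = N + 1 / 2 := by ring
      rw [e3] at this
      linarith
    rw [intervalIntegral.integral_add hint hint', e1, intervalIntegral.integral_const,
      add_sub_cancel_left, one_smul] at e2
    linarith

end Pool.Agent.Lib.Durfee
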