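import Pool.Agent.Lib.MP_9393b1_co.ModA

/-! # Regime M: saddle position and phase -/

set_option autoImplicit false

namespace Pool.Agent.Lib.Durfee

open Complex MeasureTheory Filter Topology

variable {n : ℕ} {w : ℝ}

/-! ## Auxiliary facts -/

private lemma mb_pi_lo : (3.1415 : ℝ) < Real.pi := by
  have := Real.pi_gt_d4; linarith

private lemma mb_pi_hi : Real.pi < (3.1416 : ℝ) := by
  have := Real.pi_lt_d4; linarith

private lemma mb_pisq_lo : (9.869 : ℝ) < Real.pi ^ 2 := by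
  have := mb_pi_lo; nlinarith

private lemma mb_pisq_hi : Real.pi ^ 2 < (9.8697 : ℝ) := by
  have := mb_pi_hi; have := Real.pi_pos; nlinarith

private lemma mb_pi4_hi : Real.pi ^ 4 < (97.42 : ℝ) := by
  have := mb_pisq_hi; have := mb_pisq_lo; nlinarith

private lemma mb_mono {f f' : ℝ → ℝ} {a b : ℝ} (hab : a ≤ b)
    (h : ∀ x, a ≤ x → HasDerivAt f (f' x) x) (h' : ∀ x, a ≤ x → 0 ≤ f' x) : f a ≤ f b := by
  have hm : MonotoneOn f (Set.Ici a) := by
    apply monotoneOn_of_deriv_nonneg (convex_Ici a)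
    · intro x hx
      exact (h x hx).continuousAt.continuousWithinAt
    · intro x hx
      rw [interior_Ici] at hx
      exact (h x (le_of_lt hx)).differentiableAt.differentiableWithinAt
    · intro x hx
      rw [interior_Ici] at hx
      rw [(h x (le_of_lt hx)).deriv]
      exact h' x (le_of_lt hx)
  exact hm (Set.mem_Ici.2 le_rfl) (Set.mem_Ici.2 hab) hab

private lemma mb_VI_ge {w : ℝ} (hw : 1 ≤ w) :
    183 / 100 + Real.pi / 2 * Real.log w ≤ VI w := by
  have hw0 : 0 < w := by linarith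
  have hL0 : 0 ≤ Real.log w := Real.log_nonneg hw
  have hexp : Real.exp (Real.log w) = w := Real.exp_log hw0
  have h := mb_mono (f := fun x => VI (Real.exp x) - Real.pi / 2 * x)
    (f' := fun x => 2 * Real.arctan (Real.exp x) - Real.pi / 2 * 1) hL0
    (fun x _ => (hasDerivAt_VI_exp x).sub ((hasDerivAt_id x).const_mul _))
    (fun x hx => by
      have h1 : Real.arctan 1 ≤ Real.arctan (Real.exp x) :=
        Real.arctan_mono (Real.one_le_exp hx)
      rw [Real.arctan_one] at h1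
      linarith)
  simp only [Real.exp_zero, hexp] at h
  have h1 := VI_one_bounds.1
  linarith

private lemma mb_P (H : HypM n w) : PPn n w = aa w ^ 2 / sg n w := by
  have hR := H.R_ge
  have hR0 : (Real.sqrt n) ≠ 0 := by
    have : (0 : ℝ) < Real.sqrt n := by linarith
    exact this.ne'
  have ha := aa_pos (w := w) (by linarith [H.hw])
  unfold PPn sg
  field_simp

private lemma mb_P_ts (H : HypM n w) : PPn n w * ts w ^ 2 = Real.sqrt n * (bb w ^ 2 / aa w) := by
  have ha := (aa_pos (w := w) (by linarith [H.hw])).ne'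
  unfold PPn ts
  field_simp

private lemma mb_b2a (H : HypM n w) : bb w ^ 2 / aa w = VI w ^ 2 / (4 * aa w ^ 3) := by
  have ha := (aa_pos (w := w) (by linarith [H.hw])).ne'
  have h := two_aa_bb (w := w) (by linarith [H.hw])
  rw [← h]
  field_simp
  ring

private lemma mb_small {l : ℝ} (H : HypM n w) (hL : Real.log w ≤ l) :
    aa w ^ 2 ≤ l ^ 2 + 3.29 := by
  have h1 := U_le_large H.hw
  have h2 := mb_pisq_hi
  have h3 := H.log_nonneg
  have h4 : Real.log w ^ 2 ≤ l ^ 2 := pow_le_pow_left₀ h3 hL 2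
  linarith

private lemma mb_sigma_inv (n : ℕ) (w : ℝ) : 1 / sg n w = Real.sqrt n / aa w := by
  unfold sg
  rw [one_div_div]

/-- `P τ*² ≥ 14` -/
theorem P_ts_sq_ge (H : HypM n w) : 14 ≤ PPn n w * ts w ^ 2 := by
  have hw := H.hw
  have hw0 : 0 < w := by linarith
  have hL0 := H.log_nonneg
  have ha := aa_pos hw0
  have hb := bb_pos hw0
  have hR := H.R_ge
  have hVI := mb_VI_ge hw
  have plo := mb_pi_lo
  have p2lo := mb_pisq_lo
  have p4hi := mb_pi4_hi
  rw [mb_P_ts H]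
  have hfin : ∀ c : ℝ, c * aa w ≤ bb w ^ 2 → 14 / 100 ≤ c →
      14 ≤ Real.sqrt n * (bb w ^ 2 / aa w) := by
    intro c hc hc1
    have h1 : c ≤ bb w ^ 2 / aa w := by rwa [le_div_iff₀ ha]
    have h2 : 14 / 100 ≤ bb w ^ 2 / aa w := hc1.trans h1
    nlinarith
  rcases le_or_gt (Real.log w) (3 / 10) with h1 | h1
  · have ha2 := aa_le_of_small hw h1
    have hV : 183 / 100 ≤ VI w := by
      have : 0 ≤ Real.pi / 2 * Real.log w := by positivity
      linarith
    rw [mb_b2a H]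
    have h3 : aa w ^ 3 ≤ (14 / 10) ^ 3 := pow_le_pow_left₀ ha.le ha2 3
    have h4 : (183 / 100 : ℝ) ^ 2 ≤ VI w ^ 2 := pow_le_pow_left₀ (by norm_num) hV 2
    have h5 : 14 / 100 ≤ VI w ^ 2 / (4 * aa w ^ 3) := by
      rw [le_div_iff₀ (by positivity)]
      norm_num at h3 h4 ⊢
      linarith
    nlinarith
  rcases le_or_gt (Real.log w) (9 / 10) with h2 | h2
  · have ha2 := mb_small H h2
    have ha3 : aa w ≤ 2.025 := by
      apply le_of_sq_le_sq _ (by norm_num)
      norm_num at ha2 ⊢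
      linarith
    have hV : 23 / 10 ≤ VI w := by
      have : 3.1415 / 2 * (3 / 10) ≤ Real.pi / 2 * Real.log w := by
        apply mul_le_mul (by linarith) h1.le (by norm_num) (by positivity)
      norm_num at this
      linarith
    rw [mb_b2a H]
    have h3 : aa w ^ 3 ≤ 2.025 ^ 3 := pow_le_pow_left₀ ha.le ha3 3
    have h4 : (23 / 10 : ℝ) ^ 2 ≤ VI w ^ 2 := pow_le_pow_left₀ (by norm_num) hV 2
    have h5 : 14 / 100 ≤ VI w ^ 2 / (4 * aa w ^ 3) := by
      rw [le_div_iff₀ (by positivity)]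
      norm_num at h3 h4 ⊢
      linarith
    nlinarith
  have hbge := bb_sq_ge hw0 h2.le
  rcases le_or_gt (Real.log w) 3 with h3 | h3
  · have ha2 := mb_small H h3
    have ha3 : aa w ≤ 3.506 := by
      apply le_of_sq_le_sq _ (by norm_num)
      norm_num at ha2 ⊢
      linarith
    have h4 : Real.pi ^ 4 / (12 * (Real.log w ^ 2 + 4)) ≤ 1.6879 := by
      rw [div_le_iff₀ (by positivity)]
      have : (9 / 10 : ℝ) ^ 2 ≤ Real.log w ^ 2 := pow_le_pow_left₀ (by norm_num) h2.le 2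
      norm_num at this ⊢
      linarith
    apply hfin 0.2 _ (by norm_num)
    norm_num at h4 p2lo ha3 ⊢
    linarith
  · have h4 : Real.pi ^ 4 / (12 * (Real.log w ^ 2 + 4)) ≤ 0.63 := by
      rw [div_le_iff₀ (by positivity)]
      have : (3 : ℝ) ^ 2 ≤ Real.log w ^ 2 := pow_le_pow_left₀ (by norm_num) h3.le 2
      norm_num at this ⊢
      linarith
    have h5 : 18 / 10 ≤ bb w ^ 2 := by
      norm_num at h4 p2lo ⊢
      linarith
    have h6 := H.inv_sg_ge
    rw [mb_sigma_inv n w] at h6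
    have h7 : Real.sqrt n * (bb w ^ 2 / aa w) = (Real.sqrt n / aa w) * bb w ^ 2 := by ring
    rw [h7]
    nlinarith

theorem ts_le (H : HypM n w) : ts w ≤ 81 / 100 := by
  have hw := H.hw
  have hw0 : 0 < w := by linarith
  have h := bb_div_aa_le (ρ := 22 / 100) hw0 (by norm_num) (ratio_zero hw)
  have h2 : Real.sqrt (1 + (22 / 100) ^ 2) ≤ 103 / 100 := by
    rw [Real.sqrt_le_left (by norm_num)]
    norm_num
  unfold ts
  linarith

private lemma mb_ts_one (H : HypM n w) (hL : 1 ≤ Real.log w) : ts w ≤ 0.6526 := by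
  have hw := H.hw
  have hw0 : 0 < w := by linarith
  have h := bb_div_aa_le (ρ := 44 / 100) hw0 (by norm_num) (ratio_one hw0 hL)
  have h2 : Real.sqrt (1 + (44 / 100) ^ 2) ≤ 1.0926 := by
    rw [Real.sqrt_le_left (by norm_num)]
    norm_num
  unfold ts
  norm_num at h h2 ⊢
  linarith

private lemma mb_ts_two (H : HypM n w) (hL : 2 ≤ Real.log w) : ts w ≤ 0.5082 := by
  have hw := H.hw
  have hw0 : 0 < w := by linarith
  have h := bb_div_aa_le (ρ := 73 / 100) hw0 (by norm_num) (ratio_two hw0 hL)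
  have h2 : Real.sqrt (1 + (73 / 100) ^ 2) ≤ 1.2382 := by
    rw [Real.sqrt_le_left (by norm_num)]
    norm_num
  unfold ts
  norm_num at h h2 ⊢
  linarith

theorem ts_pos (H : HypM n w) : 0 < ts w := by
  have hw0 : 0 < w := by linarith [H.hw]
  exact div_pos (bb_pos hw0) (aa_pos hw0)

/-- `P (T-τ*) ≥ (π/4) √n` for `L ≥ 3π/10` -/
theorem P_mul_T_sub_ts_ge (H : HypM n w) (hL : 3 * Real.pi / 10 < Real.log w) :
    Real.pi / 4 * Real.sqrt n ≤ PPn n w * (TT w - ts w) := by
  have hw := H.hw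
  have hw0 : 0 < w := by linarith
  have hpi := Real.pi_pos
  have hL0 : 0 < Real.log w := lt_trans (by positivity) hL
  have ha := aa_pos hw0
  have hla := log_le_aa hw
  have hR := H.R_ge
  have hb := H.hb
  have hT : TT w = 3 * Real.pi / (4 * Real.log w) := by
    unfold TT
    rw [if_neg (not_le.2 hL)]
  have h1 : Real.sqrt n * (3 * Real.pi / 4) ≤ PPn n w * TT w := by
    rw [hT]
    unfold PPn
    have h2 : Real.sqrt n * aa w * (3 * Real.pi / (4 * Real.log w)) =
        Real.sqrt n * (3 * Real.pi / 4) * (aa w / Real.log w) := by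
      field_simp
    rw [h2]
    have h3 : 1 ≤ aa w / Real.log w := by rwa [le_div_iff₀ hL0, one_mul]
    have h4 : 0 ≤ Real.sqrt n * (3 * Real.pi / 4) := by positivity
    nlinarith
  have h2 : PPn n w * ts w = Real.sqrt n * bb w := by
    unfold PPn ts
    field_simp
  have h3 : Real.sqrt n * bb w ≤ Real.sqrt n * (Real.pi / 2) :=
    mul_le_mul_of_nonneg_left hb.le (by linarith)
  rw [mul_sub, h2]
  linarith

/-- `P (T-τ*)²/(1+T²) ≥ (π²/16)/(σ (1+T²))` for `L ≥ 3π/10` -/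
theorem P_T_sub_ts_ge' (H : HypM n w) (hL : 3 * Real.pi / 10 < Real.log w) :
    Real.pi ^ 2 / 16 / (sg n w * (1 + TT w ^ 2)) ≤
      PPn n w * (TT w - ts w) ^ 2 / (1 + TT w ^ 2) := by
  have hw := H.hw
  have hw0 : 0 < w := by linarith
  have hpi := Real.pi_pos
  have ha := aa_pos hw0
  have hR := H.R_ge
  have hR0 : 0 < Real.sqrt n := by linarith
  have hσ := H.sg_pos
  have h1 := P_mul_T_sub_ts_ge H hL
  have hq : 0 < 1 + TT w ^ 2 := by positivity
  have hP : 0 < PPn n w := mul_pos hR0 ha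
  rw [div_le_div_iff₀ (by positivity) hq]
  have h2 : (Real.pi / 4 * Real.sqrt n) ^ 2 ≤ (PPn n w * (TT w - ts w)) ^ 2 :=
    pow_le_pow_left₀ (by positivity) h1 2
  have h3 : PPn n w * sg n w = aa w ^ 2 := by
    unfold PPn sg
    field_simp
  have h4 : PPn n w ^ 2 = Real.sqrt n ^ 2 * aa w ^ 2 := by
    unfold PPn; ring
  have h5 : Real.pi ^ 2 / 16 ≤ PPn n w * (TT w - ts w) ^ 2 * sg n w := by
    have h6 : (PPn n w * (TT w - ts w)) ^ 2 =
        Real.sqrt n ^ 2 * (PPn n w * (TT w - ts w) ^ 2 * sg n w) := by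
      have : PPn n w * (TT w - ts w) ^ 2 * sg n w = aa w ^ 2 * (TT w - ts w) ^ 2 := by
        rw [← h3]; ring
      rw [this, mul_pow, h4]
      ring
    rw [h6] at h2
    have h7 : (Real.pi / 4 * Real.sqrt n) ^ 2 = Real.sqrt n ^ 2 * (Real.pi ^ 2 / 16) := by ring
    rw [h7] at h2
    exact le_of_mul_le_mul_left h2 (by positivity)
  nlinarith

/-- monotonicity of `(T-t)²/(1+T²)` -/
private lemma mb_frac {t t₀ T T₀ : ℝ} (ht : 0 ≤ t) (ht0 : t ≤ t₀) (hT0 : t₀ ≤ T₀) (hT : T₀ ≤ T) :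
    (T₀ - t₀) ^ 2 / (1 + T₀ ^ 2) ≤ (T - t) ^ 2 / (1 + T ^ 2) := by
  have h1 : (T₀ - t₀) ^ 2 / (1 + T₀ ^ 2) ≤ (T₀ - t) ^ 2 / (1 + T₀ ^ 2) := by
    apply div_le_div_of_nonneg_right _ (by positivity)
    exact pow_le_pow_left₀ (by linarith) (by linarith) 2
  refine h1.trans ?_
  have e1 : 0 ≤ T₀ - t := by linarith
  have e2 : 0 ≤ T - t := by linarith
  have hT00 : 0 ≤ T₀ := by linarith
  have hTT : 0 ≤ T := by linarith
  -- (T₀ - t)/√(1+T₀²) ≤ (T - t)/√(1+T²)
  have h2 : (T₀ - t) ^ 2 * (1 + T ^ 2) ≤ (T - t) ^ 2 * (1 + T₀ ^ 2) := by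
    -- difference = (T - T₀) * ((T - t)(1 + t T₀) + (T₀ - t)(1 + t T))
    have h3 : (T - t) ^ 2 * (1 + T₀ ^ 2) - (T₀ - t) ^ 2 * (1 + T ^ 2) =
        (T - T₀) * ((T - t) * (1 + t * T₀) + (T₀ - t) * (1 + t * T)) := by ring
    have h4 : 0 ≤ (T - T₀) * ((T - t) * (1 + t * T₀) + (T₀ - t) * (1 + t * T)) := by
      have : 0 ≤ T - T₀ := by linarith
      positivity
    linarith
  rw [div_le_div_iff₀ (by positivity) (by positivity)]
  exact h2

private lemma mb_TT_ge {w : ℝ} (hL : 3 * Real.pi / 10 < Real.log w) {l : ℝ} (hl : Real.log w ≤ l) :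
    3 * 3.1415 / (4 * l) ≤ TT w := by
  have hpi := Real.pi_pos
  have hL0 : 0 < Real.log w := lt_trans (by positivity) hL
  have plo := mb_pi_lo
  unfold TT
  rw [if_neg (not_le.2 hL), div_le_div_iff₀ (by linarith) (by positivity)]
  nlinarith

theorem P_T_sub_ts_ge_small (H : HypM n w) (hL : Real.log w ≤ 3) :
    14 ≤ PPn n w * (TT w - ts w) ^ 2 / (1 + TT w ^ 2) := by
  have hw := H.hw
  have hw0 : 0 < w := by linarith
  have hpi := Real.pi_pos
  have plo := mb_pi_lo
  have phi := mb_pi_hi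
  have ha := aa_pos hw0
  have ha1 := aa_ge_one hw
  have hla := log_le_aa hw
  have hR := H.R_ge
  have hL0 := H.log_nonneg
  have ht0 := ts_pos H
  have ht1 := ts_le H
  have key : ∀ t₀ T₀ l : ℝ, ts w ≤ t₀ → t₀ ≤ T₀ → T₀ ≤ TT w → 0 ≤ l → l ≤ aa w →
      14 * (1 + T₀ ^ 2) ≤ 100 * l * (T₀ - t₀) ^ 2 →
      14 ≤ PPn n w * (TT w - ts w) ^ 2 / (1 + TT w ^ 2) := by
    intro t₀ T₀ l h1 h2 h3 hl0 h4 h5
    have h6 := mb_frac ht0.le h1 h2 h3
    have h7 : 100 * l ≤ PPn n w := by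
      unfold PPn
      exact mul_le_mul hR h4 hl0 (by linarith)
    have h8 : 14 ≤ 100 * l * ((T₀ - t₀) ^ 2 / (1 + T₀ ^ 2)) := by
      rw [← mul_div_assoc, le_div_iff₀ (by positivity)]
      exact h5
    rw [mul_div_assoc]
    refine h8.trans ?_
    apply mul_le_mul h7 h6 (by positivity)
    linarith
  rcases le_or_gt (Real.log w) (3 * Real.pi / 10) with c1 | c1
  · have hT : TT w = 5 / 2 := by
      unfold TT
      rw [if_pos c1]
    exact key (81 / 100) (5 / 2) (106 / 100) ht1 (by norm_num) hT.ge (by norm_num) ha1 (by norm_num)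
  rcases le_or_gt (Real.log w) 1 with c2 | c2
  · have hT := mb_TT_ge c1 c2
    exact key (81 / 100) (3 * 3.1415 / (4 * 1)) (106 / 100) ht1 (by norm_num) hT (by norm_num) ha1
      (by norm_num)
  have ht2 := mb_ts_one H c2.le
  rcases le_or_gt (Real.log w) (3 / 2) with c3 | c3
  · have hT := mb_TT_ge c1 c3
    exact key 0.6526 (3 * 3.1415 / (4 * (3 / 2))) (106 / 100) ht2 (by norm_num) hT (by norm_num) ha1
      (by norm_num)
  rcases le_or_gt (Real.log w) 2 with c4 | c4
  · have hT := mb_TT_ge c1 c4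
    exact key 0.6526 (3 * 3.1415 / (4 * 2)) (3 / 2) ht2 (by norm_num) hT (by norm_num)
      (by linarith) (by norm_num)
  have ht3 := mb_ts_two H c4.le
  rcases le_or_gt (Real.log w) (5 / 2) with c5 | c5
  · have hT := mb_TT_ge c1 c5
    exact key 0.5082 (3 * 3.1415 / (4 * (5 / 2))) 2 ht3 (by norm_num) hT (by norm_num)
      (by linarith) (by norm_num)
  rcases le_or_gt (Real.log w) (11 / 4) with c6 | c6
  · have hT := mb_TT_ge c1 c6
    exact key 0.5082 (3 * 3.1415 / (4 * (11 / 4))) (5 / 2) ht3 (by norm_num) hT (by norm_num)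
      (by linarith) (by norm_num)
  · have hT := mb_TT_ge c1 hL
    have h1 := le_U_large hw0 (by linarith : 9 / 10 ≤ Real.log w)
    have p4hi := mb_pi4_hi
    have p2lo := mb_pisq_lo
    have h4 : Real.pi ^ 4 / (12 * (Real.log w ^ 2 + 4)) ≤ 0.8 := by
      rw [div_le_iff₀ (by positivity)]
      have : (11 / 4 : ℝ) ^ 2 ≤ Real.log w ^ 2 := pow_le_pow_left₀ (by norm_num) c6.le 2
      norm_num at this ⊢
      linarith
    have h5 : (11 / 4 : ℝ) ^ 2 ≤ Real.log w ^ 2 := pow_le_pow_left₀ (by norm_num) c6.le 2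
    have h6 : 3.1 ≤ aa w := by
      apply le_of_sq_le_sq _ ha.le
      norm_num at h5 h4 p2lo ⊢
      linarith
    exact key 0.5082 (3 * 3.1415 / (4 * 3)) 3.1 ht3 (by norm_num) hT (by norm_num)
      h6 (by norm_num)

theorem P_T_sub_ts_ge (H : HypM n w) :
    58 / 10 ≤ PPn n w * (TT w - ts w) ^ 2 / (1 + TT w ^ 2) := by
  rcases le_or_gt (Real.log w) 3 with c1 | c1
  · have := P_T_sub_ts_ge_small H c1
    linarith
  have hw := H.hw
  have hw0 : 0 < w := by linarith
  have hpi := Real.pi_pos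
  have plo := mb_pi_lo
  have phi := mb_pi_hi
  have p2lo := mb_pisq_lo
  have hσ := H.sg_pos
  have hL : 3 * Real.pi / 10 < Real.log w := by linarith
  have hT : TT w = 3 * Real.pi / (4 * Real.log w) := by
    unfold TT
    rw [if_neg (not_le.2 hL)]
  have hT0 := H.TT_pos
  refine le_trans ?_ (P_T_sub_ts_ge' H hL)
  have key : ∀ l s T₀ : ℝ, 0 < l → l ≤ Real.log w → 3 * 3.1416 / (4 * l) ≤ T₀ → sg n w ≤ s →
      58 / 10 * (s * (1 + T₀ ^ 2)) ≤ 9.869 / 16 →
      58 / 10 ≤ Real.pi ^ 2 / 16 / (sg n w * (1 + TT w ^ 2)) := by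
    intro l s T₀ hl h1 h2 h3 h4
    rw [le_div_iff₀ (by positivity)]
    have h5 : TT w ≤ T₀ := by
      refine le_trans ?_ h2
      rw [hT, div_le_div_iff₀ (by linarith) (by positivity)]
      nlinarith
    have h6 : TT w ^ 2 ≤ T₀ ^ 2 := pow_le_pow_left₀ hT0.le h5 2
    have h7 : sg n w * (1 + TT w ^ 2) ≤ s * (1 + T₀ ^ 2) := by
      apply mul_le_mul h3 (by linarith) (by positivity) (by linarith)
    linarith
  have hsg : ∀ l s : ℝ, 0 ≤ l → 0 < s → Real.log w ≤ l → l ^ 2 + 3.29 ≤ (100 * s) ^ 2 →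
      sg n w ≤ s := by
    intro l s hl hs h1 h2
    have h3 := H.sg_le_of h1
    have h4 : Real.sqrt (l ^ 2 + Real.pi ^ 2 / 3) ≤ 100 * s := by
      rw [Real.sqrt_le_left (by positivity)]
      have := mb_pisq_hi
      linarith
    linarith
  rcases le_or_gt (Real.log w) 6 with c2 | c2
  · have hs := hsg 6 0.0627 (by norm_num) (by norm_num) c2 (by norm_num)
    exact key 3 0.0627 0.7855 (by norm_num) c1.le (by norm_num) hs (by norm_num)
  rcases le_or_gt (Real.log w) 8 with c3 | c3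
  · have hs := hsg 8 0.0821 (by norm_num) (by norm_num) c3 (by norm_num)
    exact key 6 0.0821 0.3928 (by norm_num) c2.le (by norm_num) hs (by norm_num)
  rcases le_or_gt (Real.log w) 9 with c4 | c4
  · have hs := hsg 9 0.0919 (by norm_num) (by norm_num) c4 (by norm_num)
    exact key 8 0.0919 0.2946 (by norm_num) c3.le (by norm_num) hs (by norm_num)
  · have hs : sg n w ≤ 0.0948 := by
      have h := H.inv_sg_ge
      rw [le_div_iff₀ hσ] at h
      norm_num at h ⊢
      linarith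
    exact key 9 0.0948 0.2619 (by norm_num) c4.le (by norm_num) hs (by norm_num)

/-! ## The phase -/

/-- cosine of the difference of two angles with tangents `t ≤ 0.81`, `s ≤ √2-1` -/
private lemma mb_phase {t s : ℝ} (ht : 0 ≤ t) (ht1 : t ≤ 81 / 100) (hs : 0 ≤ s)
    (hs1 : s ^ 2 + 2 * s ≤ 1) :
    (777 / 1000) ^ 2 * ((1 + t ^ 2) * (1 + s ^ 2)) ≤ (1 + t * s) ^ 2 := by
  have hs2 : s ≤ 0.4143 := by nlinarith
  have hs3 : s ^ 2 ≤ 0.172 := by nlinarith
  have hK : (777 / 1000 : ℝ) ^ 2 * (1 + t ^ 2) ≤ 1 := by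
    have : t ^ 2 ≤ (81 / 100) ^ 2 := pow_le_pow_left₀ ht ht1 2
    norm_num at this ⊢
    linarith
  rcases le_or_gt 0.21 t with h | h
  · have h1 : 0 ≤ s * (2 * t + t ^ 2 * s - s) := by
      apply mul_nonneg hs
      have : 0 ≤ t ^ 2 * s := by positivity
      linarith
    have h2 : 0 ≤ (1 - (777 / 1000 : ℝ) ^ 2 * (1 + t ^ 2)) * (1 + s ^ 2) :=
      mul_nonneg (by linarith) (by positivity)
    nlinarith
  · have h1 : t ^ 2 ≤ 0.21 ^ 2 := pow_le_pow_left₀ ht h.le 2
    have h2 : 0 ≤ t * s := mul_nonneg ht hs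
    have h3 : (1 + t ^ 2) * (1 + s ^ 2) ≤ (1 + 0.21 ^ 2) * (1 + 0.172) := by
      apply mul_le_mul (by linarith) (by linarith) (by positivity) (by norm_num)
    have h4 : 1 ≤ (1 + t * s) ^ 2 := by nlinarith
    norm_num at h3 ⊢
    linarith

/-- the phase of the main term -/
theorem re_Mcx {k : ℕ} (H : HypM n w) (hk : bb w = k * Real.pi / (2 * Real.sqrt n)) :
    777 / 1000 * Mamp n w ≤ (-1 : ℝ) ^ k * (Mcx n w).re := by
  have hw := H.hw
  have hw0 : 0 < w := by linarith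
  have hpi := Real.pi_pos
  have ha := aa_pos hw0
  have hb := bb_pos hw0
  have hR := H.R_ge
  have hR0 : 0 < Real.sqrt n := by linarith
  have hn : (0 : ℝ) < n := Real.sqrt_pos.1 hR0
  -- the exponential
  have hexp : exp (2 * Real.sqrt n * ((aa w : ℂ) + (bb w : ℂ) * I)) =
      ((Real.exp (2 * PPn n w) * (-1) ^ k : ℝ) : ℂ) := by
    have h1 : (2 * Real.sqrt n * ((aa w : ℂ) + (bb w : ℂ) * I) : ℂ) =
        ((2 * PPn n w : ℝ) : ℂ) + (k : ℂ) * (Real.pi * I) := by
      rw [hk]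
      unfold PPn
      push_cast
      have : ((Real.sqrt n : ℝ) : ℂ) ≠ 0 := by exact_mod_cast hR0.ne'
      field_simp
    rw [h1, Complex.exp_add, Complex.exp_nat_mul, Complex.exp_pi_mul_I]
    push_cast
    rfl
  -- the root of `2γ`
  set c : ℂ := (2 * gam w) ^ (1 / 2 : ℂ) with hc
  have hg := gam_eq w
  have hgR := gR_pos hw0
  have hgI := gI_pos hw0
  have hgIR : gI w ≤ gR w := by
    unfold gI gR
    apply div_le_div_of_nonneg_right _ (by positivity)
    nlinarith
  have hre : (2 * gam w).re = 2 * gR w := by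
    rw [hg]; simp
  have him : (2 * gam w).im = 2 * gI w := by
    rw [hg]; simp
  have hne : (2 * gam w) ≠ 0 := by
    intro h
    rw [h] at hre
    simp at hre
    linarith
  have hcsq : c ^ 2 = 2 * gam w := by
    rw [hc, ← Complex.cpow_nat_mul]
    norm_num
  have hcre : 0 < c.re := by
    rw [hc, Complex.cpow_def_of_ne_zero hne, Complex.exp_re]
    apply mul_pos (Real.exp_pos _)
    have h1 : (Complex.log (2 * gam w) * (1 / 2 : ℂ)).im = (2 * gam w).arg / 2 := by
      rw [show (Complex.log (2 * gam w) * (1 / 2 : ℂ)) =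
        ((1 / 2 : ℝ) : ℂ) * Complex.log (2 * gam w) by push_cast; ring, Complex.im_ofReal_mul,
        Complex.log_im]
      ring
    rw [h1]
    have h2 := Complex.abs_arg_lt_pi_div_two_iff.2 (Or.inl (by rw [hre]; positivity) :
      0 < (2 * gam w).re ∨ 2 * gam w = 0)
    obtain ⟨h3, h4⟩ := abs_lt.1 h2
    apply Real.cos_pos_of_mem_Ioo
    constructor <;> linarith
  have hpq1 : c.re ^ 2 - c.im ^ 2 = 2 * gR w := by
    rw [← hre, ← hcsq, sq c, Complex.mul_re]
    ring
  have hpq2 : 2 * c.re * c.im = 2 * gI w := by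
    rw [← him, ← hcsq, sq c, Complex.mul_im]
    ring
  have hcim : 0 < c.im := by
    by_contra h
    push Not at h
    have : 2 * c.re * c.im ≤ 0 := mul_nonpos_of_nonneg_of_nonpos (by positivity) h
    linarith
  have hN : Complex.normSq c = 2 * ‖gam w‖ := by
    rw [Complex.normSq_eq_norm_sq, ← norm_pow, hcsq, norm_mul]
    simp
  have hN2 : Complex.normSq c = c.re ^ 2 + c.im ^ 2 := by
    rw [Complex.normSq_apply]; ring
  have hN0 : 0 < Complex.normSq c := by rw [hN2]; positivity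
  set z : ℂ := ((aa w : ℂ) + (bb w : ℂ) * I) / c with hz
  have hzre : z.re = (aa w * c.re + bb w * c.im) / Complex.normSq c := by
    rw [hz, Complex.div_re]
    simp only [Complex.add_re, Complex.ofReal_re, Complex.mul_re, Complex.I_re, mul_zero,
      Complex.ofReal_im, Complex.I_im, mul_one, sub_self, add_zero, Complex.add_im, Complex.mul_im,
      zero_add]
    ring
  have hM : (-1 : ℝ) ^ k * (Mcx n w).re = 1 / (Real.pi * n) * z.re * Real.exp (2 * PPn n w) := by
    unfold Mcx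
    rw [hexp, ← hc, ← hz]
    have h1 : (1 / (Real.pi * n) * z * ((Real.exp (2 * PPn n w) * (-1) ^ k : ℝ) : ℂ) : ℂ) =
        ((1 / (Real.pi * n) * (Real.exp (2 * PPn n w) * (-1) ^ k) : ℝ) : ℂ) * z := by
      push_cast
      ring
    rw [h1, Complex.re_ofReal_mul]
    have h2 : ((-1 : ℝ) ^ k) * (-1) ^ k = 1 := by
      rw [← mul_pow]; norm_num
    calc (-1 : ℝ) ^ k * (1 / (Real.pi * n) * (Real.exp (2 * PPn n w) * (-1) ^ k) * z.re)
        = (((-1 : ℝ) ^ k) * (-1) ^ k) * (1 / (Real.pi * n) * z.re * Real.exp (2 * PPn n w)) := by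
          ring
      _ = _ := by rw [h2, one_mul]
  have hzz : 777 / 1000 * Real.sqrt (‖VV w‖ / (2 * ‖gam w‖)) ≤ z.re := by
    rw [norm_VV hw0, ← hN, hzre]
    have hq0 : 0 ≤ (aa w * c.re + bb w * c.im) / Complex.normSq c := by positivity
    have h1 : 777 / 1000 * Real.sqrt ((aa w ^ 2 + bb w ^ 2) / Complex.normSq c) =
        Real.sqrt ((777 / 1000) ^ 2 * ((aa w ^ 2 + bb w ^ 2) / Complex.normSq c)) := by
      rw [Real.sqrt_mul (by positivity), Real.sqrt_sq (by norm_num)]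
    rw [h1]
    apply Real.sqrt_le_iff.2 ⟨hq0, ?_⟩
    have ht := ts_le H
    have ht0 := ts_pos H
    have hs0 : 0 < c.im / c.re := by positivity
    have hs1 : (c.im / c.re) ^ 2 + 2 * (c.im / c.re) ≤ 1 := by
      have : (c.im / c.re) ^ 2 + 2 * (c.im / c.re) =
          (c.im ^ 2 + 2 * c.re * c.im) / c.re ^ 2 := by
        field_simp
      rw [this, div_le_one (by positivity)]
      linarith
    have hph := mb_phase ht0.le ht hs0.le hs1
    have e1 : aa w ^ 2 + bb w ^ 2 = aa w ^ 2 * (1 + ts w ^ 2) := by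
      unfold ts
      field_simp
    have e2 : Complex.normSq c = c.re ^ 2 * (1 + (c.im / c.re) ^ 2) := by
      rw [hN2]
      field_simp
    have e3 : aa w * c.re + bb w * c.im = aa w * c.re * (1 + ts w * (c.im / c.re)) := by
      unfold ts
      field_simp
    rw [div_pow (aa w * c.re + bb w * c.im), ← mul_div_assoc, div_le_div_iff₀ hN0 (by positivity)]
    have h5 : (777 / 1000) ^ 2 * (aa w ^ 2 + bb w ^ 2) * Complex.normSq c ≤
        (aa w * c.re + bb w * c.im) ^ 2 := by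
      rw [e1, e3]
      nth_rewrite 1 [e2]
      calc (777 / 1000) ^ 2 * (aa w ^ 2 * (1 + ts w ^ 2)) * (c.re ^ 2 * (1 + (c.im / c.re) ^ 2))
          = (aa w * c.re) ^ 2 *
            ((777 / 1000) ^ 2 * ((1 + ts w ^ 2) * (1 + (c.im / c.re) ^ 2))) := by ring
        _ ≤ (aa w * c.re) ^ 2 * (1 + ts w * (c.im / c.re)) ^ 2 :=
            mul_le_mul_of_nonneg_left hph (by positivity)
        _ = _ := by ring
    calc (777 / 1000) ^ 2 * (aa w ^ 2 + bb w ^ 2) * Complex.normSq c ^ 2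
        = ((777 / 1000) ^ 2 * (aa w ^ 2 + bb w ^ 2) * Complex.normSq c) * Complex.normSq c := by
          ring
      _ ≤ _ := mul_le_mul_of_nonneg_right h5 hN0.le
  rw [hM]
  unfold Mamp
  calc 777 / 1000 * (1 / (Real.pi * n) * Real.sqrt (‖VV w‖ / (2 * ‖gam w‖)) *
        Real.exp (2 * PPn n w))
      = 1 / (Real.pi * n) * (777 / 1000 * Real.sqrt (‖VV w‖ / (2 * ‖gam w‖))) *
        Real.exp (2 * PPn n w) := by ring
    _ ≤ _ := by
        apply mul_le_mul_of_nonneg_right _ (Real.exp_pos _).le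
        exact mul_le_mul_of_nonneg_left hzz (by positivity)

end Pool.Agent.Lib.Durfee
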