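import Pool.Agent.Lib.MP_9393b1_co.Euler

set_option autoImplicit false

namespace Pool.Agent.Lib.Durfee

open Complex MeasureTheory

/-- `x_j = w e^{-σ(j+1/2)}`. -/
noncomputable def xj (w σ : ℝ) (j : ℕ) : ℝ := w * Real.exp (-(σ * ((j : ℝ) + 1 / 2)))

/-- weight `2x/(1+x)²  ( = 1/(1+cosh(log x)) )`. -/
noncomputable def wt (x : ℝ) : ℝ := 2 * x / (1 + x) ^ 2

noncomputable def B0 (w σ : ℝ) : ℝ := ∑' j : ℕ, (2 * Real.log (1 + xj w σ j) - wt (xj w σ j))

noncomputable def Z1 (w σ β : ℝ) : ℝ := ∑' j : ℕ, wt (xj w σ j) * Real.sin (β * ((j : ℝ) + 1 / 2))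

private lemma norm_sq_factor (x φ : ℝ) :
    ‖(1 + I * x * exp (I * φ) : ℂ)‖ ^ 2 = 1 + x ^ 2 - 2 * x * Real.sin φ := by
  have h : (1 + I * x * exp (I * φ) : ℂ) =
      ((1 - x * Real.sin φ : ℝ) : ℂ) + ((x * Real.cos φ : ℝ) : ℂ) * I := by
    have : (I * φ : ℂ) = φ * I := mul_comm _ _
    rw [this, Complex.exp_mul_I]
    push_cast
    linear_combination (x : ℂ) * Complex.sin φ * Complex.I_sq
  rw [h, ← Complex.normSq_eq_norm_sq, Complex.normSq_add_mul_I]
  have := Real.sin_sq_add_cos_sq φ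
  nlinarith [this]

/-- one pair of factors -/
theorem pair_norm_le {x : ℝ} (hx : 0 < x) (θ ψ : ℝ) :
    ‖(1 + I * x * exp (I * θ) * exp (-(I * ψ))) * (1 + I * x * exp (-(I * θ)) * exp (-(I * ψ)))‖ ≤
      Real.exp (2 * Real.log (1 + x) - wt x + Real.cos θ * (wt x * Real.sin ψ)) := by
  have e1 : (1 + I * x * exp (I * θ) * exp (-(I * ψ)) : ℂ) =
      1 + I * x * exp (I * ((θ - ψ : ℝ) : ℂ)) := by
    rw [mul_assoc (I * (x : ℂ)), ← Complex.exp_add]
    congr 3; push_cast; ring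
  have e2 : (1 + I * x * exp (-(I * θ)) * exp (-(I * ψ)) : ℂ) =
      1 + I * x * exp (I * ((-θ - ψ : ℝ) : ℂ)) := by
    rw [mul_assoc (I * (x : ℂ)), ← Complex.exp_add]
    congr 3; push_cast; ring
  rw [e1, e2]
  set c : ℝ := Real.cos θ * Real.sin ψ with hc
  have hc1 : |c| ≤ 1 := by
    rw [hc, abs_mul]
    exact mul_le_one₀ (Real.abs_cos_le_one θ) (abs_nonneg _) (Real.abs_sin_le_one ψ)
  obtain ⟨hcl, hcu⟩ := abs_le.mp hc1
  have hR : 0 ≤ 1 + x ^ 2 + 2 * x * c := by nlinarith [sq_nonneg (1 - x)]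
  have hnorm : ‖(1 + I * x * exp (I * ((θ - ψ : ℝ) : ℂ))) *
      (1 + I * x * exp (I * ((-θ - ψ : ℝ) : ℂ)))‖ ≤ 1 + x ^ 2 + 2 * x * c := by
    rw [← pow_le_pow_iff_left₀ (norm_nonneg _) hR two_ne_zero, norm_mul, mul_pow, norm_sq_factor,
      norm_sq_factor]
    have s1 : Real.sin (θ - ψ) = -c + Real.sin θ * Real.cos ψ := by
      rw [Real.sin_sub, hc]; ring
    have s2 : Real.sin (-θ - ψ) = -c - Real.sin θ * Real.cos ψ := by
      rw [Real.sin_sub, Real.sin_neg, Real.cos_neg, hc]; ring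
    rw [s1, s2]
    nlinarith [sq_nonneg (2 * x * (Real.sin θ * Real.cos ψ))]
  refine hnorm.trans ?_
  have hx1 : 0 < 1 + x := by linarith
  have e3 : Real.exp (2 * Real.log (1 + x) - wt x + Real.cos θ * (wt x * Real.sin ψ)) =
      (1 + x) ^ 2 * Real.exp (-((1 - c) * wt x)) := by
    have : 2 * Real.log (1 + x) - wt x + Real.cos θ * (wt x * Real.sin ψ) =
        Real.log (1 + x) + Real.log (1 + x) + (-((1 - c) * wt x)) := by
      rw [hc]; ring
    rw [this, Real.exp_add, Real.exp_add, Real.exp_log hx1]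
    ring
  rw [e3]
  have h4 : 1 - (1 - c) * wt x ≤ Real.exp (-((1 - c) * wt x)) := by
    have := Real.add_one_le_exp (-((1 - c) * wt x))
    linarith
  have h5 : (1 + x) ^ 2 * (1 - (1 - c) * wt x) = 1 + x ^ 2 + 2 * x * c := by
    unfold wt
    field_simp
    ring
  rw [← h5]
  exact mul_le_mul_of_nonneg_left h4 (by positivity)

private lemma xj_pos {w : ℝ} (hw : 0 < w) (σ : ℝ) (j : ℕ) : 0 < xj w σ j :=
  mul_pos hw (Real.exp_pos _)

private lemma summable_xj (w : ℝ) {σ : ℝ} (hσ : 0 < σ) : Summable (fun j : ℕ => xj w σ j) := by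
  have h : (fun j : ℕ => xj w σ j) =
      fun j : ℕ => (w * Real.exp (-(σ / 2))) * Real.exp (-σ) ^ j := by
    funext j
    unfold xj
    rw [← Real.exp_nat_mul, mul_assoc, ← Real.exp_add]
    congr 2
    ring
  rw [h]
  exact (summable_geometric_of_lt_one (Real.exp_pos _).le
    (Real.exp_lt_one_iff.mpr (by linarith))).mul_left _

private lemma wt_nonneg {x : ℝ} (hx : 0 < x) : 0 ≤ wt x := by
  unfold wt; positivity

private lemma wt_le {x : ℝ} (hx : 0 < x) : wt x ≤ 2 * x := by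
  unfold wt
  rw [div_le_iff₀ (by positivity)]
  nlinarith [mul_pos hx hx, mul_pos (mul_pos hx hx) hx]

theorem B0_summable {w σ : ℝ} (hw : 0 < w) (hσ : 0 < σ) :
    Summable (fun j : ℕ => 2 * Real.log (1 + xj w σ j) - wt (xj w σ j)) := by
  refine Summable.of_norm_bounded (g := fun j => 4 * xj w σ j) ((summable_xj w hσ).mul_left 4) ?_
  intro j
  have hx := xj_pos hw σ j
  have h1 : Real.log (1 + xj w σ j) ≤ xj w σ j := by
    have := Real.log_le_sub_one_of_pos (by linarith : 0 < 1 + xj w σ j)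
    linarith
  have h2 : 0 ≤ Real.log (1 + xj w σ j) := Real.log_nonneg (by linarith)
  have h3 := wt_nonneg hx
  have h4 := wt_le hx
  rw [Real.norm_eq_abs, abs_le]
  constructor <;> linarith

theorem Z1_summable {w σ : ℝ} (hw : 0 < w) (hσ : 0 < σ) (β : ℝ) :
    Summable (fun j : ℕ => wt (xj w σ j) * Real.sin (β * ((j : ℝ) + 1 / 2))) := by
  refine Summable.of_norm_bounded (g := fun j => 2 * xj w σ j) ((summable_xj w hσ).mul_left 2) ?_
  intro j
  have hx := xj_pos hw σ j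
  rw [norm_mul, Real.norm_eq_abs, Real.norm_eq_abs, abs_of_nonneg (wt_nonneg hx)]
  have h4 := wt_le hx
  have h5 := Real.abs_sin_le_one (β * ((j : ℝ) + 1 / 2))
  nlinarith [wt_nonneg hx, abs_nonneg (Real.sin (β * ((j : ℝ) + 1 / 2)))]

/-- The off-window inequality (tangent at `c = 1`). -/
theorem norm_PP_le {w σ : ℝ} (hw : 0 < w) (hσ : 0 < σ) (θ β : ℝ) :
    ‖PP w θ ((σ : ℂ) + β * I)‖ ≤ Real.exp (B0 w σ + Real.cos θ * Z1 w σ β) := by
  have hs : 0 < ((σ : ℂ) + β * I).re := by simpa using hσ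
  have hL := ((Lam_tendsto hs (I * w * exp (I * θ))).mul
    (Lam_tendsto hs (I * w * exp (-(I * θ))))).norm
  have hB := (B0_summable hw hσ).hasSum.tendsto_sum_nat
  have hZ := (Z1_summable hw hσ β).hasSum.tendsto_sum_nat
  have hE := (Real.continuous_exp.tendsto _).comp (hB.add (hZ.const_mul (Real.cos θ)))
  refine le_of_tendsto_of_tendsto' hL hE fun N => ?_
  rw [← Finset.prod_mul_distrib, norm_prod]
  simp only [Function.comp]
  rw [Finset.mul_sum, ← Finset.sum_add_distrib, Real.exp_sum]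
  apply Finset.prod_le_prod
  · intro j _; exact norm_nonneg _
  · intro j _
    have e : exp (-(((σ : ℂ) + β * I) * ((j : ℂ) + 1 / 2))) =
        ((Real.exp (-(σ * ((j : ℝ) + 1 / 2))) : ℝ) : ℂ) *
          exp (-(I * ((β * ((j : ℝ) + 1 / 2) : ℝ) : ℂ))) := by
      rw [Complex.ofReal_exp, ← Complex.exp_add]
      congr 1; push_cast; ring
    have h := pair_norm_le (xj_pos hw σ j) θ (β * ((j : ℝ) + 1 / 2))
    have e1 : (1 + I * w * exp (I * θ) * exp (-(((σ : ℂ) + β * I) * ((j : ℂ) + 1 / 2)))) =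
        1 + I * (xj w σ j : ℂ) * exp (I * θ) *
          exp (-(I * ((β * ((j : ℝ) + 1 / 2) : ℝ) : ℂ))) := by
      rw [e]; unfold xj; push_cast; ring
    have e2 : (1 + I * w * exp (-(I * θ)) * exp (-(((σ : ℂ) + β * I) * ((j : ℂ) + 1 / 2)))) =
        1 + I * (xj w σ j : ℂ) * exp (-(I * θ)) *
          exp (-(I * ((β * ((j : ℝ) + 1 / 2) : ℝ) : ℂ))) := by
      rw [e]; unfold xj; push_cast; ring
    rw [e1, e2]
    exact h

end Pool.Agent.Lib.Durfee
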