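import Pool.Agent.Lib.MP_9393b1_co.Off
import Pool.Agent.Lib.MP_9393b1_co.Midpoint

set_option autoImplicit false

namespace Pool.Agent.Lib.Durfee

open Complex MeasureTheory Filter Topology

/-- `h(u) = 2 log(1 + w e^{-u}) - wt(w e^{-u})` -/
noncomputable def offB_h (w u : ℝ) : ℝ :=
  2 * Real.log (1 + w * Real.exp (-u)) - wt (w * Real.exp (-u))

lemma offB_x_pos {w : ℝ} (hw : 0 < w) (u : ℝ) : 0 < w * Real.exp (-u) :=
  mul_pos hw (Real.exp_pos _)

lemma offB_hasDerivAt_x (w u : ℝ) :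
    HasDerivAt (fun u : ℝ => w * Real.exp (-u)) (-(w * Real.exp (-u))) u := by
  have h := ((hasDerivAt_neg u).exp).const_mul w
  refine h.congr_deriv ?_
  ring

lemma offB_hasDerivAt_h {w : ℝ} (hw : 0 < w) (u : ℝ) :
    HasDerivAt (offB_h w) (-(6 * (w * Real.exp (-u) / (1 + w * Real.exp (-u))) ^ 2 -
      4 * (w * Real.exp (-u) / (1 + w * Real.exp (-u))) ^ 3)) u := by
  have hx := offB_x_pos hw u
  have h1 := offB_hasDerivAt_x w u
  have h2 : HasDerivAt (fun u : ℝ => 1 + w * Real.exp (-u)) (-(w * Real.exp (-u))) u :=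
    h1.const_add 1
  have hne : (1 + w * Real.exp (-u)) ≠ 0 := by positivity
  have h3 := (h2.log hne).const_mul 2
  have h2p : HasDerivAt (fun u : ℝ => (1 + w * Real.exp (-u)) ^ 2)
      (2 * (1 + w * Real.exp (-u)) * (-(w * Real.exp (-u)))) u := by
    refine (h2.pow 2).congr_deriv ?_
    norm_num
  have h4 : HasDerivAt (fun u : ℝ => 2 * (w * Real.exp (-u)) / (1 + w * Real.exp (-u)) ^ 2)
      ((2 * -(w * Real.exp (-u)) * (1 + w * Real.exp (-u)) ^ 2 - 2 * (w * Real.exp (-u)) *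
        (2 * (1 + w * Real.exp (-u)) * (-(w * Real.exp (-u))))) / ((1 + w * Real.exp (-u)) ^ 2) ^ 2) u :=
    (h1.const_mul 2).div h2p (pow_ne_zero 2 hne)
  have h5 := h3.sub h4
  refine h5.congr_deriv ?_
  generalize w * Real.exp (-u) = x at hne
  field_simp
  ring

lemma offB_y_mem {x : ℝ} (hx : 0 < x) : 0 ≤ x / (1 + x) ∧ x / (1 + x) ≤ 1 := by
  constructor
  · positivity
  · rw [div_le_one (by positivity)]; linarith

lemma offB_y_mono {x x' : ℝ} (hx : 0 < x) (h : x ≤ x') : x / (1 + x) ≤ x' / (1 + x') := by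
  rw [div_le_div_iff₀ (by positivity) (by linarith)]
  nlinarith

lemma offB_poly_mono {y y' : ℝ} (h0 : 0 ≤ y) (h : y ≤ y') (h1 : y' ≤ 1) :
    6 * y ^ 2 - 4 * y ^ 3 ≤ 6 * y' ^ 2 - 4 * y' ^ 3 := by
  have h2 : 0 ≤ 6 * (y + y') - 4 * (y ^ 2 + y * y' + y' ^ 2) := by
    nlinarith [mul_nonneg h0 (sub_nonneg.2 (h.trans h1)), mul_nonneg (h0.trans h) (sub_nonneg.2 h1),
      sq_nonneg (y - y')]
  nlinarith [mul_nonneg (sub_nonneg.2 h) h2]

lemma offB_convex {w : ℝ} (hw : 0 < w) : ConvexOn ℝ Set.univ (offB_h w) := by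
  apply MonotoneOn.convexOn_of_deriv convex_univ
  · exact fun u _ => (offB_hasDerivAt_h hw u).continuousAt.continuousWithinAt
  · exact fun u _ => (offB_hasDerivAt_h hw u).differentiableAt.differentiableWithinAt
  · intro u _ v _ huv
    rw [(offB_hasDerivAt_h hw u).deriv, (offB_hasDerivAt_h hw v).deriv]
    apply neg_le_neg
    have hx : w * Real.exp (-v) ≤ w * Real.exp (-u) := by
      apply mul_le_mul_of_nonneg_left _ hw.le
      exact Real.exp_le_exp.2 (by linarith)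
    exact offB_poly_mono (offB_y_mem (offB_x_pos hw v)).1 (offB_y_mono (offB_x_pos hw v) hx)
      (offB_y_mem (offB_x_pos hw u)).2

lemma offB_continuous {w : ℝ} (hw : 0 < w) : Continuous (offB_h w) :=
  continuous_iff_continuousAt.2 fun u => (offB_hasDerivAt_h hw u).continuousAt

lemma offB_wt_nonneg {x : ℝ} (hx : 0 < x) : 0 ≤ wt x := by unfold wt; positivity

lemma offB_log_le {x : ℝ} (hx : 0 < x) : wt x ≤ 2 * Real.log (1 + x) := by
  have h1 : x / (1 + x) ≤ Real.log (1 + x) := by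
    have h2 := Real.one_sub_inv_le_log_of_pos (show 0 < 1 + x by positivity)
    have h3 : x / (1 + x) = 1 - (1 + x)⁻¹ := by field_simp; ring
    rw [h3]; exact h2
  have h4 : wt x ≤ 2 * (x / (1 + x)) := by
    unfold wt
    rw [mul_div_assoc]
    apply mul_le_mul_of_nonneg_left _ (by norm_num)
    apply div_le_div_of_nonneg_left hx.le (by positivity)
    nlinarith
  linarith

lemma offB_h_nonneg {w : ℝ} (hw : 0 < w) (u : ℝ) : 0 ≤ offB_h w u :=
  sub_nonneg.2 (offB_log_le (offB_x_pos hw u))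

lemma offB_log_integrable {w : ℝ} (hw : 0 < w) :
    IntegrableOn (fun u : ℝ => Real.log (1 + w * Real.exp (-u))) (Set.Ioi 0) := by
  have h1 : IntegrableOn (fun u : ℝ => w * Real.exp (-u)) (Set.Ioi 0) := by
    have := (exp_neg_integrableOn_Ioi 0 zero_lt_one).const_mul w
    simp only [neg_mul, one_mul] at this
    exact this
  refine Integrable.mono' h1 ?_ ?_
  · apply Continuous.aestronglyMeasurable
    apply Continuous.log (by fun_prop)
    intro u
    have := offB_x_pos hw u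
    positivity
  · refine Eventually.of_forall fun u => ?_
    have hx := offB_x_pos hw u
    rw [Real.norm_of_nonneg (Real.log_nonneg (by linarith))]
    have := Real.log_le_sub_one_of_pos (show 0 < 1 + w * Real.exp (-u) by positivity)
    linarith

lemma offB_hasDerivAt_F {w : ℝ} (hw : 0 < w) (u : ℝ) :
    HasDerivAt (fun u : ℝ => 2 / (1 + w * Real.exp (-u))) (wt (w * Real.exp (-u))) u := by
  have hx := offB_x_pos hw u
  have h2 : HasDerivAt (fun u : ℝ => 1 + w * Real.exp (-u)) (-(w * Real.exp (-u))) u :=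
    (offB_hasDerivAt_x w u).const_add 1
  have hne : (1 + w * Real.exp (-u)) ≠ 0 := by positivity
  have h3 := (hasDerivAt_const u (2 : ℝ)).div h2 hne
  refine h3.congr_deriv ?_
  unfold wt
  field_simp
  ring

lemma offB_tendsto_F (w : ℝ) :
    Tendsto (fun u : ℝ => 2 / (1 + w * Real.exp (-u))) atTop (𝓝 2) := by
  have h1 : Tendsto (fun u : ℝ => w * Real.exp (-u)) atTop (𝓝 (w * 0)) :=
    (Real.tendsto_exp_neg_atTop_nhds_zero).const_mul w
  rw [mul_zero] at h1
  have h2 := (tendsto_const_nhds (x := (2 : ℝ)) (f := atTop (α := ℝ))).div (h1.const_add 1) (by norm_num)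
  have h3 : (2 : ℝ) / (1 + 0) = 2 := by norm_num
  rw [h3] at h2
  exact h2

lemma offB_wt_integrable {w : ℝ} (hw : 0 < w) :
    IntegrableOn (fun u : ℝ => wt (w * Real.exp (-u))) (Set.Ioi 0) :=
  integrableOn_Ioi_deriv_of_nonneg' (fun u _ => offB_hasDerivAt_F hw u)
    (fun u _ => offB_wt_nonneg (offB_x_pos hw u)) (offB_tendsto_F w)

lemma offB_wt_integral {w : ℝ} (hw : 0 < w) :
    ∫ u in Set.Ioi (0 : ℝ), wt (w * Real.exp (-u)) = 2 * w / (1 + w) := by
  rw [integral_Ioi_of_hasDerivAt_of_nonneg' (fun u _ => offB_hasDerivAt_F hw u)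
    (fun u _ => offB_wt_nonneg (offB_x_pos hw u)) (offB_tendsto_F w)]
  simp only [neg_zero, Real.exp_zero, mul_one]
  have : (1 + w) ≠ 0 := by positivity
  field_simp
  ring

lemma offB_h_integrable {w : ℝ} (hw : 0 < w) : IntegrableOn (offB_h w) (Set.Ioi 0) :=
  ((offB_log_integrable hw).const_mul 2).sub (offB_wt_integrable hw)

lemma offB_h_integral {w : ℝ} (hw : 0 < w) : ∫ u in Set.Ioi (0 : ℝ), offB_h w u =
    2 * (∫ u in Set.Ioi (0 : ℝ), Real.log (1 + w * Real.exp (-u))) - 2 * w / (1 + w) := by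
  unfold offB_h
  rw [integral_sub ((offB_log_integrable hw).const_mul 2) (offB_wt_integrable hw),
    integral_const_mul, offB_wt_integral hw]

/-- `B0 ≤ (1/σ) (2 ∫_0^∞ log(1+w e^{-u}) du - 2w/(1+w))` (midpoint rule for a convex function). -/
theorem B0_le {w σ : ℝ} (hw : 0 < w) (hσ : 0 < σ) :
    B0 w σ ≤ (2 * (∫ u in Set.Ioi (0 : ℝ), Real.log (1 + w * Real.exp (-u))) - 2 * w / (1 + w)) / σ := by
  have hcomp : IntegrableOn (fun x => offB_h w (σ * x)) (Set.Ioi 0) := by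
    have h := (integrableOn_Ioi_comp_mul_left_iff (offB_h w) 0 hσ).2
    rw [mul_zero] at h
    exact h (offB_h_integrable hw)
  have hI : ∫ x in Set.Ioi (0 : ℝ), offB_h w (σ * x) = (2 * (∫ u in Set.Ioi (0 : ℝ),
      Real.log (1 + w * Real.exp (-u))) - 2 * w / (1 + w)) / σ := by
    rw [integral_comp_mul_left_Ioi (offB_h w) 0 hσ, mul_zero, offB_h_integral hw, smul_eq_mul]
    ring
  rw [← hI]
  unfold B0
  apply Real.tsum_le_of_sum_range_le
  · intro j
    exact offB_h_nonneg hw (σ * ((j : ℝ) + 1 / 2))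
  · intro N
    have h1 : ConvexOn ℝ (Set.Ici (0 : ℝ)) (fun x => offB_h w (σ * x)) := by
      have h2 := (offB_convex hw).comp_linearMap (LinearMap.mul ℝ ℝ σ)
      exact h2.subset (Set.subset_univ _) (convex_Ici 0)
    have h2 := midpoint_convex h1 ((offB_continuous hw).comp (by fun_prop)).continuousOn N
    refine (le_trans (le_of_eq ?_) h2).trans ?_
    · rfl
    · rw [intervalIntegral.integral_of_le (Nat.cast_nonneg N)]
      apply setIntegral_mono_set hcomp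
      · exact Eventually.of_forall fun x => offB_h_nonneg hw _
      · exact (Set.Ioc_subset_Ioi_self).eventuallyLE

/-! ### the oscillating sum -/

/-- partial sums of the sines -/
noncomputable def offB_S (β : ℝ) (J : ℕ) : ℝ := ∑ j ∈ Finset.range J, Real.sin (β * ((j : ℝ) + 1 / 2))

lemma offB_S_eq (β : ℝ) (J : ℕ) : 2 * Real.sin (β / 2) * offB_S β J = 1 - Real.cos (β * J) := by
  unfold offB_S
  induction J with
  | zero => simp
  | succ J ih =>
    rw [Finset.sum_range_succ, mul_add, ih]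
    have h1 := Real.cos_sub_cos (β * J) (β * (J + 1))
    have h2 : (β * J + β * (J + 1)) / 2 = β * ((J : ℝ) + 1 / 2) := by ring
    have h3 : (β * J - β * (J + 1)) / 2 = -(β / 2) := by ring
    rw [h2, h3, Real.sin_neg] at h1
    push_cast
    linarith

lemma offB_S_mem {β : ℝ} (hβ : 0 < β) (hβπ : β ≤ Real.pi) (J : ℕ) :
    0 ≤ offB_S β J ∧ offB_S β J ≤ 1 / Real.sin (β / 2) := by
  have hs : 0 < Real.sin (β / 2) := Real.sin_pos_of_pos_of_lt_pi (by linarith) (by linarith [Real.pi_pos])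
  have h := offB_S_eq β J
  constructor
  · by_contra hneg
    push Not at hneg
    nlinarith [Real.cos_le_one (β * J), mul_pos hs (neg_pos.2 hneg)]
  · rw [le_div_iff₀ hs]
    nlinarith [Real.neg_one_le_cos (β * J)]

lemma offB_abel (v : ℕ → ℝ) (β c : ℝ) (N : ℕ) :
    ∑ j ∈ Finset.range (N + 1), v j * Real.sin (β * ((j : ℝ) + 1 / 2)) =
      v 0 * c + v N * (offB_S β (N + 1) - c) +
        ∑ j ∈ Finset.range N, (v j - v (j + 1)) * (offB_S β (j + 1) - c) := by
  induction N with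
  | zero => simp [offB_S]; ring
  | succ N ih =>
    rw [Finset.sum_range_succ, ih, Finset.sum_range_succ]
    have h : offB_S β (N + 1 + 1) = offB_S β (N + 1) + Real.sin (β * (((N + 1 : ℕ) : ℝ) + 1 / 2)) := by
      unfold offB_S
      rw [Finset.sum_range_succ]
    rw [h]
    ring

lemma offB_xj_pos {w σ : ℝ} (hw : 0 < w) (j : ℕ) : 0 < xj w σ j := mul_pos hw (Real.exp_pos _)

lemma offB_xj_anti {w σ : ℝ} (hw : 0 < w) (hσ : 0 < σ) {i j : ℕ} (h : i ≤ j) : xj w σ j ≤ xj w σ i := by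
  unfold xj
  apply mul_le_mul_of_nonneg_left _ hw.le
  apply Real.exp_le_exp.2
  have : (i : ℝ) ≤ j := by exact_mod_cast h
  nlinarith

lemma offB_xj_le {w σ : ℝ} (hw : 0 < w) (hσ : 0 < σ) (j : ℕ) : xj w σ j ≤ w := by
  unfold xj
  have : Real.exp (-(σ * ((j : ℝ) + 1 / 2))) ≤ 1 := by
    rw [Real.exp_le_one_iff]
    have : (0 : ℝ) ≤ σ * ((j : ℝ) + 1 / 2) := by positivity
    linarith
  nlinarith

lemma offB_tendsto {w σ : ℝ} (hw : 0 < w) (hσ : 0 < σ) (β : ℝ) :
    Tendsto (fun N : ℕ => ∑ j ∈ Finset.range (N + 1), wt (xj w σ j) * Real.sin (β * ((j : ℝ) + 1 / 2)))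
      atTop (𝓝 (Z1 w σ β)) :=
  ((Z1_summable hw hσ β).hasSum.tendsto_sum_nat).comp (tendsto_add_atTop_nat 1)

lemma offB_wt_mono {x y : ℝ} (hx : 0 < x) (h : x ≤ y) (hy : y ≤ 1) : wt x ≤ wt y := by
  have hy0 : 0 < y := hx.trans_le h
  unfold wt
  rw [div_le_div_iff₀ (by positivity) (by positivity)]
  have h1 : 0 ≤ (y - x) * (1 - x * y) := by
    apply mul_nonneg (sub_nonneg.2 h)
    nlinarith
  nlinarith

lemma offB_dec {w σ : ℝ} (hw : 0 < w) (hw1 : w ≤ 1) (hσ : 0 < σ) (j : ℕ) :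
    0 ≤ wt (xj w σ j) - wt (xj w σ (j + 1)) :=
  sub_nonneg.2 (offB_wt_mono (offB_xj_pos hw _) (offB_xj_anti hw hσ (Nat.le_succ j))
    ((offB_xj_le hw hσ j).trans hw1))

/-- `z = (1-x)/(1+x)` -/
noncomputable def offB_z (x : ℝ) : ℝ := (1 - x) / (1 + x)

lemma offB_wt_z {x : ℝ} (hx : 0 < x) : wt x = (1 - offB_z x ^ 2) / 2 := by
  unfold wt offB_z
  field_simp
  ring

lemma offB_z_anti {x y : ℝ} (hx : 0 < x) (h : x ≤ y) : offB_z y ≤ offB_z x := by
  unfold offB_z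
  rw [div_le_div_iff₀ (by linarith) (by linarith)]
  nlinarith

lemma offB_q {z z' : ℝ} (h : z ≤ z') : |z' ^ 2 - z ^ 2| ≤ z' * |z'| - z * |z| := by
  rcases abs_cases z with ⟨h1, h1'⟩ | ⟨h1, h1'⟩ <;> rcases abs_cases z' with ⟨h2, h2'⟩ | ⟨h2, h2'⟩ <;>
    rw [h1, h2, abs_le] <;> constructor <;> nlinarith

lemma offB_tv {w σ : ℝ} (hw : 0 < w) (hσ : 0 < σ) (N : ℕ) :
    wt (xj w σ 0) + wt (xj w σ N) + ∑ j ∈ Finset.range N, |wt (xj w σ j) - wt (xj w σ (j + 1))| ≤ 1 := by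
  have h1 : ∀ j ∈ Finset.range N, |wt (xj w σ j) - wt (xj w σ (j + 1))| ≤
      (fun i => offB_z (xj w σ i) * |offB_z (xj w σ i)| / 2) (j + 1) -
        (fun i => offB_z (xj w σ i) * |offB_z (xj w σ i)| / 2) j := by
    intro j _
    rw [offB_wt_z (offB_xj_pos hw j), offB_wt_z (offB_xj_pos hw (j + 1))]
    have h2 := offB_q (offB_z_anti (offB_xj_pos hw (j + 1)) (offB_xj_anti (w := w) (σ := σ) hw hσ (Nat.le_succ j)))
    have h3 : (1 - offB_z (xj w σ j) ^ 2) / 2 - (1 - offB_z (xj w σ (j + 1)) ^ 2) / 2 =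
        (offB_z (xj w σ (j + 1)) ^ 2 - offB_z (xj w σ j) ^ 2) / 2 := by ring
    rw [h3, abs_div, abs_two]
    simp only
    linarith
  have h2 := (Finset.sum_le_sum h1).trans_eq (Finset.sum_range_sub
    (fun i => offB_z (xj w σ i) * |offB_z (xj w σ i)| / 2) N)
  rw [offB_wt_z (offB_xj_pos hw 0), offB_wt_z (offB_xj_pos hw N)]
  have h3 : offB_z (xj w σ N) * |offB_z (xj w σ N)| ≤ offB_z (xj w σ N) ^ 2 := by
    rcases abs_cases (offB_z (xj w σ N)) with ⟨h, _⟩ | ⟨h, _⟩ <;> rw [h] <;> nlinarith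
  have h4 : -(offB_z (xj w σ 0) * |offB_z (xj w σ 0)|) ≤ offB_z (xj w σ 0) ^ 2 := by
    rcases abs_cases (offB_z (xj w σ 0)) with ⟨h, _⟩ | ⟨h, _⟩ <;> rw [h] <;> nlinarith
  linarith

/-- Abel summation, unimodal weights. -/
theorem abs_Z1_le {w σ β : ℝ} (hw : 0 < w) (hσ : 0 < σ) (hβ : 0 < β) (hβπ : β ≤ Real.pi) :
    |Z1 w σ β| ≤ 1 / (2 * Real.sin (β / 2)) := by
  have hs : 0 < Real.sin (β / 2) := Real.sin_pos_of_pos_of_lt_pi (by linarith) (by linarith [Real.pi_pos])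
  refine le_of_tendsto ((offB_tendsto hw hσ β).abs) (Eventually.of_forall fun N => ?_)
  set M : ℝ := 1 / Real.sin (β / 2) with hM
  have hM0 : 0 ≤ M := by positivity
  rw [offB_abel (fun j => wt (xj w σ j)) β (M / 2) N]
  have hc : ∀ J, |offB_S β J - M / 2| ≤ M / 2 := by
    intro J
    have := offB_S_mem hβ hβπ J
    rw [abs_le]; constructor <;> linarith [this.1, this.2]
  have h1 : |wt (xj w σ 0) * (M / 2)| ≤ wt (xj w σ 0) * (M / 2) := by
    rw [abs_of_nonneg (mul_nonneg (offB_wt_nonneg (offB_xj_pos hw 0)) (by linarith))]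
  have h2 : |wt (xj w σ N) * (offB_S β (N + 1) - M / 2)| ≤ wt (xj w σ N) * (M / 2) := by
    rw [abs_mul, abs_of_nonneg (offB_wt_nonneg (offB_xj_pos hw N))]
    exact mul_le_mul_of_nonneg_left (hc _) (offB_wt_nonneg (offB_xj_pos hw N))
  have h3 : |∑ j ∈ Finset.range N, (wt (xj w σ j) - wt (xj w σ (j + 1))) * (offB_S β (j + 1) - M / 2)| ≤
      (∑ j ∈ Finset.range N, |wt (xj w σ j) - wt (xj w σ (j + 1))|) * (M / 2) := by
    refine (Finset.abs_sum_le_sum_abs _ _).trans ?_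
    rw [Finset.sum_mul]
    refine Finset.sum_le_sum fun j _ => ?_
    rw [abs_mul]
    exact mul_le_mul_of_nonneg_left (hc _) (abs_nonneg _)
  have h4 := offB_tv hw hσ N
  have h5 : 1 / (2 * Real.sin (β / 2)) = 1 * (M / 2) := by rw [hM]; field_simp
  rw [h5]
  calc |wt (xj w σ 0) * (M / 2) + wt (xj w σ N) * (offB_S β (N + 1) - M / 2) +
        ∑ j ∈ Finset.range N, (wt (xj w σ j) - wt (xj w σ (j + 1))) * (offB_S β (j + 1) - M / 2)|
      ≤ wt (xj w σ 0) * (M / 2) + wt (xj w σ N) * (M / 2) +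
        (∑ j ∈ Finset.range N, |wt (xj w σ j) - wt (xj w σ (j + 1))|) * (M / 2) :=
        (abs_add_three _ _ _).trans (add_le_add (add_le_add h1 h2) h3)
    _ = (wt (xj w σ 0) + wt (xj w σ N) + ∑ j ∈ Finset.range N, |wt (xj w σ j) - wt (xj w σ (j + 1))|) *
        (M / 2) := by ring
    _ ≤ 1 * (M / 2) := mul_le_mul_of_nonneg_right h4 (by linarith)

/-- Abel summation, `w ≤ 1` (decreasing weights). -/
theorem abs_Z1_le_of_le_one {w σ β : ℝ} (hw : 0 < w) (hw1 : w ≤ 1) (hσ : 0 < σ) (hβ : 0 < β)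
    (hβπ : β ≤ Real.pi) : |Z1 w σ β| ≤ wt w / Real.sin (β / 2) := by
  have hs : 0 < Real.sin (β / 2) := Real.sin_pos_of_pos_of_lt_pi (by linarith) (by linarith [Real.pi_pos])
  refine le_of_tendsto ((offB_tendsto hw hσ β).abs) (Eventually.of_forall fun N => ?_)
  rw [offB_abel (fun j => wt (xj w σ j)) β 0 N]
  simp only [mul_zero, zero_add, sub_zero]
  have hv := offB_wt_nonneg (offB_xj_pos (σ := σ) hw N)
  rw [abs_of_nonneg (add_nonneg (mul_nonneg hv (offB_S_mem hβ hβπ _).1)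
    (Finset.sum_nonneg fun j _ => mul_nonneg (offB_dec hw hw1 hσ j) (offB_S_mem hβ hβπ _).1))]
  have h1 : ∑ j ∈ Finset.range N, (wt (xj w σ j) - wt (xj w σ (j + 1))) * offB_S β (j + 1) ≤
      ∑ j ∈ Finset.range N, (wt (xj w σ j) - wt (xj w σ (j + 1))) * (1 / Real.sin (β / 2)) :=
    Finset.sum_le_sum fun j _ => mul_le_mul_of_nonneg_left (offB_S_mem hβ hβπ _).2 (offB_dec hw hw1 hσ j)
  have h2 : wt (xj w σ N) * offB_S β (N + 1) ≤ wt (xj w σ N) * (1 / Real.sin (β / 2)) :=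
    mul_le_mul_of_nonneg_left (offB_S_mem hβ hβπ _).2 hv
  rw [← Finset.sum_mul, Finset.sum_range_sub' (fun j => wt (xj w σ j))] at h1
  have h3 : wt (xj w σ 0) ≤ wt w := offB_wt_mono (offB_xj_pos hw 0) (offB_xj_le hw hσ 0) hw1
  have h4 : wt (xj w σ 0) * (1 / Real.sin (β / 2)) ≤ wt w / Real.sin (β / 2) := by
    rw [mul_one_div]
    exact div_le_div_of_nonneg_right h3 hs.le
  nlinarith

/-- in fact `0 ≤ Z1` for decreasing weights -/
theorem Z1_nonneg_of_le_one {w σ β : ℝ} (hw : 0 < w) (hw1 : w ≤ 1) (hσ : 0 < σ) (hβ : 0 < β)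
    (hβπ : β ≤ Real.pi) : 0 ≤ Z1 w σ β := by
  refine ge_of_tendsto (offB_tendsto hw hσ β) (Eventually.of_forall fun N => ?_)
  rw [offB_abel (fun j => wt (xj w σ j)) β 0 N]
  simp only [mul_zero, zero_add, sub_zero]
  exact add_nonneg (mul_nonneg (offB_wt_nonneg (offB_xj_pos hw N)) (offB_S_mem hβ hβπ _).1)
    (Finset.sum_nonneg fun j _ => mul_nonneg (offB_dec hw hw1 hσ j) (offB_S_mem hβ hβπ _).1)

end Pool.Agent.Lib.Durfee
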