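import Pool.Agent.Lib.MP_9393b1_co.OffB

/-! # Regime S: upper bounds for `Z1` -/

set_option autoImplicit false

namespace Pool.Agent.Lib.Durfee

open Complex MeasureTheory Filter Topology

private lemma zedS_r_mono {x y : ℝ} (hx : 0 < x) (h : x ≤ y) : 2 * x - wt x ≤ 2 * y - wt y := by
  have hy : 0 < y := hx.trans_le h
  have h1 : wt y - wt x = 2 * ((y - x) * (1 - x * y)) / ((1 + x) ^ 2 * (1 + y) ^ 2) := by
    unfold wt
    field_simp
    ring
  have h2 : wt y - wt x ≤ 2 * (y - x) := by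
    rw [h1, div_le_iff₀ (by positivity)]
    have h3 : 1 ≤ (1 + x) ^ 2 * (1 + y) ^ 2 := by
      have h4 : 1 ≤ (1 + x) ^ 2 := by nlinarith
      have h5 : 1 ≤ (1 + y) ^ 2 := by nlinarith
      nlinarith
    have h6 : 0 ≤ y - x := sub_nonneg.2 h
    have h7 : 0 < x * y := mul_pos hx hy
    have h8 : (y - x) * (1 - x * y) ≤ (y - x) * ((1 + x) ^ 2 * (1 + y) ^ 2) :=
      mul_le_mul_of_nonneg_left (by linarith) h6
    linarith
  linarith

private lemma zedS_r_nonneg {x : ℝ} (hx : 0 < x) : 0 ≤ 2 * x - wt x := by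
  have h1 : wt x ≤ 2 * x := by
    unfold wt
    rw [div_le_iff₀ (by positivity)]
    nlinarith [sq_nonneg x, mul_pos hx hx, mul_pos (mul_pos hx hx) hx]
  linarith

/-- the tail of the geometric sum -/
private noncomputable def zedS_T (σ β : ℝ) (N : ℕ) : ℝ :=
  Real.exp (-(σ * N)) * (Real.cos (β * N) * (Real.cosh (σ / 2) * Real.sin (β / 2)) +
    Real.sin (β * N) * (Real.sinh (σ / 2) * Real.cos (β / 2)))

private lemma zedS_step (σ β : ℝ) (N : ℕ) :
    zedS_T σ β N - zedS_T σ β (N + 1) =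
      2 * Real.exp (-(σ * ((N : ℝ) + 1 / 2))) * Real.sin (β * ((N : ℝ) + 1 / 2)) *
        (Real.sinh (σ / 2) ^ 2 + Real.sin (β / 2) ^ 2) := by
  unfold zedS_T
  have e1 : Real.exp (-(σ * N)) = Real.exp (-(σ * ((N : ℝ) + 1 / 2))) * Real.exp (σ / 2) := by
    rw [← Real.exp_add]; congr 1; ring
  have e2 : Real.exp (-(σ * ((N + 1 : ℕ) : ℝ))) =
      Real.exp (-(σ * ((N : ℝ) + 1 / 2))) * Real.exp (-(σ / 2)) := by
    rw [← Real.exp_add]; congr 1; push_cast; ring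
  have c1 : β * (N : ℝ) = β * ((N : ℝ) + 1 / 2) - β / 2 := by ring
  have c2 : β * ((N + 1 : ℕ) : ℝ) = β * ((N : ℝ) + 1 / 2) + β / 2 := by push_cast; ring
  rw [e1, e2, c1, c2, Real.cos_sub, Real.cos_add, Real.sin_sub, Real.sin_add,
    Real.cosh_eq, Real.sinh_eq]
  have hpq : Real.exp (σ / 2) * Real.exp (-(σ / 2)) = 1 := by
    rw [← Real.exp_add]; simp
  have hcs := Real.sin_sq_add_cos_sq (β / 2)
  generalize Real.exp (-(σ * ((N : ℝ) + 1 / 2))) = E
  generalize Real.sin (β * ((N : ℝ) + 1 / 2)) = sf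
  generalize Real.cos (β * ((N : ℝ) + 1 / 2)) = cf
  generalize Real.sin (β / 2) = sb at hcs ⊢
  generalize Real.cos (β / 2) = cb at hcs ⊢
  generalize Real.exp (σ / 2) = p at hpq ⊢
  generalize Real.exp (-(σ / 2)) = q at hpq ⊢
  linear_combination (2 * E * sf * sb ^ 2) * hpq + (E * sf * (p - q) ^ 2 / 2) * hcs

private lemma zedS_sum (w σ β : ℝ) (N : ℕ) :
    (∑ j ∈ Finset.range N, 2 * xj w σ j * Real.sin (β * ((j : ℝ) + 1 / 2))) *
        (Real.sinh (σ / 2) ^ 2 + Real.sin (β / 2) ^ 2) =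
      w * (Real.cosh (σ / 2) * Real.sin (β / 2)) - w * zedS_T σ β N := by
  induction N with
  | zero => simp [zedS_T]
  | succ N ih =>
    rw [Finset.sum_range_succ, add_mul, ih]
    have := zedS_step σ β N
    unfold xj
    linear_combination (-w) * this

private lemma zedS_T_abs {σ β : ℝ} (hσ : 0 < σ) (N : ℕ) :
    -zedS_T σ β N ≤ Real.exp (-(σ * N)) * (Real.cosh (σ / 2) + Real.sinh (σ / 2)) := by
  unfold zedS_T
  have hc : 0 < Real.cosh (σ / 2) := Real.cosh_pos _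
  have hs : 0 < Real.sinh (σ / 2) := Real.sinh_pos_iff.2 (by linarith)
  have h1 : |Real.cos (β * N) * (Real.cosh (σ / 2) * Real.sin (β / 2))| ≤ Real.cosh (σ / 2) := by
    rw [abs_mul, abs_mul, abs_of_pos hc]
    have := Real.abs_cos_le_one (β * N)
    have h2 := Real.abs_sin_le_one (β / 2)
    have h3 := abs_nonneg (Real.cos (β * N))
    have h4 := abs_nonneg (Real.sin (β / 2))
    calc |Real.cos (β * N)| * (Real.cosh (σ / 2) * |Real.sin (β / 2)|)
        ≤ 1 * (Real.cosh (σ / 2) * 1) := by gcongr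
      _ = Real.cosh (σ / 2) := by ring
  have h1' : |Real.sin (β * N) * (Real.sinh (σ / 2) * Real.cos (β / 2))| ≤ Real.sinh (σ / 2) := by
    rw [abs_mul, abs_mul, abs_of_pos hs]
    have := Real.abs_sin_le_one (β * N)
    have h2 := Real.abs_cos_le_one (β / 2)
    have h3 := abs_nonneg (Real.sin (β * N))
    have h4 := abs_nonneg (Real.cos (β / 2))
    calc |Real.sin (β * N)| * (Real.sinh (σ / 2) * |Real.cos (β / 2)|)
        ≤ 1 * (Real.sinh (σ / 2) * 1) := by gcongr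
      _ = Real.sinh (σ / 2) := by ring
  have hE := Real.exp_pos (-(σ * N))
  rw [← mul_neg]
  apply mul_le_mul_of_nonneg_left _ hE.le
  have := neg_le_of_abs_le h1
  have := neg_le_of_abs_le h1'
  linarith

theorem Z1_le_S {w σ β : ℝ} (hw : 0 < w) (hσ : 0 < σ) (hβ : 0 < β) (hβπ : β ≤ Real.pi) :
    Z1 w σ β ≤ w * Real.cosh (σ / 2) * Real.sin (β / 2) /
      (Real.sinh (σ / 2) ^ 2 + Real.sin (β / 2) ^ 2) := by
  have hs : 0 < Real.sin (β / 2) :=
    Real.sin_pos_of_pos_of_lt_pi (by linarith) (by linarith [Real.pi_pos])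
  have hD : 0 < Real.sinh (σ / 2) ^ 2 + Real.sin (β / 2) ^ 2 := by positivity
  set D := Real.sinh (σ / 2) ^ 2 + Real.sin (β / 2) ^ 2 with hDdef
  set K := w * Real.cosh (σ / 2) * Real.sin (β / 2) / D with hK
  set C := w * (Real.cosh (σ / 2) + Real.sinh (σ / 2)) / D with hC
  have hlim : Tendsto (fun N : ℕ => K + C * Real.exp (-(σ * ((N + 1 : ℕ) : ℝ)))) atTop (𝓝 K) := by
    have h1 : Tendsto (fun N : ℕ => σ * ((N : ℕ) : ℝ)) atTop atTop :=
      Tendsto.const_mul_atTop hσ tendsto_natCast_atTop_atTop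
    have h2 := Real.tendsto_exp_neg_atTop_nhds_zero.comp h1
    have h3 := (h2.comp (tendsto_add_atTop_nat 1)).const_mul C
    rw [mul_zero] at h3
    have h4 := h3.const_add K
    rw [add_zero] at h4
    exact h4
  refine le_of_tendsto_of_tendsto' (offB_tendsto hw hσ β) hlim fun N => ?_
  -- Abel summation for the remainder
  have hr : 0 ≤ ∑ j ∈ Finset.range (N + 1),
      (2 * xj w σ j - wt (xj w σ j)) * Real.sin (β * ((j : ℝ) + 1 / 2)) := by
    rw [offB_abel (fun j => 2 * xj w σ j - wt (xj w σ j)) β 0 N]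
    simp only [mul_zero, zero_add, sub_zero]
    refine add_nonneg (mul_nonneg (zedS_r_nonneg (offB_xj_pos hw N)) (offB_S_mem hβ hβπ _).1)
      (Finset.sum_nonneg fun j _ => mul_nonneg ?_ (offB_S_mem hβ hβπ _).1)
    exact sub_nonneg.2 (zedS_r_mono (offB_xj_pos hw _) (offB_xj_anti hw hσ (Nat.le_succ j)))
  have hsplit : ∑ j ∈ Finset.range (N + 1), wt (xj w σ j) * Real.sin (β * ((j : ℝ) + 1 / 2)) ≤
      ∑ j ∈ Finset.range (N + 1), 2 * xj w σ j * Real.sin (β * ((j : ℝ) + 1 / 2)) := by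
    rw [← sub_nonneg, ← Finset.sum_sub_distrib]
    refine hr.trans_eq (Finset.sum_congr rfl fun j _ => ?_)
    ring
  refine hsplit.trans ?_
  have hsum := zedS_sum w σ β (N + 1)
  rw [← hDdef] at hsum
  have hT := zedS_T_abs (β := β) hσ (N + 1)
  have hgoal : ∑ j ∈ Finset.range (N + 1), 2 * xj w σ j * Real.sin (β * ((j : ℝ) + 1 / 2)) =
      (w * (Real.cosh (σ / 2) * Real.sin (β / 2)) - w * zedS_T σ β (N + 1)) / D := by
    rw [← hsum, mul_div_cancel_right₀ _ hD.ne']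
  rw [hgoal, hK, hC, div_mul_eq_mul_div, ← add_div]
  apply div_le_div_of_nonneg_right _ hD.le
  nlinarith [mul_le_mul_of_nonneg_left hT hw.le]

private lemma zedS_sin_two {σ β : ℝ} (hσ : 0 < σ) (hσ1 : σ ≤ 1 / 50) (hβ : 4 * σ ≤ β)
    (hβπ : β ≤ Real.pi) : 19992 / 10000 * σ ≤ Real.sin (β / 2) := by
  have h1 : Real.sin (2 * σ) ≤ Real.sin (β / 2) :=
    Real.sin_le_sin_of_le_of_le_pi_div_two (by linarith [Real.pi_pos]) (by linarith) (by linarith)
  have h2 := Real.sin_gt_sub_cube (x := 2 * σ) (by linarith)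
  have h3 : σ ^ 2 ≤ 1 / 2500 := by nlinarith
  nlinarith

private lemma zedS_sin_four {σ β : ℝ} (hσ : 0 < σ) (hσ1 : σ ≤ 1 / 50) (hβ : 8 * σ ≤ β)
    (hβπ : β ≤ Real.pi) : 39936 / 10000 * σ ≤ Real.sin (β / 2) := by
  have h1 : Real.sin (4 * σ) ≤ Real.sin (β / 2) :=
    Real.sin_le_sin_of_le_of_le_pi_div_two (by linarith [Real.pi_pos]) (by linarith) (by linarith)
  have h2 := Real.sin_gt_sub_cube (x := 4 * σ) (by linarith)
  have h3 : σ ^ 2 ≤ 1 / 2500 := by nlinarith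
  nlinarith

private lemma zedS_cosh {σ : ℝ} (hσ : 0 < σ) (hσ1 : σ ≤ 1 / 50) :
    Real.cosh (σ / 2) ≤ 10001 / 10000 := by
  have h1 := Real.cosh_le_exp_half_sq (σ / 2)
  have h3 : σ ^ 2 ≤ 1 / 2500 := by nlinarith
  have h4 : (σ / 2) ^ 2 / 2 ≤ 1 / 20000 := by nlinarith
  have h5 : 0 ≤ (σ / 2) ^ 2 / 2 := by positivity
  have h6 := Real.abs_exp_sub_one_sub_id_le (x := (σ / 2) ^ 2 / 2) (by
    rw [abs_of_nonneg h5]; linarith)
  have h7 := le_of_abs_le h6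
  nlinarith

private lemma zedS_sinh {σ : ℝ} (hσ : 0 < σ) : σ / 2 ≤ Real.sinh (σ / 2) :=
  Real.self_le_sinh_iff.2 (by linarith)

theorem Z1_le_all {w σ β : ℝ} (hw : 0 < w) (hσ : 0 < σ) (hσ1 : σ ≤ 1 / 50) (hβ : 0 ≤ β)
    (hβπ : β ≤ Real.pi) : Z1 w σ β ≤ 1001 / 1000 * (w / σ) := by
  rcases hβ.eq_or_lt with h0 | hβ
  · subst h0
    have : Z1 w σ 0 = 0 := by
      unfold Z1
      simp
    rw [this]
    positivity
  have hs : 0 < Real.sin (β / 2) :=
    Real.sin_pos_of_pos_of_lt_pi (by linarith) (by linarith [Real.pi_pos])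
  refine (Z1_le_S hw hσ hβ hβπ).trans ?_
  have hh := zedS_sinh hσ
  have hc := zedS_cosh hσ hσ1
  have hD : 0 < Real.sinh (σ / 2) ^ 2 + Real.sin (β / 2) ^ 2 := by positivity
  rw [div_le_iff₀ hD]
  generalize Real.sin (β / 2) = S at *
  generalize Real.sinh (σ / 2) = h at *
  generalize Real.cosh (σ / 2) = c at *
  have h1 : 2 * h * S ≤ h ^ 2 + S ^ 2 := by nlinarith [sq_nonneg (h - S)]
  have h2 : σ * S ≤ h ^ 2 + S ^ 2 := by nlinarith
  have h3 : S ≤ (h ^ 2 + S ^ 2) / σ := by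
    rw [le_div_iff₀ hσ]; linarith
  have h4 : c * S ≤ 1001 / 1000 * ((h ^ 2 + S ^ 2) / σ) := by
    calc c * S ≤ 10001 / 10000 * S := mul_le_mul_of_nonneg_right hc hs.le
      _ ≤ 1001 / 1000 * S := by nlinarith
      _ ≤ _ := mul_le_mul_of_nonneg_left h3 (by norm_num)
  calc w * c * S = w * (c * S) := by ring
    _ ≤ w * (1001 / 1000 * ((h ^ 2 + S ^ 2) / σ)) := mul_le_mul_of_nonneg_left h4 hw.le
    _ = 1001 / 1000 * (w / σ) * (h ^ 2 + S ^ 2) := by ring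

private lemma zedS_final {w σ S h c k : ℝ} (hw : 0 < w) (hσ : 0 < σ) (hD : 0 < h ^ 2 + S ^ 2)
    (hkey : σ * (c * S) ≤ k * (h ^ 2 + S ^ 2)) :
    w * c * S / (h ^ 2 + S ^ 2) ≤ k * (w / σ) := by
  rw [div_le_iff₀ hD]
  have h1 : c * S ≤ k * (h ^ 2 + S ^ 2) / σ := by
    rw [le_div_iff₀ hσ]; linarith
  calc w * c * S = w * (c * S) := by ring
    _ ≤ w * (k * (h ^ 2 + S ^ 2) / σ) := mul_le_mul_of_nonneg_left h1 hw.le
    _ = k * (w / σ) * (h ^ 2 + S ^ 2) := by ring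

theorem Z1_le_four {w σ β : ℝ} (hw : 0 < w) (hσ : 0 < σ) (hσ1 : σ ≤ 1 / 50) (hβ : 4 * σ ≤ β)
    (hβπ : β ≤ Real.pi) : Z1 w σ β ≤ 472 / 1000 * (w / σ) := by
  have hβ0 : 0 < β := by linarith
  have hs : 0 < Real.sin (β / 2) :=
    Real.sin_pos_of_pos_of_lt_pi (by linarith) (by linarith [Real.pi_pos])
  have hD : 0 < Real.sinh (σ / 2) ^ 2 + Real.sin (β / 2) ^ 2 := by positivity
  refine (Z1_le_S hw hσ hβ0 hβπ).trans (zedS_final hw hσ hD ?_)
  have hh := zedS_sinh hσ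
  have hc := zedS_cosh hσ hσ1
  have hS := zedS_sin_two hσ hσ1 hβ hβπ
  generalize Real.sin (β / 2) = S at *
  generalize Real.sinh (σ / 2) = h at *
  generalize Real.cosh (σ / 2) = c at *
  have h1 : σ ^ 2 / 4 ≤ h ^ 2 := by nlinarith
  have h2 : σ * (c * S) ≤ σ * (10001 / 10000 * S) :=
    mul_le_mul_of_nonneg_left (mul_le_mul_of_nonneg_right hc hs.le) hσ.le
  have h3 : 0 ≤ (S - 19992 / 10000 * σ) * (472 / 1000 * S + (472 / 1000 * (19992 / 10000) -
      10001 / 10000) * σ) := by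
    apply mul_nonneg (by linarith)
    nlinarith
  nlinarith

theorem Z1_le_eight {w σ β : ℝ} (hw : 0 < w) (hσ : 0 < σ) (hσ1 : σ ≤ 1 / 50) (hβ : 8 * σ ≤ β)
    (hβπ : β ≤ Real.pi) : Z1 w σ β ≤ 1 / 4 * (w / σ) := by
  have hβ0 : 0 < β := by linarith
  have hs : 0 < Real.sin (β / 2) :=
    Real.sin_pos_of_pos_of_lt_pi (by linarith) (by linarith [Real.pi_pos])
  have hD : 0 < Real.sinh (σ / 2) ^ 2 + Real.sin (β / 2) ^ 2 := by positivity
  refine (Z1_le_S hw hσ hβ0 hβπ).trans (zedS_final hw hσ hD ?_)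
  have hh := zedS_sinh hσ
  have hc := zedS_cosh hσ hσ1
  have hS := zedS_sin_four hσ hσ1 hβ hβπ
  generalize Real.sin (β / 2) = S at *
  generalize Real.sinh (σ / 2) = h at *
  generalize Real.cosh (σ / 2) = c at *
  have h1 : σ ^ 2 / 4 ≤ h ^ 2 := by nlinarith
  have h2 : σ * (c * S) ≤ σ * (10001 / 10000 * S) :=
    mul_le_mul_of_nonneg_left (mul_le_mul_of_nonneg_right hc hs.le) hσ.le
  have h3 : 0 ≤ (S - 39936 / 10000 * σ) * (1 / 4 * S + (1 / 4 * (39936 / 10000) -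
      10001 / 10000) * σ) := by
    apply mul_nonneg (by linarith)
    nlinarith
  nlinarith

theorem Z1_le_four' {w σ β : ℝ} (hw : 0 < w) (hw1 : w ≤ 1) (hσ : 0 < σ) (hσ1 : σ ≤ 1 / 50)
    (hβ : 4 * σ ≤ β) (hβπ : β ≤ Real.pi) :
    Z1 w σ β ≤ 1001 / 1000 * (w / ((1 + w) ^ 2 * σ)) := by
  have hβ0 : 0 < β := by linarith
  have hs : 0 < Real.sin (β / 2) :=
    Real.sin_pos_of_pos_of_lt_pi (by linarith) (by linarith [Real.pi_pos])
  refine (le_of_abs_le (abs_Z1_le_of_le_one hw hw1 hσ hβ0 hβπ)).trans ?_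
  have hS := zedS_sin_two hσ hσ1 hβ hβπ
  unfold wt
  rw [div_div, ← mul_div_assoc, div_le_div_iff₀ (by positivity) (by positivity)]
  have h1 : 2 * σ ≤ 1001 / 1000 * Real.sin (β / 2) := by nlinarith
  have h2 : 0 < w * (1 + w) ^ 2 := by positivity
  nlinarith [mul_le_mul_of_nonneg_left h1 h2.le]

theorem Z1_le_eight' {w σ β : ℝ} (hw : 0 < w) (hw1 : w ≤ 1) (hσ : 0 < σ) (hσ1 : σ ≤ 1 / 50)
    (hβ : 8 * σ ≤ β) (hβπ : β ≤ Real.pi) :
    Z1 w σ β ≤ 501 / 1000 * (w / ((1 + w) ^ 2 * σ)) := by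
  have hβ0 : 0 < β := by linarith
  have hs : 0 < Real.sin (β / 2) :=
    Real.sin_pos_of_pos_of_lt_pi (by linarith) (by linarith [Real.pi_pos])
  refine (le_of_abs_le (abs_Z1_le_of_le_one hw hw1 hσ hβ0 hβπ)).trans ?_
  have hS := zedS_sin_four hσ hσ1 hβ hβπ
  unfold wt
  rw [div_div, ← mul_div_assoc, div_le_div_iff₀ (by positivity) (by positivity)]
  have h1 : 2 * σ ≤ 501 / 1000 * Real.sin (β / 2) := by nlinarith
  have h2 : 0 < w * (1 + w) ^ 2 := by positivity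
  nlinarith [mul_le_mul_of_nonneg_left h1 h2.le]

end Pool.Agent.Lib.Durfee
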