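import Pool.Agent.Lib.MP_9393b1_co.HypS
import Pool.Agent.Lib.MP_9393b1_co.ZedS
import Pool.Agent.Lib.MP_9393b1_co.SplitG

/-! # Regime S: off the window, exponents -/

set_option autoImplicit false

namespace Pool.Agent.Lib.Durfee

open Complex MeasureTheory Filter Topology

variable {n k : ℕ} {w : ℝ}

/-- the general numeric step -/
private lemma offS_key (H : HypS n k w) {u z Z Y D p : ℝ} (hu : w ≤ u) (hu1 : u ≤ 1)
    (hZ : Z ≤ z * w) (hp : p ≤ PPn n w)
    (hY : Y * (1 + 9 / 32 * u) ≤ (g5 u - z) * p) (hD : D * (1 + 9 / 32 * u) ≤ g5 u - z)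
    (hD0 : 0 ≤ D) :
    Y ≤ (gapinf w - Z) / sg n w ∧ D * PPn n w ≤ (gapinf w - Z) / sg n w := by
  have hw0 := H.hw0
  have hw1 := H.hw1
  have hσ := H.sg_pos
  have hP : 0 < PPn n w := by
    have := H.P_ge
    linarith
  have hu0 : 0 < u := lt_of_lt_of_le hw0 hu
  have hq : 0 < 1 + 9 / 32 * u := by positivity
  have he : 0 ≤ g5 u - z := le_trans (by positivity) hD
  have hg := g5_anti hw0.le hu hu1
  have hgap := gapinf_ge_S hw0 hw1
  have h1 : PPn n w ≤ (1 + 9 / 32 * u) * (w / sg n w) := by
    have h2 := H.sg_div_w_le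
    have h3 : sg n w / w * PPn n w ≤ 1 + 9 / 32 * u := by linarith
    have h4 : PPn n w = sg n w / w * PPn n w * (w / sg n w) := by field_simp
    calc PPn n w = sg n w / w * PPn n w * (w / sg n w) := h4
      _ ≤ _ := mul_le_mul_of_nonneg_right h3 (by positivity)
  have h5 : (g5 u - z) * (w / sg n w) ≤ (gapinf w - Z) / sg n w := by
    rw [← mul_div_assoc]
    apply div_le_div_of_nonneg_right _ hσ.le
    have h6 : w * g5 u ≤ w * g5 w := mul_le_mul_of_nonneg_left hg hw0.le
    linarith
  have hx : 0 < w / sg n w := by positivity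
  constructor
  · refine le_trans ?_ h5
    have h7 : Y * (1 + 9 / 32 * u) ≤ (g5 u - z) * (w / sg n w) * (1 + 9 / 32 * u) := by
      calc Y * (1 + 9 / 32 * u) ≤ (g5 u - z) * p := hY
        _ ≤ (g5 u - z) * PPn n w := mul_le_mul_of_nonneg_left hp he
        _ ≤ (g5 u - z) * ((1 + 9 / 32 * u) * (w / sg n w)) := mul_le_mul_of_nonneg_left h1 he
        _ = _ := by ring
    exact le_of_mul_le_mul_right h7 hq
  · refine le_trans ?_ h5
    calc D * PPn n w ≤ D * ((1 + 9 / 32 * u) * (w / sg n w)) := mul_le_mul_of_nonneg_left h1 hD0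
      _ = (D * (1 + 9 / 32 * u)) * (w / sg n w) := by ring
      _ ≤ _ := mul_le_mul_of_nonneg_right hD hx.le

private lemma offS_P (H : HypS n k w) {l p : ℝ} (hl : l ≤ w) (hp : p ^ 2 ≤ 10 ^ 4 * l) :
    p ≤ PPn n w := by
  have hP : 0 < PPn n w := by
    have := H.P_ge
    linarith
  have h := H.w_le
  have h1 : p ^ 2 ≤ PPn n w ^ 2 := by linarith
  nlinarith

theorem yb_ge (H : HypS n k w) :
    104 / 10 ≤ (gapinf w - 2591 / 10000 * w) / sg n w ∧
    1 / 10 * PPn n w ≤ (gapinf w - 2591 / 10000 * w) / sg n w := by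
  have hw0 := H.hw0
  have hw1 := H.hw1
  rcases le_total w (4 / 100) with h | h
  · exact offS_key H h (by norm_num) le_rfl H.P_ge (by norm_num [g5]) (by norm_num [g5])
      (by norm_num)
  have hP := offS_P H h (p := 20) (by norm_num)
  rcases le_total w (1 / 10) with h' | h
  · exact offS_key H h' (by norm_num) le_rfl hP (by norm_num [g5]) (by norm_num [g5])
      (by norm_num)
  have hP := offS_P H h (p := 316 / 10) (by norm_num)
  rcases le_total w (1 / 4) with h' | h
  · exact offS_key H h' (by norm_num) le_rfl hP (by norm_num [g5]) (by norm_num [g5])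
      (by norm_num)
  have hP := offS_P H h (p := 50) (by norm_num)
  rcases le_total w (1 / 2) with h' | h
  · exact offS_key H h' (by norm_num) le_rfl hP (by norm_num [g5]) (by norm_num [g5])
      (by norm_num)
  have hP := offS_P H h (p := 707 / 10) (by norm_num)
  rcases le_total w (8 / 10) with h' | h
  · exact offS_key H h' (by norm_num) le_rfl hP (by norm_num [g5]) (by norm_num [g5])
      (by norm_num)
  have hP := offS_P H h (p := 894 / 10) (by norm_num)
  rcases le_total w (95 / 100) with h' | h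
  · exact offS_key H h' (by norm_num) le_rfl hP (by norm_num [g5]) (by norm_num [g5])
      (by norm_num)
  have hP := offS_P H h (p := 974 / 10) (by norm_num)
  exact offS_key H hw1 (by norm_num) le_rfl hP (by norm_num [g5]) (by norm_num [g5])
    (by norm_num)

theorem yn_ge (H : HypS n k w) (hw : w ≤ 1 / 2) :
    8 ≤ (gapinf w - 472 / 1000 * w) / sg n w ∧
    1 / 10 * PPn n w ≤ (gapinf w - 472 / 1000 * w) / sg n w := by
  have hw0 := H.hw0
  have hw1 := H.hw1
  rcases le_total w (4 / 100) with h | h
  · exact offS_key H h (by norm_num) le_rfl H.P_ge (by norm_num [g5]) (by norm_num [g5])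
      (by norm_num)
  have hP := offS_P H h (p := 20) (by norm_num)
  rcases le_total w (1 / 10) with h' | h
  · exact offS_key H h' (by norm_num) le_rfl hP (by norm_num [g5]) (by norm_num [g5])
      (by norm_num)
  have hP := offS_P H h (p := 316 / 10) (by norm_num)
  rcases le_total w (1 / 4) with h' | h
  · exact offS_key H h' (by norm_num) le_rfl hP (by norm_num [g5]) (by norm_num [g5])
      (by norm_num)
  have hP := offS_P H h (p := 50) (by norm_num)
  rcases le_total w (4 / 10) with h' | h
  · exact offS_key H h' (by norm_num) le_rfl hP (by norm_num [g5]) (by norm_num [g5])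
      (by norm_num)
  have hP := offS_P H h (p := 632 / 10) (by norm_num)
  exact offS_key H hw (by norm_num) le_rfl hP (by norm_num [g5]) (by norm_num [g5])
    (by norm_num)

private lemma offS_Z {c l : ℝ} (hc : 0 ≤ c) (hl : 0 ≤ l) (hw0 : 0 < w) (hlw : l ≤ w) :
    c * (w / (1 + w) ^ 2) ≤ c / (1 + l) ^ 2 * w := by
  have h1 : c / (1 + l) ^ 2 * w = c * (w / (1 + l) ^ 2) := by ring
  rw [h1]
  gcongr

theorem yn_ge' (H : HypS n k w) (hw : 1 / 2 ≤ w) :
    8 ≤ (gapinf w - 1001 / 1000 * (w / (1 + w) ^ 2)) / sg n w ∧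
    1 / 10 * PPn n w ≤ (gapinf w - 1001 / 1000 * (w / (1 + w) ^ 2)) / sg n w := by
  have hw0 := H.hw0
  have hw1 := H.hw1
  have hZ := fun {l : ℝ} (h0 : 0 ≤ l) (h1 : l ≤ w) =>
    offS_Z (w := w) (c := 1001 / 1000) (by norm_num) h0 hw0 h1
  have h := hw
  have hP := offS_P H h (p := 707 / 10) (by norm_num)
  rcases le_total w (6 / 10) with h' | h''
  · exact offS_key H h' (by norm_num) (hZ (by norm_num) h) hP (by norm_num [g5])
      (by norm_num [g5]) (by norm_num)
  have h := h''
  have hP := offS_P H h (p := 774 / 10) (by norm_num)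
  rcases le_total w (7 / 10) with h' | h''
  · exact offS_key H h' (by norm_num) (hZ (by norm_num) h) hP (by norm_num [g5])
      (by norm_num [g5]) (by norm_num)
  have h := h''
  have hP := offS_P H h (p := 836 / 10) (by norm_num)
  rcases le_total w (85 / 100) with h' | h''
  · exact offS_key H h' (by norm_num) (hZ (by norm_num) h) hP (by norm_num [g5])
      (by norm_num [g5]) (by norm_num)
  have h := h''
  have hP := offS_P H h (p := 921 / 10) (by norm_num)
  rcases le_total w (93 / 100) with h' | h''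
  · exact offS_key H h' (by norm_num) (hZ (by norm_num) h) hP (by norm_num [g5])
      (by norm_num [g5]) (by norm_num)
  have h := h''
  have hP := offS_P H h (p := 964 / 10) (by norm_num)
  exact offS_key H hw1 (by norm_num) (hZ (by norm_num) h) hP (by norm_num [g5])
    (by norm_num [g5]) (by norm_num)

theorem y8_ge_small (H : HypS n k w) (hw : w ≤ 1 / 10) :
    62 / 100 * PPn n w ≤ (gapinf w - 1 / 4 * w) / sg n w :=
  (offS_key H (Y := 0) (D := 62 / 100) hw (by norm_num) le_rfl H.P_ge (by norm_num [g5])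
    (by norm_num [g5]) (by norm_num)).2

theorem y8_ge (H : HypS n k w) (hw : 1 / 10 ≤ w) (hw2 : w ≤ 1 / 2) :
    17 ≤ (gapinf w - 1 / 4 * w) / sg n w ∧
    33 / 100 * PPn n w ≤ (gapinf w - 1 / 4 * w) / sg n w := by
  have hw0 := H.hw0
  have hw1 := H.hw1
  have h := hw
  have hP := offS_P H h (p := 316 / 10) (by norm_num)
  rcases le_total w (15 / 100) with h' | h
  · exact offS_key H h' (by norm_num) le_rfl hP (by norm_num [g5]) (by norm_num [g5])
      (by norm_num)
  have hP := offS_P H h (p := 387 / 10) (by norm_num)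
  rcases le_total w (1 / 4) with h' | h
  · exact offS_key H h' (by norm_num) le_rfl hP (by norm_num [g5]) (by norm_num [g5])
      (by norm_num)
  have hP := offS_P H h (p := 50) (by norm_num)
  rcases le_total w (4 / 10) with h' | h
  · exact offS_key H h' (by norm_num) le_rfl hP (by norm_num [g5]) (by norm_num [g5])
      (by norm_num)
  have hP := offS_P H h (p := 632 / 10) (by norm_num)
  exact offS_key H hw2 (by norm_num) le_rfl hP (by norm_num [g5]) (by norm_num [g5])
    (by norm_num)

theorem y8_ge' (H : HypS n k w) (hw : 1 / 2 ≤ w) :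
    17 ≤ (gapinf w - 501 / 1000 * (w / (1 + w) ^ 2)) / sg n w ∧
    19 / 100 * PPn n w ≤ (gapinf w - 501 / 1000 * (w / (1 + w) ^ 2)) / sg n w := by
  have hw0 := H.hw0
  have hw1 := H.hw1
  have hZ := fun {l : ℝ} (h0 : 0 ≤ l) (h1 : l ≤ w) =>
    offS_Z (w := w) (c := 501 / 1000) (by norm_num) h0 hw0 h1
  have h := hw
  have hP := offS_P H h (p := 707 / 10) (by norm_num)
  rcases le_total w (7 / 10) with h' | h''
  · exact offS_key H h' (by norm_num) (hZ (by norm_num) h) hP (by norm_num [g5])
      (by norm_num [g5]) (by norm_num)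
  have h := h''
  have hP := offS_P H h (p := 836 / 10) (by norm_num)
  rcases le_total w (85 / 100) with h' | h''
  · exact offS_key H h' (by norm_num) (hZ (by norm_num) h) hP (by norm_num [g5])
      (by norm_num [g5]) (by norm_num)
  have h := h''
  have hP := offS_P H h (p := 921 / 10) (by norm_num)
  exact offS_key H hw1 (by norm_num) (hZ (by norm_num) h) hP (by norm_num [g5])
    (by norm_num [g5]) (by norm_num)

end Pool.Agent.Lib.Durfee
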