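import Pool.Agent.Lib.MP_9393b1_co.OffBase

/-! # Regime M: off the window, `T ≤ τ ≤ 4`, `L ≤ 3` -/

set_option autoImplicit false

namespace Pool.Agent.Lib.Durfee

open Complex MeasureTheory Filter Topology

variable {n : ℕ} {w : ℝ}

private theorem offSmall_num {R a c A : ℝ} (hR : 100 ≤ R) (ha : 0 < a) (hc : 0 < c) (hA : a ≤ A)
    (hcA : A ≤ 100 * c) :
    R * Real.exp (-(c / (a / R)) + 51 / 10 * (a / R)) ≤
      100 * Real.exp (-(100 * c / A) + 51 / 1000 * A) := by
  have hR0 : 0 < R := by linarith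
  have hA0 : 0 < A := ha.trans_le hA
  have h1 : R ≤ 100 * Real.exp (R / 100 - 1) := by
    have := Real.add_one_le_exp (R / 100 - 1)
    linarith
  have h2 : R / 100 - 1 + (-(c / (a / R)) + 51 / 10 * (a / R)) ≤
      -(100 * c / A) + 51 / 1000 * A := by
    have e1 : a / R ≤ A / 100 := by
      rw [div_le_div_iff₀ hR0 (by norm_num)]
      nlinarith
    have e2 : 100 * c / A ≤ 100 * c / a := by gcongr
    have e3 : c / (a / R) = c * R / a := by field_simp
    have e4 : R / 100 - 1 + 100 * c / a ≤ c * R / a := by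
      have e5 : R / 100 - 1 + 100 * c / a = (a * (R - 100) / 100 + 100 * c) / a := by
        field_simp
      rw [e5]
      gcongr
      nlinarith [mul_nonneg (sub_nonneg.2 (hA.trans hcA)) (sub_nonneg.2 hR)]
    rw [e3]
    linarith
  calc R * Real.exp (-(c / (a / R)) + 51 / 10 * (a / R))
      ≤ 100 * Real.exp (R / 100 - 1) * Real.exp (-(c / (a / R)) + 51 / 10 * (a / R)) :=
        mul_le_mul_of_nonneg_right h1 (Real.exp_pos _).le
    _ = 100 * Real.exp (R / 100 - 1 + (-(c / (a / R)) + 51 / 10 * (a / R))) := by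
        rw [mul_assoc, ← Real.exp_add]
    _ ≤ _ := by
        have := Real.exp_le_exp.2 h2
        linarith

/-- general step: a bound `ζ` for `|z1|` on `[T,4]`, `c ≤ gapinf - ζ`, `a ≤ A`, `12 A ≤ ... ` -/
theorem off_near_of (H : HypM n w) {ζ c A : ℝ} (hζ : ∀ τ, TT w ≤ τ → τ ≤ 4 → |z1 w τ| ≤ ζ)
    (hc : 0 < c) (hcζ : c ≤ gapinf w - ζ) (hA : aa w ≤ A) (hcA : A ≤ 100 * c) :
    Kn n w * ∫ τ in (TT w)..(4 : ℝ), ∫ θ in (-Real.pi)..Real.pi, NP n w θ τ ≤
      200 * (4 - TT w) * Real.exp (-(100 * c / A) + 51 / 1000 * A) := by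
  have hpi := Real.pi_pos
  have hσ := H.sg_pos
  have hR := H.R_ge
  have hT0 := H.TT_pos
  have hT1 := H.TT_le
  have ha := aa_pos (w := w) (by linarith [H.hw])
  have hKn := H.Kn_le
  set E := Real.exp (-(c / sg n w) + 51 / 10 * sg n w) with hE
  have hE0 : 0 < E := Real.exp_pos _
  have h1 : ∀ τ, TT w ≤ τ → τ ≤ 4 → ∀ θ, NP n w θ τ ≤ E := by
    intro τ h1 h2 θ
    refine (NP_le_of_z1 H (hT0.trans_le h1) h2 (hζ τ h1 h2)).trans ?_
    apply Real.exp_le_exp.2
    have : c / sg n w ≤ (gapinf w - ζ) / sg n w := by gcongr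
    linarith
  have h2 : ∀ τ, TT w ≤ τ → τ ≤ 4 →
      ‖∫ θ in (-Real.pi)..Real.pi, NP n w θ τ‖ ≤ E * (2 * Real.pi) := by
    intro τ h2 h3
    have h4 := intervalIntegral.norm_integral_le_of_norm_le_const (a := -Real.pi) (b := Real.pi)
      (f := fun θ => NP n w θ τ) (C := E) (fun θ _ => by
        rw [Real.norm_eq_abs, abs_of_nonneg (NP_nonneg n w θ τ)]
        exact h1 τ h2 h3 θ)
    have h5 : |Real.pi - -Real.pi| = 2 * Real.pi := by
      rw [abs_of_pos (by linarith)]
      ring
    rwa [h5] at h4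
  have h3 : ‖∫ τ in (TT w)..(4 : ℝ), ∫ θ in (-Real.pi)..Real.pi, NP n w θ τ‖ ≤
      E * (2 * Real.pi) * (4 - TT w) := by
    have h4 := intervalIntegral.norm_integral_le_of_norm_le_const (a := TT w) (b := 4)
      (f := fun τ => ∫ θ in (-Real.pi)..Real.pi, NP n w θ τ) (C := E * (2 * Real.pi))
      (fun τ hτ => by
        rw [Set.uIoc_of_le (by linarith)] at hτ
        exact h2 τ hτ.1.le hτ.2)
    rwa [abs_of_pos (by linarith : 0 < 4 - TT w)] at h4
  have h4 : ∫ τ in (TT w)..(4 : ℝ), ∫ θ in (-Real.pi)..Real.pi, NP n w θ τ ≤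
      E * (2 * Real.pi) * (4 - TT w) := (le_abs_self _).trans h3
  have hK0 : 0 ≤ Kn n w := by
    unfold Kn PPn
    positivity
  have h5 := offSmall_num (R := Real.sqrt n) (a := aa w) hR ha hc hA hcA
  have h6 : (0 : ℝ) ≤ 4 - TT w := by linarith
  calc Kn n w * ∫ τ in (TT w)..(4 : ℝ), ∫ θ in (-Real.pi)..Real.pi, NP n w θ τ
      ≤ Real.sqrt n / Real.pi * (E * (2 * Real.pi) * (4 - TT w)) :=
        (mul_le_mul_of_nonneg_left h4 hK0).trans
          (mul_le_mul_of_nonneg_right hKn (by positivity))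
    _ = 2 * (4 - TT w) * (Real.sqrt n * E) := by
        field_simp
    _ ≤ 2 * (4 - TT w) * (100 * Real.exp (-(100 * c / A) + 51 / 1000 * A)) :=
        mul_le_mul_of_nonneg_left h5 (by linarith)
    _ = _ := by ring

private theorem offSmall_exp {x : ℝ} (hx : x ≤ -11) : Real.exp x ≤ 2 / 10000 := by
  have h1 : Real.exp x ≤ Real.exp (-11) := Real.exp_le_exp.2 hx
  have h2 : (27 / 10 : ℝ) ^ 11 ≤ Real.exp 11 := by
    have h3 : Real.exp 11 = Real.exp 1 ^ 11 := by
      rw [← Real.exp_nat_mul]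
      norm_num
    rw [h3]
    have := Real.exp_one_gt_d9
    exact pow_le_pow_left₀ (by norm_num) (by linarith) 11
  have h4 : Real.exp (-11) ≤ 2 / 10000 := by
    rw [Real.exp_neg]
    have h5 : (10000 / 2 : ℝ) ≤ Real.exp 11 := le_trans (by norm_num) h2
    calc (Real.exp 11)⁻¹ ≤ (10000 / 2 : ℝ)⁻¹ := by
          apply inv_anti₀ (by norm_num) h5
      _ = _ := by norm_num
  linarith

theorem off_near_a (H : HypM n w) (hL : Real.log w ≤ 3 * Real.pi / 10) :
    Kn n w * ∫ τ in (TT w)..(4 : ℝ), ∫ θ in (-Real.pi)..Real.pi, NP n w θ τ ≤ 6 / 100 := by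
  have hw := H.hw
  have hw0 : 0 < w := by linarith
  have hL0 := H.log_nonneg
  have hpi := Real.pi_lt_d4
  have hT : TT w = 5 / 2 := by
    unfold TT
    rw [if_pos hL]
  have hz : ∀ {o : ℝ}, om (Real.log w) ≤ o → ∀ τ, TT w ≤ τ → τ ≤ 4 →
      |z1 w τ| ≤ 4 / 10 * (o + 308 / 1000) := by
    intro o ho τ h1 _
    rw [hT] at h1
    have hτ : 0 < τ := by linarith
    refine (abs_z1_le_parts hw0 hτ).trans ?_
    have e1 : 1 / τ ≤ 4 / 10 := by
      rw [div_le_iff₀ hτ]
      linarith
    have e2 : 77 / 100 / τ ≤ 308 / 1000 := by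
      rw [div_le_iff₀ hτ]
      linarith
    have e3 : 0 < om (Real.log w) := by
      unfold om
      have := Real.cosh_pos (Real.log w)
      positivity
    exact mul_le_mul e1 (add_le_add ho e2) (by positivity) (by norm_num)
  have hgap := gapinf_ge_small hw (by linarith)
  rcases le_or_gt (Real.log w) (3 / 10) with h | h
  · have ho : om (Real.log w) ≤ 1 / 2 := by
      unfold om
      apply one_div_le_one_div_of_le (by norm_num)
      have := Real.one_le_cosh (Real.log w)
      linarith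
    have h1 := off_near_of H (c := 1568 / 10000) (A := 14 / 10) (hz ho) (by norm_num)
      (by linarith) (aa_le_of_small hw h) (by norm_num)
    refine h1.trans ?_
    rw [hT]
    have h2 := offSmall_exp (x := -(100 * (1568 / 10000) / (14 / 10)) + 51 / 1000 * (14 / 10))
      (by norm_num)
    linarith
  · have ho : om (Real.log w) ≤ 489 / 1000 := by
      unfold om
      have h1 : 1 + Real.log w ^ 2 / 2 ≤ Real.cosh (Real.log w) := by
        have h2 : Real.cosh (Real.log w) = 1 + 2 * Real.sinh (Real.log w / 2) ^ 2 := by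
          have h3 := Real.cosh_two_mul (Real.log w / 2)
          have h4 : 2 * (Real.log w / 2) = Real.log w := by ring
          rw [h4] at h3
          have h5 := Real.cosh_sq (Real.log w / 2)
          linarith
        have h6 : Real.log w / 2 ≤ Real.sinh (Real.log w / 2) :=
          Real.self_le_sinh_iff.2 (by linarith)
        nlinarith
      have h2 : 2045 / 1000 ≤ 1 + Real.cosh (Real.log w) := by nlinarith
      rw [div_le_iff₀ (by linarith)]
      nlinarith
    have hA : aa w ≤ 20445 / 10000 := by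
      have h1 := U_le_large hw
      have h2 : Real.log w ≤ 94248 / 100000 := by linarith
      have h3 : Real.pi ^ 2 ≤ 31416 ^ 2 / 10000 ^ 2 := by
        have := pow_le_pow_left₀ Real.pi_pos.le hpi.le 2
        norm_num at this ⊢
        linarith
      have h4 : Real.log w ^ 2 ≤ (94248 / 100000) ^ 2 := pow_le_pow_left₀ hL0 h2 2
      apply le_of_sq_le_sq _ (by norm_num)
      norm_num at h3 h4 ⊢
      linarith
    have h1 := off_near_of H (c := 2362 / 10000) (A := 20445 / 10000) (hz ho) (by norm_num)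
      (by linarith) hA (by norm_num)
    refine h1.trans ?_
    rw [hT]
    have h2 := offSmall_exp
      (x := -(100 * (2362 / 10000) / (20445 / 10000)) + 51 / 1000 * (20445 / 10000))
      (by norm_num)
    linarith

end Pool.Agent.Lib.Durfee
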