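import Pool.Agent.Lib.MP_9393b1_co.OffBase

/-! # Regime M: off the window, `T ≤ τ ≤ 1`, `L ≥ 7` (secondary lobes) -/

set_option autoImplicit false

namespace Pool.Agent.Lib.Durfee

open Complex MeasureTheory Filter Topology

variable {n : ℕ} {w : ℝ}

/-- `|z1| ≤ S(τ)|sin(τL)| + 2/w` -/
theorem abs_z1_le_lobe (hw : 1 ≤ w) {τ : ℝ} (hτ : 0 < τ) :
    |z1 w τ| ≤ SS τ * |Real.sin (τ * Real.log w)| + 2 / w := by
  rw [z1_eq (by linarith) hτ]
  refine (abs_add_le _ _).trans (add_le_add (le_of_eq ?_) (tail_le_exp hw))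
  rw [abs_mul, abs_of_pos (SS_pos hτ)]

/-- the lobe integrand -/
noncomputable def lobeG (n : ℕ) (w τ : ℝ) : ℝ :=
  Real.exp (-((gapinf w - SS τ * |Real.sin (τ * Real.log w)| - 2 / w) / sg n w))

/-- `θ`-integral for `0 < τ ≤ 1` -/
theorem integral_NP_le_lobe (H : HypM n w) {τ : ℝ} (hτ : 0 < τ) (hτ2 : τ ≤ 1) :
    ∫ θ in (-Real.pi)..Real.pi, NP n w θ τ ≤
      Real.pi * Real.sqrt Real.pi * Real.sqrt (sg n w) * Real.exp (6 / 10 * sg n w) *
        (lobeG n w τ + Real.exp (-((gapinf w - 1 / 2) / sg n w))) := by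
  set x : ℝ := SS τ * |Real.sin (τ * Real.log w)| + 2 / w with hx
  have h1 : |z1 w τ| ≤ max x (1 / 2) := (abs_z1_le_lobe H.hw hτ).trans (le_max_left _ _)
  refine (integral_NP_le_of_z1 H hτ hτ2 h1 (le_max_right _ _)).trans ?_
  have h2 : Real.exp (-((gapinf w - max x (1 / 2)) / sg n w)) ≤
      lobeG n w τ + Real.exp (-((gapinf w - 1 / 2) / sg n w)) := by
    have h3 : lobeG n w τ = Real.exp (-((gapinf w - x) / sg n w)) := by
      unfold lobeG
      rw [hx]
      ring_nf
    rw [h3]
    rcases max_choice x (1 / 2) with h | h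
    · rw [h]
      linarith [Real.exp_pos (-((gapinf w - 1 / 2) / sg n w))]
    · rw [h]
      linarith [Real.exp_pos (-((gapinf w - x) / sg n w))]
  rw [Real.exp_add, mul_comm (Real.exp (-((gapinf w - max x (1 / 2)) / sg n w))), ← mul_assoc]
  exact mul_le_mul_of_nonneg_left h2 (by positivity)

/-- abbreviation for the prefactor -/
noncomputable def preK (n : ℕ) (w : ℝ) : ℝ :=
  Kn n w * (Real.pi * Real.sqrt Real.pi * Real.sqrt (sg n w) * Real.exp (6 / 10 * sg n w))

/-- `preK ≤ √π · 1.034 L / √σ · e^{0.6σ}` for `L ≥ 7` -/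
theorem preK_le (H : HypM n w) (hL0 : 7 ≤ Real.log w) :
    preK n w ≤ Real.sqrt Real.pi * (1034 / 1000 * Real.log w) * Real.sqrt (1 / sg n w) *
      Real.exp (6 / 10 * sg n w) := by
  have hpi := Real.pi_pos
  have hw0 : 0 < w := by linarith [H.hw]
  have hR := H.R_ge
  have hR0 : 0 < Real.sqrt n := by linarith
  have ha := aa_pos hw0
  have hs := H.sg_pos
  have hKn := H.Kn_le
  have haL : aa w ≤ 1034 / 1000 * Real.log w := by
    apply le_of_sq_le_sq _ (by positivity)
    have h1 := U_le_large H.hw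
    have h2 : Real.pi ^ 2 ≤ 9.87 := by
      have := Real.pi_lt_d4
      nlinarith
    have h3 : 49 ≤ Real.log w ^ 2 := by nlinarith
    nlinarith
  have h1 : Real.sqrt n * Real.sqrt (sg n w) = aa w * Real.sqrt (1 / sg n w) := by
    have h2 : Real.sqrt n = aa w / sg n w := by
      unfold sg
      field_simp
    have h3 : Real.sqrt (1 / sg n w) = 1 / Real.sqrt (sg n w) := by
      rw [Real.sqrt_div (by norm_num), Real.sqrt_one]
    have h4 : Real.sqrt (sg n w) * Real.sqrt (sg n w) = sg n w := Real.mul_self_sqrt hs.le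
    have h5 : 0 < Real.sqrt (sg n w) := Real.sqrt_pos.2 hs
    rw [h2, h3]
    rw [div_mul_eq_mul_div, mul_one_div, div_eq_div_iff hs.ne' h5.ne']
    rw [mul_assoc, h4]
  unfold preK
  calc Kn n w * (Real.pi * Real.sqrt Real.pi * Real.sqrt (sg n w) * Real.exp (6 / 10 * sg n w))
      ≤ Real.sqrt n / Real.pi *
        (Real.pi * Real.sqrt Real.pi * Real.sqrt (sg n w) * Real.exp (6 / 10 * sg n w)) :=
        mul_le_mul_of_nonneg_right hKn (by positivity)
    _ = Real.sqrt Real.pi * (Real.sqrt n * Real.sqrt (sg n w)) * Real.exp (6 / 10 * sg n w) := by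
        field_simp
    _ = Real.sqrt Real.pi * aa w * Real.sqrt (1 / sg n w) * Real.exp (6 / 10 * sg n w) := by
        rw [h1]
        ring
    _ ≤ _ := by
        refine mul_le_mul_of_nonneg_right (mul_le_mul_of_nonneg_right
          (mul_le_mul_of_nonneg_left haL (by positivity)) (by positivity)) (by positivity)

theorem floor_part (H : HypM n w) (hL0 : 7 ≤ Real.log w) :
    preK n w * Real.exp (-((gapinf w - 1 / 2) / sg n w)) ≤ 1 / 1000 := by
  have hpi := Real.pi_pos
  have hw0 : 0 < w := by linarith [H.hw]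
  have hs := H.sg_pos
  set y : ℝ := 1 / sg n w with hy
  have hy1 : 1055 / 100 ≤ y := H.inv_sg_ge
  have hy2 := H.inv_sg_ge_sq hL0
  rw [← hy] at hy2
  have hsy : sg n w = 1 / y := by rw [hy, one_div_one_div]
  have hy0 : 0 < y := by linarith
  have hL : 0 < Real.log w := by linarith
  have hpi2 : Real.pi ^ 2 ≤ 9.87 := by
    have := Real.pi_lt_d4
    nlinarith
  have hgap : 1346 / 1000 ≤ gapinf w - 1 / 2 := by
    have h1 := gapinf_ge_large hw0 (by linarith)
    have h2 : Real.pi ^ 4 / (12 * (Real.log w ^ 2 + 4)) ≤ 98 / 636 := by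
      rw [div_le_div_iff₀ (by positivity) (by norm_num)]
      have h3 : Real.pi ^ 4 ≤ 98 := by
        have : Real.pi ^ 4 = Real.pi ^ 2 * Real.pi ^ 2 := by ring
        rw [this]
        nlinarith [sq_nonneg Real.pi]
      have h4 : 53 ≤ Real.log w ^ 2 + 4 := by nlinarith
      nlinarith
    have h5 : (98 : ℝ) / 636 ≤ 1541 / 10000 := by norm_num
    -- a slightly better bound
    have h3 : Real.pi ^ 4 ≤ 9742 / 100 := by
      have : Real.pi ^ 4 = Real.pi ^ 2 * Real.pi ^ 2 := by ring
      rw [this]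
      nlinarith [sq_nonneg Real.pi]
    have h6 : Real.pi ^ 4 / (12 * (Real.log w ^ 2 + 4)) ≤ 9742 / 63600 := by
      rw [div_le_div_iff₀ (by positivity) (by norm_num)]
      have h4 : 53 ≤ Real.log w ^ 2 + 4 := by nlinarith
      nlinarith
    have h7 : (9742 : ℝ) / 63600 ≤ 154 / 1000 := by norm_num
    linarith
  -- the prefactor
  have h1 := preK_le H hL0
  rw [← hy] at h1
  have hsp : Real.sqrt Real.pi ≤ 178 / 100 := by
    rw [Real.sqrt_le_left (by norm_num)]
    have := Real.pi_lt_d4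
    norm_num
    linarith
  have hLy : Real.log w * Real.sqrt y ≤ 287 / 100 * y := by
    apply le_of_sq_le_sq _ (by positivity)
    rw [mul_pow, Real.sq_sqrt hy0.le]
    nlinarith
  have hexp : Real.exp (6 / 10 * sg n w) ≤ 11 / 10 := by
    have h2 : sg n w ≤ 100 / 1055 := by
      rw [hsy]
      rw [one_div_le hy0 (by norm_num)]
      linarith
    have h3 : 6 / 10 * sg n w ≤ 6 / 100 := by linarith
    refine (Real.exp_le_exp.2 h3).trans ?_
    have h4 := Real.exp_bound' (x := 6 / 100) (by norm_num) (by norm_num) (n := 2) (by norm_num)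
    refine h4.trans ?_
    norm_num [Finset.sum_range_succ]
  have h2 : preK n w ≤ 6 * y := by
    refine h1.trans ?_
    have h3 : Real.sqrt Real.pi * (1034 / 1000 * Real.log w) * Real.sqrt y *
        Real.exp (6 / 10 * sg n w) = Real.sqrt Real.pi * (1034 / 1000) *
          (Real.log w * Real.sqrt y) * Real.exp (6 / 10 * sg n w) := by ring
    rw [h3]
    calc Real.sqrt Real.pi * (1034 / 1000) * (Real.log w * Real.sqrt y) *
          Real.exp (6 / 10 * sg n w)
        ≤ (178 / 100) * (1034 / 1000) * (287 / 100 * y) * (11 / 10) := by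
          apply mul_le_mul _ hexp (Real.exp_pos _).le (by positivity)
          apply mul_le_mul _ hLy (by positivity) (by positivity)
          exact mul_le_mul_of_nonneg_right hsp (by norm_num)
      _ ≤ 6 * y := by nlinarith
  have h3 : Real.exp (-((gapinf w - 1 / 2) / sg n w)) ≤ Real.exp (-(1346 / 1000 * y)) := by
    apply Real.exp_le_exp.2
    apply neg_le_neg
    have : (gapinf w - 1 / 2) / sg n w = (gapinf w - 1 / 2) * y := by
      rw [hy]
      ring
    rw [this]
    exact mul_le_mul_of_nonneg_right hgap hy0.le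
  have h4 : 6000 * y ≤ Real.exp (1346 / 1000 * y) := by
    have h5 : 1346 / 1000 * y = 14 + (1346 / 1000 * y - 14) := by ring
    rw [h5, Real.exp_add]
    have h6 : (1000000 : ℝ) ≤ Real.exp 14 := by
      have h7 : Real.exp 14 = Real.exp 1 ^ 14 := by
        rw [← Real.exp_nat_mul]
        norm_num
      rw [h7]
      have h8 : (2.7 : ℝ) ≤ Real.exp 1 := by linarith [Real.exp_one_gt_d9]
      calc (1000000 : ℝ) ≤ 2.7 ^ 14 := by norm_num
        _ ≤ _ := pow_le_pow_left₀ (by norm_num) h8 14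
    have h9 := Real.add_one_le_exp (1346 / 1000 * y - 14)
    calc 6000 * y ≤ 1000000 * (1346 / 1000 * y - 14 + 1) := by nlinarith
      _ ≤ Real.exp 14 * Real.exp (1346 / 1000 * y - 14) := by
          apply mul_le_mul h6 h9 _ (Real.exp_pos _).le
          nlinarith
  calc preK n w * Real.exp (-((gapinf w - 1 / 2) / sg n w))
      ≤ 6 * y * Real.exp (-(1346 / 1000 * y)) :=
        mul_le_mul h2 h3 (Real.exp_pos _).le (by positivity)
    _ ≤ 1 / 1000 := by
        rw [Real.exp_neg, ← div_eq_mul_inv, div_le_iff₀ (Real.exp_pos _)]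
        linarith

end Pool.Agent.Lib.Durfee
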