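import Pool.Agent.Lib.MP_9393b1_co.OffTop

/-! # Regime M: first and second lobe -/

set_option autoImplicit false

namespace Pool.Agent.Lib.Durfee

open Complex MeasureTheory Filter Topology

variable {n : ℕ} {w : ℝ}

private theorem otb_pi4 : (97409 : ℝ) / 1000 ≤ Real.pi ^ 4 ∧ Real.pi ^ 4 ≤ 974092 / 10000 := by
  have h1 := Real.pi_gt_d6
  have h2 := Real.pi_lt_d6
  have h3 : (9.8696 : ℝ) ≤ Real.pi ^ 2 := by nlinarith
  have h4 : Real.pi ^ 2 ≤ 9.869607 := by nlinarith
  have h5 : Real.pi ^ 4 = Real.pi ^ 2 * Real.pi ^ 2 := by ring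
  rw [h5]
  constructor <;> nlinarith

/-- `√y e^{-cy}` decreases -/
private theorem otb_sqrt_exp {y y0 c : ℝ} (h0 : 0 < y0) (h : y0 ≤ y) (hc : 1 / (2 * y0) ≤ c) :
    Real.sqrt y * Real.exp (-(c * y)) ≤ Real.sqrt y0 * Real.exp (-(c * y0)) := by
  have hy : 0 < y := by linarith
  have h1 : Real.sqrt y ≤ Real.sqrt y0 * Real.exp ((y - y0) / (2 * y0)) := by
    apply le_of_sq_le_sq _ (by positivity)
    rw [mul_pow, Real.sq_sqrt hy.le, Real.sq_sqrt h0.le, ← Real.exp_nat_mul]
    have h2 : ((2 : ℕ) : ℝ) * ((y - y0) / (2 * y0)) = y / y0 - 1 := by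
      push_cast
      field_simp
    rw [h2]
    have h3 := Real.add_one_le_exp (y / y0 - 1)
    calc y = y0 * (y / y0 - 1 + 1) := by field_simp; ring
      _ ≤ y0 * Real.exp (y / y0 - 1) := mul_le_mul_of_nonneg_left h3 h0.le
  calc Real.sqrt y * Real.exp (-(c * y))
      ≤ Real.sqrt y0 * Real.exp ((y - y0) / (2 * y0)) * Real.exp (-(c * y)) :=
        mul_le_mul_of_nonneg_right h1 (Real.exp_pos _).le
    _ = Real.sqrt y0 * Real.exp ((y - y0) / (2 * y0) - c * y) := by
        rw [mul_assoc, ← Real.exp_add]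
        ring_nf
    _ ≤ Real.sqrt y0 * Real.exp (-(c * y0)) := by
        apply mul_le_mul_of_nonneg_left _ (Real.sqrt_nonneg _)
        apply Real.exp_le_exp.2
        have h4 : (y - y0) / (2 * y0) = (y - y0) * (1 / (2 * y0)) := by ring
        rw [h4]
        nlinarith [mul_nonneg (sub_nonneg.2 h) (sub_nonneg.2 hc)]

/-- `e^L ≥ 1.89 L²` -/
private theorem otb_exp_sq {L : ℝ} (hL : 7 ≤ L) : 189 / 100 * L ^ 2 ≤ Real.exp L := by
  have h1 := Real.quadratic_le_exp_of_nonneg (x := L / 2) (by linarith)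
  have h2 : 1375 / 1000 * L ≤ Real.exp (L / 2) := by nlinarith
  have h3 : Real.exp L = Real.exp (L / 2) ^ 2 := by
    rw [← Real.exp_nat_mul]
    push_cast
    ring_nf
  rw [h3]
  calc 189 / 100 * L ^ 2 ≤ (1375 / 1000 * L) ^ 2 := by nlinarith
    _ ≤ _ := pow_le_pow_left₀ (by positivity) h2 2

private theorem otb_TT (hL0 : 7 ≤ Real.log w) : TT w = 3 * Real.pi / (4 * Real.log w) := by
  unfold TT
  rw [if_neg]
  have := Real.pi_lt_d2
  linarith

/-- `T ≤ τ ≤ 5π/(4L)` -/
theorem lobe_one (H : HypM n w) (hL0 : 7 ≤ Real.log w) :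
    preK n w * ∫ τ in (TT w)..(5 * Real.pi / (4 * Real.log w)), lobeG n w τ ≤ 21 / 1000 := by
  have hpi := Real.pi_pos
  have hw0 : 0 < w := by linarith [H.hw]
  have hs := H.sg_pos
  set y : ℝ := 1 / sg n w with hy
  have hy1 : 1055 / 100 ≤ y := H.inv_sg_ge
  have hsy : sg n w = 1 / y := by rw [hy, one_div_one_div]
  have hy0 : 0 < y := by linarith
  set L := Real.log w with hLdef
  have hL : 0 < L := by linarith
  have hT : TT w = 3 * Real.pi / (4 * L) := otb_TT hL0
  have hwL : Real.exp L = w := Real.exp_log hw0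
  have hTle : TT w ≤ 5 * Real.pi / (4 * L) := by
    rw [hT]
    apply div_le_div_of_nonneg_right _ (by positivity)
    linarith
  have hT0 : 0 < TT w := by rw [hT]; positivity
  -- the exponent
  have hexpo : ∀ τ ∈ Set.Ioc (TT w) (5 * Real.pi / (4 * L)),
      5857 / 10000 ≤ gapinf w - SS τ * |Real.sin (τ * L)| - 2 / w := by
    intro τ hτ
    have hτ0 : 0 < τ := hT0.trans hτ.1
    have h1 := gapinf_ge_large hw0 (by linarith)
    rw [← hLdef] at h1
    have h2 : SS τ ≤ 2 / (1 + Real.pi ^ 2 * (TT w) ^ 2 / 6) :=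
      (SS_anti hT0 hτ.1.le).trans (SS_le hT0)
    have h3 : 2 / (1 + Real.pi ^ 2 * (TT w) ^ 2 / 6) ≤ 2 * L ^ 2 / (L ^ 2 + 9132 / 1000) := by
      rw [div_le_div_iff₀ (by positivity) (by positivity)]
      have h4 : Real.pi ^ 2 * (TT w) ^ 2 / 6 = 9 * Real.pi ^ 4 / (96 * L ^ 2) := by
        rw [hT]
        field_simp
        ring
      rw [h4]
      have h5 : 2 * L ^ 2 * (1 + 9 * Real.pi ^ 4 / (96 * L ^ 2)) =
          2 * L ^ 2 + 9 * Real.pi ^ 4 / 48 := by
        field_simp
        ring
      rw [h5]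
      have := otb_pi4.1
      nlinarith
    have h6 : |Real.sin (τ * L)| ≤ 707107 / 1000000 := by
      have h7 : 3 * Real.pi / 4 ≤ τ * L := by
        have := hτ.1.le
        rw [hT, div_le_iff₀ (by positivity)] at this
        linarith
      have h8 : τ * L ≤ 5 * Real.pi / 4 := by
        have := hτ.2
        rw [le_div_iff₀ (by positivity)] at this
        linarith
      have h9 : Real.sin (τ * L) = -Real.sin (τ * L - Real.pi) := by
        rw [Real.sin_sub_pi, neg_neg]
      have h10 : Real.sqrt 2 / 2 ≤ 707107 / 1000000 := by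
        have : Real.sqrt 2 ≤ 1414214 / 1000000 := by
          rw [Real.sqrt_le_left (by norm_num)]
          norm_num
        linarith
      rw [h9, abs_neg, abs_le]
      constructor
      · have h11 : Real.sin (-(Real.pi / 4)) ≤ Real.sin (τ * L - Real.pi) :=
          Real.sin_le_sin_of_le_of_le_pi_div_two (by linarith) (by linarith) (by linarith)
        rw [Real.sin_neg, Real.sin_pi_div_four] at h11
        linarith
      · have h11 : Real.sin (τ * L - Real.pi) ≤ Real.sin (Real.pi / 4) :=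
          Real.sin_le_sin_of_le_of_le_pi_div_two (by linarith) (by linarith) (by linarith)
        rw [Real.sin_pi_div_four] at h11
        linarith
    have h12 : SS τ * |Real.sin (τ * L)| ≤ 2 * L ^ 2 / (L ^ 2 + 9132 / 1000) *
        (707107 / 1000000) :=
      mul_le_mul (h2.trans h3) h6 (abs_nonneg _) (by positivity)
    have h13 : 2 / w ≤ 2 / (189 / 100 * L ^ 2) := by
      apply div_le_div_of_nonneg_left (by norm_num) (by positivity)
      rw [← hwL]
      exact otb_exp_sq hL0
    have h14 : Real.pi ^ 4 / (12 * (L ^ 2 + 4)) ≤ 811744 / 100000 / (L ^ 2 + 4) := by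
      rw [div_le_div_iff₀ (by positivity) (by positivity)]
      have := otb_pi4.2
      nlinarith [sq_nonneg L]
    have h15 : 2 - 811744 / 100000 / (L ^ 2 + 4) - 2 * L ^ 2 / (L ^ 2 + 9132 / 1000) *
        (707107 / 1000000) - 2 / (189 / 100 * L ^ 2) ≥ 5857 / 10000 := by
      have hq : 49 ≤ L ^ 2 := by nlinarith
      generalize L ^ 2 = q at hq ⊢
      have e1 : 2 * q / (q + 9132 / 1000) = 2 - 18264 / 1000 / (q + 9132 / 1000) := by
        field_simp
        ring
      rw [e1]
      have e2 : 2 / (189 / 100 * q) ≤ 11 / 10 / q := by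
        rw [div_le_div_iff₀ (by positivity) (by positivity)]
        linarith
      have e3 : 811744 / 100000 / (q + 4) + 11 / 10 / q ≤
          (707107 / 1000000) * (18264 / 1000 / (q + 9132 / 1000)) := by
        have e4 : 707107 / 1000000 * (18264 / 1000 / (q + 9132 / 1000)) =
          (707107 / 1000000 * (18264 / 1000)) / (q + 9132 / 1000) := by ring
        rw [e4, div_add_div _ _ (by positivity) (by positivity),
          div_le_div_iff₀ (by positivity) (by positivity)]
        nlinarith [mul_nonneg (sub_nonneg.2 hq) (sub_nonneg.2 hq), mul_nonneg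
          (mul_nonneg (sub_nonneg.2 hq) (sub_nonneg.2 hq)) (sub_nonneg.2 hq)]
      linarith
    linarith
  have hint : ∫ τ in (TT w)..(5 * Real.pi / (4 * L)), lobeG n w τ ≤
      Real.exp (-(5857 / 10000 * y)) * (Real.pi / (2 * L)) := by
    have h1 := intervalIntegral.norm_integral_le_of_norm_le_const (a := TT w)
      (b := 5 * Real.pi / (4 * L)) (f := fun τ => lobeG n w τ)
      (C := Real.exp (-(5857 / 10000 * y))) (fun τ hτ => by
        rw [Set.uIoc_of_le hTle] at hτ
        unfold lobeG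
        rw [Real.norm_of_nonneg (Real.exp_pos _).le]
        apply Real.exp_le_exp.2
        apply neg_le_neg
        have h2 := hexpo τ hτ
        have h3 : (gapinf w - SS τ * |Real.sin (τ * Real.log w)| - 2 / w) / sg n w =
            (gapinf w - SS τ * |Real.sin (τ * Real.log w)| - 2 / w) * y := by
          rw [hy]
          ring
        rw [h3]
        exact mul_le_mul_of_nonneg_right h2 hy0.le)
    have h4 : |5 * Real.pi / (4 * L) - TT w| = Real.pi / (2 * L) := by
      rw [abs_of_nonneg (by linarith), hT]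
      field_simp
      ring
    rw [h4] at h1
    exact (Real.le_norm_self _).trans h1
  have hpre := preK_le H hL0
  rw [← hLdef, ← hy] at hpre
  have hint0 : 0 ≤ ∫ τ in (TT w)..(5 * Real.pi / (4 * L)), lobeG n w τ :=
    intervalIntegral.integral_nonneg hTle fun τ _ => (Real.exp_pos _).le
  have hsp : Real.sqrt Real.pi ≤ 17725 / 10000 := by
    rw [Real.sqrt_le_left (by norm_num)]
    have := Real.pi_lt_d6
    norm_num
    linarith
  have hse : Real.exp (6 / 10 * sg n w) ≤ Real.exp (6 / 105) := by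
    apply Real.exp_le_exp.2
    have h2 : sg n w ≤ 100 / 1055 := by
      rw [hsy, one_div_le hy0 (by norm_num)]
      linarith
    linarith
  have hdec := otb_sqrt_exp (y := y) (y0 := 1055 / 100) (c := 5857 / 10000) (by norm_num) hy1
    (by norm_num)
  have hsq : Real.sqrt (1055 / 100) ≤ 32482 / 10000 := by
    rw [Real.sqrt_le_left (by norm_num)]
    norm_num
  have hnum : Real.exp (-(5857 / 10000 * (1055 / 100))) * Real.exp (6 / 105) ≤ 1 / 455 := by
    rw [← Real.exp_add]
    have h1 : Real.exp (-(5857 / 10000 * (1055 / 100)) + 6 / 105) ≤ Real.exp (-(6121 / 1000)) := by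
      apply Real.exp_le_exp.2
      norm_num
    refine h1.trans ?_
    rw [Real.exp_neg, inv_eq_one_div]
    apply one_div_le_one_div_of_le (by norm_num)
    have h2 : Real.exp (6121 / 1000) = Real.exp 1 ^ 6 * Real.exp (121 / 1000) := by
      rw [← Real.exp_nat_mul, ← Real.exp_add]
      norm_num
    rw [h2]
    have h3 : (2.7182 : ℝ) ^ 6 ≤ Real.exp 1 ^ 6 :=
      pow_le_pow_left₀ (by norm_num) (by linarith [Real.exp_one_gt_d9]) 6
    have h4 := Real.quadratic_le_exp_of_nonneg (x := 121 / 1000) (by norm_num)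
    calc (455 : ℝ) ≤ 2.7182 ^ 6 * (1 + 121 / 1000 + (121 / 1000) ^ 2 / 2) := by norm_num
      _ ≤ _ := mul_le_mul h3 h4 (by positivity) (by positivity)
  calc preK n w * ∫ τ in (TT w)..(5 * Real.pi / (4 * L)), lobeG n w τ
      ≤ (Real.sqrt Real.pi * (1034 / 1000 * L) * Real.sqrt y *
        Real.exp (6 / 10 * sg n w)) * (Real.exp (-(5857 / 10000 * y)) * (Real.pi / (2 * L))) :=
        mul_le_mul hpre hint hint0 (by positivity)
    _ = Real.sqrt Real.pi * (1034 / 1000) * (Real.pi / 2) *
        (Real.sqrt y * Real.exp (-(5857 / 10000 * y))) * Real.exp (6 / 10 * sg n w) := by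
        have h5 : L * (Real.pi / (2 * L)) = Real.pi / 2 := by field_simp
        linear_combination Real.sqrt Real.pi * (1034 / 1000) * Real.sqrt y *
          Real.exp (6 / 10 * sg n w) * Real.exp (-(5857 / 10000 * y)) * h5
    _ ≤ (17725 / 10000) * (1034 / 1000) * (31416 / 10000 / 2) *
        (32482 / 10000 * Real.exp (-(5857 / 10000 * (1055 / 100)))) * Real.exp (6 / 105) := by
        apply mul_le_mul _ hse (Real.exp_pos _).le (by positivity)
        apply mul_le_mul _ _ (by positivity) (by positivity)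
        · apply mul_le_mul _ _ (by positivity) (by positivity)
          · exact mul_le_mul_of_nonneg_right hsp (by norm_num)
          · have := Real.pi_lt_d4
            linarith
        · exact hdec.trans (mul_le_mul_of_nonneg_right hsq (Real.exp_pos _).le)
    _ = (17725 / 10000) * (1034 / 1000) * (31416 / 10000 / 2) * (32482 / 10000) *
        (Real.exp (-(5857 / 10000 * (1055 / 100))) * Real.exp (6 / 105)) := by ring
    _ ≤ (17725 / 10000) * (1034 / 1000) * (31416 / 10000 / 2) * (32482 / 10000) * (1 / 455) :=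
        mul_le_mul_of_nonneg_left hnum (by norm_num)
    _ ≤ 21 / 1000 := by norm_num

private theorem otb_pi2 : (9.8696 : ℝ) ≤ Real.pi ^ 2 ∧ Real.pi ^ 2 ≤ 9.869607 := by
  have h1 := Real.pi_gt_d6
  have h2 := Real.pi_lt_d6
  constructor <;> nlinarith

/-- `cos δ ≤ 1 - (4/π²) δ²` for `|δ| ≤ π/2` -/
private theorem otb_cos {x : ℝ} (hx : |x| ≤ Real.pi / 2) :
    Real.cos x ≤ 1 - 4 / Real.pi ^ 2 * x ^ 2 := by
  have hpi := Real.pi_pos
  wlog h0 : 0 ≤ x generalizing x
  · have := this (x := -x) (by rwa [abs_neg]) (by linarith)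
    rwa [Real.cos_neg, neg_sq] at this
  rw [abs_of_nonneg h0] at hx
  have h1 : 4 / Real.pi * (x / 2) * Real.sin (Real.pi / 4) ≤ Real.sin (x / 2) := by
    have hc := strictConcaveOn_sin_Icc.concaveOn
    have ha : (0 : ℝ) ∈ Set.Icc 0 Real.pi := ⟨le_rfl, hpi.le⟩
    have hb : Real.pi / 4 ∈ Set.Icc 0 Real.pi := ⟨by linarith, by linarith⟩
    have ht : 0 ≤ 4 / Real.pi * (x / 2) := by positivity
    have ht1 : 4 / Real.pi * (x / 2) ≤ 1 := by
      rw [div_mul_eq_mul_div, div_le_one hpi]
      linarith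
    have h2 := hc.2 ha hb (sub_nonneg.2 ht1) ht (by ring)
    simp only [smul_eq_mul, Real.sin_zero, mul_zero, zero_add] at h2
    have h3 : 4 / Real.pi * (x / 2) * (Real.pi / 4) = x / 2 := by field_simp
    rwa [h3] at h2
  rw [Real.sin_pi_div_four] at h1
  have h4 : Real.cos x = 1 - 2 * Real.sin (x / 2) ^ 2 := by
    have h5 := Real.cos_two_mul (x / 2)
    have h6 := Real.sin_sq_add_cos_sq (x / 2)
    have h7 : 2 * (x / 2) = x := by ring
    rw [h7] at h5
    linarith
  have h8 : (4 / Real.pi * (x / 2) * (Real.sqrt 2 / 2)) ^ 2 ≤ Real.sin (x / 2) ^ 2 :=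
    pow_le_pow_left₀ (by positivity) h1 2
  have h9 : (4 / Real.pi * (x / 2) * (Real.sqrt 2 / 2)) ^ 2 = 2 / Real.pi ^ 2 * x ^ 2 := by
    have : Real.sqrt 2 ^ 2 = 2 := Real.sq_sqrt (by norm_num)
    calc (4 / Real.pi * (x / 2) * (Real.sqrt 2 / 2)) ^ 2
        = (Real.sqrt 2 ^ 2) * (1 / Real.pi ^ 2 * x ^ 2) := by ring
      _ = 2 / Real.pi ^ 2 * x ^ 2 := by rw [this]; ring
  rw [h4]
  rw [h9] at h8
  have h10 : 4 / Real.pi ^ 2 * x ^ 2 = 2 * (2 / Real.pi ^ 2 * x ^ 2) := by ring
  rw [h10]
  linarith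

/-- `S(2π/7) ≥ 0.674` -/
private theorem otb_SS : 674 / 1000 ≤ SS (2 * Real.pi / 7) := by
  have hpi := Real.pi_pos
  have h2 := otb_pi2
  unfold SS
  have e1 : Real.pi * (2 * Real.pi / 7) = 2 * Real.pi ^ 2 / 7 := by ring
  have e2 : 2 * Real.pi * (2 * Real.pi / 7) = 2 * (2 * Real.pi ^ 2 / 7) := by ring
  rw [e1, e2]
  set x := 2 * Real.pi ^ 2 / 7 with hx
  have hx1 : 281988 / 100000 ≤ x := by rw [hx]; linarith
  have hx2 : x ≤ 28199 / 10000 := by rw [hx]; linarith
  have hs : 0 < Real.sinh x := Real.sinh_pos_iff.2 (by linarith)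
  rw [le_div_iff₀ hs]
  have h3 : Real.sinh x ≤ 836 / 100 := by
    have h4 : Real.sinh x ≤ Real.sinh (28199 / 10000) := Real.sinh_le_sinh.2 hx2
    refine h4.trans ?_
    rw [Real.sinh_eq]
    have h5 : Real.exp (28199 / 10000) ≤ 16778 / 1000 := by
      have h6 : Real.exp (28199 / 10000) = Real.exp 1 ^ 3 / Real.exp (1801 / 10000) := by
        rw [← Real.exp_nat_mul, ← Real.exp_sub]
        norm_num
      rw [h6, div_le_iff₀ (Real.exp_pos _)]
      have h7 : Real.exp 1 ^ 3 ≤ 2.7182818286 ^ 3 :=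
        pow_le_pow_left₀ (Real.exp_pos _).le Real.exp_one_lt_d9.le 3
      have h8 : 1 + 1801 / 10000 + (1801 / 10000) ^ 2 / 2 + (1801 / 10000) ^ 3 / 6 ≤
          Real.exp (1801 / 10000) := by
        have := Real.sum_le_exp_of_nonneg (x := 1801 / 10000) (by norm_num) 4
        norm_num [Finset.sum_range_succ, Nat.factorial] at this ⊢
        linarith
      calc Real.exp 1 ^ 3 ≤ 2.7182818286 ^ 3 := h7
        _ ≤ 16778 / 1000 * (1 + 1801 / 10000 + (1801 / 10000) ^ 2 / 2 +
          (1801 / 10000) ^ 3 / 6) := by norm_num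
        _ ≤ _ := mul_le_mul_of_nonneg_left h8 (by norm_num)
    have h9 : 1 / (16778 / 1000) ≤ Real.exp (-(28199 / 10000)) := by
      rw [Real.exp_neg, inv_eq_one_div]
      exact one_div_le_one_div_of_le (Real.exp_pos _) h5
    have h10 : (595 : ℝ) / 10000 ≤ 1 / (16778 / 1000) := by norm_num
    linarith
  linarith

private theorem otb_y (H : HypM n w) {l s : ℝ} (hl : Real.log w ≤ l) (hs0 : 0 < s)
    (hs : l ^ 2 + 329 / 100 ≤ s ^ 2) : 100 / s ≤ 1 / sg n w := by
  have h1 := H.sg_le_of hl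
  have h2 : Real.sqrt (l ^ 2 + Real.pi ^ 2 / 3) ≤ s := by
    rw [Real.sqrt_le_left hs0.le]
    have := otb_pi2.2
    linarith
  have h3 : sg n w ≤ s / 100 := by linarith
  have h4 := H.sg_pos
  rw [div_le_div_iff₀ hs0 h4]
  linarith

/-- the constant part of the exponent -/
private noncomputable def otbG (w : ℝ) : ℝ :=
  507338 / 10000 / (Real.log w ^ 2 + 253669 / 10000) - 811744 / 100000 / (Real.log w ^ 2 + 4) -
    2 / w

private theorem otb_G_ge {q q0 c : ℝ} (hq : 49 ≤ q) (hq0 : q ≤ q0)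
    (h : c ≤ 507338 / 10000 / (q0 + 253669 / 10000) - 811744 / 100000 / (q0 + 4)) :
    c ≤ 507338 / 10000 / (q + 253669 / 10000) - 811744 / 100000 / (q + 4) := by
  refine h.trans ?_
  have h0 : 49 ≤ q0 := hq.trans hq0
  have e1 : 507338 / 10000 / (q + 253669 / 10000) - 507338 / 10000 / (q0 + 253669 / 10000) =
      507338 / 10000 * (q0 - q) / ((q + 253669 / 10000) * (q0 + 253669 / 10000)) := by
    field_simp
    ring
  have e2 : 811744 / 100000 / (q + 4) - 811744 / 100000 / (q0 + 4) =
      811744 / 100000 * (q0 - q) / ((q + 4) * (q0 + 4)) := by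
    field_simp
    ring
  have e3 : 811744 / 100000 * (q0 - q) / ((q + 4) * (q0 + 4)) ≤
      507338 / 10000 * (q0 - q) / ((q + 253669 / 10000) * (q0 + 253669 / 10000)) := by
    rw [div_le_div_iff₀ (by positivity) (by positivity)]
    have h1 : 811744 / 100000 * ((q + 253669 / 10000) * (q0 + 253669 / 10000)) ≤
        507338 / 10000 * ((q + 4) * (q0 + 4)) := by
      have h2 : q + 253669 / 10000 ≤ 15 / 10 * (q + 4) := by linarith
      have h3 : q0 + 253669 / 10000 ≤ 15 / 10 * (q0 + 4) := by linarith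
      have h4 := mul_le_mul h2 h3 (by linarith) (by linarith : 0 ≤ 15 / 10 * (q + 4))
      have h5 : 0 ≤ (q + 4) * (q0 + 4) := by positivity
      nlinarith
    have h6 := mul_le_mul_of_nonneg_left h1 (sub_nonneg.2 hq0)
    nlinarith
  linarith

private theorem otb_key (H : HypM n w) (hL0 : 7 ≤ Real.log w) :
    383 / 100 ≤ otbG w * (1 / sg n w) := by
  have hw0 : 0 < w := by linarith [H.hw]
  have hs := H.sg_pos
  set L := Real.log w with hLdef
  have hwL : Real.exp L = w := Real.exp_log hw0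
  have hq49 : 49 ≤ L ^ 2 := by nlinarith
  have he1 : (2.7182 : ℝ) ≤ Real.exp 1 := by linarith [Real.exp_one_gt_d9]
  have hw7 : 2 / w ≤ 19 / 10000 := by
    have h1 : Real.exp 7 ≤ w := by
      rw [← hwL]
      exact Real.exp_le_exp.2 hL0
    have h2 : (1096 : ℝ) ≤ Real.exp 7 := by
      have h3 : Real.exp 7 = Real.exp 1 ^ 7 := by
        rw [← Real.exp_nat_mul]
        norm_num
      rw [h3]
      calc (1096 : ℝ) ≤ 2.7182 ^ 7 := by norm_num
        _ ≤ _ := pow_le_pow_left₀ (by norm_num) he1 7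
    rw [div_le_iff₀ hw0]
    linarith
  -- generic step
  have step : ∀ l s c e : ℝ, L ≤ l → 0 < s → l ^ 2 + 329 / 100 ≤ s ^ 2 → 0 ≤ c - e →
      2 / w ≤ e → c ≤ 507338 / 10000 / (l ^ 2 + 253669 / 10000) - 811744 / 100000 / (l ^ 2 + 4) →
      383 / 100 ≤ (c - e) * (100 / s) → 383 / 100 ≤ otbG w * (1 / sg n w) := by
    intro l s c e hl hs0 hls hce he hc hfin
    have h1 := otb_y H hl hs0 hls
    have h2 : c - e ≤ otbG w := by
      unfold otbG
      have h3 : L ^ 2 ≤ l ^ 2 := pow_le_pow_left₀ (by linarith) hl 2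
      have := otb_G_ge hq49 h3 hc
      linarith
    calc (383 : ℝ) / 100 ≤ (c - e) * (100 / s) := hfin
      _ ≤ otbG w * (1 / sg n w) := mul_le_mul h2 h1 (by positivity) (hce.trans h2)
  by_cases c1 : L ≤ 8
  · exact step 8 (821 / 100) (448 / 1000) (19 / 10000) c1 (by norm_num) (by norm_num)
      (by norm_num) hw7 (by norm_num) (by norm_num)
  by_cases c2 : L ≤ 87 / 10
  · exact step (87 / 10) (889 / 100) (4 / 10) (19 / 10000) c2 (by norm_num) (by norm_num)
      (by norm_num) hw7 (by norm_num) (by norm_num)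
  by_cases c3 : L ≤ 91 / 10
  · exact step (91 / 10) (928 / 100) (375 / 1000) (19 / 10000) c3 (by norm_num) (by norm_num)
      (by norm_num) hw7 (by norm_num) (by norm_num)
  push Not at c3
  have hw9 : 2 / w ≤ 25 / 100000 := by
    have h1 : Real.exp 9 ≤ w := by
      rw [← hwL]
      exact Real.exp_le_exp.2 (by linarith)
    have h2 : (8000 : ℝ) ≤ Real.exp 9 := by
      have h3 : Real.exp 9 = Real.exp 1 ^ 9 := by
        rw [← Real.exp_nat_mul]
        norm_num
      rw [h3]
      calc (8000 : ℝ) ≤ 2.7182 ^ 9 := by norm_num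
        _ ≤ _ := pow_le_pow_left₀ (by norm_num) he1 9
    rw [div_le_iff₀ hw0]
    linarith
  by_cases c4 : L ≤ 93 / 10
  · exact step (93 / 10) (94754 / 10000) (3638 / 10000) (25 / 100000) c4 (by norm_num)
      (by norm_num) (by norm_num) hw9 (by norm_num) (by norm_num)
  push Not at c4
  -- `L ≥ 9.3`
  have hq : 8649 / 100 ≤ L ^ 2 := by nlinarith
  have ha : aa w ≤ L / (981 / 1000) := by
    apply le_of_sq_le_sq _ (by positivity)
    have h1 := U_le_large H.hw
    have h2 := otb_pi2.2
    rw [← hLdef] at h1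
    rw [div_pow]
    rw [le_div_iff₀ (by norm_num)]
    nlinarith
  have hcube := H.R_ge_cube
  rw [← hLdef] at hcube
  have haa := aa_pos hw0
  have hy : 1226 / 10000 * L ^ 2 ≤ 1 / sg n w := by
    have h1 : 1 / sg n w = Real.sqrt n / aa w := by
      unfold sg
      rw [one_div_div]
    rw [h1, le_div_iff₀ haa]
    calc 1226 / 10000 * L ^ 2 * aa w ≤ 1226 / 10000 * L ^ 2 * (L / (981 / 1000)) :=
          mul_le_mul_of_nonneg_left ha (by positivity)
      _ = (1226 / 981) * (L / 2) ^ 3 * (8 / 10) := by ring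
      _ ≤ (L / 2) ^ 3 := by
          have : 0 ≤ (L / 2) ^ 3 := by positivity
          linarith
      _ ≤ Real.sqrt n := hcube
  have hwq : 100 * L ^ 2 ≤ w := by
    have h1 : w = Real.exp 1 ^ 9 * Real.exp (L - 9) := by
      rw [← hwL, ← Real.exp_nat_mul, ← Real.exp_add]
      norm_num
    rw [h1]
    have h2 := Real.quadratic_le_exp_of_nonneg (x := L - 9) (by linarith)
    have h3 : (8100 : ℝ) ≤ Real.exp 1 ^ 9 := by
      calc (8100 : ℝ) ≤ 2.7182 ^ 9 := by norm_num
        _ ≤ _ := pow_le_pow_left₀ (by norm_num) he1 9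
    calc 100 * L ^ 2 ≤ 8100 * (1 + (L - 9) + (L - 9) ^ 2 / 2) := by nlinarith
      _ ≤ _ := mul_le_mul h3 h2 (by nlinarith) (by positivity)
  have hwq2 : 2 / w * L ^ 2 ≤ 2 / 100 := by
    rw [div_mul_eq_mul_div, div_le_div_iff₀ hw0 (by norm_num)]
    linarith
  have hPQ : 3146 / 100 ≤ (507338 / 10000 / (L ^ 2 + 253669 / 10000) -
      811744 / 100000 / (L ^ 2 + 4)) * L ^ 2 := by
    generalize L ^ 2 = q at hq ⊢
    have e1 : (507338 / 10000 / (q + 253669 / 10000) - 811744 / 100000 / (q + 4)) * q =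
        ((507338 / 10000 * (q + 4) - 811744 / 100000 * (q + 253669 / 10000)) * q) /
          ((q + 253669 / 10000) * (q + 4)) := by
      field_simp
    rw [e1, le_div_iff₀ (by positivity)]
    nlinarith [mul_nonneg (sub_nonneg.2 hq) (sub_nonneg.2 hq)]
  have hG : 3144 / 100 ≤ otbG w * L ^ 2 := by
    unfold otbG
    rw [← hLdef, sub_mul]
    linarith
  have hG0 : 0 ≤ otbG w := by
    by_contra hneg
    push Not at hneg
    have : otbG w * L ^ 2 ≤ 0 := mul_nonpos_of_nonpos_of_nonneg hneg.le (by positivity)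
    linarith
  calc (383 : ℝ) / 100 ≤ 1226 / 10000 * (3144 / 100) := by norm_num
    _ ≤ 1226 / 10000 * (otbG w * L ^ 2) := mul_le_mul_of_nonneg_left hG (by norm_num)
    _ = otbG w * (1226 / 10000 * L ^ 2) := by ring
    _ ≤ otbG w * (1 / sg n w) := mul_le_mul_of_nonneg_left hy hG0

/-- `5π/(4L) ≤ τ ≤ 2π/L` -/
theorem lobe_two (H : HypM n w) (hL0 : 7 ≤ Real.log w) :
    preK n w * ∫ τ in (5 * Real.pi / (4 * Real.log w))..(2 * Real.pi / Real.log w),
      lobeG n w τ ≤ 145 / 1000 := by
  have hpi := Real.pi_pos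
  have hw0 : 0 < w := by linarith [H.hw]
  have hs := H.sg_pos
  have hkey := otb_key H hL0
  set y : ℝ := 1 / sg n w with hy
  have hy1 : 1055 / 100 ≤ y := H.inv_sg_ge
  have hsy : sg n w = 1 / y := by rw [hy, one_div_one_div]
  have hy0 : 0 < y := by linarith
  set L := Real.log w with hLdef
  have hL : 0 < L := by linarith
  set a := 5 * Real.pi / (4 * L) with ha
  set b := 2 * Real.pi / L with hb
  have ha0 : 0 < a := by rw [ha]; positivity
  have hab : a ≤ b := by
    rw [ha, hb, div_le_div_iff₀ (by positivity) hL]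
    nlinarith
  set c := 3 * Real.pi / (2 * L) with hc
  set β := 2731 / 10000 * y * L ^ 2 with hβ
  have hβ0 : 0 < β := by positivity
  -- pointwise bound of the exponent
  have hexpo : ∀ τ ∈ Set.Ioc a b,
      otbG w * y + β * (τ - c) ^ 2 ≤ (gapinf w - SS τ * |Real.sin (τ * L)| - 2 / w) * y := by
    intro τ hτ
    have hτ0 : 0 < τ := ha0.trans hτ.1
    have h1 := gapinf_ge_large hw0 (by linarith)
    rw [← hLdef] at h1
    have h2 : SS τ ≤ 2 / (1 + Real.pi ^ 2 * a ^ 2 / 6) :=
      (SS_anti ha0 hτ.1.le).trans (SS_le ha0)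
    have h3 : 2 / (1 + Real.pi ^ 2 * a ^ 2 / 6) ≤ 2 * L ^ 2 / (L ^ 2 + 253669 / 10000) := by
      rw [div_le_div_iff₀ (by positivity) (by positivity)]
      have h4 : Real.pi ^ 2 * a ^ 2 / 6 = 25 * Real.pi ^ 4 / (96 * L ^ 2) := by
        rw [ha]
        field_simp
        ring
      rw [h4]
      have h5 : 2 * L ^ 2 * (1 + 25 * Real.pi ^ 4 / (96 * L ^ 2)) =
          2 * L ^ 2 + 25 * Real.pi ^ 4 / 48 := by
        field_simp
        ring
      rw [h5]
      have := otb_pi4.1
      nlinarith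
    have h4 : 2 * L ^ 2 / (L ^ 2 + 253669 / 10000) =
        2 - 507338 / 10000 / (L ^ 2 + 253669 / 10000) := by
      field_simp
      ring
    rw [h4] at h3
    -- the sine
    set δ := τ * L - 3 * Real.pi / 2 with hδ
    have hδ1 : 5 * Real.pi / 4 ≤ τ * L := by
      have := hτ.1.le
      rw [ha, div_le_iff₀ (by positivity)] at this
      linarith
    have hδ2 : τ * L ≤ 2 * Real.pi := by
      have := hτ.2
      rwa [hb, le_div_iff₀ hL] at this
    have hδ3 : |δ| ≤ Real.pi / 2 := by
      rw [hδ, abs_le]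
      constructor <;> linarith
    have h5 : |Real.sin (τ * L)| = Real.cos δ := by
      have h6 : Real.sin (τ * L) = -Real.cos δ := by
        have h7 : τ * L = δ + Real.pi / 2 + Real.pi := by rw [hδ]; ring
        rw [h7, Real.sin_add_pi, Real.sin_add_pi_div_two]
      rw [h6, abs_neg, abs_of_nonneg]
      exact Real.cos_nonneg_of_mem_Icc ⟨(abs_le.1 hδ3).1, (abs_le.1 hδ3).2⟩
    have h8 : SS τ * |Real.sin (τ * L)| ≤ SS τ - 2731 / 10000 * δ ^ 2 := by
      rw [h5]
      have h9 := otb_cos hδ3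
      have h10 : 674 / 1000 ≤ SS τ := by
        refine otb_SS.trans (SS_anti hτ0 (hτ.2.trans ?_))
        rw [hb]
        exact div_le_div_of_nonneg_left (by positivity) (by norm_num) hL0
      have h11 : 2731 / 6740 ≤ 4 / Real.pi ^ 2 := by
        rw [div_le_div_iff₀ (by norm_num) (by positivity)]
        have := otb_pi2.2
        linarith
      have h12 : SS τ * Real.cos δ ≤ SS τ * (1 - 2731 / 6740 * δ ^ 2) := by
        apply mul_le_mul_of_nonneg_left _ (by linarith)
        refine h9.trans ?_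
        have := mul_le_mul_of_nonneg_right h11 (sq_nonneg δ)
        linarith
      refine h12.trans ?_
      have h13 : 0 ≤ (SS τ - 674 / 1000) * (2731 / 6740 * δ ^ 2) :=
        mul_nonneg (by linarith) (by positivity)
      nlinarith
    have h14 : Real.pi ^ 4 / (12 * (L ^ 2 + 4)) ≤ 811744 / 100000 / (L ^ 2 + 4) := by
      rw [div_le_div_iff₀ (by positivity) (by positivity)]
      have := otb_pi4.2
      nlinarith [sq_nonneg L]
    have h15 : otbG w + 2731 / 10000 * δ ^ 2 ≤
        gapinf w - SS τ * |Real.sin (τ * L)| - 2 / w := by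
      unfold otbG
      rw [← hLdef]
      linarith
    have h16 : β * (τ - c) ^ 2 = 2731 / 10000 * δ ^ 2 * y := by
      have h17 : δ = L * (τ - c) := by
        rw [hδ, hc]
        field_simp
      rw [h17, hβ]
      ring
    rw [h16]
    have h18 := mul_le_mul_of_nonneg_right h15 hy0.le
    linarith
  -- the Gaussian integral
  have hgi : Integrable (fun τ : ℝ => Real.exp (-β * (τ - c) ^ 2)) :=
    (integrable_exp_neg_mul_sq hβ0).comp_sub_right c
  have hgv : ∫ τ : ℝ, Real.exp (-β * (τ - c) ^ 2) = Real.sqrt (Real.pi / β) := by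
    rw [integral_sub_right_eq_self (fun τ : ℝ => Real.exp (-β * τ ^ 2)) c]
    exact integral_gaussian β
  have hint : ∫ τ in a..b, lobeG n w τ ≤
      Real.exp (-(otbG w * y)) * Real.sqrt (Real.pi / β) := by
    have h1 := intervalIntegral.norm_integral_le_of_norm_le (a := a)
      (b := b) (f := fun τ => lobeG n w τ) (μ := volume)
      (g := fun τ => Real.exp (-(otbG w * y)) * Real.exp (-β * (τ - c) ^ 2)) hab
      (Eventually.of_forall fun τ hτ => by
        show ‖lobeG n w τ‖ ≤ Real.exp (-(otbG w * y)) * Real.exp (-β * (τ - c) ^ 2)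
        unfold lobeG
        rw [Real.norm_of_nonneg (Real.exp_pos _).le, ← Real.exp_add]
        apply Real.exp_le_exp.2
        have h2 := hexpo τ hτ
        have h3 : (gapinf w - SS τ * |Real.sin (τ * Real.log w)| - 2 / w) / sg n w =
            (gapinf w - SS τ * |Real.sin (τ * Real.log w)| - 2 / w) * y := by
          rw [hy]
          ring
        rw [h3]
        linarith) ((hgi.const_mul _).intervalIntegrable)
    refine (Real.le_norm_self _).trans (h1.trans ?_)
    rw [intervalIntegral.integral_of_le hab, integral_const_mul]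
    refine mul_le_mul_of_nonneg_left ?_ (Real.exp_pos _).le
    rw [← hgv]
    exact setIntegral_le_integral hgi (Eventually.of_forall fun τ => (Real.exp_pos _).le)
  have hpre := preK_le H hL0
  rw [← hLdef, ← hy] at hpre
  have hint0 : 0 ≤ ∫ τ in a..b, lobeG n w τ :=
    intervalIntegral.integral_nonneg hab fun τ _ => (Real.exp_pos _).le
  have hsp : Real.sqrt Real.pi ≤ 17725 / 10000 := by
    rw [Real.sqrt_le_left (by norm_num)]
    have := Real.pi_lt_d6
    norm_num
    linarith
  have hse : Real.exp (6 / 10 * sg n w) ≤ Real.exp (6 / 105) := by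
    apply Real.exp_le_exp.2
    have h2 : sg n w ≤ 100 / 1055 := by
      rw [hsy, one_div_le hy0 (by norm_num)]
      linarith
    linarith
  have hG : Real.exp (-(otbG w * y)) ≤ Real.exp (-(383 / 100)) :=
    Real.exp_le_exp.2 (neg_le_neg hkey)
  have hsqrt : L * Real.sqrt y * Real.sqrt (Real.pi / β) ≤ 33918 / 10000 := by
    apply le_of_sq_le_sq _ (by norm_num)
    rw [mul_pow, mul_pow, Real.sq_sqrt hy0.le, Real.sq_sqrt (by positivity)]
    have h1 : L ^ 2 * y * (Real.pi / β) = Real.pi / (2731 / 10000) := by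
      rw [hβ]
      field_simp
    rw [h1]
    have := Real.pi_lt_d6
    rw [div_le_iff₀ (by norm_num)]
    norm_num
    linarith
  have hnum : Real.exp (-(383 / 100)) * Real.exp (6 / 105) ≤ 1 / (434 / 10) := by
    rw [← Real.exp_add]
    have h1 : Real.exp (-(383 / 100) + 6 / 105) ≤ Real.exp (-(3772 / 1000)) := by
      apply Real.exp_le_exp.2
      norm_num
    refine h1.trans ?_
    rw [Real.exp_neg, inv_eq_one_div]
    apply one_div_le_one_div_of_le (by norm_num)
    have h2 : Real.exp (3772 / 1000) = Real.exp 1 ^ 3 * Real.exp (772 / 1000) := by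
      rw [← Real.exp_nat_mul, ← Real.exp_add]
      norm_num
    rw [h2]
    have h3 : (2.71828 : ℝ) ^ 3 ≤ Real.exp 1 ^ 3 :=
      pow_le_pow_left₀ (by norm_num) (by linarith [Real.exp_one_gt_d9]) 3
    have h4 := Real.sum_le_exp_of_nonneg (x := 772 / 1000) (by norm_num) 6
    have h5 : (2161 : ℝ) / 1000 ≤ Real.exp (772 / 1000) := by
      norm_num [Finset.sum_range_succ, Nat.factorial] at h4 ⊢
      linarith
    calc (434 : ℝ) / 10 ≤ 2.71828 ^ 3 * (2161 / 1000) := by norm_num
      _ ≤ _ := mul_le_mul h3 h5 (by positivity) (by positivity)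
  calc preK n w * ∫ τ in a..b, lobeG n w τ
      ≤ (Real.sqrt Real.pi * (1034 / 1000 * L) * Real.sqrt y *
        Real.exp (6 / 10 * sg n w)) * (Real.exp (-(otbG w * y)) * Real.sqrt (Real.pi / β)) :=
        mul_le_mul hpre hint hint0 (by positivity)
    _ = Real.sqrt Real.pi * (1034 / 1000) * (L * Real.sqrt y * Real.sqrt (Real.pi / β)) *
        (Real.exp (-(otbG w * y)) * Real.exp (6 / 10 * sg n w)) := by
        ring
    _ ≤ (17725 / 10000) * (1034 / 1000) * (33918 / 10000) *
        (Real.exp (-(383 / 100)) * Real.exp (6 / 105)) := by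
        apply mul_le_mul _ _ (by positivity) (by norm_num)
        · apply mul_le_mul _ hsqrt (by positivity) (by norm_num)
          exact mul_le_mul_of_nonneg_right hsp (by norm_num)
        · exact mul_le_mul hG hse (Real.exp_pos _).le (Real.exp_pos _).le
    _ ≤ (17725 / 10000) * (1034 / 1000) * (33918 / 10000) * (1 / (434 / 10)) :=
        mul_le_mul_of_nonneg_left hnum (by norm_num)
    _ ≤ 145 / 1000 := by norm_num

end Pool.Agent.Lib.Durfee
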