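import Pool.Agent.Lib.MP_9393b1_co.Euler
import Pool.Agent.Lib.MP_9393b1_co.Midpoint

/-! # `Lam t s = exp(Phi t / s + E)` for `t = w e^{iα}`, `s = σ(1+iτ)` (rotation of the ray + midpoint rule) -/

set_option autoImplicit false

namespace Pool.Agent.Lib.Durfee

open Complex MeasureTheory Filter Topology

/-- `zz w α τ u = w e^{-u} e^{i(α - τ u)}` -/
noncomputable def zz (w α τ u : ℝ) : ℂ := (w * Real.exp (-u) : ℝ) * exp (I * ((α - τ * u : ℝ) : ℂ))

/-- the ray avoids `(-∞,-1]` -/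
theorem one_add_zz_mem_slitPlane {w α τ u : ℝ} (hw : 0 < w) (hα : |α| < Real.pi) (hτ : 0 ≤ τ)
    (hray : w ≤ 1 ∨ -Real.pi < α - τ * Real.log w) (hu : 0 ≤ u) :
    1 + zz w α τ u ∈ slitPlane := by
  set r : ℝ := w * Real.exp (-u) with hr
  have hr0 : 0 < r := by positivity
  have hz : zz w α τ u = (r * Real.cos (α - τ * u) : ℝ) + (r * Real.sin (α - τ * u) : ℝ) * I := by
    unfold zz
    rw [mul_comm I, Complex.exp_mul_I, hr]
    push_cast
    ring
  have hre : (1 + zz w α τ u).re = 1 + r * Real.cos (α - τ * u) := by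
    rw [hz]
    generalize r * Real.cos (α - τ * u) = a
    generalize r * Real.sin (α - τ * u) = b
    simp
  have him : (1 + zz w α τ u).im = r * Real.sin (α - τ * u) := by
    rw [hz]
    generalize r * Real.cos (α - τ * u) = a
    generalize r * Real.sin (α - τ * u) = b
    simp
  rw [mem_slitPlane_iff, hre, him]
  by_cases hs : Real.sin (α - τ * u) = 0
  · left
    by_cases hr1 : r < 1
    · have := Real.neg_one_le_cos (α - τ * u)
      nlinarith
    · push Not at hr1
      rw [abs_lt] at hα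
      have hangle : -Real.pi < α - τ * u ∧ α - τ * u < Real.pi := by
        have h1 : 0 ≤ τ * u := mul_nonneg hτ hu
        have hew : Real.exp u ≤ w := by
          have h3 : Real.exp (-u) * Real.exp u = 1 := by rw [← Real.exp_add]; simp
          have h4 := Real.exp_pos u
          calc Real.exp u = 1 * Real.exp u := by ring
            _ ≤ r * Real.exp u := by nlinarith
            _ = w := by rw [hr, mul_assoc, h3, mul_one]
        refine ⟨?_, by linarith⟩
        rcases hray with h | h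
        · have h5 : u = 0 := by
            by_contra hne
            have : 0 < u := lt_of_le_of_ne hu (Ne.symm hne)
            have h6 := Real.one_lt_exp_iff.mpr this
            linarith
          rw [h5]; linarith
        · have h7 : u ≤ Real.log w := by
            rw [Real.le_log_iff_exp_le hw]; exact hew
          have := mul_le_mul_of_nonneg_left h7 hτ
          linarith
      have h0 := (Real.sin_eq_zero_iff_of_lt_of_lt hangle.1 hangle.2).mp hs
      rw [h0, Real.cos_zero]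
      linarith
  · right
    exact mul_ne_zero hr0.ne' hs

theorem norm_zz {w : ℝ} (hw : 0 < w) (α τ u : ℝ) : ‖zz w α τ u‖ = w * Real.exp (-u) := by
  unfold zz
  rw [norm_mul, Complex.norm_real, Real.norm_eq_abs, abs_of_pos (by positivity),
    mul_comm I, Complex.norm_exp_ofReal_mul_I, mul_one]

theorem zz_eq (w α τ u : ℝ) :
    zz w α τ u = ((w : ℂ) * exp (I * α)) * exp (-((1 + τ * I) * u)) := by
  unfold zz
  push_cast
  rw [mul_assoc, mul_assoc, ← Complex.exp_add, ← Complex.exp_add]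
  congr 2
  ring

theorem continuous_zz (w α : ℝ) : Continuous (fun p : ℝ × ℝ => zz w α p.1 p.2) := by
  unfold zz
  fun_prop

theorem hasDerivAt_zz_u (w α τ u : ℝ) :
    HasDerivAt (fun u : ℝ => zz w α τ u) (-(1 + τ * I) * zz w α τ u) u := by
  simp_rw [zz_eq]
  have h1 : HasDerivAt (fun u : ℝ => -((1 + τ * I) * (u : ℂ))) (-(1 + τ * I)) u := by
    refine ((Complex.ofRealCLM.hasDerivAt (x := u)).const_mul (1 + τ * I)).neg.congr_deriv ?_
    simp
  have h2 := (h1.cexp).const_mul ((w : ℂ) * exp (I * α))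
  refine h2.congr_deriv ?_
  ring

theorem hasDerivAt_zz_tau (w α τ u : ℝ) :
    HasDerivAt (fun τ : ℝ => zz w α τ u) (-(I * u) * zz w α τ u) τ := by
  simp_rw [zz_eq]
  have h1 : HasDerivAt (fun τ : ℝ => -((1 + (τ : ℂ) * I) * (u : ℂ))) (-(I * u)) τ := by
    refine ((((Complex.ofRealCLM.hasDerivAt (x := τ)).mul_const I).const_add 1).mul_const
      (u : ℂ)).neg.congr_deriv ?_
    simp
  have h2 := (h1.cexp).const_mul ((w : ℂ) * exp (I * α))
  refine h2.congr_deriv ?_
  ring

/-- the hypothesis on the ray is inherited by smaller angles -/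
theorem ray_mono {w α τ τ' : ℝ} (h : τ' ≤ τ)
    (hray : w ≤ 1 ∨ -Real.pi < α - τ * Real.log w) :
    w ≤ 1 ∨ -Real.pi < α - τ' * Real.log w := by
  rcases hray with h1 | h1
  · exact Or.inl h1
  · by_cases hw : w ≤ 1
    · exact Or.inl hw
    · right
      push Not at hw
      have h2 := Real.log_pos hw
      have := mul_le_mul_of_nonneg_right h h2.le
      linarith

/-- integrability on a half line from exponential decay -/
theorem integrableOn_of_exp {f : ℝ → ℂ} (hf : ContinuousOn f (Set.Ici 0)) {C : ℝ}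
    (ho : ∀ᶠ u in atTop, ‖f u‖ ≤ C * Real.exp (-u)) : IntegrableOn f (Set.Ioi 0) := by
  have h2 : f =O[atTop] fun x : ℝ => Real.exp (-1 * x) := by
    refine Asymptotics.IsBigO.of_bound C ?_
    filter_upwards [ho] with u hu
    rw [Real.norm_eq_abs, abs_of_pos (Real.exp_pos _)]
    simpa using hu
  refine integrableOn_Ici_iff_integrableOn_Ioi (by finiteness) |>.mp <|
    (hf.locallyIntegrableOn measurableSet_Ici).integrableOn_of_isBigO_atTop
    h2 ⟨Set.Ioi 1, Ioi_mem_atTop 1, exp_neg_integrableOn_Ioi 1 one_pos⟩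

theorem eventually_zz_small {w : ℝ} (hw : 0 < w) (α τ : ℝ) :
    ∀ᶠ u in atTop, ‖zz w α τ u‖ ≤ 1 / 2 := by
  have h : Tendsto (fun u : ℝ => w * Real.exp (-u)) atTop (𝓝 (w * 0)) :=
    (Real.tendsto_exp_neg_atTop_nhds_zero).const_mul w
  rw [mul_zero] at h
  filter_upwards [h.eventually (ge_mem_nhds (by norm_num : (0 : ℝ) < 1 / 2))] with u hu
  rw [norm_zz hw]; exact hu

theorem eventually_log_le {w : ℝ} (hw : 0 < w) (α τ : ℝ) :
    ∀ᶠ u in atTop, ‖log (1 + zz w α τ u)‖ ≤ (3 / 2 * w) * Real.exp (-u) := by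
  filter_upwards [eventually_zz_small hw α τ] with u hu
  refine (Complex.norm_log_one_add_half_le_self hu).trans ?_
  rw [norm_zz hw]; linarith

theorem continuousOn_log_zz {w α τ : ℝ} (hw : 0 < w) (hα : |α| < Real.pi) (hτ : 0 ≤ τ)
    (hray : w ≤ 1 ∨ -Real.pi < α - τ * Real.log w) :
    ContinuousOn (fun u : ℝ => log (1 + zz w α τ u)) (Set.Ici 0) := by
  refine ContinuousOn.clog ?_ fun u hu => one_add_zz_mem_slitPlane hw hα hτ hray hu
  have : Continuous (fun u : ℝ => zz w α τ u) := (continuous_zz w α).comp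
    (Continuous.prodMk continuous_const continuous_id)
  exact (continuous_const.add this).continuousOn

theorem integrableOn_log_zz {w α τ : ℝ} (hw : 0 < w) (hα : |α| < Real.pi) (hτ : 0 ≤ τ)
    (hray : w ≤ 1 ∨ -Real.pi < α - τ * Real.log w) :
    IntegrableOn (fun u : ℝ => log (1 + zz w α τ u)) (Set.Ioi 0) :=
  integrableOn_of_exp (continuousOn_log_zz hw hα hτ hray) (eventually_log_le hw α τ)

/-- mixed derivative used in the rotation of the ray -/
noncomputable def rotD (w α τ u : ℝ) : ℂ :=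
  I * log (1 + zz w α τ u) + (1 + τ * I) * (-(I * u) * zz w α τ u / (1 + zz w α τ u))

theorem hasDerivAt_rot_tau {w α τ u : ℝ} (h : 1 + zz w α τ u ∈ slitPlane) :
    HasDerivAt (fun τ : ℝ => (1 + (τ : ℂ) * I) * log (1 + zz w α τ u)) (rotD w α τ u) τ := by
  have h1 : HasDerivAt (fun τ : ℝ => (1 + (τ : ℂ) * I)) I τ := by
    refine (((Complex.ofRealCLM.hasDerivAt (x := τ)).mul_const I).const_add 1).congr_deriv ?_
    simp
  have h2 : HasDerivAt (fun τ : ℝ => log (1 + zz w α τ u))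
      (-(I * u) * zz w α τ u / (1 + zz w α τ u)) τ :=
    ((hasDerivAt_zz_tau w α τ u).const_add 1).clog_real h
  exact h1.mul h2

theorem hasDerivAt_rot_u {w α τ u : ℝ} (h : 1 + zz w α τ u ∈ slitPlane) :
    HasDerivAt (fun u : ℝ => I * ((u : ℂ) * log (1 + zz w α τ u))) (rotD w α τ u) u := by
  have h1 : HasDerivAt (fun u : ℝ => (u : ℂ)) 1 u := by
    refine (Complex.ofRealCLM.hasDerivAt (x := u)).congr_deriv ?_
    simp
  have h2 : HasDerivAt (fun u : ℝ => log (1 + zz w α τ u))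
      (-(1 + τ * I) * zz w α τ u / (1 + zz w α τ u)) u :=
    ((hasDerivAt_zz_u w α τ u).const_add 1).clog_real h
  refine ((h1.mul h2).const_mul I).congr_deriv ?_
  unfold rotD
  ring

theorem continuousOn_rotD {X : Type*} [TopologicalSpace X] {s : Set X} {w α : ℝ} {a b : X → ℝ}
    (ha : ContinuousOn a s) (hb : ContinuousOn b s)
    (h : ∀ x ∈ s, 1 + zz w α (a x) (b x) ∈ slitPlane) :
    ContinuousOn (fun x => rotD w α (a x) (b x)) s := by
  have hz0 : ContinuousOn (fun x => zz w α (a x) (b x)) s := by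
    unfold zz; fun_prop
  have hz : ContinuousOn (fun x => 1 + zz w α (a x) (b x)) s := continuousOn_const.add hz0
  unfold rotD
  refine ContinuousOn.add (continuousOn_const.mul (hz.clog h)) ?_
  refine ContinuousOn.mul (by fun_prop) (ContinuousOn.div ?_ hz fun x hx =>
    slitPlane_ne_zero (h x hx))
  exact ContinuousOn.mul (by fun_prop) hz0

theorem rot_rect {w α τ R : ℝ} (hw : 0 < w) (hα : |α| < Real.pi) (hτ : 0 ≤ τ) (hR : 0 ≤ R)
    (hray : w ≤ 1 ∨ -Real.pi < α - τ * Real.log w) :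
    (1 + (τ : ℂ) * I) * (∫ u in (0 : ℝ)..R, log (1 + zz w α τ u)) -
      ∫ u in (0 : ℝ)..R, log (1 + zz w α 0 u) =
      ∫ t in (0 : ℝ)..τ, I * ((R : ℂ) * log (1 + zz w α t R)) := by
  have hslit : ∀ t ∈ Set.Icc (0 : ℝ) τ, ∀ u : ℝ, 0 ≤ u → 1 + zz w α t u ∈ slitPlane :=
    fun t ht u hu => one_add_zz_mem_slitPlane hw hα ht.1 (ray_mono ht.2 hray) hu
  have hcD : ContinuousOn (fun p : ℝ × ℝ => rotD w α p.2 p.1)
      (Set.Icc (0 : ℝ) R ×ˢ Set.Icc (0 : ℝ) τ) :=
    continuousOn_rotD continuousOn_snd continuousOn_fst fun p hp => hslit p.2 hp.2 p.1 hp.1.1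
  have hcu : ∀ u ∈ Set.Icc (0 : ℝ) R,
      ContinuousOn (fun t : ℝ => rotD w α t u) (Set.Icc (0 : ℝ) τ) := fun u hu =>
    continuousOn_rotD (a := fun t : ℝ => t) (b := fun _ => u) continuousOn_id continuousOn_const
      fun t ht => hslit t ht u hu.1
  have hct : ∀ t ∈ Set.Icc (0 : ℝ) τ,
      ContinuousOn (fun u : ℝ => rotD w α t u) (Set.Icc (0 : ℝ) R) := fun t ht =>
    continuousOn_rotD (a := fun _ : ℝ => t) (b := fun u => u) continuousOn_const continuousOn_id
      fun u hu => hslit t ht u hu.1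
  have hint : Integrable (Function.uncurry fun u t : ℝ => rotD w α t u)
      (((volume : Measure ℝ).restrict (Set.Ioc 0 R)).prod
        ((volume : Measure ℝ).restrict (Set.Ioc 0 τ))) := by
    rw [Measure.prod_restrict]
    refine (IntegrableOn.mono_set (t := Set.Icc (0 : ℝ) R ×ˢ Set.Icc (0 : ℝ) τ) ?_
      (Set.prod_mono Set.Ioc_subset_Icc_self Set.Ioc_subset_Icc_self))
    rw [← Measure.volume_eq_prod]
    exact hcD.integrableOn_compact (isCompact_Icc.prod isCompact_Icc)
  have hswap := integral_integral_swap hint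
  have hleft : ∀ u ∈ Set.Ioc (0 : ℝ) R, ∫ t in Set.Ioc (0 : ℝ) τ, rotD w α t u =
      (1 + (τ : ℂ) * I) * log (1 + zz w α τ u) - log (1 + zz w α 0 u) := by
    intro u hu
    rw [← intervalIntegral.integral_of_le hτ]
    have hd : ∀ t ∈ Set.uIcc (0 : ℝ) τ,
        HasDerivAt (fun τ : ℝ => (1 + (τ : ℂ) * I) * log (1 + zz w α τ u)) (rotD w α t u) t := by
      intro t ht
      rw [Set.uIcc_of_le hτ] at ht
      exact hasDerivAt_rot_tau (hslit t ht u hu.1.le)
    rw [intervalIntegral.integral_eq_sub_of_hasDerivAt hd]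
    · simp
    · refine ContinuousOn.intervalIntegrable ?_
      rw [Set.uIcc_of_le hτ]
      exact hcu u ⟨hu.1.le, hu.2⟩
  have hright : ∀ t ∈ Set.Ioc (0 : ℝ) τ, ∫ u in Set.Ioc (0 : ℝ) R, rotD w α t u =
      I * ((R : ℂ) * log (1 + zz w α t R)) := by
    intro t ht
    rw [← intervalIntegral.integral_of_le hR]
    have hd : ∀ u ∈ Set.uIcc (0 : ℝ) R,
        HasDerivAt (fun u : ℝ => I * ((u : ℂ) * log (1 + zz w α t u))) (rotD w α t u) u := by
      intro u hu
      rw [Set.uIcc_of_le hR] at hu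
      exact hasDerivAt_rot_u (hslit t ⟨ht.1.le, ht.2⟩ u hu.1)
    rw [intervalIntegral.integral_eq_sub_of_hasDerivAt hd]
    · simp
    · refine ContinuousOn.intervalIntegrable ?_
      rw [Set.uIcc_of_le hR]
      exact hct t ⟨ht.1.le, ht.2⟩
  rw [setIntegral_congr_fun measurableSet_Ioc hleft,
    setIntegral_congr_fun measurableSet_Ioc hright] at hswap
  rw [intervalIntegral.integral_of_le hτ, ← hswap, ← intervalIntegral.integral_of_le hR]
  have hci : ∀ t ∈ Set.Icc (0 : ℝ) τ,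
      IntervalIntegrable (fun u : ℝ => log (1 + zz w α t u)) volume 0 R := by
    intro t ht
    refine ((continuousOn_log_zz hw hα ht.1 (ray_mono ht.2 hray)).mono ?_).intervalIntegrable
    rw [Set.uIcc_of_le hR]
    exact fun x hx => hx.1
  rw [intervalIntegral.integral_sub ((hci τ ⟨hτ, le_rfl⟩).const_mul _) (hci 0 ⟨le_rfl, hτ⟩),
    intervalIntegral.integral_const_mul]

/-- rotation of the ray of integration -/
theorem rotation {w α τ : ℝ} (hw : 0 < w) (hα : |α| < Real.pi) (hτ : 0 ≤ τ)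
    (hray : w ≤ 1 ∨ -Real.pi < α - τ * Real.log w) :
    (1 + (τ : ℂ) * I) * ∫ u in Set.Ioi (0 : ℝ), log (1 + zz w α τ u) =
      Phi ((w : ℂ) * exp (I * α)) := by
  have hray0 : w ≤ 1 ∨ -Real.pi < α - 0 * Real.log w := ray_mono hτ hray
  have h1 := intervalIntegral_tendsto_integral_Ioi 0 (integrableOn_log_zz hw hα hτ hray)
    (tendsto_id (α := ℝ) (x := atTop))
  have h2 := intervalIntegral_tendsto_integral_Ioi 0 (integrableOn_log_zz hw hα le_rfl hray0)
    (tendsto_id (α := ℝ) (x := atTop))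
  have h3 := (h1.const_mul (1 + (τ : ℂ) * I)).sub h2
  have hlim : Tendsto (fun R : ℝ => (1 + (τ : ℂ) * I) * (∫ u in (0 : ℝ)..R, log (1 + zz w α τ u)) -
      ∫ u in (0 : ℝ)..R, log (1 + zz w α 0 u)) atTop (𝓝 0) := by
    rw [tendsto_zero_iff_norm_tendsto_zero]
    have hb : Tendsto (fun R : ℝ => τ * (3 / 2 * w) * (R ^ 1 * Real.exp (-R))) atTop (𝓝 0) := by
      have := (Real.tendsto_pow_mul_exp_neg_atTop_nhds_zero 1).const_mul (τ * (3 / 2 * w))
      rwa [mul_zero] at this
    have hsm : ∀ᶠ R : ℝ in atTop, w * Real.exp (-R) ≤ 1 / 2 := by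
      have h := eventually_zz_small hw α 0
      filter_upwards [h] with R hR
      rwa [norm_zz hw] at hR
    refine squeeze_zero' (Eventually.of_forall fun R => norm_nonneg _) ?_ hb
    filter_upwards [hsm, eventually_ge_atTop (0 : ℝ)] with R hR hR0
    rw [rot_rect hw hα hτ hR0 hray]
    have hbd : ∀ t ∈ Set.uIoc (0 : ℝ) τ, ‖I * ((R : ℂ) * log (1 + zz w α t R))‖ ≤
        R * (3 / 2 * w * Real.exp (-R)) := by
      intro t _
      rw [norm_mul, norm_mul, Complex.norm_I, one_mul, Complex.norm_real, Real.norm_eq_abs,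
        abs_of_nonneg hR0]
      refine mul_le_mul_of_nonneg_left ?_ hR0
      refine (Complex.norm_log_one_add_half_le_self ?_).trans ?_
      · rw [norm_zz hw]; exact hR
      · rw [norm_zz hw]; linarith
    refine (intervalIntegral.norm_integral_le_of_norm_le_const hbd).trans (le_of_eq ?_)
    rw [sub_zero, abs_of_nonneg hτ]
    ring
  have heq := tendsto_nhds_unique h3 hlim
  rw [sub_eq_zero] at heq
  rw [heq]
  unfold Phi
  refine setIntegral_congr_fun measurableSet_Ioi fun u _ => ?_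
  rw [zz_eq]
  push_cast
  rw [zero_mul, add_zero, one_mul]

/-- error integral -/
noncomputable def Eint (w α τ : ℝ) : ℝ :=
  ∫ u in Set.Ioi (0 : ℝ), ‖zz w α τ u‖ / ‖1 + zz w α τ u‖ ^ 2

theorem integrableOn_zz_sq {w α τ : ℝ} (hw : 0 < w) (hα : |α| < Real.pi) (hτ : 0 ≤ τ)
    (hray : w ≤ 1 ∨ -Real.pi < α - τ * Real.log w) :
    ContinuousOn (fun u : ℝ => zz w α τ u / (1 + zz w α τ u) ^ 2) (Set.Ici 0) ∧
    IntegrableOn (fun u : ℝ => zz w α τ u / (1 + zz w α τ u) ^ 2) (Set.Ioi 0) := by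
  have hz : Continuous (fun u : ℝ => zz w α τ u) := (continuous_zz w α).comp
    (Continuous.prodMk continuous_const continuous_id)
  have hc : ContinuousOn (fun u : ℝ => zz w α τ u / (1 + zz w α τ u) ^ 2) (Set.Ici 0) := by
    refine ContinuousOn.div hz.continuousOn ((continuous_const.add hz).pow 2).continuousOn ?_
    intro u hu
    exact pow_ne_zero 2 (slitPlane_ne_zero (one_add_zz_mem_slitPlane hw hα hτ hray hu))
  refine ⟨hc, integrableOn_of_exp hc (C := 4 * w) ?_⟩
  filter_upwards [eventually_zz_small hw α τ] with u hu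
  have h1 : 1 / 2 ≤ ‖1 + zz w α τ u‖ := by
    have := norm_sub_le_norm_add (1 : ℂ) (zz w α τ u)
    rw [norm_one] at this
    linarith
  rw [norm_div, norm_pow, norm_zz hw, div_le_iff₀ (by positivity)]
  have h2 : (1 / 2 : ℝ) ^ 2 ≤ ‖1 + zz w α τ u‖ ^ 2 := pow_le_pow_left₀ (by norm_num) h1 2
  have h3 : 0 < w * Real.exp (-u) := by positivity
  nlinarith

/-- the representation -/
theorem Lam_rep {w α σ τ : ℝ} (hw : 0 < w) (hα : |α| < Real.pi) (hτ : 0 ≤ τ) (hσ : 0 < σ)
    (hray : w ≤ 1 ∨ -Real.pi < α - τ * Real.log w) :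
    ∃ E : ℂ, Lam ((w : ℂ) * exp (I * α)) ((σ : ℂ) + (σ * τ : ℝ) * I) =
        exp (Phi ((w : ℂ) * exp (I * α)) / ((σ : ℂ) + (σ * τ : ℝ) * I) + E) ∧
      ‖E‖ ≤ σ * (1 + τ ^ 2) / 8 * Eint w α τ := by
  set t : ℂ := (w : ℂ) * exp (I * α) with ht
  set s : ℂ := (σ : ℂ) + (σ * τ : ℝ) * I with hs
  have hsc : s = σ * (1 + τ * I) := by rw [hs]; push_cast; ring
  have hsre : 0 < s.re := by rw [hs]; simpa using hσ
  have hslit : ∀ y : ℝ, 0 ≤ y → 1 + zz w α τ (σ * y) ∈ slitPlane := fun y hy =>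
    one_add_zz_mem_slitPlane hw hα hτ hray (by positivity)
  have hzd : ∀ y : ℝ, HasDerivAt (fun y : ℝ => zz w α τ (σ * y)) (-s * zz w α τ (σ * y)) y := by
    intro y
    have h1 : HasDerivAt (fun y : ℝ => σ * y) σ y := by
      simpa using (hasDerivAt_id y).const_mul σ
    refine ((hasDerivAt_zz_u w α τ (σ * y)).scomp y h1).congr_deriv ?_
    rw [hsc, Complex.real_smul]; ring
  set f : ℝ → ℂ := fun y => log (1 + zz w α τ (σ * y)) with hf
  set f' : ℝ → ℂ := fun y => -s * zz w α τ (σ * y) / (1 + zz w α τ (σ * y)) with hf'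
  set f'' : ℝ → ℂ := fun y => s ^ 2 * (zz w α τ (σ * y) / (1 + zz w α τ (σ * y)) ^ 2) with hf''
  have hd1 : ∀ x ∈ Set.Ici (0 : ℝ), HasDerivAt f (f' x) x := fun x hx =>
    ((hzd x).const_add 1).clog_real (hslit x hx)
  have hd2 : ∀ x ∈ Set.Ici (0 : ℝ), HasDerivAt f' (f'' x) x := by
    intro x hx
    have hne := slitPlane_ne_zero (hslit x hx)
    refine (((hzd x).const_mul (-s)).div ((hzd x).const_add 1) hne).congr_deriv ?_
    simp only [hf'']
    field_simp
    ring
  have hmaps : Set.MapsTo (fun y : ℝ => σ * y) (Set.Ici 0) (Set.Ici 0) := fun y hy =>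
    mul_nonneg hσ.le hy
  obtain ⟨hG1, hG2⟩ := integrableOn_zz_sq hw hα hτ hray
  have hcont'' : ContinuousOn f'' (Set.Ici (0 : ℝ)) := by
    refine continuousOn_const.mul ?_
    exact ContinuousOn.comp (g := fun u : ℝ => zz w α τ u / (1 + zz w α τ u) ^ 2) hG1
      (by fun_prop) hmaps
  have hint : IntegrableOn f (Set.Ioi (0 : ℝ)) := by
    have h := (integrableOn_Ioi_comp_mul_left_iff (fun u : ℝ => log (1 + zz w α τ u)) 0 hσ).mpr
      (by rw [mul_zero]; exact integrableOn_log_zz hw hα hτ hray)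
    exact h
  have hint'' : IntegrableOn f'' (Set.Ioi (0 : ℝ)) := by
    have h := (integrableOn_Ioi_comp_mul_left_iff
      (fun u : ℝ => zz w α τ u / (1 + zz w α τ u) ^ 2) 0 hσ).mpr (by rw [mul_zero]; exact hG2)
    exact h.const_mul _
  -- the series
  have hev : ∀ᶠ j : ℕ in atTop, ‖f ((j : ℝ) + 1 / 2)‖ ≤ 3 / 2 * w * Real.exp (-σ) ^ j := by
    have htend : Tendsto (fun j : ℕ => σ * ((j : ℝ) + 1 / 2)) atTop atTop :=
      Tendsto.const_mul_atTop hσ (tendsto_atTop_add_const_right _ _ tendsto_natCast_atTop_atTop)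
    filter_upwards [htend.eventually (eventually_log_le hw α τ)] with j hj
    refine hj.trans ?_
    rw [← Real.exp_nat_mul]
    refine mul_le_mul_of_nonneg_left (Real.exp_le_exp.mpr ?_) (by positivity)
    nlinarith
  have hsum : Summable (fun j : ℕ => f ((j : ℝ) + 1 / 2)) := by
    refine Summable.of_norm_bounded_eventually_nat
      (g := fun j : ℕ => 3 / 2 * w * Real.exp (-σ) ^ j) ?_ hev
    refine (summable_geometric_of_lt_one (Real.exp_pos _).le ?_).mul_left _
    rw [Real.exp_lt_one_iff]; linarith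
  set S : ℂ := ∑' j : ℕ, f ((j : ℝ) + 1 / 2) with hS
  have hSt : Tendsto (fun N : ℕ => ∑ j ∈ Finset.range N, f ((j : ℝ) + 1 / 2)) atTop (𝓝 S) :=
    hsum.hasSum.tendsto_sum_nat
  have hprod : ∀ N : ℕ, exp (∑ j ∈ Finset.range N, f ((j : ℝ) + 1 / 2)) =
      ∏ j ∈ Finset.range N, (1 + t * exp (-(s * ((j : ℂ) + 1 / 2)))) := by
    intro N
    rw [Complex.exp_sum]
    refine Finset.prod_congr rfl fun j _ => ?_
    simp only [hf]
    rw [Complex.exp_log (slitPlane_ne_zero (hslit _ (by positivity))), zz_eq, ← ht, hsc]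
    push_cast
    congr 3
    ring
  have hLam : Lam t s = exp S := by
    have h1 := (Complex.continuous_exp.tendsto S).comp hSt
    have h2 := Lam_tendsto hsre t
    refine tendsto_nhds_unique h2 (h1.congr fun N => ?_)
    simp only [Function.comp]
    exact hprod N
  have hmid := midpoint_halfline hd1 hd2 hcont'' hint hint'' hSt
  have hne1 : (1 + (τ : ℂ) * I) ≠ 0 := by
    intro h
    have := congrArg Complex.re h
    simp at this
  have hσc : (σ : ℂ) ≠ 0 := by exact_mod_cast hσ.ne'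
  have hint_f : ∫ x in Set.Ioi (0 : ℝ), f x = Phi t / s := by
    have h := integral_comp_mul_left_Ioi (fun u : ℝ => log (1 + zz w α τ u)) 0 hσ
    rw [mul_zero] at h
    have hrot := rotation hw hα hτ hray
    rw [← ht] at hrot
    change ∫ x in Set.Ioi (0 : ℝ), log (1 + zz w α τ (σ * x)) = Phi t / s
    rw [h, ← hrot, Complex.real_smul, hsc]
    push_cast
    field_simp
  have hint_f'' : ∫ x in Set.Ioi (0 : ℝ), ‖f'' x‖ = σ * (1 + τ ^ 2) * Eint w α τ := by
    have hns : ‖s‖ ^ 2 = σ ^ 2 * (1 + τ ^ 2) := by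
      rw [hs, ← Complex.normSq_eq_norm_sq, Complex.normSq_add_mul_I]; ring
    have h := integral_comp_mul_left_Ioi
      (fun u : ℝ => ‖zz w α τ u‖ / ‖1 + zz w α τ u‖ ^ 2) 0 hσ
    rw [mul_zero] at h
    have e : ∀ x : ℝ, ‖f'' x‖ =
        σ ^ 2 * (1 + τ ^ 2) * (‖zz w α τ (σ * x)‖ / ‖1 + zz w α τ (σ * x)‖ ^ 2) := by
      intro x
      simp only [hf'']
      rw [norm_mul, norm_pow, hns, norm_div, norm_pow]
    simp_rw [e]
    rw [integral_const_mul, h, smul_eq_mul]
    unfold Eint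
    field_simp
  rw [hint_f, hint_f''] at hmid
  refine ⟨S - Phi t / s, ?_, ?_⟩
  · rw [hLam]; congr 1; ring
  · refine hmid.trans (le_of_eq ?_)
    ring

end Pool.Agent.Lib.Durfee
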