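import Pool.Agent.Lib.MP_9393b1_co.Euler

set_option autoImplicit false

namespace Pool.Agent.Lib.Durfee

open Complex MeasureTheory

/-- `FF w s = ∑_k (-w²)^k e^{-s k²} / (qfac s k)²`. -/
noncomputable def FF (w : ℝ) (s : ℂ) : ℂ :=
  ∑' k : ℕ, (-((w : ℂ) ^ 2)) ^ k * exp (-(s * (k : ℂ) ^ 2)) / (qfac s k) ^ 2

/-- The shifted part of the recursion. -/
theorem rp_pk_succ (k m : ℕ) :
    pk (k + 1) m = pk k m + if k + 1 ≤ m then pk (k + 1) (m - (k + 1)) else 0 := by
  rw [pk]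
  split_ifs <;> rfl

theorem rp_pk_zero (m : ℕ) : pk 0 m = if m = 0 then 1 else 0 := by
  rw [pk]

theorem rp_pk_summable {r : ℝ} (hr0 : 0 ≤ r) (hr : r < 1) (k : ℕ) :
    Summable (fun m : ℕ => (pk k m : ℝ) * r ^ m) := by
  induction k with
  | zero =>
    refine summable_of_ne_finset_zero (s := {0}) fun m hm => ?_
    rw [Finset.mem_singleton] at hm
    simp [rp_pk_zero, hm]
  | succ k ih =>
    have hnn : ∀ (k m : ℕ), 0 ≤ (pk k m : ℝ) * r ^ m := fun k m => by positivity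
    refine summable_of_sum_range_le (c := (∑' m, (pk k m : ℝ) * r ^ m) / (1 - r ^ (k + 1)))
      (hnn (k + 1)) fun N => ?_
    have hrk : r ^ (k + 1) < 1 := pow_lt_one₀ hr0 hr (by omega)
    rw [le_div_iff₀ (by linarith)]
    have h1 : ∑ m ∈ Finset.range N, (pk (k + 1) m : ℝ) * r ^ m =
        ∑ m ∈ Finset.range N, (pk k m : ℝ) * r ^ m +
        ∑ m ∈ Finset.range N, (if k + 1 ≤ m then (pk (k + 1) (m - (k + 1)) : ℝ) * r ^ m else 0) := by
      rw [← Finset.sum_add_distrib]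
      refine Finset.sum_congr rfl fun m _ => ?_
      rw [rp_pk_succ]
      split_ifs
      · push_cast; ring
      · push_cast; ring
    have h2 : ∑ m ∈ Finset.range N,
        (if k + 1 ≤ m then (pk (k + 1) (m - (k + 1)) : ℝ) * r ^ m else 0) ≤
        r ^ (k + 1) * ∑ m ∈ Finset.range N, (pk (k + 1) m : ℝ) * r ^ m := by
      rcases le_or_gt (k + 1) N with hN | hN
      · obtain ⟨M, rfl⟩ := Nat.exists_eq_add_of_le hN
        rw [Finset.sum_range_add]
        rw [Finset.sum_eq_zero (s := Finset.range (k + 1))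
          (fun m hm => if_neg (by rw [Finset.mem_range] at hm; omega)), zero_add]
        calc ∑ x ∈ Finset.range M, (if k + 1 ≤ k + 1 + x then
                (pk (k + 1) (k + 1 + x - (k + 1)) : ℝ) * r ^ (k + 1 + x) else 0)
            = r ^ (k + 1) * ∑ m ∈ Finset.range M, (pk (k + 1) m : ℝ) * r ^ m := by
              rw [Finset.mul_sum]
              refine Finset.sum_congr rfl fun x _ => ?_
              rw [if_pos (by omega), Nat.add_sub_cancel_left, pow_add]
              ring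
          _ ≤ _ := by
              refine mul_le_mul_of_nonneg_left ?_ (by positivity)
              exact Finset.sum_le_sum_of_subset_of_nonneg
                (Finset.range_mono (by omega)) fun i _ _ => hnn _ _
      · rw [Finset.sum_eq_zero]
        · exact mul_nonneg (by positivity) (Finset.sum_nonneg fun i _ => hnn _ _)
        · intro m hm
          rw [Finset.mem_range] at hm
          exact if_neg (by omega)
    have h3 : ∑ m ∈ Finset.range N, (pk k m : ℝ) * r ^ m ≤ ∑' m, (pk k m : ℝ) * r ^ m :=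
      ih.sum_le_tsum _ fun i _ => hnn _ _
    nlinarith

theorem pk_hasSum {q : ℂ} (hq : ‖q‖ < 1) (k : ℕ) :
    HasSum (fun m : ℕ => (pk k m : ℂ) * q ^ m) (∏ i ∈ Finset.range k, (1 - q ^ (i + 1)))⁻¹ := by
  induction k with
  | zero =>
    have h1 : (fun m : ℕ => (pk 0 m : ℂ) * q ^ m) = fun m => if m = 0 then 1 else 0 := by
      funext m
      rw [rp_pk_zero]
      split_ifs with h
      · simp [h]
      · simp
    rw [h1]
    simpa using hasSum_ite_eq (0 : ℕ) (1 : ℂ)
  | succ k ih =>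
    have hs : Summable (fun m : ℕ => (pk (k + 1) m : ℂ) * q ^ m) := by
      refine Summable.of_norm ?_
      have := rp_pk_summable (norm_nonneg q) hq (k + 1)
      refine this.congr fun m => ?_
      rw [norm_mul, norm_pow, Complex.norm_natCast]
    obtain ⟨G, hG⟩ := hs
    have h2 : HasSum (fun m : ℕ => if k + 1 ≤ m then
        (pk (k + 1) (m - (k + 1)) : ℂ) * q ^ m else 0) (q ^ (k + 1) * G) := by
      have h3 := (hG.mul_left (q ^ (k + 1)))
      have h4 := (hasSum_nat_add_iff (f := fun m : ℕ => if k + 1 ≤ m then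
        (pk (k + 1) (m - (k + 1)) : ℂ) * q ^ m else 0) (k + 1) (g := q ^ (k + 1) * G)).1 ?_
      · rw [Finset.sum_eq_zero (s := Finset.range (k + 1))
          (fun m hm => if_neg (by rw [Finset.mem_range] at hm; omega)), add_zero] at h4
        exact h4
      · refine h3.congr_fun ?_
        intro m
        rw [if_pos (by omega), Nat.add_sub_cancel, pow_add]
        ring
    have h5 := ih.add h2
    have h6 : HasSum (fun m : ℕ => (pk (k + 1) m : ℂ) * q ^ m)
        ((∏ i ∈ Finset.range k, (1 - q ^ (i + 1)))⁻¹ + q ^ (k + 1) * G) := by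
      refine h5.congr_fun fun m => ?_
      rw [rp_pk_succ]
      split_ifs
      · push_cast; ring
      · push_cast; ring
    have h7 := h6.unique hG
    have hne : (1 - q ^ (k + 1)) ≠ 0 := by
      intro h
      have h8 : q ^ (k + 1) = 1 := by linear_combination -h
      have h9 : ‖q‖ ^ (k + 1) = 1 := by rw [← norm_pow, h8, norm_one]
      have h10 := pow_lt_one₀ (norm_nonneg q) hq (n := k + 1) (by omega)
      linarith
    have h8 : G = (∏ i ∈ Finset.range (k + 1), (1 - q ^ (i + 1)))⁻¹ := by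
      rw [Finset.prod_range_succ, mul_inv, ← div_eq_mul_inv, eq_div_iff hne]
      linear_combination -h7
    rw [← h8]
    exact hG

theorem rp_integral_exp_int (n : ℤ) :
    ∫ θ in (-Real.pi)..Real.pi, exp (I * ((n : ℂ) * θ)) = if n = 0 then 2 * (Real.pi : ℂ) else 0 := by
  split_ifs with h
  · subst h
    simp
    ring
  · have h1 : ∀ θ : ℝ, exp (I * ((n : ℂ) * θ)) = exp ((I * n) * (θ : ℂ)) := fun θ => by
      congr 1; ring
    simp only [h1]
    rw [integral_exp_mul_complex (mul_ne_zero I_ne_zero (Int.cast_ne_zero.2 h))]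
    have h2 : exp (I * n * ((Real.pi : ℝ) : ℂ)) = exp (I * n * ((-Real.pi : ℝ) : ℂ)) := by
      rw [exp_eq_exp_iff_exists_int]
      refine ⟨n, ?_⟩
      push_cast
      ring
    rw [h2, sub_self, zero_div]

theorem rp_sq_term (w : ℝ) (s : ℂ) (k : ℕ) :
    ((I * w) ^ k * exp (-(s * (k : ℂ) ^ 2 / 2)) / qfac s k) ^ 2 =
      (-((w : ℂ) ^ 2)) ^ k * exp (-(s * (k : ℂ) ^ 2)) / (qfac s k) ^ 2 := by
  rw [div_pow, mul_pow]
  congr 2
  · rw [← pow_mul, mul_comm k 2, pow_mul, mul_pow, I_sq]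
    congr 1
    ring
  · rw [← exp_nat_mul]
    congr 1
    push_cast
    ring

/-- Parseval in `θ`. -/
theorem integral_PP_eq (w : ℝ) {s : ℂ} (hs : 0 < s.re) :
    ∫ θ in (-Real.pi)..Real.pi, PP w θ s = 2 * Real.pi * FF w s := by
  set a : ℕ → ℂ := fun k => (I * w) ^ k * exp (-(s * (k : ℂ) ^ 2 / 2)) / qfac s k with ha
  have hsum : Summable fun k => ‖a k‖ := Lam_summable hs (I * w)
  have hL : ∀ u : ℂ, Lam (I * w * u) s = ∑' k : ℕ, a k * u ^ k := by
    intro u
    unfold Lam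
    refine tsum_congr fun k => ?_
    rw [ha, mul_pow (I * w) u]
    ring
  have hPP : ∀ θ : ℝ, PP w θ s =
      ∑' z : ℕ × ℕ, (a z.1 * exp (I * θ) ^ z.1) * (a z.2 * exp (-(I * θ)) ^ z.2) := by
    intro θ
    unfold PP
    rw [hL, hL]
    refine tsum_mul_tsum_of_summable_norm ?_ ?_
    · refine hsum.congr fun k => ?_
      rw [norm_mul, norm_pow]
      have : ‖exp (I * (θ : ℂ))‖ = 1 := by
        rw [mul_comm]; exact norm_exp_ofReal_mul_I θ
      rw [this, one_pow, mul_one]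
    · refine hsum.congr fun k => ?_
      rw [norm_mul, norm_pow]
      have : ‖exp (-(I * (θ : ℂ)))‖ = 1 := by
        have := norm_exp_ofReal_mul_I (-θ)
        rw [← this]; congr 2; push_cast; ring
      rw [this, one_pow, mul_one]
  have hterm : ∀ (θ : ℝ) (z : ℕ × ℕ),
      (a z.1 * exp (I * θ) ^ z.1) * (a z.2 * exp (-(I * θ)) ^ z.2) =
      a z.1 * a z.2 * exp (I * ((((z.1 : ℤ) - (z.2 : ℤ) : ℤ) : ℂ) * θ)) := by
    intro θ z
    rw [← exp_nat_mul, ← exp_nat_mul]
    have : exp (I * ((((z.1 : ℤ) - (z.2 : ℤ) : ℤ) : ℂ) * θ)) =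
        exp ((z.1 : ℂ) * (I * θ)) * exp ((z.2 : ℂ) * -(I * θ)) := by
      rw [← exp_add]
      congr 1
      push_cast
      ring
    rw [this]
    ring
  have hnorm : ∀ (θ : ℝ) (n : ℤ), ‖exp (I * ((n : ℂ) * θ))‖ = 1 := by
    intro θ n
    have := norm_exp_ofReal_mul_I ((n : ℝ) * θ)
    rw [← this]; congr 2; push_cast; ring
  have hprod : Summable fun z : ℕ × ℕ => ‖a z.1‖ * ‖a z.2‖ :=
    hsum.mul_of_nonneg hsum (fun _ => norm_nonneg _) (fun _ => norm_nonneg _)
  have hI := intervalIntegral.hasSum_integral_of_dominated_convergence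
    (μ := volume) (a := -Real.pi) (b := Real.pi)
    (F := fun (z : ℕ × ℕ) (θ : ℝ) => a z.1 * a z.2 * exp (I * ((((z.1 : ℤ) - (z.2 : ℤ) : ℤ) : ℂ) * θ)))
    (f := fun θ => PP w θ s)
    (fun z _ => ‖a z.1‖ * ‖a z.2‖)
    (fun z => by
      refine Continuous.aestronglyMeasurable ?_
      fun_prop)
    (fun z => Filter.Eventually.of_forall fun θ _ => by
      rw [norm_mul, norm_mul, hnorm, mul_one])
    (Filter.Eventually.of_forall fun θ _ => hprod)
    (by simp)
    (Filter.Eventually.of_forall fun θ _ => by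
      rw [hPP θ]
      have h1 : Summable fun z : ℕ × ℕ =>
          (a z.1 * exp (I * θ) ^ z.1) * (a z.2 * exp (-(I * θ)) ^ z.2) := by
        refine Summable.of_norm (hprod.congr fun z => ?_)
        rw [hterm, norm_mul, norm_mul, hnorm, mul_one]
      have h2 := h1.hasSum
      refine h2.congr_fun fun z => ?_
      exact (hterm θ z).symm)
  have hval : ∀ z : ℕ × ℕ, ∫ θ in (-Real.pi)..Real.pi,
      a z.1 * a z.2 * exp (I * ((((z.1 : ℤ) - (z.2 : ℤ) : ℤ) : ℂ) * θ)) =
      if z.1 = z.2 then 2 * Real.pi * (a z.1 * a z.2) else 0 := by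
    intro z
    rw [intervalIntegral.integral_const_mul, rp_integral_exp_int]
    by_cases h : z.1 = z.2
    · rw [if_pos h, if_pos (by rw [h]; simp)]
      ring
    · rw [if_neg h, if_neg (by omega), mul_zero]
  simp only [hval] at hI
  have hdiag : HasSum (fun k : ℕ => 2 * (Real.pi : ℂ) * (a k * a k))
      (∫ θ in (-Real.pi)..Real.pi, PP w θ s) := by
    have hinj : Function.Injective (fun k : ℕ => (k, k)) := fun x y h => (Prod.ext_iff.1 h).1
    have := (hinj.hasSum_iff (f := fun z : ℕ × ℕ =>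
      if z.1 = z.2 then 2 * (Real.pi : ℂ) * (a z.1 * a z.2) else 0)
      (a := ∫ θ in (-Real.pi)..Real.pi, PP w θ s) ?_).2 hI
    · refine this.congr_fun fun k => ?_
      simp
    · rintro ⟨x, y⟩ hxy
      refine if_neg fun h => hxy ⟨x, ?_⟩
      simp only at h
      rw [h]
  rw [← hdiag.tsum_eq, tsum_mul_left]
  congr 1
  unfold FF
  refine tsum_congr fun k => ?_
  rw [← rp_sq_term, ha]
  ring

theorem rp_norm_sq_term_le {s : ℂ} {σ : ℝ} (hσ : 0 < σ) (hs : s.re = σ) (w : ℝ) (k : ℕ) :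
    ‖(-((w : ℂ) ^ 2)) ^ k * exp (-(s * (k : ℂ) ^ 2)) / (qfac s k) ^ 2‖ ≤
      ((|w| / (1 - Real.exp (-σ))) ^ 2) ^ k * Real.exp (-(2 * σ * (k : ℝ) ^ 2 / 2)) := by
  rw [← rp_sq_term, norm_pow]
  have h1 := Lam_term_norm_le hσ hs (I * w) k
  have h2 : ‖I * (w : ℂ)‖ = |w| := by simp
  rw [h2] at h1
  calc _ ≤ ((|w| / (1 - Real.exp (-σ))) ^ k * Real.exp (-(σ * (k : ℝ) ^ 2 / 2))) ^ 2 :=
        pow_le_pow_left₀ (norm_nonneg _) h1 2
    _ = _ := by
        rw [mul_pow, ← pow_mul, mul_comm k 2, pow_mul, ← Real.exp_nat_mul]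
        congr 2
        push_cast
        ring

theorem rp_continuous_qfac (k : ℕ) : Continuous fun s : ℂ => qfac s k := by
  unfold qfac
  fun_prop

theorem continuous_FF (w : ℝ) {σ : ℝ} (hσ : 0 < σ) :
    Continuous (fun β : ℝ => FF w ((σ : ℂ) + β * I)) := by
  unfold FF
  refine continuous_tsum (u := fun k : ℕ =>
    ((|w| / (1 - Real.exp (-σ))) ^ 2) ^ k * Real.exp (-(2 * σ * (k : ℝ) ^ 2 / 2))) ?_
    (summable_Lam_bound (by positivity) _) ?_
  · intro k
    refine Continuous.div ?_ ?_ ?_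
    · fun_prop
    · exact ((rp_continuous_qfac k).comp (by fun_prop)).pow 2
    · intro β
      refine pow_ne_zero 2 (qfac_ne_zero ?_ k)
      simpa using hσ
  · intro k β
    exact rp_norm_sq_term_le hσ (by simp) w k

/-- coefficient of the square. -/
def rp_pk2 (k m : ℕ) : ℕ := ∑ ij ∈ Finset.HasAntidiagonal.antidiagonal m, pk k ij.1 * pk k ij.2

theorem rp_pk2_summable {r : ℝ} (hr0 : 0 ≤ r) (hr : r < 1) (k : ℕ) :
    Summable (fun m : ℕ => (rp_pk2 k m : ℝ) * r ^ m) := by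
  have h1 := rp_pk_summable hr0 hr k
  have h2 : Summable fun m : ℕ => ‖(pk k m : ℝ) * r ^ m‖ :=
    h1.congr fun m => by rw [Real.norm_of_nonneg (by positivity)]
  have h3 := summable_norm_sum_mul_antidiagonal_of_summable_norm h2 h2
  refine h3.congr fun m => ?_
  rw [Real.norm_of_nonneg (Finset.sum_nonneg fun _ _ => by positivity)]
  unfold rp_pk2
  push_cast
  rw [Finset.sum_mul]
  refine Finset.sum_congr rfl fun ij hij => ?_
  rw [Finset.HasAntidiagonal.mem_antidiagonal] at hij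
  rw [← hij, pow_add]
  ring

theorem rp_pk2_hasSum {q : ℂ} (hq : ‖q‖ < 1) (k : ℕ) :
    HasSum (fun m : ℕ => (rp_pk2 k m : ℂ) * q ^ m)
      ((∏ i ∈ Finset.range k, (1 - q ^ (i + 1))) ^ 2)⁻¹ := by
  have h1 := pk_hasSum hq k
  have h2 : Summable fun m : ℕ => ‖(pk k m : ℂ) * q ^ m‖ :=
    (rp_pk_summable (norm_nonneg q) hq k).congr fun m => by
      rw [norm_mul, norm_pow, Complex.norm_natCast]
  have h3 := tsum_mul_tsum_eq_tsum_sum_antidiagonal_of_summable_norm h2 h2
  have h4 := (summable_norm_sum_mul_antidiagonal_of_summable_norm h2 h2).of_norm.hasSum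
  rw [← h3, h1.tsum_eq] at h4
  rw [← inv_pow, sq]
  refine h4.congr_fun fun m => ?_
  unfold rp_pk2
  push_cast
  rw [Finset.sum_mul]
  refine Finset.sum_congr rfl fun ij hij => ?_
  rw [Finset.HasAntidiagonal.mem_antidiagonal] at hij
  rw [← hij, pow_add]
  ring

theorem rp_qfac_eq (s : ℂ) (k : ℕ) :
    qfac s k = ∏ i ∈ Finset.range k, (1 - exp (-s) ^ (i + 1)) := by
  unfold qfac
  refine Finset.prod_congr rfl fun i _ => ?_
  rw [← exp_nat_mul]
  congr 2
  push_cast
  ring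

theorem rp_dco_eq (n k : ℕ) : dco n k = if k ^ 2 ≤ n then rp_pk2 k (n - k ^ 2) else 0 := rfl

/-- One Fourier coefficient. -/
theorem rp_integral_term (n k : ℕ) {σ : ℝ} (hσ : 0 < σ) :
    ∫ β in (-Real.pi)..Real.pi, exp (n * ((σ : ℂ) + β * I)) *
      (exp (-(((σ : ℂ) + β * I) * (k : ℂ) ^ 2)) / (qfac ((σ : ℂ) + β * I) k) ^ 2) =
      2 * Real.pi * dco n k := by
  have hr1 : Real.exp (-σ) < 1 := by rw [Real.exp_lt_one_iff]; linarith
  have hr0 : 0 ≤ Real.exp (-σ) := (Real.exp_pos _).le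
  have hq : ∀ β : ℝ, ‖exp (-((σ : ℂ) + β * I))‖ = Real.exp (-σ) := by
    intro β
    rw [norm_exp]
    simp
  have hterm : ∀ (β : ℝ) (m : ℕ), exp (n * ((σ : ℂ) + β * I)) *
      (exp (-(((σ : ℂ) + β * I) * (k : ℂ) ^ 2)) * ((rp_pk2 k m : ℂ) * exp (-((σ : ℂ) + β * I)) ^ m)) =
      (rp_pk2 k m : ℂ) * exp ((n - (k : ℂ) ^ 2 - m) * σ) *
        exp (I * ((((n : ℤ) - (k : ℤ) ^ 2 - (m : ℤ) : ℤ) : ℂ) * β)) := by
    intro β m
    rw [← exp_nat_mul]
    have : exp (n * ((σ : ℂ) + β * I)) * (exp (-(((σ : ℂ) + β * I) * (k : ℂ) ^ 2)) *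
        ((rp_pk2 k m : ℂ) * exp (m * -((σ : ℂ) + β * I)))) =
        (rp_pk2 k m : ℂ) * (exp (n * ((σ : ℂ) + β * I)) * exp (-(((σ : ℂ) + β * I) * (k : ℂ) ^ 2)) *
          exp (m * -((σ : ℂ) + β * I))) := by ring
    rw [this, mul_assoc (rp_pk2 k m : ℂ), ← exp_add, ← exp_add, ← exp_add]
    congr 2
    push_cast
    ring
  have hnorm : ∀ (θ : ℝ) (n : ℤ), ‖exp (I * ((n : ℂ) * θ))‖ = 1 := by
    intro θ n
    have := norm_exp_ofReal_mul_I ((n : ℝ) * θ)
    rw [← this]; congr 2; push_cast; ring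
  have hexp : ∀ m : ℕ, ‖exp ((n - (k : ℂ) ^ 2 - m) * σ)‖ =
      Real.exp ((n - (k : ℝ) ^ 2) * σ) * Real.exp (-σ) ^ m := by
    intro m
    rw [norm_exp, ← Real.exp_nat_mul, ← Real.exp_add]
    congr 1
    have : ((n - (k : ℂ) ^ 2 - m) * σ) = (((n - (k : ℝ) ^ 2 - m) * σ : ℝ) : ℂ) := by
      push_cast; ring
    rw [this, ofReal_re]
    ring
  have hI := intervalIntegral.hasSum_integral_of_dominated_convergence
    (μ := volume) (a := -Real.pi) (b := Real.pi)
    (F := fun (m : ℕ) (β : ℝ) => (rp_pk2 k m : ℂ) * exp ((n - (k : ℂ) ^ 2 - m) * σ) *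
        exp (I * ((((n : ℤ) - (k : ℤ) ^ 2 - (m : ℤ) : ℤ) : ℂ) * β)))
    (f := fun β => exp (n * ((σ : ℂ) + β * I)) *
      (exp (-(((σ : ℂ) + β * I) * (k : ℂ) ^ 2)) / (qfac ((σ : ℂ) + β * I) k) ^ 2))
    (fun m _ => Real.exp ((n - (k : ℝ) ^ 2) * σ) * ((rp_pk2 k m : ℝ) * Real.exp (-σ) ^ m))
    (fun z => by
      refine Continuous.aestronglyMeasurable ?_
      fun_prop)
    (fun m => Filter.Eventually.of_forall fun θ _ => by
      rw [norm_mul, norm_mul, hnorm, mul_one, hexp, Complex.norm_natCast]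
      refine le_of_eq ?_
      ring)
    (Filter.Eventually.of_forall fun θ _ => (rp_pk2_summable hr0 hr1 k).mul_left _)
    (by simp)
    (Filter.Eventually.of_forall fun β _ => by
      have h1 := rp_pk2_hasSum (q := exp (-((σ : ℂ) + β * I))) (by rw [hq]; exact hr1) k
      rw [← rp_qfac_eq] at h1
      have h2 := (h1.mul_left (exp (-(((σ : ℂ) + β * I) * (k : ℂ) ^ 2)))).mul_left
        (exp (n * ((σ : ℂ) + β * I)))
      rw [← div_eq_mul_inv] at h2
      exact h2.congr_fun fun m => (hterm β m).symm)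
  have hval : ∀ m : ℕ, ∫ β in (-Real.pi)..Real.pi,
      (rp_pk2 k m : ℂ) * exp ((n - (k : ℂ) ^ 2 - m) * σ) *
        exp (I * ((((n : ℤ) - (k : ℤ) ^ 2 - (m : ℤ) : ℤ) : ℂ) * β)) =
      if n = k ^ 2 + m then 2 * Real.pi * (rp_pk2 k m : ℂ) else 0 := by
    intro m
    rw [intervalIntegral.integral_const_mul, rp_integral_exp_int]
    by_cases h : n = k ^ 2 + m
    · have h' : ((n : ℤ) - (k : ℤ) ^ 2 - (m : ℤ)) = 0 := by
        rw [h]; push_cast; ring
      rw [if_pos h, if_pos h']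
      have h2 : ((n : ℂ) - (k : ℂ) ^ 2 - m) = 0 := by
        rw [h]; push_cast; ring
      rw [h2, zero_mul, exp_zero]
      ring
    · have h' : ¬ ((n : ℤ) - (k : ℤ) ^ 2 - (m : ℤ)) = 0 := by
        intro h2
        apply h
        have : (n : ℤ) = ((k ^ 2 + m : ℕ) : ℤ) := by push_cast; linarith
        exact_mod_cast this
      rw [if_neg h, if_neg h', mul_zero]
  simp only [hval] at hI
  rw [rp_dco_eq]
  by_cases hk : k ^ 2 ≤ n
  · rw [if_pos hk]
    have h1 : (fun m : ℕ => if n = k ^ 2 + m then 2 * (Real.pi : ℂ) * (rp_pk2 k m : ℂ) else 0) =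
        fun m => if m = n - k ^ 2 then 2 * Real.pi * (rp_pk2 k (n - k ^ 2) : ℂ) else 0 := by
      funext m
      by_cases h : m = n - k ^ 2
      · rw [if_pos h, if_pos (by omega), h]
      · rw [if_neg h, if_neg (by omega)]
    rw [h1] at hI
    exact hI.unique (hasSum_ite_eq _ _)
  · rw [if_neg hk]
    have h1 : (fun m : ℕ => if n = k ^ 2 + m then 2 * (Real.pi : ℂ) * (rp_pk2 k m : ℂ) else 0) =
        fun m => 0 := by
      funext m
      rw [if_neg (by omega)]
    rw [h1] at hI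
    rw [hI.unique hasSum_zero]
    simp

theorem rp_Dval_eq_sum (n : ℕ) (w : ℝ) :
    (Dval n (w ^ 2) : ℂ) = ∑ k ∈ Finset.range (Nat.sqrt n + 1), (-((w : ℂ) ^ 2)) ^ k * dco n k := by
  unfold Dval Dpoly
  rw [Polynomial.eval_finsetSum]
  push_cast
  refine Finset.sum_congr rfl fun k _ => ?_
  simp
  ring

/-- full circle. -/
theorem rp_Dval_eq_full (n : ℕ) (w : ℝ) {σ : ℝ} (hσ : 0 < σ) :
    ∫ β in (-Real.pi)..Real.pi, exp (n * ((σ : ℂ) + β * I)) * FF w ((σ : ℂ) + β * I) =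
      2 * Real.pi * Dval n (w ^ 2) := by
  have hI := intervalIntegral.hasSum_integral_of_dominated_convergence
    (μ := volume) (a := -Real.pi) (b := Real.pi)
    (F := fun (k : ℕ) (β : ℝ) => (-((w : ℂ) ^ 2)) ^ k * (exp (n * ((σ : ℂ) + β * I)) *
      (exp (-(((σ : ℂ) + β * I) * (k : ℂ) ^ 2)) / (qfac ((σ : ℂ) + β * I) k) ^ 2)))
    (f := fun β => exp (n * ((σ : ℂ) + β * I)) * FF w ((σ : ℂ) + β * I))
    (fun k _ => Real.exp (n * σ) * (((|w| / (1 - Real.exp (-σ))) ^ 2) ^ k *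
      Real.exp (-(2 * σ * (k : ℝ) ^ 2 / 2))))
    (fun k => by
      refine Continuous.aestronglyMeasurable ?_
      refine Continuous.mul continuous_const (Continuous.mul (by fun_prop) ?_)
      refine Continuous.div (by fun_prop) ?_ ?_
      · exact ((rp_continuous_qfac k).comp (by fun_prop)).pow 2
      · intro β
        refine pow_ne_zero 2 (qfac_ne_zero ?_ k)
        simpa using hσ)
    (fun k => Filter.Eventually.of_forall fun β _ => by
      have h1 := rp_norm_sq_term_le (s := (σ : ℂ) + β * I) hσ (by simp) w k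
      have h2 : ‖exp (n * ((σ : ℂ) + β * I))‖ = Real.exp (n * σ) := by
        rw [norm_exp]
        simp
      have h3 : (-((w : ℂ) ^ 2)) ^ k * (exp (n * ((σ : ℂ) + β * I)) *
          (exp (-(((σ : ℂ) + β * I) * (k : ℂ) ^ 2)) / (qfac ((σ : ℂ) + β * I) k) ^ 2)) =
          exp (n * ((σ : ℂ) + β * I)) * ((-((w : ℂ) ^ 2)) ^ k *
          exp (-(((σ : ℂ) + β * I) * (k : ℂ) ^ 2)) / (qfac ((σ : ℂ) + β * I) k) ^ 2) := by ring
      rw [h3, norm_mul, h2]
      exact mul_le_mul_of_nonneg_left h1 (Real.exp_pos _).le)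
    (Filter.Eventually.of_forall fun θ _ =>
      (summable_Lam_bound (by positivity) _).mul_left _)
    (by simp)
    (Filter.Eventually.of_forall fun β _ => by
      have hsum : Summable fun k : ℕ => (-((w : ℂ) ^ 2)) ^ k *
          exp (-(((σ : ℂ) + β * I) * (k : ℂ) ^ 2)) / (qfac ((σ : ℂ) + β * I) k) ^ 2 := by
        refine Summable.of_norm_bounded (summable_Lam_bound (σ := 2 * σ) (by positivity)
          ((|w| / (1 - Real.exp (-σ))) ^ 2)) fun k => ?_
        exact rp_norm_sq_term_le hσ (by simp) w k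
      have h1 := hsum.hasSum.mul_left (exp (n * ((σ : ℂ) + β * I)))
      refine h1.congr_fun fun k => ?_
      ring)
  have hval : ∀ k : ℕ, ∫ β in (-Real.pi)..Real.pi, (-((w : ℂ) ^ 2)) ^ k *
      (exp (n * ((σ : ℂ) + β * I)) *
      (exp (-(((σ : ℂ) + β * I) * (k : ℂ) ^ 2)) / (qfac ((σ : ℂ) + β * I) k) ^ 2)) =
      (-((w : ℂ) ^ 2)) ^ k * (2 * Real.pi * dco n k) := by
    intro k
    rw [intervalIntegral.integral_const_mul, rp_integral_term n k hσ]
  simp only [hval] at hI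
  rw [rp_Dval_eq_sum, Finset.mul_sum]
  have h1 : HasSum (fun k : ℕ => (-((w : ℂ) ^ 2)) ^ k * (2 * (Real.pi : ℂ) * dco n k))
      (∑ k ∈ Finset.range (Nat.sqrt n + 1), (-((w : ℂ) ^ 2)) ^ k * (2 * (Real.pi : ℂ) * dco n k)) :=
    hasSum_sum_of_ne_finset_zero ?_
  · rw [hI.unique h1]
    refine Finset.sum_congr rfl fun k _ => ?_
    ring
  · intro k hk
    rw [Finset.mem_range, not_lt] at hk
    have h2 : n < k ^ 2 := by
      have h3 := Nat.lt_succ_sqrt n
      have h4 : (Nat.sqrt n + 1) * (Nat.sqrt n + 1) ≤ k * k := Nat.mul_le_mul hk hk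
      rw [sq]
      exact lt_of_lt_of_le h3 h4
    rw [rp_dco_eq, if_neg (by omega)]
    simp

theorem rp_qfac_conj (s : ℂ) (k : ℕ) : qfac ((starRingEnd ℂ) s) k = (starRingEnd ℂ) (qfac s k) := by
  unfold qfac
  rw [map_prod]
  refine Finset.prod_congr rfl fun i _ => ?_
  rw [map_sub, map_one, ← exp_conj]
  simp

theorem rp_FF_conj (w : ℝ) (s : ℂ) : FF w ((starRingEnd ℂ) s) = (starRingEnd ℂ) (FF w s) := by
  unfold FF
  rw [Complex.conj_tsum]
  refine tsum_congr fun k => ?_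
  rw [map_div₀, map_mul, map_pow, map_pow, rp_qfac_conj, ← exp_conj]
  simp

/-- The integral representation of `D_n(-w²)`. -/
theorem Dval_eq_integral {n : ℕ} (hn : 1 ≤ n) (w : ℝ) {σ : ℝ} (hσ : 0 < σ) :
    Dval n (w ^ 2) = 1 / Real.pi *
      ∫ β in (0 : ℝ)..Real.pi, (exp (n * ((σ : ℂ) + β * I)) * FF w ((σ : ℂ) + β * I)).re := by
  set g : ℝ → ℂ := fun β => exp (n * ((σ : ℂ) + β * I)) * FF w ((σ : ℂ) + β * I) with hg
  have hgc : Continuous g := by
    refine Continuous.mul (by fun_prop) (continuous_FF w hσ)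
  have h1 : ∫ β in (-Real.pi)..Real.pi, g β = 2 * Real.pi * Dval n (w ^ 2) := rp_Dval_eq_full n w hσ
  have h2 : ∫ β in (-Real.pi)..Real.pi, (g β).re = 2 * Real.pi * Dval n (w ^ 2) := by
    have h3 := Complex.reCLM.intervalIntegral_comp_comm (hgc.intervalIntegrable (μ := volume) (-Real.pi) Real.pi)
    simp only [Complex.reCLM_apply] at h3
    rw [h3, h1]
    norm_cast
  have h3 : ∀ β, (g (-β)).re = (g β).re := by
    intro β
    have h4 : ((σ : ℂ) + ((-β : ℝ) : ℂ) * I) = (starRingEnd ℂ) ((σ : ℂ) + β * I) := by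
      simp
    have : g (-β) = (starRingEnd ℂ) (g β) := by
      rw [hg]
      simp only
      rw [h4, rp_FF_conj, map_mul, ← exp_conj]
      congr 2
      simp
    rw [this, conj_re]
  have hre : Continuous fun β => (g β).re := continuous_re.comp hgc
  have h4 : ∫ β in (-Real.pi)..Real.pi, (g β).re = 2 * ∫ β in (0 : ℝ)..Real.pi, (g β).re := by
    rw [← intervalIntegral.integral_add_adjacent_intervals (b := 0)
      (hre.intervalIntegrable _ _) (hre.intervalIntegrable _ _)]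
    have h5 : ∫ β in (-Real.pi)..0, (g β).re = ∫ β in (0 : ℝ)..Real.pi, (g β).re := by
      have h6 := intervalIntegral.integral_comp_neg (a := -Real.pi) (b := 0)
        (f := fun β => (g (-β)).re)
      simp only [neg_neg, neg_zero] at h6
      rw [h6]
      refine intervalIntegral.integral_congr fun β _ => ?_
      exact h3 β
    rw [h5]
    ring
  rw [h4] at h2
  have hpi : Real.pi ≠ 0 := Real.pi_ne_zero
  have h5 : ∫ β in (0 : ℝ)..Real.pi, (g β).re = Real.pi * Dval n (w ^ 2) := by linarith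
  rw [h5]
  field_simp

theorem Dval_eq_integral_sub_one {n : ℕ} (hn : 1 ≤ n) (w : ℝ) {σ : ℝ} (hσ : 0 < σ) :
    Dval n (w ^ 2) = 1 / Real.pi *
      ∫ β in (0 : ℝ)..Real.pi, (exp (n * ((σ : ℂ) + β * I)) * (FF w ((σ : ℂ) + β * I) - 1)).re := by
  rw [Dval_eq_integral hn w hσ]
  congr 1
  have h1 : ∀ β : ℝ, (exp (n * ((σ : ℂ) + β * I)) * (FF w ((σ : ℂ) + β * I) - 1)).re =
      (exp (n * ((σ : ℂ) + β * I)) * FF w ((σ : ℂ) + β * I)).re -
        Real.exp (n * σ) * Real.cos (n * β) := by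
    intro β
    rw [mul_sub, mul_one, sub_re]
    congr 1
    rw [exp_re]
    simp
  simp only [h1]
  rw [intervalIntegral.integral_sub]
  · rw [intervalIntegral.integral_const_mul]
    have h2 : ∫ β in (0 : ℝ)..Real.pi, Real.cos (n * β) = 0 := by
      have hn0 : (n : ℝ) ≠ 0 := by positivity
      rw [intervalIntegral.integral_comp_mul_left (fun x => Real.cos x) hn0, integral_cos]
      simp [Real.sin_nat_mul_pi]
    rw [h2, mul_zero, sub_zero]
  · refine Continuous.intervalIntegrable ?_ _ _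
    exact continuous_re.comp (Continuous.mul (by fun_prop) (continuous_FF w hσ))
  · refine Continuous.intervalIntegrable ?_ _ _
    fun_prop

/-- Double integral version. -/
theorem Dval_eq_double_integral {n : ℕ} (hn : 1 ≤ n) (w : ℝ) {σ : ℝ} (hσ : 0 < σ) :
    Dval n (w ^ 2) = 1 / (2 * Real.pi ^ 2) *
      ∫ β in (0 : ℝ)..Real.pi, ∫ θ in (-Real.pi)..Real.pi,
        (exp (n * ((σ : ℂ) + β * I)) * PP w θ ((σ : ℂ) + β * I)).re := by
  have h1 : ∀ β : ℝ, ∫ θ in (-Real.pi)..Real.pi,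
      (exp (n * ((σ : ℂ) + β * I)) * PP w θ ((σ : ℂ) + β * I)).re =
      2 * Real.pi * (exp (n * ((σ : ℂ) + β * I)) * FF w ((σ : ℂ) + β * I)).re := by
    intro β
    have hc : Continuous fun θ : ℝ =>
        exp (n * ((σ : ℂ) + β * I)) * PP w θ ((σ : ℂ) + β * I) := by
      refine Continuous.mul continuous_const ?_
      have hp : Continuous fun θ : ℝ => ((θ, β) : ℝ × ℝ) := by fun_prop
      have h4 := (continuous_PP w hσ).comp hp
      simp only [Function.comp_def] at h4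
      exact h4
    have h3 := Complex.reCLM.intervalIntegral_comp_comm (hc.intervalIntegrable (μ := volume) (-Real.pi) Real.pi)
    simp only [Complex.reCLM_apply] at h3
    rw [h3, intervalIntegral.integral_const_mul, integral_PP_eq w (by simpa using hσ)]
    have : exp (n * ((σ : ℂ) + β * I)) * (2 * Real.pi * FF w ((σ : ℂ) + β * I)) =
        ((2 * Real.pi : ℝ) : ℂ) * (exp (n * ((σ : ℂ) + β * I)) * FF w ((σ : ℂ) + β * I)) := by
      push_cast; ring
    rw [this, re_ofReal_mul]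
  simp only [h1]
  rw [intervalIntegral.integral_const_mul, Dval_eq_integral hn w hσ]
  have hpi : Real.pi ≠ 0 := Real.pi_ne_zero
  rw [← mul_assoc]
  congr 1
  field_simp

end Pool.Agent.Lib.Durfee
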