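import Pool.Agent.Lib.MP_9393b1_co.Defs

set_option autoImplicit false

namespace Pool.Agent.Lib.Durfee

open Polynomial

/-- `K` sign changes force real-rootedness (`p(0)=0`, signs `(-1)^k` at `-y_k`, positive leading coefficient). -/
theorem realrooted_of_signs {K : ℕ} (hK : 1 ≤ K) (p : Polynomial ℝ) (hdeg : p.natDegree = K)
    (hlead : 0 < p.leadingCoeff) (h0 : p.eval 0 = 0) (y : ℕ → ℝ)
    (hpos : ∀ k, 1 ≤ k → k + 1 ≤ K → 0 < y k)
    (hsign : ∀ k, 1 ≤ k → k + 1 ≤ K → 0 < (-1 : ℝ) ^ k * p.eval (-(y k)))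
    (hmono : ∀ k, 1 ≤ k → k + 2 ≤ K → y k < y (k + 1)) :
    ∀ z : ℂ, aeval z p = 0 → z.im = 0 := by
  have hp0 : p ≠ 0 := by
    intro h; rw [h, leadingCoeff_zero] at hlead; exact lt_irrefl _ hlead
  have hcont : ∀ k : ℕ, Continuous (fun x : ℝ => (-1 : ℝ) ^ k * p.eval (-x)) := by
    intro k
    exact continuous_const.mul (p.continuous.comp continuous_neg)
  have hex : ∀ k, 1 ≤ k → k + 1 ≤ K → ∃ r, y k < r ∧ (k + 2 ≤ K → r < y (k + 1)) ∧
      p.eval (-r) = 0 := by
    intro k hk1 hk2
    have hpk := hsign k hk1 hk2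
    by_cases hk3 : k + 2 ≤ K
    · have hy := hmono k hk1 hk3
      have hpk1 := hsign (k + 1) (by omega) (by omega)
      have hneg : (-1 : ℝ) ^ k * p.eval (-(y (k + 1))) < 0 := by
        rw [pow_succ] at hpk1; linarith
      obtain ⟨r, ⟨hr1, hr2⟩, hr3⟩ := intermediate_value_Ioo' hy.le (hcont k).continuousOn
        (show (0 : ℝ) ∈ Set.Ioo ((-1 : ℝ) ^ k * p.eval (-(y (k + 1))))
          ((-1 : ℝ) ^ k * p.eval (-(y k))) from ⟨hneg, hpk⟩)
      refine ⟨r, hr1, fun _ => hr2, ?_⟩
      rcases mul_eq_zero.mp hr3 with h | h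
      · exact absurd h (pow_ne_zero _ (by norm_num))
      · exact h
    · have hkK : k + 1 = K := by omega
      -- large x
      set P : Polynomial ℝ := C ((-1 : ℝ) ^ K) * p.comp (-X) with hP
      have hcd : (p.comp (-X : Polynomial ℝ)).natDegree = K := by
        rw [natDegree_comp, natDegree_neg, natDegree_X, mul_one, hdeg]
      have hcl : (p.comp (-X : Polynomial ℝ)).leadingCoeff = p.leadingCoeff * (-1) ^ K := by
        rw [leadingCoeff_comp (by rw [natDegree_neg, natDegree_X]; exact one_ne_zero),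
          leadingCoeff_neg, leadingCoeff_X, hdeg]
      have hPl : P.leadingCoeff = p.leadingCoeff := by
        rw [hP, leadingCoeff_mul, leadingCoeff_C, hcl]
        have : ((-1 : ℝ) ^ K) * ((-1 : ℝ) ^ K) = 1 := by
          rw [← mul_pow]; norm_num
        linear_combination p.leadingCoeff * this
      have hPd : 0 < P.degree := by
        rw [← natDegree_pos_iff_degree_pos, hP, natDegree_C_mul (pow_ne_zero _ (by norm_num)), hcd]
        omega
      have ht := Polynomial.tendsto_atTop_of_leadingCoeff_nonneg P hPd (by rw [hPl]; exact hlead.le)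
      obtain ⟨x, hx1, hx2⟩ := ((ht.eventually_gt_atTop 0).and
        (Filter.eventually_gt_atTop (y k))).exists
      have hPx : P.eval x = (-1 : ℝ) ^ K * p.eval (-x) := by
        rw [hP, eval_mul, eval_C, eval_comp, eval_neg, eval_X]
      rw [hPx, ← hkK, pow_succ] at hx1
      have hneg : (-1 : ℝ) ^ k * p.eval (-x) < 0 := by linarith
      obtain ⟨r, ⟨hr1, hr2⟩, hr3⟩ := intermediate_value_Ioo' hx2.le (hcont k).continuousOn
        (show (0 : ℝ) ∈ Set.Ioo ((-1 : ℝ) ^ k * p.eval (-x))
          ((-1 : ℝ) ^ k * p.eval (-(y k))) from ⟨hneg, hpk⟩)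
      refine ⟨r, hr1, fun h => absurd h hk3, ?_⟩
      rcases mul_eq_zero.mp hr3 with h | h
      · exact absurd h (pow_ne_zero _ (by norm_num))
      · exact h
  choose! r hr1 hr2 hr3 using hex
  -- the K distinct roots
  set ρ : ℕ → ℝ := fun k => if k = 0 then 0 else r k with hρ
  have hρroot : ∀ k, k < K → p.eval (-(ρ k)) = 0 := by
    intro k hk
    by_cases h : k = 0
    · simp [hρ, h, h0]
    · simp only [hρ, h, if_false]
      exact hr3 k (by omega) (by omega)
  have hρstep : ∀ k, k + 1 < K → ρ k < ρ (k + 1) := by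
    intro k hk
    by_cases h : k = 0
    · subst h
      simp only [hρ, if_true, zero_add, one_ne_zero, if_false]
      exact (hpos 1 le_rfl (by omega)).trans (hr1 1 le_rfl (by omega))
    · simp only [hρ, h, if_false, Nat.succ_ne_zero]
      exact (hr2 k (by omega) (by omega) (by omega)).trans (hr1 (k + 1) (by omega) (by omega))
  have hρmono : ∀ b, b < K → ∀ a, a < b → ρ a < ρ b := by
    intro b
    induction b with
    | zero => intro _ a ha; omega
    | succ b ih =>
      intro hb a ha
      rcases Nat.lt_succ_iff_lt_or_eq.mp ha with h | h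
      · exact (ih (by omega) a h).trans (hρstep b hb)
      · subst h; exact hρstep a hb
  have hinj : Set.InjOn (fun k => -(ρ k)) (Finset.range K : Set ℕ) := by
    intro a ha b hb hab
    simp only [Finset.coe_range, Set.mem_Iio] at ha hb
    have hab' : ρ a = ρ b := neg_injective hab
    rcases lt_trichotomy a b with h | h | h
    · exact absurd hab' (hρmono b hb a h).ne
    · exact h
    · exact absurd hab' (hρmono a ha b h).ne'
  have hcardS : ((Finset.range K).image (fun k => -(ρ k))).card = K := by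
    rw [Finset.card_image_of_injOn hinj, Finset.card_range]
  have hsub : (Finset.range K).image (fun k => -(ρ k)) ⊆ p.roots.toFinset := by
    intro a ha
    obtain ⟨k, hk, rfl⟩ := Finset.mem_image.mp ha
    rw [Multiset.mem_toFinset, mem_roots hp0]
    exact hρroot k (Finset.mem_range.mp hk)
  have hge : K ≤ Multiset.card p.roots := by
    calc K = ((Finset.range K).image (fun k => -(ρ k))).card := hcardS.symm
      _ ≤ p.roots.toFinset.card := Finset.card_le_card hsub
      _ ≤ Multiset.card p.roots := Multiset.toFinset_card_le _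
  have hcard : Multiset.card p.roots = p.natDegree :=
    le_antisymm (card_roots' p) (by rw [hdeg]; exact hge)
  have hfac := C_leadingCoeff_mul_prod_multiset_X_sub_C hcard
  intro z hz
  rw [← hfac, map_mul, aeval_C, map_multiset_prod, mul_eq_zero] at hz
  rcases hz with hz | hz
  · have : p.leadingCoeff = 0 := by simpa using hz
    exact absurd this hlead.ne'
  · rw [Multiset.prod_eq_zero_iff, Multiset.map_map, Multiset.mem_map] at hz
    obtain ⟨a, _, ha⟩ := hz
    have : z = (a : ℂ) := by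
      have h2 : z - (a : ℂ) = 0 := by simpa using ha
      exact sub_eq_zero.mp h2
    rw [this, Complex.ofReal_im]

theorem pk_pos {k : ℕ} (hk : 1 ≤ k) (m : ℕ) : 0 < pk k m := by
  induction k, hk using Nat.le_induction with
  | base =>
    induction m using Nat.strong_induction_on with
    | _ m ih =>
      rw [pk]
      by_cases h : 0 + 1 ≤ m
      · rw [dif_pos h]
        have := ih (m - (0 + 1)) (by omega)
        exact Nat.add_pos_right _ this
      · rw [dif_neg h]
        have : m = 0 := by omega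
        subst this
        simp [pk]
  | succ k hk ih =>
    rw [pk]
    exact Nat.add_pos_left ih _

theorem dco_pos {n k : ℕ} (hk : 1 ≤ k) (hn : k ^ 2 ≤ n) : 0 < dco n k := by
  unfold dco
  rw [if_pos hn]
  apply Finset.sum_pos
  · intro ij _
    exact Nat.mul_pos (pk_pos hk _) (pk_pos hk _)
  · exact ⟨(0, n - k ^ 2), by simp⟩

private lemma Dpoly_coeff (n k : ℕ) :
    (Dpoly n).coeff k = if k ≤ Nat.sqrt n then (dco n k : ℝ) else 0 := by
  unfold Dpoly
  rw [finsetSum_coeff]
  simp only [coeff_C_mul, coeff_X_pow]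
  simp only [mul_ite, mul_one, mul_zero]
  rw [Finset.sum_ite_eq]
  simp only [Finset.mem_range, Nat.lt_succ_iff]

theorem Dpoly_natDegree {n : ℕ} (hn : 1 ≤ n) : (Dpoly n).natDegree = Nat.sqrt n := by
  have hs : 1 ≤ Nat.sqrt n := Nat.le_sqrt.mpr (by omega)
  apply natDegree_eq_of_le_of_coeff_ne_zero
  · rw [natDegree_le_iff_coeff_eq_zero]
    intro N hN
    rw [Dpoly_coeff, if_neg (by omega)]
  · rw [Dpoly_coeff, if_pos le_rfl]
    have := dco_pos hs (Nat.sqrt_le' n)
    positivity

theorem Dpoly_leadingCoeff_pos {n : ℕ} (hn : 1 ≤ n) : 0 < (Dpoly n).leadingCoeff := by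
  have hs : 1 ≤ Nat.sqrt n := Nat.le_sqrt.mpr (by omega)
  rw [leadingCoeff, Dpoly_natDegree hn, Dpoly_coeff, if_pos le_rfl]
  have := dco_pos hs (Nat.sqrt_le' n)
  positivity

theorem Dpoly_eval_zero {n : ℕ} (hn : 1 ≤ n) : (Dpoly n).eval 0 = 0 := by
  rw [← coeff_zero_eq_eval_zero, Dpoly_coeff, if_pos (Nat.zero_le _)]
  norm_cast
  unfold dco
  rw [if_pos (by simp)]
  apply Finset.sum_eq_zero
  intro ij hij
  rw [Finset.HasAntidiagonal.mem_antidiagonal] at hij
  simp only [pk]
  by_cases h1 : ij.1 = 0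
  · have h2 : ij.2 ≠ 0 := by
      intro h2
      rw [h1, h2] at hij
      simp at hij
      omega
    rw [if_neg h2, mul_zero]
  · rw [if_neg h1, zero_mul]

/-- Sign pattern for `Dval` implies real-rootedness of `Dpoly n`. -/
theorem Dpoly_realrooted_of_signs {n : ℕ} (hn : 1 ≤ n) (y : ℕ → ℝ)
    (hpos : ∀ k, 1 ≤ k → k + 1 ≤ Nat.sqrt n → 0 < y k)
    (hsign : ∀ k, 1 ≤ k → k + 1 ≤ Nat.sqrt n → 0 < (-1 : ℝ) ^ k * Dval n (y k))
    (hmono : ∀ k, 1 ≤ k → k + 2 ≤ Nat.sqrt n → y k < y (k + 1)) :
    ∀ z : ℂ, aeval z (Dpoly n) = 0 → z.im = 0 :=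
  realrooted_of_signs (Nat.le_sqrt.mpr (by omega)) (Dpoly n) (Dpoly_natDegree hn)
    (Dpoly_leadingCoeff_pos hn) (Dpoly_eval_zero hn) y hpos hsign hmono

end Pool.Agent.Lib.Durfee
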