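import Pool.Agent.Lib.MP_9393b1_co.SmallDefs

set_option autoImplicit false

namespace Pool.Agent.Lib.Durfee

open MeasureTheory

/-- DFB-5 (B6): bounds for `I₀`. -/
theorem bes_continuous : Continuous bes := by
  unfold bes
  refine Continuous.mul continuous_const ?_
  exact intervalIntegral.continuous_parametric_intervalIntegral_of_continuous'
    (f := fun x θ => Real.exp (x * Real.cos θ)) (by fun_prop) _ _

private lemma bes_intervalIntegrable (x : ℝ) :
    IntervalIntegrable (fun θ => Real.exp (x * Real.cos θ)) volume (-Real.pi) Real.pi :=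
  (by fun_prop : Continuous (fun θ => Real.exp (x * Real.cos θ))).intervalIntegrable _ _

theorem bes_pos (x : ℝ) : 0 < bes x := by
  unfold bes
  have hpi := Real.pi_pos
  refine mul_pos (by positivity) ?_
  exact intervalIntegral.intervalIntegral_pos_of_pos (bes_intervalIntegrable x)
    (fun θ => Real.exp_pos _) (by linarith)

theorem bes_neg (x : ℝ) : bes (-x) = bes x := by
  unfold bes
  congr 1
  have hper : Function.Periodic (fun θ : ℝ => Real.exp (x * Real.cos θ)) (2 * Real.pi) := by
    intro θ
    simp [Real.cos_add_two_pi]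
  have h1 : (∫ θ in (-Real.pi)..Real.pi, Real.exp (-x * Real.cos θ)) =
      ∫ θ in (-Real.pi)..Real.pi, (fun t : ℝ => Real.exp (x * Real.cos t)) (θ + Real.pi) := by
    refine intervalIntegral.integral_congr ?_
    intro θ _
    simp only [Real.cos_add_pi]
    congr 1
    ring
  rw [h1, intervalIntegral.integral_comp_add_right (fun t : ℝ => Real.exp (x * Real.cos t))]
  have h2 := hper.intervalIntegral_add_eq (-Real.pi + Real.pi) (-Real.pi)
  have e1 : -Real.pi + Real.pi + 2 * Real.pi = Real.pi + Real.pi := by ring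
  have e2 : -Real.pi + 2 * Real.pi = Real.pi := by ring
  rw [e1, e2] at h2
  exact h2

private lemma bes_eq_cosh (x : ℝ) :
    bes x = 1 / (2 * Real.pi) * ∫ θ in (-Real.pi)..Real.pi, Real.cosh (x * Real.cos θ) := by
  have h : bes x = (bes x + bes (-x)) / 2 := by rw [bes_neg]; ring
  rw [h]
  unfold bes
  have : (∫ θ in (-Real.pi)..Real.pi, Real.cosh (x * Real.cos θ)) =
      (∫ θ in (-Real.pi)..Real.pi, (Real.exp (x * Real.cos θ) + Real.exp (-x * Real.cos θ)) / 2) := by
    refine intervalIntegral.integral_congr ?_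
    intro θ _
    simp only [Real.cosh_eq]
    rw [neg_mul]
  rw [this, intervalIntegral.integral_div,
    intervalIntegral.integral_add (bes_intervalIntegrable x) (bes_intervalIntegrable (-x))]
  ring

theorem bes_mono {x y : ℝ} (hx : 0 ≤ x) (hxy : x ≤ y) : bes x ≤ bes y := by
  rw [bes_eq_cosh, bes_eq_cosh]
  have hpi := Real.pi_pos
  refine mul_le_mul_of_nonneg_left ?_ (by positivity)
  refine intervalIntegral.integral_mono_on (by linarith) ?_ ?_ ?_
  · exact (by fun_prop : Continuous (fun θ => Real.cosh (x * Real.cos θ))).intervalIntegrable _ _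
  · exact (by fun_prop : Continuous (fun θ => Real.cosh (y * Real.cos θ))).intervalIntegrable _ _
  · intro θ _
    rw [Real.cosh_le_cosh, abs_mul, abs_mul, abs_of_nonneg hx, abs_of_nonneg (hx.trans hxy)]
    exact mul_le_mul_of_nonneg_right hxy (abs_nonneg _)

theorem bes_le_exp {x : ℝ} (hx : 0 ≤ x) : bes x ≤ Real.exp x := by
  unfold bes
  have hpi := Real.pi_pos
  have h : (∫ θ in (-Real.pi)..Real.pi, Real.exp (x * Real.cos θ)) ≤
      ∫ _ in (-Real.pi)..Real.pi, Real.exp x := by
    refine intervalIntegral.integral_mono_on (by linarith) (bes_intervalIntegrable x) ?_ ?_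
    · exact intervalIntegrable_const
    · intro θ _
      apply Real.exp_le_exp.2
      nlinarith [Real.cos_le_one θ]
  rw [intervalIntegral.integral_const, smul_eq_mul] at h
  calc 1 / (2 * Real.pi) * (∫ θ in (-Real.pi)..Real.pi, Real.exp (x * Real.cos θ))
      ≤ 1 / (2 * Real.pi) * ((Real.pi - -Real.pi) * Real.exp x) :=
        mul_le_mul_of_nonneg_left h (by positivity)
    _ = Real.exp x := by field_simp; ring

theorem bes_le {x : ℝ} (hx : 0 < x) :
    bes x ≤ Real.sqrt (Real.pi / (8 * x)) * Real.exp x := by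
  have hpi := Real.pi_pos
  set b : ℝ := 2 * x / Real.pi ^ 2 with hb
  have hbpos : 0 < b := by positivity
  have hint : Integrable (fun θ : ℝ => Real.exp (-b * θ ^ 2)) := integrable_exp_neg_mul_sq hbpos
  have h1 : (∫ θ in (-Real.pi)..Real.pi, Real.exp (x * Real.cos θ)) ≤
      ∫ θ in (-Real.pi)..Real.pi, Real.exp x * Real.exp (-b * θ ^ 2) := by
    refine intervalIntegral.integral_mono_on (by linarith) (bes_intervalIntegrable x) ?_ ?_
    · exact (hint.const_mul _).intervalIntegrable
    · intro θ hθ
      rw [← Real.exp_add]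
      apply Real.exp_le_exp.2
      have hc := Real.cos_le_one_sub_mul_cos_sq (x := θ) (abs_le.2 ⟨hθ.1, hθ.2⟩)
      have : x * Real.cos θ ≤ x * (1 - 2 / Real.pi ^ 2 * θ ^ 2) :=
        mul_le_mul_of_nonneg_left hc hx.le
      refine this.trans (le_of_eq ?_)
      rw [hb]; ring
  have h2 : (∫ θ in (-Real.pi)..Real.pi, Real.exp x * Real.exp (-b * θ ^ 2)) ≤
      Real.exp x * Real.sqrt (Real.pi / b) := by
    rw [intervalIntegral.integral_const_mul]
    refine mul_le_mul_of_nonneg_left ?_ (Real.exp_pos x).le
    rw [← integral_gaussian b, intervalIntegral.integral_of_le (by linarith)]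
    exact setIntegral_le_integral hint (Filter.Eventually.of_forall fun θ => (Real.exp_pos _).le)
  unfold bes
  calc 1 / (2 * Real.pi) * (∫ θ in (-Real.pi)..Real.pi, Real.exp (x * Real.cos θ))
      ≤ 1 / (2 * Real.pi) * (Real.exp x * Real.sqrt (Real.pi / b)) :=
        mul_le_mul_of_nonneg_left (h1.trans h2) (by positivity)
    _ = Real.sqrt (Real.pi / (8 * x)) * Real.exp x := by
        have e : Real.pi / b = (2 * Real.pi) ^ 2 * (Real.pi / (8 * x)) := by
          rw [hb]; field_simp; ring
        rw [e, Real.sqrt_mul (by positivity), Real.sqrt_sq (by positivity)]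
        field_simp

end Pool.Agent.Lib.Durfee
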