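import Pool.Agent.Lib.MP_9393b1_co.Repr

/-!
# Regime B (small end, `k = 1..10`), definitions

Contour `Re s = A/n`, `w = A²/n`, `s = (A + i v)/n`.
-/

set_option autoImplicit false

namespace Pool.Agent.Lib.Durfee

open Complex MeasureTheory

/-- `I₀(x) = (1/2π) ∫_{-π}^{π} e^{x cos θ} dθ`. -/
noncomputable def bes (x : ℝ) : ℝ :=
  1 / (2 * Real.pi) * ∫ θ in (-Real.pi)..Real.pi, Real.exp (x * Real.cos θ)

/-- `J(v) = I₀(2 A² v/(A²+v²))`. -/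
noncomputable def Jb (A v : ℝ) : ℝ := bes (2 * A ^ 2 * v / (A ^ 2 + v ^ 2))

/-- `F_∞(A + i v) = (1/2π) ∫_{-π}^{π} exp(2 i A² cos θ/(A + i v)) dθ`. -/
noncomputable def Finf (A v : ℝ) : ℂ :=
  1 / (2 * Real.pi) * ∫ θ in (-Real.pi)..Real.pi,
    exp (2 * I * (A : ℂ) ^ 2 * (Real.cos θ : ℂ) / ((A : ℂ) + v * I))

/-- `c₀ = 0.101 w + 0.13 w⁴/σ`, `w = A²/n`, `σ = A/n`. -/
noncomputable def cb (n : ℕ) (A : ℝ) : ℝ := 101 / 1000 * (A ^ 2 / n) + 13 / 100 * (A ^ 7 / (n : ℝ) ^ 3)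

/-- `r(v) = 0.64 A⁴/(n |A+iv|) + c₀`. -/
noncomputable def rb (n : ℕ) (A v : ℝ) : ℝ :=
  64 / 100 * (A ^ 4 / (n * Real.sqrt (A ^ 2 + v ^ 2))) + cb n A

/-- `f(A²) = ∑_{k ≥ 1} (-1)^k A^{4k}/((k!)² (2k-1)!)`. -/
noncomputable def fB (A : ℝ) : ℝ :=
  ∑' k : ℕ, (-1) ^ (k + 1) * A ^ (4 * (k + 1)) /
    (((k + 1).factorial : ℝ) ^ 2 * ((2 * k + 1).factorial : ℝ))

/-- `K₁`. -/
noncomputable def K1b (A : ℝ) : ℝ :=
  Real.sqrt (Real.pi / 8) * Real.sqrt 2 * (Real.exp A / Real.sqrt A) *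
    (1 / 2 * Real.sqrt (3 * Real.pi / A) + 127 / 100 * Real.exp (-A / 3))

/-- upper bound for `I₀(2A/7)`. -/
noncomputable def i0b (A : ℝ) : ℝ := Real.sqrt (7 * Real.pi / (16 * A)) * Real.exp (2 * A / 7)

/-- total error bound. -/
noncomputable def Errb (n : ℕ) (A : ℝ) : ℝ :=
  Real.exp A / Real.pi *
    (114 / 100 * (64 / 100 * (A ^ 4 / n) * (K1b A + i0b A / 7 + i0b A * Real.log (n / (7 * A))) +
        cb n A * A * (7072 / 1000 * K1b A + i0b A / 7 + i0b A * (n / A))) +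
      (A ^ 4 / n) * (235 / 100 + 92 / 100 * Real.log (2 * n)) + 574 / 1000 * (A ^ 5 / n) +
      101 / 100 * (A ^ 4 / n))

end Pool.Agent.Lib.Durfee
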