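import Pool.Agent.Lib.MP_9393b1_co.SmallDefs
import Pool.Agent.Lib.MP_9393b1_co.SmallLog
import Pool.Agent.Lib.MP_9393b1_co.SmallSinh

set_option autoImplicit false

namespace Pool.Agent.Lib.Durfee

open Complex MeasureTheory

/-- bound of the general term of the logarithmic series -/
private theorem norm_logTerm_le {w : ℝ} (hw0 : 0 < w) (θ : ℝ) (s : ℂ) (j : ℕ) :
    ‖logTerm w θ s j‖ ≤ w ^ (j + 1) / (((j : ℝ) + 1) * ‖sinh (((j : ℂ) + 1) * s / 2)‖) := by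
  have hj : (0 : ℝ) < (j : ℝ) + 1 := by positivity
  have hjn : ‖(j : ℂ) + 1‖ = (j : ℝ) + 1 := by
    have : ((j : ℂ) + 1) = (((j : ℝ) + 1 : ℝ) : ℂ) := by push_cast; ring
    rw [this, Complex.norm_real, Real.norm_eq_abs, abs_of_pos hj]
  unfold logTerm
  rw [norm_div, norm_mul, norm_mul, norm_mul, norm_pow, norm_pow, norm_mul, hjn, norm_neg, norm_one,
    one_pow, one_mul, Complex.norm_I, one_mul, Complex.norm_real, Complex.norm_real,
    Real.norm_eq_abs, Real.norm_eq_abs, abs_of_pos hw0]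
  apply div_le_div_of_nonneg_right _ (by positivity)
  calc w ^ (j + 1) * |Real.cos (((j : ℝ) + 1) * θ)| ≤ w ^ (j + 1) * 1 := by
        gcongr
        exact Real.abs_cos_le_one _
    _ = w ^ (j + 1) := mul_one _

/-- bound of the terms with a large index -/
private theorem norm_logTerm_le_re {w : ℝ} (hw0 : 0 < w) (θ : ℝ) {s : ℂ} (hs : 0 < s.re) (j : ℕ) :
    ‖logTerm w θ s j‖ ≤ 2 * w ^ (j + 1) / (((j : ℝ) + 1) ^ 2 * s.re) := by
  have hj : (0 : ℝ) < (j : ℝ) + 1 := by positivity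
  refine (norm_logTerm_le hw0 θ s j).trans ?_
  have hre : (((j : ℂ) + 1) * s / 2).re = ((j : ℝ) + 1) * s.re / 2 := by
    have h1 : ((j : ℂ) + 1) * s / 2 = ((((j : ℝ) + 1) / 2 : ℝ) : ℂ) * s := by
      push_cast; ring
    rw [h1, Complex.re_ofReal_mul]
    ring
  have h1 : ((j : ℝ) + 1) * s.re / 2 ≤ ‖sinh (((j : ℂ) + 1) * s / 2)‖ := by
    rw [← hre]
    apply norm_sinh_ge_re
    rw [hre]
    positivity
  have h2 : 2 * w ^ (j + 1) / (((j : ℝ) + 1) ^ 2 * s.re) =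
      w ^ (j + 1) / (((j : ℝ) + 1) * (((j : ℝ) + 1) * s.re / 2)) := by
    field_simp
  rw [h2]
  apply div_le_div_of_nonneg_left (by positivity) (by positivity)
  exact mul_le_mul_of_nonneg_left h1 hj.le

/-- the tail of the logarithmic series -/
private theorem norm_tail_le {w : ℝ} (hw0 : 0 < w) (hw1 : w < 1) (θ : ℝ) {s : ℂ} (hs : 0 < s.re) :
    ‖∑' j : ℕ, logTerm w θ s (j + 3)‖ ≤ w ^ 4 / (8 * s.re * (1 - w)) := by
  have hb : ∀ j : ℕ, ‖logTerm w θ s (j + 3)‖ ≤ w ^ 4 / (8 * s.re) * w ^ j := by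
    intro j
    refine (norm_logTerm_le_re hw0 θ hs (j + 3)).trans ?_
    have h1 : w ^ 4 / (8 * s.re) * w ^ j = 2 * w ^ (j + 3 + 1) / (4 ^ 2 * s.re) := by
      rw [show j + 3 + 1 = 4 + j by ring, pow_add]
      field_simp
      ring
    rw [h1]
    apply div_le_div_of_nonneg_left (by positivity) (by positivity)
    apply mul_le_mul_of_nonneg_right _ hs.le
    apply pow_le_pow_left₀ (by norm_num)
    push_cast
    have : (0 : ℝ) ≤ j := Nat.cast_nonneg j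
    linarith
  have hg := (hasSum_geometric_of_lt_one hw0.le hw1).mul_left (w ^ 4 / (8 * s.re))
  have h2 := tsum_of_norm_bounded hg hb
  refine h2.trans (le_of_eq ?_)
  have : 1 - w ≠ 0 := by linarith
  field_simp

/-- DFB-3 (B4): the logarithmic series near the real axis. -/
theorem near_log {n : ℕ} (hn : 10 ^ 4 ≤ n) {A : ℝ} (hA1 : 157 / 100 ≤ A) (hA2 : A ≤ 157 / 10)
    {v : ℝ} (hv : |v| ≤ n) (θ : ℝ) :
    ∃ R : ℂ, ‖R‖ ≤ rb n A v ∧
      PP (A ^ 2 / n) θ (((A : ℂ) + v * I) / n) =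
        exp (2 * I * (A : ℂ) ^ 2 * (Real.cos θ : ℂ) / ((A : ℂ) + v * I) + R) := by
  have hn' : (10 ^ 4 : ℝ) ≤ n := by exact_mod_cast hn
  have hn0 : (0 : ℝ) < n := by linarith [show (0 : ℝ) < 10 ^ 4 by norm_num]
  have hA0 : 0 < A := by linarith
  obtain ⟨w, hw⟩ : ∃ w, w = A ^ 2 / n := ⟨_, rfl⟩
  obtain ⟨s, hs⟩ : ∃ s : ℂ, s = ((A : ℂ) + v * I) / n := ⟨_, rfl⟩
  rw [← hw, ← hs]
  have hw0 : 0 < w := by rw [hw]; positivity
  have hA2' : A ^ 2 ≤ 24649 / 100 := by nlinarith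
  have hw1 : w ≤ 2465 / 100000 := by
    rw [hw, div_le_iff₀ hn0]
    nlinarith
  have hsn : s * n = (A : ℂ) + v * I := by
    rw [hs, div_mul_cancel₀]
    exact_mod_cast hn0.ne'
  have hsre : s.re = A / n := by
    rw [hs, show ((n : ℕ) : ℂ) = ((n : ℝ) : ℂ) by push_cast; rfl, Complex.div_ofReal_re]
    simp
  have hs0 : 0 < s.re := by rw [hsre]; positivity
  have hsz : s ≠ 0 := by
    rintro h0
    rw [h0, Complex.zero_re] at hs0
    exact lt_irrefl _ hs0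
  obtain ⟨ρ, hρ⟩ : ∃ ρ, ρ = Real.sqrt (A ^ 2 + v ^ 2) := ⟨_, rfl⟩
  have hρ0 : 0 < ρ := by rw [hρ]; positivity
  have hnorm : ‖s‖ = ρ / n := by
    have h1 : ‖(A : ℂ) + v * I‖ = ρ := by
      rw [Complex.norm_add_mul_I, hρ]
    rw [hs, norm_div, h1, Complex.norm_natCast]
  have hs1 : ‖s‖ ≤ 101 / 100 := by
    rw [hnorm, div_le_iff₀ hn0, hρ]
    apply Real.sqrt_le_iff.mpr
    refine ⟨by positivity, ?_⟩
    have h1 : v ^ 2 ≤ (n : ℝ) ^ 2 := by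
      rw [← sq_abs v]
      exact pow_le_pow_left₀ (abs_nonneg _) hv 2
    nlinarith
  have hsp : 0 < ‖s‖ := norm_pos_iff.mpr hsz
  obtain ⟨hsum, hPP⟩ := PP_eq_exp_logSeries hw0 (by linarith : w < 1) θ hs0
  obtain ⟨Z, hZ⟩ : ∃ Z, Z = 2 * I * (A : ℂ) ^ 2 * (Real.cos θ : ℂ) / ((A : ℂ) + v * I) := ⟨_, rfl⟩
  rw [← hZ]
  refine ⟨(∑' j : ℕ, logTerm w θ s j) - Z, ?_, by rw [hPP]; congr 1; ring⟩
  -- the term with the index 0
  have hZ' : Z = I * w * (Real.cos θ : ℂ) * (1 / (s / 2)) := by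
    rw [hZ, ← hsn, hw]
    have : (n : ℂ) ≠ 0 := by exact_mod_cast hn0.ne'
    push_cast
    field_simp
  have e0 : ‖logTerm w θ s 0 - Z‖ ≤ 101 / 1000 * w := by
    have h1 : logTerm w θ s 0 = I * w * (Real.cos θ : ℂ) * (1 / sinh (s / 2)) := by
      unfold logTerm
      push_cast
      simp only [pow_zero, one_mul, zero_add, pow_one]
      ring
    rw [h1, hZ', ← mul_sub, norm_mul, norm_mul, norm_mul, Complex.norm_I, one_mul,
      Complex.norm_real, Complex.norm_real, Real.norm_eq_abs, Real.norm_eq_abs, abs_of_pos hw0]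
    have h2 : ‖s / 2‖ = ‖s‖ / 2 := by
      rw [norm_div, Complex.norm_two]
    have h3 : s / 2 ≠ 0 := div_ne_zero hsz two_ne_zero
    have h4 := inv_sinh_sub_inv_le h3 (by rw [h2]; linarith)
    rw [h2] at h4
    calc w * |Real.cos θ| * ‖1 / sinh (s / 2) - 1 / (s / 2)‖
        ≤ w * 1 * (‖s‖ / 2 / 5) := by
          gcongr
          exact Real.abs_cos_le_one _
      _ ≤ 101 / 1000 * w := by nlinarith
  -- the term with the index 1
  have e1 : ‖logTerm w θ s 1‖ ≤ w ^ 2 / ‖s‖ * (1 / (16 / 10)) := by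
    refine (norm_logTerm_le hw0 θ s 1).trans ?_
    have h1 : ((1 : ℕ) : ℂ) + 1 = 2 := by norm_num
    have h2 : (((1 : ℕ) : ℂ) + 1) * s / 2 = s := by rw [h1]; ring
    rw [h2]
    have h3 := norm_sinh_ge_near hs1
    have h4 : w ^ 2 / ‖s‖ * (1 / (16 / 10)) = w ^ 2 / (2 * (8 / 10 * ‖s‖)) := by
      field_simp
      ring
    rw [h4]
    have h5 : ((1 : ℕ) : ℝ) + 1 = 2 := by norm_num
    rw [h5]
    apply div_le_div_of_nonneg_left (by positivity) (by positivity)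
    exact mul_le_mul_of_nonneg_left h3 (by norm_num)
  -- the term with the index 2
  have e2 : ‖logTerm w θ s 2‖ ≤ w ^ 2 / ‖s‖ * (w / (225 / 100)) := by
    refine (norm_logTerm_le hw0 θ s 2).trans ?_
    have h1 : (((2 : ℕ) : ℂ) + 1) * s / 2 = (3 / 2 : ℝ) * s := by
      push_cast; ring
    have h2 : ‖(((2 : ℕ) : ℂ) + 1) * s / 2‖ = 3 / 2 * ‖s‖ := by
      rw [h1, norm_mul, Complex.norm_real]
      norm_num
    have h3 := norm_sinh_ge_mid (z := (((2 : ℕ) : ℂ) + 1) * s / 2) (by rw [h2]; linarith)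
    rw [h2] at h3
    have h4 : w ^ 2 / ‖s‖ * (w / (225 / 100)) = w ^ 3 / (3 * (1 / 2 * (3 / 2 * ‖s‖))) := by
      field_simp
      ring
    rw [h4]
    have h5 : ((2 : ℕ) : ℝ) + 1 = 3 := by norm_num
    rw [h5]
    apply div_le_div_of_nonneg_left (by positivity) (by positivity)
    exact mul_le_mul_of_nonneg_left h3 (by norm_num)
  -- the tail
  have e3 : ‖∑' j : ℕ, logTerm w θ s (j + 3)‖ ≤ 13 / 100 * (w ^ 4 / s.re) := by
    refine (norm_tail_le hw0 (by linarith) θ hs0).trans ?_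
    have h1 : w ^ 4 / (8 * s.re * (1 - w)) = w ^ 4 / s.re * (1 / (8 * (1 - w))) := by
      have : 1 - w ≠ 0 := by linarith
      field_simp
    rw [h1, mul_comm (13 / 100 : ℝ)]
    apply mul_le_mul_of_nonneg_left _ (by positivity)
    rw [div_le_iff₀ (by linarith)]
    linarith
  -- the sum
  have hsplit := hsum.sum_add_tsum_nat_add 3
  rw [Finset.sum_range_succ, Finset.sum_range_succ, Finset.sum_range_succ, Finset.sum_range_zero,
    zero_add] at hsplit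
  rw [← hsplit]
  have h1 : logTerm w θ s 0 + logTerm w θ s 1 + logTerm w θ s 2 +
      (∑' j : ℕ, logTerm w θ s (j + 3)) - Z = (logTerm w θ s 0 - Z) + logTerm w θ s 1 +
      logTerm w θ s 2 + ∑' j : ℕ, logTerm w θ s (j + 3) := by ring
  rw [h1]
  have h2 : ‖(logTerm w θ s 0 - Z) + logTerm w θ s 1 +
      logTerm w θ s 2 + ∑' j : ℕ, logTerm w θ s (j + 3)‖ ≤ ‖logTerm w θ s 0 - Z‖ +
      ‖logTerm w θ s 1‖ + ‖logTerm w θ s 2‖ + ‖∑' j : ℕ, logTerm w θ s (j + 3)‖ :=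
    norm_add₄_le
  have h3 : w ^ 2 / ‖s‖ * (1 / (16 / 10)) + w ^ 2 / ‖s‖ * (w / (225 / 100)) ≤
      64 / 100 * (w ^ 2 / ‖s‖) := by
    rw [← mul_add, mul_comm (64 / 100 : ℝ)]
    apply mul_le_mul_of_nonneg_left _ (by positivity)
    linarith
  have h4 : w ^ 2 / ‖s‖ = A ^ 4 / (n * ρ) := by
    rw [hnorm, hw]
    field_simp
  have h5 : w ^ 4 / s.re = A ^ 7 / (n : ℝ) ^ 3 := by
    rw [hsre, hw]
    field_simp
  unfold rb cb
  rw [← hρ, ← h4, ← h5, ← hw]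
  linarith

/-- `r(v) ≤ 0.251` -/
private theorem rb_le {n : ℕ} (hn : 10 ^ 4 ≤ n) {A : ℝ} (hA1 : 157 / 100 ≤ A)
    (hA2 : A ≤ 157 / 10) (v : ℝ) : 0 ≤ rb n A v ∧ rb n A v ≤ 251 / 1000 := by
  have hn' : (10 ^ 4 : ℝ) ≤ n := by exact_mod_cast hn
  have hn0 : (0 : ℝ) < n := by linarith [show (0 : ℝ) < 10 ^ 4 by norm_num]
  have hA0 : 0 < A := by linarith
  have hρ : A ≤ Real.sqrt (A ^ 2 + v ^ 2) := by
    apply Real.le_sqrt_of_sq_le
    nlinarith [sq_nonneg v]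
  have hρ0 : 0 < Real.sqrt (A ^ 2 + v ^ 2) := lt_of_lt_of_le hA0 hρ
  unfold rb cb
  refine ⟨by positivity, ?_⟩
  have h1 : A ^ 4 / (n * Real.sqrt (A ^ 2 + v ^ 2)) ≤ 3870 / 10 ^ 4 := by
    rw [div_le_div_iff₀ (by positivity) (by positivity)]
    have e1 : A ^ 3 ≤ 3870 := by
      calc A ^ 3 ≤ (157 / 10) ^ 3 := pow_le_pow_left₀ hA0.le hA2 3
        _ ≤ 3870 := by norm_num
    calc A ^ 4 * 10 ^ 4 = A ^ 3 * (10 ^ 4 * A) := by ring
      _ ≤ 3870 * (n * Real.sqrt (A ^ 2 + v ^ 2)) := by gcongr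
  have h2 : A ^ 2 / n ≤ 247 / 10 ^ 4 := by
    rw [div_le_div_iff₀ (by positivity) (by positivity)]
    have e1 : A ^ 2 ≤ 247 := by
      calc A ^ 2 ≤ (157 / 10) ^ 2 := pow_le_pow_left₀ hA0.le hA2 2
        _ ≤ 247 := by norm_num
    gcongr
  have h3 : A ^ 7 / (n : ℝ) ^ 3 ≤ 236000000 / (10 ^ 4) ^ 3 := by
    have e1 : A ^ 7 ≤ 236000000 := by
      calc A ^ 7 ≤ (157 / 10) ^ 7 := pow_le_pow_left₀ hA0.le hA2 7
        _ ≤ 236000000 := by norm_num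
    gcongr
  calc 64 / 100 * (A ^ 4 / (n * Real.sqrt (A ^ 2 + v ^ 2))) +
        (101 / 1000 * (A ^ 2 / n) + 13 / 100 * (A ^ 7 / (n : ℝ) ^ 3))
      ≤ 64 / 100 * (3870 / 10 ^ 4) + (101 / 1000 * (247 / 10 ^ 4) +
        13 / 100 * (236000000 / (10 ^ 4) ^ 3)) := by gcongr
    _ ≤ 251 / 1000 := by norm_num

/-- `|e^R - 1| ≤ 1.14 r` for `|R| ≤ r ≤ 0.251` -/
private theorem exp_sub_one_le {R : ℂ} {r : ℝ} (h : ‖R‖ ≤ r) (hr : r ≤ 251 / 1000) :
    ‖exp R - 1‖ ≤ 114 / 100 * r := by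
  have h0 := norm_nonneg R
  have hr0 : 0 ≤ r := h0.trans h
  have h1 := Complex.exp_bound (x := R) (by linarith : ‖R‖ ≤ 1) (n := 4) (by norm_num)
  have h2 : ∑ m ∈ Finset.range 4, R ^ m / (m.factorial : ℂ) =
      1 + R + R ^ 2 / 2 + R ^ 3 / 6 := by
    simp [Finset.sum_range_succ, Nat.factorial]
  rw [h2] at h1
  have h3 : exp R - 1 = (exp R - (1 + R + R ^ 2 / 2 + R ^ 3 / 6)) + R + R ^ 2 / 2 + R ^ 3 / 6 := by
    ring
  have h4 : ‖exp R - 1‖ ≤ ‖exp R - (1 + R + R ^ 2 / 2 + R ^ 3 / 6)‖ + ‖R‖ + ‖R ^ 2 / 2‖ +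
      ‖R ^ 3 / 6‖ := by
    rw [h3]
    exact norm_add₄_le
  have h5 : ‖R ^ 2 / 2‖ = ‖R‖ ^ 2 / 2 := by
    rw [norm_div, norm_pow, Complex.norm_two]
  have h6 : ‖R ^ 3 / 6‖ = ‖R‖ ^ 3 / 6 := by
    rw [norm_div, norm_pow]
    norm_num
  rw [h5, h6] at h4
  have h7 : ‖R‖ ^ 4 * (((Nat.succ 4 : ℕ) : ℝ) * ((Nat.factorial 4 * (4 : ℕ) : ℝ))⁻¹) =
      ‖R‖ ^ 4 * (5 / 96) := by
    norm_num [Nat.factorial]
  have h8 : ‖exp R - 1‖ ≤ ‖R‖ ^ 4 * (5 / 96) + ‖R‖ + ‖R‖ ^ 2 / 2 + ‖R‖ ^ 3 / 6 := by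
    refine h4.trans ?_
    gcongr
    refine h1.trans (le_of_eq ?_)
    rw [← h7]
  have k2 : ‖R‖ ^ 2 ≤ 251 / 1000 * r := by
    calc ‖R‖ ^ 2 = ‖R‖ * ‖R‖ := sq _
      _ ≤ 251 / 1000 * r := mul_le_mul (h.trans hr) h h0 (by norm_num)
  have k3 : ‖R‖ ^ 3 ≤ (251 / 1000) ^ 2 * r := by
    calc ‖R‖ ^ 3 = ‖R‖ ^ 2 * ‖R‖ := by ring
      _ ≤ (251 / 1000) ^ 2 * r :=
        mul_le_mul (pow_le_pow_left₀ h0 (h.trans hr) 2) h h0 (by norm_num)
  have k4 : ‖R‖ ^ 4 ≤ (251 / 1000) ^ 3 * r := by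
    calc ‖R‖ ^ 4 = ‖R‖ ^ 3 * ‖R‖ := by ring
      _ ≤ (251 / 1000) ^ 3 * r :=
        mul_le_mul (pow_le_pow_left₀ h0 (h.trans hr) 3) h h0 (by norm_num)
  nlinarith

/-- DFB-4 (B5). -/
theorem near_FF {n : ℕ} (hn : 10 ^ 4 ≤ n) {A : ℝ} (hA1 : 157 / 100 ≤ A) (hA2 : A ≤ 157 / 10)
    {v : ℝ} (hv : |v| ≤ n) :
    ‖FF (A ^ 2 / n) (((A : ℂ) + v * I) / n) - Finf A v‖ ≤ 114 / 100 * rb n A v * Jb A v := by
  have hn' : (10 ^ 4 : ℝ) ≤ n := by exact_mod_cast hn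
  have hn0 : (0 : ℝ) < n := by linarith [show (0 : ℝ) < 10 ^ 4 by norm_num]
  have hA0 : 0 < A := by linarith
  obtain ⟨hr0, hr1⟩ := rb_le hn hA1 hA2 v
  obtain ⟨w, hw⟩ : ∃ w, w = A ^ 2 / n := ⟨_, rfl⟩
  have hs : ((A : ℂ) + v * I) / n = ((A / n : ℝ) : ℂ) + ((v / n : ℝ) : ℂ) * I := by
    push_cast
    ring
  have hσ : 0 < A / n := by positivity
  have hsre : 0 < (((A : ℂ) + v * I) / n).re := by
    rw [hs]
    simp only [add_re, ofReal_re, mul_re, I_re, mul_zero, ofReal_im, I_im, mul_one, sub_self,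
      add_zero]
    exact hσ
  have hcPP : Continuous fun θ : ℝ => PP (A ^ 2 / n) θ (((A : ℂ) + v * I) / n) := by
    obtain ⟨b, hb⟩ : ∃ b : ℝ, b = v / n := ⟨_, rfl⟩
    obtain ⟨σ, hσ'⟩ : ∃ σ : ℝ, σ = A / n := ⟨_, rfl⟩
    rw [hs, ← hb, ← hσ']
    rw [← hσ'] at hσ
    have h1 : Continuous fun θ : ℝ => ((θ, b) : ℝ × ℝ) := by fun_prop
    have h2 := (continuous_PP (A ^ 2 / n) hσ).comp h1
    exact h2
  have hcZ : Continuous fun θ : ℝ =>
      exp (2 * I * (A : ℂ) ^ 2 * (Real.cos θ : ℂ) / ((A : ℂ) + v * I)) := by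
    fun_prop
  have hFF := integral_PP_eq (A ^ 2 / n) hsre
  have hpi : (0 : ℝ) < 2 * Real.pi := by positivity
  have hpic : (2 * Real.pi : ℂ) ≠ 0 := by exact_mod_cast hpi.ne'
  have hFF' : FF (A ^ 2 / n) (((A : ℂ) + v * I) / n) = 1 / (2 * Real.pi) *
      ∫ θ in (-Real.pi)..Real.pi, PP (A ^ 2 / n) θ (((A : ℂ) + v * I) / n) := by
    rw [hFF]
    field_simp
  have hdiff : FF (A ^ 2 / n) (((A : ℂ) + v * I) / n) - Finf A v = 1 / (2 * Real.pi) *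
      ∫ θ in (-Real.pi)..Real.pi, (PP (A ^ 2 / n) θ (((A : ℂ) + v * I) / n) -
        exp (2 * I * (A : ℂ) ^ 2 * (Real.cos θ : ℂ) / ((A : ℂ) + v * I))) := by
    rw [hFF', Finf, ← mul_sub, intervalIntegral.integral_sub (hcPP.intervalIntegrable _ _)
      (hcZ.intervalIntegrable _ _)]
  have hpt : ∀ θ : ℝ, ‖PP (A ^ 2 / n) θ (((A : ℂ) + v * I) / n) -
        exp (2 * I * (A : ℂ) ^ 2 * (Real.cos θ : ℂ) / ((A : ℂ) + v * I))‖ ≤
      114 / 100 * rb n A v * Real.exp (2 * A ^ 2 * v / (A ^ 2 + v ^ 2) * Real.cos θ) := by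
    intro θ
    obtain ⟨R, hR, hPP⟩ := near_log hn hA1 hA2 hv θ
    obtain ⟨Z, hZ⟩ : ∃ Z, Z = 2 * I * (A : ℂ) ^ 2 * (Real.cos θ : ℂ) / ((A : ℂ) + v * I) :=
      ⟨_, rfl⟩
    rw [hPP, ← hZ, Complex.exp_add, ← mul_sub_one, norm_mul, Complex.norm_exp]
    have hne : (A : ℂ) + v * I ≠ 0 := by
      intro h0
      have := congrArg Complex.re h0
      simp only [add_re, ofReal_re, mul_re, I_re, mul_zero, ofReal_im, I_im, mul_one, sub_self,
        add_zero, zero_re] at this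
      exact hA0.ne' this
    have hZre : Z.re = 2 * A ^ 2 * v / (A ^ 2 + v ^ 2) * Real.cos θ := by
      have h1 : Z = ((2 * A ^ 2 * v / (A ^ 2 + v ^ 2) * Real.cos θ : ℝ) : ℂ) +
          ((2 * A ^ 2 * A / (A ^ 2 + v ^ 2) * Real.cos θ : ℝ) : ℂ) * I := by
        have hd : ((A : ℂ) ^ 2 + (v : ℂ) ^ 2) ≠ 0 := by
          have : (A ^ 2 + v ^ 2 : ℝ) ≠ 0 := by positivity
          exact_mod_cast this
        rw [hZ, div_eq_iff hne]
        push_cast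
        field_simp
        ring_nf
        rw [Complex.I_sq]
        ring
      rw [h1]
      simp only [add_re, ofReal_re, mul_re, I_re, mul_zero, ofReal_im, I_im, mul_one, sub_self,
        add_zero]
    rw [hZre, mul_comm]
    exact mul_le_mul_of_nonneg_right (exp_sub_one_le hR hr1) (Real.exp_pos _).le
  have hcg : Continuous fun θ : ℝ =>
      114 / 100 * rb n A v * Real.exp (2 * A ^ 2 * v / (A ^ 2 + v ^ 2) * Real.cos θ) := by
    fun_prop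
  have hint := intervalIntegral.norm_integral_le_of_norm_le (μ := volume)
    (by linarith [Real.pi_pos] : -Real.pi ≤ Real.pi) (Filter.Eventually.of_forall fun θ _ => hpt θ)
    (hcg.intervalIntegrable _ _)
  rw [hdiff, norm_mul]
  have hn1 : ‖(1 / (2 * Real.pi) : ℂ)‖ = 1 / (2 * Real.pi) := by
    have : (1 / (2 * Real.pi) : ℂ) = ((1 / (2 * Real.pi) : ℝ) : ℂ) := by push_cast; ring
    rw [this, Complex.norm_real, Real.norm_eq_abs, abs_of_pos (by positivity)]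
  rw [hn1]
  calc 1 / (2 * Real.pi) * ‖∫ θ in (-Real.pi)..Real.pi,
        (PP (A ^ 2 / n) θ (((A : ℂ) + v * I) / n) -
        exp (2 * I * (A : ℂ) ^ 2 * (Real.cos θ : ℂ) / ((A : ℂ) + v * I)))‖
      ≤ 1 / (2 * Real.pi) * ∫ θ in (-Real.pi)..Real.pi,
        114 / 100 * rb n A v * Real.exp (2 * A ^ 2 * v / (A ^ 2 + v ^ 2) * Real.cos θ) := by
        exact mul_le_mul_of_nonneg_left hint (by positivity)
    _ = 114 / 100 * rb n A v * Jb A v := by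
        rw [intervalIntegral.integral_const_mul, Jb, bes]
        ring

end Pool.Agent.Lib.Durfee
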