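import Pool.Agent.Lib.MP_9393b1_co.Defs

/-! # Special functions: `V = V_R + i V_I`, `√V = a + i b` (all `w > 0`) -/

set_option autoImplicit false

namespace Pool.Agent.Lib.Durfee

open Complex MeasureTheory Filter Topology

/-- `Phir y = ∫_0^∞ log(1 + y e^{-u}) du` (real). -/
noncomputable def Phir (y : ℝ) : ℝ := ∫ u in Set.Ioi (0 : ℝ), Real.log (1 + y * Real.exp (-u))

/-! ### elementary inequalities -/

theorem spa_log_nonneg {z : ℝ} (hz : 0 ≤ z) : 0 ≤ Real.log (1 + z) :=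
  Real.log_nonneg (by linarith)

theorem spa_log_le {z : ℝ} (hz : 0 ≤ z) : Real.log (1 + z) ≤ z := by
  have := Real.log_le_sub_one_of_pos (x := 1 + z) (by linarith)
  linarith

theorem spa_le_log {z : ℝ} (hz : 0 ≤ z) : z - z ^ 2 / 2 ≤ Real.log (1 + z) := by
  refine le_trans ?_ (Real.le_log_one_add_of_nonneg hz)
  rw [le_div_iff₀ (by linarith)]
  nlinarith [pow_nonneg hz 3]

theorem spa_arctan_nonneg {z : ℝ} (hz : 0 ≤ z) : 0 ≤ Real.arctan z := by
  have := Real.arctan_strictMono.monotone hz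
  simpa using this

theorem spa_arctan_pos {z : ℝ} (hz : 0 < z) : 0 < Real.arctan z := by
  have := Real.arctan_strictMono hz
  simpa using this

theorem spa_mono_aux {f f' : ℝ → ℝ} (hf : ∀ x, HasDerivAt f (f' x) x) (h0 : ∀ x, 0 ≤ x → 0 ≤ f' x)
    {x : ℝ} (hx : 0 ≤ x) : f 0 ≤ f x := by
  have : MonotoneOn f (Set.Ici 0) := by
    refine monotoneOn_of_deriv_nonneg (convex_Ici 0)
      (fun x _ => (hf x).continuousAt.continuousWithinAt)
      (fun x _ => (hf x).differentiableAt.differentiableWithinAt) ?_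
    intro x hx
    rw [interior_Ici] at hx
    rw [(hf x).deriv]
    exact h0 x (le_of_lt hx)
  exact this (Set.mem_Ici.2 le_rfl) (Set.mem_Ici.2 hx) hx

theorem spa_arctan_le {z : ℝ} (hz : 0 ≤ z) : Real.arctan z ≤ z := by
  have h := spa_mono_aux (f := fun x => x - Real.arctan x) (f' := fun x => 1 - 1 / (1 + x ^ 2))
    (fun x => (hasDerivAt_id x).sub (Real.hasDerivAt_arctan x)) (fun x _ => by
      have : 1 / (1 + x ^ 2) ≤ 1 := by
        rw [div_le_one (by positivity)]
        nlinarith [sq_nonneg x]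
      linarith) hz
  simp only [Real.arctan_zero, sub_zero] at h
  linarith

theorem spa_le_arctan {z : ℝ} (hz : 0 ≤ z) : z - z ^ 3 / 3 ≤ Real.arctan z := by
  have h := spa_mono_aux (f := fun x => Real.arctan x - x + x ^ 3 / 3)
    (f' := fun x => 1 / (1 + x ^ 2) - 1 + 3 * x ^ 2 / 3)
    (fun x => by
      have h3 : HasDerivAt (fun x : ℝ => x ^ 3) (3 * x ^ 2) x := by
        simpa using hasDerivAt_pow 3 x
      exact ((Real.hasDerivAt_arctan x).sub (hasDerivAt_id x)).add (h3.div_const 3)) (fun x _ => by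
      have : 1 / (1 + x ^ 2) - 1 + 3 * x ^ 2 / 3 = x ^ 4 / (1 + x ^ 2) := by
        field_simp
        ring
      rw [this]
      positivity) hz
  simp only [Real.arctan_zero] at h
  linarith

/-! ### integrals of exponentials -/

theorem spa_intOn_exp {a : ℝ} (ha : 0 < a) :
    IntegrableOn (fun u : ℝ => Real.exp (-a * u)) (Set.Ioi 0) := exp_neg_integrableOn_Ioi 0 ha

theorem spa_int_exp {a : ℝ} (ha : 0 < a) : ∫ u in Set.Ioi (0 : ℝ), Real.exp (-a * u) = 1 / a := by
  rw [integral_exp_mul_Ioi (by linarith) 0]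
  simp

theorem spa_intOn_exp1 : IntegrableOn (fun u : ℝ => Real.exp (-u)) (Set.Ioi 0) := by
  have := spa_intOn_exp (a := 1) one_pos
  simpa using this

theorem spa_int_exp1 : ∫ u in Set.Ioi (0 : ℝ), Real.exp (-u) = 1 := by
  have := spa_int_exp (a := 1) one_pos
  simpa using this

/-! ### integrability -/

theorem spa_intOn_log {y : ℝ} (hy : 0 ≤ y) :
    IntegrableOn (fun u : ℝ => Real.log (1 + y * Real.exp (-u))) (Set.Ioi 0) := by
  refine Integrable.mono' (g := fun u => y * Real.exp (-u)) (spa_intOn_exp1.const_mul y) ?_ ?_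
  · refine Measurable.aestronglyMeasurable ?_
    fun_prop
  · refine Eventually.of_forall fun u => ?_
    have h0 : 0 ≤ y * Real.exp (-u) := by positivity
    rw [Real.norm_eq_abs, abs_of_nonneg (spa_log_nonneg h0)]
    exact spa_log_le h0

theorem spa_intOn_log2 (w : ℝ) :
    IntegrableOn (fun u : ℝ => Real.log (1 + w ^ 2 * Real.exp (-2 * u))) (Set.Ioi 0) := by
  refine Integrable.mono' (g := fun u => w ^ 2 * Real.exp (-2 * u))
    ((spa_intOn_exp two_pos).const_mul (w ^ 2)) ?_ ?_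
  · refine Measurable.aestronglyMeasurable ?_
    fun_prop
  · refine Eventually.of_forall fun u => ?_
    have h0 : 0 ≤ w ^ 2 * Real.exp (-2 * u) := by positivity
    rw [Real.norm_eq_abs, abs_of_nonneg (spa_log_nonneg h0)]
    exact spa_log_le h0

theorem spa_intOn_arctan {w : ℝ} (hw : 0 ≤ w) :
    IntegrableOn (fun u : ℝ => Real.arctan (w * Real.exp (-u))) (Set.Ioi 0) := by
  refine Integrable.mono' (g := fun u => w * Real.exp (-u)) (spa_intOn_exp1.const_mul w) ?_ ?_
  · refine Measurable.aestronglyMeasurable ?_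
    fun_prop
  · refine Eventually.of_forall fun u => ?_
    have h0 : 0 ≤ w * Real.exp (-u) := by positivity
    rw [Real.norm_eq_abs, abs_of_nonneg (spa_arctan_nonneg h0)]
    exact spa_arctan_le h0

theorem spa_int_pos {f : ℝ → ℝ} (hf : IntegrableOn f (Set.Ioi 0)) (hpos : ∀ u, 0 < f u) :
    0 < ∫ u in Set.Ioi (0 : ℝ), f u := by
  rw [setIntegral_pos_iff_support_of_nonneg_ae
    (Eventually.of_forall fun u => (hpos u).le) hf]
  have : Function.support f = Set.univ := by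
    ext u
    simp [(hpos u).ne']
  rw [this, Set.univ_inter]
  simp

/-! ### the logarithm on the vertical line `1 + i y` -/

theorem spa_norm (y : ℝ) : ‖(1 + (y : ℂ) * I)‖ = Real.sqrt (1 + y ^ 2) := by
  rw [Complex.norm_def, Complex.normSq_apply]
  congr 1
  simp
  ring

theorem spa_log (y : ℝ) : Complex.log (1 + (y : ℂ) * I) =
    ((1 / 2 * Real.log (1 + y ^ 2) : ℝ) : ℂ) + ((Real.arctan y : ℝ) : ℂ) * I := by
  have h1 : Real.log ‖(1 + (y : ℂ) * I)‖ = 1 / 2 * Real.log (1 + y ^ 2) := by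
    rw [spa_norm, Real.log_sqrt (by positivity)]
    ring
  have h2 : Complex.arg (1 + (y : ℂ) * I) = Real.arctan y := by
    rw [Complex.arg_of_re_nonneg (by simp), spa_norm, Real.arctan_eq_arcsin]
    simp
  rw [Complex.log, h1, h2]

theorem VV_eq {w : ℝ} (hw : 0 < w) : VV w = (VR w : ℂ) + (VI w : ℂ) * I := by
  have h1 : ∀ u : ℝ, log (1 + I * w * (Real.exp (-u) : ℂ)) =
      ((1 / 2 * Real.log (1 + w ^ 2 * Real.exp (-2 * u)) : ℝ) : ℂ) +
        ((Real.arctan (w * Real.exp (-u)) : ℝ) : ℂ) * I := by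
    intro u
    have e1 : (1 + I * w * (Real.exp (-u) : ℂ)) = 1 + ((w * Real.exp (-u) : ℝ) : ℂ) * I := by
      push_cast
      ring
    have e2 : (w * Real.exp (-u)) ^ 2 = w ^ 2 * Real.exp (-2 * u) := by
      rw [mul_pow, ← Real.exp_nat_mul]
      congr 2
      push_cast
      ring
    rw [e1, spa_log, e2]
  have i1 : IntegrableOn (fun u : ℝ => 1 / 2 * Real.log (1 + w ^ 2 * Real.exp (-2 * u))) (Set.Ioi 0) :=
    (spa_intOn_log2 w).const_mul _
  have i2 := spa_intOn_arctan hw.le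
  have h2 : Phi (I * w) = ((∫ u in Set.Ioi (0 : ℝ), 1 / 2 * Real.log (1 + w ^ 2 * Real.exp (-2 * u)) : ℝ) : ℂ)
      + ((∫ u in Set.Ioi (0 : ℝ), Real.arctan (w * Real.exp (-u)) : ℝ) : ℂ) * I := by
    unfold Phi
    simp only [h1]
    have j1 : IntegrableOn (fun u : ℝ =>
        ((1 / 2 * Real.log (1 + w ^ 2 * Real.exp (-2 * u)) : ℝ) : ℂ)) (Set.Ioi 0) := i1.ofReal
    have j2 : IntegrableOn (fun u : ℝ =>
        ((Real.arctan (w * Real.exp (-u)) : ℝ) : ℂ)) (Set.Ioi 0) := i2.ofReal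
    rw [integral_add j1 (j2.mul_const I), integral_mul_const]
    rw [integral_complex_ofReal, integral_complex_ofReal]
  unfold VV
  rw [h2]
  unfold VR VI
  rw [integral_const_mul]
  push_cast
  ring

theorem VR_pos {w : ℝ} (hw : 0 < w) : 0 < VR w := by
  unfold VR
  refine spa_int_pos (spa_intOn_log2 w) fun u => Real.log_pos ?_
  have : 0 < w ^ 2 * Real.exp (-2 * u) := by positivity
  linarith

theorem VI_pos {w : ℝ} (hw : 0 < w) : 0 < VI w := by
  unfold VI
  have := spa_int_pos (spa_intOn_arctan hw.le) fun u => spa_arctan_pos (by positivity)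
  linarith

/-- the modulus -/
noncomputable def spaM (w : ℝ) : ℝ := Real.sqrt (VR w ^ 2 + VI w ^ 2)

theorem spaM_sq (w : ℝ) : spaM w ^ 2 = VR w ^ 2 + VI w ^ 2 := Real.sq_sqrt (by positivity)

theorem spaM_nonneg (w : ℝ) : 0 ≤ spaM w := Real.sqrt_nonneg _

theorem spaM_gt {w : ℝ} (hw : 0 < w) : VR w < spaM w := by
  have h1 := spaM_sq w
  have h2 := VI_pos hw
  have h3 := VR_pos hw
  have h4 := spaM_nonneg w
  nlinarith

theorem spa_aa_sq {w : ℝ} (hw : 0 < w) : aa w ^ 2 = (spaM w + VR w) / 2 := by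
  have h1 := spaM_gt hw
  have h3 := VR_pos hw
  exact Real.sq_sqrt (by unfold spaM at h1; linarith)

theorem spa_bb_sq {w : ℝ} (hw : 0 < w) : bb w ^ 2 = (spaM w - VR w) / 2 := by
  have h1 := spaM_gt hw
  have h3 := VR_pos hw
  exact Real.sq_sqrt (by unfold spaM at h1; linarith)

theorem aa_pos {w : ℝ} (hw : 0 < w) : 0 < aa w := by
  have h1 := spaM_gt hw
  have h3 := VR_pos hw
  exact Real.sqrt_pos.2 (by unfold spaM at h1; linarith)

theorem bb_pos {w : ℝ} (hw : 0 < w) : 0 < bb w := by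
  have h1 := spaM_gt hw
  have h3 := VR_pos hw
  exact Real.sqrt_pos.2 (by unfold spaM at h1; linarith)

theorem bb_lt_aa {w : ℝ} (hw : 0 < w) : bb w < aa w := by
  have h1 := spa_aa_sq hw
  have h2 := spa_bb_sq hw
  have h3 := VR_pos hw
  have h4 := aa_pos hw
  have h5 := bb_pos hw
  nlinarith

theorem aa_sq_sub_bb_sq {w : ℝ} (hw : 0 < w) : aa w ^ 2 - bb w ^ 2 = VR w := by
  rw [spa_aa_sq hw, spa_bb_sq hw]
  ring

theorem two_aa_bb {w : ℝ} (hw : 0 < w) : 2 * aa w * bb w = VI w := by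
  have h1 := spa_aa_sq hw
  have h2 := spa_bb_sq hw
  have h4 := aa_pos hw
  have h5 := bb_pos hw
  have h6 := VI_pos hw
  have h7 := spaM_sq w
  have h8 : (2 * aa w * bb w) ^ 2 = VI w ^ 2 := by
    calc (2 * aa w * bb w) ^ 2 = 4 * aa w ^ 2 * bb w ^ 2 := by ring
      _ = spaM w ^ 2 - VR w ^ 2 := by rw [h1, h2]; ring
      _ = VI w ^ 2 := by rw [h7]; ring
  exact (sq_eq_sq₀ (by positivity) h6.le).1 h8

theorem aabb_sq {w : ℝ} (hw : 0 < w) : ((aa w : ℂ) + (bb w : ℂ) * I) ^ 2 = VV w := by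
  rw [VV_eq hw, ← aa_sq_sub_bb_sq hw, ← two_aa_bb hw]
  push_cast
  ring_nf
  rw [I_sq]
  ring

theorem norm_VV {w : ℝ} (hw : 0 < w) : ‖VV w‖ = aa w ^ 2 + bb w ^ 2 := by
  rw [← aabb_sq hw, norm_pow, Complex.sq_norm, Complex.normSq_apply]
  simp
  ring

theorem U_quad {w : ℝ} (hw : 0 < w) : aa w ^ 2 * (aa w ^ 2 - VR w) = VI w ^ 2 / 4 := by
  rw [← aa_sq_sub_bb_sq hw, ← two_aa_bb hw]
  ring

/-- comparison principle for `U = a²` -/
theorem U_le_of {w X : ℝ} (hw : 0 < w) (hX : 0 ≤ X) (h : VI w ^ 2 / 4 ≤ X * (X - VR w)) :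
    aa w ^ 2 ≤ X := by
  by_contra hcon
  push Not at hcon
  have h1 := U_quad hw
  have h2 := VI_pos hw
  have h3 := VR_pos hw
  have h4 : 0 < X * (X - VR w) := lt_of_lt_of_le (by positivity) h
  have hX0 : 0 < X := by
    rcases hX.eq_or_lt with h0 | h0
    · rw [← h0] at h4
      simp at h4
    · exact h0
  have h5 : 0 < X - VR w := by
    by_contra h0
    push Not at h0
    nlinarith
  nlinarith

theorem le_U_of {w X : ℝ} (hw : 0 < w) (h : X * (X - VR w) ≤ VI w ^ 2 / 4) : X ≤ aa w ^ 2 := by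
  by_contra hcon
  push Not at hcon
  have h1 := U_quad hw
  have h3 := VR_pos hw
  have h4 := aa_sq_sub_bb_sq hw
  have h5 := bb_pos hw
  have h6 : 0 < aa w ^ 2 - VR w := by
    have : 0 < bb w ^ 2 := by positivity
    linarith
  nlinarith

/-- `b/a ≤ √(1+ρ²) - ρ` if `ρ V_I ≤ V_R` -/
theorem bb_div_aa_le {w ρ : ℝ} (hw : 0 < w) (hρ : 0 ≤ ρ) (h : ρ * VI w ≤ VR w) :
    bb w / aa w ≤ Real.sqrt (1 + ρ ^ 2) - ρ := by
  have ha := aa_pos hw
  have hb := bb_pos hw
  rw [← aa_sq_sub_bb_sq hw, ← two_aa_bb hw] at h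
  have h1 : (bb w / aa w + ρ) ^ 2 ≤ 1 + ρ ^ 2 := by
    have h2 : (bb w / aa w) ^ 2 + 2 * ρ * (bb w / aa w) ≤ 1 := by
      have : (bb w / aa w) ^ 2 + 2 * ρ * (bb w / aa w) = (bb w ^ 2 + 2 * ρ * aa w * bb w) / aa w ^ 2 := by
        field_simp
      rw [this, div_le_one (by positivity)]
      linarith
    nlinarith
  have h3 : bb w / aa w + ρ ≤ Real.sqrt (1 + ρ ^ 2) := Real.le_sqrt_of_sq_le h1
  linarith

theorem VR_eq_Phir {w : ℝ} (hw : 0 < w) : VR w = Phir (w ^ 2) / 2 := by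
  unfold VR Phir
  have h := integral_comp_mul_left_Ioi (fun v : ℝ => Real.log (1 + w ^ 2 * Real.exp (-v))) 0
    (b := 2) two_pos
  rw [mul_zero, smul_eq_mul] at h
  have e : ∀ u : ℝ, Real.log (1 + w ^ 2 * Real.exp (-2 * u)) =
      Real.log (1 + w ^ 2 * Real.exp (-(2 * u))) := by
    intro u
    rw [neg_mul]
  simp only [e]
  rw [h]
  ring

theorem Phir_nonneg {y : ℝ} (hy : 0 ≤ y) : 0 ≤ Phir y := by
  unfold Phir
  exact integral_nonneg fun u => spa_log_nonneg (by positivity)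

theorem Phir_mono {y z : ℝ} (hy : 0 ≤ y) (hyz : y ≤ z) : Phir y ≤ Phir z := by
  unfold Phir
  refine integral_mono (spa_intOn_log hy) (spa_intOn_log (hy.trans hyz)) fun u => ?_
  have h1 : 0 < 1 + y * Real.exp (-u) := by positivity
  refine Real.log_le_log h1 ?_
  gcongr

theorem Phir_le {y : ℝ} (hy : 0 ≤ y) : Phir y ≤ y := by
  unfold Phir
  calc ∫ u in Set.Ioi (0 : ℝ), Real.log (1 + y * Real.exp (-u))
      ≤ ∫ u in Set.Ioi (0 : ℝ), y * Real.exp (-u) :=
        integral_mono (spa_intOn_log hy) (spa_intOn_exp1.const_mul y) fun u =>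
          spa_log_le (by positivity)
    _ = y := by rw [integral_const_mul, spa_int_exp1, mul_one]

theorem le_Phir {y : ℝ} (hy : 0 ≤ y) : y - y ^ 2 / 4 ≤ Phir y := by
  unfold Phir
  have i1 : IntegrableOn (fun u : ℝ => y * Real.exp (-u)) (Set.Ioi 0) := spa_intOn_exp1.const_mul y
  have i2 : IntegrableOn (fun u : ℝ => y ^ 2 / 2 * Real.exp (-2 * u)) (Set.Ioi 0) :=
    (spa_intOn_exp two_pos).const_mul _
  calc y - y ^ 2 / 4 = ∫ u in Set.Ioi (0 : ℝ), (y * Real.exp (-u) - y ^ 2 / 2 * Real.exp (-2 * u)) := by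
        rw [integral_sub i1 i2, integral_const_mul, integral_const_mul, spa_int_exp1,
          spa_int_exp two_pos]
        ring
    _ ≤ ∫ u in Set.Ioi (0 : ℝ), Real.log (1 + y * Real.exp (-u)) := by
        refine integral_mono (i1.sub i2) (spa_intOn_log hy) fun u => ?_
        have h := spa_le_log (z := y * Real.exp (-u)) (by positivity)
        have e : (y * Real.exp (-u)) ^ 2 = y ^ 2 * Real.exp (-2 * u) := by
          rw [mul_pow, ← Real.exp_nat_mul]
          congr 2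
          push_cast
          ring
        rw [e] at h
        show y * Real.exp (-u) - y ^ 2 / 2 * Real.exp (-2 * u) ≤ _
        linarith

theorem VI_le {x : ℝ} (hx : 0 ≤ x) : VI x ≤ 2 * x := by
  unfold VI
  have : ∫ u in Set.Ioi (0 : ℝ), Real.arctan (x * Real.exp (-u)) ≤ x := by
    calc ∫ u in Set.Ioi (0 : ℝ), Real.arctan (x * Real.exp (-u))
        ≤ ∫ u in Set.Ioi (0 : ℝ), x * Real.exp (-u) :=
          integral_mono (spa_intOn_arctan hx) (spa_intOn_exp1.const_mul x) fun u =>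
            spa_arctan_le (by positivity)
      _ = x := by rw [integral_const_mul, spa_int_exp1, mul_one]
  linarith

theorem le_VI {x : ℝ} (hx : 0 ≤ x) : 2 * x - 2 * x ^ 3 / 9 ≤ VI x := by
  unfold VI
  have i1 : IntegrableOn (fun u : ℝ => x * Real.exp (-u)) (Set.Ioi 0) := spa_intOn_exp1.const_mul x
  have i2 : IntegrableOn (fun u : ℝ => x ^ 3 / 3 * Real.exp (-3 * u)) (Set.Ioi 0) :=
    (spa_intOn_exp three_pos).const_mul _
  have : x - x ^ 3 / 9 ≤ ∫ u in Set.Ioi (0 : ℝ), Real.arctan (x * Real.exp (-u)) := by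
    calc x - x ^ 3 / 9 = ∫ u in Set.Ioi (0 : ℝ), (x * Real.exp (-u) - x ^ 3 / 3 * Real.exp (-3 * u)) := by
          rw [integral_sub i1 i2, integral_const_mul, integral_const_mul, spa_int_exp1,
            spa_int_exp three_pos]
          ring
      _ ≤ ∫ u in Set.Ioi (0 : ℝ), Real.arctan (x * Real.exp (-u)) := by
          refine integral_mono (i1.sub i2) (spa_intOn_arctan hx) fun u => ?_
          have h := spa_le_arctan (z := x * Real.exp (-u)) (by positivity)
          have e : (x * Real.exp (-u)) ^ 3 = x ^ 3 * Real.exp (-3 * u) := by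
            rw [mul_pow, ← Real.exp_nat_mul]
            congr 2
            push_cast
            ring
          rw [e] at h
          show x * Real.exp (-u) - x ^ 3 / 3 * Real.exp (-3 * u) ≤ _
          linarith
  linarith

/-- `b² ≤ w` -/
theorem bb_sq_le {w : ℝ} (hw : 0 < w) : bb w ^ 2 ≤ w := by
  have h1 := two_aa_bb hw
  have h2 := VI_le hw.le
  have h3 := bb_lt_aa hw
  have h4 := bb_pos hw
  nlinarith

end Pool.Agent.Lib.Durfee
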