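import Pool.Agent.Lib.MP_9393b1_co.SpecA

/-! # Special functions: derivatives in `L = log w`, inversion `w → 1/w`, values at `w = 1` -/

set_option autoImplicit false

namespace Pool.Agent.Lib.Durfee

open Complex MeasureTheory Filter Topology

lemma spb_shift (f : ℝ → ℝ) (x : ℝ) :
    ∫ u in Set.Ioi (0 : ℝ), f (u - x) = ∫ v in Set.Ioi (-x), f v := by
  have h1 : MeasurePreserving (fun u : ℝ => u - x) volume volume :=
    measurePreserving_sub_right volume x
  have h2 : MeasurableEmbedding (fun u : ℝ => u - x) :=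
    (Homeomorph.subRight x).measurableEmbedding
  have h3 := h1.setIntegral_preimage_emb h2 f (Set.Ioi (-x))
  rw [← h3]
  congr 2
  ext u
  simp

lemma spb_hasDerivAt {f : ℝ → ℝ} (hf : Continuous f) (hi : ∀ a, IntegrableOn f (Set.Ioi a))
    (L : ℝ) : HasDerivAt (fun x : ℝ => ∫ u in Set.Ioi (0 : ℝ), f (u - x)) (f (-L)) L := by
  have h1 : (fun x : ℝ => ∫ u in Set.Ioi (0 : ℝ), f (u - x)) =
      fun x : ℝ => (∫ u in Set.Ioi (0 : ℝ), f u) - ∫ v in (0 : ℝ)..(-x), f v := by
    funext x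
    rw [spb_shift]
    have := intervalIntegral.integral_interval_add_Ioi (hi 0) (hi (-x))
    linarith
  rw [h1]
  have h2 : HasDerivAt (fun y : ℝ => ∫ v in (0 : ℝ)..y, f v) (f (-L)) (-L) :=
    intervalIntegral.integral_hasDerivAt_right (hf.intervalIntegrable _ _)
      (hf.stronglyMeasurableAtFilter _ _) hf.continuousAt
  have h3 : HasDerivAt (fun x : ℝ => ∫ v in (0 : ℝ)..(-x), f v) (f (-L) * (-1)) L :=
    HasDerivAt.comp L h2 (hasDerivAt_neg L)
  have h4 := h3.const_sub (∫ u in Set.Ioi (0 : ℝ), f u)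
  exact h4.congr_deriv (by ring)

lemma spb_integrable_of_le {f : ℝ → ℝ} (hf : Continuous f) {b : ℝ} (hb : 0 < b)
    (h0 : ∀ v, 0 ≤ f v) (h1 : ∀ v, f v ≤ Real.exp (-b * v)) (a : ℝ) :
    IntegrableOn f (Set.Ioi a) := by
  refine (exp_neg_integrableOn_Ioi a hb).mono' hf.aestronglyMeasurable.restrict ?_
  filter_upwards with v
  rw [Real.norm_eq_abs, abs_of_nonneg (h0 v)]
  exact h1 v

lemma spb_cont_log {b : ℝ} : Continuous fun v : ℝ => Real.log (1 + Real.exp (-b * v)) := by
  refine Continuous.log (by fun_prop) fun v => ?_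
  positivity

lemma spb_int_log {b : ℝ} (hb : 0 < b) (a : ℝ) :
    IntegrableOn (fun v : ℝ => Real.log (1 + Real.exp (-b * v))) (Set.Ioi a) := by
  refine spb_integrable_of_le spb_cont_log hb (fun v => ?_) (fun v => ?_) a
  · exact Real.log_nonneg (by linarith [Real.exp_pos (-b * v)])
  · have := Real.log_le_sub_one_of_pos (x := 1 + Real.exp (-b * v)) (by positivity)
    linarith

theorem hasDerivAt_Phir_exp (L : ℝ) :
    HasDerivAt (fun x : ℝ => Phir (Real.exp x)) (Real.log (1 + Real.exp L)) L := by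
  have h1 := spb_hasDerivAt (spb_cont_log (b := 1)) (spb_int_log one_pos) L
  have h2 : (fun x : ℝ => Phir (Real.exp x)) =
      fun x : ℝ => ∫ u in Set.Ioi (0 : ℝ), Real.log (1 + Real.exp (-1 * (u - x))) := by
    funext x
    rw [Phir]
    congr 1
    funext u
    rw [← Real.exp_add]
    congr 3
    ring
  rw [h2]
  exact h1.congr_deriv (by rw [show -1 * -L = L by ring])

theorem hasDerivAt_VR_exp (L : ℝ) :
    HasDerivAt (fun x : ℝ => VR (Real.exp x)) (Real.log (1 + Real.exp (2 * L))) L := by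
  have h1 := spb_hasDerivAt (spb_cont_log (b := 2)) (spb_int_log two_pos) L
  have h2 : (fun x : ℝ => VR (Real.exp x)) =
      fun x : ℝ => ∫ u in Set.Ioi (0 : ℝ), Real.log (1 + Real.exp (-2 * (u - x))) := by
    funext x
    rw [VR]
    congr 1
    funext u
    rw [← Real.exp_nat_mul, ← Real.exp_add]
    congr 3
    push_cast
    ring
  rw [h2]
  exact h1.congr_deriv (by rw [show -2 * -L = 2 * L by ring])

lemma spb_arctan_le {x : ℝ} (hx : 0 ≤ x) : Real.arctan x ≤ x := by
  have h := Real.le_tan (Real.arctan_nonneg.2 hx) (Real.arctan_lt_pi_div_two x)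
  rwa [Real.tan_arctan] at h

theorem hasDerivAt_VI_exp (L : ℝ) :
    HasDerivAt (fun x : ℝ => VI (Real.exp x)) (2 * Real.arctan (Real.exp L)) L := by
  have hc : Continuous fun v : ℝ => Real.arctan (Real.exp (-v)) := by fun_prop
  have hi : ∀ a, IntegrableOn (fun v : ℝ => Real.arctan (Real.exp (-v))) (Set.Ioi a) := by
    refine spb_integrable_of_le hc one_pos (fun v => ?_) (fun v => ?_)
    · exact Real.arctan_nonneg.2 (Real.exp_pos _).le
    · have := spb_arctan_le (Real.exp_pos (-v)).le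
      rwa [show -1 * v = -v by ring]
  have h1 := (spb_hasDerivAt hc hi L).const_mul 2
  have h2 : (fun x : ℝ => VI (Real.exp x)) =
      fun x : ℝ => 2 * ∫ u in Set.Ioi (0 : ℝ), Real.arctan (Real.exp (-(u - x))) := by
    funext x
    rw [VI]
    congr 2
    funext u
    rw [← Real.exp_add]
    congr 2
    ring
  rw [h2]
  exact h1.congr_deriv (by rw [neg_neg])

lemma spb_sum_zeta : HasSum (fun m : ℕ => (-1 : ℝ) ^ m / ((m : ℝ) + 1) ^ 2) (Real.pi ^ 2 / 12) := by
  have hz : HasSum (fun n : ℕ => (1 : ℝ) / (n : ℝ) ^ 2) (Real.pi ^ 2 / 6) := hasSum_zeta_two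
  set F : ℕ → ℝ := fun n => (1 : ℝ) / (n : ℝ) ^ 2 with hF
  -- even terms
  have he : HasSum (fun k : ℕ => F (2 * k)) (Real.pi ^ 2 / 24) := by
    have h := hz.mul_left (1 / 4 : ℝ)
    have e1 : (fun k : ℕ => F (2 * k)) = fun i => 1 / 4 * F i := by
      funext k
      simp only [hF]
      push_cast
      rw [mul_pow]
      by_cases hk : (k : ℝ) = 0
      · simp [hk]
      · field_simp
        norm_num
    rw [e1, show Real.pi ^ 2 / 24 = 1 / 4 * (Real.pi ^ 2 / 6) by ring]
    exact h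
  have hs : Summable (fun k : ℕ => F (2 * k + 1)) :=
    hz.summable.comp_injective (i := fun k : ℕ => 2 * k + 1) (fun a b h => by simpa using h)
  obtain ⟨o, ho⟩ := hs
  have h1 := HasSum.even_add_odd he ho
  have h2 := h1.unique hz
  have ho' : o = Real.pi ^ 2 / 8 := by linarith
  -- even terms from index 2
  have he1 : HasSum (fun k : ℕ => F (2 * (k + 1))) (Real.pi ^ 2 / 24) := by
    have h := (hasSum_nat_add_iff' (f := fun k : ℕ => F (2 * k)) 1).2 he
    simpa [hF] using h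
  have h3 : HasSum (fun m : ℕ => (-1 : ℝ) ^ m / ((m : ℝ) + 1) ^ 2) (o + -(Real.pi ^ 2 / 24)) := by
    refine HasSum.even_add_odd ?_ ?_
    · have e1 : (fun k : ℕ => (-1 : ℝ) ^ (2 * k) / (((2 * k : ℕ) : ℝ) + 1) ^ 2) =
          fun k : ℕ => F (2 * k + 1) := by
        funext k
        simp only [hF]
        rw [pow_mul]
        push_cast
        simp
      rw [e1]
      exact ho
    · have e1 : (fun k : ℕ => (-1 : ℝ) ^ (2 * k + 1) / (((2 * k + 1 : ℕ) : ℝ) + 1) ^ 2) =
          fun k : ℕ => -F (2 * (k + 1)) := by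
        funext k
        simp only [hF]
        rw [pow_succ, pow_mul]
        push_cast
        simp only [neg_one_sq, one_pow, one_mul, neg_div]
        congr 3
        ring
      rw [e1]
      exact he1.neg
  rw [ho', show Real.pi ^ 2 / 8 + -(Real.pi ^ 2 / 24) = Real.pi ^ 2 / 12 by ring] at h3
  exact h3

lemma spb_int_exp {a : ℝ} (ha : 0 < a) : ∫ u in Set.Ioi (0 : ℝ), Real.exp (-a * u) = 1 / a := by
  rw [integral_exp_mul_Ioi (by linarith)]
  rw [mul_zero, Real.exp_zero, neg_div_neg_eq]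

/-- termwise integration -/
lemma spb_termwise {c a : ℕ → ℝ} (ha : ∀ m, 0 < a m) (hs : Summable fun m => |c m| / a m)
    {f : ℝ → ℝ} (hf : ∀ u, 0 < u → HasSum (fun m => c m * Real.exp (-a m * u)) (f u)) :
    HasSum (fun m => c m / a m) (∫ u in Set.Ioi (0 : ℝ), f u) := by
  have h2 := hasSum_integral_of_summable_integral_norm
    (F := fun (m : ℕ) (u : ℝ) => c m * Real.exp (-a m * u))
    (μ := volume.restrict (Set.Ioi 0))
    (fun m => (exp_neg_integrableOn_Ioi 0 (ha m)).const_mul _) (by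
      have h7 : (fun m : ℕ => ∫ u in Set.Ioi (0 : ℝ), ‖c m * Real.exp (-a m * u)‖) =
          fun m : ℕ => |c m| / a m := by
        funext m
        have : ∀ u : ℝ, ‖c m * Real.exp (-a m * u)‖ = |c m| * Real.exp (-a m * u) := by
          intro u
          rw [norm_mul, Real.norm_eq_abs, Real.norm_of_nonneg (Real.exp_pos _).le]
        simp_rw [this]
        rw [integral_const_mul, spb_int_exp (ha m)]
        ring
      rw [h7]
      exact hs)
  have e1 : (fun m : ℕ => ∫ u in Set.Ioi (0 : ℝ), c m * Real.exp (-a m * u)) =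
      fun m => c m / a m := by
    funext m
    rw [integral_const_mul, spb_int_exp (ha m)]
    ring
  have e2 : (∫ u in Set.Ioi (0 : ℝ), ∑' m : ℕ, c m * Real.exp (-a m * u)) =
      ∫ u in Set.Ioi (0 : ℝ), f u := by
    refine setIntegral_congr_fun measurableSet_Ioi fun u hu => ?_
    exact (hf u hu).tsum_eq
  rw [e1, e2] at h2
  exact h2

theorem Phir_one : Phir 1 = Real.pi ^ 2 / 12 := by
  have h1 := spb_termwise (c := fun m : ℕ => (-1 : ℝ) ^ m / ((m : ℝ) + 1))
    (a := fun m : ℕ => (m : ℝ) + 1) (f := fun u => Real.log (1 + 1 * Real.exp (-u)))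
    (fun m => by positivity) ?_ ?_
  · have e1 : (fun m : ℕ => (-1 : ℝ) ^ m / ((m : ℝ) + 1) / ((m : ℝ) + 1)) =
        fun m : ℕ => (-1 : ℝ) ^ m / ((m : ℝ) + 1) ^ 2 := by
      funext m
      rw [div_div, sq]
    rw [e1] at h1
    exact h1.unique spb_sum_zeta
  · have h8 := (summable_nat_add_iff 1).2 hasSum_zeta_two.summable
    refine h8.congr fun m => ?_
    rw [abs_div, abs_pow, abs_neg, abs_one, one_pow, abs_of_pos (by positivity : (0 : ℝ) < m + 1),
      div_div, ← sq]
    push_cast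
    rfl
  · intro u hu0
    have hlt : |(-Real.exp (-u))| < 1 := by
      rw [abs_neg, abs_of_pos (Real.exp_pos _), Real.exp_lt_one_iff]
      linarith
    have h5 := (Real.hasSum_pow_div_log_of_abs_lt_one hlt).neg
    rw [neg_neg, sub_neg_eq_add] at h5
    rw [one_mul]
    refine h5.congr_fun fun m => ?_
    have e : (-Real.exp (-u)) ^ (m + 1) = (-1) ^ (m + 1) * Real.exp (-((m : ℝ) + 1) * u) := by
      rw [neg_pow (Real.exp (-u)), ← Real.exp_nat_mul]
      congr 2
      push_cast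
      ring
    rw [e, pow_succ]
    ring

theorem Phir_inv {y : ℝ} (hy : 0 < y) :
    Phir y = Real.log y ^ 2 / 2 + Real.pi ^ 2 / 6 - Phir (1 / y) := by
  have hd : ∀ x : ℝ, HasDerivAt (fun x : ℝ => Phir (Real.exp x) + Phir (Real.exp (-x)) - x ^ 2 / 2)
      0 x := by
    intro x
    have h1 := hasDerivAt_Phir_exp x
    have h2 : HasDerivAt (fun x : ℝ => Phir (Real.exp (-x)))
        (Real.log (1 + Real.exp (-x)) * (-1)) x :=
      HasDerivAt.comp (h₂ := fun x : ℝ => Phir (Real.exp x)) x (hasDerivAt_Phir_exp (-x))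
        (hasDerivAt_neg x)
    have h3 : HasDerivAt (fun x : ℝ => x ^ 2 / 2) x x :=
      ((hasDerivAt_pow 2 x).div_const 2).congr_deriv (by simp)
    refine ((h1.add h2).sub h3).congr_deriv ?_
    have h5 : Real.log (1 + Real.exp x) = x + Real.log (1 + Real.exp (-x)) := by
      have : 1 + Real.exp x = Real.exp x * (1 + Real.exp (-x)) := by
        rw [mul_add, ← Real.exp_add, mul_one, add_neg_cancel, Real.exp_zero, add_comm]
      rw [this, Real.log_mul (Real.exp_pos x).ne' (by positivity), Real.log_exp]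
    rw [h5]
    ring
  have hc := is_const_of_deriv_eq_zero (fun x => (hd x).differentiableAt)
    (fun x => (hd x).deriv) (Real.log y) 0
  simp only [Real.exp_log hy, Real.exp_neg, Real.exp_zero, neg_zero, Phir_one] at hc
  rw [one_div]
  linarith

theorem VR_inv {w : ℝ} (hw : 0 < w) :
    VR w = Real.log w ^ 2 + Real.pi ^ 2 / 12 - Phir (1 / w ^ 2) / 2 := by
  rw [VR_eq_Phir hw, Phir_inv (by positivity), Real.log_pow]
  push_cast
  ring

theorem VI_inv {w : ℝ} (hw : 0 < w) : VI w = Real.pi * Real.log w + VI (1 / w) := by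
  have hd : ∀ x : ℝ, HasDerivAt (fun x : ℝ => VI (Real.exp x) - VI (Real.exp (-x)) - Real.pi * x)
      0 x := by
    intro x
    have h1 := hasDerivAt_VI_exp x
    have h2 : HasDerivAt (fun x : ℝ => VI (Real.exp (-x)))
        (2 * Real.arctan (Real.exp (-x)) * (-1)) x :=
      HasDerivAt.comp (h₂ := fun x : ℝ => VI (Real.exp x)) x (hasDerivAt_VI_exp (-x))
        (hasDerivAt_neg x)
    have h3 : HasDerivAt (fun x : ℝ => Real.pi * x) Real.pi x := by
      simpa using (hasDerivAt_id x).const_mul Real.pi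
    refine ((h1.sub h2).sub h3).congr_deriv ?_
    rw [Real.exp_neg, Real.arctan_inv_of_pos (Real.exp_pos x)]
    ring
  have hc := is_const_of_deriv_eq_zero (fun x => (hd x).differentiableAt)
    (fun x => (hd x).deriv) (Real.log w) 0
  simp only [Real.exp_log hw, Real.exp_neg, Real.exp_zero, neg_zero] at hc
  rw [one_div]
  linarith

/-- `VI 1` is an alternating series. -/
lemma spb_VI_one : HasSum (fun m : ℕ => (-1 : ℝ) ^ m * (2 / (2 * (m : ℝ) + 1) ^ 2)) (VI 1) := by
  have h1 := spb_termwise (c := fun m : ℕ => (-1 : ℝ) ^ m / (2 * (m : ℝ) + 1))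
    (a := fun m : ℕ => 2 * (m : ℝ) + 1) (f := fun u => Real.arctan (1 * Real.exp (-u)))
    (fun m => by positivity) ?_ ?_
  · have h2 := h1.mul_left 2
    rw [VI]
    refine h2.congr_fun fun m => ?_
    rw [div_div, ← sq]
    ring
  · have h8 := (summable_nat_add_iff 1).2 hasSum_zeta_two.summable
    refine Summable.of_nonneg_of_le (fun m => by positivity) (fun m => ?_) h8
    rw [abs_div, abs_pow, abs_neg, abs_one, one_pow,
      abs_of_pos (by positivity : (0 : ℝ) < 2 * m + 1), div_div, ← sq]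
    push_cast
    apply one_div_le_one_div_of_le (by positivity)
    have : (0 : ℝ) ≤ m := Nat.cast_nonneg m
    nlinarith
  · intro u hu0
    have hlt : ‖Real.exp (-u)‖ < 1 := by
      rw [Real.norm_of_nonneg (Real.exp_pos _).le, Real.exp_lt_one_iff]
      linarith
    have h5 := Real.hasSum_arctan hlt
    rw [one_mul]
    refine h5.congr_fun fun m => ?_
    rw [← Real.exp_nat_mul]
    push_cast
    rw [show (2 * (m : ℝ) + 1) * -u = -(2 * (m : ℝ) + 1) * u by ring]
    ring

/-- `2G = 1.83193...` -/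
theorem VI_one_bounds : 183 / 100 ≤ VI 1 ∧ VI 1 ≤ 1833 / 1000 := by
  have ht := spb_VI_one.tendsto_sum_nat
  have ha : Antitone (fun m : ℕ => (2 : ℝ) / (2 * (m : ℝ) + 1) ^ 2) := by
    intro m n hmn
    have : (m : ℝ) ≤ n := by exact_mod_cast hmn
    apply div_le_div_of_nonneg_left (by norm_num) (by positivity)
    gcongr
  constructor
  · have h := ha.alternating_series_le_tendsto ht 7
    refine le_trans ?_ h
    norm_num [Finset.sum_range_succ]
  · have h := ha.tendsto_le_alternating_series ht 8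
    refine h.trans ?_
    norm_num [Finset.sum_range_succ]

lemma spb_contOn {g : ℝ → ℝ} {g' : ℝ → ℝ}
    (h : ∀ L : ℝ, HasDerivAt (fun x : ℝ => g (Real.exp x)) (g' L) L) :
    ContinuousOn g (Set.Ioi 0) := by
  have h1 : Continuous fun x : ℝ => g (Real.exp x) :=
    continuous_iff_continuousAt.2 fun x => (h x).continuousAt
  have h2 : ContinuousOn (fun w : ℝ => g (Real.exp (Real.log w))) (Set.Ioi 0) :=
    h1.comp_continuousOn (Real.continuousOn_log.mono fun x hx => ne_of_gt hx)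
  refine h2.congr fun w hw => ?_
  have hw0 : (0 : ℝ) < w := hw
  simp only [Real.exp_log hw0]

theorem continuousOn_bb : ContinuousOn bb (Set.Ioi 0) := by
  have h1 : ContinuousOn VR (Set.Ioi 0) := spb_contOn hasDerivAt_VR_exp
  have h2 : ContinuousOn VI (Set.Ioi 0) := spb_contOn hasDerivAt_VI_exp
  have h3 : ContinuousOn (fun w => Real.sqrt ((Real.sqrt (VR w ^ 2 + VI w ^ 2) - VR w) / 2))
      (Set.Ioi 0) :=
    (((((h1.pow 2).add (h2.pow 2)).sqrt).sub h1).div_const 2).sqrt
  exact h3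

theorem bb_lt {w : ℝ} (hw : 0 < w) : bb w ^ 2 ≤ Real.pi ^ 2 / 4 + 1 / 2 := by
  have hpi : 3 < Real.pi := Real.pi_gt_three
  rcases le_total w 1 with h1 | h1
  · have := bb_sq_le hw
    nlinarith
  · have hL : 0 ≤ Real.log w := Real.log_nonneg h1
    set L := Real.log w with hLdef
    have hwi : 0 < 1 / w := by positivity
    have hwi1 : 1 / w ≤ 1 := by rw [div_le_one hw]; exact h1
    have hw2 : 0 < 1 / w ^ 2 := by positivity
    have hw21 : 1 / w ^ 2 ≤ 1 := by rw [div_le_one (by positivity)]; nlinarith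
    have hP1 := Phir_le hw2.le
    have hP0 := Phir_nonneg hw2.le
    have hVR := VR_inv hw
    have hVI := VI_inv hw
    have hVIle := VI_le hwi.le
    have hVIpos := VI_pos hwi
    have hX : (0 : ℝ) ≤ L ^ 2 + Real.pi ^ 2 / 3 := by positivity
    have hLw : L ≤ w * (37 / 100) := by
      -- `log w ≤ w / e`
      have h2 : Real.log (w / Real.exp 1) ≤ w / Real.exp 1 - 1 :=
        Real.log_le_sub_one_of_pos (by positivity)
      rw [Real.log_div hw.ne' (Real.exp_pos 1).ne', Real.log_exp] at h2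
      have h3 : w / Real.exp 1 ≤ w * (37 / 100) := by
        rw [div_le_iff₀ (Real.exp_pos 1)]
        have := Real.exp_one_gt_d9
        nlinarith
      linarith
    have hLw' : L * (1 / w) ≤ 37 / 100 := by
      rw [mul_one_div, div_le_iff₀ hw]
      linarith
    have key : VI w ^ 2 / 4 ≤ (L ^ 2 + Real.pi ^ 2 / 3) * ((L ^ 2 + Real.pi ^ 2 / 3) - VR w) := by
      rw [hVR, hVI]
      have e1 : (Real.pi * L + VI (1 / w)) ^ 2 / 4 ≤ (Real.pi * L / 2 + 1 / w) ^ 2 := by
        have : 0 ≤ Real.pi * L := by positivity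
        nlinarith
      have e2 : (Real.pi * L / 2 + 1 / w) ^ 2 ≤ Real.pi ^ 2 * L ^ 2 / 4 + Real.pi * (37 / 100) + 1 := by
        have h5 : (1 / w) ^ 2 ≤ 1 := by nlinarith
        have h6 : Real.pi * (L * (1 / w)) ≤ Real.pi * (37 / 100) :=
          mul_le_mul_of_nonneg_left hLw' (by positivity)
        nlinarith
      have e3 : Real.pi ^ 2 * L ^ 2 / 4 + Real.pi ^ 4 / 12 ≤
          (L ^ 2 + Real.pi ^ 2 / 3) * (L ^ 2 + Real.pi ^ 2 / 3 -
            (L ^ 2 + Real.pi ^ 2 / 12 - Phir (1 / w ^ 2) / 2)) := by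
        have : (L ^ 2 + Real.pi ^ 2 / 3) * (L ^ 2 + Real.pi ^ 2 / 3 -
            (L ^ 2 + Real.pi ^ 2 / 12 - Phir (1 / w ^ 2) / 2)) =
            Real.pi ^ 2 * L ^ 2 / 4 + Real.pi ^ 4 / 12 +
              (L ^ 2 + Real.pi ^ 2 / 3) * (Phir (1 / w ^ 2) / 2) := by ring
        rw [this]
        have : 0 ≤ (L ^ 2 + Real.pi ^ 2 / 3) * (Phir (1 / w ^ 2) / 2) := by positivity
        linarith
      have e4 : Real.pi * (37 / 100) + 1 ≤ Real.pi ^ 4 / 12 := by
        have h7 : Real.pi ^ 4 = Real.pi * Real.pi ^ 3 := by ring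
        have h8 : (27 : ℝ) ≤ Real.pi ^ 3 := by
          have := pow_le_pow_left₀ (by norm_num) hpi.le 3
          norm_num at this
          exact this
        nlinarith
      linarith
    have h9 := U_le_of hw hX key
    have h10 := aa_sq_sub_bb_sq hw
    nlinarith

/-- `b² ≥ π²/4 - π⁴/(12(L²+4))` for `L ≥ 0.9` -/
theorem bb_sq_ge {w : ℝ} (hw : 0 < w) (hL : 9 / 10 ≤ Real.log w) :
    Real.pi ^ 2 / 4 - Real.pi ^ 4 / (12 * (Real.log w ^ 2 + 4)) ≤ bb w ^ 2 := by
  have hp1 : 3.1415 < Real.pi := Real.pi_gt_d4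
  have hp2 : Real.pi < 3.1416 := Real.pi_lt_d4
  set L := Real.log w with hLdef
  have hw1 : L + 1 ≤ w := by
    have := Real.add_one_le_exp L
    rwa [hLdef, Real.exp_log hw] at this
  have hw1' : 1 ≤ w := by linarith
  set d : ℝ := Real.pi ^ 4 / (12 * (L ^ 2 + 4)) with hd
  have hd0 : 0 ≤ d := by positivity
  have hdL : d * (L ^ 2 + 4) = Real.pi ^ 4 / 12 := by
    rw [hd]
    field_simp
  have hpsq1 : 9.869 < Real.pi ^ 2 := by nlinarith
  have hpsq2 : Real.pi ^ 2 < 9.8697 := by nlinarith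
  have hd1 : d ≤ 1.7 := by
    rw [hd, div_le_iff₀ (by positivity)]
    have : Real.pi ^ 4 = Real.pi ^ 2 * Real.pi ^ 2 := by ring
    rw [this]
    nlinarith
  have hwi : 0 < 1 / w := by positivity
  have hwi1 : 1 / w ≤ 1 := by rw [div_le_one hw]; exact hw1'
  have hw2 : 0 < 1 / w ^ 2 := by positivity
  have hP1 := Phir_le hw2.le
  have hP0 := Phir_nonneg hw2.le
  set P := Phir (1 / w ^ 2) with hPdef
  have hVR := VR_inv hw
  have hVI := VI_inv hw
  have hVIle := le_VI hwi.le
  set v := VI (1 / w) with hvdef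
  have hv : 16 / 9 * (1 / w) ≤ v := by
    have h3 : (1 / w) ^ 3 ≤ 1 / w := by
      have : (1 / w) ^ 3 = 1 / w * (1 / w) ^ 2 := by ring
      rw [this]
      have : (1 / w) ^ 2 ≤ 1 := by nlinarith
      nlinarith
    linarith
  have hX : (L ^ 2 + Real.pi ^ 2 / 3 - d) * ((L ^ 2 + Real.pi ^ 2 / 3 - d) - VR w) ≤
      VI w ^ 2 / 4 := by
    rw [hVR, hVI]
    have e1 : (L ^ 2 + Real.pi ^ 2 / 3 - d) * (L ^ 2 + Real.pi ^ 2 / 3 - d -
        (L ^ 2 + Real.pi ^ 2 / 12 - P / 2)) =
        Real.pi ^ 2 * L ^ 2 / 4 + (Real.pi ^ 4 / 12 - d * (L ^ 2 + 4)) +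
          d * (4 - 7 * Real.pi ^ 2 / 12 + d) + (L ^ 2 + Real.pi ^ 2 / 3 - d) * (P / 2) := by
      ring
    rw [e1, hdL, sub_self, add_zero]
    have e2 : d * (4 - 7 * Real.pi ^ 2 / 12 + d) ≤ 0 := by
      apply mul_nonpos_of_nonneg_of_nonpos hd0
      linarith
    have e3 : (L ^ 2 + Real.pi ^ 2 / 3 - d) * (P / 2) ≤ (L ^ 2 + 3.29) * (1 / w ^ 2 / 2) := by
      have h4 : (L ^ 2 + Real.pi ^ 2 / 3 - d) * (P / 2) ≤ (L ^ 2 + 3.29) * (P / 2) := by
        apply mul_le_mul_of_nonneg_right _ (by linarith)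
        linarith
      have h5 : (L ^ 2 + 3.29) * (P / 2) ≤ (L ^ 2 + 3.29) * (1 / w ^ 2 / 2) := by
        apply mul_le_mul_of_nonneg_left _ (by positivity)
        linarith
      linarith
    have e4 : Real.pi ^ 2 * L ^ 2 / 4 + Real.pi * L * (16 / 9 * (1 / w)) / 2 ≤
        (Real.pi * L + v) ^ 2 / 4 := by
      have h6 : Real.pi * L * (16 / 9 * (1 / w)) ≤ Real.pi * L * v :=
        mul_le_mul_of_nonneg_left hv (by positivity)
      nlinarith [sq_nonneg v]
    have e5 : (L ^ 2 + 3.29) * (1 / w ^ 2 / 2) ≤ Real.pi * L * (16 / 9 * (1 / w)) / 2 := by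
      have h7 : (L ^ 2 + 3.29) ≤ Real.pi * L * (16 / 9) * w := by
        have h8 : 5.58 ≤ Real.pi * (16 / 9) := by linarith
        have h9 : 5.58 * L ≤ Real.pi * (16 / 9) * L := by
          apply mul_le_mul_of_nonneg_right h8 (by linarith)
        have h10 : 5.58 * L * (L + 1) ≤ Real.pi * (16 / 9) * L * w := by
          apply mul_le_mul h9 hw1 (by linarith) (by positivity)
        nlinarith
      have h11 : (L ^ 2 + 3.29) * (1 / w ^ 2 / 2) ≤ (Real.pi * L * (16 / 9) * w) * (1 / w ^ 2 / 2) :=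
        mul_le_mul_of_nonneg_right h7 (by positivity)
      have h12 : (Real.pi * L * (16 / 9) * w) * (1 / w ^ 2 / 2) =
          Real.pi * L * (16 / 9 * (1 / w)) / 2 := by
        field_simp
      linarith
    linarith
  have h9 := le_U_of hw hX
  have h10 := aa_sq_sub_bb_sq hw
  rw [hVR] at h10
  linarith

/-- first hitting points -/
theorem exists_first_hit {c : ℝ} (hc : 0 < c) (hc2 : c < Real.pi / 2) :
    ∃ w : ℝ, 0 < w ∧ bb w = c ∧ ∀ v : ℝ, 0 < v → v < w → bb v < c := by
  have hcc : ∀ w : ℝ, 0 < w → c ≤ bb w → c ^ 2 ≤ w := by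
    intro w hw h
    have h1 := bb_sq_le hw
    nlinarith
  have hc2' : 0 < c ^ 2 := by positivity
  set S : Set ℝ := Set.Ici (c ^ 2) ∩ bb ⁻¹' Set.Ici c with hS
  have hcont : ContinuousOn bb (Set.Ici (c ^ 2)) :=
    continuousOn_bb.mono fun x hx => lt_of_lt_of_le hc2' hx
  have hcl : IsClosed S := hcont.preimage_isClosed_of_isClosed isClosed_Ici isClosed_Ici
  have hne : S.Nonempty := by
    set δ : ℝ := Real.pi ^ 2 / 4 - c ^ 2 with hδ
    have hδ0 : 0 < δ := by
      have : c ^ 2 < (Real.pi / 2) ^ 2 := by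
        apply pow_lt_pow_left₀ hc2 hc.le (by norm_num)
      have e : (Real.pi / 2) ^ 2 = Real.pi ^ 2 / 4 := by ring
      rw [e] at this
      linarith
    set L : ℝ := 1 + Real.pi ^ 4 / (12 * δ) with hLdef
    have hq : 0 < Real.pi ^ 4 / (12 * δ) := by positivity
    have hL1 : 1 ≤ L := by linarith
    have h1 := bb_sq_ge (Real.exp_pos L) (by rw [Real.log_exp]; linarith)
    rw [Real.log_exp] at h1
    have h2 : Real.pi ^ 4 / (12 * (L ^ 2 + 4)) ≤ δ := by
      rw [div_le_iff₀ (by positivity)]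
      have h3 : Real.pi ^ 4 / (12 * δ) ≤ L ^ 2 + 4 := by nlinarith
      rw [div_le_iff₀ (by positivity)] at h3
      linarith
    have h4 : c ^ 2 ≤ bb (Real.exp L) ^ 2 := by linarith
    have h5 : c ≤ bb (Real.exp L) := by
      exact (pow_le_pow_iff_left₀ hc.le (bb_pos (Real.exp_pos L)).le (by norm_num)).1 h4
    exact ⟨Real.exp L, hcc _ (Real.exp_pos L) h5, h5⟩
  have hbdd : BddBelow S := ⟨c ^ 2, fun x hx => hx.1⟩
  have hmem := hcl.csInf_mem hne hbdd
  set w0 := sInf S with hw0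
  have hw0pos : 0 < w0 := lt_of_lt_of_le hc2' hmem.1
  have hlt : ∀ v : ℝ, 0 < v → v < w0 → bb v < c := by
    intro v hv hv2
    by_contra hcon
    push Not at hcon
    have : v ∈ S := ⟨hcc v hv hcon, hcon⟩
    exact absurd (csInf_le hbdd this) (not_le.2 hv2)
  refine ⟨w0, hw0pos, le_antisymm ?_ hmem.2, hlt⟩
  have hca : ContinuousAt bb w0 := continuousOn_bb.continuousAt (Ioi_mem_nhds hw0pos)
  have ht : Tendsto bb (𝓝[<] w0) (𝓝 (bb w0)) := hca.tendsto.mono_left nhdsWithin_le_nhds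
  refine le_of_tendsto ht ?_
  have h1 : Set.Ioo 0 w0 ∈ 𝓝[<] w0 := Ioo_mem_nhdsLT hw0pos
  filter_upwards [h1] with v hv
  exact (hlt v hv.1 hv.2).le

/-- a bound `bb v ≥ c` gives an upper bound for the first hitting point -/
theorem first_hit_le {c w v : ℝ} (hw : ∀ v : ℝ, 0 < v → v < w → bb v < c) (hv : 0 < v)
    (hbv : c ≤ bb v) : w ≤ v := by
  by_contra h
  push Not at h
  exact absurd (hw v hv h) (not_lt.2 hbv)

end Pool.Agent.Lib.Durfee
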