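import Pool.Agent.Lib.MP_9393b1_co.SpecB

/-! # Bounds for `U = a²` and for the gap, `w ≥ 1` -/

set_option autoImplicit false

namespace Pool.Agent.Lib.Durfee

open Complex MeasureTheory Filter Topology

/-- `gapinf w = U - 2 Phi(w) + 2w/(1+w)` -/
noncomputable def gapinf (w : ℝ) : ℝ := aa w ^ 2 - 2 * Phir w + 2 * w / (1 + w)

/-! ## Elementary inequalities -/

private lemma mono_aux {f f' : ℝ → ℝ} {a b : ℝ} (hab : a ≤ b)
    (h : ∀ x, a ≤ x → HasDerivAt f (f' x) x) (h' : ∀ x, a ≤ x → 0 ≤ f' x) : f a ≤ f b := by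
  have hm : MonotoneOn f (Set.Ici a) := by
    apply monotoneOn_of_deriv_nonneg (convex_Ici a)
    · intro x hx
      exact (h x hx).continuousAt.continuousWithinAt
    · intro x hx
      rw [interior_Ici] at hx
      exact (h x (le_of_lt hx)).differentiableAt.differentiableWithinAt
    · intro x hx
      rw [interior_Ici] at hx
      rw [(h x (le_of_lt hx)).deriv]
      exact h' x (le_of_lt hx)
  exact hm (Set.mem_Ici.2 le_rfl) (Set.mem_Ici.2 hab) hab

private lemma pi_lo : (3.1415 : ℝ) < Real.pi := by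
  have := Real.pi_gt_d4; linarith

private lemma pi_hi : Real.pi < (3.1416 : ℝ) := by
  have := Real.pi_lt_d4; linarith

private lemma pisq_lo : (9.869 : ℝ) < Real.pi ^ 2 := by
  have := pi_lo; nlinarith

private lemma pisq_hi : Real.pi ^ 2 < (9.8697 : ℝ) := by
  have := pi_hi; have := Real.pi_pos; nlinarith

private lemma pi4_lo : (97.39 : ℝ) < Real.pi ^ 4 := by
  have := pisq_lo; nlinarith

private lemma pi4_hi : Real.pi ^ 4 < (97.42 : ℝ) := by
  have := pisq_hi; have := pisq_lo; nlinarith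

private lemma l2_lo : (0.6931 : ℝ) < Real.log 2 := by
  have := Real.log_two_gt_d9; linarith

private lemma l2_hi : Real.log 2 < (0.6932 : ℝ) := by
  have := Real.log_two_lt_d9; linarith

private lemma log_one_add_exp (x : ℝ) :
    Real.log (1 + Real.exp x) = x / 2 + Real.log 2 + Real.log (Real.cosh (x / 2)) := by
  have h : 1 + Real.exp x = Real.exp (x / 2) * (2 * Real.cosh (x / 2)) := by
    rw [Real.cosh_eq]
    have e1 : Real.exp (x / 2) * Real.exp (x / 2) = Real.exp x := by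
      rw [← Real.exp_add]; ring_nf
    have e2 : Real.exp (x / 2) * Real.exp (-(x / 2)) = 1 := by
      rw [← Real.exp_add]; simp
    linear_combination -e1 - e2
  rw [h, Real.log_mul (Real.exp_pos _).ne' (by positivity), Real.log_exp,
    Real.log_mul (by norm_num) (Real.cosh_pos _).ne']
  ring

private lemma log_cosh_le (y : ℝ) : Real.log (Real.cosh y) ≤ y ^ 2 / 2 := by
  have := Real.log_le_log (Real.cosh_pos y) (Real.cosh_le_exp_half_sq y)
  rwa [Real.log_exp] at this

private lemma hasDerivAt_tanh (x : ℝ) : HasDerivAt Real.tanh (1 - Real.tanh x ^ 2) x := by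
  have h : HasDerivAt (fun y => Real.sinh y / Real.cosh y)
      ((Real.cosh x * Real.cosh x - Real.sinh x * Real.sinh x) / Real.cosh x ^ 2) x :=
    (Real.hasDerivAt_sinh x).div (Real.hasDerivAt_cosh x) (Real.cosh_pos x).ne'
  have e : (Real.cosh x * Real.cosh x - Real.sinh x * Real.sinh x) / Real.cosh x ^ 2
      = 1 - Real.tanh x ^ 2 := by
    rw [Real.tanh_eq_sinh_div_cosh]
    have := (Real.cosh_pos x).ne'
    field_simp
  rw [e] at h
  have e2 : (fun y => Real.sinh y / Real.cosh y) = Real.tanh := by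
    funext y; rw [Real.tanh_eq_sinh_div_cosh]
  rwa [e2] at h

private lemma tanh_nonneg' {y : ℝ} (hy : 0 ≤ y) : 0 ≤ Real.tanh y := by
  rw [Real.tanh_eq_sinh_div_cosh]
  exact div_nonneg (Real.sinh_nonneg_iff.2 hy) (Real.cosh_pos y).le

private lemma tanh_le {y : ℝ} (hy : 0 ≤ y) : Real.tanh y ≤ y := by
  have := mono_aux (f := fun x => x - Real.tanh x) (f' := fun x => 1 - (1 - Real.tanh x ^ 2)) hy
    (fun x _ => (hasDerivAt_id x).sub (hasDerivAt_tanh x)) (fun x _ => by nlinarith [sq_nonneg (Real.tanh x)])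
  simp only [Real.tanh_zero] at this
  linarith

private lemma le_tanh {y : ℝ} (hy : 0 ≤ y) : y - y ^ 3 / 3 ≤ Real.tanh y := by
  have := mono_aux (f := fun x => Real.tanh x - (x - x ^ 3 / 3))
    (f' := fun x => (1 - Real.tanh x ^ 2) - (1 - (3 * x ^ 2) / 3)) hy
    (fun x _ => by
      refine (hasDerivAt_tanh x).sub ((hasDerivAt_id x).sub ?_)
      have := (hasDerivAt_pow 3 x).div_const 3
      simpa using this)
    (fun x hx => by
      have h1 := tanh_le hx
      have h2 := tanh_nonneg' hx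
      nlinarith)
  simp only [Real.tanh_zero] at this
  linarith

private lemma hasDerivAt_log_cosh (x : ℝ) :
    HasDerivAt (fun y => Real.log (Real.cosh y)) (Real.tanh x) x := by
  have := (Real.hasDerivAt_cosh x).log (Real.cosh_pos x).ne'
  rwa [← Real.tanh_eq_sinh_div_cosh] at this

private lemma le_log_cosh {y : ℝ} (hy : 0 ≤ y) : y ^ 2 / 2 - y ^ 4 / 12 ≤ Real.log (Real.cosh y) := by
  have := mono_aux (f := fun x => Real.log (Real.cosh x) - (x ^ 2 / 2 - x ^ 4 / 12))
    (f' := fun x => Real.tanh x - ((2 * x) / 2 - (4 * x ^ 3) / 12)) hy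
    (fun x _ => by
      refine (hasDerivAt_log_cosh x).sub (HasDerivAt.sub ?_ ?_)
      · have := (hasDerivAt_pow 2 x).div_const 2
        simpa using this
      · have := (hasDerivAt_pow 4 x).div_const 12
        simpa using this)
    (fun x hx => by
      have h1 := le_tanh hx
      linarith)
  simp only [Real.cosh_zero, Real.log_one] at this
  linarith

private lemma inv_cosh_ge (x : ℝ) : 1 - x ^ 2 / 2 ≤ 1 / Real.cosh x := by
  rw [le_div_iff₀ (Real.cosh_pos x)]
  by_cases h : 1 - x ^ 2 / 2 ≤ 0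
  · have := Real.cosh_pos x
    nlinarith
  · push Not at h
    have h1 := Real.cosh_le_exp_half_sq x
    have h2 : 1 - x ^ 2 / 2 ≤ Real.exp (-(x ^ 2 / 2)) := by
      have := Real.add_one_le_exp (-(x ^ 2 / 2))
      linarith
    calc (1 - x ^ 2 / 2) * Real.cosh x ≤ Real.exp (-(x ^ 2 / 2)) * Real.exp (x ^ 2 / 2) :=
          mul_le_mul h2 h1 (Real.cosh_pos x).le (Real.exp_pos _).le
      _ = 1 := by rw [← Real.exp_add]; simp

private lemma hasDerivAt_gd (x : ℝ) :
    HasDerivAt (fun y => 2 * Real.arctan (Real.exp y)) (1 / Real.cosh x) x := by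
  have h := ((Real.hasDerivAt_exp x).arctan).const_mul 2
  have e : 2 * (1 / (1 + Real.exp x ^ 2) * Real.exp x) = 1 / Real.cosh x := by
    rw [Real.cosh_eq, Real.exp_neg]
    have := (Real.exp_pos x).ne'
    field_simp
    ring
  rwa [e] at h

private lemma arctan_exp_ge {x : ℝ} (hx : 0 ≤ x) :
    Real.pi / 2 + x - x ^ 3 / 6 ≤ 2 * Real.arctan (Real.exp x) := by
  have := mono_aux (f := fun x => 2 * Real.arctan (Real.exp x) - (Real.pi / 2 + x - x ^ 3 / 6))
    (f' := fun x => 1 / Real.cosh x - (1 - (3 * x ^ 2) / 6)) hx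
    (fun x _ => by
      refine (hasDerivAt_gd x).sub (HasDerivAt.sub ?_ ?_)
      · exact (hasDerivAt_id x).const_add _
      · have := (hasDerivAt_pow 3 x).div_const 6
        simpa using this)
    (fun x hx => by
      have h1 := inv_cosh_ge x
      linarith)
  simp only [Real.exp_zero, Real.arctan_one] at this
  linarith

private lemma arctan_exp_le {x : ℝ} (hx : 0 ≤ x) :
    2 * Real.arctan (Real.exp x) ≤ Real.pi / 2 + x := by
  have := mono_aux (f := fun x => Real.pi / 2 + x - 2 * Real.arctan (Real.exp x))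
    (f' := fun x => 1 - 1 / Real.cosh x) hx
    (fun x _ => by
      refine HasDerivAt.sub ?_ (hasDerivAt_gd x)
      exact (hasDerivAt_id x).const_add _)
    (fun x hx => by
      have h1 := Real.one_le_cosh x
      have : 1 / Real.cosh x ≤ 1 := by
        rw [div_le_one (Real.cosh_pos x)]; exact h1
      linarith)
  simp only [Real.exp_zero, Real.arctan_one] at this
  linarith

/-! ## Taylor bounds in `x = log w ≥ 0` -/

private lemma VR_one : VR 1 = Real.pi ^ 2 / 24 := by
  rw [VR_eq_Phir one_pos, one_pow, Phir_one]; ring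

private lemma Phir_exp_le {x : ℝ} (hx : 0 ≤ x) :
    2 * Phir (Real.exp x) ≤ Real.pi ^ 2 / 6 + 2 * Real.log 2 * x + x ^ 2 / 2 + x ^ 3 / 12 := by
  have := mono_aux
    (f := fun x => Real.pi ^ 2 / 6 + 2 * Real.log 2 * x + x ^ 2 / 2 + x ^ 3 / 12
      - 2 * Phir (Real.exp x))
    (f' := fun x => 2 * Real.log 2 + (2 * x) / 2 + (3 * x ^ 2) / 12
      - 2 * Real.log (1 + Real.exp x)) hx
    (fun x _ => by
      refine HasDerivAt.sub (HasDerivAt.add (HasDerivAt.add ?_ ?_) ?_)
        ((hasDerivAt_Phir_exp x).const_mul 2)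
      · have := ((hasDerivAt_id x).const_mul (2 * Real.log 2)).const_add (Real.pi ^ 2 / 6)
        simpa using this
      · have := (hasDerivAt_pow 2 x).div_const 2
        simpa using this
      · have := (hasDerivAt_pow 3 x).div_const 12
        simpa using this)
    (fun x hx => by
      have h1 := log_one_add_exp x
      have h2 := log_cosh_le (x / 2)
      nlinarith)
  simp only [Real.exp_zero, Phir_one] at this
  linarith

private lemma VR_exp_ge {x : ℝ} (hx : 0 ≤ x) :
    Real.pi ^ 2 / 24 + Real.log 2 * x + x ^ 2 / 2 + x ^ 3 / 6 - x ^ 5 / 60 ≤ VR (Real.exp x) := by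
  have := mono_aux
    (f := fun x => VR (Real.exp x) -
      (Real.pi ^ 2 / 24 + Real.log 2 * x + x ^ 2 / 2 + x ^ 3 / 6 - x ^ 5 / 60))
    (f' := fun x => Real.log (1 + Real.exp (2 * x)) -
      (Real.log 2 + (2 * x) / 2 + (3 * x ^ 2) / 6 - (5 * x ^ 4) / 60)) hx
    (fun x _ => by
      refine HasDerivAt.sub (hasDerivAt_VR_exp x) (HasDerivAt.sub (HasDerivAt.add
        (HasDerivAt.add ?_ ?_) ?_) ?_)
      · have := ((hasDerivAt_id x).const_mul (Real.log 2)).const_add (Real.pi ^ 2 / 24)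
        simpa using this
      · have := (hasDerivAt_pow 2 x).div_const 2
        simpa using this
      · have := (hasDerivAt_pow 3 x).div_const 6
        simpa using this
      · have := (hasDerivAt_pow 5 x).div_const 60
        simpa using this)
    (fun x hx => by
      have h1 := log_one_add_exp (2 * x)
      have e : 2 * x / 2 = x := by ring
      rw [e] at h1 ⊢
      have h2 := le_log_cosh hx
      nlinarith)
  simp only [Real.exp_zero, VR_one] at this
  linarith

private lemma VR_exp_le {x : ℝ} (hx : 0 ≤ x) :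
    VR (Real.exp x) ≤ Real.pi ^ 2 / 24 + Real.log 2 * x + x ^ 2 / 2 + x ^ 3 / 6 := by
  have := mono_aux
    (f := fun x =>
      (Real.pi ^ 2 / 24 + Real.log 2 * x + x ^ 2 / 2 + x ^ 3 / 6) - VR (Real.exp x))
    (f' := fun x =>
      (Real.log 2 + (2 * x) / 2 + (3 * x ^ 2) / 6) - Real.log (1 + Real.exp (2 * x))) hx
    (fun x _ => by
      refine HasDerivAt.sub (HasDerivAt.add
        (HasDerivAt.add ?_ ?_) ?_) (hasDerivAt_VR_exp x)
      · have := ((hasDerivAt_id x).const_mul (Real.log 2)).const_add (Real.pi ^ 2 / 24)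
        simpa using this
      · have := (hasDerivAt_pow 2 x).div_const 2
        simpa using this
      · have := (hasDerivAt_pow 3 x).div_const 6
        simpa using this)
    (fun x hx => by
      have h1 := log_one_add_exp (2 * x)
      have e : 2 * x / 2 = x := by ring
      rw [e] at h1 ⊢
      have h2 := log_cosh_le x
      nlinarith)
  simp only [Real.exp_zero, VR_one] at this
  linarith

private lemma VI_exp_ge {x : ℝ} (hx : 0 ≤ x) :
    183 / 100 + Real.pi / 2 * x + x ^ 2 / 2 - x ^ 4 / 24 ≤ VI (Real.exp x) := by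
  have := mono_aux
    (f := fun x => VI (Real.exp x) -
      (183 / 100 + Real.pi / 2 * x + x ^ 2 / 2 - x ^ 4 / 24))
    (f' := fun x => 2 * Real.arctan (Real.exp x) -
      (Real.pi / 2 + (2 * x) / 2 - (4 * x ^ 3) / 24)) hx
    (fun x _ => by
      refine HasDerivAt.sub (hasDerivAt_VI_exp x) (HasDerivAt.sub (HasDerivAt.add ?_ ?_) ?_)
      · have := ((hasDerivAt_id x).const_mul (Real.pi / 2)).const_add (183 / 100)
        simpa using this
      · have := (hasDerivAt_pow 2 x).div_const 2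
        simpa using this
      · have := (hasDerivAt_pow 4 x).div_const 24
        simpa using this)
    (fun x hx => by
      have h1 := arctan_exp_ge hx
      nlinarith)
  simp only [Real.exp_zero] at this
  have h1 := VI_one_bounds.1
  linarith

private lemma VI_exp_le {x : ℝ} (hx : 0 ≤ x) :
    VI (Real.exp x) ≤ 1833 / 1000 + Real.pi / 2 * x + x ^ 2 / 2 := by
  have := mono_aux
    (f := fun x => (1833 / 1000 + Real.pi / 2 * x + x ^ 2 / 2) - VI (Real.exp x))
    (f' := fun x => (Real.pi / 2 + (2 * x) / 2) - 2 * Real.arctan (Real.exp x)) hx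
    (fun x _ => by
      refine HasDerivAt.sub (HasDerivAt.add ?_ ?_) (hasDerivAt_VI_exp x)
      · have := ((hasDerivAt_id x).const_mul (Real.pi / 2)).const_add (1833 / 1000)
        simpa using this
      · have := (hasDerivAt_pow 2 x).div_const 2
        simpa using this)
    (fun x hx => by
      have h1 := arctan_exp_le hx
      linarith)
  simp only [Real.exp_zero] at this
  have h1 := VI_one_bounds.2
  linarith

private lemma two_w_ge {x : ℝ} (hx : 0 ≤ x) :
    1 + x / 2 - x ^ 3 / 24 ≤ 2 * Real.exp x / (1 + Real.exp x) := by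
  have h1 := le_tanh (y := x / 2) (by linarith)
  have h2 : 2 * Real.exp x / (1 + Real.exp x) = 1 + Real.tanh (x / 2) := by
    rw [Real.tanh_eq_sinh_div_cosh, Real.sinh_eq, Real.cosh_eq, Real.exp_neg]
    have e1 : Real.exp x = Real.exp (x / 2) * Real.exp (x / 2) := by
      rw [← Real.exp_add]; ring_nf
    rw [e1]
    have := (Real.exp_pos (x / 2)).ne'
    have : 0 < Real.exp (x / 2) := Real.exp_pos (x / 2)
    field_simp
    ring
  rw [h2]
  nlinarith

/-! ## The statements -/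

theorem U_le_large {w : ℝ} (hw : 1 ≤ w) : aa w ^ 2 ≤ Real.log w ^ 2 + Real.pi ^ 2 / 3 := by
  have hw0 : 0 < w := by linarith
  have hL : 0 ≤ Real.log w := Real.log_nonneg hw
  have hpi := Real.pi_pos
  apply U_le_of hw0 (by positivity)
  have h1 := VR_inv hw0
  have h2 := VI_inv hw0
  have h3 : VI (1 / w) ≤ 2 * (1 / w) := VI_le (by positivity)
  have h4 : 0 < VI (1 / w) := VI_pos (by positivity)
  have h5 : 0 ≤ Phir (1 / w ^ 2) := Phir_nonneg (by positivity)
  have h6 : Real.log w ≤ w - 1 := Real.log_le_sub_one_of_pos hw0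
  have hx : 1 / w ≤ 1 := by rw [div_le_one hw0]; exact hw
  have hx0 : 0 < 1 / w := by positivity
  have h7 : Real.log w * (1 / w) ≤ 1 := by
    rw [mul_one_div, div_le_one hw0]; linarith
  rw [h1, h2]
  set L := Real.log w
  set x := 1 / w
  set v := VI x
  set q := Phir (1 / w ^ 2)
  have e1 : (Real.pi * L + v) ^ 2 / 4 ≤ (Real.pi * L + 2 * x) ^ 2 / 4 := by
    have : 0 ≤ Real.pi * L := by positivity
    nlinarith
  have e2 : (Real.pi * L + 2 * x) ^ 2 / 4 = Real.pi ^ 2 / 4 * L ^ 2 + Real.pi * (L * x) + x ^ 2 := by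
    ring
  have e3 : Real.pi * (L * x) ≤ Real.pi * 1 := mul_le_mul_of_nonneg_left h7 hpi.le
  have e4 : x ^ 2 ≤ 1 := by nlinarith
  have e5 := pi4_lo
  have e6 := pi_hi
  have e7 : (L ^ 2 + Real.pi ^ 2 / 3) * (Real.pi ^ 2 / 4) ≤
      (L ^ 2 + Real.pi ^ 2 / 3) * (L ^ 2 + Real.pi ^ 2 / 3 - (L ^ 2 + Real.pi ^ 2 / 12 - q / 2)) := by
    apply mul_le_mul_of_nonneg_left _ (by positivity)
    linarith
  have e8 : (L ^ 2 + Real.pi ^ 2 / 3) * (Real.pi ^ 2 / 4) = Real.pi ^ 2 / 4 * L ^ 2 + Real.pi ^ 4 / 12 := by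
    ring
  linarith

theorem le_U_large {w : ℝ} (hw : 0 < w) (hL : 9 / 10 ≤ Real.log w) :
    Real.log w ^ 2 + Real.pi ^ 2 / 3 - Real.pi ^ 4 / (12 * (Real.log w ^ 2 + 4)) ≤ aa w ^ 2 := by
  apply le_U_of hw
  have hpi := Real.pi_pos
  have hexp : Real.exp (Real.log w) = w := Real.exp_log hw
  have hwL : 1 + Real.log w + Real.log w ^ 2 / 2 ≤ w := by
    have := Real.quadratic_le_exp_of_nonneg (x := Real.log w) (by linarith)
    rwa [hexp] at this
  have hw1 : 1 ≤ w := by nlinarith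
  have h1 := VR_inv hw
  have h2 := VI_inv hw
  have hx0 : 0 < 1 / w := by positivity
  have hx : 1 / w ≤ 1 := by rw [div_le_one hw]; exact hw1
  have h3 : 2 * (1 / w) - 2 * (1 / w) ^ 3 / 9 ≤ VI (1 / w) := le_VI hx0.le
  have h5 : Phir (1 / w ^ 2) ≤ 1 / w ^ 2 := Phir_le (by positivity)
  have h50 : 0 ≤ Phir (1 / w ^ 2) := Phir_nonneg (by positivity)
  have hxx : 1 / w ^ 2 = (1 / w) ^ 2 := by rw [one_div_pow]
  have hwx : (1 / w) * w = 1 := by field_simp
  rw [h1, h2]
  rw [hxx] at h5 h50 ⊢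
  set L := Real.log w
  set x := 1 / w
  set v := VI x
  set q := Phir (x ^ 2)
  set d := Real.pi ^ 4 / (12 * (L ^ 2 + 4)) with hd
  have hd1 : d * (L ^ 2 + 4) = Real.pi ^ 4 / 12 := by
    rw [hd]; field_simp
  have hd0 : 0 ≤ d := by positivity
  have p2lo := pisq_lo
  have p2hi := pisq_hi
  have p4hi := pi4_hi
  have plo := pi_lo
  have phi := pi_hi
  have hd2 : d ≤ 1.7 := by
    rw [hd, div_le_iff₀ (by positivity)]
    nlinarith
  have hv : 16 / 9 * x ≤ v := by
    have : x ^ 3 ≤ x := by nlinarith [mul_nonneg hx0.le (sub_nonneg.2 hx)]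
    linarith
  -- first product
  have hX0 : 0 ≤ L ^ 2 + Real.pi ^ 2 / 3 - d := by nlinarith
  have f1 : (L ^ 2 + Real.pi ^ 2 / 3 - d) * (Real.pi ^ 2 / 4 - d) ≤ Real.pi ^ 2 / 4 * L ^ 2 := by
    have : (L ^ 2 + Real.pi ^ 2 / 3 - d) * (Real.pi ^ 2 / 4 - d)
        = Real.pi ^ 2 / 4 * L ^ 2 + (Real.pi ^ 4 / 12 - d * (L ^ 2 + 4))
          - d * (7 * Real.pi ^ 2 / 12 - 4 - d) := by ring
    rw [this, hd1]
    have : 0 ≤ d * (7 * Real.pi ^ 2 / 12 - 4 - d) := mul_nonneg hd0 (by linarith)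
    linarith
  have f2 : (L ^ 2 + Real.pi ^ 2 / 3 - d) * (q / 2) ≤ (L ^ 2 + Real.pi ^ 2 / 3) * (x ^ 2 / 2) := by
    apply mul_le_mul _ _ (by linarith) (by positivity)
    · linarith
    · linarith
  have f3 : (L ^ 2 + Real.pi ^ 2 / 3) * (x ^ 2 / 2) ≤ (4 * w) * (x ^ 2 / 2) := by
    apply mul_le_mul_of_nonneg_right _ (by positivity)
    nlinarith
  have f4 : (4 * w) * (x ^ 2 / 2) = 2 * x := by
    have : (4 * w) * (x ^ 2 / 2) = 2 * x * (x * w) := by ring
    rw [this, hwx, mul_one]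
  have f5 : (Real.pi * L + v) ^ 2 / 4 ≥ Real.pi ^ 2 / 4 * L ^ 2 + Real.pi * L / 2 * v := by
    nlinarith [sq_nonneg v]
  have f6 : Real.pi * L / 2 * v ≥ 2 * x := by
    have g1 : (3.1415 : ℝ) * (9 / 10) / 2 ≤ Real.pi * L / 2 := by
      have := mul_le_mul plo.le hL (by norm_num) hpi.le
      linarith
    have g2 : (3.1415 : ℝ) * (9 / 10) / 2 * (16 / 9 * x) ≤ Real.pi * L / 2 * v :=
      mul_le_mul g1 hv (by positivity) (by linarith)
    nlinarith
  have e : (L ^ 2 + Real.pi ^ 2 / 3 - d) * (L ^ 2 + Real.pi ^ 2 / 3 - d -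
      (L ^ 2 + Real.pi ^ 2 / 12 - q / 2)) = (L ^ 2 + Real.pi ^ 2 / 3 - d) * (Real.pi ^ 2 / 4 - d)
      + (L ^ 2 + Real.pi ^ 2 / 3 - d) * (q / 2) := by ring
  rw [e]
  linarith

private lemma poly_pos {x : ℝ} (h0 : 0 ≤ x) (h1 : x ≤ 17 / 10) :
    (22499 / 20000 + 2841 / 2500 * x + x ^ 2 / 2 + x ^ 3 / 8) *
      (57097 / 80000 + 277 / 625 * x - x ^ 3 / 24 + x ^ 5 / 60) ≤
    (183 / 200 + 6283 / 8000 * x + x ^ 2 / 4 - x ^ 4 / 48) ^ 2 := by
  have hy : 0 ≤ 17 / 10 - x := by linarith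
  have e : (183 / 200 + 6283 / 8000 * x + x ^ 2 / 4 - x ^ 4 / 48) ^ 2 -
      (22499 / 20000 + 2841 / 2500 * x + x ^ 2 / 2 + x ^ 3 / 8) *
      (57097 / 80000 + 277 / 625 * x - x ^ 3 / 24 + x ^ 5 / 60) =
      (54934597 / 111612119056) * (x ^ 0 * (17 / 10 - x) ^ 8) + (196634151 / 27903029764) * (x ^ 1 * (17 / 10 - x) ^ 7) + (495622257473 / 11161211905600) * (x ^ 2 * (17 / 10 - x) ^ 6) + (1298134015291 / 8370908929200) * (x ^ 3 * (17 / 10 - x) ^ 5) + (2166026716027 / 6696727143360) * (x ^ 4 * (17 / 10 - x) ^ 4) + (4529318752011 / 11161211905600) * (x ^ 5 * (17 / 10 - x) ^ 3) + (1002018011797 / 3487878720500) * (x ^ 6 * (17 / 10 - x) ^ 2) + (15349562014187 / 167418178584000) * (x ^ 7 * (17 / 10 - x) ^ 1) + (4697238595277 / 2009018143008000) * (x ^ 8 * (17 / 10 - x) ^ 0) := by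
    ring
  have : 0 ≤ (183 / 200 + 6283 / 8000 * x + x ^ 2 / 4 - x ^ 4 / 48) ^ 2 -
      (22499 / 20000 + 2841 / 2500 * x + x ^ 2 / 2 + x ^ 3 / 8) *
      (57097 / 80000 + 277 / 625 * x - x ^ 3 / 24 + x ^ 5 / 60) := by
    rw [e]; positivity
  linarith

/-- gap, `0 ≤ L ≤ 1.7` -/
theorem gapinf_ge_small {w : ℝ} (hw : 1 ≤ w) (hL : Real.log w ≤ 17 / 10) :
    48 / 100 + Real.log w / 4 ≤ gapinf w := by
  have hw0 : 0 < w := by linarith
  have hL0 : 0 ≤ Real.log w := Real.log_nonneg hw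
  have hexp : Real.exp (Real.log w) = w := Real.exp_log hw0
  have a1 := Phir_exp_le hL0
  have a2 := VR_exp_ge hL0
  have a3 := VI_exp_ge hL0
  have a4 := two_w_ge hL0
  rw [hexp] at a1 a2 a3 a4
  have a5 : Real.pi ^ 2 / 12 ≤ Phir w := by
    rw [← Phir_one]; exact Phir_mono zero_le_one hw
  have a6 : 2 * w / (1 + w) ≤ 2 := by
    rw [div_le_iff₀ (by linarith)]; linarith
  have p2lo := pisq_lo
  have p2hi := pisq_hi
  have plo := pi_lo
  have llo := l2_lo
  have lhi := l2_hi
  have hpoly := poly_pos hL0 hL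
  set L := Real.log w
  have key : 2 * Phir w - 2 * w / (1 + w) + 48 / 100 + L / 4 ≤ aa w ^ 2 := by
    apply le_U_of hw0
    set X := 2 * Phir w - 2 * w / (1 + w) + 48 / 100 + L / 4
    have hX0 : 0 ≤ X := by
      have : (9.869 : ℝ) / 6 - 2 + 48 / 100 ≥ 0 := by norm_num
      have : X ≥ Real.pi ^ 2 / 6 - 2 + 48 / 100 := by
        simp only [X]; linarith
      linarith
    have hXA : X ≤ 22499 / 20000 + 2841 / 2500 * L + L ^ 2 / 2 + L ^ 3 / 8 := by
      have e1 : 2 * Real.log 2 * L ≤ 2 * 0.6932 * L := by nlinarith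
      simp only [X]
      linarith
    have hXB : X - VR w ≤ 57097 / 80000 + 277 / 625 * L - L ^ 3 / 24 + L ^ 5 / 60 := by
      have e1 : Real.log 2 * L ≤ 0.6932 * L := by nlinarith
      simp only [X]
      linarith
    have hC0 : 0 ≤ 183 / 200 + 6283 / 8000 * L + L ^ 2 / 4 - L ^ 4 / 48 := by
      have : L ^ 4 ≤ 3 * L ^ 2 := by
        have : L ^ 2 ≤ 3 := by nlinarith
        nlinarith [sq_nonneg L]
      nlinarith [sq_nonneg L]
    have hC : 183 / 200 + 6283 / 8000 * L + L ^ 2 / 4 - L ^ 4 / 48 ≤ VI w / 2 := by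
      have e1 : 3.1415 / 2 * L ≤ Real.pi / 2 * L := by nlinarith
      linarith
    by_cases hneg : X - VR w ≤ 0
    · have : X * (X - VR w) ≤ 0 := mul_nonpos_of_nonneg_of_nonpos hX0 hneg
      have : 0 ≤ VI w ^ 2 / 4 := by positivity
      linarith
    · push Not at hneg
      calc X * (X - VR w) ≤ (22499 / 20000 + 2841 / 2500 * L + L ^ 2 / 2 + L ^ 3 / 8) *
          (57097 / 80000 + 277 / 625 * L - L ^ 3 / 24 + L ^ 5 / 60) :=
            mul_le_mul hXA hXB hneg.le (le_trans hX0 hXA)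
        _ ≤ (183 / 200 + 6283 / 8000 * L + L ^ 2 / 4 - L ^ 4 / 48) ^ 2 := hpoly
        _ ≤ (VI w / 2) ^ 2 := by
            apply pow_le_pow_left₀ hC0 hC
        _ = VI w ^ 2 / 4 := by ring
  unfold gapinf
  linarith

/-- gap, `L ≥ 0.9` -/
theorem gapinf_ge_large {w : ℝ} (hw : 0 < w) (hL : 9 / 10 ≤ Real.log w) :
    2 - Real.pi ^ 4 / (12 * (Real.log w ^ 2 + 4)) ≤ gapinf w := by
  have h1 := le_U_large hw hL
  have h2 := Phir_inv hw
  have hw1 : 1 ≤ w := by
    by_contra h
    push Not at h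
    have := Real.log_neg hw h
    linarith
  have hx0 : 0 < 1 / w := by positivity
  have hx : 1 / w ≤ 1 := by rw [div_le_one hw]; exact hw1
  have h3 := le_Phir hx0.le
  have h4 : 2 * w / (1 + w) = 2 / (1 + 1 / w) := by field_simp; ring
  unfold gapinf
  rw [h2, h4]
  set x := 1 / w
  have h5 : 2 - 2 * x + x ^ 2 / 2 ≤ 2 / (1 + x) := by
    rw [le_div_iff₀ (by linarith)]
    nlinarith [mul_nonneg hx0.le hx0.le, mul_nonneg (mul_nonneg hx0.le hx0.le) (sub_nonneg.2 hx)]
  linarith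

theorem aa_le_of_small {w : ℝ} (hw : 1 ≤ w) (hL : Real.log w ≤ 3 / 10) : aa w ≤ 14 / 10 := by
  have hw0 : 0 < w := by linarith
  have hL0 : 0 ≤ Real.log w := Real.log_nonneg hw
  have hexp : Real.exp (Real.log w) = w := Real.exp_log hw0
  have a2 := VR_exp_le hL0
  have a3 := VI_exp_le hL0
  rw [hexp] at a2 a3
  have p2hi := pisq_hi
  have phi := pi_hi
  have lhi := l2_hi
  have llo := l2_lo
  have plo := pi_lo
  set L := Real.log w
  have hVI0 := VI_pos hw0
  have b1 : VR w ≤ 0.669 := by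
    have e1 : Real.log 2 * L ≤ 0.6932 * (3 / 10) :=
      mul_le_mul lhi.le hL hL0 (by norm_num)
    have e2 : L ^ 2 ≤ (3 / 10) ^ 2 := pow_le_pow_left₀ hL0 hL 2
    have e3 : L ^ 3 ≤ (3 / 10) ^ 3 := pow_le_pow_left₀ hL0 hL 3
    linarith
  have b2 : VI w ≤ 2.35 := by
    have e1 : Real.pi / 2 * L ≤ 3.1416 / 2 * (3 / 10) :=
      mul_le_mul (by linarith) hL hL0 (by norm_num)
    have e2 : L ^ 2 ≤ (3 / 10) ^ 2 := pow_le_pow_left₀ hL0 hL 2
    linarith
  have key : aa w ^ 2 ≤ 1.96 := by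
    apply U_le_of hw0 (by norm_num)
    have : VI w ^ 2 ≤ 2.35 ^ 2 := pow_le_pow_left₀ hVI0.le b2 2
    linarith
  have : 0 < aa w := aa_pos hw0
  nlinarith

private lemma VI_ge_one {w : ℝ} (hw : 1 ≤ w) : 183 / 100 ≤ VI w := by
  have hw0 : 0 < w := by linarith
  have hL0 : 0 ≤ Real.log w := Real.log_nonneg hw
  have hexp : Real.exp (Real.log w) = w := Real.exp_log hw0
  have := mono_aux (f := fun x => VI (Real.exp x)) (f' := fun x => 2 * Real.arctan (Real.exp x)) hL0
    (fun x _ => hasDerivAt_VI_exp x)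
    (fun x _ => by
      have : 0 ≤ Real.arctan (Real.exp x) := Real.arctan_nonneg.2 (Real.exp_pos x).le
      linarith)
  simp only [Real.exp_zero, hexp] at this
  have h1 := VI_one_bounds.1
  linarith

private lemma VR_ge_one {w : ℝ} (hw : 1 ≤ w) : Real.pi ^ 2 / 24 ≤ VR w := by
  have hw0 : 0 < w := by linarith
  rw [VR_eq_Phir hw0]
  have : Phir 1 ≤ Phir (w ^ 2) := Phir_mono zero_le_one (by nlinarith)
  rw [Phir_one] at this
  linarith

theorem aa_ge_one {w : ℝ} (hw : 1 ≤ w) : 106 / 100 ≤ aa w := by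
  have hw0 : 0 < w := by linarith
  have h1 := VI_ge_one hw
  have h2 := VR_ge_one hw
  have p2lo := pisq_lo
  have key : (1.1236 : ℝ) ≤ aa w ^ 2 := by
    apply le_U_of hw0
    have : (183 / 100 : ℝ) ^ 2 ≤ VI w ^ 2 := pow_le_pow_left₀ (by norm_num) h1 2
    have h3 : (1.1236 : ℝ) * (1.1236 - VR w) ≤ 1.1236 * (1.1236 - 0.411) := by
      apply mul_le_mul_of_nonneg_left _ (by norm_num)
      linarith
    linarith
  have : 0 < aa w := aa_pos hw0
  nlinarith

theorem log_le_aa {w : ℝ} (hw : 1 ≤ w) : Real.log w ≤ aa w := by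
  have hw0 : 0 < w := by linarith
  have hL0 : 0 ≤ Real.log w := Real.log_nonneg hw
  have key : Real.log w ^ 2 ≤ aa w ^ 2 := by
    apply le_U_of hw0
    have h1 := VR_inv hw0
    have h2 : Phir (1 / w ^ 2) ≤ 1 / w ^ 2 := Phir_le (by positivity)
    have h3 : 1 / w ^ 2 ≤ 1 := by
      rw [div_le_one (by positivity)]; nlinarith
    have p2lo := pisq_lo
    have h4 : Real.log w ^ 2 - VR w ≤ 0 := by linarith
    have h5 : Real.log w ^ 2 * (Real.log w ^ 2 - VR w) ≤ 0 :=
      mul_nonpos_of_nonneg_of_nonpos (by positivity) h4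
    have h6 : 0 ≤ VI w ^ 2 / 4 := by positivity
    linarith
  exact le_of_sq_le_sq key (aa_pos hw0).le

theorem ratio_zero {w : ℝ} (hw : 1 ≤ w) : 22 / 100 * VI w ≤ VR w := by
  have hw0 : 0 < w := by linarith
  have hL0 : 0 ≤ Real.log w := Real.log_nonneg hw
  have hexp : Real.exp (Real.log w) = w := Real.exp_log hw0
  have := mono_aux (f := fun x => VR (Real.exp x) - 22 / 100 * VI (Real.exp x))
    (f' := fun x => Real.log (1 + Real.exp (2 * x)) - 22 / 100 * (2 * Real.arctan (Real.exp x))) hL0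
    (fun x _ => (hasDerivAt_VR_exp x).sub ((hasDerivAt_VI_exp x).const_mul _))
    (fun x hx => by
      have h1 : Real.log 2 ≤ Real.log (1 + Real.exp (2 * x)) := by
        apply Real.log_le_log (by norm_num)
        have := Real.add_one_le_exp (2 * x)
        linarith
      have h2 := (Real.arctan_lt_pi_div_two (Real.exp x)).le
      have llo := l2_lo
      have phi := pi_hi
      linarith)
  simp only [Real.exp_zero, hexp, VR_one] at this
  have h1 := VI_one_bounds.2
  have p2lo := pisq_lo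
  linarith

theorem ratio_one {w : ℝ} (hw : 0 < w) (hL : 1 ≤ Real.log w) : 44 / 100 * VI w ≤ VR w := by
  have hexp : Real.exp (Real.log w) = w := Real.exp_log hw
  have := mono_aux (f := fun x => VR (Real.exp x) - 44 / 100 * VI (Real.exp x))
    (f' := fun x => Real.log (1 + Real.exp (2 * x)) - 44 / 100 * (2 * Real.arctan (Real.exp x))) hL
    (fun x _ => (hasDerivAt_VR_exp x).sub ((hasDerivAt_VI_exp x).const_mul _))
    (fun x hx => by
      have h1 : 2 * x ≤ Real.log (1 + Real.exp (2 * x)) := by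
        rw [Real.le_log_iff_exp_le (by positivity)]
        linarith
      have h2 := (Real.arctan_lt_pi_div_two (Real.exp x)).le
      have phi := pi_hi
      linarith)
  simp only [hexp] at this
  have a1 := VR_exp_ge (x := 1) zero_le_one
  have a2 := VI_exp_le (x := 1) zero_le_one
  have p2lo := pisq_lo
  have phi := pi_hi
  have llo := l2_lo
  norm_num at a1 a2
  linarith

private lemma exp_seven : (7 : ℝ) ≤ Real.exp 2 := by
  have h := Real.exp_one_gt_d9
  have : Real.exp 2 = Real.exp 1 * Real.exp 1 := by rw [← Real.exp_add]; norm_num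
  rw [this]; nlinarith

theorem ratio_two {w : ℝ} (hw : 0 < w) (hL : 2 ≤ Real.log w) : 73 / 100 * VI w ≤ VR w := by
  have hexp : Real.exp (Real.log w) = w := Real.exp_log hw
  have hw7 : 7 ≤ w := by
    rw [← hexp]
    exact le_trans exp_seven (Real.exp_le_exp.2 hL)
  have h1 := VR_inv hw
  have h2 := VI_inv hw
  have hx0 : 0 < 1 / w := by positivity
  have hx : 1 / w ≤ 1 / 7 := one_div_le_one_div_of_le (by norm_num) hw7
  have h3 := VI_le hx0.le
  have h5 : Phir (1 / w ^ 2) ≤ 1 / w ^ 2 := Phir_le (by positivity)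
  have hxx : 1 / w ^ 2 = (1 / w) ^ 2 := by rw [one_div_pow]
  rw [hxx] at h5 h1
  have h6 : (1 / w) ^ 2 ≤ (1 / 7) ^ 2 := pow_le_pow_left₀ hx0.le hx 2
  have p2lo := pisq_lo
  have phi := pi_hi
  set L := Real.log w
  have h7 : Real.pi * L ≤ 3.1416 * L := by nlinarith
  have h8 : 0 ≤ (L - 2) * (L - 0.2) := mul_nonneg (by linarith) (by linarith)
  nlinarith

theorem ratio_three {w : ℝ} (hw : 0 < w) (hL : 3 ≤ Real.log w) : VI w ≤ VR w := by
  have hexp : Real.exp (Real.log w) = w := Real.exp_log hw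
  have hw7 : 16 ≤ w := by
    rw [← hexp]
    have h := Real.exp_one_gt_d9
    have e1 : Real.exp 3 = Real.exp 1 * Real.exp 1 * Real.exp 1 := by
      rw [← Real.exp_add, ← Real.exp_add]; norm_num
    have e2 : (16 : ℝ) ≤ Real.exp 3 := by
      rw [e1]
      have : (7 : ℝ) ≤ Real.exp 1 * Real.exp 1 := by nlinarith
      nlinarith
    exact le_trans e2 (Real.exp_le_exp.2 hL)
  have h1 := VR_inv hw
  have h2 := VI_inv hw
  have hx0 : 0 < 1 / w := by positivity
  have hx : 1 / w ≤ 1 / 16 := one_div_le_one_div_of_le (by norm_num) hw7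
  have h3 := VI_le hx0.le
  have h5 : Phir (1 / w ^ 2) ≤ 1 / w ^ 2 := Phir_le (by positivity)
  have hxx : 1 / w ^ 2 = (1 / w) ^ 2 := by rw [one_div_pow]
  rw [hxx] at h5 h1
  have h6 : (1 / w) ^ 2 ≤ (1 / 16) ^ 2 := pow_le_pow_left₀ hx0.le hx 2
  have p2lo := pisq_lo
  have phi := pi_hi
  set L := Real.log w
  have h7 : Real.pi * L ≤ 3.1416 * L := by nlinarith
  have h8 : 0 ≤ (L - 3) * (L - 0.1) := mul_nonneg (by linarith) (by linarith)
  nlinarith

end Pool.Agent.Lib.Durfee
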