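import Pool.Agent.Lib.MP_9393b1_co.SpecC
import Pool.Agent.Lib.MP_9393b1_co.HypM

/-! # Regime S (`w ≤ 1`): special functions -/

set_option autoImplicit false

namespace Pool.Agent.Lib.Durfee

open Complex MeasureTheory Filter Topology

private lemma sps_log_le_five {z : ℝ} (hz : 0 ≤ z) :
    Real.log (1 + z) ≤ z - z ^ 2 / 2 + z ^ 3 / 3 - z ^ 4 / 4 + z ^ 5 / 5 := by
  let f : ℝ → ℝ := fun z => z - z ^ 2 / 2 + z ^ 3 / 3 - z ^ 4 / 4 + z ^ 5 / 5 - Real.log (1 + z)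
  have hd : ∀ x : ℝ, 0 ≤ x → HasDerivAt f (x ^ 5 / (1 + x)) x := by
    intro x hx
    have hx1 : (1 + x) ≠ 0 := by linarith
    have h1 : HasDerivAt (fun z : ℝ => z) 1 x := hasDerivAt_id x
    have h2 : HasDerivAt (fun z : ℝ => z ^ 2 / 2) (2 * x / 2) x := by
      simpa using (hasDerivAt_pow 2 x).div_const 2
    have h3 : HasDerivAt (fun z : ℝ => z ^ 3 / 3) (3 * x ^ 2 / 3) x := by
      simpa using (hasDerivAt_pow 3 x).div_const 3
    have h4 : HasDerivAt (fun z : ℝ => z ^ 4 / 4) (4 * x ^ 3 / 4) x := by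
      simpa using (hasDerivAt_pow 4 x).div_const 4
    have h5 : HasDerivAt (fun z : ℝ => z ^ 5 / 5) (5 * x ^ 4 / 5) x := by
      simpa using (hasDerivAt_pow 5 x).div_const 5
    have h6 : HasDerivAt (fun z : ℝ => Real.log (1 + z)) (1 / (1 + x)) x :=
      ((hasDerivAt_id x).const_add 1).log hx1
    have h := ((((h1.sub h2).add h3).sub h4).add h5).sub h6
    have e : x ^ 5 / (1 + x) = 1 - 2 * x / 2 + 3 * x ^ 2 / 3 - 4 * x ^ 3 / 4 + 5 * x ^ 4 / 5 -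
        1 / (1 + x) := by
      field_simp
      ring
    rw [e]
    exact h
  have hmono : MonotoneOn f (Set.Ici 0) := by
    refine monotoneOn_of_deriv_nonneg (convex_Ici 0)
      (fun x hx => (hd x hx).continuousAt.continuousWithinAt)
      (fun x hx => ?_) ?_
    · rw [interior_Ici] at hx
      exact (hd x (le_of_lt hx)).differentiableAt.differentiableWithinAt
    · intro x hx
      rw [interior_Ici] at hx
      have hx0 : 0 < x := hx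
      rw [(hd x hx0.le).deriv]
      positivity
  have h0 := hmono (Set.mem_Ici.2 le_rfl) (Set.mem_Ici.2 hz) hz
  have h1 : f 0 = 0 := by simp [f]
  rw [h1] at h0
  simp only [f] at h0
  linarith

theorem Phir_le_five {y : ℝ} (hy : 0 ≤ y) :
    Phir y ≤ y - y ^ 2 / 4 + y ^ 3 / 9 - y ^ 4 / 16 + y ^ 5 / 25 := by
  have hint : ∀ m : ℕ, IntegrableOn (fun u : ℝ => (-1 : ℝ) ^ m * y ^ (m + 1) / ((m : ℝ) + 1) *
      Real.exp (-((m : ℝ) + 1) * u)) (Set.Ioi 0) := fun m =>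
    (spa_intOn_exp (by positivity)).const_mul _
  have hval : ∫ u in Set.Ioi (0 : ℝ), ∑ m ∈ Finset.range 5, (-1 : ℝ) ^ m * y ^ (m + 1) /
      ((m : ℝ) + 1) * Real.exp (-((m : ℝ) + 1) * u) =
      y - y ^ 2 / 4 + y ^ 3 / 9 - y ^ 4 / 16 + y ^ 5 / 25 := by
    rw [integral_finsetSum _ fun m _ => hint m]
    have h1 : ∀ m : ℕ, ∫ u in Set.Ioi (0 : ℝ), (-1 : ℝ) ^ m * y ^ (m + 1) / ((m : ℝ) + 1) *
        Real.exp (-((m : ℝ) + 1) * u) =
        (-1 : ℝ) ^ m * y ^ (m + 1) / ((m : ℝ) + 1) * (1 / ((m : ℝ) + 1)) := by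
      intro m
      rw [integral_const_mul, spa_int_exp (by positivity)]
    simp only [h1, Finset.sum_range_succ, Finset.sum_range_zero]
    norm_num
    ring
  rw [← hval]
  unfold Phir
  refine integral_mono (spa_intOn_log hy) (integrable_finsetSum _ fun m _ => hint m) fun u => ?_
  have h := sps_log_le_five (z := y * Real.exp (-u)) (by positivity)
  have e : ∀ m : ℕ, (y * Real.exp (-u)) ^ (m + 1) = y ^ (m + 1) * Real.exp (-((m : ℝ) + 1) * u) := by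
    intro m
    rw [mul_pow, ← Real.exp_nat_mul]
    congr 2
    push_cast
    ring
  refine h.trans (le_of_eq ?_)
  have e1 := e 0
  have e2 := e 1
  have e3 := e 2
  have e4 := e 3
  have e5 := e 4
  simp only [Finset.sum_range_succ, Finset.sum_range_zero]
  norm_num at e1 e2 e3 e4 e5 ⊢
  rw [e2, e3, e4, e5]
  ring

private lemma sps_VR_le {w : ℝ} (hw : 0 < w) : VR w ≤ w ^ 2 / 2 := by
  rw [VR_eq_Phir hw]
  have := Phir_le (y := w ^ 2) (by positivity)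
  linarith

private lemma sps_le_VR {w : ℝ} (hw : 0 < w) : w ^ 2 / 2 - w ^ 4 / 8 ≤ VR w := by
  rw [VR_eq_Phir hw]
  have := le_Phir (y := w ^ 2) (by positivity)
  have e : (w ^ 2) ^ 2 = w ^ 4 := by ring
  rw [e] at this
  linarith

theorem aa_sq_ge_small {w : ℝ} (hw : 0 < w) (hw1 : w ≤ 1) :
    w + w ^ 2 / 4 - w ^ 3 / 9 - w ^ 4 / 16 ≤ aa w ^ 2 := by
  have hVI := le_VI hw.le
  have hVR := sps_le_VR hw
  have hw2 : w ^ 2 ≤ 1 := by nlinarith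
  have hw3 : w ^ 3 ≤ w := by
    calc w ^ 3 = w * w ^ 2 := by ring
      _ ≤ w * 1 := mul_le_mul_of_nonneg_left hw2 hw.le
      _ = w := mul_one w
  have hw4 : w ^ 4 ≤ w ^ 2 := by
    calc w ^ 4 = w ^ 2 * w ^ 2 := by ring
      _ ≤ w ^ 2 * 1 := mul_le_mul_of_nonneg_left hw2 (by positivity)
      _ = w ^ 2 := mul_one _
  set v : ℝ := 2 * w - 2 * w ^ 3 / 9 with hv
  set r : ℝ := w ^ 2 / 2 - w ^ 4 / 8 with hr
  have hv0 : 0 ≤ v := by rw [hv]; linarith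
  have hr0 : 0 ≤ r := by rw [hr]; nlinarith [sq_nonneg w]
  have hX : w + w ^ 2 / 4 - w ^ 3 / 9 - w ^ 4 / 16 = (v + r) / 2 := by rw [hv, hr]; ring
  rw [hX]
  refine le_U_of hw ?_
  have hX0 : 0 ≤ (v + r) / 2 := by linarith
  calc (v + r) / 2 * ((v + r) / 2 - VR w) ≤ (v + r) / 2 * ((v + r) / 2 - r) :=
        mul_le_mul_of_nonneg_left (by linarith) hX0
    _ = v ^ 2 / 4 - r ^ 2 / 4 := by ring
    _ ≤ v ^ 2 / 4 := by nlinarith [sq_nonneg r]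
    _ ≤ VI w ^ 2 / 4 := by
        have := pow_le_pow_left₀ hv0 hVI 2
        linarith

theorem le_aa_sq {w : ℝ} (hw : 0 < w) (hw1 : w ≤ 1) : w ≤ aa w ^ 2 := by
  have h := aa_sq_ge_small hw hw1
  have hw2 : w ^ 3 ≤ w ^ 2 := by
    calc w ^ 3 = w ^ 2 * w := by ring
      _ ≤ w ^ 2 * 1 := mul_le_mul_of_nonneg_left hw1 (by positivity)
      _ = w ^ 2 := mul_one _
  have hw4 : w ^ 4 ≤ w ^ 3 := by
    calc w ^ 4 = w ^ 3 * w := by ring
      _ ≤ w ^ 3 * 1 := mul_le_mul_of_nonneg_left hw1 (by positivity)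
      _ = w ^ 3 := mul_one _
  have : 0 ≤ w ^ 2 := by positivity
  linarith

theorem aa_sq_le_small {w : ℝ} (hw : 0 < w) (hw1 : w ≤ 1) : aa w ^ 2 ≤ w * (1 + 9 / 32 * w) := by
  have hVI := VI_le hw.le
  have hVR := sps_VR_le hw
  have hVI0 := (VI_pos hw).le
  refine U_le_of hw (by positivity) ?_
  have h1 : VI w ^ 2 / 4 ≤ w ^ 2 := by
    have := pow_le_pow_left₀ hVI0 hVI 2
    nlinarith
  have h2 : w * (1 - 7 / 32 * w) ≤ w * (1 + 9 / 32 * w) - VR w := by nlinarith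
  calc VI w ^ 2 / 4 ≤ w ^ 2 := h1
    _ ≤ w * (1 + 9 / 32 * w) * (w * (1 - 7 / 32 * w)) := by
        have h3 : w * (1 + 9 / 32 * w) * (w * (1 - 7 / 32 * w)) - w ^ 2 =
            w ^ 3 * (64 - 63 * w) / 1024 := by ring
        have h4 : 0 ≤ w ^ 3 * (64 - 63 * w) / 1024 := by
          have : 0 ≤ 64 - 63 * w := by linarith
          positivity
        linarith
    _ ≤ w * (1 + 9 / 32 * w) * (w * (1 + 9 / 32 * w) - VR w) :=
        mul_le_mul_of_nonneg_left h2 (by positivity)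

theorem ts_ge_small {w : ℝ} (hw : 0 < w) (hw1 : w ≤ 1) : 1 - 9 / 32 * w ≤ ts w := by
  have ha := aa_pos hw
  have hb := bb_pos hw
  unfold ts
  rw [le_div_iff₀ ha]
  have hc : 0 ≤ 1 - 9 / 32 * w := by linarith
  refine le_of_sq_le_sq ?_ hb.le
  have h1 := aa_sq_sub_bb_sq hw
  have h2 := aa_sq_ge_small hw hw1
  have h3 := sps_VR_le hw
  have hw2 : w ^ 2 ≤ w := by nlinarith
  have hw3 : w ^ 3 ≤ w := by
    calc w ^ 3 = w * w ^ 2 := by ring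
      _ ≤ w * 1 := mul_le_mul_of_nonneg_left (by linarith) hw.le
      _ = w := mul_one w
  have hd : 0 ≤ 9 / 16 * w - 81 / 1024 * w ^ 2 := by nlinarith
  have h4 : w ^ 2 / 2 ≤
      (w + w ^ 2 / 4 - w ^ 3 / 9 - w ^ 4 / 16) * (9 / 16 * w - 81 / 1024 * w ^ 2) := by
    have h5 : (w + w ^ 2 / 4 - w ^ 3 / 9 - w ^ 4 / 16) * (9 / 16 * w - 81 / 1024 * w ^ 2) -
        w ^ 2 / 2 = w ^ 2 * (1 / 16 + (9 / 64 - 81 / 1024) * w - (81 / 4096 + 1 / 16) * w ^ 2 -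
          (9 / 256 - 9 / 1024) * w ^ 3 + 81 / 16384 * w ^ 4) := by ring
    have h6 : 0 ≤ 1 / 16 + (9 / 64 - 81 / 1024) * w - (81 / 4096 + 1 / 16) * w ^ 2 -
          (9 / 256 - 9 / 1024) * w ^ 3 + 81 / 16384 * w ^ 4 := by
      have h7 : 0 ≤ w ^ 4 := by positivity
      linarith
    have h8 : 0 ≤ w ^ 2 * (1 / 16 + (9 / 64 - 81 / 1024) * w - (81 / 4096 + 1 / 16) * w ^ 2 -
          (9 / 256 - 9 / 1024) * w ^ 3 + 81 / 16384 * w ^ 4) := mul_nonneg (by positivity) h6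
    linarith
  have h9 := mul_le_mul_of_nonneg_right h2 hd
  have h10 : ((1 - 9 / 32 * w) * aa w) ^ 2 =
      aa w ^ 2 - aa w ^ 2 * (9 / 16 * w - 81 / 1024 * w ^ 2) := by ring
  rw [h10]
  linarith

theorem ts_lt_one {w : ℝ} (hw : 0 < w) : ts w < 1 := by
  unfold ts
  rw [div_lt_one (aa_pos hw)]
  exact bb_lt_aa hw

private lemma sps_norm_VV {w : ℝ} (hw : 0 < w) : ‖VV w‖ = spaM w := by
  rw [norm_VV hw, spa_aa_sq hw, spa_bb_sq hw]
  ring

private lemma sps_VI_le_norm {w : ℝ} (hw : 0 < w) : VI w ≤ ‖VV w‖ := by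
  rw [sps_norm_VV hw]
  refine le_of_sq_le_sq ?_ (spaM_nonneg w)
  rw [spaM_sq]
  nlinarith [sq_nonneg (VR w)]

theorem norm_gam_le_VV {w : ℝ} (hw : 0 < w) (hw1 : w ≤ 1) : ‖gam w‖ ≤ ‖VV w‖ := by
  refine le_trans ?_ (sps_VI_le_norm hw)
  refine le_trans ?_ (le_VI hw.le)
  rw [norm_gam w hw]
  have hs : 0 < Real.sqrt (1 + w ^ 2) := Real.sqrt_pos.2 (by positivity)
  rw [div_le_iff₀ hs]
  have hw2 : w ^ 2 ≤ 1 := by nlinarith
  have h1 : 1 ≤ (1 - w ^ 2 / 9) * Real.sqrt (1 + w ^ 2) := by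
    have h2 : 0 ≤ (1 - w ^ 2 / 9) := by linarith
    have h3 : 1 / (1 - w ^ 2 / 9) ≤ Real.sqrt (1 + w ^ 2) := by
      apply Real.le_sqrt_of_sq_le
      rw [div_pow, one_pow, div_le_iff₀ (by nlinarith)]
      have h4 : (1 + w ^ 2) * (1 - w ^ 2 / 9) ^ 2 - 1 =
          w ^ 2 * (63 - 17 * w ^ 2 + w ^ 4) / 81 := by ring
      have h5 : 0 ≤ w ^ 2 * (63 - 17 * w ^ 2 + w ^ 4) / 81 := by
        have : 0 ≤ 63 - 17 * w ^ 2 + w ^ 4 := by nlinarith [sq_nonneg (w ^ 2)]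
        positivity
      linarith
    have h6 : 0 < 1 - w ^ 2 / 9 := by linarith
    rw [div_le_iff₀ h6] at h3
    linarith
  calc 2 * w = 2 * w * 1 := by ring
    _ ≤ 2 * w * ((1 - w ^ 2 / 9) * Real.sqrt (1 + w ^ 2)) :=
        mul_le_mul_of_nonneg_left h1 (by positivity)
    _ = (2 * w - 2 * w ^ 3 / 9) * Real.sqrt (1 + w ^ 2) := by ring

theorem norm_VV_ge {w : ℝ} (hw : 0 < w) (hw1 : w ≤ 1) : 16 / 9 * w ≤ ‖VV w‖ := by
  refine le_trans ?_ (sps_VI_le_norm hw)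
  refine le_trans ?_ (le_VI hw.le)
  have hw2 : w ^ 2 ≤ 1 := by nlinarith
  have hw3 : w ^ 3 ≤ w := by
    calc w ^ 3 = w * w ^ 2 := by ring
      _ ≤ w * 1 := mul_le_mul_of_nonneg_left hw2 hw.le
      _ = w := mul_one w
  linarith

theorem norm_VV_le {w : ℝ} (hw : 0 < w) (hw1 : w ≤ 1) : ‖VV w‖ ≤ 33 / 16 * w := by
  rw [sps_norm_VV hw]
  refine le_of_sq_le_sq ?_ (by positivity)
  rw [spaM_sq]
  have hVI := VI_le hw.le
  have hVR := sps_VR_le hw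
  have h1 := pow_le_pow_left₀ (VI_pos hw).le hVI 2
  have h2 := pow_le_pow_left₀ (VR_pos hw).le hVR 2
  have hw2 : w ^ 2 ≤ 1 := by nlinarith
  have hw4 : w ^ 4 ≤ w ^ 2 := by
    calc w ^ 4 = w ^ 2 * w ^ 2 := by ring
      _ ≤ w ^ 2 * 1 := mul_le_mul_of_nonneg_left hw2 (by positivity)
      _ = w ^ 2 := mul_one _
  nlinarith

/-- lower bound for `gapinf w / w` -/
noncomputable def g5 (w : ℝ) : ℝ :=
  -1 + 3 / 4 * w - w ^ 2 / 3 + w ^ 3 / 16 - 2 / 25 * w ^ 4 + 2 / (1 + w)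

theorem gapinf_ge_S {w : ℝ} (hw : 0 < w) (hw1 : w ≤ 1) : w * g5 w ≤ gapinf w := by
  have h1 := aa_sq_ge_small hw hw1
  have h2 := Phir_le_five hw.le
  unfold gapinf g5
  have h3 : w * (-1 + 3 / 4 * w - w ^ 2 / 3 + w ^ 3 / 16 - 2 / 25 * w ^ 4 + 2 / (1 + w)) =
      -w + 3 / 4 * w ^ 2 - w ^ 3 / 3 + w ^ 4 / 16 - 2 / 25 * w ^ 5 + 2 * w / (1 + w) := by
    ring
  rw [h3]
  linarith

theorem g5_anti {x y : ℝ} (hx : 0 ≤ x) (hxy : x ≤ y) (hy : y ≤ 1) : g5 y ≤ g5 x := by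
  have hx1 : 0 < 1 + x := by linarith
  have hy1 : 0 < 1 + y := by linarith
  have hy0 : 0 ≤ y := hx.trans hxy
  unfold g5
  have h1 : 2 / (1 + x) - 2 / (1 + y) = (y - x) * (2 / ((1 + x) * (1 + y))) := by
    field_simp
    ring
  have h2 : 3 / 4 - (x + y) / 3 + (x + y) ^ 2 / 16 ≤ 2 / ((1 + x) * (1 + y)) := by
    rw [le_div_iff₀ (by positivity)]
    set p : ℝ := x + y with hp
    have hp0 : 0 ≤ p := by linarith
    have hp2 : p ≤ 2 := by linarith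
    have hE : 0 ≤ 3 / 4 - p / 3 + p ^ 2 / 16 := by nlinarith [sq_nonneg (p - 2)]
    have h3 : (1 + x) * (1 + y) ≤ (1 + p / 2) ^ 2 := by
      rw [hp]; nlinarith [sq_nonneg (x - y)]
    calc (3 / 4 - p / 3 + p ^ 2 / 16) * ((1 + x) * (1 + y)) ≤
        (3 / 4 - p / 3 + p ^ 2 / 16) * (1 + p / 2) ^ 2 := mul_le_mul_of_nonneg_left h3 hE
      _ = 3 / 4 + 5 * p / 12 - p ^ 2 / 12 - p ^ 3 / 48 + p ^ 4 / 64 := by ring
      _ ≤ 2 := by
          have h4 : p ^ 4 ≤ 16 := by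
            calc p ^ 4 ≤ 2 ^ 4 := pow_le_pow_left₀ hp0 hp2 4
              _ = 16 := by norm_num
          have h5 : 0 ≤ p ^ 2 := by positivity
          have h6 : 0 ≤ p ^ 3 := by positivity
          linarith
  have h7 : 0 ≤ (y - x) := by linarith
  have h8 := mul_le_mul_of_nonneg_left h2 h7
  rw [← h1] at h8
  have h9 : 0 ≤ (y - x) * (x * y / 16) := by positivity
  have h10 : 0 ≤ (y - x) * (2 / 25 * (x ^ 3 + x ^ 2 * y + x * y ^ 2 + y ^ 3)) := by positivity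
  have h11 : (-1 + 3 / 4 * x - x ^ 2 / 3 + x ^ 3 / 16 - 2 / 25 * x ^ 4 + 2 / (1 + x)) -
      (-1 + 3 / 4 * y - y ^ 2 / 3 + y ^ 3 / 16 - 2 / 25 * y ^ 4 + 2 / (1 + y)) =
      (2 / (1 + x) - 2 / (1 + y)) - (y - x) * (3 / 4 - (x + y) / 3 + (x + y) ^ 2 / 16) +
      (y - x) * (x * y / 16) +
      (y - x) * (2 / 25 * (x ^ 3 + x ^ 2 * y + x * y ^ 2 + y ^ 3)) := by
    ring
  linarith

end Pool.Agent.Lib.Durfee
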