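import Pool.Agent.Lib.MP_9393b1_co.UDefs

/-! # Regime U: the coefficient integral on the half line -/

set_option autoImplicit false

namespace Pool.Agent.Lib.Durfee

open Complex MeasureTheory

theorem us_continuous (σ : ℝ) : Continuous (fun t : ℝ => us σ t) := by
  unfold us
  fun_prop

theorem uf_continuous (K m : ℕ) {σ : ℝ} (hσ : 0 < σ) :
    Continuous (fun t : ℝ => exp (m * us σ t) * (1 / (qfac (us σ t) K) ^ 2)) := by
  have h1 := us_continuous σ
  refine Continuous.mul (Continuous.cexp (continuous_const.mul h1)) ?_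
  refine Continuous.div continuous_const (((rp_continuous_qfac K).comp h1).pow 2) fun t => ?_
  exact pow_ne_zero 2 (qfac_ne_zero (by rw [us_re]; exact hσ) K)

private theorem uc_line (σ β : ℝ) : ((σ : ℂ) + β * I).re = σ := by simp

theorem pk2_integral (K m : ℕ) {σ : ℝ} (hσ : 0 < σ) :
    Real.pi * (rp_pk2 K m : ℝ) =
      σ * ∫ t in (0 : ℝ)..(Real.pi / σ), (exp (m * us σ t) * (1 / (qfac (us σ t) K) ^ 2)).re := by
  set g : ℝ → ℂ := fun β => exp (m * ((σ : ℂ) + β * I)) * (1 / (qfac ((σ : ℂ) + β * I) K) ^ 2)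
    with hg
  have hgc : Continuous g := by
    refine Continuous.mul (by fun_prop) ?_
    refine Continuous.div continuous_const
      (((rp_continuous_qfac K).comp (by fun_prop : Continuous fun β : ℝ =>
        ((σ : ℂ) + β * I))).pow 2) fun t => ?_
    exact pow_ne_zero 2 (qfac_ne_zero (by rw [uc_line]; exact hσ) K)
  have h0 := rp_integral_term (K ^ 2 + m) K hσ
  have hd : dco (K ^ 2 + m) K = rp_pk2 K m := by
    rw [rp_dco_eq, if_pos (by omega), Nat.add_sub_cancel_left]
  rw [hd] at h0
  have h1 : ∫ β in (-Real.pi)..Real.pi, g β = 2 * Real.pi * rp_pk2 K m := by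
    rw [← h0]
    refine intervalIntegral.integral_congr fun β _ => ?_
    simp only [hg]
    have : exp (((K ^ 2 + m : ℕ) : ℂ) * ((σ : ℂ) + β * I)) *
        exp (-(((σ : ℂ) + β * I) * (K : ℂ) ^ 2)) = exp (m * ((σ : ℂ) + β * I)) := by
      rw [← Complex.exp_add]
      congr 1
      push_cast
      ring
    rw [← this]
    ring
  have h2 : ∫ β in (-Real.pi)..Real.pi, (g β).re = 2 * Real.pi * rp_pk2 K m := by
    have h3 := Complex.reCLM.intervalIntegral_comp_comm
      (hgc.intervalIntegrable (μ := volume) (-Real.pi) Real.pi)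
    simp only [Complex.reCLM_apply] at h3
    rw [h3, h1]
    norm_cast
  have h3 : ∀ β, (g (-β)).re = (g β).re := by
    intro β
    have h4 : ((σ : ℂ) + ((-β : ℝ) : ℂ) * I) = (starRingEnd ℂ) ((σ : ℂ) + β * I) := by
      simp
    have : g (-β) = (starRingEnd ℂ) (g β) := by
      rw [hg]
      simp only
      rw [h4, rp_qfac_conj, map_mul, ← exp_conj, map_div₀, map_pow, map_one]
      congr 2
      simp
    rw [this, conj_re]
  have hre : Continuous fun β => (g β).re := continuous_re.comp hgc
  have h4 : ∫ β in (-Real.pi)..Real.pi, (g β).re = 2 * ∫ β in (0 : ℝ)..Real.pi, (g β).re := by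
    rw [← intervalIntegral.integral_add_adjacent_intervals (b := 0)
      (hre.intervalIntegrable _ _) (hre.intervalIntegrable _ _)]
    have h5 : ∫ β in (-Real.pi)..0, (g β).re = ∫ β in (0 : ℝ)..Real.pi, (g β).re := by
      have h6 := intervalIntegral.integral_comp_neg (a := -Real.pi) (b := 0)
        (f := fun β => (g (-β)).re)
      simp only [neg_neg, neg_zero] at h6
      rw [h6]
      refine intervalIntegral.integral_congr fun β _ => ?_
      exact h3 β
    rw [h5]
    ring
  rw [h4] at h2
  have h5 : ∫ β in (0 : ℝ)..Real.pi, (g β).re = Real.pi * rp_pk2 K m := by linarith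
  rw [← h5]
  have h6 := intervalIntegral.mul_integral_comp_mul_left (a := 0) (b := Real.pi / σ)
    (f := fun β => (g β).re) (c := σ)
  rw [mul_zero, mul_div_cancel₀ _ hσ.ne'] at h6
  rw [← h6]
  congr 1

end Pool.Agent.Lib.Durfee
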