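import Pool.Agent.Lib.MP_9393b1_co.Repr

/-! # Regime U (top end): definitions

`A = π²/3`, `uL m = √(A m)` (the exponent), `ua m = √(A/m)` (the saddle point), `uP m` = main term of the
number of pairs of partitions of total size `m`, `us σ t = σ(1+it)`, `EE s = ∏_{i≥1}(1-e^{-is})`,
`uQ n k j` = main term of `dco n j · y^j` at the test point `y = e^{2ka}`, `a = ua (n-k²)`. -/

set_option autoImplicit false

namespace Pool.Agent.Lib.Durfee

open Complex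

noncomputable def uL (m : ℝ) : ℝ := Real.sqrt (Real.pi ^ 2 / 3 * m)

noncomputable def ua (m : ℝ) : ℝ := Real.sqrt (Real.pi ^ 2 / 3 / m)

noncomputable def uP (m : ℝ) : ℝ := 1 / (12 * m) * Real.sqrt (Real.pi / uL m) * Real.exp (2 * uL m)

noncomputable def us (σ t : ℝ) : ℂ := (σ : ℂ) + ((σ * t : ℝ) : ℂ) * I

/-- `EE s = ∏_{i ≥ 1} (1 - e^{-is})` -/
noncomputable def EE (s : ℂ) : ℂ := ∏' i : ℕ, (1 - exp (-s) ^ (i + 1))

/-- `TLp s K = ∏_{i > K} (1 - e^{-is})` -/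
noncomputable def TLp (s : ℂ) (K : ℕ) : ℂ := ∏' i : ℕ, (1 - exp (-s) ^ (K + i + 1))

noncomputable def uQ (n k j : ℕ) : ℝ :=
  uP ((n : ℝ) - (j : ℝ) ^ 2) * Real.exp (2 * ua ((n : ℝ) - (k : ℝ) ^ 2) * k * j)

/-- the absolute value of the integrand (normalised), `a t²/12 = π² t²/(36 Λ)` -/
noncomputable def jF (Λ t : ℝ) : ℝ :=
  Real.sqrt (1 + t ^ 2) * Real.exp (-(Λ * t ^ 2 / (1 + t ^ 2)) + Real.pi ^ 2 * t ^ 2 / (36 * Λ))

/-- Hypotheses of regime U. -/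
structure RegU (n k : ℕ) : Prop where
  hn : 10 ^ 4 ≤ n
  hk : 1 ≤ k
  hks : k + 1 ≤ Nat.sqrt n
  hm : (n : ℝ) - (k : ℝ) ^ 2 ≤ 8225 / 10000 * (n : ℝ) ^ ((2 : ℝ) / 3)

theorem us_re (σ t : ℝ) : (us σ t).re = σ := by simp [us]

theorem us_im (σ t : ℝ) : (us σ t).im = σ * t := by simp [us]

theorem norm_us {σ : ℝ} (hσ : 0 < σ) (t : ℝ) : ‖us σ t‖ = σ * Real.sqrt (1 + t ^ 2) := by
  rw [Complex.norm_def, Complex.normSq_apply, us_re, us_im,
    show σ * σ + σ * t * (σ * t) = σ ^ 2 * (1 + t ^ 2) by ring, Real.sqrt_mul (by positivity),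
    Real.sqrt_sq hσ.le]

theorem us_ne_zero {σ : ℝ} (hσ : 0 < σ) (t : ℝ) : us σ t ≠ 0 := by
  intro h
  have := us_re σ t
  rw [h] at this
  simp at this
  linarith

theorem ua_pos {m : ℝ} (hm : 0 < m) : 0 < ua m := by
  unfold ua
  have := Real.pi_pos
  positivity

theorem uL_pos {m : ℝ} (hm : 0 < m) : 0 < uL m := by
  unfold uL
  have := Real.pi_pos
  positivity

theorem uP_pos {m : ℝ} (hm : 0 < m) : 0 < uP m := by
  unfold uP
  have := Real.pi_pos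
  have := uL_pos hm
  positivity

theorem uL_sq {m : ℝ} (hm : 0 < m) : uL m ^ 2 = Real.pi ^ 2 / 3 * m := by
  unfold uL
  rw [Real.sq_sqrt (by positivity)]

theorem ua_sq {m : ℝ} (hm : 0 < m) : ua m ^ 2 = Real.pi ^ 2 / 3 / m := by
  unfold ua
  rw [Real.sq_sqrt (by positivity)]

/-- `a m = Λ` -/
theorem ua_mul {m : ℝ} (hm : 0 < m) : ua m * m = uL m := by
  have h1 := ua_pos hm
  have h2 := uL_pos hm
  have h3 : (ua m * m) ^ 2 = uL m ^ 2 := by
    rw [mul_pow, ua_sq hm, uL_sq hm]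
    field_simp
  exact (pow_left_inj₀ (by positivity) h2.le (by norm_num)).1 h3

/-- `a Λ = A` -/
theorem ua_mul_uL {m : ℝ} (hm : 0 < m) : ua m * uL m = Real.pi ^ 2 / 3 := by
  rw [← ua_mul hm, ← mul_assoc, ← sq, ua_sq hm]
  field_simp

end Pool.Agent.Lib.Durfee
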