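import Pool.Agent.Lib.MP_9393b1_co.UDefs

/-! # Regime U: the modular transformation of `EE` -/

set_option autoImplicit false

namespace Pool.Agent.Lib.Durfee

open Complex

private theorem uEta_eta (z s : ℂ) (h : 2 * Real.pi * I * z = -s) :
    ModularForm.eta z = exp (-(s / 24)) * EE s := by
  unfold ModularForm.eta EE
  congr 1
  · unfold Function.Periodic.qParam
    congr 1
    push_cast
    rw [h]
    ring
  · apply tprod_congr
    intro i
    rw [ModularForm.eta_q_eq_pow, h]

private theorem uEta_sqrt_sq (z : ℂ) (_hz : z ≠ 0) : (Complex.sqrt z) ^ 2 = z := by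
  unfold Complex.sqrt
  rw [← Complex.cpow_nat_mul]
  norm_num

theorem EE_modular {s : ℂ} (hs : 0 < s.re) :
    EE s ^ 2 = 2 * Real.pi / s * exp (s / 12 - Real.pi ^ 2 / (3 * s)) *
      EE (4 * Real.pi ^ 2 / s) ^ 2 := by
  have hpi := Real.pi_pos
  have hpiC : (Real.pi : ℂ) ≠ 0 := by exact_mod_cast hpi.ne'
  have hs0 : s ≠ 0 := by
    intro h
    rw [h] at hs
    simp at hs
  set z : ℂ := I * s / (2 * Real.pi) with hz
  have hz0 : z ≠ 0 := by
    rw [hz]
    exact div_ne_zero (mul_ne_zero I_ne_zero hs0) (by simp)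
  have him : 0 < z.im := by
    have : z = ((1 / (2 * Real.pi) : ℝ) : ℂ) * (I * s) := by
      rw [hz]
      push_cast
      ring
    rw [this, Complex.im_ofReal_mul, Complex.I_mul_im]
    positivity
  have h1 : 2 * Real.pi * I * z = -s := by
    rw [hz]
    field_simp
    rw [I_sq]
  have h2 : 2 * Real.pi * I * (-1 / z) = -(4 * Real.pi ^ 2 / s) := by
    rw [hz]
    field_simp
    norm_num
  have e1 := uEta_eta z s h1
  have e2 := uEta_eta (-1 / z) (4 * Real.pi ^ 2 / s) h2
  have h3 := ModularForm.eta_comp_eq_csqrt_I_inv (x := z) him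
  simp only [Function.comp, Pi.smul_apply, Pi.mul_apply, smul_eq_mul] at h3
  rw [e1, e2] at h3
  have h4 := congrArg (fun x => x ^ 2) h3
  simp only [mul_pow, inv_pow] at h4
  rw [uEta_sqrt_sq _ I_ne_zero, uEta_sqrt_sq _ hz0] at h4
  have h5 : exp (-(4 * Real.pi ^ 2 / s / 24)) ^ 2 = exp (-(Real.pi ^ 2 / (3 * s))) := by
    rw [← Complex.exp_nat_mul]
    congr 1
    push_cast
    field_simp
    norm_num
  have h6 : exp (-(s / 24)) ^ 2 = exp (-(s / 12)) := by
    rw [← Complex.exp_nat_mul]
    congr 1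
    push_cast
    ring
  rw [h5, h6] at h4
  have h7 : I⁻¹ * (z * (exp (-(s / 12)) * EE s ^ 2)) =
      s / (2 * Real.pi) * exp (-(s / 12)) * EE s ^ 2 := by
    rw [hz]
    field_simp
  rw [h7] at h4
  have h8 : exp (s / 12 - Real.pi ^ 2 / (3 * s)) =
      exp (s / 12) * exp (-(Real.pi ^ 2 / (3 * s))) := by
    rw [← Complex.exp_add]
    congr 1
  rw [h8]
  calc EE s ^ 2 = 2 * Real.pi / s * exp (s / 12) *
        (s / (2 * Real.pi) * exp (-(s / 12)) * EE s ^ 2) := by
        have h9 : exp (s / 12) * exp (-(s / 12)) = 1 := by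
          rw [← Complex.exp_add]
          simp
        calc EE s ^ 2 = (2 * Real.pi / s * (s / (2 * Real.pi))) *
              (exp (s / 12) * exp (-(s / 12))) * EE s ^ 2 := by
              rw [h9]
              field_simp
          _ = _ := by ring
    _ = 2 * Real.pi / s * exp (s / 12) *
        (exp (-(Real.pi ^ 2 / (3 * s))) * EE (4 * Real.pi ^ 2 / s) ^ 2) := by rw [h4]
    _ = _ := by ring

end Pool.Agent.Lib.Durfee
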