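import Pool.Agent.Lib.MP_9393b1_co.UDefs

/-! # Regime U: Gaussian integrals near the saddle point -/

set_option autoImplicit false

namespace Pool.Agent.Lib.Durfee

open MeasureTheory

private theorem uja_int {b : ℝ} (hb : 0 < b) (n : ℕ) :
    Integrable fun x : ℝ => x ^ n * Real.exp (-b * x ^ 2) := by
  have h := integrable_rpow_mul_exp_neg_mul_sq hb (s := (n : ℝ))
    (by have : (0 : ℝ) ≤ n := Nat.cast_nonneg n; linarith)
  simpa only [Real.rpow_natCast] using h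

private theorem uja_step {b : ℝ} (hb : 0 < b) (n : ℕ) :
    ∫ x : ℝ, x ^ (n + 2) * Real.exp (-b * x ^ 2) =
      ((n : ℝ) + 1) / (2 * b) * ∫ x : ℝ, x ^ n * Real.exp (-b * x ^ 2) := by
  have hd : ∀ x : ℝ, HasDerivAt (fun x : ℝ => x ^ (n + 1) * Real.exp (-b * x ^ 2))
      (((n : ℝ) + 1) * (x ^ n * Real.exp (-b * x ^ 2)) -
        2 * b * (x ^ (n + 2) * Real.exp (-b * x ^ 2))) x := by
    intro x
    have h1 : HasDerivAt (fun x : ℝ => -b * x ^ 2) (-b * (2 * x)) x := by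
      simpa using (hasDerivAt_pow 2 x).const_mul (-b)
    have h2 := (hasDerivAt_pow (n + 1) x).mul h1.exp
    refine h2.congr_deriv ?_
    rw [Nat.add_sub_cancel]
    push_cast
    ring
  have h0 := integral_eq_zero_of_hasDerivAt_of_integrable hd
    (((uja_int hb n).const_mul _).sub ((uja_int hb (n + 2)).const_mul _))
    (uja_int hb (n + 1))
  rw [integral_sub ((uja_int hb n).const_mul _)
    ((uja_int hb (n + 2)).const_mul _), integral_const_mul, integral_const_mul] at h0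
  have h3 : 2 * b * ∫ x : ℝ, x ^ (n + 2) * Real.exp (-b * x ^ 2) =
      ((n : ℝ) + 1) * ∫ x : ℝ, x ^ n * Real.exp (-b * x ^ 2) := by linarith
  have hb2 : (2 * b) ≠ 0 := by positivity
  rw [div_mul_eq_mul_div, eq_div_iff hb2, mul_comm, h3]

private theorem uja_half (b : ℝ) (k : ℕ) :
    ∫ x : ℝ, x ^ (2 * k) * Real.exp (-b * x ^ 2) =
      2 * ∫ x in Set.Ioi (0 : ℝ), x ^ (2 * k) * Real.exp (-b * x ^ 2) := by
  rw [← integral_comp_abs (f := fun x : ℝ => x ^ (2 * k) * Real.exp (-b * x ^ 2))]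
  refine integral_congr_ae (Filter.Eventually.of_forall fun x => ?_)
  simp only [sq_abs, pow_mul]

private theorem uja_zero (b : ℝ) :
    ∫ x in Set.Ioi (0 : ℝ), x ^ 0 * Real.exp (-b * x ^ 2) = 1 / 2 * Real.sqrt (Real.pi / b) := by
  have h3 := integral_gaussian_Ioi b
  simp only [pow_zero, one_mul]
  rw [h3]
  ring

private theorem uja_stepI {b : ℝ} (hb : 0 < b) (k : ℕ) :
    ∫ x in Set.Ioi (0 : ℝ), x ^ (2 * (k + 1)) * Real.exp (-b * x ^ 2) =
      (2 * (k : ℝ) + 1) / (2 * b) *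
        ∫ x in Set.Ioi (0 : ℝ), x ^ (2 * k) * Real.exp (-b * x ^ 2) := by
  have h1 := uja_half b (k + 1)
  have h2 := uja_half b k
  have h3 := uja_step hb (2 * k)
  rw [show 2 * k + 2 = 2 * (k + 1) by ring, h1, h2] at h3
  push_cast at h3
  linarith

private theorem uja_two {b : ℝ} (hb : 0 < b) :
    ∫ x in Set.Ioi (0 : ℝ), x ^ 2 * Real.exp (-b * x ^ 2) =
      1 / (2 * b) * (1 / 2 * Real.sqrt (Real.pi / b)) := by
  have h := uja_stepI hb 0
  simp only [Nat.mul_zero, Nat.zero_add, Nat.mul_one] at h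
  rw [h, uja_zero]
  simp

private theorem uja_four {b : ℝ} (hb : 0 < b) :
    ∫ x in Set.Ioi (0 : ℝ), x ^ 4 * Real.exp (-b * x ^ 2) =
      3 / (4 * b ^ 2) * (1 / 2 * Real.sqrt (Real.pi / b)) := by
  have h := uja_stepI hb 1
  rw [show 2 * (1 + 1) = 4 by norm_num, show 2 * 1 = 2 by norm_num] at h
  have h2 := uja_two hb
  rw [h, h2]
  push_cast
  field_simp
  ring

private theorem uja_six {b : ℝ} (hb : 0 < b) :
    ∫ x in Set.Ioi (0 : ℝ), x ^ 6 * Real.exp (-b * x ^ 2) =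
      15 / (8 * b ^ 3) * (1 / 2 * Real.sqrt (Real.pi / b)) := by
  have h := uja_stepI hb 2
  rw [show 2 * (2 + 1) = 6 by norm_num, show 2 * 2 = 4 by norm_num] at h
  have h2 := uja_four hb
  rw [h, h2]
  push_cast
  field_simp
  ring

private theorem uja_le {f : ℝ → ℝ} {c : ℝ} (hc : 0 ≤ c) (hf : IntegrableOn f (Set.Ioi 0))
    (h0 : ∀ t, 0 < t → 0 ≤ f t) :
    ∫ t in (0 : ℝ)..c, f t ≤ ∫ t in Set.Ioi (0 : ℝ), f t := by
  rw [intervalIntegral.integral_of_le hc]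
  refine setIntegral_mono_set hf ?_ (Filter.Eventually.of_forall fun x hx => hx.1)
  exact (ae_restrict_iff' measurableSet_Ioi).2 (Filter.Eventually.of_forall fun x hx => h0 x hx)

private theorem uja_tail {b a : ℝ} (hb : 0 < b) (ha : 0 ≤ a) :
    ∫ x in Set.Ioi a, Real.exp (-b * x ^ 2) ≤
      Real.exp (-b * a ^ 2) * (Real.sqrt (Real.pi / b) / 2) := by
  have h1 : ∫ x in Set.Ioi a, Real.exp (-b * x ^ 2) =
      ∫ x in Set.Ioi (0 : ℝ), Real.exp (-b * (x + a) ^ 2) := by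
    have := (measurePreserving_add_right volume a).setIntegral_preimage_emb
      (MeasurableEquiv.addRight a).measurableEmbedding (fun x : ℝ => Real.exp (-b * x ^ 2))
      (Set.Ioi a)
    rw [Set.preimage_add_const_Ioi, sub_self] at this
    exact this.symm
  rw [h1, ← integral_gaussian_Ioi b, ← integral_const_mul]
  have hi : Integrable fun x : ℝ => Real.exp (-b * x ^ 2) := integrable_exp_neg_mul_sq hb
  refine setIntegral_mono_on ?_ (hi.const_mul _).integrableOn measurableSet_Ioi fun x hx => ?_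
  · exact (hi.comp_add_right a).integrableOn
  · have hx0 : (0 : ℝ) < x := hx
    rw [← Real.exp_add]
    refine Real.exp_le_exp.2 ?_
    have : 0 ≤ b * (x * a) := by positivity
    nlinarith

theorem jF_continuous {Λ : ℝ} (hΛ : 0 < Λ) : Continuous (jF Λ) := by
  unfold jF
  have h1 : ∀ t : ℝ, 1 + t ^ 2 ≠ 0 := fun t => by positivity
  have h2 : (36 * Λ) ≠ 0 := by positivity
  fun_prop (disch := assumption)

private theorem uja_sqrt_scale {Λ c : ℝ} (hΛ : 0 < Λ) (hc : 0 < c) :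
    Real.sqrt (Real.pi / (c * Λ)) = Real.sqrt (1 / c) * Real.sqrt (Real.pi / Λ) := by
  rw [← Real.sqrt_mul (by positivity)]
  congr 1
  field_simp

private theorem uja_cont_gauss (b : ℝ) (n : ℕ) :
    Continuous fun x : ℝ => x ^ n * Real.exp (-b * x ^ 2) := by
  fun_prop

theorem jU_head {Λ : ℝ} (hΛ : 99 / 10 ≤ Λ) :
    ∫ t in (0 : ℝ)..1, jF Λ t ≤ 765 / 1000 * Real.sqrt (Real.pi / Λ) := by
  have hΛ0 : 0 < Λ := by linarith
  have hb : 0 < Λ / 2 := by linarith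
  have hpi := Real.pi_lt_d4
  have hpi0 := Real.pi_pos
  -- the constant
  have hc : ∀ t : ℝ, 0 ≤ t → t ≤ 1 → Real.pi ^ 2 * t ^ 2 / (36 * Λ) ≤ 277 / 10000 := by
    intro t h0 h1
    rw [div_le_iff₀ (by positivity)]
    have h2 : t ^ 2 ≤ 1 := by nlinarith
    have h3 : Real.pi ^ 2 ≤ 98697 / 10000 := by nlinarith
    have h4 : Real.pi ^ 2 * t ^ 2 ≤ Real.pi ^ 2 * 1 :=
      mul_le_mul_of_nonneg_left h2 (by positivity)
    nlinarith
  set E : ℝ := Real.exp (277 / 10000) with hE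
  have hE1 : E ≤ 10285 / 10000 := by
    have h := Real.add_one_le_exp (-(277 / 10000 : ℝ))
    have h2 : Real.exp (-(277 / 10000 : ℝ)) * E = 1 := by
      rw [hE, ← Real.exp_add]; norm_num
    have hE0 : 0 < E := Real.exp_pos _
    nlinarith
  have hE0 : 0 < E := Real.exp_pos _
  have hpt : ∀ t ∈ Set.Icc (0 : ℝ) 1, jF Λ t ≤
      E * (t ^ 0 * Real.exp (-(Λ / 2) * t ^ 2)) +
        E / 2 * (t ^ 2 * Real.exp (-(Λ / 2) * t ^ 2)) := by
    intro t ht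
    obtain ⟨h0, h1⟩ := ht
    have hs : Real.sqrt (1 + t ^ 2) ≤ 1 + t ^ 2 / 2 := by
      rw [Real.sqrt_le_left (by positivity)]
      nlinarith [sq_nonneg (t ^ 2)]
    have hd : Λ / 2 * t ^ 2 ≤ Λ * t ^ 2 / (1 + t ^ 2) := by
      rw [le_div_iff₀ (by positivity)]
      have h2 : t ^ 2 ≤ 1 := by nlinarith
      have h3 : 0 ≤ Λ * t ^ 2 := by positivity
      nlinarith
    have he : Real.exp (-(Λ * t ^ 2 / (1 + t ^ 2)) + Real.pi ^ 2 * t ^ 2 / (36 * Λ)) ≤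
        E * Real.exp (-(Λ / 2) * t ^ 2) := by
      rw [hE, ← Real.exp_add]
      apply Real.exp_le_exp.2
      have := hc t h0 h1
      linarith
    unfold jF
    calc Real.sqrt (1 + t ^ 2) *
          Real.exp (-(Λ * t ^ 2 / (1 + t ^ 2)) + Real.pi ^ 2 * t ^ 2 / (36 * Λ))
        ≤ (1 + t ^ 2 / 2) * (E * Real.exp (-(Λ / 2) * t ^ 2)) :=
          mul_le_mul hs he (Real.exp_pos _).le (by positivity)
      _ = _ := by ring
  have hcont : Continuous fun t : ℝ => E * (t ^ 0 * Real.exp (-(Λ / 2) * t ^ 2)) +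
        E / 2 * (t ^ 2 * Real.exp (-(Λ / 2) * t ^ 2)) := by fun_prop
  have h1 : ∫ t in (0 : ℝ)..1, jF Λ t ≤
      ∫ t in (0 : ℝ)..1, (E * (t ^ 0 * Real.exp (-(Λ / 2) * t ^ 2)) +
        E / 2 * (t ^ 2 * Real.exp (-(Λ / 2) * t ^ 2))) :=
    intervalIntegral.integral_mono_on (by norm_num)
      ((jF_continuous hΛ0).intervalIntegrable _ _) (hcont.intervalIntegrable _ _) hpt
  have hi0 : IntegrableOn (fun t : ℝ => E * (t ^ 0 * Real.exp (-(Λ / 2) * t ^ 2)))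
      (Set.Ioi 0) := ((uja_int hb 0).const_mul _).integrableOn
  have hi2 : IntegrableOn (fun t : ℝ => E / 2 * (t ^ 2 * Real.exp (-(Λ / 2) * t ^ 2)))
      (Set.Ioi 0) := ((uja_int hb 2).const_mul _).integrableOn
  have h2 : ∫ t in (0 : ℝ)..1, (E * (t ^ 0 * Real.exp (-(Λ / 2) * t ^ 2)) +
        E / 2 * (t ^ 2 * Real.exp (-(Λ / 2) * t ^ 2))) ≤
      ∫ t in Set.Ioi (0 : ℝ), (E * (t ^ 0 * Real.exp (-(Λ / 2) * t ^ 2)) +
        E / 2 * (t ^ 2 * Real.exp (-(Λ / 2) * t ^ 2))) := by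
    refine uja_le (by norm_num) (hi0.add hi2) fun t ht => ?_
    positivity
  rw [integral_add hi0 hi2, integral_const_mul, integral_const_mul, uja_zero, uja_two hb] at h2
  have hs : Real.sqrt (Real.pi / (Λ / 2)) = Real.sqrt 2 * Real.sqrt (Real.pi / Λ) := by
    rw [← Real.sqrt_mul (by positivity)]
    congr 1
    field_simp
  rw [hs] at h2
  have hr2 : Real.sqrt 2 ≤ 141422 / 100000 := by
    rw [Real.sqrt_le_left (by norm_num)]
    norm_num
  set R : ℝ := Real.sqrt (Real.pi / Λ) with hR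
  have hR0 : 0 ≤ R := Real.sqrt_nonneg _
  refine (h1.trans h2).trans ?_
  have h3 : 1 / (2 * (Λ / 2)) ≤ 10 / 99 := by
    rw [show 2 * (Λ / 2) = Λ by ring, div_le_div_iff₀ hΛ0 (by norm_num)]
    linarith
  have h4 : 0 ≤ Real.sqrt 2 * R := by positivity
  have h5 : Real.sqrt 2 * R ≤ 141422 / 100000 * R := mul_le_mul_of_nonneg_right hr2 hR0
  calc E * (1 / 2 * (Real.sqrt 2 * R)) + E / 2 * (1 / (2 * (Λ / 2)) * (1 / 2 * (Real.sqrt 2 * R)))
      ≤ E * (1 / 2 * (Real.sqrt 2 * R)) + E / 2 * (10 / 99 * (1 / 2 * (Real.sqrt 2 * R))) := by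
        gcongr
    _ = E * (1 / 2 * (1 + 5 / 99)) * (Real.sqrt 2 * R) := by ring
    _ ≤ 10285 / 10000 * (1 / 2 * (1 + 5 / 99)) * (141422 / 100000 * R) := by
        gcongr
    _ ≤ 765 / 1000 * R := by nlinarith

theorem jL_abs {Λ : ℝ} (hΛ : 0 < Λ) :
    ∫ t in (0 : ℝ)..(1 / 2), Real.sqrt (1 + t ^ 2) * Real.exp (-(Λ * t ^ 2 / (1 + t ^ 2))) ≤
      63 / 100 * Real.sqrt (Real.pi / Λ) := by
  have hb : 0 < 4 / 5 * Λ := by linarith
  have hpi0 := Real.pi_pos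
  have hpt : ∀ t ∈ Set.Icc (0 : ℝ) (1 / 2),
      Real.sqrt (1 + t ^ 2) * Real.exp (-(Λ * t ^ 2 / (1 + t ^ 2))) ≤
      Real.sqrt (1 / (4 / 5)) * (t ^ 0 * Real.exp (-(4 / 5 * Λ) * t ^ 2)) := by
    intro t ht
    obtain ⟨h0, h1⟩ := ht
    have h2 : t ^ 2 ≤ 1 / 4 := by nlinarith
    have hs : Real.sqrt (1 + t ^ 2) ≤ Real.sqrt (1 / (4 / 5)) :=
      Real.sqrt_le_sqrt (by norm_num; linarith)
    have he : Real.exp (-(Λ * t ^ 2 / (1 + t ^ 2))) ≤ Real.exp (-(4 / 5 * Λ) * t ^ 2) := by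
      apply Real.exp_le_exp.2
      have hd : 4 / 5 * Λ * t ^ 2 ≤ Λ * t ^ 2 / (1 + t ^ 2) := by
        rw [le_div_iff₀ (by positivity)]
        have h3 : 0 ≤ Λ * t ^ 2 := by positivity
        nlinarith
      linarith
    rw [pow_zero, one_mul]
    exact mul_le_mul hs he (Real.exp_pos _).le (Real.sqrt_nonneg _)
  have hcl : Continuous fun t : ℝ =>
      Real.sqrt (1 + t ^ 2) * Real.exp (-(Λ * t ^ 2 / (1 + t ^ 2))) := by
    have h1 : ∀ t : ℝ, 1 + t ^ 2 ≠ 0 := fun t => by positivity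
    fun_prop (disch := assumption)
  have hcr : Continuous fun t : ℝ =>
      Real.sqrt (1 / (4 / 5)) * (t ^ 0 * Real.exp (-(4 / 5 * Λ) * t ^ 2)) := by fun_prop
  have h1 := intervalIntegral.integral_mono_on (μ := volume) (by norm_num : (0 : ℝ) ≤ 1 / 2)
      (hcl.intervalIntegrable _ _) (hcr.intervalIntegrable _ _) hpt
  have hi0 : IntegrableOn (fun t : ℝ =>
      Real.sqrt (1 / (4 / 5)) * (t ^ 0 * Real.exp (-(4 / 5 * Λ) * t ^ 2)))
      (Set.Ioi 0) := ((uja_int hb 0).const_mul _).integrableOn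
  have h2 := uja_le (c := 1 / 2) (by norm_num) hi0 (fun t ht => by positivity)
  rw [integral_const_mul, uja_zero, uja_sqrt_scale hΛ (by norm_num)] at h2
  have hR0 : 0 ≤ Real.sqrt (Real.pi / Λ) := Real.sqrt_nonneg _
  refine (h1.trans h2).trans ?_
  have h3 : Real.sqrt (1 / (4 / 5)) * Real.sqrt (1 / (4 / 5)) = 5 / 4 := by
    rw [Real.mul_self_sqrt (by norm_num)]
    norm_num
  calc Real.sqrt (1 / (4 / 5)) * (1 / 2 * (Real.sqrt (1 / (4 / 5)) * Real.sqrt (Real.pi / Λ)))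
      = Real.sqrt (1 / (4 / 5)) * Real.sqrt (1 / (4 / 5)) * (1 / 2 * Real.sqrt (Real.pi / Λ)) := by
        ring
    _ = 5 / 8 * Real.sqrt (Real.pi / Λ) := by rw [h3]; ring
    _ ≤ _ := by nlinarith

theorem jL_main {Λ : ℝ} (hΛ : 51 / 2 ≤ Λ) :
    43 / 100 * Real.sqrt (Real.pi / Λ) ≤
      ∫ t in (0 : ℝ)..(1 / 2), Real.exp (-(Λ * t ^ 2 / (1 + t ^ 2))) *
        (Real.cos (Λ * t ^ 3 / (1 + t ^ 2)) - t * Real.sin (Λ * t ^ 3 / (1 + t ^ 2))) := by
  have hΛ0 : 0 < Λ := by linarith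
  have hb : 0 < 4 / 5 * Λ := by linarith
  have hpi0 := Real.pi_pos
  have hpt : ∀ t ∈ Set.Icc (0 : ℝ) (1 / 2),
      Real.exp (-Λ * t ^ 2) - (Λ ^ 2 / 2 * (t ^ 6 * Real.exp (-(4 / 5 * Λ) * t ^ 2)) +
        Λ * (t ^ 4 * Real.exp (-(4 / 5 * Λ) * t ^ 2))) ≤
      Real.exp (-(Λ * t ^ 2 / (1 + t ^ 2))) *
        (Real.cos (Λ * t ^ 3 / (1 + t ^ 2)) - t * Real.sin (Λ * t ^ 3 / (1 + t ^ 2))) := by
    intro t ht
    obtain ⟨h0, h1⟩ := ht
    have h2 : t ^ 2 ≤ 1 / 4 := by nlinarith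
    set φ : ℝ := Λ * t ^ 3 / (1 + t ^ 2) with hφ
    have hφ0 : 0 ≤ φ := by positivity
    have hφ1 : φ ≤ Λ * t ^ 3 := by
      rw [hφ, div_le_iff₀ (by positivity)]
      have : 0 ≤ Λ * t ^ 3 := by positivity
      nlinarith [sq_nonneg t]
    have hφ2 : φ ^ 2 ≤ (Λ * t ^ 3) ^ 2 := pow_le_pow_left₀ hφ0 hφ1 2
    have hcos : 1 - φ ^ 2 / 2 ≤ Real.cos φ := Real.one_sub_sq_div_two_le_cos
    have hsin : t * Real.sin φ ≤ t * φ := mul_le_mul_of_nonneg_left (Real.sin_le hφ0) h0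
    have htφ : t * φ ≤ t * (Λ * t ^ 3) := mul_le_mul_of_nonneg_left hφ1 h0
    have hψ : 1 - (Λ ^ 2 / 2 * t ^ 6 + Λ * t ^ 4) ≤ Real.cos φ - t * Real.sin φ := by
      nlinarith
    have hE1 : Real.exp (-Λ * t ^ 2) ≤ Real.exp (-(Λ * t ^ 2 / (1 + t ^ 2))) := by
      apply Real.exp_le_exp.2
      have hd : Λ * t ^ 2 / (1 + t ^ 2) ≤ Λ * t ^ 2 := by
        rw [div_le_iff₀ (by positivity)]
        have h3 : 0 ≤ Λ * t ^ 2 := by positivity
        nlinarith [sq_nonneg t]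
      linarith
    have hE2 : Real.exp (-(Λ * t ^ 2 / (1 + t ^ 2))) ≤ Real.exp (-(4 / 5 * Λ) * t ^ 2) := by
      apply Real.exp_le_exp.2
      have hd : 4 / 5 * Λ * t ^ 2 ≤ Λ * t ^ 2 / (1 + t ^ 2) := by
        rw [le_div_iff₀ (by positivity)]
        have h3 : 0 ≤ Λ * t ^ 2 := by positivity
        nlinarith
      linarith
    have hψ0 : 0 ≤ Λ ^ 2 / 2 * t ^ 6 + Λ * t ^ 4 := by positivity
    have h5 := mul_le_mul_of_nonneg_left hψ (Real.exp_pos (-(Λ * t ^ 2 / (1 + t ^ 2)))).le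
    have h6 := mul_le_mul_of_nonneg_right hE2 hψ0
    nlinarith
  have hcl : Continuous fun t : ℝ => Real.exp (-Λ * t ^ 2) := by fun_prop
  have hcm : Continuous fun t : ℝ => (Λ ^ 2 / 2 * (t ^ 6 * Real.exp (-(4 / 5 * Λ) * t ^ 2)) +
        Λ * (t ^ 4 * Real.exp (-(4 / 5 * Λ) * t ^ 2))) := by fun_prop
  have hcr : Continuous fun t : ℝ => Real.exp (-(Λ * t ^ 2 / (1 + t ^ 2))) *
        (Real.cos (Λ * t ^ 3 / (1 + t ^ 2)) - t * Real.sin (Λ * t ^ 3 / (1 + t ^ 2))) := by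
    have h1 : ∀ t : ℝ, 1 + t ^ 2 ≠ 0 := fun t => by positivity
    fun_prop (disch := assumption)
  have h1 := intervalIntegral.integral_mono_on (μ := volume) (by norm_num : (0 : ℝ) ≤ 1 / 2)
      ((hcl.sub hcm).intervalIntegrable _ _) (hcr.intervalIntegrable _ _) hpt
  refine le_trans ?_ h1
  simp only [Pi.sub_apply]
  rw [intervalIntegral.integral_sub (hcl.intervalIntegrable _ _) (hcm.intervalIntegrable _ _)]
  -- main part
  have hg : Integrable fun t : ℝ => Real.exp (-Λ * t ^ 2) := integrable_exp_neg_mul_sq hΛ0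
  have hsplit : ∫ t in (0 : ℝ)..(1 / 2), Real.exp (-Λ * t ^ 2) =
      (∫ t in Set.Ioi (0 : ℝ), Real.exp (-Λ * t ^ 2)) -
        ∫ t in Set.Ioi (1 / 2 : ℝ), Real.exp (-Λ * t ^ 2) := by
    rw [intervalIntegral.integral_of_le (by norm_num)]
    have h2 : Set.Ioi (0 : ℝ) = Set.Ioc 0 (1 / 2) ∪ Set.Ioi (1 / 2) := by
      rw [Set.Ioc_union_Ioi_eq_Ioi (by norm_num)]
    have h3 := setIntegral_union (μ := volume) (f := fun t : ℝ => Real.exp (-Λ * t ^ 2))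
      (s := Set.Ioc (0 : ℝ) (1 / 2)) (t := Set.Ioi (1 / 2))
      (Set.disjoint_left.2 fun x hx hx' => not_lt.2 hx.2 hx') measurableSet_Ioi
      hg.integrableOn hg.integrableOn
    rw [h2, h3]
    ring
  have htail := uja_tail (b := Λ) (a := 1 / 2) hΛ0 (by norm_num)
  have hi6 : IntegrableOn (fun t : ℝ => Λ ^ 2 / 2 * (t ^ 6 * Real.exp (-(4 / 5 * Λ) * t ^ 2)))
      (Set.Ioi 0) := ((uja_int hb 6).const_mul _).integrableOn
  have hi4 : IntegrableOn (fun t : ℝ => Λ * (t ^ 4 * Real.exp (-(4 / 5 * Λ) * t ^ 2)))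
      (Set.Ioi 0) := ((uja_int hb 4).const_mul _).integrableOn
  have h2 := uja_le (c := 1 / 2) (by norm_num) (hi6.add hi4) (fun t ht => by
    simp only [Pi.add_apply]
    positivity)
  simp only [Pi.add_apply] at h2
  rw [integral_add hi6 hi4, integral_const_mul, integral_const_mul, uja_six hb, uja_four hb,
    uja_sqrt_scale hΛ0 (by norm_num)] at h2
  rw [hsplit, integral_gaussian_Ioi]
  set R : ℝ := Real.sqrt (Real.pi / Λ) with hR
  have hR0 : 0 ≤ R := Real.sqrt_nonneg _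
  have hr : Real.sqrt (1 / (4 / 5)) ≤ 11181 / 10000 := by
    rw [Real.sqrt_le_left (by norm_num)]
    norm_num
  have he : Real.exp (-Λ * (1 / 2) ^ 2) ≤ 1 / 400 := by
    have h7 : Real.exp (-Λ * (1 / 2) ^ 2) ≤ Real.exp (-6) := by
      apply Real.exp_le_exp.2
      linarith
    refine h7.trans ?_
    rw [show (-6 : ℝ) = -((6 : ℕ) : ℝ) * 1 by norm_num, neg_mul, Real.exp_neg, Real.exp_nat_mul]
    have h8 := Real.exp_one_gt_d9
    have h9 : (400 : ℝ) ≤ Real.exp 1 ^ 6 := by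
      have : (2.718 : ℝ) ^ 6 ≤ Real.exp 1 ^ 6 := pow_le_pow_left₀ (by norm_num) (by linarith) 6
      refine le_trans ?_ this
      norm_num
    rw [one_div]
    exact inv_anti₀ (by norm_num) h9
  have htail2 : Real.exp (-Λ * (1 / 2) ^ 2) * (R / 2) ≤ 1 / 400 * (R / 2) :=
    mul_le_mul_of_nonneg_right he (by positivity)
  have h3 : Λ ^ 2 / 2 * (15 / (8 * (4 / 5 * Λ) ^ 3) * (1 / 2 * (Real.sqrt (1 / (4 / 5)) * R))) +
      Λ * (3 / (4 * (4 / 5 * Λ) ^ 2) * (1 / 2 * (Real.sqrt (1 / (4 / 5)) * R))) =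
      (1 / Λ) * ((15 / (8 * (4 / 5) ^ 3) / 4 + 3 / (4 * (4 / 5) ^ 2) / 2) *
        (Real.sqrt (1 / (4 / 5)) * R)) := by
    field_simp
    ring
  have h4 : 1 / Λ ≤ 2 / 51 := by
    rw [div_le_div_iff₀ hΛ0 (by norm_num)]
    linarith
  rw [h3] at h2
  have h5 : (1 / Λ) * ((15 / (8 * (4 / 5) ^ 3) / 4 + 3 / (4 * (4 / 5) ^ 2) / 2) *
        (Real.sqrt (1 / (4 / 5)) * R)) ≤
      2 / 51 * ((15 / (8 * (4 / 5) ^ 3) / 4 + 3 / (4 * (4 / 5) ^ 2) / 2) *
        (11181 / 10000 * R)) := by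
    gcongr
  linarith

end Pool.Agent.Lib.Durfee
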