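import Pool.Agent.Lib.MP_9393b1_co.UJa

/-! # Regime U: the tails of the integral -/

set_option autoImplicit false

namespace Pool.Agent.Lib.Durfee

open MeasureTheory

private theorem ujb_pow {x0 x : ℝ} (hx0 : 0 < x0) (hx : x0 ≤ x) (p : ℕ) :
    x ^ p ≤ x0 ^ p * Real.exp (p * ((x - x0) / x0)) := by
  have h1 : x / x0 ≤ Real.exp ((x - x0) / x0) := by
    have := Real.add_one_le_exp ((x - x0) / x0)
    have h2 : (x - x0) / x0 + 1 = x / x0 := by
      field_simp
      ring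
    linarith
  have h3 : x ≤ x0 * Real.exp ((x - x0) / x0) := by
    rw [div_le_iff₀ hx0] at h1
    linarith
  calc x ^ p ≤ (x0 * Real.exp ((x - x0) / x0)) ^ p := pow_le_pow_left₀ (by linarith) h3 p
    _ = x0 ^ p * Real.exp (p * ((x - x0) / x0)) := by
      rw [mul_pow, ← Real.exp_nat_mul]

private theorem ujb_sqrt {x0 x : ℝ} (hx0 : 0 < x0) (hx : x0 ≤ x) :
    Real.sqrt (x / Real.pi) ≤ Real.sqrt (x0 / Real.pi) * Real.exp (1 / 2 * ((x - x0) / x0)) := by
  have hπ := Real.pi_pos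
  apply Real.sqrt_le_iff.2
  refine ⟨by positivity, ?_⟩
  rw [mul_pow, Real.sq_sqrt (by positivity), ← Real.exp_nat_mul]
  have h1 := ujb_pow hx0 hx 1
  simp only [pow_one, Nat.cast_one, one_mul] at h1
  have h2 : ((2 : ℕ) : ℝ) * (1 / 2 * ((x - x0) / x0)) = (x - x0) / x0 := by
    push_cast
    ring
  rw [h2, div_mul_eq_mul_div]
  gcongr

private theorem ujb_term {x0 x c : ℝ} (p : ℕ) (hx0 : 0 < x0) (hx : x0 ≤ x)
    (hc : ((p : ℝ) + 1 / 2) ≤ c * x0) :
    Real.sqrt (x / Real.pi) * (x ^ p * Real.exp (-(c * x))) ≤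
      Real.sqrt (x0 / Real.pi) * (x0 ^ p * Real.exp (-(c * x0))) := by
  have hπ := Real.pi_pos
  have h1 := ujb_sqrt hx0 hx
  have h2 := ujb_pow hx0 hx p
  calc Real.sqrt (x / Real.pi) * (x ^ p * Real.exp (-(c * x)))
      ≤ (Real.sqrt (x0 / Real.pi) * Real.exp (1 / 2 * ((x - x0) / x0))) *
          ((x0 ^ p * Real.exp (p * ((x - x0) / x0))) * Real.exp (-(c * x))) := by
        have : 0 ≤ x := by linarith
        gcongr
    _ = Real.sqrt (x0 / Real.pi) * (x0 ^ p *
          Real.exp (1 / 2 * ((x - x0) / x0) + p * ((x - x0) / x0) + -(c * x))) := by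
        rw [Real.exp_add, Real.exp_add]
        ring
    _ ≤ Real.sqrt (x0 / Real.pi) * (x0 ^ p * Real.exp (-(c * x0))) := by
        gcongr
        have h3 : 1 / 2 * ((x - x0) / x0) + p * ((x - x0) / x0) + -(c * x) =
            ((x - x0) / x0) * (((p : ℝ) + 1 / 2) - c * x0) + -(c * x0) := by
          field_simp
          ring
        rw [h3]
        have h4 : 0 ≤ (x - x0) / x0 := div_nonneg (by linarith) hx0.le
        nlinarith

private theorem ujb_inv {y z : ℝ} (hy : 0 < y) (h : y ≤ Real.exp z) : Real.exp (-z) ≤ 1 / y := by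
  rw [Real.exp_neg, one_div]
  exact inv_anti₀ hy h

/-- bound of the integrand by `s * exp u` -/
private theorem ujb_jF {Λ t s u : ℝ} (h1 : Real.sqrt (1 + t ^ 2) ≤ s)
    (h2 : -(Λ * t ^ 2 / (1 + t ^ 2)) + Real.pi ^ 2 * t ^ 2 / (36 * Λ) ≤ u) :
    jF Λ t ≤ s * Real.exp u := by
  unfold jF
  gcongr
  exact (Real.sqrt_nonneg _).trans h1

private theorem ujb_R {Λ : ℝ} (hΛ : 99 / 10 ≤ Λ) : 4 ≤ 3 * Λ / Real.pi := by
  have hπ := Real.pi_pos
  rw [le_div_iff₀ hπ]
  have := Real.pi_lt_d2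
  linarith

/-- explicit bound of the tail -/
theorem j_tail1 {Λ : ℝ} (hΛ : 99 / 10 ≤ Λ) :
    ∫ t in (1 : ℝ)..(3 * Λ / Real.pi), jF Λ t ≤
      Real.sqrt 5 * Real.exp (-(Λ / 2) + 1 / 9) + 2 * Real.sqrt 17 * Real.exp (-(755 / 1000 * Λ)) +
        47 / 100 * Λ ^ 2 * Real.exp (-(691 / 1000 * Λ)) := by
  have hπ := Real.pi_pos
  have hπ1 := Real.pi_lt_d4
  have hπ2 := Real.pi_gt_d6
  have hπs : Real.pi ^ 2 ≤ 987 / 100 := by nlinarith
  have hΛ0 : 0 < Λ := by linarith
  have hcont := jF_continuous hΛ0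
  have hi : ∀ a b : ℝ, IntervalIntegrable (jF Λ) volume a b := fun a b =>
    hcont.intervalIntegrable a b
  have hR := ujb_R hΛ
  set R : ℝ := 3 * Λ / Real.pi with hRdef
  have hsplit : ∫ t in (1 : ℝ)..R, jF Λ t =
      (∫ t in (1 : ℝ)..2, jF Λ t) + (∫ t in (2 : ℝ)..4, jF Λ t) + ∫ t in (4 : ℝ)..R, jF Λ t := by
    rw [intervalIntegral.integral_add_adjacent_intervals (hi _ _) (hi _ _),
      intervalIntegral.integral_add_adjacent_intervals (hi _ _) (hi _ _)]
  have p1 : ∫ t in (1 : ℝ)..2, jF Λ t ≤ Real.sqrt 5 * Real.exp (-(Λ / 2) + 1 / 9) := by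
    have h : ∫ t in (1 : ℝ)..2, jF Λ t ≤
        ∫ _t in (1 : ℝ)..2, Real.sqrt 5 * Real.exp (-(Λ / 2) + 1 / 9) := by
      refine intervalIntegral.integral_mono_on (by norm_num) (hi _ _) (by simp) ?_
      intro t ht
      obtain ⟨ht1, ht2⟩ := ht
      apply ujb_jF
      · apply Real.sqrt_le_sqrt
        nlinarith
      · have h1 : Λ / 2 ≤ Λ * t ^ 2 / (1 + t ^ 2) := by
          rw [div_le_div_iff₀ (by norm_num) (by positivity)]
          nlinarith [mul_nonneg hΛ0.le (show (0 : ℝ) ≤ t ^ 2 - 1 by nlinarith)]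
        have h2 : Real.pi ^ 2 * t ^ 2 / (36 * Λ) ≤ 1 / 9 := by
          rw [div_le_div_iff₀ (by positivity) (by norm_num)]
          have h3 : t ^ 2 ≤ 4 := by nlinarith
          have h4 : Real.pi ^ 2 * t ^ 2 ≤ 987 / 100 * 4 := by gcongr
          nlinarith
        linarith
    refine h.trans ?_
    rw [intervalIntegral.integral_const, smul_eq_mul]
    norm_num
  have p2 : ∫ t in (2 : ℝ)..4, jF Λ t ≤ 2 * Real.sqrt 17 * Real.exp (-(755 / 1000 * Λ)) := by
    have h : ∫ t in (2 : ℝ)..4, jF Λ t ≤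
        ∫ _t in (2 : ℝ)..4, Real.sqrt 17 * Real.exp (-(755 / 1000 * Λ)) := by
      refine intervalIntegral.integral_mono_on (by norm_num) (hi _ _) (by simp) ?_
      intro t ht
      obtain ⟨ht1, ht2⟩ := ht
      apply ujb_jF
      · apply Real.sqrt_le_sqrt
        nlinarith
      · have h1 : 4 / 5 * Λ ≤ Λ * t ^ 2 / (1 + t ^ 2) := by
          rw [le_div_iff₀ (by positivity)]
          nlinarith [mul_nonneg hΛ0.le (show (0 : ℝ) ≤ t ^ 2 - 4 by nlinarith)]
        have h2 : Real.pi ^ 2 * t ^ 2 / (36 * Λ) ≤ 45 / 1000 * Λ := by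
          rw [div_le_iff₀ (by positivity)]
          have h3 : t ^ 2 ≤ 16 := by nlinarith
          have h4 : Real.pi ^ 2 * t ^ 2 ≤ 987 / 100 * 16 := by gcongr
          nlinarith
        linarith
    refine h.trans ?_
    rw [intervalIntegral.integral_const, smul_eq_mul]
    norm_num
    apply le_of_eq
    ring
  have p3 : ∫ t in (4 : ℝ)..R, jF Λ t ≤ 47 / 100 * Λ ^ 2 * Real.exp (-(691 / 1000 * Λ)) := by
    have h : ∫ t in (4 : ℝ)..R, jF Λ t ≤
        ∫ t in (4 : ℝ)..R, (Real.sqrt 17 / 4 * Real.exp (-(691 / 1000 * Λ))) * t := by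
      refine intervalIntegral.integral_mono_on hR (hi _ _) ?_ ?_
      · exact (continuous_const.mul continuous_id).intervalIntegrable _ _
      intro t ht
      obtain ⟨ht1, ht2⟩ := ht
      have h0 : jF Λ t ≤ (Real.sqrt 17 / 4 * t) * Real.exp (-(691 / 1000 * Λ)) := by
        apply ujb_jF
        · apply Real.sqrt_le_iff.2
          refine ⟨by positivity, ?_⟩
          rw [mul_pow, div_pow, Real.sq_sqrt (by norm_num)]
          nlinarith
        · have h1 : 16 / 17 * Λ ≤ Λ * t ^ 2 / (1 + t ^ 2) := by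
            rw [le_div_iff₀ (by positivity)]
            nlinarith [mul_nonneg hΛ0.le (show (0 : ℝ) ≤ t ^ 2 - 16 by nlinarith)]
          have h2 : Real.pi ^ 2 * t ^ 2 / (36 * Λ) ≤ 1 / 4 * Λ := by
            rw [div_le_iff₀ (by positivity)]
            have h3 : Real.pi * t ≤ 3 * Λ := by
              rw [hRdef, le_div_iff₀ hπ] at ht2
              linarith
            have h4 : (Real.pi * t) ^ 2 ≤ (3 * Λ) ^ 2 := by
              have : 0 ≤ t := by linarith
              gcongr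
            nlinarith
          linarith
      linarith
    refine h.trans ?_
    rw [intervalIntegral.integral_const_mul, integral_id]
    have h5 : Real.sqrt 17 ≤ 41232 / 10000 := by
      apply Real.sqrt_le_iff.2
      norm_num
    have h6 : (R ^ 2 - 4 ^ 2) / 2 ≤ 9 * Λ ^ 2 / Real.pi ^ 2 / 2 := by
      rw [hRdef, div_pow, mul_pow]
      norm_num
      have : (0 : ℝ) ≤ 9 * Λ ^ 2 / Real.pi ^ 2 := by positivity
      linarith
    have h7 : 9 * Λ ^ 2 / Real.pi ^ 2 ≤ 91190 / 100000 * Λ ^ 2 := by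
      rw [div_le_iff₀ (by positivity)]
      have h8 : 986960 / 100000 ≤ Real.pi ^ 2 := by nlinarith
      have h9 : (0 : ℝ) ≤ Λ ^ 2 := by positivity
      have h10 : (9 : ℝ) ≤ 91190 / 100000 * Real.pi ^ 2 := by linarith
      nlinarith
    have he := Real.exp_pos (-(691 / 1000 * Λ))
    calc Real.sqrt 17 / 4 * Real.exp (-(691 / 1000 * Λ)) * ((R ^ 2 - 4 ^ 2) / 2)
        ≤ (41232 / 10000) / 4 * Real.exp (-(691 / 1000 * Λ)) *
            (91190 / 100000 * Λ ^ 2 / 2) := by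
          have h11 : (R ^ 2 - 4 ^ 2) / 2 ≤ 91190 / 100000 * Λ ^ 2 / 2 := by linarith
          have h12 : (0 : ℝ) ≤ (R ^ 2 - 4 ^ 2) / 2 := by nlinarith
          gcongr
      _ ≤ 47 / 100 * Λ ^ 2 * Real.exp (-(691 / 1000 * Λ)) := by
          have h9 : (0 : ℝ) ≤ Λ ^ 2 * Real.exp (-(691 / 1000 * Λ)) := by positivity
          nlinarith
  rw [hsplit]
  linarith

private theorem ujb_sqrt_inv {Λ : ℝ} (hΛ : 0 < Λ) {x c : ℝ}
    (h : Real.sqrt (Λ / Real.pi) * x ≤ c) : x ≤ c * Real.sqrt (Real.pi / Λ) := by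
  have hπ := Real.pi_pos
  have h1 : Real.sqrt (Λ / Real.pi) * Real.sqrt (Real.pi / Λ) = 1 := by
    rw [← Real.sqrt_mul (by positivity)]
    have : Λ / Real.pi * (Real.pi / Λ) = 1 := by field_simp
    rw [this, Real.sqrt_one]
  have h2 : 0 ≤ Real.sqrt (Real.pi / Λ) := Real.sqrt_nonneg _
  calc x = (Real.sqrt (Λ / Real.pi) * x) * Real.sqrt (Real.pi / Λ) := by
        rw [mul_right_comm, h1, one_mul]
    _ ≤ c * Real.sqrt (Real.pi / Λ) := by gcongr

private theorem ujb_exp_nat {b : ℝ} (n : ℕ) (h0 : 0 ≤ b) (hb : b ≤ Real.exp 1) :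
    b ^ n ≤ Real.exp n := by
  have : Real.exp n = Real.exp 1 ^ n := by
    rw [← Real.exp_nat_mul, mul_one]
  rw [this]
  exact pow_le_pow_left₀ h0 hb n

theorem jU_le {Λ : ℝ} (hΛ : 99 / 10 ≤ Λ) :
    ∫ t in (0 : ℝ)..(3 * Λ / Real.pi), jF Λ t ≤ 93 / 100 * Real.sqrt (Real.pi / Λ) := by
  have hπ := Real.pi_pos
  have hπ2 := Real.pi_gt_d6
  have hΛ0 : 0 < Λ := by linarith
  have hcont := jF_continuous hΛ0
  have hi : ∀ a b : ℝ, IntervalIntegrable (jF Λ) volume a b := fun a b =>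
    hcont.intervalIntegrable a b
  have he1 : (2718 / 1000 : ℝ) ≤ Real.exp 1 := by
    have := Real.exp_one_gt_d9
    linarith
  have hsplit : ∫ t in (0 : ℝ)..(3 * Λ / Real.pi), jF Λ t =
      (∫ t in (0 : ℝ)..1, jF Λ t) + ∫ t in (1 : ℝ)..(3 * Λ / Real.pi), jF Λ t :=
    (intervalIntegral.integral_add_adjacent_intervals (hi _ _) (hi _ _)).symm
  have h1 := jU_head hΛ
  have h2 := j_tail1 hΛ
  have hs5 : Real.sqrt 5 ≤ 22361 / 10000 := by
    apply Real.sqrt_le_iff.2
    norm_num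
  have hs17 : Real.sqrt 17 ≤ 41232 / 10000 := by
    apply Real.sqrt_le_iff.2
    norm_num
  have hsq : Real.sqrt ((99 / 10) / Real.pi) ≤ 1776 / 1000 := by
    apply Real.sqrt_le_iff.2
    refine ⟨by norm_num, ?_⟩
    rw [div_le_iff₀ hπ]
    nlinarith
  have e7 : (1095 : ℝ) ≤ Real.exp 7 := by
    have := ujb_exp_nat 7 (by norm_num) he1
    norm_num at this
    linarith
  have e5 : (148 : ℝ) ≤ Real.exp 5 := by
    have := ujb_exp_nat 5 (by norm_num) he1
    norm_num at this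
    linarith
  -- the three terms
  have T1 : Real.sqrt (Λ / Real.pi) * Real.exp (-(1 / 2 * Λ)) ≤
      1776 / 1000 * Real.exp (-(99 / 20)) := by
    have := ujb_term (x0 := 99 / 10) (x := Λ) (c := 1 / 2) 0 (by norm_num) hΛ (by norm_num)
    rw [pow_zero, pow_zero, one_mul, one_mul] at this
    refine this.trans ?_
    have e : (1 / 2 * (99 / 10) : ℝ) = 99 / 20 := by norm_num
    rw [e]
    gcongr
  have T2 : Real.sqrt (Λ / Real.pi) * Real.exp (-(755 / 1000 * Λ)) ≤
      1776 / 1000 * Real.exp (-(755 / 1000 * (99 / 10))) := by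
    have := ujb_term (x0 := 99 / 10) (x := Λ) (c := 755 / 1000) 0 (by norm_num) hΛ (by norm_num)
    rw [pow_zero, pow_zero, one_mul, one_mul] at this
    refine this.trans ?_
    gcongr
  have T3 : Real.sqrt (Λ / Real.pi) * (Λ ^ 2 * Real.exp (-(691 / 1000 * Λ))) ≤
      1776 / 1000 * ((99 / 10) ^ 2 * Real.exp (-(691 / 1000 * (99 / 10)))) := by
    have := ujb_term (x0 := 99 / 10) (x := Λ) (c := 691 / 1000) 2 (by norm_num) hΛ (by norm_num)
    refine this.trans ?_
    gcongr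
  -- numerical values
  have n1 : Real.exp (-(99 / 20) + 1 / 9) ≤ 1 / 124 := by
    have : (-(99 / 20) + 1 / 9 : ℝ) = -(5 + -(29 / 180)) := by norm_num
    rw [this]
    apply ujb_inv (by norm_num)
    rw [Real.exp_add]
    have h := Real.add_one_le_exp (-(29 / 180) : ℝ)
    have h3 : (148 : ℝ) * (151 / 180) ≤ Real.exp 5 * Real.exp (-(29 / 180)) := by
      gcongr
      linarith
    norm_num at h3 ⊢
    linarith
  have n2 : Real.exp (-(755 / 1000 * (99 / 10))) ≤ 1 / 1614 := by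
    have : (755 / 1000 * (99 / 10) : ℝ) = 7 + 949 / 2000 := by norm_num
    rw [this]
    apply ujb_inv (by norm_num)
    rw [Real.exp_add]
    have h := Real.add_one_le_exp (949 / 2000 : ℝ)
    have h3 : (1095 : ℝ) * (2949 / 2000) ≤ Real.exp 7 * Real.exp (949 / 2000) := by
      gcongr
      linarith
    norm_num at h3 ⊢
    linarith
  have n3 : Real.exp (-(691 / 1000 * (99 / 10))) ≤ 1 / 920 := by
    have : (691 / 1000 * (99 / 10) : ℝ) = 7 + -(1591 / 10000) := by norm_num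
    rw [this]
    apply ujb_inv (by norm_num)
    rw [Real.exp_add]
    have h := Real.add_one_le_exp (-(1591 / 10000) : ℝ)
    have h3 : (1095 : ℝ) * (8409 / 10000) ≤ Real.exp 7 * Real.exp (-(1591 / 10000)) := by
      gcongr
      linarith
    norm_num at h3 ⊢
    linarith
  have T1' : Real.sqrt (Λ / Real.pi) * (Real.sqrt 5 * Real.exp (-(Λ / 2) + 1 / 9)) ≤
      33 / 1000 := by
    have e1 : Real.exp (-(Λ / 2) + 1 / 9) = Real.exp (-(1 / 2 * Λ)) * Real.exp (1 / 9) := by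
      rw [← Real.exp_add]
      congr 1
      ring
    have e2 : Real.exp (-(99 / 20) + 1 / 9) = Real.exp (-(99 / 20)) * Real.exp (1 / 9) := by
      rw [← Real.exp_add]
    rw [e1]
    calc Real.sqrt (Λ / Real.pi) * (Real.sqrt 5 * (Real.exp (-(1 / 2 * Λ)) * Real.exp (1 / 9)))
        = Real.sqrt 5 * ((Real.sqrt (Λ / Real.pi) * Real.exp (-(1 / 2 * Λ))) *
            Real.exp (1 / 9)) := by ring
      _ ≤ 22361 / 10000 * ((1776 / 1000 * Real.exp (-(99 / 20))) * Real.exp (1 / 9)) := by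
          gcongr
      _ = 22361 / 10000 * (1776 / 1000) * Real.exp (-(99 / 20) + 1 / 9) := by
          rw [e2]
          ring
      _ ≤ 22361 / 10000 * (1776 / 1000) * (1 / 124) := by gcongr
      _ ≤ 33 / 1000 := by norm_num
  have T2' : Real.sqrt (Λ / Real.pi) * (2 * Real.sqrt 17 * Real.exp (-(755 / 1000 * Λ))) ≤
      10 / 1000 := by
    calc Real.sqrt (Λ / Real.pi) * (2 * Real.sqrt 17 * Real.exp (-(755 / 1000 * Λ)))
        = 2 * Real.sqrt 17 * (Real.sqrt (Λ / Real.pi) * Real.exp (-(755 / 1000 * Λ))) := by ring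
      _ ≤ 2 * (41232 / 10000) * (1776 / 1000 * (1 / 1614)) := by
          refine mul_le_mul (by linarith) (T2.trans ?_) (by positivity) (by norm_num)
          gcongr
      _ ≤ 10 / 1000 := by norm_num
  have T3' : Real.sqrt (Λ / Real.pi) * (47 / 100 * Λ ^ 2 * Real.exp (-(691 / 1000 * Λ))) ≤
      90 / 1000 := by
    calc Real.sqrt (Λ / Real.pi) * (47 / 100 * Λ ^ 2 * Real.exp (-(691 / 1000 * Λ)))
        = 47 / 100 * (Real.sqrt (Λ / Real.pi) * (Λ ^ 2 * Real.exp (-(691 / 1000 * Λ)))) := by ring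
      _ ≤ 47 / 100 * (1776 / 1000 * ((99 / 10) ^ 2 * (1 / 920))) := by
          refine mul_le_mul_of_nonneg_left (T3.trans ?_) (by norm_num)
          gcongr
      _ ≤ 90 / 1000 := by norm_num
  have h3 := ujb_sqrt_inv hΛ0 T1'
  have h4 := ujb_sqrt_inv hΛ0 T2'
  have h5 := ujb_sqrt_inv hΛ0 T3'
  rw [hsplit]
  have h6 : 0 ≤ Real.sqrt (Real.pi / Λ) := Real.sqrt_nonneg _
  linarith

theorem jL_tail {Λ : ℝ} (hΛ : 51 / 2 ≤ Λ) :
    ∫ t in (1 / 2 : ℝ)..(3 * Λ / Real.pi), jF Λ t ≤ 2 / 100 * Real.sqrt (Real.pi / Λ) := by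
  have hπ := Real.pi_pos
  have hπ1 := Real.pi_lt_d4
  have hπ2 := Real.pi_gt_d6
  have hπs : Real.pi ^ 2 ≤ 987 / 100 := by nlinarith
  have hΛ0 : 0 < Λ := by linarith
  have hcont := jF_continuous hΛ0
  have hi : ∀ a b : ℝ, IntervalIntegrable (jF Λ) volume a b := fun a b =>
    hcont.intervalIntegrable a b
  have he1 : (2718 / 1000 : ℝ) ≤ Real.exp 1 := by
    have := Real.exp_one_gt_d9
    linarith
  have hsplit : ∫ t in (1 / 2 : ℝ)..(3 * Λ / Real.pi), jF Λ t =
      (∫ t in (1 / 2 : ℝ)..1, jF Λ t) + ∫ t in (1 : ℝ)..(3 * Λ / Real.pi), jF Λ t :=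
    (intervalIntegral.integral_add_adjacent_intervals (hi _ _) (hi _ _)).symm
  have h2 := j_tail1 (Λ := Λ) (by linarith)
  have hs2 : Real.sqrt 2 ≤ 14143 / 10000 := by
    apply Real.sqrt_le_iff.2
    norm_num
  have hs5 : Real.sqrt 5 ≤ 22361 / 10000 := by
    apply Real.sqrt_le_iff.2
    norm_num
  have hs17 : Real.sqrt 17 ≤ 41232 / 10000 := by
    apply Real.sqrt_le_iff.2
    norm_num
  have hsq : Real.sqrt ((51 / 2) / Real.pi) ≤ 285 / 100 := by
    apply Real.sqrt_le_iff.2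
    refine ⟨by norm_num, ?_⟩
    rw [div_le_iff₀ hπ]
    nlinarith
  have p0 : ∫ t in (1 / 2 : ℝ)..1, jF Λ t ≤
      1 / 2 * (Real.sqrt 2 * Real.exp (-(1 / 5 * Λ) + 108 / 10000)) := by
    have h : ∫ t in (1 / 2 : ℝ)..1, jF Λ t ≤
        ∫ _t in (1 / 2 : ℝ)..1, Real.sqrt 2 * Real.exp (-(1 / 5 * Λ) + 108 / 10000) := by
      refine intervalIntegral.integral_mono_on (by norm_num) (hi _ _) (by simp) ?_
      intro t ht
      obtain ⟨ht1, ht2⟩ := ht
      apply ujb_jF
      · apply Real.sqrt_le_sqrt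
        nlinarith
      · have h1 : 1 / 5 * Λ ≤ Λ * t ^ 2 / (1 + t ^ 2) := by
          rw [le_div_iff₀ (by positivity)]
          nlinarith [mul_nonneg hΛ0.le (show (0 : ℝ) ≤ t ^ 2 - 1 / 4 by nlinarith)]
        have h2 : Real.pi ^ 2 * t ^ 2 / (36 * Λ) ≤ 108 / 10000 := by
          rw [div_le_iff₀ (by positivity)]
          have h3 : t ^ 2 ≤ 1 := by nlinarith
          have h4 : Real.pi ^ 2 * t ^ 2 ≤ 987 / 100 * 1 := by gcongr
          nlinarith
        linarith
    refine h.trans ?_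
    rw [intervalIntegral.integral_const, smul_eq_mul]
    norm_num
  have e5 : (148 : ℝ) ≤ Real.exp 5 := by
    have := ujb_exp_nat 5 (by norm_num) he1
    norm_num at this
    linarith
  have e12 : (100000 : ℝ) ≤ Real.exp 12 := by
    have := ujb_exp_nat 12 (by norm_num) he1
    norm_num at this
    linarith
  -- the four terms
  have T0 : Real.sqrt (Λ / Real.pi) * Real.exp (-(1 / 5 * Λ)) ≤
      285 / 100 * Real.exp (-(51 / 10)) := by
    have := ujb_term (x0 := 51 / 2) (x := Λ) (c := 1 / 5) 0 (by norm_num) hΛ (by norm_num)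
    rw [pow_zero, pow_zero, one_mul, one_mul] at this
    refine this.trans ?_
    have e : (1 / 5 * (51 / 2) : ℝ) = 51 / 10 := by norm_num
    rw [e]
    gcongr
  have T1 : Real.sqrt (Λ / Real.pi) * Real.exp (-(1 / 2 * Λ)) ≤
      285 / 100 * Real.exp (-(1 / 2 * (51 / 2))) := by
    have := ujb_term (x0 := 51 / 2) (x := Λ) (c := 1 / 2) 0 (by norm_num) hΛ (by norm_num)
    rw [pow_zero, pow_zero, one_mul, one_mul] at this
    refine this.trans ?_
    gcongr
  have T2 : Real.sqrt (Λ / Real.pi) * Real.exp (-(755 / 1000 * Λ)) ≤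
      285 / 100 * Real.exp (-(755 / 1000 * (51 / 2))) := by
    have := ujb_term (x0 := 51 / 2) (x := Λ) (c := 755 / 1000) 0 (by norm_num) hΛ (by norm_num)
    rw [pow_zero, pow_zero, one_mul, one_mul] at this
    refine this.trans ?_
    gcongr
  have T3 : Real.sqrt (Λ / Real.pi) * (Λ ^ 2 * Real.exp (-(691 / 1000 * Λ))) ≤
      285 / 100 * ((51 / 2) ^ 2 * Real.exp (-(691 / 1000 * (51 / 2)))) := by
    have := ujb_term (x0 := 51 / 2) (x := Λ) (c := 691 / 1000) 2 (by norm_num) hΛ (by norm_num)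
    refine this.trans ?_
    gcongr
  have n0 : Real.exp (-(51 / 10) + 108 / 10000) ≤ 1 / 161 := by
    have : (-(51 / 10) + 108 / 10000 : ℝ) = -(5 + 892 / 10000) := by norm_num
    rw [this]
    apply ujb_inv (by norm_num)
    rw [Real.exp_add]
    have h := Real.add_one_le_exp (892 / 10000 : ℝ)
    have h3 : (148 : ℝ) * (10892 / 10000) ≤ Real.exp 5 * Real.exp (892 / 10000) := by
      gcongr
      linarith
    norm_num at h3 ⊢
    linarith
  have n1 : Real.exp (-(1 / 2 * (51 / 2)) + 1 / 9) ≤ 1 / 100000 := by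
    have : Real.exp (-(1 / 2 * (51 / 2)) + 1 / 9) ≤ Real.exp (-12) := by
      apply Real.exp_le_exp.2
      norm_num
    exact this.trans (ujb_inv (by norm_num) e12)
  have n2 : Real.exp (-(755 / 1000 * (51 / 2))) ≤ 1 / 100000 := by
    have : Real.exp (-(755 / 1000 * (51 / 2))) ≤ Real.exp (-12) := by
      apply Real.exp_le_exp.2
      norm_num
    exact this.trans (ujb_inv (by norm_num) e12)
  have n3 : Real.exp (-(691 / 1000 * (51 / 2))) ≤ 1 / 10000000 := by
    have h1 : (10000000 : ℝ) ≤ Real.exp 17 := by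
      have := ujb_exp_nat 17 (by norm_num) he1
      norm_num at this
      linarith
    have : Real.exp (-(691 / 1000 * (51 / 2))) ≤ Real.exp (-17) := by
      apply Real.exp_le_exp.2
      norm_num
    exact this.trans (ujb_inv (by norm_num) h1)
  have T0' : Real.sqrt (Λ / Real.pi) *
      (1 / 2 * (Real.sqrt 2 * Real.exp (-(1 / 5 * Λ) + 108 / 10000))) ≤ 13 / 1000 := by
    have e1 : Real.exp (-(1 / 5 * Λ) + 108 / 10000) =
        Real.exp (-(1 / 5 * Λ)) * Real.exp (108 / 10000) := by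
      rw [← Real.exp_add]
    have e2 : Real.exp (-(51 / 10) + 108 / 10000) =
        Real.exp (-(51 / 10)) * Real.exp (108 / 10000) := by
      rw [← Real.exp_add]
    rw [e1]
    calc Real.sqrt (Λ / Real.pi) *
          (1 / 2 * (Real.sqrt 2 * (Real.exp (-(1 / 5 * Λ)) * Real.exp (108 / 10000))))
        = 1 / 2 * (Real.sqrt 2 * ((Real.sqrt (Λ / Real.pi) * Real.exp (-(1 / 5 * Λ))) *
            Real.exp (108 / 10000))) := by ring
      _ ≤ 1 / 2 * (14143 / 10000 * ((285 / 100 * Real.exp (-(51 / 10))) *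
            Real.exp (108 / 10000))) := by
          gcongr
      _ = 1 / 2 * (14143 / 10000) * (285 / 100) * Real.exp (-(51 / 10) + 108 / 10000) := by
          rw [e2]
          ring
      _ ≤ 1 / 2 * (14143 / 10000) * (285 / 100) * (1 / 161) := by gcongr
      _ ≤ 13 / 1000 := by norm_num
  have T1' : Real.sqrt (Λ / Real.pi) * (Real.sqrt 5 * Real.exp (-(Λ / 2) + 1 / 9)) ≤
      1 / 1000 := by
    have e1 : Real.exp (-(Λ / 2) + 1 / 9) = Real.exp (-(1 / 2 * Λ)) * Real.exp (1 / 9) := by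
      rw [← Real.exp_add]
      congr 1
      ring
    have e2 : Real.exp (-(1 / 2 * (51 / 2)) + 1 / 9) =
        Real.exp (-(1 / 2 * (51 / 2))) * Real.exp (1 / 9) := by
      rw [← Real.exp_add]
    rw [e1]
    calc Real.sqrt (Λ / Real.pi) * (Real.sqrt 5 * (Real.exp (-(1 / 2 * Λ)) * Real.exp (1 / 9)))
        = Real.sqrt 5 * ((Real.sqrt (Λ / Real.pi) * Real.exp (-(1 / 2 * Λ))) *
            Real.exp (1 / 9)) := by ring
      _ ≤ 22361 / 10000 * ((285 / 100 * Real.exp (-(1 / 2 * (51 / 2)))) *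
            Real.exp (1 / 9)) := by
          gcongr
      _ = 22361 / 10000 * (285 / 100) * Real.exp (-(1 / 2 * (51 / 2)) + 1 / 9) := by
          rw [e2]
          ring
      _ ≤ 22361 / 10000 * (285 / 100) * (1 / 100000) := by gcongr
      _ ≤ 1 / 1000 := by norm_num
  have T2' : Real.sqrt (Λ / Real.pi) * (2 * Real.sqrt 17 * Real.exp (-(755 / 1000 * Λ))) ≤
      1 / 1000 := by
    calc Real.sqrt (Λ / Real.pi) * (2 * Real.sqrt 17 * Real.exp (-(755 / 1000 * Λ)))
        = 2 * Real.sqrt 17 * (Real.sqrt (Λ / Real.pi) * Real.exp (-(755 / 1000 * Λ))) := by ring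
      _ ≤ 2 * (41232 / 10000) * (285 / 100 * (1 / 100000)) := by
          refine mul_le_mul (by linarith) (T2.trans ?_) (by positivity) (by norm_num)
          gcongr
      _ ≤ 1 / 1000 := by norm_num
  have T3' : Real.sqrt (Λ / Real.pi) * (47 / 100 * Λ ^ 2 * Real.exp (-(691 / 1000 * Λ))) ≤
      1 / 1000 := by
    calc Real.sqrt (Λ / Real.pi) * (47 / 100 * Λ ^ 2 * Real.exp (-(691 / 1000 * Λ)))
        = 47 / 100 * (Real.sqrt (Λ / Real.pi) * (Λ ^ 2 * Real.exp (-(691 / 1000 * Λ)))) := by ring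
      _ ≤ 47 / 100 * (285 / 100 * ((51 / 2) ^ 2 * (1 / 10000000))) := by
          refine mul_le_mul_of_nonneg_left (T3.trans ?_) (by norm_num)
          gcongr
      _ ≤ 1 / 1000 := by norm_num
  have h3 := ujb_sqrt_inv hΛ0 T1'
  have h4 := ujb_sqrt_inv hΛ0 T2'
  have h5 := ujb_sqrt_inv hΛ0 T3'
  have h6 := ujb_sqrt_inv hΛ0 T0'
  rw [hsplit]
  have h7 : 0 ≤ Real.sqrt (Real.pi / Λ) := Real.sqrt_nonneg _
  linarith

end Pool.Agent.Lib.Durfee
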