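import Pool.Agent.Lib.MP_9393b1_co.UUp

/-! # Regime U: lower bound of the coefficients -/

set_option autoImplicit false

namespace Pool.Agent.Lib.Durfee

open Complex MeasureTheory

private theorem ulo_one_add (t : ℝ) : (1 : ℂ) + (t : ℂ) * I ≠ 0 := by
  intro h
  have := congrArg Complex.re h
  simp at this

/-- the exponent -/
private theorem ulo_exponent {a L m t : ℝ} (ha : 0 < a) (h1 : a * m = L)
    (h2 : a * L = Real.pi ^ 2 / 3) :
    (m : ℂ) * us a t + (Real.pi : ℂ) ^ 2 / (3 * us a t) =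
      ((2 * L - L * t ^ 2 / (1 + t ^ 2) : ℝ) : ℂ) + ((L * t ^ 3 / (1 + t ^ 2) : ℝ) : ℂ) * I := by
  have haC : (a : ℂ) ≠ 0 := by exact_mod_cast ha.ne'
  have hus : us a t = a * (1 + t * I) := by
    unfold us
    push_cast
    ring
  have h3 := ulo_one_add t
  have h4 : (1 : ℂ) + (t : ℂ) ^ 2 ≠ 0 := by
    have : (0 : ℝ) < 1 + t ^ 2 := by positivity
    exact_mod_cast this.ne'
  have h5 : (1 + (t : ℂ) * I) * (1 - t * I) = 1 + (t : ℂ) ^ 2 := by
    linear_combination (-(t : ℂ) ^ 2) * I_sq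
  have h1C : (a : ℂ) * m = L := by exact_mod_cast h1
  have h2C : (Real.pi : ℂ) ^ 2 = 3 * ((a : ℂ) * L) := by
    have : Real.pi ^ 2 = 3 * (a * L) := by rw [h2]; ring
    exact_mod_cast this
  have e1 : (m : ℂ) * us a t = L * (1 + t * I) := by
    rw [hus, ← h1C]
    ring
  have e2 : (Real.pi : ℂ) ^ 2 / (3 * us a t) = L * (1 - t * I) / (1 + (t : ℂ) ^ 2) := by
    rw [hus, h2C, div_eq_div_iff (by simp [haC, h3]) h4, ← h5]
    ring
  rw [e1, e2]
  push_cast
  field_simp
  linear_combination (0 : ℂ) * I_sq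

private theorem ulo_point {m K : ℕ} {t : ℝ} (hm : 0 < (m : ℝ)) (ha : ua m ≤ 13 / 100)
    (hK : Real.exp (-(ua m * (K + 1))) / (1 - Real.exp (-ua m)) ≤ 1 / 400)
    (ht : 0 ≤ t) (ht1 : t ≤ 1 / 2) :
    ua m / (2 * Real.pi) * Real.exp (2 * uL m) *
      (Real.exp (-(uL m * t ^ 2 / (1 + t ^ 2))) *
        (Real.cos (uL m * t ^ 3 / (1 + t ^ 2)) - t * Real.sin (uL m * t ^ 3 / (1 + t ^ 2))) -
        1 / 50 * (Real.sqrt (1 + t ^ 2) * Real.exp (-(uL m * t ^ 2 / (1 + t ^ 2))))) ≤
      (exp (m * us (ua m) t) * (1 / (qfac (us (ua m) t) K) ^ 2)).re := by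
  have hpi := Real.pi_pos
  have hap := ua_pos hm
  obtain ⟨η, hη, hη1⟩ := inv_qfac_sq_main hap ha ht ht1 hK
  have hexp := ulo_exponent (t := t) hap (ua_mul hm) (ua_mul_uL hm)
  set a := ua m with hadef
  set L := uL m with hLdef
  set φ := L * t ^ 3 / (1 + t ^ 2) with hφ
  set E := Real.exp (-(L * t ^ 2 / (1 + t ^ 2))) with hE
  have hEpos : 0 < E := Real.exp_pos _
  set Z : ℂ := (1 + t * I) * exp (φ * I) with hZ
  have hus : us a t = a * (1 + t * I) := by
    unfold us
    push_cast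
    ring
  have hf : exp (m * us a t) * (1 / (qfac (us a t) K) ^ 2) =
      ((a / (2 * Real.pi) * Real.exp (2 * L) * E : ℝ) : ℂ) * (Z + Z * η) := by
    have e1 : exp (m * us a t) * exp ((Real.pi : ℂ) ^ 2 / (3 * us a t)) =
        ((Real.exp (2 * L) * E : ℝ) : ℂ) * exp (φ * I) := by
      rw [← Complex.exp_add]
      have e2 : (m : ℂ) * us a t + (Real.pi : ℂ) ^ 2 / (3 * us a t) =
          ((2 * L - L * t ^ 2 / (1 + t ^ 2) : ℝ) : ℂ) + (φ : ℂ) * I := by
        have := hexp
        push_cast at this ⊢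
        rw [this]
      rw [e2, Complex.exp_add, ← Complex.ofReal_exp]
      congr 2
      rw [hE, ← Real.exp_add]
      ring_nf
    rw [hη]
    calc exp (m * us a t) * (us a t / (2 * Real.pi) * exp ((Real.pi : ℂ) ^ 2 / (3 * us a t)) *
          (1 + η)) = us a t / (2 * Real.pi) * (exp (m * us a t) *
          exp ((Real.pi : ℂ) ^ 2 / (3 * us a t))) * (1 + η) := by ring
      _ = _ := by
          rw [e1, hus, hZ]
          push_cast
          ring
  have hZn : ‖Z‖ = Real.sqrt (1 + t ^ 2) := by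
    rw [hZ, norm_mul, Complex.norm_exp_ofReal_mul_I, mul_one, Complex.norm_def,
      Complex.normSq_apply]
    simp
    ring_nf
  have hZre : Z.re = Real.cos φ - t * Real.sin φ := by
    rw [hZ, Complex.mul_re, Complex.exp_ofReal_mul_I_re, Complex.exp_ofReal_mul_I_im]
    simp
  have hlow : Real.cos φ - t * Real.sin φ - 1 / 50 * Real.sqrt (1 + t ^ 2) ≤ (Z + Z * η).re := by
    rw [Complex.add_re, hZre]
    have h1 : |(Z * η).re| ≤ ‖Z * η‖ := Complex.abs_re_le_norm _
    rw [norm_mul, hZn] at h1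
    have h2 : Real.sqrt (1 + t ^ 2) * ‖η‖ ≤ Real.sqrt (1 + t ^ 2) * (1 / 50) :=
      mul_le_mul_of_nonneg_left hη1 (Real.sqrt_nonneg _)
    have h3 := (abs_le.mp h1).1
    linarith
  rw [hf, Complex.re_ofReal_mul]
  calc a / (2 * Real.pi) * Real.exp (2 * L) * (E * (Real.cos φ - t * Real.sin φ) -
        1 / 50 * (Real.sqrt (1 + t ^ 2) * E))
      = a / (2 * Real.pi) * Real.exp (2 * L) * E *
        (Real.cos φ - t * Real.sin φ - 1 / 50 * Real.sqrt (1 + t ^ 2)) := by ring
    _ ≤ _ := mul_le_mul_of_nonneg_left hlow (by positivity)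

theorem pk2_ge {K m : ℕ} (hm : 199 ≤ m)
    (hK : Real.exp (-(ua m * (K + 1))) / (1 - Real.exp (-ua m)) ≤ 1 / 400) :
    3 / 4 * uP m ≤ (rp_pk2 K m : ℝ) := by
  have hmR : (199 : ℝ) ≤ m := by exact_mod_cast hm
  have hm0 : (0 : ℝ) < m := by linarith
  have hpi := Real.pi_pos
  have hpi1 := Real.pi_gt_d2
  have hpi2 := Real.pi_lt_d2
  have hap := ua_pos hm0
  have hLp := uL_pos hm0
  have ha2 := ua_sq hm0
  have hL2 := uL_sq hm0
  have haL := ua_mul_uL hm0
  have ha : ua m ≤ 13 / 100 := by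
    have h1 : ua m ^ 2 ≤ (13 / 100) ^ 2 := by
      rw [ha2, div_le_iff₀ hm0]
      nlinarith
    exact (pow_le_pow_iff_left₀ hap.le (by norm_num) (by norm_num)).1 h1
  have hL : 51 / 2 ≤ uL m := by
    have h1 : (51 / 2 : ℝ) ^ 2 ≤ uL m ^ 2 := by
      rw [hL2]
      nlinarith
    exact (pow_le_pow_iff_left₀ (by norm_num) hLp.le (by norm_num)).1 h1
  set a := ua m with hadef
  set L := uL m with hLdef
  set S := Real.sqrt (Real.pi / L) with hS
  have hSpos : 0 < S := Real.sqrt_pos.2 (by positivity)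
  set f : ℝ → ℂ := fun t => exp (m * us a t) * (1 / (qfac (us a t) K) ^ 2) with hf
  have hfc : Continuous f := uf_continuous K m hap
  have hfre : Continuous fun t => (f t).re := continuous_re.comp hfc
  have hint := pk2_integral K m hap
  have hend : Real.pi / a = 3 * L / Real.pi := by
    rw [div_eq_div_iff hap.ne' hpi.ne']
    linarith
  rw [hend] at hint
  set B := 3 * L / Real.pi with hB
  have hB1 : 1 / 2 ≤ B := by
    rw [hB, le_div_iff₀ hpi]
    linarith
  have hint' : Real.pi * (rp_pk2 K m : ℝ) = a * ∫ t in (0 : ℝ)..B, (f t).re := hint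
  have hsplit : ∫ t in (0 : ℝ)..B, (f t).re =
      (∫ t in (0 : ℝ)..(1 / 2), (f t).re) + ∫ t in (1 / 2 : ℝ)..B, (f t).re :=
    (intervalIntegral.integral_add_adjacent_intervals (hfre.intervalIntegrable _ _)
      (hfre.intervalIntegrable _ _)).symm
  set C := a / (2 * Real.pi) * Real.exp (2 * L) with hC
  have hCpos : 0 < C := by positivity
  -- the head
  have hhead : C * (43 / 100 - 63 / 100 / 50) * S ≤ ∫ t in (0 : ℝ)..(1 / 2), (f t).re := by
    have hc1 : Continuous fun t : ℝ => Real.exp (-(L * t ^ 2 / (1 + t ^ 2))) := by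
      refine Real.continuous_exp.comp (Continuous.neg ?_)
      exact Continuous.div (by fun_prop) (by fun_prop) fun t => by positivity
    have hc2 : Continuous fun t : ℝ => L * t ^ 3 / (1 + t ^ 2) :=
      Continuous.div (by fun_prop) (by fun_prop) fun t => by positivity
    have hc3 : Continuous fun t : ℝ => Real.exp (-(L * t ^ 2 / (1 + t ^ 2))) *
        (Real.cos (L * t ^ 3 / (1 + t ^ 2)) - t * Real.sin (L * t ^ 3 / (1 + t ^ 2))) :=
      hc1.mul ((Real.continuous_cos.comp hc2).sub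
        (continuous_id.mul (Real.continuous_sin.comp hc2)))
    have hc4 : Continuous fun t : ℝ => Real.sqrt (1 + t ^ 2) *
        Real.exp (-(L * t ^ 2 / (1 + t ^ 2))) :=
      (Real.continuous_sqrt.comp (by fun_prop)).mul hc1
    have hc5 : Continuous fun t : ℝ => 1 / 50 * (Real.sqrt (1 + t ^ 2) *
        Real.exp (-(L * t ^ 2 / (1 + t ^ 2)))) := continuous_const.mul hc4
    have h1 : ∫ t in (0 : ℝ)..(1 / 2), C * (Real.exp (-(L * t ^ 2 / (1 + t ^ 2))) *
        (Real.cos (L * t ^ 3 / (1 + t ^ 2)) - t * Real.sin (L * t ^ 3 / (1 + t ^ 2))) -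
        1 / 50 * (Real.sqrt (1 + t ^ 2) * Real.exp (-(L * t ^ 2 / (1 + t ^ 2))))) ≤
        ∫ t in (0 : ℝ)..(1 / 2), (f t).re := by
      apply intervalIntegral.integral_mono_on (by norm_num)
      · exact (continuous_const.mul (hc3.sub hc5)).intervalIntegrable _ _
      · exact hfre.intervalIntegrable _ _
      · intro t ht
        exact ulo_point hm0 ha hK ht.1 ht.2
    rw [intervalIntegral.integral_const_mul, intervalIntegral.integral_sub
      (hc3.intervalIntegrable _ _) (hc5.intervalIntegrable _ _),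
      intervalIntegral.integral_const_mul] at h1
    have h2 := jL_main hL
    have h3 := jL_abs (Λ := L) hLp
    refine le_trans ?_ h1
    have h4 : (43 / 100 - 63 / 100 / 50) * S ≤
        (∫ t in (0 : ℝ)..(1 / 2), Real.exp (-(L * t ^ 2 / (1 + t ^ 2))) *
          (Real.cos (L * t ^ 3 / (1 + t ^ 2)) - t * Real.sin (L * t ^ 3 / (1 + t ^ 2)))) -
        1 / 50 * ∫ t in (0 : ℝ)..(1 / 2), Real.sqrt (1 + t ^ 2) *
          Real.exp (-(L * t ^ 2 / (1 + t ^ 2))) := by
      linarith
    calc C * (43 / 100 - 63 / 100 / 50) * S = C * ((43 / 100 - 63 / 100 / 50) * S) := by ring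
      _ ≤ _ := mul_le_mul_of_nonneg_left h4 hCpos.le
  -- the tail
  have htail : -(C * (10051 / 10000) * (2 / 100) * S) ≤ ∫ t in (1 / 2 : ℝ)..B, (f t).re := by
    set D := Real.exp (2 * (Real.exp (-(a * (K + 1))) / (1 - Real.exp (-a)))) with hD
    have hD1 : D ≤ 10051 / 10000 := by
      have h1 : D ≤ Real.exp (1 / 200) := by
        apply Real.exp_le_exp.2
        linarith
      have h2 : Real.exp (1 / 200 : ℝ) ≤ 1 / (1 - 1 / 200) :=
        Real.exp_bound_div_one_sub_of_interval (by norm_num) (by norm_num)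
      have h3 : (1 : ℝ) / (1 - 1 / 200) ≤ 10051 / 10000 := by norm_num
      linarith
    have hjc := jF_continuous (Λ := L) hLp
    have h1 : ‖∫ t in (1 / 2 : ℝ)..B, (f t).re‖ ≤ ∫ t in (1 / 2 : ℝ)..B, C * jF L t * D := by
      apply intervalIntegral.norm_integral_le_of_norm_le hB1
      · refine Filter.Eventually.of_forall fun t _ => ?_
        refine (Complex.abs_re_le_norm _).trans ?_
        exact norm_uf_le (by omega) K t
      · exact ((continuous_const.mul hjc).mul continuous_const).intervalIntegrable _ _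
    rw [intervalIntegral.integral_mul_const, intervalIntegral.integral_const_mul] at h1
    have h2 := jL_tail hL
    have h3 : C * (∫ t in (1 / 2 : ℝ)..B, jF L t) * D ≤ C * (2 / 100 * S) * (10051 / 10000) := by
      have hjn : 0 ≤ ∫ t in (1 / 2 : ℝ)..B, jF L t :=
        intervalIntegral.integral_nonneg hB1 fun t _ => by unfold jF; positivity
      have hD0 : 0 < D := Real.exp_pos _
      gcongr
    have h4 := (abs_le.mp (h1.trans h3)).1
    linarith
  have hmain : a * (C * (397 / 1000) * S) ≤ Real.pi * (rp_pk2 K m : ℝ) := by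
    rw [hint', hsplit]
    apply mul_le_mul_of_nonneg_left _ hap.le
    have hCS : 0 < C * S := by positivity
    nlinarith
  have hval : a * (C * (397 / 1000) * S) = Real.pi * (794 / 1000 * uP m) := by
    have h1 : a * C = Real.pi / (6 * m) * Real.exp (2 * L) := by
      rw [hC]
      have : a * (a / (2 * Real.pi) * Real.exp (2 * L)) =
          a ^ 2 / (2 * Real.pi) * Real.exp (2 * L) := by ring
      rw [this, ha2]
      field_simp
      norm_num
    rw [show uP (m : ℝ) = 1 / (12 * m) * S * Real.exp (2 * L) from rfl]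
    calc a * (C * (397 / 1000) * S) = a * C * (397 / 1000) * S := by ring
      _ = _ := by
        rw [h1]
        field_simp
        norm_num
  rw [hval] at hmain
  have h5 := le_of_mul_le_mul_left hmain hpi
  have h6 := uP_pos hm0
  linarith

end Pool.Agent.Lib.Durfee
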