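import Pool.Agent.Lib.MP_9393b1_co.Repr

/-! # Regime U: monotonicity of the coefficients -/

set_option autoImplicit false

namespace Pool.Agent.Lib.Durfee

theorem pk_mono_left {K K' : ℕ} (h : K ≤ K') (m : ℕ) : pk K m ≤ pk K' m := by
  induction K', h using Nat.le_induction with
  | base => exact le_refl _
  | succ k _ ih =>
    refine ih.trans ?_
    rw [rp_pk_succ]
    exact Nat.le_add_right _ _

private theorem umono_one (m : ℕ) : pk 1 m = 1 := by
  induction m using Nat.strong_induction_on with
  | _ m ih =>
    rw [rp_pk_succ 0 m, rp_pk_zero]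
    rcases Nat.eq_zero_or_pos m with hm | hm
    · subst hm
      simp
    · rw [if_neg (by omega), if_pos (by omega), ih (m - (0 + 1)) (by omega)]

private theorem umono_step (K : ℕ) : ∀ m : ℕ, pk (K + 1) m ≤ pk (K + 1) (m + 1) := by
  induction K with
  | zero =>
    intro m
    rw [umono_one, umono_one]
  | succ K ih =>
    intro m
    induction m using Nat.strong_induction_on with
    | _ m ih2 =>
      rw [rp_pk_succ (K + 1) m, rp_pk_succ (K + 1) (m + 1)]
      refine Nat.add_le_add (ih m) ?_
      by_cases h : K + 1 + 1 ≤ m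
      · rw [if_pos h, if_pos (by omega)]
        have := ih2 (m - (K + 1 + 1)) (by omega)
        have e : m + 1 - (K + 1 + 1) = m - (K + 1 + 1) + 1 := by omega
        rw [e]
        exact this
      · rw [if_neg h]
        exact Nat.zero_le _

theorem pk_mono_right {K : ℕ} (hK : 1 ≤ K) {m m' : ℕ} (h : m ≤ m') : pk K m ≤ pk K m' := by
  obtain ⟨K, rfl⟩ := Nat.exists_eq_add_of_le' hK
  induction m', h using Nat.le_induction with
  | base => exact le_refl _
  | succ k _ ih => exact ih.trans (umono_step K k)

theorem pk2_mono_left {K K' : ℕ} (h : K ≤ K') (m : ℕ) : rp_pk2 K m ≤ rp_pk2 K' m := by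
  unfold rp_pk2
  exact Finset.sum_le_sum fun p _ => Nat.mul_le_mul (pk_mono_left h _) (pk_mono_left h _)

theorem pk2_mono_right {K : ℕ} (hK : 1 ≤ K) {m m' : ℕ} (h : m ≤ m') :
    rp_pk2 K m ≤ rp_pk2 K m' := by
  induction m', h using Nat.le_induction with
  | base => exact le_refl _
  | succ k _ ih =>
    refine ih.trans ?_
    unfold rp_pk2
    rw [Finset.Nat.antidiagonal_succ', Finset.sum_cons, Finset.sum_map]
    refine le_trans ?_ (Nat.le_add_left _ _)
    refine Finset.sum_le_sum fun p _ => ?_
    exact Nat.mul_le_mul_left _ (pk_mono_right hK (Nat.le_succ _))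

end Pool.Agent.Lib.Durfee
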