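import Pool.Agent.Lib.MP_9393b1_co.UDefs

/-! # Regime U: elementary facts on the infinite products -/

set_option autoImplicit false

namespace Pool.Agent.Lib.Durfee

open Complex Filter Topology

private theorem up_norm_q {s : ℂ} : ‖exp (-s)‖ = Real.exp (-s.re) := by
  rw [norm_exp]
  simp

private theorem up_q_lt {s : ℂ} (hs : 0 < s.re) : ‖exp (-s)‖ < 1 := by
  rw [up_norm_q, Real.exp_lt_one_iff]
  linarith

private theorem up_mult {q : ℂ} (hq : ‖q‖ < 1) (K : ℕ) :
    Multipliable fun i : ℕ => 1 - q ^ (K + i + 1) := by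
  have h : Multipliable fun i : ℕ => 1 + (-q ^ (K + i + 1)) := by
    apply multipliable_one_add_of_summable
    have h1 : Summable (fun i : ℕ => ‖q‖ ^ (K + 1) * ‖q‖ ^ i) :=
      (summable_geometric_of_lt_one (norm_nonneg _) hq).mul_left _
    refine h1.congr fun i => ?_
    rw [norm_neg, norm_pow, ← pow_add]
    congr 1
    omega
  simpa [sub_eq_add_neg] using h

theorem EE_eq_qfac_mul {s : ℂ} (hs : 0 < s.re) (K : ℕ) : EE s = qfac s K * TLp s K := by
  have hq := up_q_lt hs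
  have h1 := (up_mult hq 0)
  simp only [zero_add] at h1
  have h2 : Multipliable fun i : ℕ => 1 - exp (-s) ^ (i + K + 1) :=
    (up_mult hq K).congr fun i => by rw [add_comm K i]
  have h3 := h2.prod_mul_tprod_nat_mul' (f := fun i : ℕ => 1 - exp (-s) ^ (i + 1)) (k := K)
  unfold EE TLp
  rw [rp_qfac_eq, ← h3]
  congr 1
  apply tprod_congr
  intro i
  rw [add_comm K i]

theorem EE_ne_zero {s : ℂ} (hs : 0 < s.re) : EE s ≠ 0 := by
  have hq := up_q_lt hs
  unfold EE
  have h : ∏' i : ℕ, (1 + (-exp (-s) ^ (i + 1))) ≠ 0 := by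
    refine tprod_one_add_ne_zero_of_summable (f := fun i : ℕ => -exp (-s) ^ (i + 1)) ?_ ?_
    · intro i h0
      have h1 : exp (-s) ^ (i + 1) = 1 := by linear_combination -h0
      have h2 : ‖exp (-s)‖ ^ (i + 1) = 1 := by rw [← norm_pow, h1, norm_one]
      have h3 := pow_lt_one₀ (norm_nonneg _) hq (n := i + 1) (by omega)
      linarith
    · have h1 : Summable (fun i : ℕ => ‖exp (-s)‖ * ‖exp (-s)‖ ^ i) :=
        (summable_geometric_of_lt_one (norm_nonneg _) hq).mul_left _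
      refine h1.congr fun i => ?_
      rw [norm_neg, norm_pow, pow_succ']
  simpa [sub_eq_add_neg] using h

private theorem up_fin_le {s : ℂ} (hs : 0 < s.re) (K N : ℕ) :
    ∑ i ∈ Finset.range N, ‖-exp (-s) ^ (K + i + 1)‖ ≤
      Real.exp (-(s.re * (K + 1))) / (1 - Real.exp (-s.re)) := by
  have hr1 : Real.exp (-s.re) < 1 := by rw [Real.exp_lt_one_iff]; linarith
  have hr0 : 0 < Real.exp (-s.re) := Real.exp_pos _
  set r := Real.exp (-s.re) with hr
  have h1 : ∀ i : ℕ, ‖-exp (-s) ^ (K + i + 1)‖ = r ^ (K + 1) * r ^ i := by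
    intro i
    rw [norm_neg, norm_pow, up_norm_q, ← pow_add]
    congr 1
    omega
  have h2 : Real.exp (-(s.re * (K + 1))) = r ^ (K + 1) := by
    rw [hr, ← Real.exp_nat_mul]
    congr 1
    push_cast
    ring
  rw [h2]
  simp only [h1]
  rw [← Finset.mul_sum, div_eq_mul_inv]
  gcongr
  have h3 := (summable_geometric_of_lt_one hr0.le hr1).sum_le_tsum (Finset.range N)
    (fun i _ => by positivity)
  rw [tsum_geometric_of_lt_one hr0.le hr1] at h3
  exact h3

theorem norm_TLp_sub_one_le {s : ℂ} (hs : 0 < s.re) (K : ℕ) :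
    ‖TLp s K - 1‖ ≤
      Real.exp (Real.exp (-(s.re * (K + 1))) / (1 - Real.exp (-s.re))) - 1 := by
  have hq := up_q_lt hs
  have h1 := (up_mult hq K).hasProd.tendsto_prod_nat
  have h2 : Tendsto (fun N => ‖∏ i ∈ Finset.range N, (1 - exp (-s) ^ (K + i + 1)) - 1‖) atTop
      (𝓝 ‖TLp s K - 1‖) := (h1.sub_const 1).norm
  refine le_of_tendsto' h2 fun N => ?_
  have h3 := Finset.norm_prod_one_add_sub_one_le (Finset.range N)
    (fun i : ℕ => -exp (-s) ^ (K + i + 1))
  simp only [← sub_eq_add_neg] at h3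
  refine h3.trans ?_
  have := up_fin_le hs K N
  gcongr

theorem norm_TLp_le {s : ℂ} (hs : 0 < s.re) (K : ℕ) :
    ‖TLp s K‖ ≤ Real.exp (Real.exp (-(s.re * (K + 1))) / (1 - Real.exp (-s.re))) := by
  have h1 := norm_TLp_sub_one_le hs K
  have h2 : ‖TLp s K‖ ≤ ‖TLp s K - 1‖ + ‖(1 : ℂ)‖ := by
    calc ‖TLp s K‖ = ‖(TLp s K - 1) + 1‖ := by ring_nf
      _ ≤ _ := norm_add_le _ _
  rw [norm_one] at h2
  linarith

private theorem up_log_fin {x : ℝ} (hx : 0 < x) (N : ℕ) :
    ∑ i ∈ Finset.range N, -Real.log (1 - Real.exp (-x) ^ (i + 1)) ≤ Real.pi ^ 2 / (6 * x) := by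
  have hr1 : Real.exp (-x) < 1 := by rw [Real.exp_lt_one_iff]; linarith
  have hr0 : 0 < Real.exp (-x) := Real.exp_pos _
  set r := Real.exp (-x) with hr
  have h1 : ∀ i : ℕ, HasSum (fun k : ℕ => (r ^ (i + 1)) ^ (k + 1) / (k + 1))
      (-Real.log (1 - r ^ (i + 1))) := by
    intro i
    apply Real.hasSum_pow_div_log_of_abs_lt_one
    rw [abs_of_nonneg (by positivity)]
    exact pow_lt_one₀ hr0.le hr1 (by omega)
  have h2 := hasSum_sum (s := Finset.range N) (fun i _ => h1 i)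
  have h3 : HasSum (fun k : ℕ => 1 / ((k : ℝ) + 1) ^ 2 / x) (Real.pi ^ 2 / 6 / x) := by
    have h4 := hasSum_zeta_two
    have h5 := (hasSum_nat_add_iff' (f := fun n : ℕ => 1 / (n : ℝ) ^ 2) 1).2 h4
    simp only [Finset.range_one, Finset.sum_singleton, Nat.cast_zero] at h5
    norm_num at h5
    have h6 := h5.div_const x
    refine h6.congr_fun fun k => ?_
    simp
  have h7 : Real.pi ^ 2 / (6 * x) = Real.pi ^ 2 / 6 / x := by field_simp
  rw [h7]
  refine hasSum_le (fun k => ?_) h2 h3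
  have hk : (0 : ℝ) < (k : ℝ) + 1 := by positivity
  set R := r ^ (k + 1) with hR
  have hR1 : R < 1 := pow_lt_one₀ hr0.le hr1 (by omega)
  have hR0 : 0 < R := by positivity
  have h8 : ∀ i : ℕ, (r ^ (i + 1)) ^ (k + 1) / ((k : ℝ) + 1) = R * R ^ i / (k + 1) := by
    intro i
    rw [hR, ← pow_mul, ← pow_mul, ← pow_add]
    congr 2
    ring
  simp only [h8]
  rw [← Finset.sum_div, ← Finset.mul_sum]
  have h9 : ∑ i ∈ Finset.range N, R ^ i ≤ 1 / (1 - R) := by
    have h3 := (summable_geometric_of_lt_one hR0.le hR1).sum_le_tsum (Finset.range N)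
      (fun i _ => by positivity)
    rw [tsum_geometric_of_lt_one hR0.le hR1] at h3
    rwa [one_div]
  have h10 : R * (1 / (1 - R)) ≤ 1 / ((k + 1) * x) := by
    rw [mul_one_div, div_le_div_iff₀ (by linarith) (by positivity)]
    have h11 : R = Real.exp (-((k + 1) * x)) := by
      rw [hR, hr, ← Real.exp_nat_mul]
      congr 1
      push_cast
      ring
    have h12 : R * Real.exp ((k + 1) * x) = 1 := by
      rw [h11, ← Real.exp_add]
      simp
    have h13 := Real.add_one_le_exp ((k + 1) * x)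
    have h14 : R * ((k + 1) * x + 1) ≤ 1 :=
      (mul_le_mul_of_nonneg_left h13 hR0.le).trans h12.le
    linarith
  calc (R * ∑ i ∈ Finset.range N, R ^ i) / ((k : ℝ) + 1)
      ≤ R * (1 / (1 - R)) / (k + 1) := by gcongr
    _ ≤ 1 / ((k + 1) * x) / (k + 1) := by gcongr
    _ = 1 / ((k : ℝ) + 1) ^ 2 / x := by field_simp

/-- `1/|EE s| ≤ exp(π²/(6 Re s))` -/
theorem norm_inv_EE_le {s : ℂ} (hs : 0 < s.re) :
    ‖(EE s)⁻¹‖ ≤ Real.exp (Real.pi ^ 2 / (6 * s.re)) := by
  have hq := up_q_lt hs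
  have hE := EE_ne_zero hs
  have h1 := (up_mult hq 0).hasProd.tendsto_prod_nat
  simp only [zero_add] at h1
  have h2 : Tendsto (fun N => ‖∏ i ∈ Finset.range N, (1 - exp (-s) ^ (i + 1))‖) atTop
      (𝓝 ‖EE s‖) := h1.norm
  have h3 : Real.exp (-(Real.pi ^ 2 / (6 * s.re))) ≤ ‖EE s‖ := by
    refine ge_of_tendsto' h2 fun N => ?_
    have hr1 : Real.exp (-s.re) < 1 := by rw [Real.exp_lt_one_iff]; linarith
    have hr0 : 0 < Real.exp (-s.re) := Real.exp_pos _
    have h4 := up_log_fin hs N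
    have h5 : ∏ i ∈ Finset.range N, (1 - Real.exp (-s.re) ^ (i + 1)) ≤
        ‖∏ i ∈ Finset.range N, (1 - exp (-s) ^ (i + 1))‖ := by
      rw [norm_prod]
      apply Finset.prod_le_prod
      · intro i _
        have := pow_lt_one₀ hr0.le hr1 (n := i + 1) (by omega)
        linarith
      · intro i _
        have h6 := norm_sub_norm_le (1 : ℂ) (exp (-s) ^ (i + 1))
        rw [norm_one, norm_pow, up_norm_q] at h6
        exact h6
    refine le_trans ?_ h5
    have h7 : ∏ i ∈ Finset.range N, (1 - Real.exp (-s.re) ^ (i + 1)) =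
        Real.exp (∑ i ∈ Finset.range N, Real.log (1 - Real.exp (-s.re) ^ (i + 1))) := by
      rw [Real.exp_sum]
      apply Finset.prod_congr rfl
      intro i _
      rw [Real.exp_log]
      have := pow_lt_one₀ hr0.le hr1 (n := i + 1) (by omega)
      linarith
    rw [h7]
    apply Real.exp_le_exp.2
    rw [Finset.sum_neg_distrib] at h4
    linarith
  rw [norm_inv]
  have h4 : 0 < ‖EE s‖ := norm_pos_iff.2 hE
  rw [inv_le_comm₀ h4 (Real.exp_pos _), ← Real.exp_neg]
  exact h3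

end Pool.Agent.Lib.Durfee
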