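import Pool.Agent.Lib.MP_9393b1_co.UEta
import Pool.Agent.Lib.MP_9393b1_co.UProd

/-! # Regime U: bounds of the generating function -/

set_option autoImplicit false

namespace Pool.Agent.Lib.Durfee

open Complex

private theorem un_re_inv {s : ℂ} (hs : 0 < s.re) : 0 < (4 * Real.pi ^ 2 / s).re := by
  have h : (4 * (Real.pi : ℂ) ^ 2 / s) = ((4 * Real.pi ^ 2 : ℝ) : ℂ) * s⁻¹ := by
    push_cast
    rw [div_eq_mul_inv]
  have hs0 : s ≠ 0 := by
    intro h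
    rw [h] at hs
    simp at hs
  have := Real.pi_pos
  rw [h, Complex.re_ofReal_mul, Complex.inv_re]
  have h2 : 0 < Complex.normSq s := Complex.normSq_pos.2 hs0
  positivity

/-- the formula for `1/qfac²` -/
theorem inv_qfac_sq_eq {s : ℂ} (hs : 0 < s.re) (K : ℕ) :
    1 / (qfac s K) ^ 2 = s / (2 * Real.pi) * exp (Real.pi ^ 2 / (3 * s)) *
      (TLp s K ^ 2 * exp (-(s / 12)) * ((EE (4 * Real.pi ^ 2 / s))⁻¹) ^ 2) := by
  have hs0 : s ≠ 0 := by
    intro h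
    rw [h] at hs
    simp at hs
  have hpi : (Real.pi : ℂ) ≠ 0 := by exact_mod_cast Real.pi_pos.ne'
  have h1 := EE_eq_qfac_mul hs K
  have h2 := EE_ne_zero hs
  have h3 := EE_ne_zero (un_re_inv hs)
  have h4 := EE_modular hs
  have hq : qfac s K ≠ 0 := by
    intro h
    rw [h, zero_mul] at h1
    exact h2 h1
  have hT : TLp s K ≠ 0 := by
    intro h
    rw [h, mul_zero] at h1
    exact h2 h1
  have h5 : exp (s / 12 - Real.pi ^ 2 / (3 * s)) *
      (exp (Real.pi ^ 2 / (3 * s)) * exp (-(s / 12))) = 1 := by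
    rw [← Complex.exp_add, ← Complex.exp_add]
    have : s / 12 - Real.pi ^ 2 / (3 * s) + (Real.pi ^ 2 / (3 * s) + -(s / 12)) = 0 := by ring
    rw [this, Complex.exp_zero]
  rw [h1] at h4
  rw [div_eq_iff (pow_ne_zero 2 hq)]
  set E := EE (4 * Real.pi ^ 2 / s) with hE
  have h6 : (E⁻¹) ^ 2 * E ^ 2 = 1 := by
    rw [inv_pow, inv_mul_cancel₀ (pow_ne_zero 2 h3)]
  have h7 : s / (2 * Real.pi) * (2 * Real.pi / s) = 1 := by
    field_simp
  calc (1 : ℂ) = (s / (2 * Real.pi) * (2 * Real.pi / s)) * (exp (s / 12 - Real.pi ^ 2 / (3 * s)) *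
      (exp (Real.pi ^ 2 / (3 * s)) * exp (-(s / 12)))) * ((E⁻¹) ^ 2 * E ^ 2) := by
        rw [h5, h6, h7]
        ring
    _ = s / (2 * Real.pi) * exp (Real.pi ^ 2 / (3 * s)) * exp (-(s / 12)) * (E⁻¹) ^ 2 *
        (2 * Real.pi / s * exp (s / 12 - Real.pi ^ 2 / (3 * s)) * E ^ 2) := by ring
    _ = s / (2 * Real.pi) * exp (Real.pi ^ 2 / (3 * s)) * exp (-(s / 12)) * (E⁻¹) ^ 2 *
        (qfac s K * TLp s K) ^ 2 := by rw [h4]
    _ = _ := by ring

private theorem un_re_inv_us {σ : ℝ} (hσ : 0 < σ) (t : ℝ) :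
    ((us σ t)⁻¹).re = 1 / (σ * (1 + t ^ 2)) := by
  rw [Complex.inv_re, Complex.normSq_apply, us_re, us_im]
  have : (0:ℝ) < 1 + t ^ 2 := by positivity
  field_simp

private theorem un_re_div_us {σ : ℝ} (hσ : 0 < σ) (t c : ℝ) :
    ((c : ℂ) / us σ t).re = c / (σ * (1 + t ^ 2)) := by
  rw [div_eq_mul_inv, Complex.re_ofReal_mul, un_re_inv_us hσ, mul_one_div]

theorem norm_inv_qfac_sq_le {σ : ℝ} (hσ : 0 < σ) (t : ℝ) (K : ℕ) :
    ‖1 / (qfac (us σ t) K) ^ 2‖ ≤ σ * Real.sqrt (1 + t ^ 2) / (2 * Real.pi) *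
      Real.exp (Real.pi ^ 2 / (3 * σ * (1 + t ^ 2)) + σ * t ^ 2 / 12) *
      Real.exp (2 * (Real.exp (-(σ * (K + 1))) / (1 - Real.exp (-σ)))) := by
  have hpi := Real.pi_pos
  have hs : 0 < (us σ t).re := by rw [us_re]; exact hσ
  have ht : (0:ℝ) < 1 + t ^ 2 := by positivity
  rw [inv_qfac_sq_eq hs K, norm_mul, norm_mul, norm_mul, norm_mul, norm_pow, norm_pow, norm_div,
    norm_us hσ, Complex.norm_exp, Complex.norm_exp]
  have h1 : ‖(2 * (Real.pi : ℂ))‖ = 2 * Real.pi := by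
    rw [norm_mul, Complex.norm_real, Real.norm_of_nonneg hpi.le]
    norm_num
  have h2 : ((Real.pi : ℂ) ^ 2 / (3 * us σ t)).re = Real.pi ^ 2 / (3 * σ * (1 + t ^ 2)) := by
    have : ((Real.pi : ℂ) ^ 2 / (3 * us σ t)) = ((Real.pi ^ 2 / 3 : ℝ) : ℂ) / us σ t := by
      push_cast
      rw [div_div]
    rw [this, un_re_div_us hσ]
    field_simp
  have h3 : (-(us σ t / 12)).re = -(σ / 12) := by
    rw [Complex.neg_re]
    have : us σ t / 12 = ((1 / 12 : ℝ) : ℂ) * us σ t := by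
      push_cast
      ring
    rw [this, Complex.re_ofReal_mul, us_re]
    ring
  have h4 := norm_inv_EE_le (un_re_inv hs)
  have h5 : (4 * (Real.pi : ℂ) ^ 2 / us σ t).re = 4 * Real.pi ^ 2 / (σ * (1 + t ^ 2)) := by
    have : (4 * (Real.pi : ℂ) ^ 2 / us σ t) = ((4 * Real.pi ^ 2 : ℝ) : ℂ) / us σ t := by
      push_cast
      ring
    rw [this, un_re_div_us hσ]
  rw [h5] at h4
  have h6 : Real.pi ^ 2 / (6 * (4 * Real.pi ^ 2 / (σ * (1 + t ^ 2)))) = σ * (1 + t ^ 2) / 24 := by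
    field_simp
    norm_num
  rw [h6] at h4
  have h7 := norm_TLp_le hs K
  rw [us_re] at h7
  rw [h1, h2, h3]
  set D := Real.exp (-(σ * (K + 1))) / (1 - Real.exp (-σ)) with hD
  have h8 : ‖TLp (us σ t) K‖ ^ 2 ≤ Real.exp (2 * D) := by
    calc ‖TLp (us σ t) K‖ ^ 2 ≤ (Real.exp D) ^ 2 := by gcongr
      _ = Real.exp (2 * D) := by
        rw [← Real.exp_nat_mul]
        norm_num
  have h9 : ‖(EE (4 * (Real.pi : ℂ) ^ 2 / us σ t))⁻¹‖ ^ 2 ≤ Real.exp (σ * (1 + t ^ 2) / 12) := by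
    calc ‖(EE (4 * (Real.pi : ℂ) ^ 2 / us σ t))⁻¹‖ ^ 2
        ≤ (Real.exp (σ * (1 + t ^ 2) / 24)) ^ 2 := by gcongr
      _ = Real.exp (σ * (1 + t ^ 2) / 12) := by
        rw [← Real.exp_nat_mul]
        congr 1
        push_cast
        ring
  calc σ * Real.sqrt (1 + t ^ 2) / (2 * Real.pi) * Real.exp (Real.pi ^ 2 / (3 * σ * (1 + t ^ 2))) *
        (‖TLp (us σ t) K‖ ^ 2 * Real.exp (-(σ / 12)) *
          ‖(EE (4 * (Real.pi : ℂ) ^ 2 / us σ t))⁻¹‖ ^ 2)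
      ≤ σ * Real.sqrt (1 + t ^ 2) / (2 * Real.pi) *
        Real.exp (Real.pi ^ 2 / (3 * σ * (1 + t ^ 2))) *
        (Real.exp (2 * D) * Real.exp (-(σ / 12)) * Real.exp (σ * (1 + t ^ 2) / 12)) := by
        gcongr
    _ = σ * Real.sqrt (1 + t ^ 2) / (2 * Real.pi) *
        (Real.exp (Real.pi ^ 2 / (3 * σ * (1 + t ^ 2))) *
        (Real.exp (-(σ / 12)) * Real.exp (σ * (1 + t ^ 2) / 12))) * Real.exp (2 * D) := by ring
    _ = _ := by
        rw [← Real.exp_add, ← Real.exp_add]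
        congr 3
        ring

/-- `|abc - 1| ≤ (1+α)(1+β)(1+γ) - 1` -/
private theorem un_three {a b c : ℂ} {α β γ : ℝ} (ha : ‖a - 1‖ ≤ α) (hb : ‖b - 1‖ ≤ β)
    (hc : ‖c - 1‖ ≤ γ) : ‖a * b * c - 1‖ ≤ (1 + α) * (1 + β) * (1 + γ) - 1 := by
  have ha0 := norm_nonneg (a - 1)
  have hb0 := norm_nonneg (b - 1)
  have hc0 := norm_nonneg (c - 1)
  have e : a * b * c - 1 = (a - 1) + (b - 1) + (c - 1) + (a - 1) * (b - 1) + (a - 1) * (c - 1) +
    (b - 1) * (c - 1) + (a - 1) * (b - 1) * (c - 1) := by ring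
  rw [e]
  refine (norm_add_le _ _).trans ?_
  refine (add_le_add (norm_add_le _ _) le_rfl).trans ?_
  refine (add_le_add (add_le_add (norm_add_le _ _) le_rfl) le_rfl).trans ?_
  refine (add_le_add (add_le_add (add_le_add (norm_add_le _ _) le_rfl) le_rfl) le_rfl).trans ?_
  refine (add_le_add (add_le_add (add_le_add (add_le_add (norm_add_le _ _) le_rfl) le_rfl)
    le_rfl) le_rfl).trans ?_
  refine (add_le_add (add_le_add (add_le_add (add_le_add (add_le_add (norm_add_le _ _) le_rfl)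
    le_rfl) le_rfl) le_rfl) le_rfl).trans ?_
  rw [norm_mul, norm_mul, norm_mul, norm_mul, norm_mul]
  have h1 : ‖a - 1‖ * ‖b - 1‖ ≤ α * β := mul_le_mul ha hb hb0 (ha0.trans ha)
  have h2 : ‖a - 1‖ * ‖c - 1‖ ≤ α * γ := mul_le_mul ha hc hc0 (ha0.trans ha)
  have h3 : ‖b - 1‖ * ‖c - 1‖ ≤ β * γ := mul_le_mul hb hc hc0 (hb0.trans hb)
  have h4 : ‖a - 1‖ * ‖b - 1‖ * ‖c - 1‖ ≤ α * β * γ :=
    mul_le_mul h1 hc hc0 (mul_nonneg (ha0.trans ha) (hb0.trans hb))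
  nlinarith

private theorem un_sq {a : ℂ} {α : ℝ} (ha : ‖a - 1‖ ≤ α) : ‖a ^ 2 - 1‖ ≤ (1 + α) ^ 2 - 1 := by
  have ha0 := norm_nonneg (a - 1)
  have e : a ^ 2 - 1 = (a - 1) * (a - 1) + 2 * (a - 1) := by ring
  rw [e]
  refine (norm_add_le _ _).trans ?_
  rw [norm_mul, norm_mul]
  have h1 : ‖a - 1‖ * ‖a - 1‖ ≤ α * α := mul_le_mul ha ha ha0 (ha0.trans ha)
  have h2 : ‖(2 : ℂ)‖ = 2 := by norm_num
  rw [h2]
  nlinarith

private theorem un_exp_sub_one (E : ℂ) : ‖exp E - 1‖ ≤ ‖E‖ * Real.exp ‖E‖ := by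
  have := Complex.norm_exp_sub_sum_le_norm_mul_exp E 1
  simpa using this

private theorem un_inv {b : ℂ} (hb : ‖b - 1‖ ≤ 1 / 10 ^ 6) : ‖b⁻¹ - 1‖ ≤ 2 / 10 ^ 6 := by
  have h1 : 1 - 1 / 10 ^ 6 ≤ ‖b‖ := by
    have h2 : ‖(1 : ℂ)‖ ≤ ‖b‖ + ‖b - 1‖ := by
      calc ‖(1 : ℂ)‖ = ‖b - (b - 1)‖ := by ring_nf
        _ ≤ _ := norm_sub_le _ _
    rw [norm_one] at h2
    linarith
  have hb0 : b ≠ 0 := by
    intro h
    rw [h, norm_zero] at h1
    norm_num at h1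
  have e : b⁻¹ - 1 = -(b - 1) * b⁻¹ := by
    field_simp
    ring
  rw [e, norm_mul, norm_neg, norm_inv, ← div_eq_mul_inv, div_le_iff₀ (by linarith)]
  calc ‖b - 1‖ ≤ 1 / 10 ^ 6 := hb
    _ ≤ 2 / 10 ^ 6 * (1 - 1 / 10 ^ 6) := by norm_num
    _ ≤ _ := by gcongr

theorem inv_qfac_sq_main {σ t : ℝ} (hσ : 0 < σ) (hσ1 : σ ≤ 13 / 100) (ht : 0 ≤ t)
    (ht1 : t ≤ 1 / 2) {K : ℕ}
    (hK : Real.exp (-(σ * (K + 1))) / (1 - Real.exp (-σ)) ≤ 1 / 400) :
    ∃ η : ℂ, 1 / (qfac (us σ t) K) ^ 2 =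
      us σ t / (2 * Real.pi) * exp (Real.pi ^ 2 / (3 * us σ t)) * (1 + η) ∧ ‖η‖ ≤ 1 / 50 := by
  have hpi := Real.pi_gt_three
  have hs : 0 < (us σ t).re := by rw [us_re]; exact hσ
  refine ⟨TLp (us σ t) K ^ 2 * exp (-(us σ t / 12)) *
    ((EE (4 * Real.pi ^ 2 / us σ t))⁻¹) ^ 2 - 1, ?_, ?_⟩
  · rw [inv_qfac_sq_eq hs K]
    ring
  · have h1 : ‖TLp (us σ t) K - 1‖ ≤ 251 / 100000 := by
      have h2 := norm_TLp_sub_one_le hs K
      rw [us_re] at h2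
      have h3 : Real.exp (Real.exp (-(σ * (K + 1))) / (1 - Real.exp (-σ))) ≤
          Real.exp (1 / 400) := Real.exp_le_exp.2 hK
      have h4 : Real.exp (1 / 400 : ℝ) ≤ 1 / (1 - 1 / 400) :=
        Real.exp_bound_div_one_sub_of_interval (by norm_num) (by norm_num)
      have h5 : (1 : ℝ) / (1 - 1 / 400) ≤ 1 + 251 / 100000 := by norm_num
      linarith
    have h2 : ‖exp (-(us σ t / 12)) - 1‖ ≤ 124 / 10000 := by
      have h3 : ‖-(us σ t / 12)‖ ≤ 1212 / 100000 := by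
        rw [norm_neg, norm_div, norm_us hσ]
        have h4 : Real.sqrt (1 + t ^ 2) ≤ 11181 / 10000 := by
          rw [Real.sqrt_le_left (by norm_num)]
          nlinarith
        have h5 : ‖(12 : ℂ)‖ = 12 := by norm_num
        rw [h5, div_le_iff₀ (by norm_num)]
        calc σ * Real.sqrt (1 + t ^ 2) ≤ 13 / 100 * (11181 / 10000) := by gcongr
          _ ≤ _ := by norm_num
      refine (un_exp_sub_one _).trans ?_
      have h4 : Real.exp ‖-(us σ t / 12)‖ ≤ 1 / (1 - 1212 / 100000) := by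
        refine (Real.exp_le_exp.2 h3).trans ?_
        exact Real.exp_bound_div_one_sub_of_interval (by norm_num) (by norm_num)
      calc ‖-(us σ t / 12)‖ * Real.exp ‖-(us σ t / 12)‖
          ≤ 1212 / 100000 * (1 / (1 - 1212 / 100000)) := by gcongr
        _ ≤ _ := by norm_num
    have h3 : ‖(EE (4 * Real.pi ^ 2 / us σ t))⁻¹ - 1‖ ≤ 2 / 10 ^ 6 := by
      apply un_inv
      have hs' := un_re_inv hs
      have h5 : (4 * (Real.pi : ℂ) ^ 2 / us σ t).re = 4 * Real.pi ^ 2 / (σ * (1 + t ^ 2)) := by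
        have : (4 * (Real.pi : ℂ) ^ 2 / us σ t) = ((4 * Real.pi ^ 2 : ℝ) : ℂ) / us σ t := by
          push_cast
          ring
        rw [this, un_re_div_us hσ]
      set s' := 4 * (Real.pi : ℂ) ^ 2 / us σ t with hs'def
      have h6 : 200 ≤ s'.re := by
        rw [h5, le_div_iff₀ (by positivity)]
        have h7 : σ * (1 + t ^ 2) ≤ 13 / 100 * (1 + (1 / 2) ^ 2) := by gcongr
        nlinarith
      have h7 : EE s' = TLp s' 0 := by
        rw [EE_eq_qfac_mul hs' 0]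
        simp [qfac]
      rw [h7]
      refine (norm_TLp_sub_one_le hs' 0).trans ?_
      have h8 : Real.exp (-s'.re) ≤ 1 / 10 ^ 7 := by
        have h9 : Real.exp (-s'.re) ≤ Real.exp (-24) := Real.exp_le_exp.2 (by linarith)
        refine h9.trans ?_
        rw [Real.exp_neg, ← one_div]
        apply one_div_le_one_div_of_le (by norm_num)
        have h10 : Real.exp 24 = Real.exp 1 ^ 24 := by
          rw [← Real.exp_nat_mul]
          norm_num
        rw [h10]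
        have h11 : (2 : ℝ) ≤ Real.exp 1 := by
          have := Real.exp_one_gt_d9
          linarith
        calc (10 ^ 7 : ℝ) ≤ 2 ^ 24 := by norm_num
          _ ≤ _ := by gcongr
      have h9 : Real.exp (-(s'.re * ((0 : ℕ) + 1))) / (1 - Real.exp (-s'.re)) ≤ 2 / 10 ^ 7 := by
        rw [show -(s'.re * (((0 : ℕ) : ℝ) + 1)) = -s'.re by push_cast; ring]
        rw [div_le_iff₀ (by linarith)]
        have := Real.exp_pos (-s'.re)
        nlinarith
      have h10 : Real.exp (Real.exp (-(s'.re * ((0 : ℕ) + 1))) / (1 - Real.exp (-s'.re))) ≤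
          1 / (1 - 2 / 10 ^ 7) := by
        refine (Real.exp_le_exp.2 h9).trans ?_
        exact Real.exp_bound_div_one_sub_of_interval (by norm_num) (by norm_num)
      have h11 : (1 : ℝ) / (1 - 2 / 10 ^ 7) ≤ 1 + 1 / 10 ^ 6 := by norm_num
      linarith
    refine (un_three (un_sq h1) h2 (un_sq h3)).trans ?_
    norm_num

end Pool.Agent.Lib.Durfee
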