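import Pool.Agent.Lib.MP_9393b1_co.UReg

/-! # Regime U: the main terms `uQ`: quotients and log-concavity -/

set_option autoImplicit false

namespace Pool.Agent.Lib.Durfee

private theorem uqa_uL {x m : ℝ} (hx : 0 < x) : uL (x ^ 2 * m) = x * uL m := by
  unfold uL
  rw [show Real.pi ^ 2 / 3 * (x ^ 2 * m) = x ^ 2 * (Real.pi ^ 2 / 3 * m) by ring,
    Real.sqrt_mul (sq_nonneg x), Real.sqrt_sq hx.le]

/-- quotient of two main terms, `x = √(m_j/m_k)` -/
theorem uQ_eq {n k j : ℕ} (hk : 0 < (n : ℝ) - (k : ℝ) ^ 2) (hj : 0 < (n : ℝ) - (j : ℝ) ^ 2)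
    {x : ℝ} (hx0 : 0 < x) (hx : x ^ 2 * ((n : ℝ) - (k : ℝ) ^ 2) = (n : ℝ) - (j : ℝ) ^ 2) :
    uQ n k j = uQ n k k * (x ^ (-(5 / 2) : ℝ) *
      Real.exp (-(uL ((n : ℝ) - (k : ℝ) ^ 2) * (1 - x) ^ 2) -
        ua ((n : ℝ) - (k : ℝ) ^ 2) * ((j : ℝ) - k) ^ 2)) := by
  set m := (n : ℝ) - (k : ℝ) ^ 2 with hm
  have hL := uL_pos hk
  have haL := ua_mul hk
  have hpi := Real.pi_pos
  have hxp : x ^ (-(5 / 2) : ℝ) = 1 / x ^ 2 * Real.sqrt (1 / x) := by
    rw [Real.sqrt_eq_rpow, show (-(5 / 2) : ℝ) = -2 + -(1 / 2) by norm_num,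
      Real.rpow_add hx0, Real.rpow_neg hx0.le, Real.rpow_neg hx0.le]
    congr 1
    · norm_num
    · rw [show (1 : ℝ) / x = x⁻¹ from one_div x, Real.inv_rpow hx0.le]
  have hexp : Real.exp (2 * uL (x ^ 2 * m)) * Real.exp (2 * ua m * k * j) =
      Real.exp (2 * uL m) * Real.exp (2 * ua m * k * k) *
        Real.exp (-(uL m * (1 - x) ^ 2) - ua m * ((j : ℝ) - k) ^ 2) := by
    rw [← Real.exp_add, ← Real.exp_add, ← Real.exp_add, uqa_uL hx0]
    congr 1
    have h1 : (j : ℝ) ^ 2 = n - x ^ 2 * m := by linarith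
    have h2 : (k : ℝ) ^ 2 = n - m := by linarith
    have h3 : uL m = ua m * m := haL.symm
    rw [h3]
    linear_combination (ua m) * h1 - ua m * h2
  have hs : Real.sqrt (Real.pi / uL (x ^ 2 * m)) =
      Real.sqrt (1 / x) * Real.sqrt (Real.pi / uL m) := by
    rw [uqa_uL hx0, ← Real.sqrt_mul (by positivity)]
    congr 1
    field_simp
  unfold uQ
  rw [← hm, ← hx]
  unfold uP
  rw [hs, hxp]
  calc 1 / (12 * (x ^ 2 * m)) * (Real.sqrt (1 / x) * Real.sqrt (Real.pi / uL m)) *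
        Real.exp (2 * uL (x ^ 2 * m)) * Real.exp (2 * ua m * k * j)
      = 1 / (12 * (x ^ 2 * m)) * (Real.sqrt (1 / x) * Real.sqrt (Real.pi / uL m)) *
        (Real.exp (2 * uL (x ^ 2 * m)) * Real.exp (2 * ua m * k * j)) := by ring
    _ = _ := by
        rw [hexp]
        field_simp

/-- `log uP` is concave and increasing on `[2,∞)` -/
theorem uP_mul_le {p q M : ℝ} (hq : 2 ≤ q) (hp : q ≤ p) (hM : (p + q) / 2 ≤ M) :
    uP p * uP q ≤ uP M ^ 2 := by
  have hpi := Real.pi_pos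
  have hpi3 := Real.pi_gt_d2
  have hq0 : 0 < q := by linarith
  have hp0 : 0 < p := by linarith
  have hM0 : 0 < M := by linarith
  set B : ℝ := Real.sqrt (Real.pi ^ 2 / 3) with hB
  have hB0 : 0 < B := Real.sqrt_pos.mpr (by positivity)
  have hB2 : B ^ 2 = Real.pi ^ 2 / 3 := Real.sq_sqrt (by positivity)
  -- squares
  have hsq : ∀ u : ℝ, 0 < u → uP (u ^ 2) ^ 2 = Real.pi / (144 * B) *
      (Real.exp (4 * B * u) / u ^ 5) := by
    intro u hu
    have e1 : uL (u ^ 2) = B * u := by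
      unfold uL
      rw [Real.sqrt_mul (by positivity), Real.sqrt_sq hu.le]
    unfold uP
    rw [e1, mul_pow, mul_pow, Real.sq_sqrt (by positivity), ← Real.exp_nat_mul]
    have e2 : ((2 : ℕ) : ℝ) * (2 * (B * u)) = 4 * B * u := by push_cast; ring
    rw [e2]
    field_simp
    norm_num
  set u := Real.sqrt p with hu
  set v := Real.sqrt q with hv
  set w := Real.sqrt ((p + q) / 2) with hw
  set w' := Real.sqrt M with hw'
  have hu0 : 0 < u := Real.sqrt_pos.mpr hp0
  have hv0 : 0 < v := Real.sqrt_pos.mpr hq0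
  have hw0 : 0 < w := Real.sqrt_pos.mpr (by linarith)
  have hw'0 : 0 < w' := Real.sqrt_pos.mpr hM0
  have hu2 : u ^ 2 = p := Real.sq_sqrt hp0.le
  have hv2 : v ^ 2 = q := Real.sq_sqrt hq0.le
  have hw2 : w ^ 2 = (p + q) / 2 := Real.sq_sqrt (by linarith)
  have hw'2 : w' ^ 2 = M := Real.sq_sqrt hM0.le
  have hww' : w ≤ w' := Real.sqrt_le_sqrt hM
  have hwu : w ≤ u := Real.sqrt_le_sqrt (by linarith)
  have hvw : v ≤ w := Real.sqrt_le_sqrt (by linarith)
  have hBv : 5 ≤ 2 * B * v := by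
    have h1 : (5 : ℝ) ^ 2 ≤ (2 * B * v) ^ 2 := by
      have : (2 * B * v) ^ 2 = 4 * (Real.pi ^ 2 / 3) * q := by
        rw [mul_pow, mul_pow, hB2, hv2]
        ring
      rw [this]
      have h2 : (3.14 : ℝ) ^ 2 ≤ Real.pi ^ 2 := pow_le_pow_left₀ (by norm_num) hpi3.le 2
      nlinarith
    exact (pow_le_pow_iff_left₀ (by norm_num) (by positivity) (by norm_num)).mp h1
  -- step 1
  have step1 : w' ^ 10 * Real.exp (8 * B * w) ≤ w ^ 10 * Real.exp (8 * B * w') := by
    have h1 : w' / w ≤ Real.exp (w' / w - 1) := by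
      have := Real.add_one_le_exp (w' / w - 1)
      linarith
    have h2 : (w' / w) ^ 10 ≤ Real.exp (8 * B * (w' - w)) := by
      calc (w' / w) ^ 10 ≤ Real.exp (w' / w - 1) ^ 10 :=
            pow_le_pow_left₀ (by positivity) h1 10
        _ = Real.exp (10 * (w' / w - 1)) := by
            rw [← Real.exp_nat_mul]
            norm_num
        _ ≤ Real.exp (8 * B * (w' - w)) := by
            apply Real.exp_le_exp.mpr
            have e1 : 10 * (w' / w - 1) = 10 / w * (w' - w) := by field_simp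
            rw [e1]
            apply mul_le_mul_of_nonneg_right _ (by linarith)
            rw [div_le_iff₀ hw0]
            nlinarith
    rw [div_pow, div_le_iff₀ (by positivity)] at h2
    calc w' ^ 10 * Real.exp (8 * B * w)
        ≤ (Real.exp (8 * B * (w' - w)) * w ^ 10) * Real.exp (8 * B * w) := by gcongr
      _ = w ^ 10 * (Real.exp (8 * B * (w' - w)) * Real.exp (8 * B * w)) := by ring
      _ = w ^ 10 * Real.exp (8 * B * w') := by
          rw [← Real.exp_add]
          congr 2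
          ring
  -- step 2
  have huv : 0 < u * v := by positivity
  have step2 : w ^ 10 * Real.exp (4 * B * (u + v)) ≤ (u * v) ^ 5 * Real.exp (8 * B * w) := by
    have h1 : w ^ 2 = u * v * (1 + (u - v) ^ 2 / (2 * (u * v))) := by
      field_simp
      rw [hw2, ← hu2, ← hv2]
      ring
    have h2 : 1 + (u - v) ^ 2 / (2 * (u * v)) ≤ Real.exp ((u - v) ^ 2 / (2 * (u * v))) := by
      have := Real.add_one_le_exp ((u - v) ^ 2 / (2 * (u * v)))
      linarith
    have h3 : u + v ≤ 2 * w := by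
      have : (u + v) ^ 2 ≤ (2 * w) ^ 2 := by
        rw [mul_pow, hw2, ← hu2, ← hv2]
        nlinarith [sq_nonneg (u - v)]
      exact (pow_le_pow_iff_left₀ (by positivity) (by positivity) (by norm_num)).mp this
    have h4 : (u - v) ^ 2 = (2 * w - u - v) * (2 * w + u + v) := by
      have : (2 * w - u - v) * (2 * w + u + v) = 4 * w ^ 2 - (u + v) ^ 2 := by ring
      rw [this, hw2, ← hu2, ← hv2]
      ring
    have h5 : (u - v) ^ 2 ≤ (2 * w - u - v) * (4 * w) := by
      rw [h4]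
      apply mul_le_mul_of_nonneg_left _ (by linarith)
      linarith
    have h6 : 5 * ((u - v) ^ 2 / (2 * (u * v))) ≤ 4 * B * (2 * w - u - v) := by
      have e1 : 5 * ((u - v) ^ 2 / (2 * (u * v))) = 5 * (u - v) ^ 2 / (2 * (u * v)) := by ring
      rw [e1, div_le_iff₀ (by positivity)]
      have h7 : 5 * w ≤ 2 * B * (u * v) := by nlinarith
      have h8 : 0 ≤ 2 * w - u - v := by linarith
      calc 5 * (u - v) ^ 2 ≤ 5 * ((2 * w - u - v) * (4 * w)) := by linarith
        _ = (5 * w) * (4 * (2 * w - u - v)) := by ring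
        _ ≤ (2 * B * (u * v)) * (4 * (2 * w - u - v)) := by
            apply mul_le_mul_of_nonneg_right h7 (by linarith)
        _ = 4 * B * (2 * w - u - v) * (2 * (u * v)) := by ring
    have h9 : (1 + (u - v) ^ 2 / (2 * (u * v))) ^ 5 ≤ Real.exp (4 * B * (2 * w - u - v)) := by
      calc (1 + (u - v) ^ 2 / (2 * (u * v))) ^ 5
          ≤ Real.exp ((u - v) ^ 2 / (2 * (u * v))) ^ 5 :=
            pow_le_pow_left₀ (by positivity) h2 5
        _ = Real.exp (5 * ((u - v) ^ 2 / (2 * (u * v)))) := by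
            rw [← Real.exp_nat_mul]
            norm_num
        _ ≤ _ := Real.exp_le_exp.mpr h6
    calc w ^ 10 * Real.exp (4 * B * (u + v))
        = (w ^ 2) ^ 5 * Real.exp (4 * B * (u + v)) := by ring
      _ = (u * v) ^ 5 * (1 + (u - v) ^ 2 / (2 * (u * v))) ^ 5 * Real.exp (4 * B * (u + v)) := by
          rw [h1, mul_pow]
      _ ≤ (u * v) ^ 5 * Real.exp (4 * B * (2 * w - u - v)) * Real.exp (4 * B * (u + v)) := by
          gcongr
      _ = (u * v) ^ 5 * (Real.exp (4 * B * (2 * w - u - v)) * Real.exp (4 * B * (u + v))) := by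
          ring
      _ = (u * v) ^ 5 * Real.exp (8 * B * w) := by
          rw [← Real.exp_add]
          congr 2
          ring
  have hfinal : (uP p * uP q) ^ 2 ≤ (uP M ^ 2) ^ 2 := by
    rw [mul_pow]
    nth_rewrite 1 [← hu2]
    nth_rewrite 1 [← hv2]
    rw [← hw'2, hsq u hu0, hsq v hv0, hsq w' hw'0]
    set C := Real.pi / (144 * B) with hC
    have hC0 : 0 < C := by positivity
    have key : Real.exp (4 * B * u) / u ^ 5 * (Real.exp (4 * B * v) / v ^ 5) ≤
        (Real.exp (4 * B * w') / w' ^ 5) ^ 2 := by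
      rw [div_mul_div_comm, div_pow, div_le_div_iff₀ (by positivity) (by positivity),
        ← Real.exp_add, ← Real.exp_nat_mul]
      have e1 : 4 * B * u + 4 * B * v = 4 * B * (u + v) := by ring
      have e2 : ((2 : ℕ) : ℝ) * (4 * B * w') = 8 * B * w' := by push_cast; ring
      have e3 : (w' ^ 5) ^ 2 = w' ^ 10 := by ring
      have e4 : u ^ 5 * v ^ 5 = (u * v) ^ 5 := by ring
      rw [e1, e2, e3, e4]
      have hw8 : 0 < Real.exp (8 * B * w) := Real.exp_pos _
      have hw10 : 0 < w ^ 10 := by positivity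
      have h10 := mul_le_mul step1 step2 (by positivity) (by positivity)
      have h11 : (w ^ 10 * Real.exp (8 * B * w)) *
          (Real.exp (4 * B * (u + v)) * w' ^ 10) ≤
          (w ^ 10 * Real.exp (8 * B * w)) * (Real.exp (8 * B * w') * (u * v) ^ 5) := by
        calc _ = w' ^ 10 * Real.exp (8 * B * w) * (w ^ 10 * Real.exp (4 * B * (u + v))) := by ring
          _ ≤ _ := h10
          _ = _ := by ring
      exact le_of_mul_le_mul_left h11 (by positivity)
    calc C * (Real.exp (4 * B * u) / u ^ 5) * (C * (Real.exp (4 * B * v) / v ^ 5))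
        = C ^ 2 * (Real.exp (4 * B * u) / u ^ 5 * (Real.exp (4 * B * v) / v ^ 5)) := by ring
      _ ≤ C ^ 2 * (Real.exp (4 * B * w') / w' ^ 5) ^ 2 := by gcongr
      _ = _ := by ring
  have hP0 : 0 < uP M ^ 2 := by
    have := uP_pos hM0
    positivity
  exact (pow_le_pow_iff_left₀ (mul_pos (uP_pos hp0) (uP_pos hq0)).le hP0.le
    (by norm_num)).mp hfinal

theorem uQ_logconc {n k j : ℕ} (h : 2 ≤ (n : ℝ) - ((j : ℝ) + 2) ^ 2) :
    uQ n k j * uQ n k (j + 2) ≤ uQ n k (j + 1) ^ 2 := by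
  have hj : (0 : ℝ) ≤ (j : ℝ) := Nat.cast_nonneg j
  have h1 : uP ((n : ℝ) - (j : ℝ) ^ 2) * uP ((n : ℝ) - ((j : ℝ) + 2) ^ 2) ≤
      uP ((n : ℝ) - ((j : ℝ) + 1) ^ 2) ^ 2 := by
    apply uP_mul_le h
    · nlinarith
    · nlinarith
  unfold uQ
  push_cast
  set a := ua ((n : ℝ) - (k : ℝ) ^ 2) with ha
  have e1 : Real.exp (2 * a * k * j) * Real.exp (2 * a * k * ((j : ℝ) + 2)) =
      Real.exp (2 * a * k * ((j : ℝ) + 1)) ^ 2 := by
    rw [← Real.exp_add, ← Real.exp_nat_mul]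
    congr 1
    push_cast
    ring
  calc uP ((n : ℝ) - (j : ℝ) ^ 2) * Real.exp (2 * a * k * j) *
        (uP ((n : ℝ) - ((j : ℝ) + 2) ^ 2) * Real.exp (2 * a * k * ((j : ℝ) + 2)))
      = uP ((n : ℝ) - (j : ℝ) ^ 2) * uP ((n : ℝ) - ((j : ℝ) + 2) ^ 2) *
        (Real.exp (2 * a * k * j) * Real.exp (2 * a * k * ((j : ℝ) + 2))) := by ring
    _ ≤ uP ((n : ℝ) - ((j : ℝ) + 1) ^ 2) ^ 2 *
        (Real.exp (2 * a * k * j) * Real.exp (2 * a * k * ((j : ℝ) + 2))) := by gcongr
    _ = _ := by rw [e1]; ring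

end Pool.Agent.Lib.Durfee
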