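import Pool.Agent.Lib.MP_9393b1_co.UQa

/-! # Regime U: the neighbours of the main term -/

set_option autoImplicit false

namespace Pool.Agent.Lib.Durfee

private theorem uqb_key {x a c q y t : ℝ} (ha : 0 < a) (hax : a ≤ x) (hc : c ≤ y) (ht : 0 ≤ t)
    (hq0 : 0 < q) (hq : 1 ≤ q ^ 2 * a ^ 5) (hE : q ≤ 15 / 100 * Real.exp c) :
    x ^ (-(5 / 2) : ℝ) * Real.exp (-y - t) ≤ 15 / 100 := by
  have hx : 0 < x := lt_of_lt_of_le ha hax
  have h1 : x ^ (-(5 / 2) : ℝ) ≤ a ^ (-(5 / 2) : ℝ) :=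
    Real.rpow_le_rpow_of_nonpos ha hax (by norm_num)
  have h2 : (a ^ (-(5 / 2) : ℝ)) ^ 2 * a ^ 5 = 1 := by
    rw [← Real.rpow_natCast (a ^ (-(5 / 2) : ℝ)) 2, ← Real.rpow_mul ha.le,
      ← Real.rpow_natCast a 5, ← Real.rpow_add ha]
    norm_num
  have h3 : a ^ (-(5 / 2) : ℝ) ≤ q := by
    have h4 : 0 < a ^ (-(5 / 2) : ℝ) := Real.rpow_pos_of_pos ha _
    have h5 : (a ^ (-(5 / 2) : ℝ)) ^ 2 * a ^ 5 ≤ q ^ 2 * a ^ 5 := by rw [h2]; exact hq
    have h6 : (a ^ (-(5 / 2) : ℝ)) ^ 2 ≤ q ^ 2 := le_of_mul_le_mul_right h5 (by positivity)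
    exact (pow_le_pow_iff_left₀ h4.le hq0.le (by norm_num)).1 h6
  have h7 : Real.exp (-y - t) ≤ Real.exp (-c) := Real.exp_le_exp.2 (by linarith)
  calc x ^ (-(5 / 2) : ℝ) * Real.exp (-y - t) ≤ q * Real.exp (-c) :=
        mul_le_mul (h1.trans h3) h7 (Real.exp_pos _).le hq0.le
    _ ≤ (15 / 100 * Real.exp c) * Real.exp (-c) :=
        mul_le_mul_of_nonneg_right hE (Real.exp_pos _).le
    _ = 15 / 100 := by
        rw [mul_assoc, ← Real.exp_add]
        simp

private theorem uqb_exp {c q : ℝ} (hc : 0 ≤ c)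
    (h : q ≤ 15 / 100 * ∑ i ∈ Finset.range 14, c ^ i / (Nat.factorial i : ℝ)) :
    q ≤ 15 / 100 * Real.exp c := by
  have := Real.sum_le_exp_of_nonneg hc 14
  linarith

theorem uQ_up {n k : ℕ} (H : RegU n k) (h30 : 30 ≤ (n : ℝ) - ((k : ℝ) + 1) ^ 2) :
    uQ n k (k + 1) ≤ 15 / 100 * uQ n k k := by
  have hm199 : (199 : ℝ) ≤ (n : ℝ) - (k : ℝ) ^ 2 := by
    have h1 := H.m_ge
    have h2 : (199 : ℝ) ≤ ((n - k ^ 2 : ℕ) : ℝ) := by exact_mod_cast h1
    rw [H.cast_m] at h2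
    exact h2
  have hk99 : (99 : ℝ) ≤ k := by exact_mod_cast H.k_ge
  have hksq := H.k_sq_ge
  have h32 := H.m32
  have hn4 : (10 : ℝ) ^ 4 ≤ n := by exact_mod_cast H.hn
  generalize hmdef : (n : ℝ) - (k : ℝ) ^ 2 = m at *
  have hm0 : 0 < m := by linarith
  have hcast : ((k + 1 : ℕ) : ℝ) = (k : ℝ) + 1 := by push_cast; ring
  set x := Real.sqrt (((n : ℝ) - ((k : ℝ) + 1) ^ 2) / m) with hx
  have hx0 : 0 < x := Real.sqrt_pos.2 (by apply div_pos <;> linarith)
  have hx2 : x ^ 2 * m = (n : ℝ) - ((k : ℝ) + 1) ^ 2 := by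
    rw [hx, Real.sq_sqrt (by apply div_nonneg <;> linarith)]
    field_simp
  have e := uQ_eq (n := n) (k := k) (j := k + 1) (by rw [hmdef]; exact hm0)
    (by rw [hcast]; linarith) hx0 (by rw [hmdef, hcast]; exact hx2)
  rw [hmdef, hcast] at e
  have hQ : 0 < uQ n k k := by
    unfold uQ
    rw [hmdef]
    exact mul_pos (uP_pos hm0) (Real.exp_pos _)
  have hpi := Real.pi_gt_d6
  have hA : (3.2896 : ℝ) ≤ Real.pi ^ 2 / 3 := by nlinarith
  have hL0 := uL_pos hm0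
  have hLsq := uL_sq hm0
  have hua := ua_pos hm0
  set L := uL m with hLdef
  -- m (1 - x^2) = 2 k + 1
  have hmx : m * (1 - x ^ 2) = 2 * k + 1 := by
    have : m * x ^ 2 = (n : ℝ) - ((k : ℝ) + 1) ^ 2 := by rw [mul_comm]; exact hx2
    have h2 : m = (n : ℝ) - (k : ℝ) ^ 2 := hmdef.symm
    nlinarith
  have hx1 : x < 1 := by
    by_contra hcon
    push Not at hcon
    have : 1 ≤ x ^ 2 := by nlinarith
    nlinarith
  have h1x : 0 < 1 - x ^ 2 := by nlinarith
  -- (c2)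
  have hc2 : 654.3 ≤ L ^ 2 * (1 - x ^ 2) := by
    rw [hLsq]
    have : Real.pi ^ 2 / 3 * m * (1 - x ^ 2) = Real.pi ^ 2 / 3 * (2 * k + 1) := by
      rw [mul_assoc, hmx]
    rw [this]
    nlinarith
  -- (c3)
  have hc3 : 98.6 ≤ x ^ 2 * L ^ 2 := by
    rw [hLsq]
    have : x ^ 2 * (Real.pi ^ 2 / 3 * m) = Real.pi ^ 2 / 3 * (x ^ 2 * m) := by ring
    rw [this, hx2]
    nlinarith
  -- (c1)
  have hsm : 0 < Real.sqrt m := Real.sqrt_pos.2 hm0
  have hsm2 : Real.sqrt m ^ 2 = m := Real.sq_sqrt hm0.le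
  have hsA : 1.8137 ≤ Real.sqrt (Real.pi ^ 2 / 3) := by
    apply Real.le_sqrt_of_sq_le
    nlinarith
  have hLs : L = Real.sqrt (Real.pi ^ 2 / 3) * Real.sqrt m := by
    rw [hLdef]
    unfold uL
    rw [Real.sqrt_mul (by positivity)]
  have hc1 : 9.34 ≤ L * (1 - x ^ 2) ^ 2 := by
    -- L (1-x^2)^2 m sqrt m = sqrt A (2k+1)^2
    have e1 : L * (1 - x ^ 2) ^ 2 * (m * Real.sqrt m) =
        Real.sqrt (Real.pi ^ 2 / 3) * (2 * k + 1) ^ 2 := by
      rw [hLs, ← hmx]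
      have : Real.sqrt m * Real.sqrt m = m := by rw [← sq]; exact hsm2
      calc Real.sqrt (Real.pi ^ 2 / 3) * Real.sqrt m * (1 - x ^ 2) ^ 2 * (m * Real.sqrt m)
          = Real.sqrt (Real.pi ^ 2 / 3) * (1 - x ^ 2) ^ 2 * m * (Real.sqrt m * Real.sqrt m) := by
            ring
        _ = _ := by rw [this]; ring
    have e2 : 1.8137 * (4 * (961 / 1000 * (n : ℝ))) ≤
        Real.sqrt (Real.pi ^ 2 / 3) * (2 * k + 1) ^ 2 := by
      apply mul_le_mul hsA _ (by positivity) (Real.sqrt_nonneg _)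
      nlinarith
    have hms : 0 < m * Real.sqrt m := by positivity
    by_contra hcon
    push Not at hcon
    have e3 : L * (1 - x ^ 2) ^ 2 * (m * Real.sqrt m) < 9.34 * (m * Real.sqrt m) :=
      mul_lt_mul_of_pos_right hcon hms
    rw [e1] at e3
    nlinarith
  have hy0 : 0 ≤ ua m * ((k : ℝ) + 1 - k) ^ 2 := by positivity
  rw [e]
  suffices hs : x ^ (-(5 / 2) : ℝ) *
      Real.exp (-(L * (1 - x) ^ 2) - ua m * ((k : ℝ) + 1 - k) ^ 2) ≤ 15 / 100 by
    calc _ ≤ uQ n k k * (15 / 100) := mul_le_mul_of_nonneg_left hs hQ.le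
      _ = _ := by ring
  -- lower bounds of L (1-x)^2
  have hB1 : ∀ b : ℝ, x ≤ b → 9.34 / (1 + b) ^ 2 ≤ L * (1 - x) ^ 2 := by
    intro b hb
    have hb0 : 0 < 1 + b := by linarith
    rw [div_le_iff₀ (by positivity)]
    have h1 : L * (1 - x ^ 2) ^ 2 = L * (1 - x) ^ 2 * (1 + x) ^ 2 := by ring
    have h2 : (1 + x) ^ 2 ≤ (1 + b) ^ 2 := pow_le_pow_left₀ (by linarith) (by linarith) 2
    have h3 : 0 ≤ L * (1 - x) ^ 2 := by positivity
    have h4 := mul_le_mul_of_nonneg_left h2 h3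
    linarith
  have hB2 : ∀ a b ℓ : ℝ, 0 ≤ a → a ≤ x → x ≤ b → b ≤ 1 → 0 ≤ ℓ → ℓ ^ 2 * (1 - a ^ 2) ≤ 654.3 →
      ℓ * (1 - b) ^ 2 ≤ L * (1 - x) ^ 2 := by
    intro a b ℓ ha hax hxb hb1 hℓ hℓ2
    have h1 : 1 - x ^ 2 ≤ 1 - a ^ 2 := by
      have : a ^ 2 ≤ x ^ 2 := pow_le_pow_left₀ ha hax 2
      linarith
    have h2 : ℓ ^ 2 ≤ L ^ 2 := by
      by_contra hcon
      push Not at hcon
      have h3 : L ^ 2 * (1 - x ^ 2) < ℓ ^ 2 * (1 - x ^ 2) := mul_lt_mul_of_pos_right hcon h1x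
      have h4 : ℓ ^ 2 * (1 - x ^ 2) ≤ ℓ ^ 2 * (1 - a ^ 2) :=
        mul_le_mul_of_nonneg_left h1 (by positivity)
      linarith
    have h5 : ℓ ≤ L := (pow_le_pow_iff_left₀ hℓ hL0.le (by norm_num)).1 h2
    have h6 : (1 - b) ^ 2 ≤ (1 - x) ^ 2 := pow_le_pow_left₀ (by linarith) (by linarith) 2
    exact mul_le_mul h5 h6 (by positivity) hL0.le
  rcases le_or_gt (0.94 : ℝ) x with h94 | h94
  · refine uqb_key (a := 0.94) (c := 2.335) (q := 1.17) (by norm_num) h94 ?_ hy0 (by norm_num)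
      (by norm_num) (uqb_exp (by norm_num) (by norm_num [Finset.sum_range_succ, Nat.factorial]))
    have := hB1 1 hx1.le
    norm_num at this ⊢
    linarith
  rcases le_or_gt (0.8 : ℝ) x with h80 | h80
  · refine uqb_key (a := 0.8) (c := 2.4816) (q := 1.747) (by norm_num) h80 ?_ hy0 (by norm_num)
      (by norm_num) (uqb_exp (by norm_num) (by norm_num [Finset.sum_range_succ, Nat.factorial]))
    have := hB1 0.94 h94.le
    norm_num at this ⊢
    linarith
  rcases le_or_gt (0.68 : ℝ) x with h68 | h68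
  · refine uqb_key (a := 0.68) (c := 2.8827) (q := 2.623) (by norm_num) h68 ?_ hy0 (by norm_num)
      (by norm_num) (uqb_exp (by norm_num) (by norm_num [Finset.sum_range_succ, Nat.factorial]))
    have := hB1 0.8 h80.le
    norm_num at this ⊢
    linarith
  rcases le_or_gt (0.6 : ℝ) x with h60 | h60
  · refine uqb_key (a := 0.6) (c := 3.27) (q := 3.587) (by norm_num) h60 ?_ hy0 (by norm_num)
      (by norm_num) (uqb_exp (by norm_num) (by norm_num [Finset.sum_range_succ, Nat.factorial]))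
    have := hB2 0.6 0.68 31.95 (by norm_num) h60 h68.le (by norm_num) (by norm_num) (by norm_num)
    norm_num at this ⊢
    linarith
  rcases le_or_gt (0.5 : ℝ) x with h50 | h50
  · refine uqb_key (a := 0.5) (c := 4.7) (q := 5.66) (by norm_num) h50 ?_ hy0 (by norm_num)
      (by norm_num) (uqb_exp (by norm_num) (by norm_num [Finset.sum_range_succ, Nat.factorial]))
    have := hB2 0.5 0.6 29.5 (by norm_num) h50 h60.le (by norm_num) (by norm_num) (by norm_num)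
    norm_num at this ⊢
    linarith
  rcases le_or_gt (0.3 : ℝ) x with h30' | h30'
  · refine uqb_key (a := 0.3) (c := 6.5) (q := 20.3) (by norm_num) h30' ?_ hy0 (by norm_num)
      (by norm_num) (uqb_exp (by norm_num) (by norm_num [Finset.sum_range_succ, Nat.factorial]))
    have := hB2 0.3 0.5 26.5 (by norm_num) h30' h50.le (by norm_num) (by norm_num) (by norm_num)
    norm_num at this ⊢
    linarith
  rcases le_or_gt (0.1 : ℝ) x with h10 | h10
  · refine uqb_key (a := 0.1) (c := 12) (q := 317) (by norm_num) h10 ?_ hy0 (by norm_num)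
      (by norm_num) (uqb_exp (by norm_num) (by norm_num [Finset.sum_range_succ, Nat.factorial]))
    have := hB2 0.1 0.3 25.6 (by norm_num) h10 h30'.le (by norm_num) (by norm_num) (by norm_num)
    norm_num at this ⊢
    linarith
  · -- x < 0.1
    have hLx : 9.9 ≤ x * L := by
      have h1 : (9.9 : ℝ) ^ 2 ≤ (x * L) ^ 2 := by
        rw [mul_pow]
        norm_num at hc3 ⊢
        linarith
      exact (pow_le_pow_iff_left₀ (by norm_num) (by positivity) (by norm_num)).1 h1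
    have hL99 : 99 ≤ L := by
      have : x * L ≤ 0.1 * L := mul_le_mul_of_nonneg_right h10.le hL0.le
      linarith
    refine uqb_key (a := 9.9 / L) (c := 0.81 * L) (q := (L / 9.9) ^ 3) (by positivity) ?_ ?_ hy0
      (by positivity) ?_ ?_
    · rw [div_le_iff₀ hL0]
      exact hLx
    · have h9 : (0.9 : ℝ) ^ 2 ≤ (1 - x) ^ 2 := pow_le_pow_left₀ (by norm_num) (by linarith) 2
      have h10' := mul_le_mul_of_nonneg_left h9 hL0.le
      norm_num at h10' ⊢
      linarith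
    · have e1 : ((L / 9.9) ^ 3) ^ 2 * (9.9 / L) ^ 5 = L / 9.9 := by
        field_simp
      rw [e1]
      rw [le_div_iff₀ (by norm_num)]
      linarith
    · have h1 := Real.pow_div_factorial_le_exp (0.81 * L) (by positivity) 4
      have h2 : (L / 9.9) ^ 3 ≤ 15 / 100 * ((0.81 * L) ^ 4 / (Nat.factorial 4 : ℝ)) := by
        norm_num [Nat.factorial]
        have h3 : 0 < L ^ 3 := by positivity
        have h4 : 99 * L ^ 3 ≤ L ^ 4 := by
          have : L ^ 4 = L * L ^ 3 := by ring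
          rw [this]
          exact mul_le_mul_of_nonneg_right hL99 h3.le
        rw [div_pow, mul_pow]
        norm_num
        nlinarith
      linarith

end Pool.Agent.Lib.Durfee
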