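import Pool.Agent.Lib.MP_9393b1_co.UQa

/-! # Regime U: the neighbours of the main term -/

set_option autoImplicit false

namespace Pool.Agent.Lib.Durfee

private theorem uqc_m {n k : ℕ} (H : RegU n k) : (199 : ℝ) ≤ (n : ℝ) - (k : ℝ) ^ 2 := by
  rw [← H.cast_m]
  exact_mod_cast H.m_ge

private theorem uqc_exp : Real.exp (-(231 / 100)) ≤ 11 / 100 := by
  rw [Real.exp_neg]
  have h1 : (100 : ℝ) / 11 ≤ Real.exp (231 / 100) := by
    have e : Real.exp (231 / 100) = Real.exp 1 * Real.exp 1 * Real.exp (31 / 100) := by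
      rw [← Real.exp_add, ← Real.exp_add]
      norm_num
    have h2 := Real.exp_one_gt_d9
    have h3 := Real.add_one_le_exp (31 / 100 : ℝ)
    rw [e]
    have h4 : (2.7182818283 : ℝ) * 2.7182818283 ≤ Real.exp 1 * Real.exp 1 := by
      nlinarith
    have h5 : (0 : ℝ) < Real.exp 1 * Real.exp 1 := by positivity
    nlinarith
  calc (Real.exp (231 / 100))⁻¹ ≤ ((100 : ℝ) / 11)⁻¹ := inv_anti₀ (by norm_num) h1
    _ = 11 / 100 := by norm_num

theorem uQ_down {n k : ℕ} (H : RegU n k) : uQ n k (k - 1) ≤ 11 / 100 * uQ n k k := by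
  have hm199 := uqc_m H
  have hpi := Real.pi_gt_d4
  have hk99 : (99 : ℝ) ≤ (k : ℝ) := by exact_mod_cast H.k_ge
  have hcast : ((k - 1 : ℕ) : ℝ) = (k : ℝ) - 1 := by
    rw [Nat.cast_sub H.hk]
    norm_num
  have hksq := H.k_sq_ge
  have hm32 := H.m32
  have hk100 : 100 * (k : ℝ) ≤ n := by
    have h1 : ((k : ℝ) + 1) ^ 2 ≤ n := by exact_mod_cast H.sq_lt
    nlinarith
  set m : ℝ := (n : ℝ) - (k : ℝ) ^ 2 with hm
  have hm0 : 0 < m := by linarith
  have hL := uL_pos hm0
  have ha := ua_pos hm0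
  have hj : (n : ℝ) - ((k - 1 : ℕ) : ℝ) ^ 2 = m + (2 * k - 1) := by
    rw [hcast, hm]
    ring
  have hj0 : 0 < (n : ℝ) - ((k - 1 : ℕ) : ℝ) ^ 2 := by
    rw [hj]
    linarith
  set x : ℝ := Real.sqrt ((m + (2 * k - 1)) / m) with hx
  have hx2 : x ^ 2 = (m + (2 * k - 1)) / m := Real.sq_sqrt (by
    apply div_nonneg <;> linarith)
  have hx1 : 1 ≤ x := by
    rw [hx, Real.one_le_sqrt, one_le_div hm0]
    linarith
  have hx0 : 0 < x := by linarith
  have hxm : x ^ 2 * m = (n : ℝ) - ((k - 1 : ℕ) : ℝ) ^ 2 := by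
    rw [hj, hx2, div_mul_cancel₀ _ hm0.ne']
  have key := uQ_eq (n := n) (k := k) (j := k - 1) hm0 hj0 hx0 hxm
  rw [key]
  have hQ : 0 < uQ n k k := by
    unfold uQ
    exact mul_pos (uP_pos hm0) (Real.exp_pos _)
  rw [mul_comm (11 / 100 : ℝ)]
  refine mul_le_mul_of_nonneg_left ?_ hQ.le
  -- main estimate
  have hLm : 924 / 100 * m ^ 2 ≤ uL m * (2 * k - 1) ^ 2 := by
    have h1 : 18137 / 10000 * Real.sqrt m ≤ uL m := by
      unfold uL
      rw [Real.sqrt_mul (by positivity)]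
      refine mul_le_mul_of_nonneg_right ?_ (Real.sqrt_nonneg _)
      rw [Real.le_sqrt (by norm_num) (by positivity)]
      nlinarith
    have h2 : 3804 / 1000 * (n : ℝ) ≤ (2 * k - 1) ^ 2 := by nlinarith
    have h3 : Real.sqrt m * Real.sqrt m = m := Real.mul_self_sqrt hm0.le
    have hs : 0 < Real.sqrt m := Real.sqrt_pos.2 hm0
    have h4 : 3804 / 746 * (m * Real.sqrt m) ≤ (2 * (k : ℝ) - 1) ^ 2 := by nlinarith
    calc 924 / 100 * m ^ 2 ≤ 18137 / 10000 * (3804 / 746) * m ^ 2 := by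
          nlinarith [sq_nonneg m]
      _ = (18137 / 10000 * Real.sqrt m) * (3804 / 746 * (m * Real.sqrt m)) := by
          linear_combination (-(18137 / 10000 * (3804 / 746) * m)) * h3
      _ ≤ uL m * (2 * k - 1) ^ 2 := by
          apply mul_le_mul h1 h4 (by positivity) hL.le
  have hx21 : (x ^ 2 - 1) * m = 2 * k - 1 := by
    rw [hx2]
    field_simp
    ring
  have h5 : 924 / 100 ≤ uL m * (x ^ 2 - 1) ^ 2 := by
    have h6 : 924 / 100 * m ^ 2 ≤ uL m * (x ^ 2 - 1) ^ 2 * m ^ 2 := by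
      calc 924 / 100 * m ^ 2 ≤ uL m * (2 * k - 1) ^ 2 := hLm
        _ = uL m * (x ^ 2 - 1) ^ 2 * m ^ 2 := by rw [← hx21]; ring
    exact le_of_mul_le_mul_right h6 (by positivity)
  have h7 : 924 / 100 * (1 / (x + 1)) ^ 2 ≤ uL m * (1 - x) ^ 2 := by
    have : uL m * (1 - x) ^ 2 = uL m * (x ^ 2 - 1) ^ 2 * (1 / (x + 1)) ^ 2 := by
      field_simp
      ring
    rw [this]
    exact mul_le_mul_of_nonneg_right h5 (by positivity)
  have h8 : 2 * (x - 1) / (x + 1) ≤ Real.log x := by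
    have := Real.le_log_one_add_of_nonneg (x := x - 1) (by linarith)
    rw [show x - 1 + 2 = x + 1 by ring, show 1 + (x - 1) = x by ring] at this
    exact this
  have h9 : 2 * (x - 1) / (x + 1) = 2 - 4 * (1 / (x + 1)) := by
    field_simp
    ring
  rw [h9] at h8
  set q : ℝ := 1 / (x + 1) with hq
  have hq2 : q ≤ 1 / 2 := by
    rw [hq, div_le_div_iff₀ (by linarith) (by norm_num)]
    linarith
  have h10 : 231 / 100 ≤ 5 / 2 * Real.log x + uL m * (1 - x) ^ 2 := by
    nlinarith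
  have h11 : ((k - 1 : ℕ) : ℝ) - k = -1 := by
    rw [hcast]
    ring
  rw [h11]
  calc x ^ (-(5 / 2) : ℝ) * Real.exp (-(uL m * (1 - x) ^ 2) - ua m * (-1) ^ 2)
      = Real.exp (-(5 / 2 * Real.log x + uL m * (1 - x) ^ 2) - ua m) := by
        rw [Real.rpow_def_of_pos hx0, ← Real.exp_add]
        congr 1
        ring
    _ ≤ Real.exp (-(231 / 100)) := by
        apply Real.exp_le_exp.2
        linarith
    _ ≤ 11 / 100 := uqc_exp

private theorem uqc_num {r : ℝ} (hr : 257 / 100 ≤ r) :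
    25 * r ^ 2 * ((r + 256 / 100) / (32 / 10)) ≤ Real.exp (993 / 100 * (r - 2)) := by
  obtain ⟨t, ht, rfl⟩ : ∃ t : ℝ, 0 ≤ t ∧ r = 257 / 100 + t := ⟨r - 257 / 100, by linarith, by ring⟩
  have e : Real.exp (993 / 100 * (257 / 100 + t - 2)) =
      Real.exp (56601 / 10000) * Real.exp (331 / 100 * t) ^ 3 := by
    rw [← Real.exp_nat_mul, ← Real.exp_add]
    congr 1
    push_cast
    ring
  have h1 : (265 : ℝ) ≤ Real.exp (56601 / 10000) := by
    have e1 : Real.exp (56601 / 10000) = Real.exp 1 ^ 5 * Real.exp (6601 / 10000) := by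
      rw [← Real.exp_nat_mul, ← Real.exp_add]
      norm_num
    have h2 : (2.71 : ℝ) ^ 5 ≤ Real.exp 1 ^ 5 := by
      have := Real.exp_one_gt_d9
      exact pow_le_pow_left₀ (by norm_num) (by linarith) 5
    have h3 := Real.quadratic_le_exp_of_nonneg (x := 6601 / 10000) (by norm_num)
    rw [e1]
    calc (265 : ℝ) ≤ (2.71 : ℝ) ^ 5 * (1 + 6601 / 10000 + (6601 / 10000) ^ 2 / 2) := by norm_num
      _ ≤ _ := mul_le_mul h2 h3 (by norm_num) (by positivity)
  have h4 : (1 + 331 / 100 * t) ^ 3 ≤ Real.exp (331 / 100 * t) ^ 3 := by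
    have := Real.add_one_le_exp (331 / 100 * t)
    exact pow_le_pow_left₀ (by positivity) (by linarith) 3
  rw [e]
  calc 25 * (257 / 100 + t) ^ 2 * ((257 / 100 + t + 256 / 100) / (32 / 10))
      ≤ 265 * (1 + 331 / 100 * t) ^ 3 := by
        have ht2 := mul_nonneg ht ht
        have ht3 := mul_nonneg ht2 ht
        nlinarith
    _ ≤ _ := mul_le_mul h1 h4 (by positivity) (by positivity)

/-- the last term, if `n - s²` is small -/
theorem uQ_small {n k s : ℕ} (H : RegU n k) (hs : k + 1 ≤ s) (hsn : s ^ 2 ≤ n) :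
    2 * uP 30 * Real.exp (2 * ua ((n : ℝ) - (k : ℝ) ^ 2) * k * s) ≤ 8 / 100 * uQ n k k := by
  have hm199 := uqc_m H
  have hpi := Real.pi_gt_d4
  have hpi0 := Real.pi_pos
  have hs' : (k : ℝ) + 1 ≤ s := by exact_mod_cast hs
  have hsn' : (s : ℝ) ^ 2 ≤ n := by exact_mod_cast hsn
  have hk0 : (0 : ℝ) ≤ k := Nat.cast_nonneg k
  unfold uQ
  set m : ℝ := (n : ℝ) - (k : ℝ) ^ 2 with hm
  have hm0 : 0 < m := by linarith
  have hL := uL_pos hm0
  have ha := ua_pos hm0
  have haL := ua_mul hm0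
  have h30 : 0 < uL 30 := uL_pos (by norm_num)
  -- exponent
  have h1 : 2 * ua m * k * s ≤ uL m + 2 * ua m * k * k := by
    rw [← haL]
    have : 2 * (k : ℝ) * s ≤ m + 2 * k * k := by
      rw [hm]
      nlinarith [sq_nonneg ((s : ℝ) - k)]
    nlinarith
  -- the root
  set r : ℝ := Real.sqrt (m / 30) with hr
  have hr2 : r ^ 2 = m / 30 := Real.sq_sqrt (by positivity)
  have hr257 : 257 / 100 ≤ r := by
    rw [hr, Real.le_sqrt (by norm_num) (by positivity)]
    linarith
  have hr0 : 0 < r := by linarith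
  have hLr : uL m = uL 30 * r := by
    unfold uL
    rw [hr, ← Real.sqrt_mul (by positivity)]
    congr 1
    ring
  have hL30 : 993 / 100 ≤ uL 30 := by
    unfold uL
    rw [Real.le_sqrt (by norm_num) (by positivity)]
    nlinarith
  have hsr : Real.sqrt r ≤ (r + 256 / 100) / (32 / 10) := by
    have h2 := Real.sq_sqrt hr0.le
    rw [le_div_iff₀ (by norm_num)]
    nlinarith [sq_nonneg (Real.sqrt r - 16 / 10)]
  have h3 : 25 * r ^ 2 * Real.sqrt r ≤ Real.exp (uL m - 2 * uL 30) := by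
    calc 25 * r ^ 2 * Real.sqrt r ≤ 25 * r ^ 2 * ((r + 256 / 100) / (32 / 10)) :=
          mul_le_mul_of_nonneg_left hsr (by positivity)
      _ ≤ Real.exp (993 / 100 * (r - 2)) := uqc_num hr257
      _ ≤ Real.exp (uL m - 2 * uL 30) := by
          apply Real.exp_le_exp.2
          rw [hLr]
          nlinarith
  have h4 : Real.sqrt (Real.pi / uL 30) = Real.sqrt r * Real.sqrt (Real.pi / uL m) := by
    rw [hLr, ← Real.sqrt_mul hr0.le]
    congr 1
    field_simp
  have hS : 0 < Real.sqrt (Real.pi / uL m) := Real.sqrt_pos.2 (by positivity)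
  have h5 : 2 * uP 30 * Real.exp (uL m) ≤ 8 / 100 * uP m := by
    unfold uP
    rw [h4]
    have e1 : Real.exp (2 * uL m) = Real.exp (uL m - 2 * uL 30) * Real.exp (2 * uL 30) *
        Real.exp (uL m) := by
      rw [← Real.exp_add, ← Real.exp_add]
      congr 1
      ring
    rw [e1]
    have hmr : m = 30 * r ^ 2 := by rw [hr2]; ring
    have h6 : (1 : ℝ) / 180 * Real.sqrt r ≤ 8 / 1200 * (1 / m) * Real.exp (uL m - 2 * uL 30) := by
      rw [hmr]
      have : (1 : ℝ) / 180 * Real.sqrt r = 8 / 1200 * (1 / (30 * r ^ 2)) *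
          (25 * r ^ 2 * Real.sqrt r) := by
        field_simp
        norm_num
      rw [this, ← hmr]
      exact mul_le_mul_of_nonneg_left h3 (by positivity)
    have h7 : 0 < Real.sqrt (Real.pi / uL m) * Real.exp (2 * uL 30) * Real.exp (uL m) := by
      positivity
    calc 2 * (1 / (12 * 30) * (Real.sqrt r * Real.sqrt (Real.pi / uL m)) *
          Real.exp (2 * uL 30)) * Real.exp (uL m)
        = (1 / 180 * Real.sqrt r) * (Real.sqrt (Real.pi / uL m) * Real.exp (2 * uL 30) *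
          Real.exp (uL m)) := by ring
      _ ≤ (8 / 1200 * (1 / m) * Real.exp (uL m - 2 * uL 30)) *
          (Real.sqrt (Real.pi / uL m) * Real.exp (2 * uL 30) * Real.exp (uL m)) :=
          mul_le_mul_of_nonneg_right h6 h7.le
      _ = _ := by
          field_simp
          ring
  calc 2 * uP 30 * Real.exp (2 * ua m * k * s)
      ≤ 2 * uP 30 * Real.exp (uL m + 2 * ua m * k * k) := by
        have := uP_pos (m := 30) (by norm_num)
        apply mul_le_mul_of_nonneg_left _ (by positivity)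
        exact Real.exp_le_exp.2 h1
    _ = (2 * uP 30 * Real.exp (uL m)) * Real.exp (2 * ua m * k * k) := by
        rw [Real.exp_add]
        ring
    _ ≤ (8 / 100 * uP m) * Real.exp (2 * ua m * k * k) :=
        mul_le_mul_of_nonneg_right h5 (Real.exp_pos _).le
    _ = 8 / 100 * (uP m * Real.exp (2 * ua m * k * k)) := by ring

end Pool.Agent.Lib.Durfee
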