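import Pool.Agent.Lib.MP_9393b1_co.UDefs

/-! # Regime U: consequences of the hypotheses -/

set_option autoImplicit false

namespace Pool.Agent.Lib.Durfee

namespace RegU

variable {n k : ℕ}

theorem sq_lt (h : RegU n k) : (k + 1) ^ 2 ≤ n := Nat.le_sqrt'.1 h.hks

private theorem ureg_sq_lt_real (h : RegU n k) : ((k : ℝ) + 1) ^ 2 ≤ n := by
  have h1 := h.sq_lt
  exact_mod_cast h1

private theorem ureg_n_ge (h : RegU n k) : (10000 : ℝ) ≤ n := by
  have h1 := h.hn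
  have h2 : 10000 ≤ n := by norm_num at h1; exact h1
  exact_mod_cast h2

/-- `z = n^{1/6}` -/
private theorem ureg_z (h : RegU n k) : ∃ z : ℝ, 464 / 100 ≤ z ∧ z ^ 6 = n ∧
    (n : ℝ) - (k : ℝ) ^ 2 ≤ 8225 / 10000 * z ^ 4 := by
  have hn0 : (0 : ℝ) ≤ n := by positivity
  have hz0 : (0 : ℝ) ≤ (n : ℝ) ^ ((1 : ℝ) / 6) := Real.rpow_nonneg hn0 _
  have hz6 : ((n : ℝ) ^ ((1 : ℝ) / 6)) ^ 6 = n := by
    rw [← Real.rpow_natCast, ← Real.rpow_mul hn0]
    norm_num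
  have hz4 : ((n : ℝ) ^ ((1 : ℝ) / 6)) ^ 4 = (n : ℝ) ^ ((2 : ℝ) / 3) := by
    rw [← Real.rpow_natCast, ← Real.rpow_mul hn0]
    norm_num
  refine ⟨(n : ℝ) ^ ((1 : ℝ) / 6), ?_, hz6, ?_⟩
  · by_contra hlt
    push Not at hlt
    have h1 : ((n : ℝ) ^ ((1 : ℝ) / 6)) ^ 6 < (464 / 100) ^ 6 :=
      pow_lt_pow_left₀ hlt hz0 (by norm_num)
    rw [hz6] at h1
    have h2 : (10000 : ℝ) ≤ n := h.ureg_n_ge
    norm_num at h1
    linarith
  · rw [hz4]
    exact h.hm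

theorem cast_m (h : RegU n k) : ((n - k ^ 2 : ℕ) : ℝ) = (n : ℝ) - (k : ℝ) ^ 2 := by
  have h1 := h.sq_lt
  have h3 : (k + 1) ^ 2 = k ^ 2 + 2 * k + 1 := by ring
  have h2 : k ^ 2 ≤ n := by omega
  rw [Nat.cast_sub h2]
  push_cast
  ring

theorem k_sq_ge (h : RegU n k) : 961 / 1000 * (n : ℝ) ≤ (k : ℝ) ^ 2 := by
  obtain ⟨z, hz, hz6, hm⟩ := h.ureg_z
  have h1 : (21 + 1 / 2 : ℝ) ≤ z ^ 2 := by nlinarith
  have h2 : 0 ≤ z ^ 4 * (z ^ 2 - (21 + 1 / 2)) := by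
    have : 0 ≤ z ^ 2 - (21 + 1 / 2) := by linarith
    positivity
  have h3 : z ^ 4 * (z ^ 2 - (21 + 1 / 2)) = z ^ 6 - (21 + 1 / 2) * z ^ 4 := by ring
  rw [h3, hz6] at h2
  linarith

theorem k_ge (h : RegU n k) : 99 ≤ k := by
  have h1 := h.k_sq_ge
  have h2 : (10000 : ℝ) ≤ n := h.ureg_n_ge
  by_contra hlt
  push Not at hlt
  have h3 : k ≤ 98 := by omega
  have h4 : (k : ℝ) ≤ 98 := by exact_mod_cast h3
  have h5 : (0 : ℝ) ≤ k := by positivity
  have h6 : (k : ℝ) ^ 2 ≤ 98 ^ 2 := pow_le_pow_left₀ h5 h4 2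
  norm_num at h6
  linarith

theorem m_ge (h : RegU n k) : 199 ≤ n - k ^ 2 := by
  have h1 := h.sq_lt
  have h2 := h.k_ge
  have h3 : (k + 1) ^ 2 = k ^ 2 + 2 * k + 1 := by ring
  omega

private theorem ureg_m_pos (h : RegU n k) : (199 : ℝ) ≤ (n : ℝ) - (k : ℝ) ^ 2 := by
  have h1 := h.m_ge
  rw [← h.cast_m]
  exact_mod_cast h1

theorem m32 (h : RegU n k) :
    ((n : ℝ) - (k : ℝ) ^ 2) * Real.sqrt ((n : ℝ) - (k : ℝ) ^ 2) ≤ 746 / 1000 * n := by
  obtain ⟨z, hz, hz6, hm⟩ := h.ureg_z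
  have hm0 := h.ureg_m_pos
  have hz0 : 0 < z := by linarith
  have h1 : Real.sqrt ((n : ℝ) - (k : ℝ) ^ 2) ≤ 90692 / 100000 * z ^ 2 := by
    apply Real.sqrt_le_iff.2
    refine ⟨by positivity, ?_⟩
    have h2 : (90692 / 100000 * z ^ 2) ^ 2 = (90692 / 100000) ^ 2 * z ^ 4 := by ring
    rw [h2]
    have h3 : 0 ≤ z ^ 4 := by positivity
    have h4 : (8225 / 10000 : ℝ) ≤ (90692 / 100000) ^ 2 := by norm_num
    nlinarith
  calc ((n : ℝ) - (k : ℝ) ^ 2) * Real.sqrt ((n : ℝ) - (k : ℝ) ^ 2) ≤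
      (8225 / 10000 * z ^ 4) * (90692 / 100000 * z ^ 2) :=
        mul_le_mul hm h1 (Real.sqrt_nonneg _) (by positivity)
    _ = 8225 / 10000 * (90692 / 100000) * z ^ 6 := by ring
    _ ≤ 746 / 1000 * z ^ 6 := by
        apply mul_le_mul_of_nonneg_right _ (by positivity)
        norm_num
    _ = _ := by rw [hz6]

private theorem ureg_k_ge_z (h : RegU n k) {z : ℝ} (hz0 : 0 < z) (hz6 : z ^ 6 = n) :
    98 / 100 * z ^ 3 ≤ k := by
  have h1 := h.k_sq_ge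
  have h2 : (98 / 100 * z ^ 3) ^ 2 ≤ (k : ℝ) ^ 2 := by
    calc (98 / 100 * z ^ 3) ^ 2 = (98 / 100) ^ 2 * z ^ 6 := by ring
      _ ≤ 961 / 1000 * z ^ 6 := by
          apply mul_le_mul_of_nonneg_right _ (by positivity)
          norm_num
      _ = 961 / 1000 * n := by rw [hz6]
      _ ≤ _ := h1
  have h3 : (0 : ℝ) ≤ k := by positivity
  exact (pow_le_pow_iff_left₀ (by positivity) h3 (by norm_num)).1 h2

theorem m_sq_lt (h : RegU n k) :
    ((n : ℝ) - (k : ℝ) ^ 2) ^ 2 < (k : ℝ) ^ 2 * (2 * k - 1) := by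
  obtain ⟨z, hz, hz6, hm⟩ := h.ureg_z
  have hm0 := h.ureg_m_pos
  have hz0 : 0 < z := by linarith
  have hk := h.ureg_k_ge_z hz0 hz6
  have hk2 := h.k_sq_ge
  rw [← hz6] at hk2
  have h1 : ((n : ℝ) - (k : ℝ) ^ 2) ^ 2 ≤ (8225 / 10000 * z ^ 4) ^ 2 :=
    pow_le_pow_left₀ (by linarith) hm 2
  have h2 : 961 / 1000 * z ^ 6 * (2 * (98 / 100 * z ^ 3) - 1) ≤ (k : ℝ) ^ 2 * (2 * k - 1) := by
    apply mul_le_mul hk2 (by linarith) _ (by positivity)
    have h3 : (464 / 100) ^ 3 ≤ z ^ 3 := pow_le_pow_left₀ (by norm_num) hz 3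
    norm_num at h3
    linarith
  refine lt_of_lt_of_le (lt_of_le_of_lt h1 ?_) h2
  have h3 : 0 < z ^ 6 := by positivity
  have h4 : (8225 / 10000) ^ 2 * z ^ 2 < 961 / 1000 * (2 * (98 / 100 * z ^ 3) - 1) := by
    have h5 : 464 / 100 * z ^ 2 ≤ z ^ 3 := by
      have : 0 ≤ z ^ 2 * (z - 464 / 100) := by
        have : 0 ≤ z - 464 / 100 := by linarith
        positivity
      nlinarith
    have h6 : (464 / 100) ^ 2 ≤ z ^ 2 := pow_le_pow_left₀ (by norm_num) hz 2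
    norm_num at h6 ⊢
    nlinarith
  calc (8225 / 10000 * z ^ 4) ^ 2 = z ^ 6 * ((8225 / 10000) ^ 2 * z ^ 2) := by ring
    _ < z ^ 6 * (961 / 1000 * (2 * (98 / 100 * z ^ 3) - 1)) := mul_lt_mul_of_pos_left h4 h3
    _ = _ := by ring

private theorem ureg_exp9 : (4700 : ℝ) ≤ Real.exp 9 := by
  have h1 : (2.7 : ℝ) ≤ Real.exp 1 := by
    have := Real.exp_one_gt_d9
    linarith
  have h2 : Real.exp 9 = Real.exp 1 ^ 9 := by
    rw [← Real.exp_nat_mul]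
    norm_num
  rw [h2]
  calc (4700 : ℝ) ≤ 2.7 ^ 9 := by norm_num
    _ ≤ _ := pow_le_pow_left₀ (by norm_num) h1 9

/-- the tail of the product is negligible -/
theorem tail_le (h : RegU n k) :
    Real.exp (-(ua ((n : ℝ) - (k : ℝ) ^ 2) * (k + 1))) /
      (1 - Real.exp (-ua ((n : ℝ) - (k : ℝ) ^ 2))) ≤ 1 / 400 := by
  obtain ⟨z, hz, hz6, hm⟩ := h.ureg_z
  have hm0 := h.ureg_m_pos
  have hz0 : 0 < z := by linarith
  have hk := h.ureg_k_ge_z hz0 hz6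
  have hmp : (0 : ℝ) < (n : ℝ) - (k : ℝ) ^ 2 := by linarith
  have hpi1 : (3.2898 : ℝ) ≤ Real.pi ^ 2 / 3 := by
    have h1 := Real.pi_gt_d6
    nlinarith
  have hpi2 : Real.pi ^ 2 / 3 ≤ (3.29 : ℝ) := by
    have h1 := Real.pi_lt_d6
    have h2 := Real.pi_pos
    nlinarith
  obtain ⟨a, ha⟩ : ∃ a, a = ua ((n : ℝ) - (k : ℝ) ^ 2) := ⟨_, rfl⟩
  have ha0 : 0 < a := by rw [ha]; exact ua_pos hmp
  have hasq : a ^ 2 = Real.pi ^ 2 / 3 / ((n : ℝ) - (k : ℝ) ^ 2) := by rw [ha]; exact ua_sq hmp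
  have ha1 : 1.9999 / z ^ 2 ≤ a := by
    have h1 : (1.9999 / z ^ 2) ^ 2 ≤ a ^ 2 := by
      rw [hasq, div_pow, ← pow_mul, div_le_div_iff₀ (by positivity) hmp]
      calc (1.9999 : ℝ) ^ 2 * ((n : ℝ) - (k : ℝ) ^ 2) ≤ 1.9999 ^ 2 * (8225 / 10000 * z ^ 4) := by
            apply mul_le_mul_of_nonneg_left hm (by norm_num)
        _ = 1.9999 ^ 2 * (8225 / 10000) * z ^ 4 := by ring
        _ ≤ 3.2898 * z ^ 4 := by
            apply mul_le_mul_of_nonneg_right _ (by positivity)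
            norm_num
        _ ≤ Real.pi ^ 2 / 3 * z ^ (2 * 2) := by
            apply mul_le_mul_of_nonneg_right hpi1 (by positivity)
    exact (pow_le_pow_iff_left₀ (by positivity) ha0.le (by norm_num)).1 h1
  have ha2 : a ≤ 0.1286 := by
    have h1 : a ^ 2 ≤ 0.1286 ^ 2 := by
      rw [hasq, div_le_iff₀ hmp]
      calc Real.pi ^ 2 / 3 ≤ 3.29 := hpi2
        _ ≤ 0.1286 ^ 2 * 199 := by norm_num
        _ ≤ _ := mul_le_mul_of_nonneg_left hm0 (by norm_num)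
    exact (pow_le_pow_iff_left₀ ha0.le (by norm_num) (by norm_num)).1 h1
  rw [← ha]
  -- the exponent
  have h1 : 1.9599 * z ≤ a * (k + 1) := by
    calc 1.9599 * z ≤ 1.9999 / z ^ 2 * (98 / 100 * z ^ 3) := by
          have : 1.9999 / z ^ 2 * (98 / 100 * z ^ 3) = 1.9999 * (98 / 100) * z := by
            field_simp
          rw [this]
          apply mul_le_mul_of_nonneg_right _ hz0.le
          norm_num
      _ ≤ a * k := mul_le_mul ha1 hk (by positivity) ha0.le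
      _ ≤ a * (k + 1) := by
          apply mul_le_mul_of_nonneg_left _ ha0.le
          linarith
  -- the denominator
  have h2 : 1.87 / z ^ 2 ≤ 1 - Real.exp (-a) := by
    have h3 : Real.exp (-a) ≤ 1 - a + a ^ 2 / 2 := by
      have h4 := Real.quadratic_le_exp_of_nonneg ha0.le
      have h5 : 1 ≤ (1 - a + a ^ 2 / 2) * (1 + a + a ^ 2 / 2) := by nlinarith [sq_nonneg (a ^ 2)]
      have h6 : 0 < 1 - a + a ^ 2 / 2 := by nlinarith
      rw [Real.exp_neg, inv_le_iff_one_le_mul₀ (Real.exp_pos _)]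
      calc (1 : ℝ) ≤ (1 - a + a ^ 2 / 2) * (1 + a + a ^ 2 / 2) := h5
        _ ≤ _ := mul_le_mul_of_nonneg_left h4 h6.le
    have h7 : 0.9357 * a ≤ 1 - Real.exp (-a) := by nlinarith
    refine le_trans ?_ h7
    calc 1.87 / z ^ 2 ≤ 0.9357 * (1.9999 / z ^ 2) := by
          rw [← mul_div_assoc]
          apply div_le_div_of_nonneg_right _ (by positivity)
          norm_num
      _ ≤ _ := mul_le_mul_of_nonneg_left ha1 (by norm_num)
  have h2' : 0 < 1 - Real.exp (-a) := lt_of_lt_of_le (by positivity) h2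
  rw [div_le_iff₀ h2']
  -- growth
  have h3 : z ^ 2 ≤ 4.64 ^ 2 * Real.exp (1.9599 * (z - 4.64)) := by
    have h4 : z / 4.64 ≤ Real.exp ((z - 4.64) / 4.64) := by
      have := Real.add_one_le_exp ((z - 4.64) / 4.64)
      have e : (z - 4.64) / 4.64 + 1 = z / 4.64 := by ring
      rw [e] at this
      exact this
    have h5 : (z / 4.64) ^ 2 ≤ Real.exp (1.9599 * (z - 4.64)) := by
      calc (z / 4.64) ^ 2 ≤ (Real.exp ((z - 4.64) / 4.64)) ^ 2 :=
            pow_le_pow_left₀ (by positivity) h4 2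
        _ = Real.exp (2 * ((z - 4.64) / 4.64)) := by rw [← Real.exp_nat_mul]; norm_num
        _ ≤ _ := by
            apply Real.exp_le_exp.2
            have : 0 ≤ z - 4.64 := by norm_num at hz ⊢; linarith
            have e : 2 * ((z - 4.64) / 4.64) = 2 / 4.64 * (z - 4.64) := by ring
            have e2 : ((2 : ℕ) : ℝ) * ((z - 4.64) / 4.64) = 2 / 4.64 * (z - 4.64) := by
              push_cast
              exact e
            first
              | rw [e]; exact mul_le_mul_of_nonneg_right (by norm_num) this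
              | rw [e2]; exact mul_le_mul_of_nonneg_right (by norm_num) this
    calc z ^ 2 = 4.64 ^ 2 * (z / 4.64) ^ 2 := by
          rw [div_pow]
          field_simp
      _ ≤ _ := mul_le_mul_of_nonneg_left h5 (by norm_num)
  have h6 : Real.exp (-(a * (k + 1))) ≤ Real.exp (-(1.9599 * z)) := by
    apply Real.exp_le_exp.2
    linarith
  refine h6.trans (le_trans ?_ (mul_le_mul_of_nonneg_left h2 (by norm_num)))
  have h7 : Real.exp (-(1.9599 * z)) * z ^ 2 ≤ 4.64 ^ 2 / 4700 := by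
    have h8 : Real.exp (-(1.9599 * z)) * z ^ 2 ≤
        Real.exp (-(1.9599 * z)) * (4.64 ^ 2 * Real.exp (1.9599 * (z - 4.64))) :=
      mul_le_mul_of_nonneg_left h3 (Real.exp_pos _).le
    have h9 : Real.exp (-(1.9599 * z)) * (4.64 ^ 2 * Real.exp (1.9599 * (z - 4.64))) =
        4.64 ^ 2 * Real.exp (-(1.9599 * 4.64)) := by
      have : Real.exp (-(1.9599 * z)) * Real.exp (1.9599 * (z - 4.64)) =
          Real.exp (-(1.9599 * 4.64)) := by
        rw [← Real.exp_add]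
        congr 1
        ring
      rw [← this]
      ring
    rw [h9] at h8
    refine h8.trans ?_
    have h10 : Real.exp (-(1.9599 * 4.64)) ≤ 1 / 4700 := by
      have h11 : Real.exp (-(1.9599 * 4.64)) ≤ Real.exp (-9) := by
        apply Real.exp_le_exp.2
        norm_num
      refine h11.trans ?_
      rw [Real.exp_neg, ← one_div]
      exact one_div_le_one_div_of_le (by norm_num) ureg_exp9
    calc (4.64 : ℝ) ^ 2 * Real.exp (-(1.9599 * 4.64)) ≤ 4.64 ^ 2 * (1 / 4700) :=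
          mul_le_mul_of_nonneg_left h10 (by norm_num)
      _ = _ := by ring
  have h12 : 1 / 400 * (1.87 / z ^ 2) = 1.87 / 400 / z ^ 2 := by ring
  rw [h12, le_div_iff₀ (by positivity)]
  refine h7.trans ?_
  norm_num

/-- `(U2)` -/
theorem log_y_gt (h : RegU n k) :
    2 * Real.sqrt (Real.pi ^ 2 / 3) * Real.sqrt ((n : ℝ) / ((n : ℝ) - ((k : ℝ) - 1) ^ 2)) <
      2 * ua ((n : ℝ) - (k : ℝ) ^ 2) * k := by
  have hm0 := h.ureg_m_pos
  have hmp : (0 : ℝ) < (n : ℝ) - (k : ℝ) ^ 2 := by linarith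
  have hlt := h.m_sq_lt
  have hk := h.k_ge
  have hk0 : (99 : ℝ) ≤ k := by exact_mod_cast hk
  have hk1 : (0 : ℝ) ≤ k := by linarith
  have hm' : (0 : ℝ) < (n : ℝ) - ((k : ℝ) - 1) ^ 2 := by nlinarith
  have hpi := Real.pi_pos
  have e1 : Real.sqrt (Real.pi ^ 2 / 3) * Real.sqrt ((n : ℝ) / ((n : ℝ) - ((k : ℝ) - 1) ^ 2)) =
      Real.sqrt (Real.pi ^ 2 / 3 * ((n : ℝ) / ((n : ℝ) - ((k : ℝ) - 1) ^ 2))) :=
    (Real.sqrt_mul (by positivity) _).symm
  have e2 : ua ((n : ℝ) - (k : ℝ) ^ 2) * k =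
      Real.sqrt (Real.pi ^ 2 / 3 / ((n : ℝ) - (k : ℝ) ^ 2) * (k : ℝ) ^ 2) := by
    rw [Real.sqrt_mul (by positivity), Real.sqrt_sq hk1]
    rfl
  have h1 : Real.sqrt (Real.pi ^ 2 / 3 * ((n : ℝ) / ((n : ℝ) - ((k : ℝ) - 1) ^ 2))) <
      Real.sqrt (Real.pi ^ 2 / 3 / ((n : ℝ) - (k : ℝ) ^ 2) * (k : ℝ) ^ 2) := by
    apply Real.sqrt_lt_sqrt (by positivity)
    have e3 : Real.pi ^ 2 / 3 / ((n : ℝ) - (k : ℝ) ^ 2) * (k : ℝ) ^ 2 =
        Real.pi ^ 2 / 3 * ((k : ℝ) ^ 2 / ((n : ℝ) - (k : ℝ) ^ 2)) := by ring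
    rw [e3]
    apply mul_lt_mul_of_pos_left _ (by positivity)
    rw [div_lt_div_iff₀ hm' hmp]
    nlinarith
  rw [mul_assoc, mul_assoc, e1, e2]
  linarith

end RegU

end Pool.Agent.Lib.Durfee
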