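import Pool.Agent.Lib.MP_9393b1_co.ULo
import Pool.Agent.Lib.MP_9393b1_co.UQb
import Pool.Agent.Lib.MP_9393b1_co.UQc

/-! # Regime U: summation -/

set_option autoImplicit false

namespace Pool.Agent.Lib.Durfee

private theorem usum_uQ_pos {n k j : ℕ} (h : 0 < (n : ℝ) - (j : ℝ) ^ 2) : 0 < uQ n k j := by
  unfold uQ
  exact mul_pos (uP_pos h) (Real.exp_pos _)

private theorem usum_up_step {n k : ℕ} (H : RegU n k) (i : ℕ)
    (h30 : 30 ≤ (n : ℝ) - ((k : ℝ) + i + 1) ^ 2) :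
    uQ n k (k + i + 1) ≤ 15 / 100 * uQ n k (k + i) := by
  induction i with
  | zero =>
    have h := uQ_up H (by simpa using h30)
    simpa using h
  | succ i ih =>
    push_cast at h30
    have hk0 : (0 : ℝ) ≤ k := Nat.cast_nonneg k
    have hi0 : (0 : ℝ) ≤ i := Nat.cast_nonneg i
    have h1 : 30 ≤ (n : ℝ) - ((k : ℝ) + i + 1) ^ 2 := by nlinarith
    have h2 := ih h1
    have h3 := uQ_logconc (n := n) (k := k) (j := k + i) (by push_cast; nlinarith)
    have hp0 : 0 < uQ n k (k + i) := usum_uQ_pos (by push_cast; nlinarith)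
    have hp1 : 0 < uQ n k (k + i + 1) := usum_uQ_pos (by push_cast; nlinarith)
    have e1 : k + (i + 1) + 1 = k + i + 2 := by ring
    have e2 : k + (i + 1) = k + i + 1 := by ring
    rw [e1, e2]
    by_contra hcon
    push Not at hcon
    have h4 : uQ n k (k + i) * (15 / 100 * uQ n k (k + i + 1)) <
        uQ n k (k + i) * uQ n k (k + i + 2) := mul_lt_mul_of_pos_left hcon hp0
    have h5 : uQ n k (k + i + 1) ^ 2 ≤ (15 / 100 * uQ n k (k + i)) * uQ n k (k + i + 1) := by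
      rw [sq]
      exact mul_le_mul_of_nonneg_right h2 hp1.le
    nlinarith

/-- geometric decay upwards -/
theorem uQ_up_geom {n k : ℕ} (H : RegU n k) (i : ℕ)
    (h30 : 30 ≤ (n : ℝ) - ((k : ℝ) + i) ^ 2) :
    uQ n k (k + i) ≤ (15 / 100) ^ i * uQ n k k := by
  induction i with
  | zero => simp
  | succ i ih =>
    push_cast at h30
    have hk0 : (0 : ℝ) ≤ k := Nat.cast_nonneg k
    have hi0 : (0 : ℝ) ≤ i := Nat.cast_nonneg i
    have h1 := ih (by nlinarith)
    have h2 := usum_up_step H i (by linarith)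
    have e2 : k + (i + 1) = k + i + 1 := by ring
    rw [e2, pow_succ]
    nlinarith

private theorem usum_n_ge {n k j : ℕ} (H : RegU n k) (hj : j ≤ k) :
    199 ≤ (n : ℝ) - (j : ℝ) ^ 2 := by
  have h1 := H.m_ge
  have h2 := H.cast_m
  have h3 : (199 : ℝ) ≤ ((n - k ^ 2 : ℕ) : ℝ) := by exact_mod_cast h1
  rw [h2] at h3
  have h4 : (j : ℝ) ≤ k := by exact_mod_cast hj
  have h5 : (0 : ℝ) ≤ j := Nat.cast_nonneg j
  nlinarith

private theorem usum_down_step {n k : ℕ} (H : RegU n k) (i : ℕ) (hi : i + 1 ≤ k) :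
    uQ n k (k - (i + 1)) ≤ 11 / 100 * uQ n k (k - i) := by
  induction i with
  | zero =>
    have h := uQ_down H
    simpa using h
  | succ i ih =>
    have h2 := ih (by omega)
    obtain ⟨j, hj⟩ : ∃ j, k = j + (i + 2) := ⟨k - (i + 2), by omega⟩
    have e0 : k - (i + 1 + 1) = j := by omega
    have e1 : k - (i + 1) = j + 1 := by omega
    have e2 : k - i = j + 2 := by omega
    rw [e0, e1]
    rw [e1, e2] at h2
    have h6 : 199 ≤ (n : ℝ) - ((j + 2 : ℕ) : ℝ) ^ 2 := usum_n_ge H (by omega)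
    push_cast at h6
    have hj0 : (0 : ℝ) ≤ j := Nat.cast_nonneg j
    have h3 := uQ_logconc (n := n) (k := k) (j := j) (by nlinarith)
    have hp2 : 0 < uQ n k (j + 2) := usum_uQ_pos (by push_cast; nlinarith)
    have hp1 : 0 < uQ n k (j + 1) := usum_uQ_pos (by push_cast; nlinarith)
    by_contra hcon
    push Not at hcon
    have h4 : (11 / 100 * uQ n k (j + 1)) * uQ n k (j + 2) <
        uQ n k j * uQ n k (j + 2) := mul_lt_mul_of_pos_right hcon hp2
    have h5 : uQ n k (j + 1) ^ 2 ≤ (11 / 100 * uQ n k (j + 2)) * uQ n k (j + 1) := by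
      rw [sq]
      exact mul_le_mul_of_nonneg_right h2 hp1.le
    nlinarith

/-- geometric decay downwards -/
theorem uQ_down_geom {n k : ℕ} (H : RegU n k) (i : ℕ) (hi : i ≤ k) :
    uQ n k (k - i) ≤ (11 / 100) ^ i * uQ n k k := by
  induction i with
  | zero => simp
  | succ i ih =>
    have h1 := ih (by omega)
    have h2 := usum_down_step H i hi
    rw [pow_succ]
    nlinarith

private theorem usum_pow (a : ℝ) (k j : ℕ) :
    Real.exp (2 * a * k) ^ j = Real.exp (2 * a * k * j) := by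
  rw [← Real.exp_nat_mul]
  congr 1
  ring

private theorem usum_term {n k j : ℕ} (hj : 30 ≤ (n : ℝ) - (j : ℝ) ^ 2) :
    (dco n j : ℝ) * Real.exp (2 * ua ((n : ℝ) - (k : ℝ) ^ 2) * k) ^ j ≤ 2 * uQ n k j := by
  have h1 : (j : ℝ) ^ 2 ≤ n := by linarith
  have h2 : j ^ 2 ≤ n := by exact_mod_cast h1
  have h3 : ((n - j ^ 2 : ℕ) : ℝ) = (n : ℝ) - (j : ℝ) ^ 2 := by
    rw [Nat.cast_sub h2]
    push_cast
    ring
  have h4 : 30 ≤ n - j ^ 2 := by
    have : (30 : ℝ) ≤ ((n - j ^ 2 : ℕ) : ℝ) := by rw [h3]; exact hj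
    exact_mod_cast this
  rw [rp_dco_eq, if_pos h2, usum_pow]
  have h5 := pk2_le j h4
  rw [h3] at h5
  unfold uQ
  calc (rp_pk2 j (n - j ^ 2) : ℝ) * Real.exp (2 * ua ((n : ℝ) - (k : ℝ) ^ 2) * k * j)
      ≤ (2 * uP ((n : ℝ) - (j : ℝ) ^ 2)) * Real.exp (2 * ua ((n : ℝ) - (k : ℝ) ^ 2) * k * j) :=
        mul_le_mul_of_nonneg_right h5 (Real.exp_pos _).le
    _ = _ := by ring

private theorem usum_geom_up (r : ℝ) (hr0 : 0 ≤ r) (hr : r < 1) (N : ℕ) :
    ∑ i ∈ Finset.range N, r ^ (i + 1) ≤ r / (1 - r) := by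
  have h1 : ∑ i ∈ Finset.range N, r ^ (i + 1) = r * ∑ i ∈ Finset.range N, r ^ i := by
    rw [Finset.mul_sum]
    apply Finset.sum_congr rfl
    intro i _
    ring
  have h2 : ∑ i ∈ Finset.range N, r ^ i ≤ 1 / (1 - r) := by
    rw [le_div_iff₀ (by linarith)]
    have h3 := mul_neg_geom_sum r N
    have h4 : 0 ≤ r ^ N := pow_nonneg hr0 N
    linarith
  rw [h1]
  calc r * ∑ i ∈ Finset.range N, r ^ i ≤ r * (1 / (1 - r)) := mul_le_mul_of_nonneg_left h2 hr0
    _ = r / (1 - r) := by ring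

/-- the other terms -/
theorem other_terms {n k : ℕ} (H : RegU n k) :
    ∑ j ∈ (Finset.range (Nat.sqrt n + 1)).erase k,
      (dco n j : ℝ) * Real.exp (2 * ua ((n : ℝ) - (k : ℝ) ^ 2) * k) ^ j ≤
        69 / 100 * uQ n k k := by
  classical
  set s := Nat.sqrt n with hs
  have hks : k + 1 ≤ s := H.hks
  have hk99 := H.k_ge
  have hsn : s ^ 2 ≤ n := by
    have := Nat.sqrt_le' n
    rw [← hs] at this
    exact this
  have hQ : 0 < uQ n k k := usum_uQ_pos (by have := usum_n_ge H (le_refl k); linarith)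
  -- splitting of the index set
  have hsplit : (Finset.range (s + 1)).erase k =
      (Finset.range k) ∪ (Finset.Ico (k + 1) (s + 1)) := by
    ext j
    simp only [Finset.mem_erase, Finset.mem_range, Finset.mem_union, Finset.mem_Ico]
    omega
  have hdisj : Disjoint (Finset.range k) (Finset.Ico (k + 1) (s + 1)) := by
    rw [Finset.disjoint_left]
    intro j
    simp only [Finset.mem_range, Finset.mem_Ico]
    omega
  rw [hsplit, Finset.sum_union hdisj]
  -- lower part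
  have hlow : ∑ j ∈ Finset.range k,
      (dco n j : ℝ) * Real.exp (2 * ua ((n : ℝ) - (k : ℝ) ^ 2) * k) ^ j ≤
        2 * ((11 / 100) / (1 - 11 / 100)) * uQ n k k := by
    rw [← Finset.sum_range_reflect]
    calc ∑ j ∈ Finset.range k,
          (dco n (k - 1 - j) : ℝ) * Real.exp (2 * ua ((n : ℝ) - (k : ℝ) ^ 2) * k) ^ (k - 1 - j)
        ≤ ∑ j ∈ Finset.range k, (2 * uQ n k k) * (11 / 100 : ℝ) ^ (j + 1) := by
          apply Finset.sum_le_sum
          intro j hj
          rw [Finset.mem_range] at hj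
          have e : k - 1 - j = k - (j + 1) := by omega
          rw [e]
          have h1 := usum_term (n := n) (k := k) (j := k - (j + 1))
            (by have := usum_n_ge H (show k - (j + 1) ≤ k by omega); linarith)
          have h2 := uQ_down_geom H (j + 1) (by omega)
          linarith
      _ = (2 * uQ n k k) * ∑ j ∈ Finset.range k, (11 / 100 : ℝ) ^ (j + 1) := by
          rw [Finset.mul_sum]
      _ ≤ (2 * uQ n k k) * ((11 / 100) / (1 - 11 / 100)) :=
          mul_le_mul_of_nonneg_left (usum_geom_up _ (by norm_num) (by norm_num) _) (by linarith)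
      _ = _ := by ring
  -- upper part
  have hup : ∑ j ∈ Finset.Ico (k + 1) (s + 1),
      (dco n j : ℝ) * Real.exp (2 * ua ((n : ℝ) - (k : ℝ) ^ 2) * k) ^ j ≤
        (2 * ((15 / 100) / (1 - 15 / 100)) + 8 / 100) * uQ n k k := by
    rw [Finset.sum_Ico_eq_sum_range]
    have hlen : s + 1 - (k + 1) = (s - (k + 1)) + 1 := by omega
    rw [hlen, Finset.sum_range_succ]
    have hgen : ∀ i, 30 ≤ (n : ℝ) - ((k : ℝ) + (i + 1 : ℕ)) ^ 2 →
        (dco n (k + 1 + i) : ℝ) * Real.exp (2 * ua ((n : ℝ) - (k : ℝ) ^ 2) * k) ^ (k + 1 + i) ≤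
          (2 * uQ n k k) * (15 / 100 : ℝ) ^ (i + 1) := by
      intro i hi
      have e : k + 1 + i = k + (i + 1) := by ring
      rw [e]
      have h1 := usum_term (n := n) (k := k) (j := k + (i + 1)) (by push_cast at hi ⊢; linarith)
      have h2 := uQ_up_geom H (i + 1) hi
      linarith
    have hlow' : ∀ i ∈ Finset.range (s - (k + 1)),
        (dco n (k + 1 + i) : ℝ) * Real.exp (2 * ua ((n : ℝ) - (k : ℝ) ^ 2) * k) ^ (k + 1 + i) ≤
          (2 * uQ n k k) * (15 / 100 : ℝ) ^ (i + 1) := by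
      intro i hi
      rw [Finset.mem_range] at hi
      apply hgen
      have h1 : k + (i + 1) + 1 ≤ s := by omega
      have h2 : ((k + (i + 1) : ℕ) : ℝ) + 1 ≤ s := by exact_mod_cast h1
      have h3 : (s : ℝ) ^ 2 ≤ n := by exact_mod_cast hsn
      have h4 : (99 : ℝ) ≤ k := by exact_mod_cast hk99
      push_cast at h2 ⊢
      have hi0 : (0 : ℝ) ≤ i := Nat.cast_nonneg i
      nlinarith
    have hlast : (dco n (k + 1 + (s - (k + 1))) : ℝ) *
        Real.exp (2 * ua ((n : ℝ) - (k : ℝ) ^ 2) * k) ^ (k + 1 + (s - (k + 1))) ≤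
          (2 * uQ n k k) * (15 / 100 : ℝ) ^ (s - (k + 1) + 1) + 8 / 100 * uQ n k k := by
      by_cases h30 : 30 ≤ (n : ℝ) - ((k : ℝ) + (s - (k + 1) + 1 : ℕ)) ^ 2
      · have := hgen _ h30
        linarith
      · push Not at h30
        have e : k + 1 + (s - (k + 1)) = s := by omega
        have e' : k + (s - (k + 1) + 1) = s := by omega
        have e'' : (k : ℝ) + ((s - (k + 1) + 1 : ℕ) : ℝ) = (s : ℝ) := by
          rw [← Nat.cast_add, e']
        rw [e''] at h30
        rw [e]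
        have h5 : n - s ^ 2 ≤ 30 := by
          have h6 : ((n - s ^ 2 : ℕ) : ℝ) = (n : ℝ) - (s : ℝ) ^ 2 := by
            rw [Nat.cast_sub hsn]
            push_cast
            ring
          have h7 : ((n - s ^ 2 : ℕ) : ℝ) ≤ 30 := by rw [h6]; exact h30.le
          exact_mod_cast h7
        rw [rp_dco_eq, if_pos hsn, usum_pow]
        have h8 : rp_pk2 s (n - s ^ 2) ≤ rp_pk2 s 30 := pk2_mono_right (by omega) h5
        have h9 := pk2_le s (le_refl 30)
        have h10 : (rp_pk2 s (n - s ^ 2) : ℝ) ≤ 2 * uP 30 := by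
          have : (rp_pk2 s (n - s ^ 2) : ℝ) ≤ (rp_pk2 s 30 : ℝ) := by exact_mod_cast h8
          have h11 : (((30 : ℕ)) : ℝ) = 30 := by norm_num
          rw [h11] at h9
          linarith
        have h12 := uQ_small H hks hsn
        have h13 : (rp_pk2 s (n - s ^ 2) : ℝ) *
            Real.exp (2 * ua ((n : ℝ) - (k : ℝ) ^ 2) * k * s) ≤
            2 * uP 30 * Real.exp (2 * ua ((n : ℝ) - (k : ℝ) ^ 2) * k * s) :=
          mul_le_mul_of_nonneg_right h10 (Real.exp_pos _).le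
        have h14 : 0 ≤ (2 * uQ n k k) * (15 / 100 : ℝ) ^ (s - (k + 1) + 1) := by positivity
        linarith
    have hsum := Finset.sum_le_sum hlow'
    have hgeom := usum_geom_up (15 / 100) (by norm_num) (by norm_num) (s - (k + 1) + 1)
    rw [Finset.sum_range_succ] at hgeom
    have hmul : (2 * uQ n k k) * (∑ i ∈ Finset.range (s - (k + 1)), (15 / 100 : ℝ) ^ (i + 1) +
        (15 / 100 : ℝ) ^ (s - (k + 1) + 1)) ≤ (2 * uQ n k k) * ((15 / 100) / (1 - 15 / 100)) :=
      mul_le_mul_of_nonneg_left hgeom (by linarith)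
    rw [mul_add, Finset.mul_sum] at hmul
    linarith
  have hnum : 2 * ((11 / 100 : ℝ) / (1 - 11 / 100)) + (2 * ((15 / 100) / (1 - 15 / 100)) + 8 / 100) ≤
      69 / 100 := by norm_num
  calc _ ≤ 2 * ((11 / 100) / (1 - 11 / 100)) * uQ n k k +
        (2 * ((15 / 100) / (1 - 15 / 100)) + 8 / 100) * uQ n k k := add_le_add hlow hup
    _ = (2 * ((11 / 100 : ℝ) / (1 - 11 / 100)) + (2 * ((15 / 100) / (1 - 15 / 100)) + 8 / 100)) *
        uQ n k k := by ring
    _ ≤ _ := mul_le_mul_of_nonneg_right hnum hQ.le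

/-- the main term -/
theorem main_term {n k : ℕ} (H : RegU n k) :
    3 / 4 * uQ n k k ≤ (dco n k : ℝ) * Real.exp (2 * ua ((n : ℝ) - (k : ℝ) ^ 2) * k) ^ k := by
  have h1 := H.m_ge
  have h2 := H.cast_m
  have h3 := H.tail_le
  have hk2 : k ^ 2 ≤ n := by
    exact le_trans (Nat.pow_le_pow_left (Nat.le_succ k) 2) H.sq_lt
  rw [rp_dco_eq, if_pos hk2, usum_pow]
  have h4 := pk2_ge (K := k) (m := n - k ^ 2) h1 (by rw [h2]; exact h3)
  rw [h2] at h4
  unfold uQ
  calc 3 / 4 * (uP ((n : ℝ) - (k : ℝ) ^ 2) * Real.exp (2 * ua ((n : ℝ) - (k : ℝ) ^ 2) * k * k))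
      = (3 / 4 * uP ((n : ℝ) - (k : ℝ) ^ 2)) *
        Real.exp (2 * ua ((n : ℝ) - (k : ℝ) ^ 2) * k * k) := by ring
    _ ≤ _ := mul_le_mul_of_nonneg_right h4 (Real.exp_pos _).le

theorem U_sign {n k : ℕ} (H : RegU n k) :
    0 < (-1 : ℝ) ^ k * Dval n (Real.exp (2 * ua ((n : ℝ) - (k : ℝ) ^ 2) * k)) := by
  classical
  set y := Real.exp (2 * ua ((n : ℝ) - (k : ℝ) ^ 2) * k) with hy
  have hy0 : 0 < y := Real.exp_pos _
  have hQ : 0 < uQ n k k := usum_uQ_pos (by have := usum_n_ge H (le_refl k); linarith)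
  have hD : Dval n y = ∑ j ∈ Finset.range (Nat.sqrt n + 1), (dco n j : ℝ) * (-y) ^ j := by
    unfold Dval Dpoly
    rw [Polynomial.eval_finsetSum]
    apply Finset.sum_congr rfl
    intro j _
    simp
  have hkmem : k ∈ Finset.range (Nat.sqrt n + 1) := by
    rw [Finset.mem_range]
    have := H.hks
    omega
  rw [hD, ← Finset.add_sum_erase _ _ hkmem, mul_add]
  have h1 : (-1 : ℝ) ^ k * ((dco n k : ℝ) * (-y) ^ k) = (dco n k : ℝ) * y ^ k := by
    rw [neg_pow y k]
    have : (-1 : ℝ) ^ k * (-1) ^ k = 1 := by rw [← mul_pow]; norm_num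
    calc (-1 : ℝ) ^ k * ((dco n k : ℝ) * ((-1) ^ k * y ^ k))
        = ((-1 : ℝ) ^ k * (-1) ^ k) * ((dco n k : ℝ) * y ^ k) := by ring
      _ = _ := by rw [this, one_mul]
  have h2 : |(-1 : ℝ) ^ k * ∑ j ∈ (Finset.range (Nat.sqrt n + 1)).erase k,
      (dco n j : ℝ) * (-y) ^ j| ≤ ∑ j ∈ (Finset.range (Nat.sqrt n + 1)).erase k,
      (dco n j : ℝ) * y ^ j := by
    rw [abs_mul, abs_pow, abs_neg, abs_one, one_pow, one_mul]
    refine (Finset.abs_sum_le_sum_abs _ _).trans ?_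
    apply Finset.sum_le_sum
    intro j _
    rw [abs_mul, abs_pow, abs_neg, abs_of_pos hy0, Nat.abs_cast]
  have h3 := other_terms H
  have h4 := main_term H
  rw [← hy] at h3 h4
  rw [h1]
  have h5 := neg_abs_le ((-1 : ℝ) ^ k * ∑ j ∈ (Finset.range (Nat.sqrt n + 1)).erase k,
      (dco n j : ℝ) * (-y) ^ j)
  linarith

end Pool.Agent.Lib.Durfee
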