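import Pool.Agent.Lib.MP_9393b1_co.UNorm
import Pool.Agent.Lib.MP_9393b1_co.UCoef
import Pool.Agent.Lib.MP_9393b1_co.UMono
import Pool.Agent.Lib.MP_9393b1_co.UJb

/-! # Regime U: upper bound of the coefficients -/

set_option autoImplicit false

namespace Pool.Agent.Lib.Durfee

open Complex MeasureTheory

/-- the absolute value of the integrand -/
theorem norm_uf_le {m : ℕ} (hm : 1 ≤ m) (K : ℕ) (t : ℝ) :
    ‖exp (m * us (ua m) t) * (1 / (qfac (us (ua m) t) K) ^ 2)‖ ≤
      ua m / (2 * Real.pi) * Real.exp (2 * uL m) * jF (uL m) t *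
      Real.exp (2 * (Real.exp (-(ua m * (K + 1))) / (1 - Real.exp (-ua m)))) := by
  have hm0 : (0 : ℝ) < m := by exact_mod_cast hm
  have ha := ua_pos hm0
  have hL := uL_pos hm0
  have hpi := Real.pi_pos
  have ht : (0 : ℝ) < 1 + t ^ 2 := by positivity
  rw [norm_mul, Complex.norm_exp]
  have h1 : ((m : ℂ) * us (ua m) t).re = uL m := by
    rw [show ((m : ℂ) * us (ua m) t) = (((m : ℝ) : ℂ) * us (ua m) t) by push_cast; rfl,
      Complex.re_ofReal_mul, us_re, mul_comm, ua_mul hm0]
  rw [h1]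
  have h2 := norm_inv_qfac_sq_le ha t K
  have h3 : Real.pi ^ 2 / (3 * ua m * (1 + t ^ 2)) = uL m / (1 + t ^ 2) := by
    have := ua_mul_uL hm0
    rw [div_eq_div_iff (by positivity) (by positivity)]
    have h4 : Real.pi ^ 2 = 3 * (ua m * uL m) := by rw [this]; ring
    rw [h4]
    ring
  have h4 : ua m * t ^ 2 / 12 = Real.pi ^ 2 * t ^ 2 / (36 * uL m) := by
    have := ua_mul_uL hm0
    rw [div_eq_div_iff (by positivity) (by positivity)]
    have h4 : Real.pi ^ 2 = 3 * (ua m * uL m) := by rw [this]; ring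
    rw [h4]
    ring
  rw [h3, h4] at h2
  have h5 : Real.exp (uL m) * (ua m * Real.sqrt (1 + t ^ 2) / (2 * Real.pi) *
      Real.exp (uL m / (1 + t ^ 2) + Real.pi ^ 2 * t ^ 2 / (36 * uL m)) *
      Real.exp (2 * (Real.exp (-(ua m * (K + 1))) / (1 - Real.exp (-ua m))))) =
      ua m / (2 * Real.pi) * Real.exp (2 * uL m) * jF (uL m) t *
      Real.exp (2 * (Real.exp (-(ua m * (K + 1))) / (1 - Real.exp (-ua m)))) := by
    unfold jF
    have h6 : Real.exp (uL m) * Real.exp (uL m / (1 + t ^ 2) + Real.pi ^ 2 * t ^ 2 / (36 * uL m)) =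
        Real.exp (2 * uL m) *
          Real.exp (-(uL m * t ^ 2 / (1 + t ^ 2)) + Real.pi ^ 2 * t ^ 2 / (36 * uL m)) := by
      rw [← Real.exp_add, ← Real.exp_add]
      congr 1
      field_simp
      ring
    calc _ = (ua m * Real.sqrt (1 + t ^ 2) / (2 * Real.pi)) *
        (Real.exp (uL m) * Real.exp (uL m / (1 + t ^ 2) + Real.pi ^ 2 * t ^ 2 / (36 * uL m))) *
        Real.exp (2 * (Real.exp (-(ua m * (K + 1))) / (1 - Real.exp (-ua m)))) := by ring
      _ = _ := by
        rw [h6]
        ring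
  rw [← h5]
  gcongr

/-- `π/a = 3Λ/π` -/
theorem pi_div_ua {m : ℝ} (hm : 0 < m) : Real.pi / ua m = 3 * uL m / Real.pi := by
  have ha := ua_pos hm
  have hpi := Real.pi_pos
  have := ua_mul_uL hm
  rw [div_eq_div_iff ha.ne' hpi.ne']
  linear_combination (-3 : ℝ) * this

theorem uL_ge_of {m c : ℝ} (hc : 0 ≤ c) (h : c ^ 2 ≤ 32898 / 10000 * m) (hm : 0 ≤ m) :
    c ≤ uL m := by
  unfold uL
  apply Real.le_sqrt_of_sq_le
  refine h.trans ?_
  have := Real.pi_gt_d6
  have h1 : (32898 / 10000 : ℝ) ≤ Real.pi ^ 2 / 3 := by nlinarith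
  gcongr

theorem pk2_le (K : ℕ) {m : ℕ} (hm : 30 ≤ m) : (rp_pk2 K m : ℝ) ≤ 2 * uP m := by
  have hm1 : 1 ≤ m := by omega
  have hm0 : (0 : ℝ) < m := by exact_mod_cast hm1
  have hm30 : (30 : ℝ) ≤ m := by exact_mod_cast hm
  have ha := ua_pos hm0
  have hL := uL_pos hm0
  have hpi := Real.pi_pos
  have hpi3 := Real.pi_gt_three
  have hL9 : 99 / 10 ≤ uL m := by
    apply uL_ge_of (by norm_num) _ hm0.le
    linarith
  set K' := max K m with hK'
  have h0 : (rp_pk2 K m : ℝ) ≤ rp_pk2 K' m := by exact_mod_cast pk2_mono_left (le_max_left K m) m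
  refine h0.trans ?_
  have hI := pk2_integral K' m ha
  rw [pi_div_ua hm0] at hI
  set CT := Real.exp (2 * (Real.exp (-(ua m * (K' + 1))) / (1 - Real.exp (-ua m)))) with hCT
  have hCT1 : CT ≤ 107 / 100 := by
    have hL' : uL m ≤ ua m * (K' + 1) := by
      rw [← ua_mul hm0]
      have : (m : ℝ) ≤ K' := by exact_mod_cast le_max_right K m
      gcongr
      linarith
    have h1 : Real.exp (-(ua m * (K' + 1))) ≤ Real.exp (-uL m) := Real.exp_le_exp.2 (by linarith)
    have h2 : ua m / (1 + ua m) ≤ 1 - Real.exp (-ua m) := by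
      have h3 : Real.exp (-ua m) ≤ 1 / (1 + ua m) := by
        rw [Real.exp_neg, ← one_div]
        apply one_div_le_one_div_of_le (by linarith)
        have := Real.add_one_le_exp (ua m)
        linarith
      have h4 : ua m / (1 + ua m) = 1 - 1 / (1 + ua m) := by field_simp; ring
      rw [h4]
      linarith
    have h3 : Real.exp (-(ua m * (K' + 1))) / (1 - Real.exp (-ua m)) ≤
        Real.exp (-uL m) / (ua m / (1 + ua m)) := by
      apply div_le_div₀ (Real.exp_pos _).le h1 (by positivity) h2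
    have h4 : Real.exp (-uL m) / (ua m / (1 + ua m)) = Real.exp (-uL m) * (1 + 1 / ua m) := by
      field_simp
      ring
    rw [h4] at h3
    have h5 : 1 / ua m ≤ uL m := by
      rw [div_le_iff₀ ha, mul_comm, ua_mul_uL hm0]
      nlinarith
    have h6 : Real.exp (-uL m) * (1 + 1 / ua m) ≤ 1 / 100 := by
      have h7 : Real.exp (-uL m) * (1 + 1 / ua m) ≤ Real.exp (-uL m) * (1 + uL m) := by gcongr
      refine h7.trans ?_
      have h8 : (100 : ℝ) * (1 + uL m) ≤ Real.exp (uL m) := by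
        have h9 : Real.exp (uL m) = Real.exp (uL m / 4) ^ 4 := by
          rw [← Real.exp_nat_mul]
          congr 1
          push_cast
          ring
        have h10 : uL m / 4 + 1 + (uL m / 4) ^ 2 / 2 ≤ Real.exp (uL m / 4) := by
          have := Real.quadratic_le_exp_of_nonneg (x := uL m / 4) (by positivity)
          linarith
        rw [h9]
        have h11 : (uL m / 4 + 1 + (uL m / 4) ^ 2 / 2) ^ 4 ≤ Real.exp (uL m / 4) ^ 4 := by gcongr
        refine le_trans ?_ h11
        set x := uL m with hx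
        have hq : 6 ≤ x / 4 + 1 + (x / 4) ^ 2 / 2 := by nlinarith
        have hq2 : x / 4 + 1 + (x / 4) ^ 2 / 2 ≥ (1 + x) * (1 / 2) := by nlinarith
        have hq3 : (6 : ℝ) ^ 3 ≤ (x / 4 + 1 + (x / 4) ^ 2 / 2) ^ 3 := by gcongr
        calc (100 : ℝ) * (1 + x) ≤ 6 ^ 3 * ((1 + x) * (1 / 2)) := by nlinarith
          _ ≤ (x / 4 + 1 + (x / 4) ^ 2 / 2) ^ 3 * (x / 4 + 1 + (x / 4) ^ 2 / 2) := by
              apply mul_le_mul hq3 hq2 (by positivity) (by positivity)
          _ = _ := by ring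
      rw [Real.exp_neg, inv_mul_le_iff₀ (Real.exp_pos _)]
      linarith
    have h7 : 2 * (Real.exp (-(ua m * (K' + 1))) / (1 - Real.exp (-ua m))) ≤ 2 / 100 := by linarith
    rw [hCT]
    refine (Real.exp_le_exp.2 h7).trans ?_
    have := Real.exp_bound_div_one_sub_of_interval (x := 2 / 100) (by norm_num) (by norm_num)
    norm_num at this ⊢
    linarith
  have hR : 0 ≤ 3 * uL m / Real.pi := by positivity
  have h1 : ∫ t in (0 : ℝ)..(3 * uL m / Real.pi),
      (exp (m * us (ua m) t) * (1 / (qfac (us (ua m) t) K') ^ 2)).re ≤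
      ∫ t in (0 : ℝ)..(3 * uL m / Real.pi),
        ua m / (2 * Real.pi) * Real.exp (2 * uL m) * CT * jF (uL m) t := by
    apply intervalIntegral.integral_mono_on hR
    · exact (continuous_re.comp (uf_continuous K' m ha)).intervalIntegrable _ _
    · exact (continuous_const.mul (jF_continuous hL)).intervalIntegrable _ _
    · intro t _
      refine (Complex.re_le_norm _).trans ((norm_uf_le hm1 K' t).trans (le_of_eq ?_))
      rw [← hCT]
      ring
  rw [intervalIntegral.integral_const_mul] at h1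
  have h2 := jU_le hL9
  have h3 : Real.pi * (rp_pk2 K' m : ℝ) ≤ ua m * (ua m / (2 * Real.pi) * Real.exp (2 * uL m) *
      (107 / 100) * (93 / 100 * Real.sqrt (Real.pi / uL m))) := by
    rw [hI]
    apply mul_le_mul_of_nonneg_left _ ha.le
    refine h1.trans ?_
    have hCT0 : 0 < CT := Real.exp_pos _
    have hj : 0 ≤ ∫ t in (0 : ℝ)..(3 * uL m / Real.pi), jF (uL m) t := by
      apply intervalIntegral.integral_nonneg hR
      intro t _
      unfold jF
      positivity
    gcongr
  have h4 : ua m * (ua m / (2 * Real.pi) * Real.exp (2 * uL m) *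
      (107 / 100) * (93 / 100 * Real.sqrt (Real.pi / uL m))) =
      Real.pi * ((107 / 100) * (93 / 100) * 2 * uP m) := by
    unfold uP
    have h5 : ua m * ua m = Real.pi ^ 2 / 3 / m := by rw [← sq, ua_sq hm0]
    calc _ = (ua m * ua m) / (2 * Real.pi) * Real.exp (2 * uL m) *
        (107 / 100) * (93 / 100 * Real.sqrt (Real.pi / uL m)) := by ring
      _ = _ := by
        rw [h5]
        field_simp
        ring
  rw [h4] at h3
  have h5 := le_of_mul_le_mul_left h3 hpi
  have h6 := uP_pos hm0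
  nlinarith

end Pool.Agent.Lib.Durfee
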