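import Pool.Agent.Lib.MP_9393b1_co.HypM
import Pool.Agent.Lib.MP_9393b1_co.WinB

/-! # Regime M: window error, general step -/

set_option autoImplicit false

namespace Pool.Agent.Lib.Durfee

open Complex MeasureTheory Filter Topology

variable {n : ℕ} {w : ℝ}

/-- monotone bound of `Rin` -/
theorem Rin_le {w σ τ h e : ℝ} (hσ : 0 < σ) (hh0 : 0 < h) (hh1 : h ≤ hh w τ) (he0 : 0 ≤ epsI σ τ)
    (he : epsI σ τ ≤ e) :
    Rin w σ τ ≤ Real.sqrt (2 * Real.pi * σ / (6839 / 10000 * h)) *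
        (e * Real.exp e + 7 / 4 * σ / (6839 / 10000 * h) ^ 2) +
      Real.sqrt (2 * Real.pi * σ / h) * Real.exp (-(h * (Real.pi / 3) ^ 2 / (2 * σ))) := by
  have hpi := Real.pi_pos
  have he1 : 0 ≤ e := he0.trans he
  unfold Rin
  gcongr

/-- near part: `Kn ∫_0^{T'} E Rin ≤ √(G(1+T'²)/(c₁ h)) (e e^e + 7/4 σ/(c₁h)²) + √(G(1+T'²)/h) e^{-h(π/3)²/(2σ)}` -/
theorem near_le (H : HypM n w) {T' h e G : ℝ} (hT : 0 ≤ T') (hT2 : T' ≤ TT w) (hh0 : 0 < h)
    (hh1 : ∀ τ ∈ Set.Icc 0 T', h ≤ hh w τ) (he : ∀ τ ∈ Set.Icc 0 T', epsI (sg n w) τ ≤ e)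
    (hG : ‖gam w‖ ≤ G) :
    Kn n w * ∫ τ in (0 : ℝ)..T', Ew n w τ * Rin w (sg n w) τ ≤
      Real.sqrt (G * (1 + T' ^ 2) / (6839 / 10000 * h)) *
        (e * Real.exp e + 7 / 4 * sg n w / (6839 / 10000 * h) ^ 2) +
      Real.sqrt (G * (1 + T' ^ 2) / h) * Real.exp (-(h * (Real.pi / 3) ^ 2 / (2 * sg n w))) := by
  have hpi := Real.pi_pos
  have hσ := H.sg_pos
  have hG0 : 0 ≤ G := (norm_nonneg _).trans hG
  have he0 : ∀ τ ∈ Set.Icc 0 T', 0 ≤ epsI (sg n w) τ := by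
    intro τ hτ
    have := hτ.1
    unfold epsI
    positivity
  have he1 : 0 ≤ e := (he0 0 ⟨le_rfl, hT⟩).trans (he 0 ⟨le_rfl, hT⟩)
  have hK0 : 0 ≤ Kn n w := by
    unfold Kn PPn aa
    positivity
  set B : ℝ := Real.sqrt (2 * Real.pi * sg n w / (6839 / 10000 * h)) *
        (e * Real.exp e + 7 / 4 * sg n w / (6839 / 10000 * h) ^ 2) +
      Real.sqrt (2 * Real.pi * sg n w / h) *
        Real.exp (-(h * (Real.pi / 3) ^ 2 / (2 * sg n w))) with hB
  have hB0 : 0 ≤ B := by positivity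
  have hEc : Continuous (fun τ => Ew n w τ) := by
    unfold Ew
    refine Real.continuous_exp.comp (Continuous.neg ?_)
    refine Continuous.div (by fun_prop) (by fun_prop) (fun τ => by positivity)
  have h1 : ∫ τ in (0 : ℝ)..T', Ew n w τ * Rin w (sg n w) τ ≤
      ∫ τ in (0 : ℝ)..T', Ew n w τ * B := by
    refine (le_abs_self _).trans ?_
    rw [← Real.norm_eq_abs]
    refine intervalIntegral.norm_integral_le_of_norm_le hT ?_
      ((hEc.mul continuous_const).intervalIntegrable _ _)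
    refine Filter.Eventually.of_forall fun τ hτ => ?_
    have hτ' : τ ∈ Set.Icc 0 T' := ⟨hτ.1.le, hτ.2⟩
    have hE0 : 0 ≤ Ew n w τ := (Real.exp_pos _).le
    have hhp : 0 < hh w τ := hh0.trans_le (hh1 τ hτ')
    have he0' := he0 τ hτ'
    have hR0 : 0 ≤ Rin w (sg n w) τ := by
      unfold Rin
      positivity
    rw [Real.norm_of_nonneg (mul_nonneg hE0 hR0)]
    exact mul_le_mul_of_nonneg_left (Rin_le hσ hh0 (hh1 τ hτ') he0' (he τ hτ')) hE0
  rw [intervalIntegral.integral_mul_const] at h1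
  have h2 := H.Kn_mul_integral_Ew_le hT
  have h3 : Kn n w * ∫ τ in (0 : ℝ)..T', Ew n w τ * Rin w (sg n w) τ ≤
      Real.sqrt (G * (1 + T' ^ 2) / (2 * Real.pi * sg n w)) * B := by
    calc Kn n w * ∫ τ in (0 : ℝ)..T', Ew n w τ * Rin w (sg n w) τ
        ≤ Kn n w * ((∫ τ in (0 : ℝ)..T', Ew n w τ) * B) := mul_le_mul_of_nonneg_left h1 hK0
      _ = (Kn n w * ∫ τ in (0 : ℝ)..T', Ew n w τ) * B := by ring
      _ ≤ Real.sqrt (‖gam w‖ * (1 + T' ^ 2) / (2 * Real.pi * sg n w)) * B :=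
          mul_le_mul_of_nonneg_right h2 hB0
      _ ≤ Real.sqrt (G * (1 + T' ^ 2) / (2 * Real.pi * sg n w)) * B := by gcongr
  refine h3.trans (le_of_eq ?_)
  have h4 : ∀ c : ℝ, 0 < c → Real.sqrt (G * (1 + T' ^ 2) / (2 * Real.pi * sg n w)) *
      Real.sqrt (2 * Real.pi * sg n w / c) = Real.sqrt (G * (1 + T' ^ 2) / c) := by
    intro c hc
    rw [← Real.sqrt_mul (by positivity)]
    congr 1
    field_simp
  rw [hB, mul_add, ← mul_assoc, ← mul_assoc, h4 _ (by positivity), h4 _ hh0]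

end Pool.Agent.Lib.Durfee
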