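import Pool.Agent.Lib.MP_9393b1_co.WinA

/-! # Regime S (`w ≤ 1`): the error integral and the representation on the window -/

set_option autoImplicit false

namespace Pool.Agent.Lib.Durfee

open Complex MeasureTheory Filter Topology

private theorem wsa_cauchy_half {m : ℝ} (hm : 0 < m) :
    ∫ v in Set.Ioi (0:ℝ), 1 / (v ^ 2 + m) = Real.pi / (2 * Real.sqrt m) := by
  obtain ⟨_, he⟩ := rb_cauchy hm
  have h1 := integral_comp_abs (f := fun v : ℝ => 1 / (v ^ 2 + m))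
  simp only [sq_abs] at h1
  rw [he] at h1
  have h2 : Real.pi / (2 * Real.sqrt m) = Real.pi / Real.sqrt m / 2 := by
    rw [mul_comm, div_div]
  rw [h2, h1]
  ring

private theorem wsa_general {w α τ m : ℝ} (hm : 0 < m) {h : ℝ → ℝ} (hh : Integrable h)
    (hh0 : ∀ v, 0 ≤ h v)
    (hb : ∀ u, 0 < u → ‖zz w α τ u‖ / ‖1 + zz w α τ u‖ ^ 2 ≤ 1 / (u ^ 2 + m) + h u) :
    Eint w α τ ≤ Real.pi / (2 * Real.sqrt m) + ∫ v, h v := by
  obtain ⟨hi, _⟩ := rb_cauchy hm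
  have h1 : Eint w α τ ≤ ∫ u in Set.Ioi (0:ℝ), (1 / (u ^ 2 + m) + h u) := by
    refine integral_mono_of_nonneg (ae_of_all _ fun u => by positivity)
      (hi.add hh).integrableOn ?_
    filter_upwards [ae_restrict_mem measurableSet_Ioi] with u hu
    exact hb u hu
  have h2 : ∫ u in Set.Ioi (0:ℝ), (1 / (u ^ 2 + m) + h u) =
      (∫ u in Set.Ioi (0:ℝ), 1 / (u ^ 2 + m)) + ∫ u in Set.Ioi (0:ℝ), h u :=
    integral_add hi.integrableOn hh.integrableOn
  have h3 : ∫ u in Set.Ioi (0:ℝ), h u ≤ ∫ u, h u :=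
    setIntegral_le_integral hh (ae_of_all _ fun u => hh0 _)
  rw [h2, wsa_cauchy_half hm] at h1
  linarith

theorem Eint_le_S {w α τ θ₀ : ℝ} (hw0 : 0 < w) (hw : w ≤ 1) (hτ : 0 ≤ τ)
    (hθ0 : 0 ≤ θ₀) (hθ1 : θ₀ ≤ 5 * Real.pi / 12) (hα : |α - Real.pi / 2| ≤ θ₀) :
    Eint w α τ ≤ Real.pi / (2 * Real.sqrt (2 * (1 - Real.sin θ₀))) + τ / Real.pi := by
  have hpi := Real.pi_pos
  have hs : Real.sin θ₀ < 1 := by
    rw [← Real.sin_pi_div_two]
    exact Real.sin_lt_sin_of_lt_of_le_pi_div_two (by linarith) le_rfl (by linarith)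
  have hm : 0 < 2 * (1 - Real.sin θ₀) := by linarith
  obtain ⟨hα1, hα2⟩ := abs_le.1 hα
  have hlog : Real.log w ≤ 0 := Real.log_nonpos hw0.le hw
  -- cosine bound
  have hcos : ∀ u, 0 < u → τ * u ≤ Real.pi → -Real.sin θ₀ ≤ Real.cos (α - τ * u) := by
    intro u hu hv
    have h1 : 0 ≤ τ * u := mul_nonneg hτ hu.le
    have h2 : |α - τ * u| ≤ Real.pi / 2 + θ₀ := by
      rw [abs_le]
      constructor <;> linarith
    have h3 : Real.cos (θ₀ + Real.pi / 2) ≤ Real.cos |α - τ * u| :=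
      Real.cos_le_cos_of_nonneg_of_le_pi (abs_nonneg _) (by linarith) (by linarith)
    rwa [Real.cos_add_pi_div_two, Real.cos_abs] at h3
  -- first bound
  have hb1 : ∀ u, 0 < u → τ * u ≤ Real.pi →
      ‖zz w α τ u‖ / ‖1 + zz w α τ u‖ ^ 2 ≤ 1 / (u ^ 2 + 2 * (1 - Real.sin θ₀)) := by
    intro u hu hv
    rw [rb_integrand hw0]
    have h1 := rb_two_cosh (u - Real.log w)
    have h2 := hcos u hu hv
    have h3 : u ^ 2 ≤ (u - Real.log w) ^ 2 := pow_le_pow_left₀ hu.le (by linarith) 2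
    refine one_div_le_one_div_of_le (by positivity) ?_
    linarith
  rcases hτ.eq_or_lt with h0 | h0
  · subst h0
    have h1 := wsa_general (w := w) (α := α) (τ := 0) hm (h := fun _ => 0)
      (integrable_zero _ _ _) (fun _ => le_rfl) (fun u hu => by
        rw [add_zero]
        exact hb1 u hu (by rw [zero_mul]; positivity))
    rw [integral_zero] at h1
    rw [zero_div]
    exact h1
  · set v0 : ℝ := Real.pi / τ with hv0
    have hv0p : 0 < v0 := by positivity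
    have hint : IntegrableOn (fun v : ℝ => v ^ (-2 : ℝ)) (Set.Ioi v0) :=
      integrableOn_Ioi_rpow_of_lt (by norm_num) hv0p
    have h1 := wsa_general (w := w) (α := α) (τ := τ) hm
      (h := Set.indicator (Set.Ioi v0) fun v : ℝ => v ^ (-2 : ℝ))
      (hint.integrable_indicator measurableSet_Ioi) (fun v => by
        refine Set.indicator_nonneg (fun v hv => ?_) v
        have : 0 < v := hv0p.trans hv
        positivity) (fun u hu => by
        by_cases hv : u ≤ v0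
        · rw [Set.indicator_of_notMem (by simpa using hv), add_zero]
          refine hb1 u hu ?_
          rw [hv0, le_div_iff₀ (by positivity)] at hv
          linarith
        · rw [not_le] at hv
          rw [Set.indicator_of_mem (Set.mem_Ioi.2 hv)]
          have h2 : ‖zz w α τ u‖ / ‖1 + zz w α τ u‖ ^ 2 ≤ u ^ (-2 : ℝ) := by
            rw [rb_integrand hw0, Real.rpow_neg hu.le, Real.rpow_two, ← one_div]
            refine one_div_le_one_div_of_le (by positivity) ?_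
            have h3 := rb_two_cosh (u - Real.log w)
            have h4 := Real.neg_one_le_cos (α - τ * u)
            have h5 : u ^ 2 ≤ (u - Real.log w) ^ 2 := pow_le_pow_left₀ hu.le (by linarith) 2
            linarith
          have h3 : 0 ≤ 1 / (u ^ 2 + 2 * (1 - Real.sin θ₀)) := by positivity
          linarith)
    rw [integral_indicator measurableSet_Ioi, integral_Ioi_rpow_of_lt (by norm_num) hv0p] at h1
    refine h1.trans (le_of_eq ?_)
    congr 1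
    have h2 : (-2 : ℝ) + 1 = -1 := by norm_num
    rw [h2, Real.rpow_neg_one, hv0]
    field_simp

private theorem wsa_exp (w θ : ℝ) :
    I * (w : ℂ) * exp (I * θ) = (w : ℂ) * exp (I * ((Real.pi / 2 + θ : ℝ) : ℂ)) := by
  have h : exp (I * ((Real.pi / 2 + θ : ℝ) : ℂ)) = I * exp (I * θ) := by
    rw [show I * ((Real.pi / 2 + θ : ℝ) : ℂ) = (Real.pi : ℂ) / 2 * I + I * θ by push_cast; ring,
      Complex.exp_add, Complex.exp_pi_div_two_mul_I]
  rw [h]
  ring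

private theorem wsa_exp' (w θ : ℝ) :
    I * (w : ℂ) * exp (-(I * θ)) = (w : ℂ) * exp (I * ((Real.pi / 2 + -θ : ℝ) : ℂ)) := by
  rw [← wsa_exp]
  congr 2
  push_cast
  ring

/-- The general window estimate. -/
private theorem wsa_gen {w σ τ θ θ₀ : ℝ} (hw0 : 0 < w) (hw : w ≤ 1) (hσ : 0 < σ) (hτ : 0 ≤ τ)
    (hθ0 : 0 ≤ θ₀) (hθ1 : θ₀ ≤ 5 * Real.pi / 12) (hθ : |θ| ≤ θ₀) :
    ∃ E : ℂ, PP w θ (ss σ τ) = exp (WW w θ / ss σ τ + E) ∧ ‖E‖ ≤ σ * (1 + τ ^ 2) / 8 *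
      (2 * (Real.pi / (2 * Real.sqrt (2 * (1 - Real.sin θ₀))) + τ / Real.pi)) := by
  have hpi := Real.pi_pos
  obtain ⟨h1, h2⟩ := abs_le.1 hθ
  have key : ∀ η : ℝ, |η| ≤ θ₀ → ∃ E : ℂ, Lam ((w : ℂ) * exp (I * ((Real.pi / 2 + η : ℝ) : ℂ)))
      (ss σ τ) = exp (Phi ((w : ℂ) * exp (I * ((Real.pi / 2 + η : ℝ) : ℂ))) / ss σ τ + E) ∧
      ‖E‖ ≤ σ * (1 + τ ^ 2) / 8 *
        (Real.pi / (2 * Real.sqrt (2 * (1 - Real.sin θ₀))) + τ / Real.pi) := by
    intro η hη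
    obtain ⟨g1, g2⟩ := abs_le.1 hη
    obtain ⟨E, hE1, hE2⟩ := Lam_rep (w := w) (α := Real.pi / 2 + η) (σ := σ) (τ := τ) hw0
      (by rw [abs_lt]; constructor <;> linarith) hτ hσ (Or.inl hw)
    refine ⟨E, hE1, hE2.trans ?_⟩
    have h3 := Eint_le_S (w := w) (α := Real.pi / 2 + η) (τ := τ) (θ₀ := θ₀) hw0 hw hτ hθ0 hθ1
      (by rwa [add_sub_cancel_left])
    gcongr
  obtain ⟨E1, hE1, hE1'⟩ := key θ hθ
  obtain ⟨E2, hE2, hE2'⟩ := key (-θ) (by rwa [abs_neg])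
  refine ⟨E1 + E2, ?_, ?_⟩
  · unfold PP WW
    rw [wsa_exp, wsa_exp', hE1, hE2, ← Complex.exp_add]
    congr 1
    ring
  · calc ‖E1 + E2‖ ≤ ‖E1‖ + ‖E2‖ := norm_add_le _ _
      _ ≤ _ := add_le_add hE1' hE2'
      _ = _ := by ring

private theorem wsa_sqrt3 : Real.sqrt 3 ≤ 17320532 / 10000000 := by
  rw [Real.sqrt_le_left (by norm_num)]
  norm_num

private theorem wsa_num1 :
    Real.pi / Real.sqrt (2 * (1 - Real.sin (Real.pi / 3))) ≤ 60692 / 10000 := by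
  rw [Real.sin_pi_div_three]
  have h3 := wsa_sqrt3
  have h1 : (51763 / 100000 : ℝ) ≤ Real.sqrt (2 * (1 - Real.sqrt 3 / 2)) := by
    apply Real.le_sqrt_of_sq_le
    nlinarith
  have h2 := Real.pi_lt_d6
  rw [div_le_iff₀ (by linarith)]
  nlinarith

private theorem wsa_num2 :
    Real.pi / Real.sqrt (2 * (1 - Real.sin (5 * Real.pi / 12))) ≤ 120344 / 10000 := by
  have h3 := wsa_sqrt3
  have hs : Real.sin (5 * Real.pi / 12) ≤ 96592615 / 100000000 := by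
    have h4 : Real.sin (5 * Real.pi / 12) ^ 2 = (2 + Real.sqrt 3) / 4 := by
      rw [Real.sin_sq_eq_half_sub, show 2 * (5 * Real.pi / 12) = Real.pi - Real.pi / 6 by ring,
        Real.cos_pi_sub, Real.cos_pi_div_six]
      ring
    have h5 : Real.sin (5 * Real.pi / 12) ^ 2 ≤ (96592615 / 100000000) ^ 2 := by
      rw [h4]
      nlinarith
    exact le_of_sq_le_sq h5 (by norm_num)
  have h1 : (2610511 / 10000000 : ℝ) ≤ Real.sqrt (2 * (1 - Real.sin (5 * Real.pi / 12))) := by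
    apply Real.le_sqrt_of_sq_le
    nlinarith
  have h2 := Real.pi_lt_d6
  rw [div_le_iff₀ (by linarith)]
  nlinarith

private theorem wsa_num3 {τ : ℝ} (hτ : 0 ≤ τ) : τ / Real.pi ≤ 3184 / 10000 * τ := by
  have hpi := Real.pi_pos
  have h2 := Real.pi_gt_d6
  rw [div_le_iff₀ hpi]
  nlinarith

private theorem wsa_half (x y : ℝ) : x / (2 * y) = x / y / 2 := by
  rw [mul_comm, div_div]

theorem PP_window_inner_S {w σ τ θ : ℝ} (hw0 : 0 < w) (hw : w ≤ 1) (hσ : 0 < σ) (hτ : 0 ≤ τ)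
    (hθ : |θ| ≤ Real.pi / 3) :
    ∃ E : ℂ, PP w θ (ss σ τ) = exp (WW w θ / ss σ τ + E) ∧ ‖E‖ ≤ epsI σ τ / 2 := by
  have hpi := Real.pi_pos
  obtain ⟨E, hE, hE'⟩ := wsa_gen hw0 hw hσ hτ (θ₀ := Real.pi / 3) (by linarith) (by linarith) hθ
  refine ⟨E, hE, hE'.trans ?_⟩
  have h1 := wsa_num1
  have h2 := wsa_num3 hτ
  rw [wsa_half]
  unfold epsI
  calc σ * (1 + τ ^ 2) / 8 * (2 * (Real.pi / Real.sqrt (2 * (1 - Real.sin (Real.pi / 3))) / 2 +
        τ / Real.pi)) ≤ σ * (1 + τ ^ 2) / 8 * (2 * (60692 / 10000 / 2 + 3184 / 10000 * τ)) := by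
        gcongr
    _ ≤ σ * (1 + τ ^ 2) * (15173 / 10000 + 3184 / 10000 * τ) / 2 := by
        have h3 : 0 ≤ σ * (1 + τ ^ 2) := by positivity
        have h4 : 0 ≤ σ * (1 + τ ^ 2) * τ := by positivity
        nlinarith

theorem PP_window_outer_S {w σ τ θ : ℝ} (hw0 : 0 < w) (hw : w ≤ 1) (hσ : 0 < σ) (hτ : 0 ≤ τ)
    (hθ : |θ| ≤ 5 * Real.pi / 12) :
    ∃ E : ℂ, PP w θ (ss σ τ) = exp (WW w θ / ss σ τ + E) ∧ ‖E‖ ≤ epsO σ τ / 2 := by
  have hpi := Real.pi_pos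
  obtain ⟨E, hE, hE'⟩ := wsa_gen hw0 hw hσ hτ (θ₀ := 5 * Real.pi / 12) (by linarith) le_rfl hθ
  refine ⟨E, hE, hE'.trans ?_⟩
  have h1 := wsa_num2
  have h2 := wsa_num3 hτ
  rw [wsa_half]
  unfold epsO
  calc σ * (1 + τ ^ 2) / 8 * (2 * (Real.pi / Real.sqrt (2 * (1 - Real.sin (5 * Real.pi / 12))) / 2 +
        τ / Real.pi)) ≤ σ * (1 + τ ^ 2) / 8 * (2 * (120344 / 10000 / 2 + 3184 / 10000 * τ)) := by
        gcongr
    _ ≤ σ * (1 + τ ^ 2) * (30086 / 10000 + 3184 / 10000 * τ) / 2 := by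
        have h3 : 0 ≤ σ * (1 + τ ^ 2) := by positivity
        have h4 : 0 ≤ σ * (1 + τ ^ 2) * τ := by positivity
        nlinarith

end Pool.Agent.Lib.Durfee
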