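import Pool.Agent.Lib.MP_9393b1_co.HypS

/-! # Regime S: the window error, general step -/

set_option autoImplicit false

namespace Pool.Agent.Lib.Durfee

open Complex MeasureTheory Filter Topology

variable {n k : ℕ} {w : ℝ}

/-- Bound of `RinS + RoutS`, `P = PPn n w`, `x = σ/w`. -/
noncomputable def BdS (P η μ e eo : ℝ) : ℝ :=
  Real.sqrt (2 * Real.pi * (12813 / 10000) / (P * (6839 / 10000 * η))) *
      (e * Real.exp e + 267 / 10000 / (6839 / 10000 * η) ^ 2) +
    Real.sqrt (2 * Real.pi * (12813 / 10000) / (P * η)) *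
      Real.exp (-(η * (Real.pi / 3) ^ 2 * P / (2 * (12813 / 10000)))) +
    Real.pi / 6 * Real.exp eo * Real.exp (-(μ * P / (12813 / 10000)))

private theorem wsn_P_pos (H : HypS n k w) : 0 < PPn n w := by
  have := H.P_ge
  linarith

private theorem wsn_epsI_nonneg {σ τ : ℝ} (hσ : 0 < σ) (hτ : 0 ≤ τ) : 0 ≤ epsI σ τ := by
  unfold epsI
  positivity

/-- `σ P ≤ 1.2813 w` -/
private theorem wsn_sgP (H : HypS n k w) : sg n w * PPn n w ≤ 12813 / 10000 * w := by
  have h1 := H.sg_div_w_le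
  have hw0 := H.hw0
  have hw1 := H.hw1
  have h2 : sg n w * PPn n w = sg n w / w * PPn n w * w := by
    field_simp
  rw [h2]
  apply mul_le_mul_of_nonneg_right _ hw0.le
  linarith

theorem RS_le (H : HypS n k w) {τ η μ e eo : ℝ} (hτ : 0 ≤ τ) (hη : 0 < η) (h1 : η * w ≤ hh w τ)
    (h2 : μ * w ≤ (3 / 8 * gR w + τ * gI w / 2) / (1 + τ ^ 2)) (hμ : 0 ≤ μ)
    (he : epsI (sg n w) τ / 2 ≤ e) (heo : epsO (sg n w) τ / 2 ≤ eo) :
    RinS w (sg n w) τ + RoutS w (sg n w) τ ≤ BdS (PPn n w) η μ e eo := by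
  have hpi := Real.pi_pos
  have hw0 := H.hw0
  have hσ := H.sg_pos
  have hP := wsn_P_pos H
  have hsP := wsn_sgP H
  have hhp : 0 < hh w τ := (mul_pos hη hw0).trans_le h1
  have hE0 := wsn_epsI_nonneg hσ hτ
  have he0 : 0 ≤ e := by linarith
  have hq : qq w * (sg n w / w) ≤ 89 / 10000 := H.qx_le
  set σ := sg n w with hσdef
  set P := PPn n w with hPdef
  -- key
  have key : η * (σ * P) ≤ 12813 / 10000 * hh w τ := by
    calc η * (σ * P) ≤ η * (12813 / 10000 * w) := by gcongr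
      _ = 12813 / 10000 * (η * w) := by ring
      _ ≤ _ := by gcongr
  have a1 : 2 * Real.pi * σ / (6839 / 10000 * hh w τ) ≤
      2 * Real.pi * (12813 / 10000) / (P * (6839 / 10000 * η)) := by
    rw [div_le_div_iff₀ (by positivity) (by positivity)]
    have : 2 * Real.pi * (6839 / 10000) * (η * (σ * P)) ≤
        2 * Real.pi * (6839 / 10000) * (12813 / 10000 * hh w τ) := by gcongr
    nlinarith
  have a2 : 2 * Real.pi * σ / hh w τ ≤ 2 * Real.pi * (12813 / 10000) / (P * η) := by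
    rw [div_le_div_iff₀ (by positivity) (by positivity)]
    have : 2 * Real.pi * (η * (σ * P)) ≤
        2 * Real.pi * (12813 / 10000 * hh w τ) := by gcongr
    nlinarith
  have a3 : epsI σ τ / 2 * Real.exp (epsI σ τ / 2) ≤ e * Real.exp e := by
    gcongr
  have a4 : 3 * (qq w * w) * σ / (6839 / 10000 * hh w τ) ^ 2 ≤
      267 / 10000 / (6839 / 10000 * η) ^ 2 := by
    have b1 : qq w * w * σ ≤ 89 / 10000 * w ^ 2 := by
      have : qq w * w * σ = qq w * (σ / w) * w ^ 2 := by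
        field_simp
      rw [this]
      gcongr
    have b2 : (η * w) ^ 2 ≤ hh w τ ^ 2 := by gcongr
    rw [div_le_div_iff₀ (by positivity) (by positivity)]
    have c1 : 3 * (qq w * w) * σ * (6839 / 10000 * η) ^ 2 ≤
        3 * (89 / 10000 * w ^ 2) * (6839 / 10000 * η) ^ 2 := by
      apply mul_le_mul_of_nonneg_right _ (by positivity)
      nlinarith
    have c2 : 3 * (89 / 10000 * w ^ 2) * (6839 / 10000 * η) ^ 2 =
        267 / 10000 * ((6839 / 10000) ^ 2 * (η * w) ^ 2) := by ring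
    have c3 : 267 / 10000 * ((6839 / 10000) ^ 2 * (η * w) ^ 2) ≤
        267 / 10000 * ((6839 / 10000) ^ 2 * hh w τ ^ 2) := by gcongr
    calc _ ≤ _ := c1
      _ = _ := c2
      _ ≤ _ := c3
      _ = _ := by ring
  have a5 : Real.exp (-(hh w τ * (Real.pi / 3) ^ 2 / (2 * σ))) ≤
      Real.exp (-(η * (Real.pi / 3) ^ 2 * P / (2 * (12813 / 10000)))) := by
    apply Real.exp_le_exp.2
    apply neg_le_neg
    rw [div_le_div_iff₀ (by positivity) (by positivity)]
    have : 2 * (Real.pi / 3) ^ 2 * (η * (σ * P)) ≤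
        2 * (Real.pi / 3) ^ 2 * (12813 / 10000 * hh w τ) := by gcongr
    nlinarith
  have a6 : Real.exp (-((3 / 8 * gR w + τ * gI w / 2) / (σ * (1 + τ ^ 2)))) ≤
      Real.exp (-(μ * P / (12813 / 10000))) := by
    apply Real.exp_le_exp.2
    apply neg_le_neg
    have d1 : (3 / 8 * gR w + τ * gI w / 2) / (σ * (1 + τ ^ 2)) =
        (3 / 8 * gR w + τ * gI w / 2) / (1 + τ ^ 2) / σ := by
      rw [div_div, mul_comm σ]
    rw [d1, div_le_div_iff₀ (by positivity) hσ]
    calc μ * P * σ = μ * (σ * P) := by ring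
      _ ≤ μ * (12813 / 10000 * w) := by gcongr
      _ = μ * w * (12813 / 10000) := by ring
      _ ≤ _ := by gcongr
  unfold RinS RoutS BdS
  have f1 : 0 ≤ e * Real.exp e + 267 / 10000 / (6839 / 10000 * η) ^ 2 := by positivity
  have t1 : Real.sqrt (2 * Real.pi * σ / (6839 / 10000 * hh w τ)) *
      (epsI σ τ / 2 * Real.exp (epsI σ τ / 2) + 3 * (qq w * w) * σ / (6839 / 10000 * hh w τ) ^ 2) ≤
      Real.sqrt (2 * Real.pi * (12813 / 10000) / (P * (6839 / 10000 * η))) *
      (e * Real.exp e + 267 / 10000 / (6839 / 10000 * η) ^ 2) := by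
    calc _ ≤ Real.sqrt (2 * Real.pi * σ / (6839 / 10000 * hh w τ)) *
          (e * Real.exp e + 267 / 10000 / (6839 / 10000 * η) ^ 2) :=
          mul_le_mul_of_nonneg_left (add_le_add a3 a4) (Real.sqrt_nonneg _)
      _ ≤ _ := mul_le_mul_of_nonneg_right (Real.sqrt_le_sqrt a1) f1
  have t2 : Real.sqrt (2 * Real.pi * σ / hh w τ) *
      Real.exp (-(hh w τ * (Real.pi / 3) ^ 2 / (2 * σ))) ≤
      Real.sqrt (2 * Real.pi * (12813 / 10000) / (P * η)) *
      Real.exp (-(η * (Real.pi / 3) ^ 2 * P / (2 * (12813 / 10000)))) :=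
    mul_le_mul (Real.sqrt_le_sqrt a2) a5 (Real.exp_pos _).le (Real.sqrt_nonneg _)
  have t3 : Real.pi / 6 * Real.exp (epsO σ τ / 2) *
      Real.exp (-((3 / 8 * gR w + τ * gI w / 2) / (σ * (1 + τ ^ 2)))) ≤
      Real.pi / 6 * Real.exp eo * Real.exp (-(μ * P / (12813 / 10000))) := by
    apply mul_le_mul _ a6 (Real.exp_pos _).le (by positivity)
    gcongr
  linarith

private theorem wsn_continuous_Ew (n : ℕ) (w : ℝ) : Continuous (fun τ => Ew n w τ) := by
  unfold Ew
  refine Real.continuous_exp.comp (Continuous.neg ?_)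
  refine Continuous.div (by fun_prop) (by fun_prop) (fun τ => by positivity)

private theorem wsn_continuous_epsI (σ : ℝ) : Continuous (fun τ => epsI σ τ) := by
  unfold epsI
  fun_prop

private theorem wsn_continuous_epsO (σ : ℝ) : Continuous (fun τ => epsO σ τ) := by
  unfold epsO
  fun_prop

private theorem wsn_continuous_hh (w : ℝ) : Continuous (fun τ => hh w τ) := by
  unfold hh
  refine Continuous.div (by fun_prop) (by fun_prop) (fun τ => by positivity)

private theorem wsn_continuousOn_RinS {w σ : ℝ} (hw : 0 < w) :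
    ContinuousOn (fun τ => RinS w σ τ) (Set.Ici 0) := by
  have h1 := wsn_continuous_hh w
  have h5 := wsn_continuous_epsI σ
  have h2 : ∀ τ ∈ Set.Ici (0:ℝ), 6839 / 10000 * hh w τ ≠ 0 := fun τ hτ => by
    have := wb_hh_pos hw hτ
    positivity
  have h3 : ∀ τ ∈ Set.Ici (0:ℝ), hh w τ ≠ 0 := fun τ hτ => (wb_hh_pos hw hτ).ne'
  have h4 : ∀ τ ∈ Set.Ici (0:ℝ), (6839 / 10000 * hh w τ) ^ 2 ≠ 0 := fun τ hτ => by
    have := wb_hh_pos hw hτ
    positivity
  unfold RinS
  refine ContinuousOn.add (ContinuousOn.mul ?_ ?_) (ContinuousOn.mul ?_ ?_)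
  · exact (ContinuousOn.div continuousOn_const (by fun_prop) h2).sqrt
  · exact ContinuousOn.add (by fun_prop) (ContinuousOn.div continuousOn_const (by fun_prop) h4)
  · exact (ContinuousOn.div continuousOn_const (by fun_prop) h3).sqrt
  · fun_prop

private theorem wsn_continuous_RoutS {w σ : ℝ} (hσ : 0 < σ) :
    Continuous (fun τ => RoutS w σ τ) := by
  have h5 := wsn_continuous_epsO σ
  unfold RoutS
  refine Continuous.mul (by fun_prop) ?_
  refine Real.continuous_exp.comp (Continuous.neg ?_)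
  refine Continuous.div (by fun_prop) (by fun_prop) (fun τ => by positivity)

theorem continuousOn_RS (H : HypS n k w) {c : ℝ} (hc : 0 < c) (d : ℝ) :
    ContinuousOn (fun τ => Ew n w τ * (RinS w (sg n w) τ + RoutS w (sg n w) τ)) (Set.Icc c d) := by
  apply ContinuousOn.mul (wsn_continuous_Ew n w).continuousOn
  apply ContinuousOn.add _ (wsn_continuous_RoutS H.sg_pos).continuousOn
  exact (wsn_continuousOn_RinS H.hw0).mono (fun x hx => hc.le.trans hx.1)

theorem continuousOn_Rtr (H : HypS n k w) (c d : ℝ) :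
    ContinuousOn (fun τ => Ew n w τ * RtrS w (sg n w) τ) (Set.Icc c d) := by
  apply Continuous.continuousOn
  apply Continuous.mul (wsn_continuous_Ew n w)
  have h5 := wsn_continuous_epsO (sg n w)
  have h6 : Continuous (fun τ => ss (sg n w) τ) := by
    unfold ss
    fun_prop
  unfold RtrS
  refine Continuous.add (by fun_prop) ?_
  refine Continuous.sqrt ?_
  exact Continuous.div_const (by fun_prop) _

/-- general step -/
theorem pieceS (H : HypS n k w) {c d W B : ℝ} (hc : 0 < c) (hcd : c ≤ d)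
    (hW : Kn n w * ∫ τ in c..d, Ew n w τ ≤ W) (hB0 : 0 ≤ B)
    (hB : ∀ τ ∈ Set.Icc c d, RinS w (sg n w) τ + RoutS w (sg n w) τ ≤ B) :
    Kn n w * ∫ τ in c..d, Ew n w τ * (RinS w (sg n w) τ + RoutS w (sg n w) τ) ≤ W * B := by
  have hK := H.Kn_nonneg
  have h1 : ∫ τ in c..d, Ew n w τ * (RinS w (sg n w) τ + RoutS w (sg n w) τ) ≤
      ∫ τ in c..d, Ew n w τ * B := by
    apply intervalIntegral.integral_mono_on hcd
    · apply ContinuousOn.intervalIntegrable
      rw [Set.uIcc_of_le hcd]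
      exact continuousOn_RS H hc d
    · apply ContinuousOn.intervalIntegrable
      exact ((wsn_continuous_Ew n w).mul continuous_const).continuousOn
    · intro τ hτ
      exact mul_le_mul_of_nonneg_left (hB τ hτ) (Real.exp_pos _).le
  rw [intervalIntegral.integral_mul_const] at h1
  calc Kn n w * ∫ τ in c..d, Ew n w τ * (RinS w (sg n w) τ + RoutS w (sg n w) τ)
      ≤ Kn n w * ((∫ τ in c..d, Ew n w τ) * B) := mul_le_mul_of_nonneg_left h1 hK
    _ = Kn n w * (∫ τ in c..d, Ew n w τ) * B := by ring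
    _ ≤ W * B := mul_le_mul_of_nonneg_right hW hB0

/-- `(τ-t)²/(1+τ²)` is increasing for `τ ≥ t ≥ 0` -/
private theorem wsn_sq_div_mono {t A τ : ℝ} (ht : 0 ≤ t) (hA : t ≤ A) (hτ : A ≤ τ) :
    (A - t) ^ 2 / (1 + A ^ 2) ≤ (τ - t) ^ 2 / (1 + τ ^ 2) := by
  rw [div_le_div_iff₀ (by positivity) (by positivity)]
  have h : (τ - t) ^ 2 * (1 + A ^ 2) - (A - t) ^ 2 * (1 + τ ^ 2) =
      (τ - A) * ((τ - t) + (A - t)) + t * (τ - A) * ((τ - t) * A + (A - t) * τ) := by ring
  have h1 : 0 ≤ τ - A := by linarith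
  have h2 : 0 ≤ A - t := by linarith
  have h3 : 0 ≤ τ - t := by linarith
  have h4 : 0 ≤ A := by linarith
  have h5 : 0 ≤ τ := by linarith
  have : 0 ≤ (τ - A) * ((τ - t) + (A - t)) + t * (τ - A) * ((τ - t) * A + (A - t) * τ) := by
    positivity
  linarith

private theorem wsn_int_le (H : HypS n k w) {c d m : ℝ} (hcd : c ≤ d)
    (hm : ∀ τ ∈ Set.Icc c d, m ≤ (τ - ts w) ^ 2 / (1 + τ ^ 2)) :
    Kn n w * ∫ τ in c..d, Ew n w τ ≤
      2251 / 10000 * PPn n w * (d - c) * Real.exp (-(PPn n w * m)) := by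
  have hP := wsn_P_pos H
  have h1 : ∫ τ in c..d, Ew n w τ ≤ ∫ _τ in c..d, Real.exp (-(PPn n w * m)) := by
    apply intervalIntegral.integral_mono_on hcd
    · exact (wsn_continuous_Ew n w).intervalIntegrable _ _
    · exact continuous_const.intervalIntegrable _ _
    · intro τ hτ
      unfold Ew
      apply Real.exp_le_exp.2
      apply neg_le_neg
      rw [mul_div_assoc]
      exact mul_le_mul_of_nonneg_left (hm τ hτ) hP.le
  rw [intervalIntegral.integral_const, smul_eq_mul] at h1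
  have h0 : 0 ≤ d - c := by linarith
  calc Kn n w * ∫ τ in c..d, Ew n w τ
      ≤ Kn n w * ((d - c) * Real.exp (-(PPn n w * m))) :=
        mul_le_mul_of_nonneg_left h1 H.Kn_nonneg
    _ ≤ 2251 / 10000 * PPn n w * ((d - c) * Real.exp (-(PPn n w * m))) :=
        mul_le_mul_of_nonneg_right H.Kn_le (by positivity)
    _ = _ := by ring

/-- `Kn ∫_c^d E` on the right of the peak -/
theorem WS_right (H : HypS n k w) {c d : ℝ} (hc : 1 ≤ c) (hcd : c ≤ d) :
    Kn n w * ∫ τ in c..d, Ew n w τ ≤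
      2251 / 10000 * PPn n w * (d - c) * Real.exp (-(PPn n w * ((c - 1) ^ 2 / (1 + c ^ 2)))) := by
  apply wsn_int_le H hcd
  intro τ hτ
  have hts := (ts_lt_one H.hw0).le
  have hts0 : 0 ≤ ts w := by
    have := ts_ge_small H.hw0 H.hw1
    have := H.hw1
    linarith
  calc (c - 1) ^ 2 / (1 + c ^ 2) ≤ (c - ts w) ^ 2 / (1 + c ^ 2) := by
        apply div_le_div_of_nonneg_right _ (by positivity)
        apply pow_le_pow_left₀ (by linarith)
        linarith
    _ ≤ _ := wsn_sq_div_mono hts0 (hts.trans hc) hτ.1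

/-- `Kn ∫_c^d E` on the left of the peak -/
theorem WS_left (H : HypS n k w) {c d : ℝ} (hc : 0 ≤ c) (hcd : c ≤ d) (hd : d ≤ 1 / 2) :
    Kn n w * ∫ τ in c..d, Ew n w τ ≤
      2251 / 10000 * PPn n w * (d - c) *
        Real.exp (-(PPn n w * ((1 - 9 / 32 * w - d) ^ 2 / (1 + d ^ 2)))) := by
  apply wsn_int_le H hcd
  intro τ hτ
  have hts := ts_ge_small H.hw0 H.hw1
  have hw1 := H.hw1
  have hτ0 : 0 ≤ τ := hc.trans hτ.1
  have h1 : 0 ≤ 1 - 9 / 32 * w - d := by linarith
  have h2 : 1 - 9 / 32 * w - d ≤ ts w - τ := by linarith [hτ.2]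
  calc (1 - 9 / 32 * w - d) ^ 2 / (1 + d ^ 2) ≤ (ts w - τ) ^ 2 / (1 + d ^ 2) := by
        apply div_le_div_of_nonneg_right _ (by positivity)
        exact pow_le_pow_left₀ h1 h2 2
    _ ≤ (ts w - τ) ^ 2 / (1 + τ ^ 2) := by
        apply div_le_div_of_nonneg_left (by positivity) (by positivity)
        have := pow_le_pow_left₀ hτ0 hτ.2 2
        linarith
    _ = (τ - ts w) ^ 2 / (1 + τ ^ 2) := by
        congr 1
        ring

end Pool.Agent.Lib.Durfee
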