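import Pool.Agent.Lib.MP_9393b1_co.WinSN

/-! # Regime S: the window error, `1/2 ≤ τ ≤ 2` -/

set_option autoImplicit false

namespace Pool.Agent.Lib.Durfee

open Complex MeasureTheory Filter Topology

variable {n k : ℕ} {w : ℝ}

private theorem ws1_exp_neg {x B : ℝ} (m : ℕ) (hx : 0 ≤ x) (hB : 0 < B)
    (h : 1 / B ≤ ∑ i ∈ Finset.range m, x ^ i / (i.factorial : ℝ)) : Real.exp (-x) ≤ B := by
  have h1 := h.trans (Real.sum_le_exp_of_nonneg hx m)
  rw [Real.exp_neg]
  rw [one_div] at h1
  exact (inv_le_comm₀ (Real.exp_pos x) hB).2 h1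

private theorem ws1_exp_le {x : ℝ} (h0 : 0 ≤ x) (h1 : x < 1) : Real.exp x ≤ 1 / (1 - x) :=
  Real.exp_bound_div_one_sub_of_interval h0 h1

private theorem ws1_dec {P P0 c : ℝ} (hP0 : 0 < P0) (hP : P0 ≤ P) (hc : 1 ≤ c * P0) :
    P * Real.exp (-(c * P)) ≤ P0 * Real.exp (-(c * P0)) := by
  have h1 : P ≤ P0 * Real.exp (c * (P - P0)) := by
    have h2 := Real.add_one_le_exp (c * (P - P0))
    have h3 : P ≤ P0 * (c * (P - P0) + 1) := by nlinarith
    exact h3.trans (mul_le_mul_of_nonneg_left h2 hP0.le)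
  calc P * Real.exp (-(c * P)) ≤ P0 * Real.exp (c * (P - P0)) * Real.exp (-(c * P)) :=
        mul_le_mul_of_nonneg_right h1 (Real.exp_pos _).le
    _ = P0 * Real.exp (-(c * P0)) := by
        rw [mul_assoc, ← Real.exp_add]
        congr 2
        ring

private theorem ws1_dec_sqrt {P P0 a : ℝ} (hP0 : 0 < P0) (hP : P0 ≤ P) (ha : 1 / 2 ≤ a * P0) :
    Real.sqrt P * Real.exp (-(a * P)) ≤ Real.sqrt P0 * Real.exp (-(a * P0)) := by
  have h1 := ws1_dec (c := 2 * a) hP0 hP (by linarith)
  have h2 : ∀ x : ℝ, 0 ≤ x → Real.sqrt x * Real.exp (-(a * x)) =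
      Real.sqrt (x * Real.exp (-(2 * a * x))) := by
    intro x hx
    rw [Real.sqrt_mul hx]
    congr 1
    rw [show Real.exp (-(2 * a * x)) = Real.exp (-(a * x)) ^ 2 by
      rw [← Real.exp_nat_mul]; congr 1; push_cast; ring]
    rw [Real.sqrt_sq (Real.exp_pos _).le]
  rw [h2 P (hP0.le.trans hP), h2 P0 hP0.le]
  exact Real.sqrt_le_sqrt h1

private theorem ws1_pi3 : (10965 / 10000 : ℝ) ≤ (Real.pi / 3) ^ 2 := by
  have := Real.pi_gt_d6
  nlinarith

private theorem ws1_sqrt_mul {P D K c : ℝ} (hP : 0 < P) (hD : 0 ≤ D) (hc : 0 < c) :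
    Real.sqrt (P * D / (2 * Real.pi)) * Real.sqrt (2 * Real.pi * K / (P * c)) =
      Real.sqrt (D * K / c) := by
  have hpi := Real.pi_pos
  rw [← Real.sqrt_mul (by positivity)]
  congr 1
  field_simp

private theorem ws1_sqrt_div {P K c : ℝ} (hP : 0 < P) :
    P * Real.sqrt (K / (P * c)) = Real.sqrt P * Real.sqrt (K / c) := by
  have h1 : P = Real.sqrt P * Real.sqrt P := (Real.mul_self_sqrt hP.le).symm
  have h2 : Real.sqrt P * Real.sqrt (K / (P * c)) = Real.sqrt (K / c) := by
    rw [← Real.sqrt_mul hP.le]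
    congr 1
    field_simp
  calc P * Real.sqrt (K / (P * c)) = Real.sqrt P * (Real.sqrt P * Real.sqrt (K / (P * c))) := by
        rw [← mul_assoc, ← h1]
    _ = _ := by rw [h2]

theorem winS_c (H : HypS n k w) :
    Kn n w * ∫ τ in (1 / 2 : ℝ)..(3 / 2), Ew n w τ * (RinS w (sg n w) τ + RoutS w (sg n w) τ) ≤
      405 / 1000 := by
  have hP := H.P_ge
  have hs := H.sg_le
  have hs0 := H.sg_pos
  have hw := H.hw0
  have hw1 := H.hw1
  have hpi := Real.pi_gt_d6
  have hpi2 := Real.pi_lt_d6
  have hp3 := ws1_pi3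
  set P := PPn n w with hPdef
  have hP0 : 0 < P := by linarith
  have h0 := pieceS H (c := 1 / 2) (d := 3 / 2)
    (W := Real.sqrt (P * (1 + (3 / 2) ^ 2) / (2 * Real.pi)))
    (B := BdS P (10 / 13) (9 / 26) (37 / 1000) (65 / 1000)) (by norm_num) (by norm_num)
    (H.Kn_mul_integral_Ew_le (by norm_num) (by norm_num)) (by unfold BdS; positivity) ?_
  · refine h0.trans ?_
    unfold BdS
    have a0 : Real.sqrt (P * (1 + (3 / 2) ^ 2) / (2 * Real.pi)) ≤ 7193 / 10000 * Real.sqrt P := by
      rw [Real.sqrt_le_left (by positivity), mul_pow, Real.sq_sqrt hP0.le,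
        div_le_iff₀ (by positivity)]
      nlinarith
    have a1 : Real.sqrt (P * (1 + (3 / 2) ^ 2) / (2 * Real.pi)) *
        Real.sqrt (2 * Real.pi * (12813 / 10000) / (P * (6839 / 10000 * (10 / 13)))) ≤
          28135 / 10000 := by
      rw [ws1_sqrt_mul hP0 (by norm_num) (by norm_num), Real.sqrt_le_left (by norm_num)]
      norm_num
    have a2 : (37 / 1000 : ℝ) * Real.exp (37 / 1000) ≤ 38422 / 1000000 := by
      have := ws1_exp_le (x := 37 / 1000) (by norm_num) (by norm_num)
      norm_num at this ⊢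
      linarith
    have a3 : Real.sqrt (P * (1 + (3 / 2) ^ 2) / (2 * Real.pi)) *
        Real.sqrt (2 * Real.pi * (12813 / 10000) / (P * (10 / 13))) ≤ 23268 / 10000 := by
      rw [ws1_sqrt_mul hP0 (by norm_num) (by norm_num), Real.sqrt_le_left (by norm_num)]
      norm_num
    have a4 : Real.exp (-(10 / 13 * (Real.pi / 3) ^ 2 * P / (2 * (12813 / 10000)))) ≤
        355 / 100000 := by
      refine (Real.exp_le_exp.2 (neg_le_neg ?_ : -(10 / 13 * (Real.pi / 3) ^ 2 * P /
        (2 * (12813 / 10000))) ≤ -(5683 / 1000))).trans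
        (ws1_exp_neg 20 (by norm_num) (by norm_num) ?_)
      · rw [le_div_iff₀ (by norm_num)]
        nlinarith
      · norm_num [Finset.sum_range_succ, Nat.factorial]
    have a5 : Real.sqrt P * Real.exp (-(9 / 26 * P / (12813 / 10000))) ≤ 3925 / 100000 := by
      have h1 := ws1_dec_sqrt (P := P) (P0 := 1727 / 100) (a := 9 / 26 / (12813 / 10000))
        (by norm_num) hP (by norm_num)
      have h2 : Real.sqrt (1727 / 100) ≤ 4156 / 1000 := by
        rw [Real.sqrt_le_left (by norm_num)]
        norm_num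
      have h3 : Real.exp (-(9 / 26 / (12813 / 10000) * (1727 / 100))) ≤ 9430 / 1000000 := by
        refine ws1_exp_neg 20 (by norm_num) (by norm_num) ?_
        norm_num [Finset.sum_range_succ, Nat.factorial]
      rw [show 9 / 26 * P / (12813 / 10000) = 9 / 26 / (12813 / 10000) * P by ring]
      refine h1.trans ((mul_le_mul h2 h3 (Real.exp_pos _).le (by norm_num)).trans ?_)
      norm_num
    have a6 : Real.exp (65 / 1000) ≤ 107 / 100 := by
      have := ws1_exp_le (x := 65 / 1000) (by norm_num) (by norm_num)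
      norm_num at this ⊢
      linarith
    have a7 : Real.pi / 6 ≤ 52361 / 100000 := by linarith
    have b1 : Real.sqrt (P * (1 + (3 / 2) ^ 2) / (2 * Real.pi)) *
        (Real.pi / 6 * Real.exp (65 / 1000) * Real.exp (-(9 / 26 * P / (12813 / 10000)))) ≤
          159 / 10000 := by
      calc Real.sqrt (P * (1 + (3 / 2) ^ 2) / (2 * Real.pi)) *
          (Real.pi / 6 * Real.exp (65 / 1000) * Real.exp (-(9 / 26 * P / (12813 / 10000))))
          ≤ (7193 / 10000 * Real.sqrt P) *
            (Real.pi / 6 * Real.exp (65 / 1000) * Real.exp (-(9 / 26 * P / (12813 / 10000)))) :=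
            mul_le_mul_of_nonneg_right a0 (by positivity)
        _ = 7193 / 10000 * (Real.pi / 6) * Real.exp (65 / 1000) *
            (Real.sqrt P * Real.exp (-(9 / 26 * P / (12813 / 10000)))) := by ring
        _ ≤ 7193 / 10000 * (52361 / 100000) * (107 / 100) * (3925 / 100000) := by gcongr
        _ ≤ _ := by norm_num
    have b2 : Real.sqrt (P * (1 + (3 / 2) ^ 2) / (2 * Real.pi)) *
        Real.sqrt (2 * Real.pi * (12813 / 10000) / (P * (6839 / 10000 * (10 / 13)))) *
        (37 / 1000 * Real.exp (37 / 1000) + 267 / 10000 / (6839 / 10000 * (10 / 13)) ^ 2) ≤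
          28135 / 10000 * (38422 / 1000000 + 267 / 10000 / (6839 / 10000 * (10 / 13)) ^ 2) := by
      gcongr
    have b3 : Real.sqrt (P * (1 + (3 / 2) ^ 2) / (2 * Real.pi)) *
        Real.sqrt (2 * Real.pi * (12813 / 10000) / (P * (10 / 13))) *
        Real.exp (-(10 / 13 * (Real.pi / 3) ^ 2 * P / (2 * (12813 / 10000)))) ≤
          23268 / 10000 * (355 / 100000) := by
      gcongr
    have b4 := add_le_add (add_le_add b2 b3) b1
    rw [mul_assoc _ _ (37 / 1000 * Real.exp (37 / 1000) + _), mul_assoc _ _ (Real.exp _),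
      ← mul_add, ← mul_add] at b4
    refine b4.trans ?_
    norm_num
  · intro τ hτ
    obtain ⟨h1, h2⟩ := hτ
    have hτ0 : 0 ≤ τ := by linarith
    refine RS_le H hτ0 (by norm_num) ?_ ?_ (by norm_num) ?_ ?_
    · rcases le_total τ 1 with h3 | h3
      · refine le_trans ?_ (hh_ge_of_le_one hw hw1 hτ0 h3)
        refine mul_le_mul_of_nonneg_right ?_ hw.le
        rw [le_div_iff₀ (by positivity)]
        nlinarith
      · refine le_trans ?_ (hh_ge_of_one_le hw hw1 h3)
        refine mul_le_mul_of_nonneg_right ?_ hw.le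
        rw [le_div_iff₀ (by positivity)]
        nlinarith
    · rcases le_total τ (3 / 4) with h3 | h3
      · refine le_trans ?_ (ho_ge_of_le hw hw1 hτ0 h3)
        refine mul_le_mul_of_nonneg_right ?_ hw.le
        rw [le_div_iff₀ (by positivity)]
        nlinarith
      · refine le_trans ?_ (ho_ge_of_ge hw hw1 h3)
        refine mul_le_mul_of_nonneg_right ?_ hw.le
        rw [le_div_iff₀ (by positivity)]
        nlinarith
    · unfold epsI
      have : sg n w * (1 + τ ^ 2) * (15173 / 10000 + 3184 / 10000 * τ) ≤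
          114 / 10000 * (1 + (3 / 2) ^ 2) * (15173 / 10000 + 3184 / 10000 * (3 / 2)) := by
        gcongr
      linarith
    · unfold epsO
      have : sg n w * (1 + τ ^ 2) * (30086 / 10000 + 3184 / 10000 * τ) ≤
          114 / 10000 * (1 + (3 / 2) ^ 2) * (30086 / 10000 + 3184 / 10000 * (3 / 2)) := by
        gcongr
      linarith

theorem winS_d (H : HypS n k w) :
    Kn n w * ∫ τ in (3 / 2 : ℝ)..2, Ew n w τ * (RinS w (sg n w) τ + RoutS w (sg n w) τ) ≤
      140 / 1000 := by
  have hP := H.P_ge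
  have hs := H.sg_le
  have hs0 := H.sg_pos
  have hw := H.hw0
  have hw1 := H.hw1
  have hpi := Real.pi_gt_d6
  have hpi2 := Real.pi_lt_d6
  have hp3 := ws1_pi3
  set P := PPn n w with hPdef
  have hP0 : 0 < P := by linarith
  have h0 := pieceS H (c := 3 / 2) (d := 2)
    (W := 2251 / 10000 * P * (2 - 3 / 2) * Real.exp (-(P * ((3 / 2 - 1) ^ 2 / (1 + (3 / 2) ^ 2)))))
    (B := BdS P (3 / 5) (11 / 40) (615 / 10000) (104 / 1000)) (by norm_num) (by norm_num)
    (WS_right H (by norm_num) (by norm_num)) (by unfold BdS; positivity) ?_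
  · refine h0.trans ?_
    unfold BdS
    have hE : Real.exp (-(P * ((3 / 2 - 1) ^ 2 / (1 + (3 / 2) ^ 2)))) =
        Real.exp (-(1 / 13 * P)) := by
      congr 1
      ring
    rw [hE]
    have s0 : Real.sqrt (1727 / 100) ≤ 4156 / 1000 := by
      rw [Real.sqrt_le_left (by norm_num)]
      norm_num
    have a1 : Real.sqrt P * Real.exp (-(1 / 13 * P)) ≤ 11012 / 10000 := by
      have h1 := ws1_dec_sqrt (P := P) (P0 := 1727 / 100) (a := 1 / 13)
        (by norm_num) hP (by norm_num)
      have h3 : Real.exp (-(1 / 13 * (1727 / 100))) ≤ 26491 / 100000 := by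
        refine ws1_exp_neg 12 (by norm_num) (by norm_num) ?_
        norm_num [Finset.sum_range_succ, Nat.factorial]
      refine h1.trans ((mul_le_mul s0 h3 (Real.exp_pos _).le (by norm_num)).trans ?_)
      norm_num
    have a2 : P * Real.sqrt (2 * Real.pi * (12813 / 10000) / (P * (6839 / 10000 * (3 / 5)))) ≤
        Real.sqrt P * (443 / 100) := by
      rw [ws1_sqrt_div hP0]
      refine mul_le_mul_of_nonneg_left ?_ (Real.sqrt_nonneg _)
      rw [Real.sqrt_le_left (by norm_num), div_le_iff₀ (by norm_num)]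
      nlinarith
    have a3 : P * Real.sqrt (2 * Real.pi * (12813 / 10000) / (P * (3 / 5))) ≤
        Real.sqrt P * (3664 / 1000) := by
      rw [ws1_sqrt_div hP0]
      refine mul_le_mul_of_nonneg_left ?_ (Real.sqrt_nonneg _)
      rw [Real.sqrt_le_left (by norm_num), div_le_iff₀ (by norm_num)]
      nlinarith
    have a4 : (615 / 10000 : ℝ) * Real.exp (615 / 10000) ≤ 6554 / 100000 := by
      have := ws1_exp_le (x := 615 / 10000) (by norm_num) (by norm_num)
      norm_num at this ⊢
      linarith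
    have a5 : Real.exp (-(3 / 5 * (Real.pi / 3) ^ 2 * P / (2 * (12813 / 10000)))) ≤
        12 / 1000 := by
      refine (Real.exp_le_exp.2 (neg_le_neg ?_ : -(3 / 5 * (Real.pi / 3) ^ 2 * P /
        (2 * (12813 / 10000))) ≤ -(443 / 100))).trans
        (ws1_exp_neg 20 (by norm_num) (by norm_num) ?_)
      · rw [le_div_iff₀ (by norm_num)]
        nlinarith
      · norm_num [Finset.sum_range_succ, Nat.factorial]
    have a6 : Real.exp (104 / 1000) ≤ 1117 / 1000 := by
      have := ws1_exp_le (x := 104 / 1000) (by norm_num) (by norm_num)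
      norm_num at this ⊢
      linarith
    have a7 : Real.pi / 6 ≤ 52361 / 100000 := by linarith
    have a8 : P * (Real.exp (-(1 / 13 * P)) * Real.exp (-(11 / 40 * P / (12813 / 10000)))) ≤
        1125 / 10000 := by
      rw [← Real.exp_add]
      rw [show -(1 / 13 * P) + -(11 / 40 * P / (12813 / 10000)) =
        -((1 / 13 + 11 / 40 / (12813 / 10000)) * P) by ring]
      refine (ws1_dec (P0 := 1727 / 100) (by norm_num) hP (by norm_num)).trans ?_
      have h3 : Real.exp (-((1 / 13 + 11 / 40 / (12813 / 10000)) * (1727 / 100))) ≤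
          6510 / 1000000 := by
        refine ws1_exp_neg 20 (by norm_num) (by norm_num) ?_
        norm_num [Finset.sum_range_succ, Nat.factorial]
      refine (mul_le_mul_of_nonneg_left h3 (by norm_num)).trans ?_
      norm_num
    set X := Real.exp (-(1 / 13 * P)) with hX
    have hX0 : 0 < X := Real.exp_pos _
    set S1 := Real.sqrt (2 * Real.pi * (12813 / 10000) / (P * (6839 / 10000 * (3 / 5)))) with hS1
    set S2 := Real.sqrt (2 * Real.pi * (12813 / 10000) / (P * (3 / 5))) with hS2
    set E1 := Real.exp (-(3 / 5 * (Real.pi / 3) ^ 2 * P / (2 * (12813 / 10000)))) with hE1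
    set E2 := Real.exp (-(11 / 40 * P / (12813 / 10000))) with hE2
    have hE10 : 0 < E1 := Real.exp_pos _
    have hE20 : 0 < E2 := Real.exp_pos _
    have b1 : P * S1 * X ≤ 443 / 100 * (11012 / 10000) := by
      calc P * S1 * X ≤ Real.sqrt P * (443 / 100) * X :=
            mul_le_mul_of_nonneg_right a2 hX0.le
        _ = 443 / 100 * (Real.sqrt P * X) := by ring
        _ ≤ _ := mul_le_mul_of_nonneg_left a1 (by norm_num)
    have b2 : P * S2 * X ≤ 3664 / 1000 * (11012 / 10000) := by
      calc P * S2 * X ≤ Real.sqrt P * (3664 / 1000) * X :=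
            mul_le_mul_of_nonneg_right a3 hX0.le
        _ = 3664 / 1000 * (Real.sqrt P * X) := by ring
        _ ≤ _ := mul_le_mul_of_nonneg_left a1 (by norm_num)
    calc 2251 / 10000 * P * (2 - 3 / 2) * X *
        (S1 * (615 / 10000 * Real.exp (615 / 10000) + 267 / 10000 / (6839 / 10000 * (3 / 5)) ^ 2) +
          S2 * E1 + Real.pi / 6 * Real.exp (104 / 1000) * E2)
        = 2251 / 20000 * ((P * S1 * X) * (615 / 10000 * Real.exp (615 / 10000) +
            267 / 10000 / (6839 / 10000 * (3 / 5)) ^ 2) + (P * S2 * X) * E1 +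
            Real.pi / 6 * Real.exp (104 / 1000) * (P * (X * E2))) := by ring
      _ ≤ 2251 / 20000 * ((443 / 100 * (11012 / 10000)) * (6554 / 100000 +
            267 / 10000 / (6839 / 10000 * (3 / 5)) ^ 2) +
            (3664 / 1000 * (11012 / 10000)) * (12 / 1000) +
            52361 / 100000 * (1117 / 1000) * (1125 / 10000)) := by gcongr
      _ ≤ _ := by norm_num
  · intro τ hτ
    obtain ⟨h1, h2⟩ := hτ
    have hτ0 : 0 ≤ τ := by linarith
    refine RS_le H hτ0 (by norm_num) ?_ ?_ (by norm_num) ?_ ?_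
    · refine le_trans ?_ (hh_ge_of_one_le hw hw1 (by linarith))
      refine mul_le_mul_of_nonneg_right ?_ hw.le
      rw [le_div_iff₀ (by positivity)]
      nlinarith
    · refine le_trans ?_ (ho_ge_of_ge hw hw1 (by linarith))
      refine mul_le_mul_of_nonneg_right ?_ hw.le
      rw [le_div_iff₀ (by positivity)]
      nlinarith
    · unfold epsI
      have : sg n w * (1 + τ ^ 2) * (15173 / 10000 + 3184 / 10000 * τ) ≤
          114 / 10000 * (1 + 2 ^ 2) * (15173 / 10000 + 3184 / 10000 * 2) := by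
        gcongr
      linarith
    · unfold epsO
      have : sg n w * (1 + τ ^ 2) * (30086 / 10000 + 3184 / 10000 * τ) ≤
          114 / 10000 * (1 + 2 ^ 2) * (30086 / 10000 + 3184 / 10000 * 2) := by
        gcongr
      linarith

end Pool.Agent.Lib.Durfee
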