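import Pool.Agent.Lib.MP_9393b1_co.WinSN

/-! # Regime S: the window error, `2 ≤ τ ≤ 4` -/

set_option autoImplicit false

namespace Pool.Agent.Lib.Durfee

open Complex MeasureTheory Filter Topology

variable {n k : ℕ} {w : ℝ}

private theorem s2_exp {x : ℝ} (k : ℕ) {r b : ℝ} (hx : (k : ℝ) + r ≤ x) (hr : 0 ≤ r)
    (hb0 : 0 ≤ b)
    (hb : 1 ≤ b * ((2718281828 / 1000000000 : ℝ) ^ k * (1 + r + r ^ 2 / 2))) :
    Real.exp (-x) ≤ b := by
  have h1 : Real.exp (-x) ≤ Real.exp (-((k : ℝ) + r)) := Real.exp_le_exp.2 (by linarith)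
  refine h1.trans ?_
  rw [Real.exp_neg, Real.exp_add]
  have h2 : (2718281828 / 1000000000 : ℝ) ^ k ≤ Real.exp (k : ℝ) := by
    have h3 : Real.exp (k : ℝ) = Real.exp 1 ^ k := by
      rw [← Real.exp_nat_mul, mul_one]
    rw [h3]
    have := Real.exp_one_gt_d9
    exact pow_le_pow_left₀ (by norm_num) (by linarith) k
  have h4 := Real.quadratic_le_exp_of_nonneg hr
  have h5 : (2718281828 / 1000000000 : ℝ) ^ k * (1 + r + r ^ 2 / 2) ≤
      Real.exp (k : ℝ) * Real.exp r := by gcongr
  rw [inv_le_iff_one_le_mul₀ (by positivity)]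
  exact hb.trans (mul_le_mul_of_nonneg_left h5 hb0)

private theorem s2_mono2 {c P0 P : ℝ} (hP0 : 0 < P0) (hP : P0 ≤ P) (hc : 1 ≤ c * P0) :
    P * Real.exp (-(c * P)) ≤ P0 * Real.exp (-(c * P0)) := by
  have h1 : P ≤ P0 * Real.exp (P / P0 - 1) := by
    have := Real.add_one_le_exp (P / P0 - 1)
    have h2 : P = P0 * (P / P0 - 1 + 1) := by field_simp; ring
    calc P = P0 * (P / P0 - 1 + 1) := h2
      _ ≤ _ := by gcongr
  calc P * Real.exp (-(c * P)) ≤ P0 * Real.exp (P / P0 - 1) * Real.exp (-(c * P)) := by gcongr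
    _ = P0 * Real.exp (P / P0 - 1 + -(c * P)) := by rw [mul_assoc, ← Real.exp_add]
    _ ≤ _ := by
        have h3 : P / P0 - 1 + -(c * P) ≤ -(c * P0) := by
          have h4 : P / P0 - 1 = (P - P0) / P0 := by field_simp
          have h5 : (P - P0) / P0 ≤ c * (P - P0) := by
            rw [div_le_iff₀ hP0]
            have := mul_le_mul_of_nonneg_right hc (by linarith : 0 ≤ P - P0)
            linarith
          rw [h4]
          linarith
        gcongr

private theorem s2_mono1 {A c P0 P : ℝ} (hA : 0 ≤ A) (hP0 : 0 < P0) (hP : P0 ≤ P)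
    (hc : 1 ≤ c * P0) :
    P * Real.sqrt (A / P) * Real.exp (-(c * P)) ≤ Real.sqrt (A * P0) * Real.exp (-(c * P0)) := by
  have hP1 : 0 < P := hP0.trans_le hP
  have h0 : P * Real.sqrt (A / P) = Real.sqrt (A * P) := by
    nth_rw 1 [← Real.sqrt_sq hP1.le]
    rw [← Real.sqrt_mul (by positivity)]
    congr 1
    field_simp
  rw [h0]
  have h1 : Real.sqrt (A * P) * Real.exp (-(c * P)) =
      Real.sqrt (A * (P * Real.exp (-((c * 2) * P)))) := by
    have h2 : Real.exp (-(c * P)) = Real.sqrt (Real.exp (-((c * 2) * P))) := by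
      rw [← Real.exp_half]
      congr 1
      ring
    rw [h2, ← Real.sqrt_mul (by positivity)]
    congr 1
    ring
  have h3 : Real.sqrt (A * P0) * Real.exp (-(c * P0)) =
      Real.sqrt (A * (P0 * Real.exp (-((c * 2) * P0)))) := by
    have h2 : Real.exp (-(c * P0)) = Real.sqrt (Real.exp (-((c * 2) * P0))) := by
      rw [← Real.exp_half]
      congr 1
      ring
    rw [h2, ← Real.sqrt_mul (by positivity)]
    congr 1
    ring
  rw [h1, h3]
  apply Real.sqrt_le_sqrt
  exact mul_le_mul_of_nonneg_left (s2_mono2 hP0 hP (by linarith)) hA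

private theorem s2_gen {P η μ e eo κ S1 S2 E0 E1 E2 X V : ℝ} (hP : 1727 / 100 ≤ P) (hη : 0 < η)
    (hμ : 0 ≤ μ) (he : 0 ≤ e) (hκ : 1 ≤ κ * (1727 / 100))
    (hS1 : 0 ≤ S1) (hS1' : 2 * (31415927 / 10000000) * (12813 / 10000) / (6839 / 10000 * η) *
      (1727 / 100) ≤ S1 ^ 2)
    (hS2 : 0 ≤ S2) (hS2' : 2 * (31415927 / 10000000) * (12813 / 10000) / η *
      (1727 / 100) ≤ S2 ^ 2)
    (hE0 : Real.exp (-(κ * (1727 / 100))) ≤ E0)
    (hE1 : Real.exp (-((κ + η * (10966 / 10000) / (2 * (12813 / 10000))) * (1727 / 100))) ≤ E1)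
    (hE2 : Real.exp (-((κ + μ / (12813 / 10000)) * (1727 / 100))) ≤ E2)
    (hX : e * Real.exp e + 267 / 10000 / (6839 / 10000 * η) ^ 2 ≤ X)
    (hV : Real.pi / 6 * Real.exp eo ≤ V) :
    P * Real.exp (-(P * κ)) * BdS P η μ e eo ≤ S1 * E0 * X + S2 * E1 + 1727 / 100 * V * E2 := by
  have hpi := Real.pi_pos
  have hpi7 : Real.pi ≤ 31415927 / 10000000 := by
    have := Real.pi_lt_d20
    norm_num at this ⊢
    linarith
  have hpi2 : (10966 / 10000 : ℝ) ≤ (Real.pi / 3) ^ 2 := by
    have := Real.pi_gt_d6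
    nlinarith
  have hP0 : 0 < P := by linarith
  have hX0 : 0 ≤ e * Real.exp e + 267 / 10000 / (6839 / 10000 * η) ^ 2 := by positivity
  -- first term
  have t1 : P * Real.exp (-(P * κ)) *
      Real.sqrt (2 * Real.pi * (12813 / 10000) / (P * (6839 / 10000 * η))) ≤ S1 * E0 := by
    have h1 := s2_mono1 (A := 2 * Real.pi * (12813 / 10000) / (6839 / 10000 * η)) (c := κ)
      (P0 := 1727 / 100) (P := P) (by positivity) (by norm_num) hP hκ
    have h2 : Real.sqrt (2 * Real.pi * (12813 / 10000) / (6839 / 10000 * η) * (1727 / 100)) ≤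
        S1 := by
      rw [Real.sqrt_le_left hS1]
      refine le_trans ?_ hS1'
      gcongr
    have h3 : 2 * Real.pi * (12813 / 10000) / (P * (6839 / 10000 * η)) =
        2 * Real.pi * (12813 / 10000) / (6839 / 10000 * η) / P := by
      field_simp
    rw [h3, mul_comm P κ]
    calc P * Real.exp (-(κ * P)) *
          Real.sqrt (2 * Real.pi * (12813 / 10000) / (6839 / 10000 * η) / P)
        = P * Real.sqrt (2 * Real.pi * (12813 / 10000) / (6839 / 10000 * η) / P) *
            Real.exp (-(κ * P)) := by ring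
      _ ≤ _ := h1
      _ ≤ S1 * E0 := by gcongr
  -- second term
  have t2 : P * Real.exp (-(P * κ)) * (Real.sqrt (2 * Real.pi * (12813 / 10000) / (P * η)) *
      Real.exp (-(η * (Real.pi / 3) ^ 2 * P / (2 * (12813 / 10000))))) ≤ S2 * E1 := by
    have hκ1 : 1 ≤ (κ + η * (10966 / 10000) / (2 * (12813 / 10000))) * (1727 / 100) := by
      have : 0 ≤ η * (10966 / 10000) / (2 * (12813 / 10000)) := by positivity
      nlinarith
    have h1 := s2_mono1 (A := 2 * Real.pi * (12813 / 10000) / η)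
      (c := κ + η * (10966 / 10000) / (2 * (12813 / 10000)))
      (P0 := 1727 / 100) (P := P) (by positivity) (by norm_num) hP hκ1
    have h2 : Real.sqrt (2 * Real.pi * (12813 / 10000) / η * (1727 / 100)) ≤ S2 := by
      rw [Real.sqrt_le_left hS2]
      refine le_trans ?_ hS2'
      gcongr
    have h3 : 2 * Real.pi * (12813 / 10000) / (P * η) =
        2 * Real.pi * (12813 / 10000) / η / P := by
      field_simp
    have h4 : Real.exp (-(P * κ)) *
        Real.exp (-(η * (Real.pi / 3) ^ 2 * P / (2 * (12813 / 10000)))) ≤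
        Real.exp (-((κ + η * (10966 / 10000) / (2 * (12813 / 10000))) * P)) := by
      rw [← Real.exp_add]
      apply Real.exp_le_exp.2
      have h5 : η * (10966 / 10000) * P / (2 * (12813 / 10000)) ≤
          η * (Real.pi / 3) ^ 2 * P / (2 * (12813 / 10000)) := by gcongr
      have h6 : (κ + η * (10966 / 10000) / (2 * (12813 / 10000))) * P =
          P * κ + η * (10966 / 10000) * P / (2 * (12813 / 10000)) := by ring
      linarith
    rw [h3]
    calc P * Real.exp (-(P * κ)) * (Real.sqrt (2 * Real.pi * (12813 / 10000) / η / P) *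
          Real.exp (-(η * (Real.pi / 3) ^ 2 * P / (2 * (12813 / 10000)))))
        = P * Real.sqrt (2 * Real.pi * (12813 / 10000) / η / P) * (Real.exp (-(P * κ)) *
          Real.exp (-(η * (Real.pi / 3) ^ 2 * P / (2 * (12813 / 10000))))) := by ring
      _ ≤ P * Real.sqrt (2 * Real.pi * (12813 / 10000) / η / P) *
          Real.exp (-((κ + η * (10966 / 10000) / (2 * (12813 / 10000))) * P)) := by gcongr
      _ ≤ _ := h1
      _ ≤ S2 * E1 := by gcongr
  -- third term
  have t3 : P * Real.exp (-(P * κ)) * (Real.pi / 6 * Real.exp eo *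
      Real.exp (-(μ * P / (12813 / 10000)))) ≤ 1727 / 100 * V * E2 := by
    have hκ2 : 1 ≤ (κ + μ / (12813 / 10000)) * (1727 / 100) := by
      have : 0 ≤ μ / (12813 / 10000) := by positivity
      nlinarith
    have h1 := s2_mono2 (c := κ + μ / (12813 / 10000)) (P0 := 1727 / 100) (P := P)
      (by norm_num) hP hκ2
    have h4 : Real.exp (-(P * κ)) * Real.exp (-(μ * P / (12813 / 10000))) =
        Real.exp (-((κ + μ / (12813 / 10000)) * P)) := by
      rw [← Real.exp_add]
      congr 1
      ring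
    have hV0 : 0 ≤ Real.pi / 6 * Real.exp eo := by positivity
    calc P * Real.exp (-(P * κ)) * (Real.pi / 6 * Real.exp eo *
          Real.exp (-(μ * P / (12813 / 10000))))
        = (Real.pi / 6 * Real.exp eo) * (P * (Real.exp (-(P * κ)) *
            Real.exp (-(μ * P / (12813 / 10000))))) := by ring
      _ = (Real.pi / 6 * Real.exp eo) * (P *
            Real.exp (-((κ + μ / (12813 / 10000)) * P))) := by rw [h4]
      _ ≤ (Real.pi / 6 * Real.exp eo) * (1727 / 100 *
            Real.exp (-((κ + μ / (12813 / 10000)) * (1727 / 100)))) :=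
          mul_le_mul_of_nonneg_left h1 hV0
      _ ≤ V * (1727 / 100 * E2) := by gcongr; exact hV0.trans hV
      _ = _ := by ring
  have hSE : 0 ≤ S1 * E0 := mul_nonneg hS1 ((Real.exp_pos _).le.trans hE0)
  unfold BdS
  calc P * Real.exp (-(P * κ)) * (Real.sqrt (2 * Real.pi * (12813 / 10000) /
          (P * (6839 / 10000 * η))) *
        (e * Real.exp e + 267 / 10000 / (6839 / 10000 * η) ^ 2) +
      Real.sqrt (2 * Real.pi * (12813 / 10000) / (P * η)) *
        Real.exp (-(η * (Real.pi / 3) ^ 2 * P / (2 * (12813 / 10000)))) +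
      Real.pi / 6 * Real.exp eo * Real.exp (-(μ * P / (12813 / 10000))))
      = P * Real.exp (-(P * κ)) * Real.sqrt (2 * Real.pi * (12813 / 10000) /
          (P * (6839 / 10000 * η))) * (e * Real.exp e + 267 / 10000 / (6839 / 10000 * η) ^ 2) +
        P * Real.exp (-(P * κ)) * (Real.sqrt (2 * Real.pi * (12813 / 10000) / (P * η)) *
          Real.exp (-(η * (Real.pi / 3) ^ 2 * P / (2 * (12813 / 10000))))) +
        P * Real.exp (-(P * κ)) * (Real.pi / 6 * Real.exp eo *
          Real.exp (-(μ * P / (12813 / 10000)))) := by ring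
    _ ≤ S1 * E0 * X + S2 * E1 + 1727 / 100 * V * E2 :=
        add_le_add (add_le_add (mul_le_mul t1 hX hX0 hSE) t2) t3

private theorem s2_BdS_nonneg {P η μ e eo : ℝ} (he : 0 ≤ e) (hη : 0 < η) :
    0 ≤ BdS P η μ e eo := by
  have hpi := Real.pi_pos
  unfold BdS
  positivity

private theorem s2_exp_le {x : ℝ} (h0 : 0 ≤ x) (h1 : x < 1) : Real.exp x ≤ 1 / (1 - x) :=
  Real.exp_bound_div_one_sub_of_interval h0 h1

/-- `exp x ≤ (1/(1 - x/4))^4` -/
private theorem s2_exp_up {x : ℝ} (h0 : 0 ≤ x) (h1 : x < 4) :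
    Real.exp x ≤ (1 / (1 - x / 4)) ^ 4 := by
  have h2 : Real.exp x = Real.exp (x / 4) ^ 4 := by
    rw [← Real.exp_nat_mul]
    congr 1
    push_cast
    ring
  rw [h2]
  have h3 := s2_exp_le (x := x / 4) (by positivity) (by linarith)
  gcongr

theorem winS_e (H : HypS n k w) :
    Kn n w * ∫ τ in (2 : ℝ)..3, Ew n w τ * (RinS w (sg n w) τ + RoutS w (sg n w) τ) ≤
      100 / 1000 := by
  have hP := H.P_ge
  have hsg := H.sg_le
  have hsg0 := H.sg_pos
  have hpi := Real.pi_lt_d6
  have h1 := pieceS H (c := 2) (d := 3) (B := BdS (PPn n w) (2 / 5) (3 / 16) (141 / 1000)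
    (226 / 1000)) (by norm_num) (by norm_num) (WS_right H (by norm_num) (by norm_num))
    (s2_BdS_nonneg (by norm_num) (by norm_num)) ?_
  · refine h1.trans ?_
    have h2 := s2_gen (P := PPn n w) (η := 2 / 5) (μ := 3 / 16) (e := 141 / 1000)
      (eo := 226 / 1000) (κ := 1 / 5) (S1 := 2255 / 100) (S2 := 1865 / 100) (E0 := 32 / 1000)
      (E1 := 166 / 100000) (E2 := 274 / 100000) (X := 5196 / 10000) (V := 661 / 1000)
      hP (by norm_num) (by norm_num) (by norm_num) (by norm_num) (by norm_num) (by norm_num)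
      (by norm_num) (by norm_num)
      (s2_exp 3 (r := 454 / 1000) (by norm_num) (by norm_num) (by norm_num) (by norm_num))
      (s2_exp 6 (r := 41 / 100) (by norm_num) (by norm_num) (by norm_num) (by norm_num))
      (s2_exp 5 (r := 981 / 1000) (by norm_num) (by norm_num) (by norm_num) (by norm_num))
      ?_ ?_
    · have h3 : 2251 / 10000 * PPn n w * (3 - 2) *
          Real.exp (-(PPn n w * ((2 - 1) ^ 2 / (1 + 2 ^ 2)))) *
          BdS (PPn n w) (2 / 5) (3 / 16) (141 / 1000) (226 / 1000) =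
          2251 / 10000 * (PPn n w * Real.exp (-(PPn n w * (1 / 5))) *
            BdS (PPn n w) (2 / 5) (3 / 16) (141 / 1000) (226 / 1000)) := by
        norm_num
        ring
      rw [h3]
      refine (mul_le_mul_of_nonneg_left h2 (by norm_num)).trans ?_
      norm_num
    · have := s2_exp_up (x := 141 / 1000) (by norm_num) (by norm_num)
      norm_num at this ⊢
      linarith
    · have h4 := s2_exp_up (x := 226 / 1000) (by norm_num) (by norm_num)
      have h5 : Real.pi / 6 ≤ 3141593 / 6000000 := by linarith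
      refine (mul_le_mul h5 h4 (by positivity) (by norm_num)).trans ?_
      norm_num
  · intro τ hτ
    obtain ⟨h2, h3⟩ := hτ
    have hτ0 : 0 ≤ τ := by linarith
    refine RS_le H hτ0 (by norm_num) ?_ ?_ (by norm_num) ?_ ?_
    · refine le_trans ?_ (hh_ge_of_one_le H.hw0 H.hw1 (by linarith))
      apply mul_le_mul_of_nonneg_right _ H.hw0.le
      rw [le_div_iff₀ (by positivity)]
      nlinarith
    · refine le_trans ?_ (ho_ge_of_ge H.hw0 H.hw1 (by linarith))
      apply mul_le_mul_of_nonneg_right _ H.hw0.le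
      rw [le_div_iff₀ (by positivity)]
      nlinarith
    · unfold epsI
      calc sg n w * (1 + τ ^ 2) * (15173 / 10000 + 3184 / 10000 * τ) / 2
          ≤ 114 / 10000 * (1 + 3 ^ 2) * (15173 / 10000 + 3184 / 10000 * 3) / 2 := by gcongr
        _ ≤ _ := by norm_num
    · unfold epsO
      calc sg n w * (1 + τ ^ 2) * (30086 / 10000 + 3184 / 10000 * τ) / 2
          ≤ 114 / 10000 * (1 + 3 ^ 2) * (30086 / 10000 + 3184 / 10000 * 3) / 2 := by gcongr
        _ ≤ _ := by norm_num

theorem winS_f (H : HypS n k w) :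
    Kn n w * ∫ τ in (3 : ℝ)..4, Ew n w τ * (RinS w (sg n w) τ + RoutS w (sg n w) τ) ≤
      8 / 1000 := by
  have hP := H.P_ge
  have hsg := H.sg_le
  have hsg0 := H.sg_pos
  have hpi := Real.pi_lt_d6
  have h1 := pieceS H (c := 3) (d := 4) (B := BdS (PPn n w) (5 / 17) (19 / 136) (2705 / 10000)
    (415 / 1000)) (by norm_num) (by norm_num) (WS_right H (by norm_num) (by norm_num))
    (s2_BdS_nonneg (by norm_num) (by norm_num)) ?_
  · refine h1.trans ?_
    have h2 := s2_gen (P := PPn n w) (η := 5 / 17) (μ := 19 / 136) (e := 2705 / 10000)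
      (eo := 415 / 1000) (κ := 2 / 5) (S1 := 2630 / 100) (S2 := 2175 / 100)
      (E0 := 107 / 100000) (E1 := 114 / 1000000) (E2 := 160 / 1000000) (X := 1018 / 1000)
      (V := 812 / 1000)
      hP (by norm_num) (by norm_num) (by norm_num) (by norm_num) (by norm_num) (by norm_num)
      (by norm_num) (by norm_num)
      (s2_exp 6 (r := 908 / 1000) (by norm_num) (by norm_num) (by norm_num) (by norm_num))
      (s2_exp 9 (r := 81 / 1000) (by norm_num) (by norm_num) (by norm_num) (by norm_num))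
      (s2_exp 8 (r := 791 / 1000) (by norm_num) (by norm_num) (by norm_num) (by norm_num))
      ?_ ?_
    · have h3 : 2251 / 10000 * PPn n w * (4 - 3) *
          Real.exp (-(PPn n w * ((3 - 1) ^ 2 / (1 + 3 ^ 2)))) *
          BdS (PPn n w) (5 / 17) (19 / 136) (2705 / 10000) (415 / 1000) =
          2251 / 10000 * (PPn n w * Real.exp (-(PPn n w * (2 / 5))) *
            BdS (PPn n w) (5 / 17) (19 / 136) (2705 / 10000) (415 / 1000)) := by
        norm_num
        ring
      rw [h3]
      refine (mul_le_mul_of_nonneg_left h2 (by norm_num)).trans ?_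
      norm_num
    · have := s2_exp_up (x := 2705 / 10000) (by norm_num) (by norm_num)
      norm_num at this ⊢
      linarith
    · have h4 := s2_exp_up (x := 415 / 1000) (by norm_num) (by norm_num)
      have h5 : Real.pi / 6 ≤ 3141593 / 6000000 := by linarith
      refine (mul_le_mul h5 h4 (by positivity) (by norm_num)).trans ?_
      norm_num
  · intro τ hτ
    obtain ⟨h2, h3⟩ := hτ
    have hτ0 : 0 ≤ τ := by linarith
    refine RS_le H hτ0 (by norm_num) ?_ ?_ (by norm_num) ?_ ?_
    · refine le_trans ?_ (hh_ge_of_one_le H.hw0 H.hw1 (by linarith))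
      apply mul_le_mul_of_nonneg_right _ H.hw0.le
      rw [le_div_iff₀ (by positivity)]
      nlinarith
    · refine le_trans ?_ (ho_ge_of_ge H.hw0 H.hw1 (by linarith))
      apply mul_le_mul_of_nonneg_right _ H.hw0.le
      rw [le_div_iff₀ (by positivity)]
      nlinarith
    · unfold epsI
      calc sg n w * (1 + τ ^ 2) * (15173 / 10000 + 3184 / 10000 * τ) / 2
          ≤ 114 / 10000 * (1 + 4 ^ 2) * (15173 / 10000 + 3184 / 10000 * 4) / 2 := by gcongr
        _ ≤ _ := by norm_num
    · unfold epsO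
      calc sg n w * (1 + τ ^ 2) * (30086 / 10000 + 3184 / 10000 * τ) / 2
          ≤ 114 / 10000 * (1 + 4 ^ 2) * (30086 / 10000 + 3184 / 10000 * 4) / 2 := by gcongr
        _ ≤ _ := by norm_num

end Pool.Agent.Lib.Durfee
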