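import Pool.Agent.Lib.MP_9393b1_co.WinSN

/-! # Regime S: the window error, `0 ≤ τ ≤ 1/2` -/

set_option autoImplicit false

namespace Pool.Agent.Lib.Durfee

open Complex MeasureTheory Filter Topology

variable {n k : ℕ} {w : ℝ}

private theorem sn3_T {P P0 m m0 : ℝ} (hP0 : 0 < P0) (hP : P0 ≤ P) (hm : m0 ≤ m)
    (h1 : 1 ≤ P0 * m0) : P * Real.exp (-(P * m)) ≤ P0 * Real.exp (-(P0 * m0)) := by
  have hPp : 0 < P := lt_of_lt_of_le hP0 hP
  have e1 : Real.exp (-(P * m)) ≤ Real.exp (-(P * m0)) := by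
    apply Real.exp_le_exp.2
    have := mul_le_mul_of_nonneg_left hm hPp.le
    linarith
  have e2 : Real.exp (-(P * m0)) = Real.exp (-(P0 * m0)) * Real.exp (-((P - P0) * m0)) := by
    rw [← Real.exp_add]
    congr 1
    ring
  have e3 : P * Real.exp (-((P - P0) * m0)) ≤ P0 := by
    have h2 := Real.add_one_le_exp ((P - P0) * m0)
    have h3 : Real.exp ((P - P0) * m0) * Real.exp (-((P - P0) * m0)) = 1 := by
      rw [← Real.exp_add]; simp
    have h4 : P ≤ P0 * Real.exp ((P - P0) * m0) := by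
      have h5 : P0 * ((P - P0) * m0 + 1) ≤ P0 * Real.exp ((P - P0) * m0) := by gcongr
      have h6 : 0 ≤ (P - P0) * (P0 * m0 - 1) :=
        mul_nonneg (by linarith) (by linarith)
      nlinarith
    calc P * Real.exp (-((P - P0) * m0))
        ≤ (P0 * Real.exp ((P - P0) * m0)) * Real.exp (-((P - P0) * m0)) := by gcongr
      _ = P0 := by rw [mul_assoc, h3, mul_one]
  calc P * Real.exp (-(P * m)) ≤ P * Real.exp (-(P * m0)) := by gcongr
    _ = (P * Real.exp (-((P - P0) * m0))) * Real.exp (-(P0 * m0)) := by rw [e2]; ring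
    _ ≤ P0 * Real.exp (-(P0 * m0)) := by gcongr

private theorem sn3_exp_nat (j : ℕ) {x : ℝ} (hx : (j : ℝ) ≤ x) :
    Real.exp (-x) ≤ (1 / (27182818283 / 10000000000)) ^ j := by
  have h1 := Real.exp_one_gt_d9
  have h2 : Real.exp (-x) ≤ Real.exp (-(j : ℝ)) := by
    apply Real.exp_le_exp.2
    linarith
  refine h2.trans ?_
  rw [Real.exp_neg, ← one_div, one_div_pow, ← Real.exp_one_pow]
  apply one_div_le_one_div_of_le (by positivity)
  gcongr
  norm_num at h1 ⊢
  linarith

private theorem sn3_exp (j : ℕ) {x y : ℝ} (hy : 0 ≤ y) (hx : (j : ℝ) + y ≤ x) :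
    Real.exp (-x) ≤ (1 / (27182818283 / 10000000000)) ^ j / (1 + y + y ^ 2 / 2) := by
  have h2 : Real.exp (-x) ≤ Real.exp (-(j : ℝ)) * Real.exp (-y) := by
    rw [← Real.exp_add]
    apply Real.exp_le_exp.2
    linarith
  refine h2.trans ?_
  rw [div_eq_mul_one_div]
  have h3 := sn3_exp_nat j (le_refl (j : ℝ))
  have h4 : Real.exp (-y) ≤ 1 / (1 + y + y ^ 2 / 2) := by
    rw [Real.exp_neg, ← one_div]
    exact one_div_le_one_div_of_le (by positivity) (Real.quadratic_le_exp_of_nonneg hy)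
  gcongr

private theorem sn3_exp_le {x : ℝ} (h0 : 0 ≤ x) (h1 : x < 1) : Real.exp x ≤ 1 / (1 - x) :=
  Real.exp_bound_div_one_sub_of_interval h0 h1

private theorem sn3_B {P P0 r0 e2 e3 : ℝ} (hr0 : 0 < r0) (hr : r0 ^ 2 ≤ P0) (hP : P0 ≤ P)
    (h2 : Real.exp (-(20137 / 100000 * P0)) ≤ e2) (h3 : Real.exp (-(18363 / 100000 * P0)) ≤ e3) :
    BdS P (8 / 17) (4 / 17) (12 / 1000) (226 / 10000) ≤
      50016 / 10000 / r0 * (26998 / 100000) + 41364 / 10000 / r0 * e2 + 5358 / 10000 * e3 := by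
  have hpi := Real.pi_gt_d6
  have hpi2 := Real.pi_lt_d6
  have hP0 : 0 < P0 := lt_of_lt_of_le (by positivity) hr
  have hPp : 0 < P := lt_of_lt_of_le hP0 hP
  have hrP : r0 ^ 2 ≤ P := hr.trans hP
  unfold BdS
  have a1 : Real.sqrt (2 * Real.pi * (12813 / 10000) / (P * (6839 / 10000 * (8 / 17)))) ≤
      50016 / 10000 / r0 := by
    rw [Real.sqrt_le_left (by positivity), div_pow, div_le_div_iff₀ (by positivity) (by positivity)]
    have : 2 * Real.pi * (12813 / 10000) * r0 ^ 2 ≤ 2 * (3141593 / 1000000) * (12813 / 10000) * P := by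
      have hpi3 : Real.pi ≤ 3141593 / 1000000 := by linarith
      gcongr
    refine this.trans ?_
    nlinarith
  have a2 : Real.sqrt (2 * Real.pi * (12813 / 10000) / (P * (8 / 17))) ≤
      41364 / 10000 / r0 := by
    rw [Real.sqrt_le_left (by positivity), div_pow, div_le_div_iff₀ (by positivity) (by positivity)]
    have : 2 * Real.pi * (12813 / 10000) * r0 ^ 2 ≤ 2 * (3141593 / 1000000) * (12813 / 10000) * P := by
      have hpi3 : Real.pi ≤ 3141593 / 1000000 := by linarith
      gcongr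
    refine this.trans ?_
    nlinarith
  have a3 : 12 / 1000 * Real.exp (12 / 1000) + 267 / 10000 / (6839 / 10000 * (8 / 17)) ^ 2 ≤
      26998 / 100000 := by
    have := sn3_exp_le (x := 12 / 1000) (by norm_num) (by norm_num)
    norm_num at this ⊢
    linarith
  have a4 : Real.exp (-(8 / 17 * (Real.pi / 3) ^ 2 * P / (2 * (12813 / 10000)))) ≤ e2 := by
    refine le_trans (Real.exp_le_exp.2 ?_) h2
    rw [neg_le_neg_iff, le_div_iff₀ (by norm_num)]
    have h5 : (10966 / 10000 : ℝ) ≤ (Real.pi / 3) ^ 2 := by nlinarith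
    have h6 : 8 / 17 * (10966 / 10000 : ℝ) * P0 ≤ 8 / 17 * (Real.pi / 3) ^ 2 * P := by gcongr
    refine le_trans ?_ h6
    nlinarith
  have a5 : Real.pi / 6 * Real.exp (226 / 10000) ≤ 5358 / 10000 := by
    have h5 := sn3_exp_le (x := 226 / 10000) (by norm_num) (by norm_num)
    have h6 : Real.pi / 6 ≤ 3141593 / 6000000 := by linarith
    calc Real.pi / 6 * Real.exp (226 / 10000)
        ≤ 3141593 / 6000000 * (1 / (1 - 226 / 10000)) := by gcongr
      _ ≤ _ := by norm_num
  have a6 : Real.exp (-(4 / 17 * P / (12813 / 10000))) ≤ e3 := by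
    refine le_trans (Real.exp_le_exp.2 ?_) h3
    rw [neg_le_neg_iff, le_div_iff₀ (by norm_num)]
    nlinarith
  have e2p : 0 ≤ e2 := (Real.exp_pos _).le.trans h2
  have e3p : 0 ≤ e3 := (Real.exp_pos _).le.trans h3
  refine add_le_add (add_le_add (mul_le_mul a1 a3 (by positivity) (by positivity))
    (mul_le_mul a2 a4 (by positivity) (by positivity))) (mul_le_mul a5 a6 (by positivity)
      (by norm_num))

private theorem sn3_case {P P0 m m0 r0 e2 e3 T0 : ℝ} (hP0 : 0 < P0) (hP : P0 ≤ P)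
    (hm : m0 ≤ m) (h1 : 1 ≤ P0 * m0) (hr0 : 0 < r0) (hr : r0 ^ 2 ≤ P0)
    (h2 : Real.exp (-(20137 / 100000 * P0)) ≤ e2) (h3 : Real.exp (-(18363 / 100000 * P0)) ≤ e3)
    (hT : P0 * Real.exp (-(P0 * m0)) ≤ T0)
    (hfin : 2251 / 40000 * T0 * (50016 / 10000 / r0 * (26998 / 100000) +
      41364 / 10000 / r0 * e2 + 5358 / 10000 * e3) ≤ 20 / 1000) :
    2251 / 10000 * P * (1 / 2 - 1 / 4) * Real.exp (-(P * m)) *
      BdS P (8 / 17) (4 / 17) (12 / 1000) (226 / 10000) ≤ 20 / 1000 := by
  have hPp : 0 < P := lt_of_lt_of_le hP0 hP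
  have hB := sn3_B hr0 hr hP h2 h3
  have hB0 : 0 ≤ BdS P (8 / 17) (4 / 17) (12 / 1000) (226 / 10000) := by
    have := Real.pi_pos
    unfold BdS
    positivity
  have hTT := (sn3_T hP0 hP hm h1).trans hT
  have hT1 : 0 ≤ P * Real.exp (-(P * m)) := by positivity
  refine le_trans ?_ hfin
  calc 2251 / 10000 * P * (1 / 2 - 1 / 4) * Real.exp (-(P * m)) *
      BdS P (8 / 17) (4 / 17) (12 / 1000) (226 / 10000)
      = 2251 / 40000 * (P * Real.exp (-(P * m))) *
        BdS P (8 / 17) (4 / 17) (12 / 1000) (226 / 10000) := by ring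
    _ ≤ _ := by
      have hT0 : 0 ≤ T0 := hT1.trans hTT
      apply mul_le_mul _ hB hB0 (by positivity)
      gcongr

/-- `P ≥ r` from `10^4 w ≤ P^2` -/
private theorem sn3_P (H : HypS n k w) {r : ℝ} (hr : 0 ≤ r) (h : r ^ 2 ≤ 10 ^ 4 * w) :
    r ≤ PPn n w := by
  have h1 := H.w_le
  have h2 := H.P_ge
  by_contra hc
  push Not at hc
  nlinarith

theorem winS_b (H : HypS n k w) :
    Kn n w * ∫ τ in (1 / 4 : ℝ)..(1 / 2), Ew n w τ * (RinS w (sg n w) τ + RoutS w (sg n w) τ) ≤
      20 / 1000 := by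
  have hw0 := H.hw0
  have hw1 := H.hw1
  have hσ := H.sg_pos
  have hσ1 := H.sg_le
  have hPge := H.P_ge
  have hB0 : 0 ≤ BdS (PPn n w) (8 / 17) (4 / 17) (12 / 1000) (226 / 10000) := by
    have := Real.pi_pos
    unfold BdS
    positivity
  refine (pieceS H (by norm_num) (by norm_num) (WS_left H (by norm_num) (by norm_num) le_rfl)
    hB0 ?_).trans ?_
  · intro τ hτ
    obtain ⟨t1, t2⟩ := hτ
    have t0 : 0 ≤ τ := by linarith
    refine RS_le H t0 (by norm_num) ?_ ?_ (by norm_num) ?_ ?_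
    · refine le_trans ?_ (hh_ge_of_le_one hw0 hw1 t0 (by linarith))
      apply mul_le_mul_of_nonneg_right _ hw0.le
      rw [le_div_iff₀ (by positivity)]
      nlinarith
    · refine le_trans ?_ (ho_ge_of_le hw0 hw1 t0 (by linarith))
      apply mul_le_mul_of_nonneg_right _ hw0.le
      rw [le_div_iff₀ (by positivity)]
      nlinarith
    · unfold epsI
      calc sg n w * (1 + τ ^ 2) * (15173 / 10000 + 3184 / 10000 * τ) / 2
          ≤ 114 / 10000 * (1 + (1 / 2) ^ 2) * (15173 / 10000 + 3184 / 10000 * (1 / 2)) / 2 := by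
            gcongr
        _ ≤ _ := by norm_num
    · unfold epsO
      calc sg n w * (1 + τ ^ 2) * (30086 / 10000 + 3184 / 10000 * τ) / 2
          ≤ 114 / 10000 * (1 + (1 / 2) ^ 2) * (30086 / 10000 + 3184 / 10000 * (1 / 2)) / 2 := by
            gcongr
        _ ≤ _ := by norm_num
  · -- the five ranges of `w`
    have hm : ∀ v : ℝ, w ≤ v → v ≤ 1 → (1 / 2 - 9 / 32 * v) ^ 2 / (5 / 4) ≤
        (1 - 9 / 32 * w - 1 / 2) ^ 2 / (1 + (1 / 2 : ℝ) ^ 2) := by
      intro v hv hv1
      have h1 : (5 / 4 : ℝ) = 1 + (1 / 2 : ℝ) ^ 2 := by norm_num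
      rw [h1]
      apply div_le_div_of_nonneg_right _ (by norm_num)
      apply pow_le_pow_left₀ (by linarith)
      linarith
    have he2 : ∀ P0 : ℝ, 31 ≤ P0 → Real.exp (-(20137 / 100000 * P0)) ≤ 25 / 10000 := by
      intro P0 h
      refine (sn3_exp_nat 6 (by push_cast; linarith)).trans (by norm_num)
    have he3 : ∀ P0 : ℝ, 31 ≤ P0 → Real.exp (-(18363 / 100000 * P0)) ≤ 68 / 10000 := by
      intro P0 h
      refine (sn3_exp_nat 5 (by push_cast; linarith)).trans (by norm_num)
    rcases le_total w (1 / 10) with h | h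
    · have h1 := hm _ h (by norm_num)
      refine sn3_case (P0 := 1727 / 100) (m0 := 1781 / 10000) (r0 := 4155 / 1000)
        (e2 := 316 / 10000) (e3 := 42 / 1000) (T0 := 7975 / 10000) (by norm_num) hPge
        (le_trans (by norm_num) h1) (by norm_num) (by norm_num) (by norm_num)
        ((sn3_exp 3 (y := 47 / 100) (by norm_num) (by norm_num)).trans (by norm_num))
        ((sn3_exp 3 (y := 171 / 1000) (by norm_num) (by norm_num)).trans (by norm_num)) ?_
        (by norm_num)
      have h5 := sn3_exp 3 (x := 1727 / 100 * (1781 / 10000)) (y := 757 / 10000)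
        (by norm_num) (by norm_num)
      norm_num at h5 ⊢
      linarith
    rcases le_total w (4 / 10) with h' | h'
    · have h1 := hm _ h' (by norm_num)
      have hP : 316 / 10 ≤ PPn n w := sn3_P H (by norm_num) (by linarith)
      refine sn3_case (P0 := 316 / 10) (m0 := 1201 / 10000) (r0 := 562 / 100)
        (e2 := 25 / 10000) (e3 := 68 / 10000) (T0 := 76 / 100) (by norm_num) hP
        (le_trans (by norm_num) h1) (by norm_num) (by norm_num) (by norm_num)
        (he2 _ (by norm_num)) (he3 _ (by norm_num)) ?_ (by norm_num)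
      have h5 := sn3_exp 3 (x := 316 / 10 * (1201 / 10000)) (y := 79 / 100)
        (by norm_num) (by norm_num)
      norm_num at h5 ⊢
      linarith
    rcases le_total w (8 / 10) with h'' | h''
    · have h1 := hm _ h'' (by norm_num)
      have hP : 632 / 10 ≤ PPn n w := sn3_P H (by norm_num) (by linarith)
      refine sn3_case (P0 := 632 / 10) (m0 := 605 / 10000) (r0 := 794 / 100)
        (e2 := 25 / 10000) (e3 := 68 / 10000) (T0 := 147 / 100) (by norm_num) hP
        (le_trans (by norm_num) h1) (by norm_num) (by norm_num) (by norm_num)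
        (he2 _ (by norm_num)) (he3 _ (by norm_num)) ?_ (by norm_num)
      have h5 := sn3_exp 3 (x := 632 / 10 * (605 / 10000)) (y := 82 / 100)
        (by norm_num) (by norm_num)
      norm_num at h5 ⊢
      linarith
    rcases le_total w (94 / 100) with h3 | h3
    · have h1 := hm _ h3 (by norm_num)
      have hP : 894 / 10 ≤ PPn n w := sn3_P H (by norm_num) (by linarith)
      refine sn3_case (P0 := 894 / 10) (m0 := 444 / 10000) (r0 := 945 / 100)
        (e2 := 25 / 10000) (e3 := 68 / 10000) (T0 := 184 / 100) (by norm_num) hP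
        (le_trans (by norm_num) h1) (by norm_num) (by norm_num) (by norm_num)
        (he2 _ (by norm_num)) (he3 _ (by norm_num)) ?_ (by norm_num)
      have h5 := sn3_exp 3 (x := 894 / 10 * (444 / 10000)) (y := 96 / 100)
        (by norm_num) (by norm_num)
      norm_num at h5 ⊢
      linarith
    · have h1 := hm _ hw1 (by norm_num)
      have hP : 969 / 10 ≤ PPn n w := sn3_P H (by norm_num) (by linarith)
      refine sn3_case (P0 := 969 / 10) (m0 := 3828 / 100000) (r0 := 984 / 100)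
        (e2 := 25 / 10000) (e3 := 68 / 10000) (T0 := 2463 / 1000) (by norm_num) hP
        (le_trans (by norm_num) h1) (by norm_num) (by norm_num) (by norm_num)
        (he2 _ (by norm_num)) (he3 _ (by norm_num)) ?_ (by norm_num)
      have h5 := sn3_exp 3 (x := 969 / 10 * (3828 / 100000)) (y := 709 / 1000)
        (by norm_num) (by norm_num)
      norm_num at h5 ⊢
      linarith

theorem winS_a (H : HypS n k w) :
    Kn n w * ∫ τ in (0 : ℝ)..(1 / 4), Ew n w τ * RtrS w (sg n w) τ ≤ 3 / 1000 := by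
  have hw0 := H.hw0
  have hw1 := H.hw1
  have hσ := H.sg_pos
  have hσ1 := H.sg_le
  have hPge := H.P_ge
  have hPp : 0 < PPn n w := by linarith
  have hpi := Real.pi_gt_d6
  have hpi2 := Real.pi_lt_d6
  have hpi3 : Real.pi ≤ 3141593 / 1000000 := by linarith
  have hK0 := H.Kn_nonneg
  -- the bound of `RtrS`
  have hR : ∀ τ ∈ Set.Icc (0 : ℝ) (1 / 4), RtrS w (sg n w) τ ≤ 33 / 10 := by
    intro τ hτ
    obtain ⟨t0, t1⟩ := hτ
    unfold RtrS
    have b1 : Real.exp (epsO (sg n w) τ / 2) ≤ 102 / 100 := by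
      have h1 : epsO (sg n w) τ / 2 ≤ 19 / 1000 := by
        unfold epsO
        calc sg n w * (1 + τ ^ 2) * (30086 / 10000 + 3184 / 10000 * τ) / 2
            ≤ 114 / 10000 * (1 + (1 / 4) ^ 2) * (30086 / 10000 + 3184 / 10000 * (1 / 4)) / 2 := by
              gcongr
          _ ≤ _ := by norm_num
      have h2 := sn3_exp_le (x := 19 / 1000) (by norm_num) (by norm_num)
      refine (Real.exp_le_exp.2 h1).trans (h2.trans (by norm_num))
    have b2 : ‖ss (sg n w) τ‖ ≤ sg n w * (10308 / 10000) := by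
      unfold ss
      have h1 : ((sg n w : ℂ) + (sg n w * τ : ℝ) * I) = (sg n w : ℂ) * (1 + (τ : ℂ) * I) := by
        push_cast
        ring
      rw [h1, norm_mul, Complex.norm_of_nonneg hσ.le]
      apply mul_le_mul_of_nonneg_left _ hσ.le
      have h2 : ‖(1 : ℂ) + (τ : ℂ) * I‖ = Real.sqrt (1 + τ ^ 2) := by
        rw [Complex.norm_def, Complex.normSq_apply]
        congr 1
        simp
        ring
      rw [h2, Real.sqrt_le_left (by norm_num)]
      nlinarith
    have b3 : 1414 / 1000 * w ≤ ‖gam w‖ := by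
      rw [norm_gam w hw0, le_div_iff₀ (by positivity)]
      have h1 : Real.sqrt (1 + w ^ 2) ≤ 14143 / 10000 := by
        rw [Real.sqrt_le_left (by norm_num)]
        nlinarith
      calc 1414 / 1000 * w * Real.sqrt (1 + w ^ 2) ≤ 1414 / 1000 * w * (14143 / 10000) := by gcongr
        _ ≤ 2 * w := by nlinarith
    have b4 : sg n w ≤ 7419 / 100000 * w := by
      have h1 := H.sg_div_w_le
      have h2 : sg n w / w ≤ 7419 / 100000 := by
        by_contra hc
        push Not at hc
        have h3 : 7419 / 100000 * (1727 / 100 : ℝ) < sg n w / w * PPn n w := by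
          apply mul_lt_mul hc hPge (by norm_num) (by positivity)
        norm_num at h3
        linarith
      rw [div_le_iff₀ hw0] at h2
      exact h2
    have b5 : Real.sqrt (2 * Real.pi * ‖ss (sg n w) τ‖ / ‖gam w‖) ≤ 59 / 100 := by
      have hg : 0 < ‖gam w‖ := lt_of_lt_of_le (by positivity) b3
      rw [Real.sqrt_le_left (by norm_num), div_le_iff₀ hg]
      calc 2 * Real.pi * ‖ss (sg n w) τ‖
          ≤ 2 * (3141593 / 1000000) * (sg n w * (10308 / 10000)) := by
            gcongr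
        _ ≤ 2 * (3141593 / 1000000) * ((7419 / 100000 * w) * (10308 / 10000)) := by
            gcongr
        _ ≤ (59 / 100) ^ 2 * (1414 / 1000 * w) := by nlinarith
        _ ≤ (59 / 100) ^ 2 * ‖gam w‖ := by gcongr
    have b6 : 5 * Real.pi / 6 * Real.exp (epsO (sg n w) τ / 2) ≤
        5 * (3141593 / 1000000) / 6 * (102 / 100) := by gcongr
    refine (add_le_add b6 b5).trans ?_
    norm_num
  have hEc : Continuous (fun τ => Ew n w τ) := by
    unfold Ew
    refine Real.continuous_exp.comp (Continuous.neg ?_)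
    refine Continuous.div (by fun_prop) (by fun_prop) (fun τ => by positivity)
  have h1 : ∫ τ in (0 : ℝ)..(1 / 4), Ew n w τ * RtrS w (sg n w) τ ≤
      ∫ τ in (0 : ℝ)..(1 / 4), Ew n w τ * (33 / 10) := by
    refine (le_abs_self _).trans ?_
    rw [← Real.norm_eq_abs]
    refine intervalIntegral.norm_integral_le_of_norm_le (by norm_num) ?_
      ((hEc.mul continuous_const).intervalIntegrable _ _)
    refine Filter.Eventually.of_forall fun τ hτ => ?_
    have hE0 : 0 ≤ Ew n w τ := (Real.exp_pos _).le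
    have hR0 : 0 ≤ RtrS w (sg n w) τ := by
      unfold RtrS
      have := Real.pi_pos
      positivity
    rw [Real.norm_of_nonneg (mul_nonneg hE0 hR0)]
    exact mul_le_mul_of_nonneg_left (hR τ ⟨hτ.1.le, hτ.2⟩) hE0
  rw [intervalIntegral.integral_mul_const] at h1
  have h2 := WS_left H (c := 0) (d := 1 / 4) le_rfl (by norm_num) (by norm_num)
  have hm : ∀ v : ℝ, w ≤ v → v ≤ 1 → (3 / 4 - 9 / 32 * v) ^ 2 / (17 / 16) ≤
      (1 - 9 / 32 * w - 1 / 4) ^ 2 / (1 + (1 / 4 : ℝ) ^ 2) := by
    intro v hv hv1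
    have h1 : (17 / 16 : ℝ) = 1 + (1 / 4 : ℝ) ^ 2 := by norm_num
    rw [h1]
    apply div_le_div_of_nonneg_right _ (by norm_num)
    apply pow_le_pow_left₀ (by linarith)
    linarith
  have h3 : PPn n w * Real.exp (-(PPn n w * ((1 - 9 / 32 * w - 1 / 4) ^ 2 /
      (1 + (1 / 4 : ℝ) ^ 2)))) ≤ 16 / 1000 := by
    rcases le_total w (3 / 10) with h | h
    · have h4 := hm _ h (by norm_num)
      refine (sn3_T (P0 := 1727 / 100) (m0 := 4169 / 10000) (by norm_num) hPge
        (le_trans (by norm_num) h4) (by norm_num)).trans ?_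
      have h5 := sn3_exp 7 (x := 1727 / 100 * (4169 / 10000)) (y := 199 / 1000)
        (by norm_num) (by norm_num)
      norm_num at h5 ⊢
      linarith
    · have h4 := hm _ hw1 (by norm_num)
      have hP : 547 / 10 ≤ PPn n w := sn3_P H (by norm_num) (by linarith)
      refine (sn3_T (P0 := 547 / 10) (m0 := 2067 / 10000) (by norm_num) hP
        (le_trans (by norm_num) h4) (by norm_num)).trans ?_
      have h5 := sn3_exp_nat 11 (x := 547 / 10 * (2067 / 10000)) (by norm_num)
      norm_num at h5 ⊢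
      linarith
  calc Kn n w * ∫ τ in (0 : ℝ)..(1 / 4), Ew n w τ * RtrS w (sg n w) τ
      ≤ Kn n w * ((∫ τ in (0 : ℝ)..(1 / 4), Ew n w τ) * (33 / 10)) :=
        mul_le_mul_of_nonneg_left h1 hK0
    _ = (Kn n w * ∫ τ in (0 : ℝ)..(1 / 4), Ew n w τ) * (33 / 10) := by ring
    _ ≤ (2251 / 10000 * PPn n w * (1 / 4 - 0) *
        Real.exp (-(PPn n w * ((1 - 9 / 32 * w - 1 / 4) ^ 2 / (1 + (1 / 4) ^ 2))))) *
          (33 / 10) := mul_le_mul_of_nonneg_right h2 (by norm_num)
    _ = 2251 / 40000 * (33 / 10) * (PPn n w * Real.exp (-(PPn n w *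
        ((1 - 9 / 32 * w - 1 / 4) ^ 2 / (1 + (1 / 4) ^ 2))))) := by ring
    _ ≤ 2251 / 40000 * (33 / 10) * (16 / 1000) := by gcongr
    _ ≤ 3 / 1000 := by norm_num

end Pool.Agent.Lib.Durfee
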