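import Pool.Agent.Lib.MP_9393b1_co.WinSN1
import Pool.Agent.Lib.MP_9393b1_co.WinSN2
import Pool.Agent.Lib.MP_9393b1_co.WinSN3

/-! # Regime S: the window error, total -/

set_option autoImplicit false

namespace Pool.Agent.Lib.Durfee

open Complex MeasureTheory Filter Topology

variable {n k : ℕ} {w : ℝ}

private theorem wsq_saddle_norm (hw : 0 < w) (hn : 1 ≤ n) (τ : ℝ) :
    ‖exp (n * ss (sg n w) τ + VV w / ss (sg n w) τ)‖ = Real.exp (2 * PPn n w) * Ew n w τ := by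
  have h := norm_exp_saddle hw hn τ
  unfold sg Ew PPn ts
  rw [h, ← Real.exp_add]
  congr 1

theorem exists_QS (H : HypS n k w) :
    ∃ Q : ℝ → ℝ, IntervalIntegrable Q volume 0 4 ∧
      (∀ τ ∈ Set.Icc (0 : ℝ) 4,
        ‖(∫ θ in (-(5 * Real.pi / 12))..(5 * Real.pi / 12),
            exp (n * ss (sg n w) τ) * PP w θ (ss (sg n w) τ)) -
          exp (n * ss (sg n w) τ + VV w / ss (sg n w) τ) *
            (2 * Real.pi * ss (sg n w) τ / gam w) ^ (1 / 2 : ℂ)‖ ≤
        Real.exp (2 * PPn n w) * Q τ) ∧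
      Kn n w * ∫ τ in (0 : ℝ)..4, Q τ ≤ 68 / 100 := by
  have hw0 := H.hw0
  have hw1 := H.hw1
  have hσ := H.sg_pos
  have hn1 : 1 ≤ n := le_trans (by norm_num) H.hn
  obtain ⟨F, hF⟩ : ∃ F : ℝ → ℝ, F = fun τ => Ew n w τ * RtrS w (sg n w) τ := ⟨_, rfl⟩
  obtain ⟨G, hG⟩ : ∃ G : ℝ → ℝ,
    G = fun τ => Ew n w τ * (RinS w (sg n w) τ + RoutS w (sg n w) τ) := ⟨_, rfl⟩
  obtain ⟨Q, hQ⟩ : ∃ Q : ℝ → ℝ, Q = fun τ => if τ < 1 / 4 then F τ else G τ := ⟨_, rfl⟩
  have iF : IntervalIntegrable F volume 0 (1 / 4) := by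
    rw [hF]
    exact (continuousOn_Rtr H 0 (1 / 4)).intervalIntegrable_of_Icc (by norm_num)
  have iG : ∀ a b : ℝ, 1 / 4 ≤ a → a ≤ b → IntervalIntegrable G volume a b := by
    intro a b ha hab
    rw [hG]
    exact (continuousOn_RS H (lt_of_lt_of_le (by norm_num) ha) b).intervalIntegrable_of_Icc hab
  have eF : Set.EqOn F Q (Set.Ioo 0 (1 / 4)) := by
    intro τ hτ
    rw [hQ]
    simp only
    rw [if_pos hτ.2]
  have eG : ∀ a b : ℝ, 1 / 4 ≤ a → Set.EqOn G Q (Set.Ioo a b) := by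
    intro a b ha τ hτ
    rw [hQ]
    simp only
    rw [if_neg (by linarith [hτ.1])]
  have iQ0 : IntervalIntegrable Q volume 0 (1 / 4) := by
    refine iF.congr_uIoo ?_
    rw [Set.uIoo_of_le (by norm_num)]
    exact eF
  have iQ : ∀ a b : ℝ, 1 / 4 ≤ a → a ≤ b → IntervalIntegrable Q volume a b := by
    intro a b ha hab
    refine (iG a b ha hab).congr_uIoo ?_
    rw [Set.uIoo_of_le hab]
    exact eG a b ha
  have eQ0 : ∫ τ in (0 : ℝ)..(1 / 4), Q τ = ∫ τ in (0 : ℝ)..(1 / 4), F τ :=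
    (intervalIntegral.integral_congr_Ioo_of_le (by norm_num) eF).symm
  have eQ : ∀ a b : ℝ, 1 / 4 ≤ a → a ≤ b → ∫ τ in a..b, Q τ = ∫ τ in a..b, G τ :=
    fun a b ha hab => (intervalIntegral.integral_congr_Ioo_of_le hab (eG a b ha)).symm
  refine ⟨Q, iQ0.trans (iQ (1 / 4) 4 le_rfl (by norm_num)), ?_, ?_⟩
  · intro τ hτ
    by_cases h : τ < 1 / 4
    · have h1 := window_triv_S (w := w) (σ := sg n w) (τ := τ) (x := n) hw0 hw1 hσ hτ.1
      rw [Complex.ofReal_natCast, wsq_saddle_norm hw0 hn1] at h1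
      have h2 : Q τ = Ew n w τ * RtrS w (sg n w) τ := by
        rw [hQ]
        simp only
        rw [if_pos h, hF]
      rw [h2, ← mul_assoc]
      exact h1
    · have h1 := window_S (w := w) (σ := sg n w) (τ := τ) (x := n) hw0 hw1 hσ hτ.1
      rw [Complex.ofReal_natCast, wsq_saddle_norm hw0 hn1] at h1
      have h2 : Q τ = Ew n w τ * (RinS w (sg n w) τ + RoutS w (sg n w) τ) := by
        rw [hQ]
        simp only
        rw [if_neg h, hG]
      rw [h2, ← mul_assoc]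
      exact h1
  · have s1 := intervalIntegral.integral_add_adjacent_intervals iQ0
      (iQ (1 / 4) (1 / 2) le_rfl (by norm_num))
    have s2 := intervalIntegral.integral_add_adjacent_intervals
      (iQ0.trans (iQ (1 / 4) (1 / 2) le_rfl (by norm_num)))
      (iQ (1 / 2) (3 / 2) (by norm_num) (by norm_num))
    have s3 := intervalIntegral.integral_add_adjacent_intervals
      (iQ0.trans (iQ (1 / 4) (3 / 2) le_rfl (by norm_num)))
      (iQ (3 / 2) 2 (by norm_num) (by norm_num))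
    have s4 := intervalIntegral.integral_add_adjacent_intervals
      (iQ0.trans (iQ (1 / 4) 2 le_rfl (by norm_num)))
      (iQ 2 3 (by norm_num) (by norm_num))
    have s5 := intervalIntegral.integral_add_adjacent_intervals
      (iQ0.trans (iQ (1 / 4) 3 le_rfl (by norm_num)))
      (iQ 3 4 (by norm_num) (by norm_num))
    have a := winS_a H
    have b := winS_b H
    have c := winS_c H
    have d := winS_d H
    have e := winS_e H
    have f := winS_f H
    rw [eQ0, eQ (1 / 4) (1 / 2) le_rfl (by norm_num)] at s1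
    rw [eQ (1 / 2) (3 / 2) (by norm_num) (by norm_num)] at s2
    rw [eQ (3 / 2) 2 (by norm_num) (by norm_num)] at s3
    rw [eQ 2 3 (by norm_num) (by norm_num)] at s4
    rw [eQ 3 4 (by norm_num) (by norm_num)] at s5
    rw [← s5, ← s4, ← s3, ← s2, ← s1]
    rw [mul_add, mul_add, mul_add, mul_add, mul_add]
    have hFa : Kn n w * ∫ τ in (0 : ℝ)..(1 / 4), F τ ≤ 3 / 1000 := by rw [hF]; exact a
    have hGb : Kn n w * ∫ τ in (1 / 4 : ℝ)..(1 / 2), G τ ≤ 20 / 1000 := by rw [hG]; exact b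
    have hGc : Kn n w * ∫ τ in (1 / 2 : ℝ)..(3 / 2), G τ ≤ 405 / 1000 := by rw [hG]; exact c
    have hGd : Kn n w * ∫ τ in (3 / 2 : ℝ)..2, G τ ≤ 140 / 1000 := by rw [hG]; exact d
    have hGe : Kn n w * ∫ τ in (2 : ℝ)..3, G τ ≤ 100 / 1000 := by rw [hG]; exact e
    have hGf : Kn n w * ∫ τ in (3 : ℝ)..4, G τ ≤ 8 / 1000 := by rw [hG]; exact f
    linarith

end Pool.Agent.Lib.Durfee
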