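import Pool.Agent.Lib.MP_9393b1_co.OffB
import Pool.Agent.Lib.MP_9393b1_co.SpecA

/-! # The sine transform `z1` of the weight `om v = 1/(1+cosh v)` -/

set_option autoImplicit false

namespace Pool.Agent.Lib.Durfee

open Complex MeasureTheory Filter Topology

noncomputable def om (v : ℝ) : ℝ := 1 / (1 + Real.cosh v)

noncomputable def z1 (w κ : ℝ) : ℝ :=
  ∫ u in Set.Ioi (0 : ℝ), om (u - Real.log w) * Real.sin (κ * u)

/-- `S(κ) = 2πκ/sinh(πκ)` for `κ > 0` -/
noncomputable def SS (κ : ℝ) : ℝ := 2 * Real.pi * κ / Real.sinh (Real.pi * κ)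

private lemma zedA_pos (v : ℝ) : 0 < 1 + Real.cosh v := by
  have := Real.cosh_pos v
  linarith

private lemma zedA_om_nonneg (v : ℝ) : 0 ≤ om v := by
  unfold om
  exact (div_pos one_pos (zedA_pos v)).le

theorem wt_eq_om {x : ℝ} (hx : 0 < x) : wt x = om (Real.log x) := by
  unfold wt om
  rw [Real.cosh_log hx]
  field_simp
  ring

theorem hasDerivAt_om (v : ℝ) : HasDerivAt om (-Real.sinh v / (1 + Real.cosh v) ^ 2) v := by
  have h1 : HasDerivAt (fun x : ℝ => 1 + Real.cosh x) (Real.sinh v) v :=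
    (Real.hasDerivAt_cosh v).const_add 1
  have h2 := (hasDerivAt_const v (1 : ℝ)).div h1 (zedA_pos v).ne'
  refine h2.congr_deriv ?_
  rw [zero_mul, one_mul, zero_sub]

theorem hasDerivAt_om' (v : ℝ) :
    HasDerivAt (fun x : ℝ => -Real.sinh x / (1 + Real.cosh x) ^ 2)
      ((Real.cosh v - 2) / (1 + Real.cosh v) ^ 2) v := by
  have h1 : HasDerivAt (fun x : ℝ => 1 + Real.cosh x) (Real.sinh v) v :=
    (Real.hasDerivAt_cosh v).const_add 1
  have h2 : HasDerivAt (fun x : ℝ => (1 + Real.cosh x) ^ 2)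
      (2 * (1 + Real.cosh v) * Real.sinh v) v := by
    refine (h1.pow 2).congr_deriv ?_
    norm_num
  have h3 := ((Real.hasDerivAt_sinh v).neg).div h2 (pow_ne_zero 2 (zedA_pos v).ne')
  refine h3.congr_deriv ?_
  have hne := (zedA_pos v).ne'
  have hs : Real.sinh v ^ 2 = Real.cosh v ^ 2 - 1 := by
    rw [Real.cosh_sq]; ring
  simp only [Pi.neg_apply]
  rw [div_eq_div_iff (by positivity) (by positivity)]
  have e : (-Real.cosh v * (1 + Real.cosh v) ^ 2 -
      -Real.sinh v * (2 * (1 + Real.cosh v) * Real.sinh v)) =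
      -Real.cosh v * (1 + Real.cosh v) ^ 2 + 2 * (1 + Real.cosh v) * Real.sinh v ^ 2 := by ring
  rw [e, hs]
  ring

private lemma zedA_om_eq (v : ℝ) :
    om v = 2 * Real.exp (-v) / (1 + Real.exp (-v)) ^ 2 := by
  unfold om
  have h1 : Real.exp v * Real.exp (-v) = 1 := by rw [← Real.exp_add]; simp
  have hp := Real.exp_pos v
  have hn := Real.exp_pos (-v)
  rw [Real.cosh_eq, div_eq_div_iff (by positivity) (by positivity)]
  linear_combination (-1 : ℝ) * h1

private lemma zedA_hasDerivAt_F (v : ℝ) :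
    HasDerivAt (fun x : ℝ => (1 - Real.exp (-x)) / (1 + Real.exp (-x))) (om v) v := by
  have h0 : HasDerivAt (fun x : ℝ => Real.exp (-x)) (-Real.exp (-v)) v := by
    have h := (hasDerivAt_neg v).exp
    refine h.congr_deriv ?_
    ring
  have h1 : HasDerivAt (fun x : ℝ => 1 - Real.exp (-x)) (Real.exp (-v)) v := by
    refine (h0.const_sub 1).congr_deriv ?_
    ring
  have h2 : HasDerivAt (fun x : ℝ => 1 + Real.exp (-x)) (-Real.exp (-v)) v := h0.const_add 1
  have hne : (1 + Real.exp (-v)) ≠ 0 := by positivity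
  refine (h1.div h2 hne).congr_deriv ?_
  rw [zedA_om_eq]
  congr 1
  ring

private lemma zedA_tendsto_F :
    Tendsto (fun x : ℝ => (1 - Real.exp (-x)) / (1 + Real.exp (-x))) atTop (𝓝 1) := by
  have h := Real.tendsto_exp_neg_atTop_nhds_zero
  have h1 := (h.const_sub 1).div (h.const_add 1) (by norm_num)
  have h2 : ((1 : ℝ) - 0) / (1 + 0) = 1 := by norm_num
  rw [h2] at h1
  exact h1

theorem integral_om_Ioi (a : ℝ) : ∫ v in Set.Ioi a, om v = 1 - Real.tanh (a / 2) := by
  rw [integral_Ioi_of_hasDerivAt_of_nonneg' (fun v _ => zedA_hasDerivAt_F v)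
    (fun v _ => zedA_om_nonneg v) zedA_tendsto_F]
  congr 1
  rw [Real.tanh_eq_sinh_div_cosh, Real.sinh_eq, Real.cosh_eq]
  have h1 : Real.exp (-a) = Real.exp (-(a / 2)) * Real.exp (-(a / 2)) := by
    rw [← Real.exp_add]; ring_nf
  have h2 : Real.exp (a / 2) * Real.exp (-(a / 2)) = 1 := by rw [← Real.exp_add]; simp
  have hp := Real.exp_pos (a / 2)
  have hn := Real.exp_pos (-(a / 2))
  rw [h1, div_eq_div_iff (by positivity) (by positivity)]
  linear_combination (-Real.exp (-(a / 2))) * h2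

private lemma zedA_integrable_of_abs {f : ℝ → ℝ} (hf : IntegrableOn f (Set.Ioi 0)) :
    Integrable (fun x => f |x|) := by
  have h1 : IntegrableOn (fun x => f |x|) (Set.Ioi 0) := by
    refine hf.congr_fun (fun x hx => ?_) measurableSet_Ioi
    rw [abs_of_pos hx]
  have int_Iic : IntegrableOn (fun x ↦ f |x|) (Set.Iic 0) := by
    rw [← Measure.map_neg_eq_self (volume : Measure ℝ)]
    let m : MeasurableEmbedding fun x : ℝ => -x := (Homeomorph.neg ℝ).measurableEmbedding
    rw [m.integrableOn_map_iff]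
    simp_rw [Function.comp_def, abs_neg, Set.neg_preimage, Set.neg_Iic, neg_zero]
    exact Iff.mpr integrableOn_Ici_iff_integrableOn_Ioi h1
  rw [← integrableOn_univ, ← Set.Iic_union_Ioi (a := (0 : ℝ))]
  exact int_Iic.union h1

private lemma zedA_om_abs (v : ℝ) : om |v| = om v := by
  unfold om
  rw [Real.cosh_abs]

theorem integrable_om : Integrable om := by
  have h := zedA_integrable_of_abs (f := om) (integrableOn_Ioi_deriv_of_nonneg'
    (fun v _ => zedA_hasDerivAt_F v) (fun v _ => zedA_om_nonneg v) zedA_tendsto_F)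
  simpa only [zedA_om_abs] using h

private lemma zedA_tendsto_cosh : Tendsto (fun v : ℝ => 1 + Real.cosh v) atTop atTop := by
  refine tendsto_atTop_mono (fun v => ?_)
    ((Real.tendsto_exp_atTop.const_mul_atTop (show (0 : ℝ) < 1 / 2 by norm_num)))
  rw [Real.cosh_eq]
  have := Real.exp_pos (-v)
  linarith

private lemma zedA_tendsto_om : Tendsto om atTop (𝓝 0) := by
  unfold om
  simp_rw [one_div]
  exact zedA_tendsto_cosh.inv_tendsto_atTop

private lemma zedA_tendsto_om' :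
    Tendsto (fun x : ℝ => -Real.sinh x / (1 + Real.cosh x) ^ 2) atTop (𝓝 0) := by
  have h1 : ∀ x : ℝ, ‖-Real.sinh x / (1 + Real.cosh x) ^ 2‖ ≤ om x := by
    intro x
    unfold om
    have hp := zedA_pos x
    rw [Real.norm_eq_abs, abs_div, abs_neg, abs_of_pos (pow_pos hp 2), sq, ← div_div]
    apply div_le_div_of_nonneg_right _ hp.le
    rw [div_le_one hp]
    have h2 : |Real.sinh x| ≤ Real.cosh x := by
      apply abs_le_of_sq_le_sq _ (Real.cosh_pos x).le
      rw [Real.cosh_sq]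
      linarith
    linarith
  exact squeeze_zero_norm h1 zedA_tendsto_om

/-- `∫ |om'| = 1` -/
theorem integral_abs_om' : ∫ v : ℝ, |(-Real.sinh v / (1 + Real.cosh v) ^ 2)| ≤ 1 := by
  have h1 : (fun v : ℝ => |(-Real.sinh v / (1 + Real.cosh v) ^ 2)|) =
      fun v : ℝ => (fun x : ℝ => Real.sinh x / (1 + Real.cosh x) ^ 2) |v| := by
    funext v
    change |(-Real.sinh v / (1 + Real.cosh v) ^ 2)| = Real.sinh |v| / (1 + Real.cosh |v|) ^ 2
    rw [abs_div, abs_neg, Real.abs_sinh, Real.cosh_abs, abs_of_pos (pow_pos (zedA_pos v) 2)]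
  rw [h1, integral_comp_abs (f := fun x : ℝ => Real.sinh x / (1 + Real.cosh x) ^ 2)]
  have h2 : ∫ x in Set.Ioi (0 : ℝ), Real.sinh x / (1 + Real.cosh x) ^ 2 = 1 / 2 := by
    have h3 : ∀ x ∈ Set.Ici (0 : ℝ), HasDerivAt (fun x => -om x)
        (Real.sinh x / (1 + Real.cosh x) ^ 2) x := by
      intro x _
      refine (hasDerivAt_om x).neg.congr_deriv ?_
      ring
    have h4 : Tendsto (fun x => -om x) atTop (𝓝 0) := by
      have := zedA_tendsto_om.neg
      rwa [neg_zero] at this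
    rw [integral_Ioi_of_hasDerivAt_of_nonneg' h3 (fun x hx => ?_) h4]
    · simp [om]
      norm_num
    · have := zedA_pos x
      have h5 : 0 ≤ Real.sinh x := Real.sinh_nonneg_iff.2 (le_of_lt hx)
      positivity
  rw [h2]
  norm_num

/-- `∫_ℝ |om''| = 4/√27 ≤ 0.77`, `∫_0^∞ |om''| ≤ 0.385` -/
theorem integral_abs_om'' :
    Integrable (fun v : ℝ => (Real.cosh v - 2) / (1 + Real.cosh v) ^ 2) ∧
    ∫ v : ℝ, |(Real.cosh v - 2) / (1 + Real.cosh v) ^ 2| ≤ 77 / 100 ∧
    ∫ v in Set.Ioi (0 : ℝ), |(Real.cosh v - 2) / (1 + Real.cosh v) ^ 2| ≤ 385 / 1000 := by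
  set v₀ : ℝ := Real.arcosh 2 with hv₀
  have hc : Real.cosh v₀ = 2 := Real.cosh_arcosh (by norm_num)
  have hs : Real.sinh v₀ = Real.sqrt 3 := by
    rw [hv₀, Real.sinh_arcosh (by norm_num)]
    norm_num
  have hv0 : 0 ≤ v₀ := Real.arcosh_nonneg (by norm_num)
  have hneg : ∀ v ∈ Set.Icc 0 v₀, Real.cosh v ≤ 2 := by
    intro v hv
    rw [← hc]
    apply Real.cosh_le_cosh.2
    rw [abs_of_nonneg hv.1, abs_of_nonneg hv0]
    exact hv.2
  have hpos : ∀ v ∈ Set.Ici v₀, 2 ≤ Real.cosh v := by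
    intro v hv
    rw [← hc]
    apply Real.cosh_le_cosh.2
    rw [abs_of_nonneg hv0, abs_of_nonneg (hv0.trans hv)]
    exact hv
  have hIoi : IntegrableOn (fun v : ℝ => (Real.cosh v - 2) / (1 + Real.cosh v) ^ 2)
      (Set.Ioi v₀) :=
    integrableOn_Ioi_deriv_of_nonneg' (fun v _ => hasDerivAt_om' v)
      (fun v hv => div_nonneg (sub_nonneg.2 (hpos v (Set.Ioi_subset_Ici_self hv))) (by positivity))
      zedA_tendsto_om'
  have hcont : Continuous (fun v : ℝ => (Real.cosh v - 2) / (1 + Real.cosh v) ^ 2) := by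
    apply Continuous.div (by fun_prop) (by fun_prop)
    intro v
    exact pow_ne_zero 2 (zedA_pos v).ne'
  have hIoc : IntegrableOn (fun v : ℝ => (Real.cosh v - 2) / (1 + Real.cosh v) ^ 2)
      (Set.Ioc 0 v₀) :=
    (hcont.integrableOn_Icc).mono_set Set.Ioc_subset_Icc_self
  have hInt0 : IntegrableOn (fun v : ℝ => (Real.cosh v - 2) / (1 + Real.cosh v) ^ 2)
      (Set.Ioi 0) := by
    rw [← Set.Ioc_union_Ioi_eq_Ioi hv0]
    exact hIoc.union hIoi
  have hI2 : ∫ v in Set.Ioi v₀, |(Real.cosh v - 2) / (1 + Real.cosh v) ^ 2| =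
      Real.sqrt 3 / 9 := by
    have e : ∫ v in Set.Ioi v₀, |(Real.cosh v - 2) / (1 + Real.cosh v) ^ 2| =
        ∫ v in Set.Ioi v₀, (Real.cosh v - 2) / (1 + Real.cosh v) ^ 2 := by
      apply setIntegral_congr_fun measurableSet_Ioi
      intro v hv
      simp only []
      exact abs_of_nonneg (div_nonneg (sub_nonneg.2 (hpos v (Set.Ioi_subset_Ici_self hv))) (by positivity))
    rw [e, integral_Ioi_of_hasDerivAt_of_nonneg' (fun v _ => hasDerivAt_om' v)
      (fun v hv => div_nonneg (sub_nonneg.2 (hpos v (Set.Ioi_subset_Ici_self hv))) (by positivity))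
      zedA_tendsto_om', hs, hc]
    norm_num
    ring
  have hI1 : ∫ v in Set.Ioc 0 v₀, |(Real.cosh v - 2) / (1 + Real.cosh v) ^ 2| =
      Real.sqrt 3 / 9 := by
    have e : ∫ v in Set.Ioc 0 v₀, |(Real.cosh v - 2) / (1 + Real.cosh v) ^ 2| =
        ∫ v in Set.Ioc 0 v₀, -((Real.cosh v - 2) / (1 + Real.cosh v) ^ 2) := by
      apply setIntegral_congr_fun measurableSet_Ioc
      intro v hv
      simp only []
      exact abs_of_nonpos (div_nonpos_of_nonpos_of_nonneg
        (sub_nonpos.2 (hneg v (Set.Ioc_subset_Icc_self hv))) (by positivity))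
    rw [e, ← intervalIntegral.integral_of_le hv0, intervalIntegral.integral_neg,
      intervalIntegral.integral_eq_sub_of_hasDerivAt (fun v _ => hasDerivAt_om' v)
        (hcont.intervalIntegrable _ _), hs, hc]
    simp
    norm_num
    ring
  have h3 : Real.sqrt 3 ≤ 17325 / 10000 := by
    rw [Real.sqrt_le_left (by norm_num)]
    norm_num
  have hI : ∫ v in Set.Ioi (0 : ℝ), |(Real.cosh v - 2) / (1 + Real.cosh v) ^ 2| =
      2 * Real.sqrt 3 / 9 := by
    rw [← Set.Ioc_union_Ioi_eq_Ioi hv0, setIntegral_union (Set.Ioc_disjoint_Ioi le_rfl)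
      measurableSet_Ioi hIoc.abs hIoi.abs, hI1, hI2]
    ring
  refine ⟨?_, ?_, ?_⟩
  · have h := zedA_integrable_of_abs hInt0
    simpa only [Real.cosh_abs] using h
  · have e : (fun v : ℝ => |(Real.cosh v - 2) / (1 + Real.cosh v) ^ 2|) =
        fun v : ℝ => (fun x : ℝ => |(Real.cosh x - 2) / (1 + Real.cosh x) ^ 2|) |v| := by
      funext v
      simp only [Real.cosh_abs]
    rw [e, integral_comp_abs
      (f := fun x : ℝ => |(Real.cosh x - 2) / (1 + Real.cosh x) ^ 2|), hI]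
    linarith
  · rw [hI]
    linarith

end Pool.Agent.Lib.Durfee
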